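import Pool.Agent.H63.SelCG0

set_option autoImplicit false
open Complex Pool.Agent.Lead.Sel

namespace Pool.Agent.H63.Sel

def Mem (a : ℕ → ℂ) (D : ℝ) : Prop := a 1 = 1 ∧ Ram a ∧ Eul a ∧ ∃ m G, SelData a D m G

def Triv (a : ℕ → ℂ) : Prop := ∀ n : ℕ, 2 ≤ n → a n = 0

def Prim (a : ℕ → ℂ) : Prop := (∃ D, Mem a D) ∧ (∃ n : ℕ, 2 ≤ n ∧ a n ≠ 0) ∧
  ∀ f g : ℕ → ℂ, (∃ D, Mem f D) → (∃ D, Mem g D) →
    (∀ s : ℂ, 1 < s.re → LSeries a s = LSeries f s * LSeries g s) → Triv f ∨ Triv g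

theorem slope_le {A B c R0 : ℝ} (h : ∀ R, R0 ≤ R → A * R ≤ B * R + c) : A ≤ B := by
  by_contra hcon
  push Not at hcon
  have h1 := h (max R0 ((c + 1) / (A - B))) (le_max_left _ _)
  have h2 : (c + 1) / (A - B) ≤ max R0 ((c + 1) / (A - B)) := le_max_right _ _
  rw [div_le_iff₀ (by linarith)] at h2
  linarith

theorem additive (h0 : CG0) {a f g : ℕ → ℂ} {D Df Dg : ℝ} (ha : Mem a D) (hf : Mem f Df)
    (hg : Mem g Dg) (h : ∀ s : ℂ, 1 < s.re → LSeries a s = LSeries f s * LSeries g s) :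
    D = Df + Dg := by
  obtain ⟨a1, a2, -, ma, Ga, a3⟩ := ha
  obtain ⟨f1, f2, -, mf, Gf, f3⟩ := hf
  obtain ⟨g1, g2, -, mg, Gg, g3⟩ := hg
  obtain ⟨Ea, Ra, ha⟩ := h0 a D ma Ga a1 a2 a3
  obtain ⟨Ef, Rf, hf⟩ := h0 f Df mf Gf f1 f2 f3
  obtain ⟨Eg, Rg, hg⟩ := h0 g Dg mg Gg g1 g2 g3
  have da := a3.1
  have df := f3.1
  have dg := g3.1
  have e := entire_ext (F := fun s => Ga s * (s - 1) ^ (mf + mg))
    (G := fun s => Gf s * Gg s * (s - 1) ^ ma) (by fun_prop) (by fun_prop)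
    (U := {s : ℂ | 1 < s.re}) (isOpen_lt continuous_const Complex.continuous_re) (z := 2)
    (by norm_num) (fun s hs => by
      rw [a3.2.2.1 s hs, f3.2.2.1 s hs, g3.2.2.1 s hs, h s hs]; ring)
  have key : ∀ R, max Ra (max Rf Rg) ≤ R →
      D * R - Ea + ((mf + mg : ℕ) : ℝ) ≤ Df * R + Ef + (Dg * R + Eg) + ma ∧
      Df * R - Ef + (Dg * R - Eg) + ma ≤ D * R + Ea + ((mf + mg : ℕ) : ℝ) := by
    intro R hR
    have c1 : Cmp _ _ _ := ha R (le_of_max_le_left hR)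
    have c2 : Cmp _ _ _ := hf R (le_of_max_le_left (le_of_max_le_right hR))
    have c3 : Cmp _ _ _ := hg R (le_of_max_le_right (le_of_max_le_right hR))
    have c4 := c1.mul ((cmp_affine (-R - 1)).pow (mf + mg))
    have c5 := ((c2.mul c3).mul ((cmp_affine (-R - 1)).pow ma)).congr
      (g := fun t : ℝ => ‖Ga (-R + t * I)‖ * ‖((-R - 1 : ℝ) : ℂ) + t * I‖ ^ (mf + mg)) 0
      (fun t _ => by
        have e5 : (-R + t * I - 1 : ℂ) = ((-R - 1 : ℝ) : ℂ) + t * I := by push_cast; ring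
        have := congrArg norm (congrFun e (-R + t * I))
        simp only [norm_mul, norm_pow, e5] at this
        exact this.symm)
    exact ⟨c4.le c5, c5.le c4⟩
  apply le_antisymm
  · exact slope_le (c := Ea + Ef + Eg + ma - ((mf + mg : ℕ) : ℝ)) fun R hR => by
      have := (key R hR).1; linarith
  · exact slope_le (c := Ea + Ef + Eg - ma + ((mf + mg : ℕ) : ℝ)) fun R hR => by
      have := (key R hR).2; linarith

theorem coeff_prime {a f g : ℕ → ℂ} (ha : Ram a) (hf : Ram f) (hg : Ram g) (f1 : f 1 = 1)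
    (g1 : g 1 = 1) (h : ∀ s : ℂ, 1 < s.re → LSeries a s = LSeries f s * LSeries g s) {p : ℕ}
    (hp : p.Prime) : a p = f p + g p := by
  have s2 : (1 : ℝ) < (2 : ℂ).re := by norm_num
  have := LSeries.eq_of_LSeries_eventually_eq (f := a) (g := LSeries.convolution f g)
    ((Ram.summable ha s2).abscissaOfAbsConv_le.trans_lt (EReal.coe_lt_top _))
    (((Ram.summable hf s2).convolution (Ram.summable hg s2)).abscissaOfAbsConv_le.trans_lt
      (EReal.coe_lt_top _))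
    (by
      filter_upwards [Filter.eventually_gt_atTop (1 : ℝ)] with x hx
      rw [LSeries_convolution' (Ram.summable hf (by simpa using hx))
        (Ram.summable hg (by simpa using hx)), h x (by simpa using hx)]) hp.ne_zero
  rw [this, LSeries.convolution_def]
  simp only
  rw [Nat.sum_divisorsAntidiagonal (fun x y => f x * g y), hp.divisors,
    Finset.sum_pair hp.one_lt.ne, Nat.div_one, Nat.div_self hp.pos, f1, g1]
  ring

theorem factor (h0 : CG0) (h1 : CG1) (N : ℕ) : ∀ (a : ℕ → ℂ) (D : ℝ), Mem a D → D < N → ¬ Triv a →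
    ∃ (f : ℕ → ℂ) (l : List (ℕ → ℂ)), Prim f ∧ (∀ g ∈ l, Prim g) ∧
      ∀ p : ℕ, p.Prime → a p = f p + l.sum p := by
  have ge1 : ∀ a D, Mem a D → ¬ Triv a → 1 ≤ D := by
    rintro a D ⟨a1, a2, a3, m, G, a4⟩ hn
    by_contra hcon
    exact hn (h1 a D m G a1 a2 a3 a4 (not_le.1 hcon))
  induction N with
  | zero => intro a D ha hD hn; have := ge1 a D ha hn; simp at hD; linarith
  | succ N ih =>
    intro a D ha hD hn
    by_cases hp : Prim a
    · exact ⟨a, [], hp, by simp, by simp⟩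
    have : ∃ f g : ℕ → ℂ, (∃ D, Mem f D) ∧ (∃ D, Mem g D) ∧
        (∀ s : ℂ, 1 < s.re → LSeries a s = LSeries f s * LSeries g s) ∧ ¬ Triv f ∧ ¬ Triv g := by
      by_contra hcon
      apply hp
      refine ⟨⟨D, ha⟩, by unfold Triv at hn; push Not at hn; exact hn, fun f g hf hg h => ?_⟩
      by_contra h2
      push Not at h2
      exact hcon ⟨f, g, hf, hg, h, h2⟩
    obtain ⟨f, g, ⟨Df, hf⟩, ⟨Dg, hg⟩, h, nf, ng⟩ := this
    have e := additive h0 ha hf hg h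
    have b1 := ge1 f Df hf nf
    have b2 := ge1 g Dg hg ng
    push_cast at hD
    obtain ⟨f0, l1, p1, p2, p3⟩ := ih f Df hf (by linarith) nf
    obtain ⟨g0, l2, q1, q2, q3⟩ := ih g Dg hg (by linarith) ng
    refine ⟨f0, l1 ++ g0 :: l2, p1, ?_, fun p hp => ?_⟩
    · intro x hx
      rcases List.mem_append.1 hx with hx | hx
      · exact p2 x hx
      · rcases List.mem_cons.1 hx with rfl | hx
        · exact q1
        · exact q2 x hx
    · rw [coeff_prime ha.2.1 hf.2.1 hg.2.1 hf.1 hg.1 h hp, p3 p hp, q3 p hp]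
      simp [add_assoc]

noncomputable def B (f g : ℕ → ℂ) (N : ℕ) : ℂ :=
  ∑ p ∈ (Finset.Iic N).filter Nat.Prime, f p * starRingEnd ℂ (g p) / (p : ℂ)

theorem B_add_left (f f' g : ℕ → ℂ) (N : ℕ) : B (f + f') g N = B f g N + B f' g N := by
  simp only [B, Pi.add_apply, add_mul, add_div, Finset.sum_add_distrib]

theorem B_add_right (f g g' : ℕ → ℂ) (N : ℕ) : B f (g + g') N = B f g N + B f g' N := by
  simp only [B, Pi.add_apply, map_add, mul_add, add_div, Finset.sum_add_distrib]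

theorem B_self (f : ℕ → ℂ) (N : ℕ) :
    (B f f N).re = ∑ p ∈ (Finset.Iic N).filter Nat.Prime, ‖f p‖ ^ 2 / (p : ℝ) := by
  rw [B, Complex.re_sum]
  refine Finset.sum_congr rfl fun p _ => ?_
  rw [Complex.mul_conj, Complex.normSq_eq_norm_sq, ← Complex.ofReal_natCast, ← Complex.ofReal_div,
    Complex.ofReal_re]

def LB (f g : ℕ → ℂ) : Prop := ∃ C : ℝ, ∀ N, -C ≤ (B f g N).re

theorem LB_lists (P : (ℕ → ℂ) → Prop) (h : ∀ f g, P f → P g → LB f g) (l1 l2 : List (ℕ → ℂ))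
    (h1 : ∀ g ∈ l1, P g) (h2 : ∀ g ∈ l2, P g) : LB l1.sum l2.sum := by
  induction l1 with
  | nil => exact ⟨0, fun N => by simp [B]⟩
  | cons f l1 ih =>
    obtain ⟨C, hC⟩ := ih fun g hg => h1 g (List.mem_cons_of_mem _ hg)
    have : LB f l2.sum := by
      clear hC ih
      induction l2 with
      | nil => exact ⟨0, fun N => by simp [B]⟩
      | cons g l2 ih2 =>
        obtain ⟨C1, hC1⟩ := ih2 fun g hg => h2 g (List.mem_cons_of_mem _ hg)
        obtain ⟨C2, hC2⟩ := h f g (h1 f List.mem_cons_self) (h2 g List.mem_cons_self)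
        refine ⟨C1 + C2, fun N => ?_⟩
        rw [List.sum_cons, B_add_right, Complex.add_re]
        linarith [hC1 N, hC2 N]
    obtain ⟨C2, hC2⟩ := this
    refine ⟨C + C2, fun N => ?_⟩
    rw [List.sum_cons, B_add_left, Complex.add_re]
    linarith [hC N, hC2 N]

theorem final' (h0 : CG0) (h1 : CG1) (hx : EXS)
    (H1 : ∀ a : ℕ → ℂ, Prim a → ∃ C : ℝ, ∀ N : ℕ, 3 ≤ N →
      |(∑ p ∈ (Finset.Iic N).filter Nat.Prime, ‖a p‖ ^ 2 / (p : ℝ)) -
        Real.log (Real.log (N : ℝ))| ≤ C)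
    (H2 : ∀ a a' : ℕ → ℂ, Prim a → Prim a' → (∃ n : ℕ, 1 ≤ n ∧ a n ≠ a' n) →
      ∃ C : ℝ, ∀ N : ℕ, ‖B a a' N‖ ≤ C) : False := by
  obtain ⟨a, b, G, Q, lam, mu, a0, a1, a2, b1, b2, ab, hL, hG, hord, hGL, hQ, hlam, hmu, -, hfe⟩ := hx
  have hm : Mem a (2 * lam) := by
    refine ⟨a1, fun ε hε => ⟨1, fun n hn => (a2 n).trans ?_⟩,
      ⟨b, fun n hn => b1 n fun hp => hn hp.isPrimePow, -(1 / 8), by norm_num, 1,
        fun n _ => by simpa using b2 n, fun s hs => (hL s hs).2⟩, 0, G, hG, hord,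
      fun s hs => by simpa using hGL s hs, Q, hQ, 1, fun _ => lam, fun _ => mu, -1,
      fun _ => by linarith, fun _ => by simpa using hmu.le, by simp, by simp, fun s s0 s1 => ?_⟩
    · rw [one_mul]; exact Real.one_le_rpow (by exact_mod_cast hn) hε.le
    · have := hfe s (fun n h => by
        have := congrArg Complex.re h
        have h2 : (0 : ℝ) ≤ n := Nat.cast_nonneg n
        have h3 := mul_pos (by linarith : 0 < lam) s0
        simp at this; linarith) (fun n h => by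
        have := congrArg Complex.re h
        have h2 : (0 : ℝ) ≤ n := Nat.cast_nonneg n
        have h3 := mul_pos (by linarith : 0 < lam) (sub_pos.2 s1)
        simp at this; linarith)
      simpa using this
  have hn : ¬ Triv a := by
    intro ht
    have e1 : ∀ s : ℂ, LSeries a s = 1 := fun s => by
      rw [LSeries, tsum_eq_single 1]
      · simp [a1]
      · intro n hn
        rcases Nat.eq_zero_or_pos n with rfl | h
        · simp
        · rw [LSeries.term_of_ne_zero h.ne', ht n (by omega), zero_div]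
    have := additive h0 hm hm hm (fun s _ => by rw [e1, one_mul])
    linarith
  obtain ⟨N0, hN0⟩ := exists_nat_gt (2 * lam)
  obtain ⟨f, l, p1, p2, p3⟩ := factor h0 h1 N0 a _ hm hN0 hn
  have hLB : ∀ f g, Prim f → Prim g → LB f g := by
    intro f g hf hg
    by_cases h : ∃ n : ℕ, 1 ≤ n ∧ f n ≠ g n
    · obtain ⟨C, hC⟩ := H2 f g hf hg h
      refine ⟨C, fun N => ?_⟩
      have := (Complex.abs_re_le_norm (B f g N)).trans (hC N)
      linarith [neg_abs_le (B f g N).re]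
    · push Not at h
      refine ⟨0, fun N => ?_⟩
      have : B f g N = B f f N := Finset.sum_congr rfl fun p hp => by
        rw [h p (Finset.mem_filter.1 hp).2.one_le]
      rw [this, B_self, neg_zero]
      positivity
  obtain ⟨C1, hC1⟩ := H1 f p1
  obtain ⟨C2, hC2⟩ := LB_lists Prim hLB [f] l (by simpa using p1) p2
  obtain ⟨C3, hC3⟩ := LB_lists Prim hLB l [f] p2 (by simpa using p1)
  obtain ⟨C4, hC4⟩ := LB_lists Prim hLB l l p2 p2
  have hs : Summable (fun n : ℕ => (n : ℝ) ^ (-(5 / 4) : ℝ)) :=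
    Real.summable_nat_rpow.2 (by norm_num)
  have up : ∀ N, (B a a N).re ≤ ∑' n : ℕ, (n : ℝ) ^ (-(5 / 4) : ℝ) := by
    intro N
    rw [B_self]
    refine le_trans (Finset.sum_le_sum fun p hp => ?_) (hs.sum_le_tsum _ fun n _ => by positivity)
    have pp := (Finset.mem_filter.1 hp).2
    have p0 : (0 : ℝ) < p := by exact_mod_cast pp.pos
    rw [ab p pp, div_le_iff₀ p0]
    calc ‖b p‖ ^ 2 ≤ ((p : ℝ) ^ (-(1 / 8 : ℝ))) ^ 2 := by gcongr; exact b2 p
      _ = _ := by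
        rw [← Real.rpow_natCast, ← Real.rpow_mul p0.le, ← Real.rpow_add_one p0.ne']; norm_num
  have hl : Filter.Tendsto (fun N : ℕ => Real.log (Real.log (N : ℝ))) Filter.atTop Filter.atTop :=
    Real.tendsto_log_atTop.comp (Real.tendsto_log_atTop.comp tendsto_natCast_atTop_atTop)
  obtain ⟨N, hN1, hN2⟩ := ((hl.eventually_gt_atTop
    (∑' n : ℕ, (n : ℝ) ^ (-(5 / 4) : ℝ) + C1 + C2 + C3 + C4)).and
    (Filter.eventually_ge_atTop 3)).exists
  have e : B a a N = B (f + l.sum) (f + l.sum) N := Finset.sum_congr rfl fun p hp => by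
    rw [p3 p (Finset.mem_filter.1 hp).2]; rfl
  have u := up N
  rw [e, B_add_left, B_add_right, B_add_right, Complex.add_re, Complex.add_re, Complex.add_re,
    B_self f] at u
  have v1 := (abs_le.1 (hC1 N hN2)).1
  have v2 := hC2 N
  have v3 := hC3 N
  have v4 := hC4 N
  simp only [List.sum_cons, List.sum_nil, add_zero] at v2 v3
  linarith

theorem fin16630 (h0 : CG0) (h1 : CG1) (hx : EXS) :
    ¬ (∀ S : (ℕ → ℂ) → Prop,
   (∀ a : ℕ → ℂ, S a ↔
     (a 1 = 1 ∧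
      (∀ ε : ℝ, 0 < ε → ∃ C : ℝ, ∀ n : ℕ, 1 ≤ n → ‖a n‖ ≤ C * (n : ℝ) ^ ε) ∧
      (∃ m : ℕ, ∃ G : ℂ → ℂ, Differentiable ℂ G ∧
        (∃ ρ C : ℝ, ∀ z : ℂ, ‖G z‖ ≤ C * Real.exp (‖z‖ ^ ρ)) ∧
        (∀ s : ℂ, 1 < s.re → G s = (s - 1) ^ m * LSeries a s) ∧
        (∃ Q : ℝ, 0 < Q ∧ ∃ k : ℕ, ∃ lam : Fin k → ℝ, ∃ μ : Fin k → ℂ, ∃ ω : ℂ,
          (∀ j, 0 < lam j) ∧ (∀ j, 0 ≤ (μ j).re) ∧ ‖ω‖ = 1 ∧
          ∀ s : ℂ, 0 < s.re → s.re < 1 →
            (Q : ℂ) ^ s * (∏ j, Complex.Gamma ((lam j : ℂ) * s + μ j)) * (G s / (s - 1) ^ m) =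
            ω * starRingEnd ℂ ((Q : ℂ) ^ (1 - starRingEnd ℂ s)
              * (∏ j, Complex.Gamma ((lam j : ℂ) * (1 - starRingEnd ℂ s) + μ j))
              * (G (1 - starRingEnd ℂ s) / ((1 - starRingEnd ℂ s) - 1) ^ m)))) ∧
      (∃ b : ℕ → ℂ, (∀ n : ℕ, ¬ IsPrimePow n → b n = 0) ∧
        ∃ θ : ℝ, θ < 1 / 2 ∧ ∃ C : ℝ, (∀ n : ℕ, 1 ≤ n → ‖b n‖ ≤ C * (n : ℝ) ^ θ) ∧
        ∀ s : ℂ, 1 < s.re → LSeries a s = Complex.exp (LSeries b s)))) →
   ∀ P : (ℕ → ℂ) → Prop,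
   (∀ a : ℕ → ℂ, P a ↔ (S a ∧ (∃ n : ℕ, 2 ≤ n ∧ a n ≠ 0) ∧
      ∀ f g : ℕ → ℂ, S f → S g →
        (∀ s : ℂ, 1 < s.re → LSeries a s = LSeries f s * LSeries g s) →
        (∀ n : ℕ, 2 ≤ n → f n = 0) ∨ (∀ n : ℕ, 2 ≤ n → g n = 0))) →
   (∀ a : ℕ → ℂ, P a → ∃ C : ℝ, ∀ N : ℕ, 3 ≤ N →
      |(∑ p ∈ (Finset.Iic N).filter Nat.Prime, ‖a p‖ ^ 2 / (p : ℝ)) - Real.log (Real.log (N : ℝ))| ≤ C) ∧
   (∀ a a' : ℕ → ℂ, P a → P a' → (∃ n : ℕ, 1 ≤ n ∧ a n ≠ a' n) →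
      ∃ C : ℝ, ∀ N : ℕ,
        ‖∑ p ∈ (Finset.Iic N).filter Nat.Prime, a p * starRingEnd ℂ (a' p) / (p : ℂ)‖ ≤ C)) := by
  intro h
  have := h (fun a => ∃ D, Mem a D) (fun a => by
    constructor
    · rintro ⟨D, a1, a2, a3, m, G, b1, b2, b3, Q, hQ, k, lam, μ, ω, c1, c2, c3, -, c4⟩
      exact ⟨a1, a2, ⟨m, G, b1, b2, b3, Q, hQ, k, lam, μ, ω, c1, c2, c3, c4⟩, a3⟩
    · rintro ⟨a1, a2, ⟨m, G, b1, b2, b3, Q, hQ, k, lam, μ, ω, c1, c2, c3, c4⟩, a3⟩
      exact ⟨_, a1, a2, a3, m, G, b1, b2, b3, Q, hQ, k, lam, μ, ω, c1, c2, c3, rfl, c4⟩)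
    Prim (fun a => Iff.rfl)
  exact final' h0 h1 hx this.1 this.2

end Pool.Agent.H63.Sel
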