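import Mathlib

set_option autoImplicit false
open Finset Fintype

namespace Pool.Agent.H63.Avo
noncomputable section
open Classical

variable {I β : Type} [Fintype I] [DecidableEq I]

theorem indep2 (A : I → Finset β) (p : I → Prop) (g h : (I → β) → ℝ)
    (hg : ∀ ω ω', (∀ i, p i → ω i = ω' i) → g ω = g ω')
    (hh : ∀ ω ω', (∀ i, ¬ p i → ω i = ω' i) → h ω = h ω') :
    (∑ ω ∈ piFinset A, g ω) * (∑ ω ∈ piFinset A, h ω) =
      (piFinset A).card * ∑ ω ∈ piFinset A, g ω * h ω := by
  let σ : (I → β) × (I → β) → (I → β) × (I → β) := fun z =>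
    (fun i => if p i then z.1 i else z.2 i, fun i => if p i then z.2 i else z.1 i)
  have hσ : ∀ z, σ (σ z) = z := fun z => by
    refine Prod.ext (funext fun i => ?_) (funext fun i => ?_) <;> by_cases e : p i <;> simp [σ, e]
  have hm : ∀ z ∈ piFinset A ×ˢ piFinset A, σ z ∈ piFinset A ×ˢ piFinset A := fun z hz => by
    simp only [mem_product, mem_piFinset] at hz ⊢
    refine ⟨fun i => ?_, fun i => ?_⟩ <;> by_cases e : p i <;> simp [σ, e, hz.1 i, hz.2 i]
  rw [Finset.sum_mul_sum, ← sum_product', sum_nbij' (t := piFinset A ×ˢ piFinset A)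
    (g := fun z => g z.1 * h z.1) σ σ hm hm (fun z _ => hσ z) (fun z _ => hσ z) (fun z _ => by
      rw [hg z.1 (σ z).1 (fun i e => by simp [σ, e]), hh z.2 (σ z).1 (fun i e => by simp [σ, e])]),
    sum_product]
  simp [mul_sum]

theorem indep_prod {B : Type} (A : I → Finset β) (hA : ∀ i, (A i).Nonempty) (p : B → I → Prop)
    (g : B → (I → β) → ℝ) (hp : ∀ b b' i, p b i → p b' i → b = b')
    (hg : ∀ b ω ω', (∀ i, p b i → ω i = ω' i) → g b ω = g b ω') (T : Finset B) :
    ∑ ω ∈ piFinset A, ∏ b ∈ T, g b ω =
      (piFinset A).card * ∏ b ∈ T, ((∑ ω ∈ piFinset A, g b ω) / (piFinset A).card) := by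
  have h0 : ((piFinset A).card : ℝ) ≠ 0 := by
    have := (piFinset_nonempty.2 hA).card_pos
    positivity
  induction T using Finset.induction_on with
  | empty => simp
  | insert b T hb ih =>
    simp only [prod_insert hb]
    have := indep2 A (p b) (g b) (fun ω => ∏ c ∈ T, g c ω) (hg b) (fun ω ω' e =>
      prod_congr rfl fun c hc => hg c _ _ fun i hi => e i fun h => hb (hp _ _ _ h hi ▸ hc))
    rw [ih] at this
    apply mul_left_cancel₀ h0
    rw [← this]; field_simp

/-- a word on a block which is hit less often than the uniform share -/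
theorem rare {Y : Type} [Fintype Y] [Nonempty Y] (A : I → Finset β) (hA : ∀ i, (A i).Nonempty)
    (p : I → Prop) (f : (I → β) → Y) (hf : ∀ ω ω', (∀ i, p i → ω i = ω' i) → f ω = f ω')
    (hd : ¬ Fintype.card Y ∣ ∏ i with p i, (A i).card) (Pm : ℕ) (hP : ∏ i with p i, (A i).card ≤ Pm) :
    ∃ w, (∑ ω ∈ piFinset A, if f ω = w then (1 : ℝ) else 0) / (piFinset A).card ≤
      (1 - 1 / Pm) / Fintype.card Y := by
  have h0 : (0 : ℝ) < (piFinset A).card := by
    have := (piFinset_nonempty.2 hA).card_pos
    positivity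
  choose ω0 h1 using hA
  let S := piFinset (fun i => if p i then A i else {ω0 i})
  have hS : S.card = ∏ i with p i, (A i).card := by
    rw [card_piFinset, prod_filter]
    exact prod_congr rfl fun i _ => by split_ifs <;> simp
  have hsub : S = (piFinset A).filter (fun ω => ∀ i, ¬ p i → ω i = ω0 i) := by
    ext ω
    simp only [S, mem_piFinset, mem_filter]
    constructor
    · intro h
      refine ⟨fun i => ?_, fun i e => by simpa [e] using h i⟩
      have := h i
      split_ifs at this
      · exact this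
      · rw [mem_singleton.1 this]; exact h1 i
    · intro h i
      split_ifs with e
      · exact h.1 i
      · simp [h.2 i e]
  rw [← hS] at hd hP
  have hS0 : 0 < S.card := by
    rw [card_pos]; exact ⟨ω0, by rw [hsub]; simp [h1]⟩
  have fib := card_eq_sum_card_fiberwise (f := f) (s := S) (t := univ) (fun _ _ => by simp)
  obtain ⟨w, hw⟩ : ∃ w, (S.filter (f · = w)).card * Fintype.card Y < S.card := by
    by_contra h
    push Not at h
    have := (sum_eq_sum_iff_of_le (s := univ) (fun w _ => h w)).1 (by
      rw [← sum_mul, ← fib]; simp [mul_comm])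
    obtain ⟨w⟩ := ‹Nonempty Y›
    exact hd ⟨_, (this w (mem_univ _)).trans (mul_comm _ _)⟩
  refine ⟨w, ?_⟩
  have := indep2 A p (fun ω => if f ω = w then (1 : ℝ) else 0)
    (fun ω => if ∀ i, ¬ p i → ω i = ω0 i then (1 : ℝ) else 0) (fun ω ω' e => by rw [hf ω ω' e])
    (fun ω ω' e => if_congr (forall_congr' fun i => imp_congr_right fun hi => by rw [e i hi]) rfl rfl)
  have e1 : (∑ ω ∈ piFinset A, if ∀ i, ¬ p i → ω i = ω0 i then (1 : ℝ) else 0) = S.card := by
    rw [hsub, card_filter]; push_cast; rfl
  rw [e1] at this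
  have e2 : (∑ ω ∈ piFinset A, (if f ω = w then (1 : ℝ) else 0) *
      (if ∀ i, ¬ p i → ω i = ω0 i then (1 : ℝ) else 0)) = (S.filter (f · = w)).card := by
    rw [hsub, filter_filter, ← sum_boole]
    exact sum_congr rfl fun ω _ => by
      by_cases a : f ω = w <;> by_cases b : (∀ i, ¬ p i → ω i = ω0 i) <;> simp [a, b]
  rw [e2] at this
  have c1 : (0 : ℝ) < S.card := by exact_mod_cast hS0
  have c2 : (0 : ℝ) < Fintype.card Y := by exact_mod_cast Fintype.card_pos
  have c3 : ((S.filter (f · = w)).card : ℝ) * Fintype.card Y + 1 ≤ S.card := by exact_mod_cast hw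
  have c4 : (S.card : ℝ) ≤ Pm := by exact_mod_cast hP
  have c5 : 1 / (Pm : ℝ) ≤ 1 / S.card := one_div_le_one_div_of_le c1 c4
  rw [eq_div_of_mul_eq c1.ne' this, le_div_iff₀ c2]
  refine le_trans ?_ (sub_le_sub_left c5 1)
  field_simp
  linarith

def rho (u η : ℝ) : ℝ := (1 + η * ((1 - η) * u)) * (1 - η / (1 + η) * u)

theorem rho_lt {u η : ℝ} (hu : 0 < u) (hu1 : u ≤ 1) (h0 : 0 < η) (h1 : η ≤ 1) :
    0 < rho u η ∧ rho u η < 1 := by
  have a : η / (1 + η) < 1 := by rw [div_lt_one (by linarith)]; linarith
  have b : η * (1 - η) < η / (1 + η) := by rw [lt_div_iff₀ (by linarith)]; nlinarith [mul_pos h0 (mul_pos h0 h0)]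
  have c : 0 ≤ η * ((1 - η) * u) := by have : 0 ≤ 1 - η := by linarith
                                       positivity
  have d : 0 < η / (1 + η) := by positivity
  unfold rho
  constructor
  · apply mul_pos (by linarith); nlinarith
  · nlinarith [mul_nonneg c (mul_pos d hu).le]

theorem image_le {O B : Type} [Fintype O] [DecidableEq O] [Fintype B] {n κ Pm : ℕ} (hn : 0 < n) (hPm : 0 < Pm)
    (A : I → Finset β) (hA : ∀ i, (A i).Nonempty) (p : B → I → Prop)
    (hp : ∀ b b' i, p b i → p b' i → b = b') (o : B → Finset O)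
    (ho : ∀ b b' i, i ∈ o b → i ∈ o b' → b = b') (hκ : ∀ b, (o b).card = κ)
    (f : (I → β) → O → Fin n)
    (hf : ∀ b ω ω', (∀ i, p b i → ω i = ω' i) → ∀ j ∈ o b, f ω j = f ω' j)
    (hd : ∀ b, ¬ n ^ κ ∣ ∏ i with p b i, (A i).card) (hP : ∀ b, ∏ i with p b i, (A i).card ≤ Pm) :
    (((piFinset A).image f).card : ℝ) ^ 2 ≤
      (piFinset A).card * n ^ Fintype.card O * rho (1 / n ^ κ) (1 / Pm) ^ Fintype.card B := by
  haveI : Nonempty (Fin n) := ⟨⟨0, hn⟩⟩
  have cY : ∀ b, Fintype.card (o b → Fin n) = n ^ κ := fun b => by simp [hκ b]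
  have hw := fun b => rare A hA (p b) (fun ω (j : o b) => f ω j)
    (fun ω ω' e => funext fun j => hf b ω ω' e j j.2) (by rw [cY]; exact hd b) Pm (hP b)
  choose w hw using hw
  set η : ℝ := 1 / Pm with hη
  have η0 : 0 < η := by positivity
  have η1 : η ≤ 1 := by rw [hη, div_le_one (by positivity)]; exact_mod_cast hPm
  have s1 : η / (1 + η) < 1 := by rw [div_lt_one (by linarith)]; linarith
  let E : B → (O → Fin n) → ℝ := fun b y =>
    @ite ℝ ((fun j : o b => y j) = w b) (Classical.propDecidable _) 1 0
  have E0 : ∀ b y, 0 ≤ 1 + η * E b y := fun b y => by simp only [E]; split_ifs <;> linarith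
  have E1 : ∀ b y, 0 ≤ 1 - η / (1 + η) * E b y := fun b y => by simp only [E]; split_ifs <;> linarith
  have cs := sum_sq_le_sum_mul_sum_of_sq_le_mul ((piFinset A).image f) (r := fun _ => (1 : ℝ))
    (f := fun y => ∏ b, (1 + η * E b y)) (g := fun y => ∏ b, (1 - η / (1 + η) * E b y))
    (fun y _ => prod_nonneg fun b _ => E0 b y) (fun y _ => prod_nonneg fun b _ => E1 b y)
    (fun y _ => by
      rw [← prod_mul_distrib, one_pow]
      refine (Finset.prod_eq_one fun b _ => ?_).ge
      simp only [E]; split_ifs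
      · field_simp; ring
      · simp)
  simp only [sum_const, nsmul_eq_mul, mul_one] at cs
  have h0 : (0 : ℝ) < (piFinset A).card := by
    have := (piFinset_nonempty.2 hA).card_pos
    positivity
  have u1 : ∑ y ∈ (piFinset A).image f, ∏ b, (1 + η * E b y) ≤
      (piFinset A).card * (1 + η * ((1 - η) * (1 / n ^ κ))) ^ Fintype.card B := by
    refine (sum_image_le_of_nonneg fun y _ => prod_nonneg fun b _ => E0 b y).trans ?_
    rw [indep_prod A hA p (fun b ω => 1 + η * E b (f ω)) hp (fun b ω ω' e => by
      simp only [E]; rw [show (fun j : o b => f ω j) = fun j : o b => f ω' j from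
        funext fun j => hf b ω ω' e j j.2])]
    refine mul_le_mul_of_nonneg_left ?_ h0.le
    rw [← card_univ, ← prod_const]
    refine prod_le_prod (fun b _ => div_nonneg (sum_nonneg fun _ _ => E0 _ _) h0.le) fun b _ => ?_
    have := hw b
    rw [cY] at this
    rw [sum_add_distrib, ← mul_sum, add_div, mul_div_assoc]
    simp only [sum_const, nsmul_eq_mul, mul_one, div_self h0.ne']
    refine add_le_add_right (mul_le_mul_of_nonneg_left (this.trans_eq ?_) η0.le) _
    push_cast; ring
  have u2 : ∑ y ∈ (piFinset A).image f, ∏ b, (1 - η / (1 + η) * E b y) ≤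
      n ^ Fintype.card O * (1 - η / (1 + η) * (1 / n ^ κ)) ^ Fintype.card B := by
    have cU : ((piFinset fun _ : O => (univ : Finset (Fin n))).card : ℝ) = n ^ Fintype.card O := by simp
    have n0 : (0 : ℝ) < n := by exact_mod_cast hn
    refine (sum_le_sum_of_subset_of_nonneg (t := piFinset fun _ => univ) (fun _ _ => by simp)
      fun y _ _ => prod_nonneg fun b _ => E1 b y).trans ?_
    rw [indep_prod _ (fun _ => univ_nonempty) (fun b j => j ∈ o b) (fun b y => 1 - η / (1 + η) * E b y) ho
      (fun b ω ω' e => by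
        simp only [E]; rw [show (fun j : o b => ω j) = fun j : o b => ω' j from
          funext fun j => e j j.2]), cU, ← card_univ (α := B), ← prod_const]
    refine le_of_eq (congrArg _ (prod_congr rfl fun b _ => ?_))
    have : ∑ y ∈ piFinset (fun _ : O => (univ : Finset (Fin n))), E b y = n ^ (Fintype.card O - κ) := by
      have : (piFinset (fun _ : O => (univ : Finset (Fin n)))).filter (fun y => (fun j : o b => y j) = w b) =
          piFinset (fun j => if h : j ∈ o b then {w b ⟨j, h⟩} else univ) := by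
        ext y
        simp only [mem_filter, mem_piFinset, mem_univ, implies_true, true_and, funext_iff]
        constructor
        · intro h j; split_ifs with e
          · simp [← h ⟨j, e⟩]
          · simp
        · intro h j; simpa [j.2] using h j
      have e0 : ∑ y ∈ piFinset (fun _ : O => (univ : Finset (Fin n))), E b y =
          ((piFinset (fun _ : O => (univ : Finset (Fin n)))).filter
            (fun y => (fun j : o b => y j) = w b)).card := by
        rw [card_filter]; push_cast
        exact sum_congr rfl fun y _ => by simp only [E]; split_ifs <;> rfl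
      rw [e0, this, card_piFinset, prod_congr rfl (g := fun j => if j ∈ o b then 1 else n) (fun j _ => by
        split_ifs <;> simp), prod_ite]
      simp only [prod_const, one_pow, one_mul, Nat.cast_pow]
      congr 1
      rw [filter_not, filter_mem_eq_inter, univ_inter, card_sdiff_of_subset (subset_univ _), hκ, card_univ]
    have le : κ ≤ Fintype.card O := hκ b ▸ card_le_univ _
    rw [sum_sub_distrib, ← mul_sum, this, sum_const, nsmul_eq_mul, cU, pow_sub₀ _ n0.ne' le]
    field_simp
  refine cs.trans ((mul_le_mul u1 u2 (sum_nonneg fun y _ => prod_nonneg fun b _ => E1 b y)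
    (by have : 0 ≤ 1 - η := by linarith
        positivity)).trans_eq ?_)
  rw [rho, mul_pow]; ring

end
end Pool.Agent.H63.Avo
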