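import Pool.Agent.H63.Avo1

set_option autoImplicit false
open Finset Fintype

namespace Pool.Agent.H63.Avo
noncomputable section
open Classical

abbrev Z3 := ℤ × ℤ × ℤ
abbrev W := Fin 3 × ℤ × ℤ
abbrev V := Fin 5 → Fin 6

def var (v : Z3) : Fin 5 → W :=
  ![(0, 0, v.2.1), (1, v.1, v.2.1), (1, v.1, v.2.1 + 1), (2, v.1, v.2.1), (2, v.1 + 1, v.2.1)]

def view (s : W → Fin 6) (v : Z3) : V := fun m => s (var v m)

def ef (a : V) : ℕ × ℕ :=
  if (a 0).val = 0 then
    (if 3 * ((a 1).val + 1) + (a 4).val = ((a 2).val + 1) + (a 3).val then (35, 1) else (0, 0))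
  else (if ((a 1).val + 1) + (a 3).val = 2 * ((a 2).val + 1) + (a 4).val then (34, 0) else (0, 0))

def mu (a : V) : ℕ := 2 ^ (ef a).1 * 3 ^ (ef a).2

theorem mu_pos (a : V) : 0 < mu a := by unfold mu; positivity
theorem mu_le (a : V) : mu a ≤ 3 * 2 ^ 35 := by unfold mu ef; split_ifs <;> norm_num
theorem ef_le (a : V) : (ef a).1 ≤ 34 + (ef a).2 := by unfold ef; split_ifs <;> norm_num
theorem log_mu (a : V) : Real.log (mu a) = (ef a).1 * Real.log 2 + (ef a).2 * Real.log 3 := by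
  unfold mu; push_cast
  rw [Real.log_mul (by positivity) (by positivity), Real.log_pow, Real.log_pow]

def qq (c : Fin 6) : ℝ := if c.val = 0 then 3 else 1 / 2
def gg (c : Fin 6) : ℝ := if c.val = 0 then 1 else -1 / 2

theorem cell (a : V) : Real.log (mu a) ≤ 35 * Real.log 2 + Real.log (qq (a 0)) ∧
    Real.log (mu a) ≤ 35 * Real.log 2 + Real.log (qq (a 0)) -
      (qq (a 0) * ((a 1).val + 1) - ((a 2).val + 1) - gg (a 0) * ((a 3).val - (a 4).val)) := by
  have l2 := Real.log_two_gt_d9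
  have l3 : 0 < Real.log 3 := Real.log_pos (by norm_num)
  have lh : Real.log (1 / 2) = - Real.log 2 := by rw [one_div, Real.log_inv]
  have b : ∀ m, (0 : ℝ) ≤ (a m).val ∧ ((a m).val : ℝ) ≤ 5 := fun m =>
    ⟨by positivity, by exact_mod_cast Nat.le_of_lt_succ (a m).2⟩
  have b1 := b 1; have b2 := b 2; have b3 := b 3; have b4 := b 4
  rw [log_mu]
  unfold ef qq gg
  split_ifs with h1 h2 h2
  · have : (3 : ℝ) * ((a 1).val + 1) + (a 4).val = ((a 2).val + 1) + (a 3).val := by exact_mod_cast h2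
    push_cast; constructor <;> linarith
  · push_cast; constructor <;> linarith
  · have : (((a 1).val : ℝ) + 1) + (a 3).val = 2 * ((a 2).val + 1) + (a 4).val := by exact_mod_cast h2
    rw [lh]; push_cast; constructor <;> linarith
  · rw [lh]; push_cast; constructor <;> linarith

theorem sum_Ico_z (f : ℤ → ℝ) (a : ℤ) (L : ℕ) :
    ∑ i ∈ Ico a (a + L), f i = ∑ i ∈ range L, f (a + i) := by
  refine sum_nbij' (fun i => (i - a).toNat) (fun i => a + i) ?_ ?_ ?_ ?_ ?_ <;>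
    simp only [mem_coe, mem_Ico, mem_range] <;> intro i hi
  · omega
  · omega
  · omega
  · omega
  · congr 1; omega

def lg (s : W → Fin 6) (v : Z3) : ℝ := Real.log (mu (view s v))
def TT (s : W → Fin 6) (a : ℤ) (L : ℕ) (j : ℤ) : ℝ := ∑ i ∈ range L, (((s (1, a + i, j)).val : ℝ) + 1)

theorem TT_bd (s : W → Fin 6) (a : ℤ) (L : ℕ) (j : ℤ) : L ≤ TT s a L j ∧ TT s a L j ≤ 6 * L := by
  constructor
  · have := card_nsmul_le_sum (range L) (fun i => ((s (1, a + i, j)).val : ℝ) + 1) 1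
      (fun i _ => by have : (0 : ℝ) ≤ (s (1, a + i, j)).val := by positivity
                     linarith)
    simpa [TT] using this
  · have := sum_le_card_nsmul (range L) (fun i => ((s (1, a + i, j)).val : ℝ) + 1) 6
      (fun i _ => by
        have : ((s (1, a + i, j)).val : ℝ) ≤ 5 := by exact_mod_cast Nat.le_of_lt_succ (s _).2
        linarith)
    simpa [TT, mul_comm] using this

theorem gg_le (c u v : Fin 6) : gg c * ((u.val : ℝ) - v.val) ≤ 5 := by
  have b : ∀ w : Fin 6, (0 : ℝ) ≤ w.val ∧ (w.val : ℝ) ≤ 5 := fun w =>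
    ⟨by positivity, by exact_mod_cast Nat.le_of_lt_succ w.2⟩
  have := b u; have := b v
  unfold gg; split_ifs <;> nlinarith

theorem row (s : W → Fin 6) (a j k : ℤ) (L : ℕ) (hL : 0 < L) :
    ∑ i ∈ range L, lg s (a + i, j, k) ≤
      L * (35 * Real.log 2) + L * (Real.log (TT s a L (j + 1)) - Real.log (TT s a L j)) + 5 := by
  have L0 : (0 : ℝ) < L := by exact_mod_cast hL
  obtain ⟨t1, -⟩ := TT_bd s a L j
  obtain ⟨t2, -⟩ := TT_bd s a L (j + 1)
  set q := qq (s (0, 0, j)) with hq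
  have q0 : 0 < q := by rw [hq]; unfold qq; split_ifs <;> norm_num
  have e : Real.log q = Real.log (q * TT s a L j / TT s a L (j + 1)) +
      (Real.log (TT s a L (j + 1)) - Real.log (TT s a L j)) := by
    rw [Real.log_div (by nlinarith) (by linarith), Real.log_mul q0.ne' (by linarith)]; ring
  have e2 : Real.log (q * TT s a L j / TT s a L (j + 1)) ≤ q * TT s a L j / TT s a L (j + 1) - 1 :=
    Real.log_le_sub_one_of_pos (div_pos (by nlinarith) (by linarith))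
  by_cases h : q * TT s a L j ≤ TT s a L (j + 1)
  · have := sum_le_card_nsmul (range L) (fun i => lg s (a + i, j, k)) (35 * Real.log 2 + Real.log q)
      (fun i _ => (cell _).1)
    have h2 : q * TT s a L j / TT s a L (j + 1) ≤ 1 := (div_le_one (by linarith)).2 h
    simp only [card_range, nsmul_eq_mul] at this
    nlinarith
  · have s1 : ∑ i ∈ range L, lg s (a + i, j, k) ≤ ∑ i ∈ range L, (35 * Real.log 2 + Real.log q -
        (q * ((s (1, a + i, j)).val + 1) - ((s (1, a + i, j + 1)).val + 1) -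
          gg (s (0, 0, j)) * ((s (2, a + i, j)).val - (s (2, a + (i + 1 : ℕ), j)).val))) :=
      sum_le_sum fun i _ => by
        have := (cell (view s (a + i, j, k))).2
        simpa [view, var, add_assoc, lg] using this
    rw [sum_sub_distrib, sum_sub_distrib, sum_sub_distrib, ← mul_sum, ← mul_sum,
      sum_range_sub' (fun i : ℕ => ((s (2, a + i, j)).val : ℝ))] at s1
    simp only [sum_const, card_range, nsmul_eq_mul] at s1
    have g := gg_le (s (0, 0, j)) (s (2, a + (0 : ℕ), j)) (s (2, a + L, j))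
    have h3 : L * (q * TT s a L j / TT s a L (j + 1) - 1) ≤ q * TT s a L j - TT s a L (j + 1) := by
      rw [div_sub_one (by linarith), ← mul_div_assoc, div_le_iff₀ (by linarith)]; nlinarith
    have h4 := mul_le_mul_of_nonneg_left e2 L0.le
    unfold TT at *
    nlinarith

def Bx (p : Z3) (L : ℕ) : Finset Z3 :=
  Ico p.1 (p.1 + L) ×ˢ Ico p.2.1 (p.2.1 + L) ×ˢ Ico p.2.2 (p.2.2 + L)

theorem card_Bx (p : Z3) (L : ℕ) : (Bx p L).card = L ^ 3 := by simp [Bx]; ring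

theorem mem_Bx {p v : Z3} {L : ℕ} : v ∈ Bx p L ↔ (p.1 ≤ v.1 ∧ v.1 < p.1 + L) ∧
    (p.2.1 ≤ v.2.1 ∧ v.2.1 < p.2.1 + L) ∧ (p.2.2 ≤ v.2.2 ∧ v.2.2 < p.2.2 + L) := by simp [Bx]

theorem sum_Bx (f : Z3 → ℝ) (p : Z3) (L : ℕ) : ∑ v ∈ Bx p L, f v =
    ∑ k ∈ range L, ∑ j ∈ range L, ∑ i ∈ range L, f (p.1 + i, p.2.1 + j, p.2.2 + k) := by
  rw [Bx, sum_product_right, sum_product_right, sum_Ico_z]
  refine sum_congr rfl fun k _ => ?_
  rw [sum_Ico_z]
  exact sum_congr rfl fun j _ => sum_Ico_z _ _ _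

theorem box_le (s : W → Fin 6) (p : Z3) (L : ℕ) :
    ∑ v ∈ Bx p L, lg s v ≤ L ^ 3 * (35 * Real.log 2) + 10 * L ^ 2 := by
  rcases Nat.eq_zero_or_pos L with rfl | hL
  · simp [Bx]
  have L0 : (0 : ℝ) < L := by exact_mod_cast hL
  rw [sum_Bx]
  refine (sum_le_card_nsmul _ _ (L ^ 2 * (35 * Real.log 2) + 10 * L) fun k _ => ?_).trans_eq
    (by simp; ring)
  refine (sum_le_sum fun (j : ℕ) _ => row s p.1 (p.2.1 + j) (p.2.2 + k) L hL).trans ?_
  rw [sum_add_distrib, sum_add_distrib, sum_const, ← mul_sum]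
  have := sum_range_sub (fun j : ℕ => Real.log (TT s p.1 L (p.2.1 + j))) L
  simp only [Nat.cast_add, Nat.cast_one, ← add_assoc] at this
  rw [this]
  obtain ⟨t1, -⟩ := TT_bd s p.1 L (p.2.1 + (0 : ℕ))
  obtain ⟨t3, t2⟩ := TT_bd s p.1 L (p.2.1 + L)
  have h : Real.log (TT s p.1 L (p.2.1 + L)) - Real.log (TT s p.1 L (p.2.1 + (0 : ℕ))) ≤ 5 := by
    rw [← Real.log_div (by linarith) (by linarith)]
    refine (Real.log_le_sub_one_of_pos (div_pos (by linarith) (by linarith))).trans ?_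
    rw [sub_le_iff_le_add, div_le_iff₀ (by linarith)]; linarith
  simp only [sum_const, card_range, nsmul_eq_mul]
  nlinarith

theorem not_dvd (s : W → Fin 6) (p : Z3) (r : ℕ) :
    ¬ (2 ^ 35) ^ ((1000 * (r + 1)) ^ 3) ∣ ∏ v ∈ Bx p (1000 * (r + 1) + 2 * r), mu (view s v) := by
  intro h
  have hb := box_le s p (1000 * (r + 1) + 2 * r)
  simp only [lg, log_mu] at hb
  rw [sum_add_distrib, ← sum_mul, ← sum_mul] at hb
  have he := sum_le_sum (s := Bx p (1000 * (r + 1) + 2 * r)) (fun v _ => ef_le (view s v))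
  rw [sum_add_distrib, sum_const, card_Bx, smul_eq_mul] at he
  simp only [mu] at h
  rw [prod_mul_distrib, prod_pow_eq_pow_sum, prod_pow_eq_pow_sum, ← pow_mul] at h
  have h2 := (Nat.pow_dvd_pow_iff_le_right (by norm_num)).1
    ((Nat.Coprime.pow _ _ (by norm_num : Nat.Coprime 2 3)).dvd_of_dvd_mul_right h)
  rw [← Nat.cast_sum, ← Nat.cast_sum] at hb
  generalize ∑ v ∈ Bx p (1000 * (r + 1) + 2 * r), (ef (view s v)).1 = e at *
  generalize ∑ v ∈ Bx p (1000 * (r + 1) + 2 * r), (ef (view s v)).2 = f at *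
  have l2 := Real.log_two_lt_d9
  have l2' := Real.log_two_gt_d9
  have l3 : 1 < Real.log 3 := by
    rw [Real.lt_log_iff_exp_lt (by norm_num)]; exact Real.exp_one_lt_d9.trans (by norm_num)
  have k1 : (1000 * (r + 1)) ^ 3 ≤ (1000 * (r + 1) + 2 * r) ^ 3 := Nat.pow_le_pow_left (by omega) _
  have k2 : (1000 * (r + 1) + 2 * r) ^ 3 ≤ (1002 * (r + 1)) ^ 3 := Nat.pow_le_pow_left (by omega) _
  have k3 : (1000 * (r + 1) + 2 * r) ^ 2 ≤ (1002 * (r + 1)) ^ 2 := Nat.pow_le_pow_left (by omega) _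
  have k4 : (r + 1) ^ 2 ≤ (r + 1) ^ 3 := Nat.pow_le_pow_right (by omega) (by omega)
  have k5 : 0 < (r + 1) ^ 3 := by positivity
  have : f + 35 * (1000 * (r + 1)) ^ 3 ≤ 35 * (1000 * (r + 1) + 2 * r) ^ 3 +
      10 * (1000 * (r + 1) + 2 * r) ^ 2 := by
    generalize (1000 * (r + 1) + 2 * r) = K at *
    generalize (1000 * (r + 1)) ^ 3 = k at *
    have a1 : (35 * k : ℝ) ≤ e := by exact_mod_cast h2
    have a2 : (k : ℝ) ≤ K ^ 3 := by exact_mod_cast k1
    have a3 : (0 : ℝ) ≤ f := by positivity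
    have : (f : ℝ) + 35 * k ≤ 35 * K ^ 3 + 10 * K ^ 2 := by nlinarith
    exact_mod_cast this
  rw [mul_pow] at k2 k3
  rw [mul_pow 1000] at this h2
  omega

def xs : ℕ → ℝ
  | 0 => 1
  | j + 1 => if xs j < 2 then 3 * xs j else xs j / 2

theorem xs_bd (j : ℕ) : 1 ≤ xs j ∧ xs j < 6 := by
  induction j with
  | zero => simp [xs]
  | succ j ih => rw [xs]; split_ifs <;> constructor <;> linarith

def s0 (w : W) : Fin 6 :=
  if w.1 = 0 then (if xs w.2.2.toNat < 2 then 0 else 1) else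
  if w.1 = 1 then Fin.ofNat 6 (⌊(w.2.1 + 1) * xs w.2.2.toNat⌋ - ⌊w.2.1 * xs w.2.2.toNat⌋ - 1).toNat
  else Fin.ofNat 6 (if xs w.2.2.toNat < 2 then
    ⌊w.2.1 * (3 * xs w.2.2.toNat)⌋ - 3 * ⌊w.2.1 * xs w.2.2.toNat⌋
    else ⌊w.2.1 * xs w.2.2.toNat⌋ - 2 * ⌊w.2.1 * (xs w.2.2.toNat / 2)⌋).toNat

theorem fl1 (i x : ℝ) (h : 1 ≤ x ∧ x < 6) : 1 ≤ ⌊(i + 1) * x⌋ - ⌊i * x⌋ ∧ ⌊(i + 1) * x⌋ - ⌊i * x⌋ ≤ 6 := by
  have a := Int.floor_le (i * x); have b := Int.lt_floor_add_one (i * x)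
  have c := Int.floor_le ((i + 1) * x); have d := Int.lt_floor_add_one ((i + 1) * x)
  have e : (0 : ℤ) < ⌊(i + 1) * x⌋ - ⌊i * x⌋ := by
    have : ((0 : ℤ) : ℝ) < ((⌊(i + 1) * x⌋ - ⌊i * x⌋ : ℤ) : ℝ) := by push_cast; linarith
    exact_mod_cast this
  have f : ⌊(i + 1) * x⌋ - ⌊i * x⌋ < (7 : ℤ) := by
    have : ((⌊(i + 1) * x⌋ - ⌊i * x⌋ : ℤ) : ℝ) < ((7 : ℤ) : ℝ) := by push_cast; linarith
    exact_mod_cast this
  omega

theorem fl2 (c : ℕ) (hc : 0 < c) (y z : ℝ) (h : z = c * y) : 0 ≤ ⌊z⌋ - c * ⌊y⌋ ∧ ⌊z⌋ - c * ⌊y⌋ < c := by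
  have a := Int.floor_le y; have b := Int.lt_floor_add_one y
  have c0 : (0 : ℝ) < c := by exact_mod_cast hc
  have e : c * ⌊y⌋ ≤ ⌊z⌋ := Int.le_floor.2 (by push_cast; nlinarith)
  have f : ⌊z⌋ < c * ⌊y⌋ + c := Int.floor_lt.2 (by push_cast; nlinarith)
  omega

theorem lg_s0 (i k : ℤ) (j : ℕ) :
    lg s0 (i, j, k) = 35 * Real.log 2 + (Real.log (xs (j + 1)) - Real.log (xs j)) := by
  have b := xs_bd j
  have a1 := fl1 i _ b
  have a2 := fl1 i _ (xs_bd (j + 1))
  have t1 : ((j : ℤ) + 1).toNat = j + 1 := by omega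
  rw [lg, log_mu]
  by_cases h : xs j < 2
  · have e : xs (j + 1) = 3 * xs j := by rw [xs, if_pos h]
    have c1 := fl2 3 (by norm_num) (i * xs j) (i * (3 * xs j)) (by push_cast; ring)
    have c2 := fl2 3 (by norm_num) ((i + 1) * xs j) ((i + 1) * (3 * xs j)) (by push_cast; ring)
    rw [e] at a2
    have : ef (view s0 (i, j, k)) = (35, 1) := by
      simp [ef, view, var, s0, h, t1, e, Fin.ofNat]; omega
    rw [this, e, Real.log_mul (by norm_num) (by linarith)]; push_cast; ring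
  · have e : xs (j + 1) = xs j / 2 := by rw [xs, if_neg h]
    have c1 := fl2 2 (by norm_num) (i * (xs j / 2)) (i * xs j) (by push_cast; ring)
    have c2 := fl2 2 (by norm_num) ((i + 1) * (xs j / 2)) ((i + 1) * xs j) (by push_cast; ring)
    rw [e] at a2
    have : ef (view s0 (i, j, k)) = (34, 0) := by
      simp [ef, view, var, s0, h, t1, e, Fin.ofNat]; omega
    rw [this, e, Real.log_div (by linarith) (by norm_num)]; push_cast; ring

theorem box_ge (L : ℕ) : L ^ 3 * (35 * Real.log 2) ≤ ∑ v ∈ Bx 0 L, lg s0 v := by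
  rw [sum_Bx]
  simp only [Prod.fst_zero, Prod.snd_zero, zero_add, lg_s0, sum_const, card_range, nsmul_eq_mul]
  rw [← mul_sum, sum_add_distrib, sum_range_sub (fun j => Real.log (xs j))]
  have := Real.log_nonneg (xs_bd L).1
  simp only [sum_const, card_range, nsmul_eq_mul, xs, Real.log_one]
  have h : (0 : ℝ) ≤ L * (L * Real.log (xs L)) := by positivity
  nlinarith

end
end Pool.Agent.H63.Avo
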