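import Pool.Agent.H63.Avo2

set_option autoImplicit false
open Finset Fintype Filter Topology

namespace Pool.Agent.H63.Avo
noncomputable section
open Classical

abbrev Dc := Fin (3 * 2 ^ 35)
abbrev Al := V × Dc

def XX : Set (Z3 → Al) := {x | ∃ s, ∀ v, (x v).1 = view s v ∧ (x v).2.val < mu (view s v)}

def sk (x : Z3 → Al) (w : W) : Fin 6 :=
  (x (w.2.1, w.2.2, 0)).1 (if w.1 = 0 then 0 else if w.1 = 1 then 1 else 3)

theorem view_sk {x : Z3 → Al} {s : W → Fin 6} (h : ∀ v, (x v).1 = view s v) (v : Z3) :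
    view (sk x) v = view s v := by
  funext m
  fin_cases m <;> simp [view, sk, var, h]

theorem XX_closed : IsClosed XX := by
  have : XX = ⋂ v, ({x : Z3 → Al | (x v).1 = view (sk x) v} ∩
      (fun x : Z3 → Al => x v) ⁻¹' {a | a.2.val < mu a.1}) := by
    ext x
    simp only [XX, Set.mem_ofPred_eq, Set.mem_iInter, Set.mem_inter_iff, Set.mem_preimage]
    constructor
    · rintro ⟨s, h⟩ v
      rw [view_sk fun v => (h v).1]
      exact ⟨(h v).1, (h v).1 ▸ (h v).2⟩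
    · exact fun h => ⟨sk x, fun v => ⟨(h v).1, (h v).1 ▸ (h v).2⟩⟩
  rw [this]
  refine isClosed_iInter fun v => IsClosed.inter (isClosed_eq (by fun_prop) ?_)
    ((isClosed_discrete _).preimage (continuous_apply v))
  unfold view sk
  fun_prop

theorem XX_shift (u : Z3) {x : Z3 → Al} (hx : x ∈ XX) : (fun v => x (v - u)) ∈ XX := by
  obtain ⟨s, h⟩ := hx
  refine ⟨fun w => s (w.1, if w.1 = 0 then w.2.1 else w.2.1 - u.1, w.2.2 - u.2.1), fun v => ?_⟩
  have : view (fun w => s (w.1, if w.1 = 0 then w.2.1 else w.2.1 - u.1, w.2.2 - u.2.1)) v =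
      view s (v - u) := by
    funext m
    fin_cases m <;> simp [view, var, add_sub_right_comm]
  rw [this]; exact h _

theorem XX_avo (C : Set Z3) (v : Z3) (hv : v ∉ C) : ∃ D : Set Z3, D.Finite ∧ D ⊆ C ∧
    ∀ x ∈ XX, ∀ y ∈ XX, (∀ u ∈ D, y u = x u) → ∃ z ∈ XX, (∀ u ∈ C, z u = x u) ∧ z v = y v := by
  have : ∀ m, ∃ D : Set Z3, D.Finite ∧ D ⊆ C ∧
      ((∃ c ∈ C, ∃ m', var c m' = var v m) → ∃ c ∈ D, ∃ m', var c m' = var v m) := fun m => by
    by_cases h : ∃ c ∈ C, ∃ m', var c m' = var v m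
    · obtain ⟨c, hc, h⟩ := h
      exact ⟨{c}, Set.finite_singleton c, by simpa using hc, fun _ => ⟨c, rfl, h⟩⟩
    · exact ⟨∅, Set.finite_empty, Set.empty_subset _, fun h' => absurd h' h⟩
  choose D h1 h2 h3 using this
  refine ⟨⋃ m, D m, Set.finite_iUnion h1, Set.iUnion_subset h2, ?_⟩
  rintro x ⟨s, hs⟩ y ⟨s', hs'⟩ e
  let t : W → Fin 6 := fun w => if ∃ m, var v m = w then s' w else s w
  have t1 : view t v = view s' v := funext fun m => if_pos ⟨m, rfl⟩
  have t2 : ∀ c ∈ C, view t c = view s c := fun c hc => funext fun m => by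
    simp only [view, t]
    split_ifs with h
    · obtain ⟨m', h⟩ := h
      obtain ⟨d, hd, k, hk⟩ := h3 m' ⟨c, hc, m, h.symm⟩
      have := congrFun ((hs' d).1.symm.trans ((congrArg Prod.fst
        (e d (Set.mem_iUnion.2 ⟨_, hd⟩))).trans (hs d).1)) k
      simpa only [view, hk, h] using this
    · rfl
  refine ⟨fun u => if u ∈ C then x u else if u = v then y v else (view t u, 0), ⟨t, fun u => ?_⟩,
    fun u hu => if_pos hu, by simp [hv]⟩
  dsimp only
  split_ifs with a b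
  · rw [t2 u a]; exact hs u
  · rw [b, t1]; exact hs' v
  · exact ⟨rfl, mu_pos _⟩

def As (s : W → Fin 6) (v : Z3) : Finset Dc := univ.filter fun d => d.val < mu (view s v)

theorem card_As (s : W → Fin 6) (v : Z3) : (As s v).card = mu (view s v) := by
  rw [As, Fin.card_filter_val_lt, min_eq_right (mu_le _)]

theorem As_ne (s : W → Fin 6) (v : Z3) : (As s v).Nonempty := by
  rw [← card_pos, card_As]; exact mu_pos _

def Om (s : W → Fin 6) (B : Finset Z3) : Finset (B → Dc) := piFinset fun v : B => As s v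

theorem card_Om (s : W → Fin 6) (B : Finset Z3) : ((Om s B).card : ℝ) = Real.exp (∑ v ∈ B, lg s v) := by
  rw [Om, card_piFinset, Real.exp_sum, ← prod_coe_sort B]
  push_cast
  refine prod_congr rfl fun v _ => ?_
  rw [card_As, lg, Real.exp_log (by exact_mod_cast mu_pos _)]

def cfg (s : W → Fin 6) (B : Finset Z3) (ω : B → Dc) (v : Z3) : Al :=
  (view s v, if h : v ∈ B then (if (ω ⟨v, h⟩).val < mu (view s v) then ω ⟨v, h⟩ else 0) else 0)

theorem cfg_mem (s : W → Fin 6) (B : Finset Z3) (ω : B → Dc) : cfg s B ω ∈ XX :=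
  ⟨s, fun v => ⟨rfl, by
    simp only [cfg]; split_ifs with a b
    · exact b
    · exact mu_pos _
    · exact mu_pos _⟩⟩

def WB (p : Z3) (L : ℕ) : Finset W :=
  univ ×ˢ Ico p.1 (p.1 + (L + 1 : ℕ)) ×ˢ Ico p.2.1 (p.2.1 + (L + 1 : ℕ))

def ext (T : Finset W) (σ : T → Fin 6) (w : W) : Fin 6 := if h : w ∈ T then σ ⟨w, h⟩ else 0

theorem cover (p : Z3) (L : ℕ) (hp : p.1 ≤ 0 ∧ 0 ≤ p.1 + L) {x : Z3 → Al} (hx : x ∈ XX) :
    ∃ σ : WB p L → Fin 6, ∃ ω ∈ Om (ext _ σ) (Bx p L), ∀ v ∈ Bx p L, x v = cfg (ext _ σ) _ ω v := by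
  obtain ⟨s, h⟩ := hx
  have e : ∀ v ∈ Bx p L, view (ext (WB p L) fun w => s w) v = view s v := fun v hv => by
    rw [mem_Bx] at hv
    funext m
    refine dif_pos ?_
    fin_cases m <;> simp [var, WB] <;> omega
  refine ⟨fun w => s w, fun v => (x v).2, ?_, fun v hv => ?_⟩
  · simp only [Om, mem_piFinset, As, mem_filter, mem_univ, true_and]
    exact fun v => by rw [e v v.2]; exact (h v).2
  · simp only [cfg, dif_pos hv, e v hv, if_pos (h v).2]
    exact Prod.ext (h v).1 rfl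

theorem card_le_of_cover {Y : Type} (p : Z3) (L : ℕ) (G : (WB p L → Fin 6) → Finset Y) (S : Set Y)
    (h : ∀ y ∈ S, ∃ σ, y ∈ G σ) (c : ℝ) (hc : ∀ σ, ((G σ).card : ℝ) ≤ c) :
    (S.ncard : ℝ) ≤ Real.exp (6 * (L + 1) ^ 2) * c := by
  have h1 : S.ncard ≤ (univ.biUnion G).card := by
    rw [← Set.ncard_coe_finset]
    exact Set.ncard_le_ncard (fun y hy => by simpa using h y hy) (Finset.finite_toSet _)
  have h2 : ((univ.biUnion G).card : ℝ) ≤ ∑ σ, ((G σ).card : ℝ) := by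
    exact_mod_cast card_biUnion_le
  have h3 := sum_le_card_nsmul univ (fun σ => ((G σ).card : ℝ)) c (fun σ _ => hc σ)
  have c0 : 0 ≤ c := le_trans (Nat.cast_nonneg _) (hc fun _ => 0)
  have h4 : ((univ : Finset (WB p L → Fin 6)).card : ℝ) ≤ Real.exp (6 * (L + 1) ^ 2) := by
    have : (WB p L).card = 3 * (L + 1) ^ 2 := by simp [WB]; ring
    rw [card_univ, Fintype.card_fun, Fintype.card_coe, this,
      show (6 * (L + 1) ^ 2 : ℝ) = (3 * (L + 1) ^ 2 : ℕ) * 2 by push_cast; ring, Real.exp_nat_mul]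
    push_cast
    refine pow_le_pow_left₀ (by positivity) ?_ _
    have := Real.exp_one_gt_d9
    rw [show (2 : ℝ) = 1 + 1 by norm_num, Real.exp_add]
    simp only [Fintype.card_fin]; push_cast; nlinarith
  rw [nsmul_eq_mul] at h3
  have h5 : (S.ncard : ℝ) ≤ (univ.biUnion G).card := by exact_mod_cast h1
  exact h5.trans (h2.trans (h3.trans (mul_le_mul_of_nonneg_right h4 c0)))

theorem cnt_bd (L : ℕ) : Real.exp (L ^ 3 * (35 * Real.log 2)) ≤
      ((fun (x : Z3 → Al) (v : Bx 0 L) => x v) '' XX).ncard ∧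
    (((fun (x : Z3 → Al) (v : Bx 0 L) => x v) '' XX).ncard : ℝ) ≤
      Real.exp (6 * (L + 1) ^ 2) * Real.exp (L ^ 3 * (35 * Real.log 2) + 10 * L ^ 2) := by
  constructor
  · refine (Real.exp_le_exp.2 (box_ge L)).trans ?_
    rw [← card_Om, ← Set.ncard_coe_finset, Nat.cast_le]
    refine Set.ncard_le_ncard_of_injOn (fun ω (v : Bx 0 L) => cfg s0 _ ω v)
      (fun ω _ => ⟨_, cfg_mem s0 _ ω, rfl⟩) fun ω h ω' h' e => funext fun v => ?_
    simp only [Om, mem_coe, mem_piFinset, As, mem_filter, mem_univ, true_and] at h h'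
    have := congrArg Prod.snd (congrFun e v)
    simpa [cfg, h v, h' v] using this
  · refine card_le_of_cover 0 L (fun σ => (Om (ext _ σ) (Bx 0 L)).image
      fun ω (v : Bx 0 L) => cfg (ext _ σ) _ ω v) _ ?_ _ fun σ => ?_
    · rintro _ ⟨x, hx, rfl⟩
      obtain ⟨σ, ω, h1, h2⟩ := cover 0 L (by simp) hx
      exact ⟨σ, mem_image.2 ⟨ω, h1, funext fun v => (h2 v v.2).symm⟩⟩
    · refine le_trans (Nat.cast_le.2 card_image_le) ?_
      rw [card_Om]; exact Real.exp_le_exp.2 (box_le _ _ _)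

theorem entropy : Tendsto (fun L : ℕ => Real.log ((fun (x : Z3 → Al) (v : Bx 0 L) => x v) '' XX).ncard
    / (L : ℝ) ^ 3) atTop (𝓝 (Real.log (2 ^ 35 : ℕ))) := by
  have e : Real.log (2 ^ 35 : ℕ) = 35 * Real.log 2 := by
    rw [Nat.cast_pow, Real.log_pow]; norm_num
  rw [e]
  have h := (tendsto_const_div_atTop_nhds_zero_nat (34 : ℝ)).const_add (35 * Real.log 2)
  rw [add_zero] at h
  refine tendsto_of_tendsto_of_tendsto_of_le_of_le' tendsto_const_nhds h ?_ ?_ <;>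
    filter_upwards [eventually_ge_atTop 1] with L hL
  · have L0 : (0 : ℝ) < L := by exact_mod_cast hL
    rw [le_div_iff₀ (by positivity), Real.le_log_iff_exp_le ((Real.exp_pos _).trans_le (cnt_bd L).1),
      mul_comm]
    exact (cnt_bd L).1
  · have L1 : (1 : ℝ) ≤ L := by exact_mod_cast hL
    rw [div_le_iff₀ (by positivity), Real.log_le_iff_le_exp ((Real.exp_pos _).trans_le (cnt_bd L).1)]
    refine (cnt_bd L).2.trans ?_
    rw [← Real.exp_add, Real.exp_le_exp]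
    have : 34 / (L : ℝ) * L ^ 3 = 34 * L ^ 2 := by field_simp
    nlinarith

theorem chl {Y : Type} [TopologicalSpace Y] [DiscreteTopology Y] (f : XX → Y) (hf : Continuous f) :
    ∃ r : ℕ, ∀ x y : XX, (∀ v ∈ Bx (-r, -r, -r) (2 * r + 1), x.1 v = y.1 v) → f x = f y := by
  by_contra h
  push Not at h
  haveI : CompactSpace XX := isCompact_iff_compactSpace.1 XX_closed.isCompact
  have cl : ∀ r : ℕ, IsClosed {z : XX × XX | (∀ v ∈ Bx (-r, -r, -r) (2 * r + 1), z.1.1 v = z.2.1 v) ∧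
      f z.1 ≠ f z.2} := fun r => by
    rw [Set.ofPred_and]
    refine IsClosed.inter ?_ ((isClosed_discrete {p : Y × Y | p.1 ≠ p.2}).preimage
      (f := fun z : XX × XX => (f z.1, f z.2)) (by fun_prop))
    simp only [Set.ofPred_forall]
    exact isClosed_iInter fun v => isClosed_iInter fun _ => isClosed_eq
      ((continuous_apply v).comp (continuous_subtype_val.comp continuous_fst))
      ((continuous_apply v).comp (continuous_subtype_val.comp continuous_snd))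
  obtain ⟨z, hz⟩ := IsCompact.nonempty_iInter_of_sequence_nonempty_isCompact_isClosed
    (fun r : ℕ => {z : XX × XX | (∀ v ∈ Bx (-r, -r, -r) (2 * r + 1), z.1.1 v = z.2.1 v) ∧ f z.1 ≠ f z.2})
    (fun r z hz => ⟨fun v hv => hz.1 v (by rw [mem_Bx] at hv ⊢; dsimp only at hv ⊢; omega), hz.2⟩)
    (fun r => by obtain ⟨x, y, a, b⟩ := h r; exact ⟨(x, y), a, b⟩) (cl 0).isCompact cl
  rw [Set.mem_iInter] at hz
  refine (hz 0).2 (congrArg f (Subtype.ext (funext fun v => (hz (v.1.natAbs + v.2.1.natAbs +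
    v.2.2.natAbs)).1 v ?_)))
  rw [mem_Bx]; dsimp only; omega

theorem fin_arith (r K : ℕ) (ℓ : ℝ) (hl : ℓ < 0)
    (key : ∀ m : ℕ, 1 ≤ m → (m * K : ℕ) ^ 3 * (35 * Real.log 2) ≤ 12 * ((m * K + 2 * r : ℕ) + 1) ^ 2 +
      ((m * K + 2 * r : ℕ) ^ 3 * (35 * Real.log 2) + 10 * (m * K + 2 * r : ℕ) ^ 2) +
      m ^ 3 * ℓ) : False := by
  have l0 : 0 < -ℓ := neg_pos.2 hl
  obtain ⟨m, hm⟩ := exists_nat_gt ((22 + 210 * r) * (K + 2 * r + 1) ^ 2 / (-ℓ) + 1)
  have c0 : 0 ≤ (22 + 210 * r) * (K + 2 * r + 1 : ℝ) ^ 2 / (-ℓ) := by positivity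
  have m1 : (1 : ℝ) < m := by linarith
  have := key m (by exact_mod_cast m1.le)
  have h1 : (22 + 210 * r) * (K + 2 * r + 1 : ℝ) ^ 2 < m * (-ℓ) := by
    rw [← div_lt_iff₀ l0]; linarith
  push_cast at this
  have r0 : (0 : ℝ) ≤ r := by positivity
  have K0 : (0 : ℝ) ≤ K := by positivity
  generalize (r : ℝ) = R at *
  generalize (K : ℝ) = Q at *
  generalize (m : ℝ) = M at *
  have l2 := Real.log_two_lt_d9
  have l2' := Real.log_two_gt_d9
  have N0 : 0 ≤ M * Q := by positivity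
  have a1 : M * Q + 2 * R + 1 ≤ M * (Q + 2 * R + 1) := by nlinarith
  have a2 : (M * Q + 2 * R + 1) ^ 2 ≤ (M * (Q + 2 * R + 1)) ^ 2 := by gcongr
  have a3 : (M * Q + 2 * R) ^ 2 ≤ (M * Q + 2 * R + 1) ^ 2 :=
    pow_le_pow_left₀ (by positivity) (by linarith) 2
  have a4 : (M * Q + 2 * R) ^ 3 - (M * Q) ^ 3 ≤ 6 * R * (M * Q + 2 * R) ^ 2 := by
    generalize M * Q = N at *
    nlinarith [mul_nonneg r0 (mul_nonneg r0 N0), mul_nonneg r0 (mul_nonneg r0 r0)]
  have a5 : ((M * Q + 2 * R) ^ 3 - (M * Q) ^ 3) * (35 * Real.log 2) ≤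
      6 * R * (M * Q + 2 * R + 1) ^ 2 * 35 := by
    refine mul_le_mul (a4.trans (by gcongr)) (by linarith) (by linarith) (by positivity)
  have a6 : M ^ 2 * ((22 + 210 * R) * (Q + 2 * R + 1) ^ 2) < M ^ 2 * (M * -ℓ) := by gcongr
  have a7 : (22 + 210 * R) * (M * Q + 2 * R + 1) ^ 2 ≤ (22 + 210 * R) * (M * (Q + 2 * R + 1)) ^ 2 := by
    gcongr
  nlinarith

theorem no_factor (π : XX → Z3 → Fin (2 ^ 35)) (hc : Continuous π)
    (hs : ∀ (u : Z3) (x y : XX), (∀ v, y.1 v = x.1 (v - u)) → ∀ v, π y v = π x (v - u)) :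
    ¬ Function.Surjective π := by
  intro hsur
  obtain ⟨r, hr⟩ := chl (fun x => π x 0) (by fun_prop)
  have loc : ∀ (x y : XX) (o : Z3), (∀ v ∈ Bx (o.1 - r, o.2.1 - r, o.2.2 - r) (2 * r + 1),
      x.1 v = y.1 v) → π x o = π y o := fun x y o h => by
    have a := hs (-o) x ⟨_, XX_shift (-o) x.2⟩ (fun _ => rfl) 0
    have b := hs (-o) y ⟨_, XX_shift (-o) y.2⟩ (fun _ => rfl) 0
    simp only [zero_sub, neg_neg] at a b
    rw [← a, ← b]
    refine hr _ _ fun v hv => h _ ?_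
    rw [mem_Bx] at hv ⊢
    simp only [Prod.fst_sub, Prod.snd_sub, Prod.fst_neg, Prod.snd_neg] at hv ⊢
    omega
  obtain ⟨k, hk⟩ : ∃ k, k = 1000 * (r + 1) := ⟨_, rfl⟩
  obtain ⟨K, hK⟩ : ∃ K, K = k + 2 * r := ⟨_, rfl⟩
  obtain ⟨ρ0, ρ1⟩ := rho_lt (u := 1 / ((2 ^ 35 : ℕ) : ℝ) ^ (k ^ 3))
    (η := 1 / (((3 * 2 ^ 35) ^ (K ^ 3) : ℕ) : ℝ)) (by positivity)
    (by rw [div_le_one (by positivity)]; exact one_le_pow₀ (by norm_num)) (by positivity)
    (by rw [div_le_one (by positivity)]; exact_mod_cast Nat.one_le_pow _ _ (by norm_num))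
  set ρ := rho (1 / ((2 ^ 35 : ℕ) : ℝ) ^ (k ^ 3)) (1 / (((3 * 2 ^ 35) ^ (K ^ 3) : ℕ) : ℝ)) with hρ
  have key : ∀ m : ℕ, 1 ≤ m → (m * K : ℕ) ^ 3 * (35 * Real.log 2) ≤ 12 * ((m * K + 2 * r : ℕ) + 1) ^ 2 +
      ((m * K + 2 * r : ℕ) ^ 3 * (35 * Real.log 2) + 10 * (m * K + 2 * r : ℕ) ^ 2) +
      m ^ 3 * Real.log ρ := by
    intro m hm
    let B := Bx (-r, -r, -r) (m * K + 2 * r)
    let O := Bx 0 (m * K)
    let c : Fin m × Fin m × Fin m → Z3 := fun b => (K * b.1.val, K * b.2.1.val, K * b.2.2.val)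
    let c' : Fin m × Fin m × Fin m → Z3 := fun b => (K * b.1.val + r, K * b.2.1.val + r, K * b.2.2.val + r)
    have u1 : ∀ (a a' : Fin m) (i : ℤ), K * (a.val : ℤ) ≤ i ∧ i < K * a.val + K →
        K * (a'.val : ℤ) ≤ i ∧ i < K * a'.val + K → a = a' := fun a a' i h h' => by
      apply Fin.ext
      by_contra e
      rcases Nat.lt_or_gt_of_ne e with e | e
      · have : (K : ℤ) * (a.val + 1) ≤ K * a'.val := mul_le_mul_of_nonneg_left (by omega) (by omega)
        linarith [h.2, h'.1]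
      · have : (K : ℤ) * (a'.val + 1) ≤ K * a.val := mul_le_mul_of_nonneg_left (by omega) (by omega)
        linarith [h.1, h'.2]
    have u2 : ∀ a : Fin m, 0 ≤ (K : ℤ) * a.val ∧ K * (a.val : ℤ) + K ≤ (m * K : ℕ) := fun a => by
      have : (K : ℤ) * (a.val + 1) ≤ K * m := mul_le_mul_of_nonneg_left (by have := a.2; omega) (by omega)
      push_cast
      exact ⟨by positivity, by linarith⟩
    have dj : ∀ b b' v, v ∈ Bx (c b) K → v ∈ Bx (c b') K → b = b' := fun b b' v h h' => by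
      rw [mem_Bx] at h h'
      exact Prod.ext (u1 _ _ _ h.1 h'.1) (Prod.ext (u1 _ _ _ h.2.1 h'.2.1) (u1 _ _ _ h.2.2 h'.2.2))
    have sub1 : ∀ b, Bx (c' b) k ⊆ Bx (c b) K := fun b v hv => by
      rw [mem_Bx] at hv ⊢; dsimp only [c, c'] at hv ⊢; omega
    have sub2 : ∀ b, Bx (c b) K ⊆ O := fun b v hv => by
      have := u2 b.1; have := u2 b.2.1; have := u2 b.2.2
      rw [mem_Bx] at hv ⊢; simp only [c, Prod.fst_zero, Prod.snd_zero] at hv ⊢; omega
    have sub3 : O ⊆ B := fun v hv => by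
      rw [mem_Bx] at hv ⊢; simp only [Prod.fst_zero, Prod.snd_zero] at hv ⊢; omega
    have pr : ∀ s b, ∏ i ∈ @filter B (fun i => i.1 ∈ Bx (c b) K) (fun _ => propDecidable _) univ,
        (As s i).card = ∏ v ∈ Bx (c b) K, mu (view s v) :=
      fun s b => by
        rw [filter_congr_decidable, prod_filter, prod_coe_sort B (fun v => if v ∈ Bx (c b) K then (As s v).card else 1),
          ← prod_filter, filter_mem_eq_inter, inter_eq_right.2 ((sub2 b).trans sub3)]
        exact prod_congr rfl fun v _ => card_As s v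
    have im := fun s => image_le (n := 2 ^ 35) (κ := k ^ 3) (Pm := (3 * 2 ^ 35) ^ (K ^ 3))
      (by norm_num) (by positivity) (fun v : B => As s v) (fun v => As_ne s v)
      (fun b i => i.1 ∈ Bx (c b) K) (fun b b' i => dj b b' i)
      (fun b => (univ : Finset O).filter fun j => j.1 ∈ Bx (c' b) k)
      (fun b b' i h h' => dj b b' i (sub1 b (mem_filter.1 h).2) (sub1 b' (mem_filter.1 h').2))
      (fun b => by
        rw [card_filter, sum_coe_sort O (fun v => if v ∈ Bx (c' b) k then 1 else 0), ← card_filter,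
          filter_mem_eq_inter, inter_eq_right.2 ((sub1 b).trans (sub2 b)), card_Bx])
      (fun ω j => π ⟨_, cfg_mem s B ω⟩ j) (fun b ω ω' e j hj => loc _ _ _ fun v hv => by
        have hj := (mem_filter.1 hj).2
        have : v ∈ Bx (c b) K := by rw [mem_Bx] at hv hj ⊢; dsimp only [c, c'] at hv hj ⊢; omega
        have h2 := sub3 (sub2 b this)
        simp only [cfg, dif_pos h2, e ⟨v, h2⟩ this])
      (fun b => by rw [pr, hK, hk]; exact not_dvd s _ r)
      (fun b => by rw [pr, ← card_Bx (c b) K]; exact prod_le_pow_card _ _ _ fun v _ => mu_le _)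
    have cO : Fintype.card O = (m * K) ^ 3 := by rw [Fintype.card_coe, card_Bx]
    have e35 : ((2 ^ 35 : ℕ) : ℝ) ^ (m * K) ^ 3 = Real.exp ((m * K : ℕ) ^ 3 * (35 * Real.log 2)) := by
      rw [← Nat.cast_pow (m * K), Real.exp_nat_mul, show (35 : ℝ) = (35 : ℕ) by norm_num, Real.exp_nat_mul,
        Real.exp_log (by norm_num)]
      norm_num
    have tot := card_le_of_cover (-r, -r, -r) (m * K + 2 * r) (fun σ => (Om (ext _ σ) B).image
      fun ω (j : O) => π ⟨_, cfg_mem (ext _ σ) B ω⟩ j) Set.univ (fun y _ => by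
        obtain ⟨x, hx⟩ := hsur fun v => if h : v ∈ O then y ⟨v, h⟩ else 0
        obtain ⟨σ, ω, h1, h2⟩ := cover (-r, -r, -r) (m * K + 2 * r) (by dsimp only; omega) x.2
        refine ⟨σ, mem_image.2 ⟨ω, h1, funext fun j => ?_⟩⟩
        rw [← loc x ⟨_, cfg_mem (ext _ σ) B ω⟩ j fun v hv => h2 v ?_, hx]
        · simp
        · have := j.2
          rw [mem_Bx] at hv this ⊢
          simp only [Prod.fst_zero, Prod.snd_zero] at hv this ⊢; omega)
      (Real.exp ((((m * K + 2 * r : ℕ) ^ 3 * (35 * Real.log 2) + 10 * (m * K + 2 * r : ℕ) ^ 2) +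
        (m * K : ℕ) ^ 3 * (35 * Real.log 2) + m ^ 3 * Real.log ρ) / 2)) (fun σ => by
        refine (pow_le_pow_iff_left₀ (by positivity) (by positivity) two_ne_zero).1 ((im (ext _ σ)).trans ?_)
        rw [← Real.exp_nat_mul, Nat.cast_ofNat, mul_div_cancel₀ _ (by norm_num), Real.exp_add,
          Real.exp_add, cO, e35, ← hρ]
        have : ρ ^ Fintype.card (Fin m × Fin m × Fin m) = Real.exp (m ^ 3 * Real.log ρ) := by
          rw [← Nat.cast_pow, Real.exp_nat_mul, Real.exp_log ρ0]; congr 1; simp; ring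
        rw [this]
        gcongr
        exact (card_Om _ B).trans_le (Real.exp_le_exp.2 (box_le _ _ _)))
    rw [Set.ncard_univ, Nat.card_eq_fintype_card, Fintype.card_fun, cO, Fintype.card_fin, Nat.cast_pow,
      e35, ← Real.exp_add, Real.exp_le_exp] at tot
    linarith
  exact fin_arith r K _ (Real.log_neg ρ0 ρ1) key

end
end Pool.Agent.H63.Avo
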