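import Pool.Agent.H63.BIDefs

/-! A product of two infinite groups is not bi-interpretable with arithmetic. -/

set_option autoImplicit false

namespace Pool.Agent.H63.BI

open FirstOrder FirstOrder.Language

def R2 {U W : Type} (S : U → W → Prop) : Prop := (Set.range S).Finite

section rect

variable {U W U' W' : Type} {S S' : U → W → Prop}

theorem R2.comp (h : R2 S) (φ : U' → U) (ψ : W' → W) : R2 fun u w => S (φ u) (ψ w) :=
  (Set.Finite.image (fun r w => r (ψ w)) h).subset (by rintro _ ⟨u, rfl⟩; exact ⟨_, ⟨_, rfl⟩, rfl⟩)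

theorem R2.of_iff (h : R2 S) (e : ∀ u w, S u w ↔ S' u w) : R2 S' := by
  rwa [show S' = S from funext fun u => funext fun w => propext (e u w).symm]

theorem R2.not (h : R2 S) : R2 fun u w => ¬ S u w :=
  (Set.Finite.image (fun r w => ¬ r w) h).subset (by rintro _ ⟨u, rfl⟩; exact ⟨_, ⟨_, rfl⟩, rfl⟩)

theorem R2.and (h : R2 S) (h' : R2 S') : R2 fun u w => S u w ∧ S' u w :=
  (Set.Finite.image2 (fun r r' w => r w ∧ r' w) h h').subset
    (by rintro _ ⟨u, rfl⟩; exact ⟨_, ⟨_, rfl⟩, _, ⟨_, rfl⟩, rfl⟩)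

theorem R2.imp (h : R2 S) (h' : R2 S') : R2 fun u w => S u w → S' u w :=
  (h.and h'.not).not.of_iff fun _ _ => by tauto

theorem R2.left (p : U → Prop) : R2 fun u (_ : W) => p u :=
  (Set.finite_range fun (q : Prop) (_ : W) => q).subset (by rintro _ ⟨u, rfl⟩; exact ⟨_, rfl⟩)

theorem R2.right (p : W → Prop) : R2 fun (_ : U) w => p w :=
  (Set.finite_singleton p).subset (by rintro _ ⟨u, rfl⟩; rfl)

theorem R2.all {S : U × U' → W × W' → Prop} (h : R2 S) :
    R2 fun u w => ∀ a b, S (u, a) (w, b) :=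
  (Set.Finite.image (fun (T : Set (W × W' → Prop)) w => ∀ r ∈ T, ∀ b, r (w, b))
    h.finite_subsets).subset (by
      rintro _ ⟨u, rfl⟩
      refine ⟨Set.range fun a => S (u, a), by rintro _ ⟨a, rfl⟩; exact ⟨_, rfl⟩, ?_⟩
      funext w
      simp)

theorem R2.allF {I : Type} [Finite I] {S : I → U → W → Prop} (h : ∀ i, R2 (S i)) :
    R2 fun u w => ∀ i, S i u w :=
  (Set.Finite.image (fun (T : I → W → Prop) w => ∀ i, T i w) (Set.Finite.pi' h)).subset (by
    rintro _ ⟨u, rfl⟩
    exact ⟨fun i => S i u, fun i => ⟨_, rfl⟩, rfl⟩)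

theorem R2.exF {I : Type} [Finite I] {S : I → U → W → Prop} (h : ∀ i, R2 (S i)) :
    R2 fun u w => ∃ i, S i u w :=
  (R2.allF fun i => (h i).not).not.of_iff fun _ _ => by simp

variable {G A B : Type} (e : A × B ≃ G)

theorem R2.allG {D : Type} {S : U → W → (D → G) → Prop}
    (h : R2 fun (u : U × (D → A)) (w : W × (D → B)) => S u.1 w.1 fun i => e (u.2 i, w.2 i)) :
    R2 fun u w => ∀ x, S u w x :=
  h.all.of_iff fun _ _ => ⟨fun h x => by
    simpa using h (fun i => (e.symm (x i)).1) fun i => (e.symm (x i)).2, fun h _ _ => h _⟩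

theorem R2.exG {D : Type} {S : U → W → (D → G) → Prop}
    (h : R2 fun (u : U × (D → A)) (w : W × (D → B)) => S u.1 w.1 fun i => e (u.2 i, w.2 i)) :
    R2 fun u w => ∃ x, S u w x :=
  (R2.allG e (S := fun u w x => ¬ S u w x) h.not).not.of_iff fun _ _ => by simp

end rect

section fv

variable {G A B : Type} [Group G] [Group A] [Group B] (e : A × B ≃* G)

theorem term_prod {β : Type} (t : LG.Term β) (u : β → A) (w : β → B) :
    t.realize (fun i => e (u i, w i)) = e (t.realize u, t.realize w) := by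
  induction t with
  | var i => rfl
  | func f ts ih =>
    simp only [Term.realize, ih]
    cases f
    · exact (map_one e).symm
    · exact (map_inv e _).symm
    · exact (map_mul e _ _).symm

theorem fv {β : Type} {n : ℕ} (φ : LG.BoundedFormula β n) :
    R2 fun (u : (β → A) × (Fin n → A)) (w : (β → B) × (Fin n → B)) =>
      φ.Realize (fun i => e (u.1 i, w.1 i)) fun j => e (u.2 j, w.2 j) := by
  induction φ with
  | falsum => exact R2.left fun _ => False
  | equal t1 t2 =>
    refine ((R2.left fun u => t1.realize (Sum.elim u.1 u.2) = t2.realize (Sum.elim u.1 u.2)).and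
      (R2.right fun w => t1.realize (Sum.elim w.1 w.2) = t2.realize (Sum.elim w.1 w.2))).of_iff
      fun u w => ?_
    have : (Sum.elim (fun i => e (u.1 i, w.1 i)) fun j => e (u.2 j, w.2 j)) =
        fun i => e (Sum.elim u.1 u.2 i, Sum.elim w.1 w.2 i) := by
      funext i; cases i <;> rfl
    simp only [BoundedFormula.Realize, this, term_prod, e.injective.eq_iff, Prod.mk.injEq]
  | rel r => exact r.elim
  | imp _ _ h1 h2 => exact h1.imp h2
  | @all n φ h =>
    refine (R2.all (h.comp (fun u : ((β → A) × (Fin n → A)) × A => (u.1.1, Fin.snoc u.1.2 u.2))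
      (fun u : ((β → B) × (Fin n → B)) × B => (u.1.1, Fin.snoc u.1.2 u.2)))).of_iff fun u w => ?_
    have : ∀ a b, (fun j => e ((Fin.snoc u.2 a : Fin (n + 1) → A) j,
        (Fin.snoc w.2 b : Fin (n + 1) → B) j)) =
        Fin.snoc (fun j => e (u.2 j, w.2 j)) (e (a, b)) := by
      intro a b
      funext j
      refine Fin.lastCases ?_ (fun j => ?_) j <;> simp
    simp only [BoundedFormula.Realize, this]
    exact ⟨fun h x => by simpa using h (e.symm x).1 (e.symm x).2, fun h _ _ => h _⟩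

theorem fv_def {α : Type} {s : Set (α → G)} (h : (Set.univ : Set G).Definable LG s) :
    R2 fun (u : α → A) (w : α → B) => (fun i => e (u i, w i)) ∈ s := by
  obtain ⟨φ, rfl⟩ := Set.definable_iff_exists_formula_sum.1 h
  refine ((fv e φ).comp (fun u : α → A => (Sum.elim (fun g => (e.symm g.1).1) u, default))
    (fun w : α → B => (Sum.elim (fun g => (e.symm g.1).2) w, default))).of_iff fun u w => ?_
  simp only [Set.mem_ofPred_eq, Formula.Realize]
  refine iff_of_eq (congrArg₂ _ ?_ (Subsingleton.elim _ _))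
  funext i
  cases i <;> simp

include e in
theorem not_biInt [Infinite A] [Infinite B] : ¬ BiInt LG LA G ℕ := by
  rintro ⟨I, J, h1, -⟩
  let Le : (Fin J.n → ℕ) → (Fin J.n → ℕ) → Prop := fun y y' => ∀ i, ∃ j, y i ≤ y' j
  let H : G → G → Prop := fun g g' => ∀ y' ∈ J.X, J.f y' = g' → ∃ y ∈ J.X, J.f y = g ∧ Le y y'
  have fin : ∀ g', {g | H g g'}.Finite := by
    intro g'
    obtain ⟨y', hy, rfl⟩ := J.surj g'
    refine ((Set.finite_Iic fun _ => ∑ j, y' j).image J.f).subset fun g hg => ?_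
    obtain ⟨y, -, rfl, h⟩ := hg y' hy rfl
    refine ⟨y, fun i => ?_, rfl⟩
    obtain ⟨j, hj⟩ := h i
    exact hj.trans (Finset.single_le_sum (fun _ _ => Nat.zero_le _) (Finset.mem_univ j))
  have tot : ∀ g g', ¬ H g g' → H g' g := by
    intro g g' h y hy e
    simp only [H, Le, not_forall, not_exists, not_and] at h
    obtain ⟨y', hy', e', h⟩ := h
    obtain ⟨i, hi⟩ := h y hy e
    exact ⟨y', hy', e', fun j => ⟨i, (not_le.1 (hi j)).le⟩⟩
  let Θ : (Fin J.n × Fin I.n → G) → G → Prop := fun x g => (fun o => o.elim g x) ∈ graph I J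
  let Ad : (Fin I.n → G) → (Fin I.n → G) → (Fin I.n → G) → Prop := fun x z x' =>
    x ∈ I.X ∧ z ∈ I.X ∧ x' ∈ I.X ∧ I.f x + I.f z = I.f x'
  have hH : ∀ g g', (∀ x', Θ x' g' → ∃ x, Θ x g ∧ ∀ i, ∃ j, ∃ z,
      Ad (fun k => x (i, k)) z fun k => x' (j, k)) ↔ H g g' := by
    intro g g'
    choose s hs hs' using I.surj
    constructor
    · intro h y' hy e
      obtain ⟨x, ⟨a1, a2, a3⟩, h⟩ := h (fun p => s (y' p.1) p.2)
        ⟨fun i => hs (y' i), by simpa [hs'] using hy, by simpa [hs'] using e⟩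
      refine ⟨_, a2, a3, fun i => ?_⟩
      obtain ⟨j, z, -, -, -, h⟩ := h i
      exact ⟨j, by simp only [hs'] at h; exact h ▸ Nat.le_add_right _ _⟩
    · rintro h x' ⟨a1, a2, a3⟩
      obtain ⟨y, hy, e, h⟩ := h _ a2 a3
      refine ⟨fun p => s (y p.1) p.2,
        ⟨fun i => hs (y i), by simpa [hs'] using hy, by simpa [hs'] using e⟩, fun i => ?_⟩
      obtain ⟨j, hj⟩ := h i
      obtain ⟨d, hd⟩ := Nat.exists_eq_add_of_le hj
      exact ⟨j, s d, hs (y i), hs _, a1 j, by simp only [hs']; exact hd.symm⟩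
  have rΘ : R2 fun (u : (Fin J.n × Fin I.n → A) × A) (w : (Fin J.n × Fin I.n → B) × B) =>
      Θ (fun i => e (u.1 i, w.1 i)) (e (u.2, w.2)) :=
    ((fv_def e h1).comp (fun u : (Fin J.n × Fin I.n → A) × A => fun o => o.elim u.2 u.1)
      fun w : (Fin J.n × Fin I.n → B) × B => fun o => o.elim w.2 w.1).of_iff fun u w => by
        simp only [Θ]
        congr! 1
        funext o
        cases o <;> rfl
  have rA : R2 fun (u : (Fin I.n → A) × (Fin I.n → A) × (Fin I.n → A))
      (w : (Fin I.n → B) × (Fin I.n → B) × (Fin I.n → B)) =>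
      Ad (fun i => e (u.1 i, w.1 i)) (fun i => e (u.2.1 i, w.2.1 i))
        fun i => e (u.2.2 i, w.2.2 i) :=
    ((fv_def e (I.defFun 2 AF.add)).comp
      (fun (u : (Fin I.n → A) × (Fin I.n → A) × (Fin I.n → A)) p =>
        p.1.elim u.2.2 ![u.1, u.2.1] p.2)
      fun (u : (Fin I.n → B) × (Fin I.n → B) × (Fin I.n → B)) p =>
        p.1.elim u.2.2 ![u.1, u.2.1] p.2).of_iff fun u w => by
        simp only [Set.mem_ofPred_eq, Option.forall, Fin.forall_fin_two]
        exact ⟨fun h => ⟨h.1.2.1, h.1.2.2, h.1.1, h.2⟩, fun h => ⟨⟨h.2.2.1, h.1, h.2.1⟩, h.2.2.2⟩⟩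
  have rH : R2 fun (a : A) (b : B) => H (e (1, b)) (e (a, 1)) := by
    refine R2.of_iff ?_ fun a b => hH _ _
    refine R2.allG e.toEquiv (R2.imp ?_ (R2.exG e.toEquiv (R2.and ?_
      (R2.allF fun i => R2.exF fun j => R2.exG e.toEquiv ?_))))
    · exact rΘ.comp (fun u : A × _ => (u.2, u.1)) fun w : B × _ => (w.2, 1)
    · exact rΘ.comp (fun u : (A × _) × _ => (u.2, 1)) fun w : (B × _) × _ => (w.2, w.1.1)
    · exact rA.comp
        (fun u : ((A × (_ → A)) × (_ → A)) × _ =>
          (fun k => u.1.2 (i, k), u.2, fun k => u.1.1.2 (j, k)))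
        fun u : ((B × (_ → B)) × (_ → B)) × _ =>
          (fun k => u.1.2 (i, k), u.2, fun k => u.1.1.2 (j, k))
  have := rH.to_subtype
  obtain ⟨r, hr⟩ := Finite.exists_infinite_fiber
    (fun a : A => (⟨_, a, rfl⟩ : Set.range fun (a : A) (b : B) => H (e (1, b)) (e (a, 1))))
  obtain ⟨a, ha⟩ := (Set.infinite_coe_iff.1 hr).nonempty
  obtain ⟨b, -, hb⟩ := Set.infinite_univ.exists_notMem_finite ((fin (e (a, 1))).preimage
    (f := fun b : B => e (1, b)) fun _ _ _ _ h => by simpa using h)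
  refine Set.infinite_coe_iff.1 hr (((fin (e (1, b))).preimage
    (f := fun a : A => e (a, 1)) fun _ _ _ _ h => by simpa using h).subset fun a' ha' => ?_)
  have := congrFun (congrArg Subtype.val (ha'.trans ha.symm)) b
  exact tot _ _ fun h => hb (cast this h)

end fv

end Pool.Agent.H63.BI
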