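import Pool.Agent.H63.BI1

/-! The free metabelian group of rank two has trivial centre; the group of the 4-cycle. -/

set_option autoImplicit false

namespace Pool.Agent.H63.BI

open commutatorElement

section univ

variable {V : Type} (Γ : SimpleGraph V)

def gen (v : V) : MG Γ := QuotientGroup.mk (FreeGroup.of v)

def lift {H : Type} [Group H] (hH : derivedSeries H 2 = ⊥) (f : V → H)
    (hf : ∀ u v, Γ.Adj u v → Commute (f u) (f v)) : MG Γ →* H :=
  QuotientGroup.lift _ (FreeGroup.lift f) (by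
    refine Subgroup.normalClosure_le_normal ?_
    rintro g (hg | ⟨u, v, h, rfl⟩)
    · have := map_derivedSeries_le_derivedSeries (FreeGroup.lift f) 2 ⟨g, hg, rfl⟩
      rwa [hH] at this
    · simpa [map_commutatorElement, commutatorElement_eq_one_iff_commute] using hf u v h)

@[simp] theorem lift_gen {H : Type} [Group H] (hH : derivedSeries H 2 = ⊥) (f : V → H) (hf)
    (v : V) : lift Γ hH f hf (gen Γ v) = f v := by
  simp [lift, gen]

theorem met : derivedSeries (MG Γ) 2 = ⊥ := by
  rw [← map_derivedSeries_eq (QuotientGroup.mk'_surjective _), eq_bot_iff]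
  rintro _ ⟨g, hg, rfl⟩
  exact (QuotientGroup.eq_one_iff g).2 (Subgroup.subset_normalClosure (.inl hg))

theorem gen_comm {u v : V} (h : Γ.Adj u v) : Commute (gen Γ u) (gen Γ v) := by
  rw [← commutatorElement_eq_one_iff_commute]
  exact (QuotientGroup.eq_one_iff ⁅FreeGroup.of u, FreeGroup.of v⁆).2
    (Subgroup.subset_normalClosure (.inr ⟨u, v, h, rfl⟩))

theorem hext {H : Type} [Group H] {f g : MG Γ →* H} (h : ∀ v, f (gen Γ v) = g (gen Γ v)) :
    f = g := by
  refine QuotientGroup.monoidHom_ext _ (FreeGroup.ext_hom _ _ h)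

theorem comm_of {H : Type} [Group H] (f : MG Γ →* H) {y : H} (h : ∀ v, Commute (f (gen Γ v)) y)
    (m : MG Γ) : Commute (f m) y := by
  obtain ⟨m, rfl⟩ := QuotientGroup.mk_surjective m
  induction m with
  | C1 => simp
  | of v => exact h v
  | inv_of v ih => simpa using ih.inv_left
  | mul a b ha hb => simpa using ha.mul_left hb

end univ

theorem met_prod {A B : Type} [Group A] [Group B] (hA : derivedSeries A 2 = ⊥)
    (hB : derivedSeries B 2 = ⊥) : derivedSeries (A × B) 2 = ⊥ := by
  rw [eq_bot_iff]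
  intro g hg
  have h1 := map_derivedSeries_le_derivedSeries (MonoidHom.fst A B) 2 ⟨g, hg, rfl⟩
  have h2 := map_derivedSeries_le_derivedSeries (MonoidHom.snd A B) 2 ⟨g, hg, rfl⟩
  rw [hA] at h1
  rw [hB] at h2
  exact Prod.ext h1 h2

@[ext] structure Aff (R : Type) [CommRing R] where
  u : Rˣ
  r : R

namespace Aff

variable {R : Type} [CommRing R]

instance : Mul (Aff R) := ⟨fun a b => ⟨a.u * b.u, a.r + a.u * b.r⟩⟩
instance : One (Aff R) := ⟨⟨1, 0⟩⟩
instance : Inv (Aff R) := ⟨fun a => ⟨a.u⁻¹, -(a.u⁻¹ : Rˣ) * a.r⟩⟩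
@[simp] theorem mul_u (a b : Aff R) : (a * b).u = a.u * b.u := rfl
@[simp] theorem mul_r (a b : Aff R) : (a * b).r = a.r + a.u * b.r := rfl
@[simp] theorem one_u : (1 : Aff R).u = 1 := rfl
@[simp] theorem one_r : (1 : Aff R).r = 0 := rfl
@[simp] theorem inv_u (a : Aff R) : a⁻¹.u = a.u⁻¹ := rfl
@[simp] theorem inv_r (a : Aff R) : a⁻¹.r = -(a.u⁻¹ : Rˣ) * a.r := rfl

instance : Group (Aff R) := Group.ofLeftAxioms
  (fun a b c => by ext <;> simp [mul_assoc, mul_add, add_assoc])
  (fun a => by ext <;> simp) fun a => by ext <;> simp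

def uH : Aff R →* Rˣ := ⟨⟨u, rfl⟩, fun _ _ => rfl⟩

theorem met : derivedSeries (Aff R) 2 = ⊥ := by
  have h : derivedSeries (Aff R) 1 ≤ (uH (R := R)).ker := by
    rw [derivedSeries_one]; exact Abelianization.commutator_subset_ker (uH (R := R))
  rw [derivedSeries_succ, eq_bot_iff, Subgroup.commutator_le]
  intro a ha b hb
  have h1 : a.u = 1 := h ha
  have h2 : b.u = 1 := h hb
  rw [Subgroup.mem_bot, commutatorElement_eq_one_iff_mul_comm]
  ext <;> simp [h1, h2, add_comm]

theorem conj (a b : Aff R) (hb : b.u = 1) : a * b * a⁻¹ = ⟨1, a.u * b.r⟩ := by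
  ext <;> simp [hb]

end Aff

abbrev M2 : Type := MG (⊥ : SimpleGraph Bool)
abbrev Z2 : Type := ℤ × ℤ
abbrev R : Type := AddMonoidAlgebra ℤ Z2

def x : M2 := gen _ true
def y : M2 := gen _ false
def c : M2 := ⁅x, y⁆
def t (g : Z2) : M2 := x ^ g.1 * y ^ g.2

theorem met_comm {H : Type} [CommGroup H] : derivedSeries H 2 = ⊥ := by
  rw [derivedSeries_succ, derivedSeries_one, commutator_eq_bot]; simp

noncomputable def ab : M2 →* Multiplicative Z2 :=
  lift _ met_comm (fun b => .ofAdd (if b then (1, 0) else (0, 1))) fun _ _ h => h.elim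

theorem ab_t (g : Z2) : ab (t g) = .ofAdd g := by
  simp [ab, t, x, y, ← ofAdd_zsmul, ← ofAdd_add]

instance : Infinite M2 := .of_surjective ab fun g => ⟨t g.toAdd, ab_t _⟩

theorem comm_N {a b : M2} (ha : a ∈ commutator M2) (hb : b ∈ commutator M2) : a * b = b * a := by
  have : ⁅a, b⁆ ∈ derivedSeries M2 2 := Subgroup.commutator_mem_commutator ha hb
  rwa [met, Subgroup.mem_bot, commutatorElement_eq_one_iff_mul_comm] at this

theorem decomp (m : M2) : (t (ab m).toAdd)⁻¹ * m ∈ commutator M2 := by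
  let ψ : Multiplicative Z2 →* Abelianization M2 :=
    { toFun g := Abelianization.of x ^ g.toAdd.1 * Abelianization.of y ^ g.toAdd.2
      map_one' := by simp
      map_mul' a b := by simp [zpow_add, mul_mul_mul_comm] }
  have : ψ.comp ab = Abelianization.of := hext _ fun v => by cases v <;> simp [ψ, ab, x, y]
  have h := DFunLike.congr_fun this m
  rw [← Abelianization.ker_of, MonoidHom.mem_ker, map_mul, map_inv, ← h]
  simp [ψ, t]

theorem c_mem : c ∈ commutator M2 := Subgroup.commutator_mem_commutator trivial trivial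

theorem conj_c (m : M2) : m * c * m⁻¹ = t (ab m).toAdd * c * (t (ab m).toAdd)⁻¹ := by
  have := comm_N (decomp m) c_mem
  calc m * c * m⁻¹ = t (ab m).toAdd * ((t (ab m).toAdd)⁻¹ * m * c) * m⁻¹ := by group
    _ = _ := by rw [this]; group

def NN : Type := commutator M2

instance : CommGroup NN :=
  { (inferInstance : Group (commutator M2)) with
    mul_comm := fun a b => Subtype.ext (comm_N a.2 b.2) }

def cj (g : Z2) : NN := ⟨t g * c * (t g)⁻¹, Subgroup.Normal.conj_mem inferInstance _ c_mem _⟩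

noncomputable def Φ : (Z2 →₀ ℤ) →+ Additive NN :=
  Finsupp.liftAddHom fun g => zmultiplesHom _ (Additive.ofMul (cj g))

def inc : NN →* M2 := (commutator M2).subtype

theorem Φ_surj {z : M2} (hz : z ∈ commutator M2) : ∃ p, inc (Φ p).toMul = z := by
  have h1 : commutator M2 ≤ Subgroup.normalClosure {c} := by
    rw [commutator_def, Subgroup.commutator_le]
    intro a _ b _
    rw [← QuotientGroup.eq_one_iff, ← QuotientGroup.mk'_apply, map_commutatorElement,
      commutatorElement_eq_one_iff_commute]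
    have hc : Commute (QuotientGroup.mk' (Subgroup.normalClosure {c}) x)
        (QuotientGroup.mk' (Subgroup.normalClosure {c}) y) := by
      rw [← commutatorElement_eq_one_iff_commute, ← map_commutatorElement]
      exact (QuotientGroup.eq_one_iff c).2 (Subgroup.subset_normalClosure rfl)
    refine comm_of _ _ (fun v => (comm_of _ _ (fun w => ?_) b).symm) a
    cases v <;> cases w
    · exact .refl _
    · exact hc
    · exact hc.symm
    · exact .refl _
  have h2 := h1 hz
  clear hz
  induction h2 using Subgroup.closure_induction with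
  | mem a ha =>
    obtain ⟨_, rfl, h⟩ := Group.mem_conjugatesOfSet_iff.1 ha
    obtain ⟨m, rfl⟩ := isConj_iff.1 h
    exact ⟨Finsupp.single (ab m).toAdd 1, by rw [conj_c]; simp [Φ]; rfl⟩
  | one => exact ⟨0, by simp⟩
  | mul a b _ _ ha hb =>
    obtain ⟨p, rfl⟩ := ha
    obtain ⟨q, rfl⟩ := hb
    exact ⟨p + q, by simp⟩
  | inv a _ ha =>
    obtain ⟨p, rfl⟩ := ha
    exact ⟨-p, by simp⟩

noncomputable def T : Multiplicative Z2 →* Rˣ := (AddMonoidAlgebra.of ℤ Z2).toHomUnits

theorem T_val (g : Multiplicative Z2) : (T g : R) = AddMonoidAlgebra.single g.toAdd 1 := rfl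

theorem T_ne {g : Multiplicative Z2} (h : (T g : R) = 1) : g = 1 := by
  rw [T_val, AddMonoidAlgebra.one_def] at h
  exact AddMonoidAlgebra.single_left_injective one_ne_zero h

noncomputable def μ : M2 →* Aff R :=
  lift _ Aff.met (fun b => if b then ⟨T (.ofAdd (1, 0)), 1⟩ else ⟨T (.ofAdd (0, 1)), 0⟩)
    fun _ _ h => h.elim

theorem μ_u (m : M2) : (μ m).u = T (ab m) := by
  have : Aff.uH.comp μ = T.comp ab := hext _ fun v => by cases v <;> simp [μ, ab, Aff.uH]
  exact DFunLike.congr_fun this m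

noncomputable def δ : R := 1 - (T (.ofAdd (0, 1)) : R)

theorem δ_ne : δ ≠ 0 := fun h => by simpa using T_ne (sub_eq_zero.1 h).symm

theorem μ_c : μ c = ⟨1, δ⟩ := by
  ext
  · simp [μ, c, x, y, commutatorElement_def, mul_comm, mul_left_comm]
  · simp [μ, c, x, y, commutatorElement_def, δ, mul_comm, mul_left_comm, sub_eq_add_neg]

theorem μ_conj (m : M2) : μ (m * c * m⁻¹) = ⟨1, T (ab m) * δ⟩ := by
  rw [map_mul, map_mul, map_inv, Aff.conj _ _ (by rw [μ_c]), μ_u, μ_c]

theorem μ_Φ (p : Z2 →₀ ℤ) : μ (inc (Φ p).toMul) = ⟨1, AddMonoidAlgebra.ofCoeff p * δ⟩ := by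
  induction p using Finsupp.induction_linear with
  | zero => simp; rfl
  | add p q hp hq =>
    rw [map_add, toMul_add, map_mul, map_mul, hp, hq]
    ext1 <;> simp [add_mul]
  | single g n =>
    have h : μ (inc (cj g)) = ⟨1, AddMonoidAlgebra.single g 1 * δ⟩ := by
      have := μ_conj (t g)
      rwa [ab_t] at this
    have h2 : ∀ r : R, (⟨1, r⟩ : Aff R) ^ n = ⟨1, n * r⟩ := by
      intro r
      induction n with
      | zero => simp; rfl
      | succ n ih => rw [zpow_add_one, ih]; ext1 <;> simp [add_mul]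
      | pred n ih => rw [zpow_sub_one, ih]; ext1 <;> simp [sub_mul, sub_eq_add_neg, add_mul]
    simp only [Φ, Finsupp.liftAddHom_apply_single, zmultiplesHom_apply, toMul_zsmul, toMul_ofMul,
      map_zpow, h, h2, ← mul_assoc]
    congr 2
    simp [AddMonoidAlgebra.intCast_def, AddMonoidAlgebra.single_mul_single]

theorem center_M2 : Subgroup.center M2 = ⊥ := by
  rw [eq_bot_iff]
  intro z hz
  rw [Subgroup.mem_center_iff] at hz
  have h1 := μ_conj z
  rw [← hz, mul_inv_cancel_right, μ_c] at h1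
  have h2 : ab z = 1 := T_ne (mul_right_cancel₀ δ_ne (by simpa using (congrArg Aff.r h1).symm))
  have h3 := decomp z
  rw [h2] at h3
  obtain ⟨p, rfl⟩ := Φ_surj (z := z) (by simpa [t] using h3)
  have h4 := congrArg (fun m => (μ m).r) (hz x)
  simp only [map_mul μ, μ_Φ, Aff.mul_r, μ_u, Units.val_one, one_mul] at h4
  have h5 : ((T (ab x) : R) - 1) * (AddMonoidAlgebra.ofCoeff p * δ) = 0 := by
    linear_combination h4
  have h6 : (T (ab x) : R) - 1 ≠ 0 := fun h => by simpa [ab, x] using T_ne (sub_eq_zero.1 h)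
  have h7 : p = 0 := by simpa [h6, δ_ne] using h5
  simp [h7]

abbrev C4 : SimpleGraph (Bool ⊕ Bool) := completeBipartiteGraph Bool Bool

noncomputable def iL : M2 →* MG C4 := lift _ (met _) (fun b => gen _ (.inl b)) fun _ _ h => h.elim
noncomputable def iR : M2 →* MG C4 := lift _ (met _) (fun b => gen _ (.inr b)) fun _ _ h => h.elim

noncomputable def fw : M2 × M2 →* MG C4 :=
  iL.noncommCoprod iR fun a b => comm_of _ _ (fun v => (comm_of _ _ (fun w => by
    simpa [iL, iR] using gen_comm C4 (u := .inr w) (v := .inl v) (by simp)) b).symm) a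

noncomputable def bw : MG C4 →* M2 × M2 :=
  lift _ (met_prod (met _) (met _)) (Sum.elim (fun b => (gen _ b, 1)) fun b => (1, gen _ b))
    (by rintro (u | u) (v | v) h <;> simp [Commute, SemiconjBy] at h ⊢)

noncomputable def iso : M2 × M2 ≃* MG C4 :=
  fw.toMulEquiv bw
    (by
      have h1 : bw.comp iL = MonoidHom.inl _ _ := hext _ fun v => by simp [bw, iL]
      have h2 : bw.comp iR = MonoidHom.inr _ _ := hext _ fun v => by simp [bw, iR]
      refine MonoidHom.ext fun ⟨a, b⟩ => ?_
      have a1 := DFunLike.congr_fun h1 a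
      have a2 := DFunLike.congr_fun h2 b
      simp only [MonoidHom.comp_apply] at a1 a2
      simp [fw, a1, a2])
    (hext _ (by rintro (v | v) <;> simp [bw, fw, iL, iR]))

theorem center_C4 : Subgroup.center (MG C4) = ⊥ := by
  rw [eq_bot_iff]
  intro z hz
  obtain ⟨⟨a, b⟩, rfl⟩ := iso.surjective z
  rw [Subgroup.mem_center_iff] at hz
  have h : ∀ g : M2 × M2, g * (a, b) = (a, b) * g := fun g => iso.injective (by simpa using hz (iso g))
  have ha : a ∈ Subgroup.center M2 :=
    Subgroup.mem_center_iff.2 fun g => congrArg Prod.fst (h (g, 1))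
  have hb : b ∈ Subgroup.center M2 :=
    Subgroup.mem_center_iff.2 fun g => congrArg Prod.snd (h (1, g))
  rw [center_M2, Subgroup.mem_bot] at ha hb
  rw [ha, hb]
  exact map_one iso

end Pool.Agent.H63.BI
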