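import Mathlib

/-! Interpretations, bi-interpretability, partially commutative metabelian groups. -/

set_option autoImplicit false

namespace Pool.Agent.H63.BI

open FirstOrder FirstOrder.Language commutatorElement

/-- Function symbols of the language of groups. -/
inductive GF : ℕ → Type
  | one : GF 0
  | inv : GF 1
  | mul : GF 2

/-- The language of groups. -/
def LG : Language := ⟨GF, fun _ => Empty⟩

instance grpStr (G : Type) [Group G] : LG.Structure G where
  funMap f v := match f, v with
    | .one, _ => 1
    | .inv, v => (v 0)⁻¹
    | .mul, v => v 0 * v 1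
  RelMap r := r.elim

/-- Function symbols of the language of arithmetic. -/
inductive AF : ℕ → Type
  | zero : AF 0
  | one : AF 0
  | add : AF 2
  | mul : AF 2

/-- The language of arithmetic. -/
def LA : Language := ⟨AF, fun _ => Empty⟩

instance natStr : LA.Structure ℕ where
  funMap f v := match f, v with
    | .zero, _ => 0
    | .one, _ => 1
    | .add, v => v 0 + v 1
    | .mul, v => v 0 * v 1
  RelMap r := r.elim

/-- An interpretation, with parameters, of the `L'`-structure `B` in the `L`-structure `A`: a
definable set `X ⊆ A ^ n` and a map `f` from `X` onto `B` whose kernel is definable and under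
which the graphs of the function symbols and the relations of `B` have definable preimages. -/
structure Interp (L L' : FirstOrder.Language.{0, 0}) (A B : Type) [L.Structure A] [L'.Structure B] where
  n : ℕ
  X : Set (Fin n → A)
  f : (Fin n → A) → B
  surj : ∀ b, ∃ x ∈ X, f x = b
  defX : (Set.univ : Set A).Definable L X
  defEq : (Set.univ : Set A).Definable L {p : Bool × Fin n → A |
    (∀ i, (fun j => p (i, j)) ∈ X) ∧ (f fun j => p (false, j)) = f fun j => p (true, j)}
  defFun : ∀ (k : ℕ) (s : L'.Functions k), (Set.univ : Set A).Definable L
    {p : Option (Fin k) × Fin n → A | (∀ i, (fun j => p (i, j)) ∈ X) ∧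
      Structure.funMap s (fun i => f fun j => p (some i, j)) = f fun j => p (none, j)}
  defRel : ∀ (k : ℕ) (r : L'.Relations k), (Set.univ : Set A).Definable L
    {p : Fin k × Fin n → A | (∀ i, (fun j => p (i, j)) ∈ X) ∧
      Structure.RelMap r fun i => f fun j => p (i, j)}

/-- The graph of the map onto `A` from its copy interpreted, via `B`, in `A`. -/
def graph {L L' : FirstOrder.Language.{0, 0}} {A B : Type} [L.Structure A] [L'.Structure B]
    (I : Interp L L' A B) (J : Interp L' L B A) : Set (Option (Fin J.n × Fin I.n) → A) :=
  {p | (∀ i, (fun j => p (some (i, j))) ∈ I.X) ∧ (fun i => I.f fun j => p (some (i, j))) ∈ J.X ∧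
    J.f (fun i => I.f fun j => p (some (i, j))) = p none}

/-- Bi-interpretability with parameters. -/
def BiInt (L L' : FirstOrder.Language.{0, 0}) (A B : Type) [L.Structure A] [L'.Structure B] : Prop :=
  ∃ (I : Interp L L' A B) (J : Interp L' L B A),
    (Set.univ : Set A).Definable L (graph I J) ∧ (Set.univ : Set B).Definable L' (graph J I)

/-- The normal subgroup of the free group on the vertices generated by the second derived
subgroup and the commutators of adjacent vertices. -/
def rels {V : Type} (Γ : SimpleGraph V) : Subgroup (FreeGroup V) :=
  Subgroup.normalClosure ((derivedSeries (FreeGroup V) 2 : Set (FreeGroup V)) ∪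
    {g | ∃ u v, Γ.Adj u v ∧ g = ⁅FreeGroup.of u, FreeGroup.of v⁆})

instance {V : Type} (Γ : SimpleGraph V) : (rels Γ).Normal := Subgroup.normalClosure_normal

/-- The partially commutative metabelian group of a graph. -/
abbrev MG {V : Type} (Γ : SimpleGraph V) : Type := FreeGroup V ⧸ rels Γ

end Pool.Agent.H63.BI
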