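import Pool.Agent.H79.Mg1

set_option autoImplicit false

namespace Pool.Agent.H63.Bo

open MonoidAlgebra
open scoped commutatorElement

theorem cone {V : Type} [AddCommGroup V] [Module ℚ V] (S : Submodule ℚ V) :
    ∃ P : V → Prop, (∀ a b, P a → P b → P (a + b)) ∧ (∀ a c, P a → c ∈ S → P (a + c)) ∧
      (∀ a, a ∉ S → P a ∨ P (-a)) ∧ ¬ P 0 := by
  classical
  let b := Module.Basis.ofVectorSpace ℚ (V ⧸ S)
  obtain ⟨inst, -⟩ := exists_wellFoundedLT (Module.Basis.ofVectorSpaceIndex ℚ (V ⧸ S))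
  refine ⟨fun v => 0 < toLex (b.repr (S.mkQ v)), ?_, ?_, ?_, ?_⟩
  · intro x y hx hy
    simp only [map_add, toLex_add]
    exact add_pos hx hy
  · intro x c hx hc
    have : S.mkQ c = 0 := by simpa using hc
    simpa only [map_add, this, add_zero] using hx
  · intro x hx
    have h0 : toLex (b.repr (S.mkQ x)) ≠ 0 := by
      intro h
      apply hx
      have h1 : b.repr (S.mkQ x) = 0 := h
      simpa using h1
    rcases lt_or_gt_of_ne h0 with h | h
    · right
      have h2 : toLex (b.repr (S.mkQ x)) + toLex (b.repr (S.mkQ (-x))) = 0 := by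
        rw [← toLex_add, ← map_add, ← map_add]; simp
      by_contra h3
      have h4 := add_lt_add_of_lt_of_le h (not_lt.1 h3)
      rw [h2] at h4
      simp at h4
    · exact Or.inl h
  · simp

variable {G : Type} [Group G]

/-- powers of the augmentation ideal -/
noncomputable def J (G : Type) [Group G] : ℕ → Submodule ℚ (MonoidAlgebra ℚ G)
  | 0 => ⊤
  | k + 1 => Submodule.span ℚ {x | ∃ g b, b ∈ J G k ∧ x = (of ℚ G g - 1) * b}

theorem J_gen {k : ℕ} (g : G) {b : MonoidAlgebra ℚ G} (hb : b ∈ J G k) :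
    (of ℚ G g - 1) * b ∈ J G (k + 1) :=
  Submodule.subset_span ⟨g, b, hb, rfl⟩

theorem J_ind {k : ℕ} {S : Submodule ℚ (MonoidAlgebra ℚ G)}
    (h : ∀ g b, b ∈ J G k → (of ℚ G g - 1) * b ∈ S) : J G (k + 1) ≤ S :=
  Submodule.span_le.2 (by rintro _ ⟨g, b, hb, rfl⟩; exact h g b hb)

theorem J_left (k : ℕ) (a : MonoidAlgebra ℚ G) {b : MonoidAlgebra ℚ G} (hb : b ∈ J G k) :
    a * b ∈ J G k := by
  cases k with
  | zero => trivial
  | succ k =>
    induction a using MonoidAlgebra.induction_on with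
    | of h =>
      refine J_ind (S := (J G (k + 1)).comap (LinearMap.mulLeft ℚ (of ℚ G h))) ?_ hb
      intro g c hc
      have : of ℚ G h * ((of ℚ G g - 1) * c) = (of ℚ G (h * g) - 1) * c - (of ℚ G h - 1) * c := by
        rw [map_mul]; noncomm_ring
      simp only [Submodule.mem_comap, LinearMap.mulLeft_apply, this]
      exact Submodule.sub_mem _ (J_gen _ hc) (J_gen _ hc)
    | add x y hx hy => rw [add_mul]; exact Submodule.add_mem _ hx hy
    | smul r x hx => rw [smul_mul_assoc]; exact Submodule.smul_mem _ _ hx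

theorem J_mul (l : ℕ) {b : MonoidAlgebra ℚ G} (hb : b ∈ J G l) (k : ℕ) :
    ∀ a ∈ J G k, a * b ∈ J G (l + k) := by
  induction k with
  | zero => intro a _; exact J_left l a hb
  | succ k ih =>
    intro a ha
    refine J_ind (S := (J G (l + k + 1)).comap (LinearMap.mulRight ℚ b)) ?_ ha
    intro g c hc
    simp only [Submodule.mem_comap, LinearMap.mulRight_apply, mul_assoc]
    exact J_gen _ (ih c hc)

theorem J_right (k : ℕ) {a : MonoidAlgebra ℚ G} (ha : a ∈ J G k) (b : MonoidAlgebra ℚ G) :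
    a * b ∈ J G k := by
  have := J_mul 0 (b := b) trivial k a ha
  rwa [zero_add] at this

theorem J_anti {k l : ℕ} (h : k ≤ l) : J G l ≤ J G k := by
  induction h with
  | refl => exact le_rfl
  | step _ ih => exact (J_ind fun g b hb => J_left _ _ hb).trans ih

theorem J_one (g : G) : of ℚ G g - 1 ∈ J G 1 := by
  simpa using J_gen (k := 0) g (b := 1) trivial

theorem J_comm {c : G} (hc : c ∈ commutator G) : of ℚ G c - 1 ∈ J G 2 := by
  let D : Subgroup G :=
    { carrier := {c | of ℚ G c - 1 ∈ J G 2}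
      one_mem' := by simp [← one_def]
      mul_mem' := by
        intro a b ha hb
        have : of ℚ G (a * b) - 1 = of ℚ G a * (of ℚ G b - 1) + (of ℚ G a - 1) := by
          rw [map_mul]; noncomm_ring
        simp only [Set.mem_ofPred_eq, this]
        exact Submodule.add_mem _ (J_left _ _ hb) ha
      inv_mem' := by
        intro a ha
        have : of ℚ G a⁻¹ - 1 = -(of ℚ G a⁻¹ * (of ℚ G a - 1)) := by
          rw [mul_sub, ← map_mul, inv_mul_cancel, map_one]; noncomm_ring
        simp only [Set.mem_ofPred_eq, this]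
        exact Submodule.neg_mem _ (J_left _ _ ha) }
  have : commutator G ≤ D := by
    rw [commutator_def, Subgroup.commutator_le]
    intro a _ b _
    have e : of ℚ G ⁅a, b⁆ - 1 = ((of ℚ G a - 1) * (of ℚ G b - 1) -
        (of ℚ G b - 1) * (of ℚ G a - 1)) * of ℚ G (a⁻¹ * b⁻¹) := by
      have e1 : of ℚ G ⁅a, b⁆ = of ℚ G a * of ℚ G b * of ℚ G (a⁻¹ * b⁻¹) := by
        rw [← map_mul, ← map_mul, commutatorElement_def]; congr 1; group
      have e2 : (1 : MonoidAlgebra ℚ G) = of ℚ G b * of ℚ G a * of ℚ G (a⁻¹ * b⁻¹) := by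
        rw [← map_mul, ← map_mul, ← map_one (of ℚ G)]; congr 1; group
      rw [e1]
      nth_rewrite 1 [e2]
      noncomm_ring
    change of ℚ G ⁅a, b⁆ - 1 ∈ J G 2
    rw [e]
    exact J_right _ (Submodule.sub_mem _ (J_gen _ (J_one _)) (J_gen _ (J_one _))) _
  exact this hc

theorem J_ia (φ : G →* G) (h : ∀ g, Abelianization.of (φ g) = Abelianization.of g) (k : ℕ) :
    ∀ a ∈ J G k, mapDomainAlgHom ℚ ℚ φ a - a ∈ J G (k + 1) := by
  have hof : ∀ g, mapDomainAlgHom ℚ ℚ φ (of ℚ G g) = of ℚ G (φ g) := by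
    intro g; simp
  have h2 : ∀ g, of ℚ G (φ g) - of ℚ G g ∈ J G 2 := by
    intro g
    have hc : φ g * g⁻¹ ∈ commutator G := by
      rw [← Abelianization.ker_of, MonoidHom.mem_ker, map_mul, map_inv, h, mul_inv_cancel]
    have e : of ℚ G (φ g) - of ℚ G g = (of ℚ G (φ g * g⁻¹) - 1) * of ℚ G g := by
      rw [sub_mul, ← map_mul]; simp
    rw [e]
    exact J_right _ (J_comm hc) _
  induction k with
  | zero =>
    intro a _
    induction a using MonoidAlgebra.induction_on with
    | of g => rw [hof]; exact J_anti (by omega) (h2 g)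
    | add x y hx hy =>
      rw [map_add, add_sub_add_comm]; exact Submodule.add_mem _ (hx trivial) (hy trivial)
    | smul r x hx => rw [map_smul, ← smul_sub]; exact Submodule.smul_mem _ _ (hx trivial)
  | succ k ih =>
    intro a ha
    refine J_ind (S := (J G (k + 2)).comap ((mapDomainAlgHom ℚ ℚ φ).toLinearMap - LinearMap.id))
      ?_ ha
    intro g c hc
    have e : mapDomainAlgHom ℚ ℚ φ ((of ℚ G g - 1) * c) - (of ℚ G g - 1) * c =
        (of ℚ G (φ g) - 1) * (mapDomainAlgHom ℚ ℚ φ c - c) + (of ℚ G (φ g) - of ℚ G g) * c := by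
      rw [map_mul, map_sub, hof, map_one]; noncomm_ring
    simp only [Submodule.mem_comap, LinearMap.sub_apply, AlgHom.toLinearMap_apply,
      LinearMap.id_apply, e]
    exact Submodule.add_mem _ (J_gen _ (ih c hc)) (J_mul k hc 2 _ (h2 g))

theorem exists_cone (sep : ∀ g : G, g ≠ 1 → ∃ k, of ℚ G g - 1 ∉ J G k) :
    ∃ pos : G → Prop, ¬ pos 1 ∧ (∀ a b, pos a → pos b → pos (a * b)) ∧
      (∀ a, a ≠ 1 → pos a ∨ pos a⁻¹) ∧
      ∀ φ : G →* G, (∀ g, Abelianization.of (φ g) = Abelianization.of g) →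
        ∀ a, pos a → pos (φ a) := by
  classical
  choose P p1 p2 p3 p4 using fun k => cone (J G (k + 1))
  refine ⟨fun g => ∃ k, of ℚ G g - 1 ∈ J G k ∧ P k (of ℚ G g - 1), ?_, ?_, ?_, ?_⟩
  · rintro ⟨k, -, hk⟩
    rw [map_one, sub_self] at hk
    exact p4 k hk
  · rintro a b ⟨k, ha, ha'⟩ ⟨l, hb, hb'⟩
    have e : of ℚ G (a * b) - 1 =
        (of ℚ G a - 1) + (of ℚ G b - 1) + (of ℚ G a - 1) * (of ℚ G b - 1) := by
      rw [map_mul]; noncomm_ring
    have hp := J_gen a hb
    rcases lt_trichotomy k l with h | rfl | h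
    · refine ⟨k, ?_, ?_⟩
      · rw [e]
        exact Submodule.add_mem _ (Submodule.add_mem _ ha (J_anti h.le hb)) (J_anti (by omega) hp)
      · rw [e]
        exact p2 _ _ _ (p2 _ _ _ ha' (J_anti h hb)) (J_anti (by omega) hp)
    · refine ⟨k, ?_, ?_⟩
      · rw [e]
        exact Submodule.add_mem _ (Submodule.add_mem _ ha hb) (J_anti (by omega) hp)
      · rw [e]
        exact p2 _ _ _ (p1 _ _ _ ha' hb') hp
    · refine ⟨l, ?_, ?_⟩
      · rw [e]
        exact Submodule.add_mem _ (Submodule.add_mem _ (J_anti h.le ha) hb) (J_anti (by omega) hp)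
      · rw [e, add_comm (of ℚ G a - 1)]
        exact p2 _ _ _ (p2 _ _ _ hb' (J_anti h ha)) hp
  · intro a ha
    have hex := sep a ha
    have h0 : Nat.find hex ≠ 0 := by
      intro h
      have := Nat.find_spec hex
      rw [h] at this
      exact this trivial
    obtain ⟨k, hk⟩ := Nat.exists_eq_succ_of_ne_zero h0
    have h1 : of ℚ G a - 1 ∉ J G (k + 1) := by
      have := Nat.find_spec hex
      rwa [hk] at this
    have h2 : of ℚ G a - 1 ∈ J G k := by
      by_contra h
      have := Nat.find_min' hex h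
      omega
    rcases p3 k _ h1 with h | h
    · exact Or.inl ⟨k, h2, h⟩
    · right
      have e : of ℚ G a⁻¹ - 1 = -(of ℚ G a - 1) + -((of ℚ G a⁻¹ - 1) * (of ℚ G a - 1)) := by
        rw [sub_mul, mul_sub, ← map_mul, inv_mul_cancel, map_one]; noncomm_ring
      have hp := Submodule.neg_mem _ (J_gen a⁻¹ h2)
      refine ⟨k, ?_, ?_⟩
      · rw [e]
        exact Submodule.add_mem _ (Submodule.neg_mem _ h2) (J_anti (by omega) hp)
      · rw [e]
        exact p2 _ _ _ h hp
  · rintro φ h a ⟨k, ha, ha'⟩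
    have h1 := J_ia φ h k _ ha
    have e : of ℚ G (φ a) - 1 =
        (of ℚ G a - 1) + (mapDomainAlgHom ℚ ℚ φ (of ℚ G a - 1) - (of ℚ G a - 1)) := by
      rw [map_sub, map_one]; simp
    refine ⟨k, ?_, ?_⟩
    · rw [e]
      exact Submodule.add_mem _ ha (J_anti (by omega) h1)
    · rw [e]
      exact p2 _ _ _ ha' h1

open Pool.Agent.H79.Mg PowerSeries in
theorem sep_free {Y : Type} (g : FreeGroup Y) (hg : g ≠ 1) :
    ∃ k, of ℚ (FreeGroup Y) g - 1 ∉ J (FreeGroup Y) k := by
  classical
  by_contra hc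
  push Not at hc
  have c1 : ∀ h : FreeGroup Y, constantCoeff (mu0 ℚ (of ℚ (FreeGroup Y) h)) = 1 := by
    intro h
    have : (Units.map (constantCoeff : B ℚ (FreeMonoid Y) →+* _).toMonoidHom).comp
        (mag ℚ (fun _ => 1) FreeMonoid.of) = (1 : FreeGroup Y →* _) := by
      ext i : 1
      apply Units.ext
      simp [mag, uy]
    have h2 := congrArg Units.val (DFunLike.congr_fun this h)
    simpa [mu_single] using h2
  have key : ∀ k, ∀ a ∈ J (FreeGroup Y) k, ∀ n < k, PowerSeries.coeff n (mu0 ℚ a) = 0 := by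
    intro k
    induction k with
    | zero => intro a _ n hn; omega
    | succ k ih =>
      intro a ha n hn
      have := J_ind (k := k) (S := LinearMap.ker (((PowerSeries.coeff n).restrictScalars ℚ) ∘ₗ
        (mu0 (Y := Y) ℚ).toLinearMap)) ?_ ha
      · simpa using this
      · intro h b hb
        simp only [LinearMap.mem_ker, LinearMap.comp_apply, AlgHom.toLinearMap_apply,
          LinearMap.restrictScalars_apply, map_mul, PowerSeries.coeff_mul]
        refine Finset.sum_eq_zero fun p hp => ?_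
        have hp' := Finset.HasAntidiagonal.mem_antidiagonal.1 hp
        by_cases h0 : p.1 = 0
        · rw [h0, coeff_zero_eq_constantCoeff, map_sub, map_sub, c1, map_one, map_one, sub_self,
            zero_mul]
        · rw [ih b hb p.2 (by omega), mul_zero]
  have h0 : mu0 ℚ (of ℚ (FreeGroup Y) g - 1) = 0 := by
    ext1 n
    rw [key (n + 1) _ (hc _) n (by omega), map_zero]
  have h1 := mu0_inj ℚ _ h0
  rw [sub_eq_zero, ← map_one (of ℚ (FreeGroup Y))] at h1
  exact hg (of_injective h1)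

theorem exists_order (Y : Type) :
    ∃ lt : FreeGroup Y → FreeGroup Y → Prop, IsStrictTotalOrder _ lt ∧
      (∀ a b c, lt a b → lt (c * a) (c * b) ∧ lt (a * c) (b * c)) ∧
      ∀ φ : FreeGroup Y →* FreeGroup Y, (∀ g, Abelianization.of (φ g) = Abelianization.of g) →
        ∀ a b, lt (φ a) (φ b) ↔ lt a b := by
  obtain ⟨pos, h1, h2, h3, h4⟩ := exists_cone (sep_free (Y := Y))
  refine ⟨fun a b => pos (a⁻¹ * b), ?_, ?_, ?_⟩
  · refine { trichotomous := ?_, irrefl := ?_, trans := ?_ }
    · intro a b hab hba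
      by_contra hne
      have : a⁻¹ * b ≠ 1 := fun h => hne (inv_mul_eq_one.1 h)
      rcases h3 _ this with h | h
      · exact hab h
      · exact hba (by simpa using h)
    · intro a; simpa using h1
    · intro a b c hab hbc
      simpa [mul_assoc] using h2 _ _ hab hbc
  · intro a b c hab
    refine ⟨by simpa [mul_assoc] using hab, ?_⟩
    have := h4 (MulAut.conj c⁻¹).toMonoidHom (by intro g; simp [mul_comm]) _ hab
    simpa [mul_assoc] using this
  · intro φ hφ a b
    beta_reduce
    rw [← map_inv, ← map_mul]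
    refine ⟨fun h => ?_, h4 φ hφ _⟩
    by_contra hn
    by_cases h0 : a⁻¹ * b = 1
    · rw [h0, map_one] at h; exact h1 h
    · rcases h3 _ h0 with h5 | h5
      · exact hn h5
      · have := h2 _ _ h (h4 φ hφ _ h5)
        rw [← map_mul, mul_inv_cancel, map_one] at this
        exact h1 this

end Pool.Agent.H63.Bo
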