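import Pool.Agent.H18.Boxes

set_option autoImplicit false

namespace Pool.Agent.H63.BoxSharp

open Pool.Agent.H18.Boxes Filter

/-- Santalo's Helly number `2^(d-1) (2d-1)` for line transversals to axis-parallel boxes is sharp
in every dimension `d ≥ 2`. -/
theorem sharp (d : ℕ) (hd : 2 ≤ d) :
    ∃ F : Finset (Set (Fin d → ℝ)),
      (∀ B ∈ F, ∃ a b : Fin d → ℝ, (∀ i, a i < b i) ∧
        B = {x | ∀ i, a i ≤ x i ∧ x i ≤ b i}) ∧
      (∀ S ⊆ F, S.card ≤ 2 ^ (d - 1) * (2 * d - 1) - 1 →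
        ∃ p v : Fin d → ℝ, v ≠ 0 ∧ ∀ B ∈ S, ∃ t : ℝ, p + t • v ∈ B) ∧
      ¬ ∃ p v : Fin d → ℝ, v ≠ 0 ∧ ∀ B ∈ F, ∃ t : ℝ, p + t • v ∈ B := by
  classical
  obtain ⟨n, rfl⟩ : ∃ n, d = n + 2 := ⟨d - 2, by omega⟩
  obtain ⟨α, β, h1, h2⟩ := wedges n
  choose p v hv hl using h1
  choose t ht using hl
  have e : ∀ᶠ R : ℝ in atTop, (∀ m, |α m| < R) ∧ (∀ m, |β m| < R) ∧
      ∀ m m' (h : m ≠ m') k, |(p m + t m m' h • v m) k| < R := by
    refine Eventually.and ?_ (Eventually.and ?_ ?_)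
    · rw [eventually_all]; intro m; exact eventually_gt_atTop _
    · rw [eventually_all]; intro m; exact eventually_gt_atTop _
    · rw [eventually_all]; intro m; rw [eventually_all]; intro m'
      rw [eventually_all]; intro h; rw [eventually_all]; intro k; exact eventually_gt_atTop _
  obtain ⟨R, r1, r2, r3⟩ := e.exists
  let box : I n → Set (Fin (n + 2) → ℝ) := fun m =>
    Set.Icc (lo (edge m.2) (edge m.2 + 1) (ext m.1 (edge m.2)) (ext m.1 (edge m.2 + 1)) (α m) (β m) R)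
      (hi (edge m.2) (edge m.2 + 1) (ext m.1 (edge m.2)) (ext m.1 (edge m.2 + 1)) (α m) (β m) R)
  have hit : ∀ m m', m ≠ m' → ∃ s : ℝ, p m + s • v m ∈ box m' := fun m m' h =>
    ⟨t m m' h, to_mem (r3 m m' h) (ht m m' h)⟩
  have no : ¬ ∃ p v : Fin (n + 2) → ℝ, ∀ m, ∃ t : ℝ, p + t • v ∈ box m := by
    rintro ⟨p, v, h⟩
    refine h2 p v (fun m => ?_)
    obtain ⟨s, hs⟩ := h m
    exact ⟨s, of_mem (ne_succ _) hs⟩
  have inj : Function.Injective box := by
    intro a b hab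
    by_contra hne
    refine no ⟨p a, v a, fun m => ?_⟩
    by_cases h : a = m
    · rw [← h, hab]; exact hit a b hne
    · exact hit a m h
  refine ⟨Finset.univ.image box, ?_, ?_, ?_⟩
  · intro B hB
    obtain ⟨m, -, rfl⟩ := Finset.mem_image.mp hB
    refine ⟨_, _, lo_lt_hi (edge m.2) (edge m.2 + 1) (ext m.1 (edge m.2)) (ext m.1 (edge m.2 + 1))
      (r1 m) (r2 m), ?_⟩
    ext x
    simp only [box, Set.mem_Icc, Pi.le_def, Set.mem_setOf_eq, forall_and]
  · intro S hS hc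
    have hcard : (Finset.univ.image box).card = 2 ^ (n + 1) * (2 * n + 3) := by
      rw [Finset.card_image_of_injective _ inj]
      simp only [Finset.card_univ, Fintype.card_prod, Fintype.card_fun, Fintype.card_bool,
        Fintype.card_fin, Fintype.card_option]
      ring
    have hlt : S.card < (Finset.univ.image box).card := by
      rw [hcard]
      have e1 : n + 2 - 1 = n + 1 := by omega
      have e2 : 2 * (n + 2) - 1 = 2 * n + 3 := by omega
      rw [e1, e2] at hc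
      have : 0 < 2 ^ (n + 1) * (2 * n + 3) := by positivity
      omega
    obtain ⟨B, hB, hB'⟩ := Finset.exists_mem_notMem_of_card_lt_card hlt
    obtain ⟨m, -, rfl⟩ := Finset.mem_image.mp hB
    refine ⟨p m, v m, hv m, fun C hC => ?_⟩
    obtain ⟨m', -, rfl⟩ := Finset.mem_image.mp (hS hC)
    exact hit m m' (fun e => hB' (e ▸ hC))
  · rintro ⟨p, v, -, h⟩
    exact no ⟨p, v, fun m => h _ (Finset.mem_image_of_mem _ (Finset.mem_univ m))⟩

end Pool.Agent.H63.BoxSharp
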