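import Pool.Agent.H63.Sidon2

set_option autoImplicit false

namespace Pool.Agent.H63.C33

open Pool.Agent.H63.Sidon2

/-- no `K_{3,3}` pattern, element form -/
def Free (A : Finset ℤ) : Prop := ∀ x k : Fin 3 → ℤ, Function.Injective x → Function.Injective k →
  ¬ ∀ i j, x i + k j ∈ A

section algebra
variable {F : Type} [Field F]

lemma indep (X : Fin 3 → Fin 4 → F) (h2 : (2 : F) ≠ 0)
    (hQ : ∀ i, X i 0 * X i 2 = X i 1 * X i 3)
    (hB : ∀ i j, i ≠ j → X i 0 * X j 2 + X i 2 * X j 0 - (X i 1 * X j 3 + X i 3 * X j 1) ≠ 0) :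
    LinearIndependent F X := by
  rw [Fintype.linearIndependent_iff]
  intro g hg
  have e : ∀ t, g 0 * X 0 t + g 1 * X 1 t + g 2 * X 2 t = 0 := fun t => by
    have := congrFun hg t
    simpa [Fin.sum_univ_three] using this
  have ha := hB 0 1 (by decide)
  have hb := hB 0 2 (by decide)
  have hc := hB 1 2 (by decide)
  set a := X 0 0 * X 1 2 + X 0 2 * X 1 0 - (X 0 1 * X 1 3 + X 0 3 * X 1 1) with ha'
  set b := X 0 0 * X 2 2 + X 0 2 * X 2 0 - (X 0 1 * X 2 3 + X 0 3 * X 2 1) with hb'
  set c := X 1 0 * X 2 2 + X 1 2 * X 2 0 - (X 1 1 * X 2 3 + X 1 3 * X 2 1) with hc'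
  have E0 : g 1 * a + g 2 * b = 0 := by
    rw [ha', hb']
    linear_combination X 0 0 * e 2 + X 0 2 * e 0 - X 0 1 * e 3 - X 0 3 * e 1 - 2 * g 0 * hQ 0
  have E1 : g 0 * a + g 2 * c = 0 := by
    rw [ha', hc']
    linear_combination X 1 0 * e 2 + X 1 2 * e 0 - X 1 1 * e 3 - X 1 3 * e 1 - 2 * g 1 * hQ 1
  have E2 : g 0 * b + g 1 * c = 0 := by
    rw [hb', hc']
    linear_combination X 2 0 * e 2 + X 2 2 * e 0 - X 2 1 * e 3 - X 2 3 * e 1 - 2 * g 2 * hQ 2
  have g0 : g 0 = 0 := by
    apply mul_left_cancel₀ (mul_ne_zero h2 (mul_ne_zero ha hb))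
    linear_combination b * E1 + a * E2 - c * E0
  have g1 : g 1 = 0 := by
    apply mul_left_cancel₀ ha.symm.symm
    apply mul_left_cancel₀ hc
    apply mul_left_cancel₀ h2
    linear_combination a * E2 + c * E0 - b * E1
  have g2 : g 2 = 0 := by
    apply mul_left_cancel₀ hb
    rw [g1] at E0
    linear_combination E0
  intro i
  fin_cases i
  · exact g0
  · exact g1
  · exact g2

lemma no_grid (X K : Fin 3 → Fin 4 → F) (hX : LinearIndependent F X) (hK : LinearIndependent F K)
    (h : ∀ i j, X i 0 * K j 0 + X i 1 * K j 1 + X i 2 * K j 2 + X i 3 * K j 3 = 1) : False := by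
  let W : Fin 2 → Fin 4 → F := ![K 0 - K 1, K 0 - K 2]
  have hW : LinearIndependent F W := by
    rw [LinearIndependent.pair_iff]
    intro s t hst
    rw [Fintype.linearIndependent_iff] at hK
    have := hK ![s + t, -s, -t] (by
      rw [← hst, Fin.sum_univ_three]
      simp only [Matrix.cons_val_zero, Matrix.cons_val_one, Matrix.cons_val]
      module)
    have h1 := this 1
    have h2 := this 2
    simp at h1 h2
    exact ⟨h1, h2⟩
  have hm : Matrix.of X * (Matrix.of W).transpose = 0 := by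
    ext i j
    fin_cases j
    · simp [Matrix.mul_apply, Fin.sum_univ_four, W]
      linear_combination h i 0 - h i 1
    · simp [Matrix.mul_apply, Fin.sum_univ_four, W]
      linear_combination h i 0 - h i 2
  have h1 := Matrix.rank_add_rank_le_card_of_mul_eq_zero hm
  rw [Matrix.rank_transpose, LinearIndependent.rank_matrix (M := Matrix.of X) hX,
    LinearIndependent.rank_matrix (M := Matrix.of W) hW] at h1
  simp at h1

def tr (σ : F →+* F) (z : F) : F := z + σ z + σ (σ z) + σ (σ (σ z))

def vec (σ : F →+* F) (z : F) : Fin 4 → F := ![z, σ z, σ (σ z), σ (σ (σ z))]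

lemma indep' (σ : F →+* F) (h4 : ∀ z, σ (σ (σ (σ z))) = z) (h2 : (2 : F) ≠ 0) (x : Fin 3 → F)
    (k : F) (hx : Function.Injective x) (h0 : ∀ i, x i ≠ 0)
    (hP : ∀ i, x i * σ (σ (x i)) = σ (x i) * σ (σ (σ (x i)))) (ht : ∀ i, tr σ (x i * k) = 1) :
    LinearIndependent F (fun i => vec σ (x i)) := by
  apply indep _ h2
  · intro i; simpa [vec] using hP i
  · intro i j hij hB
    simp only [vec, Matrix.cons_val_zero, Matrix.cons_val_one, Matrix.cons_val] at hB
    apply hij
    apply hx
    set z := x i / x j with hz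
    have hxi : x i = z * x j := by rw [hz]; field_simp [h0 j]
    have n0 := h0 j
    have n1 : σ (x j) ≠ 0 := (map_ne_zero σ).2 n0
    have n2 : σ (σ (x j)) ≠ 0 := (map_ne_zero σ).2 n1
    have Pi := hP i
    have Pj := hP j
    rw [hxi] at hB Pi
    simp only [map_mul] at hB Pi
    have s1 : z + σ (σ z) = σ z + σ (σ (σ z)) := by
      apply mul_left_cancel₀ (mul_ne_zero n0 n2)
      linear_combination hB - (σ z + σ (σ (σ z))) * Pj
    have s2 : z * σ (σ z) = σ z * σ (σ (σ z)) := by
      apply mul_left_cancel₀ (mul_ne_zero n0 n2)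
      linear_combination Pi - (σ z * σ (σ (σ z))) * Pj
    have fz : σ z = z := by
      rcases pair_eq s1 s2 with h | h
      · exact h.1.symm
      · have := congrArg σ h.1
        rwa [h4] at this
    have t1 := ht i
    have t2 := ht j
    rw [hxi, mul_assoc] at t1
    unfold tr at t1 t2
    simp only [map_mul, fz] at t1 t2
    have : z = 1 := by linear_combination t1 - z * t2
    rw [hxi, this, one_mul]

lemma card_fix_le [Fintype F] [DecidableEq F] {m : ℕ} (hm : 1 < m) :
    (Finset.univ.filter (fun x : F => x ^ m = x)).card ≤ m := by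
  have h := Polynomial.card_le_degree_of_subset_roots
    (p := (Polynomial.X ^ m - Polynomial.X : Polynomial F))
    (Z := Finset.univ.filter (fun x : F => x ^ m = x)) (by
      intro x hx
      rw [Polynomial.mem_roots (FiniteField.X_pow_card_sub_X_ne_zero F hm)]
      simp only [Finset.mem_val, Finset.mem_filter, Finset.mem_univ, true_and] at hx
      simp [hx])
  rwa [FiniteField.X_pow_card_sub_X_natDegree_eq F hm] at h

theorem lower_core [Fintype F] {r : ℕ} (hr : 0 < r) (hcard : Fintype.card F = (r + 1) ^ 4)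
    (σ : F →+* F) (hσ : ∀ z, σ z = z ^ (r + 1)) (h2 : (2 : F) ≠ 0) :
    ∃ A : Finset ℤ, A ⊆ Finset.Icc 1 (((r + 1) ^ 3 : ℕ) : ℤ) ∧ Free A ∧
      (r + 1) ^ 2 ≤ A.card + 2 * (r + 1) := by
  classical
  set N := ((r + 1) ^ 2 + 1) * r with hN
  have hn : Fintype.card F = N * (r + 2) + 1 := by rw [hcard, hN]; ring
  obtain ⟨G⟩ := exists_gen hn
  have h4 : ∀ z, σ (σ (σ (σ z))) = z := fun z => by
    rw [hσ, hσ, hσ, hσ, ← pow_mul, ← pow_mul, ← pow_mul]
    have := FiniteField.pow_card z
    rw [hcard] at this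
    rw [← this]; conv_lhs => rw [this]
    congr 1; ring
  set h := G.g ^ (r + 2) with hh
  have h0 : h ≠ 0 := pow_ne_zero _ G.g_ne
  have hinj : ∀ a b : ℤ, 1 ≤ a → a ≤ N → 1 ≤ b → b ≤ N → h ^ (a - 1) = h ^ (b - 1) → a = b := by
    intro a b a1 a2 b1 b2 hab
    obtain ⟨a', ha'⟩ := Int.eq_ofNat_of_zero_le (by omega : 0 ≤ a - 1)
    obtain ⟨b', hb'⟩ := Int.eq_ofNat_of_zero_le (by omega : 0 ≤ b - 1)
    rw [ha', hb', zpow_natCast, zpow_natCast, hh, ← pow_mul, ← pow_mul, G.pow_eq,
      mul_comm N (r + 2)] at hab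
    have := Nat.ModEq.eq_of_lt_of_lt (Nat.ModEq.mul_left_cancel' (by omega) hab) (by omega) (by omega)
    omega
  have hPN : ∀ z : F, z ^ (N + 1) = z → z * σ (σ z) = σ z * σ (σ (σ z)) := by
    intro z hz
    by_cases hz0 : z = 0
    · simp [hz0]
    have h1 : z ^ N = 1 := by
      apply mul_right_cancel₀ hz0; rw [← pow_succ, hz, one_mul]
    rw [← map_mul, hσ (z * σ (σ z)), pow_succ, hσ, hσ, ← pow_mul, ← pow_succ', ← pow_mul,
      show ((r + 1) * (r + 1) + 1) * r = N by rw [hN]; ring, h1, one_mul]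
  have hP : ∀ a : ℤ, h ^ a * σ (σ (h ^ a)) = σ (h ^ a) * σ (σ (σ (h ^ a))) := by
    intro a
    have := hPN h (by rw [pow_succ, hh, ← pow_mul, mul_comm (r + 2) N, G.pow_n, one_mul])
    simp only [map_zpow₀]
    rw [← mul_zpow, ← mul_zpow, this]
  set A := (Finset.Icc (1 : ℤ) N).filter (fun y => tr σ (h ^ (y - 1)) = 1) with hA
  refine ⟨A, ?_, ?_, ?_⟩
  · refine (Finset.filter_subset _ _).trans (Finset.Icc_subset_Icc_right ?_)
    have : N ≤ (r + 1) ^ 3 := by rw [hN]; nlinarith
    exact_mod_cast this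
  · intro x k hx hk hall
    have m : ∀ i j, (1 ≤ x i + k j ∧ x i + k j ≤ N) ∧ tr σ (h ^ (x i - 1) * h ^ k j) = 1 := by
      intro i j
      have := hall i j
      rw [hA, Finset.mem_filter, Finset.mem_Icc] at this
      rw [← zpow_add₀ h0, show x i - 1 + k j = x i + k j - 1 by ring]
      exact this
    have e : ∀ i j, h ^ (x i + k j - 1) = h ^ (x i - 1) * h ^ k j := fun i j => by
      rw [← zpow_add₀ h0]; congr 1; ring
    have i1 := indep' σ h4 h2 (fun i => h ^ (x i - 1)) (h ^ k 0) (by
      intro i j hij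
      simp only at hij
      apply hx
      have := hinj _ _ (m i 0).1.1 (m i 0).1.2 (m j 0).1.1 (m j 0).1.2 (by rw [e, e, hij])
      omega) (fun i => zpow_ne_zero _ h0) (fun i => hP _) (fun i => (m i 0).2)
    have i2 := indep' σ h4 h2 (fun i => h ^ (k i)) (h ^ (x 0 - 1)) (by
      intro i j hij
      simp only at hij
      apply hk
      have := hinj _ _ (m 0 i).1.1 (m 0 i).1.2 (m 0 j).1.1 (m 0 j).1.2 (by rw [e, e, hij])
      omega) (fun i => zpow_ne_zero _ h0) (fun i => hP _) (fun i => by rw [mul_comm]; exact (m 0 i).2)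
    refine no_grid _ _ i1 i2 (fun i j => ?_)
    have := (m i j).2
    unfold tr at this
    simp only [map_mul] at this
    simpa [vec] using this
  · set H := Finset.univ.filter (fun x : F => x ^ (N + 1) = x) with hH
    set S := H.filter (fun z => tr σ z = 1) with hS
    set K1 := Finset.univ.filter (fun x : F => x ^ (r + 1) = x) with hK1
    set K2 := Finset.univ.filter (fun x : F => x ^ ((r + 1) ^ 2) = x) with hK2
    have c1 : N ≤ H.card := G.card_fix rfl
    have c2 : K1.card ≤ r + 1 := card_fix_le (by omega)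
    have c3 : K2.card ≤ (r + 1) ^ 2 := card_fix_le (by nlinarith)
    have c4 : S.card ≤ A.card := by
      refine le_trans (Finset.card_le_card ?_) (Finset.card_image_le (f := fun y : ℤ => h ^ (y - 1)))
      intro z hz
      simp only [hS, hH, Finset.mem_filter, Finset.mem_univ, true_and] at hz
      have z0 : z ≠ 0 := by
        rintro rfl
        have := hz.2
        simp [tr] at this
      obtain ⟨j, hj⟩ := G.dvd_lg rfl z0 hz.1
      have hjN : j < N := by
        have := G.lg_lt z
        rw [hj, mul_comm N] at this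
        exact Nat.lt_of_mul_lt_mul_left this
      have hz' : h ^ (((j : ℤ) + 1) - 1) = z := by
        rw [add_sub_cancel_right, zpow_natCast, hh, ← pow_mul, ← hj, G.pow_lg _ z0]
      refine Finset.mem_image.2 ⟨(j : ℤ) + 1, ?_, hz'⟩
      rw [hA, Finset.mem_filter, Finset.mem_Icc, hz']
      exact ⟨⟨by omega, by omega⟩, hz.2⟩
    have c5 : H ⊆ K2 ∪ (S ×ˢ K1).image (fun p => p.1 * p.2) := by
      intro z hz
      simp only [hH, Finset.mem_filter, Finset.mem_univ, true_and] at hz
      have P := hPN z hz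
      rw [Finset.mem_union]
      by_cases ht : tr σ z = 0
      · left
        simp only [hK2, Finset.mem_filter, Finset.mem_univ, true_and]
        rw [sq, pow_mul, ← hσ, ← hσ]
        unfold tr at ht
        have hb : z = -σ z := by
          rcases pair_eq (a := z) (b := σ (σ z)) (c := -σ z) (d := -σ (σ (σ z)))
            (by linear_combination ht) (by linear_combination P) with h' | h'
          · exact h'.1
          · have := congrArg σ h'.1
            rw [map_neg, h4] at this
            linear_combination this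
        have := congrArg σ hb
        rw [map_neg] at this
        linear_combination this - hb
      · right
        have ft : σ (tr σ z) = tr σ z := by
          unfold tr; simp only [map_add, h4]; ring
        have ft1 : tr σ z ^ r = 1 := by
          apply mul_right_cancel₀ ht; rw [← pow_succ, ← hσ, ft, one_mul]
        refine Finset.mem_image.2 ⟨(z / tr σ z, tr σ z), ?_, by field_simp⟩
        simp only [hS, hH, hK1, Finset.mem_product, Finset.mem_filter, Finset.mem_univ, true_and]
        refine ⟨⟨?_, ?_⟩, by rw [← hσ, ft]⟩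
        · rw [div_pow, hz, pow_succ, hN, mul_comm _ r, pow_mul, ft1, one_pow, one_mul]
        · conv_lhs => unfold tr
          simp only [map_div₀]
          change z / tr σ z + σ z / σ (tr σ z) + σ (σ z) / σ (σ (tr σ z)) +
            σ (σ (σ z)) / σ (σ (σ (tr σ z))) = 1
          rw [ft, ft, ft]
          field_simp
          rfl
    have c6 := Finset.card_le_card c5
    have c7 := Finset.card_union_le K2 ((S ×ˢ K1).image (fun p => p.1 * p.2))
    have c8 := Finset.card_image_le (s := S ×ˢ K1) (f := fun p => p.1 * p.2)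
    rw [Finset.card_product] at c8
    have c9 : S.card * K1.card ≤ A.card * (r + 1) := Nat.mul_le_mul c4 c2
    have c10 : N ≤ (r + 1) ^ 2 + A.card * (r + 1) := by omega
    rw [hN] at c10
    by_contra hcon
    push Not at hcon
    have := Nat.mul_le_mul_right (r + 1) (Nat.succ_le_of_lt hcon)
    nlinarith

end algebra

theorem lower {q : ℕ} (hq : q.Prime) (h3 : 3 ≤ q) :
    ∃ A : Finset ℤ, A ⊆ Finset.Icc 1 ((q ^ 3 : ℕ) : ℤ) ∧ Free A ∧ q ^ 2 ≤ A.card + 2 * q := by
  haveI := Fact.mk hq
  let F := GaloisField q 4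
  letI : Fintype F := Fintype.ofFinite F
  have hcard : Fintype.card F = q ^ 4 := by
    rw [← Nat.card_eq_fintype_card, GaloisField.card q 4 (by omega)]
  have h2 : (2 : F) ≠ 0 := by
    intro h
    have := (CharP.cast_eq_zero_iff F q 2).1 (by exact_mod_cast h)
    have := Nat.le_of_dvd (by norm_num) this
    omega
  have hσ : ∀ z : F, frobenius F q z = z ^ q := fun z => frobenius_def q z
  obtain ⟨r, hr⟩ : ∃ r, q = r + 1 := ⟨q - 1, by omega⟩
  have := lower_core (F := F) (r := r) (by omega) (by rw [hcard, hr]) (frobenius F q)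
    (fun z => by rw [hσ, ← hr]) h2
  rwa [← hr] at this

theorem upper {n T : ℕ} {A : Finset ℤ} (hA : A ⊆ Finset.Icc 1 (n : ℤ)) (hF : Free A) (hT : 0 < T) :
    ∃ d S : ℕ, T * A.card ≤ (n + T) * d ∧ d * A.card ≤ S + 2 * (n + T) + d ∧
      S ^ 3 ≤ (n + T) ^ 2 * d ^ 3 := by
  classical
  set Y := Finset.Icc (1 : ℤ) ((n + T : ℕ) : ℤ) with hY
  have cY : Y.card = n + T := by rw [hY, Int.card_Icc]; omega
  have dc : ∀ D : Finset ℤ, D ⊆ Finset.Ico 0 (T : ℤ) →
      ∑ y ∈ Y, (D.filter (fun k => y - k ∈ A)).card = D.card * A.card := by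
    intro D hD
    simp only [Finset.card_filter]
    rw [Finset.sum_comm, Finset.card_eq_sum_ones D, Finset.sum_mul]
    refine Finset.sum_congr rfl fun k hk => ?_
    rw [← Finset.card_filter, one_mul]
    have hk' := Finset.mem_Ico.1 (hD hk)
    symm
    apply Finset.card_bij (fun a _ => a + k)
    · intro a ha
      have := Finset.mem_Icc.1 (hA ha)
      simp only [hY, Finset.mem_filter, Finset.mem_Icc, add_sub_cancel_right]
      exact ⟨⟨by omega, by push_cast; omega⟩, ha⟩
    · intro a _ b _ hab; omega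
    · intro y hy
      exact ⟨y - k, (Finset.mem_filter.1 hy).2, by ring⟩
  have hne : Y.Nonempty := by rw [← Finset.card_pos, cY]; omega
  obtain ⟨x, hx, hmax⟩ := Finset.exists_max_image Y
    (fun y => ((Finset.Ico (0 : ℤ) T).filter (fun k => y - k ∈ A)).card) hne
  set D := (Finset.Ico (0 : ℤ) T).filter (fun k => x - k ∈ A) with hD
  set t : ℤ → ℕ := fun y => (D.filter (fun k => y - k ∈ A)).card with ht
  refine ⟨D.card, ∑ y ∈ Y.erase x, (t y - 2), ?_, ?_, ?_⟩
  · have h1 := dc _ subset_rfl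
    have h2 := Finset.sum_le_card_nsmul Y _ _ hmax
    rw [h1, cY, smul_eq_mul, Int.card_Ico] at h2
    simpa using h2
  · have h1 := dc D (Finset.filter_subset _ _)
    rw [← Finset.add_sum_erase _ _ hx] at h1
    have h2 : (D.filter (fun k => x - k ∈ A)).card ≤ D.card := Finset.card_filter_le _ _
    have h3 : ∑ y ∈ Y.erase x, t y ≤ ∑ y ∈ Y.erase x, ((t y - 2) + 2) :=
      Finset.sum_le_sum fun y _ => by omega
    rw [Finset.sum_add_distrib, Finset.sum_const, smul_eq_mul] at h3
    have h4 : (Y.erase x).card ≤ n + T := cY ▸ Finset.card_erase_le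
    simp only [ht] at h3 ⊢
    omega
  · have h1 := pow_sum_le_card_mul_sum_pow (s := Y.erase x) (f := fun y => t y - 2)
      (fun _ _ => Nat.zero_le _) 2
    have h4 : (Y.erase x).card ≤ n + T := cY ▸ Finset.card_erase_le
    have h5 : ∑ y ∈ Y.erase x, (t y).choose 3 ≤ D.card.choose 3 := by
      simp only [ht, ← Finset.card_powersetCard]
      rw [← Finset.card_biUnion]
      · apply Finset.card_le_card
        intro s hs
        obtain ⟨y, -, hs⟩ := Finset.mem_biUnion.1 hs
        rw [Finset.mem_powersetCard] at hs ⊢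
        exact ⟨hs.1.trans (Finset.filter_subset _ _), hs.2⟩
      · intro y hy y' hy' hne
        rw [Function.onFun, Finset.disjoint_left]
        intro s hs hs'
        rw [Finset.mem_powersetCard] at hs hs'
        obtain ⟨k1, k2, k3, n12, n13, n23, rfl⟩ := Finset.card_eq_three.1 hs.2
        have hyx := Finset.ne_of_mem_erase hy
        have hyx' := Finset.ne_of_mem_erase hy'
        have mem : ∀ k ∈ ({k1, k2, k3} : Finset ℤ), x + -k ∈ A ∧ y + -k ∈ A ∧ y' + -k ∈ A := by
          intro k hk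
          have a1 := Finset.mem_filter.1 (hs.1 hk)
          have a2 := Finset.mem_filter.1 (hs'.1 hk)
          have a3 := Finset.mem_filter.1 a1.1
          simp only [← sub_eq_add_neg]
          exact ⟨a3.2, a1.2, a2.2⟩
        have m1 := mem k1 (by simp)
        have m2 := mem k2 (by simp)
        have m3 := mem k3 (by simp)
        refine hF ![x, y, y'] ![-k1, -k2, -k3] ?_ ?_ ?_
        · intro i j hij
          fin_cases i <;> fin_cases j <;> simp at hij ⊢ <;> omega
        · intro i j hij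
          fin_cases i <;> fin_cases j <;> simp at hij ⊢ <;> omega
        · intro i j
          fin_cases i <;> fin_cases j <;> simp [m1, m2, m3]
    have h6 : ∑ y ∈ Y.erase x, (t y - 2) ^ 3 ≤ ∑ y ∈ Y.erase x, 6 * (t y).choose 3 :=
      Finset.sum_le_sum fun y _ => by
        have a1 := Nat.pow_sub_le_descFactorial (t y) 3
        rw [Nat.descFactorial_eq_factorial_mul_choose] at a1
        rw [show t y - 2 = t y + 1 - 3 by omega]
        exact a1
    rw [← Finset.mul_sum] at h6
    have h7 := Nat.descFactorial_le_pow D.card 3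
    rw [Nat.descFactorial_eq_factorial_mul_choose] at h7
    have h8 : ∑ y ∈ Y.erase x, (t y - 2) ^ 3 ≤ D.card ^ 3 := by
      have : Nat.factorial 3 = 6 := rfl
      rw [this] at h7
      omega
    refine le_trans h1 (Nat.mul_le_mul (Nat.pow_le_pow_left (by simpa using h4) 2) h8)

/-- explicit real form of the upper bound, `u = n^(1/3)` -/
theorem upper_real {n L : ℕ} {A : Finset ℤ} (hA : A ⊆ Finset.Icc 1 (n : ℤ)) (hF : Free A)
    (hL : 0 < L) (hLn : L ≤ n) {u : ℝ} (hu : 1 ≤ u) (hun : u ^ 3 = n) :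
    (A.card : ℝ) ≤ u ^ 2 * (1 + 2 / L) + (1 + 18 * L) * u := by
  obtain ⟨d, S, h1, h2, h3⟩ := upper (T := n / L + 1) hA hF (Nat.succ_pos _)
  have hL' : (1 : ℝ) ≤ L := by exact_mod_cast hL
  have hc : (0 : ℝ) < 2 / L := by positivity
  by_cases ha : (A.card : ℝ) ≤ u ^ 2
  · nlinarith [sq_nonneg u]
  push Not at ha
  have t1 : n < (n / L + 1) * L := by
    have := Nat.div_add_mod n L
    have := Nat.mod_lt n hL
    nlinarith
  have t2 : (n / L + 1) * L ≤ 2 * n := by
    have := Nat.div_mul_le_self n L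
    nlinarith
  generalize n / L + 1 = T at *
  generalize A.card = a at *
  have t1' : u ^ 3 < T * L := by rw [hun]; exact_mod_cast t1
  have t2' : (T : ℝ) * L ≤ 2 * u ^ 3 := by rw [hun]; exact_mod_cast t2
  have h1' : (T : ℝ) * a ≤ (u ^ 3 + T) * d := by rw [hun]; exact_mod_cast h1
  have h2' : (d : ℝ) * a ≤ S + 2 * (u ^ 3 + T) + d := by rw [hun]; exact_mod_cast h2
  have h3' : (S : ℝ) ^ 3 ≤ (u ^ 3 + T) ^ 2 * d ^ 3 := by rw [hun]; exact_mod_cast h3
  have hT0 : (0 : ℝ) ≤ T := by positivity
  have hd0 : (0 : ℝ) ≤ d := by positivity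
  have hu0 : 0 < u := by linarith
  have hM : u ^ 3 + T ≤ u ^ 3 * (1 + 2 / L) := by
    have : (T : ℝ) ≤ u ^ 3 * (2 / L) := by
      rw [← mul_div_assoc, le_div_iff₀ (by linarith)]; linarith
    linarith
  have hM3 : u ^ 3 + T ≤ 3 * u ^ 3 := by nlinarith
  have hS : (S : ℝ) ≤ u ^ 2 * (1 + 2 / L) * d := by
    apply le_of_pow_le_pow_left₀ (n := 3) (by norm_num) (by positivity)
    refine h3'.trans ?_
    rw [mul_pow]
    apply mul_le_mul_of_nonneg_right _ (by positivity)
    calc (u ^ 3 + T) ^ 2 ≤ (u ^ 3 * (1 + 2 / L)) ^ 2 := by gcongr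
      _ = (u ^ 3 * (1 + 2 / L)) ^ 2 * 1 := by ring
      _ ≤ (u ^ 3 * (1 + 2 / L)) ^ 2 * (1 + 2 / L) := by gcongr; linarith
      _ = _ := by ring
  have hd : u ^ 2 ≤ 3 * L * d := by
    have a1 : (T : ℝ) * u ^ 2 ≤ 3 * u ^ 3 * d := by
      calc (T : ℝ) * u ^ 2 ≤ T * a := by gcongr
        _ ≤ (u ^ 3 + T) * d := h1'
        _ ≤ _ := by gcongr
    have a2 : u ^ 3 * u ^ 2 ≤ u ^ 3 * (3 * L * d) := by
      calc u ^ 3 * u ^ 2 ≤ T * L * u ^ 2 := by gcongr
        _ = L * (T * u ^ 2) := by ring
        _ ≤ L * (3 * u ^ 3 * d) := by gcongr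
        _ = _ := by ring
    exact le_of_mul_le_mul_left a2 (by positivity)
  have hdpos : (0 : ℝ) < d := by
    by_contra hcon
    have : (d : ℝ) = 0 := by linarith
    rw [this] at hd
    nlinarith
  apply le_of_mul_le_mul_left _ hdpos
  have a3 : 6 * u ^ 3 ≤ 18 * L * u * d := by nlinarith
  nlinarith

end Pool.Agent.H63.C33
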