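import Mathlib

namespace Pool.Agent.H63.CFDim

open Filter Topology

noncomputable def r : ℕ → (ℕ → ℕ) → ℝ
  | 0, a => a 0
  | n + 1, a => a 0 + 1 / r n (fun j => a (j + 1))

lemma r_ge (n : ℕ) : ∀ a : ℕ → ℕ, (∀ j, 2 ≤ a j) → (a 0 : ℝ) ≤ r n a := by
  induction n with
  | zero => intro a _; exact le_rfl
  | succ n ih =>
    intro a ha
    have h1 := ih (fun j => a (j + 1)) fun j => ha _
    have h2 : (0 : ℝ) ≤ a (0 + 1) := Nat.cast_nonneg _
    have : 0 ≤ 1 / r n (fun j => a (j + 1)) := div_nonneg zero_le_one (h2.trans h1)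
    rw [r]; linarith

lemma r_two (n : ℕ) (a : ℕ → ℕ) (ha : ∀ j, 2 ≤ a j) : 2 ≤ r n a :=
  le_trans (by exact_mod_cast ha 0) (r_ge n a ha)

lemma r_eq (n : ℕ) : ∀ a : ℕ → ℕ, (∀ j, 2 ≤ a j) →
    0 < (List.map (fun j : ℕ => (!![(a j : ℝ), 1; 1, 0] : Matrix (Fin 2) (Fin 2) ℝ))
      (List.range (n + 1))).prod 1 0 ∧
    (List.map (fun j : ℕ => (!![(a j : ℝ), 1; 1, 0] : Matrix (Fin 2) (Fin 2) ℝ))
      (List.range (n + 1))).prod 0 0 = r n a *
    (List.map (fun j : ℕ => (!![(a j : ℝ), 1; 1, 0] : Matrix (Fin 2) (Fin 2) ℝ))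
      (List.range (n + 1))).prod 1 0 := by
  induction n with
  | zero => intro a _; simp [r]
  | succ n ih =>
    intro a ha
    obtain ⟨h1, h2⟩ := ih (fun j => a (j + 1)) fun j => ha _
    have h3 := r_two n (fun j => a (j + 1)) fun j => ha _
    rw [List.range_succ_eq_map, List.map_cons, List.prod_cons, List.map_map]
    have e : ((fun j : ℕ => (!![(a j : ℝ), 1; 1, 0] : Matrix (Fin 2) (Fin 2) ℝ)) ∘ Nat.succ)
        = fun j : ℕ => (!![(a (j + 1) : ℝ), 1; 1, 0] : Matrix (Fin 2) (Fin 2) ℝ) := rfl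
    rw [e]
    generalize (List.map (fun j : ℕ => (!![(a (j + 1) : ℝ), 1; 1, 0] :
      Matrix (Fin 2) (Fin 2) ℝ)) (List.range (n + 1))).prod = M at h1 h2 ⊢
    simp only [Matrix.mul_apply, Fin.sum_univ_two, Matrix.of_apply, Matrix.cons_val', 
      Matrix.cons_val_zero, Matrix.cons_val_one, Matrix.cons_val_fin_one, one_mul, zero_mul,
      add_zero, h2, r]
    refine ⟨by positivity, ?_⟩
    field_simp

lemma r_step (n : ℕ) : ∀ a : ℕ → ℕ, (∀ j, 2 ≤ a j) →
    dist (r n a) (r (n + 1) a) ≤ 1 * (1 / 2) ^ n := by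
  induction n with
  | zero =>
    intro a ha
    have h3 := r_two 0 (fun j => a (j + 1)) fun j => ha _
    rw [r, r, Real.dist_eq, sub_add_cancel_left, abs_neg, abs_of_nonneg (by positivity)]
    simp only [pow_zero, mul_one]
    rw [div_le_one (by positivity)]; linarith
  | succ n ih =>
    intro a ha
    have h1 := ih (fun j => a (j + 1)) fun j => ha _
    have h2 := r_two n (fun j => a (j + 1)) fun j => ha _
    have h3 := r_two (n + 1) (fun j => a (j + 1)) fun j => ha _
    rw [r, r]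
    generalize r n (fun j => a (j + 1)) = u at h1 h2 ⊢
    generalize r (n + 1) (fun j => a (j + 1)) = v at h1 h3 ⊢
    rw [Real.dist_eq] at h1 ⊢
    rw [show (a 0 : ℝ) + 1 / u - (a 0 + 1 / v) = -(u - v) / (u * v) by field_simp; ring, abs_div,
      abs_neg, abs_of_pos (show 0 < u * v by positivity), div_le_iff₀ (by positivity), pow_succ]
    have h4 : (0 : ℝ) < (1 / 2) ^ n := by positivity
    have h5 : 4 ≤ u * v := by nlinarith
    nlinarith

noncomputable def val (a : ℕ → ℕ) : ℝ := limUnder atTop fun n => r n a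

lemma tendsto_val (a : ℕ → ℕ) (ha : ∀ j, 2 ≤ a j) : Tendsto (fun n => r n a) atTop (𝓝 (val a)) :=
  (cauchySeq_of_le_geometric (1 / 2) 1 (by norm_num) fun n => r_step n a ha).tendsto_limUnder

lemma val_ge (a : ℕ → ℕ) (ha : ∀ j, 2 ≤ a j) : (a 0 : ℝ) ≤ val a :=
  ge_of_tendsto' (tendsto_val a ha) fun n => r_ge n a ha

lemma val_two (a : ℕ → ℕ) (ha : ∀ j, 2 ≤ a j) : 2 ≤ val a :=
  le_trans (by exact_mod_cast ha 0) (val_ge a ha)

lemma val_eq (a : ℕ → ℕ) (ha : ∀ j, 2 ≤ a j) : val a = a 0 + 1 / val (fun j => a (j + 1)) := by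
  have h1 := (tendsto_add_atTop_iff_nat 1).2 (tendsto_val a ha)
  have h2 := val_two (fun j => a (j + 1)) fun j => ha _
  refine tendsto_nhds_unique h1 ?_
  simp only [r]
  exact tendsto_const_nhds.add (tendsto_const_nhds.div (tendsto_val _ fun j => ha _) (by positivity))

lemma val_le (a : ℕ → ℕ) (ha : ∀ j, 2 ≤ a j) : val a ≤ a 0 + 1 := by
  have h2 := val_two (fun j => a (j + 1)) fun j => ha _
  rw [val_eq a ha]
  gcongr
  rw [div_le_one (by positivity)]; linarith

def cantor (A : Finset ℕ) : Set ℝ := {x : ℝ | ∃ a : ℕ → ℕ, (∀ j, a j ∈ A) ∧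
  Tendsto (fun n : ℕ =>
    ((List.map (fun j : ℕ => (!![(a j : ℝ), 1; 1, 0] : Matrix (Fin 2) (Fin 2) ℝ))
        (List.range (n + 1))).prod 0 0) /
    ((List.map (fun j : ℕ => (!![(a j : ℝ), 1; 1, 0] : Matrix (Fin 2) (Fin 2) ℝ))
        (List.range (n + 1))).prod 1 0)) atTop (𝓝 x)}

lemma val_mem (A : Finset ℕ) (a : ℕ → ℕ) (ha : ∀ j, 2 ≤ a j) (hA : ∀ j, a j ∈ A) :
    val a ∈ cantor A := by
  refine ⟨a, hA, (tendsto_val a ha).congr fun n => ?_⟩
  obtain ⟨h1, h2⟩ := r_eq n a ha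
  rw [h2, mul_div_cancel_right₀ _ h1.ne']

lemma digit (K : ℕ) (p : ℕ → ℝ) (hp : ∀ k, 0 < p k) (hsum : ∑ k ∈ Finset.range K, p k = 1)
    (y : ℝ) (hy : y ∈ Set.Ico (0 : ℝ) 1) : ∃ k < K, ∃ z ∈ Set.Ico (0 : ℝ) 1,
      y = ∑ j ∈ Finset.range k, p j + p k * z := by
  classical
  have hex : ∃ k, y < ∑ j ∈ Finset.range k, p j := ⟨K, by rw [hsum]; exact hy.2⟩
  have h1 := Nat.find_spec hex
  have h2 : Nat.find hex ≤ K := Nat.find_min' hex (by rw [hsum]; exact hy.2)
  obtain ⟨k, hk⟩ : ∃ k, Nat.find hex = k + 1 := by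
    refine Nat.exists_eq_succ_of_ne_zero fun h => ?_
    rw [h] at h1; simp at h1; linarith [hy.1]
  have h3 := Nat.find_min hex (m := k) (by omega)
  rw [hk, Finset.sum_range_succ] at h1
  refine ⟨k, by omega, (y - ∑ j ∈ Finset.range k, p j) / p k, ⟨?_, ?_⟩, ?_⟩
  · exact div_nonneg (by linarith) (hp k).le
  · rw [div_lt_one (hp k)]; linarith
  · have := hp k
    field_simp; ring

theorem dim_ge (K : ℕ) (s : NNReal) (hs : 1 / 2 < (s : ℝ))
    (hK : 1 ≤ ∑ k ∈ Finset.range K, ((100 * k + 77 : ℝ) ^ 2) ^ (-(s : ℝ))) :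
    (s : ENNReal) ≤ dimH (cantor ((Finset.range K).image fun k => 100 * k + 76)) := by
  classical
  set Z := ∑ k ∈ Finset.range K, ((100 * k + 77 : ℝ) ^ 2) ^ (-(s : ℝ)) with hZ
  have hs0 : 0 < (s : ℝ) := by linarith
  let p : ℕ → ℝ := fun k => ((100 * k + 77 : ℝ) ^ 2) ^ (-(s : ℝ)) / Z
  have hp : ∀ k, 0 < p k := fun k => div_pos (by positivity) (by linarith)
  have hp1 : ∀ k, p k ≤ ((100 * k + 77 : ℝ) ^ 2) ^ (-(s : ℝ)) := fun k =>
    div_le_self (by positivity) hK
  have hp2 : ∀ k, p k ≤ 1 / 2 := by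
    intro k
    refine (hp1 k).trans ?_
    have h0 : (0 : ℝ) ≤ k := Nat.cast_nonneg _
    calc ((100 * k + 77 : ℝ) ^ 2) ^ (-(s : ℝ)) ≤ ((100 * k + 77 : ℝ) ^ 2) ^ (-(1 / 2 : ℝ)) :=
          Real.rpow_le_rpow_of_exponent_le (by nlinarith) (by linarith)
      _ = (100 * k + 77 : ℝ)⁻¹ := by
          rw [← Real.rpow_natCast, ← Real.rpow_mul (by positivity), ← Real.rpow_neg_one]
          norm_num
      _ ≤ _ := by rw [← one_div]; exact one_div_le_one_div_of_le (by norm_num) (by linarith)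
  have hsum : ∑ k ∈ Finset.range K, p k = 1 := by
    rw [← Finset.sum_div, div_self (by linarith)]
  choose! dg hdg S hS heq using digit K p hp hsum
  let sq : ℝ → ℕ → ℕ := fun y j => 100 * dg (S^[j] y) + 76
  have hsq2 : ∀ y j, 2 ≤ sq y j := fun y j => by simp only [sq]; omega
  have hshift : ∀ y, (fun j => sq y (j + 1)) = sq (S y) := fun y => rfl
  have hit : ∀ y ∈ Set.Ico (0 : ℝ) 1, ∀ j, S^[j] y ∈ Set.Ico (0 : ℝ) 1 := by
    intro y hy j
    induction j with
    | zero => exact hy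
    | succ j ih => rw [Function.iterate_succ_apply']; exact hS _ ih
  let h : ℝ → ℝ := fun y => val (sq y)
  have h2 : ∀ y, 2 ≤ h y := fun y => val_two _ (hsq2 y)
  have hlo : ∀ y, (100 * dg y + 76 : ℝ) ≤ h y := fun y => by
    have := val_ge _ (hsq2 y); simpa [sq] using this
  have hhi : ∀ y, h y ≤ (100 * dg y + 77 : ℝ) := fun y => by
    have := val_le _ (hsq2 y)
    simp only [sq, Function.iterate_zero, id_eq] at this
    push_cast at this
    linarith
  have hrec : ∀ y, h y = (100 * dg y + 76 : ℝ) + 1 / h (S y) := fun y => by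
    have := val_eq _ (hsq2 y)
    rw [hshift] at this
    simpa [sq] using this
  have hdiff : ∀ y ∈ Set.Ico (0 : ℝ) 1, ∀ y' ∈ Set.Ico (0 : ℝ) 1, dg y = dg y' →
      |y - y'| = p (dg y) * |S y - S y'| := by
    intro y hy y' hy' he
    have e1 := heq y hy
    have e2 := heq y' hy'
    rw [← he] at e2
    rw [show y - y' = p (dg y) * (S y - S y') by linarith, abs_mul, abs_of_pos (hp _)]
  have hone : ∀ y ∈ Set.Ico (0 : ℝ) 1, ∀ y' ∈ Set.Ico (0 : ℝ) 1, |y - y'| ≤ 1 := by
    intro y hy y' hy'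
    rw [abs_le]; constructor <;> linarith [hy.1, hy.2, hy'.1, hy'.2]
  set C : ℝ := ((100 * K + 77 : ℝ) ^ 2) ^ (s : ℝ) with hC
  have hC0 : 0 ≤ C := by positivity
  have main : ∀ n : ℕ, ∀ y ∈ Set.Ico (0 : ℝ) 1, ∀ y' ∈ Set.Ico (0 : ℝ) 1,
      |y - y'| ≤ C * |1 / h y - 1 / h y'| ^ (s : ℝ) ∨ |y - y'| ≤ (1 / 2) ^ n := by
    intro n
    induction n with
    | zero => intro y hy y' hy'; right; simpa using hone y hy y' hy'
    | succ n ih =>
      intro y hy y' hy'
      have a1 := h2 y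
      have a2 := h2 y'
      have huu : |1 / h y - 1 / h y'| = |h y - h y'| / (h y * h y') := by
        rw [show 1 / h y - 1 / h y' = -(h y - h y') / (h y * h y') by field_simp; ring, abs_div,
          abs_neg, abs_of_pos (show 0 < h y * h y' by positivity)]
      by_cases he : dg y = dg y'
      · rw [hdiff y hy y' hy' he]
        rcases ih _ (hS y hy) _ (hS y' hy') with h3 | h3
        · left
          have e1 : h y - h y' = 1 / h (S y) - 1 / h (S y') := by
            rw [hrec y, hrec y', he]; ring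
          have e2 : h y * h y' ≤ (100 * dg y + 77 : ℝ) ^ 2 := by
            have b1 := hhi y
            have b2 := hhi y'
            rw [← he] at b2
            rw [pow_two]
            exact mul_le_mul b1 b2 (by linarith) (by positivity)
          rw [huu, e1]
          calc p (dg y) * |S y - S y'| ≤ ((100 * dg y + 77 : ℝ) ^ 2) ^ (-(s : ℝ)) *
                (C * |1 / h (S y) - 1 / h (S y')| ^ (s : ℝ)) :=
                mul_le_mul (hp1 _) h3 (abs_nonneg _) (by positivity)
            _ = C * (|1 / h (S y) - 1 / h (S y')| / (100 * dg y + 77 : ℝ) ^ 2) ^ (s : ℝ) := by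
                rw [Real.div_rpow (abs_nonneg _) (by positivity), Real.rpow_neg (by positivity)]
                ring
            _ ≤ _ := by gcongr
        · right
          rw [pow_succ, mul_comm]
          exact mul_le_mul h3 (hp2 _) (hp _).le (by positivity)
      · left
        have e1 : 1 ≤ |h y - h y'| := by
          rcases lt_or_gt_of_ne he with h4 | h4
          · have : (dg y : ℝ) + 1 ≤ dg y' := by exact_mod_cast h4
            rw [le_abs]; right; linarith [hhi y, hlo y']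
          · have : (dg y' : ℝ) + 1 ≤ dg y := by exact_mod_cast h4
            rw [le_abs]; left; linarith [hhi y', hlo y]
        have e2 : h y * h y' ≤ (100 * K + 77 : ℝ) ^ 2 := by
          have b1 : (dg y : ℝ) ≤ K := by exact_mod_cast (hdg y hy).le
          have b2 : (dg y' : ℝ) ≤ K := by exact_mod_cast (hdg y' hy').le
          rw [pow_two]
          exact mul_le_mul (by linarith [hhi y]) (by linarith [hhi y']) (by linarith)
            (by positivity)
        rw [huu]
        calc |y - y'| ≤ 1 := hone y hy y' hy'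
          _ = C * (1 / (100 * K + 77 : ℝ) ^ 2) ^ (s : ℝ) := by
              rw [hC, ← Real.mul_rpow (by positivity) (by positivity), mul_one_div_cancel
                (by positivity), Real.one_rpow]
          _ ≤ _ := by gcongr
  have main2 : ∀ y ∈ Set.Ico (0 : ℝ) 1, ∀ y' ∈ Set.Ico (0 : ℝ) 1,
      |y - y'| ≤ C * |h y - h y'| ^ (s : ℝ) := by
    intro y hy y' hy'
    by_cases h3 : |y - y'| ≤ C * |1 / h y - 1 / h y'| ^ (s : ℝ)
    · refine h3.trans ?_
      have a1 := h2 y
      have a2 := h2 y'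
      refine mul_le_mul_of_nonneg_left (Real.rpow_le_rpow (abs_nonneg _) ?_ hs0.le) hC0
      rw [show 1 / h y - 1 / h y' = -(h y - h y') / (h y * h y') by field_simp; ring, abs_div,
        abs_neg, abs_of_pos (show 0 < h y * h y' by positivity)]
      exact div_le_self (abs_nonneg _) (by nlinarith)
    · have h4 : |y - y'| ≤ 0 := ge_of_tendsto'
        (tendsto_pow_atTop_nhds_zero_of_lt_one (r := (1 / 2 : ℝ)) (by norm_num) (by norm_num))
        fun n => (main n y hy y' hy').resolve_left h3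
      exact h4.trans (by positivity)
  have hinj : Set.InjOn h (Set.Ico 0 1) := by
    intro y hy y' hy' he
    have := main2 y hy y' hy'
    rw [he, sub_self, abs_zero, Real.zero_rpow hs0.ne', mul_zero] at this
    exact sub_eq_zero.1 (abs_nonpos_iff.1 this)
  have hhol : HolderOnWith ⟨C, hC0⟩ s (Function.invFunOn h (Set.Ico 0 1)) (h '' Set.Ico 0 1) := by
    rintro _ ⟨y, hy, rfl⟩ _ ⟨y', hy', rfl⟩
    rw [hinj.leftInvOn_invFunOn hy, hinj.leftInvOn_invFunOn hy', edist_dist, edist_dist,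
      ENNReal.ofReal_rpow_of_nonneg dist_nonneg hs0.le, ← ENNReal.ofReal_coe_nnreal,
      ← ENNReal.ofReal_mul (NNReal.coe_nonneg _)]
    exact ENNReal.ofReal_le_ofReal (main2 y hy y' hy')
  have h5 := hhol.dimH_image_le (by exact_mod_cast hs0)
  rw [hinj.invFunOn_image subset_rfl, Real.dimH_of_nonempty_interior (by simp)] at h5
  have h6 : h '' Set.Ico 0 1 ⊆ cantor ((Finset.range K).image fun k => 100 * k + 76) := by
    rintro _ ⟨y, hy, rfl⟩
    exact val_mem _ _ (hsq2 y) fun j =>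
      Finset.mem_image.2 ⟨_, Finset.mem_range.2 (hdg _ (hit y hy j)), rfl⟩
  refine le_trans ?_ (dimH_mono h6)
  rw [ENNReal.le_div_iff_mul_le (Or.inl (by exact_mod_cast hs0.ne')) (Or.inl ENNReal.coe_ne_top)]
    at h5
  simpa using h5

theorem exists_alphabet : ∃ K : ℕ, 2 ≤ K ∧
    (1 / 2 : ENNReal) < dimH (cantor ((Finset.range K).image fun k => 100 * k + 76)) := by
  obtain ⟨K, hK, hK2⟩ := ((Real.tendsto_sum_range_one_div_nat_succ_atTop.eventually_gt_atTop
    100).and (eventually_ge_atTop 2)).exists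
  let f : ℝ → ℝ := fun s => ∑ k ∈ Finset.range K, ((100 * k + 77 : ℝ) ^ 2) ^ (-s)
  have hf : Continuous f := by
    refine continuous_finsetSum _ fun k _ => ?_
    exact (Real.continuous_const_rpow (by positivity)).comp continuous_neg
  have h1 : 1 < f (1 / 2) := by
    calc (1 : ℝ) < (∑ k ∈ Finset.range K, 1 / ((k : ℝ) + 1)) / 100 := by linarith
      _ = ∑ k ∈ Finset.range K, 1 / (100 * ((k : ℝ) + 1)) := by
          rw [Finset.sum_div]; refine Finset.sum_congr rfl fun k _ => ?_; field_simp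
      _ ≤ _ := by
          refine Finset.sum_le_sum fun k _ => ?_
          rw [← Real.rpow_natCast, ← Real.rpow_mul (by positivity),
            show ((2 : ℕ) : ℝ) * -(1 / 2) = -1 by norm_num, Real.rpow_neg_one, ← one_div]
          exact one_div_le_one_div_of_le (by positivity) (by linarith)
  have h2 : ∀ᶠ s in 𝓝[>] (1 / 2 : ℝ), 1 < f s :=
    (hf.continuousAt.eventually (lt_mem_nhds h1)).filter_mono nhdsWithin_le_nhds
  obtain ⟨s, hs1, hs2⟩ := (h2.and self_mem_nhdsWithin).exists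
  have hs3 : (1 / 2 : ℝ) < s := hs2
  lift s to NNReal using (by linarith)
  refine ⟨K, hK2, lt_of_lt_of_le ?_ (dim_ge K s hs3 hs1.le)⟩
  have : ((1 / 2 : NNReal) : ENNReal) < (s : ENNReal) := by
    rw [ENNReal.coe_lt_coe, ← NNReal.coe_lt_coe]
    simpa using hs3
  simpa using this

end Pool.Agent.H63.CFDim
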