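import Mathlib

namespace Pool.Agent.H63.CFTrace

open Filter Topology

def gm (R : Type*) [CommRing R] (b : ℕ) : Matrix (Fin 2) (Fin 2) R := !![(b : R), 1; 1, 0]

lemma inv (n : ℕ) : ∀ l : List ℕ, l.length = 2 * n → (∀ b ∈ l, b % 100 = 76) →
    ∃ α β c d : ℕ, (l.map (gm ℤ)).prod = !![(α : ℤ), β; c, d] ∧ α * d = β * c + 1 ∧ d % 16 = 1 ∧
      β % 4 = 0 ∧ c % 4 = 0 ∧ jacobiSym β d = 1 ∧ α % 25 = (d + c) % 25 ∧ β % 25 = c % 25 := by
  induction n with
  | zero =>
    intro l hl _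
    obtain rfl : l = [] := List.length_eq_zero_iff.1 hl
    exact ⟨1, 0, 0, 1, by simp [Matrix.one_fin_two], by simp, by simp, by simp, by simp, by simp,
      by simp, by simp⟩
  | succ n ih =>
    intro l hl hA
    match l, hl, hA with
    | a :: b :: l', hl, hA =>
      obtain ⟨α, β, c, d, h1, h2, h3, h4, h5, h6, h7, h8⟩ := ih l' (by simp at hl; omega)
        (fun x hx => hA x (by simp [hx]))
      have ha := hA a (by simp)
      have hb := hA b (by simp)
      obtain ⟨a', rfl⟩ : ∃ a', a = 100 * a' + 76 := ⟨a / 100, by omega⟩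
      obtain ⟨b', rfl⟩ : ∃ b', b = 100 * b' + 76 := ⟨b / 100, by omega⟩
      obtain ⟨β', rfl⟩ : ∃ β', β = 4 * β' := ⟨β / 4, by omega⟩
      set a := 100 * a' + 76 with ha'
      set b := 100 * b' + 76 with hb'
      have e1 : b * (4 * β') = 16 * ((25 * b' + 19) * β') := by rw [hb']; ring
      have e2 : b * α = 4 * ((25 * b' + 19) * α) := by rw [hb']; ring
      have e3 : ∀ x, a * x = 4 * ((25 * a' + 19) * x) := by intro x; rw [ha']; ring
      have e4 : ∀ x, a * x = 25 * ((4 * a' + 3) * x) + x := by intro x; rw [ha']; ring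
      have e5 : ∀ x, b * x = 25 * ((4 * b' + 3) * x) + x := by intro x; rw [hb']; ring
      refine ⟨α + a * (c + b * α), 4 * β' + a * (d + b * (4 * β')), c + b * α, d + b * (4 * β'),
        ?_, ?_, ?_, ?_, ?_, ?_, ?_, ?_⟩
      · rw [List.map_cons, List.map_cons, List.prod_cons, List.prod_cons, h1]
        ext i j
        fin_cases i <;> fin_cases j <;> simp [gm, Matrix.mul_apply, Fin.sum_univ_two] <;> ring
      · nlinarith
      · omega
      · have := e3 (d + b * (4 * β')); omega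
      · omega
      · rw [jacobiSym.mod_left' (a₂ := ((4 * β' : ℕ) : ℤ)) (by
          push_cast; rw [Int.add_mul_emod_self_right]),
          jacobiSym.mod_right' _ (Nat.odd_iff.2 (by omega)), ← h6,
          jacobiSym.mod_right' _ (b := d) (Nat.odd_iff.2 (by omega))]
        congr 1
        rw [show b * (4 * β') = 4 * (4 * β') * (25 * b' + 19) by rw [hb']; ring,
          Nat.add_mul_mod_self_left]
      · have := e4 (c + b * α); have := e5 α; have := e5 (4 * β'); omega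
      · have := e4 (d + b * (4 * β')); have := e5 α; have := e5 (4 * β'); omega

lemma sq11 : ∀ x : ZMod 11, 16 * (x * x) = 5 * (0 * 0) * (16 * x + 1) →
    IsSquare (5 * (16 * x + 1)) := by decide

lemma obstruction (i : ℕ) (l : List ℕ) (hl : Even l.length) (hA : ∀ b ∈ l, b % 100 = 76) :
    Matrix.trace (l.map (gm ℤ)).prod ≠ 2 + 80 * 11 ^ (2 * (i + 1)) := by
  intro ht
  obtain ⟨n, hn⟩ := hl
  obtain ⟨α, β, c, d, h1, h2, h3, h4, h5, h6, h7, h8⟩ := inv n l (by omega) hA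
  rw [h1, Matrix.trace_fin_two_of] at ht
  have ht' : α + d = 2 + 80 * 11 ^ (2 * (i + 1)) := by exact_mod_cast ht
  obtain ⟨β', rfl⟩ : ∃ β', β = 4 * β' := ⟨β / 4, by omega⟩
  obtain ⟨c', rfl⟩ : ∃ c', c = 4 * c' := ⟨c / 4, by omega⟩
  obtain ⟨e, rfl⟩ : ∃ e, d = 16 * e + 1 := ⟨d / 16, by omega⟩
  set m := 11 ^ (i + 1) with hm
  have hm2 : 11 ^ (2 * (i + 1)) = m * m := by rw [hm, two_mul, pow_add]
  rw [hm2] at ht'
  have key : β' * c' + 16 * (e * e) = 5 * (m * m) * (16 * e + 1) := by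
    have : α = 2 + 80 * (m * m) - (16 * e + 1) := by omega
    zify [show 16 * e + 1 ≤ 2 + 80 * (m * m) by omega] at this h2 ⊢
    rw [this] at h2
    linarith
  have hm10 : m % 10 = 1 := by rw [hm, Nat.pow_mod]; simp
  have hodd : β' % 2 = 1 := by
    by_contra h
    obtain ⟨k, rfl⟩ : ∃ k, β' = 2 * k := ⟨β' / 2, by omega⟩
    obtain ⟨u, hu⟩ : ∃ u, m = 2 * u + 1 := ⟨m / 2, by omega⟩
    rw [hu] at key
    have : 2 * (k * c' + 8 * (e * e)) = 2 * (5 * (2 * u * u + 2 * u) * (16 * e + 1) + 40 * e + 2) + 1 := by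
      nlinarith
    omega
  have h5' : β' % 5 = 2 ∨ β' % 5 = 3 := by
    obtain ⟨u, hu⟩ : ∃ u, m = 5 * u + 1 := ⟨m / 5, by omega⟩
    have z1 : (α : ZMod 25) = (16 * e + 1) + 4 * c' := by
      have := (ZMod.natCast_eq_natCast_iff' _ _ 25).2 h7
      push_cast at this; exact this
    have z2 : (4 * β' : ZMod 25) = 4 * c' := by
      have := (ZMod.natCast_eq_natCast_iff' _ _ 25).2 h8
      push_cast at this; exact this
    have z3 : (α : ZMod 25) + (16 * e + 1) = 7 := by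
      have := congrArg (Nat.cast : ℕ → ZMod 25) ht'
      rw [hu] at this
      push_cast at this
      rw [this]
      have h25 : (25 : ZMod 25) = 0 := rfl
      linear_combination (80 * (u : ZMod 25) * u + 32 * u + 3) * h25
    have z4 : (α : ZMod 25) * (16 * e + 1) = 4 * β' * (4 * c') + 1 := by
      have := congrArg (Nat.cast : ℕ → ZMod 25) h2
      push_cast at this; exact this
    have z5 : (5 * (4 * β') ^ 2 : ZMod 25) = 45 := by
      linear_combination (-4) * z4 + ((α : ZMod 25) + (16 * e + 1) + 7) * z3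
        - ((α : ZMod 25) - (16 * e + 1) + 4 * c') * z1 + (5 * (4 * β') + 4 * c') * z2
    have z6 : ((5 * (4 * β') ^ 2 : ℕ) : ZMod 25) = (45 : ℕ) := by push_cast; exact z5
    rw [ZMod.natCast_eq_natCast_iff'] at z6
    obtain ⟨k, hk⟩ : ∃ k, β' = 5 * k + β' % 5 := ⟨β' / 5, by omega⟩
    have hr : β' % 5 < 5 := Nat.mod_lt _ (by norm_num)
    generalize β' % 5 = r at hk hr ⊢
    rw [hk, show 5 * (4 * (5 * k + r)) ^ 2 = 80 * r ^ 2 + 25 * (80 * k ^ 2 + 32 * k * r) by ring,
      Nat.add_mul_mod_self_left] at z6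
    interval_cases r <;> simp at z6 ⊢
  have hodd' : Odd β' := Nat.odd_iff.2 hodd
  have j1 : jacobiSym ((16 * e + 1 : ℕ) : ℤ) β' = 1 := by
    rw [jacobiSym.quadratic_reciprocity_one_mod_four (by omega) hodd', ← h6]
    push_cast
    rw [jacobiSym.mul_left, jacobiSym.at_four (Nat.odd_iff.2 (by omega)), one_mul]
  have j2 : jacobiSym ((5 : ℕ) : ℤ) β' = -1 := by
    rw [jacobiSym.quadratic_reciprocity_one_mod_four (by norm_num) hodd', jacobiSym.mod_left]
    rcases h5' with h | h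
    · rw [show (β' : ℤ) % (5 : ℕ) = 2 by omega]; norm_num
    · rw [show (β' : ℤ) % (5 : ℕ) = 3 by omega]; norm_num
  have j3 : jacobiSym (5 * (16 * e + 1) : ℤ) β' = -1 := by
    rw [jacobiSym.mul_left]
    push_cast at j1 j2
    rw [j1, j2]; rfl
  obtain ⟨p, hp, hpβ, hj⟩ := jacobiSym.eq_neg_one_at_prime_divisor_of_eq_neg_one j3
  have := Fact.mk hp
  apply ZMod.nonsquare_of_jacobiSym_eq_neg_one hj
  have k1 := congrArg (Nat.cast : ℕ → ZMod p) key
  push_cast at k1 ⊢
  rw [(ZMod.natCast_eq_zero_iff _ _).2 hpβ, zero_mul, zero_add] at k1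
  by_cases hm0 : (m : ZMod p) = 0
  · have h11 : p = 11 := by
      rw [ZMod.natCast_eq_zero_iff, hm] at hm0
      exact (Nat.prime_dvd_prime_iff_eq hp (by norm_num)).1 (hp.dvd_of_dvd_pow hm0)
    subst h11
    rw [hm0] at k1
    exact sq11 _ k1
  · exact ⟨4 * e / m, by field_simp; linear_combination -k1⟩

lemma odd_word (q : ℕ) [NeZero q] (k : ℕ) : ∃ l : List ℕ, Odd l.length ∧
    (∀ b ∈ l, b = 76 ∨ b = 176) ∧ (l.map (gm (ZMod q))).prod = gm (ZMod q) (100 * k + 76) := by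
  have hu : IsUnit (gm (ZMod q) 76) := by
    rw [Matrix.isUnit_iff_isUnit_det]; simp [gm, Matrix.det_fin_two_of]
  obtain ⟨u, hu⟩ := hu
  have hr : 0 < orderOf u := orderOf_pos u
  have h1 : gm (ZMod q) 76 ^ (2 * orderOf u) = 1 := by
    rw [← hu, ← Units.val_pow_eq_pow_val, mul_comm, pow_mul, pow_orderOf_eq_one]; simp
  obtain ⟨r, hr'⟩ : ∃ r, 2 * orderOf u = (2 * r + 1) + 1 := ⟨orderOf u - 1, by omega⟩
  rw [hr', pow_succ] at h1
  have h2 : gm (ZMod q) 76 ^ (2 * r + 1) = !![0, 1; 1, -76] := by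
    have h3 : gm (ZMod q) 76 * !![0, 1; 1, -76] = 1 := by
      ext i j; fin_cases i <;> fin_cases j <;> simp [gm, Matrix.mul_apply, Fin.sum_univ_two]
    calc gm (ZMod q) 76 ^ (2 * r + 1)
        = gm (ZMod q) 76 ^ (2 * r + 1) * (gm (ZMod q) 76 * !![0, 1; 1, -76]) := by rw [h3, mul_one]
      _ = _ := by rw [← mul_assoc, h1, one_mul]
  induction k with
  | zero => exact ⟨[76], by simp, by simp, by simp⟩
  | succ k ih =>
    obtain ⟨l, hl1, hl2, hl3⟩ := ih
    refine ⟨176 :: (List.replicate (2 * r + 1) 76 ++ l), ?_, ?_, ?_⟩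
    · obtain ⟨j, hj⟩ := hl1
      exact ⟨r + j + 1, by simp [hj]; ring⟩
    · intro b hb
      simp only [List.mem_cons, List.mem_append, List.mem_replicate] at hb
      rcases hb with h | h | h
      exacts [Or.inr h, Or.inl h.2, hl2 b h]
    · rw [List.map_cons, List.prod_cons, List.map_append, List.prod_append, List.map_replicate,
        List.prod_replicate, h2, hl3]
      ext i j
      fin_cases i <;> fin_cases j <;> simp [gm, Matrix.mul_apply, Fin.sum_univ_two]
      ring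

lemma letter (q' e : ℕ) (hq : 0 < q') (h5 : Nat.Coprime 5 q') (x y : ℕ) (hx : x % 25 = 1) :
    ∃ k : ℕ, 100 * k + 76 ≡ x [MOD 5 ^ e] ∧ 100 * k + 76 ≡ 4 * y [MOD q'] := by
  have hc : Nat.Coprime (25 * 5 ^ e) (4 * q') := by
    apply Nat.Coprime.mul_left
    · exact Nat.Coprime.mul_right (by norm_num) (Nat.Coprime.pow_left 2 h5)
    · exact Nat.Coprime.pow_left e (Nat.Coprime.mul_right (by norm_num) h5)
  obtain ⟨a, ha1, ha2⟩ := Nat.chineseRemainder hc x (4 * y)
  have h1 : a % 25 = x % 25 := Nat.ModEq.of_mul_right _ ha1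
  have h2 : a % 4 = (4 * y) % 4 := Nat.ModEq.of_mul_right _ ha2
  refine ⟨a / 100, ?_, ?_⟩
  · rw [show 100 * (a / 100) + 76 = a by omega]; exact Nat.ModEq.of_mul_left _ ha1
  · rw [show 100 * (a / 100) + 76 = a by omega]; exact Nat.ModEq.of_mul_left _ ha2

lemma admissible (i : ℕ) (q : ℤ) (hq : 1 ≤ q) : ∃ l : List ℕ, l ≠ [] ∧ Even l.length ∧
    (∀ b ∈ l, b = 76 ∨ b = 176) ∧
    Matrix.trace (l.map (gm ℤ)).prod ≡ 2 + 80 * 11 ^ (2 * (i + 1)) [ZMOD q] := by
  obtain ⟨n, rfl⟩ : ∃ n : ℕ, q = n := ⟨q.toNat, by omega⟩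
  have hn : n ≠ 0 := by omega
  have := NeZero.mk hn
  obtain ⟨e, q', hq', hnq⟩ := Nat.exists_eq_pow_mul_and_not_dvd hn 5 (by norm_num)
  have h5 : Nat.Coprime 5 q' := (Nat.Prime.coprime_iff_not_dvd (by norm_num)).2 hq'
  have hq0 : 0 < q' := Nat.pos_of_ne_zero (by rintro rfl; simp at hq')
  set M := 11 ^ (2 * (i + 1)) with hM
  have hM15 : M % 15 = 1 := by rw [hM, pow_mul, Nat.pow_mod]; simp
  obtain ⟨x, hx⟩ : ∃ x, 80 * M = 3 * x + 2 := ⟨80 * M / 3, by omega⟩
  obtain ⟨a, a1, a2⟩ := letter q' e hq0 h5 x 1 (by omega)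
  obtain ⟨b, b1, b2⟩ := letter q' e hq0 h5 1 (5 * M) (by omega)
  obtain ⟨c, c1, c2⟩ := letter q' e hq0 h5 1 0 (by omega)
  obtain ⟨la, la1, la2, la3⟩ := odd_word n a
  obtain ⟨lb, lb1, lb2, lb3⟩ := odd_word n b
  obtain ⟨lc, lc1, lc2, lc3⟩ := odd_word n c
  refine ⟨la ++ (lb ++ (lc ++ lc)), ?_, ?_, ?_, ?_⟩
  · intro h
    have : la = [] := (List.append_eq_nil_iff.1 h).1
    simp [this] at la1
  · simp only [List.length_append]
    exact Odd.add_odd la1 (Odd.add_even lb1 (Odd.add_odd lc1 lc1))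
  · intro y hy
    simp only [List.mem_append] at hy
    rcases hy with h | h | h | h
    exacts [la2 y h, lb2 y h, lc2 y h, lc2 y h]
  · rw [← ZMod.intCast_eq_intCast_iff]
    have hmap : ∀ l : List ℕ, ((Matrix.trace (l.map (gm ℤ)).prod : ℤ) : ZMod n)
        = Matrix.trace (l.map (gm (ZMod n))).prod := by
      intro l
      have h1 := map_list_prod (Int.castRingHom (ZMod n)).mapMatrix (l.map (gm ℤ))
      rw [List.map_map] at h1
      have h2 : (⇑(Int.castRingHom (ZMod n)).mapMatrix ∘ gm ℤ) = gm (ZMod n) := by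
        ext b i j; fin_cases i <;> fin_cases j <;> simp [gm]
      rw [h2] at h1
      rw [← h1, Matrix.trace_fin_two, Matrix.trace_fin_two]
      simp
    rw [hmap]
    simp only [List.map_append, List.prod_append, la3, lb3, lc3]
    set A := 100 * a + 76
    set B := 100 * b + 76
    set C := 100 * c + 76
    have h1 : Matrix.trace (gm (ZMod n) A * (gm (ZMod n) B * (gm (ZMod n) C * gm (ZMod n) C)))
        = ((2 + ((A + C) * (B + C) + A * B * C * C) : ℕ) : ZMod n) := by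
      simp [gm, Matrix.trace_fin_two, Matrix.mul_apply, Fin.sum_univ_two]
      ring
    have h2 : (2 + ((A + C) * (B + C) + A * B * C * C)) ≡ 2 + 80 * M [MOD n] := by
      rw [hnq, ← Nat.modEq_and_modEq_iff_modEq_mul (Nat.Coprime.pow_left e h5)]
      constructor
      · have := (((a1.add c1).mul (b1.add c1)).add (((a1.mul b1).mul c1).mul c1)).add_left 2
        rwa [show (x + 1) * (1 + 1) + x * 1 * 1 * 1 = 80 * M by omega] at this
      · have := (((a2.add c2).mul (b2.add c2)).add (((a2.mul b2).mul c2).mul c2)).add_left 2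
        rwa [show (4 * 1 + 4 * 0) * (4 * (5 * M) + 4 * 0) + 4 * 1 * (4 * (5 * M)) * (4 * 0) * (4 * 0)
          = 80 * M by ring] at this
    rw [h1, (ZMod.natCast_eq_natCast_iff _ _ _).2 h2, hM]
    push_cast
    rfl

end Pool.Agent.H63.CFTrace
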