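import Mathlib

open MeasureTheory Set Topology BoundedContinuousFunction

namespace H63.Cas

/-- continuity of a set-valued map for the Vietoris (Hausdorff) topology -/
def SetCont {P Y : Type} [TopologicalSpace P] [TopologicalSpace Y] (F : P → Set Y) : Prop :=
  @Continuous P (Set Y) _ (TopologicalSpace.vietoris Y) F

/-- real continuous functions with compact support -/
def IsCc {Y : Type} [TopologicalSpace Y] (f : Y → ℝ) : Prop := Continuous f ∧ HasCompactSupport f

/-- a hypergroup, given by the convolutions of point masses -/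
structure Hypergroup (D : Type) [TopologicalSpace D] [MeasurableSpace D] where
  conv : D → D → Measure D
  e : D
  bar : D → D
  prob : ∀ x y, IsProbabilityMeasure (conv x y)
  weak : ∀ f : D →ᵇ ℝ, Continuous fun p : D × D => ∫ z, f z ∂(conv p.1 p.2)
  assoc : ∀ x y z, ∀ A, MeasurableSet A →
    ∫⁻ u, conv u z A ∂(conv x y) = ∫⁻ v, conv x v A ∂(conv y z)
  cpt : ∀ x y, IsCompact (conv x y).support
  suppCont : SetCont fun p : D × D => (conv p.1 p.2).support
  e_right : ∀ x, conv x e = Measure.dirac x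
  e_left : ∀ x, conv e x = Measure.dirac x
  bar_cont : Continuous bar
  bar_bar : ∀ x, bar (bar x) = x
  e_mem : ∀ x y, e ∈ (conv x y).support ↔ y = bar x
  anti : ∀ x y, (conv x y).map bar = conv (bar y) (bar x)

variable {X D : Type} [TopologicalSpace X] [MeasurableSpace X] [TopologicalSpace D]
  [MeasurableSpace D]

/-- left Haar measure of a hypergroup -/
def Hypergroup.IsLeftHaar (H : Hypergroup D) (m : Measure D) : Prop :=
  m.Regular ∧ m ≠ 0 ∧ ∀ f, IsCc f → ∀ x, ∫ y, (∫ z, f z ∂(H.conv x y)) ∂m = ∫ y, f y ∂m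

/-- the operator `T_h` -/
noncomputable def Th (K : X → D → Measure X) (h : D) (f : X → ℝ) (x : X) : ℝ := ∫ y, f y ∂(K x h)

/-- condition 4 -/
def IsAdj (K : X → D → Measure X) (bar : D → D) (m : Measure X) : Prop :=
  m.Regular ∧ m.support = univ ∧ ∀ h f g, IsCc f → IsCc g →
    ∫ x, Th K (bar h) f x * g x ∂m = ∫ x, f x * Th K h g x ∂m

/-- continuous association scheme -/
structure CAS (X D : Type) [TopologicalSpace X] [MeasurableSpace X] [TopologicalSpace D]
    [MeasurableSpace D] where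
  K : X → D → Measure X
  prob : ∀ x h, IsProbabilityMeasure (K x h)
  weak : ∀ f : X →ᵇ ℝ, Continuous fun p : X × D => ∫ y, f y ∂(K p.1 p.2)
  cpt : ∀ x h, IsCompact (K x h).support
  suppCont : SetCont fun p : X × D => (K p.1 p.2).support
  pr : X → X → D
  part : ∀ x y h, y ∈ (K x h).support ↔ pr x y = h
  pr_cont : Continuous fun p : X × X => pr p.1 p.2
  H : Hypergroup D
  comp : ∀ h1 h2 x, ∀ A, MeasurableSet A →
    ∫⁻ w, K w h2 A ∂(K x h1) = ∫⁻ h, K x h A ∂(H.conv h1 h2)
  unit : ∀ x, K x H.e = Measure.dirac x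
  adj : ∃ m, IsAdj K H.bar m

def CAS.T1 (C : CAS X D) : Prop :=
  ∀ f, IsCc f → ∀ h x y, ∫ z, f z ∂(C.H.conv (C.pr x y) h) = Th C.K h (fun z => f (C.pr x z)) y

def CAS.T2 (C : CAS X D) : Prop :=
  ∃ (mX : Measure X) (mD : Measure D), IsAdj C.K C.H.bar mX ∧ C.H.IsLeftHaar mD ∧
    ∀ f g, IsCc f → IsCc g → ∀ x,
      ∫ h, Th C.K h g x * f h ∂mD = ∫ y, f (C.pr x y) * g y ∂mX

theorem supp_dirac {Y : Type} [TopologicalSpace Y] [T2Space Y] [MeasurableSpace Y] [BorelSpace Y]
    (a : Y) : (Measure.dirac a).support = {a} := by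
  ext y
  rw [Measure.mem_support_iff_forall, mem_singleton_iff]
  constructor
  · intro h
    by_contra hne
    have := h {a}ᶜ (isOpen_compl_singleton.mem_nhds hne)
    simp at this
  · rintro rfl U hU
    rw [Measure.dirac_apply_of_mem (mem_of_mem_nhds hU)]
    exact one_pos

theorem eq_dirac {Y : Type} [TopologicalSpace Y] [T2Space Y] [SecondCountableTopology Y]
    [MeasurableSpace Y] [BorelSpace Y] (m : Measure Y) [IsProbabilityMeasure m] (a : Y)
    (h : m.support = {a}) : m = Measure.dirac a := by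
  have h0 : m {a}ᶜ = 0 := h ▸ Measure.measure_compl_support
  ext A hA
  by_cases ha : a ∈ A
  · rw [Measure.dirac_apply_of_mem ha, ← prob_compl_eq_zero_iff hA]
    exact measure_mono_null (by simpa using ha) h0
  · rw [Measure.dirac_apply' _ hA, indicator_of_notMem ha]
    exact measure_mono_null (by simpa using ha) h0

section group
variable (G : Type) [Group G] [TopologicalSpace G] [IsTopologicalGroup G] [T2Space G]
  [LocallyCompactSpace G] [SecondCountableTopology G] [MeasurableSpace G] [BorelSpace G]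

theorem setCont_mul : SetCont fun p : G × G => (Measure.dirac (p.1 * p.2)).support := by
  simp only [supp_dirac]
  letI := TopologicalSpace.vietoris G
  exact TopologicalSpace.vietoris.continuous_singleton.comp continuous_mul

noncomputable def grpH : Hypergroup G where
  conv x y := Measure.dirac (x * y)
  e := 1
  bar := Inv.inv
  prob _ _ := inferInstance
  weak f := by simp only [integral_dirac]; exact f.continuous.comp continuous_mul
  assoc x y z A _ := by simp only [lintegral_dirac, mul_assoc]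
  cpt x y := by rw [supp_dirac]; exact isCompact_singleton
  suppCont := setCont_mul G
  e_right x := by simp
  e_left x := by simp
  bar_cont := continuous_inv
  bar_bar := inv_inv
  e_mem x y := by rw [supp_dirac, mem_singleton_iff, eq_comm, mul_eq_one_iff_inv_eq, eq_comm]
  anti x y := by rw [Measure.map_dirac' measurable_inv, mul_inv_rev]

noncomputable def grpCAS : CAS G G where
  K x h := Measure.dirac (x * h)
  prob _ _ := inferInstance
  weak f := by simp only [integral_dirac]; exact f.continuous.comp continuous_mul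
  cpt x y := by rw [supp_dirac]; exact isCompact_singleton
  suppCont := setCont_mul G
  pr x y := x⁻¹ * y
  part x y h := by rw [supp_dirac, mem_singleton_iff, inv_mul_eq_iff_eq_mul]
  pr_cont := by fun_prop
  H := grpH G
  comp h1 h2 x A _ := by simp only [grpH, lintegral_dirac, mul_assoc]
  unit x := by simp [grpH]
  adj := by
    refine ⟨(Measure.haarMeasure (Classical.arbitrary _)).inv, inferInstance,
      Measure.support_eq_univ, fun h f g _ _ => ?_⟩
    simp only [Th, grpH, integral_dirac]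
    rw [← integral_mul_right_eq_self (fun x => f (x * h⁻¹) * g x) h]
    simp

theorem grpCAS_T1 : (grpCAS G).T1 := by
  intro f _ h x y
  simp [grpCAS, grpH, Th, mul_assoc]

theorem isCc_ind {W : Set G} (h1 : IsClopen W) (h2 : IsCompact W) :
    IsCc (W.indicator (1 : G → ℝ)) :=
  ⟨h1.continuous_indicator continuous_const,
    HasCompactSupport.intro h2 fun _ hx => indicator_of_notMem hx _⟩

variable {G}

theorem unimod (C : CAS G G) (hp : C.pr = fun x y => x⁻¹ * y) (hT : C.T2) :
    ∃ m : Measure G, m.Regular ∧ m.support = univ ∧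
      (∀ W : Set G, IsClopen W → IsCompact W → ∀ h, m.real ((· * h⁻¹) ⁻¹' W) = m.real W) ∧
      (∀ W : Set G, IsClopen W → IsCompact W → ∀ h, m.real ((h * ·) ⁻¹' W) = m.real W) := by
  have hK : ∀ x h, C.K x h = Measure.dirac (x * h) := by
    intro x h
    have := C.prob x h
    apply eq_dirac
    ext y
    rw [C.part, hp, mem_singleton_iff, inv_mul_eq_iff_eq_mul]
  have hc : ∀ a b, C.H.conv a b = Measure.dirac (a * b) := by
    intro a b
    ext A hA
    have := C.comp a b 1 A hA
    simp only [hK, lintegral_dirac, one_mul] at this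
    rw [this]
    simp only [Measure.dirac_apply' _ hA]
    exact (lintegral_indicator_one hA).symm
  have he : C.H.e = 1 := by
    have := (C.part 1 1 C.H.e).1 (by rw [C.unit, supp_dirac]; rfl)
    rw [hp] at this
    simpa using this.symm
  have hb : ∀ x, C.H.bar x = x⁻¹ := by
    intro x
    exact ((C.H.e_mem x x⁻¹).1 (by rw [hc, supp_dirac, he]; simp)).symm
  obtain ⟨mX, mD, ⟨hr, hs, hadj⟩, ⟨-, -, hl⟩, hT⟩ := hT
  have hsq : ∀ (W : Set G) y, W.indicator (1 : G → ℝ) y * W.indicator 1 y = W.indicator 1 y := by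
    intro W y
    by_cases hy : y ∈ W <;> simp [hy]
  have hEq : ∀ W : Set G, IsClopen W → IsCompact W → mD.real W = mX.real W := by
    intro W h1 h2
    have := hT _ _ (isCc_ind G h1 h2) (isCc_ind G h1 h2) 1
    simp only [Th, hK, integral_dirac, hp, inv_one, one_mul, hsq] at this
    rwa [integral_indicator_one h1.isOpen.measurableSet,
      integral_indicator_one h1.isOpen.measurableSet] at this
  refine ⟨mX, hr, hs, fun W h1 h2 h => ?_, fun W h1 h2 h => ?_⟩
  · have c1 : IsClopen ((· * h⁻¹) ⁻¹' W) := h1.preimage (by fun_prop)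
    have c2 : IsCompact ((· * h⁻¹) ⁻¹' W) := (Homeomorph.mulRight h⁻¹).isCompact_preimage.2 h2
    have := hadj h _ _ (isCc_ind G h1 h2) (isCc_ind G c1 c2)
    simp only [Th, hK, integral_dirac, hb] at this
    have e1 : ∀ x, W.indicator (1 : G → ℝ) (x * h⁻¹) * ((· * h⁻¹) ⁻¹' W).indicator 1 x =
        ((· * h⁻¹) ⁻¹' W).indicator 1 x := by
      intro x
      by_cases hx : x * h⁻¹ ∈ W <;> simp [hx, Set.indicator]
    have e2 : ∀ x, W.indicator (1 : G → ℝ) x * ((· * h⁻¹) ⁻¹' W).indicator 1 (x * h) =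
        W.indicator 1 x := by
      intro x
      by_cases hx : x ∈ W <;> simp [hx, Set.indicator]
    simp only [e1, e2] at this
    rwa [integral_indicator_one c1.isOpen.measurableSet,
      integral_indicator_one h1.isOpen.measurableSet] at this
  · have c1 : IsClopen ((h * ·) ⁻¹' W) := h1.preimage (by fun_prop)
    have c2 : IsCompact ((h * ·) ⁻¹' W) := (Homeomorph.mulLeft h).isCompact_preimage.2 h2
    rw [← hEq _ c1 c2, ← hEq _ h1 h2]
    have := hl _ (isCc_ind G h1 h2) h
    simp only [hc, integral_dirac] at this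
    have e1 : ∀ y, W.indicator (1 : G → ℝ) (h * y) = ((h * ·) ⁻¹' W).indicator 1 y := by
      intro y
      by_cases hx : h * y ∈ W <;> simp [hx, Set.indicator]
    simp only [e1] at this
    rwa [integral_indicator_one c1.isOpen.measurableSet,
      integral_indicator_one h1.isOpen.measurableSet] at this

end group

/-- the 2-adic `ax+b` group -/
def AB : Type := ℚ_[2] × ℤ

noncomputable instance : TopologicalSpace AB := inferInstanceAs (TopologicalSpace (ℚ_[2] × ℤ))
instance : T2Space AB := inferInstanceAs (T2Space (ℚ_[2] × ℤ))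
instance : LocallyCompactSpace AB := inferInstanceAs (LocallyCompactSpace (ℚ_[2] × ℤ))
instance : SecondCountableTopology AB := inferInstanceAs (SecondCountableTopology (ℚ_[2] × ℤ))
noncomputable instance : MeasurableSpace AB := borel AB
instance : BorelSpace AB := ⟨rfl⟩

def mkA (a : ℚ_[2]) (m : ℤ) : AB := (a, m)
def ca (g : AB) : ℚ_[2] := Prod.fst g
def cm (g : AB) : ℤ := Prod.snd g
theorem AB.ext' {g h : AB} (h1 : ca g = ca h) (h2 : cm g = cm h) : g = h := Prod.ext h1 h2
@[simp] theorem ca_mk (a : ℚ_[2]) (m : ℤ) : ca (mkA a m) = a := rfl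
@[simp] theorem cm_mk (a : ℚ_[2]) (m : ℤ) : cm (mkA a m) = m := rfl

noncomputable instance : Mul AB := ⟨fun g h => mkA (ca g + 2 ^ cm g * ca h) (cm g + cm h)⟩
noncomputable instance : One AB := ⟨mkA 0 0⟩
noncomputable instance : Inv AB := ⟨fun g => mkA (-(2 ^ (-cm g) * ca g)) (-cm g)⟩

@[simp] theorem ca_mul (g h : AB) : ca (g * h) = ca g + 2 ^ cm g * ca h := rfl
@[simp] theorem cm_mul (g h : AB) : cm (g * h) = cm g + cm h := rfl
@[simp] theorem ca_inv (g : AB) : ca g⁻¹ = -(2 ^ (-cm g) * ca g) := rfl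
@[simp] theorem cm_inv (g : AB) : cm g⁻¹ = -cm g := rfl
@[simp] theorem ca_one : ca 1 = 0 := rfl
@[simp] theorem cm_one : cm 1 = 0 := rfl

noncomputable instance : Group AB := Group.ofLeftAxioms
  (fun a b c => by
    apply AB.ext'
    · simp only [ca_mul, cm_mul, zpow_add₀ (two_ne_zero (α := ℚ_[2]))]; ring
    · simp only [cm_mul, add_assoc])
  (fun a => by apply AB.ext' <;> simp)
  (fun a => by apply AB.ext' <;> simp)

theorem cont_ca : Continuous ca := continuous_fst
theorem cont_cm : Continuous cm := continuous_snd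
theorem cont_pw : Continuous fun m : ℤ => (2 : ℚ_[2]) ^ m := continuous_of_discreteTopology

instance : IsTopologicalGroup AB where
  continuous_mul := Continuous.prodMk ((cont_ca.comp continuous_fst).add
      ((cont_pw.comp (cont_cm.comp continuous_fst)).mul (cont_ca.comp continuous_snd)))
    ((cont_cm.comp continuous_fst).add (cont_cm.comp continuous_snd))
  continuous_inv := Continuous.prodMk ((cont_pw.comp cont_cm.neg).mul cont_ca).neg cont_cm.neg

def Bx (c : ℚ_[2]) (r : ℝ) (m : ℤ) : Set AB := {g | ‖ca g - c‖ ≤ r ∧ cm g = m}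

theorem Bx_eq (c : ℚ_[2]) (r : ℝ) (m : ℤ) :
    Bx c r m = (Metric.closedBall c r ×ˢ {m} : Set (ℚ_[2] × ℤ)) := by
  ext ⟨a, n⟩
  simp only [Bx, mem_prod, mem_closedBall_iff_norm, mem_singleton_iff]
  rfl

theorem Bx_clopen (c : ℚ_[2]) {r : ℝ} (hr : r ≠ 0) (m : ℤ) : IsClopen (Bx c r m) := by
  rw [Bx_eq]
  exact (IsUltrametricDist.isClopen_closedBall c hr).prod (isClopen_discrete _)

theorem Bx_cpt (c : ℚ_[2]) (r : ℝ) (m : ℤ) : IsCompact (Bx c r m) := by
  rw [Bx_eq]
  exact (isCompact_closedBall c r).prod isCompact_singleton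

theorem norm_two : ‖(2 : ℚ_[2])‖ = 1 / 2 := by
  have := Padic.norm_p (p := 2)
  simpa using this

theorem AB_not_T2 (C : CAS AB AB) (hp : C.pr = fun x y => x⁻¹ * y) : ¬ C.T2 := by
  intro hT
  obtain ⟨m, hr, hs, hR, hL⟩ := unimod C hp hT
  have h2 : (1 / 2 : ℝ) ≠ 0 := by norm_num
  have a1 := hR _ (Bx_clopen 0 h2 0) (Bx_cpt 0 (1 / 2) 0) (mkA 0 1)
  have a2 := hL _ (Bx_clopen 0 one_ne_zero 0) (Bx_cpt 0 1 0) (mkA 0 (-1))
  have a3 := hL _ (Bx_clopen 0 h2 0) (Bx_cpt 0 (1 / 2) 0) (mkA (-1) 0)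
  have e1 : (· * (mkA 0 1)⁻¹) ⁻¹' Bx 0 (1 / 2) 0 = (mkA 0 (-1) * ·) ⁻¹' Bx 0 1 0 := by
    ext g
    simp only [Bx, mem_preimage, mem_ofPred_eq, ca_mul, cm_mul, ca_inv, cm_inv, ca_mk, cm_mk,
      mul_zero, neg_zero, add_zero, sub_zero, zero_add, norm_mul, zpow_neg, zpow_one, norm_inv,
      norm_two]
    constructor
    · rintro ⟨h1, h3⟩; exact ⟨by linarith, by omega⟩
    · rintro ⟨h1, h3⟩; exact ⟨by linarith, by omega⟩
  have e2 : (mkA (-1) 0 * ·) ⁻¹' Bx 0 (1 / 2) 0 = Bx 1 (1 / 2) 0 := by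
    ext g
    simp [Bx, neg_add_eq_sub]
  rw [e1, a2] at a1
  rw [e2] at a3
  have hfin : ∀ c r n, m (Bx c r n) ≠ ⊤ := fun c r n => (Bx_cpt c r n).measure_lt_top.ne
  have hd : Disjoint (Bx 0 (1 / 2) 0) (Bx 1 (1 / 2) 0) := by
    rw [Set.disjoint_left]
    rintro g ⟨h1, -⟩ ⟨h3, -⟩
    have := IsUltrametricDist.norm_add_le_max (ca g - 0) (-(ca g - 1))
    rw [norm_neg] at this
    have e : ca g - 0 + -(ca g - 1) = 1 := by ring
    rw [e, norm_one] at this
    have := this.trans (max_le h1 h3)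
    norm_num at this
  have hsub : Bx 0 (1 / 2) 0 ∪ Bx 1 (1 / 2) 0 ⊆ Bx 0 1 0 := by
    rintro g (⟨h1, h3⟩ | ⟨h1, h3⟩)
    · exact ⟨by linarith, h3⟩
    · refine ⟨?_, h3⟩
      have := IsUltrametricDist.norm_add_le_max (ca g - 1) 1
      rw [norm_one, sub_add_cancel] at this
      rw [sub_zero]
      exact this.trans (max_le (by linarith) le_rfl)
  have b1 := measureReal_mono hsub (hfin _ _ _)
  rw [measureReal_union hd (Bx_clopen 1 h2 0).isOpen.measurableSet (hfin _ _ _) (hfin _ _ _)] at b1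
  have b2 : 0 < m (Bx 0 (1 / 2) 0) :=
    (Measure.mem_support_iff_forall (1 : AB)).1 (hs ▸ mem_univ _) _
      ((Bx_clopen 0 h2 0).isOpen.mem_nhds ⟨by simp, rfl⟩)
  have b3 : 0 < m.real (Bx 0 (1 / 2) 0) := ENNReal.toReal_pos b2.ne' (hfin _ _ _)
  linarith

end H63.Cas
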