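import Pool.Agent.H63.Cas1

open MeasureTheory Set Topology BoundedContinuousFunction

namespace H63.Cas

theorem cpt_union {P Y : Type} [TopologicalSpace P] [TopologicalSpace Y] [LocallyCompactSpace Y]
    {F : P → Set Y} (hF : SetCont F) (hc : ∀ p, IsCompact (F p)) {Z : Set P} (hZ : IsCompact Z) :
    ∃ W, IsCompact W ∧ ∀ p ∈ Z, F p ⊆ W := by
  letI := TopologicalSpace.vietoris Y
  refine hZ.induction_on (p := fun s => ∃ W, IsCompact W ∧ ∀ p ∈ s, F p ⊆ W)
    ⟨∅, isCompact_empty, by simp⟩ ?_ ?_ ?_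
  · rintro s t hst ⟨W, h1, h2⟩
    exact ⟨W, h1, fun p hp => h2 p (hst hp)⟩
  · rintro s t ⟨W, h1, h2⟩ ⟨W', h3, h4⟩
    refine ⟨W ∪ W', h1.union h3, ?_⟩
    rintro p (hp | hp)
    · exact (h2 p hp).trans subset_union_left
    · exact (h4 p hp).trans subset_union_right
  · intro p _
    obtain ⟨W, h1, h2⟩ := exists_compact_superset (hc p)
    have ho : IsOpen (F ⁻¹' (interior W).powerset) :=
      (isOpen_interior.powerset_vietoris).preimage hF
    exact ⟨_, mem_nhdsWithin_of_mem_nhds (ho.mem_nhds h2), W, h1,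
      fun q hq => subset_trans hq interior_subset⟩

theorem IsCc.mul_cont {Y : Type} [TopologicalSpace Y] {f g : Y → ℝ} (hf : IsCc f)
    (hg : Continuous g) : IsCc fun y => f y * g y := ⟨hf.1.mul hg, hf.2.mul_right⟩

theorem IsCc.cont_mul {Y : Type} [TopologicalSpace Y] {f g : Y → ℝ} (hf : IsCc f)
    (hg : Continuous g) : IsCc fun y => g y * f y := ⟨hg.mul hf.1, hf.2.mul_left⟩

theorem IsCc.integrable {Y : Type} [TopologicalSpace Y] [MeasurableSpace Y] [BorelSpace Y]
    {f : Y → ℝ} (hf : IsCc f) (m : Measure Y) [IsFiniteMeasureOnCompacts m] : Integrable f m :=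
  hf.1.integrable_of_hasCompactSupport hf.2

theorem bump {Y : Type} [TopologicalSpace Y] [T2Space Y] [LocallyCompactSpace Y] {s U : Set Y}
    (hs : IsCompact s) (hU : IsOpen U) (h : s ⊆ U) :
    ∃ f : Y → ℝ, IsCc f ∧ (∀ y ∈ s, f y = 1) ∧ (∀ y, y ∉ U → f y = 0) ∧ ∀ y, 0 ≤ f y := by
  obtain ⟨f, h1, h2, h3, h4⟩ := exists_continuous_one_zero_of_isCompact hs hU.isClosed_compl
    (disjoint_compl_right_iff_subset.2 h)
  exact ⟨f, ⟨f.continuous, h3⟩, fun y hy => h1 hy, fun y hy => h2 hy, fun y => (h4 y).1⟩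

variable {X D : Type} [TopologicalSpace X] [T2Space X] [LocallyCompactSpace X]
  [SecondCountableTopology X] [MeasurableSpace X] [BorelSpace X]
  [TopologicalSpace D] [T2Space D] [LocallyCompactSpace D]
  [SecondCountableTopology D] [MeasurableSpace D] [BorelSpace D]

theorem swap_int (w : Measure X) (m : Measure D) [IsFiniteMeasureOnCompacts w]
    [IsFiniteMeasureOnCompacts m] {a : X → ℝ} {b : D → ℝ} (ha : IsCc a) (hb : IsCc b)
    {F : X → D → ℝ} (hF : Continuous fun p : X × D => F p.1 p.2) :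
    ∫ y, a y * (∫ h, F y h * b h ∂m) ∂w = ∫ h, b h * (∫ y, a y * F y h ∂w) ∂m := by
  simp only [← integral_const_mul]
  have h1 : Continuous (Function.uncurry fun y h => a y * (F y h * b h)) :=
    (ha.1.comp continuous_fst).mul (hF.mul (hb.1.comp continuous_snd))
  have h2 : HasCompactSupport (Function.uncurry fun y h => a y * (F y h * b h)) := by
    refine HasCompactSupport.intro (ha.2.isCompact.prod hb.2.isCompact) ?_
    rintro ⟨y, h⟩ hp
    simp only [mem_prod, not_and_or] at hp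
    rcases hp with hp | hp
    · simp [image_eq_zero_of_notMem_tsupport hp]
    · simp [image_eq_zero_of_notMem_tsupport hp]
  rw [integral_integral_swap_of_hasCompactSupport h1 h2]
  congr 1; ext h; congr 1; ext y; ring

theorem param_cont {P Y : Type} [TopologicalSpace P] [LocallyCompactSpace P]
    [SecondCountableTopology P] [TopologicalSpace Y] [T2Space Y] [LocallyCompactSpace Y]
    [SecondCountableTopology Y] [MeasurableSpace Y] [BorelSpace Y] (m : Measure Y)
    [IsFiniteMeasureOnCompacts m] {b : Y → ℝ} (hb : IsCc b) {F : P → Y → ℝ}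
    (hF : Continuous fun p : P × Y => F p.1 p.2) : Continuous fun p => ∫ y, F p y * b y ∂m := by
  have h1 : Continuous (Function.uncurry fun p y => F p y * b y) :=
    hF.mul (hb.1.comp continuous_snd)
  have := continuous_parametric_integral_of_continuous (μ := m) h1 hb.2.isCompact
  convert this using 2 with p
  refine (setIntegral_eq_integral_of_forall_compl_eq_zero fun y hy => ?_).symm
  simp [image_eq_zero_of_notMem_tsupport hy]

namespace CAS
variable (C : CAS X D)

theorem mem_pr (x y : X) : y ∈ (C.K x (C.pr x y)).support := (C.part x y _).2 rfl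

theorem pr_self (x : X) : C.pr x x = C.H.e :=
  (C.part x x _).1 (by rw [C.unit, supp_dirac]; rfl)

theorem bar_e : C.H.bar C.H.e = C.H.e :=
  ((C.H.e_mem C.H.e C.H.e).1 (by rw [C.H.e_left, supp_dirac]; rfl)).symm

theorem pr_cont1 (x : X) : Continuous (C.pr x) := C.pr_cont.comp (Continuous.prodMk_right x)

theorem pre_cpt (x : X) {L : Set D} (hL : IsCompact L) :
    ∃ W, IsCompact W ∧ C.pr x ⁻¹' L ⊆ W := by
  obtain ⟨W, h1, h2⟩ := cpt_union C.suppCont (fun p => C.cpt p.1 p.2)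
    ((isCompact_singleton (x := x)).prod hL)
  exact ⟨W, h1, fun z hz => h2 (x, C.pr x z) ⟨rfl, hz⟩ (C.mem_pr x z)⟩

theorem isCc_pr {f : D → ℝ} (hf : IsCc f) (x : X) : IsCc fun z => f (C.pr x z) := by
  obtain ⟨W, h1, h2⟩ := C.pre_cpt x hf.2.isCompact
  refine ⟨hf.1.comp (C.pr_cont1 x), HasCompactSupport.intro h1 fun z hz => ?_⟩
  exact image_eq_zero_of_notMem_tsupport fun h => hz (h2 h)

theorem Th_cont {g : X → ℝ} (hg : IsCc g) : Continuous fun p : X × D => Th C.K p.2 g p.1 :=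
  C.weak (ofCompactSupport g hg.1 hg.2)

theorem cv_cont {g : D → ℝ} (hg : IsCc g) :
    Continuous fun p : D × D => ∫ z, g z ∂(C.H.conv p.1 p.2) :=
  C.H.weak (ofCompactSupport g hg.1 hg.2)

theorem Th_const {g : X → ℝ} {x : X} {h : D} {c : ℝ} (hg : ∀ y ∈ (C.K x h).support, g y = c) :
    Th C.K h g x = c := by
  have := C.prob x h
  have h1 : g =ᵐ[C.K x h] fun _ => c := by
    filter_upwards [Measure.support_mem_ae (μ := C.K x h)] with y hy using hg y hy
  rw [Th, integral_congr_ae h1]; simp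

theorem pr_swap (h1 : C.T1) (x y : X) : C.pr y x = C.H.bar (C.pr x y) := by
  rw [← C.H.e_mem, Measure.mem_support_iff_forall]
  intro U hU
  by_contra h0
  have h0 : C.H.conv (C.pr x y) (C.pr y x) U = 0 := by simpa using h0
  obtain ⟨f, hf, f1, f0, fn⟩ := bump (isCompact_singleton (x := C.H.e)) isOpen_interior
    (singleton_subset_iff.2 (mem_interior_iff_mem_nhds.2 hU))
  have a1 : ∫ z, f z ∂(C.H.conv (C.pr x y) (C.pr y x)) = 0 := by
    apply integral_eq_zero_of_ae
    filter_upwards [measure_eq_zero_iff_ae_notMem.1 h0] with z hz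
    exact f0 z fun h => hz (interior_subset h)
  rw [h1 f hf, Th] at a1
  have := C.prob y (C.pr y x)
  have hc := C.isCc_pr hf x
  rw [integral_eq_zero_iff_of_nonneg (fun z => fn _) (hc.integrable _)] at a1
  have ho : IsOpen {z | f (C.pr x z) ≠ 0} := isOpen_ne_fun hc.1 continuous_const
  have := (Measure.mem_support_iff_forall x).1 (C.mem_pr y x) _
    (ho.mem_nhds (by simp [C.pr_self, f1]))
  exact this.ne' a1

variable {C}
variable {w : Measure X}

theorem inv_int (h1 : C.T1) (hw : IsAdj C.K C.H.bar w) {F : X → ℝ} (hF : IsCc F) (h : D) :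
    ∫ y, Th C.K h F y ∂w = ∫ y, F y ∂w := by
  obtain ⟨W, W1, W2⟩ := cpt_union C.suppCont (fun p => C.cpt p.1 p.2)
    (hF.2.isCompact.prod (isCompact_singleton (x := C.H.bar h)))
  obtain ⟨f, hf, f1, -, -⟩ := bump W1 isOpen_univ (subset_univ _)
  have := hw.2.2 h f F hf hF
  have e1 : ∀ x, Th C.K (C.H.bar h) f x * F x = F x := by
    intro x
    by_cases hx : x ∈ tsupport F
    · rw [C.Th_const (c := 1) fun y hy => f1 y (W2 (x, _) ⟨hx, rfl⟩ hy), one_mul]
    · simp [image_eq_zero_of_notMem_tsupport hx]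
  have e2 : ∀ x, f x * Th C.K h F x = Th C.K h F x := by
    intro x
    by_cases hx : x ∈ W
    · rw [f1 x hx, one_mul]
    · rw [C.Th_const (c := 0), mul_zero]
      intro y hy
      apply image_eq_zero_of_notMem_tsupport
      intro hy'
      apply hx
      apply W2 (y, C.H.bar h) ⟨hy', rfl⟩
      rw [C.part, C.pr_swap h1, (C.part _ _ _).1 hy]
  simp only [e1, e2] at this
  exact this.symm

theorem fin_map (hw : IsAdj C.K C.H.bar w) (x : X) :
    IsFiniteMeasureOnCompacts (w.map (C.pr x)) := by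
  have := hw.1
  refine ⟨fun L hL => ?_⟩
  rw [Measure.map_apply (C.pr_cont1 x).measurable hL.measurableSet]
  obtain ⟨W, h1, h2⟩ := C.pre_cpt x hL
  exact (measure_mono h2).trans_lt h1.measure_lt_top

theorem int_map (x : X) {f : D → ℝ} (hf : Continuous f) :
    ∫ h, f h ∂(w.map (C.pr x)) = ∫ y, f (C.pr x y) ∂w :=
  integral_map (C.pr_cont1 x).measurable.aemeasurable hf.aestronglyMeasurable

theorem adj_D (h1 : C.T1) (hw : IsAdj C.K C.H.bar w) (x : X) {φ ψ : D → ℝ} (hφ : IsCc φ)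
    (hψ : IsCc ψ) (l : D) :
    ∫ h, (∫ z, φ z ∂(C.H.conv h (C.H.bar l))) * ψ h ∂(w.map (C.pr x)) =
      ∫ h, φ h * (∫ z, ψ z ∂(C.H.conv h l)) ∂(w.map (C.pr x)) := by
  have c1 : Continuous fun h => ∫ z, φ z ∂(C.H.conv h (C.H.bar l)) :=
    (C.cv_cont hφ).comp (Continuous.prodMk_left (C.H.bar l))
  have c2 : Continuous fun h => ∫ z, ψ z ∂(C.H.conv h l) :=
    (C.cv_cont hψ).comp (Continuous.prodMk_left l)
  rw [int_map x (hψ.cont_mul c1).1, int_map x (hφ.mul_cont c2).1]
  simp only [h1 φ hφ, h1 ψ hψ]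
  exact hw.2.2 l _ _ (C.isCc_pr hφ x) (C.isCc_pr hψ x)

theorem cmp (hw : IsAdj C.K C.H.bar w) (x : X) {S : X → ℝ} {R : D → ℝ} (hS : Continuous S)
    (hR : Continuous R) (h : ∀ φ : D → ℝ, IsCc φ → (∀ z, φ (C.H.bar z) = φ z) →
      ∫ y, φ (C.pr x y) * S y ∂w = ∫ h, φ h * R h ∂(w.map (C.pr x))) : S x ≤ R C.H.e := by
  by_contra hlt
  push Not at hlt
  obtain ⟨c1, a1, a2⟩ := exists_between hlt
  obtain ⟨c2, a3, a4⟩ := exists_between a2
  have := hw.1
  have := fin_map hw x
  have hop : w.IsOpenPosMeasure := ⟨fun U hU ⟨y, hy⟩ =>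
    ((Measure.mem_support_iff_forall y).1 (hw.2.1 ▸ mem_univ _) _ (hU.mem_nhds hy)).ne'⟩
  letI := TopologicalSpace.vietoris X
  have o1 : IsOpen {h | R h < c1} := isOpen_lt hR continuous_const
  have o2 : IsOpen ((fun h => (C.K x h).support) ⁻¹' {y | c2 < S y}.powerset) :=
    ((isOpen_lt continuous_const hS).powerset_vietoris).preimage
      (Continuous.comp C.suppCont (Continuous.prodMk_right x))
  obtain ⟨f, hf, f1, f0, fn⟩ := bump (isCompact_singleton (x := C.H.e)) (o1.inter o2) (by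
    rw [singleton_subset_iff]
    refine ⟨a1, ?_⟩
    simp only [mem_preimage, C.unit, supp_dirac, mem_powerset_iff, singleton_subset_iff]
    exact a4)
  set φ : D → ℝ := fun z => f z * f (C.H.bar z) with hφd
  have hφ : IsCc φ := hf.mul_cont (hf.1.comp C.H.bar_cont)
  have φn : ∀ z, 0 ≤ φ z := fun z => mul_nonneg (fn _) (fn _)
  have φ0 : ∀ z, φ z ≠ 0 → R z < c1 ∧ (C.K x z).support ⊆ {y | c2 < S y} := by
    intro z hz
    by_contra hc
    exact hz (by simp only [hφd]; rw [f0 z hc, zero_mul])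
  have h2 := h φ hφ (fun z => by simp only [hφd, C.H.bar_bar, mul_comm])
  have hc := C.isCc_pr hφ x
  have A0 : 0 < ∫ y, φ (C.pr x y) ∂w :=
    hc.1.integral_pos_of_hasCompactSupport_nonneg_nonzero (x := x) hc.2 (fun z => φn _)
      (by simp [hφd, C.pr_self, C.bar_e, f1])
  have b1 : ∫ y, φ (C.pr x y) * c2 ∂w ≤ ∫ y, φ (C.pr x y) * S y ∂w := by
    refine integral_mono ((hc.mul_cont continuous_const).integrable _)
      ((hc.mul_cont hS).integrable _) fun y => ?_
    by_cases hy : φ (C.pr x y) = 0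
    · simp [hy]
    · exact mul_le_mul_of_nonneg_left (le_of_lt ((φ0 _ hy).2 (C.mem_pr x y))) (φn _)
  have b2 : ∫ h, φ h * R h ∂(w.map (C.pr x)) ≤ ∫ h, φ h * c1 ∂(w.map (C.pr x)) := by
    refine integral_mono ((hφ.mul_cont hR).integrable _)
      ((hφ.mul_cont continuous_const).integrable _) fun y => ?_
    by_cases hy : φ y = 0
    · simp [hy]
    · exact mul_le_mul_of_nonneg_left (φ0 _ hy).1.le (φn _)
  rw [integral_mul_const] at b1 b2
  rw [int_map x hφ.1] at b2
  nlinarith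

theorem T2_at (hc : ∀ a b, C.H.conv a b = C.H.conv b a) (h1 : C.T1)
    (hw : IsAdj C.K C.H.bar w) (x : X) {ψ : D → ℝ} {g : X → ℝ} (hψ : IsCc ψ) (hg : IsCc g) :
    ∫ h, Th C.K h g x * ψ h ∂(w.map (C.pr x)) = ∫ y, ψ (C.pr x y) * g y ∂w := by
  have := hw.1
  have := fin_map hw x
  set m := w.map (C.pr x) with hm
  have hψx := C.isCc_pr hψ x
  set S : X → ℝ := fun y => ∫ h, Th C.K h g y * ψ h ∂m with hSd
  set R : D → ℝ := fun h => ∫ y, Th C.K h (fun z => ψ (C.pr x z)) y * g y ∂w with hRd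
  have hS : Continuous S := param_cont m hψ (F := fun y h => Th C.K h g y) (C.Th_cont hg)
  have hR : Continuous R := param_cont w hg
    (F := fun h y => Th C.K h (fun z => ψ (C.pr x z)) y) ((C.Th_cont hψx).comp continuous_swap)
  have key : ∀ φ : D → ℝ, IsCc φ → (∀ z, φ (C.H.bar z) = φ z) →
      ∫ y, φ (C.pr x y) * S y ∂w = ∫ h, φ h * R h ∂m := by
    intro φ hφ hs
    have hφx := C.isCc_pr hφ x
    have s1 := swap_int w m hφx hψ (F := fun y h => Th C.K h g y) (C.Th_cont hg)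
    have s2 := swap_int w m hg hψ (F := fun y h => Th C.K (C.H.bar h) (fun z => φ (C.pr x z)) y)
      ((C.Th_cont hφx).comp (continuous_fst.prodMk (C.H.bar_cont.comp continuous_snd)))
    have s3 := swap_int w m hg hφ (F := fun y h => Th C.K h (fun z => ψ (C.pr x z)) y)
      (C.Th_cont hψx)
    have t1 : ∀ h, ∫ y, φ (C.pr x y) * Th C.K h g y ∂w =
        ∫ y, g y * Th C.K (C.H.bar h) (fun z => φ (C.pr x z)) y ∂w := by
      intro h
      rw [← hw.2.2 h _ _ hφx hg]
      simp only [mul_comm]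
    have t2 : ∀ y, ∫ h, Th C.K (C.H.bar h) (fun z => φ (C.pr x z)) y * ψ h ∂m =
        ∫ h, Th C.K h (fun z => ψ (C.pr x z)) y * φ h ∂m := by
      intro y
      have u1 : ∀ h, Th C.K (C.H.bar h) (fun z => φ (C.pr x z)) y =
          ∫ z, φ z ∂(C.H.conv h (C.H.bar (C.pr x y))) := by
        intro h
        rw [← h1 φ hφ]
        have := C.H.anti h (C.H.bar (C.pr x y))
        rw [C.H.bar_bar] at this
        rw [← this, integral_map C.H.bar_cont.measurable.aemeasurable hφ.1.aestronglyMeasurable]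
        simp only [hs]
      simp only [u1]
      rw [hm, adj_D h1 hw x hφ hψ]
      congr 1; ext h
      rw [hc, h1 ψ hψ, mul_comm]
    simp only [hSd, hRd]
    rw [s1]
    simp only [t1]
    rw [← s2]
    simp only [t2]
    rw [s3]
    simp only [mul_comm]
  have r1 := cmp hw x hS hR key
  have r2 := cmp hw x hS.neg hR.neg (fun φ a b => by
    simp only [Pi.neg_apply, mul_neg, integral_neg, key φ a b, hm])
  have r3 : S x = R C.H.e := le_antisymm r1 (by simpa using r2)
  simpa [hSd, hRd, Th, C.unit] using r3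

theorem map_indep (hc : ∀ a b, C.H.conv a b = C.H.conv b a) (h1 : C.T1)
    (hw : IsAdj C.K C.H.bar w) (x x' : X) {φ : D → ℝ} (hφ : IsCc φ) :
    ∫ h, φ h ∂(w.map (C.pr x)) = ∫ h, φ h ∂(w.map (C.pr x')) := by
  obtain ⟨W, W1, W2⟩ := cpt_union C.H.suppCont (fun p => C.H.cpt p.1 p.2)
    (hφ.2.isCompact.prod (isCompact_singleton (x := C.pr x x')))
  obtain ⟨ψ, hψ, f1, -, -⟩ := bump W1 isOpen_univ (subset_univ _)
  have e1 : ∀ h, φ h * ∫ z, ψ z ∂(C.H.conv h (C.pr x x')) = φ h := by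
    intro h
    by_cases hh : h ∈ tsupport φ
    · have := C.H.prob h (C.pr x x')
      have h1 : ψ =ᵐ[C.H.conv h (C.pr x x')] fun _ => 1 := by
        filter_upwards [Measure.support_mem_ae (μ := C.H.conv h (C.pr x x'))] with y hy
          using f1 y (W2 (h, _) ⟨hh, rfl⟩ hy)
      rw [integral_congr_ae h1]; simp
    · simp [image_eq_zero_of_notMem_tsupport hh]
  have a1 := T2_at hc h1 hw x hψ (C.isCc_pr hφ x')
  have a2 := T2_at hc h1 hw x' hφ (C.isCc_pr hψ x)
  have a3 := adj_D h1 hw x hφ hψ (C.pr x x')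
  simp only [← h1 φ hφ, C.pr_swap h1 x x', hc (C.H.bar _)] at a1
  simp only [← h1 ψ hψ, hc (C.pr x x'), mul_comm (∫ z, ψ z ∂_), e1] at a2
  simp only [e1] at a3
  rw [← a3, a1, a2]
  simp only [mul_comm]

theorem T2_of_T1 [Nonempty X] (hc : ∀ a b, C.H.conv a b = C.H.conv b a) (h1 : C.T1) : C.T2 := by
  obtain ⟨w, hw⟩ := C.adj
  obtain ⟨x0⟩ := ‹Nonempty X›
  have := hw.1
  have := fin_map hw x0
  refine ⟨w, w.map (C.pr x0), hw, ⟨?_, ?_, fun f hf a => ?_⟩, fun f g hf hg x => ?_⟩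
  · letI := TopologicalSpace.metrizableSpaceMetric D
    infer_instance
  · rw [Ne, Measure.map_eq_zero_iff (C.pr_cont1 x0).measurable.aemeasurable]
    rintro rfl
    have := hw.2.1
    rw [Measure.support_zero] at this
    exact Set.empty_ne_univ this
  · have c1 : Continuous fun h => ∫ z, f z ∂(C.H.conv a h) :=
      (C.cv_cont hf).comp (Continuous.prodMk_right a)
    rw [int_map x0 c1, int_map x0 hf.1]
    simp only [hc a, h1 f hf]
    exact inv_int h1 hw (C.isCc_pr hf x0) a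
  · have c1 : Continuous fun h => Th C.K h g x :=
      (C.Th_cont hg).comp (Continuous.prodMk_right x)
    rw [map_indep hc h1 hw x0 x (hf.cont_mul c1)]
    exact T2_at hc h1 hw x hf hg

end CAS

end H63.Cas
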