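import Mathlib

set_option autoImplicit false
open MeasureTheory Set Filter Topology Finset

namespace Pool.Agent.H63.Cliff

section alg
variable {A : Type*} [Ring A] [Algebra ℝ A]

theorem anti_pow {a b : A} (h : a * b = -(b * a)) (n : ℕ) :
    a * b ^ n = (-1 : ℝ) ^ n • (b ^ n * a) := by
  induction n with
  | zero => simp
  | succ n ih =>
    rw [pow_succ, ← mul_assoc, ih, smul_mul_assoc, mul_assoc, h, pow_succ]
    simp [mul_assoc]

theorem w0 {X T η : A} {s : ℝ} (τ : A →ₗ[ℝ] ℝ) (h1 : X * X = s • 1)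
    (h2 : X * T = (2 : ℝ) • η - T * X) (h3 : η * η = 0) (h4 : η * X = X * η)
    (h5 : η * T = -(T * η)) (ho : ∀ Y, τ (X * Y) = -τ (Y * X)) (q : ℕ) :
    (2 * q + 2) * τ (η * (X * T) ^ (2 * q + 1)) = (-s) ^ q * s * τ (T ^ (2 * q + 2)) := by
  have e2 : ∀ n, η * T ^ (2 * n) = T ^ (2 * n) * η := fun n => by
    rw [anti_pow h5]; simp
  have a1 : η * (X * T) ^ 2 = (-s) • (η * T ^ 2) := by
    have : η * (X * T) ^ 2 = η * X * (T * X) * T := by noncomm_ring
    rw [this, show T * X = (2 : ℝ) • η - X * T by rw [h2]; abel, mul_sub, mul_smul_comm, h4,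
      mul_assoc X η η, h3, ← h4, mul_assoc η X, ← mul_assoc X X, h1]
    simp [sq, mul_assoc]
  have a2 : ∀ n, η * (X * T) ^ (2 * n) = (-s) ^ n • (η * T ^ (2 * n)) := by
    intro n
    induction n with
    | zero => simp
    | succ n ih =>
      rw [show 2 * (n + 1) = 2 + 2 * n by ring, pow_add, ← mul_assoc, a1, smul_mul_assoc, e2 1,
        mul_assoc, ih, mul_smul_comm, ← mul_assoc, ← e2 1, mul_assoc, ← pow_add, smul_smul,
        pow_succ' (-s)]
  have b : ∀ n : ℕ, X * T ^ (n + 1) =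
      (-1 : ℝ) ^ (n + 1) • (T ^ (n + 1) * X) + (2 * (n + 1) : ℝ) • (η * T ^ n) := by
    intro n
    induction n with
    | zero => simp [h2]; abel
    | succ n ih =>
      have := anti_pow h5 (n + 1)
      rw [pow_succ T (n + 1), ← mul_assoc, ih, add_mul, smul_mul_assoc, smul_mul_assoc, mul_assoc,
        h2, mul_assoc η, ← pow_succ, this, mul_sub, mul_smul_comm, ← mul_assoc]
      push_cast
      module
  have c1 : η * (X * T) ^ (2 * q + 1) = -((-s) ^ q • (η * T ^ (2 * q + 1) * X)) := by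
    rw [pow_succ, ← mul_assoc, a2, smul_mul_assoc, h2, mul_sub, mul_smul_comm, e2,
      mul_assoc _ η η, h3, ← e2, pow_succ T]
    simp [mul_assoc]
  have c2 := congrArg (fun Y => τ (Y * X)) (b (2 * q + 1))
  simp only [add_mul, smul_mul_assoc, map_add, map_smul, smul_eq_mul] at c2
  rw [mul_assoc X, ho, mul_assoc, h1, mul_smul_comm, mul_one, map_smul, smul_eq_mul,
    show 2 * q + 1 + 1 = 2 * q + 2 from rfl, Even.neg_one_pow ⟨q + 1, by ring⟩] at c2
  rw [c1, map_neg, map_smul, smul_eq_mul]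
  push_cast at c2
  linear_combination (-s) ^ q / 2 * c2

theorem div0 {J : Type*} [Fintype J] (Γ θ : J → A) (R : A) (τ : A →ₗ[ℝ] ℝ)
    (hθ : ∀ j k, θ j * θ k = -(θ k * θ j)) (hc : ∀ j k, Commute (θ j) (Γ k))
    (hR : ∀ j, Commute (θ j) R) (oΓ : ∀ k X, τ (Γ k * X) = -τ (X * Γ k))
    (oR : ∀ X, τ (R * X) = -τ (X * R)) (q : ℕ) :
    ∑ k, τ (θ k * ∑ i ∈ range (2 * q + 1), (R * ∑ j, Γ j * θ j) ^ ((2 * q + 1).pred - i) *
      (R * Γ k * R * ∑ j, Γ j * θ j) * (R * ∑ j, Γ j * θ j) ^ i) = 0 := by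
  set ω := R * ∑ j, Γ j * θ j with hω
  have a : ∀ k, θ k * ω = -(ω * θ k) := by
    intro k
    rw [hω, ← mul_assoc, (hR k).eq, mul_assoc, mul_assoc, mul_sum, sum_mul, ← mul_neg,
      ← sum_neg_distrib]
    congr 1
    refine sum_congr rfl fun j _ => ?_
    rw [← mul_assoc, (hc k j).eq, mul_assoc, hθ, mul_neg, mul_assoc]
  have s : ∑ k, θ k * (R * Γ k) = ω := by
    rw [hω, mul_sum]
    refine sum_congr rfl fun j _ => ?_
    rw [((hR j).mul_right (hc j j)).eq, mul_assoc]
  have key : ∀ (n : ℕ) (Y : A), ∑ k, τ (θ k * (ω ^ n * (R * Γ k) * Y)) =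
      (-1) ^ n * τ (ω ^ n * ω * Y) := by
    intro n Y
    conv_rhs => rw [← s, mul_sum, sum_mul, map_sum, mul_sum]
    refine sum_congr rfl fun k _ => ?_
    rw [← mul_assoc, ← mul_assoc, anti_pow (a k), smul_mul_assoc, smul_mul_assoc, map_smul, s]
    simp [mul_assoc]
  have z : τ (ω ^ (2 * q + 2)) = 0 := by
    have := key (2 * q + 1) 1
    rw [Odd.neg_one_pow ⟨q, rfl⟩, mul_one, ← pow_succ] at this
    have e : τ (ω ^ (2 * q + 2)) = ∑ k, τ (θ k * (ω ^ (2 * q + 1) * (R * Γ k) * 1)) := by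
      conv_lhs => rw [pow_succ', ← s, sum_mul, map_sum]
      refine sum_congr rfl fun k _ => ?_
      rw [s, ((hR k).mul_right (hc k k)).eq, mul_assoc, mul_assoc, oR, mul_assoc, oΓ]
      simp [mul_assoc]
    linarith
  simp only [mul_sum (range _), map_sum]
  rw [sum_comm]
  refine sum_eq_zero fun i hi => ?_
  have := key ((2 * q + 1).pred - i) (ω * ω ^ i)
  rw [← pow_succ, ← pow_succ', ← pow_add, show (2 * q + 1).pred - i + 1 + (i + 1) = 2 * q + 2 by
    have := Finset.mem_range.1 hi; simp only [Nat.pred_eq_sub_one]; omega, z, mul_zero] at this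
  rw [← this]
  refine sum_congr rfl fun k _ => ?_
  simp only [pow_succ', hω, mul_assoc]

end alg

noncomputable def chi (s : ℝ) : ℝ := max 0 ((s - 1) * (2 - s))

noncomputable def psi (s : ℝ) : ℝ := ∫ t in (2 : ℝ)..s, chi t

theorem chi_cont : Continuous chi := by unfold chi; fun_prop

theorem psi_deriv (s : ℝ) : HasDerivAt psi (chi s) s :=
  (chi_cont.integral_hasStrictDerivAt 2 s).hasDerivAt

theorem chi_zero {s : ℝ} (h : 2 ≤ s) : chi s = 0 := max_eq_left (by nlinarith)

theorem psi_zero {s : ℝ} (h : 2 ≤ s) : psi s = 0 := by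
  rw [psi, intervalIntegral.integral_congr (g := fun _ => 0) fun t ht => chi_zero (by
    rw [uIcc_of_le h] at ht; exact ht.1)]
  simp

theorem stokes {J : Type*} [Fintype J] [DecidableEq J] (V V' : J → (J → ℝ) → ℝ)
    (c : ∀ k, Continuous (V k)) (c' : ∀ k, Continuous (V' k))
    (d : ∀ k x, HasLineDerivAt ℝ (V k) (V' k x) x (Pi.single k 1)) (h0 : ∀ x, ∑ k, V' k x = 0) :
    ∫ x : J → ℝ, (∑ k, x k * V k x) * chi (∑ j, x j ^ 2) = 0 := by
  have supp : ∀ g : ℝ → ℝ, Continuous g → (∀ s, 2 ≤ s → g s = 0) → ∀ f : (J → ℝ) → ℝ,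
      Continuous f → Integrable fun x => f x * g (∑ j, x j ^ 2) := by
    intro g hg g0 f hf
    refine Continuous.integrable_of_hasCompactSupport (by fun_prop)
      (HasCompactSupport.intro (isCompact_closedBall 0 2) fun x hx => ?_)
    rw [mem_closedBall_zero_iff, pi_norm_le_iff_of_nonneg (by norm_num)] at hx
    push Not at hx
    obtain ⟨j, hj⟩ := hx
    have := single_le_sum (f := fun j => x j ^ 2) (fun j _ => sq_nonneg _) (Finset.mem_univ j)
    rw [Real.norm_eq_abs] at hj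
    rw [g0 _ (by nlinarith [sq_abs (x j)]), mul_zero]
  have pc : Continuous psi := continuous_iff_continuousAt.2 fun s => (psi_deriv s).continuousAt
  have i1 := supp chi chi_cont fun _ => chi_zero
  have i2 := supp psi pc fun _ => psi_zero
  have key : ∀ k, ∫ x : J → ℝ, (2 * (x k * V k x)) * chi (∑ j, x j ^ 2) =
      -∫ x : J → ℝ, V' k x * psi (∑ j, x j ^ 2) := by
    intro k
    have := integral_bilinear_hasLineDerivAt_right_eq_neg_left_of_integrable (μ := volume)
      (B := ContinuousLinearMap.mul ℝ ℝ) (f := V k) (f' := V' k) (v := Pi.single k 1)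
      (g := fun x => psi (∑ j, x j ^ 2)) (g' := fun x => chi (∑ j, x j ^ 2) * (2 * x k))
      (i2 _ (c' k)) ((i1 (fun x => 2 * (x k * V k x)) (by fun_prop)).congr
        (Eventually.of_forall fun x => by simp; ring)) (i2 _ (c k)) (fun x _ => d k x)
      (fun x _ => by
        have h1 : HasDerivAt (fun t : ℝ => ∑ j, (x + t • (Pi.single k 1 : J → ℝ)) j ^ 2)
            (2 * x k) 0 := by
          refine (HasDerivAt.fun_sum fun j _ => ((((hasDerivAt_id (0 : ℝ)).mul_const
            ((Pi.single k 1 : J → ℝ) j)).const_add (x j)).fun_pow 2)).congr_deriv ?_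
          simp [Pi.single_apply]
        have h2 := (psi_deriv _).comp (0 : ℝ) h1
        refine h2.congr_deriv ?_
        simp)
    simp only [ContinuousLinearMap.mul_apply'] at this
    rw [← this]
    congr 1; ext x; ring
  have := sum_congr rfl fun k (_ : k ∈ Finset.univ) => key k
  rw [sum_neg_distrib, ← integral_finsetSum _ fun k _ => i1 _ (by fun_prop),
    ← integral_finsetSum _ fun k _ => i2 _ (c' k)] at this
  simp only [← sum_mul, h0, zero_mul, integral_zero, neg_zero, ← mul_sum, mul_assoc,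
    integral_const_mul] at this
  simpa [sum_mul, mul_assoc] using this

theorem core {A : Type*} [NormedRing A] [NormedAlgebra ℝ A] [CompleteSpace A] {J : Type*}
    [Fintype J] [DecidableEq J] (q : ℕ) (Γ θ : J → A) (B : A) (τ : A →L[ℝ] ℝ)
    (hΓ : ∀ j k, Γ j * Γ k + Γ k * Γ j = if j = k then 2 else 0)
    (hθ : ∀ j k, θ j * θ k = -(θ k * θ j)) (hc : ∀ j k, Commute (θ j) (Γ k))
    (hB : ∀ j, Commute (θ j) B) (oΓ : ∀ k X, τ (Γ k * X) = -τ (X * Γ k))
    (oB : ∀ X, τ (B * X) = -τ (X * B)) (hτ : τ ((∑ j, Γ j * θ j) ^ (2 * q + 2)) ≠ 0) :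
    ∃ x : J → ℝ, ¬ IsUnit (B - ∑ j, x j • Γ j) := by
  by_contra hcon
  push Not at hcon
  set T := ∑ j, Γ j * θ j with hT
  let G : ℝ × (J → ℝ) → A := fun z => z.1 • B - ∑ j, z.2 j • Γ j
  have Gc : Continuous G := by fun_prop
  let W : ℝ × (J → ℝ) → ℝ := fun z =>
    (-1) ^ (q + 1) * τ (T ^ (2 * q + 2)) *
      ∑ k, z.2 k * τ (θ k * (Ring.inverse (G z) * T) ^ (2 * q + 1))
  have Wc : ∀ z, IsUnit (G z) → ContinuousAt (fun z => Ring.inverse (G z)) z := by
    intro z hz
    obtain ⟨u, hu⟩ := hz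
    exact ContinuousAt.comp (hu ▸ NormedRing.inverse_continuousAt u) Gc.continuousAt
  have oX : ∀ (x : J → ℝ) Y, τ ((∑ j, x j • Γ j) * Y) = -τ (Y * ∑ j, x j • Γ j) := by
    intro x Y
    simp [sum_mul, mul_sum, oΓ]
  have W0 : ∀ x : J → ℝ, 1 ≤ ∑ j, x j ^ 2 → IsUnit (G (0, x)) ∧ 0 < W (0, x) := by
    intro x hx
    obtain ⟨s, hs⟩ : ∃ s, s = ∑ j, x j ^ 2 := ⟨_, rfl⟩
    obtain ⟨X, hX⟩ : ∃ X, X = ∑ j, x j • Γ j := ⟨_, rfl⟩
    have a : ∀ k, X * Γ k + Γ k * X = (2 * x k) • 1 := by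
      intro k
      rw [hX, sum_mul, mul_sum, ← sum_add_distrib]
      simp only [smul_mul_assoc, mul_smul_comm, ← smul_add, hΓ, smul_ite, smul_zero, sum_ite_eq',
        Finset.mem_univ, if_true]
      rw [mul_comm, mul_smul, two_smul, one_add_one_eq_two]
    have h1 : X * X = s • 1 := by
      have : (2 : ℝ) • (X * X) = (2 : ℝ) • s • 1 := by
        rw [two_smul]
        nth_rewrite 2 3 [hX]
        rw [sum_mul, mul_sum, ← sum_add_distrib, hs, sum_smul, smul_sum]
        refine sum_congr rfl fun j _ => ?_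
        rw [smul_mul_assoc, mul_smul_comm, ← smul_add, a]
        module
      exact smul_right_injective A two_ne_zero this
    have cX : ∀ k, Commute (θ k) X := fun k => hX ▸
      Commute.sum_right _ _ _ fun j _ => (hc k j).smul_right _
    have h2 : X * T = (2 : ℝ) • (∑ j, x j • θ j) - T * X := by
      rw [eq_sub_iff_add_eq, hT, sum_mul, mul_sum, ← sum_add_distrib, smul_sum]
      refine sum_congr rfl fun j _ => ?_
      rw [mul_assoc, (cX j).eq, ← mul_assoc, ← mul_assoc, ← add_mul, a, smul_mul_assoc, one_mul,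
        mul_smul]
    have h6 : ∀ k, (∑ j, x j • θ j) * θ k = -(θ k * ∑ j, x j • θ j) := by
      intro k
      rw [sum_mul, mul_sum, ← sum_neg_distrib]
      exact sum_congr rfl fun j _ => by rw [smul_mul_assoc, mul_smul_comm, hθ, smul_neg]
    have h3 : (∑ j, x j • θ j) * (∑ j, x j • θ j) = 0 := by
      have : (∑ j, x j • θ j) * (∑ j, x j • θ j) = -((∑ j, x j • θ j) * (∑ j, x j • θ j)) := by
        conv_lhs => rw [mul_sum]
        conv_rhs => rw [sum_mul, ← sum_neg_distrib]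
        exact sum_congr rfl fun j _ => by rw [smul_mul_assoc, mul_smul_comm, h6, smul_neg]
      apply smul_right_injective A (two_ne_zero (α := ℝ))
      simp only [two_smul, add_zero]
      exact add_eq_zero_iff_eq_neg.2 this
    have h5 : (∑ j, x j • θ j) * T = -(T * ∑ j, x j • θ j) := by
      rw [hT, mul_sum, sum_mul Finset.univ (fun j => Γ j * θ j), ← sum_neg_distrib]
      refine sum_congr rfl fun k _ => ?_
      rw [← mul_assoc, (Commute.sum_left _ _ _ fun j _ => (hc j k).smul_left _).eq, mul_assoc, h6,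
        mul_neg, mul_assoc]
    have w := w0 (τ : A →ₗ[ℝ] ℝ) h1 h2 h3
      (Commute.sum_left _ _ _ fun j _ => (cX j).smul_left _).eq h5 (hX ▸ oX x) q
    have s0 : 0 < s := by linarith
    let u : Aˣ := ⟨-X, (-s⁻¹) • X, by simp [h1, smul_smul, s0.ne'], by simp [h1, smul_smul, s0.ne']⟩
    have e : G (0, x) = u := by simp [G, u, hX]
    refine ⟨e ▸ u.isUnit, ?_⟩
    simp only [W, e, Ring.inverse_unit]
    have : ∑ k, x k * τ (θ k * ((u⁻¹ : Aˣ) * T) ^ (2 * q + 1)) =
        (-s⁻¹) ^ (2 * q + 1) * τ ((∑ j, x j • θ j) * (X * T) ^ (2 * q + 1)) := by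
      change ∑ k, x k * τ (θ k * ((-s⁻¹) • X * T) ^ (2 * q + 1)) = _
      rw [smul_mul_assoc, smul_pow, sum_mul, map_sum, mul_sum _ _ ((-s⁻¹) ^ (2 * q + 1))]
      exact sum_congr rfl fun k _ => by
        rw [smul_mul_assoc, mul_smul_comm, map_smul, map_smul, smul_eq_mul, smul_eq_mul]; ring
    rw [this]
    refine pos_of_mul_pos_left (b := (2 * q + 2 : ℝ)) ?_ (by positivity)
    simp only [ContinuousLinearMap.coe_coe] at w
    have e2 : ((-1 : ℝ) ^ q) ^ 2 = 1 := by rw [← pow_mul, mul_comm, pow_mul]; simp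
    have e3 : 0 < s⁻¹ ^ (2 * q + 1) * s ^ q * s * τ (T ^ (2 * q + 2)) ^ 2 := by positivity
    refine e3.trans_eq (Eq.symm ?_)
    rw [Odd.neg_pow ⟨q, rfl⟩]
    rw [neg_pow] at w
    linear_combination ((-1) ^ q * s⁻¹ ^ (2 * q + 1) * τ (T ^ (2 * q + 2))) * w +
      (s⁻¹ ^ (2 * q + 1) * s ^ q * s * τ (T ^ (2 * q + 2)) ^ 2) * e2
  have hK : IsCompact {x : J → ℝ | 1 ≤ ∑ j, x j ^ 2 ∧ ∑ j, x j ^ 2 ≤ 2} := by
    refine (isCompact_closedBall 0 2).of_isClosed_subset ((isClosed_Icc (a := (1 : ℝ))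
      (b := 2)).preimage (f := fun x : J → ℝ => ∑ j, x j ^ 2) (by fun_prop)) fun x hx => ?_
    rw [mem_closedBall_zero_iff, pi_norm_le_iff_of_nonneg (by norm_num)]
    intro j
    have := single_le_sum (f := fun j => x j ^ 2) (fun j _ => sq_nonneg _) (Finset.mem_univ j)
    rw [Real.norm_eq_abs]
    nlinarith [sq_abs (x j), hx.2]
  obtain ⟨ε, hε, ε0⟩ := (((hK.eventually_forall_of_forall_eventually (x₀ := (0 : ℝ))
    (P := fun e x => 0 < W (e, x)) fun x hx => by
      have := Wc _ (W0 x hx.1).1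
      exact (show ContinuousAt W (0, x) by fun_prop).eventually
        (lt_mem_nhds (W0 x hx.1).2)).filter_mono nhdsWithin_le_nhds).and
    (self_mem_nhdsWithin (s := Ioi (0 : ℝ)))).exists
  replace ε0 : 0 < ε := ε0
  have un : ∀ x, IsUnit (G (ε, x)) := by
    intro x
    have : G (ε, x) = algebraMap ℝ A ε * (B - ∑ j, (ε⁻¹ * x j) • Γ j) := by
      simp [G, ← Algebra.smul_def, smul_sub, smul_sum, smul_smul, ε0.ne']
    rw [this]
    exact ((Ne.isUnit ε0.ne').map _).mul (hcon _)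
  have Rc : Continuous fun x => Ring.inverse (G (ε, x)) := continuous_iff_continuousAt.2 fun x =>
    ContinuousAt.comp (f := fun x => (ε, x)) (Wc _ (un x)) (by fun_prop)
  have st := stokes (fun k x => τ (θ k * (Ring.inverse (G (ε, x)) * T) ^ (2 * q + 1)))
    (fun k x => τ (θ k * ∑ i ∈ range (2 * q + 1),
      (Ring.inverse (G (ε, x)) * T) ^ ((2 * q + 1).pred - i) *
      (Ring.inverse (G (ε, x)) * Γ k * Ring.inverse (G (ε, x)) * T) *
        (Ring.inverse (G (ε, x)) * T) ^ i)) (fun k => by fun_prop) (fun k => by fun_prop)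
    (fun k x => by
      obtain ⟨u, hu⟩ := un x
      have d1 : HasDerivAt (fun t : ℝ => G (ε, x + t • (Pi.single k 1 : J → ℝ))) (-Γ k) 0 := by
        have : (fun t : ℝ => G (ε, x + t • (Pi.single k 1 : J → ℝ))) =
            fun t => G (ε, x) - t • Γ k := by
          ext t
          simp [G, add_smul, sum_add_distrib, Pi.single_apply, sub_sub]
        rw [this]
        simpa using ((hasDerivAt_id (0 : ℝ)).smul_const (Γ k)).const_sub (G (ε, x))
      have d2 := (hasFDerivAt_ringInverse (𝕜 := ℝ) u).comp_hasDerivAt_of_eq 0 d1 (by simp [hu])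
      have d3 := τ.hasFDerivAt.comp_hasDerivAt 0
        (((d2.mul_const T).fun_pow' (2 * q + 1)).const_mul (θ k))
      refine d3.congr_deriv ?_
      simp [← hu])
    (fun x => by
      obtain ⟨u, hu⟩ := un x
      have oG : ∀ Y, τ (u * Y) = -τ (Y * u) := by
        intro Y
        simp only [hu, G, sub_mul, mul_sub, map_sub, oX, smul_mul_assoc, mul_smul_comm, map_smul,
          oB, smul_neg]
        ring
      refine div0 Γ θ _ (τ : A →ₗ[ℝ] ℝ) hθ hc (fun j => ?_) oΓ (fun Y => ?_) q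
      · rw [← hu, Ring.inverse_unit]
        refine Commute.units_inv_right ?_
        rw [hu]
        exact ((hB j).smul_right _).sub_right
          (Commute.sum_right _ _ _ fun i _ => (hc j i).smul_right _)
      · have := oG (↑u⁻¹ * Y * ↑u⁻¹)
        simp only [mul_assoc, Units.mul_inv_cancel_left, Units.inv_mul, mul_one] at this
        rw [← hu, Ring.inverse_unit]
        simp [this])
  have nn : ∀ x : J → ℝ, 0 ≤ W (ε, x) * chi (∑ j, x j ^ 2) := by
    intro x
    by_cases h : 1 ≤ ∑ j, x j ^ 2 ∧ ∑ j, x j ^ 2 ≤ 2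
    · exact mul_nonneg (hε x h).le (le_max_left _ _)
    · rw [chi, max_eq_left, mul_zero]
      rw [not_and_or, not_le, not_le] at h
      rcases h with h | h <;> nlinarith
  obtain ⟨j0⟩ : Nonempty J := by
    by_contra h
    rw [not_nonempty_iff] at h
    simp [hT] at hτ
  have cc := chi_cont
  have := Continuous.integral_pos_of_hasCompactSupport_nonneg_nonzero (μ := volume)
    (f := fun x : J → ℝ => W (ε, x) * chi (∑ j, x j ^ 2)) (x := Pi.single j0 (5 / 4))
    (by simp only [W]; fun_prop) (HasCompactSupport.intro hK fun x h => by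
      rw [chi, max_eq_left, mul_zero]
      rw [mem_ofPred_eq, not_and_or, not_le, not_le] at h
      rcases h with h | h <;> nlinarith) nn (by
      have e : ∑ j, (Pi.single j0 (5 / 4) : J → ℝ) j ^ 2 = 25 / 16 := by
        simp [Pi.single_apply]; norm_num
      refine mul_ne_zero (hε _ ?_).ne' ?_
      · rw [mem_ofPred_eq, e]; norm_num
      · rw [e, chi]; norm_num)
  simp only [W, mul_assoc, integral_const_mul, st, mul_zero, lt_irrefl] at this

end Pool.Agent.H63.Cliff
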