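import Pool.Agent.H63.Cliff

set_option autoImplicit false
open Finset Matrix
open scoped Kronecker Matrix.Norms.Operator ComplexOrder

namespace Pool.Agent.H63.Cliff

theorem pow_sum {A : Type*} [Ring A] (D : ℕ) : ∀ a : Fin D → A, (∀ j k, Commute (a j) (a k)) →
    (∀ j, a j * a j = 0) →
    (∑ j, a j) ^ D = D.factorial • (List.ofFn a).prod ∧ (∑ j, a j) ^ (D + 1) = 0 := by
  induction D with
  | zero => intro a _ _; simp
  | succ D ih =>
    intro a h1 h2
    obtain ⟨e1, e2⟩ := ih (fun j => a j.succ) (fun j k => h1 _ _) fun j => h2 _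
    have c : Commute (a 0) (∑ j : Fin D, a j.succ) := Commute.sum_right _ _ _ fun j _ => h1 _ _
    rw [Fin.sum_univ_succ, List.ofFn_succ, List.prod_cons]
    generalize ∑ j : Fin D, a j.succ = s at e1 e2 c
    have b : ∀ k : ℕ, (a 0 + s) ^ (k + 1) = s ^ (k + 1) + (k + 1) • (a 0 * s ^ k) := by
      intro k
      induction k with
      | zero => simp [add_comm]
      | succ k ih =>
        rw [pow_succ', ih, add_mul, mul_add, mul_add, mul_smul_comm, mul_smul_comm, ← mul_assoc,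
          h2, ← mul_assoc, ← c.eq, mul_assoc (a 0) s, ← pow_succ', ← pow_succ', succ_nsmul _ (k + 1)]
        simp only [zero_mul, smul_zero]
        abel
    constructor
    · rw [b, e1, e2, zero_add, mul_smul_comm, smul_smul, Nat.factorial_succ]
    · rw [b, pow_succ s (D + 1), e2]; simp

theorem prod_kron {ι κ : Type*} [Fintype ι] [DecidableEq ι] [Fintype κ] [DecidableEq κ] (D : ℕ) :
    ∀ (a : Fin D → Matrix ι ι ℂ) (b : Fin D → Matrix κ κ ℂ),
    (List.ofFn fun j => a j ⊗ₖ b j).prod = (List.ofFn a).prod ⊗ₖ (List.ofFn b).prod := by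
  induction D with
  | zero => intro a b; simp
  | succ D ih => intro a b; simp only [List.ofFn_succ, List.prod_cons, ih, mul_kronecker_mul]

theorem kron_ne {ι κ : Type*} {a : Matrix ι ι ℂ} {b : Matrix κ κ ℂ} (ha : a ≠ 0) (hb : b ≠ 0) :
    a ⊗ₖ b ≠ 0 := by
  intro h
  apply ha
  ext i j
  by_contra h2
  apply hb
  ext k l
  exact (mul_eq_zero.1 (congrFun (congrFun h (i, k)) (j, l))).resolve_left h2

theorem neg_kron {ι κ : Type*} (a : Matrix ι ι ℂ) (b : Matrix κ κ ℂ) : (-a) ⊗ₖ b = -(a ⊗ₖ b) := by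
  ext; simp

theorem kron_neg {ι κ : Type*} (a : Matrix ι ι ℂ) (b : Matrix κ κ ℂ) : a ⊗ₖ (-b) = -(a ⊗ₖ b) := by
  ext; simp

theorem sum_kron {ι κ J : Type*} [Fintype J] (a : J → Matrix ι ι ℂ) (b : Matrix κ κ ℂ) :
    (∑ j, a j) ⊗ₖ b = ∑ j, a j ⊗ₖ b := by
  ext; simp [Matrix.sum_apply, sum_mul]

theorem jw (D : ℕ) : ∃ (κ : Type) (_ : Fintype κ) (_ : DecidableEq κ) (θ : Fin D → Matrix κ κ ℂ),
    (∀ j k, θ j * θ k = -(θ k * θ j)) ∧ (List.ofFn θ).prod ≠ 0 := by
  induction D with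
  | zero => exact ⟨Unit, inferInstance, inferInstance, fun _ => 0, by simp, by simp⟩
  | succ D ih =>
    obtain ⟨κ, _, _, θ, h1, h2⟩ := ih
    let p : Matrix (Fin 2) (Fin 2) ℂ := !![0, 1; 0, 0]
    let z : Matrix (Fin 2) (Fin 2) ℂ := !![1, 0; 0, -1]
    have pz : p * z = -(z * p) := by ext i j; fin_cases i <;> fin_cases j <;> simp [p, z]
    have pp : p * p = 0 := by ext i j; fin_cases i <;> fin_cases j <;> simp [p]
    refine ⟨κ × Fin 2, inferInstance, inferInstance, Fin.cons (1 ⊗ₖ p) fun j => θ j ⊗ₖ z,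
      fun j k => ?_, ?_⟩
    · refine Fin.cases ?_ (fun j => ?_) j <;> refine Fin.cases ?_ (fun k => ?_) k <;>
        simp only [Fin.cons_zero, Fin.cons_succ, ← mul_kronecker_mul]
      · simp [pp]
      · simp [pz, kron_neg]
      · simp [pz, kron_neg]
      · rw [h1, neg_kron]
    · simp only [List.ofFn_succ, List.prod_cons, Fin.cons_zero, Fin.cons_succ, prod_kron,
        ← mul_kronecker_mul, one_mul]
      refine kron_ne h2 ?_
      have : IsUnit (List.ofFn fun _ : Fin D => z).prod := by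
        rw [List.ofFn_const, List.prod_replicate]
        exact IsUnit.pow _ ((isUnit_iff_isUnit_det _).2 (by simp [z]))
      rw [Ne, this.mul_left_eq_zero]
      intro h
      simpa [p] using congrFun (congrFun h 0) 1

theorem anti_list {A : Type*} [Ring A] [Algebra ℝ A] {J : Type*} (g : A) (Γ : J → A) (s : J → ℝ)
    (h : ∀ j, g * Γ j = s j • (Γ j * g)) (l : List J) :
    g * (l.map Γ).prod = (l.map s).prod • ((l.map Γ).prod * g) := by
  induction l with
  | nil => simp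
  | cons j l ih =>
    simp only [List.map_cons, List.prod_cons]
    rw [← mul_assoc, h, smul_mul_assoc, mul_assoc, ih, mul_smul_comm, smul_smul, mul_assoc]

theorem even_case {ι : Type} [Fintype ι] [DecidableEq ι] [Nonempty ι] (q : ℕ)
    (Γ a : Fin (2 * q + 2) → Matrix ι ι ℂ) (h1 : ∀ j, (Γ j).IsHermitian) (h2 : ∀ j, Γ j * Γ j = 1)
    (h3 : ∀ j k, j ≠ k → Γ j * Γ k = -(Γ k * Γ j)) (h4 : ∀ j, (a j).IsHermitian)
    (h5 : ∀ j k, Commute (a j) (Γ k)) :
    ∃ x : Fin (2 * q + 2) → ℝ, (∑ j, a j * Γ j - ∑ j, x j • Γ j).det = 0 := by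
  obtain ⟨κ, _, _, θ, t1, t2⟩ := jw (2 * q + 2)
  have oΩ : ∀ k, Γ k * (List.ofFn Γ).prod = -((List.ofFn Γ).prod * Γ k) := by
    intro k
    have := anti_list (Γ k) Γ (fun j => -1 * if j = k then -1 else 1) (fun j => by
      by_cases h : j = k
      · simp [h]
      · simp [h, h3 k j (Ne.symm h)]) (List.finRange _)
    rw [← List.ofFn_eq_map, ← List.ofFn_eq_map, List.prod_ofFn (f := fun j => -1 * _),
      prod_mul_distrib] at this
    simpa [pow_add] using this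
  have uΩ : IsUnit (List.ofFn Γ).prod := List.prod_isUnit fun m hm => by
    obtain ⟨j, rfl⟩ := List.mem_ofFn.1 hm
    exact IsUnit.of_mul_eq_one _ (h2 j)
  have oB : (∑ j, a j * Γ j) * (List.ofFn Γ).prod = -((List.ofFn Γ).prod * ∑ j, a j * Γ j) := by
    rw [sum_mul, mul_sum, ← sum_neg_distrib]
    refine sum_congr rfl fun j _ => ?_
    rw [mul_assoc, oΩ, mul_neg, ← mul_assoc, (Commute.list_prod_right _ _ fun m hm => by
      obtain ⟨k, rfl⟩ := List.mem_ofFn.1 hm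
      exact h5 j k).eq, mul_assoc]
  have hB : (∑ j, a j * Γ j).IsHermitian := by
    rw [IsHermitian, conjTranspose_sum]
    exact sum_congr rfl fun j _ => by rw [conjTranspose_mul, h1, h4, (h5 j j).eq]
  obtain ⟨P, hP⟩ : ∃ P, P = (List.ofFn Γ).prod ⊗ₖ (List.ofFn θ).prod := ⟨_, rfl⟩
  let τ : Matrix (ι × κ) (ι × κ) ℂ →ₗ[ℝ] ℝ :=
    { toFun := fun X => (Pᴴ * X).trace.re
      map_add' := fun X Y => by simp [mul_add]
      map_smul' := fun c X => by simp }
  have od : ∀ Y : Matrix ι ι ℂ, Y.IsHermitian →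
      Y * (List.ofFn Γ).prod = -((List.ofFn Γ).prod * Y) → ∀ X,
      τ (Y ⊗ₖ (1 : Matrix κ κ ℂ) * X) = -τ (X * Y ⊗ₖ (1 : Matrix κ κ ℂ)) := by
    intro Y hY ho X
    have e1 : Y ⊗ₖ (1 : Matrix κ κ ℂ) * P = -(P * Y ⊗ₖ (1 : Matrix κ κ ℂ)) := by
      rw [hP, ← mul_kronecker_mul, ← mul_kronecker_mul, ho, neg_kron, one_mul, mul_one]
    have e2 := congrArg conjTranspose e1
    rw [conjTranspose_neg, conjTranspose_mul, conjTranspose_mul, conjTranspose_kronecker, hY,
      conjTranspose_one] at e2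
    change (Pᴴ * _).trace.re = -(Pᴴ * _).trace.re
    rw [← mul_assoc, e2, ← mul_assoc, trace_mul_cycle]
    simp
  haveI : CompleteSpace (Matrix (ι × κ) (ι × κ) ℂ) := FiniteDimensional.complete ℝ _
  obtain ⟨x, hx⟩ := core q (fun j => Γ j ⊗ₖ (1 : Matrix κ κ ℂ)) (fun j => 1 ⊗ₖ θ j)
    ((∑ j, a j * Γ j) ⊗ₖ (1 : Matrix κ κ ℂ)) (LinearMap.toContinuousLinearMap τ)
    (fun j k => by
      rw [← mul_kronecker_mul, ← mul_kronecker_mul]
      split_ifs with h
      · simp [h, h2, one_add_one_eq_two]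
      · simp [h3 j k h, neg_kron])
    (fun j k => by rw [← mul_kronecker_mul, ← mul_kronecker_mul, t1, kron_neg])
    (fun j k => by simp [commute_iff_eq, ← mul_kronecker_mul])
    (fun j => by simp [commute_iff_eq, ← mul_kronecker_mul])
    (fun k => od _ (h1 k) (oΩ k)) (od _ hB oB) (by
      simp only [← mul_kronecker_mul, one_mul, mul_one]
      rw [(pow_sum _ (fun j => Γ j ⊗ₖ θ j) (fun j k => by
        by_cases h : j = k
        · exact h ▸ Commute.refl _
        · rw [commute_iff_eq, ← mul_kronecker_mul, ← mul_kronecker_mul, h3 j k h, t1, neg_kron,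
            kron_neg, neg_neg]) (fun j => by
        rw [← mul_kronecker_mul, show θ j * θ j = 0 from by
          simpa [eq_neg_iff_add_eq_zero, ← two_smul ℂ] using t1 j j, kronecker_zero])).1,
        prod_kron, ← hP, map_nsmul, nsmul_eq_mul]
      refine mul_ne_zero (by positivity) fun h => kron_ne uΩ.ne_zero t2 ?_
      rw [← hP, ← trace_conjTranspose_mul_self_eq_zero_iff]
      have := (posSemidef_conjTranspose_mul_self P).trace_nonneg
      exact Complex.ext h (Complex.nonneg_iff.1 this).2.symm)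
  refine ⟨x, by_contra fun h => hx ?_⟩
  have : (∑ j, a j * Γ j) ⊗ₖ (1 : Matrix κ κ ℂ) - ∑ j, x j • Γ j ⊗ₖ (1 : Matrix κ κ ℂ) =
      (∑ j, a j * Γ j - ∑ j, x j • Γ j) ⊗ₖ (1 : Matrix κ κ ℂ) := by
    ext; simp [Matrix.sum_apply, sum_mul, sub_mul, mul_assoc]
  rw [this, isUnit_iff_isUnit_det, det_kronecker]
  simpa using fun h2 => absurd h2 h

theorem odd_case {ι : Type} [Fintype ι] [DecidableEq ι] [Nonempty ι] (q : ℕ)
    (Γ a : Fin (2 * q + 1) → Matrix ι ι ℂ) (h1 : ∀ j, (Γ j).IsHermitian) (h2 : ∀ j, Γ j * Γ j = 1)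
    (h3 : ∀ j k, j ≠ k → Γ j * Γ k = -(Γ k * Γ j)) (h4 : ∀ j, (a j).IsHermitian)
    (h5 : ∀ j k, Commute (a j) (Γ k)) :
    ∃ x : Fin (2 * q + 1) → ℝ, (∑ j, a j * Γ j - ∑ j, x j • Γ j).det = 0 := by
  let p : Matrix (Fin 2) (Fin 2) ℂ := !![0, 1; 1, 0]
  let z : Matrix (Fin 2) (Fin 2) ℂ := !![1, 0; 0, -1]
  have pz : p * z = -(z * p) := by ext i j; fin_cases i <;> fin_cases j <;> simp [p, z]
  have pp : p * p = 1 := by ext i j; fin_cases i <;> fin_cases j <;> simp [p]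
  have zz : z * z = 1 := by ext i j; fin_cases i <;> fin_cases j <;> simp [z]
  have ph : pᴴ = p := by ext i j; fin_cases i <;> fin_cases j <;> simp [p]
  have zh : zᴴ = z := by ext i j; fin_cases i <;> fin_cases j <;> simp [z]
  obtain ⟨x, hx⟩ := even_case q (Fin.cons (n := 2 * q + 1) (1 ⊗ₖ z) fun j => Γ j ⊗ₖ p)
    (Fin.cons (n := 2 * q + 1) 0 fun j => a j ⊗ₖ (1 : Matrix (Fin 2) (Fin 2) ℂ))
    (fun j => by
      refine Fin.cases ?_ (fun j => ?_) j <;>
        simp [IsHermitian, conjTranspose_kronecker, ph, zh, (h1 _).eq])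
    (fun j => by
      refine Fin.cases ?_ (fun j => ?_) j <;> simp [← mul_kronecker_mul, pp, zz, h2])
    (fun j k => by
      refine Fin.cases ?_ (fun j => ?_) j <;> refine Fin.cases ?_ (fun k => ?_) k <;>
        simp only [Fin.cons_zero, Fin.cons_succ, ← mul_kronecker_mul] <;> intro h
      · exact absurd rfl h
      · simp [pz, kron_neg]
      · simp [pz, kron_neg]
      · rw [h3 j k fun e => h (by rw [e]), neg_kron])
    (fun j => by
      refine Fin.cases ?_ (fun j => ?_) j <;>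
        simp [IsHermitian, conjTranspose_kronecker, (h4 _).eq])
    (fun j k => by
      refine Fin.cases ?_ (fun j => ?_) j <;> refine Fin.cases ?_ (fun k => ?_) k <;>
        simp [commute_iff_eq, ← mul_kronecker_mul, (h5 _ _).eq])
  refine ⟨fun j => x j.succ, by_contra fun h => ?_⟩
  obtain ⟨M, hM⟩ : ∃ M, M = ∑ j, a j * Γ j - ∑ j, x (Fin.succ j) • Γ j := ⟨_, rfl⟩
  have hH : Mᴴ = M := by
    rw [hM, conjTranspose_sub, conjTranspose_sum, conjTranspose_sum]
    congr 1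
    · exact sum_congr rfl fun j _ => by rw [conjTranspose_mul, h1, h4, (h5 j j).eq]
    · exact sum_congr rfl fun j _ => by rw [conjTranspose_smul, h1, star_trivial]
  rw [← hM] at h
  rw [Fin.sum_univ_succ (n := 2 * q + 1), Fin.sum_univ_succ (n := 2 * q + 1) (fun j => x j • _)] at hx
  simp only [Fin.cons_zero, Fin.cons_succ, ← mul_kronecker_mul, zero_mul, zero_add, one_mul] at hx
  have e : ∑ j, (a j * Γ j) ⊗ₖ p - (x 0 • 1 ⊗ₖ z + ∑ j, x (Fin.succ j) • Γ j ⊗ₖ p) =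
      M ⊗ₖ p - x 0 • 1 ⊗ₖ z := by
    rw [hM]; ext; simp [Matrix.sum_apply, sum_mul, sub_mul, mul_assoc]; ring
  rw [e] at hx
  have e2 : (M ⊗ₖ p - x 0 • 1 ⊗ₖ z) * (M ⊗ₖ p - x 0 • 1 ⊗ₖ z) =
      (Mᴴ * M + (x 0 ^ 2) • 1) ⊗ₖ (1 : Matrix (Fin 2) (Fin 2) ℂ) := by
    simp only [mul_sub, sub_mul, smul_mul_assoc, mul_smul_comm, ← mul_kronecker_mul, pp, zz, pz,
      kron_neg, hH, one_mul, mul_one, add_kronecker, smul_kronecker]
    module
  have pd : (Mᴴ * M + (x 0 ^ 2) • (1 : Matrix ι ι ℂ)).PosDef :=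
    (PosDef.conjTranspose_mul_self M (mulVec_injective_of_isUnit
      ((isUnit_iff_isUnit_det _).2 (Ne.isUnit h)))).add_posSemidef
      (PosSemidef.one.smul (sq_nonneg _))
  have := congrArg det e2
  rw [det_mul, hx, det_kronecker] at this
  simp only [zero_mul, det_one, one_pow, mul_one] at this
  exact pow_ne_zero _ pd.det_pos.ne' this.symm

theorem all_case {ι : Type} [Fintype ι] [DecidableEq ι] [Nonempty ι] (d : ℕ)
    (Γ a : Fin d → Matrix ι ι ℂ) (h1 : ∀ j, (Γ j).IsHermitian) (h2 : ∀ j, Γ j * Γ j = 1)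
    (h3 : ∀ j k, j ≠ k → Γ j * Γ k = -(Γ k * Γ j)) (h4 : ∀ j, (a j).IsHermitian)
    (h5 : ∀ j k, Commute (a j) (Γ k)) :
    ∃ x : Fin d → ℝ, (∑ j, a j * Γ j - ∑ j, x j • Γ j).det = 0 := by
  obtain rfl | ⟨q, rfl⟩ | ⟨q, rfl⟩ : d = 0 ∨ (∃ q, d = 2 * q + 1) ∨ ∃ q, d = 2 * q + 2 := by
    rcases Nat.even_or_odd' d with ⟨q, h | h⟩
    · rcases q with _ | q
      · exact Or.inl h
      · exact Or.inr (Or.inr ⟨q, h⟩)
    · exact Or.inr (Or.inl ⟨q, h⟩)
  · exact ⟨0, by simp⟩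
  · exact odd_case q Γ a h1 h2 h3 h4 h5
  · exact even_case q Γ a h1 h2 h3 h4 h5

end Pool.Agent.H63.Cliff
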