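import Mathlib

set_option autoImplicit false
open Filter Topology NormedSpace

namespace Pool.Agent.H63.Cogen

theorem gen {E : Type} [NormedAddCommGroup E] [NormedSpace ℂ E] [CompleteSpace E]
    (A : E →L[ℂ] E) :
    exp (((0 : ℝ) : ℂ) • A) = 1 ∧
    (∀ s t : ℝ, exp (((s + t : ℝ) : ℂ) • A) = exp ((s : ℂ) • A) * exp ((t : ℂ) • A)) ∧
    (∀ x : E, Continuous fun t : ℝ => exp ((t : ℂ) • A) x) ∧
    ∀ x y : E, Tendsto (fun t : ℝ => t⁻¹ • (exp ((t : ℂ) • A) x - x)) (𝓝[>] 0) (𝓝 y) ↔ A x = y := by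
  letI := NormedAlgebra.restrictScalars ℚ ℂ (E →L[ℂ] E)
  have d : ∀ (x : E) (t : ℝ), HasDerivAt (fun t : ℝ => exp ((t : ℂ) • A) x)
      ((exp ((t : ℂ) • A) * A) x) t := fun x t => by
    refine (((hasDerivAt_exp_smul_const A (t : ℂ)).clm_apply
      (hasDerivAt_const _ x)).scomp t Complex.ofRealCLM.hasDerivAt).congr_deriv ?_
    simp
  refine ⟨by simp, fun s t => ?_, fun x => continuous_iff_continuousAt.2 fun t =>
    (d x t).continuousAt, fun x y => ?_⟩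
  · rw [Complex.ofReal_add, add_smul,
      exp_add_of_commute (((Commute.refl A).smul_left _).smul_right _)]
  · have := (d x 0).tendsto_slope_zero_right
    simp only [zero_add, Complex.ofReal_zero, zero_smul, exp_zero, one_mul,
      one_apply_eq_self] at this
    exact ⟨fun h => tendsto_nhds_unique this h, fun h => h ▸ this⟩

theorem space {C P : Type} [NormedRing C] [NormedAlgebra ℂ C] (l : C →L[ℂ] ℂ) (e : P → C)
    (he : ∀ p, ‖e p‖ ≤ 1) : ∃ (E : Type) (_ : NormedAddCommGroup E) (_ : NormedSpace ℂ E)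
      (_ : CompleteSpace E) (φ0 : C →ₗ[ℂ] E), (∀ f K, 0 ≤ K → (∀ p, ‖l (e p * f)‖ ≤ K) → ‖φ0 f‖ ≤ K) ∧
      (∀ f p, ‖l (e p * f)‖ ≤ ‖φ0 f‖) ∧ Continuous φ0 ∧ DenseRange φ0 := by
  have bd : ∀ f p, ‖l (e p * f)‖ ≤ ‖l‖ * ‖f‖ := fun f p =>
    (l.le_opNorm _).trans (mul_le_mul_of_nonneg_left ((norm_mul_le _ _).trans
      (mul_le_of_le_one_left (norm_nonneg _) (he _))) (norm_nonneg _))
  let Φ0 : C →ₗ[ℂ] lp (fun _ : P => ℂ) ⊤ :=
    { toFun := fun f => ⟨fun p => l (e p * f), memℓp_infty ⟨_, Set.forall_mem_range.2 (bd f)⟩⟩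
      map_add' := fun f g => by ext p; simp [mul_add]
      map_smul' := fun c f => by ext p; simp }
  let E := (LinearMap.range Φ0).topologicalClosure
  let φ0 : C →ₗ[ℂ] E := Φ0.codRestrict E fun f =>
    Submodule.le_topologicalClosure _ (LinearMap.mem_range_self _ f)
  have up : ∀ f K, 0 ≤ K → (∀ p, ‖l (e p * f)‖ ≤ K) → ‖φ0 f‖ ≤ K := fun f K hK h =>
    lp.norm_le_of_forall_le (f := Φ0 f) hK h
  refine ⟨E, inferInstance, inferInstance,
    (Submodule.isClosed_topologicalClosure _).completeSpace_coe, φ0, up, fun f p =>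
    lp.norm_apply_le_norm (by simp) (Φ0 f) p,
    (φ0.mkContinuous ‖l‖ fun f => up f _ (by positivity) (bd f)).continuous, fun x => ?_⟩
  rw [closure_subtype, ← Set.range_comp]
  exact x.2

theorem model {C : Type} [NormedCommRing C] [NormedAlgebra ℂ C] [CompleteSpace C]
    (l : C →L[ℂ] ℂ) (a b v : C) (hab : a * b = 1)
    (he : ∀ s t : ℝ, ‖exp ((s : ℂ) • a) * exp ((t : ℂ) • b)‖ ≤ 1)
    (ha : ∃ (c : ℤ → ℂ) (s : ℤ → ℝ), Summable (fun n => ‖c n‖) ∧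
      HasSum (fun n => c n • exp ((s n : ℂ) • a)) a)
    (hb : ∃ (c : ℤ → ℂ) (s : ℤ → ℝ), Summable (fun n => ‖c n‖) ∧
      HasSum (fun n => c n • exp ((s n : ℂ) • b)) b)
    (hv : (a - 1) * v = a + 1)
    (hd : ∀ ε : ℝ, 0 < ε → ∃ (n : ℕ) (f : C), l (v ^ n * f) = 1 ∧
      ∀ s t : ℝ, ‖l (exp ((s : ℂ) • a) * exp ((t : ℂ) • b) * f)‖ ≤ ε) :
    ∃ (E : Type) (_ : NormedAddCommGroup E) (_ : NormedSpace ℂ E) (_ : CompleteSpace E)
      (A B V : E →L[ℂ] E), A * B = 1 ∧ B * A = 1 ∧ (∀ t : ℝ, ‖exp ((t : ℂ) • A)‖ ≤ 1) ∧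
      (∀ t : ℝ, ‖exp ((t : ℂ) • B)‖ ≤ 1) ∧ V * (A - 1) = A + 1 ∧ ¬ ∃ K : ℝ, ∀ n : ℕ, ‖V ^ n‖ ≤ K := by
  letI := NormedAlgebra.restrictScalars ℚ ℂ C
  obtain ⟨e, hee⟩ : ∃ e : ℝ × ℝ → C, ∀ p, e p = exp ((p.1 : ℂ) • a) * exp ((p.2 : ℂ) • b) :=
    ⟨_, fun _ => rfl⟩
  have eadd : ∀ p q, e (p + q) = e p * e q := fun p q => by
    simp only [hee, Prod.fst_add, Prod.snd_add, Complex.ofReal_add, add_smul]
    rw [exp_add, exp_add]
    ring
  obtain ⟨E, _, _, _, φ0, up, lo, φc, dn⟩ := space l e fun p => hee p ▸ he _ _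
  letI := NormedAlgebra.restrictScalars ℚ ℂ (E →L[ℂ] E)
  let G : Subalgebra ℂ (C × (E →L[ℂ] E)) :=
    { carrier := {z | ∀ f, z.2 (φ0 f) = φ0 (z.1 * f)}
      mul_mem' := fun {x y} hx hy f => by
        simp only [Prod.snd_mul, mul_apply_eq_comp, Prod.fst_mul, hy f, hx _, mul_assoc]
      add_mem' := fun {x y} hx hy f => by
        simp only [Prod.snd_add, add_apply, Prod.fst_add, hy f, hx f, add_mul,
          map_add]
      algebraMap_mem' := fun c f => by simp [Algebra.algebraMap_eq_smul_one] }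
  have Gc : IsClosed (G : Set (C × (E →L[ℂ] E))) := by
    have : (G : Set (C × (E →L[ℂ] E))) = ⋂ f, {z | z.2 (φ0 f) = φ0 (z.1 * f)} := by
      ext z; rw [Set.mem_iInter]; rfl
    rw [this]
    exact isClosed_iInter fun f => isClosed_eq (by fun_prop) (by fun_prop)
  have uq : ∀ g M N, (g, M) ∈ G → (g, N) ∈ G → M = N := fun g M N h1 h2 =>
    ContinuousLinearMap.coeFn_injective (dn.equalizer M.continuous N.continuous
      (funext fun f => (h1 f).trans (h2 f).symm))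
  have mk : ∀ p, ∃ M, ‖M‖ ≤ 1 ∧ (e p, M) ∈ G := by
    intro p
    have h : ∀ f, ‖(φ0.comp (LinearMap.mulLeft ℂ (e p))) f‖ ≤ 1 * ‖φ0 f‖ := fun f =>
      up _ _ (by positivity) fun q => by
        rw [LinearMap.mulLeft_apply, ← mul_assoc, ← eadd, one_mul]; exact lo f _
    exact ⟨_, LinearMap.opNorm_extendOfNorm_le dn zero_le_one h,
      fun f => LinearMap.extendOfNorm_eq dn ⟨1, h⟩ f⟩
  have key : ∀ g : C, (∀ s : ℝ, ∃ p, e p = exp ((s : ℂ) • g)) →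
      (∃ (c : ℤ → ℂ) (s : ℤ → ℝ), Summable (fun n => ‖c n‖) ∧
        HasSum (fun n => c n • exp ((s n : ℂ) • g)) g) →
      ∃ A, (g, A) ∈ G ∧ ∀ t : ℝ, ‖exp ((t : ℂ) • A)‖ ≤ 1 := by
    rintro g hg ⟨c, s, h1, h2⟩
    have : ∀ s : ℝ, ∃ M, ‖M‖ ≤ 1 ∧ (exp ((s : ℂ) • g), M) ∈ G := fun s => by
      obtain ⟨p, hp⟩ := hg s
      exact hp ▸ mk p
    choose M m1 m2 using this
    have h3 : Summable fun n => c n • M (s n) := .of_norm_bounded h1 fun n => by
      rw [norm_smul]; exact mul_le_of_le_one_right (norm_nonneg _) (m1 _)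
    have h4 : (g, ∑' n, c n • M (s n)) ∈ G := Gc.mem_of_tendsto (h2.prodMk h3.hasSum)
      (Eventually.of_forall fun F => sum_mem fun n _ => G.smul_mem (m2 (s n)) (c n))
    refine ⟨_, h4, fun t => le_of_eq_of_le (congrArg _ (uq _ _ _ ?_ (m2 t))) (m1 t)⟩
    exact Gc.mem_of_tendsto ((expSeries_hasSum_exp (𝕂 := ℂ) ((t : ℂ) • g)).prodMk
      (expSeries_hasSum_exp (𝕂 := ℂ) ((t : ℂ) • ∑' n, c n • M (s n))))
      (Eventually.of_forall fun F => sum_mem fun n _ => by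
        simp only [expSeries_apply_eq]
        exact G.smul_mem (G.pow_mem (G.smul_mem h4 (t : ℂ)) n) _)
  obtain ⟨A, a1, a2⟩ := key a (fun s => ⟨(s, 0), by simp [hee]⟩) ha
  obtain ⟨B, b1, b2⟩ := key b (fun s => ⟨(0, s), by simp [hee]⟩) hb
  have un : IsUnit (A - 1) := by
    rw [← IsUnit.neg_iff, neg_sub]
    by_contra h
    have h1 : (1 : ℂ) ∈ spectrum ℂ A := by simpa [spectrum.mem_iff] using h
    have h2 := spectrum.norm_le_norm_mul_of_mem (spectrum.exp_mem_exp A h1)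
    have h3 := a2 1
    rw [Complex.ofReal_one, one_smul] at h3
    have h4 : ‖(1 : E →L[ℂ] E)‖ ≤ 1 := ContinuousLinearMap.norm_id_le
    rw [← Complex.exp_eq_exp_ℂ, Complex.norm_exp, Complex.one_re] at h2
    nlinarith [Real.exp_one_gt_d9, norm_nonneg (exp A), norm_nonneg (1 : E →L[ℂ] E)]
  obtain ⟨U, hU⟩ := un
  have hV : (v, (U⁻¹ : (E →L[ℂ] E)ˣ) * (A + 1)) ∈ G := fun f => by
    have h1 := G.sub_mem a1 G.one_mem (v * f)
    have h2 := G.add_mem a1 G.one_mem f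
    simp only [Prod.snd_sub, Prod.snd_one, Prod.fst_sub, Prod.fst_one, ← hU, ← mul_assoc, hv,
      Prod.fst_add, Prod.snd_add] at h1 h2
    simp only [mul_apply_eq_comp]
    rw [h2, ← h1, ← mul_apply_eq_comp, Units.inv_mul, one_apply_eq_self]
  refine ⟨E, inferInstance, inferInstance, inferInstance, A, B, (U⁻¹ : (E →L[ℂ] E)ˣ) * (A + 1),
    uq 1 _ _ (hab ▸ G.mul_mem a1 b1) G.one_mem,
    uq 1 _ _ ((mul_comm b a).trans hab ▸ G.mul_mem b1 a1) G.one_mem, a2, b2, ?_, ?_⟩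
  · rw [mul_assoc, show (A + 1) * (A - 1) = (A - 1) * (A + 1) by noncomm_ring, ← hU,
      Units.inv_mul_cancel_left]
  · rintro ⟨K, hK⟩
    have K0 : 0 ≤ K := (norm_nonneg _).trans (hK 0)
    obtain ⟨n, f, f1, f2⟩ := hd (1 / (2 * (K + 1))) (by positivity)
    have h1 := lo (v ^ n * f) 0
    have h2 : _ = φ0 (v ^ n * f) := G.pow_mem hV n f
    have h3 := up f _ (by positivity) fun p => hee p ▸ f2 p.1 p.2
    rw [← h2, hee] at h1
    simp only [Prod.fst_zero, Prod.snd_zero, Complex.ofReal_zero, zero_smul, exp_zero, one_mul, f1,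
      norm_one] at h1
    have h4 := h1.trans ((ContinuousLinearMap.le_opNorm _ _).trans
      (mul_le_mul (hK n) h3 (norm_nonneg _) K0))
    rw [mul_one_div, le_div_iff₀ (by positivity)] at h4
    linarith

end Pool.Agent.H63.Cogen
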