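import Pool.Agent.H63.Cogen1

set_option autoImplicit false
open Filter Topology NormedSpace Set MeasureTheory Complex

namespace Pool.Agent.H63.Cogen

theorem ibp {φ q q' : ℝ → ℝ} {L lam : ℝ} (hl : 0 < lam)
    (h1 : ∀ x ∈ uIcc (1 : ℝ) 2, HasDerivAt φ (q x) x) (h2 : ∀ x ∈ uIcc (1 : ℝ) 2, HasDerivAt q (q' x) x)
    (h3 : ContinuousOn q' (uIcc 1 2)) (h4 : ∀ x ∈ uIcc (1 : ℝ) 2, |q' x| ≤ L) :
    ‖∫ x in (1 : ℝ)..2, cexp (φ x * I)‖ ≤
      (∫ x in (1 : ℝ)..2, lam ^ 2 / (q x ^ 2 + lam ^ 2)) + 1 / lam + L / lam ^ 2 := by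
  have c1 : ContinuousOn φ (uIcc 1 2) := fun x hx => (h1 x hx).continuousAt.continuousWithinAt
  have c2 : ContinuousOn q (uIcc 1 2) := fun x hx => (h2 x hx).continuousAt.continuousWithinAt
  have p : ∀ x, 0 < q x ^ 2 + lam ^ 2 := fun x => by positivity
  obtain ⟨g', hg'⟩ : ∃ g' : ℝ → ℝ, g' = fun x =>
    q' x * (lam ^ 2 - q x ^ 2) / (q x ^ 2 + lam ^ 2) ^ 2 := ⟨_, rfl⟩
  obtain ⟨w, hw⟩ : ∃ w : ℝ → ℝ, w = fun x => lam ^ 2 / (q x ^ 2 + lam ^ 2) := ⟨_, rfl⟩
  have c3 : ContinuousOn g' (uIcc 1 2) := by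
    rw [hg']; exact ContinuousOn.div (by fun_prop) (by fun_prop) fun x _ => pow_ne_zero _ (p x).ne'
  have c4 : ContinuousOn w (uIcc 1 2) := by
    rw [hw]; exact ContinuousOn.div (by fun_prop) (by fun_prop) fun x _ => (p x).ne'
  have d : ∀ x ∈ uIcc (1 : ℝ) 2, HasDerivAt
      (fun x => cexp (φ x * I) * (q x / (q x ^ 2 + lam ^ 2) : ℝ))
      (I * cexp (φ x * I) - cexp (φ x * I) * (I * w x - g' x)) x := by
    intro x hx
    have a := ((h1 x hx).ofReal_comp.mul_const I).cexp
    have b := ((h2 x hx).fun_div (((h2 x hx).fun_pow 2).add_const (lam ^ 2)) (p x).ne').ofReal_comp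
    refine (a.mul b).congr_deriv ?_
    have : ((q x : ℂ) ^ 2 + (lam : ℂ) ^ 2) ≠ 0 := by exact_mod_cast (p x).ne'
    simp only [hw, hg']
    push_cast
    field_simp
    ring
  have i1 : IntervalIntegrable (fun x => I * cexp (φ x * I)) volume 1 2 :=
    ContinuousOn.intervalIntegrable (by fun_prop)
  have i2 : IntervalIntegrable (fun x => cexp (φ x * I) * (I * w x - g' x)) volume 1 2 :=
    ContinuousOn.intervalIntegrable (by fun_prop)
  have e := intervalIntegral.integral_eq_sub_of_hasDerivAt d (i1.sub i2)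
  rw [intervalIntegral.integral_sub i1 i2, intervalIntegral.integral_const_mul,
    sub_eq_iff_eq_add] at e
  have b1 : ∀ x, ‖cexp (φ x * I) * (q x / (q x ^ 2 + lam ^ 2) : ℝ)‖ ≤ 1 / lam / 2 := by
    intro x
    rw [norm_mul, norm_exp_ofReal_mul_I, one_mul, norm_real, Real.norm_eq_abs, abs_div,
      abs_of_pos (p x), div_div, div_le_div_iff₀ (p x) (by positivity)]
    nlinarith [sq_nonneg (|q x| - lam), sq_abs (q x)]
  have b2 : ‖∫ x in (1 : ℝ)..2, cexp (φ x * I) * (I * w x - g' x)‖ ≤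
      ∫ x in (1 : ℝ)..2, (w x + L / lam ^ 2) := by
    refine intervalIntegral.norm_integral_le_of_norm_le (by norm_num)
      (Eventually.of_forall fun x hx => ?_) (ContinuousOn.intervalIntegrable (by fun_prop))
    have hx' : x ∈ uIcc (1 : ℝ) 2 := by rw [uIcc_of_le (by norm_num)]; exact Ioc_subset_Icc_self hx
    rw [norm_mul, norm_exp_ofReal_mul_I, one_mul]
    refine (norm_sub_le _ _).trans (add_le_add ?_ ?_)
    · rw [norm_mul, norm_I, one_mul, norm_real, Real.norm_of_nonneg (by rw [hw]; positivity)]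
    · have := h4 x hx'
      have L0 := (abs_nonneg _).trans this
      have a : |lam ^ 2 - q x ^ 2| ≤ q x ^ 2 + lam ^ 2 := abs_le.2 ⟨by nlinarith, by nlinarith⟩
      rw [norm_real, Real.norm_eq_abs, hg', abs_div, abs_mul, abs_of_pos (pow_pos (p x) 2)]
      calc _ ≤ L * (q x ^ 2 + lam ^ 2) / (q x ^ 2 + lam ^ 2) ^ 2 := by gcongr
        _ = L / (q x ^ 2 + lam ^ 2) := by field_simp
        _ ≤ _ := by gcongr; exact le_add_of_nonneg_left (sq_nonneg _)
  rw [intervalIntegral.integral_add c4.intervalIntegrable intervalIntegrable_const,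
    intervalIntegral.integral_const] at b2
  have := congrArg norm e
  rw [norm_mul, norm_I, one_mul] at this
  rw [this]
  have b3 := (norm_add_le _ _).trans (add_le_add ((norm_sub_le _ _).trans
    (add_le_add (b1 2) (b1 1))) b2)
  refine b3.trans (le_of_eq ?_)
  rw [← hw, smul_eq_mul]; ring

noncomputable def qq (ω : ℝ × ℝ × ℝ) (x : ℝ) : ℝ :=
  ω.1 + ω.2.1 / (max x 1) ^ 2 - 2 * ω.2.2 / (1 + x ^ 2)

theorem dini {ε : ℝ} (hε : 0 < ε) : ∃ m : ℕ, 0 < m ∧ ∀ ω : ℝ × ℝ × ℝ, ‖ω‖ = 1 →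
    ∫ x in (1 : ℝ)..2, 1 / (1 + (m * qq ω x) ^ 2) ≤ ε := by
  have c0 : Continuous fun z : (ℝ × ℝ × ℝ) × ℝ => qq z.1 z.2 := by
    unfold qq
    fun_prop (disch := intros; positivity)
  have c1 : ∀ m : ℕ, Continuous fun z : (ℝ × ℝ × ℝ) × ℝ => 1 / (1 + (m * qq z.1 z.2) ^ 2) :=
    fun m => by fun_prop (disch := intros; positivity)
  have c2 : ∀ (m : ℕ) ω, Continuous fun x => 1 / (1 + (m * qq ω x) ^ 2) := fun m ω =>
    (c1 m).comp (Continuous.prodMk_right ω)
  have := Antitone.tendstoUniformlyOn_of_forall_tendsto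
    (F := fun (m : ℕ) ω => ∫ x in (1 : ℝ)..2, 1 / (1 + (m * qq ω x) ^ 2)) (f := fun _ => 0)
    (isCompact_sphere (0 : ℝ × ℝ × ℝ) 1)
    (fun m => (intervalIntegral.continuous_parametric_intervalIntegral_of_continuous'
      (c1 m) 1 2).continuousOn)
    (fun ω _ m n h => intervalIntegral.integral_mono (by norm_num)
      ((c2 _ _).intervalIntegrable _ _) ((c2 _ _).intervalIntegrable _ _) fun x => by
        simp only [mul_pow]; gcongr)
    continuousOn_const fun ω hω => by
      have := intervalIntegral.tendsto_integral_filter_of_dominated_convergence (μ := volume)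
        (a := 1) (b := 2) (l := atTop) (F := fun (m : ℕ) x => 1 / (1 + (m * qq ω x) ^ 2))
        (f := fun _ => 0) (fun _ => 1) (Eventually.of_forall fun m => (c2 m ω).aestronglyMeasurable)
        (Eventually.of_forall fun m => Eventually.of_forall fun x _ => by
          rw [Real.norm_of_nonneg (by positivity), div_le_one (by positivity)]
          exact le_add_of_nonneg_right (sq_nonneg _)) intervalIntegrable_const ?_
      · simpa using this
      obtain ⟨a, b, c⟩ := ω
      have hP : (Polynomial.C a * Polynomial.X ^ 4 + Polynomial.C (a + b - 2 * c) * Polynomial.X ^ 2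
          + Polynomial.C b : Polynomial ℝ) ≠ 0 := by
        intro h
        have h0 := congrArg (Polynomial.eval 0) h
        have h1 := congrArg (Polynomial.eval 1) h
        have h2 := congrArg (Polynomial.eval 2) h
        simp at h0 h1 h2
        have : a = 0 := by linarith
        have : c = 0 := by linarith
        simp_all
      filter_upwards [(Polynomial.finite_setOfPred_isRoot hP).countable.ae_notMem volume] with x hx h2
      rw [uIoc_of_le (by norm_num)] at h2
      have ne : qq (a, b, c) x ≠ 0 := by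
        intro h
        apply hx
        have : x ≠ 0 := by linarith [h2.1]
        simp only [qq, max_eq_left h2.1.le] at h
        field_simp at h
        simp
        linarith
      have : Tendsto (fun m : ℕ => 1 + (m * qq (a, b, c) x) ^ 2) atTop atTop := by
        simp only [mul_pow]
        exact tendsto_atTop_add_const_left _ _ (((tendsto_pow_atTop two_ne_zero).comp
          tendsto_natCast_atTop_atTop).atTop_mul_const (by positivity))
      exact tendsto_const_nhds.div_atTop this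
  obtain ⟨m, h1, h2⟩ := ((Metric.tendstoUniformlyOn_iff.1 this ε hε).and (eventually_gt_atTop 0)).exists
  refine ⟨m, h2, fun ω hω => ?_⟩
  have := h1 ω (by simpa using hω)
  rw [dist_comm, Real.dist_eq, sub_zero] at this
  exact (le_abs_self _).trans this.le

theorem osc {ε : ℝ} (hε : 0 < ε) : ∃ n : ℕ, ∀ s t : ℝ,
    ‖∫ x in (1 : ℝ)..2, cexp ((s * x - t / x - 2 * n * Real.arctan x : ℝ) * I)‖ ≤ ε := by
  obtain ⟨m, m0, hm⟩ := dini (half_pos hε)
  obtain ⟨n, hn⟩ := exists_nat_gt ((m + 4 * m ^ 2) / (ε / 2))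
  refine ⟨n, fun s t => ?_⟩
  have m1 : (0 : ℝ) < m := by exact_mod_cast m0
  have n0 : (0 : ℝ) < n := lt_trans (by positivity) hn
  obtain ⟨R, hR⟩ : ∃ R, R = ‖(s, t, (n : ℝ))‖ := ⟨_, rfl⟩
  have R1 : |t| ≤ R := hR ▸ (norm_fst_le (t, (n : ℝ))).trans (norm_snd_le (s, t, (n : ℝ)))
  have R2 : (n : ℝ) ≤ R := hR ▸ (le_abs_self _).trans
    ((norm_snd_le (t, (n : ℝ))).trans (norm_snd_le (s, t, (n : ℝ))))
  have R0 : 0 < R := by linarith
  have h := hm (R⁻¹ • (s, t, (n : ℝ))) (by
    rw [norm_smul, ← hR, Real.norm_of_nonneg (by positivity), inv_mul_cancel₀ R0.ne'])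
  have u : uIcc (1 : ℝ) 2 = Icc 1 2 := uIcc_of_le (by norm_num)
  have := ibp (φ := fun x => s * x - t / x - 2 * n * Real.arctan x)
    (q := fun x => s + t / x ^ 2 - 2 * n / (1 + x ^ 2))
    (q' := fun x => -2 * t / x ^ 3 + 4 * n * x / (1 + x ^ 2) ^ 2) (L := 4 * R) (lam := R / m)
    (by positivity) (fun x hx => by
      have : x ≠ 0 := by rw [u] at hx; linarith [hx.1]
      refine ((((hasDerivAt_id' x).const_mul s).sub (((hasDerivAt_const x t).div
        (hasDerivAt_id' x) this))).sub ((Real.hasDerivAt_arctan x).const_mul _)).congr_deriv ?_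
      field_simp; ring)
    (fun x hx => by
      have : x ≠ 0 := by rw [u] at hx; linarith [hx.1]
      refine ((((hasDerivAt_const x t).div (hasDerivAt_pow 2 x) (by positivity)).const_add s).sub
        ((hasDerivAt_const x (2 * n : ℝ)).div ((hasDerivAt_pow 2 x).const_add 1)
          (by positivity))).congr_deriv ?_
      field_simp; ring)
    (by
      rw [u]
      exact ContinuousOn.add (ContinuousOn.div (by fun_prop) (by fun_prop) fun x hx =>
        pow_ne_zero _ (by linarith [hx.1])) (by fun_prop (disch := intros; positivity)))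
    (fun x hx => by
      rw [u] at hx
      have x1 := hx.1
      have a : |-2 * t / x ^ 3| ≤ 2 * R := by
        rw [abs_div, abs_mul, abs_of_pos (by positivity : 0 < x ^ 3), div_le_iff₀ (by positivity)]
        norm_num
        nlinarith [one_le_pow₀ (n := 3) x1]
      have b : |4 * n * x / (1 + x ^ 2) ^ 2| ≤ 2 * R := by
        rw [abs_of_pos (by positivity), div_le_iff₀ (by positivity)]
        have : 2 * x ≤ (1 + x ^ 2) ^ 2 := by nlinarith [sq_nonneg (x - 1), sq_nonneg (x ^ 2)]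
        nlinarith [mul_le_mul R2 this (by positivity) R0.le]
      linarith [abs_add_le (-2 * t / x ^ 3) (4 * n * x / (1 + x ^ 2) ^ 2)])
  have e : ∫ x in (1 : ℝ)..2, (R / m) ^ 2 / ((s + t / x ^ 2 - 2 * n / (1 + x ^ 2)) ^ 2 + (R / m) ^ 2) =
      ∫ x in (1 : ℝ)..2, 1 / (1 + (m * qq (R⁻¹ • (s, t, (n : ℝ))) x) ^ 2) := by
    refine intervalIntegral.integral_congr fun x hx => ?_
    rw [u] at hx
    have : qq (R⁻¹ • (s, t, (n : ℝ))) x = (s + t / x ^ 2 - 2 * n / (1 + x ^ 2)) / R := by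
      simp only [qq, max_eq_left hx.1, Prod.smul_mk, smul_eq_mul]; ring
    simp only [this]
    generalize s + t / x ^ 2 - 2 * n / (1 + x ^ 2) = y
    field_simp
    ring
  have e2 : 1 / (R / m) + 4 * R / (R / m) ^ 2 ≤ ε / 2 := by
    rw [show 1 / (R / m) + 4 * R / (R / m) ^ 2 = (m + 4 * m ^ 2) / R by field_simp,
      div_le_iff₀ R0]
    rw [div_lt_iff₀ (by positivity)] at hn
    nlinarith
  rw [e] at this
  linarith

theorem bern : ∃ c : ℤ → ℂ, Summable (fun n => ‖c n‖) ∧ ∀ x ∈ Icc (0 : ℝ) (1 / 2),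
    HasSum (fun n : ℤ => c n * cexp (2 * Real.pi * I * n * x)) x := by
  have s1 : Summable fun n : ℤ => 1 / (n : ℝ) ^ 2 := Real.summable_one_div_int_pow.2 one_lt_two
  refine ⟨fun n => (if n = 0 then 1 / 4 else 0) +
    (1 / (n : ℂ) ^ 2) * (cexp (Real.pi * I * n) - 1) / (2 * Real.pi ^ 2), ?_, fun x hx => ?_⟩
  · rw [summable_norm_iff]
    refine (hasSum_ite_eq (0 : ℤ) (1 / 4 : ℂ)).summable.add (Summable.div_const ?_ _)
    refine Summable.of_norm_bounded (s1.mul_right 2) fun n => ?_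
    rw [norm_mul]
    refine mul_le_mul (by simp) ((norm_sub_le _ _).trans ?_) (norm_nonneg _) (by positivity)
    rw [norm_exp]; norm_num
  · have h1 := hasSum_one_div_pow_mul_fourier_mul_bernoulliFun le_rfl (x := x)
      ⟨hx.1, by linarith [hx.2]⟩
    have h2 := hasSum_one_div_pow_mul_fourier_mul_bernoulliFun le_rfl (x := x + 1 / 2)
      ⟨by linarith [hx.1], by linarith [hx.2]⟩
    have h3 := (hasSum_ite_eq (0 : ℤ) (1 / 4 : ℂ)).add ((h2.sub h1).div_const (2 * Real.pi ^ 2))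
    have p : (Real.pi : ℂ) ≠ 0 := by exact_mod_cast Real.pi_ne_zero
    have e : (1 / 4 : ℂ) + (-(2 * Real.pi * I) ^ 2 / (Nat.factorial 2 : ℕ) * bernoulliFun 2 (x + 1 / 2) -
        -(2 * Real.pi * I) ^ 2 / (Nat.factorial 2 : ℕ) * bernoulliFun 2 x) / (2 * Real.pi ^ 2) = x := by
      simp only [bernoulliFun_two, mul_pow, I_sq, Nat.factorial]
      push_cast
      field_simp
      ring
    rw [e] at h3
    refine h3.congr_fun fun n => ?_
    simp only [fourier_coe_apply]
    rw [show (2 * Real.pi * I * n * ((x + 1 / 2 : ℝ) : ℂ) / (1 : ℝ)) =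
      Real.pi * I * n + 2 * Real.pi * I * n * x by push_cast; ring, Complex.exp_add]
    split_ifs with h
    · simp [h]
    · simp only [ofReal_one, div_one]; ring

abbrev CC := C(Icc (1 : ℝ) 2, ℂ)

theorem exp_apply (g : CC) (x : Icc (1 : ℝ) 2) : (exp g) x = cexp (g x) := by
  letI := NormedAlgebra.restrictScalars ℚ ℂ CC
  rw [Complex.exp_eq_exp_ℂ]
  exact map_exp (ContinuousMap.evalAlgHom ℂ ℂ x) (continuous_eval_const x) g

theorem ser (g : CC) (σ : ℝ) (hσ : σ ≠ 0) (y : Icc (1 : ℝ) 2 → ℝ) (hy : ∀ x, y x ∈ Icc (0 : ℝ) (1 / 2))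
    (hg : ∀ x, g x = σ * y x * I) : ∃ (c : ℤ → ℂ) (s : ℤ → ℝ), Summable (fun n => ‖c n‖) ∧
      HasSum (fun n => c n • exp ((s n : ℂ) • g)) g := by
  obtain ⟨c, c1, c2⟩ := bern
  have σ0 : (σ : ℂ) ≠ 0 := by exact_mod_cast hσ
  have e : ∀ (n : ℤ) x, (exp (((2 * Real.pi * n / σ : ℝ) : ℂ) • g)) x =
      cexp (2 * Real.pi * I * n * y x) := fun n x => by
    rw [exp_apply, ContinuousMap.smul_apply, hg, smul_eq_mul]
    congr 1; push_cast; field_simp
  have s1 : Summable fun n => ‖σ * I * c n‖ := by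
    simp only [norm_mul]; exact c1.mul_left _
  refine ⟨fun n => σ * I * c n, fun n => 2 * Real.pi * n / σ, s1, ?_⟩
  have s2 : Summable fun n : ℤ => (σ * I * c n) • exp (((2 * Real.pi * n / σ : ℝ) : ℂ) • g) :=
    .of_norm_bounded s1 fun n => by
      rw [norm_smul]
      refine mul_le_of_le_one_right (norm_nonneg _) ((ContinuousMap.norm_le _ zero_le_one).2
        fun x => ?_)
      rw [e, norm_exp]; simp
  convert s2.hasSum
  ext x
  refine HasSum.unique ?_ (ContinuousMap.hasSum_apply s2.hasSum x)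
  rw [hg, mul_right_comm]
  refine ((c2 _ (hy x)).mul_left _).congr_fun fun n => ?_
  rw [ContinuousMap.smul_apply, e, smul_eq_mul, mul_assoc]

theorem final : ∃ (E : Type) (_ : NormedAddCommGroup E) (_ : NormedSpace ℂ E) (_ : CompleteSpace E)
      (A B V : E →L[ℂ] E), A * B = 1 ∧ B * A = 1 ∧ (∀ t : ℝ, ‖exp ((t : ℂ) • A)‖ ≤ 1) ∧
      (∀ t : ℝ, ‖exp ((t : ℂ) • B)‖ ≤ 1) ∧ V * (A - 1) = A + 1 ∧ ¬ ∃ K : ℝ, ∀ n : ℕ, ‖V ^ n‖ ≤ K := by
  have ne : ∀ x : Icc (1 : ℝ) 2, (x : ℝ) ≠ 0 := fun x => by linarith [x.2.1]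
  have ne' : ∀ x : Icc (1 : ℝ) 2, ((x : ℝ) : ℂ) ≠ 0 := fun x => by exact_mod_cast ne x
  have ii : ∀ f : CC, IntervalIntegrable (fun x => f (projIcc 1 2 one_le_two x)) volume 1 2 :=
    fun f => (f.continuous.comp continuous_projIcc).intervalIntegrable _ _
  let l0 : CC →ₗ[ℂ] ℂ :=
    { toFun := fun f => ∫ x in (1 : ℝ)..2, f (projIcc 1 2 one_le_two x)
      map_add' := fun f g => intervalIntegral.integral_add (ii f) (ii g)
      map_smul' := fun c f => intervalIntegral.integral_smul c _ }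
  let a : CC := ⟨fun x => (x : ℝ) * I, by fun_prop⟩
  let b : CC := ⟨fun x => (-((x : ℝ)⁻¹) : ℝ) * I, by fun_prop (disch := exact ne)⟩
  let θ : CC := ⟨fun x => (2 * Real.arctan x : ℝ) * I, by fun_prop⟩
  refine model (l0.mkContinuous 1 fun f => ?_) a b (-exp θ) ?_ (fun s t => ?_)
    (ser a 4 (by norm_num) (fun x => x / 4) (fun x => ⟨by linarith [x.2.1], by linarith [x.2.2]⟩)
      fun x => by simp [a]; ring)
    (ser b (-4) (by norm_num) (fun x => (x : ℝ)⁻¹ / 4) (fun x => ⟨by have := x.2.1; positivity, by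
      linarith [inv_le_one_of_one_le₀ x.2.1]⟩) fun x => by simp [b]; ring) ?_ fun ε hε => ?_
  · have := intervalIntegral.norm_integral_le_of_norm_le_const (a := 1) (b := 2)
      fun x _ => f.norm_coe_le_norm (projIcc 1 2 one_le_two x)
    norm_num at this
    rwa [one_mul]
  · ext x
    have := ne' x
    simp only [a, b, ContinuousMap.mul_apply, ContinuousMap.coe_mk, ContinuousMap.one_apply]
    push_cast
    field_simp
    simp
  · refine (ContinuousMap.norm_le _ zero_le_one).2 fun x => ?_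
    simp [exp_apply, norm_exp, a, b]
  · ext x
    have r := Real.sq_sqrt (by positivity : 0 ≤ 1 + (x : ℝ) ^ 2)
    have r0 : √(1 + (x : ℝ) ^ 2) ≠ 0 := by positivity
    have e : cexp ((2 * Real.arctan x : ℝ) * I) = (((1 / √(1 + (x : ℝ) ^ 2) : ℝ) : ℂ) +
        ((x / √(1 + (x : ℝ) ^ 2) : ℝ) : ℂ) * I) ^ 2 := by
      rw [← Real.cos_arctan, ← Real.sin_arctan, ofReal_cos, ofReal_sin, ← exp_mul_I,
        ← Complex.exp_nat_mul]
      congr 1; push_cast; ring
    simp only [a, θ, ContinuousMap.mul_apply, ContinuousMap.coe_mk, ContinuousMap.one_apply,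
      ContinuousMap.sub_apply, ContinuousMap.add_apply, ContinuousMap.neg_apply, exp_apply, e]
    generalize √(1 + (x : ℝ) ^ 2) = ρ at r r0
    have r1 : (ρ : ℂ) ≠ 0 := by exact_mod_cast r0
    have r2 : (ρ : ℂ) ^ 2 = 1 + ((x : ℝ) : ℂ) ^ 2 := by exact_mod_cast r
    push_cast
    field_simp
    rw [r2]
    linear_combination (-((x : ℝ) : ℂ) ^ 2 * (((x : ℝ) : ℂ) * I + 1)) * I_sq
  · obtain ⟨n, hn⟩ := osc hε
    refine ⟨n, (-exp (-θ)) ^ n, ?_, fun s t => ?_⟩
    · have : -exp θ * -exp (-θ) = 1 := by ext x; simp [exp_apply, ← Complex.exp_add]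
      rw [← mul_pow, this, one_pow]
      simp [l0]; norm_num
    · refine le_trans (le_of_eq ?_) (hn s t)
      have : ∫ x in (1 : ℝ)..2, (exp ((s : ℂ) • a) * exp ((t : ℂ) • b) * (-exp (-θ)) ^ n)
          (projIcc 1 2 one_le_two x) = (-1) ^ n *
          ∫ x in (1 : ℝ)..2, cexp ((s * x - t / x - 2 * n * Real.arctan x : ℝ) * I) := by
        rw [← intervalIntegral.integral_const_mul]
        refine intervalIntegral.integral_congr fun x hx => ?_
        rw [uIcc_of_le one_le_two] at hx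
        simp only [projIcc_of_mem _ hx, ContinuousMap.mul_apply, ContinuousMap.pow_apply,
          ContinuousMap.neg_apply, exp_apply, ContinuousMap.smul_apply, a, b, θ,
          ContinuousMap.coe_mk, smul_eq_mul]
        rw [neg_pow, ← Complex.exp_nat_mul, mul_left_comm, ← Complex.exp_add, ← Complex.exp_add]
        congr 2; push_cast; ring
      change ‖∫ x in (1 : ℝ)..2, _‖ = _
      rw [this]; simp

end Pool.Agent.H63.Cogen
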