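import Mathlib

set_option autoImplicit false
open Function

namespace Pool.Agent.H63.Dist

def opR (e r u : ℕ) : ℕ :=
  if e = 3 ∧ u = 7 then 5 else
  if r = 0 ∨ r = 13 then
    (if e = 0 ∧ (u = 0 ∨ u = 4) then 9 else if e = 3 ∧ (u = 1 ∨ u = 3) then 10 else
     if e = 2 ∧ u = 2 then 2 else 0) else
  if e = 3 then (if u = 0 ∨ u = 6 then 9 else 0) else
  if e = 2 then (if u = 1 ∨ u = 5 then (if r % 2 = 0 then 10 else 12) else 0) else
  if e = 1 then (if u = 2 ∨ (9 ≤ r ∧ u = 4) then (r + 1) / 2 * 2 else 0) else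
  if u = 3 then 2 else 0

def op (e g t : ℕ) : ℕ :=
  if t < 7 then (if e = 3 ∧ t < g then 1 else 0) else
  if 119 ≤ t then (if e = 3 ∧ 119 + g ≤ t then 1 else 0) else opR e ((t - 7) / 8) ((t - 7) % 8)

def iv (p : ℕ) : ℕ := if p = 0 ∨ 9 ≤ p then p else if (p - 1) / 2 % 2 = 0 then p + 2 else p - 2

theorem op_le (e g t : ℕ) : op e g t ≤ 12 := by unfold op opR; split_ifs <;> omega

abbrev Ph := ZMod 10000 × Fin 7 × ZMod 126

def md (g : Fin 7) (ρ : Ph) : ℕ :=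
  if g = 1 then 1 else if g = 2 ∨ g = 3 ∨ g = 6 then
    (if ρ.2.1 = 2 ∧ ρ.1 = 0 then 1 else if ρ.2.1 = 3 ∧ ρ.1 = 1 then 2 else 0) else 0

def pP : Equiv.Perm (Fin 7) := ⟨![1, 4, 2, 3, 5, 6, 0], ![6, 0, 2, 3, 1, 4, 5], by decide, by decide⟩
def pQ : Equiv.Perm (Fin 7) := ⟨![2, 1, 3, 0, 4, 5, 6], ![3, 1, 0, 2, 4, 5, 6], by decide, by decide⟩

def hub (π : Equiv.Perm (Fin 7)) : Equiv.Perm Ph where
  toFun ρ := (ρ.1, if ρ.2.2 = 0 then π ρ.2.1 else ρ.2.1, ρ.2.2)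
  invFun ρ := (ρ.1, if ρ.2.2 = 0 then π.symm ρ.2.1 else ρ.2.1, ρ.2.2)
  left_inv := by rintro ⟨l, g, t⟩; by_cases h : t = 0 <;> simp [h]
  right_inv := by rintro ⟨l, g, t⟩; by_cases h : t = 0 <;> simp [h]

def uT : Equiv.Perm Ph := (Equiv.refl _).prodCongr ((Equiv.refl _).prodCongr (Equiv.addRight 1))

def uF : Equiv.Perm Ph where
  toFun ρ := if ρ.2.1 = 2 then (ρ.1 + 1, 2, if ρ.1 = 0 then ρ.2.2 + 1 else ρ.2.2) else
    if ρ.2.1 = 3 then (ρ.1 - 1, 3, if ρ.1 = 1 then ρ.2.2 - 1 else ρ.2.2) else ρ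
  invFun ρ := if ρ.2.1 = 2 then (ρ.1 - 1, 2, if ρ.1 = 1 then ρ.2.2 - 1 else ρ.2.2) else
    if ρ.2.1 = 3 then (ρ.1 + 1, 3, if ρ.1 = 0 then ρ.2.2 + 1 else ρ.2.2) else ρ
  left_inv := by
    rintro ⟨l, g, t⟩
    by_cases h2 : g = 2
    · by_cases h : l = 0 <;> simp [h2, h]
    · by_cases h3 : g = 3
      · by_cases h : l = 1 <;> simp [h3, h, sub_eq_zero]
      · simp [h2, h3]
  right_inv := by
    rintro ⟨l, g, t⟩
    by_cases h2 : g = 2
    · by_cases h : l = 1 <;> simp [h2, h, sub_eq_zero]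
    · by_cases h3 : g = 3
      · by_cases h : l = 0 <;> simp [h3, h]
      · simp [h2, h3]

def up (g : Fin 7) : Equiv.Perm Ph := ![1, uT, uF, uF, hub pP, hub pQ, uF] g

abbrev Ad := Fin 4 × Ph
abbrev S := Bool ⊕ (Ad × Fin 7 × Fin 14)
abbrev Cell := Bool × Bool × S
abbrev St := Ad × Cell

def lop (g : Fin 7) (a : Ad) : ℕ :=
  if md g a.2 = 1 then op a.1 a.2.2.1 a.2.2.2.val else
  if md g a.2 = 2 then iv (op a.1 a.2.2.1 (a.2.2.2 - 1).val) else 0

theorem lop_le (g : Fin 7) (a : Ad) : lop g a ≤ 12 := by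
  have := op_le a.1 a.2.2.1 a.2.2.2.val
  have := op_le a.1 a.2.2.1 (a.2.2.2 - 1).val
  unfold lop iv; split_ifs <;> omega

def val : S → Bool
  | .inl b => b
  | .inr (a, g, r) => if r = 0 then md g a.2 == 1 else if r = 13 then md g a.2 == 2 else lop g a == r

def nx (k : ℕ) : S → S
  | .inl b => .inl !b
  | .inr (a, g, r) => if k = 0 then .inr (a, g + 1, r) else if k = 1 then .inr (a, g - 1, r) else
      if k = 2 then .inr ((a.1, if r = 13 then up g a.2 else a.2), g, r + 1) else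
        .inr ((a.1, if r = 0 then (up g).symm a.2 else a.2), g, r - 1)

def loc (p : ℕ) (c : Cell) : Cell :=
  if p = 0 ∨ (p % 2 = 0 ∧ c.1 = false) then c else
  if p ≤ 8 then (c.1, c.2.1, nx ((p - 1) / 2) c.2.2) else
  (c.1, c.2.1 ^^ (if p ≤ 10 then val c.2.2 else true), c.2.2)

theorem nx_nx (s : S) : nx 0 (nx 1 s) = s ∧ nx 1 (nx 0 s) = s ∧ nx 2 (nx 3 s) = s ∧ nx 3 (nx 2 s) = s := by
  rcases s with b | ⟨a, g, r⟩
  · simp [nx]
  · have h1 : r - 1 = 13 ↔ r = 0 := by revert r; decide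
    have h2 : r + 1 = 0 ↔ r = 13 := by revert r; decide
    refine ⟨by simp [nx], by simp [nx], ?_, ?_⟩
    · by_cases h : r = 0
      · subst h; simp [nx, show (-1 : Fin 14) = 13 from rfl]
      · simp [nx, h1, h]
    · by_cases h : r = 13
      · subst h; simp [nx, show (-1 : Fin 14) = 13 from rfl]
      · simp [nx, h2, h]

theorem loc_iv (p : ℕ) (hp : p ≤ 12) (c : Cell) : loc (iv p) (loc p c) = c ∧ loc p (loc (iv p) c) = c := by
  obtain ⟨i, o, s⟩ := c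
  have := nx_nx s
  interval_cases p <;> cases i <;> simp [loc, iv, this]

def com (c : Cell) (b : Bool) : Cell := (c.1 ^^ b, c.2)

abbrev Blk := Cell × Cell × Cell × Cell

def G (o : ℕ → ℕ) (B : Blk) (b : Bool) : Blk :=
  (loc (o 0) (com B.1 B.2.1.2.1), loc (o 1) (com B.2.1 B.2.2.1.2.1),
    loc (o 2) (com B.2.2.1 B.2.2.2.2.1), loc (o 3) (com B.2.2.2 b))

def It (o : ℕ → ℕ → ℕ) (b : ℕ → Bool) (B : Blk) : ℕ → Blk
  | 0 => B
  | t + 1 => G (o t) (It o b B t) (b t)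

theorem It_add (o : ℕ → ℕ → ℕ) (b : ℕ → Bool) (B : Blk) (m n : ℕ) :
    It o b B (m + n) = It (fun t => o (m + t)) (fun t => b (m + t)) (It o b B m) n := by
  induction n with
  | zero => rfl
  | succ n ih => rw [← add_assoc, It, It, ih]

theorem It_congr {o o' : ℕ → ℕ → ℕ} {b b' : ℕ → Bool} (B : Blk) (n : ℕ)
    (h : ∀ t < n, o t = o' t ∧ b t = b' t) : It o b B n = It o' b' B n := by
  induction n with
  | zero => rfl
  | succ n ih => rw [It, It, ih fun t ht => h t (by omega), (h n (by omega)).1, (h n (by omega)).2]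

theorem It_out (o : ℕ → ℕ → ℕ) (b : ℕ → Bool) (B : Blk) (n : ℕ) (h : ∀ t < n, o t 0 ≤ 8) :
    (It o b B n).1.2.1 = B.1.2.1 := by
  induction n with
  | zero => rfl
  | succ n ih =>
    rw [← ih fun t ht => h t (by omega)]
    simp only [It, G, loc, if_pos (h n (by omega))]
    split_ifs <;> rfl

theorem It0 (o : ℕ → ℕ → ℕ) (b : ℕ → Bool) (B : Blk) : It o b B 0 = B := rfl
theorem It1 (o : ℕ → ℕ → ℕ) (b : ℕ → Bool) (B : Blk) :
    It o b B 1 = G (o 0) (It o b B 0) (b 0) := rfl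
theorem It2 (o : ℕ → ℕ → ℕ) (b : ℕ → Bool) (B : Blk) :
    It o b B 2 = G (o 1) (It o b B 1) (b 1) := rfl
theorem It3 (o : ℕ → ℕ → ℕ) (b : ℕ → Bool) (B : Blk) :
    It o b B 3 = G (o 2) (It o b B 2) (b 2) := rfl
theorem It4 (o : ℕ → ℕ → ℕ) (b : ℕ → Bool) (B : Blk) :
    It o b B 4 = G (o 3) (It o b B 3) (b 3) := rfl
theorem It5 (o : ℕ → ℕ → ℕ) (b : ℕ → Bool) (B : Blk) :
    It o b B 5 = G (o 4) (It o b B 4) (b 4) := rfl
theorem It6 (o : ℕ → ℕ → ℕ) (b : ℕ → Bool) (B : Blk) :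
    It o b B 6 = G (o 5) (It o b B 5) (b 5) := rfl
theorem It7 (o : ℕ → ℕ → ℕ) (b : ℕ → Bool) (B : Blk) :
    It o b B 7 = G (o 6) (It o b B 6) (b 6) := rfl
theorem It8 (o : ℕ → ℕ → ℕ) (b : ℕ → Bool) (B : Blk) :
    It o b B 8 = G (o 7) (It o b B 7) (b 7) := rfl

def blk (a : Ad) (g : Fin 7) (r : Fin 14) (c : Cell) : Blk :=
  ((false, false, .inl c.2.1), (false, false, c.2.2), (false, false, .inl c.1),
    (false, false, .inr (a, g, r)))

def pul (b : Bool) (u : ℕ) : Bool := if 1 ≤ u ∧ u ≤ 4 then b else false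

theorem roundC (a : Ad) (g : Fin 7) (c : Cell) (b : Bool) (r : Fin 14) (hr : r = 0 ∨ r = 13) :
    It (fun u e => opR e r u) (pul b) (blk a g r c) 8 =
      blk (a.1, if r = 13 then up g a.2 else a.2) g (r + 1) (com c (val (.inr (a, g, r)) && b)) ∧
    ∀ u < 8, (It (fun u e => opR e r u) (pul b) (blk a g r c) u).1.2.1 = pul c.2.1 u := by
  obtain ⟨i, o, s⟩ := c
  obtain ⟨m, hm⟩ : ∃ m, val (.inr (a, g, r)) = m := ⟨_, rfl⟩
  have h2 : ∀ b, val (.inl b) = b := fun _ => rfl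
  have h3 : ∀ k b, nx k (.inl b) = .inl !b := fun _ _ => rfl
  have h4 : nx 2 (.inr (a, g, r)) = .inr ((a.1, if r = 13 then up g a.2 else a.2), g, r + 1) := rfl
  refine ⟨?_, fun u hu => ?_⟩
  · rcases hr with rfl | rfl <;> cases i <;> cases o <;> cases m <;> cases b <;>
      simp +decide [It0, It1, It2, It3, It4, It5, It6, It7, It8, G, loc, com, blk, pul, h2, h3, h4,
        hm, opR]
  · rcases hr with rfl | rfl <;> interval_cases u <;> cases i <;> cases o <;> cases m <;> cases b <;>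
      simp +decide [It0, It1, It2, It3, It4, It5, It6, It7, G, loc, com, blk, pul, h2, h3, hm, opR]

theorem roundL (a : Ad) (g : Fin 7) (c : Cell) (r : Fin 14) (h0 : r ≠ 0) (h13 : r ≠ 13) :
    It (fun u e => opR e r u) (fun _ => false) (blk a g r c) 8 =
      blk a g (r + 1) (if lop g a = r then loc r c else c) := by
  obtain ⟨i, o, s⟩ := c
  obtain ⟨m, hm⟩ : ∃ m, val (.inr (a, g, r)) = m := ⟨_, rfl⟩
  obtain ⟨v, hv⟩ : ∃ v, val s = v := ⟨_, rfl⟩
  have h1 : (lop g a = r) = (m = true) := by rw [← hm]; simp [val, h0, h13]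
  have h2 : ∀ b, val (.inl b) = b := fun _ => rfl
  have h3 : ∀ k b, nx k (.inl b) = .inl !b := fun _ _ => rfl
  have h4 : nx 2 (.inr (a, g, r)) = .inr (a, g, r + 1) := by simp [nx, h13]
  simp only [h1]
  clear h1
  have : r = 1 ∨ r = 2 ∨ r = 3 ∨ r = 4 ∨ r = 5 ∨ r = 6 ∨ r = 7 ∨ r = 8 ∨ r = 9 ∨ r = 10 ∨ r = 11 ∨
      r = 12 := by clear hm h4; revert r; decide
  rcases this with rfl | rfl | rfl | rfl | rfl | rfl | rfl | rfl | rfl | rfl | rfl | rfl <;>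
    cases i <;> cases o <;> cases m <;> cases v <;>
      simp +decide [It0, It1, It2, It3, It4, It5, It6, It7, It8, G, loc, com, blk, h2, h3, h4,
        hm, hv, opR]

end Pool.Agent.H63.Dist
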