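import Pool.Agent.H63.Dist1

set_option autoImplicit false
open Function

namespace Pool.Agent.H63.Dist

def inp (b0 b1 : Bool) (t : ℕ) : Bool :=
  if 8 ≤ t ∧ t ≤ 11 then b0 else if 112 ≤ t ∧ t ≤ 115 then b1 else false

def oo (g : Fin 7) (t e : ℕ) : ℕ := op e g t

def mid (g : Fin 7) (x : St) (b : Bool) : Cell := loc (lop g x.1) (com x.2 (md g x.1.2 == 1 && b))

def enc (x : St) : Blk := blk x.1 0 0 x.2

theorem seg (g : Fin 7) (b0 b1 : Bool) (B : Blk) (r u : ℕ) (hr : r ≤ 13) (hu : u ≤ 8) :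
    It (oo g) (inp b0 b1) B (7 + 8 * r + u) = It (fun u e => opR e r u)
      (if r = 0 then pul b0 else if r = 13 then pul b1 else fun _ => false)
      (It (oo g) (inp b0 b1) B (7 + 8 * r)) u := by
  rw [It_add]
  refine It_congr _ _ fun t ht => ⟨funext fun e => ?_, ?_⟩
  · simp only [oo, op]
    rw [if_neg (by omega), if_neg (by omega)]
    congr 1 <;> omega
  · unfold inp pul
    split_ifs <;> first | rfl | omega | skip
    all_goals simp only []; split_ifs <;> first | rfl | omega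

theorem at7 (g : Fin 7) (b0 b1 : Bool) (x : St) :
    It (oo g) (inp b0 b1) (enc x) 7 = blk x.1 g 0 x.2 := by
  fin_cases g <;> rfl

theorem upto (g : Fin 7) (b0 b1 : Bool) (x : St) (k : ℕ) (hk : k ≤ 12) :
    It (oo g) (inp b0 b1) (enc x) (7 + 8 * (k + 1)) = blk x.1 g ⟨k + 1, by omega⟩
      (if lop g x.1 ≤ k then mid g x b0 else com x.2 (md g x.1.2 == 1 && b0)) := by
  induction k with
  | zero =>
    refine (seg g b0 b1 _ 0 8 (by omega) le_rfl).trans ?_
    rw [if_pos rfl, show 7 + 8 * 0 = 7 from rfl, at7]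
    refine (roundC x.1 g x.2 b0 0 (.inl rfl)).1.trans ?_
    split_ifs with h h' h'
    · exact absurd h (by decide)
    · exact absurd h (by decide)
    · rw [mid, Nat.le_zero.1 h']; rfl
    · rfl
  | succ k ih =>
    refine (seg g b0 b1 _ (k + 1) 8 (by omega) le_rfl).trans ?_
    rw [if_neg (by omega), if_neg (by omega), ih (by omega)]
    refine (roundL x.1 g _ ⟨k + 1, by omega⟩ (by simp) (by simp [Fin.ext_iff]; omega)).trans ?_
    congr 1
    · ext; simp [Fin.val_add]; omega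
    · simp only []
      by_cases h : lop g x.1 = k + 1
      · rw [if_pos h, if_neg (by omega), if_pos h.le, mid, h]
      · rw [if_neg h]; exact if_congr (by omega) rfl rfl

def Φ (g : Fin 7) (x y z : St) : St := ((x.1.1, up g x.1.2),
  com (mid g x y.2.2.1) (md g x.1.2 == 2 && (mid g y z.2.2.1).2.1))

theorem full (g : Fin 7) (b0 b1 : Bool) (x : St) :
    It (oo g) (inp b0 b1) (enc x) 126 =
      enc ((x.1.1, up g x.1.2), com (mid g x b0) (md g x.1.2 == 2 && b1)) ∧
    ∀ t < 126, (It (oo g) (inp b0 b1) (enc x) t).1.2.1 = inp x.2.2.1 (mid g x b0).2.1 t := by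
  have h111 := upto g b0 b1 x 12 le_rfl
  rw [if_pos (lop_le _ _)] at h111
  have hC := roundC x.1 g (mid g x b0) b1 13 (.inr rfl)
  have h119 := (seg g b0 b1 (enc x) 13 8 le_rfl le_rfl).trans
    ((congrArg (fun B => It _ _ B 8) h111).trans hC.1)
  refine ⟨?_, fun t ht => ?_⟩
  · refine (It_add _ _ _ 119 7).trans ?_
    rw [show It (oo g) (inp b0 b1) (enc x) 119 = _ from h119]
    fin_cases g <;> rfl
  by_cases h1 : t < 7
  · rw [It_out _ _ _ _ fun u hu => by simp [oo, op, show u < 7 by omega], inp, if_neg (by omega),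
      if_neg (by omega)]; rfl
  by_cases h2 : t < 15
  · obtain ⟨u, rfl⟩ : ∃ u, t = 7 + 8 * 0 + u := ⟨t - 7, by omega⟩
    rw [seg _ _ _ _ _ _ (by omega) (by omega), if_pos rfl, show 7 + 8 * 0 = 7 from rfl, at7]
    refine ((roundC x.1 g x.2 b0 0 (.inl rfl)).2 u (by omega)).trans ?_
    unfold inp pul; split_ifs <;> first | rfl | omega
  by_cases h3 : t < 111
  · obtain ⟨u, rfl⟩ : ∃ u, t = 7 + 8 * (0 + 1) + u := ⟨t - 15, by omega⟩
    rw [inp, if_neg (by omega), if_neg (by omega), It_add, It_out _ _ _ _ fun w hw => by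
      have e : ¬((7 + 8 * (0 + 1) + w - 7) / 8 = 0 ∨ (7 + 8 * (0 + 1) + w - 7) / 8 = 13) := by omega
      simp only [oo, op, opR, e]; split_ifs <;> simp_all, upto _ _ _ _ _ (by omega)]; rfl
  by_cases h4 : t < 119
  · obtain ⟨u, rfl⟩ : ∃ u, t = 7 + 8 * 13 + u := ⟨t - 111, by omega⟩
    rw [seg _ _ _ _ _ _ (by omega) (by omega), if_neg (by omega), if_pos rfl, h111]
    refine (hC.2 u (by omega)).trans ?_
    unfold inp pul; split_ifs <;> first | rfl | omega
  · obtain ⟨u, rfl⟩ : ∃ u, t = 7 + 8 * 13 + 8 + u := ⟨t - 119, by omega⟩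
    rw [inp, if_neg (by omega), if_neg (by omega), It_add, It_out _ _ _ _ fun w hw => by
      simp only [oo, op]; split_ifs <;> omega, h119]; rfl

def step (g : Fin 7) (x : ℤ → St) (n : ℤ) : St := Φ g (x n) (x (n + 1)) (x (n + 1 + 1))

def e4 (n : ℤ) : Fin 4 := ⟨(n % 4).toNat, by omega⟩

def lab (ρ : Ph) (y : ℤ → Cell) (n : ℤ) : St := ((e4 n, ρ), y n)

def H (g t : ℕ) (y : ℤ → Cell) (n : ℤ) : Cell := loc (op (e4 n) g t) (com (y n) (y (n + 1)).2.1)

def H' (g t : ℕ) (y : ℤ → Cell) (n : ℤ) : Cell :=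
  com (loc (iv (op (e4 n) g t)) (y n)) (loc (iv (op (e4 (n + 1)) g t)) (y (n + 1))).2.1

theorem H'_H (g t : ℕ) (y : ℤ → Cell) : H' g t (H g t y) = y := by
  funext n; simp [H, H', (loc_iv _ (op_le _ _ _) _).1, com]

theorem H_H' (g t : ℕ) (y : ℤ → Cell) : H g t (H' g t y) = y := by
  funext n; simp [H, H', (loc_iv _ (op_le _ _ _) _).2, com]

theorem step_lab (g : Fin 7) (ρ : Ph) (y : ℤ → Cell) : step g (lab ρ y) = lab (up g ρ)
    (if md g ρ = 1 then H ρ.2.1 ρ.2.2.val y else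
      if md g ρ = 2 then H' ρ.2.1 (ρ.2.2 - 1).val y else y) := by
  funext n
  by_cases h1 : md g ρ = 1
  · simp [step, Φ, lab, mid, lop, h1, H, com]
  by_cases h2 : md g ρ = 2
  · simp [step, Φ, lab, mid, lop, h2, H', com]
  · simp [step, Φ, lab, mid, lop, beq_false_of_ne h1, beq_false_of_ne h2, h1, h2, com, loc]

def sel (B : Blk) (e : Fin 4) : Cell := ![B.1, B.2.1, B.2.2.1, B.2.2.2] e

def unb (B : ℤ → Blk) (n : ℤ) : Cell := sel (B (n / 4)) (e4 n)

theorem H_unb (g t : ℕ) (B : ℤ → Blk) :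
    H g t (unb B) = unb fun j => G (fun e => op e g t) (B j) (B (j + 1)).1.2.1 := by
  funext n
  have h : n % 4 = 0 ∨ n % 4 = 1 ∨ n % 4 = 2 ∨ n % 4 = 3 := by omega
  rcases h with h | h | h | h
  · simp [H, unb, sel, G, e4, h, show (n + 1) % 4 = 1 by omega, show (n + 1) / 4 = n / 4 by omega]
  · simp [H, unb, sel, G, e4, h, show (n + 1) % 4 = 2 by omega, show (n + 1) / 4 = n / 4 by omega]
  · simp [H, unb, sel, G, e4, h, show (n + 1) % 4 = 3 by omega, show (n + 1) / 4 = n / 4 by omega]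
  · simp [H, unb, sel, G, e4, h, show (n + 1) % 4 = 0 by omega, show (n + 1) / 4 = n / 4 + 1 by omega]

def YB (g : Fin 7) (t : ℕ) (a b c : St) : Blk :=
  It (oo g) (inp b.2.2.1 (mid g b c.2.2.1).2.1) (enc a) t

def Y (g : Fin 7) (t : ℕ) (z : ℤ → St) : ℤ → Cell :=
  unb fun j => YB g t (z j) (z (j + 1)) (z (j + 1 + 1))

theorem Y_succ (g : Fin 7) (t : ℕ) (ht : t < 126) (z : ℤ → St) : H g t (Y g t z) = Y g (t + 1) z := by
  rw [Y, H_unb]
  refine congrArg unb (funext fun j => ?_)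
  rw [YB, YB, (full g _ _ (z (j + 1))).2 t ht]
  rfl

theorem Y_end (g h : Fin 7) (z : ℤ → St) : Y g 126 z = Y h 0 (step g z) :=
  congrArg unb (funext fun j => (full g _ _ (z j)).1)

theorem Y_inj (g : Fin 7) (t : ℕ) (ht : t ≤ 126) : Injective (Y g t) := by
  induction t with
  | zero =>
    intro x y h
    funext j
    have d : ∀ e : ℤ, 0 ≤ e → e < 4 → (4 * j + e) / 4 = j ∧ (4 * j + e) % 4 = e := fun e _ _ => by omega
    have h0 := congrFun h (4 * j)
    have h1 := congrFun h (4 * j + 1)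
    have h2 := congrFun h (4 * j + 2)
    have h3 := congrFun h (4 * j + 3)
    simp [Y, YB, It, unb, sel, enc, blk, e4, d 1, d 2, d 3] at h0 h1 h2 h3
    exact Prod.ext h3 (Prod.ext h2 (Prod.ext h0 h1))
  | succ t ih =>
    intro x y h
    rw [← Y_succ g t (by omega), ← Y_succ g t (by omega)] at h
    exact ih (by omega) (LeftInverse.injective (H'_H g t) h)

end Pool.Agent.H63.Dist
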