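import Pool.Agent.H63.Dist2

set_option autoImplicit false
open Function Set

namespace Pool.Agent.H63.Dist

def σ {A : Type} (r : ℤ) (x : ℤ → A) (n : ℤ) : A := x (n + r)

theorem σ_σ {A : Type} (r s : ℤ) (x : ℤ → A) : σ r (σ s x) = σ (r + s) x := by
  funext n; simp [σ, add_assoc]

theorem step_σ (g : Fin 7) (r : ℤ) (x : ℤ → St) : step g (σ r x) = σ r (step g x) := by
  funext n; simp [step, σ, add_right_comm]

theorem lab_σ (ρ : Ph) (q : ℤ) (y : ℤ → Cell) : lab ρ (σ (4 * q) y) = σ (4 * q) (lab ρ y) := by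
  funext n; simp [lab, σ, e4]

def E (ρ : Ph) (z : ℤ → St) : ℤ → St := lab ρ (Y ρ.2.1 ρ.2.2.val z)

theorem E_σ (ρ : Ph) (q : ℤ) (z : ℤ → St) : E ρ (σ q z) = σ (4 * q) (E ρ z) := by
  rw [E, E, ← lab_σ]
  congr 1
  funext n
  simp [Y, unb, σ, e4, show (n + 4 * q) / 4 = n / 4 + q by omega, add_right_comm]

theorem YH (g : Fin 7) (t : ZMod 126) (z : ℤ → St) :
    H g t.val (Y g t.val z) = Y g (t + 1).val (if t = -1 then step g z else z) := by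
  rw [Y_succ g _ (ZMod.val_lt t)]
  split_ifs with h
  · subst h; exact Y_end g g z
  · rw [show (t + 1).val = t.val + 1 by revert t; decide +kernel]

theorem upv (g : Fin 7) (ρ : Ph) : (md g ρ = 1 → (up g ρ).2 = (ρ.2.1, ρ.2.2 + 1)) ∧
    (md g ρ = 2 → (up g ρ).2 = (ρ.2.1, ρ.2.2 - 1)) ∧
    (md g ρ ≠ 1 → md g ρ ≠ 2 → (up g ρ).2.2 = ρ.2.2 ∧ ((up g ρ).2.1 = ρ.2.1 ∨ ρ.2.2 = 0)) := by
  obtain ⟨l, c, t⟩ := ρ
  have hF : ∀ g : Fin 7, g = 2 ∨ g = 3 ∨ g = 6 → (md g (l, c, t) = 1 → (uF (l, c, t)).2 = (c, t + 1)) ∧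
      (md g (l, c, t) = 2 → (uF (l, c, t)).2 = (c, t - 1)) ∧ (md g (l, c, t) ≠ 1 → md g (l, c, t) ≠ 2 →
        (uF (l, c, t)).2.2 = t ∧ ((uF (l, c, t)).2.1 = c ∨ t = 0)) := fun g hg => by
    have h1 : g ≠ 1 := by rintro rfl; simp at hg
    simp only [md, if_neg h1, if_pos hg, uF, Equiv.coe_fn_mk]
    by_cases h2 : c = 2
    · by_cases h : l = 0 <;> simp [h2, h]
    · by_cases h3 : c = 3
      · by_cases h : l = 1 <;> simp [h3, h]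
      · simp [h2, h3]
  fin_cases g
  · simp [md, up]
  · simp [md, up, uT]
  · exact hF 2 (by simp)
  · exact hF 3 (by simp)
  · by_cases h : t = 0 <;> simp [md, up, hub, h]
  · by_cases h : t = 0 <;> simp [md, up, hub, h]
  · exact hF 6 (by simp)

theorem R1 (g : Fin 7) (ρ : Ph) (z : ℤ → St) (h : md g ρ ≠ 2) : step g (E ρ z) =
    E (up g ρ) (if md g ρ = 1 ∧ ρ.2.2 = -1 then step ρ.2.1 z else z) := by
  rw [E, step_lab, E]
  congr 1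
  by_cases h1 : md g ρ = 1
  · rw [if_pos h1, YH, (upv g ρ).1 h1]; simp [h1]
  · obtain ⟨h2, h3⟩ := (upv g ρ).2.2 h1 h
    rw [if_neg h1, if_neg h, if_neg (by simp [h1]), h2]
    rcases h3 with h3 | h3 <;> rw [h3]
    rfl

theorem R2 (g : Fin 7) (ρ : Ph) (z : ℤ → St) (h : md g ρ = 2) :
    step g (E ρ (if ρ.2.2 = 0 then step ρ.2.1 z else z)) = E (up g ρ) z := by
  have := YH ρ.2.1 (ρ.2.2 - 1) z
  simp only [sub_add_cancel, sub_eq_neg_self] at this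
  rw [E, step_lab, E, if_neg (by omega), if_pos h, ← this, H'_H, (upv g ρ).2.1 h]

def X : ℕ → Set (ℤ → St)
  | 0 => {x | ∃ (r : Fin 4) (ρ : Ph) (y : ℤ → Cell), x = σ r (lab ρ y)}
  | k + 1 => {x | ∃ (r : Fin 4) (ρ : Ph), ∃ z ∈ X k, x = σ r (E ρ z)}

theorem X_anti (k : ℕ) : X (k + 1) ⊆ X k := by
  induction k with
  | zero => rintro _ ⟨r, ρ, z, -, rfl⟩; exact ⟨r, ρ, _, rfl⟩
  | succ k ih => rintro _ ⟨r, ρ, z, hz, rfl⟩; exact ⟨r, ρ, z, ih hz, rfl⟩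

theorem X_σ (k : ℕ) (s : ℤ) : ∀ x ∈ X k, σ s x ∈ X k := by
  have h : ∀ (r : Fin 4) (s : ℤ), s + r = e4 (s + r) + 4 * ((s + r) / 4) := fun r s => by
    simp only [e4]; omega
  induction k generalizing s with
  | zero =>
    rintro _ ⟨r, ρ, y, rfl⟩
    exact ⟨e4 (s + r), ρ, _, by rw [σ_σ, h, ← σ_σ, ← lab_σ, ← h]⟩
  | succ k ih =>
    rintro _ ⟨r, ρ, z, hz, rfl⟩
    exact ⟨e4 (s + r), ρ, _, ih ((s + r) / 4) z hz, by rw [E_σ, σ_σ, σ_σ, ← h]⟩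

theorem lab_eq {r r' : Fin 4} {ρ ρ' : Ph} {y y' : ℤ → Cell} {a : ℤ}
    (h : σ r (lab ρ y) a = σ r' (lab ρ' y') a) : r = r' ∧ ρ = ρ' := by
  simp only [σ, lab, e4, Prod.mk.injEq, Fin.mk.injEq] at h
  exact ⟨Fin.ext (by omega), h.1.2⟩

theorem inj0 (g : Fin 7) {x y : ℤ → St} (hx : x ∈ X 0) (hy : y ∈ X 0) {a : ℤ}
    (h : ∀ n, a ≤ n → step g x n = step g y n) (n : ℤ) (hn : a ≤ n) : x n = y n := by
  obtain ⟨r, ρ, u, rfl⟩ := hx
  obtain ⟨r', ρ', v, rfl⟩ := hy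
  simp only [step_σ, step_lab] at h
  obtain ⟨rfl, h1⟩ := lab_eq (h a le_rfl)
  obtain rfl := (up g).injective h1
  have h1 := congrArg Prod.snd (h n hn)
  have h2 := congrArg Prod.snd (h (n + 1) (by omega))
  simp only [σ, lab, add_right_comm n 1] at h1 h2 ⊢
  congr 1
  split_ifs at h1 h2
  · rw [← H'_H ρ.2.1 ρ.2.2.val u, ← H'_H ρ.2.1 ρ.2.2.val v, H', H', h1, h2]
  · rw [← H_H' ρ.2.1 (ρ.2.2 - 1).val u, ← H_H' ρ.2.1 (ρ.2.2 - 1).val v, H, H, h1, h2]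
  · exact h1

theorem X_bij (k : ℕ) : ∀ g, MapsTo (step g) (X k) (X k) ∧ SurjOn (step g) (X k) (X k) := by
  induction k with
  | zero =>
    refine fun g => ⟨?_, ?_⟩
    · rintro _ ⟨r, ρ, y, rfl⟩
      exact ⟨r, _, _, by rw [step_σ, step_lab]⟩
    · rintro _ ⟨r, ρ, y, rfl⟩
      obtain ⟨ρ, rfl⟩ := (up g).surjective ρ
      refine ⟨_, ⟨r, ρ, if md g ρ = 1 then H' ρ.2.1 ρ.2.2.val y else
        if md g ρ = 2 then H ρ.2.1 (ρ.2.2 - 1).val y else y, rfl⟩, ?_⟩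
      rw [step_σ, step_lab]
      split_ifs <;> simp [H_H', H'_H]
  | succ k ih =>
    have hs : ∀ (P : Prop) [Decidable P] (c : Fin 7), (∀ z ∈ X k, (if P then step c z else z) ∈ X k) ∧
        ∀ z ∈ X k, ∃ w ∈ X k, (if P then step c w else w) = z := fun P _ c => by
      split_ifs
      · exact ⟨(ih c).1, (ih c).2⟩
      · exact ⟨fun _ h => h, fun z h => ⟨z, h, rfl⟩⟩
    refine fun g => ⟨?_, ?_⟩
    · rintro _ ⟨r, ρ, z, hz, rfl⟩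
      by_cases h : md g ρ = 2
      · obtain ⟨w, hw, rfl⟩ := (hs (ρ.2.2 = 0) ρ.2.1).2 z hz
        exact ⟨r, _, w, hw, by rw [step_σ, R2 _ _ _ h]⟩
      · exact ⟨r, _, _, (hs _ _).1 z hz, by rw [step_σ, R1 _ _ _ h]⟩
    · rintro _ ⟨r, ρ, z, hz, rfl⟩
      obtain ⟨ρ, rfl⟩ := (up g).surjective ρ
      by_cases h : md g ρ = 2
      · exact ⟨_, ⟨r, ρ, _, (hs _ _).1 z hz, rfl⟩, by rw [step_σ, R2 _ _ _ h]⟩
      · obtain ⟨w, hw, rfl⟩ := (hs (md g ρ = 1 ∧ ρ.2.2 = -1) ρ.2.1).2 z hz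
        exact ⟨_, ⟨r, ρ, w, hw, rfl⟩, by rw [step_σ, R1 _ _ _ h]⟩

instance : TopologicalSpace St := ⊥
instance : DiscreteTopology St := ⟨rfl⟩

theorem cont3 (F : ℤ → St → St → St → St) (q : ℤ → ℤ) :
    Continuous fun (z : ℤ → St) (n : ℤ) => F n (z (q n)) (z (q n + 1)) (z (q n + 1 + 1)) :=
  continuous_pi fun n => (continuous_of_discreteTopology
    (f := fun p : St × St × St => F n p.1 p.2.1 p.2.2)).comp
      (f := fun z : ℤ → St => (z (q n), z (q n + 1), z (q n + 1 + 1))) (by fun_prop)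

theorem X_cpt (k : ℕ) : IsCompact (X k) ∧ (X k).Nonempty := by
  induction k with
  | zero =>
    have e : X 0 = ⋃ (r : Fin 4) (ρ : Ph), range fun z : ℤ → St => σ r (lab ρ fun n => (z n).2) := by
      ext x
      simp only [X, mem_ofPred_eq, mem_iUnion, mem_range]
      exact ⟨fun ⟨r, ρ, y, h⟩ => ⟨r, ρ, lab ρ y, h.symm⟩, fun ⟨r, ρ, y, h⟩ => ⟨r, ρ, _, h.symm⟩⟩
    refine ⟨e ▸ isCompact_iUnion fun r => isCompact_iUnion fun ρ => isCompact_range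
      (cont3 (fun n a _ _ => ((e4 (n + r), ρ), a.2)) fun n => n + r), _, 0, 0,
      fun _ => (false, false, .inl false), rfl⟩
  | succ k ih =>
    have e : X (k + 1) = ⋃ (r : Fin 4) (ρ : Ph), (fun z => σ r (E ρ z)) '' X k := by
      ext x; simp [X, eq_comm]
    obtain ⟨z, hz⟩ := ih.2
    exact ⟨e ▸ isCompact_iUnion fun r => isCompact_iUnion fun ρ => ih.1.image
      (cont3 (fun n a b c => ((e4 (n + r), ρ), sel (YB ρ.2.1 ρ.2.2.val a b c) (e4 (n + r))))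
        fun n => (n + r) / 4), _, 0, 0, z, hz, rfl⟩

def Z : Set (ℤ → St) := ⋂ k, X k

theorem Z_iff {x : ℤ → St} : x ∈ Z ↔ ∀ k, x ∈ X k := mem_iInter

theorem Z_ne : Z.Nonempty :=
  IsCompact.nonempty_iInter_of_sequence_nonempty_isCompact_isClosed X X_anti
    (fun k => (X_cpt k).2) (X_cpt 0).1 fun k => (X_cpt k).1.isClosed

theorem Z_cpt : IsCompact Z :=
  (X_cpt 0).1.of_isClosed_subset (isClosed_iInter fun k => (X_cpt k).1.isClosed) (iInter_subset _ 0)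

theorem Z_bij (g : Fin 7) : BijOn (step g) Z Z := by
  have hi : InjOn (step g) (X 0) := fun x hx y hy h =>
    funext fun n => inj0 g hx hy (fun m _ => congrFun h m) n le_rfl
  refine ⟨fun x hx => Z_iff.2 fun k => (X_bij k g).1 (Z_iff.1 hx k),
    hi.mono (iInter_subset _ 0), fun x hx => ?_⟩
  obtain ⟨y, hy, rfl⟩ := (X_bij 0 g).2 (Z_iff.1 hx 0)
  refine ⟨y, Z_iff.2 fun k => ?_, rfl⟩
  obtain ⟨w, hw, e⟩ := (X_bij k g).2 (Z_iff.1 hx k)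
  rwa [← hi (antitone_nat_of_succ_le X_anti k.zero_le hw) hy e]

noncomputable def s (g : Fin 7) : Equiv.Perm Z := (Z_bij g).equiv _

theorem s_coe (g : Fin 7) (x : Z) : (s g x : ℤ → St) = step g x := rfl

def ee (r : Fin 4) (ρ : Ph) (z : Z) : Z :=
  ⟨σ r (E ρ z), Z_iff.2 fun k => X_anti k ⟨r, ρ, z, Z_iff.1 z.2 k, rfl⟩⟩

theorem E_inj {r r' : Fin 4} {ρ ρ' : Ph} {z z' : ℤ → St} (h : σ r (E ρ z) = σ r' (E ρ' z')) :
    r = r' ∧ ρ = ρ' ∧ z = z' := by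
  obtain ⟨rfl, rfl⟩ := lab_eq (congrFun h 0)
  refine ⟨rfl, rfl, Y_inj ρ.2.1 _ (ZMod.val_lt ρ.2.2).le (funext fun n => ?_)⟩
  simpa [σ, E, lab] using congrFun h (n - r)

theorem ee_surj (x : Z) : ∃ r ρ z, x = ee r ρ z := by
  obtain ⟨r, ρ, z, -, h⟩ := Z_iff.1 x.2 1
  refine ⟨r, ρ, ⟨z, Z_iff.2 fun k => ?_⟩, Subtype.ext h⟩
  obtain ⟨r', ρ', z', hz, h'⟩ := Z_iff.1 x.2 (k + 1)
  rwa [(E_inj (h.symm.trans h')).2.2]

theorem s_ee (g : Fin 7) (r : Fin 4) (ρ : Ph) (z : Z) : s g (ee r ρ z) = ee r (up g ρ)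
    ((if md g ρ = 1 ∧ ρ.2.2 = -1 then s ρ.2.1 else if md g ρ = 2 ∧ ρ.2.2 = 0 then (s ρ.2.1)⁻¹ else 1) z) := by
  refine Subtype.ext ((step_σ _ _ _).trans ?_)
  simp only [ee]
  congr 1
  by_cases h : md g ρ = 2
  · rw [← R2 _ _ _ h, if_neg (show ¬(md g ρ = 1 ∧ ρ.2.2 = -1) by omega)]
    by_cases h0 : ρ.2.2 = 0
    · rw [if_pos h0, if_pos ⟨h, h0⟩, ← s_coe]; simp
    · rw [if_neg h0, if_neg (by tauto)]; rfl
  · rw [R1 _ _ _ h]
    split_ifs <;> first | rfl | omega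

end Pool.Agent.H63.Dist
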