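import Pool.Agent.H63.Dist3

set_option autoImplicit false
open Function Set

namespace Pool.Agent.H63.Dist

def ev {G : Type*} [Group G] (s : Fin 7 → G) (l : List (Fin 7 × Bool)) : G :=
  (l.map fun p => if p.2 then s p.1 else (s p.1)⁻¹).prod

def Len (g : Equiv.Perm Z) (n : ℕ) : Prop := ∃ l, l.length ≤ n ∧ ev s l = g

theorem Len.mono {g : Equiv.Perm Z} {m n : ℕ} (h : Len g m) (hn : m ≤ n) : Len g n :=
  h.imp fun _ h => ⟨h.1.trans hn, h.2⟩

theorem Len.mul {g g' : Equiv.Perm Z} {m n : ℕ} (h : Len g m) (h' : Len g' n) :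
    Len (g * g') (m + n) := by
  obtain ⟨l, h1, rfl⟩ := h
  obtain ⟨l', h2, rfl⟩ := h'
  exact ⟨l ++ l', by simp; omega, by simp [ev]⟩

theorem Len.inv {g : Equiv.Perm Z} {n : ℕ} (h : Len g n) : Len g⁻¹ n := by
  obtain ⟨l, h1, rfl⟩ := h
  refine ⟨(l.map fun p => (p.1, !p.2)).reverse, by simpa using h1, ?_⟩
  simp only [ev, List.prod_inv_reverse, List.map_reverse, List.map_map]
  congr 3
  funext ⟨a, b⟩
  cases b <;> simp

theorem Len.gen (g : Fin 7) : Len (s g) 1 := ⟨[(g, true)], le_rfl, by simp [ev]⟩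

theorem Len.pow {g : Equiv.Perm Z} {n : ℕ} (h : Len g n) (k : ℕ) : Len (g ^ k) (k * n) := by
  induction k with
  | zero => exact ⟨[], by simp, by simp [ev]⟩
  | succ k ih => rw [pow_succ, add_mul, one_mul]; exact ih.mul h

def Sec (g : Equiv.Perm Z) (v : Ph → Equiv.Perm Z) : Prop := ∀ r ρ z, g (ee r ρ z) = ee r ρ (v ρ z)

theorem Sec.mul {g g' : Equiv.Perm Z} {v v' : Ph → Equiv.Perm Z} (h : Sec g v) (h' : Sec g' v') :
    Sec (g * g') (v * v') := fun r ρ z => by rw [Equiv.Perm.mul_apply, h', h]; rfl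

theorem Sec.inv {g : Equiv.Perm Z} {v : Ph → Equiv.Perm Z} (h : Sec g v) : Sec g⁻¹ v⁻¹ :=
  fun r ρ z => by rw [Equiv.Perm.inv_eq_iff_eq, h]; simp

theorem Sec.pow {g : Equiv.Perm Z} {v : Ph → Equiv.Perm Z} (h : Sec g v) (n : ℕ) :
    Sec (g ^ n) (v ^ n) := by
  induction n with
  | zero => exact fun _ _ _ => rfl
  | succ n ih => rw [pow_succ, pow_succ]; exact ih.mul h

theorem Sec.ext {g g' : Equiv.Perm Z} {v : Ph → Equiv.Perm Z} (h : Sec g v) (h' : Sec g' v) :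
    g = g' := Equiv.ext fun x => by obtain ⟨r, ρ, z, rfl⟩ := ee_surj x; rw [h, h']

theorem Sec.conj {g h : Equiv.Perm Z} {v : Ph → Equiv.Perm Z} {π : Ph → Ph} (H : Sec g v)
    (hh : ∀ r ρ z, h (ee r ρ z) = ee r (π ρ) z) : Sec (h⁻¹ * g * h) (v ∘ π) := fun r ρ z => by
  rw [Equiv.Perm.mul_apply, Equiv.Perm.mul_apply, hh, H, Equiv.Perm.inv_eq_iff_eq, hh]; rfl

theorem cyc {W A : Type} {n : ℕ} [NeZero n] (g : Equiv.Perm W) (x : ZMod n → A → W) (i0 : ZMod n)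
    (h : A → A) (H : ∀ i a, g (x i a) = x (i + 1) (if i = i0 then h a else a)) (i : ZMod n) (a : A) :
    (g ^ n) (x i a) = x i (h a) := by
  have k1 : ∀ k < n, ∀ a, (g ^ k) (x (i0 + 1) a) = x (i0 + 1 + k) a := fun k hk a => by
    induction k with
    | zero => simp
    | succ k ih =>
      rw [pow_succ', Equiv.Perm.mul_apply, ih (by omega), H, if_neg, Nat.cast_succ, add_assoc _ _ 1]
      rw [add_assoc, add_eq_left, add_comm, ← Nat.cast_succ, ZMod.natCast_eq_zero_iff]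
      exact Nat.not_dvd_of_pos_of_lt (by omega) hk
  have k2 : ∀ a, (g ^ n) (x (i0 + 1) a) = x (i0 + 1) (h a) := fun a => by
    obtain ⟨m, hm⟩ := Nat.exists_eq_succ_of_ne_zero (NeZero.ne n)
    have e : i0 + 1 + (m : ZMod n) = i0 := by
      rw [add_assoc, add_comm 1, ← Nat.cast_succ, ← hm, ZMod.natCast_self, add_zero]
    rw [show g ^ n = g * g ^ m by rw [← pow_succ', hm], Equiv.Perm.mul_apply, k1 m (by omega), e, H,
      if_pos rfl]
  have e : i = i0 + 1 + ((i - i0 - 1).val : ZMod n) := by simp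
  rw [e, ← k1 _ (ZMod.val_lt _), ← k1 _ (ZMod.val_lt _), ← k2, ← Equiv.Perm.mul_apply,
    ← Equiv.Perm.mul_apply, pow_mul_comm]

theorem hT (r : Fin 4) (l : ZMod 10000) (c : Fin 7) (t : ZMod 126) (z : Z) :
    s 1 (ee r (l, c, t) z) = ee r (l, c, t + 1) (if t = -1 then s c z else z) := by
  rw [s_ee]; by_cases h : t = -1 <;> simp [md, up, uT, h]

theorem hD : Sec (s 1 ^ 126) fun ρ => s ρ.2.1 := fun r ⟨l, c, t⟩ z =>
  cyc (s 1) (fun t z => ee r (l, c, t) z) (-1) (s c) (hT r l c) t z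

theorem s0 : s 0 = 1 := Sec.ext (v := 1) (fun r ρ z => by rw [s_ee]; simp [md, up]) fun _ _ _ => rfl

theorem s6 : s 2 = s 6 ∧ s 3 = s 6 := by
  constructor <;> refine Equiv.ext fun x => ?_ <;> obtain ⟨r, ρ, z, rfl⟩ := ee_surj x <;>
    simp [s_ee, md, up]

theorem hP (i : ℕ) (r : Fin 4) (ρ : Ph) (z : Z) :
    (s 4 ^ i) (ee r ρ z) = ee r ((hub pP)^[i] ρ) z ∧ (s 5 ^ i) (ee r ρ z) = ee r ((hub pQ)^[i] ρ) z := by
  induction i with
  | zero => exact ⟨rfl, rfl⟩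
  | succ i ih =>
    rw [pow_succ', pow_succ', Equiv.Perm.mul_apply, Equiv.Perm.mul_apply, ih.1, ih.2, s_ee, s_ee,
      iterate_succ_apply', iterate_succ_apply']
    simp [md, up]

def Good (g : Equiv.Perm Z) (v : Ph → Equiv.Perm Z) : Prop :=
  ∀ l, v (l, 0, 0) = g ∧ v (l, 2, 0) = 1 ∧ v (l, 3, 0) = 1

theorem lemA (L : List (Fin 7 × Bool)) :
    ∃ w v, Len w (260 * L.length) ∧ Sec w v ∧ Good (ev s L) v := by
  have gen : ∀ c : Fin 7, ∃ w v, Len w 260 ∧ Sec w v ∧ Good (s c) v := fun c => by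
    obtain ⟨i, hi, e⟩ : ∃ i ≤ 4, s (pP^[i] 0) = s c := by
      fin_cases c
      exacts [⟨0, by omega, rfl⟩, ⟨1, by omega, rfl⟩, ⟨4, by omega, s6.1.symm⟩,
        ⟨4, by omega, s6.2.symm⟩, ⟨2, by omega, rfl⟩, ⟨3, by omega, rfl⟩, ⟨4, by omega, rfl⟩]
    have h : ∀ l c, (hub pP)^[i] (l, c, 0) = (l, pP^[i] c, 0) := fun l c =>
      (Semiconj.iterate_right (f := fun c : Fin 7 => ((l, c, 0) : Ph)) (ga := pP) (gb := hub pP)
        (fun c => by simp [hub]) i c).symm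
    refine ⟨_, _, ((((((Len.gen 4).pow i).inv.mul ((Len.gen 1).pow 126)).mul ((Len.gen 4).pow i)).mul
      ((Len.gen 1).pow 126).inv)).mono (by omega), (hD.conj fun r ρ z => (hP i r ρ z).1).mul hD.inv,
      fun l => ?_⟩
    simp [h, e, s0, iterate_fixed (show pP 2 = 2 from rfl), iterate_fixed (show pP 3 = 3 from rfl)]
  induction L with
  | nil => exact ⟨1, 1, ⟨[], by simp, by simp [ev]⟩, fun _ _ _ => rfl, fun l => ⟨rfl, rfl, rfl⟩⟩
  | cons a L ih =>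
    obtain ⟨w, v, h1, h2, h3⟩ := ih
    obtain ⟨w', v', k1, k2, k3⟩ := gen a.1
    cases ha : a.2
    · exact ⟨_, _, (k1.inv.mul h1).mono (by simp; omega), k2.inv.mul h2, fun l => by
        simp [h3 l, k3 l, ev, ha]⟩
    · exact ⟨_, _, (k1.mul h1).mono (by simp; omega), k2.mul h2, fun l => by
        simp [h3 l, k3 l, ev, ha]⟩

noncomputable def Λ (g : Equiv.Perm Z) (c : Fin 7) : Equiv.Perm Z :=
  if c = 2 then g else if c = 3 then g⁻¹ else 1

theorem lemB {g : Equiv.Perm Z} {n : ℕ} (h : Len g n) (hn : 1 ≤ n) :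
    ∃ w, Len w (70000 * n) ∧ Sec w fun ρ => Λ g ρ.2.1 := by
  obtain ⟨L, hL, rfl⟩ := h
  obtain ⟨w, v, h1, h2, h3⟩ := lemA L
  have hB := (h2.conj fun r ρ z => (hP 2 r ρ z).2).mul (h2.conj fun r ρ z => (hP 1 r ρ z).2).inv
  have lB := ((((Len.gen 5).pow 2).inv.mul h1).mul ((Len.gen 5).pow 2)).mul
    ((((Len.gen 5).pow 1).inv.mul h1).mul ((Len.gen 5).pow 1)).inv
  obtain ⟨B, eB⟩ : ∃ B, B = (s 5 ^ 2)⁻¹ * w * s 5 ^ 2 * ((s 5 ^ 1)⁻¹ * w * s 5 ^ 1)⁻¹ := ⟨_, rfl⟩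
  rw [← eB] at hB lB
  have key : ∀ r l c t z, B (ee r (l, c, t) z) = ee r (l, c, t) (if t = 0 then Λ (ev s L) c z else z) :=
    fun r l c t z => by
      rw [hB]
      by_cases ht : t = 0
      · subst ht
        fin_cases c <;> simp [hub, pQ, Λ, h3 l]
      · simp [hub, ht]
  refine ⟨(B * s 1) ^ 126 * (s 1 ^ 126)⁻¹,
    (((lB.mul (Len.gen 1)).pow 126).mul ((Len.gen 1).pow 126).inv).mono (by omega),
    fun r ⟨l, c, t⟩ z => ?_⟩
  rw [Equiv.Perm.mul_apply, hD.inv]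
  refine (cyc (B * s 1) (fun t z => ee r (l, c, t) z) (-1) (fun z => Λ (ev s L) c (s c z))
    (fun t z => ?_) t _).trans (by simp)
  rw [Equiv.Perm.mul_apply, hT, key]
  by_cases ht : t = -1
  · simp [ht]
  · simp [ht, add_eq_zero_iff_eq_neg]

theorem hF2 (r : Fin 4) (l : ZMod 10000) (t : ZMod 126) (z : Z) : s 2 (ee r (l, 2, t) z) =
    ee r (l + 1, 2, if l = 0 then t + 1 else t) (if l = 0 ∧ t = -1 then s 2 z else z) := by
  rw [s_ee]
  by_cases h : l = 0 <;> by_cases ht : t = -1 <;> simp [md, up, uF, h, ht]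

theorem hF3 (r : Fin 4) (l : ZMod 10000) (t : ZMod 126) (z : Z) : (s 2)⁻¹ (ee r (l, 3, t) z) =
    ee r (l + 1, 3, if l = 0 then t + 1 else t) (if l = 0 ∧ t = -1 then s 2 z else z) := by
  rw [Equiv.Perm.inv_eq_iff_eq, s_ee]
  by_cases h : l = 0 <;> by_cases ht : t = -1 <;>
    simp [md, up, uF, h, ht, add_eq_zero_iff_eq_neg, s6.1, s6.2]

theorem cyc2 (g : Equiv.Perm Z) (c : Fin 7) (r : Fin 4) (H : ∀ l t z, g (ee r (l, c, t) z) =
    ee r (l + 1, c, if l = 0 then t + 1 else t) (if l = 0 ∧ t = -1 then s 2 z else z))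
    (l : ZMod 10000) (t : ZMod 126) (z : Z) :
    (g ^ 1260000) (ee r (l, c, t) z) = ee r (l, c, t) (s 2 z) := by
  rw [show 1260000 = 10000 * 126 from rfl, pow_mul]
  refine cyc (g ^ 10000) (fun t z => ee r (l, c, t) z) (-1) (s 2) (fun t z => ?_) t z
  refine cyc g (fun l (a : ZMod 126 × Z) => ee r (l, c, a.1) a.2) 0
    (fun a => (a.1 + 1, if a.1 = -1 then s 2 a.2 else a.2)) (fun l a => ?_) l (t, z)
  rw [H]
  by_cases h : l = 0 <;> simp [h]

theorem hM : Sec (s 2 ^ 1260000) fun ρ => Λ (s 2) ρ.2.1 := fun r ⟨l, c, t⟩ z => by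
  by_cases h2 : c = 2
  · subst h2; exact cyc2 _ 2 r (hF2 r) l t z
  by_cases h3 : c = 3
  · subst h3
    rw [← Equiv.Perm.eq_inv_iff_eq, ← inv_pow, cyc2 _ 3 r (hF3 r)]
    simp [Λ]
  · simp only [Λ, if_neg h2, if_neg h3]
    exact Equiv.Perm.pow_apply_eq_self_of_apply_eq_self (by simp [s_ee, md, up, uF, h2, h3]) _

theorem hMn (n : ℕ) : Sec (s 2 ^ (1260000 * n)) fun ρ => Λ (s 2 ^ n) ρ.2.1 := by
  have := hM.pow n
  rw [← pow_mul] at this
  refine fun r ρ z => (this r ρ z).trans ?_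
  simp only [Pi.pow_apply, Λ]
  split_ifs <;> simp

theorem lenk (k : ℕ) : Len (s 2 ^ 1260000 ^ k) (70000 ^ k) := by
  induction k with
  | zero => simpa using Len.gen 2
  | succ k ih =>
    obtain ⟨w, h1, h2⟩ := lemB ih (Nat.one_le_pow _ _ (by omega))
    rw [pow_succ', pow_succ', (hMn _).ext h2]
    exact h1

theorem sublin (ε : ℝ) (hε : 0 < ε) : ∃ N : ℕ, ∀ n : ℕ, N ≤ n →
    ∃ l : List (Fin 7 × Bool), (l.length : ℝ) ≤ ε * n ∧ ev s l = s 2 ^ n := by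
  obtain ⟨k, hk⟩ := pow_unbounded_of_one_lt (2 / ε) (by norm_num : (1 : ℝ) < 18)
  refine ⟨⌈2 * 1260000 ^ k / ε⌉₊, fun n hn => ?_⟩
  have h := ((lenk k).pow (n / 1260000 ^ k)).mul ((Len.gen 2).pow (n % 1260000 ^ k))
  rw [← pow_mul, ← pow_add, Nat.div_add_mod] at h
  obtain ⟨l, h1, h2⟩ := h
  refine ⟨l, ?_, h2⟩
  have a1 : ((1260000 ^ k * (n / 1260000 ^ k) : ℕ) : ℝ) ≤ n := Nat.cast_le.2 (Nat.mul_div_le _ _)
  have a2 : ((n % 1260000 ^ k : ℕ) : ℝ) ≤ (1260000 ^ k : ℕ) :=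
    Nat.cast_le.2 (Nat.mod_lt _ (by positivity)).le
  have a3 := Nat.ceil_le.1 hn
  have a4 : (l.length : ℝ) ≤ ((n / 1260000 ^ k * 70000 ^ k + n % 1260000 ^ k * 1 : ℕ) : ℝ) :=
    Nat.cast_le.2 h1
  generalize n / 1260000 ^ k = q at *
  generalize n % 1260000 ^ k = m at *
  rw [div_le_iff₀ hε] at a3
  rw [div_lt_iff₀ hε] at hk
  push_cast at a1 a2 a4
  have e : (1260000 : ℝ) ^ k = 18 ^ k * 70000 ^ k := by rw [← mul_pow]; norm_num
  have : (0 : ℝ) ≤ q * 70000 ^ k := by positivity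
  rw [e] at a1
  nlinarith [mul_le_mul_of_nonneg_left a1 hε.le, mul_le_mul_of_nonneg_left hk.le this]

theorem inf_order (n : ℕ) (hn : 0 < n) : s 2 ^ n ≠ 1 := by
  induction n using Nat.strong_induction_on with
  | _ n ih =>
    intro h
    obtain ⟨z, hz⟩ := Z_ne
    have k : ∀ j : ℕ, ∃ t w, (s 2 ^ j) (ee 0 (0, 2, 0) ⟨z, hz⟩) = ee 0 (j, 2, t) w := fun j => by
      induction j with
      | zero => exact ⟨0, _, rfl⟩
      | succ j ih =>
        obtain ⟨t, w, e⟩ := ih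
        exact ⟨_, _, by rw [pow_succ', Equiv.Perm.mul_apply, e, hF2, Nat.cast_succ]⟩
    obtain ⟨t, w, e⟩ := k n
    rw [h] at e
    obtain ⟨m, rfl⟩ := (ZMod.natCast_eq_zero_iff n 10000).1
      (congrArg Prod.fst (E_inj (congrArg Subtype.val e)).2.1).symm
    refine ih m (by omega) (by omega) (Equiv.ext fun x => Subtype.ext ?_)
    have := hMn m 0 (0, 2, 0) x
    rw [show 1260000 * m = 10000 * m * 126 by ring, pow_mul, h, one_pow] at this
    exact (E_inj (congrArg Subtype.val this)).2.2.symm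

end Pool.Agent.H63.Dist
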