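import Pool.Agent.H63.Dist4

set_option autoImplicit false
open Function Set

namespace Pool.Agent.H63.Dist

theorem Z_σ (k : ℤ) (x : Z) : σ k x.1 ∈ Z := Z_iff.2 fun j => X_σ j k _ (Z_iff.1 x.2 j)

theorem ev_map {G G' A B : Type*} [Group G] [Group G'] [MulAction G A] [MulAction G' B] (s : Fin 7 → G)
    (s' : Fin 7 → G') (ρ : A → B) (h : ∀ g x, ρ (s g • x) = s' g • ρ x) (l : List (Fin 7 × Bool)) (x : A) :
    ρ (ev s l • x) = ev s' l • ρ x := by
  induction l with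
  | nil => simp [ev]
  | cons a l ih =>
    simp only [ev, List.map_cons, List.prod_cons, mul_smul] at ih ⊢
    rw [← ih]
    split_ifs
    · exact h _ _
    · rw [eq_inv_smul_iff, ← h, smul_inv_smul]

theorem ev_pow {G : Type*} [Group G] (s : Fin 7 → G) (n : ℕ) :
    ev s (List.replicate n (2, true)) = s 2 ^ n := by simp [ev]

theorem pow_σ (n : ℕ) (k : ℤ) (x : Z) : ((s 2 ^ n) ⟨_, Z_σ k x⟩ : Z) = ⟨_, Z_σ k ((s 2 ^ n) x)⟩ := by
  rw [← ev_pow]
  exact (ev_map s s (fun x : Z => (⟨_, Z_σ k x⟩ : Z))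
    (fun g x => Subtype.ext (step_σ g k x).symm) _ x).symm

theorem oneSided {k : ℕ} (E : St ≃ Fin k) :
    ∃ (X : Set (ℕ → Fin k)), IsClosed X ∧ (∀ x ∈ X, (fun n => x (n + 1)) ∈ X) ∧
      ∃ (s' : Fin 7 → Equiv.Perm X),
        (∀ g, Continuous (s' g : X → X) ∧
          ∀ x y : X, ((y : ℕ → Fin k) = fun n => (x : ℕ → Fin k) (n + 1)) →
            ((s' g y : X) : ℕ → Fin k) = fun n => ((s' g x : X) : ℕ → Fin k) (n + 1)) ∧
        (∀ n, 0 < n → s' 2 ^ n ≠ 1) ∧ ∀ l n, ev s l = s 2 ^ n → ev s' l = s' 2 ^ n := by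
  let res : (ℤ → St) → ℕ → Fin k := fun x n => E (x n)
  let st : Fin 7 → (ℕ → Fin k) → ℕ → Fin k := fun g y n =>
    E (Φ g (E.symm (y n)) (E.symm (y (n + 1))) (E.symm (y (n + 1 + 1))))
  have h1 : ∀ g x, st g (res x) = res (step g x) := fun g x => by
    funext n; simp [st, res, step]
  have hb : ∀ g, BijOn (st g) (res '' Z) (res '' Z) := fun g => by
    refine ⟨?_, ?_, ?_⟩
    · rintro _ ⟨x, hx, rfl⟩; exact ⟨_, (Z_bij g).1 hx, (h1 g x).symm⟩
    · rintro _ ⟨x, hx, rfl⟩ _ ⟨y, hy, rfl⟩ h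
      rw [h1, h1] at h
      refine funext fun n => congrArg E (inj0 g (Z_iff.1 hx 0) (Z_iff.1 hy 0) (a := 0)
        (fun m hm => ?_) n (by omega))
      lift m to ℕ using hm
      exact E.injective (congrFun h m)
    · rintro _ ⟨x, hx, rfl⟩
      obtain ⟨y, hy, rfl⟩ := (Z_bij g).2.2 hx
      exact ⟨_, ⟨y, hy, rfl⟩, h1 g y⟩
  let ρ : Z → res '' Z := fun x => ⟨res x, x, x.2, rfl⟩
  have hρ : ∀ l x, ρ (ev s l x) = ev (fun g => (hb g).equiv _) l (ρ x) :=
    ev_map s (fun g => (hb g).equiv _) ρ fun g x => Subtype.ext (h1 g x).symm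
  refine ⟨res '' Z, (Z_cpt.image (continuous_pi fun n => (continuous_of_discreteTopology (f := E)).comp
    (continuous_apply _))).isClosed, ?_, fun g => (hb g).equiv _, fun g => ⟨?_, fun x y h => ?_⟩,
    fun n hn h => inf_order n hn (Equiv.ext fun x => Subtype.ext (funext fun i => ?_)), fun l n h => ?_⟩
  · rintro _ ⟨x, hx, rfl⟩
    exact ⟨_, Z_σ 1 ⟨x, hx⟩, funext fun n => by simp [res, σ]⟩
  · refine Continuous.subtype_mk (continuous_pi fun n => (continuous_of_discreteTopology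
      (f := fun p : Fin k × Fin k × Fin k => E (Φ g (E.symm p.1) (E.symm p.2.1) (E.symm p.2.2)))).comp
      (f := fun y : res '' Z => (y.1 n, y.1 (n + 1), y.1 (n + 1 + 1))) ?_) _
    have c : ∀ m, Continuous fun y : res '' Z => y.1 m := fun m =>
      (continuous_apply m).comp continuous_subtype_val
    exact (c _).prodMk ((c _).prodMk (c _))
  · show st g y = _
    rw [h]; rfl
  · have := hρ (List.replicate n (2, true)) ⟨_, Z_σ i x⟩
    rw [ev_pow, ev_pow, h, pow_σ] at this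
    simpa [ρ, res, σ] using congrFun (congrArg Subtype.val this) 0
  · refine Equiv.ext fun ⟨_, x, hx, rfl⟩ => ?_
    have := hρ (List.replicate n (2, true)) ⟨x, hx⟩
    rw [ev_pow, ev_pow, ← h, hρ] at this
    exact this

end Pool.Agent.H63.Dist
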