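import Mathlib

set_option autoImplicit false

namespace Pool.Agent.H63.ESar

/-- Spread the binary digits of `x` to base-4 digits. -/
def ev (x : ℕ) : ℕ := if h : x = 0 then 0 else x % 2 + 4 * ev (x / 2)
decreasing_by omega

lemma ev_zero : ev 0 = 0 := by rw [ev]; simp

lemma ev_eq (x : ℕ) : ev x = x % 2 + 4 * ev (x / 2) := by
  by_cases h : x = 0
  · subst h; simp [ev_zero]
  · rw [ev]; simp [h]

lemma ev_split (k : ℕ) : ∀ x : ℕ, ev x = ev (x % 2 ^ k) + 4 ^ k * ev (x / 2 ^ k) := by
  induction k with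
  | zero => intro x; simp [Nat.mod_one, ev_zero]
  | succ k ih =>
    intro x
    have h1 : x % 2 ^ (k + 1) % 2 = x % 2 := Nat.mod_mod_of_dvd _ (dvd_pow_self 2 (by omega))
    have h2 : x % 2 ^ (k + 1) / 2 = (x / 2) % 2 ^ k := by
      rw [pow_succ', Nat.mod_mul_right_div_self]
    have h3 : x / 2 ^ (k + 1) = x / 2 / 2 ^ k := by
      rw [pow_succ', Nat.div_div_eq_div_mul]
    rw [ev_eq x, ev_eq (x % 2 ^ (k + 1)), h1, h2, h3, ih (x / 2)]
    ring

lemma ev_lt (k : ℕ) : ∀ x : ℕ, x < 2 ^ k → 3 * ev x + 1 ≤ 4 ^ k := by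
  induction k with
  | zero => intro x hx; have : x = 0 := by simpa using hx
            subst this; simp [ev_zero]
  | succ k ih =>
    intro x hx
    have h1 := ih (x / 2) (by rw [pow_succ] at hx; omega)
    rw [ev_eq x, pow_succ]
    omega

lemma ev_inj2 : ∀ (n x y x' y' : ℕ), x + y ≤ n → ev x + 2 * ev y = ev x' + 2 * ev y' →
    x = x' ∧ y = y' := by
  intro n
  induction n using Nat.strong_induction_on with
  | _ n ih =>
    intro x y x' y' hn h
    by_cases h0 : x + y = 0
    · have hx : x = 0 := by omega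
      have hy : y = 0 := by omega
      subst hx; subst hy
      rw [ev_zero] at h
      have key : ∀ z, ev z = 0 → z = 0 := by
        intro z
        induction z using Nat.strong_induction_on with
        | _ z ihz =>
          intro hz
          by_contra hz0
          rw [ev_eq z] at hz
          have := ihz (z / 2) (by omega) (by omega)
          omega
      exact ⟨(key x' (by omega)).symm, (key y' (by omega)).symm⟩
    · rw [ev_eq x, ev_eq y, ev_eq x', ev_eq y'] at h
      have := ih (x / 2 + y / 2) (by omega) (x / 2) (y / 2) (x' / 2) (y' / 2) le_rfl (by omega)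
      omega

lemma ev_inj {c : ℕ} (hc : c = 1 ∨ c = 2) {x y x' y' : ℕ}
    (h : c * ev x + (3 - c) * ev y = c * ev x' + (3 - c) * ev y') : x = x' ∧ y = y' := by
  rcases hc with rfl | rfl
  · exact ev_inj2 _ x y x' y' le_rfl (by omega)
  · have := ev_inj2 _ y x y' x' le_rfl (by omega)
    exact ⟨this.2, this.1⟩

lemma ev_surj (k : ℕ) : ∀ n : ℕ, n < 4 ^ k → ∃ x y, x < 2 ^ k ∧ y < 2 ^ k ∧ n = ev x + 2 * ev y := by
  induction k with
  | zero => intro n hn; exact ⟨0, 0, by simp, by simp, by simp [ev_zero] at hn ⊢; omega⟩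
  | succ k ih =>
    intro n hn
    obtain ⟨x, y, hx, hy, h⟩ := ih (n / 4) (by rw [pow_succ] at hn; omega)
    refine ⟨n % 2 + 2 * x, n % 4 / 2 + 2 * y, by rw [pow_succ]; omega, by rw [pow_succ]; omega, ?_⟩
    rw [ev_eq (n % 2 + 2 * x), ev_eq (n % 4 / 2 + 2 * y)]
    have h1 : (n % 2 + 2 * x) / 2 = x := by omega
    have h2 : (n % 4 / 2 + 2 * y) / 2 = y := by omega
    rw [h1, h2]
    omega

lemma pair_lt {c : ℕ} (hc : c = 1 ∨ c = 2) {k x y : ℕ} (hx : x < 2 ^ k) (hy : y < 2 ^ k) :
    c * ev x + (3 - c) * ev y < 4 ^ k := by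
  have := ev_lt k x hx
  have := ev_lt k y hy
  rcases hc with rfl | rfl <;> omega

/-- certificate that `d` is not a difference of two values of `ev` -/
def bad : ℕ → ℕ → Bool
  | 0, _ => false
  | f + 1, d => d % 4 == 2 || bad f ((d + 1) / 4)

lemma bad_spec : ∀ (f d : ℕ), bad f d = true → ∀ Y Y', ev Y + d ≠ ev Y' := by
  intro f
  induction f with
  | zero => intro d h; simp [bad] at h
  | succ f ih =>
    intro d h Y Y' he
    simp only [bad, Bool.or_eq_true, beq_iff_eq] at h
    rw [ev_eq Y, ev_eq Y'] at he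
    rcases h with h | h
    · omega
    · exact ih _ h (Y / 2) (Y' / 2) (by omega)

def bad2 (d : ℕ) : Bool := bad 8 d && (d % 2 == 1 || bad 8 (d / 2))

lemma bad2_spec {c : ℕ} (hc : c = 1 ∨ c = 2) {d : ℕ} (h : bad2 d = true) (Y Y' : ℕ) :
    c * ev Y + d ≠ c * ev Y' := by
  simp only [bad2, Bool.and_eq_true, Bool.or_eq_true, beq_iff_eq] at h
  rcases hc with rfl | rfl
  · simpa using bad_spec _ _ h.1 Y Y'
  · rcases h.2 with h2 | h2
    · omega
    · have := bad_spec _ _ h2 Y Y'
      omega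

def inU (u : ℕ) : Bool :=
  ((Nat.ble 100 u && Nat.ble u 149) || (Nat.ble 600 u && Nat.ble u 1599)) &&
    (bad2 (u - 1) && bad2 u && bad2 (u + 1))

lemma inU_range {u : ℕ} (h : inU u = true) : (100 ≤ u ∧ u ≤ 149) ∨ (600 ≤ u ∧ u ≤ 1599) := by
  simp only [inU, Bool.and_eq_true, Bool.or_eq_true, Nat.ble_eq] at h
  exact h.1

lemma inU_bad {u : ℕ} (h : inU u = true) :
    bad2 (u - 1) = true ∧ bad2 u = true ∧ bad2 (u + 1) = true := by
  simp only [inU, Bool.and_eq_true] at h
  exact ⟨h.2.1.1, h.2.1.2, h.2.2⟩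

def uList : List ℕ := (List.range 1600).filter inU

lemma cover_check :
    (List.range' 712 2140).all (fun N => uList.any (fun u => Nat.ble u N && inU (N - u))) = true := by
  decide +kernel

lemma cover {N : ℕ} (h1 : 712 ≤ N) (h2 : N < 2852) :
    ∃ u v, inU u = true ∧ inU v = true ∧ u + v = N := by
  have h := cover_check
  rw [List.all_eq_true] at h
  have := h N (by rw [List.mem_range'_1]; omega)
  rw [List.any_eq_true] at this
  obtain ⟨u, hu, h3⟩ := this
  simp only [uList, List.mem_filter] at hu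
  simp only [Bool.and_eq_true, Nat.ble_eq] at h3
  exact ⟨u, N - u, hu.2, h3.2, by omega⟩

end Pool.Agent.H63.ESar
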