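import Pool.Agent.H63.ESar

set_option autoImplicit false

namespace Pool.Agent.H63.ESar

def rr (m : ℕ) : ℕ := m / 3
def ww (m : ℕ) : ℕ := m - m / 3

lemma rr_add_ww (m : ℕ) : rr m + ww m = m := by unfold rr ww; omega
lemma rr_le_ww (m : ℕ) : rr m ≤ ww m := by unfold rr ww; omega

/-- The elements: top part `u`, the digits of kind `c` are `x`, and the digits of the other kind
vanish below `ww m` and copy the low digits of `x` from there on. -/
def el (c m u x : ℕ) : ℕ := u * 4 ^ m + c * ev x + (3 - c) * (4 ^ ww m * ev (x % 2 ^ rr m))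

def SS (c : ℕ) : Set ℕ := {a | ∃ m u x, inU u = true ∧ x < 2 ^ m ∧ a = el c m u x}

lemma pow4 (m : ℕ) : 4 ^ m = 4 ^ ww m * 4 ^ rr m := by
  rw [← pow_add, add_comm, rr_add_ww]

lemma pow2 (m : ℕ) : 2 ^ m = 2 ^ ww m * 2 ^ rr m := by
  rw [← pow_add, add_comm, rr_add_ww]

lemma div_lt_rr {m x : ℕ} (hx : x < 2 ^ m) : x / 2 ^ ww m < 2 ^ rr m := by
  rw [Nat.div_lt_iff_lt_mul (by positivity), mul_comm, ← pow2]; exact hx

lemma el_eq (c m u x : ℕ) : el c m u x = c * ev (x % 2 ^ ww m) +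
    4 ^ ww m * (u * 4 ^ rr m + (c * ev (x / 2 ^ ww m) + (3 - c) * ev (x % 2 ^ rr m))) := by
  unfold el
  rw [ev_split (ww m) x, pow4 m]
  ring

lemma low_lt {c : ℕ} (hc : c = 1 ∨ c = 2) (k x : ℕ) : c * ev (x % 2 ^ k) < 4 ^ k := by
  have := ev_lt k (x % 2 ^ k) (Nat.mod_lt _ (by positivity))
  rcases hc with rfl | rfl <;> omega

lemma el_div {c : ℕ} (hc : c = 1 ∨ c = 2) (m u x : ℕ) : el c m u x / 4 ^ ww m =
    u * 4 ^ rr m + (c * ev (x / 2 ^ ww m) + (3 - c) * ev (x % 2 ^ rr m)) := by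
  rw [el_eq, Nat.add_mul_div_left _ _ (by positivity), Nat.div_eq_of_lt (low_lt hc _ _), zero_add]

lemma el_div' {c : ℕ} (hc : c = 1 ∨ c = 2) {m x : ℕ} (u : ℕ) (hx : x < 2 ^ m) :
    el c m u x / 4 ^ m = u := by
  rw [pow4 m, ← Nat.div_div_eq_div_mul, el_div hc, add_comm, Nat.add_mul_div_right _ _ (by positivity),
    Nat.div_eq_of_lt (pair_lt hc (div_lt_rr hx) (Nat.mod_lt _ (by positivity))), zero_add]

lemma el_ge (c m u x : ℕ) : u * 4 ^ m ≤ el c m u x := by unfold el; omega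

lemma el_lt {c : ℕ} (hc : c = 1 ∨ c = 2) {m x : ℕ} (u : ℕ) (hx : x < 2 ^ m) :
    el c m u x < (u + 1) * 4 ^ m := by
  rw [← Nat.div_lt_iff_lt_mul (by positivity), el_div' hc u hx]; omega

lemma el_lt' {c : ℕ} (hc : c = 1 ∨ c = 2) {m x u : ℕ} (hu : inU u = true) (hx : x < 2 ^ m) :
    el c m u x < 4 ^ (m + 6) := by
  have h1 := el_lt hc u hx
  have h2 := inU_range hu
  have h3 : (u + 1) * 4 ^ m ≤ 4096 * 4 ^ m := Nat.mul_le_mul_right _ (by omega)
  rw [pow_add]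
  omega

lemma el_ge' (c : ℕ) {m u : ℕ} (x : ℕ) (hu : inU u = true) : 4 ^ m ≤ el c m u x := by
  have h1 := el_ge c m u x
  have h2 := inU_range hu
  have h3 : 1 * 4 ^ m ≤ u * 4 ^ m := Nat.mul_le_mul_right _ (by omega)
  omega

lemma level_not_lt {c : ℕ} (hc : c = 1 ∨ c = 2) {m u x m' u' x' : ℕ} (hu : inU u = true)
    (hx : x < 2 ^ m) (hu' : inU u' = true) (hx' : x' < 2 ^ m')
    (h : el c m u x = el c m' u' x') : ¬ m < m' := by
  intro hlt
  obtain ⟨j, rfl⟩ := Nat.exists_eq_add_of_lt hlt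
  have h1 := el_div' hc u hx
  have h2 := el_div' hc u' hx'
  rw [← h, add_assoc, pow_add, ← Nat.div_div_eq_div_mul, h1] at h2
  have r1 := inU_range hu
  have r2 := inU_range hu'
  rcases Nat.eq_zero_or_pos j with rfl | hj
  · simp at h2; omega
  · obtain ⟨i, rfl⟩ := Nat.exists_eq_add_of_lt hj
    have : u / 4 ^ (0 + i + 1 + 1) ≤ u / 16 := by
      apply Nat.div_le_div_left _ (by norm_num)
      rw [pow_succ, pow_succ]
      have : 0 < 4 ^ (0 + i) := by positivity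
      omega
    omega

lemma el_inj {c : ℕ} (hc : c = 1 ∨ c = 2) {m u x m' u' x' : ℕ} (hu : inU u = true)
    (hx : x < 2 ^ m) (hu' : inU u' = true) (hx' : x' < 2 ^ m')
    (h : el c m u x = el c m' u' x') : m = m' ∧ u = u' ∧ x = x' := by
  have h1 := level_not_lt hc hu hx hu' hx' h
  have h2 := level_not_lt hc hu' hx' hu hx h.symm
  have hm : m = m' := by omega
  subst hm
  have hu2 : u = u' := by rw [← el_div' hc u hx, h, el_div' hc u' hx']
  subst hu2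
  refine ⟨rfl, rfl, ?_⟩
  have h3 : el c m u x / 4 ^ ww m = el c m u x' / 4 ^ ww m := by rw [h]
  rw [el_div hc, el_div hc] at h3
  have h4 := (ev_inj hc (Nat.add_left_cancel h3)).2
  unfold el at h
  rw [h4] at h
  have h5 : c * ev x + (3 - c) * ev 0 = c * ev x' + (3 - c) * ev 0 := by omega
  exact (ev_inj hc h5).1

lemma c_swap {c : ℕ} (hc : c = 1 ∨ c = 2) : 3 - c = 1 ∨ 3 - c = 2 := by omega
lemma c_swap' {c : ℕ} (hc : c = 1 ∨ c = 2) : 3 - (3 - c) = c := by omega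

/-- low digits of a sum -/
lemma sum_mod {c : ℕ} (hc : c = 1 ∨ c = 2) {k s t : ℕ} (u v x y : ℕ) (hs : k ≤ ww s)
    (ht : k ≤ ww t) : (el c s u x + el (3 - c) t v y) % 4 ^ k =
      c * ev (x % 2 ^ k) + (3 - c) * ev (y % 2 ^ k) := by
  obtain ⟨i, hi⟩ := Nat.exists_eq_add_of_le hs
  obtain ⟨j, hj⟩ := Nat.exists_eq_add_of_le ht
  have e : el c s u x + el (3 - c) t v y = (c * ev (x % 2 ^ k) + (3 - c) * ev (y % 2 ^ k)) +
      4 ^ k * (u * 4 ^ i * 4 ^ rr s + c * ev (x / 2 ^ k) + (3 - c) * (4 ^ i * ev (x % 2 ^ rr s)) +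
        v * 4 ^ j * 4 ^ rr t + (3 - c) * ev (y / 2 ^ k) +
          (3 - (3 - c)) * (4 ^ j * ev (y % 2 ^ rr t))) := by
    unfold el
    rw [ev_split k x, ev_split k y, pow4 s, pow4 t, hi, hj, pow_add, pow_add]
    ring
  rw [e, Nat.add_mul_mod_self_left, Nat.mod_eq_of_lt]
  exact pair_lt hc (Nat.mod_lt _ (by positivity)) (Nat.mod_lt _ (by positivity))

lemma avoid {c : ℕ} (hc : c = 1 ∨ c = 2) {u s a a' y y' : ℕ} (hu : inU u = true)
    (h1 : u * 4 ^ s ≤ a) (h2 : a < (u + 1) * 4 ^ s) (h3 : a' < 4 ^ s)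
    (h : a + c * ev y = a' + c * ev y') : False := by
  have r := inU_range hu
  obtain ⟨b1, b2, b3⟩ := inU_bad hu
  have e1 := ev_lt s (y % 2 ^ s) (Nat.mod_lt _ (by positivity))
  have e2 := ev_lt s (y' % 2 ^ s) (Nat.mod_lt _ (by positivity))
  rw [ev_split s y, ev_split s y'] at h
  have n1 := bad2_spec hc b1 (y / 2 ^ s) (y' / 2 ^ s)
  have n2 := bad2_spec hc b2 (y / 2 ^ s) (y' / 2 ^ s)
  have n3 := bad2_spec hc b3 (y / 2 ^ s) (y' / 2 ^ s)
  generalize ev (y / 2 ^ s) = P at *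
  generalize ev (y' / 2 ^ s) = P' at *
  generalize ev (y % 2 ^ s) = e at *
  generalize ev (y' % 2 ^ s) = e' at *
  generalize 4 ^ s = Q at *
  have hce : 3 * (c * e) + 2 ≤ 2 * Q + 1 := by rcases hc with rfl | rfl <;> omega
  have hce' : 3 * (c * e') + 2 ≤ 2 * Q + 1 := by rcases hc with rfl | rfl <;> omega
  have h' : a + c * e + Q * (c * P) = a' + c * e' + Q * (c * P') := by
    rw [mul_add, mul_add] at h; linarith [mul_left_comm c Q P, mul_left_comm c Q P']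
  generalize c * P = R at *
  generalize c * P' = R' at *
  generalize c * e = f at *
  generalize c * e' = f' at *
  rcases (by omega : R' + 2 ≤ R + u ∨ R + u + 2 ≤ R') with hh | hh
  · have := Nat.mul_le_mul_left Q hh
    nlinarith
  · have := Nat.mul_le_mul_left Q hh
    nlinarith

lemma mod_close {p q M : ℕ} (h : p % M = q % M) (h1 : p < q + M) (h2 : q < p + M) : p = q := by
  rcases le_total p q with hpq | hpq
  · have := (Nat.modEq_iff_dvd' hpq).1 h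
    have := Nat.eq_zero_of_dvd_of_lt this (by omega)
    omega
  · have := (Nat.modEq_iff_dvd' hpq).1 h.symm
    have := Nat.eq_zero_of_dvd_of_lt this (by omega)
    omega

lemma unique_rep {c : ℕ} (hc : c = 1 ∨ c = 2) {s u x t v y s' x' t' y' : ℕ}
    (hu : inU u = true) (hv : inU v = true) (hx : x < 2 ^ s) (hy : y < 2 ^ t)
    (hx' : x' < 2 ^ s') (hy' : y' < 2 ^ t') (hst : s ≤ t) (hst' : s' ≤ t')
    (ht : t % 4097 = t' % 4097) (hs : s % 4097 = s' % 4097)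
    (hf : ww s < rr t ↔ ww s' < rr t')
    (hb : el (3 - c) t v y / 4 ^ ww t % 4097 = el (3 - c) t' v y' / 4 ^ ww t' % 4097)
    (h : el c s u x + el (3 - c) t v y = el c s' u x' + el (3 - c) t' v y') :
    el c s u x = el c s' u x' := by
  have hc' := c_swap hc
  have a1 := el_lt' hc hu hx
  have a2 := el_lt' hc hu hx'
  have b1 := el_lt' hc' hv hy
  have b2 := el_lt' hc' hv hy'
  have b3 := el_ge' (3 - c) (m := t) y hv
  have b4 := el_ge' (3 - c) (m := t') y' hv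
  have p1 : 4 ^ (s + 6) ≤ 4 ^ (t + 6) := Nat.pow_le_pow_right (by norm_num) (by omega)
  have p2 : 4 ^ (s' + 6) ≤ 4 ^ (t' + 6) := Nat.pow_le_pow_right (by norm_num) (by omega)
  have t1 : t < t' + 7 := by
    have : 4 ^ t < 4 ^ (t' + 7) := by rw [pow_succ]; omega
    exact (Nat.pow_lt_pow_iff_right (by norm_num)).1 this
  have t2 : t' < t + 7 := by
    have : 4 ^ t' < 4 ^ (t + 7) := by rw [pow_succ]; omega
    exact (Nat.pow_lt_pow_iff_right (by norm_num)).1 this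
  have htt : t = t' := mod_close ht (by omega) (by omega)
  subst htt
  have hyy : y % 2 ^ rr t = y' % 2 ^ rr t := by
    by_cases hcase : ww s < rr t
    · have hcase' := hf.1 hcase
      have q1 : 4 ^ (s + 6) ≤ 4 ^ (ww t + 6) :=
        Nat.pow_le_pow_right (by norm_num) (by unfold ww rr at *; omega)
      have q2 : 4 ^ (s' + 6) ≤ 4 ^ (ww t + 6) :=
        Nat.pow_le_pow_right (by norm_num) (by unfold ww rr at *; omega)
      rw [pow_add 4 (ww t)] at q1 q2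
      have hW : 0 < 4 ^ ww t := by positivity
      have d1 : el (3 - c) t v y / 4 ^ ww t ≤ el (3 - c) t v y' / 4 ^ ww t + 4096 := by
        rw [← Nat.add_mul_div_left _ _ hW]
        exact Nat.div_le_div_right (by omega)
      have d2 : el (3 - c) t v y' / 4 ^ ww t ≤ el (3 - c) t v y / 4 ^ ww t + 4096 := by
        rw [← Nat.add_mul_div_left _ _ hW]
        exact Nat.div_le_div_right (by omega)
      have d3 := mod_close hb (by omega) (by omega)
      rw [el_div hc', el_div hc'] at d3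
      exact (ev_inj hc' (Nat.add_left_cancel d3)).2
    · have hcase' : ¬ ww s' < rr t := fun hh => hcase (hf.2 hh)
      have m1 := sum_mod hc (k := rr t) (s := s) (t := t) u v x y (by omega) (rr_le_ww t)
      have m2 := sum_mod hc (k := rr t) (s := s') (t := t) u v x' y' (by omega) (rr_le_ww t)
      rw [h, m2] at m1
      exact (ev_inj hc m1).2.symm
  have h' : el c s u x + (3 - c) * ev y = el c s' u x' + (3 - c) * ev y' := by
    have h0 := h
    rw [el.eq_1 (3 - c) t v y, el.eq_1 (3 - c) t v y', hyy] at h0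
    omega
  have s1 : s < s' + 6 := by
    by_contra hcon
    have : 4 ^ (s' + 6) ≤ 4 ^ s := Nat.pow_le_pow_right (by norm_num) (by omega)
    exact avoid hc' hu (el_ge c s u x) (el_lt hc u hx) (by omega) h'
  have s2 : s' < s + 6 := by
    by_contra hcon
    have : 4 ^ (s + 6) ≤ 4 ^ s' := Nat.pow_le_pow_right (by norm_num) (by omega)
    exact avoid hc' hu (el_ge c s' u x') (el_lt hc u hx') (by omega) h'.symm
  have hss : s = s' := mod_close hs (by omega) (by omega)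
  subst hss
  have hk : rr s ≤ ww t := by unfold rr ww; omega
  have m1 := sum_mod hc (k := rr s) (s := s) (t := t) u v x y (rr_le_ww s) hk
  have m2 := sum_mod hc (k := rr s) (s := s) (t := t) u v x' y' (rr_le_ww s) hk
  rw [h, m2] at m1
  have hxx := (ev_inj hc m1).1
  rw [el.eq_1 c s u x, el.eq_1 c s u x', hxx] at h'
  have h5 : c * ev x + (3 - c) * ev y = c * ev x' + (3 - c) * ev y' := by omega
  rw [(ev_inj hc h5).1]

lemma covers {n : ℕ} (hn : 713 ≤ n) : ∃ a ∈ SS 1, ∃ b ∈ SS 2, a + b = n := by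
  have hex : ∃ m, n / 4 ^ (m + 1) < 713 := by
    refine ⟨n, ?_⟩
    have : n < 4 ^ (n + 1) := lt_trans (Nat.lt_pow_self (by norm_num : 1 < 4))
      (Nat.pow_lt_pow_right (by norm_num) (by omega))
    rw [Nat.div_eq_of_lt this]; norm_num
  classical
  set m := Nat.find hex with hm
  have hm1 : n / 4 ^ (m + 1) < 713 := Nat.find_spec hex
  have hm2 : 713 ≤ n / 4 ^ m := by
    rcases Nat.eq_zero_or_pos m with h0 | h0
    · rw [h0]; simpa using hn
    · have := Nat.find_min hex (m := m - 1) (by omega)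
      rw [show m - 1 + 1 = m by omega] at this
      omega
  rw [pow_succ, ← Nat.div_div_eq_div_mul] at hm1
  clear_value m
  have hQ : 0 < 4 ^ m := by positivity
  obtain ⟨x0, y0, hx0, hy0, h0⟩ := ev_surj (rr m) (n % 4 ^ rr m) (Nat.mod_lt _ (by positivity))
  have hT : 4 ^ ww m * (2 * ev x0 + ev y0) < 4 ^ m := by
    have := pair_lt (c := 2) (Or.inr rfl) hx0 hy0
    rw [pow4 m]
    exact Nat.mul_lt_mul_of_pos_left (by omega) (by positivity)
  set T := 4 ^ ww m * (2 * ev x0 + ev y0) with hTdef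
  have hρ := Nat.mod_lt n hQ
  have hdm := Nat.div_add_mod n (4 ^ m)
  obtain ⟨σ, cc, hσ, hcc, hsum⟩ : ∃ σ cc, σ < 4 ^ m ∧ cc ≤ 1 ∧ σ + T = n % 4 ^ m + cc * 4 ^ m := by
    by_cases hh : T ≤ n % 4 ^ m
    · exact ⟨n % 4 ^ m - T, 0, by omega, by omega, by omega⟩
    · exact ⟨n % 4 ^ m + 4 ^ m - T, 1, by omega, by omega, by omega⟩
  obtain ⟨x, y, hx, hy, hxy⟩ := ev_surj m σ hσ
  obtain ⟨u, v, hu, hv, huv⟩ := cover (N := n / 4 ^ m - cc) (by omega) (by omega)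
  have hN : n / 4 ^ m = u + v + cc := by omega
  have key : n = (u + v) * 4 ^ m + σ + T := by
    rw [hN] at hdm
    nlinarith
  have hlow : x % 2 ^ rr m = x0 ∧ y % 2 ^ rr m = y0 := by
    obtain ⟨i, hi⟩ := Nat.exists_eq_add_of_le (rr_le_ww m)
    have e : n = (ev (x % 2 ^ rr m) + 2 * ev (y % 2 ^ rr m)) + 4 ^ rr m *
        ((u + v) * 4 ^ ww m + ev (x / 2 ^ rr m) + 2 * ev (y / 2 ^ rr m) +
          4 ^ i * (2 * ev x0 + ev y0)) := by
      rw [key, hxy, hTdef, ev_split (rr m) x, ev_split (rr m) y, pow4 m]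
      conv_lhs => rw [hi, pow_add]
      conv_rhs => rw [hi, pow_add]
      ring
    have hlt := pair_lt (c := 1) (Or.inl rfl) (Nat.mod_lt x (by positivity : 0 < 2 ^ rr m))
      (Nat.mod_lt y (by positivity : 0 < 2 ^ rr m))
    rw [e, Nat.add_mul_mod_self_left, Nat.mod_eq_of_lt (by omega)] at h0
    exact ev_inj2 _ _ _ _ _ le_rfl h0
  refine ⟨el 1 m u x, ⟨m, u, x, hu, hx, rfl⟩, el 2 m v y, ⟨m, v, y, hv, hy, rfl⟩, ?_⟩
  unfold el
  rw [hlow.1, hlow.2, key, hxy, hTdef]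
  ring

def sw (m y : ℕ) : ℕ := y / 2 ^ ww m + 2 ^ rr m * (y % 2 ^ ww m / 2 ^ rr m) + 2 ^ ww m * (y % 2 ^ rr m)

lemma sw_low {m y : ℕ} (hy : y < 2 ^ m) :
    y / 2 ^ ww m + 2 ^ rr m * (y % 2 ^ ww m / 2 ^ rr m) < 2 ^ ww m := by
  have h1 := div_lt_rr hy
  obtain ⟨i, hi⟩ := Nat.exists_eq_add_of_le (rr_le_ww m)
  have h2 : y % 2 ^ ww m / 2 ^ rr m < 2 ^ i := by
    rw [Nat.div_lt_iff_lt_mul (by positivity), ← pow_add, add_comm, ← hi]
    exact Nat.mod_lt _ (by positivity)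
  have h3 : 2 ^ rr m * (y % 2 ^ ww m / 2 ^ rr m + 1) ≤ 2 ^ rr m * 2 ^ i :=
    Nat.mul_le_mul_left _ h2
  rw [← pow_add, ← hi] at h3
  linarith

lemma sw_div {m y : ℕ} (hy : y < 2 ^ m) : sw m y / 2 ^ ww m = y % 2 ^ rr m := by
  unfold sw
  rw [Nat.add_mul_div_left _ _ (by positivity), Nat.div_eq_of_lt (sw_low hy), zero_add]

lemma sw_mod {m y : ℕ} (hy : y < 2 ^ m) : sw m y % 2 ^ rr m = y / 2 ^ ww m := by
  obtain ⟨i, hi⟩ := Nat.exists_eq_add_of_le (rr_le_ww m)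
  have e : sw m y = y / 2 ^ ww m + 2 ^ rr m * (y % 2 ^ ww m / 2 ^ rr m + 2 ^ i * (y % 2 ^ rr m)) := by
    unfold sw
    have : 2 ^ ww m * (y % 2 ^ rr m) = 2 ^ rr m * 2 ^ i * (y % 2 ^ rr m) := by
      rw [← pow_add, ← hi]
    rw [this]; ring
  rw [e, Nat.add_mul_mod_self_left, Nat.mod_eq_of_lt (div_lt_rr hy)]

lemma sw_lt {m y : ℕ} (hy : y < 2 ^ m) : sw m y < 2 ^ m := by
  have h1 := sw_div hy
  have h2 : y % 2 ^ rr m < 2 ^ rr m := Nat.mod_lt _ (by positivity)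
  rw [← h1, Nat.div_lt_iff_lt_mul (by positivity), mul_comm, ← pow2] at h2
  exact h2

lemma sw_inj {m y y' : ℕ} (hy : y < 2 ^ m) (hy' : y' < 2 ^ m) (h : sw m y = sw m y') : y = y' := by
  have h1 : y % 2 ^ rr m = y' % 2 ^ rr m := by rw [← sw_div hy, h, sw_div hy']
  have h2 : y / 2 ^ ww m = y' / 2 ^ ww m := by rw [← sw_mod hy, h, sw_mod hy']
  unfold sw at h
  rw [h1, h2] at h
  have h3 : y % 2 ^ ww m / 2 ^ rr m = y' % 2 ^ ww m / 2 ^ rr m :=
    Nat.eq_of_mul_eq_mul_left (by positivity : 0 < 2 ^ rr m) (by omega)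
  have hd : 2 ^ rr m ∣ 2 ^ ww m := pow_dvd_pow 2 (rr_le_ww m)
  have h4 : y % 2 ^ ww m = y' % 2 ^ ww m := by
    rw [← Nat.div_add_mod (y % 2 ^ ww m) (2 ^ rr m), ← Nat.div_add_mod (y' % 2 ^ ww m) (2 ^ rr m),
      h3, Nat.mod_mod_of_dvd _ hd, Nat.mod_mod_of_dvd _ hd, h1]
  rw [← Nat.div_add_mod y (2 ^ ww m), ← Nat.div_add_mod y' (2 ^ ww m), h2, h4]

lemma el_sw {c : ℕ} (hc : c = 1 ∨ c = 2) {m y : ℕ} (u : ℕ) (hy : y < 2 ^ m) :
    el (3 - c) m u (sw m y) < el c m u y + 4 ^ ww m := by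
  have h1 : el (3 - c) m u (sw m y) / 4 ^ ww m = el c m u y / 4 ^ ww m := by
    rw [el_div hc, el_div (c_swap hc), sw_div hy, sw_mod hy, c_swap' hc]
    ring
  have hW : 0 < 4 ^ ww m := by positivity
  have h2 := Nat.div_add_mod (el (3 - c) m u (sw m y)) (4 ^ ww m)
  have h3 := Nat.div_add_mod (el c m u y) (4 ^ ww m)
  have h4 := Nat.mod_lt (el (3 - c) m u (sw m y)) hW
  rw [h1] at h2
  omega

lemma exists_map {c : ℕ} (hc : c = 1 ∨ c = 2) : ∃ F : ℕ → ℕ, Set.InjOn F (SS c) ∧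
    Set.MapsTo F (SS c) (SS (3 - c)) ∧
    ∀ K Y b : ℕ, 4 ^ (3 * K + 6) ≤ Y → b ∈ SS c → b ≤ Y → 4 ^ K * F b ≤ (4 ^ K + 1) * Y := by
  have h : ∀ b : ℕ, ∃ p : ℕ × ℕ × ℕ, b ∈ SS c →
      inU p.2.1 = true ∧ p.2.2 < 2 ^ p.1 ∧ b = el c p.1 p.2.1 p.2.2 := by
    intro b
    by_cases hb : b ∈ SS c
    · obtain ⟨m, u, x, h1, h2, h3⟩ := hb
      exact ⟨(m, u, x), fun _ => ⟨h1, h2, h3⟩⟩
    · exact ⟨(0, 0, 0), fun hh => absurd hh hb⟩
  choose p hp using h
  refine ⟨fun b => el (3 - c) (p b).1 (p b).2.1 (sw (p b).1 (p b).2.2), ?_, ?_, ?_⟩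
  · intro b hb b' hb' he
    obtain ⟨h1, h2, h3⟩ := hp b hb
    obtain ⟨h1', h2', h3'⟩ := hp b' hb'
    obtain ⟨e1, e2, e3⟩ := el_inj (c_swap hc) h1 (sw_lt h2) h1' (sw_lt h2') he
    rw [← e1] at e3 h2'
    rw [h3, h3', ← e1, ← e2, sw_inj h2 h2' e3]
  · intro b hb
    obtain ⟨h1, h2, h3⟩ := hp b hb
    exact ⟨_, _, _, h1, sw_lt h2, rfl⟩
  · intro K Y b hY hb hbY
    obtain ⟨h1, h2, h3⟩ := hp b hb
    show 4 ^ K * el (3 - c) (p b).1 (p b).2.1 (sw (p b).1 (p b).2.2) ≤ _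
    generalize (p b).1 = m at *
    generalize (p b).2.1 = u at *
    generalize (p b).2.2 = y at *
    by_cases hK : K ≤ rr m
    · have e1 := el_sw hc u h2
      have e2 := el_ge' c (m := m) y h1
      have e3 : 4 ^ K * 4 ^ ww m ≤ 4 ^ m := by
        rw [pow4 m, mul_comm]
        exact Nat.mul_le_mul_left _ (Nat.pow_le_pow_right (by norm_num) hK)
      rw [← h3] at e1 e2
      have e4 := Nat.mul_le_mul_left (4 ^ K) e1.le
      have e5 := Nat.mul_le_mul_left (4 ^ K) hbY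
      nlinarith
    · have e1 := el_lt' (c_swap hc) h1 (sw_lt h2)
      have e2 : 4 ^ (m + 6) ≤ 4 ^ (3 * K + 6) :=
        Nat.pow_le_pow_right (by norm_num) (by unfold rr at hK; omega)
      exact Nat.mul_le_mul (by omega) (by omega)

lemma nth_le_of_map {A B : Set ℕ} (hB : B.Infinite) {F : ℕ → ℕ} (hi : Set.InjOn F B)
    (hm : Set.MapsTo F B A) {n Z : ℕ} (h : ∀ b ∈ B, b ≤ Nat.nth (· ∈ B) n → F b ≤ Z) :
    Nat.nth (· ∈ A) n ≤ Z := by
  classical
  have hB' : {x | x ∈ B}.Infinite := hB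
  have hlt : n < Nat.count (· ∈ A) (Z + 1) := by
    rw [Nat.count_eq_card_filter_range]
    have : (Finset.range (n + 1)).card ≤ ((Finset.range (Z + 1)).filter (· ∈ A)).card := by
      apply Finset.card_le_card_of_injOn (fun i => F (Nat.nth (· ∈ B) i))
      · intro i hi'
        have hb : Nat.nth (· ∈ B) i ∈ B := Nat.nth_mem_of_infinite hB' i
        simp only [Finset.coe_range, Set.mem_Iio] at hi'
        simp only [Finset.coe_filter, Finset.mem_range, Set.mem_ofPred_eq]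
        exact ⟨Nat.lt_succ_of_le (h _ hb (Nat.nth_monotone hB' (by omega))), hm hb⟩
      · intro i _ j _ hij
        exact Nat.nth_injective hB'
          (hi (Nat.nth_mem_of_infinite hB' i) (Nat.nth_mem_of_infinite hB' j) hij)
    simpa using this
  exact Nat.lt_succ_iff.1 (Nat.nth_lt_of_lt_count hlt)

lemma SS_infinite (c : ℕ) : (SS c).Infinite := by
  apply Set.infinite_of_forall_exists_gt
  intro a
  have hu : inU 100 = true := by decide +kernel
  refine ⟨el c a 100 0, ⟨a, 100, 0, hu, by positivity, rfl⟩, ?_⟩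
  exact lt_of_lt_of_le (Nat.lt_pow_self (by norm_num : 1 < 4)) (el_ge' c 0 hu)

lemma SS_pos (c : ℕ) : ∀ a ∈ SS c, 1 ≤ a := by
  rintro a ⟨m, u, x, hu, -, rfl⟩
  exact le_trans (Nat.one_le_pow _ _ (by norm_num)) (el_ge' c x hu)

lemma nth_ineq {c : ℕ} (hc : c = 1 ∨ c = 2) (K : ℕ) : ∀ n, 4 ^ (3 * K + 6) ≤ n →
    4 ^ K * Nat.nth (· ∈ SS (3 - c)) n ≤ (4 ^ K + 1) * Nat.nth (· ∈ SS c) n := by
  intro n hn
  obtain ⟨F, hi, hm, hF⟩ := exists_map hc
  have hB' : {x | x ∈ SS c}.Infinite := SS_infinite c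
  have hY : 4 ^ (3 * K + 6) ≤ Nat.nth (· ∈ SS c) n :=
    le_trans hn (Nat.nth_strictMono hB').le_apply
  have hK : 0 < 4 ^ K := by positivity
  have := nth_le_of_map (SS_infinite c) hi hm (n := n)
    (Z := (4 ^ K + 1) * Nat.nth (· ∈ SS c) n / 4 ^ K) (fun b hb hbY => by
      rw [Nat.le_div_iff_mul_le hK, mul_comm]
      exact hF K _ b hY hb hbY)
  rw [Nat.le_div_iff_mul_le hK, mul_comm] at this
  exact this

lemma ratio_tendsto : Filter.Tendsto
    (fun n : ℕ => ((Nat.nth (· ∈ SS 1) n : ℕ) : ℝ) / ((Nat.nth (· ∈ SS 2) n : ℕ) : ℝ))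
      Filter.atTop (nhds 1) := by
  rw [Metric.tendsto_atTop]
  intro ε hε
  obtain ⟨K, hK⟩ := exists_nat_one_div_lt hε
  refine ⟨4 ^ (3 * K + 6), fun n hn => ?_⟩
  have h1 := nth_ineq (c := 1) (Or.inl rfl) K n hn
  have h2 := nth_ineq (c := 2) (Or.inr rfl) K n hn
  have hb : 1 ≤ Nat.nth (· ∈ SS 2) n :=
    SS_pos 2 _ (Nat.nth_mem_of_infinite (SS_infinite 2) n)
  norm_num at h1 h2
  generalize Nat.nth (· ∈ SS 1) n = a at *
  generalize Nat.nth (· ∈ SS 2) n = b at *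
  have hQ : K + 1 ≤ 4 ^ K := Nat.lt_pow_self (by norm_num : 1 < 4)
  generalize 4 ^ K = Q at *
  have h1' : (Q : ℝ) * b ≤ (Q + 1) * a := by exact_mod_cast h1
  have h2' : (Q : ℝ) * a ≤ (Q + 1) * b := by exact_mod_cast h2
  have hQ' : (K : ℝ) + 1 ≤ Q := by exact_mod_cast hQ
  have hb' : (1 : ℝ) ≤ b := by exact_mod_cast hb
  have hK0 : (0 : ℝ) < K + 1 := by positivity
  have ha0 : (0 : ℝ) ≤ a := by positivity
  rw [div_lt_iff₀ hK0] at hK
  have hεQ : 1 < ε * Q := by nlinarith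
  rw [Real.dist_eq, abs_lt]
  constructor
  · rw [lt_sub_iff_add_lt, lt_div_iff₀ (by linarith)]
    have : (0 : ℝ) < Q + 1 := by linarith
    by_contra hcon
    push Not at hcon
    have := mul_le_mul_of_nonneg_left hcon this.le
    nlinarith
  · rw [sub_lt_iff_lt_add, div_lt_iff₀ (by linarith)]
    have : (0 : ℝ) < Q := by linarith
    by_contra hcon
    push Not at hcon
    have := mul_le_mul_of_nonneg_left hcon this.le
    nlinarith

lemma reps_bounded : ∃ C : ℕ, ∀ n : ℕ,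
    Set.ncard {a : ℕ | a ∈ SS 1 ∧ ∃ b ∈ SS 2, a + b = n} ≤ C := by
  classical
  let I : Set ℕ := Set.Iio 4097
  have hI : I.Finite := Set.finite_Iio _
  let T : Set (ℕ × ℕ × ℕ × ℕ × ℕ × ℕ × Prop × Prop × Prop) :=
    I ×ˢ I ×ˢ I ×ˢ I ×ˢ I ×ˢ I ×ˢ Set.univ
  have hT : T.Finite :=
    hI.prod (hI.prod (hI.prod (hI.prod (hI.prod (hI.prod Set.finite_univ)))))
  refine ⟨T.ncard, fun n => ?_⟩
  have h : ∀ a : ℕ, ∃ s u x t v y : ℕ, (a ∈ SS 1 ∧ ∃ b ∈ SS 2, a + b = n) →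
      inU u = true ∧ x < 2 ^ s ∧ inU v = true ∧ y < 2 ^ t ∧ a = el 1 s u x ∧
        el 1 s u x + el 2 t v y = n := by
    intro a
    by_cases ha : a ∈ SS 1 ∧ ∃ b ∈ SS 2, a + b = n
    · obtain ⟨⟨s, u, x, h1, h2, h3⟩, b, ⟨t, v, y, h4, h5, h6⟩, h7⟩ := ha
      exact ⟨s, u, x, t, v, y, fun _ => ⟨h1, h2, h4, h5, h3, by rw [← h3, ← h6, h7]⟩⟩
    · exact ⟨0, 0, 0, 0, 0, 0, fun hh => absurd hh ha⟩
  choose s u x t v y hp using h
  refine Set.ncard_le_ncard_of_injOn (fun a => (s a % 4097, t a % 4097, u a, v a,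
    el 1 (s a) (u a) (x a) / 4 ^ ww (s a) % 4097, el 2 (t a) (v a) (y a) / 4 ^ ww (t a) % 4097,
    s a ≤ t a, ww (s a) < rr (t a), ww (t a) < rr (s a))) ?_ ?_ hT
  · intro a ha
    obtain ⟨h1, -, h3, -⟩ := hp a ha
    have r1 := inU_range h1
    have r3 := inU_range h3
    simp only [T, I, Set.mem_prod, Set.mem_Iio, Set.mem_univ, and_true]
    refine ⟨by omega, by omega, by omega, by omega, by omega, by omega⟩
  · intro a ha a' ha' he
    obtain ⟨h1, h2, h3, h4, h5, h6⟩ := hp a ha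
    obtain ⟨h1', h2', h3', h4', h5', h6'⟩ := hp a' ha'
    simp only [Prod.mk.injEq, eq_iff_iff] at he
    obtain ⟨e1, e2, e3, e4, e5, e6, e7, e8, e9⟩ := he
    rw [← e3] at e5 h5' h6'
    rw [← e4] at e6 h6'
    by_cases hst : s a ≤ t a
    · rw [h5, h5']
      exact unique_rep (c := 1) (Or.inl rfl) h1 h3 h2 h4 h2' h4' hst (e7.1 hst) e2 e1 e8 e6
        (h6.trans h6'.symm)
    · have hst' : ¬ s a' ≤ t a' := fun hh => hst (e7.2 hh)
      have := unique_rep (c := 2) (Or.inr rfl) h3 h1 h4 h2 h4' h2' (by omega) (by omega) e1 e2 e9 e5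
        (by norm_num; omega)
      omega

end Pool.Agent.H63.ESar
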