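import Mathlib

namespace Pool.Agent.H63.PolyL1

open Polynomial

noncomputable def L (p : ℤ[X]) : ℤ := ∑ i ∈ p.support, |p.coeff i|

lemma L_nonneg (p : ℤ[X]) : 0 ≤ L p := Finset.sum_nonneg fun _ _ => abs_nonneg _

lemma sum_le_L (p : ℤ[X]) (s : Finset ℕ) : ∑ i ∈ s, |p.coeff i| ≤ L p := by
  classical
  rw [← Finset.sum_filter_ne_zero]
  apply Finset.sum_le_sum_of_subset_of_nonneg
  · intro i hi
    simpa using (Finset.mem_filter.1 hi).2
  · intro i _ _; exact abs_nonneg _

lemma L_eq (p : ℤ[X]) (s : Finset ℕ) (hs : p.support ⊆ s) : L p = ∑ i ∈ s, |p.coeff i| :=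
  le_antisymm (Finset.sum_le_sum_of_subset_of_nonneg hs fun _ _ _ => abs_nonneg _) (sum_le_L p s)

lemma coeff_le_L (p : ℤ[X]) (i : ℕ) : |p.coeff i| ≤ L p := by
  simpa using sum_le_L p {i}

lemma L_zero : L 0 = 0 := by simp [L]

lemma L_add (p q : ℤ[X]) : L (p + q) ≤ L p + L q := by
  calc L (p + q) ≤ ∑ i ∈ (p + q).support, (|p.coeff i| + |q.coeff i|) :=
        Finset.sum_le_sum fun i _ => by rw [coeff_add]; exact abs_add_le _ _
    _ ≤ _ := by rw [Finset.sum_add_distrib]; exact add_le_add (sum_le_L _ _) (sum_le_L _ _)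

lemma L_neg (p : ℤ[X]) : L (-p) = L p := by simp [L]

lemma L_sub (p q : ℤ[X]) : L (p - q) ≤ L p + L q := by
  rw [sub_eq_add_neg, ← L_neg q]; exact L_add _ _

lemma L_sum {ι : Type*} (s : Finset ι) (f : ι → ℤ[X]) : L (∑ i ∈ s, f i) ≤ ∑ i ∈ s, L (f i) := by
  induction s using Finset.cons_induction with
  | empty => simp [L_zero]
  | cons a s ha ih => rw [Finset.sum_cons, Finset.sum_cons]; exact (L_add _ _).trans (by gcongr)

lemma L_monomial (n : ℕ) (a : ℤ) : L (monomial n a) = |a| := by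
  rw [L_eq _ {n} (support_monomial_subset n a)]; simp

lemma L_C (a : ℤ) : L (C a) = |a| := by rw [← monomial_zero_left, L_monomial]

lemma L_one : L 1 = 1 := by rw [← C_1, L_C]; simp

lemma L_X : L X = 1 := by rw [← monomial_one_one_eq_X, L_monomial]; simp

lemma L_mul (p q : ℤ[X]) : L (p * q) ≤ L p * L q := by
  conv_lhs => rw [p.as_sum_support, q.as_sum_support, Finset.sum_mul_sum]
  refine (L_sum _ _).trans ?_
  rw [L, L, Finset.sum_mul_sum]
  refine Finset.sum_le_sum fun i _ => (L_sum _ _).trans (Finset.sum_le_sum fun j _ => ?_)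
  rw [monomial_mul_monomial, L_monomial, abs_mul]

lemma L_pow (p : ℤ[X]) (n : ℕ) : L (p ^ n) ≤ L p ^ n := by
  induction n with
  | zero => simp [L_one]
  | succ n ih =>
    rw [pow_succ, pow_succ]
    exact (L_mul _ _).trans (mul_le_mul_of_nonneg_right ih (L_nonneg _))

lemma L_prod {ι : Type*} (s : Finset ι) (f : ι → ℤ[X]) : L (∏ i ∈ s, f i) ≤ ∏ i ∈ s, L (f i) := by
  induction s using Finset.cons_induction with
  | empty => simp [L_one]
  | cons a s ha ih =>
    rw [Finset.prod_cons, Finset.prod_cons]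
    exact (L_mul _ _).trans (mul_le_mul_of_nonneg_left ih (L_nonneg _))

lemma L_X_sub_C (a : ℤ) : L (X - C a) ≤ 1 + |a| := by
  have := L_sub X (C a)
  rwa [L_X, L_C] at this

lemma L_derivative (p : ℤ[X]) : L (derivative p) ≤ p.natDegree * L p := by
  conv_lhs => rw [p.as_sum_support, map_sum]
  refine (L_sum _ _).trans ?_
  rw [L, Finset.mul_sum]
  refine Finset.sum_le_sum fun i hi => ?_
  rw [derivative_monomial, L_monomial, abs_mul, mul_comm, Nat.abs_cast]
  gcongr
  exact_mod_cast le_natDegree_of_mem_supp i hi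

lemma abs_det_le {n : Type*} [Fintype n] [DecidableEq n] (A : Matrix n n ℤ) :
    |A.det| ≤ ∏ j, ∑ i, |A i j| := by
  rw [Matrix.det_apply', Finset.prod_univ_sum, Fintype.piFinset_univ]
  refine (Finset.abs_sum_le_sum_abs _ _).trans ?_
  have h1 : ∀ σ : Equiv.Perm n, |((Equiv.Perm.sign σ : ℤ) : ℤ) * ∏ i, A (σ i) i|
      = ∏ i, |A (σ i) i| := by
    intro σ
    rw [abs_mul, Finset.abs_prod]
    rcases Int.units_eq_one_or (Equiv.Perm.sign σ) with h | h <;> simp [h]
  simp only [Int.cast_id, h1]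
  rw [← Finset.sum_image (s := Finset.univ) (g := fun σ : Equiv.Perm n => (σ : n → n))
    (f := fun p => ∏ i, |A (p i) i|) (fun σ _ τ _ h => DFunLike.coe_injective h)]
  exact Finset.sum_le_sum_of_subset_of_nonneg (Finset.subset_univ _)
    fun _ _ _ => Finset.prod_nonneg fun _ _ => abs_nonneg _

theorem card_le {A : Type*} [CommRing A] (φ : ℤ[X] →+* A) (hφ : Function.Surjective φ)
    (w P : ℤ[X]) (hw : w.Monic) (hw0 : φ w = 0) (hP0 : φ P = 0)
    (hcop : ∀ z : ℂ, aeval z w ≠ 0 ∨ aeval z P ≠ 0) :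
    (Nat.card A : ℤ) ≤ L P ^ w.natDegree * L w ^ P.natDegree := by
  classical
  set n := w.natDegree with hn
  set d := P.natDegree with hd
  have hres : resultant w P ≠ 0 := by
    intro h0
    have h1 := resultant_map_map w P n d (Int.castRingHom ℂ)
    have h2 : (w.map (Int.castRingHom ℂ)).natDegree = n :=
      natDegree_map_eq_of_injective (RingHom.injective_int _) _
    have h3 : (P.map (Int.castRingHom ℂ)).natDegree = d :=
      natDegree_map_eq_of_injective (RingHom.injective_int _) _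
    rw [h0, map_zero, ← h2, ← h3, resultant_eq_zero_iff] at h1
    apply h1.2
    rw [isCoprime_iff_aeval_ne_zero_of_isAlgClosed ℂ ℂ]
    intro z
    have := hcop z
    rwa [← algebraMap_int_eq, aeval_map_algebraMap, aeval_map_algebraMap]
  let S := sylvesterMap w P hn.ge hd.ge
  have hinj : Function.Injective S := by
    rw [injective_iff_map_eq_zero]
    intro x hx
    have := congrArg (fun T => T x) (adjSylvester_comp_sylveserMap w P hn.ge hd.ge)
    simp only [LinearMap.comp_apply, LinearMap.smul_apply, LinearMap.id_apply] at this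
    rw [show sylvesterMap w P hn.ge hd.ge x = 0 from hx, map_zero] at this
    exact (smul_eq_zero.1 this.symm).resolve_left hres
  let b₁ := ((degreeLT.basis ℤ n).prod (degreeLT.basis ℤ d)).reindex finSumFinEquiv
  let b₂ := degreeLT.basis ℤ (n + d)
  have h1 := Submodule.natAbs_det_basis_change b₂ (LinearMap.range S)
    (b₁.map (LinearEquiv.ofInjective S hinj))
  have h2 : b₂.toMatrix ((↑) ∘ (b₁.map (LinearEquiv.ofInjective S hinj))) = S.toMatrix b₁ b₂ := by
    ext i j
    rw [Module.Basis.toMatrix_apply, LinearMap.toMatrix_apply]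
    rfl
  rw [Module.Basis.det_apply, h2] at h1
  have h3 : (S.toMatrix b₁ b₂).det = resultant w P := by
    rw [toMatrix_sylvesterMap']; rfl
  have hfin : Finite (degreeLT ℤ (n + d) ⧸ LinearMap.range S) := by
    apply Nat.finite_of_card_ne_zero
    rw [← h1, h3]; simpa using hres
  let ψ : degreeLT ℤ (n + d) →ₗ[ℤ] A :=
    φ.toAddMonoidHom.toIntLinearMap.comp (degreeLT ℤ (n + d)).subtype
  have hψ : LinearMap.range S ≤ LinearMap.ker ψ := by
    rintro _ ⟨x, rfl⟩
    simp [ψ, S, hw0, hP0]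
  have hsurj : Function.Surjective ((LinearMap.range S).liftQ ψ hψ) := by
    intro a
    obtain ⟨p, rfl⟩ := hφ a
    refine ⟨Submodule.Quotient.mk ⟨p %ₘ w, ?_⟩, ?_⟩
    · rw [mem_degreeLT]
      refine (degree_modByMonic_lt p hw).trans_le ?_
      rw [degree_eq_natDegree hw.ne_zero]
      exact_mod_cast Nat.le_add_right n d
    · rw [Submodule.liftQ_apply]
      conv_rhs => rw [← modByMonic_add_div p w]
      simp [ψ, hw0]
  have h4 := Nat.card_le_card_of_surjective _ hsurj
  rw [← h1] at h4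
  have h5 : (Nat.card A : ℤ) ≤ |(S.toMatrix b₁ b₂).det| := by
    rw [← Int.natCast_natAbs]; exact_mod_cast h4
  refine h5.trans ((abs_det_le _).trans ?_)
  have h6 : ∀ j, ∑ i, |S.toMatrix b₁ b₂ i j| ≤ L (S (b₁ j)) := by
    intro j
    simp only [LinearMap.toMatrix_apply, b₂, degreeLT.basis_repr]
    rw [Fin.sum_univ_eq_sum_range (fun i => |(S (b₁ j) : ℤ[X]).coeff i|)]
    exact sum_le_L _ _
  have hXp : ∀ (p : ℤ[X]) (k : ℕ), L (p * X ^ k) ≤ L p := by
    intro p k
    refine (L_mul _ _).trans ?_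
    have := L_pow X k
    rw [L_X, one_pow] at this
    exact mul_le_of_le_one_right (L_nonneg _) this
  refine (Finset.prod_le_prod (fun j _ => Finset.sum_nonneg fun _ _ => abs_nonneg _)
    fun j _ => h6 j).trans ?_
  rw [Fin.prod_univ_add]
  refine mul_le_mul ?_ ?_ (Finset.prod_nonneg fun _ _ => L_nonneg _) (pow_nonneg (L_nonneg _) _)
  · refine (Finset.prod_le_prod (fun j _ => L_nonneg _) (g := fun _ => L P) fun j _ => ?_).trans
      (by simp)
    simpa [S, b₁] using hXp P j
  · refine (Finset.prod_le_prod (fun j _ => L_nonneg _) (g := fun _ => L w) fun j _ => ?_).trans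
      (by simp)
    simpa [S, b₁] using hXp w j

end Pool.Agent.H63.PolyL1
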