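import Mathlib
import Pool.Agent.H63.PolyL1

namespace Pool.Agent.H63.Elim

open Polynomial Pool.Agent.H63.PolyL1

variable {τ : Type*} [Fintype τ] [DecidableEq τ] (a : τ → ℤ) (N : ℕ)

noncomputable def Pi0 : ℤ[X] := ∏ t, (X - C (a t))
noncomputable def Pi1 (t : τ) : ℤ[X] := ∏ u ∈ Finset.univ.erase t, (X - C (a u))
noncomputable def ff (e : τ → ℕ) : ℤ[X] := ∏ t, (X - C (a t)) ^ (N * e t)
noncomputable def lam (e : τ → ℕ) : ℤ[X] := ∑ t, ((N * e t : ℕ) : ℤ[X]) * Pi1 a t

lemma Pi0_eq (t : τ) : Pi0 a = (X - C (a t)) * Pi1 a t :=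
  (Finset.mul_prod_erase _ _ (Finset.mem_univ t)).symm

lemma mul_deriv_pow (b : ℤ) (s : ℕ) :
    (X - C b) * derivative ((X - C b) ^ s) = (s : ℤ[X]) * (X - C b) ^ s := by
  rcases s with _ | s
  · simp
  · rw [derivative_X_sub_C_pow]
    simp only [Nat.add_sub_cancel, map_natCast]
    ring

lemma deriv_ff (e : τ → ℕ) : Pi0 a * derivative (ff a N e) = lam a N e * ff a N e := by
  rw [ff, derivative_prod_finset, Finset.mul_sum, lam, Finset.sum_mul]
  refine Finset.sum_congr rfl fun t _ => ?_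
  rw [← Finset.mul_prod_erase _ _ (Finset.mem_univ t), Pi0_eq a t]
  linear_combination (Pi1 a t * ∏ x ∈ Finset.univ.erase t, (X - C (a x)) ^ (N * e x)) *
    mul_deriv_pow (a t) (N * e t)

lemma natDegree_Pi0 : (Pi0 a).natDegree = Fintype.card τ := by
  rw [Pi0, natDegree_prod_of_monic _ _ fun i _ => monic_X_sub_C _]
  simp only [natDegree_X_sub_C]; simp

lemma natDegree_Pi1 (t : τ) : (Pi1 a t).natDegree ≤ Fintype.card τ := by
  rw [Pi1, natDegree_prod_of_monic _ _ fun i _ => monic_X_sub_C _]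
  simp only [natDegree_X_sub_C]; simp

lemma natDegree_lam (e : τ → ℕ) : (lam a N e).natDegree ≤ Fintype.card τ := by
  apply natDegree_sum_le_of_forall_le
  intro t _
  refine natDegree_mul_le.trans ?_
  rw [natDegree_natCast, zero_add]
  exact natDegree_Pi1 a t

lemma eval_lam (e : τ → ℕ) (t : τ) :
    (lam a N e).eval (a t) = (N * e t : ℕ) * (Pi1 a t).eval (a t) := by
  rw [lam, eval_finsetSum, Finset.sum_eq_single t]
  · simp
  · intro u _ hu
    rw [eval_mul, Pi1, eval_prod, Finset.prod_eq_zero (i := t) (by simp [hu.symm]) (by simp),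
      mul_zero]
  · simp

lemma eval_Pi1_ne (ha : Function.Injective a) (t : τ) : (Pi1 a t).eval (a t) ≠ 0 := by
  rw [Pi1, eval_prod, Finset.prod_ne_zero_iff]
  intro u hu
  simpa [sub_eq_zero] using fun h => (Finset.ne_of_mem_erase hu) (ha h).symm

noncomputable def th (e : τ → ℕ) (μ : ℤ[X]) : ℤ[X] := lam a N e * μ - Pi0 a * derivative μ
noncomputable def dl (e : τ → ℕ) (c : ℤ[X]) : ℤ[X] := Pi0 a * derivative c + lam a N e * c

lemma natDegree_th (e : τ → ℕ) (μ : ℤ[X]) :
    (th a N e μ).natDegree ≤ μ.natDegree + Fintype.card τ := by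
  refine (natDegree_sub_le _ _).trans (max_le ?_ ?_)
  · refine natDegree_mul_le.trans ?_
    have := natDegree_lam a N e; omega
  · refine natDegree_mul_le.trans ?_
    have := natDegree_Pi0 a
    have := natDegree_derivative_le μ
    omega

lemma natDegree_dl (e : τ → ℕ) (μ : ℤ[X]) :
    (dl a N e μ).natDegree ≤ μ.natDegree + Fintype.card τ := by
  refine (natDegree_add_le _ _).trans (max_le ?_ ?_)
  · refine natDegree_mul_le.trans ?_
    have := natDegree_Pi0 a
    have := natDegree_derivative_le μ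
    omega
  · refine natDegree_mul_le.trans ?_
    have := natDegree_lam a N e; omega

lemma nonvanish (ha : Function.Injective a) (e e' : τ → ℕ) (he : e ≠ e') (μ ν : ℤ[X])
    (hμ : μ ≠ 0) (hν : ν ≠ 0) (h1 : μ.natDegree < N) (h2 : ν.natDegree < N) :
    ν * th a N e μ - th a N e' ν * μ ≠ 0 := by
  obtain ⟨t, ht⟩ := Function.ne_iff.1 he
  obtain ⟨g, hg, hg'⟩ := exists_eq_pow_rootMultiplicity_mul_and_not_dvd μ hμ (a t)
  obtain ⟨k, hk, hk'⟩ := exists_eq_pow_rootMultiplicity_mul_and_not_dvd ν hν (a t)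
  have hs : rootMultiplicity (a t) μ < N := by
    have := natDegree_le_of_dvd (pow_rootMultiplicity_dvd μ (a t)) hμ
    rw [natDegree_pow, natDegree_X_sub_C] at this
    omega
  have hs' : rootMultiplicity (a t) ν < N := by
    have := natDegree_le_of_dvd (pow_rootMultiplicity_dvd ν (a t)) hν
    rw [natDegree_pow, natDegree_X_sub_C] at this
    omega
  generalize rootMultiplicity (a t) μ = s at hg hs
  generalize rootMultiplicity (a t) ν = s' at hk hs'
  rw [dvd_iff_isRoot, IsRoot] at hg' hk'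
  have key : ν * th a N e μ - th a N e' ν * μ = (X - C (a t)) ^ s * (X - C (a t)) ^ s' *
      (k * (lam a N e * g - Pi1 a t * ((s : ℤ[X]) * g + (X - C (a t)) * derivative g))
        - (lam a N e' * k - Pi1 a t * ((s' : ℤ[X]) * k + (X - C (a t)) * derivative k)) * g) := by
    rw [th, th, hg, hk, derivative_mul, derivative_mul, Pi0_eq a t]
    linear_combination (-((X - C (a t)) ^ s' * k * Pi1 a t * g)) * mul_deriv_pow (a t) s
      + ((X - C (a t)) ^ s * k * Pi1 a t * g) * mul_deriv_pow (a t) s'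
  rw [key]
  refine mul_ne_zero (mul_ne_zero (pow_ne_zero _ (X_sub_C_ne_zero _))
    (pow_ne_zero _ (X_sub_C_ne_zero _))) fun h0 => ?_
  have h3 := congrArg (eval (a t)) h0
  simp only [eval_sub, eval_mul, eval_add, eval_lam, eval_X, eval_C, sub_self, zero_mul, add_zero,
    eval_natCast, eval_zero] at h3
  have h4 : eval (a t) k * eval (a t) g * eval (a t) (Pi1 a t) *
      (((N * e t : ℕ) : ℤ) - s - (N * e' t : ℕ) + s') = 0 := by linear_combination h3
  have h5 := (mul_eq_zero.1 h4).resolve_left (mul_ne_zero (mul_ne_zero hk' hg') (eval_Pi1_ne a ha t))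
  have h6 : N * e t + s' = N * e' t + s := by omega
  rcases lt_or_gt_of_ne ht with h | h
  · have : N * (e t + 1) ≤ N * e' t := Nat.mul_le_mul_left _ h
    rw [mul_add] at this; omega
  · have : N * (e' t + 1) ≤ N * e t := Nat.mul_le_mul_left _ h
    rw [mul_add] at this; omega

variable {ι : Type*} (ex : ι → τ → ℕ)

noncomputable def it (c : ι → ℤ[X]) (k : ℕ) (m : ι) : ℤ[X] := (dl a N (ex m))^[k] (c m)

lemma it_succ (c : ι → ℤ[X]) (k : ℕ) (m : ι) :
    it a N ex c (k + 1) m = dl a N (ex m) (it a N ex c k m) := Function.iterate_succ_apply' _ _ _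

lemma it_zero (c : ι → ℤ[X]) (k : ℕ) (m : ι) (h : c m = 0) : it a N ex c k m = 0 := by
  induction k with
  | zero => exact h
  | succ k ih => rw [it_succ, ih]; simp [dl]

lemma pair_th (c μ : ι → ℤ[X]) (s : Finset ι) (k : ℕ) :
    ∑ m ∈ s, th a N (ex m) (μ m) * it a N ex c k m =
      ∑ m ∈ s, μ m * it a N ex c (k + 1) m
        - Pi0 a * derivative (∑ m ∈ s, μ m * it a N ex c k m) := by
  rw [map_sum, Finset.mul_sum, ← Finset.sum_sub_distrib]
  refine Finset.sum_congr rfl fun m _ => ?_
  rw [it_succ, dl, th, derivative_mul]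
  ring

lemma elim (ha : Function.Injective a) (hex : Function.Injective ex) (hT : 1 ≤ Fintype.card τ)
    (c : ι → ℤ[X]) (n : ℕ) : ∀ (s : Finset ι) (μ : ι → ℤ[X]) (r : ℕ), s.card = n + 1 →
      (∀ m ∈ s, μ m ≠ 0 ∧ (μ m).natDegree ≤ r) → 2 ^ n * (r + Fintype.card τ) ≤ N →
      (∀ k ≤ n, ∑ m ∈ s, μ m * it a N ex c k m = 0) → ∃ m ∈ s, c m = 0 := by
  classical
  induction n with
  | zero =>
    intro s μ r hs hμ _ h
    obtain ⟨m, rfl⟩ := Finset.card_eq_one.1 hs
    have := h 0 le_rfl
    rw [Finset.sum_singleton] at this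
    exact ⟨m, by simp, (mul_eq_zero.1 this).resolve_left (hμ m (by simp)).1⟩
  | succ n ih =>
    intro s μ r hs hμ hN h
    obtain ⟨m1, s', hm1, rfl, hs'⟩ := Finset.card_eq_succ.1 hs
    have hr : r < N := by
      have : 1 * (r + Fintype.card τ) ≤ 2 ^ (n + 1) * (r + Fintype.card τ) :=
        Nat.mul_le_mul_right _ Nat.one_le_two_pow
      omega
    obtain ⟨m, hm, hc⟩ := ih s'
      (fun m => μ m1 * th a N (ex m) (μ m) - th a N (ex m1) (μ m1) * μ m)
      (2 * r + Fintype.card τ) hs' (by
        intro m hm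
        have h1 := hμ m (Finset.mem_insert_of_mem hm)
        have h2 := hμ m1 (Finset.mem_insert_self _ _)
        refine ⟨nonvanish a N ha _ _ (fun h => hm1 (by rw [← hex h]; exact hm)) _ _ h1.1 h2.1 (by omega)
          (by omega), ?_⟩
        refine (natDegree_sub_le _ _).trans (max_le ?_ ?_)
        · refine natDegree_mul_le.trans ?_
          have := natDegree_th a N (ex m) (μ m); omega
        · refine natDegree_mul_le.trans ?_
          have := natDegree_th a N (ex m1) (μ m1); omega)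
      (by rw [pow_succ] at hN; nlinarith)
      (by
        intro k hk
        have h1 := pair_th a N ex c μ (insert m1 s') k
        rw [h k (by omega), h (k + 1) (by omega)] at h1
        have h2 := h k (by omega)
        rw [Finset.sum_insert hm1] at h1 h2
        simp only [sub_mul, mul_assoc, Finset.sum_sub_distrib, ← Finset.mul_sum]
        simp only [map_zero, mul_zero, sub_zero] at h1
        linear_combination μ m1 * h1 - th a N (ex m1) (μ m1) * h2)
    exact ⟨m, Finset.mem_insert_of_mem hm, hc⟩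

lemma it_rel [Fintype ι] (c : ι → ℤ[X]) (q : ℤ) (h : C q ∣ ∑ m, c m * ff a N (ex m)) (k : ℕ) :
    C q ∣ ∑ m, it a N ex c k m * ff a N (ex m) := by
  induction k with
  | zero => exact h
  | succ k ih =>
    have : ∑ m, it a N ex c (k + 1) m * ff a N (ex m)
        = Pi0 a * derivative (∑ m, it a N ex c k m * ff a N (ex m)) := by
      rw [map_sum, Finset.mul_sum]
      refine Finset.sum_congr rfl fun m _ => ?_
      rw [it_succ, dl, derivative_mul]
      linear_combination (-it a N ex c k m) * deriv_ff a N (ex m)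
    rw [this]
    obtain ⟨g, hg⟩ := ih
    rw [hg, derivative_C_mul]
    exact Dvd.dvd.mul_left (Dvd.intro _ rfl) _

lemma it_bound (c : ι → ℤ[X]) (m : ι) (K n : ℕ) (H G : ℤ) (hK : (c m).natDegree ≤ K)
    (hH : L (c m) ≤ H) (hG : L (Pi0 a) * (K + n * Fintype.card τ : ℕ) + L (lam a N (ex m)) ≤ G)
    (k : ℕ) (hk : k ≤ n) :
    (it a N ex c k m).natDegree ≤ K + k * Fintype.card τ ∧ L (it a N ex c k m) ≤ G ^ k * H := by
  induction k with
  | zero => simpa [it] using ⟨hK, hH⟩
  | succ k ih =>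
    obtain ⟨h1, h2⟩ := ih (by omega)
    rw [it_succ]
    refine ⟨(natDegree_dl a N _ _).trans (by rw [add_mul]; omega), ?_⟩
    have h3 : ((it a N ex c k m).natDegree : ℤ) ≤ (K + n * Fintype.card τ : ℕ) := by
      have : k * Fintype.card τ ≤ n * Fintype.card τ := Nat.mul_le_mul_right _ (by omega)
      exact_mod_cast h1.trans (by omega)
    have h0 := L_nonneg (it a N ex c k m)
    have h0' := L_nonneg (Pi0 a)
    have h0'' := L_nonneg (lam a N (ex m))
    calc L (dl a N (ex m) (it a N ex c k m))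
        ≤ L (Pi0 a) * L (derivative (it a N ex c k m)) + L (lam a N (ex m)) * L (it a N ex c k m) :=
          (L_add _ _).trans (add_le_add (L_mul _ _) (L_mul _ _))
      _ ≤ L (Pi0 a) * ((K + n * Fintype.card τ : ℕ) * L (it a N ex c k m))
            + L (lam a N (ex m)) * L (it a N ex c k m) := by
          gcongr
          exact (L_derivative _).trans (by gcongr)
      _ = (L (Pi0 a) * (K + n * Fintype.card τ : ℕ) + L (lam a N (ex m))) * L (it a N ex c k m) := by
          ring
      _ ≤ G * (G ^ k * H) := by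
          have : 0 ≤ G := le_trans (by positivity) hG
          gcongr
      _ = _ := by ring

theorem exists_P [Fintype ι] (ha : Function.Injective a) (hex : Function.Injective ex)
    (hT : 1 ≤ Fintype.card τ) (hN : 2 ^ Fintype.card ι * Fintype.card τ ≤ N)
    (c : ι → ℤ[X]) (hc : c ≠ 0) (q : ℤ) (h : C q ∣ ∑ m, c m * ff a N (ex m))
    (K : ℕ) (H G : ℤ) (hK : ∀ m, (c m).natDegree ≤ K) (hH : ∀ m, L (c m) ≤ H) (hG1 : 1 ≤ G)
    (hG : ∀ m, L (Pi0 a) * (K + Fintype.card ι * Fintype.card τ : ℕ) + L (lam a N (ex m)) ≤ G)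
    {A : Type*} [CommRing A] (φ : ℤ[X] →+* A) (hq : φ (C q) = 0) (hf : ∀ m, φ (ff a N (ex m)) = 1) :
    ∃ P : ℤ[X], P ≠ 0 ∧ φ P = 0 ∧ P.natDegree ≤ K + Fintype.card ι * Fintype.card τ ∧
      L P ≤ Fintype.card ι * (G ^ Fintype.card ι * H) := by
  classical
  have hex1 : ∃ k ≤ Fintype.card ι, ∑ m, it a N ex c k m ≠ 0 := by
    by_contra hne
    push Not at hne
    let s := Finset.univ.filter fun m => c m ≠ 0
    have hs : s.Nonempty := by
      obtain ⟨m, hm⟩ := Function.ne_iff.1 hc
      exact ⟨m, by simpa [s] using hm⟩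
    obtain ⟨n, hn⟩ : ∃ n, s.card = n + 1 := ⟨s.card - 1, by have := hs.card_pos; omega⟩
    have hn' : n ≤ Fintype.card ι := by
      have := Finset.card_le_univ s; omega
    obtain ⟨m, hm, hm0⟩ := elim a N ex ha hex hT c n s (fun _ => 1) 0 hn (by simp)
      (by
        rw [zero_add]
        exact le_trans (Nat.mul_le_mul_right _ (Nat.pow_le_pow_right (by norm_num) hn')) hN)
      (by
        intro k hk
        rw [← hne k (by omega)]
        simp only [one_mul]
        apply Finset.sum_subset (Finset.subset_univ _)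
        intro m _ hm
        exact it_zero a N ex c k m (by simpa [s] using hm))
    exact (Finset.mem_filter.1 hm).2 hm0
  obtain ⟨k, hk, hP⟩ := hex1
  refine ⟨_, hP, ?_, ?_, ?_⟩
  · obtain ⟨g, hg⟩ := it_rel a N ex c q h k
    have := congrArg φ hg
    rw [map_mul, hq, zero_mul, map_sum] at this
    simpa [hf] using this
  · apply natDegree_sum_le_of_forall_le
    intro m _
    refine (it_bound a N ex c m K _ H G (hK m) (hH m) (hG m) k hk).1.trans ?_
    gcongr
  · refine (L_sum _ _).trans ?_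
    have hH0 : 0 ≤ H := by
      obtain ⟨m, -⟩ := Function.ne_iff.1 hc
      exact (L_nonneg _).trans (hH m)
    calc ∑ m, L (it a N ex c k m) ≤ ∑ _m : ι, G ^ Fintype.card ι * H :=
          Finset.sum_le_sum fun m _ =>
            (it_bound a N ex c m K _ H G (hK m) (hH m) (hG m) k hk).2.trans (by gcongr)
      _ = _ := by simp

end Pool.Agent.H63.Elim
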