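import Mathlib

set_option autoImplicit false

/-! Forbidding grammars, left forbidding E0L grammars and ET0L grammars. -/

namespace Pool.Agent.H63.FG

/-- A forbidding grammar with terminals `T` and nonterminals `N`: finitely many rules
`(A → x, F)`, written `(A, x, F)`, with `A ∈ N`, `x ∈ V^*`, `F ⊆ N`. -/
structure ForG (T N : Type) where
  start : N
  rules : Set (N × List (Symbol T N) × Set N)
  fin : rules.Finite

/-- A left forbidding E0L grammar over `V = T ∪ N`: a non-empty axiom and finitely many rules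
`(X → y, W)`, written `(X, y, W)`, with `X ∈ V`, `y ∈ V^*`, `W ⊆ N`. -/
structure LFG (T N : Type) where
  ax : List (Symbol T N)
  ax_ne : ax ≠ []
  rules : Set (Symbol T N × List (Symbol T N) × Set N)
  fin : rules.Finite

/-- An ET0L grammar over `V = T ∪ N` with `n ≥ 1` finite complete tables. -/
structure ETG (T N : Type) where
  ax : List (Symbol T N)
  ax_ne : ax ≠ []
  n : ℕ
  n_pos : 0 < n
  table : Fin n → Set (Symbol T N × List (Symbol T N))
  fin : ∀ h, (table h).Finite
  complete : ∀ h X, ∃ y, (X, y) ∈ table h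

variable {T N : Type}

/-- one occurrence of `A` in `u` is rewritten by `(A → x, F)`; no symbol of `F` occurs in `u` -/
def ForG.Step (G : ForG T N) (u v : List (Symbol T N)) : Prop :=
  ∃ r ∈ G.rules, ∃ p q, u = p ++ Symbol.nonterminal r.1 :: q ∧ v = p ++ r.2.1 ++ q ∧
    ∀ B ∈ r.2.2, Symbol.nonterminal B ∉ u

def ForG.lang (G : ForG T N) : Set (List T) :=
  {w | Relation.ReflTransGen G.Step [Symbol.nonterminal G.start] (w.map Symbol.terminal)}

def ForG.Propagating (G : ForG T N) : Prop := ∀ r ∈ G.rules, r.2.1 ≠ []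

/-- `rs` lists the rules `(X_i → y_i, W_i)` used at the positions of `u = X_1 ⋯ X_k`, `k ≥ 1`;
`v = y_1 ⋯ y_k`, and `X_j ∉ W_i` whenever `j < i`. -/
def LFG.Step (G : LFG T N) (u v : List (Symbol T N)) : Prop :=
  u ≠ [] ∧ ∃ rs : List (Symbol T N × List (Symbol T N) × Set N), (∀ r ∈ rs, r ∈ G.rules) ∧
    u = rs.map (fun r => r.1) ∧ v = rs.flatMap (fun r => r.2.1) ∧
    rs.Pairwise fun r r' => ∀ B ∈ r'.2.2, r.1 ≠ Symbol.nonterminal B

def LFG.lang (G : LFG T N) : Set (List T) :=
  {w | Relation.ReflTransGen G.Step G.ax (w.map Symbol.terminal)}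

def LFG.Propagating (G : LFG T N) : Prop := ∀ r ∈ G.rules, r.2.1 ≠ []

/-- all positions of `u = X_1 ⋯ X_k`, `k ≥ 1`, are rewritten by rules of one table -/
def ETG.Step (G : ETG T N) (u v : List (Symbol T N)) : Prop :=
  u ≠ [] ∧ ∃ h, ∃ rs : List (Symbol T N × List (Symbol T N)), (∀ r ∈ rs, r ∈ G.table h) ∧
    u = rs.map (fun r => r.1) ∧ v = rs.flatMap (fun r => r.2)

def ETG.lang (G : ETG T N) : Set (List T) :=
  {w | Relation.ReflTransGen G.Step G.ax (w.map Symbol.terminal)}

end Pool.Agent.H63.FG
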