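import Pool.Agent.H63.IC4
import Pool.Agent.H63.FGDefs

set_option autoImplicit false

/-! Forbidding grammars with erasing rules simulate incrementing counter machines. -/

namespace Pool.Agent.H63.FG

open Function Relation IC

section
variable {Q R : Type} [DecidableEq R]

abbrev NT (Q R : Type) := (Q ⊕ R × Q) ⊕ Option R
abbrev Sy (Q R : Type) := Symbol (Fin 3) (NT Q R)

def st (q : Q) : Sy Q R := .nonterminal (.inl (.inl q))
def dp (r : R) (q : Q) : Sy Q R := .nonterminal (.inl (.inr (r, q)))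
def tk (l : List (Option R)) : List (Sy Q R) := l.map fun z => .nonterminal (.inr z)
def cnt (l : List (Option R)) : R → ℕ := fun r => l.count (some r)

inductive FR (Ed : Q → Ins R → Q → Prop) (qf : Q) : NT Q R → List (Sy Q R) → Set (NT Q R) → Prop
  | inc (q r q') : Ed q (.inc r) q' → FR Ed qf (.inl (.inl q)) (st q' :: tk [some r]) ∅
  | out (q a q') : Ed q (.out a) q' → FR Ed qf (.inl (.inl q)) [.terminal a, st q'] ∅
  | nop (q q') : Ed q .nop q' → FR Ed qf (.inl (.inl q)) [st q'] ∅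
  | zero (q r q') : Ed q (.zero r) q' → FR Ed qf (.inl (.inl q)) [st q'] {.inr (some r)}
  | dec (q r q') : Ed q (.dec r) q' → FR Ed qf (.inl (.inl q)) [dp r q'] ∅
  | fin : FR Ed qf (.inl (.inl qf)) [] ∅
  | go (r q) : FR Ed qf (.inl (.inr (r, q))) [st q] ∅
  | mark (r) : FR Ed qf (.inr (some r)) (tk [none])
      {B | B = .inr none ∨ (∃ q, B = .inl (.inl q)) ∨ ∃ r' q, r' ≠ r ∧ B = .inl (.inr (r', q))}
  | del : FR Ed qf (.inr none) [] {B | ∃ r q, B = .inl (.inr (r, q))}

def simG [Fintype Q] [Fintype R] (Ed : Q → Ins R → Q → Prop) (q0 qf : Q) : ForG (Fin 3) (NT Q R) where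
  start := .inl (.inl q0)
  rules := {r | FR Ed qf r.1 r.2.1 r.2.2}
  fin := (Set.finite_univ.prod ((List.finite_length_le _ 2).prod Set.finite_univ)).subset (by
    rintro ⟨A, y, F⟩ h
    simp only [Set.mem_ofPred_eq] at h
    cases h <;> simp [tk])

theorem split_t {T N : Type} (w : List T) {tl p q : List (Symbol T N)} {A : N}
    (h : w.map Symbol.terminal ++ tl = p ++ .nonterminal A :: q) :
    ∃ p', p = w.map Symbol.terminal ++ p' ∧ tl = p' ++ .nonterminal A :: q := by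
  induction w generalizing p with
  | nil => exact ⟨p, rfl, h⟩
  | cons a w ih =>
    cases p with
    | nil => simp at h
    | cons b p =>
      simp only [List.map_cons, List.cons_append, List.cons.injEq] at h
      obtain ⟨p', rfl, h2⟩ := ih h.2
      exact ⟨p', by simp [h.1], h2⟩

omit [DecidableEq R] in
theorem split_k {l : List (Option R)} {p q : List (Sy Q R)} {A : NT Q R}
    (h : tk l = p ++ .nonterminal A :: q) :
    ∃ l1 z l2, l = l1 ++ z :: l2 ∧ p = tk l1 ∧ A = .inr z ∧ q = tk l2 := by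
  obtain ⟨l1, l2, rfl, rfl, h2⟩ := List.map_eq_append_iff.1 h
  obtain ⟨z, l2, rfl, h3, rfl⟩ := List.map_eq_cons_iff.1 h2
  exact ⟨l1, z, l2, rfl, rfl, by simpa using h3.symm, rfl⟩

theorem cnt_cons (r : R) (l : List (Option R)) :
    cnt (some r :: l) = update (cnt l) r (cnt l r + 1) := by
  funext j
  by_cases e : j = r
  · simp [cnt, e]
  · simp [cnt, e, Ne.symm e]

theorem cnt_del (r : R) (l1 l2 : List (Option R)) :
    cnt (l1 ++ l2) = update (cnt (l1 ++ some r :: l2)) r (cnt (l1 ++ some r :: l2) r - 1) := by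
  funext j
  by_cases e : j = r
  · simp [cnt, e]
  · simp [cnt, e, Ne.symm e]

theorem cnt_none (l1 l2 : List (Option R)) : cnt (l1 ++ none :: l2) = cnt (l1 ++ l2) := by
  funext j; simp [cnt]

variable [Fintype Q] [Fintype R] (Ed : Q → Ins R → Q → Prop) (q0 qf : Q)

def Rc (q : Q) (σ : R → ℕ) (w : List (Fin 3)) : Prop :=
  ReflTransGen (MStep Ed) (q0, fun _ => 0, []) (q, σ, w)

def Inv (u : List (Sy Q R)) : Prop := ∃ w l,
  (∃ q, u = w.map Symbol.terminal ++ st q :: tk l ∧ Rc Ed q0 q (cnt l) w) ∨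
  (∃ r q, u = w.map Symbol.terminal ++ dp r q :: tk l ∧ Rc Ed q0 q (cnt l) w ∧
    (none ∉ l → 0 < cnt l r → Rc Ed q0 q (update (cnt l) r (cnt l r - 1)) w)) ∨
  (u = w.map Symbol.terminal ++ tk l ∧ w ∈ MLang Ed q0 qf)

theorem inv_step {u v : List (Sy Q R)} (h : Inv Ed q0 qf u) (k : (simG Ed q0 qf).Step u v) :
    Inv Ed q0 qf v := by
  obtain ⟨⟨A, y, F⟩, hr, p, q, e1, rfl, hF⟩ := k
  simp only [simG, Set.mem_ofPred_eq] at hr e1 hF ⊢
  obtain ⟨w, l, ⟨s, rfl, h⟩ | ⟨r, s, rfl, h1, h2⟩ | ⟨rfl, h⟩⟩ := h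
  · obtain ⟨p', rfl, e2⟩ := split_t w e1
    cases p' with
    | nil =>
      simp only [List.nil_append, List.cons.injEq, st, Symbol.nonterminal.injEq] at e2
      obtain ⟨rfl, rfl⟩ := e2
      cases hr with
      | inc _ r q' g =>
        exact ⟨w, some r :: l, Or.inl ⟨q', by simp [tk], cnt_cons r l ▸ h.tail ⟨_, g, rfl⟩⟩⟩
      | out _ a q' g => exact ⟨w ++ [a], l, Or.inl ⟨q', by simp, h.tail ⟨_, g, rfl⟩⟩⟩
      | nop _ q' g => exact ⟨w, l, Or.inl ⟨q', by simp, h.tail ⟨_, g, rfl⟩⟩⟩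
      | zero _ r q' g =>
        refine ⟨w, l, Or.inl ⟨q', by simp, h.tail ⟨_, g, List.count_eq_zero.2 fun hm => ?_, rfl⟩⟩⟩
        exact hF _ rfl (by simp [tk, hm])
      | dec _ r q' g =>
        exact ⟨w, l, Or.inr (Or.inl ⟨r, q', by simp, h.tail ⟨_, g, Or.inl rfl⟩,
          fun _ hp => h.tail ⟨_, g, Or.inr ⟨hp, rfl⟩⟩⟩)⟩
      | fin => exact ⟨w, l, Or.inr (Or.inr ⟨by simp, _, h⟩)⟩
    | cons b p' =>
      simp only [List.cons_append, List.cons.injEq] at e2
      obtain ⟨rfl, e2⟩ := e2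
      obtain ⟨l1, z, l2, rfl, rfl, rfl, rfl⟩ := split_k e2
      cases hr with
      | mark r => exact absurd (by simp [st]) (hF _ (Or.inr (Or.inl ⟨s, rfl⟩)))
      | del => exact ⟨w, l1 ++ l2, Or.inl ⟨s, by simp [tk], cnt_none l1 l2 ▸ h⟩⟩
  · obtain ⟨p', rfl, e2⟩ := split_t w e1
    cases p' with
    | nil =>
      simp only [List.nil_append, List.cons.injEq, dp, Symbol.nonterminal.injEq] at e2
      obtain ⟨rfl, rfl⟩ := e2
      cases hr with
      | go => exact ⟨w, l, Or.inl ⟨s, by simp, h1⟩⟩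
    | cons b p' =>
      simp only [List.cons_append, List.cons.injEq] at e2
      obtain ⟨rfl, e2⟩ := e2
      obtain ⟨l1, z, l2, rfl, rfl, rfl, rfl⟩ := split_k e2
      cases hr with
      | mark r' =>
        obtain rfl : r = r' := by
          by_contra hne
          exact hF _ (Or.inr (Or.inr ⟨r, s, hne, rfl⟩)) (by simp [dp])
        refine ⟨w, l1 ++ none :: l2, Or.inr (Or.inl ⟨r, s, by simp [tk], ?_, fun g => by simp at g⟩)⟩
        rw [cnt_none, cnt_del r]
        refine h2 (fun hm => hF _ (Or.inl rfl) ?_) (by simp [cnt])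
        simp only [List.mem_append, List.mem_cons]
        exact Or.inr (Or.inr (List.mem_map.2 ⟨none, hm, rfl⟩))
      | del => exact absurd (by simp [dp]) (hF _ ⟨r, s, rfl⟩)
  · obtain ⟨p', rfl, e2⟩ := split_t w e1
    obtain ⟨l1, z, l2, rfl, rfl, rfl, rfl⟩ := split_k e2
    cases hr with
    | mark r => exact ⟨w, l1 ++ none :: l2, Or.inr (Or.inr ⟨by simp [tk], h⟩)⟩
    | del => exact ⟨w, l1 ++ l2, Or.inr (Or.inr ⟨by simp [tk], h⟩)⟩

theorem mk_step {A : NT Q R} {y : List (Sy Q R)} {F : Set (NT Q R)} (h : FR Ed qf A y F)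
    (p q : List (Sy Q R)) {u v : List (Sy Q R)} (e1 : u = p ++ .nonterminal A :: q)
    (e2 : v = p ++ y ++ q) (hF : ∀ B ∈ F, Symbol.nonterminal B ∉ u) : (simG Ed q0 qf).Step u v :=
  ⟨(A, y, F), h, p, q, e1, e2, hF⟩

theorem sim_run (c : Q × St R) (h : ReflTransGen (MStep Ed) (q0, fun _ => 0, []) c) :
    ∃ l, none ∉ l ∧ cnt l = c.2.1 ∧ ReflTransGen (simG Ed q0 qf).Step [st q0]
      (c.2.2.map Symbol.terminal ++ st c.1 :: tk l) := by
  induction h with
  | refl => exact ⟨[], by simp, rfl, .refl⟩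
  | @tail b c _ k ih =>
    obtain ⟨q, σ, w⟩ := b
    obtain ⟨q', s'⟩ := c
    obtain ⟨l, h1, rfl, h3⟩ := ih
    obtain ⟨i, g1, g2⟩ := k
    simp only at g1 g2 h3 ⊢
    cases i with
    | inc r =>
      cases g2
      exact ⟨some r :: l, by simpa using h1, cnt_cons r l,
        h3.tail (mk_step Ed q0 qf (.inc _ _ _ g1) _ _ rfl (by simp [tk]) (by simp))⟩
    | out a =>
      cases g2
      exact ⟨l, h1, rfl, h3.tail (mk_step Ed q0 qf (.out _ _ _ g1) _ _ rfl (by simp) (by simp))⟩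
    | nop =>
      cases g2
      exact ⟨l, h1, rfl, h3.tail (mk_step Ed q0 qf (.nop _ _ g1) _ _ rfl (by simp) (by simp))⟩
    | zero r =>
      obtain ⟨g2, rfl⟩ := g2
      exact ⟨l, h1, rfl, h3.tail (mk_step Ed q0 qf (.zero _ _ _ g1) _ _ rfl (by simp)
        (by simpa [st, tk] using fun x hx (e : x = some r) => List.count_eq_zero.1 g2 (e ▸ hx)))⟩
    | dec r =>
      have h4 := h3.tail (mk_step Ed q0 qf (.dec _ _ _ g1) _ _ rfl rfl (by simp))
      rcases g2 with rfl | ⟨g2, rfl⟩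
      · exact ⟨l, h1, rfl, h4.tail (mk_step Ed q0 qf (.go r q') (w.map Symbol.terminal) (tk l)
          (by simp [dp]) (by simp) (by simp))⟩
      · obtain ⟨l1, l2, rfl⟩ := List.append_of_mem (List.count_pos_iff.1 g2)
        simp only [List.mem_append, List.mem_cons, reduceCtorEq, false_or, not_or] at h1
        refine ⟨l1 ++ l2, by simpa using h1, cnt_del r l1 l2, ((h4.tail (mk_step Ed q0 qf (.mark r)
          (w.map Symbol.terminal ++ dp r q' :: tk l1) (tk l2) (by simp [tk]) rfl ?_)).tail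
          (mk_step Ed q0 qf (.go r q') (w.map Symbol.terminal) (tk (l1 ++ none :: l2))
          (by simp [dp, tk]) rfl (by simp))).tail (mk_step Ed q0 qf .del
          (w.map Symbol.terminal ++ st q' :: tk l1) (tk l2) (by simp [tk]) (by simp [tk]) ?_)⟩
        · rintro _ (rfl | ⟨s, rfl⟩ | ⟨r', s, hne, rfl⟩) <;> simp [tk, dp, *]
        · rintro _ ⟨r', s, rfl⟩; simp [tk, st]

theorem sim_erase (w : List (Fin 3)) (l : List (Option R)) (h : none ∉ l) :
    ReflTransGen (simG Ed q0 qf).Step (w.map Symbol.terminal ++ tk l) (w.map Symbol.terminal) := by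
  induction l with
  | nil => simpa [tk] using ReflTransGen.refl
  | cons z l ih =>
    simp only [List.mem_cons, not_or] at h
    obtain ⟨r, rfl⟩ := Option.ne_none_iff_exists'.1 (Ne.symm h.1)
    refine .head (mk_step Ed q0 qf (.mark r) (w.map Symbol.terminal) (tk l) rfl rfl ?_)
      (.head (mk_step Ed q0 qf .del (w.map Symbol.terminal) (tk l) (by simp [tk]) (by simp) ?_)
      (ih h.2))
    · rintro _ (rfl | ⟨s, rfl⟩ | ⟨r', s, hne, rfl⟩) <;> simp [tk, h.2]
    · rintro _ ⟨r', s, rfl⟩; simp [tk]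

theorem simG_lang : (simG Ed q0 qf).lang = MLang Ed q0 qf := by
  ext w
  constructor
  · intro h
    have : ∀ u, ReflTransGen (simG Ed q0 qf).Step [st q0] u → Inv Ed q0 qf u := by
      intro u k
      induction k with
      | refl => exact ⟨[], [], Or.inl ⟨q0, rfl, .refl⟩⟩
      | tail _ k ih => exact inv_step Ed q0 qf ih k
    obtain ⟨w', l, ⟨s, e, -⟩ | ⟨r, s, e, -⟩ | ⟨e, g⟩⟩ := this _ h
    · have : st s ∈ w.map (Symbol.terminal (N := NT Q R)) := by simp [e]
      simp [st] at this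
    · have : dp r s ∈ w.map (Symbol.terminal (N := NT Q R)) := by simp [e]
      simp [dp] at this
    · cases l with
      | nil =>
        simp only [tk, List.map_nil, List.append_nil] at e
        rwa [(List.map_injective_iff.2 fun _ _ h => Symbol.terminal.inj h) e]
      | cons z l =>
        have : Symbol.nonterminal (.inr z) ∈ w.map (Symbol.terminal (N := NT Q R)) := by simp [e, tk]
        simp at this
  · rintro ⟨σ, h⟩
    obtain ⟨l, h1, -, h3⟩ := sim_run Ed q0 qf _ h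
    exact (h3.tail (mk_step Ed q0 qf .fin _ _ rfl (by simp) (by simp))).trans
      (sim_erase Ed q0 qf w l h1)

end

theorem for_of_icl {L : Set (List (Fin 3))} (h : ICL L) :
    ∃ (N : Type) (_ : Fintype N) (G : ForG (Fin 3) N), G.lang = L := by
  obtain ⟨Q, R, _, _, _, Ed, q0, qf, rfl⟩ := h
  exact ⟨_, inferInstance, _, simG_lang Ed q0 qf⟩

abbrev CR := ℕ × List ℕ × List ℕ

def fstp (c : List CR) (u v : List ℕ) : Prop :=
  ∃ r ∈ c, ∃ p ∈ subs u, ∃ q ∈ subs u, u = p ++ r.1 :: q ∧ v = p ++ r.2.1 ++ q ∧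
    ∀ B ∈ r.2.2, B ∉ u

theorem fstp_prim : PrimrecPred fun p : List CR × List ℕ × List ℕ => fstp p.1 p.2.1 p.2.2 :=
  pex (by fun_prop) (pex (by fun_prop) (pex (by fun_prop) ((peq (by fun_prop) (by fun_prop)).and
    ((peq (by fun_prop) (by fun_prop)).and
      (pall (by fun_prop) (pmem (by fun_prop) (by fun_prop)).not)))))

theorem wd_ne {n : ℕ} (h : 0 < n) : wd n n n ≠ [] := by simp [wd]; omega

theorem for_sep : ∃ (N : Type) (_ : Fintype N) (G : ForG (Fin 3) N),
    ∀ (N' : Type) [Fintype N'] (G' : ForG (Fin 3) N'), G'.Propagating →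
      G'.lang \ {[]} ≠ G.lang \ {[]} := by
  classical
  obtain ⟨L, h1, h2⟩ := diag_mono fstp fstp_prim
  obtain ⟨N, _, G, rfl⟩ := for_of_icl h1
  refine ⟨N, inferInstance, G, fun N' _ G' hp e0 => ?_⟩
  obtain ⟨n, hn, k⟩ := h2 (Symbol (Fin 3) N') .terminal G'.Step [.nonterminal G'.start] (by
    rintro _ _ ⟨r, hr, p, q, rfl, rfl, -⟩
    have := List.length_pos_iff.2 (hp r hr)
    simp; omega) (by
    intro e he
    refine ⟨G'.fin.toFinset.toList.map fun r => (e (.nonterminal r.1), r.2.1.map e,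
      r.2.2.toFinset.toList.map fun B => e (.nonterminal B)), ?_, ?_⟩
    · rintro _ _ ⟨r, hr, p, q, rfl, rfl, hF⟩
      refine ⟨_, List.mem_map.2 ⟨r, by simpa using hr, rfl⟩, p.map e, mem_subs.2 (by simp),
        q.map e, mem_subs.2 (List.Sublist.map _ (by simp)), by simp, by simp, ?_⟩
      simp only [List.mem_map, Finset.mem_toList, Set.mem_toFinset]
      rintro _ ⟨B, hB, rfl⟩ ⟨x, hx, ex⟩
      exact hF B hB (he ex ▸ hx)
    · rintro u _ ⟨_, hr, p', -, q', -, e1, rfl, hF⟩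
      obtain ⟨r, hr2, rfl⟩ := List.mem_map.1 hr
      obtain ⟨p, q, rfl, rfl, e2⟩ := List.map_eq_append_iff.1 e1
      obtain ⟨x, q, rfl, e3, rfl⟩ := List.map_eq_cons_iff.1 e2
      obtain rfl := he e3
      refine ⟨p ++ r.2.1 ++ q, by simp, r, by simpa using hr2, p, q, rfl, rfl, fun B hB hm => ?_⟩
      exact hF _ (List.mem_map.2 ⟨B, by simpa using hB, rfl⟩) (List.mem_map_of_mem hm))
  have := Set.ext_iff.1 e0 (wd n n n)
  simp only [Set.mem_sdiff, Set.mem_singleton_iff, wd_ne hn, not_false_eq_true, and_true] at this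
  exact k this.symm

end Pool.Agent.H63.FG
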