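import Pool.Agent.H63.FG1

set_option autoImplicit false

/-! Left forbidding E0L grammars with erasing rules simulate incrementing counter machines. -/

namespace Pool.Agent.H63.FG

open Function Relation IC

instance {R : Type} [Fintype R] : Fintype (Ins R) := Fintype.ofEquiv _ (proxy_equiv% (Ins R))

section
variable {Q R : Type} [DecidableEq R]

abbrev LN (Q R : Type) := Option (Ins R × Q) ⊕ R
abbrev LS (Q R : Type) := Symbol (Fin 3) (LN Q R)
abbrev LR (Q R : Type) := LS Q R × List (LS Q R) × Set (LN Q R)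

def sy (S : Option (Ins R × Q)) : LS Q R := .nonterminal (.inl S)
def ck (l : List R) : List (LS Q R) := l.map fun z => .nonterminal (.inr z)
def cn (l : List R) : R → ℕ := fun r => l.count r

def rhs : Ins R → LS Q R → List (LS Q R)
  | .inc r, X => X :: ck [r]
  | .out a, X => [.terminal a, X]
  | _, X => [X]

def Nx (Ed : Q → Ins R → Q → Prop) (qf q : Q) : Option (Ins R × Q) → Prop
  | none => q = qf
  | some x => Ed q x.1 x.2

def keep (r : R) : LR Q R := (.nonterminal (.inr r), ck [r], {B | ∃ q, B = .inl (some (.zero r, q))})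
def drop (r : R) : LR Q R :=
  (.nonterminal (.inr r), [], {B | B = .inr r ∨ ∃ i q, i ≠ .dec r ∧ B = .inl (some (i, q))})
def wipe (r : R) : LR Q R := (.nonterminal (.inr r), [], {B | ∃ x, B = .inl (some x)})

inductive PR (Ed : Q → Ins R → Q → Prop) (qf : Q) : LR Q R → Prop
  | ter (a) : PR Ed qf (.terminal a, [.terminal a], ∅)
  | go (i q S) : Nx Ed qf q S → PR Ed qf (sy (some (i, q)), rhs i (sy S), ∅)
  | halt : PR Ed qf (sy none, [], ∅)
  | keep (r) : PR Ed qf (keep r)
  | drop (r) : PR Ed qf (drop r)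
  | wipe (r) : PR Ed qf (wipe r)

def simL [Fintype Q] [Fintype R] (Ed : Q → Ins R → Q → Prop) (q0 qf : Q) : LFG (Fin 3) (LN Q R) where
  ax := [sy (some (.nop, q0))]
  ax_ne := by simp
  rules := {r | PR Ed qf r}
  fin := (Set.finite_univ.prod ((List.finite_length_le _ 2).prod Set.finite_univ)).subset (by
    intro r h
    simp only [Set.mem_ofPred_eq] at h
    cases h with
    | go i q S _ => cases i <;> simp [rhs, ck]
    | _ => simp [keep, drop, wipe, ck])

variable [Fintype Q] [Fintype R] (Ed : Q → Ins R → Q → Prop) (q0 qf : Q)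

omit [DecidableEq R] [Fintype Q] [Fintype R] in
theorem ter_part (w : List (Fin 3)) (rs : List (LR Q R)) (h : ∀ r ∈ rs, PR Ed qf r)
    (e : rs.map (fun r => r.1) = w.map Symbol.terminal) :
    rs.flatMap (fun r => r.2.1) = w.map Symbol.terminal := by
  induction w generalizing rs with
  | nil => simp_all
  | cons a w ih =>
    obtain ⟨r, rs, rfl, e1, e2⟩ := List.map_eq_cons_iff.1 e
    have := h r (by simp)
    cases this <;> simp [sy, keep, drop, wipe] at e1
    simp [e1, ih rs (fun r hr => h r (by simp [hr])) e2]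

omit [DecidableEq R] [Fintype Q] [Fintype R] in
theorem tok_any (l : List R) (rs : List (LR Q R)) (h : ∀ r ∈ rs, PR Ed qf r)
    (e : rs.map (fun r => r.1) = ck l) : ∃ l', rs.flatMap (fun r => r.2.1) = ck l' := by
  induction l generalizing rs with
  | nil => exact ⟨[], by simp_all [ck]⟩
  | cons a l ih =>
    obtain ⟨r, rs, rfl, e1, e2⟩ := List.map_eq_cons_iff.1 e
    obtain ⟨l', e3⟩ := ih rs (fun r hr => h r (by simp [hr])) e2
    have := h r (by simp)
    cases this with
    | keep r => exact ⟨r :: l', by simp [keep, e3, ck]⟩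
    | drop r => exact ⟨l', by simp [drop, e3]⟩
    | wipe r => exact ⟨l', by simp [wipe, e3]⟩
    | _ => simp [sy] at e1

omit [DecidableEq R] [Fintype Q] [Fintype R] in
theorem tok_run (i : Ins R) (q : Q) (l : List R) (rs : List (LR Q R)) (h : ∀ r ∈ rs, PR Ed qf r)
    (e : rs.map (fun r => r.1) = ck l) (h1 : ∀ r ∈ rs, .inl (some (i, q)) ∉ r.2.2)
    (h2 : rs.Pairwise fun r r' => ∀ B ∈ r'.2.2, r.1 ≠ Symbol.nonterminal B) :
    (∀ r, i = .zero r → r ∉ l) ∧ (rs.flatMap (fun r => r.2.1) = ck l ∨ ∃ r l1 l2, i = .dec r ∧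
      l = l1 ++ r :: l2 ∧ rs.flatMap (fun r => r.2.1) = ck (l1 ++ l2) ∧ drop r ∈ rs) := by
  induction l generalizing rs with
  | nil => simp_all [ck]
  | cons a l ih =>
    obtain ⟨x, rs, rfl, e1, e2⟩ := List.map_eq_cons_iff.1 e
    rw [List.pairwise_cons] at h2
    obtain ⟨g1, g2⟩ := ih rs (fun r hr => h r (by simp [hr])) e2 (fun r hr => h1 r (by simp [hr])) h2.2
    have k := h x (by simp)
    have k1 := h1 x (by simp)
    cases k with
    | keep r =>
      obtain rfl : r = a := by simpa [keep] using e1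
      refine ⟨?_, ?_⟩
      · rintro r' rfl
        simp only [keep, Set.mem_ofPred_eq, Sum.inl.injEq, Option.some.injEq, Prod.mk.injEq,
          Ins.zero.injEq, exists_eq_right'] at k1
        simp [k1, g1 r' rfl]
      · rcases g2 with g2 | ⟨r', l1, l2, rfl, rfl, g3, g4⟩
        · exact Or.inl (by simp [keep, g2, ck])
        · exact Or.inr ⟨r', r :: l1, l2, rfl, rfl, by simp [keep, g3, ck], by simp [g4]⟩
    | drop r =>
      obtain rfl : r = a := by simpa [drop] using e1
      obtain rfl : i = .dec r := by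
        by_contra hne
        exact k1 (Or.inr ⟨i, q, hne, rfl⟩)
      refine ⟨by simp, ?_⟩
      rcases g2 with g2 | ⟨r', l1, l2, g, rfl, g3, g4⟩
      · exact Or.inr ⟨r, [], l, rfl, rfl, by simp [drop, g2], by simp⟩
      · cases g
        exact absurd rfl (h2.1 _ g4 _ (Or.inl rfl))
    | wipe r => exact absurd ⟨_, rfl⟩ k1
    | _ => simp [sy] at e1

theorem cn_del (r : R) (l1 l2 : List R) :
    cn (l1 ++ l2) = update (cn (l1 ++ r :: l2)) r (cn (l1 ++ r :: l2) r - 1) := by
  funext j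
  by_cases e : j = r
  · simp [cn, e]
  · simp [cn, e, Ne.symm e]

theorem cn_cons (r : R) (l : List R) : cn (r :: l) = update (cn l) r (cn l r + 1) := by
  funext j
  by_cases e : j = r
  · simp [cn, e]
  · simp [cn, e, Ne.symm e]

def Gd : Option (Ins R × Q) → St R → Prop
  | none, s => s.2 ∈ MLang Ed q0 qf
  | some x, s => ∀ s', IStep x.1 s s' → Rc Ed q0 x.2 s'.1 s'.2

omit [Fintype Q] [Fintype R] in
theorem gd_of {q : Q} {S : Option (Ins R × Q)} (h : Nx Ed qf q S) {σ : R → ℕ} {w : List (Fin 3)}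
    (k : Rc Ed q0 q σ w) : Gd Ed q0 qf S (σ, w) := by
  cases S with
  | none => cases h; exact ⟨_, k⟩
  | some x => exact fun s' g => k.tail ⟨_, h, g⟩

def LInv (u : List (LS Q R)) : Prop := ∃ w l,
  (∃ S, u = w.map Symbol.terminal ++ sy S :: ck l ∧ Gd Ed q0 qf S (cn l, w)) ∨
  (u = w.map Symbol.terminal ++ ck l ∧ w ∈ MLang Ed q0 qf)

theorem linv_step {u v : List (LS Q R)} (h : LInv Ed q0 qf u) (k : (simL Ed q0 qf).Step u v) :
    LInv Ed q0 qf v := by
  obtain ⟨-, rs, hr, e, rfl, hp⟩ := k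
  simp only [simL, Set.mem_ofPred_eq] at hr
  obtain ⟨w, l, ⟨S, rfl, h⟩ | ⟨rfl, h⟩⟩ := h
  · obtain ⟨r1, r2, rfl, e1, e2⟩ := List.map_eq_append_iff.1 e.symm
    obtain ⟨x, r2, rfl, e3, e4⟩ := List.map_eq_cons_iff.1 e2
    have g1 := ter_part Ed qf w r1 (fun r k => hr r (by simp [k])) e1
    have g2 : ∀ r ∈ r2, PR Ed qf r := fun r k => hr r (by simp [k])
    have g3 := List.pairwise_cons.1 (List.pairwise_append.1 hp).2.1
    have k := hr x (by simp)
    simp only [List.flatMap_append, List.flatMap_cons, g1]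
    cases k with
    | go i q S' k =>
      obtain rfl : some (i, q) = S := by simpa [sy] using e3
      obtain ⟨g4, g5 | ⟨r, l1, l2, rfl, rfl, g5, -⟩⟩ := tok_run Ed qf i q l r2 g2 e4
        (fun r k1 k2 => g3.1 r k1 _ k2 rfl) g3.2
      · rw [g5]
        cases i with
        | inc r =>
          exact ⟨w, r :: l, Or.inl ⟨S', by simp [rhs, ck], gd_of Ed q0 qf k (cn_cons r l ▸ h _ rfl)⟩⟩
        | out a => exact ⟨w ++ [a], l, Or.inl ⟨S', by simp [rhs], gd_of Ed q0 qf k (h _ rfl)⟩⟩
        | nop => exact ⟨w, l, Or.inl ⟨S', by simp [rhs], gd_of Ed q0 qf k (h _ rfl)⟩⟩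
        | zero r =>
          exact ⟨w, l, Or.inl ⟨S', by simp [rhs],
            gd_of Ed q0 qf k (h _ ⟨List.count_eq_zero.2 (g4 r rfl), rfl⟩)⟩⟩
        | dec r => exact ⟨w, l, Or.inl ⟨S', by simp [rhs], gd_of Ed q0 qf k (h _ (Or.inl rfl))⟩⟩
      · exact ⟨w, l1 ++ l2, Or.inl ⟨S', by simp [rhs, g5],
          gd_of Ed q0 qf k (cn_del r l1 l2 ▸ h _ (Or.inr ⟨by simp [cn], rfl⟩))⟩⟩
    | halt =>
      obtain rfl : none = S := by simpa [sy] using e3
      obtain ⟨l', g⟩ := tok_any Ed qf l r2 g2 e4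
      exact ⟨w, l', Or.inr ⟨by simp [g], h⟩⟩
    | _ => simp [sy, keep, drop, wipe] at e3
  · obtain ⟨r1, r2, rfl, e1, e2⟩ := List.map_eq_append_iff.1 e.symm
    obtain ⟨l', g⟩ := tok_any Ed qf l r2 (fun r k => hr r (by simp [k])) e2
    exact ⟨w, l', Or.inr ⟨by
      rw [List.flatMap_append, g, ter_part Ed qf w r1 (fun r k => hr r (by simp [k])) e1], h⟩⟩

omit [DecidableEq R] in
theorem lmk {S : Option (Ins R × Q)} {y : List (LS Q R)} (h : PR Ed qf (sy S, y, ∅))
    (w : List (Fin 3)) (rs : List (LR Q R)) (h1 : ∀ r ∈ rs, PR Ed qf r)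
    (h2 : ∀ r ∈ rs, .inl S ∉ r.2.2)
    (h3 : rs.Pairwise fun r r' => ∀ B ∈ r'.2.2, r.1 ≠ Symbol.nonterminal B) {l : List R}
    {v : List (LS Q R)} (e1 : rs.map (fun r => r.1) = ck l)
    (e2 : v = w.map Symbol.terminal ++ y ++ rs.flatMap (fun r => r.2.1)) :
    (simL Ed q0 qf).Step (w.map Symbol.terminal ++ sy S :: ck l) v := by
  refine ⟨by simp, w.map (fun a => (.terminal a, [.terminal a], ∅)) ++ (sy S, y, ∅) :: rs, ?_,
    by simp [e1], by simp [e2, List.flatMap_map, ← List.map_eq_flatMap], ?_⟩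
  · simp only [List.mem_append, List.mem_map, List.mem_cons]
    rintro _ (⟨a, -, rfl⟩ | rfl | k)
    exacts [.ter a, h, h1 _ k]
  · simp only [List.pairwise_append, List.pairwise_map, List.pairwise_cons, List.mem_map]
    refine ⟨List.pairwise_of_forall (by simp), ⟨fun r hr B hB e => h2 r hr ?_, h3⟩, ?_⟩
    · obtain rfl : .inl S = B := by simpa [sy] using e
      exact hB
    · rintro _ ⟨a, -, rfl⟩; simp

omit [DecidableEq R] in
theorem lkeep {i : Ins R} {q : Q} {S : Option (Ins R × Q)} (h : Nx Ed qf q S) (w : List (Fin 3))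
    (l : List R) (hz : ∀ r, i = .zero r → r ∉ l) {v : List (LS Q R)}
    (e : v = w.map Symbol.terminal ++ rhs i (sy S) ++ ck l) :
    (simL Ed q0 qf).Step (w.map Symbol.terminal ++ sy (some (i, q)) :: ck l) v := by
  refine lmk Ed q0 qf (.go i q S h) w (l.map keep) ?_ ?_ ?_ (by simp [keep, ck])
    (by simp [e, keep, ck, List.flatMap_map, ← List.map_eq_flatMap])
  · simp only [List.mem_map]; rintro _ ⟨r, -, rfl⟩; exact .keep r
  · simp only [List.mem_map]
    rintro _ ⟨r, hr, rfl⟩ ⟨q', e⟩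
    exact hz r (by simpa using congrArg (fun x => (x.getLeft?.getD none).map Prod.fst) e) hr
  · rw [List.pairwise_map]
    exact List.pairwise_of_forall (by rintro a b _ ⟨q, rfl⟩; simp [keep])

theorem lsim_run (c : Q × St R) (h : ReflTransGen (MStep Ed) (q0, fun _ => 0, []) c) :
    ∀ S, Nx Ed qf c.1 S → ∃ l, cn l = c.2.1 ∧ ReflTransGen (simL Ed q0 qf).Step
      [sy (some (.nop, q0))] (c.2.2.map Symbol.terminal ++ sy S :: ck l) := by
  induction h with
  | refl =>
    exact fun S hS => ⟨[], rfl, .single (lkeep Ed q0 qf hS [] [] (by simp) (by simp [rhs]))⟩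
  | @tail b c _ k ih =>
    obtain ⟨q, σ, w⟩ := b
    obtain ⟨q', s'⟩ := c
    obtain ⟨i, g1, g2⟩ := k
    obtain ⟨l, rfl, h3⟩ := ih (some (i, q')) g1
    intro S hS
    simp only at g1 g2 h3 hS ⊢
    cases i with
    | inc r =>
      cases g2
      exact ⟨r :: l, cn_cons r l, h3.tail (lkeep Ed q0 qf hS w l (by simp) (by simp [rhs, ck]))⟩
    | out a => cases g2; exact ⟨l, rfl, h3.tail (lkeep Ed q0 qf hS w l (by simp) (by simp [rhs]))⟩
    | nop => cases g2; exact ⟨l, rfl, h3.tail (lkeep Ed q0 qf hS w l (by simp) (by simp [rhs]))⟩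
    | zero r =>
      obtain ⟨g2, rfl⟩ := g2
      exact ⟨l, rfl, h3.tail (lkeep Ed q0 qf hS w l
        (by rintro _ ⟨⟩; exact List.count_eq_zero.1 g2) (by simp [rhs]))⟩
    | dec r =>
      rcases g2 with rfl | ⟨g2, rfl⟩
      · exact ⟨l, rfl, h3.tail (lkeep Ed q0 qf hS w l (by simp) (by simp [rhs]))⟩
      · obtain ⟨l1, l2, rfl, hn⟩ := List.eq_append_cons_of_mem (List.count_pos_iff.1 g2)
        refine ⟨l1 ++ l2, cn_del r l1 l2, h3.tail (lmk Ed q0 qf (.go _ _ S hS) w
          (l1.map keep ++ drop r :: l2.map keep) ?_ ?_ ?_ (by simp [keep, drop, ck, comp_def])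
          (by simp [rhs, keep, drop, ck, List.flatMap_map, ← List.map_eq_flatMap]))⟩
        · simp only [List.mem_append, List.mem_map, List.mem_cons]
          rintro _ (⟨a, -, rfl⟩ | rfl | ⟨a, -, rfl⟩)
          exacts [.keep a, .drop r, .keep a]
        · simp only [List.mem_append, List.mem_map, List.mem_cons]
          rintro _ (⟨a, -, rfl⟩ | rfl | ⟨a, -, rfl⟩) <;> simp [keep, drop]
        · simp only [List.pairwise_append, List.pairwise_map, List.pairwise_cons, List.mem_map,
            List.mem_cons]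
          refine ⟨List.pairwise_of_forall (by rintro a b _ ⟨q, rfl⟩; simp [keep]), ⟨?_,
            List.pairwise_of_forall (by rintro a b _ ⟨q, rfl⟩; simp [keep])⟩, ?_⟩
          · rintro _ ⟨a, -, rfl⟩ _ ⟨q, rfl⟩; simp [drop]
          · rintro _ ⟨a, ha, rfl⟩ _ (rfl | ⟨b, -, rfl⟩)
            · rintro _ (rfl | ⟨i, q, -, rfl⟩)
              · simp only [keep, ne_eq, Symbol.nonterminal.injEq, Sum.inr.injEq]
                rintro rfl; exact hn ha
              · simp [keep]
            · rintro _ ⟨q, rfl⟩; simp [keep]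

theorem simL_lang : (simL Ed q0 qf).lang = MLang Ed q0 qf := by
  ext w
  constructor
  · intro h
    have : ∀ u, ReflTransGen (simL Ed q0 qf).Step [sy (some (.nop, q0))] u → LInv Ed q0 qf u := by
      intro u k
      induction k with
      | refl => exact ⟨[], [], Or.inl ⟨_, rfl, by rintro _ ⟨⟩; exact .refl⟩⟩
      | tail _ k ih => exact linv_step Ed q0 qf ih k
    obtain ⟨w', l, ⟨s, e, -⟩ | ⟨e, g⟩⟩ := this _ h
    · have : sy s ∈ w.map (Symbol.terminal (N := LN Q R)) := by simp [e]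
      simp [sy] at this
    · cases l with
      | nil =>
        simp only [ck, List.map_nil, List.append_nil] at e
        rwa [(List.map_injective_iff.2 fun _ _ h => Symbol.terminal.inj h) e]
      | cons z l =>
        have : Symbol.nonterminal (.inr z) ∈ w.map (Symbol.terminal (N := LN Q R)) := by simp [e, ck]
        simp at this
  · rintro ⟨σ, h⟩
    obtain ⟨l, -, h3⟩ := lsim_run Ed q0 qf _ h none rfl
    refine h3.tail (lmk Ed q0 qf .halt w (l.map wipe) ?_ ?_ ?_ (by simp [wipe, ck])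
      (by simp [wipe, List.flatMap_map]))
    · simp only [List.mem_map]; rintro _ ⟨r, -, rfl⟩; exact .wipe r
    · simp only [List.mem_map]; rintro _ ⟨r, -, rfl⟩; simp [wipe]
    · rw [List.pairwise_map]
      exact List.pairwise_of_forall (by rintro a b _ ⟨q, rfl⟩; simp [wipe])

end

theorem lf_of_icl {L : Set (List (Fin 3))} (h : ICL L) :
    ∃ (N : Type) (_ : Fintype N) (G : LFG (Fin 3) N), G.lang = L := by
  obtain ⟨Q, R, _, _, _, Ed, q0, qf, rfl⟩ := h
  exact ⟨_, inferInstance, _, simL_lang Ed q0 qf⟩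

def lstp (c : List CR) (u v : List ℕ) : Prop :=
  ¬ u = [] ∧ ∃ rs ∈ allL c u.length, u = rs.map (fun r => r.1) ∧ v = rs.flatMap (fun r => r.2.1) ∧
    rs.Pairwise fun r r' => r.1 ∉ r'.2.2

theorem lstp_prim : PrimrecPred fun p : List CR × List ℕ × List ℕ => lstp p.1 p.2.1 p.2.2 :=
  (peq (by fun_prop) (by fun_prop)).not.and (pex (by fun_prop)
    ((peq (by fun_prop) (by fun_prop)).and ((peq (by fun_prop) (by fun_prop)).and
      (ppair (R := fun _ (r r' : CR) => r.1 ∉ r'.2.2) (by fun_prop)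
        (pmem (by fun_prop) (by fun_prop)).not))))

theorem pick {α β : Type} {P : α → Prop} {f : α → β} (l : List β)
    (h : ∀ b ∈ l, ∃ a, P a ∧ f a = b) : ∃ l' : List α, (∀ a ∈ l', P a) ∧ l'.map f = l := by
  induction l with
  | nil => exact ⟨[], by simp, rfl⟩
  | cons b l ih =>
    obtain ⟨a, h1, rfl⟩ := h b (by simp)
    obtain ⟨l', h2, rfl⟩ := ih fun b hb => h b (by simp [hb])
    exact ⟨a :: l', by simpa [h1] using h2, rfl⟩

theorem lf_sep : ∃ (N : Type) (_ : Fintype N) (G : LFG (Fin 3) N),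
    ∀ (N' : Type) [Fintype N'] (G' : LFG (Fin 3) N'), G'.Propagating →
      G'.lang ≠ G.lang \ {[]} := by
  classical
  obtain ⟨L, h1, h2⟩ := diag_mono lstp lstp_prim
  obtain ⟨N, _, G, rfl⟩ := lf_of_icl h1
  refine ⟨N, inferInstance, G, fun N' _ G' hp e0 => ?_⟩
  obtain ⟨n, hn, k⟩ := h2 (Symbol (Fin 3) N') .terminal G'.Step G'.ax (by
    rintro _ _ ⟨-, rs, hr, rfl, rfl, -⟩
    induction rs with
    | nil => simp
    | cons r rs ih =>
      have := List.length_pos_iff.2 (hp r (hr r (by simp)))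
      have := ih fun r k => hr r (by simp [k])
      simp only [List.map_cons, List.length_cons, List.flatMap_cons, List.length_append] at this ⊢
      omega) (by
    intro e he
    let cd : Symbol (Fin 3) N' × List (Symbol (Fin 3) N') × Set N' → CR := fun r =>
      (e r.1, r.2.1.map e, r.2.2.toFinset.toList.map fun B => e (.nonterminal B))
    have hc : ∀ r r', (cd r).1 ∉ (cd r').2.2 ↔ ∀ B ∈ r'.2.2, r.1 ≠ Symbol.nonterminal B := by
      intro r r'
      simp only [cd, List.mem_map, Finset.mem_toList, Set.mem_toFinset, he.eq_iff, not_exists,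
        not_and, ne_eq, eq_comm]
    refine ⟨G'.fin.toFinset.toList.map cd, ?_, ?_⟩
    · rintro _ _ ⟨h0, rs, hr, rfl, rfl, hF⟩
      refine ⟨by simpa using h0, rs.map cd, mem_allL.2 ⟨by simp, ?_⟩, by simp [cd],
        by simp [cd, List.flatMap_map, List.map_flatMap], ?_⟩
      · simp only [List.mem_map]
        rintro _ ⟨r, k, rfl⟩
        exact ⟨r, by simpa using hr r k, rfl⟩
      · rw [List.pairwise_map]; simpa only [hc] using hF
    · rintro u _ ⟨h0, rs', hr, e1, rfl, hF⟩
      obtain ⟨rs, g, rfl⟩ := pick (P := fun r => r ∈ G'.rules) (f := cd) rs' fun b hb => by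
        simpa using (mem_allL.1 hr).2 b hb
      refine ⟨rs.flatMap fun r => r.2.1, by simp [cd, List.flatMap_map, List.map_flatMap],
        by simpa using h0, rs, g, (List.map_injective_iff.2 he) (by simpa [cd, comp_def] using e1), rfl, ?_⟩
      rw [List.pairwise_map] at hF; simpa only [hc] using hF)
  have := Set.ext_iff.1 e0 (wd n n n)
  simp only [Set.mem_sdiff, Set.mem_singleton_iff, wd_ne hn, not_false_eq_true, and_true] at this
  exact k this.symm

end Pool.Agent.H63.FG
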