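import Pool.Agent.H63.FG2

set_option autoImplicit false

/-! Membership in ET0L languages is uniformly primitive recursive. -/

namespace Pool.Agent.H63.FG

open Function Relation IC

abbrev TB := List (ℕ × List ℕ)

def Ap (D : TB) (u v : List ℕ) : Prop :=
  ∃ rs ∈ allL D u.length, u = rs.map (fun r => r.1) ∧ v = rs.flatMap (fun r => r.2)

theorem ap_iff {D : TB} {u v : List ℕ} : Ap D u v ↔
    ∃ rs : TB, (∀ r ∈ rs, r ∈ D) ∧ u = rs.map (fun r => r.1) ∧ v = rs.flatMap (fun r => r.2) :=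
  ⟨fun ⟨rs, h, e⟩ => ⟨rs, (mem_allL.1 h).2, e⟩,
    fun ⟨rs, h, e⟩ => ⟨rs, mem_allL.2 ⟨by simp [e.1], h⟩, e⟩⟩

theorem ap_prim {X : Type} [Primcodable X] {D : X → TB} {u v : X → List ℕ} (h1 : Primrec D)
    (h2 : Primrec u) (h3 : Primrec v) : PrimrecPred fun x => Ap (D x) (u x) (v x) :=
  pex (by fun_prop) ((peq (by fun_prop) (by fun_prop)).and (peq (by fun_prop) (by fun_prop)))

theorem ap_nil {D : TB} {v : List ℕ} : Ap D [] v ↔ v = [] := by simp [ap_iff]

theorem ap_append {D : TB} {u1 u2 v : List ℕ} :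
    Ap D (u1 ++ u2) v ↔ ∃ v1 v2, v = v1 ++ v2 ∧ Ap D u1 v1 ∧ Ap D u2 v2 := by
  simp only [ap_iff]
  constructor
  · rintro ⟨rs, h, e, rfl⟩
    obtain ⟨r1, r2, rfl, rfl, rfl⟩ := List.map_eq_append_iff.1 e.symm
    exact ⟨_, _, List.flatMap_append, ⟨r1, fun r k => h r (by simp [k]), rfl, rfl⟩,
      r2, fun r k => h r (by simp [k]), rfl, rfl⟩
  · rintro ⟨_, _, rfl, ⟨r1, h1, rfl, rfl⟩, r2, h2, rfl, rfl⟩
    exact ⟨r1 ++ r2, by simp only [List.mem_append]; rintro r (k | k); exacts [h1 r k, h2 r k],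
      by simp, by simp⟩

theorem ap_cons {D : TB} {X : ℕ} {u v : List ℕ} :
    Ap D (X :: u) v ↔ ∃ y v2, v = y ++ v2 ∧ (X, y) ∈ D ∧ Ap D u v2 := by
  simp only [ap_iff]
  constructor
  · rintro ⟨rs, h, e, rfl⟩
    obtain ⟨r, r2, rfl, rfl, rfl⟩ := List.map_eq_cons_iff.1 e.symm
    exact ⟨_, _, List.flatMap_cons, h r (by simp), r2, fun r k => h r (by simp [k]), rfl, rfl⟩
  · rintro ⟨y, _, rfl, h1, r2, h2, rfl, rfl⟩
    exact ⟨(X, y) :: r2, by simpa [h1] using h2, by simp, by simp⟩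

def DS (tb : List TB) (D D' : TB) : Prop :=
  ∃ h ∈ tb, ∀ p ∈ D', ∃ r ∈ h, r.1 = p.1 ∧ Ap D r.2 p.2

def BB (tb : List TB) (w : List ℕ) : TB :=
  tb.flatMap fun h => h.flatMap fun r => (subs w).map fun v => (r.1, v)

def EM (tb : List TB) (ax w : List ℕ) : Prop :=
  ∃ D ∈ (w.map fun a => (a, [a])) :: subs (BB tb w),
    ReflTransGen (fun a b => b ∈ subs (BB tb w) ∧ DS tb a b) (w.map fun a => (a, [a])) D ∧ Ap D ax w

theorem EM_prim : PrimrecPred fun p : List TB × List ℕ × List ℕ => EM p.1 p.2.1 p.2.2 :=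
  pex (by simp only [BB]; fun_prop) ((reach_prim
    (U := fun x : (List TB × List ℕ × List ℕ) × TB => subs (BB x.1.1 x.1.2.2))
    (stp := fun x => DS x.1.1) (by simp only [BB]; fun_prop)
    (pex (by fun_prop) (pall (by fun_prop) (pex (by fun_prop) ((peq (by fun_prop) (by fun_prop)).and
      (ap_prim (by fun_prop) (by fun_prop) (by fun_prop))))))
    (by fun_prop) (by fun_prop)).and (ap_prim (by fun_prop) (by fun_prop) (by fun_prop)))

theorem EM_iff (tb : List TB) (ax w : List ℕ) :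
    EM tb ax w ↔ ReflTransGen (fun u v => ∃ h ∈ tb, Ap h u v) ax w := by
  classical
  constructor
  · rintro ⟨D, -, h, k⟩
    induction h generalizing ax with
    | refl =>
      obtain ⟨rs, g, rfl, e⟩ := ap_iff.1 k
      have : rs.flatMap (fun r => r.2) = rs.map (fun r => r.1) := by
        rw [List.map_eq_flatMap]
        refine List.flatMap_congr fun r hr => ?_
        obtain ⟨a, -, rfl⟩ := List.mem_map.1 (g r hr)
        rfl
      rw [← this, ← e]
    | @tail D D' _ g ih =>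
      obtain ⟨-, h, g1, g2⟩ := g
      have : ∀ u v, Ap D' u v → ∃ u', Ap h u u' ∧ Ap D u' v := by
        intro u
        induction u with
        | nil => exact fun v k => ⟨[], ap_nil.2 rfl, k.elim fun _ _ => ap_nil.2 (ap_nil.1 k)⟩
        | cons X u ih =>
          intro v k
          obtain ⟨y, v2, rfl, k1, k2⟩ := ap_cons.1 k
          obtain ⟨u', k3, k4⟩ := ih _ k2
          obtain ⟨⟨_, z⟩, k5, rfl, k6⟩ := g2 _ k1
          exact ⟨z ++ u', ap_cons.2 ⟨_, _, rfl, k5, k3⟩, ap_append.2 ⟨_, _, rfl, k6, k4⟩⟩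
      obtain ⟨u', k1, k2⟩ := this _ _ k
      exact .head ⟨h, g1, k1⟩ (ih _ k2)
  · intro h
    induction h using ReflTransGen.head_induction_on with
    | refl =>
      exact ⟨_, by simp, .refl, ap_iff.2 ⟨_, fun _ h => h, by simp [comp_def],
        by simp [List.flatMap_map]⟩⟩
    | @head a b k _ ih =>
      obtain ⟨h, g1, g2⟩ := k
      obtain ⟨D, -, g3, g4⟩ := ih
      let D' := (BB tb w).filter fun p => ∃ r ∈ h, r.1 = p.1 ∧ Ap D r.2 p.2
      have hD : D' ∈ subs (BB tb w) := mem_subs.2 List.filter_sublist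
      refine ⟨D', List.mem_cons_of_mem _ hD, g3.tail ⟨hD, h, g1, fun p hp => by
        simpa using (List.mem_filter.1 hp).2⟩, ?_⟩
      have : ∀ u u' v, v.Sublist w → Ap h u u' → Ap D u' v → Ap D' u v := by
        intro u
        induction u with
        | nil => intro u' v _ k1 k2; rw [ap_nil] at k1 ⊢; exact ap_nil.1 (k1 ▸ k2)
        | cons X u ih =>
          intro u' v hv k1 k2
          obtain ⟨y, u2, rfl, k3, k4⟩ := ap_cons.1 k1
          obtain ⟨v1, v2, rfl, k5, k6⟩ := ap_append.1 k2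
          refine ap_cons.2 ⟨_, _, rfl, List.mem_filter.2 ⟨?_, decide_eq_true ⟨_, k3, rfl, k5⟩⟩,
            ih _ _ ((List.sublist_append_right _ _).trans hv) k4 k6⟩
          simp only [BB, List.mem_flatMap, List.mem_map]
          exact ⟨h, g1, _, k3, v1, mem_subs.2 ((List.sublist_append_left _ _).trans hv), rfl⟩
      exact this _ _ _ (List.Sublist.refl _) g2 g4

theorem et_sep' : ∃ L, ICL L ∧
    ∀ (N' : Type) [Fintype N'] (G' : ETG (Fin 3) N'), G'.lang \ {[]} ≠ L \ {[]} := by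
  classical
  obtain ⟨L, h1, h2⟩ := diag (C := List TB × List ℕ × ℕ × ℕ × ℕ)
    (fun c n => EM c.1 c.2.1 (cw c.2.2.1 c.2.2.2.1 c.2.2.2.2 n))
    (EM_prim.comp (f := fun q : (List TB × List ℕ × ℕ × ℕ × ℕ) × ℕ =>
      (q.1.1, q.1.2.1, cw q.1.2.2.1 q.1.2.2.2.1 q.1.2.2.2.2 q.2)) (by simp only [cw]; fun_prop))
  refine ⟨L, h1, fun N' _ G' e0 => ?_⟩
  let e : Symbol (Fin 3) N' → ℕ := fun x => Fintype.equivFin _ x
  have he : Injective e := Fin.val_injective.comp (Fintype.equivFin _).injective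
  let cd : Symbol (Fin 3) N' × List (Symbol (Fin 3) N') → ℕ × List ℕ := fun r => (e r.1, r.2.map e)
  let tb : List TB := List.ofFn fun h => (G'.fin h).toFinset.toList.map cd
  obtain ⟨n, hn, k⟩ := h2 (tb, G'.ax.map e, e (.terminal 0), e (.terminal 1), e (.terminal 2))
  have := Set.ext_iff.1 e0 (wd n n n)
  simp only [Set.mem_sdiff, Set.mem_singleton_iff, wd_ne hn, not_false_eq_true, and_true] at this
  refine k (this.symm.trans ?_)
  simp only [cw_eq e Symbol.terminal, EM_iff, ETG.lang, Set.mem_ofPred_eq]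
  have hw : (wd n n n).map (Symbol.terminal (N := N')) ≠ [] := by simpa using wd_ne hn
  generalize (wd n n n).map (Symbol.terminal (N := N')) = w at hw
  generalize G'.ax = s
  constructor
  · intro h
    induction h using ReflTransGen.head_induction_on with
    | refl => exact .refl
    | head g _ ih =>
      obtain ⟨-, h, rs, g1, rfl, rfl⟩ := g
      refine .head ⟨_, List.mem_ofFn.2 ⟨h, rfl⟩, ap_iff.2 ⟨rs.map cd, ?_, by simp [cd],
        by simp [cd, List.flatMap_map, List.map_flatMap]⟩⟩ ih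
      simp only [List.mem_map]
      rintro _ ⟨r, k, rfl⟩
      exact ⟨r, by simpa using g1 r k, rfl⟩
  · intro h
    replace h := reach_map he (st := fun u v => ∃ h, ∃ rs : List (Symbol (Fin 3) N' ×
      List (Symbol (Fin 3) N')), (∀ r ∈ rs, r ∈ G'.table h) ∧ u = rs.map (fun r => r.1) ∧
        v = rs.flatMap (fun r => r.2)) (by
      rintro u v ⟨_, g1, g2⟩
      obtain ⟨h, rfl⟩ := List.mem_ofFn.1 g1
      obtain ⟨rs', g3, e1, rfl⟩ := ap_iff.1 g2
      obtain ⟨rs, g, rfl⟩ := pick (P := fun r => r ∈ G'.table h) (f := cd) rs' fun b hb => by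
        simpa using g3 b hb
      exact ⟨rs.flatMap fun r => r.2, by simp [cd, List.flatMap_map, List.map_flatMap], h, rs, g,
        (List.map_injective_iff.2 he) (by simpa [cd, comp_def] using e1), rfl⟩) h
    suffices s ≠ [] ∧ ReflTransGen G'.Step s w from this.2
    induction h using ReflTransGen.head_induction_on with
    | refl => exact ⟨hw, .refl⟩
    | @head a b g _ ih =>
      have : a ≠ [] := by
        rintro rfl
        obtain ⟨h, rs, -, e1, e2⟩ := g
        obtain rfl : rs = [] := by simpa using e1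
        exact ih.1 e2
      exact ⟨this, .head ⟨this, g⟩ ih.2⟩

theorem et_sep : ∃ (N : Type) (_ : Fintype N) (G : LFG (Fin 3) N),
    ∀ (N' : Type) [Fintype N'] (G' : ETG (Fin 3) N'), G'.lang \ {[]} ≠ G.lang \ {[]} := by
  obtain ⟨L, h1, h2⟩ := et_sep'
  obtain ⟨N, _, G, rfl⟩ := lf_of_icl h1
  exact ⟨N, inferInstance, G, h2⟩

end Pool.Agent.H63.FG
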