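import Mathlib

/-! First-order sentences in the language of groups. -/

set_option autoImplicit false

namespace Pool.Agent.H63.GG

/-- First-order formulas in the language of groups. A term is written as a word in variables
(de Bruijn indices; `(i, true)`) and inverses of variables (`(i, false)`); the empty word is `1`. -/
inductive Fm : Type
  | eq (u v : List (ℕ × Bool)) : Fm
  | neg (φ : Fm) : Fm
  | and (φ ψ : Fm) : Fm
  | all (φ : Fm) : Fm

/-- All free variables are below `n`; sentences are the formulas with `Bd 0`. -/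
def Fm.Bd : ℕ → Fm → Prop
  | n, .eq u v => ∀ x ∈ u ++ v, x.1 < n
  | n, .neg φ => φ.Bd n
  | n, .and φ ψ => φ.Bd n ∧ ψ.Bd n
  | n, .all φ => φ.Bd (n + 1)

/-- The valuation with a new variable `0`. -/
def push {M : Type} (t : M) (ρ : ℕ → M) : ℕ → M
  | 0 => t
  | n + 1 => ρ n

/-- The value of a term. -/
def val {M : Type} [Group M] (ρ : ℕ → M) (u : List (ℕ × Bool)) : M :=
  (u.map fun x => if x.2 then ρ x.1 else (ρ x.1)⁻¹).prod

/-- Truth in the group `M`. -/
def Fm.Sat {M : Type} [Group M] : Fm → (ℕ → M) → Prop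
  | .eq u v, ρ => val ρ u = val ρ v
  | .neg φ, ρ => ¬ φ.Sat ρ
  | .and φ ψ, ρ => φ.Sat ρ ∧ ψ.Sat ρ
  | .all φ, ρ => ∀ t, φ.Sat (push t ρ)

/-- Gödel numbers. -/
def Fm.code : Fm → ℕ
  | .eq u v => Nat.pair 0 (Encodable.encode (u, v))
  | .neg φ => Nat.pair 1 φ.code
  | .and φ ψ => Nat.pair 2 (Nat.pair φ.code ψ.code)
  | .all φ => Nat.pair 3 φ.code

/-- `n` is the Gödel number of a sentence true in the group `M`. -/
def Theory (M : Type) [Group M] (n : ℕ) : Prop :=
  ∃ φ : Fm, φ.code = n ∧ φ.Bd 0 ∧ φ.Sat fun _ => (1 : M)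

end Pool.Agent.H63.GG
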