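import Pool.Agent.H72.Grig

/-! The Grigorchuk group: tree action, branching and transitivity. -/

set_option autoImplicit false

namespace Pool.Agent.H63.GG

open Pool.Agent.H72.GrigDefs Pool.Agent.H72.Grig

abbrev V : Type := List Bool

theorem act_len (w : V) : ∀ s, (act s w).length = w.length := by
  induction w with
  | nil => intro s; cases s <;> rfl
  | cons x w ih => intro s; cases s <;> cases x <;> simp [act, ih]

theorem act_pre (u w : V) : ∀ s, act s u <+: act s (u ++ w) := by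
  induction u with
  | nil => intro s; cases s <;> simp [act]
  | cons x u ih => intro s; cases s <;> cases x <;> simp [act, ih]

theorem len_eq {g : P} (hg : g ∈ G) (u : V) : (g u).length = u.length := by
  obtain ⟨l, rfl⟩ := exists_word hg
  clear hg
  induction l with
  | nil => rfl
  | cons s l ih => simp [gen_apply, act_len, ih]

theorem pre_map {g : P} (hg : g ∈ G) {u v : V} (h : u <+: v) : g u <+: g v := by
  obtain ⟨l, rfl⟩ := exists_word hg
  clear hg
  induction l with
  | nil => exact h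
  | cons s l ih =>
    obtain ⟨w, hw⟩ := ih
    simp only [ev_cons, Equiv.Perm.mul_apply, gen_apply, ← hw]
    exact act_pre _ _ _

theorem pre_iff {g : P} (hg : g ∈ G) {u v : V} : g u <+: g v ↔ u <+: v :=
  ⟨fun h => by simpa using pre_map (G.inv_mem hg) h, pre_map hg⟩

theorem pre_eq {u v w : V} (h : u <+: w) (h' : v <+: w) (e : u.length = v.length) : u = v :=
  (List.prefix_of_prefix_length_le h h' e.le).eq_of_length e

theorem moved {g : P} (hg : g ∈ G) {u v : V} (h : g u ≠ u) (h' : u <+: v) : g v ≠ v := fun e =>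
  h (pre_eq (e ▸ pre_map hg h') h' (len_eq hg u))

def B : P := gen Gen.b
def C : P := gen Gen.c
def T : P := A * B * A * B

theorem klein (w : V) : act .b (act .d w) = act .c w ∧ act .d (act .b w) = act .c w ∧
    act .c (act .b w) = act .d w ∧ act .b (act .c w) = act .d w ∧
    act .d (act .c w) = act .b w ∧ act .c (act .d w) = act .b w := by
  induction w with
  | nil => simp [act]
  | cons x w ih => cases x <;> simp [act, ih, act_act]

theorem BD : B * D = C := by ext1 w; exact (klein w).1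
theorem DB : D * B = C := by ext1 w; exact (klein w).2.1
theorem BB (x : P) : B * (B * x) = x := gen_sq' _ x
theorem BB' : B * B = 1 := gen_sq _
theorem A_mem : A ∈ G := gen_mem _
theorem B_mem : B ∈ G := gen_mem _
theorem C_mem : C ∈ G := gen_mem _
theorem D_mem : D ∈ G := gen_mem _
theorem T_mem : T ∈ G := G.mul_mem (G.mul_mem (G.mul_mem A_mem B_mem) A_mem) B_mem
theorem A_inv : A⁻¹ = A := inv_eq_of_mul_eq_one_left AA'
theorem B_inv : B⁻¹ = B := inv_eq_of_mul_eq_one_left BB'
theorem D_inv : D⁻¹ = D := inv_eq_of_mul_eq_one_left DD'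
theorem B_eq : B = sec A C := b_eq
theorem C_eq : C = sec A D := c_eq
theorem D_eq : D = sec 1 B := d_eq
theorem A_sec (x y : P) : A * sec x y * A = sec y x := a_sec x y

theorem T_eq : T = sec (C * A) (A * C) := by
  rw [T]
  conv_lhs => rw [B_eq, A_sec, sec_mul]

def K : Subgroup P := Subgroup.closure {k | ∃ g ∈ G, k = g * T * g⁻¹}

theorem K_le {k : P} (h : k ∈ K) : k ∈ G := by
  refine (Subgroup.closure_le G).2 ?_ h
  rintro _ ⟨g, hg, rfl⟩
  exact G.mul_mem (G.mul_mem hg T_mem) (G.inv_mem hg)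

theorem T_K : T ∈ K := Subgroup.subset_closure ⟨1, G.one_mem, by simp⟩

theorem K_conj {g k : P} (hg : g ∈ G) (h : k ∈ K) : g * k * g⁻¹ ∈ K := by
  induction h using Subgroup.closure_induction with
  | mem x hx =>
    obtain ⟨g', hg', rfl⟩ := hx
    exact Subgroup.subset_closure ⟨g * g', G.mul_mem hg hg', by group⟩
  | one => simp
  | mul x y _ _ hx hy => convert K.mul_mem hx hy using 1; group
  | inv x _ hx => convert K.inv_mem hx using 1; group

theorem sec_inv (x y : P) : (sec x y)⁻¹ = sec x⁻¹ y⁻¹ :=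
  inv_eq_of_mul_eq_one_left (by rw [sec_mul]; simp [sec_one])

theorem secT : sec T 1 ∈ K := by
  have h1 : sec T 1 = C * (A * D * A) * C * (A * D * A) := by
    conv_rhs => rw [D_eq, A_sec, C_eq]
    rw [sec_mul, sec_mul, sec_mul, T, mul_one, mul_one, DD']
  have h2 : sec T 1 = (D * T⁻¹ * D⁻¹) * ((D * A * D) * T⁻¹ * (D * A * D)⁻¹) := by
    have e : ∀ x, B * (D * x) = D * (B * x) := fun x => by
      rw [← mul_assoc, ← mul_assoc, BD, DB]
    rw [h1, ← BD]
    simp only [T, mul_inv_rev, A_inv, B_inv, D_inv, mul_assoc, AA, DD, e, BB]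
    rw [← adad, e]
  rw [h2]
  exact K.mul_mem (K_conj D_mem (K.inv_mem T_K))
    (K_conj (G.mul_mem (G.mul_mem D_mem A_mem) D_mem) (K.inv_mem T_K))

theorem lift0 {g : P} (hg : g ∈ G) : ∃ x, sec g x ∈ G := by
  obtain ⟨x, -, h, -⟩ := exists_lift g hg
  exact ⟨x, A_sec _ _ ▸ G.mul_mem (G.mul_mem A_mem h) A_mem⟩

theorem secK {k : P} (h : k ∈ K) : sec k 1 ∈ K := by
  induction h using Subgroup.closure_induction with
  | mem x hx =>
    obtain ⟨g, hg, rfl⟩ := hx
    obtain ⟨x, hx⟩ := lift0 hg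
    convert K_conj hx secT using 1
    rw [sec_inv, sec_mul, sec_mul]; simp
  | one => simp [sec_one]
  | mul x y _ _ hx hy => convert K.mul_mem hx hy using 1; rw [sec_mul, mul_one]
  | inv x _ hx => convert K.inv_mem hx using 1; rw [sec_inv, inv_one]

/-- `x` below the letter `e`, `y` below the other letter -/
def sc : Bool → P → P → P
  | false, x, y => sec x y
  | true, x, y => sec y x

@[simp] theorem sc_e (e : Bool) (x y : P) (w : V) : sc e x y (e :: w) = e :: x w := by
  cases e <;> rfl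
@[simp] theorem sc_ne (e : Bool) (x y : P) (w : V) : sc e x y ((!e) :: w) = (!e) :: y w := by
  cases e <;> rfl
@[simp] theorem sc_nil (e : Bool) (x y : P) : sc e x y [] = [] := by cases e <;> rfl

theorem sc_G {x y : P} (h : sec x y ∈ G) (e : Bool) : sc e x y ∈ G := by
  cases e
  · exact h
  · have := G.mul_mem (G.mul_mem A_mem h) A_mem
    rwa [A_sec] at this

theorem sc_K {k : P} (h : k ∈ K) (e : Bool) : sc e k 1 ∈ K := by
  cases e
  · exact secK h
  · have := K_conj A_mem (secK h)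
    rwa [A_inv, A_sec] at this

def atv : V → P → P
  | [], k => k
  | e :: v, k => sc e (atv v k) 1

theorem atv_K {k : P} (h : k ∈ K) : ∀ v, atv v k ∈ K
  | [] => h
  | e :: v => sc_K (atv_K h v) e

theorem atv_app (k : P) (w : V) : ∀ v, atv v k (v ++ w) = v ++ k w
  | [] => rfl
  | e :: v => by simp [atv, atv_app k w v]

/-- supported in the cone of `v` -/
def Sup (k : P) (v : V) : Prop := ∀ u, ¬ v <+: u → k u = u

theorem atv_sup (k : P) : ∀ v, Sup (atv v k) v
  | [] => fun u h => absurd List.nil_prefix h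
  | e :: v => by
    rintro (_ | ⟨e', u⟩) h
    · simp [atv]
    · by_cases he : e' = e
      · subst he
        simp only [atv, sc_e]
        rw [atv_sup k v u fun h' => h (by simpa using h')]
      · obtain rfl : e' = !e := by cases e <;> cases e' <;> simp_all
        simp [atv]

theorem atv_pow (k : P) (n : ℕ) (v w : V) : (atv v k ^ n) (v ++ w) = v ++ (k ^ n) w := by
  induction n with
  | zero => rfl
  | succ n ih => rw [pow_succ', pow_succ', Equiv.Perm.mul_apply, ih, atv_app]; rfl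

theorem T_flip (e e' : Bool) (w : V) : ∃ w', T (e :: e' :: w) = e :: (!e') :: w' := by
  rw [T_eq]
  cases e <;> cases e' <;> exact ⟨_, rfl⟩

theorem T12 : (T ^ 12) (List.replicate 5 false) ≠ List.replicate 5 false := by
  simp only [pow_succ, pow_zero, one_mul, T, Equiv.Perm.mul_apply, A, B, gen_apply]
  decide

theorem K_trans : ∀ (y1 y2 : V) (e : Bool), y1.length = y2.length →
    ∃ k ∈ K, k (e :: y1) = e :: y2 := by
  intro y1 y2
  induction y2 generalizing y1 with
  | nil => intro e h; exact ⟨1, K.one_mem, by simpa using h⟩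
  | cons e2 z2 ih =>
    intro e h
    obtain _ | ⟨e1, z1⟩ := y1
    · simp at h
    by_cases he : e1 = e2
    · subst he
      obtain ⟨k, hk, h⟩ := ih z1 e1 (by simpa using h)
      exact ⟨sc e k 1, sc_K hk e, by simp [h]⟩
    · obtain rfl : e2 = !e1 := by cases e1 <;> cases e2 <;> simp_all
      obtain ⟨w, hw⟩ := T_flip e e1 z1
      have hl := len_eq T_mem (e :: e1 :: z1)
      rw [hw] at hl
      obtain ⟨k, hk, h⟩ := ih w (!e1) (by simp at hl h; omega)
      exact ⟨sc e k 1 * T, K.mul_mem (sc_K hk e) T_K, by simp [hw, h]⟩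

theorem G_trans {u v : V} (h : u.length = v.length) : ∃ g ∈ G, g u = v := by
  obtain _ | ⟨e, u⟩ := u
  · exact ⟨1, G.one_mem, by simpa [eq_comm] using h⟩
  obtain _ | ⟨e', v⟩ := v
  · simp at h
  obtain ⟨k, hk, h⟩ := K_trans u v e' (by simpa using h)
  by_cases he : e = e'
  · exact ⟨k, K_le hk, he ▸ h⟩
  · obtain rfl : e' = !e := by cases e <;> cases e' <;> simp_all
    exact ⟨k * A, G.mul_mem (K_le hk) A_mem, h⟩

theorem flip (x : V) : ∃ p q : P, sec p q ∈ G ∧ q x = x ∧
    ∀ e w, ∃ w', p (e :: w) = (!e) :: w' ∧ w'.length = w.length := by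
  have h2 : sec (C * A * C) (A * D * A) ∈ G := by
    have h : sec C A ∈ G := A_sec _ _ ▸ G.mul_mem (G.mul_mem A_mem (B_eq ▸ B_mem)) A_mem
    have := G.mul_mem (G.mul_mem h (C_eq ▸ C_mem)) h
    rwa [sec_mul, sec_mul] at this
  obtain _ | ⟨_ | _, x⟩ := x
  · exact ⟨A, D, C_eq ▸ C_mem, rfl, fun e w => ⟨w, rfl, rfl⟩⟩
  · exact ⟨A, D, C_eq ▸ C_mem, rfl, fun e w => ⟨w, rfl, rfl⟩⟩
  · refine ⟨_, _, h2, rfl, fun e w => ?_⟩
    cases e
    · exact ⟨act .d (act .a w), rfl, by simp [act_len]⟩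
    · exact ⟨act .a (act .d w), rfl, by simp [act_len]⟩

theorem two0 (e : Bool) (x y1 y2 : V) (h : y1.length = y2.length) :
    ∃ g ∈ G, g ((!e) :: x) = (!e) :: x ∧ g (e :: y1) = e :: y2 := by
  obtain _ | ⟨e1, z1⟩ := y1
  · exact ⟨1, G.one_mem, rfl, by simpa [eq_comm] using h⟩
  obtain _ | ⟨e2, z2⟩ := y2
  · simp at h
  by_cases he : e1 = e2
  · subst he
    obtain ⟨k, hk, h⟩ := K_trans z1 z2 e1 (by simpa using h)
    exact ⟨sc e k 1, K_le (sc_K hk e), by simp, by simp [h]⟩
  · obtain rfl : e2 = !e1 := by cases e1 <;> cases e2 <;> simp_all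
    obtain ⟨p, q, hpq, hq, hp⟩ := flip x
    obtain ⟨w, hw, hl⟩ := hp e1 z1
    obtain ⟨k, hk, h⟩ := K_trans w z2 (!e1) (by simp at h; omega)
    exact ⟨sc e k 1 * sc e p q, G.mul_mem (K_le (sc_K hk e)) (sc_G hpq e), by simp [hq],
      by simp [hw, h]⟩

theorem liftV {g : P} (hg : g ∈ G) : ∀ w : V, ∃ h ∈ G, ∀ z, h (w ++ z) = w ++ g z
  | [] => ⟨g, hg, fun _ => rfl⟩
  | e :: w => by
    obtain ⟨h, hh, hz⟩ := liftV hg w
    obtain ⟨x, hx⟩ := lift0 hh
    exact ⟨sc e h x, sc_G hx e, fun z => by simp [hz]⟩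

theorem two (w : V) (e : Bool) (x y1 y2 : V) (h : y1.length = y2.length) :
    ∃ g ∈ G, g (w ++ (!e) :: x) = w ++ (!e) :: x ∧ g (w ++ e :: y1) = w ++ e :: y2 := by
  obtain ⟨g, hg, h1, h2⟩ := two0 e x y1 y2 h
  obtain ⟨h, hh, hz⟩ := liftV hg w
  exact ⟨h, hh, by rw [hz, h1], by rw [hz, h2]⟩

end Pool.Agent.H63.GG
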