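import Pool.Agent.H63.GG1

/-! Supports and cones are first-order definable in the Grigorchuk group. -/

set_option autoImplicit false

namespace Pool.Agent.H63.GG

open Pool.Agent.H72.GrigDefs Pool.Agent.H72.Grig

section preds

variable {M : Type} [Group M]

def cm (a b : M) : M := a * b * a⁻¹ * b⁻¹
def Com (a b : M) : Prop := a * b = b * a
def AD (g f : M) : Prop := Com g f ∧ ∀ h, ¬ Com f h → ∃ f1 f2, Com f1 g ∧ Com f2 g ∧
  ¬ cm f1 (cm f2 h) = 1 ∧ Com (cm f1 (cm f2 h)) g
def Sub (h f : M) : Prop := ∀ g, AD g f → Com h (g ^ 12)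
def Dis (f g : M) : Prop := ∀ h, Sub h f → Sub h g → h = 1
def Cone (f : M) : Prop := ¬ f = 1 ∧ ∀ h, Sub (h * f * h⁻¹) f ∨ Dis (h * f * h⁻¹) f

end preds

theorem Sup.inv {k : P} {v : V} (h : Sup k v) : Sup k⁻¹ v := fun u hu => by
  rw [Equiv.Perm.inv_eq_iff_eq, h u hu]

theorem Sup.pow {k : P} {v : V} (h : Sup k v) (n : ℕ) : Sup (k ^ n) v := fun u hu =>
  Equiv.Perm.pow_apply_eq_self_of_apply_eq_self (h u hu) n

theorem Sup.conj {k g : P} {v : V} (h : Sup k v) (hg : g ∈ G) : Sup (g * k * g⁻¹) (g v) := by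
  intro u hu
  have : k (g⁻¹ u) = g⁻¹ u := h _ fun h' => hu (by simpa using pre_map hg h')
  rw [Equiv.Perm.mul_apply, Equiv.Perm.mul_apply, this]
  simp

theorem not_pre {g : P} (hg : g ∈ G) {p u : V} (h : g p ≠ p) (hu : p <+: u) : ¬ g p <+: u :=
  fun h' => h (pre_eq h' hu (len_eq hg p))

theorem com_of {f g : G} (h : ∀ v, f.1 v = v ∨ g.1 v = v) : Com f g :=
  Subtype.ext (Equiv.Perm.Disjoint.commute h).eq

theorem not_com {k h : G} {p : V} (hs : Sup k.1 p) (hk : k ≠ 1) (hp : h.1 p ≠ p) : ¬ Com h k := by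
  intro hc
  have e : h.1 * k.1 * h.1⁻¹ = k.1 := by
    have := congrArg Subtype.val hc
    simp only [Subgroup.coe_mul] at this
    rw [this]; simp
  have h2 := hs.conj h.2
  rw [e] at h2
  refine hk (Subtype.ext (Equiv.ext fun u => ?_))
  by_cases hu : p <+: u
  · exact h2 u (not_pre h.2 hp hu)
  · exact hs u hu

/-- the element `T` placed at the vertex `v` -/
def tv (v : V) : G := ⟨atv v T, K_le (atv_K T_K v)⟩

theorem tv_sup (v : V) : Sup (tv v).1 v := atv_sup T v

theorem tv_mv (v : V) (e e' : Bool) (w : V) : (tv v).1 (v ++ e :: e' :: w) ≠ v ++ e :: e' :: w := by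
  obtain ⟨w', h⟩ := T_flip e e' w
  change atv v T _ ≠ _
  rw [atv_app, h]
  simp

theorem tv12 (v : V) : tv v ^ 12 ≠ 1 := fun h => by
  have := congrArg (fun g : G => g.1 (v ++ List.replicate 5 false)) h
  simp only [Subgroup.coe_pow, tv, atv_pow, Subgroup.coe_one, Equiv.Perm.one_apply,
    List.append_cancel_left_eq] at this
  exact T12 this

theorem tv_ne (v : V) : tv v ≠ 1 := fun h => tv12 v (by rw [h, one_pow])

theorem AD_of {g f : G} (H : ∀ v, f.1 v = v ∨ g.1 v = v) : AD g f := by
  refine ⟨com_of fun v => (H v).symm, fun h hh => ?_⟩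
  obtain ⟨v, hv⟩ : ∃ v, ¬ (f.1 v = v ∨ h.1 v = v) := not_forall.1 fun h' => hh (com_of h')
  push Not at hv
  have hg : ∀ k : G, Sup k.1 v → Com k g := fun k hk => com_of fun u => by
    by_cases hu : v <+: u
    · exact .inr ((H u).resolve_left (moved f.2 hv.1 hu))
    · exact .inl (hk u hu)
  set v1 := v ++ [false, false]
  have h1 : v <+: v1 := List.prefix_append _ _
  have hm : (tv v).1 v1 ≠ v1 := tv_mv v _ _ _
  have hc : (cm (tv v) h).1 v1 = (tv v).1 v1 := by
    have : (h.1 * (tv v).1⁻¹ * h.1⁻¹) v1 = v1 :=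
      (tv_sup v).inv.conj h.2 _ (not_pre h.2 hv.2 h1)
    simp only [cm, Subgroup.coe_mul, Subgroup.coe_inv, Equiv.Perm.mul_apply] at this ⊢
    rw [this]
  have hs := (tv_sup v1).inv.conj (cm (tv v) h).2
  rw [hc] at hs
  have hk : ∀ u, (cm (tv v1) (cm (tv v) h)).1 u =
      (tv v1).1 (((cm (tv v) h).1 * (tv v1).1⁻¹ * (cm (tv v) h).1⁻¹) u) := fun u => rfl
  have hv' : v <+: (tv v).1 v1 := by
    change v <+: atv v T _
    rw [atv_app]; exact List.prefix_append _ _
  refine ⟨tv v1, tv v, hg _ fun u hu => tv_sup v1 u fun h => hu (h1.trans h), hg _ (tv_sup v),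
    fun e => ?_, hg _ fun u hu => ?_⟩
  · have := hk (v1 ++ [false, false])
    rw [e, hs _ (not_pre (tv v).2 hm (List.prefix_append _ _))] at this
    exact tv_mv v1 _ _ _ this.symm
  · rw [hk, hs u fun h => hu (hv'.trans h), tv_sup v1 u fun h => hu (h1.trans h)]

theorem of_AD {g f : G} (H : AD g f) (p : V) : f.1 p = p ∨ (g ^ 12).1 p = p := by
  by_contra hp
  push Not at hp
  obtain ⟨f1, f2, h1, h2, hk, h3⟩ := H.2 (tv p) (not_com (tv_sup p) (tv_ne p) hp.1)
  set k := cm f1 (cm f2 (tv p))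
  obtain ⟨q, hq⟩ : ∃ q, k.1 q ≠ q := not_forall.1 fun h => hk (Subtype.ext (Equiv.ext h))
  let φ : Fin 4 → G := ![1, f2, f1, f1 * f2]
  have hφ : ∀ a, Com (φ a) g := by
    intro a
    fin_cases a
    · simp [φ, Com]
    · exact h2
    · exact h1
    · exact (Commute.mul_left h1 h2).eq
  have hc : ∀ u, ¬ p <+: u → ¬ f2.1 p <+: u → (cm f2 (tv p)).1 u = u := fun u a b => by
    change (f2.1 * (tv p).1 * f2.1⁻¹) ((tv p).1⁻¹ u) = u
    rw [(tv_sup p).inv u a, (tv_sup p).conj f2.2 u b]
  have hs : ∀ u, k.1 u ≠ u → ∃ a, (φ a).1 p <+: u := by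
    intro u hu
    by_contra hn
    push Not at hn
    apply hu
    have a0 := hc u (hn 0) (hn 1)
    have a1 := hc (f1.1⁻¹ u) (fun h => hn 2 (by simpa [φ] using pre_map f1.2 h))
      (fun h => hn 3 (by simpa [φ] using pre_map f1.2 h))
    change f1.1 ((cm f2 (tv p)).1 (f1.1⁻¹ ((cm f2 (tv p)).1⁻¹ u))) = u
    rw [show (cm f2 (tv p)).1⁻¹ u = u by rw [Equiv.Perm.inv_eq_iff_eq, a0], a1]
    simp
  have hi : ∀ i : Fin 5, ∃ a, (φ a).1 p <+: (g ^ i.1).1 q := fun i => hs _ fun e => hq (by
    have := congrArg (fun x : G => x.1 q) (Commute.pow_right h3 i.1).eq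
    simp only [Subgroup.coe_mul, Equiv.Perm.mul_apply] at this
    rw [e] at this
    exact ((g ^ i.1).1.injective this).symm)
  choose a ha using hi
  have key : ∀ i j : Fin 5, i < j → a i ≠ a j := by
    intro i j hij e
    obtain ⟨d, hd⟩ : ∃ d, j.1 = d + i.1 := ⟨j.1 - i.1, by have : i.1 < j.1 := hij; omega⟩
    have b1 := pre_map (g ^ d).2 (ha i)
    have b2 := ha j
    rw [← e, hd, pow_add] at b2
    have b3 := pre_eq b1 b2 (len_eq (g ^ d).2 _)
    have := congrArg (fun x : G => x.1 p) (Commute.pow_right (hφ (a i)) d).eq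
    simp only [Subgroup.coe_mul, Equiv.Perm.mul_apply] at this
    rw [b3] at this
    have b4 := (φ (a i)).1.injective this
    obtain ⟨c, hc⟩ : d ∣ 12 := by
      have : i.1 < j.1 := hij
      have := j.2
      have : d = 1 ∨ d = 2 ∨ d = 3 ∨ d = 4 := by omega
      rcases this with rfl | rfl | rfl | rfl <;> decide
    apply hp.2
    rw [hc, pow_mul, Subgroup.coe_pow]
    exact Equiv.Perm.pow_apply_eq_self_of_apply_eq_self b4 c
  obtain ⟨i, j, hij, e⟩ := Fintype.exists_ne_map_eq_of_card_lt a (by simp)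
  rcases lt_or_gt_of_ne hij with h | h
  · exact key i j h e
  · exact key j i h e.symm

def Act (f : G) (v : V) : Prop := ∃ w, f.1 (v ++ w) ≠ v ++ w
def Full (f : G) (v : V) : Prop := ∀ w, Act f (v ++ w)
def IsC (f : G) (v : V) : Prop := ∀ u, Act f u ↔ (u <+: v ∨ v <+: u)

theorem Act.pre {f : G} {u v : V} (h : Act f v) (h' : u <+: v) : Act f u := by
  obtain ⟨w, rfl⟩ := h'
  obtain ⟨w', h⟩ := h
  exact ⟨w ++ w', by rwa [← List.append_assoc]⟩

theorem full_iff {f : G} {v : V} : Full f v ↔ ∀ u, v <+: u → Act f u :=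
  ⟨fun h _ ⟨w, e⟩ => e ▸ h w, fun h _ => h _ (List.prefix_append _ _)⟩

theorem Full.act {f : G} {v : V} (h : Full f v) : Act f v := full_iff.1 h v List.prefix_rfl

theorem full_of_mv {f : G} {v : V} (h : f.1 v ≠ v) : Full f v :=
  fun w => ⟨[], moved f.2 h (by simp)⟩

theorem tv_isC (v : V) : IsC (tv v) v := by
  intro u
  constructor
  · rintro ⟨w, h⟩
    have : v <+: u ++ w := by_contra fun h' => h (tv_sup v _ h')
    exact List.prefix_or_prefix_of_prefix (List.prefix_append u w) this
  · have := full_iff.1 (full_of_mv (tv_mv v false false []))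
    have h2 : ∀ w, Act (tv v) (v ++ w) := by
      rintro (_ | ⟨e, _ | ⟨e', w⟩⟩)
      · exact ⟨[false, false], by simpa using tv_mv v false false []⟩
      · exact ⟨[false], by simpa using tv_mv v e false []⟩
      · exact ⟨[], by simpa using tv_mv v e e' w⟩
    rintro (h | ⟨w, rfl⟩)
    · exact (h2 []).pre (by simpa using h)
    · exact h2 w

theorem sub_iff {h f : G} : Sub h f ↔ ∀ v, Act h v → Act f v := by
  constructor
  · rintro H v ⟨w, hw⟩
    by_contra hf
    refine not_com (k := tv (v ++ w) ^ 12) ((tv_sup _).pow 12) (tv12 _) hw (H _ (AD_of fun u => ?_))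
    by_cases hu : v ++ w <+: u
    · obtain ⟨w', rfl⟩ := hu
      left
      by_contra h
      exact hf ⟨w ++ w', by rwa [← List.append_assoc]⟩
    · exact .inr (tv_sup _ u hu)
  · intro H g hg
    refine com_of fun p => ?_
    by_contra hp
    push Not at hp
    obtain ⟨w, hw⟩ := H p ⟨[], by simpa using hp.1⟩
    exact (of_AD hg _).elim hw (moved (g ^ 12).2 hp.2 (List.prefix_append _ _))

theorem IsC.sub {k f : G} {v : V} (hk : IsC k v) : Sub k f ↔ Full f v := by
  rw [sub_iff]
  refine ⟨fun h w => h _ ((hk _).2 (.inr (List.prefix_append _ _))), fun h u hu => ?_⟩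
  rcases (hk u).1 hu with h' | h'
  · exact h.act.pre h'
  · exact full_iff.1 h u h'

theorem exists_mv {h : G} (hh : ¬ h = 1) : ∃ p, h.1 p ≠ p :=
  not_forall.1 fun h' => hh (Subtype.ext (Equiv.ext h'))

theorem dis_iff {f g : G} : Dis f g ↔ ∀ v, Full f v → ¬ Full g v := by
  constructor
  · intro H v h1 h2
    exact tv_ne v (H _ ((tv_isC v).sub.2 h1) ((tv_isC v).sub.2 h2))
  · intro H h h1 h2
    by_contra hh
    obtain ⟨p, hp⟩ := exists_mv hh
    exact H p (fun w => sub_iff.1 h1 _ (full_of_mv hp w)) fun w => sub_iff.1 h2 _ (full_of_mv hp w)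

theorem act_conj {f h : G} {u : V} : Act (h * f * h⁻¹) (h.1 u) ↔ Act f u := by
  have key : ∀ (f h : G) u, Act f u → Act (h * f * h⁻¹) (h.1 u) := by
    rintro f h u ⟨w, hw⟩
    obtain ⟨w', e⟩ := pre_map h.2 (List.prefix_append u w)
    refine ⟨w', ?_⟩
    rw [e]
    simpa using hw
  refine ⟨fun H => ?_, key _ _ _⟩
  have := key _ h⁻¹ _ H
  simpa [mul_assoc] using this

theorem full_conj {f h : G} {u : V} (H : Full f u) : Full (h * f * h⁻¹) (h.1 u) := by
  refine full_iff.2 fun w hw => ?_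
  have : w = h.1 (h.1⁻¹ w) := by simp
  rw [this] at hw ⊢
  exact act_conj.2 (full_iff.1 H _ ((pre_iff h.2).1 hw))

theorem IsC.conj {f : G} {v : V} (H : IsC f v) (h : G) : IsC (h * f * h⁻¹) (h.1 v) := by
  intro w
  have : w = h.1 (h.1⁻¹ w) := by simp
  rw [this, act_conj, H, pre_iff h.2, pre_iff h.2]

theorem IsC.full {f : G} {v u : V} (H : IsC f v) : Full f u ↔ v <+: u := by
  constructor
  · intro h
    by_contra hn
    rcases (H _).1 h.act with ⟨_ | ⟨e, w⟩, rfl⟩ | h'
    · simp at hn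
    · rcases (H _).1 (h [!e]) with h' | h'
      · simp at h'
      · have := (List.prefix_append_right_inj u).1 h'
        simp at this
    · exact hn h'
  · exact fun h w => (H _).2 (.inr (h.trans (List.prefix_append _ _)))

theorem IsC.unique {f : G} {v u : V} (H : IsC f v) (H' : IsC f u) : v = u :=
  (H.full.1 (H'.full.2 List.prefix_rfl)).eq_of_length_le
    (H'.full.1 (H.full.2 List.prefix_rfl)).length_le

theorem split_pre : ∀ {u v : V}, ¬ u <+: v → ¬ v <+: u →
    ∃ w e x y, u = w ++ e :: x ∧ v = w ++ (!e) :: y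
  | [], _, h, _ => absurd List.nil_prefix h
  | _, [], _, h => absurd List.nil_prefix h
  | a :: u, b :: v, h, h' => by
    by_cases e : a = b
    · subst e
      obtain ⟨w, e, x, y, rfl, rfl⟩ := split_pre (u := u) (v := v) (by simpa using h)
        (by simpa using h')
      exact ⟨a :: w, e, x, y, rfl, rfl⟩
    · obtain rfl : b = !a := by cases a <;> cases b <;> simp_all
      exact ⟨[], a, u, v, rfl, rfl⟩

theorem cone_iff {f : G} : Cone f ↔ ∃ v, IsC f v := by
  constructor
  · rintro ⟨h1, h2⟩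
    have key : ∀ w e x y1 y2, Full f (w ++ (!e) :: x) → Full f (w ++ e :: y1) →
        Act f (w ++ e :: y2) := by
      intro w e x y1 y2 a1 a2
      obtain ⟨g, hg, b1, b2⟩ := two w e x (y1 ++ y2) (y2 ++ y1) (by simp [add_comm])
      rcases h2 ⟨g, hg⟩ with h | h
      · have := (full_conj (h := ⟨g, hg⟩) (full_iff.2 fun u hu => full_iff.1 a2 u
          (List.IsPrefix.trans (l₂ := w ++ e :: (y1 ++ y2)) (by simp) hu))).act
        simp only [b2] at this
        exact (sub_iff.1 h _ this).pre (by simp)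
      · have := full_conj (h := ⟨g, hg⟩) a1
        simp only [b1] at this
        exact absurd a1 (dis_iff.1 h _ this)
    classical
    have hex : ∃ n, ∃ v : V, v.length = n ∧ Full f v := by
      obtain ⟨p, hp⟩ := exists_mv h1
      exact ⟨_, p, rfl, full_of_mv hp⟩
    obtain ⟨v, hv, hf⟩ := Nat.find_spec hex
    refine ⟨v, fun u => ⟨fun ⟨w, hw⟩ => ?_, fun h => h.elim hf.act.pre (full_iff.1 hf u)⟩⟩
    by_contra hn
    push Not at hn
    obtain ⟨z, e, x, y, rfl, rfl⟩ := split_pre hn.1 hn.2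
    have hu := full_of_mv hw
    rw [List.append_assoc, List.cons_append] at hu
    refine Nat.find_min hex (m := z.length) (by rw [← hv]; simp) ⟨z, rfl, ?_⟩
    rintro (_ | ⟨e', w'⟩)
    · exact hf.act.pre (by simp)
    · by_cases he : e' = e
      · subst he
        exact key _ _ _ _ _ hf hu
      · obtain rfl : e' = !e := by cases e <;> cases e' <;> simp_all
        exact key z (!e) (x ++ w) y _ (by simpa using hu) hf
  · rintro ⟨v, hv⟩
    refine ⟨fun e => ?_, fun h => ?_⟩
    · obtain ⟨w, hw⟩ := (hv v).2 (.inl List.prefix_rfl)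
      exact hw (by rw [e]; rfl)
    · by_cases hh : h.1 v = v
      · left
        rw [(hv.conj h).sub, hh, hv.full]
      · right
        exact dis_iff.2 fun u h1 h2 => not_pre h.2 hh (hv.full.1 h2) ((hv.conj h).full.1 h1)

open Classical in
/-- the vertex coded by a group element -/
noncomputable def vx (f : G) : V := if h : ∃ v, IsC f v then h.choose else []

theorem IsC.vx {f : G} {v : V} (h : IsC f v) : vx f = v := by
  have h' : ∃ v, IsC f v := ⟨v, h⟩
  rw [GG.vx, dif_pos h']
  exact h'.choose_spec.unique h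

theorem Cone.isC {f : G} (h : Cone f) : IsC f (vx f) := by
  obtain ⟨v, hv⟩ := cone_iff.1 h
  rwa [hv.vx]

theorem vx_of_not {f : G} (h : ¬ Cone f) : vx f = [] := dif_neg fun h' => h (cone_iff.2 h')

theorem vx_tv (v : V) : vx (tv v) = v := (tv_isC v).vx

theorem vx_conj (f h : G) : vx (h * f * h⁻¹) = h.1 (vx f) := by
  by_cases hf : Cone f
  · exact (hf.isC.conj h).vx
  · rw [vx_of_not hf, vx_of_not fun h' => hf (cone_iff.2 ⟨_, by
      simpa [mul_assoc] using h'.isC.conj h⁻¹⟩)]
    exact (List.length_eq_zero_iff.1 (len_eq h.2 [])).symm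

section preds2

variable {M : Type} [Group M]

def Pre (x y : M) : Prop := (¬ Cone x ∨ ∀ z, Sub z x) ∨ (Cone x ∧ Cone y ∧ Sub y x)
def Lev (x y : M) : Prop := ∃ h, Pre x (h * y * h⁻¹)
def Ful (f x : M) : Prop := ∃ y, Cone y ∧ Pre x y ∧ Pre y x ∧ Sub y f

end preds2

theorem pre_sem {x y : G} : Pre x y ↔ vx x <+: vx y := by
  constructor
  · rintro ((h | h) | ⟨h1, h2, h⟩)
    · rw [vx_of_not h]; exact List.nil_prefix
    · by_cases hx : Cone x
      · exact (hx.isC.full.1 ((tv_isC []).sub.1 (h _))).trans List.nil_prefix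
      · rw [vx_of_not hx]; exact List.nil_prefix
    · exact h1.isC.full.1 (h2.isC.sub.1 h)
  · intro h
    by_cases hx : Cone x
    · by_cases hy : Cone y
      · exact .inr ⟨hx, hy, hy.isC.sub.2 (hx.isC.full.2 h)⟩
      · rw [vx_of_not hy] at h
        exact .inl (.inr fun z => sub_iff.2 fun v _ =>
          (hx.isC v).2 (.inr (h.trans List.nil_prefix)))
    · exact .inl (.inl hx)

theorem lev_sem {x y : G} : Lev x y ↔ (vx x).length ≤ (vx y).length := by
  constructor
  · rintro ⟨h, hh⟩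
    have := (pre_sem.1 hh).length_le
    rwa [vx_conj, len_eq h.2] at this
  · intro h
    obtain ⟨g, hg, e⟩ := G_trans (u := vx y)
      (v := vx x ++ List.replicate ((vx y).length - (vx x).length) false) (by simp; omega)
    refine ⟨⟨g, hg⟩, pre_sem.2 ?_⟩
    rw [vx_conj]
    exact e ▸ List.prefix_append _ _

theorem ful_sem {f x : G} : Ful f x ↔ Full f (vx x) := by
  constructor
  · rintro ⟨y, h1, h2, h3, h⟩
    rw [(pre_sem.1 h2).eq_of_length_le (pre_sem.1 h3).length_le]
    exact h1.isC.sub.1 h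
  · intro h
    exact ⟨tv (vx x), cone_iff.2 ⟨_, tv_isC _⟩, pre_sem.2 (by rw [vx_tv]),
      pre_sem.2 (by rw [vx_tv]), (tv_isC _).sub.2 h⟩

/-- `f` with spine `p` codes the pair `(i, j)` -/
def Rel (f : G) (p : V) (i j : ℕ) : Prop :=
  ∃ t v : V, t.length = i + 1 ∧ i + 1 ≤ p.length ∧ ¬ t <+: p ∧
    (∀ s : V, s <+: t → s.length ≤ i → s <+: p) ∧ t <+: v ∧ v.length = j ∧
      ∀ w, t <+: w → (Full f w ↔ v <+: w)

def F : ℕ → (ℕ → ℕ) → P
  | 0, _ => 1
  | L + 1, c => sec (atv (List.replicate (c 0) false) T) (F L fun i => c (i + 1))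

theorem F_K : ∀ L c, F L c ∈ K
  | 0, _ => K.one_mem
  | L + 1, c => by
    have := K.mul_mem (sc_K (atv_K T_K (List.replicate (c 0) false)) false)
      (sc_K (F_K L fun i => c (i + 1)) true)
    simpa [sc, sec_mul, F] using this

theorem F_app : ∀ L c i, i < L → ∀ w, F L c (List.replicate i true ++ false :: w) =
    List.replicate i true ++ false :: atv (List.replicate (c i) false) T w
  | L + 1, c, 0, _, w => rfl
  | L + 1, c, i + 1, h, w => by
    simp only [F, List.replicate_succ, List.cons_append, sec_t]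
    rw [F_app L _ i (by omega)]

theorem code (L : ℕ) (c : ℕ → ℕ) (hc : ∀ i < L, i + 1 ≤ c i) :
    ∃ f p, ∀ i j, Rel f p i j ↔ i < L ∧ j = c i := by
  let f : G := ⟨F L fun i => c i - (i + 1), K_le (F_K _ _)⟩
  have hf : ∀ i < L, ∀ w, List.replicate i true ++ [false] <+: w → (Full f w ↔
      List.replicate i true ++ false :: List.replicate (c i - (i + 1)) false <+: w) := by
    rintro i hi _ ⟨w, rfl⟩
    have : List.replicate i true ++ false :: List.replicate (c i - (i + 1)) false <+:
        List.replicate i true ++ [false] ++ w ↔ List.replicate (c i - (i + 1)) false <+: w := by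
      simp [List.prefix_append_right_inj]
    rw [this, ← (tv_isC _).full]
    simp only [Full, Act, f, List.append_assoc, List.cons_append, List.nil_append, F_app _ _ _ hi,
      tv, ne_eq, List.append_cancel_left_eq, List.cons.injEq, true_and]
  refine ⟨f, List.replicate L true, fun i j => ⟨?_, ?_⟩⟩
  · rintro ⟨t, v, h1, h2, h3, h4, h5, rfl, h6⟩
    have hi : i < L := by simpa using h2
    obtain rfl | ⟨s, e, rfl⟩ := t.eq_nil_or_concat'
    · simp at h1
    have hs : s.length = i := by simpa using h1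
    have hs' : s = List.replicate i true :=
      List.eq_replicate_iff.2 ⟨hs, fun b hb =>
        List.eq_of_mem_replicate ((h4 s (List.prefix_append _ _) hs.le).subset hb)⟩
    subst hs'
    cases e
    · have a1 := (hf i hi v h5).1 ((h6 v h5).2 List.prefix_rfl)
      have a2 := (h6 _ (by simp)).1 ((hf i hi _ (by simp)).2 List.prefix_rfl)
      have := a1.length_le
      have := a2.length_le
      have := hc i hi
      simp at *
      omega
    · exfalso
      apply h3
      rw [← List.replicate_succ', List.prefix_replicate_iff]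
      simpa using hi
  · rintro ⟨hi, rfl⟩
    refine ⟨List.replicate i true ++ [false], _, by simp, by simpa using hi, fun h => ?_,
      fun s h1 h2 => ?_, by simp, by have := hc i hi; simp; omega, hf i hi⟩
    · simpa using h.subset (show false ∈ _ by simp)
    · refine (List.prefix_of_prefix_length_le h1 (List.prefix_append _ _) (by simpa using h2)).trans ?_
      rw [List.prefix_replicate_iff]
      simpa using hi.le

end Pool.Agent.H63.GG
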