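import Pool.Agent.H63.GG0
import Pool.Agent.H63.GG2

/-! A definability kit for groups. -/

set_option autoImplicit false

namespace Pool.Agent.H63.GG

section defin

variable {M : Type} [Group M]

def Tm (f : (ℕ → M) → M) : Prop := ∃ u : List (ℕ × Bool), ∀ ρ, val ρ u = f ρ

def Df (P : (ℕ → M) → Prop) : Prop := ∃ φ : Fm, ∀ ρ, φ.Sat ρ ↔ P ρ

variable {f f' f'' : (ℕ → M) → M} {P P' : (ℕ → M) → Prop}

theorem Tm.var (i : ℕ) : Tm fun ρ : ℕ → M => ρ i := ⟨[(i, true)], by simp [val]⟩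
theorem Tm.one : Tm fun _ : ℕ → M => 1 := ⟨[], by simp [val]⟩
theorem Tm.mul (h : Tm f) (h' : Tm f') : Tm fun ρ => f ρ * f' ρ := by
  obtain ⟨u, hu⟩ := h
  obtain ⟨v, hv⟩ := h'
  exact ⟨u ++ v, fun ρ => by rw [val, List.map_append, List.prod_append]; exact congrArg₂ _ (hu ρ) (hv ρ)⟩
theorem Tm.inv (h : Tm f) : Tm fun ρ => (f ρ)⁻¹ := by
  obtain ⟨u, hu⟩ := h
  refine ⟨(u.map fun x => (x.1, !x.2)).reverse, fun ρ => ?_⟩
  beta_reduce
  rw [← hu, val, val, List.prod_inv_reverse, List.map_reverse, List.map_map, List.map_map]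
  congr 3
  funext ⟨i, b⟩
  cases b <;> simp
theorem Tm.pow (h : Tm f) (n : ℕ) : Tm fun ρ => f ρ ^ n := by
  induction n with
  | zero => simpa using Tm.one
  | succ n ih => simpa [pow_succ] using ih.mul h
theorem Tm.ren (h : Tm f) (σ : ℕ → ℕ) : Tm fun ρ => f fun i => ρ (σ i) := by
  obtain ⟨u, hu⟩ := h
  refine ⟨u.map fun x => (σ x.1, x.2), fun ρ => ?_⟩
  beta_reduce
  rw [← hu, val, val, List.map_map]
  rfl
theorem Tm.s1 (h : Tm f) : Tm fun ρ => f fun i => ρ (i + 1) := h.ren _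
theorem Tm.cm (h : Tm f) (h' : Tm f') : Tm fun ρ => cm (f ρ) (f' ρ) :=
  ((h.mul h').mul h.inv).mul h'.inv
theorem Tm.cj (h : Tm f) (h' : Tm f') : Tm fun ρ => f ρ * f' ρ * (f ρ)⁻¹ := (h.mul h').mul h.inv

theorem Df.eq (h : Tm f) (h' : Tm f') : Df fun ρ => f ρ = f' ρ := by
  obtain ⟨u, hu⟩ := h
  obtain ⟨v, hv⟩ := h'
  exact ⟨.eq u v, fun ρ => by rw [Fm.Sat, hu, hv]⟩
theorem Df.not (h : Df P) : Df fun ρ => ¬ P ρ := by
  obtain ⟨φ, h⟩ := h
  exact ⟨.neg φ, fun ρ => by rw [Fm.Sat, h]⟩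
theorem Df.and (h : Df P) (h' : Df P') : Df fun ρ => P ρ ∧ P' ρ := by
  obtain ⟨φ, h⟩ := h
  obtain ⟨ψ, h'⟩ := h'
  exact ⟨.and φ ψ, fun ρ => by rw [Fm.Sat, h, h']⟩
theorem Df.of_iff (h : Df P) (e : ∀ ρ, P ρ ↔ P' ρ) : Df P' := by
  obtain ⟨φ, h⟩ := h
  exact ⟨φ, fun ρ => (h ρ).trans (e ρ)⟩
theorem Df.or (h : Df P) (h' : Df P') : Df fun ρ => P ρ ∨ P' ρ :=
  (h.not.and h'.not).not.of_iff fun _ => by tauto
theorem Df.imp (h : Df P) (h' : Df P') : Df fun ρ => P ρ → P' ρ :=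
  (h.and h'.not).not.of_iff fun _ => by tauto
theorem Df.iff (h : Df P) (h' : Df P') : Df fun ρ => P ρ ↔ P' ρ :=
  ((h.imp h').and (h'.imp h)).of_iff fun _ => by tauto
theorem Df.all {R : (ℕ → M) → M → Prop} (h : Df fun ρ => R (fun i => ρ (i + 1)) (ρ 0)) :
    Df fun ρ => ∀ t, R ρ t := by
  obtain ⟨φ, h⟩ := h
  exact ⟨.all φ, fun ρ => forall_congr' fun t => h _⟩
theorem Df.ex {R : (ℕ → M) → M → Prop} (h : Df fun ρ => R (fun i => ρ (i + 1)) (ρ 0)) :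
    Df fun ρ => ∃ t, R ρ t :=
  (Df.all (R := fun ρ t => ¬ R ρ t) h.not).not.of_iff fun _ => by simp
theorem Df.exL {I : Type} {R : I → (ℕ → M) → Prop} (h : ∀ i, Df (R i)) (l : List I) :
    Df fun ρ => ∃ i ∈ l, R i ρ := by
  induction l with
  | nil => exact (Df.eq Tm.one Tm.one).not.of_iff fun _ => by simp
  | cons a l ih => exact ((h a).or ih).of_iff fun _ => by simp
theorem Df.exF {I : Type} [Finite I] {R : I → (ℕ → M) → Prop} (h : ∀ i, Df (R i)) :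
    Df fun ρ => ∃ i, R i ρ := by
  have := Fintype.ofFinite I
  exact (Df.exL h Finset.univ.toList).of_iff fun _ => by simp

theorem Df.com (h : Tm f) (h' : Tm f') : Df fun ρ => Com (f ρ) (f' ρ) := .eq (h.mul h') (h'.mul h)

theorem Df.ad (h : Tm f) (h' : Tm f') : Df fun ρ => AD (f ρ) (f' ρ) :=
  (Df.com h h').and <| .all <| (Df.com h'.s1 (.var 0)).not.imp <| .ex <| .ex <|
    (Df.com (.var 1) h.s1.s1.s1).and <| (Df.com (.var 0) h.s1.s1.s1).and <|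
    (Df.eq ((Tm.var 1).cm ((Tm.var 0).cm (.var 2))) .one).not.and <|
    .com ((Tm.var 1).cm ((Tm.var 0).cm (.var 2))) h.s1.s1.s1

theorem Df.sub (h : Tm f) (h' : Tm f') : Df fun ρ => Sub (f ρ) (f' ρ) :=
  .all <| (Df.ad (.var 0) h'.s1).imp (.com h.s1 ((Tm.var 0).pow 12))

theorem Df.dis (h : Tm f) (h' : Tm f') : Df fun ρ => Dis (f ρ) (f' ρ) :=
  .all <| (Df.sub (.var 0) h.s1).imp <| (Df.sub (.var 0) h'.s1).imp (.eq (.var 0) .one)

theorem Df.cone (h : Tm f) : Df fun ρ => Cone (f ρ) :=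
  (Df.eq h .one).not.and <| .all <| (Df.sub ((Tm.var 0).cj h.s1) h.s1).or
    (.dis ((Tm.var 0).cj h.s1) h.s1)

theorem Df.pre (h : Tm f) (h' : Tm f') : Df fun ρ => Pre (f ρ) (f' ρ) :=
  ((Df.cone h).not.or (.all (.sub (.var 0) h.s1))).or <|
    (Df.cone h).and <| (Df.cone h').and (.sub h' h)

theorem Df.lev (h : Tm f) (h' : Tm f') : Df fun ρ => Lev (f ρ) (f' ρ) :=
  .ex (.pre h.s1 ((Tm.var 0).cj h'.s1))

theorem Df.ful (h : Tm f) (h' : Tm f') : Df fun ρ => Ful (f ρ) (f' ρ) :=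
  .ex <| (Df.cone (.var 0)).and <| (Df.pre h'.s1 (.var 0)).and <| (Df.pre (.var 0) h'.s1).and <|
    .sub (.var 0) h.s1

end defin

section sent

theorem Fm.Bd.mono : ∀ {φ : Fm} {m n : ℕ}, φ.Bd m → m ≤ n → φ.Bd n
  | .eq _ _, _, _, h, e => fun i hi => (h i hi).trans_le e
  | .neg φ, _, _, h, e => Fm.Bd.mono (φ := φ) h e
  | .and _ _, _, _, h, e => ⟨h.1.mono e, h.2.mono e⟩
  | .all φ, _, _, h, e => Fm.Bd.mono (φ := φ) h (Nat.succ_le_succ e)

theorem Fm.exists_bd : ∀ φ : Fm, ∃ n, φ.Bd n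
  | .eq u v => by
    refine ⟨((u ++ v).map Prod.fst).sum + 1, fun i hi => Nat.lt_succ_of_le ?_⟩
    exact List.le_sum_of_mem (List.mem_map.2 ⟨_, hi, rfl⟩)
  | .neg φ => φ.exists_bd
  | .and φ ψ => by
    obtain ⟨m, hm⟩ := φ.exists_bd
    obtain ⟨n, hn⟩ := ψ.exists_bd
    exact ⟨m + n, hm.mono (by omega), hn.mono (by omega)⟩
  | .all φ => by
    obtain ⟨m, hm⟩ := φ.exists_bd
    exact ⟨m, hm.mono (by omega)⟩

def allN : ℕ → Fm → Fm
  | 0, φ => φ
  | n + 1, φ => allN n φ.all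

theorem allN_bd : ∀ (n k : ℕ) (φ : Fm), φ.Bd (k + n) → (allN n φ).Bd k
  | 0, _, _, h => h
  | n + 1, k, φ, h => allN_bd n k φ.all h

theorem allN_sat {M : Type} [Group M] :
    ∀ (n : ℕ) (φ : Fm), (∀ ρ : ℕ → M, φ.Sat ρ) → ∀ ρ : ℕ → M, (allN n φ).Sat ρ
  | 0, _, h => h
  | n + 1, φ, h => allN_sat n φ.all fun _ _ => h _

theorem allN_sat' {M : Type} [Group M] :
    ∀ (n : ℕ) (φ : Fm) (ρ : ℕ → M), (allN n φ).Sat ρ → ∃ ρ : ℕ → M, φ.Sat ρ
  | 0, _, ρ, h => ⟨ρ, h⟩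
  | n + 1, φ, ρ, h => by
    obtain ⟨ρ', h⟩ := allN_sat' n φ.all ρ h
    exact ⟨_, h 1⟩

theorem allN_code : ∀ (n : ℕ) {F : ℕ → Fm}, (Primrec fun m => (F m).code) →
    Primrec fun m => (allN n (F m)).code
  | 0, _, h => h
  | n + 1, F, h => allN_code n (F := fun m => (F m).all) (Primrec₂.natPair.comp (.const 3) h)

theorem Fm.code_inj : ∀ {φ ψ : Fm}, φ.code = ψ.code → φ = ψ := by
  intro φ
  induction φ with
  | eq u v =>
    intro ψ h
    cases ψ <;> simp only [Fm.code, Nat.pair_eq_pair] at h <;> try omega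
    obtain ⟨rfl, rfl⟩ := Prod.mk.inj (Encodable.encode_injective h.2)
    rfl
  | neg φ ih =>
    intro ψ h
    cases ψ <;> simp only [Fm.code, Nat.pair_eq_pair] at h <;> try omega
    rw [ih h.2]
  | and φ φ' ih ih' =>
    intro ψ h
    cases ψ <;> simp only [Fm.code, Nat.pair_eq_pair] at h <;> try omega
    rw [ih h.2.1, ih' h.2.2]
  | all φ ih =>
    intro ψ h
    cases ψ <;> simp only [Fm.code, Nat.pair_eq_pair] at h <;> try omega
    rw [ih h.2]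

def num (z s : Fm) : ℕ → Fm
  | 0 => z
  | n + 1 => .neg (.all (.neg (.and (num z s n) s)))

theorem num_code (z s : Fm) : Primrec fun n => (num z s n).code := by
  refine (Primrec.nat_rec₁ (f := fun _ c => Nat.pair 1 (Nat.pair 3 (Nat.pair 1 (Nat.pair 2
    (Nat.pair c s.code))))) z.code (Primrec₂.natPair.comp (.const 1) <|
      Primrec₂.natPair.comp (.const 3) <| Primrec₂.natPair.comp (.const 1) <|
      Primrec₂.natPair.comp (.const 2) <|
      Primrec₂.natPair.comp Primrec.snd (.const _)).to₂).of_eq fun n => ?_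
  induction n with
  | zero => rfl
  | succ n ih => simp only [num, Fm.code, ← ih]

theorem num_bd {z s : Fm} {b : ℕ} (hz : z.Bd b) (hs : s.Bd b) : ∀ n, (num z s n).Bd b
  | 0 => hz
  | n + 1 => ⟨(num_bd hz hs n).mono (by omega), hs.mono (by omega)⟩

/-- If the numbers are interpreted by a surjection `ℓ` with zero and successor definable, a
definable set of numbers reduces to the theory. -/
theorem reduce {M : Type} [Group M] (ℓ : M → ℕ) (hℓ : Function.Surjective ℓ)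
    (hz : Df fun ρ => ℓ (ρ 0) = 0) (hs : Df fun ρ => ℓ (ρ 0) + 1 = ℓ (ρ 1)) {S : ℕ → Prop}
    (hS : Df fun ρ => S (ℓ (ρ 0))) {r : ℕ → ℕ} (hr : Primrec r) (h : ComputablePred (Theory M)) :
    ComputablePred fun n => S (r n) := by
  obtain ⟨z, hz⟩ := hz
  obtain ⟨s, hs⟩ := hs
  obtain ⟨ψ, hψ⟩ := hS
  obtain ⟨b, hb, hb', hb''⟩ := (Fm.and z (.and s ψ)).exists_bd
  have hn : ∀ n (ρ : ℕ → M), (num z s n).Sat ρ ↔ ℓ (ρ 0) = n := by
    intro n
    induction n with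
    | zero => exact hz
    | succ n ih =>
      intro ρ
      simp only [num, Fm.Sat, ih, hs, push, not_forall, not_not]
      refine ⟨fun ⟨_, a, b⟩ => by omega, fun e => ?_⟩
      obtain ⟨t, ht⟩ := hℓ n
      exact ⟨t, ht, by omega⟩
  let F : ℕ → Fm := fun n => .neg (.and (num z s (r n)) (.neg ψ))
  have hF : ∀ n (ρ : ℕ → M), (F n).Sat ρ ↔ (ℓ (ρ 0) = r n → S (ℓ (ρ 0))) := by
    intro n ρ
    simp [F, Fm.Sat, hn, hψ]
  have key : ∀ n, Theory M (allN b (F n).all).code ↔ S (r n) := by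
    intro n
    constructor
    · rintro ⟨φ, h1, -, h3⟩
      rw [Fm.code_inj h1] at h3
      obtain ⟨ρ, hρ⟩ := allN_sat' _ _ _ h3
      obtain ⟨t, ht⟩ := hℓ (r n)
      exact ht ▸ (hF n _).1 (hρ t) ht
    · intro h
      exact ⟨_, rfl, allN_bd _ _ _ ⟨(num_bd hb hb' _).mono (by omega), hb''.mono (by omega)⟩,
        allN_sat b (F n).all (fun ρ t => (hF n _).2 fun e => e ▸ h) _⟩
  have hp : Primrec fun n => (allN b (F n).all).code := by
    refine allN_code b (F := fun n => (F n).all) ?_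
    exact Primrec₂.natPair.comp (.const 3) <|
      Primrec₂.natPair.comp (.const 1) <| Primrec₂.natPair.comp (.const 2) <|
      Primrec₂.natPair.comp ((num_code z s).comp hr) (.const _)
  obtain ⟨d, hd⟩ := h
  exact ComputablePred.of_eq ⟨fun n => d _, hd.comp hp.to_comp⟩ key

end sent

end Pool.Agent.H63.GG
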