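import Pool.Agent.H63.GG3
import Pool.Agent.H30.MulM

/-! Undecidability of the first-order theory of the Grigorchuk group. -/

set_option autoImplicit false

namespace Pool.Agent.H63.GG

open Pool.Agent.H72.GrigDefs Pool.Agent.H30.MulM

def VT (F : (ℕ → G) → V) : Prop := ∃ f, Tm f ∧ ∀ ρ, vx (f ρ) = F ρ
def NT (a : (ℕ → G) → ℕ) : Prop := ∃ f, Tm f ∧ ∀ ρ, (vx (f ρ)).length = a ρ

variable {f : (ℕ → G) → G} {u v : (ℕ → G) → V} {a b c : (ℕ → G) → ℕ}

theorem VT.var (i : ℕ) : VT fun ρ => vx (ρ i) := ⟨_, .var i, fun _ => rfl⟩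
theorem NT.var (i : ℕ) : NT fun ρ => (vx (ρ i)).length := ⟨_, .var i, fun _ => rfl⟩
theorem VT.s1 (h : VT u) : VT fun ρ => u fun i => ρ (i + 1) :=
  let ⟨_, h1, h2⟩ := h; ⟨_, h1.s1, fun _ => h2 _⟩
theorem NT.s1 (h : NT a) : NT fun ρ => a fun i => ρ (i + 1) :=
  let ⟨_, h1, h2⟩ := h; ⟨_, h1.s1, fun _ => h2 _⟩
theorem VT.len (h : VT u) : NT fun ρ => (u ρ).length :=
  let ⟨_, h1, h2⟩ := h; ⟨_, h1, fun _ => by rw [h2]⟩

theorem vx_surj : Function.Surjective vx := fun v => ⟨tv v, vx_tv v⟩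
theorem len_surj : Function.Surjective fun x => (vx x).length := fun n =>
  ⟨tv (List.replicate n false), by simp [vx_tv]⟩

theorem Df.allV {R : (ℕ → G) → V → Prop} (h : Df fun ρ => R (fun i => ρ (i + 1)) (vx (ρ 0))) :
    Df fun ρ => ∀ t, R ρ t :=
  (Df.all (R := fun ρ t => R ρ (vx t)) h).of_iff fun _ => vx_surj.forall.symm
theorem Df.exV {R : (ℕ → G) → V → Prop} (h : Df fun ρ => R (fun i => ρ (i + 1)) (vx (ρ 0))) :
    Df fun ρ => ∃ t, R ρ t :=
  (Df.ex (R := fun ρ t => R ρ (vx t)) h).of_iff fun _ => vx_surj.exists.symm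
theorem Df.allN {R : (ℕ → G) → ℕ → Prop}
    (h : Df fun ρ => R (fun i => ρ (i + 1)) (vx (ρ 0)).length) : Df fun ρ => ∀ t, R ρ t :=
  (Df.all (R := fun ρ t => R ρ (vx t).length) h).of_iff fun _ => len_surj.forall.symm
theorem Df.exN {R : (ℕ → G) → ℕ → Prop}
    (h : Df fun ρ => R (fun i => ρ (i + 1)) (vx (ρ 0)).length) : Df fun ρ => ∃ t, R ρ t :=
  (Df.ex (R := fun ρ t => R ρ (vx t).length) h).of_iff fun _ => len_surj.exists.symm

theorem Df.preV (h : VT u) (h' : VT v) : Df fun ρ => u ρ <+: v ρ :=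
  let ⟨_, h1, h2⟩ := h; let ⟨_, h3, h4⟩ := h'
  (Df.pre h1 h3).of_iff fun _ => by rw [pre_sem, h2, h4]
theorem Df.le (h : NT a) (h' : NT b) : Df fun ρ => a ρ ≤ b ρ :=
  let ⟨_, h1, h2⟩ := h; let ⟨_, h3, h4⟩ := h'
  (Df.lev h1 h3).of_iff fun _ => by rw [lev_sem, h2, h4]
theorem Df.full (h : Tm f) (h' : VT v) : Df fun ρ => Full (f ρ) (v ρ) :=
  let ⟨_, h3, h4⟩ := h'
  (Df.ful h h3).of_iff fun _ => by rw [ful_sem, h4]
theorem Df.lt (h : NT a) (h' : NT b) : Df fun ρ => a ρ < b ρ :=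
  (Df.le h' h).not.of_iff fun _ => not_le
theorem Df.eqN (h : NT a) (h' : NT b) : Df fun ρ => a ρ = b ρ :=
  ((Df.le h h').and (.le h' h)).of_iff fun _ => by omega
theorem Df.zero (h : NT a) : Df fun ρ => a ρ = 0 :=
  (Df.allN (R := fun ρ n => a ρ ≤ n) (.le h.s1 (.var 0))).of_iff fun _ =>
    ⟨fun h => Nat.le_zero.1 (h 0), fun h _ => by omega⟩
theorem Df.succ (h : NT a) (h' : NT b) : Df fun ρ => a ρ + 1 = b ρ :=
  ((Df.lt h h').and (Df.allN (R := fun ρ n => a ρ < n → b ρ ≤ n)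
    ((Df.lt h.s1 (.var 0)).imp (.le h'.s1 (.var 0))))).of_iff fun ρ =>
    ⟨fun h => by have := h.2 (a ρ + 1) (by omega); omega, fun h => ⟨by omega, fun _ _ => by omega⟩⟩

theorem Df.rel (h : Tm f) (hv : VT v) (ha : NT a) (hb : NT b) :
    Df fun ρ => Rel (f ρ) (v ρ) (a ρ) (b ρ) :=
  .exV <| .exV <| ((Df.succ ha.s1.s1 (.var 1)).of_iff fun _ => eq_comm).and <|
    (Df.lt ha.s1.s1 hv.s1.s1.len).and <| (Df.preV (.var 1) hv.s1.s1).not.and <|
    (Df.allV <| (Df.preV (.var 0) (.var 2)).imp <| (Df.le (.var 0) ha.s1.s1.s1).imp <|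
      .preV (.var 0) hv.s1.s1.s1).and <| (Df.preV (.var 1) (.var 0)).and <|
    (Df.eqN (.var 0) hb.s1.s1).and <| .allV <| (Df.preV (.var 2) (.var 0)).imp <|
      (Df.full h.s1.s1.s1 (.var 0)).iff (.preV (.var 1) (.var 0))

def AddF (a b c : ℕ) : Prop :=
  ∃ (f : G) (p : V), (∃ c1, c + 1 = c1 ∧ Rel f p b c1) ∧
    (∀ i i' j, i + 1 = i' → Rel f p i' j → ∃ j', j' + 1 = j ∧ Rel f p i j') ∧
    ∀ i j, i = 0 → Rel f p i j → a + 1 = j

theorem addF_iff {a b c : ℕ} : AddF a b c ↔ a + b = c := by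
  constructor
  · rintro ⟨f, p, ⟨_, rfl, h1⟩, h2, h3⟩
    have : ∀ i j, Rel f p i j → a + 1 + i = j := by
      intro i
      induction i with
      | zero => exact fun j h => h3 0 j rfl h
      | succ i ih =>
        intro j h
        obtain ⟨j', rfl, h'⟩ := h2 i _ j rfl h
        have := ih j' h'
        omega
    have := this _ _ h1
    omega
  · rintro rfl
    obtain ⟨f, p, h⟩ := code (b + 1) (fun i => a + 1 + i) fun i _ => by omega
    simp only [AddF]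
    refine ⟨f, p, ⟨_, rfl, (h _ _).2 ⟨by omega, by omega⟩⟩, ?_, ?_⟩
    · rintro i _ j rfl h'
      obtain ⟨h1, rfl⟩ := (h _ _).1 h'
      exact ⟨a + 1 + i, rfl, (h _ _).2 ⟨by omega, rfl⟩⟩
    · rintro _ j rfl h'
      exact ((h _ _).1 h').2.symm

theorem Df.add (h : NT a) (h' : NT b) (h'' : NT c) : Df fun ρ => a ρ + b ρ = c ρ := by
  refine Df.of_iff (P := fun ρ => AddF (a ρ) (b ρ) (c ρ)) ?_ fun _ => addF_iff
  exact .ex <| .exV <| (Df.exN <| (Df.succ h''.s1.s1.s1 (.var 0)).and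
      (.rel (.var 2) (.var 1) h'.s1.s1.s1 (.var 0))).and <|
    (Df.allN <| .allN <| .allN <| (Df.succ (.var 2) (.var 1)).imp <|
      (Df.rel (.var 4) (.var 3) (.var 1) (.var 0)).imp <| .exN <|
      (Df.succ (.var 0) (.var 1)).and (.rel (.var 5) (.var 4) (.var 3) (.var 0))).and <|
    .allN <| .allN <| (Df.zero (.var 1)).imp <| (Df.rel (.var 3) (.var 2) (.var 1) (.var 0)).imp <|
      .succ h.s1.s1.s1.s1 (.var 0)

theorem Df.addc (k : ℕ) : ∀ {a b : (ℕ → G) → ℕ}, NT a → NT b → Df fun ρ => a ρ + k = b ρ := by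
  induction k with
  | zero => exact fun h h' => .eqN h h'
  | succ k ih =>
    intro a b h h'
    exact (Df.exN (R := fun ρ n => a ρ + k = n ∧ n + 1 = b ρ)
      ((ih h.s1 (.var 0)).and (.succ (.var 0) h'.s1))).of_iff fun _ => by simp [add_assoc]

theorem Df.mulc (k : ℕ) : ∀ {a b : (ℕ → G) → ℕ}, NT a → NT b → Df fun ρ => a ρ * k = b ρ := by
  induction k with
  | zero => exact fun h h' => (Df.zero h').of_iff fun _ => by simp [eq_comm]
  | succ k ih =>
    intro a b h h'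
    exact (Df.exN (R := fun ρ n => a ρ * k = n ∧ n + a ρ = b ρ)
      ((ih h.s1 (.var 0)).and (.add (.var 0) h.s1 h'.s1))).of_iff fun _ => by simp [mul_add]

theorem Df.lin (k i : ℕ) (h : NT a) (h' : NT b) : Df fun ρ => a ρ * k + i = b ρ :=
  (Df.exN (R := fun ρ n => a ρ * k = n ∧ n + i = b ρ)
    ((Df.mulc k h.s1 (.var 0)).and (.addc i (.var 0) h'.s1))).of_iff fun _ => by simp

theorem Df.ok (k p : ℕ) (h : NT a) (h' : NT b) : Df fun ρ => ok k p (a ρ) (b ρ) := by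
  unfold Pool.Agent.H30.MulM.ok
  split_ifs
  · exact (Df.mulc p h h').of_iff fun _ => by rw [mul_comm, eq_comm]
  · exact (Df.mulc p h' h).of_iff fun _ => by rw [mul_comm, eq_comm]
  · exact (Df.eqN h' h).and ((Df.exN (R := fun ρ n => n * p = a ρ)
      (.mulc p (.var 0) h.s1)).of_iff fun _ => by
        simp [dvd_def, mul_comm, eq_comm]).not

section machine

variable {Q : Type} (ins : Q → Bool → Option Q × ℕ × ℕ) (K : ℕ) (idx : Option Q → ℕ)

def Step (m m' : ℕ) : Prop :=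
  ∃ sb : Q × Bool, ∃ N N', N * K + idx (some sb.1) = m ∧ N' * K + idx (ins sb.1 sb.2).1 = m' ∧
    ok (ins sb.1 sb.2).2.1 ((ins sb.1 sb.2).2.2 + 1) N N'

def Psi (m : ℕ) : Prop :=
  ∃ (f : G) (p : V) (B : ℕ), (∃ i j, Rel f p i j ∧ B + m = j) ∧ ∀ i j m, Rel f p i j → B + m = j →
    (∃ N, N * K + idx none = m) ∨
      ∃ i' j' m', i' < i ∧ Rel f p i' j' ∧ B + m' = j' ∧ Step ins K idx m m'

theorem Df.step [Finite Q] (h : NT a) (h' : NT b) : Df fun ρ => Step ins K idx (a ρ) (b ρ) :=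
  Df.exF fun _ => .exN <| .exN <| (Df.lin _ _ (.var 1) h.s1.s1).and <|
    (Df.lin _ _ (.var 0) h'.s1.s1).and <| .ok _ _ (.var 1) (.var 0)

theorem Df.psi [Finite Q] : Df fun ρ : ℕ → G => Psi ins K idx (vx (ρ 0)).length :=
  .ex <| .exV <| .exN <| (Df.exN <| .exN <| (Df.rel (.var 4) (.var 3) (.var 1) (.var 0)).and
      (.add (.var 2) (.var 5) (.var 0))).and <|
    .allN <| .allN <| .allN <| (Df.rel (.var 5) (.var 4) (.var 2) (.var 1)).imp <|
      (Df.add (.var 3) (.var 0) (.var 1)).imp <| (Df.exN (.lin _ _ (.var 0) (.var 1))).or <|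
      .exN <| .exN <| .exN <| (Df.lt (.var 2) (.var 5)).and <|
      (Df.rel (.var 8) (.var 7) (.var 2) (.var 1)).and <| (Df.add (.var 6) (.var 0) (.var 1)).and <|
      .step ins K idx (.var 3) (.var 0)

variable {ins K idx}

theorem dec (hK : ∀ o, idx o < K) (hi : Function.Injective idx) {N N' : ℕ} {o o' : Option Q}
    (h : N * K + idx o = N' * K + idx o') : N = N' ∧ o = o' := by
  have h1 := congrArg (· % K) h
  simp only [Nat.mul_add_mod_self_right, Nat.mod_eq_of_lt (hK _)] at h1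
  obtain rfl := hi h1
  have := hK o
  exact ⟨Nat.eq_of_mul_eq_mul_right (by omega) (Nat.add_right_cancel h), rfl⟩

theorem seq {o : Option Q} {N : ℕ} (h : Halt ins o N) : ∃ (L : ℕ) (c : ℕ → ℕ),
    c L = N * K + idx o ∧ ∀ i ≤ L, (∃ N, N * K + idx none = c i) ∨
      ∃ i' < i, Step ins K idx (c i) (c i') := by
  induction h with
  | stop N => exact ⟨0, fun _ => N * K + idx none, rfl, fun _ _ => .inl ⟨N, rfl⟩⟩
  | @step s N N' b hok _ ih =>
    obtain ⟨L, c, h1, h2⟩ := ih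
    refine ⟨L + 1, fun i => if i ≤ L then c i else N * K + idx (some s), by simp, fun i hi => ?_⟩
    by_cases hL : i ≤ L
    · rcases h2 i hL with h | ⟨i', h, h'⟩
      · exact .inl (by simpa [hL] using h)
      · exact .inr ⟨i', h, by simpa [hL, show i' ≤ L by omega] using h'⟩
    · exact .inr ⟨L, by omega, (s, b), N, N', by simp [hL], by simp [h1], hok⟩

theorem psi_iff (hK : ∀ o, idx o < K) (hi : Function.Injective idx) (o : Option Q) (N : ℕ) :
    Psi ins K idx (N * K + idx o) ↔ Halt ins o N := by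
  constructor
  · rintro ⟨f, p, B, ⟨i, _, h1, rfl⟩, h2⟩
    induction i using Nat.strong_induction_on generalizing o N with | _ i ih
    rcases h2 i _ _ h1 rfl with ⟨N', h⟩ | ⟨i', _, _, hlt, h3, rfl, ⟨s, b⟩, N1, N2, e, rfl, hok⟩
    · rw [← (dec hK hi h).2]
      exact .stop _
    · obtain ⟨rfl, rfl⟩ := dec hK hi e
      exact .step b hok (ih i' hlt _ _ h3)
  · intro h
    obtain ⟨L, c, h1, h2⟩ := seq (K := K) (idx := idx) h
    obtain ⟨f, p, h⟩ := code (L + 1) (fun i => L + 1 + c i) fun i _ => by omega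
    refine ⟨f, p, L + 1, ⟨L, _, (h _ _).2 ⟨by omega, rfl⟩, by rw [h1]⟩, fun i j m h3 e => ?_⟩
    obtain ⟨h4, rfl⟩ := (h _ _).1 h3
    obtain rfl : m = c i := by omega
    rcases h2 i (by omega) with h | ⟨i', h5, h6⟩
    · exact .inl h
    · exact .inr ⟨i', _, c i', h5, (h _ _).2 ⟨by omega, rfl⟩, rfl, h6⟩

end machine

theorem undec : ¬ ComputablePred (Theory G) := by
  obtain ⟨Q, hQ, ins, q0, hu⟩ := exists_undec
  obtain ⟨K, ⟨e⟩⟩ := Finite.exists_equiv_fin (Option Q)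
  let idx : Option Q → ℕ := fun o => e o
  have hK : ∀ o, idx o < K := fun o => (e o).2
  have hi : Function.Injective idx := fun o o' h => e.injective (Fin.ext h)
  intro h
  have h2 : Primrec fun n : ℕ => 2 ^ n :=
    (Primrec₂.unpaired'.1 Nat.Primrec.pow).comp (.const 2) .id
  exact hu ((reduce _ len_surj (.zero (.var 0)) (.succ (.var 0) (.var 1)) (Df.psi ins K idx)
    (r := fun n => 2 ^ n * K + idx (some q0)) (Primrec.nat_add.comp
      (Primrec.nat_mul.comp h2 (.const _)) (.const _)) h).of_eq fun n => psi_iff hK hi _ _)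

end Pool.Agent.H63.GG
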