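import Mathlib

/-! One-dimensional grammar vector addition systems: definitions. -/

set_option autoImplicit false

namespace Pool.Agent.H63.GV

/-- A symbol is a nonterminal (a natural number) or an integer terminal. -/
abbrev Sym : Type := ℕ ⊕ ℤ

/-- A 1-GVAS is a finite list of rules `X → w`. -/
abbrev Gr : Type := List (ℕ × List Sym)

/-- `Yields G w l`: some forest of complete derivation trees whose roots spell `w` has leaf
labels `l`, read left to right. -/
inductive Yields (G : Gr) : List Sym → List ℤ → Prop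
  | nil : Yields G [] []
  | term {v : ℤ} {w : List Sym} {l : List ℤ} : Yields G w l → Yields G (Sum.inr v :: w) (v :: l)
  | nont {X : ℕ} {u w : List Sym} {l l' : List ℤ} : (X, u) ∈ G → Yields G u l → Yields G w l' →
      Yields G (Sum.inl X :: w) (l ++ l')

/-- `a` goes to `b` along `l`, staying nonnegative. -/
def Run (a : ℕ) (l : List ℤ) (b : ℕ) : Prop :=
  (∀ j ≤ l.length, 0 ≤ (a : ℤ) + (l.take j).sum) ∧ (a : ℤ) + l.sum = b

/-- The reachability relation of the nonterminal `X`. -/
def Reach (G : Gr) (X a b : ℕ) : Prop := ∃ l, Yields G [Sum.inl X] l ∧ Run a l b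

/-- One derivation step on sentential forms. -/
def Step (G : Gr) (s t : List Sym) : Prop :=
  ∃ α β X u, (X, u) ∈ G ∧ s = α ++ Sum.inl X :: β ∧ t = α ++ u ++ β

/-- No nonterminal is branching. -/
def Thin (G : Gr) : Prop :=
  ∀ X : ℕ, ¬ ∃ α β γ : List Sym, Relation.ReflTransGen (Step G) [Sum.inl X]
    (α ++ Sum.inl X :: β ++ Sum.inl X :: γ)

/-- The subset of the naturals represented by a list of data `(c; p₁, …, p_m)`. -/
def SemSet (L : List (ℕ × List ℕ)) : Set ℕ :=
  {b | ∃ d ∈ L, ∃ m ∈ AddSubmonoid.closure {p | p ∈ d.2}, b = d.1 + m}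

end Pool.Agent.H63.GV
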