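import Pool.Agent.H63.GV9
import Pool.Agent.H63.GVDefs

/-! The binary system attached to a 1-GVAS. -/

set_option autoImplicit false

namespace Pool.Agent.H63.GV

open Relation

abbrev Wd : Type := List Sym

def trip (G : Gr) : List (Wd × Wd × Wd) :=
  G.flatMap fun r => ([Sum.inl r.1], r.2, []) :: (List.range r.2.length).map
    fun i => (r.2.drop i, (r.2.drop i).take 1, r.2.drop (i + 1))

def sy : Sym → Option (ℕ × ℕ) := Sum.elim (fun _ => none) fun v => some (v.toNat, (-v).toNat)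

def tv (w : Wd) : Option (ℕ × ℕ) :=
  if w.length = 0 then some (0, 0) else if w.length = 1 then w.head?.bind sy else none

def labs (G : Gr) (S : ℕ) : List Wd :=
  [Sum.inl S] :: (trip G).flatMap fun t => [t.1, t.2.1, t.2.2]

def Bw (G : Gr) (a b c : Wd) : Prop := (a, b, c) ∈ trip G
def Lw (w : Wd) (x y : ℕ) : Prop := ∃ c, tv w = some c ∧ y + c.2 = x + c.1
def Ldw (w : Wd) (x y p p' : ℕ) : Prop := Lw w x y ∧ p = p'

variable {G : Gr}

theorem bw_iff {a b c : Wd} : Bw G a b c ↔ (∃ X, (X, b) ∈ G ∧ a = [Sum.inl X] ∧ c = []) ∨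
    ∃ X u σ, (X, u) ∈ G ∧ a <:+ u ∧ a = σ :: c ∧ b = [σ] := by
  simp only [Bw, trip, List.mem_flatMap, List.mem_cons, List.mem_map, List.mem_range,
    Prod.mk.injEq]
  constructor
  · rintro ⟨⟨X, u⟩, h, ⟨rfl, rfl, rfl⟩ | ⟨i, hi, rfl, rfl, rfl⟩⟩
    · exact Or.inl ⟨X, h, rfl, rfl⟩
    · refine Or.inr ⟨X, u, u[i], h, List.drop_suffix _ _, List.drop_eq_getElem_cons hi, ?_⟩
      rw [List.drop_eq_getElem_cons hi]; rfl
  · rintro (⟨X, h, rfl, rfl⟩ | ⟨X, u, σ, h, ⟨t, rfl⟩, rfl, rfl⟩)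
    · exact ⟨(X, b), h, Or.inl ⟨rfl, rfl, rfl⟩⟩
    · refine ⟨_, h, Or.inr ⟨t.length, by simp, by simp, by simp, ?_⟩⟩
      rw [← List.drop_drop]; simp

theorem tv_iff {w : Wd} {c : ℕ × ℕ} : tv w = some c ↔ (w = [] ∧ c = (0, 0)) ∨
    ∃ v : ℤ, w = [Sum.inr v] ∧ c = (v.toNat, (-v).toNat) := by
  rcases w with _ | ⟨σ, _ | ⟨τ, w⟩⟩
  · simp [tv, eq_comm]
  · cases σ <;> simp [tv, sy, eq_comm]
  · simp [tv]

theorem lw_iff {w : Wd} {x y : ℕ} : Lw w x y ↔ (w = [] ∧ x = y) ∨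
    ∃ v : ℤ, w = [Sum.inr v] ∧ (y : ℤ) = x + v := by
  simp only [Lw, tv_iff]
  constructor
  · rintro ⟨c, ⟨rfl, rfl⟩ | ⟨v, rfl, rfl⟩, h⟩
    · exact Or.inl ⟨rfl, by omega⟩
    · exact Or.inr ⟨v, rfl, by simp only at h; omega⟩
  · rintro (⟨rfl, rfl⟩ | ⟨v, rfl, h⟩)
    · exact ⟨_, Or.inl ⟨rfl, rfl⟩, rfl⟩
    · exact ⟨_, Or.inr ⟨v, rfl, rfl⟩, by simp only; omega⟩

theorem lw_diag : Diag Lw := by
  rintro q x y i ⟨c, h1, h2⟩
  exact ⟨c, h1, by omega⟩

theorem ldw_sound (q : Wd) (x y p p' : ℕ) (h : Ldw q x y p p') (n : ℕ) :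
    Lw q (x + n * p) (y + n * p') := by
  obtain ⟨h, rfl⟩ := h
  exact lw_diag _ _ _ _ h

theorem run_nil {a b : ℕ} : Run a [] b ↔ a = b := by simp [Run]

theorem run_cons {a b : ℕ} {v : ℤ} {l : List ℤ} :
    Run a (v :: l) b ↔ ∃ z : ℕ, (z : ℤ) = a + v ∧ Run z l b := by
  constructor
  · rintro ⟨h1, h2⟩
    have h0 := h1 1 (by simp)
    simp only [List.take_succ_cons, List.take_zero, List.sum_cons, List.sum_nil] at h0
    refine ⟨(a + v).toNat, by omega, fun j hj => ?_, ?_⟩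
    · have := h1 (j + 1) (by simpa using hj)
      simp only [List.take_succ_cons, List.sum_cons] at this
      omega
    · simp only [List.sum_cons] at h2; omega
  · rintro ⟨z, h0, h1, h2⟩
    refine ⟨fun j hj => ?_, by simp only [List.sum_cons]; omega⟩
    rcases j with _ | j
    · simp
    · have := h1 j (by simpa using hj)
      simp only [List.take_succ_cons, List.sum_cons]
      omega

theorem run_append {l l' : List ℤ} : ∀ {a b : ℕ},
    Run a (l ++ l') b ↔ ∃ z, Run a l z ∧ Run z l' b := by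
  induction l with
  | nil => simp [run_nil]
  | cons v l ih =>
    intro a b
    simp only [List.cons_append, run_cons, ih]
    constructor
    · rintro ⟨z, h1, z', h2, h3⟩; exact ⟨z', ⟨z, h1, h2⟩, h3⟩
    · rintro ⟨z', ⟨z, h1, h2⟩, h3⟩; exact ⟨z, h1, z', h2, h3⟩

theorem Yields.append {u w : Wd} {l l' : List ℤ} (h : Yields G u l) (h' : Yields G w l') :
    Yields G (u ++ w) (l ++ l') := by
  induction h with
  | nil => exact h'
  | term _ ih => exact .term ih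
  | nont h1 h2 _ _ ih => rw [List.append_assoc]; exact .nont h1 h2 ih

theorem rel_sem {w : Wd} {x y : ℕ} (h : Rel (Bw G) Lw w x y) : ∃ l, Yields G w l ∧ Run x l y := by
  induction h with
  | lf h =>
    rcases lw_iff.1 h with ⟨rfl, rfl⟩ | ⟨v, rfl, h'⟩
    · exact ⟨[], .nil, run_nil.2 rfl⟩
    · exact ⟨[v], .term .nil, run_cons.2 ⟨_, h', run_nil.2 rfl⟩⟩
  | bin hb _ _ i1 i2 =>
    obtain ⟨l, a1, a2⟩ := i1
    obtain ⟨l', b1, b2⟩ := i2
    refine ⟨l ++ l', ?_, run_append.2 ⟨_, a2, b2⟩⟩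
    rcases bw_iff.1 hb with ⟨X, h, rfl, rfl⟩ | ⟨X, u, σ, h, -, rfl, rfl⟩
    · exact .nont h a1 b1
    · exact a1.append b1

theorem sem_rel {w : Wd} {l : List ℤ} (h : Yields G w l) : ∀ x y, Run x l y →
    ((∃ X u, (X, u) ∈ G ∧ w <:+ u) ∨ w.length ≤ 1) → Rel (Bw G) Lw w x y := by
  have e0 : ∀ x, Rel (Bw G) Lw [] x x := fun x => .lf (lw_iff.2 (Or.inl ⟨rfl, rfl⟩))
  induction h with
  | nil => intro x y h _; rw [run_nil.1 h]; exact e0 y
  | @term v w l h ih =>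
    intro x y h1 h2
    obtain ⟨z, a1, a2⟩ := run_cons.1 h1
    have b1 : Rel (Bw G) Lw [Sum.inr v] x z := .lf (lw_iff.2 (Or.inr ⟨v, rfl, a1⟩))
    rcases h2 with ⟨X, u, h2, h3⟩ | h2
    · exact .bin (bw_iff.2 (Or.inr ⟨X, u, _, h2, h3, rfl, rfl⟩)) b1
        (ih z y a2 (Or.inl ⟨X, u, h2, (List.suffix_cons _ _).trans h3⟩))
    · obtain rfl : w = [] := by simpa using h2
      cases h
      rw [← run_nil.1 a2]; exact b1
  | @nont Y u' w l l' h0 _ h i1 i2 =>
    intro x y h1 h2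
    obtain ⟨z, a1, a2⟩ := run_append.1 h1
    have b1 : Rel (Bw G) Lw [Sum.inl Y] x z := .bin (bw_iff.2 (Or.inl ⟨Y, h0, rfl, rfl⟩))
      (i1 x z a1 (Or.inl ⟨Y, u', h0, List.suffix_refl _⟩)) (e0 z)
    rcases h2 with ⟨X, u, h2, h3⟩ | h2
    · exact .bin (bw_iff.2 (Or.inr ⟨X, u, _, h2, h3, rfl, rfl⟩)) b1
        (i2 z y a2 (Or.inl ⟨X, u, h2, (List.suffix_cons _ _).trans h3⟩))
    · obtain rfl : w = [] := by simpa using h2
      cases h
      rw [← run_nil.1 a2]; exact b1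

theorem reach_iff {X a b : ℕ} : Reach G X a b ↔ Rel (Bw G) Lw [Sum.inl X] a b :=
  ⟨fun ⟨_, h1, h2⟩ => sem_rel h1 a b h2 (Or.inr le_rfl), rel_sem⟩

theorem step_ctx {s t : Wd} (h : ReflTransGen (Step G) s t) (α β : Wd) :
    ReflTransGen (Step G) (α ++ s ++ β) (α ++ t ++ β) := by
  induction h with
  | refl => exact .refl
  | tail _ h ih =>
    obtain ⟨α', β', X, u, h1, rfl, rfl⟩ := h
    exact ih.tail ⟨α ++ α', β' ++ β, X, u, h1, by simp, by simp⟩

theorem ch_step {a b : Wd} (h : ReflTransGen (Ch (Bw G)) a b) :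
    ∃ α β, ReflTransGen (Step G) a (α ++ b ++ β) := by
  induction h with
  | refl => exact ⟨[], [], by simpa using .refl⟩
  | @tail b c _ h ih =>
    obtain ⟨α, β, ih⟩ := ih
    obtain ⟨d, h | h⟩ := h
    · rcases bw_iff.1 h with ⟨X, h', rfl, rfl⟩ | ⟨X, u, σ, h, -, rfl, rfl⟩
      · exact ⟨α, β, ih.tail ⟨α, β, X, c, h', by simp, rfl⟩⟩
      · exact ⟨α, d ++ β, by simpa using ih⟩
    · rcases bw_iff.1 h with ⟨X, h, rfl, rfl⟩ | ⟨X, u, σ, h, -, rfl, rfl⟩
      · exact ⟨α ++ [Sum.inl X], β, by simpa using ih⟩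
      · exact ⟨α ++ [σ], β, by simpa using ih⟩

theorem ch_nil {b : Wd} (h : ReflTransGen (Ch (Bw G)) [] b) : b = [] := by
  induction h with
  | refl => rfl
  | tail _ h ih =>
    subst ih
    obtain ⟨d, h | h⟩ := h <;>
      rcases bw_iff.1 h with ⟨X, h, h', -⟩ | ⟨X, u, σ, h, -, h', -⟩ <;> cases h'

theorem step_term {v : ℤ} {t : Wd} (h : ReflTransGen (Step G) [Sum.inr v] t) :
    t = [Sum.inr v] := by
  induction h with
  | refl => rfl
  | tail _ h ih =>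
    obtain ⟨α, β, X, u, -, h1, -⟩ := h
    rw [ih] at h1
    have : (Sum.inl X : Sym) ∈ [Sum.inr v] := by rw [h1]; simp
    simp at this

theorem thin_bw (h : Thin G) : ThinB (Bw G) := by
  rintro q q1 q2 hb ⟨h1, h2⟩
  rcases bw_iff.1 hb with ⟨X, -, rfl, rfl⟩ | ⟨X, u, σ, -, -, rfl, rfl⟩
  · cases ch_nil h2
  · obtain ⟨α, β, a1⟩ := ch_step h1
    obtain ⟨α', β', a2⟩ := ch_step h2
    rcases σ with Y | v
    · refine h Y ⟨α, α', q2 ++ β' ++ β, a1.trans ?_⟩
      have := step_ctx a2 (α ++ [Sum.inl Y]) β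
      simp only [List.append_assoc, List.cons_append, List.nil_append] at this ⊢
      exact this
    · have := congrArg List.length (step_term a1)
      obtain rfl : q2 = [] := by
        simp only [List.length_append, List.length_cons, List.length_nil] at this
        exact List.length_eq_zero_iff.1 (by omega)
      cases ch_nil h2

theorem labs_mem {S : ℕ} {a b c : Wd} (h : Bw G a b c) :
    a ∈ labs G S ∧ b ∈ labs G S ∧ c ∈ labs G S := by
  refine ⟨?_, ?_, ?_⟩ <;>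
    exact List.mem_cons_of_mem _ (List.mem_flatMap.2 ⟨_, h, by simp⟩)

def sysG (G : Gr) (S : ℕ) : LS {w // w ∈ labs G S} {t : {w // w ∈ labs G S} // (tv t.1).isSome} where
  lab := fun t => t.1
  c := fun t => (((tv t.1.1).get t.2).2, ((tv t.1.1).get t.2).1)
  P := fun _ => AddSubmonoid.closure {(1, 1)}
  fg := fun _ => (AddSubmonoid.fg_iff _).2 ⟨_, rfl, by simp⟩
  diag := fun _ => AddSubmonoid.subset_closure rfl

theorem mem_diag {z : ℕ × ℕ} : z ∈ AddSubmonoid.closure {((1, 1) : ℕ × ℕ)} ↔ z.1 = z.2 := by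
  rw [AddSubmonoid.mem_closure_singleton]
  constructor
  · rintro ⟨n, rfl⟩; rfl
  · intro h; exact ⟨z.1, by ext <;> simp [h]⟩

theorem sysG_lf {S : ℕ} (w : {w // w ∈ labs G S}) (x y : ℕ) :
    (sysG G S).Lf w x y ↔ Lw w.1 x y := by
  constructor
  · rintro ⟨t, rfl, z, hz, e⟩
    refine ⟨(tv t.1.1).get t.2, (Option.some_get _).symm, ?_⟩
    have := mem_diag.1 hz
    simp only [sysG, Prod.ext_iff, Prod.fst_add, Prod.snd_add] at e
    omega
  · rintro ⟨c, h1, h2⟩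
    have h3 : c.1 = 0 ∨ c.2 = 0 := by
      rcases tv_iff.1 h1 with ⟨-, rfl⟩ | ⟨v, -, rfl⟩
      · exact Or.inl rfl
      · simp only; omega
    refine ⟨⟨w, by simp [h1]⟩, rfl, (x - c.2, x - c.2), mem_diag.2 rfl, ?_⟩
    simp only [sysG, h1, Option.get_some, Prod.ext_iff, Prod.fst_add, Prod.snd_add]
    omega

def BG (G : Gr) (S : ℕ) (a b c : {w // w ∈ labs G S}) : Prop := Bw G a.1 b.1 c.1

theorem J_word {S : ℕ} {q : {w // w ∈ labs G S}} {x y p p' : ℕ}
    (h : J (BG G S) (sysG G S).Lf (sysG G S).Ld q x y p p') : J (Bw G) Lw Ldw q.1 x y p p' := by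
  refine h.map Subtype.val (fun _ _ _ h => h) (fun a x y h => (sysG_lf a x y).1 h) ?_
  rintro a x y p p' ⟨i, h1, h2, h3⟩
  exact ⟨(sysG_lf a x y).1 ⟨i, h1, h2⟩, mem_diag.1 h3⟩

theorem rel_sub {S : ℕ} {w : Wd} {x y : ℕ} (h : Rel (Bw G) Lw w x y) :
    ∀ hw : w ∈ labs G S, Rel (BG G S) (sysG G S).Lf ⟨w, hw⟩ x y := by
  induction h with
  | lf h => exact fun hw => .lf ((sysG_lf _ _ _).2 h)
  | bin hb _ _ i1 i2 =>
    exact fun hw => .bin (B := BG G S) (q1 := ⟨_, (labs_mem hb).2.1⟩)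
      (q2 := ⟨_, (labs_mem hb).2.2⟩) (show Bw G _ _ _ from hb) (i1 _) (i2 _)

theorem thin_BG {S : ℕ} (h : Thin G) : ThinB (BG G S) := by
  have : ∀ a b, ReflTransGen (Ch (BG G S)) a b → ReflTransGen (Ch (Bw G)) a.1 b.1 := by
    intro a b h
    induction h with
    | refl => exact .refl
    | tail _ h ih => obtain ⟨c, h⟩ := h; exact ih.tail ⟨c.1, h⟩
  exact fun q q1 q2 hb h' => thin_bw h _ _ _ hb ⟨this _ _ h'.1, this _ _ h'.2⟩

def outL (k p : ℕ) (f : ℕ → Bool) : List (ℕ × List ℕ) :=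
  ((List.range (k + p)).filter f).map fun c => (c, [if c < k then 0 else p])

theorem semSet_out {G : Gr} {S a k p : ℕ} (hp : 0 < p) {f : ℕ → Bool}
    (h1 : ∀ c, f c = true → J (Bw G) Lw Ldw [Sum.inl S] a c 0 (if c < k then 0 else p))
    (h2 : ∀ c < k + p, f c = true ∨
      ∀ n, ¬ Rel (Bw G) Lw [Sum.inl S] a (c + n * if c < k then 0 else p)) :
    {b | Reach G S a b} = SemSet (outL k p f) := by
  ext b
  simp only [Set.mem_ofPred_eq, reach_iff, SemSet, outL, List.mem_map, List.mem_filter,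
    List.mem_range]
  constructor
  · intro h
    obtain ⟨c, n, a1, a2⟩ : ∃ c n, c < k + p ∧ b = c + n * if c < k then 0 else p := by
      by_cases hb : b < k
      · exact ⟨b, 0, by omega, by simp⟩
      · have := Nat.mod_lt (b - k) hp
        refine ⟨k + (b - k) % p, (b - k) / p, by omega, ?_⟩
        rw [if_neg (by omega)]
        have := Nat.div_add_mod' (b - k) p
        omega
    rcases h2 c a1 with h3 | h3
    · refine ⟨_, ⟨c, ⟨a1, h3⟩, rfl⟩, n • (if c < k then 0 else p), AddSubmonoid.nsmul_mem _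
        (AddSubmonoid.subset_closure ?_) n, a2⟩
      exact List.mem_singleton_self _
    · exact absurd (a2 ▸ h) (h3 n)
  · rintro ⟨_, ⟨c, ⟨-, a1⟩, rfl⟩, m, hm, rfl⟩
    simp only [List.mem_singleton, Set.ofPred_eq_eq_singleton] at hm
    obtain ⟨n, rfl⟩ := AddSubmonoid.mem_closure_singleton.1 hm
    simpa using (h1 c a1).sound lw_diag ldw_sound n

theorem all_semilinear (G : Gr) (S a : ℕ) : ∃ L, {b | Reach G S a b} = SemSet L := by
  classical
  obtain ⟨k, p, hp, h⟩ := (sysG G S).periodic (BG G S) ⟨[Sum.inl S], List.mem_cons_self⟩ a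
  refine ⟨_, semSet_out hp (f := fun c => decide
    (J (Bw G) Lw Ldw [Sum.inl S] a c 0 (if c < k then 0 else p))) (fun c h => by simpa using h)
    fun c hc => (h c hc).imp (fun h => by simpa using J_word h) fun h n hn => h n (rel_sub hn _)⟩

end Pool.Agent.H63.GV
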