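import Pool.Agent.H63.GSDefs
import Pool.Agent.H63.GV10

/-! Thin 1-GVAS whose shortest derivations are doubly exponential. -/

set_option autoImplicit false

namespace Pool.Agent.H63.GS

open Pool.Agent.H63.GV (Run run_nil run_cons run_append)

abbrev Ru : Type := Finset (ℕ × List (ℕ ⊕ ℤ))

def W (R : Ru) (w : List (ℕ ⊕ ℤ)) (x y s : ℕ) : Prop := ∃ l, Der R w l s ∧ Run x l y

variable {R : Ru}

theorem W_nil {x y s : ℕ} : W R [] x y s ↔ x = y ∧ s = 0 := by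
  constructor
  · rintro ⟨l, h1, h2⟩; cases h1; exact ⟨run_nil.1 h2, rfl⟩
  · rintro ⟨rfl, rfl⟩; exact ⟨[], .nil, run_nil.2 rfl⟩

theorem W_term {v : ℤ} {w : List (ℕ ⊕ ℤ)} {x y s : ℕ} :
    W R (Sum.inr v :: w) x y s ↔ ∃ z s' : ℕ, (z : ℤ) = x + v ∧ W R w z y s' ∧ s = s' + 1 := by
  constructor
  · rintro ⟨l, h1, h2⟩
    cases h1 with
    | term h =>
      obtain ⟨z, a1, a2⟩ := run_cons.1 h2
      exact ⟨z, _, a1, ⟨_, h, a2⟩, rfl⟩
  · rintro ⟨z, s', a1, ⟨l, a2, a3⟩, rfl⟩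
    exact ⟨_, .term a2, run_cons.2 ⟨z, a1, a3⟩⟩

theorem W_nont {X : ℕ} {w : List (ℕ ⊕ ℤ)} {x y s : ℕ} :
    W R (Sum.inl X :: w) x y s ↔ ∃ u z s1 s2, (X, u) ∈ R ∧ u ≠ [] ∧ W R u x z s1 ∧
      W R w z y s2 ∧ s = s1 + s2 + 1 := by
  constructor
  · rintro ⟨l, h1, h2⟩
    cases h1 with
    | nont h h' h3 h4 =>
      obtain ⟨z, a1, a2⟩ := run_append.1 h2
      exact ⟨_, z, _, _, h, h', ⟨_, h3, a1⟩, ⟨_, h4, a2⟩, rfl⟩
  · rintro ⟨u, z, s1, s2, h, h', ⟨l, a2, a3⟩, ⟨l', b2, b3⟩, rfl⟩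
    exact ⟨_, .nont h h' a2 b2, run_append.2 ⟨z, a3, b3⟩⟩

theorem W_one {X x y s : ℕ} : W R [Sum.inl X] x y s ↔
    ∃ u s1, (X, u) ∈ R ∧ u ≠ [] ∧ W R u x y s1 ∧ s = s1 + 1 := by
  rw [W_nont]
  simp only [W_nil]
  constructor
  · rintro ⟨u, z, s1, s2, h1, h2, h3, ⟨rfl, rfl⟩, rfl⟩; exact ⟨u, s1, h1, h2, h3, rfl⟩
  · rintro ⟨u, s1, h1, h2, h3, rfl⟩; exact ⟨u, y, s1, 0, h1, h2, h3, ⟨rfl, rfl⟩, rfl⟩

theorem W_cons {X : ℕ} {w : List (ℕ ⊕ ℤ)} {x y s : ℕ} :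
    W R (Sum.inl X :: w) x y s ↔ ∃ z s1 s2, W R [Sum.inl X] x z s1 ∧ W R w z y s2 ∧
      s = s1 + s2 := by
  rw [W_nont]
  simp only [W_one]
  constructor
  · rintro ⟨u, z, s1, s2, h1, h2, h3, h4, rfl⟩
    exact ⟨z, _, s2, ⟨u, s1, h1, h2, h3, rfl⟩, h4, by ring⟩
  · rintro ⟨z, _, s2, ⟨u, s1, h1, h2, h3, rfl⟩, h4, rfl⟩
    exact ⟨u, z, s1, s2, h1, h2, h3, h4, by ring⟩

/-- `w` multiplies weakly by `σ` -/
def Mul (R : Ru) (w : List (ℕ ⊕ ℤ)) (σ : ℚ) : Prop :=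
  0 < σ ∧ (∀ x y s : ℕ, W R w x y s → (y : ℚ) ≤ σ * x) ∧
    ∃ d n : ℕ, 0 < d ∧ (n : ℚ) = σ * d ∧ ∀ t, ∃ s, W R w (d * t) (n * t) s

theorem Mul.nil : Mul R [] 1 :=
  ⟨one_pos, fun x y s h => by simp [(W_nil.1 h).1], 1, 1, one_pos, by simp,
    fun t => ⟨0, W_nil.2 ⟨rfl, rfl⟩⟩⟩

theorem Mul.cons {X : ℕ} {w : List (ℕ ⊕ ℤ)} {σ τ : ℚ} (h : Mul R [Sum.inl X] σ) (h' : Mul R w τ) :
    Mul R (Sum.inl X :: w) (σ * τ) := by
  obtain ⟨a0, a1, d, n, a2, a3, a4⟩ := h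
  obtain ⟨b0, b1, d', n', b2, b3, b4⟩ := h'
  refine ⟨mul_pos a0 b0, fun x y s h => ?_, d * d', n * n', Nat.mul_pos a2 b2,
    by push_cast; rw [a3, b3]; ring, fun t => ?_⟩
  · obtain ⟨z, s1, s2, c1, c2, -⟩ := W_cons.1 h
    have := mul_le_mul_of_nonneg_left (a1 _ _ _ c1) b0.le
    have := b1 _ _ _ c2
    linarith
  · obtain ⟨s1, c1⟩ := a4 (d' * t)
    obtain ⟨s2, c2⟩ := b4 (n * t)
    refine ⟨_, W_cons.2 ⟨n * (d' * t), s1, s2, by rwa [mul_assoc], ?_, rfl⟩⟩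
    rwa [show n * (d' * t) = d' * (n * t) by ring, show n * n' * t = n' * (n * t) by ring]

theorem Mul.rule {X : ℕ} {u : List (ℕ ⊕ ℤ)} {σ : ℚ} (hu : u ≠ []) (h : ∀ u', (X, u') ∈ R ↔ u' = u)
    (h' : Mul R u σ) : Mul R [Sum.inl X] σ := by
  obtain ⟨a0, a1, d, n, a2, a3, a4⟩ := h'
  refine ⟨a0, fun x y s h1 => ?_, d, n, a2, a3, fun t => ?_⟩
  · obtain ⟨u', s1, c1, -, c2, -⟩ := W_one.1 h1
    rw [h] at c1; subst c1
    exact a1 _ _ _ c2
  · obtain ⟨s, hs⟩ := a4 t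
    exact ⟨_, W_one.2 ⟨u, s, (h u).2 rfl, hu, hs, rfl⟩⟩

theorem W_zero {x y s : ℕ} : W R [Sum.inr 0] x y s ↔ x = y ∧ s = 1 := by
  simp only [W_term, W_nil]
  constructor
  · rintro ⟨z, s', h1, ⟨rfl, rfl⟩, rfl⟩; exact ⟨by omega, rfl⟩
  · rintro ⟨rfl, rfl⟩; exact ⟨x, 0, by simp, ⟨rfl, rfl⟩, rfl⟩

theorem Mul.zero : Mul R [Sum.inr 0] 1 :=
  ⟨one_pos, fun x y s h => by simp [(W_zero.1 h).1], 1, 1, one_pos, by simp,
    fun t => ⟨1, W_zero.2 ⟨rfl, rfl⟩⟩⟩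

theorem W_wrap {X x y s : ℕ} {a b : ℤ} : W R [Sum.inr a, Sum.inl X, Sum.inr b] x y s ↔
    ∃ l r s' : ℕ, (l : ℤ) = x + a ∧ W R [Sum.inl X] l r s' ∧ (y : ℤ) = r + b ∧ s = s' + 2 := by
  rw [W_term]
  simp only [W_cons (w := [Sum.inr b]), W_term, W_nil]
  constructor
  · rintro ⟨l, _, h1, ⟨r, s1, _, h2, ⟨z, _, h3, ⟨rfl, rfl⟩, rfl⟩, rfl⟩, rfl⟩
    exact ⟨l, r, s1, h1, h2, h3, rfl⟩
  · rintro ⟨l, r, s1, h1, h2, h3, rfl⟩
    exact ⟨l, _, h1, ⟨r, s1, _, h2, ⟨y, _, h3, ⟨rfl, rfl⟩, rfl⟩, rfl⟩, rfl⟩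

theorem Mul.basic {X v : ℕ} (hv : 0 < v) (h : ∀ u, (X, u) ∈ R ↔
    u = [Sum.inr (-(v : ℤ)), Sum.inl X, Sum.inr ((v : ℤ) + 1)] ∨ u = [Sum.inr 0]) :
    Mul R [Sum.inl X] ((v + 1) / v) := by
  have v0 : (0 : ℚ) < v := by exact_mod_cast hv
  refine ⟨by positivity, fun x y s h1 => ?_, v, v + 1, hv, by push_cast; field_simp, fun t => ?_⟩
  · suffices v * y ≤ (v + 1) * x by
      rw [div_mul_eq_mul_div, le_div_iff₀ v0, mul_comm]; exact_mod_cast this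
    induction s using Nat.strong_induction_on generalizing x y with
    | _ s ih =>
    obtain ⟨u, s1, c1, -, c2, rfl⟩ := W_one.1 h1
    rcases (h u).1 c1 with rfl | rfl
    · obtain ⟨l, r, s', d1, d2, d3, rfl⟩ := W_wrap.1 c2
      have := ih s' (by omega) l r d2
      obtain rfl : x = l + v := by omega
      obtain rfl : y = r + v + 1 := by omega
      nlinarith
    · obtain ⟨rfl, -⟩ := W_zero.1 c2
      nlinarith
  · induction t with
    | zero => exact ⟨_, W_one.2 ⟨_, 1, (h _).2 (Or.inr rfl), by simp, W_zero.2 ⟨by simp, rfl⟩, rfl⟩⟩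
    | succ t ih =>
      obtain ⟨s, hs⟩ := ih
      exact ⟨_, W_one.2 ⟨_, _, (h _).2 (Or.inl rfl), by simp,
        W_wrap.2 ⟨_, _, s, by push_cast; ring, hs, by push_cast; ring, rfl⟩, rfl⟩⟩

def cnt (X : ℕ) (u : List (ℕ ⊕ ℤ)) : ℕ := u.countP fun s => decide (s = Sum.inl X)

theorem cnt_append (X : ℕ) (u v : List (ℕ ⊕ ℤ)) : cnt X (u ++ v) = cnt X u + cnt X v :=
  List.countP_append

theorem cnt_cons (X : ℕ) (a : ℕ ⊕ ℤ) (v : List (ℕ ⊕ ℤ)) :
    cnt X (a :: v) = cnt X v + if a = Sum.inl X then 1 else 0 := by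
  simp [cnt, List.countP_cons]

theorem cnt_nil (X : ℕ) : cnt X [] = 0 := rfl

theorem thin_of (h : ∀ X u, (X, u) ∈ R → cnt X u ≤ 1 ∧ ∀ Y, Sum.inl Y ∈ u → Y ≤ X) :
    Thin R := by
  rintro X ⟨α, β, γ, h1⟩
  have : ∀ w, Relation.ReflTransGen (Step R) [Sum.inl X] w →
      cnt X w ≤ 1 ∧ ∀ Y, Sum.inl Y ∈ w → Y ≤ X := by
    intro w hw
    induction hw with
    | refl => simp [cnt_cons, cnt_nil]
    | tail _ h2 ih =>
      obtain ⟨a, b, Z, u, c1, rfl, rfl⟩ := h2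
      obtain ⟨d1, d2⟩ := h Z u c1
      have e1 := ih.2 Z (by simp)
      have e2 := ih.1
      refine ⟨?_, fun Y hY => ?_⟩
      · simp only [cnt_append, cnt_cons] at e2 ⊢
        by_cases hz : Z = X
        · subst hz; simp at e2; omega
        · have : cnt X u = 0 := List.countP_eq_zero.2 fun a hx hx' => by
            obtain rfl : a = Sum.inl X := by simpa using hx'
            exact hz (le_antisymm e1 (d2 X hx))
          omega
      · simp only [List.mem_append] at hY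
        rcases hY with (hY | hY) | hY
        · exact ih.2 Y (by simp [hY])
        · exact (d2 Y hY).trans e1
        · exact ih.2 Y (by simp [hY])
  have := (this _ h1).1
  simp only [cnt_append, cnt_cons] at this
  simp at this
  omega

def vv (k : ℕ) : ℕ := 2 ^ (k + 1) - 1
def DD (j : ℕ) : ℕ := 4 * 2 ^ j * (2 ^ j - 1)

def gram (k : ℕ) : Ru :=
  ([(3 * k + 4, [Sum.inr 1, Sum.inl (3 * k + 4), Sum.inr (-2)]),
    (3 * k + 4, [Sum.inl (3 * k + 2), Sum.inl (3 * k + 3)]),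
    (0, [Sum.inr (-(vv k : ℤ)), Sum.inl 0, Sum.inr ((vv k : ℤ) + 1)]), (0, [Sum.inr 0]),
    (2, [Sum.inl 0]), (3, [Sum.inr 0])] ++
  (List.range k).flatMap fun i =>
    [(3 * (i + 1) + 2, [Sum.inl (3 * i + 2), Sum.inl (3 * i + 2)]),
     (3 * (i + 1) + 3, [Sum.inl (3 * i + 3), Sum.inl (3 * i + 3), Sum.inl (3 * i + 1)]),
     (3 * i + 1, [Sum.inr (-(DD (k - i) : ℤ)), Sum.inl (3 * i + 1), Sum.inr ((DD (k - i) : ℤ) + 1)]),
     (3 * i + 1, [Sum.inr 0])]).toFinset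

theorem mem_gram {k X : ℕ} {u : List (ℕ ⊕ ℤ)} : (X, u) ∈ gram k ↔
    (X = 3 * k + 4 ∧ u = [Sum.inr 1, Sum.inl (3 * k + 4), Sum.inr (-2)]) ∨
    (X = 3 * k + 4 ∧ u = [Sum.inl (3 * k + 2), Sum.inl (3 * k + 3)]) ∨
    (X = 0 ∧ u = [Sum.inr (-(vv k : ℤ)), Sum.inl 0, Sum.inr ((vv k : ℤ) + 1)]) ∨
    (X = 0 ∧ u = [Sum.inr 0]) ∨ (X = 2 ∧ u = [Sum.inl 0]) ∨ (X = 3 ∧ u = [Sum.inr 0]) ∨
    ∃ i < k, (X = 3 * (i + 1) + 2 ∧ u = [Sum.inl (3 * i + 2), Sum.inl (3 * i + 2)]) ∨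
      (X = 3 * (i + 1) + 3 ∧ u = [Sum.inl (3 * i + 3), Sum.inl (3 * i + 3), Sum.inl (3 * i + 1)]) ∨
      (X = 3 * i + 1 ∧ u = [Sum.inr (-(DD (k - i) : ℤ)), Sum.inl (3 * i + 1),
        Sum.inr ((DD (k - i) : ℤ) + 1)]) ∨ (X = 3 * i + 1 ∧ u = [Sum.inr 0]) := by
  simp only [gram, List.mem_toFinset, List.mem_append, List.mem_cons, List.mem_flatMap,
    List.mem_range, Prod.mk.injEq, List.not_mem_nil, or_false, or_assoc]

theorem gram_thin (k : ℕ) : Thin (gram k) := by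
  refine thin_of fun X u h => ?_
  rcases mem_gram.1 h with h | h | h | h | h | h | ⟨i, -, h | h | h | h⟩ <;>
    obtain ⟨rfl, rfl⟩ := h <;> simp [cnt_cons, cnt_nil] <;> (try split_ifs) <;> omega

theorem gram_nt {k X : ℕ} {u : List (ℕ ⊕ ℤ)} (h : (X, u) ∈ gram k) :
    X < 3 * k + 5 ∧ u ≠ [] ∧ ∀ Y, Sum.inl Y ∈ u → Y < 3 * k + 5 := by
  rcases mem_gram.1 h with h | h | h | h | h | h | ⟨i, _, h | h | h | h⟩ <;>
    obtain ⟨rfl, rfl⟩ := h <;> simp <;> omega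

theorem vv_pos (k : ℕ) : 0 < vv k := by
  have := Nat.one_lt_two_pow (n := k + 1) (by omega)
  unfold vv; omega

theorem DD_pos {j : ℕ} (hj : 0 < j) : 0 < DD j := by
  have := Nat.one_lt_two_pow (n := j) (by omega)
  unfold DD
  exact Nat.mul_pos (by omega) (by omega)

def gg (j : ℕ) : ℚ := 2 ^ j / (2 ^ j - 1)

theorem gg_vv (k : ℕ) : ((vv k : ℚ) + 1) / vv k = gg (k + 1) := by
  unfold vv gg
  rw [Nat.cast_sub Nat.one_le_two_pow]
  push_cast; ring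

theorem gg_DD {j : ℕ} (hj : 0 < j) : gg (j + 1) ^ 2 * (((DD j : ℚ) + 1) / DD j) = gg j := by
  have h1 : (1 : ℚ) < 2 ^ j := one_lt_pow₀ (by norm_num) (by omega)
  unfold gg DD
  rw [Nat.cast_mul, Nat.cast_sub Nat.one_le_two_pow, pow_succ (2 : ℚ) j]
  push_cast
  generalize (2 : ℚ) ^ j = A at h1
  have : A - 1 ≠ 0 := by linarith
  have : A * 2 - 1 ≠ 0 := by linarith
  have : A ≠ 0 := by linarith
  field_simp
  ring

theorem mul_PQ (k : ℕ) : ∀ i ≤ k, Mul (gram k) [Sum.inl (3 * i + 2)] (gg (k + 1) ^ 2 ^ i) ∧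
    ∃ τ, Mul (gram k) [Sum.inl (3 * i + 3)] τ ∧ gg (k + 1) ^ 2 ^ i * τ = gg (k + 1 - i) := by
  intro i
  induction i with
  | zero =>
    intro _
    refine ⟨Mul.rule (u := [Sum.inl 0]) (by simp) (fun u => ?_) ?_, 1,
      Mul.rule (u := [Sum.inr 0]) (by simp) (fun u => ?_) Mul.zero, by simp⟩
    · rw [mem_gram]
      constructor
      · rintro (h | h | h | h | h | h | ⟨i, _, h | h | h | h⟩) <;> first | exact h.2 | omega
      · rintro rfl; simp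
    · rw [pow_zero, pow_one, ← gg_vv]
      refine Mul.basic (vv_pos k) fun u => ?_
      rw [mem_gram]
      constructor
      · rintro (h | h | h | h | h | h | ⟨i, _, h | h | h | h⟩) <;>
          first | exact Or.inl h.2 | exact Or.inr h.2 | omega
      · rintro (rfl | rfl) <;> simp
    · rw [mem_gram]
      constructor
      · rintro (h | h | h | h | h | h | ⟨i, _, h | h | h | h⟩) <;> first | exact h.2 | omega
      · rintro rfl; simp
  | succ i ih =>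
    intro hi
    obtain ⟨a1, τ, a2, a3⟩ := ih (by omega)
    have a4 : Mul (gram k) [Sum.inl (3 * i + 1)] ((DD (k - i) + 1) / DD (k - i)) := by
      refine Mul.basic (DD_pos (by omega)) fun u => ?_
      rw [mem_gram]
      constructor
      · rintro (h | h | h | h | h | h | ⟨j, _, h | h | h | h⟩)
        any_goals omega
        · obtain rfl : i = j := by omega
          exact Or.inl h.2
        · exact Or.inr h.2
      · rintro (rfl | rfl)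
        · exact Or.inr (Or.inr (Or.inr (Or.inr (Or.inr (Or.inr ⟨i, hi, by simp⟩)))))
        · exact Or.inr (Or.inr (Or.inr (Or.inr (Or.inr (Or.inr ⟨i, hi, by simp⟩)))))
    refine ⟨Mul.rule (u := [Sum.inl (3 * i + 2), Sum.inl (3 * i + 2)]) (by simp) (fun u => ?_) ?_,
      τ * (τ * ((DD (k - i) + 1) / DD (k - i))),
      Mul.rule (u := [Sum.inl (3 * i + 3), Sum.inl (3 * i + 3), Sum.inl (3 * i + 1)]) (by simp)
        (fun u => ?_) (a2.cons (a2.cons a4)), ?_⟩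
    · rw [mem_gram]
      constructor
      · rintro (h | h | h | h | h | h | ⟨j, _, h | h | h | h⟩)
        any_goals omega
        obtain rfl : i = j := by omega
        exact h.2
      · rintro rfl
        exact Or.inr (Or.inr (Or.inr (Or.inr (Or.inr (Or.inr ⟨i, hi, by simp⟩)))))
    · rw [pow_succ 2 i, pow_mul, sq]
      exact a1.cons a1
    · rw [mem_gram]
      constructor
      · rintro (h | h | h | h | h | h | ⟨j, _, h | h | h | h⟩)
        any_goals omega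
        obtain rfl : i = j := by omega
        exact h.2
      · rintro rfl
        exact Or.inr (Or.inr (Or.inr (Or.inr (Or.inr (Or.inr ⟨i, hi, by simp⟩)))))
    · rw [show k + 1 - (i + 1) = k - i by omega, ← gg_DD (j := k - i) (by omega),
        show k - i + 1 = k + 1 - i by omega, ← a3, pow_succ 2 i, pow_mul]
      ring

theorem mem_top {k : ℕ} {u : List (ℕ ⊕ ℤ)} : (3 * k + 4, u) ∈ gram k ↔
    u = [Sum.inr 1, Sum.inl (3 * k + 4), Sum.inr (-2)] ∨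
      u = [Sum.inl (3 * k + 2), Sum.inl (3 * k + 3)] := by
  rw [mem_gram]
  constructor
  · rintro (h | h | h | h | h | h | ⟨i, _, h | h | h | h⟩) <;>
      first | exact Or.inl h.2 | exact Or.inr h.2 | omega
  · rintro (rfl | rfl) <;> simp

theorem top_reach (k : ℕ) : ∃ s, W (gram k) [Sum.inl (3 * k + 4)] 1 2 s := by
  obtain ⟨a1, τ, a2, a3⟩ := mul_PQ k k le_rfl
  obtain ⟨-, -, d, n, b1, b2, b3⟩ := a1.cons a2
  rw [a3, show k + 1 - k = 1 by omega, gg] at b2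
  obtain rfl : n = 2 * d := by norm_num at b2; exact_mod_cast b2
  have : ∀ t x, x + t = d → ∃ s, W (gram k) [Sum.inl (3 * k + 4)] x (2 * x) s := by
    intro t
    induction t with
    | zero =>
      rintro x rfl
      obtain ⟨s, hs⟩ := b3 1
      exact ⟨_, W_one.2 ⟨_, s, mem_top.2 (Or.inr rfl), by simp, by simpa using hs, rfl⟩⟩
    | succ t ih =>
      intro x hx
      obtain ⟨s, hs⟩ := ih (x + 1) (by omega)
      exact ⟨_, W_one.2 ⟨_, _, mem_top.2 (Or.inl rfl), by simp,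
        W_wrap.2 ⟨_, _, s, by push_cast; ring, hs, by push_cast; ring, rfl⟩, rfl⟩⟩
  exact this (d - 1) 1 (by omega)

theorem top_long (k : ℕ) : ∀ s x, 0 < x → W (gram k) [Sum.inl (3 * k + 4)] x (2 * x) s →
    vv k ^ 2 ^ k < x + s := by
  obtain ⟨⟨a0, a1, -⟩, τ, ⟨b0, b1, -⟩, a3⟩ := mul_PQ k k le_rfl
  rw [show k + 1 - k = 1 by omega] at a3
  have a3' : gg (k + 1) ^ 2 ^ k * τ = 2 := by rw [a3, gg]; norm_num
  intro s
  induction s using Nat.strong_induction_on with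
  | _ s ih =>
  intro x hx h
  obtain ⟨u, s1, c1, -, c2, rfl⟩ := W_one.1 h
  rcases mem_top.1 c1 with rfl | rfl
  · obtain ⟨l, r, s', d1, d2, d3, rfl⟩ := W_wrap.1 c2
    obtain rfl : l = x + 1 := by omega
    obtain rfl : r = 2 * (x + 1) := by omega
    have := ih s' (by omega) _ (by omega) d2
    omega
  · obtain ⟨z, s2, s3, d1, d2, -⟩ := W_cons.1 c2
    have e1 := a1 _ _ _ d1
    have e2 := b1 _ _ _ d2
    have e3 : (z : ℚ) = gg (k + 1) ^ 2 ^ k * x := by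
      refine le_antisymm e1 (le_of_mul_le_mul_left ?_ b0)
      push_cast at e2
      calc τ * (gg (k + 1) ^ 2 ^ k * x) = (gg (k + 1) ^ 2 ^ k * τ) * x := by ring
        _ ≤ _ := by rw [a3']; exact e2
    have v0 : (0 : ℚ) < vv k := by exact_mod_cast vv_pos k
    rw [← gg_vv, div_pow, div_mul_eq_mul_div, eq_div_iff (by positivity)] at e3
    have e4 : z * vv k ^ 2 ^ k = (vv k + 1) ^ 2 ^ k * x := by exact_mod_cast e3
    have e5 : vv k ^ 2 ^ k ∣ x := (Nat.Coprime.pow _ _ (by simp)).dvd_of_dvd_mul_left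
      (Dvd.intro_left _ e4)
    have := Nat.le_of_dvd hx e5
    omega

theorem gram_size (k : ℕ) : gsize (Finset.range (3 * k + 5)) (gram k) ≤ 100 * (k + 1) ^ 2 := by
  have h1 : (gram k).card ≤ 4 * k + 6 := by
    refine (List.toFinset_card_le _).trans ?_
    simp [List.length_flatMap]; omega
  have hv : (vv k + 1).size ≤ 2 * k + 3 := Nat.size_le.2 (by
    have := Nat.pow_lt_pow_right (show 1 < 2 by omega) (show k + 1 < 2 * k + 3 by omega)
    have := Nat.one_le_two_pow (n := k + 1)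
    unfold vv; omega)
  have hD : ∀ j ≤ k, (DD j + 1).size ≤ 2 * k + 3 := fun j hj => Nat.size_le.2 (by
    have h1 := Nat.pow_le_pow_right (show 0 < 2 by omega) hj
    have h2 : DD j ≤ 4 * 2 ^ k * 2 ^ k := Nat.mul_le_mul (Nat.mul_le_mul_left 4 h1) ((Nat.sub_le _ _).trans h1)
    have h3 : 2 ^ (2 * k + 3) = 8 * (2 ^ k * 2 ^ k) := by ring
    have h4 : 0 < 2 ^ k * 2 ^ k := by positivity
    rw [mul_assoc] at h2
    omega)
  have h2 : ∀ r ∈ gram k, r.2.length ≤ 3 ∧ (r.2.map bits).sum ≤ 4 * k + 6 := by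
    rintro ⟨X, u⟩ h
    have e1 : ∀ n : ℕ, ((n : ℤ) + 1).natAbs = n + 1 := fun n => by omega
    have e2 : ∀ n : ℕ, n.size ≤ (n + 1).size := fun n => Nat.size_le_size (by omega)
    have e3 : Nat.size 2 = 2 := by decide
    have := e2 (vv k)
    rcases mem_gram.1 h with h | h | h | h | h | h | ⟨i, _, h | h | h | h⟩ <;>
      obtain ⟨rfl, rfl⟩ := h <;> simp [bits, nbits, e1, e3]
    · omega
    · have := hD (k - i) (by omega)
      have := e2 (DD (k - i))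
      omega
  have h3 := Finset.sum_le_card_nsmul _ _ _ fun r hr => (h2 r hr).1
  have h4 := Finset.sum_le_card_nsmul _ _ _ fun r hr => (h2 r hr).2
  have h5 := Nat.mul_le_mul_right (4 * k + 6) h1
  simp only [smul_eq_mul] at h3 h4
  unfold gsize
  rw [Finset.card_range]
  nlinarith

theorem poly_bound (P : Polynomial ℝ) : ∃ k : ℕ, 0 < k ∧ ∀ n : ℕ, n ≤ 103 * (k + 1) ^ 2 →
    P.eval (n : ℝ) ≤ 2 ^ k := by
  obtain ⟨C, hC⟩ : ∃ C : ℝ, C = ∑ i ∈ Finset.range (P.natDegree + 1), |P.coeff i| := ⟨_, rfl⟩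
  have C0 : 0 ≤ C := hC ▸ Finset.sum_nonneg fun _ _ => abs_nonneg _
  have h1 : ∀ x m : ℝ, 0 ≤ x → x ≤ m → 1 ≤ m → P.eval x ≤ C * m ^ P.natDegree := by
    intro x m h0 h1 h2
    rw [Polynomial.eval_eq_sum_range, hC, Finset.sum_mul]
    refine Finset.sum_le_sum fun i hi => ?_
    have : x ^ i ≤ m ^ P.natDegree := (pow_le_pow_left₀ h0 h1 i).trans
      (pow_le_pow_right₀ h2 (by simpa [Nat.lt_succ_iff] using hi))
    calc P.coeff i * x ^ i ≤ |P.coeff i| * x ^ i :=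
          mul_le_mul_of_nonneg_right (le_abs_self _) (by positivity)
      _ ≤ _ := mul_le_mul_of_nonneg_left this (abs_nonneg _)
  have h2 := (tendsto_pow_const_div_const_pow_of_one_lt (2 * P.natDegree)
    (show (1 : ℝ) < 2 by norm_num)).const_mul (2 * (C * 103 ^ P.natDegree))
  rw [mul_zero] at h2
  obtain ⟨m, a1, a2⟩ := ((h2.eventually (gt_mem_nhds one_pos)).and
    (Filter.eventually_ge_atTop 2)).exists
  obtain ⟨k, rfl⟩ : ∃ k, m = k + 1 := ⟨m - 1, by omega⟩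
  refine ⟨k, by omega, fun n hn => (h1 n (103 * (k + 1) ^ 2) (by positivity)
    (by exact_mod_cast hn) (by nlinarith [sq_nonneg (k : ℝ), Nat.cast_nonneg (α := ℝ) k])).trans ?_⟩
  rw [← mul_div_assoc, div_lt_one (by positivity), pow_succ] at a1
  rw [mul_pow, ← pow_mul]
  push_cast at a1
  linarith

theorem main (P : Polynomial ℝ) : ∃ (N : Finset ℕ) (R : Finset (ℕ × List (ℕ ⊕ ℤ))) (S a b : ℕ),
    S ∈ N ∧ (∀ r ∈ R, r.1 ∈ N ∧ r.2 ≠ [] ∧ ∀ Y, Sum.inl Y ∈ r.2 → Y ∈ N) ∧ Thin R ∧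
    (∃ s, DerFrom R S a b s) ∧ ∀ s, DerFrom R S a b s →
      ∀ n ≤ gsize N R + nbits a + nbits b, (2 : ℝ) ^ (P.eval (n : ℝ)) < s := by
  obtain ⟨k, hk, h⟩ := poly_bound P
  refine ⟨Finset.range (3 * k + 5), gram k, 3 * k + 4, 1, 2, by simp, fun r hr => by
    simpa using gram_nt hr, gram_thin k, top_reach k, fun s hs n hn => ?_⟩
  have h1 := top_long k s 1 one_pos hs
  have h2 := h n (by
    have := gram_size k
    have e2 : nbits 1 = 1 := by decide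
    have e3 : nbits 2 = 2 := by decide
    have e4 : 1 ≤ (k + 1) ^ 2 := Nat.one_le_pow _ _ (by omega)
    omega)
  have h3 : 2 ^ 2 ^ k < vv k ^ 2 ^ k := Nat.pow_lt_pow_left (by
    have := Nat.pow_le_pow_right (show 0 < 2 by omega) (show 2 ≤ k + 1 by omega)
    unfold vv; omega) (by positivity)
  calc (2 : ℝ) ^ (P.eval _) ≤ 2 ^ ((2 : ℝ) ^ k) := Real.rpow_le_rpow_of_exponent_le (by norm_num) h2
    _ = ((2 ^ 2 ^ k : ℕ) : ℝ) := by
      rw [show (2 : ℝ) ^ k = ((2 ^ k : ℕ) : ℝ) by push_cast; rfl, Real.rpow_natCast]; push_cast; rfl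
    _ < s := by exact_mod_cast (by omega)

end Pool.Agent.H63.GS
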