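import Mathlib

/-! Sizes of derivations in one-dimensional grammar vector addition systems: definitions. -/

set_option autoImplicit false

namespace Pool.Agent.H63.GS

/-- `Der R w l s`: a forest of complete derivation trees with roots spelling `w`, leaf word `l`
and `s` vertices in total. Nonterminals are natural numbers, terminals integers. -/
inductive Der (R : Finset (ℕ × List (ℕ ⊕ ℤ))) : List (ℕ ⊕ ℤ) → List ℤ → ℕ → Prop
  | nil : Der R [] [] 0
  | term {v : ℤ} {w : List (ℕ ⊕ ℤ)} {l : List ℤ} {s : ℕ} : Der R w l s →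
      Der R (Sum.inr v :: w) (v :: l) (s + 1)
  | nont {X : ℕ} {u w : List (ℕ ⊕ ℤ)} {l l' : List ℤ} {s s' : ℕ} : (X, u) ∈ R → u ≠ [] →
      Der R u l s → Der R w l' s' → Der R (Sum.inl X :: w) (l ++ l') (s + s' + 1)

/-- There is a derivation from `a` to `b` with root `S` and `s` vertices. -/
def DerFrom (R : Finset (ℕ × List (ℕ ⊕ ℤ))) (S a b s : ℕ) : Prop :=
  ∃ l, Der R [Sum.inl S] l s ∧ (∀ i ≤ l.length, 0 ≤ (a : ℤ) + (l.take i).sum) ∧
    (a : ℤ) + l.sum = b

/-- One rewriting step on sentential forms. -/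
def Step (R : Finset (ℕ × List (ℕ ⊕ ℤ))) (s t : List (ℕ ⊕ ℤ)) : Prop :=
  ∃ α β X u, (X, u) ∈ R ∧ s = α ++ Sum.inl X :: β ∧ t = α ++ u ++ β

/-- No nonterminal is branching. -/
def Thin (R : Finset (ℕ × List (ℕ ⊕ ℤ))) : Prop :=
  ∀ X : ℕ, ¬ ∃ α β γ : List (ℕ ⊕ ℤ), Relation.ReflTransGen (Step R) [Sum.inl X]
    (α ++ Sum.inl X :: β ++ Sum.inl X :: γ)

/-- Number of bits of the binary encoding of `n` (one bit for zero). -/
def nbits (n : ℕ) : ℕ := max 1 n.size

/-- Number of bits of a terminal (zero for a nonterminal). -/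
def bits : ℕ ⊕ ℤ → ℕ := Sum.elim (fun _ => 0) fun z => nbits z.natAbs

/-- Size of the grammar with nonterminal set `N` and rule set `R`. -/
def gsize (N : Finset ℕ) (R : Finset (ℕ × List (ℕ ⊕ ℤ))) : ℕ :=
  N.card + R.card + ∑ r ∈ R, r.2.length + ∑ r ∈ R, (r.2.map bits).sum

end Pool.Agent.H63.GS
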