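import Mathlib

/-! Kruskal's theorem for binary trees with labels in well-quasi-orders. -/

set_option autoImplicit false

namespace Pool.Agent.H63.GV

inductive BT (α β : Type) : Type
  | lf : α → BT α β
  | nd : β → BT α β → BT α β → BT α β

variable {α β : Type}

def BT.size : BT α β → ℕ
  | .lf _ => 0
  | .nd _ l m => l.size + m.size + 1

inductive Emb (r : α → α → Prop) (s : β → β → Prop) : BT α β → BT α β → Prop
  | lf {a a' : α} : r a a' → Emb r s (.lf a) (.lf a')
  | nd {b b' : β} {l l' m m' : BT α β} : s b b' → Emb r s l l' → Emb r s m m' →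
      Emb r s (.nd b l m) (.nd b' l' m')
  | left {t : BT α β} {b : β} {l m : BT α β} : Emb r s t l → Emb r s t (.nd b l m)
  | right {t : BT α β} {b : β} {l m : BT α β} : Emb r s t m → Emb r s t (.nd b l m)

variable {r : α → α → Prop} {s : β → β → Prop}

theorem Emb.refl' [IsPreorder α r] [IsPreorder β s] : ∀ t : BT α β, Emb r s t t
  | .lf a => .lf (refl a)
  | .nd b l m => .nd (refl b) (Emb.refl' l) (Emb.refl' m)

theorem Emb.trans' [IsPreorder α r] [IsPreorder β s] {t u v : BT α β} (h2 : Emb r s u v) :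
    Emb r s t u → Emb r s t v := by
  induction h2 generalizing t with
  | lf h => intro h1; cases h1 with
    | lf h' => exact .lf (_root_.trans h' h)
  | nd h _ _ ihl ihm => intro h1; cases h1 with
    | nd h' a b => exact .nd (_root_.trans h' h) (ihl a) (ihm b)
    | left a => exact .left (ihl a)
    | right a => exact .right (ihm a)
  | left _ ih => intro h1; exact .left (ih h1)
  | right _ ih => intro h1; exact .right (ih h1)

instance embPre [IsPreorder α r] [IsPreorder β s] : IsPreorder (BT α β) (Emb r s) where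
  refl := Emb.refl'
  trans := fun _ _ _ a b => Emb.trans' b a

theorem kruskal [IsPreorder α r] [IsPreorder β s] (hr : WellQuasiOrdered r)
    (hs : WellQuasiOrdered s) : WellQuasiOrdered (Emb r s) := by
  rw [← Set.partiallyWellOrderedOn_univ_iff,
    Set.PartiallyWellOrderedOn.iff_not_exists_isMinBadSeq BT.size]
  rintro ⟨f, hf, hmin⟩
  let Ch : Set (BT α β) := {t | ∃ n b l m, f n = .nd b l m ∧ (t = l ∨ t = m)}
  have hCh : Ch.PartiallyWellOrderedOn (Emb r s) := by
    rw [Set.partiallyWellOrderedOn_iff_exists_lt]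
    intro g hg
    have hg' : ∀ k, ∃ n, (g k).size < (f n).size ∧ ∀ t, Emb r s t (g k) → Emb r s t (f n) := by
      intro k
      obtain ⟨n, b, l, m, h1, h2⟩ := hg k
      refine ⟨n, ?_, ?_⟩
      · rw [h1]; rcases h2 with h2 | h2 <;> rw [h2] <;> simp [BT.size] <;> omega
      · intro t ht
        rw [h1]; rcases h2 with h2 | h2 <;> rw [h2] at ht
        · exact .left ht
        · exact .right ht
    choose idx h1 h2 using hg'
    obtain ⟨k0, hk0⟩ : ∃ k0, ∀ k, idx k0 ≤ idx k :=
      ⟨Function.argmin idx, fun k => Function.argmin_le idx k⟩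
    have := hmin (idx k0) (fun n => if n < idx k0 then f n else g (k0 + (n - idx k0)))
      (fun m hm => by simp [hm]) (by simpa using h1 k0)
    rw [Set.PartiallyWellOrderedOn.IsBadSeq] at this
    push Not at this
    obtain ⟨m, n, hmn, he⟩ := this (fun _ => trivial)
    by_cases hn : n < idx k0
    · rw [if_pos hn, if_pos (hmn.trans hn)] at he
      exact absurd he (hf.2 m n hmn)
    · by_cases hm : m < idx k0
      · rw [if_pos hm, if_neg hn] at he
        exact absurd (h2 _ _ he) (hf.2 m _ (lt_of_lt_of_le hm (hk0 _)))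
      · rw [if_neg hm, if_neg hn] at he
        exact ⟨_, _, by omega, he⟩
  by_cases hl : ∀ N, ∃ n, N ≤ n ∧ ∃ a, f n = .lf a
  · have : ∃ᶠ n in Filter.atTop, ∃ a, f n = .lf a := by
      rw [Filter.frequently_atTop]; exact fun N => hl N
    obtain ⟨φ, hφ, h⟩ := Filter.extraction_of_frequently_atTop this
    choose a ha using h
    obtain ⟨m, n, hmn, h⟩ := hr a
    exact hf.2 (φ m) (φ n) (hφ hmn) (by rw [ha, ha]; exact .lf h)
  · push Not at hl
    obtain ⟨N, hN⟩ := hl
    have : ∀ n, ∃ b l m, f (N + n) = .nd b l m := by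
      intro n
      cases h : f (N + n) with
      | lf a => exact absurd h (hN _ (by omega) a)
      | nd b l m => exact ⟨b, l, m, rfl⟩
    choose b l m h using this
    obtain ⟨g1, hg1⟩ := hCh.exists_monotone_subseq (f := l)
      (fun n => ⟨_, _, _, _, h n, Or.inl rfl⟩)
    obtain ⟨g2, hg2⟩ := hCh.exists_monotone_subseq (f := fun n => m (g1 n))
      (fun n => ⟨_, _, _, _, h (g1 n), Or.inr rfl⟩)
    obtain ⟨i, j, hij, hb⟩ := hs (fun n => b (g1 (g2 n)))
    refine hf.2 (N + g1 (g2 i)) (N + g1 (g2 j)) ?_ ?_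
    · have := g1.strictMono (g2.strictMono hij); omega
    · rw [h, h]
      exact .nd hb (hg1 _ _ (g2.monotone hij.le)) (hg2 _ _ hij.le)

/-- finite basis -/
theorem finite_basis {T : Type} {e : T → T → Prop} (he : WellQuasiOrdered e) (p : T → Prop) :
    ∃ S : Finset T, (∀ t ∈ S, p t) ∧ ∀ t, p t → ∃ u ∈ S, e u t := by
  by_contra h
  push Not at h
  obtain ⟨f, -, h2⟩ := exists_seq_of_forall_finset_exists p (fun u t => ¬ e u t) (fun S hS => by
    obtain ⟨t, h1, h2⟩ := h S hS
    exact ⟨t, h1, h2⟩)
  obtain ⟨m, n, hmn, h⟩ := he f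
  exact h2 m n hmn h

end Pool.Agent.H63.GV
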