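import Pool.Agent.H63.GV10

/-! Finite certificates for the reachability set of a 1-GVAS: soundness and completeness. -/

set_option autoImplicit false

namespace Pool.Agent.H63.GV

abbrev Fa : Type := Bool × Wd × (ℕ × ℕ) × Wd × (ℕ × ℕ)

def jf (w : Wd) (x y p p' : ℕ) : Fa := (true, w, (x, y), [], (p, p'))
def cf (w : Wd) (x y : ℕ) (μ : Wd) (l r : ℕ) : Fa := (false, w, (x, y), μ, (l, r))

def Fa.w (f : Fa) : Wd := f.2.1
def Fa.x (f : Fa) : ℕ := f.2.2.1.1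
def Fa.y (f : Fa) : ℕ := f.2.2.1.2
def Fa.m (f : Fa) : Wd := f.2.2.2.1
def Fa.p (f : Fa) : ℕ := f.2.2.2.2.1
def Fa.r (f : Fa) : ℕ := f.2.2.2.2.2

def lwb (w : Wd) (x y : ℕ) : Bool := (tv w).elim false fun c => decide (y + c.2 = x + c.1)

def j0 (f : Fa) : Bool :=
  (decide (f = jf f.w f.x f.y f.p f.p) && lwb f.w f.x f.y) || decide (f = cf f.w f.x f.y f.w f.x f.y)

def j1 (f g h : Fa) : Bool :=
  (decide (f = jf g.w g.x g.y f.p f.r) && (decide (g = jf g.w g.x g.y g.p g.r) &&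
    decide (h = cf g.w (g.x + f.p) (g.y + f.r) g.w (g.x + g.p) (g.y + g.r)))) ||
  (decide (f = jf h.w h.x h.y g.p g.r) && (decide (g = jf g.w g.x g.y g.p g.r) &&
    decide (h = cf h.w h.x h.y g.w g.x g.y)))

def j2 (t : Wd × Wd × Wd) (f g h : Fa) : Bool :=
  (decide (f = jf t.1 g.x h.y g.p h.r) && (decide (g = jf t.2.1 g.x g.y g.p g.r) &&
    decide (h = jf t.2.2 g.y h.y g.r h.r))) ||
  ((decide (f = cf t.1 g.x h.y g.m g.p g.r) && (decide (g = cf t.2.1 g.x g.y g.m g.p g.r) &&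
    decide (h = jf t.2.2 g.y h.y 0 0))) ||
  (decide (f = cf t.1 g.x h.y h.m h.p h.r) && (decide (g = jf t.2.1 g.x g.y 0 0) &&
    decide (h = cf t.2.2 g.y h.y h.m h.p h.r))))

def just (T : List (Wd × Wd × Wd)) (F : List Fa) (f : Fa) : Bool :=
  j0 f || F.any fun g => F.any fun h => j1 f g h || T.any fun t => j2 t f g h

def valid (T : List (Wd × Wd × Wd)) (F : List Fa) : Bool :=
  (List.range F.length).all fun i => just T (F.drop (i + 1)) (F.getD i (jf [] 0 0 0 0))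

theorem valid_cons (T : List (Wd × Wd × Wd)) (F : List Fa) (f : Fa) :
    valid T (f :: F) = (just T F f && valid T F) := by
  simp [valid, List.range_succ_eq_map, List.all_map, Function.comp_def]

theorem just_mono {T : List (Wd × Wd × Wd)} {F F' : List Fa} (h : F ⊆ F') {f : Fa}
    (hf : just T F f = true) : just T F' f = true := by
  simp only [just, Bool.or_eq_true, List.any_eq_true] at hf ⊢
  rcases hf with hf | ⟨g, h1, k, h2, h3⟩
  · exact Or.inl hf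
  · exact Or.inr ⟨g, h h1, k, h h2, h3⟩

theorem valid_append {T : List (Wd × Wd × Wd)} {F F' : List Fa} (h : valid T F = true)
    (h' : valid T F' = true) : valid T (F ++ F') = true := by
  induction F with
  | nil => exact h'
  | cons f F ih =>
    rw [valid_cons, Bool.and_eq_true] at h
    rw [List.cons_append, valid_cons, Bool.and_eq_true]
    exact ⟨just_mono (List.subset_append_left _ _) h.1, ih h.2⟩

theorem lwb_iff {w : Wd} {x y : ℕ} : lwb w x y = true ↔ Lw w x y := by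
  unfold lwb Lw
  cases tv w <;> simp

variable {G : Gr}

def Sm (G : Gr) (f : Fa) : Prop :=
  (∀ w x y p r, f = jf w x y p r → J (Bw G) Lw Ldw w x y p r) ∧
  (∀ w x y μ l r, f = cf w x y μ l r → Ctx (Bw G) Lw w x y μ l r)

theorem sm_j {f : Fa} {w : Wd} {x y p r : ℕ} (e : f = jf w x y p r)
    (h : J (Bw G) Lw Ldw w x y p r) : Sm G f := by
  subst e
  constructor
  · intro _ _ _ _ _ e
    simp only [jf, Prod.mk.injEq] at e
    obtain ⟨-, rfl, ⟨rfl, rfl⟩, -, rfl, rfl⟩ := e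
    exact h
  · intro _ _ _ _ _ _ e; simp [jf, cf] at e

theorem sm_c {f : Fa} {w μ : Wd} {x y p r : ℕ} (e : f = cf w x y μ p r)
    (h : Ctx (Bw G) Lw w x y μ p r) : Sm G f := by
  subst e
  constructor
  · intro _ _ _ _ _ e; simp [jf, cf] at e
  · intro _ _ _ _ _ _ e
    simp only [cf, Prod.mk.injEq] at e
    obtain ⟨-, rfl, ⟨rfl, rfl⟩, rfl, rfl, rfl⟩ := e
    exact h

theorem J.rel0 {w : Wd} {x y : ℕ} (h : J (Bw G) Lw Ldw w x y 0 0) : Rel (Bw G) Lw w x y := by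
  simpa using h.sound lw_diag ldw_sound 0

theorem just_sound {F : List Fa} (hF : ∀ g ∈ F, Sm G g) {f : Fa}
    (hf : just (trip G) F f = true) : Sm G f := by
  simp only [just, j0, j1, j2, Bool.or_eq_true, List.any_eq_true, Bool.and_eq_true,
    decide_eq_true_eq, lwb_iff] at hf
  rcases hf with (⟨h1, h2⟩ | h1) | ⟨g, hg, h, hh, (⟨h1, h2, h3⟩ | ⟨h1, h2, h3⟩) |
    ⟨t, ht, ⟨h1, h2, h3⟩ | ⟨h1, h2, h3⟩ | ⟨h1, h2, h3⟩⟩⟩
  · exact sm_j h1 (.lf ⟨h2, rfl⟩)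
  · exact sm_c h1 (.refl _ _ _)
  · exact sm_j h1 (.pump ((hF g hg).1 _ _ _ _ _ h2) ((hF h hh).2 _ _ _ _ _ _ h3))
  · exact sm_j h1 (.move ((hF g hg).1 _ _ _ _ _ h2) ((hF h hh).2 _ _ _ _ _ _ h3))
  · exact sm_j h1 (.bin ht ((hF g hg).1 _ _ _ _ _ h2) ((hF h hh).1 _ _ _ _ _ h3))
  · exact sm_c h1 (.left ht ((hF g hg).2 _ _ _ _ _ _ h2) ((hF h hh).1 _ _ _ _ _ h3).rel0)
  · exact sm_c h1 (.right ht ((hF g hg).1 _ _ _ _ _ h2).rel0 ((hF h hh).2 _ _ _ _ _ _ h3))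

theorem valid_sound {F : List Fa} (h : valid (trip G) F = true) : ∀ f ∈ F, Sm G f := by
  induction F with
  | nil => simp
  | cons f F ih =>
    rw [valid_cons, Bool.and_eq_true] at h
    intro g hg
    rcases List.mem_cons.1 hg with rfl | hg
    · exact just_sound (ih h.2) h.1
    · exact ih h.2 g hg

def Has (G : Gr) (f : Fa) : Prop := ∃ F, valid (trip G) F = true ∧ f ∈ F

theorem has0 {f : Fa} (h : j0 f = true) : Has G f :=
  ⟨[f], by rw [valid_cons]; simp [just, h, valid], by simp⟩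

theorem has2 {f g h : Fa} (hg : Has G g) (hh : Has G h)
    (H : (j1 f g h || (trip G).any fun t => j2 t f g h) = true) : Has G f := by
  obtain ⟨F1, a1, a2⟩ := hg
  obtain ⟨F2, b1, b2⟩ := hh
  refine ⟨f :: (F1 ++ F2), ?_, by simp⟩
  rw [valid_cons, valid_append a1 b1, Bool.and_true]
  simp only [just, Bool.or_eq_true, List.any_eq_true] at H ⊢
  exact Or.inr ⟨g, by simp [a2], h, by simp [b2], H⟩

theorem has2' {f g h : Fa} (hg : Has G g) (hh : Has G h) {a b c : Wd} (ht : Bw G a b c)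
    (H : j2 (a, b, c) f g h = true) : Has G f :=
  has2 hg hh (by simp only [Bool.or_eq_true, List.any_eq_true]; exact Or.inr ⟨_, ht, H⟩)

theorem has_rel {w : Wd} {x y : ℕ} (h : Rel (Bw G) Lw w x y) : Has G (jf w x y 0 0) := by
  induction h with
  | lf h => exact has0 (by simp [j0, jf, Fa.w, Fa.x, Fa.y, Fa.p, lwb_iff, h])
  | bin hb _ _ i1 i2 => exact has2' i1 i2 hb (by simp [j2, jf, Fa.x, Fa.y, Fa.p, Fa.r])

theorem has_ctx {w μ : Wd} {x y l r : ℕ} (h : Ctx (Bw G) Lw w x y μ l r) :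
    Has G (cf w x y μ l r) := by
  induction h with
  | refl => exact has0 (by simp [j0, cf, Fa.w, Fa.x, Fa.y])
  | left hb _ h ih =>
    exact has2' ih (has_rel h) hb (by simp [j2, jf, cf, Fa.x, Fa.y, Fa.p, Fa.r, Fa.m])
  | right hb h _ ih =>
    exact has2' (has_rel h) ih hb (by simp [j2, jf, cf, Fa.x, Fa.y, Fa.p, Fa.r, Fa.m])

theorem has_j {w : Wd} {x y p r : ℕ} (h : J (Bw G) Lw Ldw w x y p r) : Has G (jf w x y p r) := by
  induction h with
  | lf h =>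
    obtain ⟨h, rfl⟩ := h
    exact has0 (by simp [j0, jf, Fa.w, Fa.x, Fa.y, Fa.p, lwb_iff, h])
  | bin hb _ _ i1 i2 => exact has2' i1 i2 hb (by simp [j2, jf, Fa.x, Fa.y, Fa.p, Fa.r])
  | pump _ h ih =>
    exact has2 ih (has_ctx h) (by simp [j1, jf, cf, Fa.x, Fa.y, Fa.p, Fa.r, Fa.w])
  | move _ h ih =>
    exact has2 ih (has_ctx h) (by simp [j1, jf, cf, Fa.x, Fa.y, Fa.p, Fa.r, Fa.w])

theorem has_list (L : List Fa) (h : ∀ f ∈ L, Has G f) :
    ∃ F, valid (trip G) F = true ∧ ∀ f ∈ L, f ∈ F := by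
  induction L with
  | nil => exact ⟨[], by simp [valid], by simp⟩
  | cons f L ih =>
    obtain ⟨F1, a1, a2⟩ := h f (by simp)
    obtain ⟨F2, b1, b2⟩ := ih fun g hg => h g (by simp [hg])
    refine ⟨F1 ++ F2, valid_append a1 b1, fun g hg => ?_⟩
    rcases List.mem_cons.1 hg with rfl | hg
    · simp [a2]
    · simp [b2 g hg]

/-! automata -/

def dl (tb : List ℕ) (q d1 d2 : ℕ) : ℕ := tb.getD (4 * q + 2 * d1 + d2) 0

def memF (tb ac : List ℕ) : ℕ → ℕ → ℕ → ℕ → Prop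
  | 0, q, _, _ => q ∈ ac
  | k + 1, q, x, y => memF tb ac k (dl tb q (x % 2) (y % 2)) (x / 2) (y / 2)

def chk3 (tb ac : List ℕ) (W : List (ℕ × ℕ × ℕ)) : Bool :=
  W.all fun t => (!(ac.contains t.1 && ac.contains t.2.1) || ac.contains t.2.2) &&
    (List.range 2).all fun d1 => (List.range 2).all fun d2 => (List.range 2).all fun d3 =>
      W.contains (dl tb t.1 d1 d2, dl tb t.2.1 d2 d3, dl tb t.2.2 d1 d3)

def chkL (tb ac : List ℕ) (W : List (ℕ × ℕ × ℕ)) : Bool :=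
  W.all fun t => (!(decide (t.2.1 = t.2.2)) || ac.contains t.1) &&
    (List.range 2).all fun d1 => (List.range 2).all fun d2 =>
      !(decide ((t.2.1 + d1) % 2 = (t.2.2 + d2) % 2)) ||
      W.contains (dl tb t.1 d1 d2, (t.2.1 + d1 - (t.2.2 + d2)) / 2, (t.2.2 + d2 - (t.2.1 + d1)) / 2)

def chkF (tb ac : List ℕ) (W : List ((ℕ × ℕ) × ℕ × ℕ)) : Bool :=
  W.all fun t => (!(decide (t.1.2 = 0) && decide (t.2.1 = 0)) || !ac.contains t.1.1) &&
    (List.range 2).all fun n =>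
      W.contains ((dl tb t.1.1 (t.1.2 % 2) ((t.2.1 + n * t.2.2) % 2), t.1.2 / 2),
        (t.2.1 + n * t.2.2) / 2, t.2.2)

variable {tb ac : List ℕ}

theorem chk3_iff {W : List (ℕ × ℕ × ℕ)} : chk3 tb ac W = true ↔ ∀ t ∈ W,
    (t.1 ∈ ac → t.2.1 ∈ ac → t.2.2 ∈ ac) ∧ ∀ d1 < 2, ∀ d2 < 2, ∀ d3 < 2,
      (dl tb t.1 d1 d2, dl tb t.2.1 d2 d3, dl tb t.2.2 d1 d3) ∈ W := by
  simp only [chk3, List.all_eq_true, Bool.and_eq_true, Bool.or_eq_true, Bool.not_eq_true',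
    List.contains_iff_mem, List.mem_range, Bool.and_eq_false_iff, ← Bool.not_eq_true]
  refine forall₂_congr fun t _ => and_congr_left' (by tauto)

theorem chkL_iff {W : List (ℕ × ℕ × ℕ)} : chkL tb ac W = true ↔ ∀ t ∈ W,
    (t.2.1 = t.2.2 → t.1 ∈ ac) ∧ ∀ d1 < 2, ∀ d2 < 2, (t.2.1 + d1) % 2 = (t.2.2 + d2) % 2 →
      (dl tb t.1 d1 d2, (t.2.1 + d1 - (t.2.2 + d2)) / 2, (t.2.2 + d2 - (t.2.1 + d1)) / 2) ∈ W := by
  simp only [chkL, List.all_eq_true, Bool.and_eq_true, Bool.or_eq_true, Bool.not_eq_true',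
    List.contains_iff_mem, List.mem_range, decide_eq_false_iff_not, ← imp_iff_not_or]

theorem chkF_iff {W : List ((ℕ × ℕ) × ℕ × ℕ)} : chkF tb ac W = true ↔ ∀ t ∈ W,
    (t.1.2 = 0 → t.2.1 = 0 → t.1.1 ∉ ac) ∧ ∀ n < 2,
      ((dl tb t.1.1 (t.1.2 % 2) ((t.2.1 + n * t.2.2) % 2), t.1.2 / 2),
        (t.2.1 + n * t.2.2) / 2, t.2.2) ∈ W := by
  simp only [chkF, List.all_eq_true, Bool.and_eq_true, Bool.or_eq_true, Bool.not_eq_true',
    List.contains_iff_mem, List.mem_range, Bool.and_eq_false_iff, ← Bool.not_eq_true,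
    decide_eq_true_eq]
  refine forall₂_congr fun t _ => and_congr_left' (by tauto)

theorem chk3_sound {W : List (ℕ × ℕ × ℕ)} (h : chk3 tb ac W = true) (k : ℕ) :
    ∀ t ∈ W, ∀ x z y, memF tb ac k t.1 x z → memF tb ac k t.2.1 z y → memF tb ac k t.2.2 x y := by
  rw [chk3_iff] at h
  induction k with
  | zero => exact fun t ht _ _ _ => (h t ht).1
  | succ k ih =>
    intro t ht x z y
    exact ih _ ((h t ht).2 _ (Nat.mod_lt x two_pos) _ (Nat.mod_lt z two_pos) _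
      (Nat.mod_lt y two_pos)) _ _ _

theorem chkL_sound {W : List (ℕ × ℕ × ℕ)} (h : chkL tb ac W = true) (k : ℕ) :
    ∀ t ∈ W, ∀ x y, x < 2 ^ k → y < 2 ^ k → y + t.2.2 = x + t.2.1 → memF tb ac k t.1 x y := by
  rw [chkL_iff] at h
  induction k with
  | zero => exact fun t ht x y h1 h2 h3 => (h t ht).1 (by omega)
  | succ k ih =>
    intro t ht x y h1 h2 h3
    rw [pow_succ] at h1 h2
    exact ih _ ((h t ht).2 _ (Nat.mod_lt x two_pos) _ (Nat.mod_lt y two_pos) (by omega)) _ _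
      (by omega) (by omega) (by simp only; omega)

theorem chkF_sound {W : List ((ℕ × ℕ) × ℕ × ℕ)} (h : chkF tb ac W = true) (k : ℕ) :
    ∀ t ∈ W, ∀ n, t.1.2 < 2 ^ k → t.2.1 + n * t.2.2 < 2 ^ k →
      ¬ memF tb ac k t.1.1 t.1.2 (t.2.1 + n * t.2.2) := by
  rw [chkF_iff] at h
  induction k with
  | zero => exact fun t ht n h1 h2 => (h t ht).1 (by omega) (by omega)
  | succ k ih =>
    intro t ht n h1 h2
    rw [pow_succ] at h1 h2
    have e : n * t.2.2 = n % 2 * t.2.2 + 2 * (n / 2 * t.2.2) := by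
      conv_lhs => rw [← Nat.mod_add_div n 2]
      ring
    have := ih _ ((h t ht).2 _ (Nat.mod_lt n two_pos)) (n / 2) (by simp only; omega)
      (by simp only; omega)
    simp only at this
    rw [memF, show (t.2.1 + n * t.2.2) % 2 = (t.2.1 + n % 2 * t.2.2) % 2 by omega,
      show (t.2.1 + n * t.2.2) / 2 = (t.2.1 + n % 2 * t.2.2) / 2 + n / 2 * t.2.2 by omega]
    exact this

abbrev Inp : Type := Gr × ℕ × ℕ
abbrev Cert : Type := (List Fa × ℕ × ℕ) × (List ℕ × List ℕ × List ℕ) ×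
  (List (ℕ × ℕ × ℕ) × List (ℕ × ℕ × ℕ) × List ((ℕ × ℕ) × ℕ × ℕ))

def st (it : List ℕ) (w : Wd) : ℕ := it.getD (Encodable.encode w) 0

def selF (F : List Fa) (S a k p c : ℕ) : Bool :=
  F.any fun g => decide (g = jf [Sum.inl S] a c 0 (if c < k then 0 else p))

theorem selF_iff {F : List Fa} {S a k p c : ℕ} :
    selF F S a k p c = true ↔ jf [Sum.inl S] a c 0 (if c < k then 0 else p) ∈ F := by
  simp [selF]

def check (i : Inp) (e : Cert) : Bool :=
  (valid (trip i.1) e.1.1 && decide (0 < e.1.2.2)) &&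
  ((chk3 e.2.1.1 e.2.1.2.1 e.2.2.1 && chkL e.2.1.1 e.2.1.2.1 e.2.2.2.1 &&
    chkF e.2.1.1 e.2.1.2.1 e.2.2.2.2) &&
  (((trip i.1).all fun t => e.2.2.1.contains (st e.2.1.2.2 t.2.1, st e.2.1.2.2 t.2.2, st e.2.1.2.2 t.1)) &&
  (((labs i.1 i.2.1).all fun w => (tv w).elim true fun c =>
    e.2.2.2.1.contains (st e.2.1.2.2 w, c.1, c.2)) &&
  (List.range (e.1.2.1 + e.1.2.2)).all fun c => selF e.1.1 i.2.1 i.2.2 e.1.2.1 e.1.2.2 c ||
    e.2.2.2.2.contains ((st e.2.1.2.2 [Sum.inl i.2.1], i.2.2), c,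
      if c < e.1.2.1 then 0 else e.1.2.2))))

def out (i : Inp) (e : Cert) : List (ℕ × List ℕ) :=
  outL e.1.2.1 e.1.2.2 (selF e.1.1 i.2.1 i.2.2 e.1.2.1 e.1.2.2)

theorem check_iff {S a k p : ℕ} {F : List Fa} {it : List ℕ} {W3 WL : List (ℕ × ℕ × ℕ)}
    {WF : List ((ℕ × ℕ) × ℕ × ℕ)} :
    check (G, S, a) ((F, k, p), (tb, ac, it), (W3, WL, WF)) = true ↔
    (valid (trip G) F = true ∧ 0 < p) ∧ ((chk3 tb ac W3 = true ∧ chkL tb ac WL = true) ∧
      chkF tb ac WF = true) ∧ (∀ t ∈ trip G, (st it t.2.1, st it t.2.2, st it t.1) ∈ W3) ∧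
      (∀ w ∈ labs G S, ∀ c, tv w = some c → (st it w, c.1, c.2) ∈ WL) ∧
      ∀ c < k + p, selF F S a k p c = true ∨
        ((st it [Sum.inl S], a), c, if c < k then 0 else p) ∈ WF := by
  simp only [check, Bool.and_eq_true, List.all_eq_true, Bool.or_eq_true, List.contains_iff_mem,
    List.mem_range, decide_eq_true_eq]
  refine and_congr_right' (and_congr_right' (and_congr_right' (and_congr_left'
    (forall₂_congr fun w _ => ?_))))
  cases tv w <;> simp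

theorem check_sound {S a : ℕ} {e : Cert} (h : check (G, S, a) e = true) :
    {b | Reach G S a b} = SemSet (out (G, S, a) e) := by
  obtain ⟨⟨F, k, p⟩, ⟨tb, ac, it⟩, ⟨W3, WL, WF⟩⟩ := e
  obtain ⟨⟨h1, hp⟩, ⟨⟨h2, h3⟩, h4⟩, h5, h6, h7⟩ := check_iff.1 h
  have key : ∀ w x y, Rel (Bw G) Lw w x y → w ∈ labs G S →
      ∀ᶠ k in Filter.atTop, memF tb ac k (st it w) x y := by
    intro w x y h
    induction h with
    | @lf w x y h =>
      intro hw
      obtain ⟨c, a1, a2⟩ := h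
      filter_upwards [Filter.eventually_ge_atTop (x + y)] with k hk
      have := Nat.lt_two_pow_self (n := k)
      exact chkL_sound h3 k _ (h6 w hw c a1) x y (by omega) (by omega) a2
    | bin hb _ _ i1 i2 =>
      intro _
      filter_upwards [i1 (labs_mem hb).2.1, i2 (labs_mem hb).2.2] with k a1 a2
      exact chk3_sound h2 k _ (h5 _ hb) _ _ _ a1 a2
  refine semSet_out hp (fun c hc => ?_) fun c hc => (h7 c hc).imp id fun h n hn => ?_
  · exact (valid_sound h1 _ (selF_iff.1 hc)).1 _ _ _ _ _ rfl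
  · obtain ⟨m, a1, a2⟩ := ((key _ _ _ hn List.mem_cons_self).and
      (Filter.eventually_ge_atTop (a + (c + n * if c < k then 0 else p)))).exists
    have := Nat.lt_two_pow_self (n := m)
    exact chkF_sound h4 m _ h n (by simp only; omega) (by simp only; omega) a1

theorem check_complete (hG : Thin G) (S a : ℕ) : ∃ e, check (G, S, a) e = true := by
  classical
  obtain ⟨k, p, hp, I, i1, i2, i3, i4, i5⟩ :=
    (sysG G S).invariant (thin_BG hG) ⟨[Sum.inl S], List.mem_cons_self⟩ a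
  obtain ⟨n, A, δ, ini, a1, a2⟩ := exists_dfa i1 i2
  obtain ⟨F, f1, f2⟩ := has_list (G := G) (((List.range (k + p)).filter fun c => decide
    (J (Bw G) Lw Ldw [Sum.inl S] a c 0 (if c < k then 0 else p))).map
      fun c => jf [Sum.inl S] a c 0 (if c < k then 0 else p)) (by
    simp only [List.mem_map, List.mem_filter, decide_eq_true_eq]
    rintro _ ⟨c, ⟨-, h⟩, rfl⟩
    exact has_j h)
  obtain ⟨N, hN⟩ := Finite.exists_le fun w : {w // w ∈ labs G S} => Encodable.encode w.1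
  obtain ⟨Bd, hB⟩ := Finite.exists_le fun w : {w // w ∈ labs G S} =>
    ((tv w.1).getD (0, 0)).1 + ((tv w.1).getD (0, 0)).2
  let it : List ℕ := (List.range (N + 1)).map fun j =>
    if h : ∃ w : {w // w ∈ labs G S}, Encodable.encode w.1 = j then ini h.choose else 0
  have hit : ∀ w (hw : w ∈ labs G S), st it w = ini ⟨w, hw⟩ := by
    intro w hw
    have h1 := hN ⟨w, hw⟩
    have h : ∃ w' : {w // w ∈ labs G S}, Encodable.encode w'.1 = Encodable.encode w := ⟨⟨w, hw⟩, rfl⟩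
    have e : h.choose = ⟨w, hw⟩ := Subtype.ext (Encodable.encode_injective h.choose_spec)
    rw [st, List.getD_eq_getElem _ _ (by simp [it]; omega)]
    simp only [it, List.getElem_map, List.getElem_range, dif_pos h, e]
  let tb : List ℕ := (List.range (4 * n)).map fun j => δ (j / 4) (j % 4 / 2) (j % 2)
  have htb : ∀ q < n, ∀ d1 < 2, ∀ d2 < 2, dl tb q d1 d2 = δ q d1 d2 := by
    intro q hq d1 h1 d2 h2
    rw [dl, List.getD_eq_getElem _ _ (by simp [tb]; omega)]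
    simp only [tb, List.getElem_map, List.getElem_range]
    congr 1 <;> omega
  let ac : List ℕ := (List.range n).filter fun q => decide (A q 0 0)
  have hac : ∀ q < n, q ∈ ac ↔ A q 0 0 := fun q hq => by simp [ac, hq]
  have b3 : {t : ℕ × ℕ × ℕ | (t.1 < n ∧ t.2.1 < n ∧ t.2.2 < n) ∧
      ∀ x z y, A t.1 x z → A t.2.1 z y → A t.2.2 x y}.Finite :=
    ((Set.finite_lt_nat n).prod ((Set.finite_lt_nat n).prod (Set.finite_lt_nat n))).subset
      fun t ht => ht.1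
  have bL : {t : ℕ × ℕ × ℕ | (t.1 < n ∧ t.2.1 ≤ Bd + 1 ∧ t.2.2 ≤ Bd + 1) ∧
      ∀ x y, y + t.2.2 = x + t.2.1 → A t.1 x y}.Finite :=
    ((Set.finite_lt_nat n).prod ((Set.finite_le_nat _).prod (Set.finite_le_nat _))).subset
      fun t ht => ht.1
  have bF : {t : (ℕ × ℕ) × ℕ × ℕ | ((t.1.1 < n ∧ t.1.2 ≤ a) ∧ t.2.1 ≤ k + p ∧ t.2.2 ≤ k + p) ∧
      ∀ m, ¬ A t.1.1 t.1.2 (t.2.1 + m * t.2.2)}.Finite :=
    (((Set.finite_lt_nat n).prod (Set.finite_le_nat _)).prod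
      ((Set.finite_le_nat _).prod (Set.finite_le_nat _))).subset fun t ht => ht.1
  refine ⟨((F, k, p), (tb, ac, it), (b3.toFinset.toList, bL.toFinset.toList, bF.toFinset.toList)),
    check_iff.2 ⟨⟨f1, hp⟩, ⟨⟨chk3_iff.2 ?_, chkL_iff.2 ?_⟩, chkF_iff.2 ?_⟩, ?_, ?_, ?_⟩⟩
  all_goals simp only [Finset.mem_toList, Set.Finite.mem_toFinset, Set.mem_ofPred_eq]
  · rintro ⟨q1, q2, q⟩ ⟨⟨c1, c2, c3⟩, c4⟩
    simp only at c1 c2 c3 c4 ⊢
    refine ⟨by rw [hac _ c1, hac _ c2, hac _ c3]; exact c4 0 0 0, fun d1 e1 d2 e2 d3 e3 => ?_⟩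
    rw [htb _ c1 _ e1 _ e2, htb _ c2 _ e2 _ e3, htb _ c3 _ e1 _ e3]
    refine ⟨⟨(a2 _ c1 _ e1 _ e2).1, (a2 _ c2 _ e2 _ e3).1, (a2 _ c3 _ e1 _ e3).1⟩, ?_⟩
    rw [(a2 _ c1 _ e1 _ e2).2, (a2 _ c2 _ e2 _ e3).2, (a2 _ c3 _ e1 _ e3).2]
    exact fun x z y => c4 _ _ _
  · rintro ⟨q, u, v⟩ ⟨⟨c1, c2, c3⟩, c4⟩
    simp only at c1 c2 c3 c4 ⊢
    refine ⟨fun h => (hac _ c1).2 (c4 0 0 (by omega)), fun d1 e1 d2 e2 e3 => ?_⟩
    rw [htb _ c1 _ e1 _ e2]
    refine ⟨⟨(a2 _ c1 _ e1 _ e2).1, by omega, by omega⟩, ?_⟩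
    rw [(a2 _ c1 _ e1 _ e2).2]
    exact fun x y h => c4 _ _ (by omega)
  · rintro ⟨⟨q, u⟩, c, π⟩ ⟨⟨⟨c1, c2⟩, c3, c5⟩, c4⟩
    simp only at c1 c2 c3 c4 c5 ⊢
    refine ⟨fun h h' => by rw [hac _ c1]; simpa [h, h'] using c4 0, fun m hm => ?_⟩
    have e1 := Nat.mod_lt u two_pos
    have e2 := Nat.mod_lt (c + m * π) two_pos
    have : m * π ≤ 1 * π := Nat.mul_le_mul_right _ (by omega)
    rw [htb _ c1 _ e1 _ e2]
    refine ⟨⟨⟨(a2 _ c1 _ e1 _ e2).1, by omega⟩, by omega, c5⟩, fun m' => ?_⟩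
    rw [(a2 _ c1 _ e1 _ e2).2]
    have := c4 (m + 2 * m')
    rw [show c + (m + 2 * m') * π = c + m * π + 2 * (m' * π) by ring] at this
    rwa [Dr, show 2 * (u / 2) + u % 2 = u by omega,
      show 2 * ((c + m * π) / 2 + m' * π) + (c + m * π) % 2 = c + m * π + 2 * (m' * π) by omega]
  · rintro ⟨w, w1, w2⟩ ht
    obtain ⟨m0, m1, m2⟩ := labs_mem (S := S) ht
    rw [hit _ m0, hit _ m1, hit _ m2]
    refine ⟨⟨(a1 _).1, (a1 _).1, (a1 _).1⟩, ?_⟩
    rw [(a1 _).2, (a1 _).2, (a1 _).2]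
    exact fun x z y => i4 _ _ _ x z y ht
  · intro w hw c hc
    have := hB ⟨w, hw⟩
    simp only [hc, Option.getD_some] at this
    rw [hit _ hw]
    refine ⟨⟨(a1 _).1, by omega, by omega⟩, ?_⟩
    rw [(a1 _).2]
    exact fun x y h => i3 _ _ _ ((sysG_lf _ _ _).2 ⟨c, hc, h⟩)
  · intro c hc
    rcases i5 c hc with h | h
    · refine Or.inl (selF_iff.2 (f2 _ (List.mem_map.2 ⟨c, ?_, rfl⟩)))
      simpa [hc] using J_word h
    · rw [hit _ List.mem_cons_self]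
      refine Or.inr ⟨⟨⟨(a1 _).1, le_rfl⟩, hc.le, by split_ifs <;> omega⟩, ?_⟩
      rw [(a1 _).2]
      exact h

end Pool.Agent.H63.GV
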