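import Pool.Agent.H63.GV11
import Pool.Agent.H37.CI

/-! Computability of the certificate check. -/

set_option autoImplicit false

namespace Pool.Agent.H63.GV

open Pool.Agent.H37

variable {α : Type} [Primcodable α]

theorem comp_sy : Computable sy := by
  have h1 : CI ∅ fun v : ℤ => (some (v.toNat, (-v).toNat) : Option (ℕ × ℕ)) := by
    have : CI ∅ fun v : ℤ => some (if Encodable.encode v % 2 = 0 then (Encodable.encode v / 2, 0)
      else (0, Encodable.encode v / 2 + 1)) := by fun_prop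
    refine this.of_eq fun v => ?_
    rcases v with n | n
    · have e : Encodable.encode (Int.ofNat n) = 2 * n := rfl
      rw [e, if_pos (by omega)]
      simp
    · have e : Encodable.encode (Int.negSucc n) = 2 * n + 1 := rfl
      rw [e, if_neg (by omega)]
      simp
      omega
  refine (Computable.sumCasesOn (f := fun s : Sym => s) (g := fun _ _ => (none : Option (ℕ × ℕ)))
    (h := fun _ v => some (v.toNat, (-v).toNat)) Computable.id (Computable.const _).to₂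
    (h1.computable.comp Computable.snd).to₂).of_eq fun s => ?_
  cases s <;> rfl

@[fun_prop] theorem ci_sy {f : α → Sym} (hf : CI ∅ f) : CI ∅ fun a => sy (f a) :=
  CI.comp1 comp_sy hf

@[fun_prop] theorem ci_tv {f : α → Wd} (hf : CI ∅ f) : CI ∅ fun a => tv (f a) := by
  unfold tv; fun_prop

@[fun_prop] theorem ci_trip {f : α → Gr} (hf : CI ∅ f) : CI ∅ fun a => trip (f a) := by
  unfold trip; fun_prop

@[fun_prop] theorem ci_labs {f : α → Gr} {g : α → ℕ} (hf : CI ∅ f) (hg : CI ∅ g) :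
    CI ∅ fun a => labs (f a) (g a) := by
  unfold labs; fun_prop

@[fun_prop] theorem ci_jf {w : α → Wd} {x y p r : α → ℕ} (h1 : CI ∅ w) (h2 : CI ∅ x) (h3 : CI ∅ y)
    (h4 : CI ∅ p) (h5 : CI ∅ r) : CI ∅ fun a => jf (w a) (x a) (y a) (p a) (r a) := by
  unfold jf; fun_prop

@[fun_prop] theorem ci_cf {w m : α → Wd} {x y p r : α → ℕ} (h1 : CI ∅ w) (h2 : CI ∅ x)
    (h3 : CI ∅ y) (h0 : CI ∅ m) (h4 : CI ∅ p) (h5 : CI ∅ r) :
    CI ∅ fun a => cf (w a) (x a) (y a) (m a) (p a) (r a) := by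
  unfold cf; fun_prop

@[fun_prop] theorem ci_w {f : α → Fa} (hf : CI ∅ f) : CI ∅ fun a => (f a).w := by
  unfold Fa.w; fun_prop
@[fun_prop] theorem ci_x {f : α → Fa} (hf : CI ∅ f) : CI ∅ fun a => (f a).x := by
  unfold Fa.x; fun_prop
@[fun_prop] theorem ci_y {f : α → Fa} (hf : CI ∅ f) : CI ∅ fun a => (f a).y := by
  unfold Fa.y; fun_prop
@[fun_prop] theorem ci_m {f : α → Fa} (hf : CI ∅ f) : CI ∅ fun a => (f a).m := by
  unfold Fa.m; fun_prop
@[fun_prop] theorem ci_p {f : α → Fa} (hf : CI ∅ f) : CI ∅ fun a => (f a).p := by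
  unfold Fa.p; fun_prop
@[fun_prop] theorem ci_r {f : α → Fa} (hf : CI ∅ f) : CI ∅ fun a => (f a).r := by
  unfold Fa.r; fun_prop

@[fun_prop] theorem ci_lwb {w : α → Wd} {x y : α → ℕ} (h1 : CI ∅ w) (h2 : CI ∅ x) (h3 : CI ∅ y) :
    CI ∅ fun a => lwb (w a) (x a) (y a) := by
  unfold lwb; fun_prop

@[fun_prop] theorem ci_j0 {f : α → Fa} (hf : CI ∅ f) : CI ∅ fun a => j0 (f a) := by
  unfold j0; fun_prop

@[fun_prop] theorem ci_j1 {f g h : α → Fa} (hf : CI ∅ f) (hg : CI ∅ g) (hh : CI ∅ h) :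
    CI ∅ fun a => j1 (f a) (g a) (h a) := by
  unfold j1; fun_prop

@[fun_prop] theorem ci_j2 {t : α → Wd × Wd × Wd} {f g h : α → Fa} (ht : CI ∅ t) (hf : CI ∅ f)
    (hg : CI ∅ g) (hh : CI ∅ h) : CI ∅ fun a => j2 (t a) (f a) (g a) (h a) := by
  unfold j2; fun_prop

@[fun_prop] theorem ci_just {T : α → List (Wd × Wd × Wd)} {F : α → List Fa} {f : α → Fa}
    (ht : CI ∅ T) (hF : CI ∅ F) (hf : CI ∅ f) : CI ∅ fun a => just (T a) (F a) (f a) := by
  unfold just; fun_prop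

@[fun_prop] theorem ci_valid {T : α → List (Wd × Wd × Wd)} {F : α → List Fa}
    (ht : CI ∅ T) (hF : CI ∅ F) : CI ∅ fun a => valid (T a) (F a) := by
  unfold valid; fun_prop

@[fun_prop] theorem ci_dl {t : α → List ℕ} {x y z : α → ℕ} (h1 : CI ∅ t) (h2 : CI ∅ x)
    (h3 : CI ∅ y) (h4 : CI ∅ z) : CI ∅ fun a => dl (t a) (x a) (y a) (z a) := by
  unfold dl; fun_prop

@[fun_prop] theorem ci_chk3 {t c : α → List ℕ} {W : α → List (ℕ × ℕ × ℕ)} (h1 : CI ∅ t)
    (h2 : CI ∅ c) (h3 : CI ∅ W) : CI ∅ fun a => chk3 (t a) (c a) (W a) := by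
  unfold chk3; fun_prop

@[fun_prop] theorem ci_chkL {t c : α → List ℕ} {W : α → List (ℕ × ℕ × ℕ)} (h1 : CI ∅ t)
    (h2 : CI ∅ c) (h3 : CI ∅ W) : CI ∅ fun a => chkL (t a) (c a) (W a) := by
  unfold chkL; fun_prop

@[fun_prop] theorem ci_chkF {t c : α → List ℕ} {W : α → List ((ℕ × ℕ) × ℕ × ℕ)} (h1 : CI ∅ t)
    (h2 : CI ∅ c) (h3 : CI ∅ W) : CI ∅ fun a => chkF (t a) (c a) (W a) := by
  unfold chkF; fun_prop

@[fun_prop] theorem ci_st {t : α → List ℕ} {w : α → Wd} (h1 : CI ∅ t) (h2 : CI ∅ w) :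
    CI ∅ fun a => st (t a) (w a) := by
  unfold st; fun_prop

@[fun_prop] theorem ci_selF {F : α → List Fa} {S x k p c : α → ℕ} (h0 : CI ∅ F) (h1 : CI ∅ S)
    (h2 : CI ∅ x) (h3 : CI ∅ k) (h4 : CI ∅ p) (h5 : CI ∅ c) :
    CI ∅ fun a => selF (F a) (S a) (x a) (k a) (p a) (c a) := by
  unfold selF; fun_prop

@[fun_prop] theorem ci_check {i : α → Inp} {e : α → Cert} (h1 : CI ∅ i) (h2 : CI ∅ e) :
    CI ∅ fun a => check (i a) (e a) := by
  unfold check; fun_prop

@[fun_prop] theorem ci_out {i : α → Inp} {e : α → Cert} (h1 : CI ∅ i) (h2 : CI ∅ e) :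
    CI ∅ fun a => out (i a) (e a) := by
  unfold out outL; fun_prop

def tryN (i : Inp) (n : ℕ) : Option (List (ℕ × List ℕ)) :=
  (Encodable.decode (α := Cert) n).bind fun e => cond (check i e) (some (out i e)) none

theorem comp_try : Computable₂ tryN := by
  have : CI ∅ fun q : Inp × ℕ => tryN q.1 q.2 := by
    unfold tryN; fun_prop
  exact this.computable

theorem main : ∃ f : Inp →. List (ℕ × List ℕ), Partrec f ∧
    ∀ (G : Gr) (S a : ℕ), Thin G → ∃ L ∈ f (G, S, a), {b | Reach G S a b} = SemSet L := by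
  refine ⟨fun i => Nat.rfindOpt (tryN i), Partrec.rfindOpt comp_try, fun G S a hG => ?_⟩
  obtain ⟨e, he⟩ := check_complete hG S a
  have hd : (Nat.rfindOpt (tryN (G, S, a))).Dom := Nat.rfindOpt_dom.2
    ⟨Encodable.encode e, out (G, S, a) e, by simp [tryN, he]⟩
  refine ⟨_, Part.get_mem hd, ?_⟩
  obtain ⟨n, hn⟩ := Nat.rfindOpt_spec (Part.get_mem hd)
  generalize (Nat.rfindOpt (tryN (G, S, a))).get hd = L at hn
  simp only [tryN, Option.mem_def, Option.bind_eq_some_iff] at hn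
  obtain ⟨e', -, h⟩ := hn
  cases hc : check (G, S, a) e'
  · simp [hc] at h
  · simp only [hc, cond_true, Option.some.injEq] at h
    exact h ▸ check_sound hc

end Pool.Agent.H63.GV
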