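import Pool.Agent.H63.GV1

/-! Binary grammar systems over monotone leaf relations: contexts, pumping, amalgamation. -/

set_option autoImplicit false

namespace Pool.Agent.H63.GV

variable {Λ ι : Type}

inductive Rel (B : Λ → Λ → Λ → Prop) (Lf : Λ → ℕ → ℕ → Prop) : Λ → ℕ → ℕ → Prop
  | lf {q : Λ} {x y : ℕ} : Lf q x y → Rel B Lf q x y
  | bin {q q1 q2 : Λ} {x z y : ℕ} : B q q1 q2 → Rel B Lf q1 x z → Rel B Lf q2 z y →
      Rel B Lf q x y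

def Diag (Lf : Λ → ℕ → ℕ → Prop) : Prop := ∀ q x y i, Lf q x y → Lf q (x + i) (y + i)

inductive Ctx (B : Λ → Λ → Λ → Prop) (Lf : Λ → ℕ → ℕ → Prop) :
    Λ → ℕ → ℕ → Λ → ℕ → ℕ → Prop
  | refl (q : Λ) (x y : ℕ) : Ctx B Lf q x y q x y
  | left {q q1 q2 μ : Λ} {x z y l r : ℕ} : B q q1 q2 → Ctx B Lf q1 x z μ l r →
      Rel B Lf q2 z y → Ctx B Lf q x y μ l r
  | right {q q1 q2 μ : Λ} {x z y l r : ℕ} : B q q1 q2 → Rel B Lf q1 x z →
      Ctx B Lf q2 z y μ l r → Ctx B Lf q x y μ l r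

inductive J (B : Λ → Λ → Λ → Prop) (Lf : Λ → ℕ → ℕ → Prop) (Ld : Λ → ℕ → ℕ → ℕ → ℕ → Prop) :
    Λ → ℕ → ℕ → ℕ → ℕ → Prop
  | lf {q : Λ} {x y p p' : ℕ} : Ld q x y p p' → J B Lf Ld q x y p p'
  | bin {q q1 q2 : Λ} {x z y p u p' : ℕ} : B q q1 q2 → J B Lf Ld q1 x z p u →
      J B Lf Ld q2 z y u p' → J B Lf Ld q x y p p'
  | pump {q : Λ} {x y p p' u u' : ℕ} : J B Lf Ld q x y u u' →
      Ctx B Lf q (x + p) (y + p') q (x + u) (y + u') → J B Lf Ld q x y p p'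
  | move {q μ : Λ} {x y l r p p' : ℕ} : J B Lf Ld μ l r p p' → Ctx B Lf q x y μ l r →
      J B Lf Ld q x y p p'

section
variable {B : Λ → Λ → Λ → Prop} {Lf : Λ → ℕ → ℕ → Prop}

theorem Rel.cast {q : Λ} {x y x' y' : ℕ} (h : Rel B Lf q x y) (h1 : x = x') (h2 : y = y') :
    Rel B Lf q x' y' := h1 ▸ h2 ▸ h

theorem Ctx.cast {q μ : Λ} {x y l r x' y' l' r' : ℕ} (h : Ctx B Lf q x y μ l r) (h1 : x = x')
    (h2 : y = y') (h3 : l = l') (h4 : r = r') : Ctx B Lf q x' y' μ l' r' :=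
  h1 ▸ h2 ▸ h3 ▸ h4 ▸ h

theorem Rel.lift (hd : Diag Lf) {q : Λ} {x y : ℕ} (h : Rel B Lf q x y) (i : ℕ) :
    Rel B Lf q (x + i) (y + i) := by
  induction h with
  | lf h => exact .lf (hd _ _ _ _ h)
  | bin hb _ _ i1 i2 => exact .bin hb i1 i2

theorem Rel.mono {Lf' : Λ → ℕ → ℕ → Prop} (hL : ∀ q x y, Lf q x y → Rel B Lf' q x y) {q : Λ}
    {x y : ℕ} (h : Rel B Lf q x y) : Rel B Lf' q x y := by
  induction h with
  | lf h => exact hL _ _ _ h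
  | bin hb _ _ i1 i2 => exact .bin hb i1 i2

theorem Ctx.lift (hd : Diag Lf) {q μ : Λ} {x y l r : ℕ} (h : Ctx B Lf q x y μ l r) (i j : ℕ) :
    Ctx B Lf q (x + i) (y + j) μ (l + i) (r + j) := by
  induction h with
  | refl => exact .refl _ _ _
  | left hb _ h ih => exact .left hb ih (h.lift hd j)
  | right hb h _ ih => exact .right hb (h.lift hd i) ih

theorem Ctx.fill {q μ : Λ} {x y l r : ℕ} (h : Ctx B Lf q x y μ l r) (h' : Rel B Lf μ l r) :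
    Rel B Lf q x y := by
  induction h with
  | refl => exact h'
  | left hb _ h ih => exact .bin hb (ih h') h
  | right hb h _ ih => exact .bin hb h (ih h')

theorem Ctx.trans {q μ ν : Λ} {x y l r a b : ℕ} (h : Ctx B Lf q x y μ l r)
    (h' : Ctx B Lf μ l r ν a b) : Ctx B Lf q x y ν a b := by
  induction h with
  | refl => exact h'
  | left hb _ h ih => exact .left hb (ih h') h
  | right hb h _ ih => exact .right hb h (ih h')

theorem Ctx.pump (hd : Diag Lf) {q : Λ} {x y p p' u u' : ℕ}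
    (h : Ctx B Lf q (x + p) (y + p') q (x + u) (y + u')) (n : ℕ) : ∀ a b : ℕ,
    Rel B Lf q (x + a + n * u) (y + b + n * u') → Rel B Lf q (x + a + n * p) (y + b + n * p') := by
  induction n with
  | zero => intro a b h; simpa using h
  | succ n ih =>
    intro a b h'
    have h1 := ih (a + u) (b + u') (h'.cast (by ring) (by ring))
    exact ((h.lift hd (a + n * p) (b + n * p')).fill (h1.cast (by ring) (by ring))).cast
      (by ring) (by ring)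

theorem J.sound (hd : Diag Lf) {Ld : Λ → ℕ → ℕ → ℕ → ℕ → Prop}
    (hL : ∀ q x y p p', Ld q x y p p' → ∀ n, Lf q (x + n * p) (y + n * p'))
    {q : Λ} {x y p p' : ℕ} (h : J B Lf Ld q x y p p') (n : ℕ) :
    Rel B Lf q (x + n * p) (y + n * p') := by
  induction h with
  | lf h => exact .lf (hL _ _ _ _ _ h n)
  | bin hb _ _ i1 i2 => exact .bin hb i1 i2
  | pump _ h ih => simpa using h.pump hd n 0 0 (by simpa using ih)
  | move _ h ih => exact (h.lift hd _ _).fill ih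

end

/-- leaves given by finitely generated periodic sets -/
structure LS (Λ ι : Type) where
  lab : ι → Λ
  c : ι → ℕ × ℕ
  P : ι → AddSubmonoid (ℕ × ℕ)
  fg : ∀ i, (P i).FG
  diag : ∀ i, (1, 1) ∈ P i

namespace LS

variable (S : LS Λ ι)

def Lf (q : Λ) (x y : ℕ) : Prop := ∃ i, S.lab i = q ∧ ∃ z ∈ S.P i, (x, y) = S.c i + z

def Ld (q : Λ) (x y p p' : ℕ) : Prop :=
  ∃ i, S.lab i = q ∧ (∃ z ∈ S.P i, (x, y) = S.c i + z) ∧ (p, p') ∈ S.P i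

theorem diag' (i : ι) (n : ℕ) : (n, n) ∈ S.P i := by
  simpa using (S.P i).nsmul_mem (S.diag i) n

theorem hd : Diag S.Lf := by
  rintro q x y n ⟨i, h1, z, hz, h2⟩
  refine ⟨i, h1, z + (n, n), (S.P i).add_mem hz (S.diag' i n), ?_⟩
  rw [← add_assoc, ← h2]; rfl

theorem hL (q : Λ) (x y p p' : ℕ) (h : S.Ld q x y p p') (n : ℕ) :
    S.Lf q (x + n * p) (y + n * p') := by
  obtain ⟨i, h1, ⟨z, hz, h2⟩, h3⟩ := h
  refine ⟨i, h1, z + n • (p, p'), (S.P i).add_mem hz ((S.P i).nsmul_mem h3 n), ?_⟩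
  rw [← add_assoc, ← h2]; simp

def A : Type := {a : ι × (ℕ × ℕ) // ∃ z ∈ S.P a.1, a.2 = S.c a.1 + z}

def rA (a a' : S.A) : Prop := a.1.1 = a'.1.1 ∧ ∃ z ∈ S.P a.1.1, a'.1.2 = a.1.2 + z

instance : IsPreorder S.A S.rA where
  refl := fun a => ⟨rfl, 0, (S.P _).zero_mem, by simp⟩
  trans := by
    rintro a b c ⟨h1, z, hz, e1⟩ ⟨h2, z', hz', e2⟩
    exact ⟨h1.trans h2, z + z', (S.P _).add_mem hz (h1 ▸ hz'), by rw [e2, e1, add_assoc]⟩

theorem fg_wqo {M : Type} [AddCommMonoid M] {P : AddSubmonoid M} (hP : P.FG) (f : ℕ → M)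
    (hf : ∀ n, f n ∈ P) : ∃ m n, m < n ∧ ∃ z ∈ P, f n = f m + z := by
  obtain ⟨T, rfl⟩ := hP
  classical
  have : ∀ n, ∃ a : T → ℕ, f n = ∑ t : T, a t • (t : M) := by
    intro n
    obtain ⟨a, -, ha⟩ := AddSubmonoid.mem_closure_finset.1 (hf n)
    exact ⟨fun t => a t, by rw [← ha, ← Finset.sum_coe_sort]⟩
  choose a ha using this
  obtain ⟨m, n, hmn, hle⟩ := wellQuasiOrdered_le (α := T → ℕ) a
  refine ⟨m, n, hmn, ∑ t : T, (a n t - a m t) • (t : M), ?_, ?_⟩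
  · exact AddSubmonoid.sum_mem _ fun t _ =>
      AddSubmonoid.nsmul_mem _ (AddSubmonoid.subset_closure t.2) _
  · rw [ha, ha, ← Finset.sum_add_distrib]
    refine Finset.sum_congr rfl fun t _ => ?_
    rw [← add_nsmul, Nat.add_sub_cancel' (hle t)]

theorem rA_wqo [Finite ι] : WellQuasiOrdered S.rA := by
  intro f
  obtain ⟨i, hi⟩ := Finite.exists_infinite_fiber (fun n => (f n).1.1)
  have hi' : ∃ᶠ n in Filter.atTop, (f n).1.1 = i := by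
    rw [← Nat.cofinite_eq_atTop, Filter.frequently_cofinite_iff_infinite]
    exact Set.infinite_coe_iff.1 hi
  obtain ⟨φ, hφ, h⟩ := Filter.extraction_of_frequently_atTop hi'
  choose z hz hz' using fun n => (f (φ n)).2
  obtain ⟨m, n, hmn, w, hw, e⟩ := fg_wqo (S.fg i) z (fun n => h n ▸ hz n)
  refine ⟨φ m, φ n, hφ hmn, (h m).trans (h n).symm, w, (h m).symm ▸ hw, ?_⟩
  rw [hz', hz', e, h m, h n, add_assoc]

end LS

abbrev Nd (Λ : Type) : Type := (Λ × Λ × Λ) × ℕ × ℕ × ℕ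

def sN (b b' : Nd Λ) : Prop := b.1 = b'.1 ∧ b.2 ≤ b'.2

instance : IsPreorder (Nd Λ) sN where
  refl := fun _ => ⟨rfl, le_rfl⟩
  trans := fun _ _ _ h h' => ⟨h.1.trans h'.1, h.2.trans h'.2⟩

theorem sN_wqo [Finite Λ] : WellQuasiOrdered (sN (Λ := Λ)) :=
  (Finite.wellQuasiOrdered (α := Λ × Λ × Λ) (· = ·)).prod wellQuasiOrdered_le

namespace LS

variable (S : LS Λ ι) (B : Λ → Λ → Λ → Prop)

abbrev T : Type := BT S.A (Nd Λ)

def rl : S.T → Λ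
  | .lf a => S.lab a.1.1
  | .nd b _ _ => b.1.1
def rx : S.T → ℕ
  | .lf a => a.1.2.1
  | .nd b _ _ => b.2.1
def ry : S.T → ℕ
  | .lf a => a.1.2.2
  | .nd b _ _ => b.2.2.2

def V : S.T → Prop
  | .lf _ => True
  | .nd b l m => B b.1.1 b.1.2.1 b.1.2.2 ∧ S.rl l = b.1.2.1 ∧ S.rx l = b.2.1 ∧ S.ry l = b.2.2.1 ∧
      S.rl m = b.1.2.2 ∧ S.rx m = b.2.2.1 ∧ S.ry m = b.2.2.2 ∧ V l ∧ V m

def PS : S.T → ℕ → ℕ → Prop
  | .lf a, p, p' => ∃ u u', (u, u') ∈ S.P a.1.1 ∧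
      Ctx B S.Lf (S.lab a.1.1) (a.1.2.1 + p) (a.1.2.2 + p') (S.lab a.1.1) (a.1.2.1 + u) (a.1.2.2 + u')
  | .nd b l m, p, p' => ∃ u u', (∃ z, PS l u z ∧ PS m z u') ∧
      Ctx B S.Lf b.1.1 (b.2.1 + p) (b.2.2.2 + p') b.1.1 (b.2.1 + u) (b.2.2.2 + u')

def Core : S.T → ℕ → ℕ → Prop
  | .lf a, u, u' => (u, u') ∈ S.P a.1.1
  | .nd _ l m, u, u' => ∃ z, S.PS B l u z ∧ S.PS B m z u'

theorem PS_iff (t : S.T) (p p' : ℕ) : S.PS B t p p' ↔ ∃ u u', S.Core B t u u' ∧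
    Ctx B S.Lf (S.rl t) (S.rx t + p) (S.ry t + p') (S.rl t) (S.rx t + u) (S.ry t + u') := by
  cases t <;> rfl

theorem V_rel : ∀ t : S.T, S.V B t → Rel B S.Lf (S.rl t) (S.rx t) (S.ry t)
  | .lf a, _ => .lf ⟨a.1.1, rfl, a.2⟩
  | .nd b l m, ⟨h1, h2, h3, h4, h5, h6, h7, h8, h9⟩ => by
    have a1 := V_rel l h8
    have a2 := V_rel m h9
    rw [h2, h3, h4] at a1
    rw [h5, h6, h7] at a2
    exact .bin h1 a1 a2

theorem rel_V {q : Λ} {x y : ℕ} (h : Rel B S.Lf q x y) :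
    ∃ t, S.V B t ∧ S.rl t = q ∧ S.rx t = x ∧ S.ry t = y := by
  induction h with
  | @lf q x y h =>
    obtain ⟨i, h1, h2⟩ := h
    exact ⟨.lf ⟨(i, (x, y)), h2⟩, trivial, h1, rfl, rfl⟩
  | @bin q q1 q2 x z y hb _ _ i1 i2 =>
    obtain ⟨l, a1, a2, a3, a4⟩ := i1
    obtain ⟨m, b1, b2, b3, b4⟩ := i2
    exact ⟨.nd ((q, q1, q2), x, z, y) l m, ⟨hb, a2, a3, a4, b2, b3, b4, a1, b1⟩, rfl, rfl, rfl⟩

theorem PS_diag (n : ℕ) : ∀ t : S.T, S.PS B t n n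
  | .lf a => ⟨n, n, S.diag' _ n, .refl _ _ _⟩
  | .nd _ l m => ⟨n, n, ⟨n, PS_diag n l, PS_diag n m⟩, .refl _ _ _⟩

theorem PS_add : ∀ (t : S.T) (p p' v v' : ℕ), S.PS B t p p' → S.PS B t v v' →
    S.PS B t (p + v) (p' + v') := by
  have key : ∀ (t : S.T), (∀ p p' v v', S.Core B t p p' → S.Core B t v v' →
      S.Core B t (p + v) (p' + v')) → ∀ p p' v v', S.PS B t p p' → S.PS B t v v' →
      S.PS B t (p + v) (p' + v') := by
    intro t h p p' v v' h1 h2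
    rw [PS_iff] at h1 h2 ⊢
    obtain ⟨u, u', a1, a2⟩ := h1
    obtain ⟨w, w', b1, b2⟩ := h2
    refine ⟨u + w, u' + w', h _ _ _ _ a1 b1, ?_⟩
    exact ((a2.lift S.hd v v').cast (by ring) (by ring) rfl rfl).trans
      ((b2.lift S.hd u u').cast (by ring) (by ring) (by ring) (by ring))
  intro t
  induction t with
  | lf a => exact key _ fun p p' v v' h1 h2 => (S.P _).add_mem h1 h2
  | nd b l m il im =>
    refine key _ ?_
    rintro p p' v v' ⟨z, a1, a2⟩ ⟨w, b1, b2⟩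
    exact ⟨z + w, il _ _ _ _ a1 b1, im _ _ _ _ a2 b2⟩

theorem PS_J : ∀ (t : S.T), S.V B t → ∀ p p' v v', S.PS B t p p' → S.PS B t v v' →
    J B S.Lf S.Ld (S.rl t) (S.rx t + p) (S.ry t + p') v v' := by
  have key : ∀ (t : S.T), (∀ p p' v v', S.Core B t p p' → S.Core B t v v' →
      J B S.Lf S.Ld (S.rl t) (S.rx t + p) (S.ry t + p') v v') →
      ∀ p p' v v', S.PS B t p p' → S.PS B t v v' →
      J B S.Lf S.Ld (S.rl t) (S.rx t + p) (S.ry t + p') v v' := by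
    intro t h p p' v v' h1 h2
    rw [PS_iff] at h1 h2
    obtain ⟨u, u', a1, a2⟩ := h1
    obtain ⟨w, w', b1, b2⟩ := h2
    refine .move (.pump (h _ _ _ _ a1 b1) ?_) a2
    exact (b2.lift S.hd u u').cast (by ring) (by ring) (by ring) (by ring)
  intro t
  induction t with
  | lf a =>
    intro _
    refine key _ fun p p' v v' h1 h2 => .lf ⟨a.1.1, rfl, ?_, h2⟩
    obtain ⟨z, hz, e⟩ := a.2
    refine ⟨z + (p, p'), (S.P _).add_mem hz h1, ?_⟩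
    rw [← add_assoc, ← e]; rfl
  | nd b l m il im =>
    rintro ⟨h1, h2, h3, h4, h5, h6, h7, h8, h9⟩
    refine key _ ?_
    rintro p p' v v' ⟨z, a1, a2⟩ ⟨w, b1, b2⟩
    have c1 := il h8 _ _ _ _ a1 b1
    have c2 := im h9 _ _ _ _ a2 b2
    rw [h2, h3, h4] at c1
    rw [h5, h6, h7] at c2
    exact .bin h1 c1 c2

theorem emb_core {s t : S.T} (h : Emb S.rA sN s t) : S.V B s → S.V B t → ∃ u u',
    S.Core B s u u' ∧
      Ctx B S.Lf (S.rl t) (S.rx t) (S.ry t) (S.rl s) (S.rx s + u) (S.ry s + u') := by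
  induction h with
  | @lf a a' h =>
    intro _ _
    obtain ⟨h1, z, hz, e⟩ := h
    refine ⟨z.1, z.2, hz, ?_⟩
    simp only [rl, rx, ry, e, ← h1]
    exact .refl _ _ _
  | @nd b b' l l' m m' h _ _ il im =>
    rintro ⟨h1, h2, h3, h4, h5, h6, h7, h8, h9⟩ ⟨g1, g2, g3, g4, g5, g6, g7, g8, g9⟩
    obtain ⟨u, u', a1, a2⟩ := il h8 g8
    obtain ⟨w, w', b1, b2⟩ := im h9 g9
    obtain ⟨e, e1, e2, e3⟩ := h
    refine ⟨b'.2.1 - b.2.1, b'.2.2.2 - b.2.2.2, ⟨b'.2.2.1 - b.2.2.1, ?_, ?_⟩, ?_⟩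
    · rw [PS_iff]
      refine ⟨u, u', a1, ?_⟩
      rw [g2, ← e, ← h2] at a2
      exact a2.cast (by rw [g3, h3]; omega) (by rw [g4, h4]; omega) rfl rfl
    · rw [PS_iff]
      refine ⟨w, w', b1, ?_⟩
      rw [g5, ← e, ← h5] at b2
      exact b2.cast (by rw [g6, h6]; omega) (by rw [g7, h7]; omega) rfl rfl
    · simp only [rl, rx, ry, ← e]
      exact (Ctx.refl _ _ _).cast rfl rfl (by omega) (by omega)
  | @left t b l m _ ih =>
    rintro hs ⟨g1, g2, g3, g4, g5, g6, g7, g8, g9⟩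
    obtain ⟨u, u', a1, a2⟩ := ih hs g8
    have a3 := S.V_rel B m g9
    rw [g2, g3, g4] at a2
    rw [g5, g6, g7] at a3
    exact ⟨u, u', a1, .left g1 a2 a3⟩
  | @right t b l m _ ih =>
    rintro hs ⟨g1, g2, g3, g4, g5, g6, g7, g8, g9⟩
    obtain ⟨u, u', a1, a2⟩ := ih hs g9
    have a3 := S.V_rel B l g8
    rw [g5, g6, g7] at a2
    rw [g2, g3, g4] at a3
    exact ⟨u, u', a1, .right g1 a3 a2⟩

def Le (s t : S.T) : Prop :=
  Emb S.rA sN s t ∧ S.rl s = S.rl t ∧ S.rx s ≤ S.rx t ∧ S.ry s ≤ S.ry t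

instance : IsPreorder S.T S.Le where
  refl := fun t => ⟨Emb.refl' t, rfl, le_rfl, le_rfl⟩
  trans := fun _ _ _ a b => ⟨b.1.trans' a.1, a.2.1.trans b.2.1, a.2.2.1.trans b.2.2.1,
    a.2.2.2.trans b.2.2.2⟩

theorem Le_wqo [Finite Λ] [Finite ι] : WellQuasiOrdered S.Le := by
  intro f
  obtain ⟨g, hg⟩ := (kruskal S.rA_wqo sN_wqo).exists_monotone_subseq f
  obtain ⟨m, n, hmn, h1, h2⟩ := ((Finite.wellQuasiOrdered (α := Λ) (· = ·)).prod
    (wellQuasiOrdered_le (α := ℕ × ℕ))) (fun n => (S.rl (f (g n)), S.rx (f (g n)), S.ry (f (g n))))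
  exact ⟨g m, g n, g.strictMono hmn, hg _ _ hmn.le, h1, h2.1, h2.2⟩

/-- finite cover of the relation by shifted periodic sets -/
theorem cover [Finite Λ] [Finite ι] (q : Λ) (Z : ℕ → ℕ → Prop) :
    ∃ (κ : Type) (_ : Fintype κ) (u : κ → ℕ × ℕ) (P : κ → AddSubmonoid (ℕ × ℕ)),
      (∀ k, Z (u k).1 (u k).2) ∧ (∀ k n, (n, n) ∈ P k) ∧
      (∀ k, ∀ a ∈ P k, ∀ b ∈ P k, J B S.Lf S.Ld q ((u k).1 + a.1) ((u k).2 + a.2) b.1 b.2) ∧
      ∀ x y, Rel B S.Lf q x y → Z x y → ∃ k, ∃ a ∈ P k, (x, y) = u k + a := by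
  obtain ⟨F, h1, h2⟩ := finite_basis S.Le_wqo
    (fun t => S.V B t ∧ S.rl t = q ∧ Z (S.rx t) (S.ry t))
  refine ⟨F, inferInstance, fun t => (S.rx t, S.ry t), fun t =>
    ⟨⟨{a | S.PS B t a.1 a.2}, fun ha hb => S.PS_add B _ _ _ _ _ ha hb⟩, S.PS_diag B 0 _⟩,
    fun t => (h1 t t.2).2.2, fun t n => S.PS_diag B n _, fun t a ha b hb => ?_, ?_⟩
  · have := S.PS_J B t (h1 t t.2).1 _ _ _ _ ha hb
    rwa [(h1 t t.2).2.1] at this
  · intro x y h hz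
    obtain ⟨t, a1, a2, a3, a4⟩ := S.rel_V B h
    obtain ⟨s, hs, b1, b2, b3, b4⟩ := h2 t ⟨a1, a2, by rwa [a3, a4]⟩
    obtain ⟨u, u', c1, c2⟩ := S.emb_core B b1 (h1 s hs).1 a1
    refine ⟨⟨s, hs⟩, (x - S.rx s, y - S.ry s), ?_, ?_⟩
    · show S.PS B s _ _
      rw [PS_iff]
      refine ⟨u, u', c1, ?_⟩
      rw [← b2] at c2
      exact c2.cast (by simp only; omega) (by simp only; omega) rfl rfl
    · ext <;> simp <;> omega

end LS

end Pool.Agent.H63.GV
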