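import Pool.Agent.H63.GV2

/-! Semilinear relations on the naturals; sections of grammar relations by lines. -/

set_option autoImplicit false

namespace Pool.Agent.H63.GV

open Pointwise

def SL (A : ℕ → ℕ → Prop) : Prop := IsSemilinearSet {u : ℕ × ℕ | A u.1 u.2}

variable {A A' : ℕ → ℕ → Prop}

theorem SL.congr (h : SL A) (e : ∀ x y, A x y ↔ A' x y) : SL A' := by
  have : A = A' := by funext x y; exact propext (e x y)
  exact this ▸ h

theorem SL.and (h : SL A) (h' : SL A') : SL fun x y => A x y ∧ A' x y := IsSemilinearSet.inter h h'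

theorem SL.or (h : SL A) (h' : SL A') : SL fun x y => A x y ∨ A' x y := IsSemilinearSet.union h h'

theorem SL.false : SL fun _ _ => False := IsSemilinearSet.empty

theorem SL.ex {κ : Type} [Finite κ] {F : κ → ℕ → ℕ → Prop} (h : ∀ k, SL (F k)) :
    SL fun x y => ∃ k, F k x y := by
  have := IsSemilinearSet.iUnion h
  unfold SL
  convert this using 1
  ext u; simp

theorem SL.exlt {F : ℕ → ℕ → ℕ → Prop} (n : ℕ) (h : ∀ k, SL (F k)) :
    SL fun x y => ∃ k < n, F k x y :=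
  (SL.ex (κ := Fin n) (F := fun k => F k) fun k => h k).congr fun _ _ =>
    ⟨fun ⟨k, h⟩ => ⟨k, k.2, h⟩, fun ⟨k, h1, h⟩ => ⟨⟨k, h1⟩, h⟩⟩

theorem SL.const_and (p : Prop) (h : p → SL A) : SL fun x y => p ∧ A x y := by
  by_cases hp : p
  · exact (h hp).congr fun _ _ => by simp [hp]
  · exact SL.false.congr fun _ _ => by simp [hp]

theorem SL.swap (h : SL A) : SL fun x y => A y x :=
  IsSemilinearSet.preimage h (AddEquiv.prodComm : ℕ × ℕ ≃+ ℕ × ℕ)

def lin3 (a b c : ℕ) : (ℕ × ℕ) × ℕ →+ ℕ where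
  toFun u := a * u.1.1 + b * u.1.2 + c * u.2
  map_zero' := by simp
  map_add' := by intro u v; simp; ring

theorem SL.exeq (a b c d a' b' c' d' : ℕ) :
    SL fun x y => ∃ k, d + (a * x + b * y + c * k) = d' + (a' * x + b' * y + c' * k) := by
  have := (isSemilinearSet_setOfPred_eq d d' (lin3 a b c) (lin3 a' b' c')).image
    (AddMonoidHom.fst (ℕ × ℕ) ℕ)
  unfold SL
  convert this using 1
  ext u
  simp [lin3]

theorem SL.eq (α β γ γ' : ℕ) : SL fun x y => α * x + γ = β * y + γ' :=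
  (SL.exeq α 0 0 γ 0 β 0 γ').congr fun x y => by
    constructor
    · rintro ⟨k, h⟩; omega
    · intro h; exact ⟨0, by omega⟩

theorem SL.le (α β γ α' β' γ' : ℕ) : SL fun x y => α * x + β * y + γ ≤ α' * x + β' * y + γ' :=
  (SL.exeq α β 1 γ α' β' 0 γ').congr fun x y => by
    constructor
    · rintro ⟨k, h⟩; omega
    · intro h; exact ⟨α' * x + β' * y + γ' - (α * x + β * y + γ), by omega⟩

theorem SL.dvd (M : ℕ) (ρ : ℤ) : SL fun x y => (M : ℤ) ∣ (y : ℤ) - x - ρ :=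
  ((SL.exeq 1 0 M ρ.toNat 0 1 0 (-ρ).toNat).or (SL.exeq 1 0 0 ρ.toNat 0 1 M (-ρ).toNat)).congr
    fun x y => by
    have e := Int.toNat_sub_toNat_neg ρ
    constructor
    · rintro (⟨k, h⟩ | ⟨k, h⟩)
      · refine ⟨k, ?_⟩
        have : ((ρ.toNat + (1 * x + 0 * y + M * k) : ℕ) : ℤ) = ((-ρ).toNat + (0 * x + 1 * y + 0 * k) : ℕ) := by rw [h]
        push_cast at this; linarith
      · refine ⟨-k, ?_⟩
        have : ((ρ.toNat + (1 * x + 0 * y + 0 * k) : ℕ) : ℤ) = ((-ρ).toNat + (0 * x + 1 * y + M * k) : ℕ) := by rw [h]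
        push_cast at this; linarith
    · rintro ⟨k, h⟩
      rcases le_total 0 k with hk | hk
      · obtain ⟨k, rfl⟩ := Int.eq_ofNat_of_zero_le hk
        left; refine ⟨k, ?_⟩
        zify; linarith
      · obtain ⟨k, rfl⟩ := Int.exists_eq_neg_ofNat hk
        right; refine ⟨k, ?_⟩
        zify; linarith

theorem SL.comp (h : SL A) (h' : SL A') : SL fun x y => ∃ z, A x z ∧ A' z y := by
  let f1 : (ℕ × ℕ) × ℕ →+ ℕ × ℕ := (lin3 1 0 0).prod (lin3 0 0 1)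
  let f2 : (ℕ × ℕ) × ℕ →+ ℕ × ℕ := (lin3 0 0 1).prod (lin3 0 1 0)
  have := ((IsSemilinearSet.preimage h f1).inter (IsSemilinearSet.preimage h' f2)).image
    (AddMonoidHom.fst (ℕ × ℕ) ℕ)
  unfold SL
  convert this using 1
  ext u
  simp [f1, f2, lin3]

theorem SL.lin (c : ℕ × ℕ) {P : AddSubmonoid (ℕ × ℕ)} (hP : P.FG) :
    SL fun x y => ∃ z ∈ P, (x, y) = c + z := by
  have := ((IsLinearSet.of_fg hP).vadd c).isSemilinearSet
  unfold SL
  convert this using 1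
  ext u
  simp [Set.mem_vadd_set, eq_comm]

theorem SL.comps (h : SL A) (hd : ∀ x y i, A x y → A (x + i) (y + i)) :
    ∃ (κ : Type) (_ : Fintype κ) (c : κ → ℕ × ℕ) (Pd : κ → Finset (ℕ × ℕ)),
      (∀ k, (1, 1) ∈ Pd k) ∧ ∀ x y, A x y ↔
        ∃ k, ∃ z ∈ AddSubmonoid.closure (Pd k : Set (ℕ × ℕ)), (x, y) = c k + z := by
  classical
  obtain ⟨F, h1, h2⟩ := isSemilinearSet_iff.1 h
  have : ∀ t : F, ∃ (a : ℕ × ℕ) (T : Finset (ℕ × ℕ)),
      (t : Set (ℕ × ℕ)) = a +ᵥ (AddSubmonoid.closure (T : Set (ℕ × ℕ)) : Set (ℕ × ℕ)) :=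
    fun t => isLinearSet_iff.1 (h1 t t.2)
  choose c T hT using this
  refine ⟨F, inferInstance, c, fun k => insert (1, 1) (T k), fun k => Finset.mem_insert_self _ _,
    fun x y => ?_⟩
  have e : ∀ x y, A x y ↔ ∃ k : F, ∃ z ∈ AddSubmonoid.closure (T k : Set (ℕ × ℕ)),
      (x, y) = c k + z := by
    intro x y
    have : A x y ↔ (x, y) ∈ ⋃₀ (F : Set (Set (ℕ × ℕ))) := by rw [← h2]; rfl
    rw [this]
    constructor
    · rintro ⟨t, ht, hx⟩
      have := hT ⟨t, ht⟩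
      simp only at this
      rw [this] at hx
      obtain ⟨z, hz, e⟩ := hx
      exact ⟨⟨t, ht⟩, z, hz, e.symm⟩
    · rintro ⟨k, z, hz, e⟩
      exact ⟨k, k.2, by rw [hT k]; exact ⟨z, hz, e.symm⟩⟩
  constructor
  · intro hx
    obtain ⟨k, z, hz, e'⟩ := (e x y).1 hx
    exact ⟨k, z, AddSubmonoid.closure_mono (by simp) hz, e'⟩
  · rintro ⟨k, z, hz, e'⟩
    rw [Finset.coe_insert, Set.insert_eq, AddSubmonoid.closure_union, AddSubmonoid.mem_sup] at hz
    obtain ⟨z1, h1, z2, h2, rfl⟩ := hz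
    obtain ⟨n, rfl⟩ := AddSubmonoid.mem_closure_singleton.1 h1
    have := hd _ _ n ((e (c k + z2).1 (c k + z2).2).2 ⟨k, z2, h2, rfl⟩)
    obtain ⟨rfl, rfl⟩ : x = (c k + z2).1 + n ∧ y = (c k + z2).2 + n := by
      rw [Prod.ext_iff] at e'
      simp at e' ⊢
      omega
    exact this

variable {Λ : Type}

theorem exists_LS [Finite Λ] {Lf : Λ → ℕ → ℕ → Prop} (h : ∀ q, SL (Lf q)) (hd : Diag Lf) :
    ∃ (ι : Type) (_ : Finite ι) (S : LS Λ ι), S.Lf = Lf := by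
  choose κ i c Pd h1 h2 using fun q => (h q).comps (hd q)
  refine ⟨Σ q, κ q, inferInstance, ⟨fun a => a.1, fun a => c _ a.2,
    fun a => AddSubmonoid.closure (Pd _ a.2 : Set (ℕ × ℕ)), fun a => ⟨_, rfl⟩,
    fun a => AddSubmonoid.subset_closure (h1 _ a.2)⟩, ?_⟩
  funext q x y
  apply propext
  rw [h2]
  constructor
  · rintro ⟨⟨q', k⟩, rfl, h⟩; exact ⟨k, h⟩
  · rintro ⟨k, h⟩; exact ⟨⟨q, k⟩, rfl, h⟩

def HasLines (R : ℕ → ℕ → Prop) : Prop :=
  ∀ α β γ γ' : ℕ, 0 < α + β → SL fun x y => R x y ∧ α * x + γ = β * y + γ'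

theorem line_fg (P : AddSubmonoid (ℕ × ℕ)) {α β : ℕ} (h : 0 < α + β) :
    ∃ P' : AddSubmonoid (ℕ × ℕ), P'.FG ∧ ∀ z, z ∈ P' ↔ z ∈ P ∧ α * z.1 = β * z.2 := by
  let K : AddSubmonoid (ℕ × ℕ) := ⟨⟨{z | z ∈ P ∧ α * z.1 = β * z.2}, fun {a b} ha hb =>
    ⟨P.add_mem ha.1 hb.1, by simp [mul_add, ha.2, hb.2]⟩⟩, ⟨P.zero_mem, by simp⟩⟩
  refine ⟨K, ?_, fun z => Iff.rfl⟩
  let φ : K →+ ℕ := ((AddMonoidHom.fst ℕ ℕ) + (AddMonoidHom.snd ℕ ℕ)).comp K.subtype
  have hφ : Function.Injective φ := by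
    rintro ⟨⟨a, b⟩, h0, h1⟩ ⟨⟨a', b'⟩, h0', h2⟩ e
    simp only [φ, AddMonoidHom.coe_comp, Function.comp, AddMonoidHom.add_apply,
      AddSubmonoid.coe_subtype, AddMonoidHom.coe_fst, AddMonoidHom.coe_snd] at e
    simp only at h1 h2
    have : a = a' := by
      have h3 : (α + β) * a = (α + β) * a' := by
        calc (α + β) * a = β * (a + b) := by rw [add_mul, h1]; ring
          _ = β * (a' + b') := by rw [e]
          _ = (α + β) * a' := by rw [add_mul, h2]; ring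
      exact Nat.eq_of_mul_eq_mul_left h h3
    subst this
    have : b = b' := by omega
    subst this; rfl
  have := AddSubmonoid.FG.map_injective φ hφ (Nat.addSubmonoid_fg ((⊤ : AddSubmonoid K).map φ))
  exact (AddMonoid.fg_iff_addSubmonoid_fg K).1 ⟨this⟩

theorem rel_lines [Finite Λ] (B : Λ → Λ → Λ → Prop) {Lf : Λ → ℕ → ℕ → Prop}
    (h : ∀ q, SL (Lf q)) (hd : Diag Lf) (q : Λ) : HasLines (Rel B Lf q) := by
  obtain ⟨ι, _, S, rfl⟩ := exists_LS h hd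
  intro α β γ γ' hαβ
  obtain ⟨κ, _, u, P, h1, h2, h3, h4⟩ := S.cover B q (fun x y => α * x + γ = β * y + γ')
  choose P' g1 g2 using fun k => line_fg (P k) hαβ
  refine (SL.ex fun k => SL.lin (u k) (g1 k)).congr fun x y => ?_
  constructor
  · rintro ⟨k, z, hz, e⟩
    rw [g2] at hz
    obtain ⟨rfl, rfl⟩ : x = (u k).1 + z.1 ∧ y = (u k).2 + z.2 := by simpa [Prod.ext_iff] using e
    refine ⟨by simpa using (h3 k z hz.1 0 (P k).zero_mem).sound S.hd S.hL 0, ?_⟩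
    have := h1 k
    have := hz.2
    simp only [mul_add] at *
    omega
  · rintro ⟨a1, a2⟩
    obtain ⟨k, z, hz, e⟩ := h4 x y a1 a2
    refine ⟨k, z, (g2 k z).2 ⟨hz, ?_⟩, e⟩
    obtain ⟨rfl, rfl⟩ : x = (u k).1 + z.1 ∧ y = (u k).2 + z.2 := by simpa [Prod.ext_iff] using e
    have := h1 k
    simp only [mul_add] at *
    omega

theorem HasLines.strip {R : ℕ → ℕ → Prop} (h : HasLines R) {α β : ℕ} (hαβ : 0 < α + β) (C : ℕ) :
    SL fun x y => R x y ∧ α * x ≤ β * y + C ∧ β * y ≤ α * x + C :=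
  (SL.exlt (2 * C + 1) fun c => h α β C c hαβ).congr fun x y => by
    constructor
    · rintro ⟨c, h1, h2, h3⟩; exact ⟨h2, by omega, by omega⟩
    · rintro ⟨h1, h2, h3⟩; exact ⟨α * x + C - β * y, by omega, h1, by omega⟩

theorem HasLines.swap {R : ℕ → ℕ → Prop} (h : HasLines R) : HasLines fun x y => R y x :=
  fun α β γ γ' hαβ => (h β α γ' γ (by omega)).swap.congr fun _ _ => by simp [eq_comm]

end Pool.Agent.H63.GV
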