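import Pool.Agent.H63.GV3

/-! Linear systems over semilinear relations: steepness criteria. -/

set_option autoImplicit false

namespace Pool.Agent.H63.GV

def St (R : ℕ → ℕ → Prop) (M : ℕ) (ρ : ℤ) : Prop :=
  ∀ c : ℕ, ∃ x y : ℕ, R x y ∧ (M : ℤ) ∣ (y : ℤ) - x - ρ ∧ c * x + c < y

def Dg (A : ℕ → ℕ → Prop) : Prop := ∀ x y i, A x y → A (x + i) (y + i)

theorem dvd_eq {m a b : ℤ} (h : m ∣ a) (e : b = a) : m ∣ b := e ▸ h

theorem bnd (U : ℤ) : ∃ w : ℕ, -(w : ℤ) ≤ U ∧ U ≤ w := ⟨U.natAbs, by omega, by omega⟩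

theorem ar1 {J p p' : ℕ} (h : p < p') : J * p + J ≤ J * p' := by nlinarith
theorem ar2 {k x l W : ℕ} (h : x ≤ l + W) : (k + 1) * x ≤ k * l + l + (k + 1) * W := by nlinarith
theorem ar3 {p r J y W : ℕ} (h : r + J ≤ y + W) : 2 * (2 * (p + 1)) * r + 4 * (J * p + J) ≤
    2 * (2 * (p + 1)) * y + 4 * (p + 1) * W := by nlinarith
theorem ar4 {k x l W J : ℕ} (h : x + J ≤ l + W) :
    (k + 1) * x + (k + 1) * J ≤ k * l + l + (k + 1) * W := by nlinarith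
theorem ar5 {p r y W : ℕ} (h : r ≤ y + W) : 2 * (4 * p) * r ≤ 2 * (4 * p) * y + 8 * p * W := by
  nlinarith
theorem ar6 {p k J : ℕ} (h : 4 * p ≤ k) : 4 * (J * p) ≤ (k + 1) * J := by nlinarith

theorem boost {R : ℕ → ℕ → Prop} (hd : Dg R) {M : ℕ} (hM : 0 < M) {ρ : ℤ} {k0 : ℕ} (hk : 0 < k0)
    (c0 : ℤ) {x0 y0 : ℕ} (h0 : R x0 y0) (hc : (M : ℤ) ∣ (y0 : ℤ) - x0 - ρ)
    (hstep : ∀ k N, k0 ≤ k → ∃ N', ∀ l r, R l r → N' ≤ l → k * l ≤ 2 * k0 * r →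
      ∃ x y : ℕ, R x y ∧ (M : ℤ) ∣ (y : ℤ) - x - (r - l) - c0 ∧ N ≤ x ∧ (k + 1) * x ≤ 2 * k0 * y) :
    St R M ρ := by
  have S : ∀ n N : ℕ, ∃ x y : ℕ, R x y ∧ (M : ℤ) ∣ (y : ℤ) - x - (ρ + n * c0) ∧ N ≤ x ∧
      (k0 + n) * x ≤ 2 * k0 * y := by
    intro n
    induction n with
    | zero =>
      intro N
      refine ⟨x0 + (N + x0), y0 + (N + x0), hd _ _ _ h0, ?_, by omega, by nlinarith⟩
      exact dvd_eq hc (by push_cast; ring)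
    | succ n ih =>
      intro N
      obtain ⟨N', h⟩ := hstep (k0 + n) N (by omega)
      obtain ⟨l, r, a1, a2, a3, a4⟩ := ih N'
      obtain ⟨x, y, b1, b2, b3, b4⟩ := h l r a1 a3 a4
      refine ⟨x, y, b1, ?_, b3, by rw [← add_assoc]; exact b4⟩
      exact dvd_eq (dvd_add a2 b2) (by push_cast; ring)
  intro c
  obtain ⟨x, y, a1, a2, a3, a4⟩ := S (M * (2 * k0 * (c + 1))) (c + 1)
  refine ⟨x, y, a1, ?_, ?_⟩
  · exact dvd_eq (dvd_add a2 (Dvd.intro ((2 * k0 * (c + 1) : ℕ) * c0) rfl)) (by push_cast; ring)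
  · have h1 : 2 * k0 * (c + 1) ≤ k0 + M * (2 * k0 * (c + 1)) :=
      le_add_left (Nat.le_mul_of_pos_left _ hM)
    have h2 : 2 * k0 * ((c + 1) * x) ≤ 2 * k0 * y := by
      calc 2 * k0 * ((c + 1) * x) = 2 * k0 * (c + 1) * x := by ring
        _ ≤ _ := Nat.mul_le_mul_right x h1
        _ ≤ _ := a4
    have h3 := Nat.le_of_mul_le_mul_left h2 (by omega)
    nlinarith

theorem max_effect {A : ℕ → ℕ → Prop} (h : SL A) (hd : Dg A) (hne : ∃ x y, A x y)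
    (hp : ∀ b0 b1 p p', (∀ i j, A (b0 + j * p + i) (b1 + j * p' + i)) → p' ≤ p) :
    ∃ x0 y0, A x0 y0 ∧ ∀ x y, A x y → (y : ℤ) - x ≤ (y0 : ℤ) - x0 := by
  obtain ⟨κ, _, c, Pd, h1, h2⟩ := h.comps hd
  have hz : ∀ k, ∀ z ∈ AddSubmonoid.closure (Pd k : Set (ℕ × ℕ)), z.2 ≤ z.1 := by
    intro k z hz
    induction hz using AddSubmonoid.closure_induction with
    | mem π hπ =>
      refine hp (c k).1 (c k).2 π.1 π.2 fun i j => hd _ _ i ((h2 _ _).2 ⟨k, j • π,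
        AddSubmonoid.nsmul_mem _ (AddSubmonoid.subset_closure hπ) j, ?_⟩)
      ext <;> simp
    | zero => simp
    | add a b _ _ ha hb => simp; omega
  obtain ⟨Bd, hB⟩ := Finite.exists_le (fun k => (c k).2)
  obtain ⟨m, ⟨x0, y0, a1, a2⟩, hm⟩ := Int.exists_greatest_of_bdd
    (P := fun δ => ∃ x y, A x y ∧ δ = (y : ℤ) - x) ⟨Bd, by
      rintro δ ⟨x, y, a1, rfl⟩
      obtain ⟨k, z, a2, a3⟩ := (h2 x y).1 a1
      have := hz k z a2
      have := hB k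
      rw [Prod.ext_iff] at a3
      simp at a3
      omega⟩ (by obtain ⟨x, y, h⟩ := hne; exact ⟨_, x, y, h, rfl⟩)
  exact ⟨x0, y0, a1, fun x y h => a2 ▸ hm _ ⟨x, y, h, rfl⟩⟩

structure Lin (Q E : Type) where
  src : E → Q
  tgt : E → Q
  A : E → ℕ → ℕ → Prop
  B : E → ℕ → ℕ → Prop
  R : Q → ℕ → ℕ → Prop
  dA : ∀ e, Dg (A e)
  dB : ∀ e, Dg (B e)
  dR : ∀ q, Dg (R q)
  nA : ∀ e, ∃ x y, A e x y
  nB : ∀ e, ∃ x y, B e x y
  step : ∀ e x l r y, A e x l → R (tgt e) l r → B e r y → R (src e) x y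
  conn : ∀ q q', Relation.ReflTransGen (fun a b => ∃ e, src e = a ∧ tgt e = b) q q'

namespace Lin

variable {Q E : Type} (S : Lin Q E)

def GC (q q' : Q) (U V : ℤ) : Prop := ∃ H : ℕ, ∀ l r : ℕ, H ≤ l → H ≤ r → S.R q' l r →
  ∃ x y : ℕ, (x : ℤ) + U = l ∧ (y : ℤ) = r + V ∧ S.R q x y

variable {S}

theorem GC.edge {e : E} {x0 l0 r0 y0 : ℕ} (h1 : S.A e x0 l0) (h2 : S.B e r0 y0) :
    S.GC (S.src e) (S.tgt e) (l0 - x0) (y0 - r0) := by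
  refine ⟨l0 + r0, fun l r hl hr h => ⟨x0 + (l - l0), y0 + (r - r0), by omega, by omega, ?_⟩⟩
  have a1 := S.dA e _ _ (l - l0) h1
  have a2 := S.dB e _ _ (r - r0) h2
  rw [show l0 + (l - l0) = l by omega] at a1
  rw [show r0 + (r - r0) = r by omega] at a2
  exact S.step e _ _ _ _ a1 h a2

theorem GC.refl (q : Q) : S.GC q q 0 0 := ⟨0, fun l r _ _ h => ⟨l, r, by simp, by simp, h⟩⟩

theorem GC.trans {q q' q'' : Q} {U V U' V' : ℤ} (h : S.GC q q' U V) (h' : S.GC q' q'' U' V') :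
    S.GC q q'' (U + U') (V + V') := by
  obtain ⟨H, h⟩ := h
  obtain ⟨H', h'⟩ := h'
  refine ⟨H + H' + U'.natAbs + V'.natAbs, fun l r hl hr h0 => ?_⟩
  obtain ⟨x, y, a1, a2, a3⟩ := h' l r (by omega) (by omega) h0
  obtain ⟨x', y', b1, b2, b3⟩ := h x y (by omega) (by omega) a3
  exact ⟨x', y', by omega, by omega, b3⟩

theorem GC.nsmul {q : Q} {U V : ℤ} (h : S.GC q q U V) (n : ℕ) : S.GC q q (n * U) (n * V) := by
  induction n with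
  | zero => simpa using GC.refl q
  | succ n ih => convert ih.trans h using 1 <;> (push_cast; ring)

theorem GC.iter {q : Q} {U V : ℤ} (h : S.GC q q U V) : ∃ H : ℕ, ∀ n l r : ℕ, H ≤ l → H ≤ r →
    (H : ℤ) ≤ l - n * U → (H : ℤ) ≤ r + n * V → S.R q l r →
    ∃ x y : ℕ, (x : ℤ) + n * U = l ∧ (y : ℤ) = r + n * V ∧ S.R q x y := by
  obtain ⟨H, h⟩ := h
  refine ⟨H, fun n => ?_⟩
  induction n with
  | zero => intro l r _ _ _ _ h0; exact ⟨l, r, by simp, by simp, h0⟩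
  | succ n ih =>
    intro l r h1 h2 h3 h4 h0
    push_cast at h3 h4
    have hn : (0 : ℤ) ≤ n := by positivity
    have e1 : (H : ℤ) ≤ l - n * U := by
      rcases le_total 0 U with hU | hU
      · nlinarith
      · have : (H : ℤ) ≤ l := by exact_mod_cast h1
        nlinarith
    have e2 : (H : ℤ) ≤ r + n * V := by
      rcases le_total 0 V with hU | hU
      · have : (H : ℤ) ≤ r := by exact_mod_cast h2
        nlinarith
      · nlinarith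
    obtain ⟨x, y, a1, a2, a3⟩ := ih l r h1 h2 e1 e2 h0
    obtain ⟨x', y', b1, b2, b3⟩ := h x y (by zify; linarith) (by zify; linarith) a3
    exact ⟨x', y', by push_cast; linarith, by push_cast; linarith, b3⟩

variable (S)

theorem gc (q q' : Q) : ∃ U V, S.GC q q' U V := by
  induction S.conn q q' with
  | refl => exact ⟨0, 0, GC.refl q⟩
  | tail _ h ih =>
    obtain ⟨U, V, h1⟩ := ih
    obtain ⟨e, rfl, rfl⟩ := h
    obtain ⟨x, l, a1⟩ := S.nA e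
    obtain ⟨r, y, a2⟩ := S.nB e
    exact ⟨_, _, h1.trans (GC.edge a1 a2)⟩

theorem steep_B {q : Q} {M : ℕ} (hM : 0 < M) {ρ : ℤ} {x0 y0 : ℕ} (h0 : S.R q x0 y0)
    (hc : (M : ℤ) ∣ (y0 : ℤ) - x0 - ρ) (e : E) {b0 b1 p p' : ℕ}
    (hB : ∀ i j, S.B e (b0 + j * p + i) (b1 + j * p' + i)) (hp : p < p') : St (S.R q) M ρ := by
  obtain ⟨U1, V1, H1, g1⟩ := S.gc q (S.src e)
  obtain ⟨U2, V2, H2, g2⟩ := S.gc (S.tgt e) q
  obtain ⟨xa, la, ha⟩ := S.nA e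
  refine boost (S.dR q) hM (k0 := 2 * (p + 1)) (by omega)
    (U1 + V1 + U2 + V2 + (la - xa) + (b1 - b0)) h0 hc fun k N hk => ?_
  obtain ⟨w1, u1, u1'⟩ := bnd U1
  obtain ⟨w2, u2, u2'⟩ := bnd V1
  obtain ⟨w3, u3, u3'⟩ := bnd U2
  obtain ⟨w4, u4, u4'⟩ := bnd V2
  obtain ⟨W, hW⟩ : ∃ W, W = w1 + w2 + w3 + w4 + xa + la + b0 + b1 +
    H1 + H2 + M * (p + 1) := ⟨_, rfl⟩
  refine ⟨N + (k + 1) * W + 4 * (p + 1) * W + 12 * W, fun l r h1 h2 h3 => ?_⟩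
  have hlr : l ≤ 2 * r := by
    have : 2 * (p + 1) * l ≤ 2 * (p + 1) * (2 * r) := by
      calc 2 * (p + 1) * l ≤ k * l := Nat.mul_le_mul_right l hk
        _ ≤ _ := h3
        _ = _ := by ring
    exact Nat.le_of_mul_le_mul_left this (by omega)
  have hW1 : 0 ≤ (k + 1) * W := Nat.zero_le _
  have hW2 : 0 ≤ 4 * (p + 1) * W := Nat.zero_le _
  have hW3 : 0 ≤ M * (p + 1) := Nat.zero_le _
  obtain ⟨x2, y2, a1, a2, a3⟩ := g2 l r (by omega) (by omega) h1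
  obtain ⟨j, hj⟩ : ∃ j, j = (y2 - b0) / (M * (p + 1)) := ⟨_, rfl⟩
  have j1 : j * (M * (p + 1)) ≤ y2 - b0 := hj ▸ Nat.div_mul_le_self _ _
  have j2 : y2 - b0 < j * (M * (p + 1)) + M * (p + 1) := by
    rw [hj]; exact Nat.lt_div_mul_add (by positivity)
  clear hj
  obtain ⟨J, hJ⟩ : ∃ J, J = j * M := ⟨_, rfl⟩
  have j3 : j * (M * (p + 1)) = J * p + J := by rw [hJ]; ring
  have j4 : J * p + J ≤ J * p' := ar1 hp
  obtain ⟨i1, hi1⟩ : ∃ i1, x2 = la + i1 := ⟨x2 - la, by omega⟩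
  obtain ⟨i2, hi2⟩ : ∃ i2, y2 = b0 + J * p + i2 := ⟨y2 - b0 - J * p, by omega⟩
  have c1 := S.dA e _ _ i1 ha
  have c2 := hB i2 J
  rw [← hi1] at c1
  rw [← hi2] at c2
  obtain ⟨x, y, d1, d2, d3⟩ := g1 _ _ (by omega) (by omega) (S.step e _ _ _ _ c1 a3 c2)
  refine ⟨x, y, d3, ⟨j * (p' - p), ?_⟩, by omega, ?_⟩
  · have : (J : ℤ) * p' - J * p = M * (j * (p' - p)) := by rw [hJ]; push_cast; ring
    have e1 : ((J * p : ℕ) : ℤ) = J * p := by push_cast; ring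
    have e2 : ((J * p' : ℕ) : ℤ) = J * p' := by push_cast; ring
    omega
  · have f1 : x ≤ l + W := by omega
    have f2 : r + J ≤ y + W := by omega
    have f3 : l ≤ 2 * (J * p + J) + 4 * W := by omega
    have f4 : (k + 1) * x ≤ k * l + l + (k + 1) * W := ar2 f1
    have f5 : 2 * (2 * (p + 1)) * r + 4 * (J * p + J) ≤
      2 * (2 * (p + 1)) * y + 4 * (p + 1) * W := ar3 f2
    omega

theorem steep_A {q : Q} {M : ℕ} (hM : 0 < M) {ρ : ℤ} {x0 y0 : ℕ} (h0 : S.R q x0 y0)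
    (hc : (M : ℤ) ∣ (y0 : ℤ) - x0 - ρ) (e : E) {a0 a1 p p' : ℕ}
    (hA : ∀ i j, S.A e (a0 + j * p + i) (a1 + j * p' + i)) (hp : p < p') : St (S.R q) M ρ := by
  obtain ⟨U1, V1, H1, g1⟩ := S.gc q (S.src e)
  obtain ⟨U2, V2, H2, g2⟩ := S.gc (S.tgt e) q
  obtain ⟨rb, yb, hb⟩ := S.nB e
  refine boost (S.dR q) hM (k0 := 4 * p') (by omega)
    (U1 + V1 + U2 + V2 + (yb - rb) + (a1 - a0)) h0 hc fun k N hk => ?_
  obtain ⟨w1, u1, u1'⟩ := bnd U1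
  obtain ⟨w2, u2, u2'⟩ := bnd V1
  obtain ⟨w3, u3, u3'⟩ := bnd U2
  obtain ⟨w4, u4, u4'⟩ := bnd V2
  obtain ⟨W, hW⟩ : ∃ W, W = w1 + w2 + w3 + w4 + rb + yb + a0 + a1 +
    H1 + H2 + M * (2 * p') := ⟨_, rfl⟩
  refine ⟨2 * N + (k + 1) * W + 8 * p' * W + 12 * W, fun l r h1 h2 h3 => ?_⟩
  have hlr : l ≤ 2 * r := by
    have : 4 * p' * l ≤ 4 * p' * (2 * r) := by
      calc 4 * p' * l ≤ k * l := Nat.mul_le_mul_right l hk
        _ ≤ _ := h3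
        _ = _ := by ring
    exact Nat.le_of_mul_le_mul_left this (by omega)
  have hW1 : 0 ≤ (k + 1) * W := Nat.zero_le _
  have hW2 : 0 ≤ 8 * p' * W := Nat.zero_le _
  have hW3 : 0 ≤ M * (2 * p') := Nat.zero_le _
  obtain ⟨x2, y2, b1, b2, b3⟩ := g2 l r (by omega) (by omega) h1
  obtain ⟨j, hj⟩ : ∃ j, j = (x2 - a1) / (M * (2 * p')) := ⟨_, rfl⟩
  have j1 : j * (M * (2 * p')) ≤ x2 - a1 := hj ▸ Nat.div_mul_le_self _ _
  have j2 : x2 - a1 < j * (M * (2 * p')) + M * (2 * p') := by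
    rw [hj]; exact Nat.lt_div_mul_add (Nat.mul_pos hM (by omega))
  clear hj
  obtain ⟨J, hJ⟩ : ∃ J, J = j * M := ⟨_, rfl⟩
  have j3 : j * (M * (2 * p')) = 2 * (J * p') := by rw [hJ]; ring
  have j4 : J * p + J ≤ J * p' := ar1 hp
  obtain ⟨i1, hi1⟩ : ∃ i1, x2 = a1 + J * p' + i1 := ⟨x2 - a1 - J * p', by omega⟩
  obtain ⟨i2, hi2⟩ : ∃ i2, y2 = rb + i2 := ⟨y2 - rb, by omega⟩
  have c1 := hA i1 J
  have c2 := S.dB e _ _ i2 hb
  rw [← hi1] at c1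
  rw [← hi2] at c2
  obtain ⟨x, y, d1, d2, d3⟩ := g1 _ _ (by omega) (by omega) (S.step e _ _ _ _ c1 b3 c2)
  refine ⟨x, y, d3, ⟨j * (p' - p), ?_⟩, by omega, ?_⟩
  · have : (J : ℤ) * p' - J * p = M * (j * (p' - p)) := by rw [hJ]; push_cast; ring
    have e1 : ((J * p : ℕ) : ℤ) = J * p := by push_cast; ring
    have e2 : ((J * p' : ℕ) : ℤ) = J * p' := by push_cast; ring
    omega
  · have f1 : x + J ≤ l + W := by omega
    have f2 : r ≤ y + W := by omega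
    have f3 : l ≤ 2 * (J * p') + 2 * W := by omega
    have f4 : (k + 1) * x + (k + 1) * J ≤ k * l + l + (k + 1) * W := ar4 f1
    have f5 : 2 * (4 * p') * r ≤ 2 * (4 * p') * y + 8 * p' * W := ar5 f2
    have f6 : 4 * (J * p') ≤ (k + 1) * J := ar6 hk
    omega

end Lin

end Pool.Agent.H63.GV
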