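import Pool.Agent.H63.GV4

/-! Linear systems: a residue class of finite slope is semilinear. -/

set_option autoImplicit false

namespace Pool.Agent.H63.GV

namespace Lin

variable {Q E : Type} (S : Lin Q E)

inductive Path : Q → ℕ → ℕ → List E → Q → ℕ → ℕ → Prop
  | nil (q : Q) (x y : ℕ) : Path q x y [] q x y
  | cons {e : E} {x l r y : ℕ} {L : List E} {q' : Q} {a b : ℕ} : S.A e x l → S.B e r y →
      Path (S.tgt e) l r L q' a b → Path (S.src e) x y (e :: L) q' a b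

def Walk : Q → List E → Q → Prop
  | q, [], q' => q = q'
  | q, e :: L, q' => S.src e = q ∧ Walk (S.tgt e) L q'

variable {S}

theorem Path.fill {q q' : Q} {x y a b : ℕ} {L : List E} (h : S.Path q x y L q' a b) (i j : ℕ)
    (h' : S.R q' (a + i) (b + j)) : S.R q (x + i) (y + j) := by
  induction h with
  | nil => exact h'
  | cons h1 h2 _ ih => exact S.step _ _ _ _ _ (S.dA _ _ _ i h1) (ih h') (S.dB _ _ _ j h2)

theorem walk_append : ∀ (L1 L2 : List E) (q q' : Q),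
    S.Walk q (L1 ++ L2) q' ↔ ∃ m, S.Walk q L1 m ∧ S.Walk m L2 q'
  | [], L2, q, q' => by simp [Walk]
  | e :: L1, L2, q, q' => by
    simp only [List.cons_append, Walk, walk_append L1 L2]
    tauto

theorem walk_unique : ∀ (L : List E) (q m m' : Q), S.Walk q L m → S.Walk q L m' → m = m'
  | [], _, _, _, h, h' => h.symm.trans h'
  | _ :: L, _, _, _, h, h' => walk_unique L _ _ _ h.2 h'.2

theorem walk_bound [Fintype Q] [Finite E] (w : E → ℤ)
    (hw : ∀ z L, S.Walk z L z → L.length ≤ Fintype.card Q → (L.map w).sum ≤ 0) :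
    ∃ C : ℕ, ∀ q L q', S.Walk q L q' → (L.map w).sum ≤ C := by
  obtain ⟨W, hW⟩ := Finite.exists_le (fun e => (w e).toNat)
  have h0 : ∀ L : List E, (L.map w).sum ≤ (L.length * W : ℕ) := by
    intro L
    induction L with
    | nil => simp
    | cons e L ih =>
      have := hW e
      simp only [List.map_cons, List.sum_cons, List.length_cons, add_mul, one_mul] at *
      omega
  refine ⟨Fintype.card Q * W, fun q L => ?_⟩
  induction hn : L.length using Nat.strong_induction_on generalizing L with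
  | _ n ih =>
  intro q' h
  by_cases hl : L.length ≤ Fintype.card Q
  · exact (h0 L).trans (by exact_mod_cast Nat.mul_le_mul_right W hl)
  · have : ∀ i, ∃ m, S.Walk q (L.take i) m ∧ S.Walk m (L.drop i) q' := fun i =>
      (walk_append _ _ _ _).1 (by rwa [List.take_append_drop])
    choose st h1 h2 using this
    have key : ∀ i j, i < j → j ≤ Fintype.card Q → st i = st j → (L.map w).sum ≤
        (Fintype.card Q * W : ℕ) := by
      intro i j hij hj e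
      have e1 : L.take j = L.take i ++ (L.take j).drop i := by
        conv_lhs => rw [← List.take_append_drop i (L.take j)]
        rw [List.take_take, min_eq_left hij.le]
      have a1 := h1 j
      rw [e1] at a1
      obtain ⟨m, a2, a3⟩ := (walk_append _ _ _ _).1 a1
      have e2 := walk_unique _ _ _ _ a2 (h1 i)
      rw [e2, ← e] at a3
      have a4 := hw _ _ a3 (by simp; omega)
      have a5 := ih (L.take i ++ L.drop j).length (by simp; omega) _ rfl q'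
        ((walk_append _ _ _ _).2 ⟨st i, h1 i, e ▸ h2 j⟩)
      have e3 : L = L.take i ++ (L.take j).drop i ++ L.drop j := by
        rw [← e1, List.take_append_drop]
      have e4 : (L.map w).sum = ((L.take i).map w).sum + (((L.take j).drop i).map w).sum +
          ((L.drop j).map w).sum := by
        conv_lhs => rw [e3]
        simp only [List.map_append, List.sum_append]
      simp only [List.map_append, List.sum_append] at a5
      omega
    obtain ⟨i, j, hij, e⟩ := Fintype.exists_ne_map_eq_of_card_lt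
      (fun i : Fin (Fintype.card Q + 1) => st i) (by simp)
    rcases lt_or_gt_of_ne hij with h | h
    · exact key i j h (by omega) e
    · exact key j i h (by omega) e.symm

theorem walk_gc {a b : E → ℤ} (hg : ∀ e, S.GC (S.src e) (S.tgt e) (a e) (b e)) :
    ∀ (L : List E) (q q' : Q), S.Walk q L q' → S.GC q q' (L.map a).sum (L.map b).sum
  | [], q, _, h => by cases h; exact GC.refl q
  | e :: L, _, q', h => by
    obtain ⟨rfl, h⟩ := h
    simpa using (hg e).trans (walk_gc hg L _ _ h)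

theorem Path.walk {a b : E → ℤ} (ha : ∀ e x l, S.A e x l → (l : ℤ) - x ≤ a e)
    (hb : ∀ e x l, S.B e x l → (l : ℤ) - x ≤ b e) {q q' : Q} {x y l r : ℕ} {L : List E}
    (h : S.Path q x y L q' l r) :
    S.Walk q L q' ∧ (l : ℤ) - x ≤ (L.map a).sum ∧ (y : ℤ) - r ≤ (L.map b).sum := by
  induction h with
  | nil => simp [Walk]
  | cons h1 h2 _ ih =>
    have := ha _ _ _ h1
    have := hb _ _ _ h2
    simp only [List.map_cons, List.sum_cons]
    exact ⟨⟨rfl, ih.1⟩, by omega, by omega⟩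

theorem att_cyc {q z : Q} {p p' : ℕ} (h : S.GC z z (-p) p') {M : ℕ} (hM : 0 < M) {x y : ℕ}
    (h0 : S.R q x y) : ∃ x1 y1 : ℕ, (M : ℤ) ∣ (y1 : ℤ) - x1 - (y - x) ∧
      ∀ k, S.R q (x1 + k * p) (y1 + k * p') := by
  obtain ⟨U1, V1, g1⟩ := S.gc q z
  obtain ⟨U2, V2, g2⟩ := S.gc z q
  obtain ⟨M, rfl⟩ : ∃ M', M = M' + 1 := ⟨M - 1, by omega⟩
  obtain ⟨H3, g3⟩ := g2.trans ((g1.trans g2).nsmul M)
  obtain ⟨H1, g1⟩ := g1
  obtain ⟨H, h⟩ := h.iter
  generalize hU : U2 + M * (U1 + U2) = U3 at g3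
  generalize hV : V2 + M * (V1 + V2) = V3 at g3
  obtain ⟨w1, u1, u1'⟩ := bnd U1
  obtain ⟨w2, u2, u2'⟩ := bnd V1
  obtain ⟨w3, u3, u3'⟩ := bnd U3
  obtain ⟨w4, u4, u4'⟩ := bnd V3
  obtain ⟨i, hi⟩ : ∃ i, i = H + H1 + H3 + w1 + w2 + w3 + w4 := ⟨_, rfl⟩
  obtain ⟨x2, y2, a1, a2, a3⟩ := g3 _ _ (by omega) (by omega) (S.dR _ _ _ i h0)
  obtain ⟨x1, hx1⟩ : ∃ x1 : ℕ, (x1 : ℤ) + U1 = x2 := ⟨(x2 - U1).toNat, by omega⟩
  obtain ⟨y1, hy1⟩ : ∃ y1 : ℕ, (y1 : ℤ) = y2 + V1 := ⟨(y2 + V1).toNat, by omega⟩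
  refine ⟨x1, y1, ⟨U1 + U2 + V1 + V2, ?_⟩, fun k => ?_⟩
  · push_cast at a1 a2 ⊢
    linear_combination hx1.symm + hy1 + a2 - a1 - hU - hV
  · have e1 : (k : ℤ) * (-p) = -((k * p : ℕ) : ℤ) := by push_cast; ring
    have e2 : (k : ℤ) * p' = ((k * p' : ℕ) : ℤ) := by push_cast; ring
    obtain ⟨x3, y3, b1, b2, b3⟩ := h k x2 y2 (by omega) (by omega) (by omega) (by omega) a3
    obtain ⟨x4, y4, c1, c2, c3⟩ := g1 x3 y3 (by omega) (by omega) b3
    rwa [show x4 = x1 + k * p by omega, show y4 = y1 + k * p' by omega] at c3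

theorem steep_cyc {q z : Q} {U V : ℤ} (h : S.GC z z U V) (hU : 0 ≤ U) {p p' : ℕ} (hp : 0 < p)
    (hpos : 0 < p' * U + p * V) {M : ℕ} (hM : 0 < M) {ρ : ℤ} {x1 y1 : ℕ}
    (hc : (M : ℤ) ∣ (y1 : ℤ) - x1 - ρ) (h1 : ∀ k, S.R q (x1 + k * p) (y1 + k * p')) :
    St (S.R q) M ρ := by
  obtain ⟨U1, V1, g1⟩ := S.gc q z
  obtain ⟨U2, V2, g2⟩ := S.gc z q
  obtain ⟨M, rfl⟩ : ∃ M', M = M' + 1 := ⟨M - 1, by omega⟩
  obtain ⟨H3, g3⟩ := ((g1.trans g2).nsmul M).trans g1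
  obtain ⟨H2, g2⟩ := g2
  obtain ⟨H, h⟩ := h.iter
  obtain ⟨u, rfl⟩ := Int.eq_ofNat_of_zero_le hU
  generalize hU : M * (U1 + U2) + U1 = U3 at g3
  generalize hV : M * (V1 + V2) + V1 = V3 at g3
  obtain ⟨w1, u1, u1'⟩ := bnd U2
  obtain ⟨w2, u2, u2'⟩ := bnd V2
  obtain ⟨w3, u3, u3'⟩ := bnd U3
  obtain ⟨w4, u4, u4'⟩ := bnd V3
  obtain ⟨W, hW⟩ : ∃ i, i = H + H2 + H3 + w1 + w2 + w3 + w4 := ⟨_, rfl⟩
  intro c
  obtain ⟨t, ht⟩ : ∃ t, t = c * (x1 + 2 * W) + c + 1 := ⟨_, rfl⟩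
  obtain ⟨k, hk⟩ : ∃ k, k = u * ((M + 1) * t) := ⟨_, rfl⟩
  obtain ⟨n, hn⟩ : ∃ n, n = p * ((M + 1) * t) := ⟨_, rfl⟩
  have e1 : (n : ℤ) * u = ((k * p : ℕ) : ℤ) := by rw [hn, hk]; push_cast; ring
  obtain ⟨G, hG⟩ : ∃ G : ℤ, G = (M + 1) * t * (p' * u + p * V) := ⟨_, rfl⟩
  have e2 : (n : ℤ) * V = G - ((k * p' : ℕ) : ℤ) := by rw [hn, hk, hG]; push_cast; ring
  have e3 : (t : ℤ) ≤ G := by
    rw [hG]
    have : (0 : ℤ) ≤ t := by positivity
    have : (0 : ℤ) ≤ M * t := by positivity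
    nlinarith
  obtain ⟨x2, y2, a1, a2, a3⟩ := g2 _ _ (by omega) (by omega) (S.dR _ _ _ W (h1 k))
  obtain ⟨x3, y3, b1, b2, b3⟩ := h n x2 y2 (by omega) (by omega) (by omega) (by omega) a3
  obtain ⟨x4, y4, c1, c2, c3⟩ := g3 x3 y3 (by omega) (by omega) b3
  refine ⟨x4, y4, c3, dvd_eq (dvd_add hc (Dvd.intro (U1 + U2 + V1 + V2 + t * (p' * u + p * V))
    rfl)) ?_, ?_⟩
  · have e4 : (y4 : ℤ) - x4 = y1 - x1 + G + U3 + V3 + U2 + V2 := by omega
    rw [e4, hG, ← hU, ← hV]; push_cast; ring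
  · have : c * x4 ≤ c * (x1 + 2 * W) := Nat.mul_le_mul_left c (by omega)
    omega

theorem region {R : ℕ → ℕ → Prop} (hd : Dg R) {p d x1 y1 : ℕ} (hd0 : 0 < d)
    (h : ∀ k, R (x1 + k * p) (y1 + k * (p + d))) {x y : ℕ} (h1 : (d : ℤ) ∣ (y : ℤ) - x - (y1 - x1))
    (h2 : x + y1 ≤ y + x1) (h3 : p * y + (p + d) * x1 ≤ (p + d) * x + p * y1) : R x y := by
  obtain ⟨k, hk⟩ := h1
  have k0 : 0 ≤ k := by
    have : (0 : ℤ) ≤ d * k := by omega
    exact (mul_nonneg_iff_of_pos_left (by exact_mod_cast hd0)).1 this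
  obtain ⟨k, rfl⟩ := Int.eq_ofNat_of_zero_le k0
  have e : (y : ℤ) = x + y1 - x1 + d * k := by linarith
  have h4 : x1 + k * p ≤ x := by
    have : (d : ℤ) * (x1 + k * p) ≤ d * x := by
      zify at h3; rw [e] at h3; nlinarith
    have := le_of_mul_le_mul_left this (by exact_mod_cast hd0)
    exact_mod_cast this
  obtain ⟨i, rfl⟩ := Nat.exists_eq_add_of_le h4
  have := hd _ _ i (h k)
  rwa [show y1 + k * (p + d) + i = y by zify; rw [e]; push_cast; ring] at this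

theorem comp_SL [Fintype Q] [Finite E] {q qΓ : Q} {M : ℕ} (hM : 0 < M) {ρ : ℤ}
    (hns : ¬ St (S.R q) M ρ) (hl : HasLines (S.R q)) {a b : E → ℤ}
    (hg : ∀ e, S.GC (S.src e) (S.tgt e) (a e) (b e))
    (ha : ∀ e x l, S.A e x l → (l : ℤ) - x ≤ a e) (hb : ∀ e x l, S.B e x l → (l : ℤ) - x ≤ b e)
    (c : ℕ × ℕ) (Pd : Finset (ℕ × ℕ)) (h11 : (1, 1) ∈ Pd)
    (hΓ : ∀ z ∈ AddSubmonoid.closure (Pd : Set (ℕ × ℕ)), S.R qΓ (c.1 + z.1) (c.2 + z.2)) :
    ∃ Z, SL Z ∧ (∀ x y, Z x y → S.R q x y ∧ x ≤ y ∧ (M : ℤ) ∣ (y : ℤ) - x - ρ) ∧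
      ∀ x y L, ∀ z ∈ AddSubmonoid.closure (Pd : Set (ℕ × ℕ)),
        S.Path q x y L qΓ (c.1 + z.1) (c.2 + z.2) → x ≤ y → (M : ℤ) ∣ (y : ℤ) - x - ρ → Z x y := by
  classical
  set T : ℕ → ℕ → Prop := fun x y => S.R q x y ∧ x ≤ y ∧ (M : ℤ) ∣ (y : ℤ) - x - ρ with hT
  set TΓ : ℕ → ℕ → Prop := fun x y => (∃ L, ∃ z ∈ AddSubmonoid.closure (Pd : Set (ℕ × ℕ)),
    S.Path q x y L qΓ (c.1 + z.1) (c.2 + z.2)) ∧ (M : ℤ) ∣ (y : ℤ) - x - ρ with hTΓ
  suffices ∃ Z, SL Z ∧ (∀ x y, Z x y → T x y) ∧ ∀ x y, TΓ x y → x ≤ y → Z x y by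
    obtain ⟨Z, h1, h2, h3⟩ := this
    exact ⟨Z, h1, h2, fun x y L z hz h h' h'' => h3 x y ⟨⟨L, z, hz, h⟩, h''⟩ h'⟩
  by_cases hne : ∃ x y, TΓ x y
  swap
  · exact ⟨_, SL.false, fun _ _ h => h.elim, fun x y h _ => hne ⟨x, y, h⟩⟩
  have per : ∀ π ∈ Pd, ∀ x y, TΓ x y → ∀ k, S.R q (x + k * π.1) (y + k * π.2) := by
    rintro π hπ x y ⟨⟨L, z, hz, h⟩, -⟩ k
    refine h.fill _ _ ?_
    have := hΓ _ (AddSubmonoid.add_mem _ hz
      (AddSubmonoid.nsmul_mem _ (AddSubmonoid.subset_closure hπ) k))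
    simpa [add_assoc] using this
  have TR : ∀ x y, TΓ x y → S.R q x y := fun x y h => by simpa using per _ h11 x y h 0
  obtain ⟨x0, y0, h0⟩ := hne
  have f4 : ∀ π ∈ Pd, π.1 = 0 → π.2 = 0 := by
    intro π hπ h1
    by_contra h2
    refine hns fun c => ⟨x0, y0 + (c * x0 + c + 1) * M * π.2, ?_, ?_, ?_⟩
    · simpa [h1] using per π hπ x0 y0 h0 ((c * x0 + c + 1) * M)
    · exact dvd_eq (dvd_add h0.2 (Dvd.intro ((c * x0 + c + 1) * π.2) rfl)) (by push_cast; ring)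
    · have : (c * x0 + c + 1) * 1 * 1 ≤ (c * x0 + c + 1) * M * π.2 :=
        Nat.mul_le_mul (Nat.mul_le_mul_left _ hM) (Nat.pos_of_ne_zero h2)
      omega
  let Cand : Set (ℕ × ℕ) := {π | π ∈ Pd ∧ 0 < π.1} ∪ {π | 0 < π.1 ∧ ∃ z L, S.Walk z L z ∧
    L.length ≤ Fintype.card Q ∧ (L.map a).sum = -π.1 ∧ (L.map b).sum = π.2}
  have hfin : Cand.Finite := by
    refine (Pd.finite_toSet.subset fun π h => h.1).union
      (((List.finite_length_le E (Fintype.card Q)).image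
        fun L => ((-(L.map a).sum).toNat, ((L.map b).sum).toNat)).subset ?_)
    rintro π ⟨-, z, L, -, h2, h3, h4⟩
    exact ⟨L, h2, by simp [h3, h4]⟩
  obtain ⟨⟨p, p'⟩, hpc, hmax⟩ := Set.exists_max_image Cand (fun π => (π.2 : ℚ) / π.1) hfin
    ⟨(1, 1), Or.inl ⟨h11, Nat.one_pos⟩⟩
  have hp : 0 < p := by rcases hpc with h | h; exacts [h.2, h.1]
  have hmax' : ∀ π ∈ Cand, π.2 * p ≤ p' * π.1 := by
    intro π hπ
    have h1 : 0 < π.1 := by rcases hπ with h | h; exacts [h.2, h.1]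
    have := hmax π hπ
    rw [div_le_div_iff₀ (by exact_mod_cast h1) (by exact_mod_cast hp)] at this
    exact_mod_cast this
  have hpp : p ≤ p' := by simpa using hmax' (1, 1) (Or.inl ⟨h11, Nat.one_pos⟩)
  have att : ∀ M' : ℕ, 0 < M' → ∀ x y, TΓ x y → ∃ x1 y1 : ℕ,
      (M' : ℤ) ∣ (y1 : ℤ) - x1 - (y - x) ∧ ∀ k, S.R q (x1 + k * p) (y1 + k * p') := by
    intro M' hM' x y h
    rcases hpc with h1 | ⟨-, z, L, h1, -, h2, h3⟩
    · exact ⟨x, y, by simp, per _ h1.1 x y h⟩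
    · have := walk_gc hg L z z h1
      rw [h2, h3] at this
      exact att_cyc this hM' (TR x y h)
  obtain ⟨Cw, hCw⟩ := walk_bound (S := S) (fun e => p' * a e + p * b e) (by
    intro z L h1 h2
    have e : (L.map fun e => p' * a e + p * b e).sum = p' * (L.map a).sum + p * (L.map b).sum := by
      rw [List.sum_map_add, List.sum_map_mul_left, List.sum_map_mul_left]
    rw [e]
    have g := walk_gc hg L z z h1
    generalize hU : (L.map a).sum = U at *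
    generalize hV : (L.map b).sum = V at *
    have p0 : (0 : ℤ) ≤ p := by positivity
    have p0' : (0 : ℤ) ≤ p' := by positivity
    rcases lt_or_ge U 0 with h3 | h3
    · rcases lt_or_ge V 0 with h4 | h4
      · nlinarith
      · obtain ⟨v, rfl⟩ := Int.eq_ofNat_of_zero_le h4
        obtain ⟨u, rfl⟩ := Int.exists_eq_neg_ofNat h3.le
        have := hmax' (u, v) (Or.inr ⟨by simp only; omega, z, L, h1, h2, hU, hV⟩)
        zify at this
        nlinarith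
    · by_contra h4
      obtain ⟨x1, y1, b1, b2⟩ := att M hM x0 y0 h0
      exact hns (steep_cyc g h3 hp (by omega) hM (dvd_eq (dvd_add b1 h0.2) (by ring)) b2))
  have ub : ∃ C0, ∀ x y, TΓ x y → p * y ≤ p' * x + C0 := by
    refine ⟨Cw + p * c.2, ?_⟩
    rintro x y ⟨⟨L, z, hz, h⟩, -⟩
    obtain ⟨a1, a2, a3⟩ := h.walk ha hb
    have a4 := hCw _ _ _ a1
    rw [List.sum_map_add, List.sum_map_mul_left, List.sum_map_mul_left] at a4
    have a5 : p * z.2 ≤ p' * z.1 := by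
      clear h a2 a3
      induction hz using AddSubmonoid.closure_induction with
      | mem π hπ =>
        rcases Nat.eq_zero_or_pos π.1 with h | h
        · simp [f4 π hπ h]
        · rw [mul_comm]; exact hmax' π (Or.inl ⟨hπ, h⟩)
      | zero => simp
      | add u v _ _ hu hv => simp only [Prod.fst_add, Prod.snd_add, mul_add]; omega
    have p0 : (0 : ℤ) ≤ p := by positivity
    have p0' : (0 : ℤ) ≤ p' := by positivity
    have a6 := mul_le_mul_of_nonneg_left a2 p0'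
    have a7 := mul_le_mul_of_nonneg_left a3 p0
    have a8 : (0 : ℤ) ≤ p' * c.1 := by positivity
    zify at a5 ⊢
    push_cast at a6 a7
    nlinarith
  obtain ⟨C0, ub⟩ := ub
  have sT : SL fun x y => x ≤ y ∧ (M : ℤ) ∣ (y : ℤ) - x - ρ :=
    ((SL.le 1 0 0 0 1 0).congr fun _ _ => by simp).and (SL.dvd M ρ)
  obtain ⟨d, rfl⟩ := Nat.exists_eq_add_of_le hpp
  rcases Nat.eq_zero_or_pos d with rfl | hd
  · refine ⟨_, (hl.strip (α := p) (β := p) (by omega) C0).and sT,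
      fun x y h => ⟨h.1.1, h.2⟩, fun x y h hxy => ⟨⟨TR x y h, ?_, ub x y h⟩, hxy, h.2⟩⟩
    have := Nat.mul_le_mul_left p hxy
    omega
  have hMd : 0 < M * d := Nat.mul_pos hM hd
  have : ∀ r : Fin (M * d), ∃ Z, SL Z ∧ (∀ x y, Z x y → T x y) ∧
      ∀ x y, TΓ x y → x ≤ y → ((M * d : ℕ) : ℤ) ∣ (y : ℤ) - x - r → Z x y := by
    intro r
    by_cases hr : ∃ x y, TΓ x y ∧ ((M * d : ℕ) : ℤ) ∣ (y : ℤ) - x - r
    swap
    · exact ⟨_, SL.false, fun _ _ h => h.elim, fun x y h _ h' => hr ⟨x, y, h, h'⟩⟩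
    obtain ⟨xr, yr, b1, b2⟩ := hr
    obtain ⟨x1, y1, b3, b4⟩ := att _ hMd xr yr b1
    refine ⟨_, (((((SL.le 1 0 y1 0 1 x1).and (SL.le 0 p ((p + d) * x1) (p + d) 0 (p * y1))).and
      (SL.dvd (M * d) r)).or ((hl.strip (α := 1) (β := 1) (by omega) y1).or
      (hl.strip (α := p + d) (β := p) (by omega) (C0 + (p + d) * x1)))).and sT), ?_, ?_⟩
    · rintro x y ⟨(⟨⟨c1, c2⟩, c3⟩ | c1 | c1), c4⟩
      · refine ⟨region (S.dR q) hd b4 ?_ (by omega) (by omega), c4⟩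
        refine (Dvd.intro_left (M : ℤ) (by push_cast; rfl)).trans
          (dvd_eq (dvd_sub (dvd_sub c3 b2) b3) (by ring))
      · exact ⟨c1.1, c4⟩
      · exact ⟨c1.1, c4⟩
    · intro x y h hxy hr
      refine ⟨?_, hxy, h.2⟩
      have := ub x y h
      by_cases c1 : x + y1 ≤ y + x1
      · by_cases c2 : p * y + (p + d) * x1 ≤ (p + d) * x + p * y1
        · exact Or.inl ⟨⟨by omega, by omega⟩, hr⟩
        · exact Or.inr (Or.inr ⟨TR x y h, by omega, by omega⟩)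
      · exact Or.inr (Or.inl ⟨TR x y h, by omega, by omega⟩)
  choose Z z1 z2 z3 using this
  refine ⟨_, SL.ex z1, fun x y ⟨r, h⟩ => z2 r x y h, fun x y h hxy => ?_⟩
  refine ⟨⟨(y - x) % (M * d), Nat.mod_lt _ hMd⟩, z3 _ x y h hxy ⟨((y - x) / (M * d) : ℕ), ?_⟩⟩
  have := Nat.div_add_mod (y - x) (M * d)
  have e : ((M * d : ℕ) : ℤ) * ((y - x) / (M * d) : ℕ) = ((M * d * ((y - x) / (M * d)) : ℕ) : ℤ) := by
    push_cast; rfl
  simp only
  omega

theorem upper_SL [Fintype Q] [Finite E] (sA : ∀ e, SL (S.A e)) (sB : ∀ e, SL (S.B e))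
    (C : Q → ℕ → ℕ → Prop) (sC : ∀ q, SL (C q)) (dC : ∀ q, Dg (C q))
    (fin : ∀ q x y, C q x y → S.R q x y) {q : Q}
    (dec : ∀ x y, S.R q x y → ∃ L q' a b, S.Path q x y L q' a b ∧ C q' a b)
    (hl : HasLines (S.R q)) {M : ℕ} (hM : 0 < M) {ρ : ℤ} (hns : ¬ St (S.R q) M ρ) :
    SL fun x y => S.R q x y ∧ x ≤ y ∧ (M : ℤ) ∣ (y : ℤ) - x - ρ := by
  by_cases hne : ∃ x y, S.R q x y ∧ (M : ℤ) ∣ (y : ℤ) - x - ρ
  swap
  · exact SL.false.congr fun x y => ⟨False.elim, fun h => hne ⟨x, y, h.1, h.2.2⟩⟩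
  obtain ⟨x0, y0, h0, hc⟩ := hne
  choose xa la a1 a2 using fun e => max_effect (sA e) (S.dA e) (S.nA e) fun b0 b1 p p' h =>
    le_of_not_gt fun hp => hns (S.steep_A hM h0 hc e h hp)
  choose xb lb b1 b2 using fun e => max_effect (sB e) (S.dB e) (S.nB e) fun b0 b1 p p' h =>
    le_of_not_gt fun hp => hns (S.steep_B hM h0 hc e h hp)
  choose κ _ c Pd c1 c2 using fun q => (sC q).comps (dC q)
  choose Z z1 z2 z3 using fun i : Σ q, κ q => comp_SL (qΓ := i.1) hM hns hl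
    (fun e => GC.edge (a1 e) (b1 e)) a2 b2 (c _ i.2) (Pd _ i.2) (c1 _ i.2)
    (fun z hz => fin _ _ _ ((c2 _ _ _).2 ⟨i.2, z, hz, rfl⟩))
  refine (SL.ex z1).congr fun x y => ⟨fun ⟨i, h⟩ => z2 i x y h, fun ⟨h1, h2, h3⟩ => ?_⟩
  obtain ⟨L, q', a, b, d1, d2⟩ := dec x y h1
  obtain ⟨k, z, hz, e⟩ := (c2 _ _ _).1 d2
  obtain ⟨rfl, rfl⟩ : a = (c q' k).1 + z.1 ∧ b = (c q' k).2 + z.2 := by
    simpa [Prod.ext_iff] using e
  exact ⟨⟨q', k⟩, z3 ⟨q', k⟩ x y L z hz d1 h2 h3⟩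

end Lin

end Pool.Agent.H63.GV
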