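import Pool.Agent.H63.GV5

/-! Thin binary systems whose steep classes are semilinear have semilinear relations. -/

set_option autoImplicit false

namespace Pool.Agent.H63.GV

open Relation

variable {Λ : Type}

def Ch (B : Λ → Λ → Λ → Prop) (a b : Λ) : Prop := ∃ c, B a b c ∨ B a c b

def ThinB (B : Λ → Λ → Λ → Prop) : Prop :=
  ∀ q q1 q2, B q q1 q2 → ¬ (ReflTransGen (Ch B) q1 q ∧ ReflTransGen (Ch B) q2 q)

def Pr (B : Λ → Λ → Λ → Prop) (Lf : Λ → ℕ → ℕ → Prop) (q : Λ) : Prop := ∃ x y, Rel B Lf q x y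

def Ue (B : Λ → Λ → Λ → Prop) (Lf : Λ → ℕ → ℕ → Prop) (a b : Λ) : Prop :=
  ∃ c, (B a b c ∨ B a c b) ∧ Pr B Lf b ∧ Pr B Lf c

def rB (B : Λ → Λ → Λ → Prop) (a b c : Λ) : Prop := B a c b
def rL (Lf : Λ → ℕ → ℕ → Prop) (a : Λ) (x y : ℕ) : Prop := Lf a y x

variable {B : Λ → Λ → Λ → Prop} {Lf : Λ → ℕ → ℕ → Prop}

theorem Rel.rev {q : Λ} {x y : ℕ} (h : Rel B Lf q x y) : Rel (rB B) (rL Lf) q y x := by
  induction h with
  | lf h => exact .lf h
  | bin hb _ _ i1 i2 => exact .bin hb i2 i1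

theorem rel_rev (q : Λ) (x y : ℕ) : Rel (rB B) (rL Lf) q x y ↔ Rel B Lf q y x :=
  ⟨fun h => h.rev, fun h => h.rev⟩

theorem rel_rev' (q : Λ) : Rel (rB B) (rL Lf) q = fun x y => Rel B Lf q y x := by
  funext x y; exact propext (rel_rev q x y)

theorem Diag.rev (h : Diag Lf) : Diag (rL Lf) := fun q x y i h' => h q y x i h'

theorem pr_rev (q : Λ) : Pr (rB B) (rL Lf) q ↔ Pr B Lf q :=
  ⟨fun ⟨x, y, h⟩ => ⟨y, x, h.rev⟩, fun ⟨x, y, h⟩ => ⟨y, x, h.rev⟩⟩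

theorem ue_rev : Ue (rB B) (rL Lf) = Ue B Lf := by
  funext a b
  simp only [Ue, pr_rev, rB, or_comm]

theorem ThinB.rev (h : ThinB B) : ThinB (rB B) := by
  have : Ch (rB B) = Ch B := by funext a b; simp only [Ch, rB, or_comm]
  intro q q1 q2 hb
  rw [this]
  exact fun h' => h q q2 q1 hb h'.symm

theorem ue_ch {a b : Λ} (h : ReflTransGen (Ue B Lf) a b) : ReflTransGen (Ch B) a b := by
  induction h with
  | refl => exact .refl
  | tail _ h ih => obtain ⟨c, h, -⟩ := h; exact ih.tail ⟨c, h⟩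

theorem upper_thin [Finite Λ] (hs : ∀ q, SL (Lf q)) (hd : Diag Lf) (ht : ThinB B) (q0 : Λ)
    (ih : ∀ μ, ReflTransGen (Ue B Lf) q0 μ → ¬ ReflTransGen (Ue B Lf) μ q0 → SL (Rel B Lf μ))
    {M : ℕ} (hM : 0 < M) {ρ : ℤ} (hns : ¬ St (Rel B Lf q0) M ρ) :
    SL fun x y => Rel B Lf q0 x y ∧ x ≤ y ∧ (M : ℤ) ∣ (y : ℤ) - x - ρ := by
  classical
  let cp : Λ → Prop := fun μ => ReflTransGen (Ue B Lf) q0 μ ∧ ReflTransGen (Ue B Lf) μ q0
  let E : Type := {t : Λ × Λ × Λ × Bool // cp t.1 ∧ cp t.2.1 ∧ Pr B Lf t.2.1 ∧ Pr B Lf t.2.2.1 ∧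
    (t.2.2.2 = true → B t.1 t.2.1 t.2.2.1) ∧ (t.2.2.2 = false → B t.1 t.2.2.1 t.2.1)}
  have dE : Dg fun x y => x = y := fun x y i h => by rw [h]
  have dR : ∀ μ, Dg (Rel B Lf μ) := fun μ x y i h => h.lift hd i
  let S : Lin {μ // cp μ} E :=
    { src := fun e => ⟨e.1.1, e.2.1⟩
      tgt := fun e => ⟨e.1.2.1, e.2.2.1⟩
      A := fun e => if e.1.2.2.2 = true then fun x y => x = y else Rel B Lf e.1.2.2.1
      B := fun e => if e.1.2.2.2 = true then Rel B Lf e.1.2.2.1 else fun x y => x = y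
      R := fun μ => Rel B Lf μ.1
      dA := fun e => by split_ifs; exacts [dE, dR _]
      dB := fun e => by split_ifs; exacts [dR _, dE]
      dR := fun μ => dR _
      nA := fun e => by split_ifs; exacts [⟨0, 0, rfl⟩, e.2.2.2.2.1]
      nB := fun e => by split_ifs; exacts [e.2.2.2.2.1, ⟨0, 0, rfl⟩]
      step := by
        rintro ⟨⟨a, b, c, s⟩, h1, h2, h3, h4, h5, h6⟩ x l r y a1 a2 a3
        cases s
        · simp only [Bool.false_eq_true, if_false] at a1 a3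
          subst a3
          exact .bin (h6 rfl) a1 a2
        · simp only [if_true] at a1 a3
          subst a1
          exact .bin (h5 rfl) a2 a3
      conn := by
        rintro ⟨a, ha⟩ ⟨b, hb⟩
        have hab : ReflTransGen (Ue B Lf) a b := ha.2.trans hb.1
        induction hab with
        | refl => exact .refl
        | @tail m b h1 h2 ih =>
          have hm : cp m := ⟨ha.1.trans h1, .head h2 hb.2⟩
          obtain ⟨c, h3 | h3, h4, h5⟩ := h2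
          · exact (ih hm).tail ⟨⟨(m, b, c, true), hm, hb, h4, h5, fun _ => h3, by simp⟩, rfl, rfl⟩
          · exact (ih hm).tail ⟨⟨(m, b, c, false), hm, hb, h4, h5, by simp, fun _ => h3⟩, rfl, rfl⟩ }
  have sE : SL fun x y => x = y := (SL.eq 1 1 0 0).congr fun _ _ => by simp
  have sR : ∀ e : E, SL (Rel B Lf e.1.2.2.1) := by
    rintro ⟨⟨a, b, c, s⟩, h1, h2, h3, h4, h5, h6⟩
    have hB : B a b c ∨ B a c b := by cases s; exacts [Or.inr (h6 rfl), Or.inl (h5 rfl)]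
    refine ih c (h1.1.tail ⟨b, hB.symm, h4, h3⟩) fun h => ?_
    have g1 := ue_ch (h.trans h1.1)
    have g2 := ue_ch (h2.2.trans h1.1)
    rcases hB with hB | hB
    · exact ht _ _ _ hB ⟨g2, g1⟩
    · exact ht _ _ _ hB ⟨g1, g2⟩
  let C : {μ // cp μ} → ℕ → ℕ → Prop := fun μ x y => Lf μ.1 x y ∨ ∃ t : Λ × Λ,
    (B μ.1 t.1 t.2 ∧ ¬ ReflTransGen (Ue B Lf) t.1 q0 ∧ ¬ ReflTransGen (Ue B Lf) t.2 q0 ∧
      Pr B Lf t.1 ∧ Pr B Lf t.2) ∧ ∃ z, Rel B Lf t.1 x z ∧ Rel B Lf t.2 z y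
  haveI := Fintype.ofFinite {μ // cp μ}
  refine Lin.upper_SL (S := S) (q := ⟨q0, .refl, .refl⟩) (fun e => ?_) (fun e => ?_) C
    (fun μ => ?_) (fun μ => ?_) ?_ ?_ (rel_lines B hs hd q0) hM hns
  · simp only [S]; split_ifs; exacts [sE, sR e]
  · simp only [S]; split_ifs; exacts [sR e, sE]
  · refine (hs _).or (SL.ex fun t => SL.const_and _ ?_)
    rintro ⟨h1, h2, h3, h4, h5⟩
    exact (ih _ (μ.2.1.tail ⟨_, Or.inl h1, h4, h5⟩) h2).comp
      (ih _ (μ.2.1.tail ⟨_, Or.inr h1, h5, h4⟩) h3)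
  · rintro x y i (h | ⟨t, h1, z, h2, h3⟩)
    · exact Or.inl (hd _ _ _ _ h)
    · exact Or.inr ⟨t, h1, z + i, h2.lift hd i, h3.lift hd i⟩
  · rintro μ x y (h | ⟨t, h1, z, h2, h3⟩)
    · exact .lf h
    · exact .bin h1.1 h2 h3
  · have : ∀ μ x y, Rel B Lf μ x y → ∀ hμ : cp μ,
        ∃ L q' a b, S.Path ⟨μ, hμ⟩ x y L q' a b ∧ C q' a b := by
      intro μ x y h
      induction h with
      | lf h => intro hμ; exact ⟨_, _, _, _, .nil _ _ _, Or.inl h⟩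
      | @bin μ b c x z y hb h1 h2 i1 i2 =>
        intro hμ
        have p1 : Pr B Lf b := ⟨_, _, h1⟩
        have p2 : Pr B Lf c := ⟨_, _, h2⟩
        by_cases c1 : ReflTransGen (Ue B Lf) b q0
        · have hb' : cp b := ⟨hμ.1.tail ⟨c, Or.inl hb, p1, p2⟩, c1⟩
          obtain ⟨L, q', u, v, d1, d2⟩ := i1 hb'
          refine ⟨_, q', u, v, Lin.Path.cons (S := S)
            (e := ⟨(μ, b, c, true), hμ, hb', p1, p2, fun _ => hb, by simp⟩) ?_ ?_ d1, d2⟩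
          · simp [S]
          · simpa [S] using h2
        · by_cases c2 : ReflTransGen (Ue B Lf) c q0
          · have hc' : cp c := ⟨hμ.1.tail ⟨b, Or.inr hb, p2, p1⟩, c2⟩
            obtain ⟨L, q', u, v, d1, d2⟩ := i2 hc'
            refine ⟨_, q', u, v, Lin.Path.cons (S := S)
              (e := ⟨(μ, c, b, false), hμ, hc', p2, p1, by simp, fun _ => hb⟩) ?_ ?_ d1, d2⟩
            · simpa [S] using h1
            · simp [S]
          · exact ⟨_, _, _, _, .nil _ _ _, Or.inr ⟨(b, c), ⟨hb, c1, c2, p1, p2⟩, z, h1, h2⟩⟩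
    exact fun x y h => this q0 x y h _

theorem SL.of_classes {R : ℕ → ℕ → Prop} {M : ℕ} (hM : 0 < M)
    (h : ∀ ρ : ℤ, SL fun x y => R x y ∧ x ≤ y ∧ (M : ℤ) ∣ (y : ℤ) - x - ρ) :
    SL fun x y => R x y ∧ x ≤ y :=
  (SL.exlt M fun r => h r).congr fun x y => by
    refine ⟨fun ⟨_, _, h1, h2, _⟩ => ⟨h1, h2⟩, fun ⟨h1, h2⟩ =>
      ⟨(y - x) % M, Nat.mod_lt _ hM, h1, h2, ⟨((y - x) / M : ℕ), ?_⟩⟩⟩
    have := Nat.div_add_mod (y - x) M
    have e : (M : ℤ) * ((y - x) / M : ℕ) = ((M * ((y - x) / M) : ℕ) : ℤ) := by push_cast; rfl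
    omega

theorem thin_SL [Finite Λ] (hs : ∀ q, SL (Lf q)) (hd : Diag Lf) (ht : ThinB B) {M : ℕ}
    (hM : 0 < M)
    (hu : ∀ q ρ, St (Rel B Lf q) M ρ →
      SL fun x y => Rel B Lf q x y ∧ x ≤ y ∧ (M : ℤ) ∣ (y : ℤ) - x - ρ)
    (hv : ∀ q ρ, St (Rel (rB B) (rL Lf) q) M ρ →
      SL fun x y => Rel (rB B) (rL Lf) q x y ∧ x ≤ y ∧ (M : ℤ) ∣ (y : ℤ) - x - ρ)
    (q : Λ) : SL (Rel B Lf q) := by
  induction hn : {μ | ReflTransGen (Ue B Lf) q μ}.ncard using Nat.strong_induction_on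
    generalizing q with
  | _ n ihn =>
  have ih : ∀ μ, ReflTransGen (Ue B Lf) q μ → ¬ ReflTransGen (Ue B Lf) μ q →
      SL (Rel B Lf μ) := by
    intro μ h1 h2
    refine ihn _ ?_ μ rfl
    rw [← hn]
    refine Set.ncard_lt_ncard ⟨fun ν hν => h1.trans hν, fun h => h2 (h .refl)⟩
  have a1 : SL fun x y => Rel B Lf q x y ∧ x ≤ y := SL.of_classes hM fun ρ => by
    by_cases h : St (Rel B Lf q) M ρ
    · exact hu q ρ h
    · exact upper_thin hs hd ht q ih hM h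
  have a2 : SL fun x y => Rel (rB B) (rL Lf) q x y ∧ x ≤ y := SL.of_classes hM fun ρ => by
    by_cases h : St (Rel (rB B) (rL Lf) q) M ρ
    · exact hv q ρ h
    · refine upper_thin (Lf := rL Lf) (fun q => (hs q).swap) hd.rev ht.rev q ?_ hM h
      rw [ue_rev]
      intro μ h1 h2
      rw [rel_rev']
      exact (ih μ h1 h2).swap
  refine (a1.or a2.swap).congr fun x y => ?_
  rw [rel_rev]
  constructor
  · rintro (h | h) <;> exact h.1
  · intro h; rcases le_total x y with h' | h'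
    exacts [Or.inl ⟨h, h'⟩, Or.inr ⟨h, h'⟩]

end Pool.Agent.H63.GV
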