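import Pool.Agent.H63.GV6

/-! Steep residue classes and systems extended by over-approximating leaves. -/

set_option autoImplicit false

namespace Pool.Agent.H63.GV

variable {Λ : Type} {B : Λ → Λ → Λ → Prop} {Lf : Λ → ℕ → ℕ → Prop}

theorem St.congr {R : ℕ → ℕ → Prop} {M : ℕ} {ρ ρ' : ℤ} (h : St R M ρ) (e : (M : ℤ) ∣ ρ' - ρ) :
    St R M ρ' := fun c => by
  obtain ⟨x, y, h1, h2, h3⟩ := h c
  exact ⟨x, y, h1, dvd_eq (dvd_sub h2 e) (by ring), h3⟩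

theorem exists_M [Finite Λ] (hs : ∀ q, SL (Lf q)) (hd : Diag Lf) :
    ∃ M0, 0 < M0 ∧ ∀ M, M0 ∣ M → ∀ q ρ, St (Rel B Lf q) M ρ → ∀ e : ℕ, ∃ C : ℕ, ∀ δ : ℕ, C ≤ δ →
      (M : ℤ) ∣ δ - ρ → ∃ x, Rel B Lf q x (x + δ) ∧ e * x ≤ δ := by
  classical
  obtain ⟨ι, _, S, rfl⟩ := exists_LS hs hd
  haveI := Fintype.ofFinite Λ
  choose κ i u P h1 h2 h3 h4 using fun q => S.cover B q (fun _ _ => True)
  have : ∀ q k, ∃ d, 0 < d ∧ ((∃ z ∈ P q k, z.1 < z.2) → ∃ a, (a, a + d) ∈ P q k) := by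
    intro q k
    by_cases h : ∃ z ∈ P q k, z.1 < z.2
    · obtain ⟨z, h1, h2⟩ := h
      exact ⟨z.2 - z.1, by omega, fun _ => ⟨z.1, by rwa [show z.1 + (z.2 - z.1) = z.2 by omega]⟩⟩
    · exact ⟨1, Nat.one_pos, fun h' => absurd h' h⟩
  choose d d1 d2 using this
  refine ⟨∏ t : Σ q, κ q, d t.1 t.2, Finset.prod_pos fun t _ => d1 _ _, fun M hM q ρ hst e => ?_⟩
  have hk : ∃ k, ∀ c : ℕ, ∃ z ∈ P q k, (M : ℤ) ∣ (((u q k).2 + z.2 : ℕ) : ℤ) - ((u q k).1 + z.1 : ℕ) - ρ ∧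
      c * ((u q k).1 + z.1) + c < (u q k).2 + z.2 := by
    by_contra h
    push Not at h
    choose c hc using h
    obtain ⟨c0, hc0⟩ := Finite.exists_le c
    obtain ⟨x, y, a1, a2, a3⟩ := hst c0
    obtain ⟨k, z, hz, e⟩ := h4 q x y a1 trivial
    obtain ⟨rfl, rfl⟩ : x = (u q k).1 + z.1 ∧ y = (u q k).2 + z.2 := by
      simpa [Prod.ext_iff] using e
    have := hc k z hz a2
    have := Nat.mul_le_mul_right ((u q k).1 + z.1) (hc0 k)
    have := hc0 k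
    omega
  obtain ⟨k, hk⟩ := hk
  obtain ⟨⟨z1, z2⟩, a1, a2, a3⟩ := hk (2 * e + 1 + (u q k).2)
  have hmem : ∀ z ∈ P q k, Rel B S.Lf q ((u q k).1 + z.1) ((u q k).2 + z.2) := fun z hz => by
    simpa using (h3 q k z hz 0 (P q k).zero_mem).sound S.hd S.hL 0
  have hdM : d q k ∣ M := (Finset.dvd_prod_of_mem (fun t : Σ q, κ q => d t.1 t.2)
    (Finset.mem_univ ⟨q, k⟩)).trans hM
  generalize (u q k).1 = u1 at *
  generalize (u q k).2 = u2 at *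
  simp only at a2 a3
  have b1 : (2 * e + 1) * z1 + u1 < z2 := by nlinarith
  obtain ⟨d0, rfl⟩ : ∃ d0, z2 = z1 + d0 := Nat.exists_eq_add_of_le (by nlinarith)
  have b2 : 2 * e * z1 + u1 < d0 := by nlinarith
  obtain ⟨a, ha⟩ := d2 q k ⟨_, a1, by simp only; omega⟩
  have hd1 := d1 q k
  generalize d q k = dk at *
  refine ⟨u2 + d0 + 2 * (e * (u1 + z1 + d0 * a)), fun δ hδ hρ => ?_⟩
  obtain ⟨j, hj⟩ : ∃ j : ℕ, δ + u1 = u2 + d0 + dk * j := by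
    have : (dk : ℤ) ∣ (δ + u1 - (u2 + d0) : ℕ) :=
      (Int.natCast_dvd_natCast.2 hdM).trans (dvd_eq (dvd_sub hρ a2) (by
        rw [Nat.cast_sub (by omega)]; push_cast; ring))
    obtain ⟨j, hj⟩ := Int.natCast_dvd_natCast.1 this
    exact ⟨j, by omega⟩
  have e1 := Nat.div_add_mod j d0
  have e2 := Nat.mod_lt j (show 0 < d0 by omega)
  generalize j / d0 = m at *
  generalize j % d0 = j' at *
  have := hmem _ ((P q k).add_mem ((P q k).add_mem a1 ((P q k).nsmul_mem ha j'))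
    ((P q k).nsmul_mem a1 (dk * m)))
  simp only [Prod.smul_mk, smul_eq_mul, Prod.mk_add_mk] at this
  refine ⟨_, this.cast rfl ?_, ?_⟩
  · subst e1; nlinarith
  · have f1 : dk * m * (2 * e * z1 + u1) ≤ dk * m * d0 := Nat.mul_le_mul_left _ b2.le
    have f2 : e * (j' * a) ≤ e * (d0 * a) := Nat.mul_le_mul_left _ (Nat.mul_le_mul_right _ e2.le)
    have f3 : dk * m * d0 + dk * j' = dk * j := by subst e1; ring
    have f4 : e * (u1 + (z1 + j' * a + dk * m * z1)) = e * u1 + e * z1 + e * (j' * a) +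
      e * (dk * m * z1) := by ring
    have f5 : dk * m * (2 * e * z1 + u1) = 2 * (e * (dk * m * z1)) + dk * m * u1 := by ring
    have f6 : e * (u1 + z1 + d0 * a) = e * u1 + e * z1 + e * (d0 * a) := by ring
    omega

structure Half (B : Λ → Λ → Λ → Prop) (Lf : Λ → ℕ → ℕ → Prop) (M D K0 : ℕ)
    (U : Λ → ℕ → Prop) : Prop where
  df : ∀ q δ, U q δ ↔ D ≤ δ ∧ St (Rel B Lf q) M δ
  abs : ∀ q δ, U q δ → δ < D + M → ∀ x, K0 ≤ x → Rel B Lf q x (x + δ)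
  sub : ∀ q δ, U q δ → ∀ e : ℕ, ∃ C : ℕ, ∀ δ' : ℕ, C ≤ δ' → (M : ℤ) ∣ δ' - δ →
    ∃ x, Rel B Lf q x (x + δ') ∧ e * x ≤ δ'
  all : ∀ q δ, U q δ → ∃ x, Rel B Lf q x (x + δ)

theorem exists_half [Finite Λ] (hs : ∀ q, SL (Lf q)) (hd : Diag Lf) :
    ∃ M0, 0 < M0 ∧ ∀ M, 0 < M → M0 ∣ M → ∃ D0, ∀ D, D0 ≤ D → ∃ K1, ∀ K0, K1 ≤ K0 →
      Half B Lf M D K0 fun q δ => D ≤ δ ∧ St (Rel B Lf q) M δ := by
  obtain ⟨M0, h0, h⟩ := exists_M (B := B) hs hd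
  refine ⟨M0, h0, fun M hM hM0 => ?_⟩
  have : ∀ t : Λ × Fin M, ∃ C : ℕ, St (Rel B Lf t.1) M t.2 → ∀ δ : ℕ, C ≤ δ →
      (M : ℤ) ∣ δ - t.2 → ∃ x, Rel B Lf t.1 x (x + δ) := by
    intro t
    by_cases ht : St (Rel B Lf t.1) M t.2
    · obtain ⟨C, hC⟩ := h M hM0 _ _ ht 0
      exact ⟨C, fun _ δ h1 h2 => (hC δ h1 h2).imp fun x h => h.1⟩
    · exact ⟨0, fun h => absurd h ht⟩
  choose C hC using this
  obtain ⟨D0, hD0⟩ := Finite.exists_le C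
  refine ⟨D0, fun D hD => ?_⟩
  have all : ∀ q (δ : ℕ), D ≤ δ ∧ St (Rel B Lf q) M δ → ∃ x, Rel B Lf q x (x + δ) := by
    rintro q δ ⟨h1, h2⟩
    have e : (M : ℤ) ∣ δ - (δ % M : ℕ) := ⟨(δ / M : ℕ), by
      have := Nat.div_add_mod δ M
      have e : (M : ℤ) * (δ / M : ℕ) = ((M * (δ / M) : ℕ) : ℤ) := by push_cast; rfl
      omega⟩
    exact hC (q, ⟨δ % M, Nat.mod_lt _ hM⟩) (h2.congr (dvd_sub_comm.1 e)) δ
      ((hD0 _).trans (hD.trans h1)) e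
  have : ∀ t : Λ × Fin (D + M), ∃ x : ℕ, (D ≤ t.2 ∧ St (Rel B Lf t.1) M t.2) →
      Rel B Lf t.1 x (x + t.2) := by
    intro t
    by_cases ht : D ≤ t.2 ∧ St (Rel B Lf t.1) M t.2
    · obtain ⟨x, hx⟩ := all _ _ ht
      exact ⟨x, fun _ => hx⟩
    · exact ⟨0, fun h => absurd h ht⟩
  choose X hX using this
  obtain ⟨K1, hK1⟩ := Finite.exists_le X
  refine ⟨K1, fun K0 hK => ⟨fun _ _ => Iff.rfl, fun q δ h1 h2 x hx => ?_,
    fun q δ h1 e => h M hM0 q δ h1.2 e, all⟩⟩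
  have := hK1 (q, ⟨δ, h2⟩)
  exact ((hX (q, ⟨δ, h2⟩) h1).lift hd (x - X (q, ⟨δ, h2⟩))).cast (by omega) (by simp only; omega)

theorem exists_halves [Finite Λ] (hs : ∀ q, SL (Lf q)) (hd : Diag Lf) :
    ∃ M D K0 U V, 0 < M ∧ Half B Lf M D K0 U ∧ Half (rB B) (rL Lf) M D K0 V := by
  obtain ⟨M1, a1, a2⟩ := exists_half (B := B) hs hd
  obtain ⟨M2, b1, b2⟩ := exists_half (B := rB B) (Lf := rL Lf) (fun q => (hs q).swap) hd.rev
  obtain ⟨D1, a3⟩ := a2 (M1 * M2) (Nat.mul_pos a1 b1) (Dvd.intro _ rfl)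
  obtain ⟨D2, b3⟩ := b2 (M1 * M2) (Nat.mul_pos a1 b1) (Dvd.intro_left _ rfl)
  obtain ⟨K1, a4⟩ := a3 (D1 + D2) (by omega)
  obtain ⟨K2, b4⟩ := b3 (D1 + D2) (by omega)
  exact ⟨_, _, K1 + K2, _, _, Nat.mul_pos a1 b1, a4 _ (by omega), b4 _ (by omega)⟩

def LK (Lf : Λ → ℕ → ℕ → Prop) (U V : Λ → ℕ → Prop) (K : ℕ) (q : Λ) (x y : ℕ) : Prop :=
  Lf q x y ∨ (K ≤ x ∧ ∃ δ, U q δ ∧ y = x + δ) ∨ (K ≤ y ∧ ∃ δ, V q δ ∧ x = y + δ)

theorem LK_rev (U V : Λ → ℕ → Prop) (K : ℕ) : rL (LK Lf U V K) = LK (rL Lf) V U K := by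
  funext q x y
  simp only [LK, rL]
  exact propext (or_congr Iff.rfl or_comm)

inductive RelC (B : Λ → Λ → Λ → Prop) (Lf : Λ → ℕ → ℕ → Prop) (U V : Λ → ℕ → Prop) (K : ℕ) :
    ℕ → ℕ → Λ → ℕ → ℕ → Prop
  | re {q : Λ} {x y : ℕ} : Rel B Lf q x y → RelC B Lf U V K 0 0 q x y
  | up {q : Λ} {x δ : ℕ} : K ≤ x → U q δ → RelC B Lf U V K 1 0 q x (x + δ)
  | dn {q : Λ} {y δ : ℕ} : K ≤ y → V q δ → RelC B Lf U V K 0 1 q (y + δ) y
  | bin {q q1 q2 : Λ} {x z y u d u' d' : ℕ} : B q q1 q2 → RelC B Lf U V K u d q1 x z →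
      RelC B Lf U V K u' d' q2 z y → RelC B Lf U V K (u + u') (d + d') q x y

variable {U V : Λ → ℕ → Prop} {M D K0 K u d x y : ℕ} {q : Λ}

theorem LK_diag (hd : Diag Lf) : Diag (LK Lf U V K) := by
  rintro q x y i (h | ⟨h1, δ, h2, h3⟩ | ⟨h1, δ, h2, h3⟩)
  · exact Or.inl (hd _ _ _ _ h)
  · exact Or.inr (Or.inl ⟨by omega, δ, h2, by omega⟩)
  · exact Or.inr (Or.inr ⟨by omega, δ, h2, by omega⟩)

theorem Half.shift (H : Half B Lf M D K0 U) {δ δ' : ℕ} (h : U q δ) (h1 : D ≤ δ')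
    (h2 : (M : ℤ) ∣ δ' - δ) : U q δ' :=
  (H.df _ _).2 ⟨h1, ((H.df _ _).1 h).2.congr h2⟩

theorem Half.decomp (H : Half B Lf M D K0 U) (hM : 0 < M) {δ : ℕ} (h : U q δ) :
    ∃ r j, r < M ∧ δ = D + r + j * M ∧ U q (D + r) := by
  have h1 := ((H.df _ _).1 h).1
  have e := Nat.div_add_mod' (δ - D) M
  refine ⟨(δ - D) % M, (δ - D) / M, Nat.mod_lt _ hM, by omega,
    H.shift h (by omega) ⟨-((δ - D) / M : ℕ), ?_⟩⟩
  have e' : (M : ℤ) * -((δ - D) / M : ℕ) = -(((δ - D) / M * M : ℕ) : ℤ) := by push_cast; ring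
  omega

theorem Half.SLf (H : Half B Lf M D K0 U) (hM : 0 < M) (K : ℕ) (q : Λ) :
    SL fun x y => K ≤ x ∧ ∃ δ, U q δ ∧ y = x + δ := by
  refine ((SL.le 0 0 K 1 0 0).and (SL.exlt M fun r => SL.const_and (U q (D + r)) fun _ =>
    SL.exeq 0 1 0 0 1 0 M (D + r))).congr fun x y => ?_
  constructor
  · rintro ⟨h1, r, h2, h3, j, h4⟩
    exact ⟨by omega, D + r + M * j, H.shift h3 (by omega) ⟨j, by push_cast; ring⟩, by omega⟩
  · rintro ⟨h1, δ, h2, h3⟩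
    obtain ⟨r, j, a1, a2, a3⟩ := H.decomp hM h2
    exact ⟨by omega, r, a1, a3, j, by rw [mul_comm M j]; omega⟩

theorem LK_SL (hs : ∀ q, SL (Lf q)) (H : Half B Lf M D K0 U) (H' : Half (rB B) (rL Lf) M D K0 V)
    (hM : 0 < M) (q : Λ) : SL (LK Lf U V K q) :=
  (hs q).or ((H.SLf hM K q).or (H'.SLf hM K q).swap)

theorem RelC.cast {u' d' x' y' : ℕ} (h : RelC B Lf U V K u d q x y) (h0 : u = u') (h0' : d = d')
    (h1 : x = x') (h2 : y = y') : RelC B Lf U V K u' d' q x' y' := h0 ▸ h0' ▸ h1 ▸ h2 ▸ h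

theorem RelC.lift (hd : Diag Lf) (h : RelC B Lf U V K u d q x y) (i : ℕ) :
    RelC B Lf U V K u d q (x + i) (y + i) := by
  induction h with
  | re h => exact .re (h.lift hd i)
  | up h1 h2 => exact (RelC.up (h1.trans (Nat.le_add_right _ i)) h2).cast rfl rfl rfl (by ring)
  | dn h1 h2 => exact (RelC.dn (h1.trans (Nat.le_add_right _ i)) h2).cast rfl rfl (by ring) rfl
  | bin hb _ _ i1 i2 => exact .bin hb i1 i2

theorem RelC.raise (hd : Diag Lf) (H : Half B Lf M D K0 U) (h : RelC B Lf U V K u d q x y)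
    (hu : 0 < u) (j : ℕ) : RelC B Lf U V K u d q x (y + j * M) := by
  induction h with
  | re h => omega
  | @up q x δ h1 h2 =>
    have := ((H.df _ _).1 h2).1
    exact (RelC.up h1 (H.shift (δ' := δ + j * M) h2 (by omega) ⟨j, by push_cast; ring⟩)).cast
      rfl rfl rfl (by ring)
  | dn h1 h2 => omega
  | @bin q q1 q2 x z y u d u' d' hb h1 h2 i1 i2 =>
    rcases Nat.eq_zero_or_pos u' with h | h
    · exact .bin hb (i1 (by omega)) (h2.lift hd _)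
    · exact .bin hb h1 (i2 h)

theorem RelC.absorb (hd : Diag Lf) (H : Half B Lf M D K0 U) (hM : 0 < M) (hK : K0 ≤ K)
    (h : RelC B Lf U V K u d q x y) : ∃ j, RelC B Lf U V K 0 d q (x + j * M) y := by
  induction h with
  | re h => exact ⟨0, by simpa using .re h⟩
  | @up q x δ h1 h2 =>
    obtain ⟨r, j, a1, a2, a3⟩ := H.decomp hM h2
    exact ⟨j, .re ((H.abs _ _ a3 (by omega) (x + j * M) (by omega)).cast rfl (by omega))⟩
  | dn h1 h2 => exact ⟨0, by simpa using .dn h1 h2⟩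
  | bin hb _ _ i1 i2 =>
    obtain ⟨j1, i1⟩ := i1
    obtain ⟨j2, i2⟩ := i2
    exact ⟨j1 + j2, (RelC.bin hb (i1.lift hd (j2 * M)) i2).cast rfl rfl (by ring) rfl⟩

theorem RelC.norm (hd : Diag Lf) (H : Half B Lf M D K0 U) (hM : 0 < M) (hK : K0 ≤ K)
    (h : RelC B Lf U V K u d q x y) : ∃ u' ≤ 1, RelC B Lf U V K u' d q x y := by
  induction h with
  | re h => exact ⟨0, by omega, .re h⟩
  | up h1 h2 => exact ⟨1, le_rfl, .up h1 h2⟩
  | dn h1 h2 => exact ⟨0, by omega, .dn h1 h2⟩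
  | bin hb _ h2 i1 i2 =>
    obtain ⟨u1, a1, i1⟩ := i1
    obtain ⟨u2, a2, i2⟩ := i2
    rcases Nat.eq_zero_or_pos u1 with h | h
    · exact ⟨_, by omega, .bin hb i1 i2⟩
    · obtain ⟨j, hj⟩ := h2.absorb hd H hM hK
      exact ⟨_, by omega, .bin hb (i1.raise hd H h j) hj⟩

theorem RelC.rev (h : RelC B Lf U V K u d q x y) : RelC (rB B) (rL Lf) V U K d u q y x := by
  induction h with
  | re h => exact .re h.rev
  | up h1 h2 => exact .dn h1 h2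
  | dn h1 h2 => exact .up h1 h2
  | bin hb _ _ i1 i2 => exact (RelC.bin (B := rB B) hb i2 i1).cast (by ring) (by ring) rfl rfl

theorem RelC.zero (h : RelC B Lf U V K u d q x y) (hu : u = 0) (hd : d = 0) : Rel B Lf q x y := by
  induction h with
  | re h => exact h
  | up => omega
  | dn => omega
  | bin hb _ _ i1 i2 => exact .bin hb (i1 (by omega) (by omega)) (i2 (by omega) (by omega))

theorem RelC.of (h : Rel B (LK Lf U V K) q x y) : ∃ u d, RelC B Lf U V K u d q x y := by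
  induction h with
  | lf h =>
    rcases h with h | ⟨h1, δ, h2, rfl⟩ | ⟨h1, δ, h2, rfl⟩
    exacts [⟨_, _, .re (.lf h)⟩, ⟨_, _, .up h1 h2⟩, ⟨_, _, .dn h1 h2⟩]
  | bin hb _ _ i1 i2 =>
    obtain ⟨_, _, i1⟩ := i1
    obtain ⟨_, _, i2⟩ := i2
    exact ⟨_, _, .bin hb i1 i2⟩

theorem RelC.absorb' (hd : Diag Lf) (H' : Half (rB B) (rL Lf) M D K0 V) (hM : 0 < M)
    (hK : K0 ≤ K) (h : RelC B Lf U V K u d q x y) : ∃ j, RelC B Lf U V K u 0 q x (y + j * M) :=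
  (h.rev.absorb hd.rev H' hM hK).imp fun _ h => h.rev

theorem RelC.steep (hd : Diag Lf) (H : Half B Lf M D K0 U) (H' : Half (rB B) (rL Lf) M D K0 V)
    (hM : 0 < M) (hK : K0 ≤ K) (h : RelC B Lf U V K u d q x y) (hu : 0 < u) :
    St (Rel B Lf q) M ((y : ℤ) - x) := by
  have T0 : ∀ {u d q x y}, RelC B Lf U V K u d q x y → ∃ x' y' : ℕ, Rel B Lf q x' y' ∧
      (M : ℤ) ∣ (y' : ℤ) - x' - (y - x) := by
    intro u d q x y h
    obtain ⟨j, h1⟩ := h.absorb hd H hM hK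
    obtain ⟨j', h2⟩ := h1.absorb' hd H' hM hK
    exact ⟨_, _, h2.zero rfl rfl, j' - j, by push_cast; ring⟩
  induction h with
  | re h => omega
  | up h1 h2 => simpa using ((H.df _ _).1 h2).2
  | dn h1 h2 => omega
  | @bin q q1 q2 x z y u d u' d' hb h1 h2 i1 i2 =>
    intro c
    rcases Nat.eq_zero_or_pos u' with h | h
    · obtain ⟨x', y', a1, a2⟩ := T0 h2
      obtain ⟨a, b, b1, b2, b3⟩ := i1 (by omega) (c + x')
      have : c * a ≤ (c + x') * a := Nat.mul_le_mul_right _ (by omega)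
      obtain ⟨i, hi⟩ : ∃ i, b = x' + i := ⟨b - x', by omega⟩
      refine ⟨a, y' + i, .bin hb b1 ((a1.lift hd i).cast hi.symm rfl),
        dvd_eq (dvd_add a2 b2) (by rw [hi]; push_cast; ring), by omega⟩
    · obtain ⟨x', z', a1, a2⟩ := T0 h1
      obtain ⟨a, b, b1, b2, b3⟩ := i2 h (c * x' + c)
      have : c * a ≤ (c * x' + c) * a := Nat.mul_le_mul_right _ (by omega)
      refine ⟨x' + a, b + z', .bin hb (a1.lift hd a) ((b1.lift hd z').cast (by ring) rfl),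
        dvd_eq (dvd_add a2 b2) (by push_cast; ring), by rw [mul_add]; omega⟩

theorem St.transfer (hd : Diag Lf) (H : Half B Lf M D K0 U) (H' : Half (rB B) (rL Lf) M D K0 V)
    (hM : 0 < M) (hK : K0 ≤ K) {ρ : ℤ} (h : St (Rel B (LK Lf U V K) q) M ρ) :
    St (Rel B Lf q) M ρ := by
  intro c
  obtain ⟨x, y, h1, h2, h3⟩ := h c
  obtain ⟨u, d, h4⟩ := RelC.of h1
  rcases Nat.eq_zero_or_pos u with hu | hu
  · obtain ⟨j, h5⟩ := h4.absorb' hd H' hM hK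
    exact ⟨_, _, h5.zero hu rfl, dvd_eq (dvd_add h2 (Dvd.intro j rfl)) (by push_cast; ring),
      by omega⟩
  · exact (h4.steep hd H H' hM hK hu).congr (dvd_sub_comm.1 h2) c

theorem steep_SL [Finite Λ] (hs : ∀ q, SL (Lf q)) (hd : Diag Lf) (H : Half B Lf M D K0 U)
    (H' : Half (rB B) (rL Lf) M D K0 V) (hM : 0 < M) (hK : K0 ≤ K) (q : Λ) (ρ : ℤ)
    (h : St (Rel B (LK Lf U V K) q) M ρ) :
    SL fun x y => Rel B (LK Lf U V K) q x y ∧ x ≤ y ∧ (M : ℤ) ∣ (y : ℤ) - x - ρ := by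
  have h' := h.transfer hd H H' hM hK
  have hl := rel_lines B (LK_SL (K := K) hs H H' hM) (LK_diag hd) q
  refine ((((SL.le 0 0 K 1 0 0).and (SL.le 1 0 D 0 1 0)).or
    ((hl.strip (α := 1) (β := 0) (by omega) K).or (hl.strip (α := 1) (β := 1) (by omega) D))).and
    (((SL.le 1 0 0 0 1 0)).and (SL.dvd M ρ))).congr fun x y => ?_
  constructor
  · rintro ⟨(⟨a1, a2⟩ | a1 | a1), a3, a4⟩
    · obtain ⟨δ, rfl⟩ : ∃ δ, y = x + δ := ⟨y - x, by omega⟩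
      refine ⟨.lf (Or.inr (Or.inl ⟨by omega, δ, (H.df _ _).2 ⟨by omega, h'.congr ?_⟩, rfl⟩)),
        by omega, a4⟩
      exact dvd_eq a4 (by push_cast; ring)
    · exact ⟨a1.1, by omega, a4⟩
    · exact ⟨a1.1, by omega, a4⟩
  · rintro ⟨a1, a2, a3⟩
    refine ⟨?_, by omega, a3⟩
    by_cases c1 : K ≤ x
    · by_cases c2 : x + D ≤ y
      · exact Or.inl ⟨by omega, by omega⟩
      · exact Or.inr (Or.inr ⟨a1, by omega, by omega⟩)
    · exact Or.inr (Or.inl ⟨a1, by omega, by omega⟩)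

theorem LK_rel_SL [Finite Λ] (hs : ∀ q, SL (Lf q)) (hd : Diag Lf) (ht : ThinB B)
    (H : Half B Lf M D K0 U) (H' : Half (rB B) (rL Lf) M D K0 V) (hM : 0 < M) (hK : K0 ≤ K)
    (q : Λ) : SL (Rel B (LK Lf U V K) q) := by
  refine thin_SL (LK_SL hs H H' hM) (LK_diag hd) ht hM (steep_SL hs hd H H' hM hK) ?_ q
  rw [LK_rev]
  exact steep_SL (Lf := rL Lf) (fun q => (hs q).swap) hd.rev H' H hM hK

end Pool.Agent.H63.GV
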