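import Pool.Agent.H63.GV7

/-! Compactness of the over-approximations; semilinear inductive invariants. -/

set_option autoImplicit false

namespace Pool.Agent.H63.GV

open Filter

variable {Λ ι : Type} {B : Λ → Λ → Λ → Prop} {U V : Λ → ℕ → Prop} {M D K0 K : ℕ}

theorem Half.ev {Lf : Λ → ℕ → ℕ → Prop} (hd : Diag Lf) (H : Half B Lf M D K0 U) {q : Λ} {δ : ℕ}
    (h : U q δ) (x : ℕ) {P : ℕ} (hP : 0 < P) (j : ℕ) :
    ∀ᶠ n in atTop, Rel B Lf q (x + n * P) (x + δ + n * (P + j * M)) := by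
  rcases Nat.eq_zero_or_pos (j * M) with h0 | h0
  · obtain ⟨x0, h1⟩ := H.all q δ h
    filter_upwards [eventually_ge_atTop x0] with n hn
    have : n ≤ n * P := Nat.le_mul_of_pos_right _ hP
    exact (h1.lift hd (x + n * P - x0)).cast (by omega) (by rw [h0, add_zero]; omega)
  · obtain ⟨C, hC⟩ := H.sub q δ h (2 * (j * M))
    filter_upwards [eventually_ge_atTop (C + δ)] with n hn
    have a1 : n ≤ n * P := Nat.le_mul_of_pos_right _ hP
    have a2 : n ≤ n * (j * M) := Nat.le_mul_of_pos_right _ h0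
    obtain ⟨x0, h1, h2⟩ := hC (δ + n * (j * M)) (by omega) ⟨n * j, by push_cast; ring⟩
    have a3 : x0 ≤ n := by
      have : (j * M) * x0 ≤ (j * M) * n := by nlinarith
      exact Nat.le_of_mul_le_mul_left this h0
    exact (h1.lift hd (x + n * P - x0)).cast (by omega) (by rw [mul_add]; omega)

def Pu (M : ℕ) : AddSubmonoid (ℕ × ℕ) := AddSubmonoid.closure {(1, 1), (0, M)}
def Pd (M : ℕ) : AddSubmonoid (ℕ × ℕ) := AddSubmonoid.closure {(1, 1), (M, 0)}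

theorem mem_Pu (z : ℕ × ℕ) : z ∈ Pu M ↔ ∃ j, z.2 = z.1 + j * M := by
  rw [Pu, AddSubmonoid.mem_closure_pair]
  constructor
  · rintro ⟨i, j, rfl⟩; exact ⟨j, by simp⟩
  · rintro ⟨j, h⟩; exact ⟨z.1, j, by ext <;> simp [h]⟩

theorem mem_Pd (z : ℕ × ℕ) : z ∈ Pd M ↔ ∃ j, z.1 = z.2 + j * M := by
  rw [Pd, AddSubmonoid.mem_closure_pair]
  constructor
  · rintro ⟨i, j, rfl⟩; exact ⟨j, by simp⟩
  · rintro ⟨j, h⟩; exact ⟨z.2, j, by ext <;> simp [h]⟩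

namespace LS

variable (S : LS Λ ι)

def ext (M D : ℕ) : LS Λ (ι ⊕ (Λ × Fin M) ⊕ (Λ × Fin M)) where
  lab := Sum.elim S.lab (Sum.elim (·.1) (·.1))
  c := Sum.elim S.c (Sum.elim (fun t => (0, D + t.2)) (fun t => (D + t.2, 0)))
  P := Sum.elim S.P (Sum.elim (fun _ => Pu M) (fun _ => Pd M))
  fg := by
    rintro (i | i | i)
    · exact S.fg i
    · exact (AddSubmonoid.fg_iff _).2 ⟨_, rfl, by simp⟩
    · exact (AddSubmonoid.fg_iff _).2 ⟨_, rfl, by simp⟩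
  diag := by
    rintro (i | i | i)
    · exact S.diag i
    · exact AddSubmonoid.subset_closure (by simp)
    · exact AddSubmonoid.subset_closure (by simp)

def nf : (S.ext M D).T → ℕ
  | .lf a => Sum.elim (fun _ => 0) (fun _ => 1) a.1.1
  | .nd _ l m => nf l + nf m

def mx : (S.ext M D).T → ℕ
  | .lf a => a.1.2.1 + a.1.2.2
  | .nd _ l m => mx l + mx m

def Gd (U V : Λ → ℕ → Prop) (K : ℕ) : (S.ext M D).T → Prop
  | .lf a => Sum.elim (fun _ => True) (Sum.elim (fun t => U t.1 (D + t.2) ∧ K ≤ a.1.2.1)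
      (fun t => V t.1 (D + t.2) ∧ K ≤ a.1.2.2)) a.1.1
  | .nd _ l m => Gd U V K l ∧ Gd U V K m

theorem nf_mono {s t : (S.ext M D).T} (h : Emb (S.ext M D).rA sN s t) : S.nf s ≤ S.nf t := by
  induction h with
  | lf h => simp only [nf, h.1, le_refl]
  | nd _ _ _ i1 i2 => simp only [nf]; omega
  | left _ i => simp only [nf]; omega
  | right _ i => simp only [nf]; omega

theorem nf_zero : ∀ t : (S.ext M D).T, (S.ext M D).V B t → S.nf t = 0 →
    Rel B S.Lf ((S.ext M D).rl t) ((S.ext M D).rx t) ((S.ext M D).ry t)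
  | .lf ⟨(.inl i, _), h⟩, _, _ => .lf ⟨i, rfl, h⟩
  | .lf ⟨(.inr _, _), _⟩, _, h => by simp [nf] at h
  | .nd b l m, ⟨h1, h2, h3, h4, h5, h6, h7, h8, h9⟩, h => by
    simp only [nf] at h
    have a1 := nf_zero l h8 (by omega)
    have a2 := nf_zero m h9 (by omega)
    rw [h2, h3, h4] at a1
    rw [h5, h6, h7] at a2
    exact .bin h1 a1 a2

theorem relC_tree (H : Half B S.Lf M D K0 U) (H' : Half (rB B) (rL S.Lf) M D K0 V) (hM : 0 < M)
    {u d : ℕ} {q : Λ} {x y : ℕ} (h : RelC B S.Lf U V K u d q x y) :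
    ∃ t : (S.ext M D).T, (S.ext M D).V B t ∧ S.Gd U V K t ∧ S.nf t = u + d ∧
      (S.ext M D).rl t = q ∧ (S.ext M D).rx t = x ∧ (S.ext M D).ry t = y := by
  induction h with
  | re h =>
    induction h with
    | @lf q x y h =>
      obtain ⟨i, h1, h2⟩ := h
      exact ⟨.lf ⟨(.inl i, (x, y)), h2⟩, trivial, trivial, rfl, h1, rfl, rfl⟩
    | @bin q q1 q2 x z y hb _ _ i1 i2 =>
      obtain ⟨l, a1, a5, a6, a2, a3, a4⟩ := i1
      obtain ⟨m, b1, b5, b6, b2, b3, b4⟩ := i2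
      exact ⟨.nd ((q, q1, q2), x, z, y) l m, ⟨hb, a2, a3, a4, b2, b3, b4, a1, b1⟩, ⟨a5, b5⟩,
        by simp only [nf]; omega, rfl, rfl, rfl⟩
  | @up q x δ h1 h2 =>
    obtain ⟨r, j, a1, a2, a3⟩ := H.decomp hM h2
    exact ⟨.lf ⟨(.inr (.inl (q, ⟨r, a1⟩)), (x, x + δ)), (x, x + j * M), (mem_Pu _).2 ⟨j, rfl⟩,
      by simp [ext]; omega⟩, trivial, ⟨a3, h1⟩, rfl, rfl, rfl, rfl⟩
  | @dn q y δ h1 h2 =>
    obtain ⟨r, j, a1, a2, a3⟩ := H'.decomp hM h2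
    exact ⟨.lf ⟨(.inr (.inr (q, ⟨r, a1⟩)), (y + δ, y)), (y + j * M, y), (mem_Pd _).2 ⟨j, rfl⟩,
      by simp [ext]; omega⟩, trivial, ⟨a3, h1⟩, rfl, rfl, rfl, rfl⟩
  | @bin q q1 q2 x z y _ _ _ _ hb _ _ i1 i2 =>
    obtain ⟨l, a1, a5, a6, a2, a3, a4⟩ := i1
    obtain ⟨m, b1, b5, b6, b2, b3, b4⟩ := i2
    exact ⟨.nd ((q, q1, q2), x, z, y) l m, ⟨hb, a2, a3, a4, b2, b3, b4, a1, b1⟩, ⟨a5, b5⟩,
      by simp only [nf]; omega, rfl, rfl, rfl⟩

theorem ev_ctx {q : Λ} {x y x' y' u u' : ℕ} (h1 : x ≤ x') (h2 : y ≤ y')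
    (h : Ctx B S.Lf q x' y' q (x + u) (y + u'))
    (h' : ∀ᶠ n in atTop, Rel B S.Lf q (x + n * u) (y + n * u')) :
    ∀ᶠ n in atTop, Rel B S.Lf q (x + n * (x' - x)) (y + n * (y' - y)) := by
  filter_upwards [h'] with n hn
  simpa using (h.cast (x' := x + (x' - x)) (y' := y + (y' - y)) (by omega) (by omega) rfl rfl).pump
    S.hd n 0 0 (by simpa using hn)

theorem emb_real (H : Half B S.Lf M D K0 U) (H' : Half (rB B) (rL S.Lf) M D K0 V)
    {s t : (S.ext M D).T} (h : Emb (S.ext M D).rA sN s t) :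
    (S.ext M D).V B s → (S.ext M D).V B t → S.Gd U V K t → S.nf t ≤ S.nf s → S.mx s < K →
    ∃ u u', Ctx B S.Lf ((S.ext M D).rl t) ((S.ext M D).rx t) ((S.ext M D).ry t)
      ((S.ext M D).rl s) ((S.ext M D).rx s + u) ((S.ext M D).ry s + u') ∧
      ∀ᶠ n in atTop, Rel B S.Lf ((S.ext M D).rl s) ((S.ext M D).rx s + n * u)
        ((S.ext M D).ry s + n * u') := by
  induction h with
  | @lf a a' h =>
    intro _ _ hg _ hm
    obtain ⟨⟨i, x, y⟩, w, hw, ew⟩ := a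
    obtain ⟨⟨i', x', y'⟩, h'⟩ := a'
    obtain ⟨h1, z, hz, e⟩ := h
    simp only at h1 hz e hw ew
    subst h1
    obtain ⟨rfl, rfl⟩ : x' = x + z.1 ∧ y' = y + z.2 := by simpa [Prod.ext_iff] using e
    refine ⟨z.1, z.2, .refl _ _ _, ?_⟩
    simp only [mx] at hm
    rcases i with i | ⟨q, r⟩ | ⟨q, r⟩
    · exact Eventually.of_forall fun n => .lf (S.hL _ _ _ _ _ ⟨i, rfl, ⟨w, hw, ew⟩, hz⟩ n)
    · obtain ⟨g1, g2⟩ := hg
      obtain ⟨j, hj⟩ := (mem_Pu _).1 hw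
      obtain ⟨j', hj'⟩ := (mem_Pu _).1 hz
      simp only [ext, Sum.elim_inr, Sum.elim_inl, Prod.ext_iff, Prod.fst_add, Prod.snd_add] at ew g1 g2
      have := H.ev S.hd (H.shift (δ' := D + r + j * M) g1 (by omega) ⟨j, by push_cast; ring⟩) x
        (P := z.1) (by omega) j'
      filter_upwards [this] with n hn
      exact hn.cast rfl (by simp only [ry]; rw [hj']; omega)
    · obtain ⟨g1, g2⟩ := hg
      obtain ⟨j, hj⟩ := (mem_Pd _).1 hw
      obtain ⟨j', hj'⟩ := (mem_Pd _).1 hz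
      simp only [ext, Sum.elim_inr, Sum.elim_inl, Prod.ext_iff, Prod.fst_add, Prod.snd_add] at ew g1 g2
      have := H'.ev S.hd.rev (H'.shift (δ' := D + r + j * M) g1 (by omega)
        ⟨j, by push_cast; ring⟩) y (P := z.2) (by omega) j'
      filter_upwards [this] with n hn
      exact ((rel_rev _ _ _).1 hn).cast (by simp only [rx]; rw [hj']; omega) rfl
  | @nd b b' l l' m m' h e1' e2' il im =>
    rintro ⟨h1, h2, h3, h4, h5, h6, h7, h8, h9⟩ ⟨g1, g2, g3, g4, g5, g6, g7, g8, g9⟩ ⟨k1, k2⟩ hn hm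
    have n1 := S.nf_mono e1'
    have n2 := S.nf_mono e2'
    simp only [nf, mx] at hn hm
    obtain ⟨u, u', a1, a2⟩ := il h8 g8 k1 (by omega) (by omega)
    obtain ⟨w, w', b1, b2⟩ := im h9 g9 k2 (by omega) (by omega)
    obtain ⟨e, e1, e2, e3⟩ := h
    rw [g2, g3, g4, ← e, h2, h3, h4] at a1
    rw [h2, h3, h4] at a2
    rw [g5, g6, g7, ← e, h5, h6, h7] at b1
    rw [h5, h6, h7] at b2
    refine ⟨b'.2.1 - b.2.1, b'.2.2.2 - b.2.2.2, ?_, ?_⟩
    · simp only [rl, rx, ry, ← e]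
      exact (Ctx.refl _ _ _).cast rfl rfl (by omega) (by omega)
    · filter_upwards [S.ev_ctx e1 e2 a1 a2, S.ev_ctx e2 e3 b1 b2] with n c1 c2
      exact .bin h1 c1 c2
  | @left t b l m e _ =>
    rename_i ih
    rintro hs ⟨g1, g2, g3, g4, g5, g6, g7, g8, g9⟩ ⟨k1, k2⟩ hn hm
    have n1 := S.nf_mono e
    simp only [nf] at hn
    obtain ⟨u, u', a1, a2⟩ := ih hs g8 k1 (by omega) hm
    have a3 := S.nf_zero m g9 (by omega)
    rw [g2, g3, g4] at a1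
    rw [g5, g6, g7] at a3
    exact ⟨u, u', .left g1 a1 a3, a2⟩
  | @right t b l m e _ =>
    rename_i ih
    rintro hs ⟨g1, g2, g3, g4, g5, g6, g7, g8, g9⟩ ⟨k1, k2⟩ hn hm
    have n1 := S.nf_mono e
    simp only [nf] at hn
    obtain ⟨u, u', a1, a2⟩ := ih hs g9 k2 (by omega) hm
    have a3 := S.nf_zero l g8 (by omega)
    rw [g5, g6, g7] at a1
    rw [g2, g3, g4] at a3
    exact ⟨u, u', .right g1 a3 a1, a2⟩

theorem compact [Finite Λ] [Finite ι] (H : Half B S.Lf M D K0 U)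
    (H' : Half (rB B) (rL S.Lf) M D K0 V) (hM : 0 < M) {q : Λ} {a c π : ℕ}
    (h : ∀ K, ∃ n, Rel B (LK S.Lf U V K) q a (c + n * π)) : ∃ n, Rel B S.Lf q a (c + n * π) := by
  have : ∀ k, ∃ n, ∃ t : (S.ext M D).T, (S.ext M D).V B t ∧ S.Gd U V (K0 + k) t ∧ S.nf t ≤ 2 ∧
      (S.ext M D).rl t = q ∧ (S.ext M D).rx t = a ∧ (S.ext M D).ry t = c + n * π := by
    intro k
    obtain ⟨n, h1⟩ := h (K0 + k)
    obtain ⟨u, d, h2⟩ := RelC.of h1
    obtain ⟨u', a1, h3⟩ := h2.norm S.hd H hM (by omega)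
    obtain ⟨d', a2, h4⟩ := h3.rev.norm S.hd.rev H' hM (by omega)
    obtain ⟨t, b1, b2, b3, b4⟩ := S.relC_tree H H' hM h4.rev
    exact ⟨n, t, b1, b2, by omega, b4⟩
  choose n t h1 h2 h3 h4 h5 h6 using this
  obtain ⟨g, hg⟩ := (S.ext M D).Le_wqo.exists_monotone_subseq t
  obtain ⟨i, hi⟩ : ∃ i, ∀ j, 2 - S.nf (t (g i)) ≤ 2 - S.nf (t (g j)) :=
    ⟨Function.argmin fun j => 2 - S.nf (t (g j)),
      fun j => Function.argmin_le (fun j => 2 - S.nf (t (g j))) j⟩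
  obtain ⟨j, hj⟩ : ∃ j, j = i + S.mx (t (g i)) + 1 := ⟨_, rfl⟩
  obtain ⟨c1, c2, c3, c4⟩ := hg i j (by omega)
  have := hi j
  have := h3 (g j)
  have := h3 (g i)
  have : j ≤ g j := g.strictMono.le_apply
  obtain ⟨u, u', d1, d2⟩ := S.emb_real H H' c1 (h1 _) (h1 _) (h2 _) (by omega) (by omega)
  rw [← c2] at d1
  obtain ⟨m, hm⟩ := (S.ev_ctx c3 c4 d1 d2).exists
  rw [h4, h5, h5, h6, h6] at hm
  refine ⟨n (g i) + m * (n (g j) - n (g i)), hm.cast (by simp) ?_⟩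
  rw [Nat.add_sub_add_left, ← Nat.sub_mul]; ring

theorem periodic [Finite Λ] [Finite ι] (B : Λ → Λ → Λ → Prop) (q : Λ) (a : ℕ) :
    ∃ k p, 0 < p ∧ ∀ c < k + p, J B S.Lf S.Ld q a c 0 (if c < k then 0 else p) ∨
      ∀ n, ¬ Rel B S.Lf q a (c + n * if c < k then 0 else p) := by
  classical
  obtain ⟨κ, _, u, P, h1, h2, h3, h4⟩ := S.cover B q (fun x _ => x = a)
  have : ∀ k, ∃ d, 0 < d ∧ ((∃ d, 0 < d ∧ (0, d) ∈ P k) → (0, d) ∈ P k) := by
    intro k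
    by_cases h : ∃ d, 0 < d ∧ (0, d) ∈ P k
    · obtain ⟨d, h1, h2⟩ := h; exact ⟨d, h1, fun _ => h2⟩
    · exact ⟨1, Nat.one_pos, fun h' => absurd h' h⟩
  choose d d1 d2 using this
  obtain ⟨k0, hk0⟩ := Finite.exists_le fun k => (u k).2
  have hp : 0 < ∏ k, d k := Finset.prod_pos fun k _ => d1 k
  have hdv : ∀ k, d k ∣ ∏ k, d k := fun k => Finset.dvd_prod_of_mem _ (Finset.mem_univ k)
  generalize ∏ k, d k = p at hp hdv
  have key : ∀ b, Rel B S.Lf q a b → J B S.Lf S.Ld q a b 0 0 ∧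
      (k0 < b → J B S.Lf S.Ld q a b 0 p) := by
    intro b hb
    obtain ⟨k, ⟨z1, z2⟩, hz, e⟩ := h4 a b hb rfl
    have := h1 k
    have := hk0 k
    obtain ⟨e1, e2⟩ : a = (u k).1 + z1 ∧ b = (u k).2 + z2 := by simpa [Prod.ext_iff] using e
    constructor
    · have := h3 k _ hz 0 (P k).zero_mem
      rwa [← e1, ← e2] at this
    · intro hb
      obtain rfl : z1 = 0 := by omega
      obtain ⟨m, hm⟩ := hdv k
      have := h3 k _ hz (0, p) (by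
        simpa [hm, mul_comm] using (P k).nsmul_mem (d2 k ⟨z2, by omega, hz⟩) m)
      rwa [← e1, ← e2] at this
  have : ∀ r : Fin p, ∃ b, (∃ b, k0 < b ∧ b % p = r ∧ Rel B S.Lf q a b) →
      k0 < b ∧ b % p = r ∧ Rel B S.Lf q a b := by
    intro r
    by_cases h : ∃ b, k0 < b ∧ b % p = r ∧ Rel B S.Lf q a b
    · obtain ⟨b, h⟩ := h; exact ⟨b, fun _ => h⟩
    · exact ⟨0, fun h' => absurd h' h⟩
  choose br hbr using this
  obtain ⟨k1, hk1⟩ := Finite.exists_le br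
  refine ⟨k0 + k1 + 1, p, hp, fun c hc => ?_⟩
  split_ifs with h
  · by_cases h' : Rel B S.Lf q a c
    · exact Or.inl (key c h').1
    · exact Or.inr fun n => by simpa using h'
  · by_cases h' : ∃ n, Rel B S.Lf q a (c + n * p)
    · obtain ⟨n, hn⟩ := h'
      obtain ⟨b1, b2, b3⟩ := hbr ⟨c % p, Nat.mod_lt _ hp⟩ ⟨_, by omega, by simp, hn⟩
      have := hk1 ⟨c % p, Nat.mod_lt _ hp⟩
      generalize br ⟨c % p, Nat.mod_lt _ hp⟩ = b at *
      obtain ⟨m, hm⟩ := (Nat.modEq_iff_dvd' (show b ≤ c by omega)).1 b2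
      have := ((key b b3).2 b1).sound S.hd S.hL m
      exact Or.inl ((key c (this.cast (by simp) (by rw [mul_comm]; omega))).2 (by omega))
    · exact Or.inr fun n hn => h' ⟨n, hn⟩

theorem SLf [Finite ι] (q : Λ) : SL (S.Lf q) :=
  SL.ex fun i => SL.const_and _ fun _ => SL.lin (S.c i) (S.fg i)

theorem invariant [Finite Λ] [Finite ι] (ht : ThinB B) (q : Λ) (a : ℕ) :
    ∃ k p, 0 < p ∧ ∃ I : Λ → ℕ → ℕ → Prop, (∀ q, SL (I q)) ∧ Diag I ∧
      (∀ q x y, S.Lf q x y → I q x y) ∧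
      (∀ q q1 q2 x z y, B q q1 q2 → I q1 x z → I q2 z y → I q x y) ∧
      ∀ c < k + p, J B S.Lf S.Ld q a c 0 (if c < k then 0 else p) ∨
        ∀ n, ¬ I q a (c + n * if c < k then 0 else p) := by
  obtain ⟨k, p, hp, h⟩ := S.periodic B q a
  obtain ⟨M, D, K0, U, V, hM, H, H'⟩ := exists_halves (B := B) S.SLf S.hd
  have : ∀ c : Fin (k + p), ∃ K, (∀ n, ¬ Rel B S.Lf q a (c + n * if (c : ℕ) < k then 0 else p)) →
      ∀ n, ¬ Rel B (LK S.Lf U V K) q a (c + n * if (c : ℕ) < k then 0 else p) := by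
    intro c
    by_contra h'
    push Not at h'
    obtain ⟨n, hn⟩ := S.compact H H' hM fun K => (h' K).2
    exact (h' 0).1 n hn
  choose K hK using this
  obtain ⟨K1, hK1⟩ := Finite.exists_le K
  refine ⟨k, p, hp, Rel B (LK S.Lf U V (K0 + K1)),
    LK_rel_SL S.SLf S.hd ht H H' hM (by omega), fun _ _ _ i h => h.lift (LK_diag S.hd) i,
    fun q x y h => .lf (Or.inl h),
    fun _ _ _ _ _ _ => .bin, fun c hc => (h c hc).imp id fun h' n hn => ?_⟩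
  refine hK ⟨c, hc⟩ h' n (hn.mono ?_)
  have := hK1 ⟨c, hc⟩
  rintro q x y (h | ⟨h1, h2⟩ | ⟨h1, h2⟩)
  · exact .lf (Or.inl h)
  · exact .lf (Or.inr (Or.inl ⟨by omega, h2⟩))
  · exact .lf (Or.inr (Or.inr ⟨by omega, h2⟩))

end LS

end Pool.Agent.H63.GV
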