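import Pool.Agent.H63.GV8

/-! Semilinear relations are recognised by finite automata on binary digits. -/

set_option autoImplicit false

namespace Pool.Agent.H63.GV

def Dr (A : ℕ → ℕ → Prop) (d1 d2 : ℕ) : ℕ → ℕ → Prop := fun x y => A (2 * x + d1) (2 * y + d2)

theorem halve (Pd : Finset (ℕ × ℕ)) : ∃ b : ℕ, ∀ z ∈ AddSubmonoid.closure (Pd : Set (ℕ × ℕ)),
    ∃ e ∈ AddSubmonoid.closure (Pd : Set (ℕ × ℕ)), ∃ z' ∈ AddSubmonoid.closure (Pd : Set (ℕ × ℕ)),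
      z = e + 2 • z' ∧ e.1 ≤ b ∧ e.2 ≤ b := by
  refine ⟨∑ π ∈ Pd, π.1 + ∑ π ∈ Pd, π.2, fun z hz => ?_⟩
  obtain ⟨f, -, rfl⟩ := AddSubmonoid.mem_closure_finset.1 hz
  have hm : ∀ g : ℕ × ℕ → ℕ, ∑ π ∈ Pd, g π • π ∈ AddSubmonoid.closure (Pd : Set (ℕ × ℕ)) :=
    fun g => AddSubmonoid.sum_mem _ fun π hπ =>
      AddSubmonoid.nsmul_mem _ (AddSubmonoid.subset_closure hπ) _
  refine ⟨_, hm fun π => f π % 2, _, hm fun π => f π / 2, ?_, ?_, ?_⟩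
  · rw [Finset.smul_sum, ← Finset.sum_add_distrib]
    refine Finset.sum_congr rfl fun π _ => ?_
    rw [smul_smul, ← add_smul, Nat.mod_add_div]
  · rw [Prod.fst_sum]
    refine le_add_right (Finset.sum_le_sum fun π _ => ?_)
    have := Nat.mod_lt (f π) (show 0 < 2 by omega)
    simp only [Prod.smul_fst, smul_eq_mul]
    nlinarith
  · rw [Prod.snd_sum]
    refine le_add_left (Finset.sum_le_sum fun π _ => ?_)
    have := Nat.mod_lt (f π) (show 0 < 2 by omega)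
    simp only [Prod.smul_snd, smul_eq_mul]
    nlinarith

theorem SL.auto {A : ℕ → ℕ → Prop} (h : SL A) (hd : Dg A) :
    ∃ F : Set (ℕ → ℕ → Prop), F.Finite ∧ A ∈ F ∧ ∀ A ∈ F, ∀ d1 < 2, ∀ d2 < 2, Dr A d1 d2 ∈ F := by
  obtain ⟨κ, _, c, Pd, -, h2⟩ := h.comps hd
  choose b hb using fun k => halve (Pd k)
  obtain ⟨Bd, hB⟩ := Finite.exists_le fun k => b k + (c k).1 + (c k).2
  let box : Set (κ × ℕ × ℕ) := {t | t.2.1 ≤ Bd ∧ t.2.2 ≤ Bd}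
  have hbox : box.Finite :=
    (Set.finite_univ.prod ((Set.finite_le_nat Bd).prod (Set.finite_le_nat Bd))).subset
      fun t ht => ⟨trivial, ht⟩
  let Φ : Set (κ × ℕ × ℕ) → ℕ → ℕ → Prop := fun T x y =>
    ∃ t ∈ T, ∃ z ∈ AddSubmonoid.closure (Pd t.1 : Set (ℕ × ℕ)), (x, y) = t.2 + z
  refine ⟨Φ '' {T | T ⊆ box}, hbox.powerset.image _, ⟨{t | t.2 = c t.1}, ?_, ?_⟩, ?_⟩
  · rintro ⟨k, u⟩ h
    have := hB k
    simp only [Set.mem_ofPred_eq] at h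
    subst h
    exact ⟨by simp only; omega, by simp only; omega⟩
  · funext x y
    apply propext
    rw [h2]
    constructor
    · rintro ⟨⟨k, u⟩, h, h'⟩
      simp only [Set.mem_ofPred_eq] at h
      subst h
      exact ⟨k, h'⟩
    · rintro ⟨k, h⟩; exact ⟨(k, c k), rfl, h⟩
  · rintro _ ⟨T, hT, rfl⟩ d1 h1 d2 h2
    refine ⟨{t | t ∈ box ∧ ∃ u, (t.1, u) ∈ T ∧ ∃ e ∈ AddSubmonoid.closure (Pd t.1 : Set (ℕ × ℕ)),
      u + e = 2 • t.2 + (d1, d2)}, fun t ht => ht.1, ?_⟩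
    funext x y
    apply propext
    constructor
    · rintro ⟨⟨k, c'⟩, ⟨-, u, a1, e, a2, a3⟩, z, a4, a5⟩
      refine ⟨(k, u), a1, e + 2 • z, AddSubmonoid.add_mem _ a2 (AddSubmonoid.nsmul_mem _ a4 2), ?_⟩
      simp only [Prod.ext_iff, Prod.fst_add, Prod.snd_add, Prod.smul_fst, Prod.smul_snd,
        smul_eq_mul] at a3 a5 ⊢
      omega
    · rintro ⟨⟨k, u⟩, a1, z, a2, a3⟩
      obtain ⟨e, b1, z', b2, rfl, b3, b4⟩ := hb k z a2
      have := hB k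
      obtain ⟨c1, c2⟩ := hT a1
      simp only [Prod.ext_iff, Prod.fst_add, Prod.snd_add, Prod.smul_fst, Prod.smul_snd,
        smul_eq_mul] at a3 c1 c2
      refine ⟨(k, (x - z'.1, y - z'.2)), ⟨⟨by simp only; omega, by simp only; omega⟩, u, a1, e, b1,
        ?_⟩, z', b2, ?_⟩
      · simp only [Prod.ext_iff, Prod.fst_add, Prod.snd_add, Prod.smul_fst, Prod.smul_snd,
          smul_eq_mul]
        omega
      · simp only [Prod.ext_iff, Prod.fst_add, Prod.snd_add]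
        omega

theorem exists_dfa {Λ : Type} [Finite Λ] {I : Λ → ℕ → ℕ → Prop} (h : ∀ q, SL (I q))
    (hd : Diag I) : ∃ (n : ℕ) (A : ℕ → ℕ → ℕ → Prop) (δ : ℕ → ℕ → ℕ → ℕ) (ini : Λ → ℕ),
      (∀ q, ini q < n ∧ A (ini q) = I q) ∧
      ∀ i < n, ∀ d1 < 2, ∀ d2 < 2, δ i d1 d2 < n ∧ A (δ i d1 d2) = Dr (A i) d1 d2 := by
  choose F f1 f2 f3 using fun q => (h q).auto (hd q)
  have hF : (⋃ q, F q).Finite := Set.finite_iUnion f1
  obtain ⟨n, g, hg⟩ := hF.fin_param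
  let A : ℕ → ℕ → ℕ → Prop := fun i => if h : i < n then g ⟨i, h⟩ else fun _ _ => False
  have a1 : ∀ R ∈ ⋃ q, F q, ∃ i, i < n ∧ A i = R := by
    intro R hR
    rw [← hg.2] at hR
    obtain ⟨i, rfl⟩ := hR
    exact ⟨i, i.2, by simp [A]⟩
  have a2 : ∀ i d1 d2, ∃ j, i < n → d1 < 2 → d2 < 2 → j < n ∧ A j = Dr (A i) d1 d2 := by
    intro i d1 d2
    by_cases h : i < n ∧ d1 < 2 ∧ d2 < 2
    · have : A i ∈ ⋃ q, F q := by
        rw [← hg.2]; exact ⟨⟨i, h.1⟩, by simp [A, h.1]⟩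
      obtain ⟨q, hq⟩ := Set.mem_iUnion.1 this
      obtain ⟨j, hj⟩ := a1 _ (Set.mem_iUnion.2 ⟨q, f3 q _ hq d1 h.2.1 d2 h.2.2⟩)
      exact ⟨j, fun _ _ _ => hj⟩
    · exact ⟨0, fun h1 h2 h3 => absurd ⟨h1, h2, h3⟩ h⟩
  choose δ hδ using a2
  choose ini hi using fun q => a1 _ (Set.mem_iUnion.2 ⟨q, f2 q⟩)
  exact ⟨n, A, δ, ini, hi, fun i h1 d1 h2 d2 h3 => hδ i d1 d2 h1 h2 h3⟩

section map
variable {Λ Λ' : Type} {B : Λ → Λ → Λ → Prop} {Lf : Λ → ℕ → ℕ → Prop}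
  {B' : Λ' → Λ' → Λ' → Prop} {Lf' : Λ' → ℕ → ℕ → Prop} (φ : Λ → Λ')
  (hB : ∀ a b c, B a b c → B' (φ a) (φ b) (φ c)) (hL : ∀ a x y, Lf a x y → Lf' (φ a) x y)
include hB hL

theorem Rel.map {q : Λ} {x y : ℕ} (h : Rel B Lf q x y) : Rel B' Lf' (φ q) x y := by
  induction h with
  | lf h => exact .lf (hL _ _ _ h)
  | bin hb _ _ i1 i2 => exact .bin (hB _ _ _ hb) i1 i2

theorem Ctx.map {q μ : Λ} {x y l r : ℕ} (h : Ctx B Lf q x y μ l r) :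
    Ctx B' Lf' (φ q) x y (φ μ) l r := by
  induction h with
  | refl => exact .refl _ _ _
  | left hb _ h ih => exact .left (hB _ _ _ hb) ih (h.map φ hB hL)
  | right hb h _ ih => exact .right (hB _ _ _ hb) (h.map φ hB hL) ih

theorem J.map {Ld : Λ → ℕ → ℕ → ℕ → ℕ → Prop} {Ld' : Λ' → ℕ → ℕ → ℕ → ℕ → Prop}
    (hD : ∀ a x y p p', Ld a x y p p' → Ld' (φ a) x y p p') {q : Λ} {x y p p' : ℕ}
    (h : J B Lf Ld q x y p p') : J B' Lf' Ld' (φ q) x y p p' := by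
  induction h with
  | lf h => exact .lf (hD _ _ _ _ _ h)
  | bin hb _ _ i1 i2 => exact .bin (hB _ _ _ hb) i1 i2
  | pump _ h ih => exact .pump ih (h.map φ hB hL)
  | move _ h ih => exact .move ih (h.map φ hB hL)

end map

end Pool.Agent.H63.GV
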