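import Mathlib

set_option autoImplicit false
open Function Classical

namespace Pool.Agent.H63.HA
noncomputable section

abbrev Sl (J : Type) := Option (J × Fin 4)
abbrev Pos (J : Type) := Option (Sl J)
abbrev Act (G : Type) := Fin 5 ⊕ Bool × G
abbrev Kind (G : Type) := (Bool × Act G) ⊕ Option (Fin 3)
abbrev K (J G : Type) := J × (Kind G ⊕ J × Fin 4)
abbrev D (J G Q : Type) := Option (Bool ⊕ (Pos J × Q) × Option (G × ZMod (Nat.card (K J G) + 1)))
abbrev St (J G Q : Type) := (Pos J × Q) × (Sl J → D J G Q)
abbrev Prim (J G : Type) := Kind G × Option (Pos J)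

structure In (σ G : Type) where
  c : σ
  t : σ
  a : σ
  d : ℤ
  o : Act G

def In.Good {σ G : Type} (I : In σ G) : Prop := I.c ≠ I.t ∧ I.c ≠ I.a ∧ I.t ≠ I.a

structure Par (J G Q : Type) where
  up : G → Equiv.Perm Q
  κ : G → K J G → Pos J × Q → Prop

variable {J G Q : Type} [Finite J] [Finite G] (P : Par J G Q)

def L (J G : Type) [Finite J] [Finite G] : List (K J G) := (@Finset.univ _ (Fintype.ofFinite _)).toList

def bit (b : Bool) : D J G Q := some (.inl b)

def val : D J G Q → Prop
  | some (.inl b) => b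
  | some (.inr (a, some (g, r))) => ∃ k, (L J G)[r.val]? = some k ∧ P.κ g k a
  | _ => False

def un : Act G → D J G Q → D J G Q
  | .inl i, some (.inl b) => if i = 2 then some (.inl !b) else some (.inl b)
  | .inl i, some (.inr (a, some (g, r))) =>
      some (.inr (a, some (g, if i = 3 then -r else if i = 4 then 1 - r else r)))
  | .inr (b, g), some (.inr (a, none)) =>
      if b then some (.inr (a, some (g, 0))) else some (.inr ((a.1, (P.up g).symm a.2), some (g, -1)))
  | .inr (b, g), some (.inr (a, some (g', r))) =>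
      if b then (if g' = g ∧ r = 0 then some (.inr (a, none)) else some (.inr (a, some (g', r)))) else
      if g' = g ∧ r = -1 then some (.inr ((a.1, P.up g a.2), none)) else some (.inr (a, some (g', r)))
  | _, x => x

def act (o : Act G) (x : D J G Q × D J G Q) : D J G Q × D J G Q :=
  if o = .inl 0 then x.swap else
  if o = .inl 1 then (if x.1 = none then x.2 else if x.1 = x.2 then none else x.1, x.2) else
  (un P o x.1, x.2)

theorem un_un (o : Act G) (x : D J G Q) : un P o (un P o x) = x := by
  rcases o with i | ⟨b, g⟩ <;> rcases x with _ | b' | ⟨a, _ | ⟨g', r⟩⟩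
  all_goals try rfl
  · by_cases h : i = 2 <;> simp [un, h]
  · by_cases h : i = 3
    · simp [un, h]
    · by_cases h' : i = 4 <;> simp [un, h, h']
  · cases b <;> simp [un]
  · cases b
    · by_cases h : g' = g ∧ r = -1
      · simp [un, h.1, h.2]
      · simp only [un, h, if_false, Bool.false_eq_true]
    · by_cases h : g' = g ∧ r = 0
      · simp [un, h.1, h.2]
      · simp only [un, h, if_false, if_true]

theorem act_act (o : Act G) (x : D J G Q × D J G Q) : act P o (act P o x) = x := by
  obtain ⟨m, b⟩ := x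
  unfold act
  split_ifs <;> simp_all [un_un]

def Ins {σ : Type} (I : In σ G) (κ : ℤ → Prop) (c : σ → ℤ → D J G Q) : σ → ℤ → D J G Q :=
  let A := fun n => if κ n ∧ val P (c I.c n) then act P I.o (c I.t n, c I.a (n - I.d)) else
    (c I.t n, c I.a (n - I.d))
  update (update c I.t fun n => (A n).1) I.a fun n => (A (n + I.d)).2

theorem Ins_Ins {σ : Type} (I : In σ G) (h : I.Good) (κ : ℤ → Prop) (c : σ → ℤ → D J G Q) :
    Ins P I κ (Ins P I κ c) = c := by
  obtain ⟨h1, h2, h3⟩ := h
  funext s n
  by_cases ha : s = I.a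
  · by_cases h : κ (n + I.d) ∧ val P (c I.c (n + I.d)) <;> simp [Ins, ha, h1, h2, h3, h, act_act]
  by_cases ht : s = I.t
  · by_cases h : κ n ∧ val P (c I.c n) <;> simp [Ins, ht, h1, h2, h3, h, act_act]
  · simp [Ins, ha, ht]

theorem Ins_false {σ : Type} (I : In σ G) (κ : ℤ → Prop) (h : ∀ n, ¬κ n) (c : σ → ℤ → D J G Q) :
    Ins P I κ c = c := by
  simp [Ins, h]

def kin : Kind G → In (Option (Fin 4)) G
  | .inl (b, o) => ⟨if b then some 2 else none, some 0, some 1, 0, o⟩
  | .inr none => ⟨some 1, some 2, some 3, 0, .inl 2⟩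
  | .inr (some d) => ⟨none, some 3, some 1, d.val - 1, .inl 0⟩

theorem kin_good (k : Kind G) : (kin k).Good := by
  rcases k with ⟨_ | _, o⟩ | _ | d <;> simp [kin, In.Good]

def io (J : Type) [Finite J] : ℤ ≃ ℤ × Pos J :=
  haveI : NeZero (Nat.card (Pos J)) := ⟨Nat.card_pos.ne'⟩
  (Int.divModEquiv _).trans ((Equiv.refl _).prodCongr (Finite.equivFin _).symm)

def w (p : Pos J) : ℤ := (Finite.equivFin _ p).val

theorem io_symm (k : ℤ) (p : Pos J) : (io J).symm (k, p) = k * Nat.card (Pos J) + w p := rfl

def pr (q : Prim J G) (y : Option (Fin 4) → ℤ → D J G Q) : Option (Fin 4) → ℤ → D J G Q :=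
  Ins P (kin q.1) (fun n => ∀ p ∈ q.2, p = (io J n).2) y

def run (l : List (Prim J G)) (y : Option (Fin 4) → ℤ → D J G Q) := l.foldl (fun y q => pr P q y) y

theorem run_append (l l' : List (Prim J G)) (y : Option (Fin 4) → ℤ → D J G Q) :
    run P (l ++ l') y = run P l' (run P l y) := List.foldl_append

def cfg (M : Pos J → ℤ → D J G Q) (p : Pos J) (v : ℤ → D J G Q) (F : Pos J → ℤ → D J G Q) :
    Option (Fin 4) → ℤ → D J G Q
  | none => fun _ => bit true
  | some i => fun n => ![M (io J n).2 (io J n).1, if (io J n).2 = p then v (io J n).1 else none,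
      F (io J n).2 (io J n).1, none] i

def sh (y : Option (Fin 4) → ℤ → D J G Q) (d : ℤ) := update y (some 1) fun n => y (some 1) (n - d)

theorem run_rep (e : Fin 3) (m : ℕ) (y : Option (Fin 4) → ℤ → D J G Q) (h0 : y none = fun _ => bit true)
    (h3 : y (some 3) = fun _ => none) :
    run P (List.replicate m [(.inr (some e), none), (.inr (some 1), none)]).flatten y =
      sh y (m * (e.val - 1)) := by
  induction m with
  | zero => simp [run, sh]
  | succ m ih =>
    rw [List.replicate_succ', List.flatten_append, run_append, ih]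
    funext s n
    rcases s with _ | s
    · simp [run, pr, Ins, kin, sh]
    · fin_cases s <;> simp [run, pr, Ins, kin, sh, h0, h3, val, bit, act]
      congr 1; ring

def MV (p p' : Pos J) (δ : ℤ) : List (Prim J G) :=
  let d := w p' - w p + δ * Nat.card (Pos J)
  (List.replicate d.natAbs [(.inr (some (if 0 ≤ d then 2 else 0)), none), (.inr (some 1), none)]).flatten

theorem run_MV (p p' : Pos J) (δ : ℤ) (M F : Pos J → ℤ → D J G Q) (v : ℤ → D J G Q) :
    run P (MV p p' δ) (cfg M p v F) = cfg M p' (fun k => v (k - δ)) F := by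
  rw [MV, run_rep _ _ _ _ rfl (by funext n; rfl)]
  have e : ((w p' - w p + δ * Nat.card (Pos J)).natAbs : ℤ) *
      (((if 0 ≤ w p' - w p + δ * Nat.card (Pos J) then 2 else 0 : Fin 3).val : ℤ) - 1) =
      w p' - w p + δ * Nat.card (Pos J) := by
    split_ifs <;> simp only [Fin.val_two, Fin.val_zero] <;> omega
  rw [e]
  funext s n
  by_cases h : s = some 1
  · obtain ⟨⟨k, q⟩, rfl⟩ := (io J).symm.surjective n
    subst h
    simp only [sh, update_self, cfg, Matrix.cons_val, Equiv.apply_symm_apply]
    by_cases hq : q = p'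
    · rw [show (io J).symm (k, q) - (w p' - w p + δ * Nat.card (Pos J)) = (io J).symm (k - δ, p) by
        rw [io_symm, io_symm, hq]; ring]
      simp [hq]
    · rw [if_neg hq, if_neg]
      intro h
      obtain ⟨⟨k', q'⟩, h'⟩ := (io J).symm.surjective
        ((io J).symm (k, q) - (w p' - w p + δ * Nat.card (Pos J)))
      rw [← h', Equiv.apply_symm_apply] at h
      have : (io J).symm (k, q) = (io J).symm (k' + δ, p') := by
        rw [← sub_add_cancel ((io J).symm (k, q)) (w p' - w p + δ * Nat.card (Pos J)), ← h', io_symm,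
          io_symm, show q' = p from h]; ring
      exact hq (congrArg Prod.snd ((io J).symm.injective this))
  · rw [sh, update_of_ne h]
    rcases s with _ | s
    · rfl
    · fin_cases s <;> first | rfl | exact absurd rfl h

def RD (p : Pos J) : List (Prim J G) := [(.inr none, some p)]
def AC (b : Bool) (o : Act G) (p : Pos J) : List (Prim J G) := [(.inl (b, o), some p)]

theorem run_RD (p : Pos J) (M F : Pos J → ℤ → D J G Q) (v : ℤ → D J G Q) :
    run P (RD p) (cfg M p v F) =
      cfg M p v (update F p fun k => if val P (v k) then un P (.inl 2) (F p k) else F p k) := by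
  funext s n
  rcases s with _ | s
  · simp [run, pr, Ins, kin, RD, cfg]
  · by_cases h : (io J n).2 = p <;> fin_cases s <;>
      simp [run, pr, Ins, kin, RD, cfg, h, eq_comm (a := p), act, apply_ite Prod.fst, apply_ite Prod.snd]

theorem run_AC (b : Bool) (o : Act G) (p : Pos J) (M F : Pos J → ℤ → D J G Q) (v : ℤ → D J G Q) :
    run P (AC b o p) (cfg M p v F) =
      cfg (update M p fun k => (if b → val P (F p k) then act P o (M p k, v k) else (M p k, v k)).1) p
        (fun k => (if b → val P (F p k) then act P o (M p k, v k) else (M p k, v k)).2) F := by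
  funext s n
  rcases s with _ | s
  · simp [run, pr, Ins, kin, AC, cfg]
  · by_cases h : (io J n).2 = p <;> fin_cases s <;> cases b <;>
      simp [run, pr, Ins, kin, AC, cfg, h, eq_comm (a := p), val, bit]

end
end Pool.Agent.H63.HA
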