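import Pool.Agent.H63.HA1

set_option autoImplicit false
open Function Classical

namespace Pool.Agent.H63.HA
noncomputable section

variable {J G Q : Type} [Finite J] [Finite G] (P : Par J G Q)

def F0 : Pos J → ℤ → D J G Q := fun _ _ => bit false

theorem cfg_congr {M M' F F' : Pos J → ℤ → D J G Q} {v v' : ℤ → D J G Q} {p : Pos J} (h1 : M = M')
    (h2 : v = v') (h3 : F = F') : cfg M p v F = cfg M' p v' F' := by rw [h1, h2, h3]

def CT (c t : Pos J) : List (Prim J G) :=
  AC false (.inl 0) none ++ MV none c 0 ++ RD c ++ AC true (.inl 0) c ++ MV c t 0 ++ RD t ++ MV t c 0 ++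
    AC true (.inl 0) c ++ RD c ++ MV c none 0 ++ AC false (.inl 0) none

theorem run_CT (c t : Sl J) (h : c ≠ t) (M : Pos J → ℤ → D J G Q) (f : ℤ → D J G Q) :
    run P (CT (some c) (some t)) (cfg M none (fun _ => none) (update F0 (some t) f)) =
      cfg M none (fun _ => none) (update F0 (some t) fun k =>
        if val P (M none k) ∧ val P (M (some c) k) then un P (.inl 2) (f k) else f k) := by
  have v0 : val P (bit false) = False := by simp [val, bit]
  have v1 : val P (bit true) = True := by simp [val, bit]
  have u0 : un P (.inl 2) (bit false) = bit true := by simp [un, bit]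
  have u1 : un P (.inl 2) (bit true) = bit false := by simp [un, bit]
  simp only [CT, run_append, run_AC, run_MV, run_RD]
  refine cfg_congr ?_ ?_ ?_
  · funext p k
    by_cases h1 : val P (M none k) <;> by_cases h2 : p = none <;> by_cases h3 : p = some c <;>
      simp [h, h.symm, h1, h2, h3, act, F0, v0, v1, u0, u1]
  · funext k
    by_cases h1 : val P (M none k) <;> simp [h, h.symm, h1, act, F0, v0, v1, u0, u1]
  · funext p k
    by_cases h1 : val P (M none k) <;> by_cases h2 : p = some t <;> by_cases h3 : p = some c <;>
      simp [h, h.symm, h1, h2, h3, act, F0, v0, v1, u0, u1]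

def MM (a : ℤ → Pos J × Q) (o : Option (G × ZMod (Nat.card (K J G) + 1))) (c : Sl J → ℤ → D J G Q) :
    Pos J → ℤ → D J G Q
  | none => fun k => some (.inr (a k, o))
  | some s => c s

def INS (I : In (Sl J) G) : List (Prim J G) :=
  CT (some I.c) (some I.t) ++ (MV none (some I.a) 0 ++ AC false (.inl 0) (some I.a) ++
    MV (some I.a) (some I.t) I.d ++ AC true I.o (some I.t) ++ MV (some I.t) (some I.a) (-I.d) ++
    AC false (.inl 0) (some I.a) ++ MV (some I.a) none 0) ++ CT (some I.c) (some I.t) ++
    AC false (.inl 3) none ++ AC false (.inl 4) none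

theorem run_INS (I : In (Sl J) G) (h : I.Good) (a : ℤ → Pos J × Q) (g : G)
    (r : ZMod (Nat.card (K J G) + 1)) (c : Sl J → ℤ → D J G Q) :
    run P (INS I) (cfg (MM a (some (g, r)) c) none (fun _ => none) F0) =
      cfg (MM a (some (g, r + 1)) (Ins P I (fun k => val P (some (.inr (a k, some (g, r))))) c)) none
        (fun _ => none) F0 := by
  obtain ⟨h1, h2, h3⟩ := h
  have v0 : val P (bit false) = False := by simp [val, bit]
  have v1 : val P (bit true) = True := by simp [val, bit]
  have u0 : un P (.inl 2) (bit false) = bit true := by simp [un, bit]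
  have u1 : un P (.inl 2) (bit true) = bit false := by simp [un, bit]
  have e : (F0 : Pos J → ℤ → D J G Q) = update F0 (some I.t) fun _ => bit false :=
    (update_eq_self _ _).symm
  rw [INS, run_append, run_append, run_append, run_append, e, run_CT _ _ _ h1]
  have e2 : ∀ F, run P (MV none (some I.a) 0 ++ AC false (.inl 0) (some I.a) ++
      MV (some I.a) (some I.t) I.d ++ AC true I.o (some I.t) ++ MV (some I.t) (some I.a) (-I.d) ++
      AC false (.inl 0) (some I.a) ++ MV (some I.a) none 0)
      (cfg (MM a (some (g, r)) c) none (fun _ => none) (update F0 (some I.t) F)) =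
      cfg (MM a (some (g, r)) (update (update c I.t fun n => (if val P (F n) then
        act P I.o (c I.t n, c I.a (n - I.d)) else (c I.t n, c I.a (n - I.d))).1) I.a fun n =>
        (if val P (F (n + I.d)) then act P I.o (c I.t (n + I.d), c I.a n) else
          (c I.t (n + I.d), c I.a n)).2)) none (fun _ => none) (update F0 (some I.t) F) := by
    intro F
    simp only [run_append, run_AC, run_MV]
    refine cfg_congr ?_ ?_ rfl
    · funext p k
      rcases p with _ | p
      · simp [MM]
      · by_cases h4 : p = I.a <;> by_cases h5 : p = I.t <;> simp [MM, h3, h3.symm, h4, h5, act]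
    · funext k; simp [h3, h3.symm, act]
  rw [e2, run_CT _ _ _ h1, run_AC, run_AC]
  refine cfg_congr ?_ ?_ ?_
  · funext p k
    rcases p with _ | p
    · simp [MM, act, un, add_comm]
    · by_cases h4 : p = I.a <;> by_cases h5 : p = I.t <;>
        simp [MM, Ins, h3, h3.symm, h4, h5, apply_ite (val P), v0, v1, u0]
  · funext k; simp [act]
  · congr 1
    funext k
    simp only [MM, update_of_ne h1, update_of_ne h2]
    split_ifs <;> simp [u0, u1]

def In.map {σ τ : Type} (f : σ → τ) (I : In σ G) : In τ G := ⟨f I.c, f I.t, f I.a, I.d, I.o⟩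

def emb (j : J) : Option (Fin 4) → Sl J := Option.map fun i => (j, i)

theorem emb_inj (j : J) : Injective (emb j) := Option.map_injective fun _ _ h => congrArg Prod.snd h

def ins : K J G → In (Sl J) G
  | (j, .inl k) => (kin k).map (emb j)
  | (j, .inr (j', i)) => ⟨none, some (j, i), some (j', if j = j' then i + 1 else i), 0, .inl 1⟩

theorem ins_good (k : K J G) : (ins k).Good := by
  rcases k with ⟨j, k | ⟨j', i⟩⟩
  · have := kin_good k
    exact ⟨(emb_inj j).ne this.1, (emb_inj j).ne this.2.1, (emb_inj j).ne this.2.2⟩
  · by_cases h : j = j' <;> simp [ins, In.Good, h]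

def prog (g : G) : List (Prim J G) :=
  AC false (.inr (true, g)) none ++ (L J G).flatMap (fun k => INS (ins k)) ++ AC false (.inr (false, g)) none

def enc (z : ℤ → St J G Q) : Option (Fin 4) → ℤ → D J G Q :=
  cfg (MM (fun k => (z k).1) none fun s k => (z k).2 s) none (fun _ => none) F0

def Φ (g : G) (x : ℤ → St J G Q) (n : ℤ) : St J G Q := (((x n).1.1, P.up g (x n).1.2), fun s =>
  (L J G).foldl (fun c k => Ins P (ins k) (fun n => P.κ g k (x n).1) c) (fun s n => (x n).2 s) s n)

theorem L_len : (L J G).length = Nat.card (K J G) := by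
  letI := Fintype.ofFinite (K J G)
  rw [Nat.card_eq_fintype_card]; exact Finset.length_toList _

theorem run_L (a : ℤ → Pos J × Q) (g : G) (l₂ l₁ : List (K J G)) (h : l₁ ++ l₂ = L J G)
    (c : Sl J → ℤ → D J G Q) :
    run P (l₂.flatMap fun k => INS (ins k)) (cfg (MM a (some (g, l₁.length)) c) none (fun _ => none) F0) =
      cfg (MM a (some (g, -1)) (l₂.foldl (fun c k => Ins P (ins k) (fun n => P.κ g k (a n)) c) c)) none
        (fun _ => none) F0 := by
  induction l₂ generalizing l₁ c with
  | nil =>
    rw [List.append_nil] at h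
    rw [h, L_len, eq_neg_of_add_eq_zero_left (ZMod.natCast_self' _)]; rfl
  | cons k l ih =>
    have hl : l₁.length < Nat.card (K J G) + 1 := by rw [← L_len, ← h]; simp
    have := ih (l₁ ++ [k]) (by simpa using h)
    rw [List.length_append, List.length_singleton, Nat.cast_succ] at this
    rw [List.flatMap_cons, run_append, run_INS _ _ (ins_good k), this]
    simp [val, ZMod.val_natCast_of_lt hl, ← h]

theorem run_prog (g : G) (z : ℤ → St J G Q) : run P (prog g) (enc z) = enc (Φ P g z) := by
  have := run_L P (fun k => (z k).1) g (L J G) [] rfl fun s k => (z k).2 s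
  rw [prog, run_append, run_append, enc, run_AC]
  refine (congrArg (run P _) ((congrArg (run P _) ?_).trans this)).trans ?_
  · congr 1
    · funext p k; rcases p with _ | p <;> simp [MM, act, un]
  · rw [run_AC, enc]
    congr 1
    · funext p k; rcases p with _ | p <;> simp [MM, act, un, Φ]

theorem enc_inj : Injective (enc : (ℤ → St J G Q) → _) := by
  intro x y h
  funext k
  have := fun p => congrFun (congrFun h (some 0)) ((io J).symm (k, p))
  simp only [enc, cfg, Equiv.apply_symm_apply, Matrix.cons_val_zero] at this
  exact Prod.ext (by simpa [MM] using this none) (funext fun s => this (some s))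

def stp (g : G) (t : ℕ) (y : Option (Fin 4) → ℤ → D J G Q) : Option (Fin 4) → ℤ → D J G Q :=
  match (prog g : List (Prim J G))[t]? with
  | none => y
  | some q => pr P q y

def sim (g : G) (t : ℕ) (z : ℤ → St J G Q) := run P ((prog g).take t) (enc z)

theorem stp_stp (g : G) (t : ℕ) (y : Option (Fin 4) → ℤ → D J G Q) : stp P g t (stp P g t y) = y := by
  unfold stp
  split
  · rfl
  · exact Ins_Ins _ _ (kin_good _) _ _

theorem sim_succ (g : G) (t : ℕ) (z : ℤ → St J G Q) : sim P g (t + 1) z = stp P g t (sim P g t z) := by
  rw [sim, List.take_add_one, run_append, stp]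
  split <;> simp [*, run, sim]

theorem pr_none (q : Prim J G) (y : Option (Fin 4) → ℤ → D J G Q) : pr P q y none = y none := by
  rcases q with ⟨⟨_, _⟩ | _ | _, _⟩ <;> simp [pr, Ins, kin]

theorem sim_none (g : G) (t : ℕ) (z : ℤ → St J G Q) : sim P g t z none = fun _ => bit true := by
  induction t with
  | zero => rfl
  | succ t ih =>
    rw [sim_succ, stp]
    cases (prog g : List (Prim J G))[t]? with
    | none => exact ih
    | some q => exact (pr_none _ _ _).trans ih

def T (J G : Type) [Finite J] [Finite G] : ℕ := ∑ᶠ g : G, (prog g : List (Prim J G)).length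

theorem sim_T (g : G) (z : ℤ → St J G Q) : sim P g (T J G) z = enc (Φ P g z) := by
  rw [sim, List.take_of_length_le, run_prog]
  exact single_le_finsum (f := fun g => (prog g : List (Prim J G)).length) g (Set.toFinite _)
    fun _ => Nat.zero_le _

end
end Pool.Agent.H63.HA
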