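import Pool.Agent.H63.HA2

set_option autoImplicit false
open Function Classical

namespace Pool.Agent.H63.HA
noncomputable section

theorem fold_own {ι σ β : Type} (own : σ → Option ι) (F : ι → (σ → β) → σ → β) (c R : σ → β)
    (h1 : ∀ k c' s, (∀ s', own s' = none → c' s' = c s') → own s ≠ some k → F k c' s = c' s)
    (h2 : ∀ k c' s, (∀ s', own s' = none ∨ own s' = some k → c' s' = c s') → own s = some k →
      F k c' s = R s) (l : List ι) (hl : l.Nodup) (c' : σ → β)
    (h : ∀ s, (∀ k ∈ own s, k ∈ l) → c' s = c s) (s : σ) :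
    l.foldl (fun c k => F k c) c' s = if ∃ k ∈ own s, k ∈ l then R s else c' s := by
  induction l generalizing c' with
  | nil => simp
  | cons k l ih =>
    have h0 : ∀ s', own s' = none → c' s' = c s' := fun s' e => h s' (by simp [e])
    rw [List.nodup_cons] at hl
    rw [List.foldl_cons, ih hl.2]
    · by_cases e : own s = some k
      · rw [h2 k c' s (fun s' e' => h s' (by rcases e' with e' | e' <;> simp [e'])) e]
        simp [e]
      · rw [h1 k c' s h0 e]
        refine if_congr ⟨fun ⟨a, b, c⟩ => ⟨a, b, .tail _ c⟩, fun ⟨a, b, c⟩ => ⟨a, b, ?_⟩⟩ rfl rfl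
        exact (List.mem_cons.1 c).resolve_left fun d => e (d ▸ b)
    · intro s' e
      rw [h1 k c' s' h0 fun e' => hl.1 (e k e'), h s' fun a b => .tail _ (e a b)]

variable {J G Q : Type} [Finite J] [Finite G]

abbrev Tr (J G Q : Type) := Option (Fin 4) → ℤ → D J G Q

def par (up : G → Equiv.Perm Q) (gen : J → G) (tb : G → Q → J → Option (J ⊕ ℕ)) : Par J G Q where
  up := up
  κ g k a := match k.2 with
    | .inl kd => ∃ t p, tb g a.2 k.1 = some (.inr t) ∧
        (prog (gen k.1) : List (Prim J G))[t]? = some (kd, p) ∧ ∀ q ∈ p, q = a.1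
    | .inr (j, _) => tb g a.2 k.1 = some (.inl j)

def mkc (Y : J → Tr J G Q) : Sl J → ℤ → D J G Q
  | none => fun _ => bit true
  | some (j, i) => Y j (some i)

def mkx (ρ : Q) (Y : J → Tr J G Q) (n : ℤ) : St J G Q := (((io J n).2, ρ), fun s => mkc Y s n)

def cpT (P : Par J G Q) (y y' : Tr J G Q) : Tr J G Q := fun s n => (act P (.inl 1) (y s n, y' s n)).1

def app (P : Par J G Q) (g : G) (Y : J → Tr J G Q) (y : Tr J G Q) : Option (J ⊕ ℕ) → Tr J G Q
  | none => y
  | some (.inl j) => cpT P y (Y j)
  | some (.inr t) => stp P g t y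

theorem Ins_map (P : Par J G Q) {σ τ : Type} (f : σ → τ) (hf : Injective f) (I : In σ G) (κ : ℤ → Prop)
    (c : τ → ℤ → D J G Q) (s : σ) : Ins P (I.map f) κ c (f s) = Ins P I κ (c ∘ f) s := by
  simp only [Ins, In.map, update_apply, hf.eq_iff, comp]

theorem Φ_mkx (up : G → Equiv.Perm Q) (gen : J → G) (tb : G → Q → J → Option (J ⊕ ℕ)) (g : G) (ρ : Q)
    (Y : J → Tr J G Q) (hY : ∀ j, Y j none = fun _ => bit true)
    (hf : ∀ j j', tb g ρ j = some (.inl j') → tb g ρ j' = none) :
    Φ (par up gen tb) g (mkx ρ Y) =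
      mkx (up g ρ) fun j => app (par up gen tb) (gen j) Y (Y j) (tb g ρ j) := by
  let own : Sl J → Option (K J G) := fun s => s.bind fun s => (tb g ρ s.1).bind fun τ => match τ with
    | .inl j => some (s.1, .inr (j, s.2))
    | .inr t => (prog (gen s.1) : List (Prim J G))[t]?.map fun q => (s.1, .inl q.1)
  have key := fold_own own (fun k c => Ins (par up gen tb) (ins k)
    (fun n => (par up gen tb).κ g k ((io J n).2, ρ)) c) (mkc Y)
    (mkc fun j => app (par up gen tb) (gen j) Y (Y j) (tb g ρ j)) ?_ ?_ (L J G)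
    (by letI := Fintype.ofFinite (K J G); exact Finset.nodup_toList _) _ fun _ _ => rfl
  · funext n
    refine Prod.ext rfl (funext fun s => ?_)
    refine (congrFun (key s) n).trans ?_
    split_ifs with h
    · rfl
    · rcases s with _ | ⟨j, i⟩
      · rfl
      · have hL : ∀ k, k ∈ L J G := fun k => by simp [L]
        simp only [hL, and_true, own, Option.bind_some] at h
        rcases e : tb g ρ j with _ | j' | t <;> simp only [mkx, mkc, e, app]
        · simp [e] at h
        · rcases e' : (prog (gen j) : List (Prim J G))[t]? with _ | q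
          · simp [stp, e']
          · simp [e, e'] at h
  · rintro ⟨j, kd | ⟨j', i⟩⟩ c s h0 h
    · by_cases hk : ∃ t p, tb g ρ j = some (.inr t) ∧ (prog (gen j) : List (Prim J G))[t]? = some (kd, p)
      · obtain ⟨t, p, e, e'⟩ := hk
        have : ∀ i, s ≠ emb j (some i) := fun i e'' => h (by simp [own, e'', emb, e, e'])
        rcases kd with ⟨b, o⟩ | _ | d <;> simp [Ins, ins, kin, In.map, this]
      · rw [Ins_false]
        exact fun n ⟨t, p, h1, h2, _⟩ => hk ⟨t, p, h1, h2⟩
    · by_cases hk : tb g ρ j = some (.inl j')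
      · have : s ≠ some (j, i) := fun e => h (by simp [own, e, hk])
        generalize hi : (if j = j' then i + 1 else i) = i'
        simp only [Ins, ins, update_apply, if_neg this, hi]
        split_ifs with h1
        · funext n; simp [h1, act, apply_ite Prod.snd]
        · rfl
      · exact congrFun (Ins_false _ _ _ (fun _ => hk) _) _
  · rintro k c (_ | ⟨j, i⟩) h0 h
    · simp [own] at h
    rcases e : tb g ρ j with _ | j' | t
    · simp [own, e] at h
    · obtain rfl : (j, .inr (j', i)) = k := by simpa [own, e] using h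
      have hj : j ≠ j' := fun e' => by have := hf j j' e; rw [← e', e] at this; cases this
      funext n
      simp [Ins, ins, hj, par, e, mkc, app, cpT, h0 none, h0 (some (j, i)) (.inr h),
        h0 (some (j', i)) (.inl (by simp [own, hf j j' e])), own, val, bit]
    · obtain ⟨kd, p, e', rfl⟩ : ∃ kd p, (prog (gen j) : List (Prim J G))[t]? = some (kd, p) ∧
          (j, .inl kd) = k := by simpa [own, e] using h
      refine (Ins_map _ _ (emb_inj j) _ _ _ (some i)).trans ?_
      have : c ∘ emb j = Y j := by
        funext s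
        rcases s with _ | s
        · exact (h0 none (.inl rfl)).trans (hY j).symm
        · exact h0 (some (j, s)) (.inr (by simp [own, e, e']))
      simp [this, mkc, e, app, stp, e', pr, par]

def Loc {A B : Type} (F : (ℤ → A) → ℤ → B) : Prop :=
  (∀ x k, F (fun n => x (n + k)) = fun n => F x (n + k)) ∧
  ∃ r : ℕ, ∀ x y : ℤ → A, (∀ i : ℤ, |i| ≤ r → x i = y i) → F x 0 = F y 0

theorem Loc.at {A B : Type} {F : (ℤ → A) → ℤ → B} (h : Loc F) : ∃ r : ℕ, ∀ (x y : ℤ → A) (N : ℕ),
    (∀ i : ℤ, |i| ≤ (N + r : ℕ) → x i = y i) → ∀ n : ℤ, |n| ≤ N → F x n = F y n := by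
  obtain ⟨h1, r, h2⟩ := h
  refine ⟨r, fun x y N h n hn => ?_⟩
  have := h2 (fun i => x (i + n)) (fun i => y (i + n)) fun i hi => h _ ((abs_add_le _ _).trans (by omega))
  simpa [h1] using this

theorem Loc.comp {A B C : Type} {F : (ℤ → B) → ℤ → C} {F' : (ℤ → A) → ℤ → B} (h : Loc F) (h' : Loc F') :
    Loc fun x => F (F' x) := by
  obtain ⟨r, h3⟩ := h.2
  obtain ⟨r', h4⟩ := h'.at
  exact ⟨fun x k => (congrArg F (h'.1 x k)).trans (h.1 _ k), r + r', fun x y e => h3 _ _ (h4 x y r e)⟩

theorem Loc.pt {A B : Type} (f : A → B) : Loc fun x n => f (x n) :=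
  ⟨fun _ _ => rfl, 0, fun x y h => congrArg f (h 0 (by simp))⟩

theorem Φ_loc (P : Par J G Q) (g : G) : Loc (Φ P g) := by
  have : ∀ l : List (K J G), Loc fun (x : ℤ → St J G Q) n => ((x n).1, fun s => l.foldl
      (fun c k => Ins P (ins k) (fun n => P.κ g k (x n).1) c) (fun s n => (x n).2 s) s n) := by
    intro l
    induction l using List.reverseRecOn with
    | nil => exact .pt id
    | append_singleton l k ih =>
      have : Loc fun (x : ℤ → St J G Q) n => ((x n).1, fun s =>
          Ins P (ins k) (fun n => P.κ g k (x n).1) (fun s n => (x n).2 s) s n) := by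
        refine ⟨fun x m => funext fun n => Prod.ext rfl (funext fun s => ?_), (ins k).d.natAbs,
          fun x y h => ?_⟩
        · simp only [Ins, update_apply]
          split_ifs <;> simp only [add_right_comm _ m, sub_add_eq_add_sub]
        · have h1 := h (ins k).d (by simp)
          have h2 := h (-(ins k).d) (by simp)
          have h0 := h 0 (by simp)
          refine Prod.ext (congrArg Prod.fst h0 :) (funext fun s => ?_)
          simp only [Ins, update_apply]
          split_ifs <;> simp [h0, h1, h2]
      simpa only [List.foldl_append, List.foldl_cons, List.foldl_nil] using this.comp ih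
  exact (Loc.pt fun x : St J G Q => ((x.1.1, P.up g x.1.2), x.2)).comp (this (L J G))

theorem Φ_nil (P : Par J G Q) (g : G) (a : Pos J × Q) :
    Φ P g (fun _ => (a, fun _ => none)) = fun _ => ((a.1, P.up g a.2), fun _ => none) := by
  have : ∀ l : List (K J G), l.foldl (fun c k => Ins P (ins k) (fun _ => P.κ g k a) c)
      (fun _ _ => none) = fun _ _ => none := by
    intro l
    induction l with
    | nil => rfl
    | cons k l ih => simpa [Ins, val] using ih
  funext n
  simp only [Φ, this]

end
end Pool.Agent.H63.HA
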