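import Pool.Agent.H63.HA3

set_option autoImplicit false
open Function Classical

namespace Pool.Agent.H63.HA
noncomputable section

structure Dat {H G : Type} [Group H] (Λ : Subgroup H) (v : G → H) (T : ℕ) where
  φ : H →* H
  lam : H → ℕ
  lip : ∀ s u, lam (v s * u) ≤ lam u + 1 ∧ lam u ≤ lam (v s * u) + 1
  deep : ∀ g, ∃ h, T + 3 ≤ lam (g * (φ h)⁻¹)
  near : ∀ u k, 1 ≤ lam u → 1 ≤ lam (u * φ k) → k ∈ Set.range v ∧ (k ∈ Λ → k = 1)
  fin : {u | 1 ≤ lam u}.Finite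
  sep : ∀ g, (∀ n, g ∈ Set.range φ^[n]) → g = 1

variable {H G : Type} [Group H] {Λ : Subgroup H} [Λ.Normal] {v : G → H} {T : ℕ} (d : Dat Λ v T)

def pro (g : H) (χ : H ⧸ Λ) : Option (H × ℕ) :=
  if e : ∃ h : H, h = χ ∧ 2 ≤ d.lam (g * (d.φ h)⁻¹) then
    some (e.choose, min (d.lam (g * (d.φ e.choose)⁻¹) - 2) T) else none

theorem near' {g h h' : H} (h1 : 1 ≤ d.lam (g * (d.φ h)⁻¹)) (h2 : 1 ≤ d.lam (g * (d.φ h')⁻¹)) :
    (∃ s, v s * h' = h) ∧ ((h' : H ⧸ Λ) = h → h' = h) := by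
  obtain ⟨⟨s, e⟩, e'⟩ := d.near _ (h * h'⁻¹) h1 (by simpa [mul_assoc] using h2)
  refine ⟨⟨s, by simp [e]⟩, fun h3 => (mul_inv_eq_one.1 (e' ?_)).symm⟩
  exact (inferInstance : Λ.Normal).mem_comm (QuotientGroup.eq.1 h3)

theorem pro_eq {g h : H} (hu : ∀ h' : H, (h' : H ⧸ Λ) = h → 2 ≤ d.lam (g * (d.φ h')⁻¹) → h' = h) :
    pro d g h = if 2 ≤ d.lam (g * (d.φ h)⁻¹) then some (h, min (d.lam (g * (d.φ h)⁻¹) - 2) T) else none := by
  unfold pro
  split_ifs with h1 h2 h2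
  · rw [hu _ h1.choose_spec.1 h1.choose_spec.2]
  · exact absurd (hu _ h1.choose_spec.1 h1.choose_spec.2 ▸ h1.choose_spec.2) h2
  · exact absurd ⟨h, rfl, h2⟩ h1
  · rfl

theorem pro_both {g h : H} (s : G) (h1 : 1 ≤ d.lam (g * (d.φ h)⁻¹)) :
    pro d g h = (if 2 ≤ d.lam (g * (d.φ h)⁻¹) then
      some (h, min (d.lam (g * (d.φ h)⁻¹) - 2) T) else none) ∧
    pro d (v s * g) h = if 2 ≤ d.lam (v s * (g * (d.φ h)⁻¹)) then
      some (h, min (d.lam (v s * (g * (d.φ h)⁻¹)) - 2) T) else none := by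
  refine ⟨pro_eq d fun h' e h2 => (near' d h1 (by omega)).2 e, ?_⟩
  rw [← mul_assoc]
  refine pro_eq d fun h' e h2 => (near' d h1 ?_).2 e
  have := (d.lip s (g * (d.φ h')⁻¹)).1
  rw [mul_assoc] at h2; omega

theorem pro_mul (g l : H) (hl : l ∈ Λ) (χ : H ⧸ Λ) :
    pro d (g * d.φ l) χ = (pro d g χ).map fun p => (p.1 * l, p.2) := by
  have e : ∀ h, g * d.φ l * (d.φ (h * l))⁻¹ = g * (d.φ h)⁻¹ := fun h => by simp [mul_assoc]
  by_cases h1 : ∃ h : H, h = χ ∧ 2 ≤ d.lam (g * (d.φ h)⁻¹)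
  · obtain ⟨h, rfl, h1⟩ := h1
    rw [pro_eq d (g := g) fun h' e h2 => (near' d (g := g) (by omega) (by omega)).2 e, if_pos h1,
      ← QuotientGroup.mk_mul_of_mem h hl, pro_eq d (g := g * d.φ l) fun h' e' h2 =>
        (near' d (g := g * d.φ l) (by rw [e]; omega) (by omega)).2 e', e, if_pos h1]
    rfl
  · rw [pro, pro, dif_neg h1, dif_neg]
    · rfl
    · rintro ⟨h, rfl, h2⟩
      exact h1 ⟨h * l⁻¹, QuotientGroup.mk_mul_of_mem h (Λ.inv_mem hl), by rw [← e]; simpa using h2⟩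

def Spec (g : H) (s : G) (χ : H ⧸ Λ) : ((H ⧸ Λ) × G) ⊕ ℕ → Prop
  | .inr t => ∃ h, pro d g χ = some (h, t) ∧ pro d (v s * g) χ = some (h, t + 1) ∨
      pro d g χ = some (h, t + 1) ∧ pro d (v s * g) χ = some (h, t)
  | .inl j => ∃ h, pro d g j.1 = some (h, T) ∧ pro d (v s * g) j.1 = some (h, T) ∧
      (pro d g χ = none ∧ pro d (v s * g) χ = some (v j.2 * h, 0) ∨
        pro d g χ = some (v j.2 * h, 0) ∧ pro d (v s * g) χ = none)

theorem exists_spec (g : H) (s : G) (χ : H ⧸ Λ) (hne : pro d (v s * g) χ ≠ pro d g χ) :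
    ∃ τ, Spec d g s χ τ := by
  by_cases h1 : ∃ h : H, h = χ ∧ 1 ≤ d.lam (g * (d.φ h)⁻¹)
  · obtain ⟨h, rfl, h1⟩ := h1
    obtain ⟨h', h2⟩ := d.deep g
    obtain ⟨s', rfl⟩ := (near' d h1 (h' := h') (by omega)).1
    obtain ⟨a1, a2⟩ := pro_both d s h1
    obtain ⟨b1, b2⟩ := pro_both d s (h := h') (g := g) (by omega)
    have l1 := d.lip s (g * (d.φ (v s' * h'))⁻¹)
    have l2 := d.lip s (g * (d.φ h')⁻¹)
    rw [if_pos (by omega), min_eq_right (by omega)] at b1 b2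
    generalize d.lam (g * (d.φ (v s' * h'))⁻¹) = l at *
    generalize d.lam (v s * (g * (d.φ (v s' * h'))⁻¹)) = l' at *
    split_ifs at a1 a2
    · have : min (l' - 2) T ≠ min (l - 2) T := fun e => hne (by rw [a1, a2, e])
      refine ⟨.inr (min (min (l - 2) T) (min (l' - 2) T)), v s' * h', ?_⟩
      rw [a1, a2]
      simp only [Option.some.injEq, Prod.mk.injEq, true_and]
      omega
    · exact ⟨.inl (h', s'), h', b1, b2, .inr ⟨by rw [a1, show l = 2 by omega]; simp, a2⟩⟩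
    · exact ⟨.inl (h', s'), h', b1, b2, .inl ⟨a1, by rw [a2, show l' = 2 by omega]; simp⟩⟩
    · exact absurd (a2.trans a1.symm) hne
  · refine absurd ?_ hne
    rw [pro, pro, dif_neg, dif_neg fun ⟨h, e, h2⟩ => h1 ⟨h, e, by omega⟩]
    rintro ⟨h, e, h2⟩
    have := (d.lip s (g * (d.φ h)⁻¹)).1
    exact h1 ⟨h, e, by rw [mul_assoc] at h2; omega⟩

def tb (s : G) (ρ : H ⧸ Λ.map d.φ) (j : (H ⧸ Λ) × G) : Option (((H ⧸ Λ) × G) ⊕ ℕ) :=
  if e : pro d (v s * ρ.out) j.1 = pro d ρ.out j.1 then none else some (exists_spec d _ _ _ e).choose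

theorem tb_spec {s : G} {ρ : H ⧸ Λ.map d.φ} {j : (H ⧸ Λ) × G} {τ} (h : tb d s ρ j = some τ) :
    Spec d ρ.out s j.1 τ := by
  unfold tb at h
  split_ifs at h with e
  exact Option.some.inj h ▸ (exists_spec d _ _ _ e).choose_spec

variable [Finite G] [Finite (H ⧸ Λ)]

def PP : Par ((H ⧸ Λ) × G) G (H ⧸ Λ.map d.φ) := par (fun s => MulAction.toPerm (v s)) Prod.snd (tb d)

def con (s : G) (y : H → ℤ → St ((H ⧸ Λ) × G) G (H ⧸ Λ.map d.φ)) :
    Option (H × ℕ) → Tr ((H ⧸ Λ) × G) G (H ⧸ Λ.map d.φ)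
  | none => fun i _ => if i = none then bit true else none
  | some p => sim (PP d) s p.2 (y p.1)

def E (y : H → ℤ → St ((H ⧸ Λ) × G) G (H ⧸ Λ.map d.φ)) (g : H) :=
  mkx (g : H ⧸ Λ.map d.φ) fun j => con d j.2 y (pro d g j.1)

theorem E_mul (y : H → ℤ → St ((H ⧸ Λ) × G) G (H ⧸ Λ.map d.φ)) (g l : H) (hl : l ∈ Λ) :
    E d y (g * d.φ l) = E d (fun h => y (h * l)) g := by
  rw [E, E, QuotientGroup.mk_mul_of_mem g (Subgroup.mem_map_of_mem _ hl)]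
  congr 1
  funext j
  rw [pro_mul d g l hl]
  cases pro d g j.1 <;> rfl

theorem mkx_congr {J Q : Type} [Finite J] {ρ : Q} {Y Y' : J → Tr J G Q}
    (h : ∀ j i, Y j (some i) = Y' j (some i)) : mkx ρ Y = mkx ρ Y' := by
  funext n
  refine Prod.ext rfl (funext fun s => ?_)
  rcases s with _ | ⟨j, i⟩
  · rfl
  · exact congrFun (h j i) n

theorem Φ_E (hT : T = HA.T ((H ⧸ Λ) × G) G) (y : H → ℤ → St ((H ⧸ Λ) × G) G (H ⧸ Λ.map d.φ))
    (hy : ∀ s h, Φ (PP d) s (y h) = y (v s * h)) (s : G) (g : H) :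
    Φ (PP d) s (E d y g) = E d y (v s * g) := by
  obtain ⟨ρ, l, hl, rfl⟩ : ∃ (ρ : H ⧸ Λ.map d.φ) (l : H), l ∈ Λ ∧ g = ρ.out * d.φ l := by
    obtain ⟨l, hl, e⟩ := QuotientGroup.eq.1 (QuotientGroup.out_eq' (g : H ⧸ Λ.map d.φ))
    exact ⟨g, l, hl, by simp [e]⟩
  rw [← mul_assoc, E_mul d y _ l hl, E_mul d y _ l hl]
  replace hy : ∀ s h, Φ (PP d) s ((fun h => y (h * l)) h) = (fun h => y (h * l)) (v s * h) :=
    fun s h => by simp only [hy, mul_assoc]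
  generalize (fun h => y (h * l)) = y at hy
  rw [E, E, QuotientGroup.out_eq']
  refine (Φ_mkx _ _ _ _ _ _ (fun j => ?_) fun j j' h => ?_).trans ?_
  · cases pro d ρ.out j.1
    · rfl
    · exact sim_none _ _ _ _
  · obtain ⟨h, h1, h2, -⟩ := tb_spec d h
    exact dif_pos (h2.trans h1.symm)
  rw [show ((v s * ρ.out : H) : H ⧸ Λ.map d.φ) = MulAction.toPerm (v s) ρ from
    MulAction.Quotient.coe_smul_out (Λ.map d.φ) (v s) ρ]
  refine mkx_congr fun j i => ?_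
  rcases e : tb d s ρ j with _ | j' | t
  · unfold tb at e
    split_ifs at e with h
    rw [h]; rfl
  · obtain ⟨h, h1, h2, h3⟩ := tb_spec d e
    have : con d j'.2 y (pro d ρ.out j'.1) = enc (y (v j'.2 * h)) := by
      rw [h1, ← hy, ← sim_T, ← hT]; rfl
    funext n
    simp only [app, cpT, this]
    rcases h3 with ⟨h3, h4⟩ | ⟨h3, h4⟩ <;> simp [h3, h4, con, act, sim, run]
  · obtain ⟨h, ⟨h1, h2⟩ | ⟨h1, h2⟩⟩ := tb_spec d e <;> simp only [h1, h2, app, con, sim_succ]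
    · rfl
    · exact congrFun (stp_stp _ _ _ _) _

theorem E_inj (y : H → ℤ → St ((H ⧸ Λ) × G) G (H ⧸ Λ.map d.φ)) (s : G) {g g' : H}
    (hT : T = HA.T ((H ⧸ Λ) × G) G) (hy : ∀ s h, Φ (PP d) s (y h) = y (v s * h))
    (e : E d y g = E d y g') : ∃ h l, g' = g * d.φ l ∧ y h = y (h * l) := by
  obtain ⟨l, hl, e'⟩ := QuotientGroup.eq.1 (congrArg (fun x => (x 0).1.2) e)
  obtain rfl : g' = g * d.φ l := by simp [e']
  obtain ⟨h, h2⟩ := d.deep g
  have b1 := (pro_both d s (h := h) (g := g) (by omega)).1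
  rw [if_pos (by omega), min_eq_right (by omega)] at b1
  refine ⟨v s * h, l, rfl, enc_inj ?_⟩
  rw [mul_assoc, ← hy, ← hy, ← sim_T, ← sim_T, ← hT]
  funext i n
  rcases i with _ | i
  · rw [sim_none, sim_none]
  · simpa only [E, mkx, mkc, pro_mul d g l hl, b1, con, Option.map_some] using
      congrArg (fun x => (x n).2 (some ((h, s), i))) e

omit d in
theorem core [Nonempty G] (hd : ∀ T, Nonempty (Dat Λ v T)) :
    ∃ (A : Type) (_ : Finite A) (Φ : G → (ℤ → A) → ℤ → A) (x : ℕ → H → ℤ → A), (∀ s, Loc (Φ s)) ∧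
      (∀ n s h, Φ s (x n h) = x n (v s * h)) ∧ ∀ g g', (∀ n, x n g = x n g') → g = g' := by
  obtain ⟨d⟩ := hd (HA.T ((H ⧸ Λ) × G) G)
  haveI : Finite (H ⧸ Λ.map d.φ) := by
    haveI := d.fin.to_subtype
    refine Finite.of_surjective (fun p : {u | 1 ≤ d.lam u} × H ⧸ Λ => ((p.1 * d.φ p.2.out : H) : H ⧸ _))
      fun q => ?_
    obtain ⟨g, rfl⟩ := QuotientGroup.mk_surjective q
    obtain ⟨h, h2⟩ := d.deep g
    refine ⟨(⟨g * (d.φ h)⁻¹, le_trans (by omega) h2⟩, h), QuotientGroup.eq.2 ⟨_,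
      QuotientGroup.eq.1 (QuotientGroup.out_eq' (h : H ⧸ Λ)), by simp [mul_assoc]⟩⟩
  let x : ℕ → H → ℤ → St ((H ⧸ Λ) × G) G (H ⧸ Λ.map d.φ) := fun n =>
    n.rec (fun g _ => ((none, g), fun _ => none)) fun _ y => E d y
  have hx : ∀ n s h, Φ (PP d) s (x n h) = x n (v s * h) := fun n => by
    induction n with
    | zero => exact fun s h => Φ_nil _ _ _
    | succ n ih => exact Φ_E d rfl _ ih
  refine ⟨_, inferInstance, Φ (PP d), x, Φ_loc _, hx, fun g g' h => ?_⟩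
  refine inv_mul_eq_one.1 (d.sep _ fun n => ?_)
  replace h := h n
  induction n generalizing g g' with
  | zero => exact ⟨_, rfl⟩
  | succ n ih =>
    obtain ⟨h', l, rfl, e⟩ := E_inj d _ (Classical.arbitrary G) rfl (hx n) h
    obtain ⟨k, e'⟩ := ih _ _ e
    exact ⟨k, by rw [iterate_succ_apply', e']; simp⟩

end
end Pool.Agent.H63.HA
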