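import Pool.Agent.H63.HA4

set_option autoImplicit false
open Function Set

namespace Pool.Agent.H63.HA

theorem wrap {H G A B : Type} [Group H] (v : G → H) (hv : Submonoid.closure (range v) = ⊤)
    (Φ : G → (ℤ → A) → ℤ → A) (x : ℕ → H → ℤ → A) (h1 : ∀ s, Loc (Φ s))
    (h2 : ∀ n s h, Φ s (x n h) = x n (v s * h)) (h3 : ∀ g g', (∀ n, x n g = x n g') → g = g')
    (ι : A → B) (hι : Injective ι) : ∃ X : Set (ℤ → B), X.Nonempty ∧
      (∀ z : ℤ → B, (∀ N : ℕ, ∃ y ∈ X, ∀ i : ℤ, |i| ≤ N → y i = z i) → z ∈ X) ∧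
      (∀ z ∈ X, ∀ n, z n ∈ range ι) ∧ (∀ z ∈ X, ∀ k, (fun n => z (n + k)) ∈ X) ∧
      ∃ ρ : H →* Equiv.Perm X, Injective ρ ∧ ∀ h, ∃ F, Loc F ∧ ∀ p : X, (ρ h p).1 = F p.1 := by
  haveI : Nonempty A := ⟨x 0 1 0⟩
  have ex : ∀ h : H, ∃ F : (ℤ → B) → ℤ → B, Loc F ∧
      ∀ n g, F (fun i => ι (x n g i)) = fun i => ι (x n (h * g) i) := fun h => by
    induction (hv ▸ Submonoid.mem_top h : h ∈ Submonoid.closure (range v)) using
      Submonoid.closure_induction with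
    | mem h e =>
      obtain ⟨s, rfl⟩ := e
      exact ⟨_, (Loc.pt ι).comp ((h1 s).comp (.pt (invFun ι))), fun n g => by
        simp only [leftInverse_invFun hι _, h2]⟩
    | one => exact ⟨_, .pt id, by simp⟩
    | mul a b _ _ ha hb =>
      obtain ⟨F, a1, a2⟩ := ha
      obtain ⟨F', b1, b2⟩ := hb
      exact ⟨_, a1.comp b1, fun n g => by simp only [b2, a2, mul_assoc]⟩
  choose F hF hx using ex
  let X : Set (ℤ → B) := {z | ∀ N : ℕ, ∃ n g k, ∀ i : ℤ, |i| ≤ N → z i = ι (x n g (i + k))}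
  have hb : ∀ n g, (fun i => ι (x n g i)) ∈ X := fun n g N => ⟨n, g, 0, by simp⟩
  have hm : ∀ h, ∀ z ∈ X, F h z ∈ X := fun h z hz N => by
    obtain ⟨r, e⟩ := (hF h).at
    obtain ⟨n, g, k, e'⟩ := hz (N + r)
    refine ⟨n, h * g, k, fun i hi => (e _ _ N e' i hi).trans ?_⟩
    simpa only [hx] using congrFun ((hF h).1 (fun i => ι (x n g i)) k) i
  have he : ∀ F F' : (ℤ → B) → ℤ → B, Loc F → Loc F' →
      (∀ n g, F (fun i => ι (x n g i)) = F' fun i => ι (x n g i)) → ∀ z ∈ X, F z = F' z := by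
    intro F F' a b c z hz
    obtain ⟨r, e⟩ := a.at
    obtain ⟨r', e'⟩ := b.at
    funext i
    obtain ⟨n, g, k, f⟩ := hz (i.natAbs + r + r')
    rw [e z _ i.natAbs (fun j hj => f j (by omega)) i (by simp),
      e' z _ i.natAbs (fun j hj => f j (by omega)) i (by simp), a.1 (fun i => ι (x n g i)),
      b.1 (fun i => ι (x n g i)), c]
  letI : MulAction H X :=
    { smul := fun h p => ⟨F h p, hm h p p.2⟩
      one_smul := fun p => Subtype.ext (he _ _ (hF 1) (.pt id) (by simp [hx]) p p.2)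
      mul_smul := fun a b p => Subtype.ext
        (he _ _ (hF (a * b)) ((hF a).comp (hF b)) (by simp [hx, mul_assoc]) p p.2) }
  refine ⟨X, ⟨_, hb 0 1⟩, fun z hz N => ?_, fun z hz n => ?_, fun z hz k N => ?_,
    MulAction.toPermHom H X, fun a b e => h3 _ _ fun n => funext fun i => hι ?_,
    fun h => ⟨_, hF h, fun _ => rfl⟩⟩
  · obtain ⟨y, hy, e⟩ := hz N
    obtain ⟨n, g, k, e'⟩ := hy N
    exact ⟨n, g, k, fun i hi => (e i hi).symm.trans (e' i hi)⟩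
  · obtain ⟨m, g, k, e⟩ := hz n.natAbs
    exact ⟨_, (e n (by simp)).symm⟩
  · obtain ⟨n, g, k', e⟩ := hz (N + k.natAbs)
    exact ⟨n, g, k + k', fun i hi => by
      rw [← add_assoc]; exact e _ ((abs_add_le _ _).trans (by push_cast; omega))⟩
  · have : F a _ = F b _ := congrArg Subtype.val (Equiv.congr_fun e ⟨_, hb n 1⟩)
    simpa only [hx, mul_one] using congrFun this i

def Hs (R : Type) := R × R × R

instance {R : Type} [CommRing R] : Group (Hs R) where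
  mul g h := (g.1 + h.1, g.2.1 + h.2.1, g.2.2 + h.2.2 + g.1 * h.2.1)
  one := (0, 0, 0)
  inv g := (-g.1, -g.2.1, g.1 * g.2.1 - g.2.2)
  mul_assoc a b c := Prod.ext (add_assoc _ _ _) (Prod.ext (add_assoc _ _ _) (by
    show _ + _ + _ + _ + (_ + _) * _ = _ + (_ + _ + _) + _ * (_ + _); ring))
  one_mul a := Prod.ext (zero_add _) (Prod.ext (zero_add _) (by show 0 + _ + 0 * _ = _; ring))
  mul_one a := Prod.ext (add_zero _) (Prod.ext (add_zero _) (by show _ + 0 + _ * 0 = _; ring))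
  inv_mul_cancel a := Prod.ext (neg_add_cancel _) (Prod.ext (neg_add_cancel _) (by
    show _ - _ + _ + -_ * _ = 0; ring))

def mk {R : Type} (a b c : R) : Hs R := (a, b, c)

theorem mk_mul {R : Type} [CommRing R] (a b c x y z : R) :
    mk a b c * mk x y z = mk (a + x) (b + y) (c + z + a * y) := rfl

theorem mk_inv {R : Type} [CommRing R] (a b c : R) : (mk a b c)⁻¹ = mk (-a) (-b) (a * b - c) := rfl

def red : Hs ℤ →* Hs (ZMod 5) := MonoidHom.mk' (fun g => mk g.1 g.2.1 g.2.2) fun ⟨a, b, c⟩ ⟨x, y, z⟩ => by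
  show mk ((a + x : ℤ) : ZMod 5) ((b + y : ℤ) : ZMod 5) ((c + z + a * y : ℤ) : ZMod 5) = _
  push_cast; rfl

def vv (s : Fin 3 × Fin 3 × Fin 9) : Hs ℤ := mk (s.1 - 1) (s.2.1 - 1) (s.2.2 - 4)

theorem vv_mem {a b c : ℤ} (h1 : |a| ≤ 1) (h2 : |b| ≤ 1) (h3 : |c| ≤ 4) : mk a b c ∈ range vv := by
  rw [abs_le] at *
  refine ⟨(⟨(a + 1).toNat, by omega⟩, ⟨(b + 1).toNat, by omega⟩, ⟨(c + 4).toNat, by omega⟩), ?_⟩
  simp only [vv]; congr 1 <;> omega

theorem vv_gen : Submonoid.closure (range vv) = ⊤ := by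
  obtain ⟨S, hS⟩ : ∃ S, S = Submonoid.closure (range vv) := ⟨_, rfl⟩
  have key : ∀ p : ℤ → Hs ℤ, p 0 = 1 → (∀ m n, p (m + n) = p m * p n) → p 1 ∈ range vv →
      p (-1) ∈ range vv → ∀ n, p n ∈ S := fun p h0 h h1 h2 n => by
    induction n using Int.induction_on with
    | zero => exact h0 ▸ S.one_mem
    | succ n ih => rw [h]; exact S.mul_mem ih (hS ▸ Submonoid.subset_closure h1)
    | pred n ih => rw [sub_eq_add_neg, h]; exact S.mul_mem ih (hS ▸ Submonoid.subset_closure h2)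
  rw [← hS, eq_top_iff]
  rintro ⟨a, b, c⟩ -
  have h1 := key (fun n => mk n 0 0) rfl (by simp [mk_mul]) (vv_mem (by simp) (by simp) (by simp))
    (vv_mem (by simp) (by simp) (by simp)) a
  have h2 := key (fun n => mk 0 n 0) rfl (by simp [mk_mul]) (vv_mem (by simp) (by simp) (by simp))
    (vv_mem (by simp) (by simp) (by simp)) b
  have h3 := key (fun n => mk 0 0 n) rfl (by simp [mk_mul]) (vv_mem (by simp) (by simp) (by simp))
    (vv_mem (by simp) (by simp) (by simp)) c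
  show mk a b c ∈ S
  simpa [mk_mul] using S.mul_mem (S.mul_mem h3 h2) h1

def lam (m : ℤ) (u : Hs ℤ) : ℕ :=
  (min (2 * m - |u.1|) (min (2 * m - |u.2.1|) ((6 * m ^ 2 - |u.2.2|) / (4 * m)))).toNat

theorem lam_pos {m a b c : ℤ} (hm : 0 < m) (h : 1 ≤ lam m (mk a b c)) :
    |a| < 2 * m ∧ |b| < 2 * m ∧ |c| < 6 * m ^ 2 := by
  have : 1 ≤ (6 * m ^ 2 - |c|) / (4 * m) ∧ |a| < 2 * m ∧ |b| < 2 * m := by simp only [lam, mk] at h; omega
  have := (Int.le_ediv_iff_mul_le (by omega)).1 this.1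
  omega

theorem q_lip {m c c' : ℤ} (hm : 0 < m) (h : |c' - c| ≤ 4 * m) :
    (6 * m ^ 2 - |c'|) / (4 * m) ≤ (6 * m ^ 2 - |c|) / (4 * m) + 1 := by
  rw [← Int.add_mul_ediv_right _ _ (by omega)]
  have := abs_sub_abs_le_abs_sub c c'
  rw [abs_sub_comm] at this
  exact Int.ediv_le_ediv (by omega) (by omega)

theorem dat (T : ℕ) : Nonempty (Dat red.ker vv T) := by
  obtain ⟨m, hm⟩ : ∃ m : ℤ, m = T + 3 := ⟨_, rfl⟩
  have m0 : 0 < m := by omega
  let φ : Hs ℤ →* Hs ℤ := MonoidHom.mk' (fun g => mk (2 * m * g.1) (2 * m * g.2.1) (4 * m ^ 2 * g.2.2))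
    fun ⟨a, b, c⟩ ⟨x, y, z⟩ => by
      show mk (_ * (a + x)) (_ * (b + y)) (_ * (c + z + a * y)) = _
      rw [mk_mul]; congr 1 <;> ring
  have hφ : ∀ a b c, φ (mk a b c) = mk (2 * m * a) (2 * m * b) (4 * m ^ 2 * c) := fun _ _ _ => rfl
  refine ⟨φ, lam m, ?_, ?_, ?_, ?_, ?_⟩
  · rintro ⟨i, j, k⟩ ⟨a, b, c⟩
    have h1 : |(i : ℤ) - 1| ≤ 1 := by rw [abs_le]; omega
    have h2 : |(j : ℤ) - 1| ≤ 1 := by rw [abs_le]; omega
    have h3 : |(k : ℤ) - 4| ≤ 4 := by rw [abs_le]; omega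
    show lam m (mk (i - 1 + a) (j - 1 + b) (k - 4 + c + (i - 1) * b)) ≤ lam m (mk a b c) + 1 ∧
      lam m (mk a b c) ≤ lam m (mk (i - 1 + a) (j - 1 + b) (k - 4 + c + (i - 1) * b)) + 1
    generalize (i : ℤ) - 1 = α at *
    generalize (j : ℤ) - 1 = β at *
    generalize (k : ℤ) - 4 = γ at *
    have a1 := abs_add_le α a
    have a2 := abs_sub_abs_le_abs_add a α
    have b1 := abs_add_le β b
    have b2 := abs_sub_abs_le_abs_add b β
    rw [add_comm a] at a2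
    rw [add_comm b] at b2
    simp only [lam, mk]
    by_cases hb : |b| ≤ 2 * m
    · have : |γ + c + α * b - c| ≤ 4 * m := by
        rw [show γ + c + α * b - c = γ + α * b by ring]
        refine (abs_add_le _ _).trans ?_
        rw [abs_mul]; nlinarith [abs_nonneg b]
      have c1 := q_lip m0 this
      have c2 := q_lip m0 (abs_sub_comm _ c ▸ this)
      omega
    · omega
  · rintro ⟨a, b, c⟩
    have r : ∀ x n : ℤ, 0 < n → ∃ y, |x - 2 * n * y| ≤ n := fun x n h => ⟨(x + n) / (2 * n), by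
      have := Int.emod_nonneg (x + n) (by omega : 2 * n ≠ 0)
      have := Int.emod_lt_of_pos (x + n) (by omega : 0 < 2 * n)
      have := Int.emod_add_mul_ediv (x + n) (2 * n)
      rw [abs_le]; omega⟩
    obtain ⟨x, hx⟩ := r a m m0
    obtain ⟨y, hy⟩ := r b m m0
    obtain ⟨z, hz⟩ := r (c + 4 * m ^ 2 * x * y - 2 * m * a * y) (2 * m ^ 2) (by positivity)
    refine ⟨mk x y z, ?_⟩
    have : (mk a b c : Hs ℤ) * (φ (mk x y z))⁻¹ = mk (a - 2 * m * x) (b - 2 * m * y)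
        (c + 4 * m ^ 2 * x * y - 2 * m * a * y - 2 * (2 * m ^ 2) * z) := by
      rw [hφ, mk_inv, mk_mul]; congr 1 <;> ring
    refine (congrArg (lam m) this).ge.trans' ?_
    have : m ≤ (6 * m ^ 2 - |c + 4 * m ^ 2 * x * y - 2 * m * a * y - 2 * (2 * m ^ 2) * z|) / (4 * m) :=
      (Int.le_ediv_iff_mul_le (by omega)).2 (by nlinarith)
    simp only [lam, mk]; omega
  · rintro ⟨a, b, c⟩ ⟨x, y, z⟩ h1 h2
    obtain ⟨a1, b1, c1⟩ := lam_pos m0 h1
    obtain ⟨a2, b2, c2⟩ := lam_pos m0 (a := a + 2 * m * x) (b := b + 2 * m * y)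
      (c := c + 4 * m ^ 2 * z + a * (2 * m * y)) h2
    have hx : |x| < 2 := by rw [abs_lt] at *; constructor <;> nlinarith
    have hy : |y| < 2 := by rw [abs_lt] at *; constructor <;> nlinarith
    have : |a * y| ≤ 2 * m := by rw [abs_mul]; nlinarith [abs_nonneg a, abs_nonneg y]
    have hz : |z| < 5 := by rw [abs_lt, abs_le] at *; constructor <;> nlinarith
    refine ⟨vv_mem (by omega) (by omega) (by omega), fun h => ?_⟩
    have h : mk (x : ZMod 5) (y : ZMod 5) (z : ZMod 5) = mk 0 0 0 := h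
    simp only [mk, Hs, Prod.mk.injEq, ZMod.intCast_zmod_eq_zero_iff_dvd, abs_lt] at h hx hy hz
    exact Prod.ext (by show x = 0; omega) (Prod.ext (by show y = 0; omega) (by show z = 0; omega))
  · refine ((finite_Icc (-(2 * m)) (2 * m)).prod ((finite_Icc (-(2 * m)) (2 * m)).prod
      (finite_Icc (-(6 * m ^ 2)) (6 * m ^ 2)))).subset fun ⟨a, b, c⟩ h => ?_
    obtain ⟨a1, b1, c1⟩ := lam_pos m0 h
    exact ⟨abs_le.1 a1.le, abs_le.1 b1.le, abs_le.1 c1.le⟩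
  · intro g h
    have : ∀ n k, 2 ^ n ∣ (φ^[n] k).1 ∧ 2 ^ n ∣ (φ^[n] k).2.1 ∧ 2 ^ n ∣ (φ^[n] k).2.2 := fun n k => by
      induction n with
      | zero => simp
      | succ n ih =>
        rw [iterate_succ_apply', pow_succ']
        exact ⟨mul_dvd_mul ⟨_, rfl⟩ ih.1, mul_dvd_mul ⟨_, rfl⟩ ih.2.1, mul_dvd_mul ⟨2 * m ^ 2, by ring⟩ ih.2.2⟩
    have z : ∀ a : ℤ, (∀ n, 2 ^ n ∣ a) → a = 0 := fun a h => by
      obtain ⟨N, hN⟩ := pow_unbounded_of_one_lt |a| (by norm_num : (1 : ℤ) < 2)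
      exact Int.eq_zero_of_abs_lt_dvd (h N) hN
    choose k hk using h
    exact Prod.ext (z _ fun n => hk n ▸ (this n _).1)
      (Prod.ext (z _ fun n => hk n ▸ (this n _).2.1) (z _ fun n => hk n ▸ (this n _).2.2))

theorem main : ∃ k : ℕ, ∀ (B : Type) (ι : Fin k → B), Injective ι → ∃ X : Set (ℤ → B), X.Nonempty ∧
      (∀ z : ℤ → B, (∀ N : ℕ, ∃ y ∈ X, ∀ i : ℤ, |i| ≤ N → y i = z i) → z ∈ X) ∧
      (∀ z ∈ X, ∀ n, z n ∈ range ι) ∧ (∀ z ∈ X, ∀ k, (fun n => z (n + k)) ∈ X) ∧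
      ∃ ρ : Hs ℤ →* Equiv.Perm X, Injective ρ ∧ ∀ h, ∃ F, Loc F ∧ ∀ p : X, (ρ h p).1 = F p.1 := by
  haveI : Finite (Hs (ZMod 5)) := inferInstanceAs (Finite (_ × _ × _))
  haveI := Subgroup.finite_quotient_of_finiteIndex (H := red.ker)
  obtain ⟨A, _, Φ, x, h1, h2, h3⟩ := core dat
  obtain ⟨k, ⟨e⟩⟩ := Finite.exists_equiv_fin A
  refine ⟨k, fun B ι hι => ?_⟩
  obtain ⟨X, a, b, c, d⟩ := wrap vv vv_gen Φ x h1 h2 h3 (ι ∘ e) (hι.comp e.injective)
  exact ⟨X, a, b, fun z hz n => range_comp_subset_range _ _ (c z hz n), d⟩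

end Pool.Agent.H63.HA
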