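import Pool.Agent.H63.HA5

set_option autoImplicit false
open Function Set Filter Topology

namespace Pool.Agent.H63.HA

theorem meanZ : ∃ L : (ℤ → ℝ) → ℝ, (∀ f, (∀ i, f i ∈ Icc (0 : ℝ) 1) → L f ∈ Icc (0 : ℝ) 1) ∧
    L (fun _ => 1) = 1 ∧ (∀ f g, (∀ i, f i ∈ Icc (0 : ℝ) 1) → (∀ i, g i ∈ Icc (0 : ℝ) 1) →
      L (fun i => f i + g i) = L f + L g) ∧
    ∀ f k, (∀ i, f i ∈ Icc (0 : ℝ) 1) → L (fun i => f (k + i)) = L f := by
  let U := hyperfilter ℕ
  let av : (ℤ → ℝ) → ℕ → ℝ := fun f n => (∑ i ∈ Finset.range (n + 1), f i) / (n + 1)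
  have h1 : ∀ f, (∀ i, f i ∈ Icc (0 : ℝ) 1) → ∃ a ∈ Icc (0 : ℝ) 1, Tendsto (av f) U (𝓝 a) := fun f hf =>
    isCompact_Icc.ultrafilter_le_nhds (U.map (av f)) (le_principal_iff.2 (mem_map.2 <| univ_mem' fun n =>
      ⟨div_nonneg (Finset.sum_nonneg fun i _ => (hf i).1) (by positivity), div_le_one_of_le₀
        (by simpa using Finset.sum_le_sum (s := .range (n + 1)) fun i _ => (hf i).2) (by positivity)⟩))
  have h2 : ∀ f, (∀ i, f i ∈ Icc (0 : ℝ) 1) → Tendsto (av f) U (𝓝 (limUnder U (av f))) := fun f hf => by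
    obtain ⟨a, -, h⟩ := h1 f hf
    exact tendsto_nhds_limUnder ⟨a, h⟩
  have h3 : ∀ f, (∀ i, f i ∈ Icc (0 : ℝ) 1) →
      limUnder U (av fun i => f (1 + i)) = limUnder U (av f) := fun f hf => by
    refine Tendsto.limUnder_eq ?_
    have : Tendsto (fun n : ℕ => (f (n + 1 : ℕ) - f 0) / (n + 1)) U (𝓝 0) := by
      refine (squeeze_zero_norm (fun n => ?_) tendsto_one_div_add_atTop_nhds_zero_nat).mono_left
        (hyperfilter_le_cofinite.trans Nat.cofinite_eq_atTop.le)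
      have := hf (n + 1 : ℕ)
      have := hf 0
      rw [norm_div, Real.norm_of_nonneg (by positivity : (0 : ℝ) ≤ n + 1)]
      gcongr
      exact abs_le.2 ⟨by grind, by grind⟩
    refine (add_zero (limUnder U (av f)) ▸ (h2 f hf).add this).congr fun n => ?_
    have := (Finset.sum_range_succ (fun i : ℕ => f i) (n + 1)).symm.trans (Finset.sum_range_succ' _ _)
    simp only [av, ← add_div, add_comm (1 : ℤ)]
    push_cast at this ⊢
    congr 1; linarith
  refine ⟨fun f => limUnder U (av f), fun f hf => ?_, Tendsto.limUnder_eq ?_, fun f g hf hg =>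
    Tendsto.limUnder_eq ?_, fun f k hf => ?_⟩
  · obtain ⟨a, h, h'⟩ := h1 f hf
    simpa only [h'.limUnder_eq] using h
  · exact tendsto_const_nhds.congr fun n => by simp [av, div_self (by positivity : (n : ℝ) + 1 ≠ 0)]
  · exact ((h2 f hf).add (h2 g hg)).congr fun n => by simp [av, Finset.sum_add_distrib, add_div]
  · induction k using Int.induction_on with
    | zero => simp
    | succ n ih => simpa only [← ih, add_assoc] using h3 (fun i => f (n + i)) fun i => hf _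
    | pred n ih => simpa [← ih, ← add_assoc] using (h3 (fun i => f (-n - 1 + i)) fun i => hf _).symm

theorem meanH {G : Type} [Group G] (ρ : Hs ℤ →* G) (hρ : Surjective ρ) :
    ∃ m : Set G → ℝ, (∀ A, 0 ≤ m A) ∧ m univ = 1 ∧ (∀ A B, Disjoint A B → m (A ∪ B) = m A + m B) ∧
      ∀ (g : G) (A : Set G), m ((fun h : G => g * h) '' A) = m A := by
  obtain ⟨L, h1, h2, h3, h4⟩ := meanZ
  have i0 : ∀ (A : Set G) g, A.indicator (1 : G → ℝ) g ∈ Icc (0 : ℝ) 1 := fun A g => by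
    by_cases h : g ∈ A <;> simp [h]
  have i1 := fun (A : Set G) a b => h1 (fun c => A.indicator 1 (ρ (mk a b c))) fun _ => i0 _ _
  have i2 := fun (A : Set G) a => h1 _ (i1 A a)
  refine ⟨fun A => L fun a => L fun b => L fun c => A.indicator 1 (ρ (mk a b c)),
    fun A => (h1 _ (i2 A)).1, by simp [h2], fun A B h => ?_, fun g A => ?_⟩
  · simp only [indicator_union_of_disjoint h]
    rw [← h3 _ _ (i2 A) (i2 B)]
    congr 1; funext a
    rw [← h3 _ _ (i1 A a) (i1 B a)]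
    congr 1; funext b
    exact h3 _ _ (fun _ => i0 _ _) fun _ => i0 _ _
  · obtain ⟨⟨x, y, z⟩, e⟩ := hρ g⁻¹
    have : ∀ a b c, ((fun h : G => g * h) '' A).indicator (1 : G → ℝ) (ρ (mk a b c)) =
        A.indicator 1 (ρ (mk (x + a) (y + b) (z + x * b + c))) := fun a b c => by
      rw [image_mul_left, ← e, add_right_comm, ← mk_mul, map_mul]; rfl
    simp only [this]
    rw [← h4 _ x (i2 A)]
    congr 1; funext a
    rw [← h4 _ y (i1 A _)]
    congr 1; funext b
    exact h4 (fun c => A.indicator 1 (ρ (mk (x + a) (y + b) c))) _ fun _ => i0 _ _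

theorem mk_pow (a b c : ℤ) (h : a * b = 0) (n : ℕ) : mk a b c ^ n = mk (n * a) (n * b) (n * c) := by
  induction n with
  | zero => simp; rfl
  | succ n ih => rw [pow_succ, ih, mk_mul]; push_cast; congr 1 <;> [ring; ring; linear_combination n * h]

theorem dist (ε : ℝ) (hε : 0 < ε) : ∃ N : ℕ, ∀ n : ℕ, N ≤ n → ∃ l : List (Hs ℤ),
    (∀ s ∈ l, s ∈ ({mk 1 0 0, mk 0 1 0, mk (-1) 0 0, mk 0 (-1) 0, mk 0 0 1} : Set (Hs ℤ))) ∧
      l.prod = mk 0 0 1 ^ n ∧ (l.length : ℝ) ≤ ε * n := by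
  obtain ⟨K, hK⟩ := exists_nat_ge (6 / ε)
  refine ⟨K * K, fun n hn => ?_⟩
  have h1 := Nat.sqrt_le n
  have h2 := Nat.lt_succ_sqrt n
  have h3 := Nat.le_sqrt.2 hn
  generalize n.sqrt = k at *
  obtain ⟨r, rfl⟩ := Nat.exists_eq_add_of_le h1
  refine ⟨.replicate k (mk 1 0 0) ++ .replicate k (mk 0 1 0) ++ .replicate k (mk (-1) 0 0) ++
    .replicate k (mk 0 (-1) 0) ++ .replicate r (mk 0 0 1), fun s hs => ?_, ?_, ?_⟩
  · simp only [List.mem_append, List.mem_replicate] at hs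
    rcases hs with (((h | h) | h) | h) | h <;> simp [h.2]
  · simp [mk_pow, mk_mul, add_comm]
  · have : (r : ℝ) ≤ 2 * k := by exact_mod_cast (by nlinarith : r ≤ 2 * k)
    have h3 : (K : ℝ) ≤ k := by exact_mod_cast h3
    rw [div_le_iff₀ hε] at hK
    simp only [List.length_append, List.length_replicate]
    push_cast
    nlinarith [mul_le_mul_of_nonneg_left h3 hε.le, k.cast_nonneg (α := ℝ), r.cast_nonneg (α := ℝ)]

end Pool.Agent.H63.HA
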