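import Pool.Agent.H63.Sine

set_option autoImplicit false
open MeasureTheory Real Set Filter Topology

namespace Pool.Agent.H63.Heat
open Sine

def Good (v : ℝ → ℝ) : Prop := Measurable v ∧ ∃ M, ∀ s, |v s| ≤ M

theorem Good.ii {v : ℝ → ℝ} (hv : Good v) {g : ℝ → ℝ} (hg : Continuous g) (k : ℕ) (a b : ℝ) :
    IntervalIntegrable (fun s => g s * v s ^ k) volume a b := by
  obtain ⟨hm, M, hM⟩ := hv
  refine IntervalIntegrable.continuousOn_mul ?_ hg.continuousOn
  refine (intervalIntegrable_const (c := M ^ k)).mono_fun (hm.pow_const k).aestronglyMeasurable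
    (Eventually.of_forall fun s => ?_)
  simp only [norm_pow, Real.norm_eq_abs]
  exact pow_le_pow_left₀ (abs_nonneg _) ((hM s).trans (le_abs_self M)) k

theorem Good.abs {v : ℝ → ℝ} (hv : Good v) : Good fun s => |v s| :=
  ⟨hv.1.abs, hv.2.imp fun _ h s => by simpa using h s⟩

noncomputable def cat (h : ℝ) (u v : ℝ → ℝ) : ℝ → ℝ := fun s => if s ≤ h then u s else v (s - h)

theorem Good.cat {u v : ℝ → ℝ} (hu : Good u) (hv : Good v) (h : ℝ) : Good (cat h u v) := by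
  obtain ⟨hm, M, hM⟩ := hu
  obtain ⟨hn, N, hN⟩ := hv
  refine ⟨Measurable.ite measurableSet_Iic hm (hn.comp (measurable_id.sub_const h)), max M N,
    fun s => ?_⟩
  unfold Heat.cat
  split_ifs
  · exact le_max_of_le_left (hM _)
  · exact le_max_of_le_right (hN _)

theorem int_cat {u v : ℝ → ℝ} (hu : Good u) (hv : Good v) {g : ℝ → ℝ} (hg : Continuous g) (k : ℕ)
    {h t : ℝ} (h0 : 0 ≤ h) (t0 : 0 ≤ t) :
    ∫ s in (0 : ℝ)..(h + t), g s * cat h u v s ^ k =
      (∫ s in (0 : ℝ)..h, g s * u s ^ k) + ∫ s in (0 : ℝ)..t, g (h + s) * v s ^ k := by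
  rw [← intervalIntegral.integral_add_adjacent_intervals (b := h) ((hu.cat hv h).ii hg k _ _)
    ((hu.cat hv h).ii hg k _ _)]
  congr 1
  · refine intervalIntegral.integral_congr fun s hs => ?_
    rw [uIcc_of_le h0] at hs
    simp [cat, hs.2]
  · have := intervalIntegral.integral_comp_add_left (fun s => g s * cat h u v s ^ k) (a := 0)
      (b := t) h
    rw [add_zero] at this
    rw [← this, intervalIntegral.integral_of_le t0, intervalIntegral.integral_of_le t0]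
    refine setIntegral_congr_fun measurableSet_Ioc fun s hs => ?_
    simp [cat, hs.1.not_ge]

noncomputable def mu (n : ℕ) : ℝ := (n + 1 : ℕ) * π

noncomputable def J (n : ℕ) (t : ℝ) (v : ℝ → ℝ) : ℝ :=
  ∫ s in (0 : ℝ)..t, exp (-mu n ^ 2 * (t - s)) * v s ^ 1

noncomputable def En (t : ℝ) (v : ℝ → ℝ) : ℝ := ∫ s in (0 : ℝ)..t, exp s * v s ^ 8

theorem mu_ge (n : ℕ) : (n + 1 : ℕ) ≤ mu n :=
  le_mul_of_one_le_right (by positivity) (by linarith [pi_gt_three])

theorem mu_one (n : ℕ) : 1 ≤ mu n := le_trans (by simp) (mu_ge n)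

theorem En_nonneg {t : ℝ} (ht : 0 ≤ t) (v : ℝ → ℝ) : 0 ≤ En t v :=
  intervalIntegral.integral_nonneg ht fun _ _ => by positivity

noncomputable def kap (n : ℕ) : ℝ := mu n ^ (-(3 / 2) : ℝ)

theorem kap_sum : Summable kap := by
  have := (summable_nat_add_iff 1).2 (Real.summable_nat_rpow.2 (by norm_num : (-(3 / 2) : ℝ) < -1))
  refine this.of_nonneg_of_le (fun n => rpow_nonneg (by linarith [mu_one n]) _) fun n => ?_
  exact rpow_le_rpow_of_nonpos (by positivity) (mu_ge n) (by norm_num)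

theorem J_bound {v : ℝ → ℝ} (hv : Good v) {t c : ℝ} (ht : 0 ≤ t) (hc : 0 < c)
    (h : exp (-t) * En t v ≤ c ^ 8) (n : ℕ) : (mu n * J n t v) ^ 2 ≤ c ^ 2 * kap n := by
  have m1 := mu_one n
  obtain ⟨r, r0, r4, r6⟩ : ∃ r : ℝ, 0 < r ∧ r ^ 4 = mu n ∧ kap n * r ^ 6 = 1 := by
    refine ⟨mu n ^ (1 / 4 : ℝ), by positivity, ?_, ?_⟩
    · rw [← rpow_natCast, ← rpow_mul (by linarith)]; norm_num
    · rw [kap, ← rpow_natCast, ← rpow_mul (by linarith), ← rpow_add (by linarith)]; norm_num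
  have c1 : Continuous fun s => exp (-mu n ^ 2 * (t - s)) := by fun_prop
  have i1 : ∫ s in (0 : ℝ)..t, exp (-mu n ^ 2 * (t - s)) ≤ 1 / mu n ^ 2 := by
    rw [intervalIntegral.integral_eq_sub_of_hasDerivAt
      (f := fun s => exp (-mu n ^ 2 * (t - s)) / mu n ^ 2) (fun s _ => by
        refine (((((hasDerivAt_id s).const_sub t).const_mul (-mu n ^ 2)).exp).div_const
          (mu n ^ 2)).congr_deriv ?_
        simp only [id]; field_simp) (c1.intervalIntegrable _ _)]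
    have : 0 ≤ exp (-mu n ^ 2 * (t - 0)) / mu n ^ 2 := by positivity
    simp only [sub_self, mul_zero, exp_zero]; linarith
  have i2 : |J n t v| ≤ ∫ s in (0 : ℝ)..t, exp (-mu n ^ 2 * (t - s)) * |v s| ^ 1 := by
    refine (intervalIntegral.abs_integral_le_integral_abs ht).trans (le_of_eq ?_)
    simp [abs_mul]
  have i3 : 8 * (c * r) ^ 7 * (∫ s in (0 : ℝ)..t, exp (-mu n ^ 2 * (t - s)) * |v s| ^ 1) ≤
      exp (-t) * En t v + 7 * (c * r) ^ 8 * ∫ s in (0 : ℝ)..t, exp (-mu n ^ 2 * (t - s)) := by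
    have j1 := (hv.ii continuous_exp 8 0 t).const_mul (exp (-t))
    have j2 := (c1.intervalIntegrable (μ := volume) 0 t).const_mul (7 * (c * r) ^ 8)
    rw [En, ← intervalIntegral.integral_const_mul, ← intervalIntegral.integral_const_mul,
      ← intervalIntegral.integral_const_mul, ← intervalIntegral.integral_add j1 j2]
    refine intervalIntegral.integral_mono_on ht ((hv.abs.ii c1 1 0 t).const_mul _) (j1.add j2)
      fun s hs => ?_
    have e1 : exp (-mu n ^ 2 * (t - s)) ≤ exp (-t) * exp s := by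
      rw [← exp_add]; apply exp_le_exp.2
      nlinarith [mul_nonneg (sub_nonneg.2 hs.2) (by nlinarith : 0 ≤ mu n ^ 2 - 1)]
    rw [← (by decide : Even 8).pow_abs (v s)]
    have a0 := abs_nonneg (v s)
    generalize |v s| = a at a0 ⊢
    have d0 : 0 < c * r := by positivity
    generalize c * r = d at d0 ⊢
    have am : 8 * d ^ 7 * a ≤ a ^ 8 + 7 * d ^ 8 := by
      have : 0 ≤ (a - d) ^ 2 * (a ^ 6 + 2 * a ^ 5 * d + 3 * a ^ 4 * d ^ 2 + 4 * a ^ 3 * d ^ 3 +
        5 * a ^ 2 * d ^ 4 + 6 * a * d ^ 5 + 7 * d ^ 6) := by positivity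
      linarith
    have := mul_le_mul_of_nonneg_left am (exp_pos (-mu n ^ 2 * (t - s))).le
    have := mul_le_mul_of_nonneg_right e1 (by positivity : 0 ≤ a ^ 8)
    linarith
  have i4 : 7 * (c * r) ^ 8 * (∫ s in (0 : ℝ)..t, exp (-mu n ^ 2 * (t - s))) ≤ 7 * c ^ 8 := by
    refine (mul_le_mul_of_nonneg_left i1 (by positivity)).trans (le_of_eq ?_)
    rw [← r4]; field_simp
  have i5 : c ^ 7 * (r ^ 7 * |J n t v|) ≤ c ^ 7 * c := by
    have := mul_le_mul_of_nonneg_left i2 (by positivity : 0 ≤ 8 * (c * r) ^ 7)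
    linarith
  have i6 := pow_le_pow_left₀ (by positivity) (le_of_mul_le_mul_left i5 (by positivity)) 2
  rw [mul_pow, sq_abs] at i6
  have k0 : 0 ≤ kap n := rpow_nonneg (by linarith) _
  calc (mu n * J n t v) ^ 2 = (r ^ 7) ^ 2 * J n t v ^ 2 * kap n := by
        rw [← r4]; linear_combination (-(r ^ 8 * J n t v ^ 2)) * r6
    _ ≤ _ := by gcongr

noncomputable def bet (n : ℕ) : ℝ := √2 * (-(mu n * cos (mu n)))

noncomputable def co (t : ℝ) (x : X) (v : ℝ → ℝ) (n : ℕ) : ℝ :=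
  exp (-mu n ^ 2 * t) * inner ℝ (e n) x + bet n * J n t v

theorem co_bound {v : ℝ → ℝ} (hv : Good v) {t c : ℝ} (ht : 0 ≤ t) (hc : 0 < c)
    (h : exp (-t) * En t v ≤ c ^ 8) (x : X) (n : ℕ) :
    co t x v n ^ 2 ≤ 2 * exp (-t) ^ 2 * inner ℝ (e n) x ^ 2 + 4 * c ^ 2 * kap n := by
  have h1 := J_bound hv ht hc h n
  have h2 : (bet n * J n t v) ^ 2 ≤ 2 * (mu n * J n t v) ^ 2 := by
    have : (bet n * J n t v) ^ 2 = 2 * (mu n * J n t v) ^ 2 * cos (mu n) ^ 2 := by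
      rw [bet]; linear_combination (mu n * J n t v * cos (mu n)) ^ 2 * sq_sqrt (x := 2) (by norm_num)
    rw [this]
    exact mul_le_of_le_one_right (by positivity) (cos_sq_le_one _)
  have h3 : exp (-mu n ^ 2 * t) ≤ exp (-t) := exp_le_exp.2 (by
    nlinarith [mul_nonneg ht (by nlinarith [mu_one n] : 0 ≤ mu n ^ 2 - 1)])
  have h4 : (exp (-mu n ^ 2 * t) * inner ℝ (e n) x) ^ 2 ≤ exp (-t) ^ 2 * inner ℝ (e n) x ^ 2 := by
    rw [mul_pow]; gcongr
  rw [co]
  nlinarith [sq_nonneg (exp (-mu n ^ 2 * t) * inner ℝ (e n) x - bet n * J n t v)]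

theorem root {a : ℝ} (ha : 0 < a) : ∃ c : ℝ, 0 < c ∧ c ^ 8 = a :=
  ⟨a ^ ((8 : ℕ) : ℝ)⁻¹, by positivity, rpow_inv_natCast_pow ha.le (by norm_num)⟩

theorem exists_sol : ∃ Φ : ℝ → X → (ℝ → ℝ) → X, ∀ t x v, 0 ≤ t → Good v →
    ∀ n, inner ℝ (e n) (Φ t x v) = co t x v n := by
  have : ∀ t x v, ∃ y : X, 0 ≤ t → Good v → ∀ n, inner ℝ (e n) y = co t x v n := by
    intro t x v
    by_cases h : 0 ≤ t ∧ Good v
    · have := En_nonneg h.1 v
      obtain ⟨c, c0, hc⟩ := root (by positivity : 0 < exp (-t) * En t v + 1)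
      obtain ⟨y, hy⟩ := synth (co t x v) ((((parseval x).summable.mul_left _).add
        (kap_sum.mul_left _)).of_nonneg_of_le (fun n => sq_nonneg _)
          (co_bound h.2 h.1 c0 (by linarith) x))
      exact ⟨y, fun _ _ => hy⟩
    · exact ⟨0, fun h1 h2 => absurd ⟨h1, h2⟩ h⟩
  choose Φ hΦ using this
  exact ⟨Φ, hΦ⟩

noncomputable def gam : ℝ := 2048 * (∑' n, kap n) ^ 4 + 1

theorem gam_pos : 0 < gam := by unfold gam; positivity

theorem norm_bound {v : ℝ → ℝ} (hv : Good v) {t : ℝ} (ht : 0 ≤ t) {x y : X}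
    (hy : ∀ n, inner ℝ (e n) y = co t x v n) :
    exp t * ‖y‖ ^ 8 - gam * En t v ≤ 128 * ‖x‖ ^ 8 := by
  have E0 := En_nonneg ht v
  have g0 := gam_pos
  refine le_of_forall_pos_le_add fun ε hε => ?_
  obtain ⟨c, c0, hc⟩ := root (by positivity : 0 < exp (-t) * (En t v + ε / gam))
  have h1 := hasSum_le (fun n => (hy n).symm ▸ co_bound hv ht c0 (by
    rw [hc]; gcongr; exact le_add_of_nonneg_right (by positivity)) x n) (parseval y)
    (((parseval x).mul_left _).add (kap_sum.hasSum.mul_left _))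
  have K0 : 0 ≤ ∑' n, kap n := tsum_nonneg fun n => rpow_nonneg (by linarith [mu_one n]) _
  have h2 := (pow_le_pow_left₀ (by positivity) h1 4).trans (add_pow_le (by positivity)
    (by positivity) 4)
  have e1 : exp t * exp (-t) = 1 := by rw [← exp_add]; simp
  have e2 : exp (-t) ^ 7 ≤ 1 := pow_le_one₀ (exp_pos _).le (exp_le_one_iff.2 (by linarith))
  have h3 := mul_le_mul_of_nonneg_left h2 (exp_pos t).le
  have h4 : exp t * (2 ^ (4 - 1) * ((2 * exp (-t) ^ 2 * ‖x‖ ^ 2) ^ 4 +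
      (4 * c ^ 2 * ∑' n, kap n) ^ 4)) =
      128 * ‖x‖ ^ 8 * exp (-t) ^ 7 + (gam - 1) * (En t v + ε / gam) := by
    rw [show gam - 1 = 2048 * (∑' n, kap n) ^ 4 by rw [gam]; ring]
    linear_combination (128 * ‖x‖ ^ 8 * exp (-t) ^ 7 +
      2048 * (∑' n, kap n) ^ 4 * (En t v + ε / gam)) * e1 +
      (2048 * (∑' n, kap n) ^ 4 * exp t) * hc
  have h5 := mul_le_of_le_one_right (by positivity : 0 ≤ 128 * ‖x‖ ^ 8) e2
  have h6 : gam * (ε / gam) = ε := by field_simp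
  have h7 : 0 ≤ ε / gam := by positivity
  rw [h4, show (‖y‖ ^ 2) ^ 4 = ‖y‖ ^ 8 by ring] at h3
  generalize ε / gam = δ at *
  linarith

theorem co_cat {u v : ℝ → ℝ} (hu : Good u) (hv : Good v) {h t : ℝ} (h0 : 0 ≤ h) (t0 : 0 ≤ t)
    {x y : X} (hy : ∀ n, inner ℝ (e n) y = co h x u n) (n : ℕ) :
    co t y v n = co (h + t) x (cat h u v) n := by
  have e1 : J n (h + t) (cat h u v) = exp (-mu n ^ 2 * t) * J n h u + J n t v := by
    rw [J, int_cat hu hv (g := fun s => exp (-mu n ^ 2 * (h + t - s))) (by fun_prop) 1 h0 t0, J, J,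
      ← intervalIntegral.integral_const_mul]
    congr 1
    · congr 1; ext s; rw [← mul_assoc, ← exp_add]; congr 2; ring
    · simp
  rw [co, co, hy, co, e1, mul_add (-mu n ^ 2), exp_add]; ring

theorem En_cat {u v : ℝ → ℝ} (hu : Good u) (hv : Good v) {h t : ℝ} (h0 : 0 ≤ h) (t0 : 0 ≤ t) :
    En (h + t) (cat h u v) = En h u + exp h * En t v := by
  rw [En, int_cat hu hv continuous_exp 8 h0 t0, En, En, ← intervalIntegral.integral_const_mul]
  simp only [exp_add, mul_assoc]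

theorem exists_V : ∃ V : X → ℝ, Continuous V ∧ (∀ x, ‖x‖ ^ 8 ≤ V x ∧ V x ≤ 128 * ‖x‖ ^ 8) ∧
    ∀ h x u y, 0 ≤ h → Good u → (∀ n, inner ℝ (e n) y = co h x u n) →
      exp h * V y ≤ V x + gam * En h u := by
  obtain ⟨Φ, hΦ⟩ := exists_sol
  let P := {p : ℝ × (ℝ → ℝ) // 0 ≤ p.1 ∧ Good p.2}
  have p0 : Good fun _ => 0 := ⟨measurable_const, 0, by simp⟩
  haveI : Nonempty P := ⟨⟨(0, fun _ => 0), le_rfl, p0⟩⟩
  let F : X → P → ℝ := fun x p => exp p.1.1 * ‖Φ p.1.1 x p.1.2‖ ^ 8 - gam * En p.1.1 p.1.2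
  have hF : ∀ x p, F x p ≤ 128 * ‖x‖ ^ 8 := fun x p =>
    norm_bound p.2.2 p.2.1 (hΦ _ _ _ p.2.1 p.2.2)
  have le : ∀ x p, F x p ≤ ⨆ p, F x p := fun x p => le_ciSup ⟨_, forall_mem_range.2 (hF x)⟩ p
  have up : ∀ x, ⨆ p, F x p ≤ 128 * ‖x‖ ^ 8 := fun x => ciSup_le (hF x)
  refine ⟨fun x => ⨆ p, F x p, ?_, fun x => ⟨?_, up x⟩, fun h x u y h0 hu hy => ?_⟩
  · have cv : ConvexOn ℝ univ fun x => ⨆ p, F x p := by
      refine ⟨convex_univ, fun x _ y _ a b ha hb hab => ciSup_le fun p => ?_⟩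
      have e1 : Φ p.1.1 (a • x + b • y) p.1.2 = a • Φ p.1.1 x p.1.2 + b • Φ p.1.1 y p.1.2 := by
        refine ext' fun n => ?_
        simp only [inner_add_right, inner_smul_right, hΦ _ _ _ p.2.1 p.2.2, co]
        linear_combination (-(bet n * J n p.1.1 p.1.2)) * hab
      have e2 := ((convexOn_univ_norm (E := X)).pow (fun _ _ => norm_nonneg _) 8).2
        (mem_univ (Φ p.1.1 x p.1.2)) (mem_univ (Φ p.1.1 y p.1.2)) ha hb hab
      have e3 := mul_le_mul_of_nonneg_left e2 (exp_pos p.1.1).le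
      have e4 := mul_le_mul_of_nonneg_left (le x p) ha
      have e5 := mul_le_mul_of_nonneg_left (le y p) hb
      simp only [F, e1, smul_eq_mul, Pi.pow_apply] at e3 e4 e5 ⊢
      linear_combination e3 + e4 + e5 + (gam * En p.1.1 p.1.2) * hab
    rw [← continuousOn_univ]
    refine ((cv.continuousOn_tfae isOpen_univ univ_nonempty).out 1 3).2
      (⟨0, trivial, 128, ?_⟩ : ∃ x₀ ∈ (univ : Set X), (𝓝 x₀).IsBoundedUnder (· ≤ ·) fun x => ⨆ p, F x p)
    rw [eventually_map]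
    filter_upwards [Metric.ball_mem_nhds (0 : X) one_pos] with x hx
    have := pow_le_one₀ (n := 8) (norm_nonneg x) (mem_ball_zero_iff.1 hx).le
    linarith [up x]
  · refine le_trans (le_of_eq ?_) (le x ⟨(0, fun _ => 0), le_rfl, p0⟩)
    have : Φ 0 x (fun _ => 0) = x := ext' fun n => by rw [hΦ _ _ _ le_rfl p0]; simp [co, J]
    simp [F, this, En]
  · rw [← le_div_iff₀' (exp_pos h)]
    refine ciSup_le fun p => ?_
    rw [le_div_iff₀' (exp_pos h)]
    have hg := hu.cat p.2.2 h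
    have ht := add_nonneg h0 p.2.1
    have := le x ⟨(h + p.1.1, cat h u p.1.2), ht, hg⟩
    have e1 : Φ (h + p.1.1) x (cat h u p.1.2) = Φ p.1.1 y p.1.2 := ext' fun n => by
      rw [hΦ _ _ _ ht hg, hΦ _ _ _ p.2.1 p.2.2, co_cat hu p.2.2 h0 p.2.1 hy]
    simp only [F, e1, En_cat hu p.2.2 h0 p.2.1, exp_add] at this ⊢
    linarith

end Pool.Agent.H63.Heat
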