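import Mathlib

set_option autoImplicit false
open Finset Real

namespace Pool.Agent.H63.Heis

noncomputable def ee (u : ℝ) : ℂ := Complex.exp (Complex.I * (2 * π * u : ℝ))

theorem ee_norm (u : ℝ) : ‖ee u‖ = 1 := Complex.norm_exp_I_mul_ofReal _

theorem ee_sub (u v : ℝ) : ‖ee u - ee v‖ = 2 * |sin (π * (u - v))| := by
  have : ee u - ee v = ee v * (ee (u - v) - 1) := by
    rw [mul_sub, mul_one, ee, ee, ee, ← Complex.exp_add]
    congr 2; push_cast; ring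
  rw [this, norm_mul, ee_norm, one_mul, ee, Complex.norm_exp_I_mul_ofReal_sub_one, norm_mul,
    Real.norm_eq_abs, Real.norm_eq_abs, show 2 * π * (u - v) / 2 = π * (u - v) by ring]
  simp

theorem ee_le (u v : ℝ) : ‖ee u - ee v‖ ≤ 8 * |u - v| := by
  have := abs_sin_le_abs (x := π * (u - v))
  rw [abs_mul, abs_of_pos pi_pos] at this
  rw [ee_sub]
  nlinarith [pi_le_four, abs_nonneg (u - v)]

theorem ee_ge {u v : ℝ} (h : |u - v| ≤ 1 / 2) : 4 * |u - v| ≤ ‖ee u - ee v‖ := by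
  have := mul_abs_le_abs_sin (x := π * (u - v)) (by
    rw [abs_mul, abs_of_pos pi_pos]; nlinarith [pi_pos])
  rw [abs_mul, abs_of_pos pi_pos, ← mul_assoc, div_mul_cancel₀ _ pi_ne_zero] at this
  rw [ee_sub]; linarith

theorem ee_int (u : ℝ) (m : ℤ) : ee (u + m) = ee u := by
  rw [← sub_eq_zero, ← norm_eq_zero, ee_sub, add_sub_cancel_left, mul_comm π, sin_int_mul_pi]
  simp

noncomputable def tent (t : ℝ) : ℝ := min (t - ⌊t⌋) (⌊t⌋ + 1 - t)

theorem tent_nonneg (t : ℝ) : 0 ≤ tent t :=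
  le_min (sub_nonneg.2 (Int.floor_le t)) (sub_nonneg.2 (Int.lt_floor_add_one t).le)

theorem tent_le (t : ℝ) : tent t ≤ 1 / 2 := by
  have := min_le_left (t - ⌊t⌋) (⌊t⌋ + 1 - t)
  have := min_le_right (t - ⌊t⌋) (⌊t⌋ + 1 - t)
  unfold tent; linarith

theorem tent_big (t : ℝ) : ∃ i : Fin 2, 1 / 4 ≤ tent (t + (i : ℕ) / 2) := by
  have a := Int.floor_le t
  have b := Int.lt_floor_add_one t
  by_cases h1 : t - ⌊t⌋ < 1 / 4
  · refine ⟨1, ?_⟩
    have : ⌊t + ((1 : Fin 2) : ℕ) / 2⌋ = ⌊t⌋ := by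
      rw [Int.floor_eq_iff]; norm_num; constructor <;> linarith
    rw [tent, this, le_min_iff]; norm_num; constructor <;> linarith
  by_cases h2 : 3 / 4 < t - ⌊t⌋
  · refine ⟨1, ?_⟩
    have : ⌊t + ((1 : Fin 2) : ℕ) / 2⌋ = ⌊t⌋ + 1 := by
      rw [Int.floor_eq_iff]; norm_num; constructor <;> linarith
    rw [tent, this, le_min_iff]; norm_num; constructor <;> linarith
  · refine ⟨0, ?_⟩
    rw [Fin.val_zero, Nat.cast_zero, zero_div, add_zero, tent, le_min_iff]; constructor <;> linarith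

noncomputable def ph (k : ℕ) (i : Fin 2) (x y z : ℤ) : ℂ :=
  tent (x / 2 ^ k + (i : ℕ) / 2) * ee ((z - ⌊(x : ℝ) / 2 ^ k + (i : ℕ) / 2⌋ * 2 ^ k * y) / 4 ^ k)

theorem ph_a (k : ℕ) (i : Fin 2) (x y z : ℤ) :
    ‖ph k i (x + 1) y z - ph k i x y z‖ ≤ 4 / 2 ^ k := by
  have e : ((x + 1 : ℤ) : ℝ) / 2 ^ k + (i : ℕ) / 2 = (x / 2 ^ k + (i : ℕ) / 2) + 1 / 2 ^ k := by
    push_cast; ring
  rw [ph, ph, e, show (4 : ℝ) / 2 ^ k = 4 * (1 / 2 ^ k) by ring]
  have d0 : (0 : ℝ) < 1 / 2 ^ k := by positivity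
  generalize (1 : ℝ) / 2 ^ k = δ at d0
  generalize (x : ℝ) / 2 ^ k + (i : ℕ) / 2 = t
  by_cases h : ⌊t + δ⌋ = ⌊t⌋
  · rw [h, ← sub_mul, norm_mul, ee_norm, mul_one, ← Complex.ofReal_sub, Complex.norm_real, tent,
      tent, h]
    refine (abs_min_sub_min_le_max _ _ _ _).trans (max_le ?_ ?_) <;> rw [abs_le] <;>
      constructor <;> linarith
  · have h1 : ⌊t⌋ + 1 ≤ ⌊t + δ⌋ := lt_of_le_of_ne (Int.floor_mono (by linarith)) (Ne.symm h)
    have h2 : (⌊t⌋ : ℝ) + 1 ≤ ⌊t + δ⌋ := by exact_mod_cast h1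
    have := Int.floor_le (t + δ)
    have := Int.lt_floor_add_one t
    refine (norm_sub_le _ _).trans ?_
    rw [norm_mul, norm_mul, ee_norm, ee_norm, Complex.norm_real, Complex.norm_real,
      Real.norm_of_nonneg (tent_nonneg _), Real.norm_of_nonneg (tent_nonneg _), tent, tent]
    linarith [min_le_left (t + δ - ⌊t + δ⌋) (⌊t + δ⌋ + 1 - (t + δ)),
      min_le_right (t - ⌊t⌋) (⌊t⌋ + 1 - t)]

theorem ph_b (k : ℕ) (i : Fin 2) (x y z : ℤ) :
    ‖ph k i x (y + 1) (z + x) - ph k i x y z‖ ≤ 4 / 2 ^ k := by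
  rw [ph, ph, ← mul_sub, norm_mul, Complex.norm_real, Real.norm_of_nonneg (tent_nonneg _)]
  refine (mul_le_mul (tent_le _) (ee_le _ _) (norm_nonneg _) (by norm_num)).trans ?_
  have a := Int.floor_le ((x : ℝ) / 2 ^ k + (i : ℕ) / 2)
  have b := Int.lt_floor_add_one ((x : ℝ) / 2 ^ k + (i : ℕ) / 2)
  have c : ((i : ℕ) : ℝ) ≤ 1 := by exact_mod_cast Nat.lt_succ_iff.1 i.2
  have c0 : (0 : ℝ) ≤ (i : ℕ) := Nat.cast_nonneg _
  generalize ⌊(x : ℝ) / 2 ^ k + (i : ℕ) / 2⌋ = n at a b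
  have e : (((z + x : ℤ) : ℝ) - n * 2 ^ k * (y + 1 : ℤ)) / 4 ^ k - (z - n * 2 ^ k * y) / 4 ^ k =
      (x / 2 ^ k - n) / 2 ^ k := by
    rw [show (4 : ℝ) ^ k = 2 ^ k * 2 ^ k by rw [← mul_pow]; norm_num]
    push_cast; field_simp; ring
  have : |(x : ℝ) / 2 ^ k - n| ≤ 1 := abs_le.2 ⟨by linarith, by linarith⟩
  rw [e, abs_div, abs_of_pos (by positivity : (0 : ℝ) < 2 ^ k), ← mul_assoc, ← mul_div_assoc]
  gcongr
  linarith

theorem ph_per (k : ℕ) (i : Fin 2) (x y : ℤ) {z z' : ℤ} (h : 4 ^ k ∣ z - z') :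
    ph k i x y z = ph k i x y z' := by
  obtain ⟨m, hm⟩ := h
  rw [ph, ph, ← ee_int (((z' : ℝ) - _) / _) m, sub_eq_iff_eq_add.1 hm]
  congr 2
  push_cast; field_simp; ring

theorem ph_z (k : ℕ) (i : Fin 2) (x y z z' : ℤ) :
    ‖ph k i x y z - ph k i x y z'‖ ≤ 1 ∧
    ‖ph k i x y z - ph k i x y z'‖ ≤ 4 * (|(z : ℝ) - z'| / 4 ^ k) ∧
    (|(z : ℝ) - z'| / 4 ^ k ≤ 1 / 2 → tent (x / 2 ^ k + (i : ℕ) / 2) * (4 * (|(z : ℝ) - z'| / 4 ^ k)) ≤
      ‖ph k i x y z - ph k i x y z'‖) := by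
  rw [ph, ph, ← mul_sub, norm_mul, Complex.norm_real, Real.norm_of_nonneg (tent_nonneg _)]
  generalize (⌊(x : ℝ) / 2 ^ k + (i : ℕ) / 2⌋ * 2 ^ k * y : ℝ) = c
  have e : |((z : ℝ) - c) / 4 ^ k - (z' - c) / 4 ^ k| = |(z : ℝ) - z'| / 4 ^ k := by
    rw [← sub_div, sub_sub_sub_cancel_right, abs_div, abs_of_pos (by positivity : (0 : ℝ) < 4 ^ k)]
  refine ⟨?_, ?_, fun h => mul_le_mul_of_nonneg_left (e ▸ ee_ge (e ▸ h)) (tent_nonneg _)⟩
  · refine (mul_le_mul (tent_le _) (norm_sub_le _ _) (norm_nonneg _) (by norm_num)).trans ?_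
    rw [ee_norm, ee_norm]; norm_num
  · refine (mul_le_mul (tent_le _) (ee_le _ _) (norm_nonneg _) (by norm_num)).trans ?_
    rw [e]; linarith

theorem geo_inj (s : Finset ℕ) (φ : ℕ → ℕ) (h : Set.InjOn φ s) {σ : ℝ} (h0 : 0 ≤ σ) (h1 : σ < 1) :
    ∑ k ∈ s, σ ^ φ k ≤ (1 - σ)⁻¹ := by
  rw [← sum_image (f := fun n => σ ^ n) h, ← tsum_geometric_of_lt_one h0 h1]
  exact (summable_geometric_of_lt_one h0 h1).sum_le_tsum _ fun _ _ => by positivity

theorem geo_dist (s : Finset ℕ) (a : ℕ) : ∑ k ∈ s, (4 / 5 : ℝ) ^ (k - a + (a - k)) ≤ 10 := by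
  rw [← sum_filter_add_sum_filter_not s (· ≤ a)]
  have h1 := geo_inj (s.filter (· ≤ a)) (fun k => k - a + (a - k)) (fun x hx y hy h => by
    simp only [coe_filter, Set.mem_ofPred_eq] at hx hy h; omega) (σ := 4 / 5) (by norm_num) (by norm_num)
  have h2 := geo_inj (s.filter (¬ · ≤ a)) (fun k => k - a + (a - k)) (fun x hx y hy h => by
    simp only [coe_filter, Set.mem_ofPred_eq] at hx hy h; omega) (σ := 4 / 5) (by norm_num) (by norm_num)
  norm_num at h1 h2 ⊢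
  linarith

noncomputable def GG (N : ℕ) (j : Fin 26) (i : Fin 2) (x y z : ℤ) : ℂ :=
  ∑ k ∈ (range (N + 1)).filter (· % 26 = (j : ℕ)), ((25 / 16 : ℝ) ^ k : ℝ) * ph k i x y z

theorem GG_lip (N : ℕ) (j : Fin 26) (i : Fin 2) {x y z x' y' z' : ℤ}
    (h : ∀ k, ‖ph k i x y z - ph k i x' y' z'‖ ≤ 4 / 2 ^ k) :
    ‖GG N j i x y z - GG N j i x' y' z'‖ ≤ 19 := by
  rw [GG, GG, ← sum_sub_distrib]
  refine (norm_sum_le_of_le _ (n := fun k => 4 * (25 / 32 : ℝ) ^ k) fun k _ => ?_).trans ?_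
  · rw [← mul_sub, norm_mul, Complex.norm_real, Real.norm_of_nonneg (by positivity)]
    refine (mul_le_mul_of_nonneg_left (h k) (by positivity)).trans (le_of_eq ?_)
    rw [show (25 / 32 : ℝ) = 25 / 16 / 2 by norm_num, div_pow _ (2 : ℝ)]; ring
  · have := geo_inj ((range (N + 1)).filter (· % 26 = (j : ℕ))) id (Set.injOn_id _) (σ := 25 / 32)
      (by norm_num) (by norm_num)
    rw [← mul_sum]
    norm_num at this ⊢
    linarith

theorem GG_per (N : ℕ) (j : Fin 26) (i : Fin 2) (x y : ℤ) {z z' : ℤ} (h : 4 ^ N ∣ z - z') :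
    GG N j i x y z = GG N j i x y z' :=
  sum_congr rfl fun k hk => by
    rw [ph_per k i x y ((pow_dvd_pow 4 (by simp at hk; omega)).trans h)]

theorem GG_sep (N : ℕ) (x y z z' : ℤ)
    (h : ∀ j i, ‖GG N j i x y z - GG N j i x y z'‖ < 1 / 16) : 4 ^ N ∣ z - z' := by
  obtain ⟨w, hw1, hw2⟩ : ∃ w : ℤ, 4 ^ N ∣ w - z' ∧ |(z : ℝ) - w| / 4 ^ N ≤ 1 / 2 := by
    refine ⟨z' + 4 ^ N * round (((z : ℝ) - z') / 4 ^ N), by simp, ?_⟩
    refine le_of_eq_of_le ?_ (abs_sub_round (((z : ℝ) - z') / 4 ^ N))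
    rw [← abs_of_pos (by positivity : (0 : ℝ) < 4 ^ N), ← abs_div, abs_of_pos (by positivity : (0 : ℝ) < 4 ^ N)]
    congr 1; push_cast; field_simp; ring
  simp only [← fun j i => GG_per N j i x y hw1] at h
  by_contra hne
  have d1 : (1 : ℝ) ≤ |(z : ℝ) - w| := by
    have : z - w ≠ 0 := fun e => hne (by rwa [sub_eq_zero.1 e])
    exact_mod_cast Int.one_le_abs this
  have ex : ∃ k, |(z : ℝ) - w| / 4 ^ k ≤ 1 / 2 := ⟨N, hw2⟩
  obtain ⟨a, a1, a2, a3⟩ : ∃ a, a ≤ N ∧ |(z : ℝ) - w| / 4 ^ a ≤ 1 / 2 ∧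
      1 / 8 ≤ |(z : ℝ) - w| / 4 ^ a := by
    classical
    refine ⟨Nat.find ex, Nat.find_min' ex hw2, Nat.find_spec ex, ?_⟩
    rcases hk : Nat.find ex with _ | k
    · simp; linarith
    · have := Nat.find_min ex (m := k) (by omega)
      rw [pow_succ, ← div_div]; linarith
  obtain ⟨i, hi⟩ := tent_big (x / 2 ^ a)
  have := h ⟨a % 26, Nat.mod_lt _ (by norm_num)⟩ i
  rw [GG, GG, ← sum_sub_distrib, ← add_sum_erase (a := a) _ _ (by simp; omega)] at this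
  have m1 : (25 / 16 : ℝ) ^ a * (1 / 8) ≤
      ‖((25 / 16 : ℝ) ^ a : ℝ) * ph a i x y z - ((25 / 16 : ℝ) ^ a : ℝ) * ph a i x y w‖ := by
    rw [← mul_sub, norm_mul, Complex.norm_real, Real.norm_of_nonneg (by positivity)]
    gcongr
    nlinarith [(ph_z a i x y z w).2.2 a2]
  have m2 : ‖∑ k ∈ ((range (N + 1)).filter (· % 26 = a % 26)).erase a,
      (((25 / 16 : ℝ) ^ k : ℝ) * ph k i x y z - ((25 / 16 : ℝ) ^ k : ℝ) * ph k i x y w)‖ ≤
      (25 / 16 : ℝ) ^ a * (1 / 16) := by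
    refine (norm_sum_le_of_le _ (n := fun k => (25 / 16 : ℝ) ^ a * (2 * (4 / 5) ^ 26) *
      (4 / 5 : ℝ) ^ (k - a + (a - k))) fun k hk => ?_).trans ?_
    · simp only [mem_erase, mem_filter] at hk
      have b : (4 / 5 : ℝ) ^ (k - a + (a - k)) ≤ (4 / 5) ^ 26 :=
        pow_le_pow_of_le_one (by norm_num) (by norm_num) (by omega)
      have b2 := mul_le_mul_of_nonneg_right b (by positivity : (0 : ℝ) ≤ (4 / 5) ^ (k - a + (a - k)))
      rw [← mul_pow] at b2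
      rw [← mul_sub, norm_mul, Complex.norm_real, Real.norm_of_nonneg (by positivity), mul_assoc,
        mul_assoc]
      refine le_trans ?_ (mul_le_mul_of_nonneg_left (mul_le_mul_of_nonneg_left b2 zero_le_two)
        (by positivity))
      rcases le_total k a with hka | hka
      · obtain ⟨e, rfl⟩ := Nat.exists_eq_add_of_le hka
        have : (25 / 16 : ℝ) ^ e * (4 / 5 * (4 / 5)) ^ e = 1 := by rw [← mul_pow]; norm_num
        rw [show k - (k + e) + (k + e - k) = e by omega, pow_add, mul_assoc]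
        gcongr
        linarith [(ph_z k i x y z w).1]
      · obtain ⟨e, rfl⟩ := Nat.exists_eq_add_of_le hka
        have b3 : (25 / 16 : ℝ) ^ e / 4 ^ e ≤ (4 / 5 * (4 / 5)) ^ e := by
          rw [← div_pow]; gcongr; norm_num
        have b4 := (ph_z (a + e) i x y z w).2.1
        rw [pow_add, ← div_div] at b4
        have b5 : ‖ph (a + e) i x y z - ph (a + e) i x y w‖ ≤ 2 / 4 ^ e := by
          refine b4.trans ?_
          rw [← mul_div_assoc]; gcongr; linarith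
        rw [show a + e - a + (a - (a + e)) = e by omega, pow_add, mul_assoc]
        refine mul_le_mul_of_nonneg_left ?_ (by positivity)
        refine (mul_le_mul_of_nonneg_left b5 (by positivity : (0 : ℝ) ≤ (25 / 16) ^ e)).trans ?_
        rw [← mul_div_assoc, mul_comm, mul_div_assoc]; linarith
    · rw [← mul_sum, mul_assoc]
      gcongr
      refine (mul_le_mul_of_nonneg_left (geo_dist _ a) (by positivity)).trans (by norm_num)
  have m3 := one_le_pow₀ (n := a) (by norm_num : (1 : ℝ) ≤ 25 / 16)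
  have m4 := norm_sub_norm_le (((25 / 16 : ℝ) ^ a : ℝ) * ph a i x y z -
    ((25 / 16 : ℝ) ^ a : ℝ) * ph a i x y w) (-∑ k ∈ ((range (N + 1)).filter (· % 26 = a % 26)).erase a,
      (((25 / 16 : ℝ) ^ k : ℝ) * ph k i x y z - ((25 / 16 : ℝ) ^ k : ℝ) * ph k i x y w))
  rw [norm_neg, sub_neg_eq_add] at m4
  linarith

theorem floor_lip {u v : ℝ} (h : |u - v| ≤ 608) : |⌊u⌋ - ⌊v⌋| ≤ 609 := by
  have := Int.floor_le u
  have := Int.floor_le v
  have := Int.lt_floor_add_one u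
  have := Int.lt_floor_add_one v
  rw [abs_le] at h
  have : |(⌊u⌋ : ℝ) - ⌊v⌋| ≤ 609 := abs_le.2 ⟨by linarith, by linarith⟩
  exact_mod_cast this

theorem emb : ∃ (d : ℕ) (f : ℕ → ℤ → ℤ → ℤ → Fin d → ℤ), 2 ≤ d ∧
    (∀ N x y z i, |f N (x + 1) y z i - f N x y z i| ≤ 609) ∧
    (∀ N x y z i, |f N x (y + 1) (z + x) i - f N x y z i| ≤ 609) ∧
    ∀ N x y z x' y' z', f N x y z = f N x' y' z' ↔ x = x' ∧ y = y' ∧ 4 ^ N ∣ z - z' := by
  let ι := Bool ⊕ (Fin 26 × Fin 2 × Bool)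
  let F : ℕ → ℤ → ℤ → ℤ → ι → ℤ := fun N x y z => Sum.elim (fun b => if b then x else y)
    fun p => ⌊32 * if p.2.2 then (GG N p.1 p.2.1 x y z).re else (GG N p.1 p.2.1 x y z).im⌋
  have lip : ∀ N x y z x' y' z', |x - x'| ≤ 1 → |y - y'| ≤ 1 →
      (∀ k i, ‖ph k i x y z - ph k i x' y' z'‖ ≤ 4 / 2 ^ k) → ∀ i,
      |F N x y z i - F N x' y' z' i| ≤ 609 := by
    rintro N x y z x' y' z' h1 h2 h3 (b | ⟨j, i, b⟩)
    · cases b <;> simp [F] <;> linarith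
    · have := GG_lip N j i (h3 · i)
      have a := Complex.abs_re_le_norm (GG N j i x y z - GG N j i x' y' z')
      have c := Complex.abs_im_le_norm (GG N j i x y z - GG N j i x' y' z')
      refine floor_lip ?_
      rw [← mul_sub, abs_mul]
      cases b <;> simp at a c ⊢ <;> linarith
  let e := (Fintype.equivFin ι).symm
  refine ⟨Fintype.card ι, fun N x y z i => F N x y z (e i), by simp [ι],
    fun N x y z i => lip _ _ _ _ _ _ _ (by simp) (by simp) (fun k i => ph_a k i x y z) _,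
    fun N x y z i => lip _ _ _ _ _ _ _ (by simp) (by simp) (fun k i => ph_b k i x y z) _,
    fun N x y z x' y' z' => ⟨fun h => ?_, ?_⟩⟩
  · have h' : ∀ i, F N x y z i = F N x' y' z' i := fun i => by
      simpa using congrFun h (e.symm i)
    obtain rfl : x = x' := h' (Sum.inl true)
    obtain rfl : y = y' := h' (Sum.inl false)
    refine ⟨rfl, rfl, GG_sep N x y z z' fun j i => ?_⟩
    have a := Int.abs_sub_lt_one_of_floor_eq_floor (h' (Sum.inr (j, i, true)))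
    have b := Int.abs_sub_lt_one_of_floor_eq_floor (h' (Sum.inr (j, i, false)))
    have c := Complex.norm_le_abs_re_add_abs_im (GG N j i x y z - GG N j i x y z')
    rw [← mul_sub, abs_mul] at a b
    simp at a b c
    linarith
  · rintro ⟨rfl, rfl, h⟩
    simp only [F, fun j i => GG_per N j i x y h]

end Pool.Agent.H63.Heis
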