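import Mathlib

set_option autoImplicit false
open Set

namespace Pool.Agent.H63.Heis

theorem act {G V : Type*} [Group G] (f : G → V) (hf : ∀ g g' s, f g = f g' → f (g * s) = f (g' * s)) :
    ∃ r : G → V → V, (∀ v, r 1 v = v) ∧ (∀ s t v, r (s * t) v = r t (r s v)) ∧
      (∀ s g, r s (f g) = f (g * s)) ∧ ∀ s v, v ∉ range f → r s v = v := by
  classical
  let r : G → V → V := fun s v => if h : v ∈ range f then f (h.choose * s) else v
  have r1 : ∀ s g, r s (f g) = f (g * s) := fun s g => by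
    simp only [r, mem_range_self, dif_pos]
    exact hf _ _ _ (mem_range_self g).choose_spec
  have r2 : ∀ s v, v ∉ range f → r s v = v := fun s v h => dif_neg h
  refine ⟨r, fun v => ?_, fun s t v => ?_, r1, r2⟩ <;> by_cases h : v ∈ range f
  · obtain ⟨g, rfl⟩ := h; rw [r1, mul_one]
  · exact r2 _ _ h
  · obtain ⟨g, rfl⟩ := h; rw [r1, r1, r1, mul_assoc]
  · rw [r2 _ _ h, r2 _ _ h, r2 _ _ h]

def YY {G : Type*} [Group G] (a b : G) (d : ℕ) (K : ℤ) : Set (G → (Fin d → ℤ) → Fin d → ℤ) :=
  {r | (∀ v, r 1 v = v) ∧ (∀ s t v, r (s * t) v = r t (r s v)) ∧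
    (∀ v, r a v - v ∈ Icc (fun _ => -K) fun _ => K) ∧ ∀ v, r b v - v ∈ Icc (fun _ => -K) fun _ => K}

theorem cont_ev {Z V W : Type*} [TopologicalSpace Z] [TopologicalSpace V] [DiscreteTopology V]
    [TopologicalSpace W] {p : Z → V → W} {q : Z → V} (hp : ∀ v, Continuous fun z => p z v)
    (hq : Continuous q) : Continuous fun z => p z (q z) :=
  (continuous_prod_of_discrete_right (f := fun x : Z × V => p x.1 x.2).2 hp).comp
    (continuous_id.prodMk hq)

theorem YY_compact {G : Type*} [Group G] {a b : G} (hg : Subgroup.closure {a, b} = ⊤) (d : ℕ)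
    (K : ℤ) : IsCompact (YY a b d K) := by
  have bd : ∀ g : G, ∃ C : ℤ, ∀ r ∈ YY a b d K, ∀ v i, |r g v i - v i| ≤ C := by
    intro g
    have : g ∈ Subgroup.closure {a, b} := hg ▸ trivial
    induction this using Subgroup.closure_induction with
    | mem x hx =>
      rcases hx with rfl | rfl
      · exact ⟨K, fun r hr v i => abs_le.2 ⟨(hr.2.2.1 v).1 i, (hr.2.2.1 v).2 i⟩⟩
      · exact ⟨K, fun r hr v i => abs_le.2 ⟨(hr.2.2.2 v).1 i, (hr.2.2.2 v).2 i⟩⟩
    | one => exact ⟨0, fun r hr v i => by simp [hr.1]⟩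
    | mul x y _ _ h1 h2 =>
      obtain ⟨C, hC⟩ := h1
      obtain ⟨D, hD⟩ := h2
      refine ⟨D + C, fun r hr v i => ?_⟩
      rw [hr.2.1]
      exact (abs_sub_le _ _ _).trans (add_le_add (hD r hr _ i) (hC r hr v i))
    | inv x _ h =>
      obtain ⟨C, hC⟩ := h
      refine ⟨C, fun r hr v i => ?_⟩
      have := hC r hr (r x⁻¹ v) i
      rwa [← hr.2.1, inv_mul_cancel, hr.1, abs_sub_comm] at this
  choose C hC using bd
  refine (isCompact_univ_pi fun g => isCompact_univ_pi fun v => isCompact_univ_pi fun i =>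
    (finite_Icc (v i - C g) (v i + C g)).isCompact).of_isClosed_subset ?_
    fun r hr g _ v _ i _ => by
      have := abs_le.1 (hC g r hr v i)
      constructor <;> linarith [this.1, this.2]
  simp only [YY, ofPred_and, ofPred_forall]
  refine (isClosed_iInter fun v => isClosed_eq (by fun_prop) (by fun_prop)).inter
    ((isClosed_iInter fun s => isClosed_iInter fun t => isClosed_iInter fun v =>
      isClosed_eq (by fun_prop) (cont_ev (p := fun r : G → (Fin d → ℤ) → Fin d → ℤ => r t) (fun v => by fun_prop)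
        (by fun_prop))).inter
    ((isClosed_iInter fun v => isClosed_Icc.preimage (f := fun r : G → (Fin d → ℤ) → Fin d → ℤ => r a v - v)
      (by fun_prop)).inter (isClosed_iInter fun v =>
        isClosed_Icc.preimage (f := fun r : G → (Fin d → ℤ) → Fin d → ℤ => r b v - v) (by fun_prop))))

theorem YY_ext {G : Type*} [Group G] {a b : G} (hg : Subgroup.closure {a, b} = ⊤) {d : ℕ}
    {K : ℤ} {r r' : G → (Fin d → ℤ) → Fin d → ℤ} (h : r ∈ YY a b d K) (h' : r' ∈ YY a b d K)
    (ha : r a = r' a) (hb : r b = r' b) : r = r' := by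
  funext g
  have : g ∈ Subgroup.closure {a, b} := hg ▸ trivial
  induction this using Subgroup.closure_induction with
  | mem x hx => rcases hx with rfl | rfl <;> assumption
  | one => funext v; rw [h.1, h'.1]
  | mul x y _ _ h1 h2 => funext v; rw [h.2.1, h'.2.1, h1, h2]
  | inv x _ h1 =>
    funext v
    conv_lhs => rw [← h'.1 v, ← inv_mul_cancel x, h'.2.1, ← h1, ← h.2.1, mul_inv_cancel, h.1]

abbrev ZZ {G : Type*} [Group G] (a b : G) (d : ℕ) (K : ℤ) := YY a b d K × ((Fin d → ℤ) → Bool)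

theorem subshift {G : Type*} [Group G] {a b : G} (hg : Subgroup.closure {a, b} = ⊤) (d : ℕ) (K : ℤ)
    (hK : 0 ≤ K) (hf : ∀ g : G, g ≠ 1 → ∃ r ∈ YY a b d K, ∃ v, r g v ≠ v) :
    ∃ (A : Type) (_ : Finite A) (_ : TopologicalSpace A) (_ : DiscreteTopology A)
      (X : Set ((Fin d → ℤ) → A)), X.Nonempty ∧ IsClosed X ∧
      (∀ u : Fin d → ℤ, (fun x v => x (u + v)) '' X = X) ∧
      ∃ Φ : G →* (X ≃ₜ X), Function.Injective Φ ∧ ∀ (g : G) (u : Fin d → ℤ) (x y : X),
        (y : (Fin d → ℤ) → A) = (fun v => x.1 (u + v)) →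
          ((Φ g y : X) : (Fin d → ℤ) → A) = fun v => (Φ g x).1 (u + v) := by
  let B := Icc (fun _ : Fin d => -K) fun _ => K
  haveI : CompactSpace (YY a b d K) := isCompact_iff_compactSpace.1 (YY_compact hg d K)
  let κ : (ZZ a b d K) → (Fin d → ℤ) → B × B × Bool := fun z v =>
    (⟨_, z.1.2.2.2.1 v⟩, ⟨_, z.1.2.2.2.2 v⟩, z.2 v)
  have ev : ∀ g v, Continuous fun z : ZZ a b d K => z.1.1 g v := fun g v =>
    (continuous_apply v).comp ((continuous_apply g).comp (continuous_subtype_val.comp continuous_fst))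
  have κc : Continuous κ := continuous_pi fun v =>
    (Continuous.subtype_mk ((ev a v).sub continuous_const) _).prodMk
      ((Continuous.subtype_mk ((ev b v).sub continuous_const) _).prodMk (by fun_prop))
  have κi : Function.Injective κ := fun z z' h => Prod.ext (Subtype.ext (YY_ext hg z.1.2 z'.1.2
    (funext fun v => sub_left_injective (congrArg (fun x => (x v).1.1) h))
    (funext fun v => sub_left_injective (congrArg (fun x => (x v).2.1.1) h))))
    (funext fun v => congrArg (fun x => (x v).2.2) h)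
  let σ : (Fin d → ℤ) → (ZZ a b d K) → (ZZ a b d K) := fun u z => (⟨fun g v => z.1.1 g (u + v) - u,
    fun v => by beta_reduce; rw [z.1.2.1, add_sub_cancel_left], fun s t v => by
      beta_reduce; rw [z.1.2.2.1, add_sub_cancel], fun v => by
      rw [sub_sub]; exact z.1.2.2.2.1 _, fun v => by rw [sub_sub]; exact z.1.2.2.2.2 _⟩,
    fun v => z.2 (u + v))
  have hσ : ∀ u z, κ (σ u z) = fun v => κ z (u + v) := fun u z => funext fun v =>
    Prod.ext (Subtype.ext (sub_sub _ _ _)) (Prod.ext (Subtype.ext (sub_sub _ _ _)) rfl)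
  let T : G → (ZZ a b d K) → (ZZ a b d K) := fun g z => (z.1, fun v => z.2 (z.1.1 g v))
  have Tc : ∀ g, Continuous (T g) := fun g => continuous_fst.prodMk (continuous_pi fun v =>
    cont_ev (p := fun z : (ZZ a b d K) => z.2) (fun v => by fun_prop) (ev g v))
  have T1 : ∀ z, T 1 z = z := fun z => Prod.ext rfl (funext fun v => congrArg z.2 (z.1.2.1 v))
  have T2 : ∀ s t z, T (s * t) z = T s (T t z) := fun s t z =>
    Prod.ext rfl (funext fun v => congrArg z.2 (z.1.2.2.1 s t v))
  let E : (ZZ a b d K) ≃ₜ range κ := Continuous.homeoOfEquivCompactToT2 (f := Equiv.ofInjective κ κi)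
    (κc.subtype_mk _)
  let Ψ : G → (ZZ a b d K) ≃ₜ (ZZ a b d K) := fun g =>
    { toFun := T g, invFun := T g⁻¹
      left_inv := fun z => by rw [← T2, inv_mul_cancel, T1]
      right_inv := fun z => by rw [← T2, mul_inv_cancel, T1]
      continuous_toFun := Tc g, continuous_invFun := Tc g⁻¹ }
  let Φ : G →* (range κ ≃ₜ range κ) := MonoidHom.mk' (fun g => (E.symm.trans (Ψ g)).trans E)
    fun s t => Homeomorph.ext fun x => by simp [Ψ, T2]
  have hΦ : ∀ g z, Φ g (E z) = E (T g z) := fun g z => by simp [Φ, Ψ]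
  refine ⟨B × B × Bool, inferInstance, inferInstance, inferInstance, range κ,
    ⟨_, (⟨fun _ v => v, fun _ => rfl, fun _ _ _ => rfl, fun v => ?_, fun v => ?_⟩, fun _ => true),
      rfl⟩, (isCompact_range κc).isClosed, fun u => ?_, Φ, ?_, fun g u x y h => ?_⟩
  · exact ⟨fun i => by simpa using hK, fun i => by simpa using hK⟩
  · exact ⟨fun i => by simpa using hK, fun i => by simpa using hK⟩
  · ext x
    constructor
    · rintro ⟨_, ⟨z, rfl⟩, rfl⟩; exact ⟨σ u z, hσ u z⟩
    · rintro ⟨z, rfl⟩; exact ⟨_, ⟨σ (-u) z, rfl⟩, by simp [hσ]⟩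
  · rw [injective_iff_map_eq_one]
    intro g h
    by_contra hne
    obtain ⟨r, hr, v, hv⟩ := hf g hne
    have := hΦ g (⟨r, hr⟩, fun w => decide (w = v))
    rw [h] at this
    have := congrFun (congrArg Prod.snd (E.injective this)) v
    simp [T, hv] at this
  · obtain ⟨z, rfl⟩ := E.surjective x
    obtain rfl : y = E (σ u z) := Subtype.ext (h.trans (hσ u z).symm)
    rw [hΦ, hΦ]
    change κ _ = fun v => κ _ (u + v)
    rw [← hσ]
    congr 1
    exact Prod.ext rfl (funext fun v => congrArg z.2 (add_sub_cancel _ _))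

end Pool.Agent.H63.Heis
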