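import Mathlib

set_option autoImplicit false

/-! Incrementing counter machines: a decrement may be skipped. -/

namespace Pool.Agent.H63.IC

open Function Relation

inductive Ins (R : Type)
  | inc (r : R) | dec (r : R) | zero (r : R) | out (a : Fin 3) | nop

abbrev St (R : Type) := (R → ℕ) × List (Fin 3)

section
variable {R : Type} [DecidableEq R]

def IStep : Ins R → St R → St R → Prop
  | .inc r, s, s' => s' = (update s.1 r (s.1 r + 1), s.2)
  | .dec r, s, s' => s' = s ∨ (0 < s.1 r ∧ s' = (update s.1 r (s.1 r - 1), s.2))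
  | .zero r, s, s' => s.1 r = 0 ∧ s' = s
  | .out a, s, s' => s' = (s.1, s.2 ++ [a])
  | .nop, s, s' => s' = s

def MStep {Q : Type} (Ed : Q → Ins R → Q → Prop) (c c' : Q × St R) : Prop :=
  ∃ i, Ed c.1 i c'.1 ∧ IStep i c.2 c'.2

def MLang {Q : Type} (Ed : Q → Ins R → Q → Prop) (q0 qf : Q) : Set (List (Fin 3)) :=
  {w | ∃ σ, ReflTransGen (MStep Ed) (q0, fun _ => 0, []) (qf, σ, w)}

end

def Ins.map {R R' : Type} (f : R → R') : Ins R → Ins R'
  | .inc r => .inc (f r)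
  | .dec r => .dec (f r)
  | .zero r => .zero (f r)
  | .out a => .out a
  | .nop => .nop

def Ins.regs {R : Type} : Ins R → List R
  | .inc r => [r]
  | .dec r => [r]
  | .zero r => [r]
  | .out _ => []
  | .nop => []

theorem Ins.lift {R : Type} (S : Set R) (i : Ins R) (h : ∀ r ∈ i.regs, r ∈ S) :
    ∃ i' : Ins S, i'.map Subtype.val = i := by
  cases i with
  | inc r => exact ⟨.inc ⟨r, h r (by simp [Ins.regs])⟩, rfl⟩
  | dec r => exact ⟨.dec ⟨r, h r (by simp [Ins.regs])⟩, rfl⟩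
  | zero r => exact ⟨.zero ⟨r, h r (by simp [Ins.regs])⟩, rfl⟩
  | out a => exact ⟨.out a, rfl⟩
  | nop => exact ⟨.nop, rfl⟩

theorem upd_res {R : Type} [DecidableEq R] (S : Set R) (σ : R → ℕ) (r : S) (x : ℕ) :
    (update σ r.1 x) ∘ (Subtype.val : S → R) = update (σ ∘ Subtype.val) r x := by
  funext j
  simp only [comp_apply, update_apply, Subtype.ext_iff]

theorem istep_down {R : Type} [DecidableEq R] (S : Set R) (i : Ins S) (s s' : St R)
    (h : IStep (i.map Subtype.val) s s') :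
    IStep i (s.1 ∘ Subtype.val, s.2) (s'.1 ∘ Subtype.val, s'.2) := by
  cases i <;> simp only [Ins.map, IStep] at h ⊢
  · rw [h]; simp [upd_res]
  · rcases h with rfl | ⟨h1, rfl⟩
    · exact Or.inl rfl
    · exact Or.inr ⟨h1, by simp [upd_res]⟩
  · exact ⟨h.1, by rw [h.2]⟩
  · rw [h]
  · rw [h]

theorem istep_up {R : Type} [DecidableEq R] (S : Set R) (i : Ins S) (s : St R) (t : St S)
    (h : IStep i (s.1 ∘ Subtype.val, s.2) t) :
    ∃ s', IStep (i.map Subtype.val) s s' ∧ t = (s'.1 ∘ Subtype.val, s'.2) := by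
  cases i <;> simp only [Ins.map, IStep] at h ⊢
  · exact ⟨_, rfl, by rw [h]; simp [upd_res]⟩
  · rcases h with rfl | ⟨h1, rfl⟩
    · exact ⟨_, Or.inl rfl, rfl⟩
    · exact ⟨_, Or.inr ⟨h1, rfl⟩, by simp [upd_res]⟩
  · exact ⟨_, ⟨h.1, rfl⟩, h.2⟩
  · exact ⟨_, rfl, h⟩
  · exact ⟨_, rfl, h⟩

/-- languages of finite incrementing counter machines -/
def ICL (L : Set (List (Fin 3))) : Prop :=
  ∃ (Q R : Type) (_ : Fintype Q) (_ : Fintype R) (_ : DecidableEq R) (Ed : Q → Ins R → Q → Prop)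
    (q0 qf : Q), MLang Ed q0 qf = L

theorem icl_of {Q R : Type} [DecidableEq R] (Ed : Q → Ins R → Q → Prop) (q0 qf : Q) (SQ : Set Q)
    (SR : Set R) (h1 : SQ.Finite) (h2 : SR.Finite) (h0 : q0 ∈ SQ) (hf : qf ∈ SQ)
    (hc : ∀ q ∈ SQ, ∀ i q', Ed q i q' → q' ∈ SQ ∧ ∀ r ∈ i.regs, r ∈ SR) : ICL (MLang Ed q0 qf) := by
  haveI := h1.fintype
  haveI := h2.fintype
  let Ed' : SQ → Ins SR → SQ → Prop := fun q i q' => Ed q.1 (i.map Subtype.val) q'.1
  refine ⟨SQ, SR, inferInstance, inferInstance, inferInstance, Ed', ⟨q0, h0⟩, ⟨qf, hf⟩, ?_⟩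
  have k1 : ∀ c', ReflTransGen (MStep Ed') (⟨q0, h0⟩, fun _ => 0, []) c' →
      ∃ s : St R, c'.2 = (s.1 ∘ Subtype.val, s.2) ∧
        ReflTransGen (MStep Ed) (q0, fun _ => 0, []) (c'.1.1, s) := by
    intro c' h
    induction h with
    | refl => exact ⟨(fun _ => 0, []), rfl, .refl⟩
    | tail _ hbc ih =>
      obtain ⟨s, e, hr⟩ := ih
      obtain ⟨i, g1, g2⟩ := hbc
      rw [e] at g2
      obtain ⟨s', g3, g4⟩ := istep_up SR i s _ g2
      exact ⟨s', g4, hr.tail ⟨_, g1, g3⟩⟩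
  have k2 : ∀ c, ReflTransGen (MStep Ed) (q0, fun _ => 0, []) c →
      ∃ h : c.1 ∈ SQ, ReflTransGen (MStep Ed') (⟨q0, h0⟩, fun _ => 0, [])
        (⟨c.1, h⟩, c.2.1 ∘ Subtype.val, c.2.2) := by
    intro c h
    induction h with
    | refl => exact ⟨h0, .refl⟩
    | tail _ hbc ih =>
      obtain ⟨hq, hr⟩ := ih
      obtain ⟨i, g1, g2⟩ := hbc
      obtain ⟨g3, g4⟩ := hc _ hq _ _ g1
      obtain ⟨i', rfl⟩ := i.lift SR g4
      exact ⟨g3, hr.tail ⟨i', g1, istep_down SR i' _ _ g2⟩⟩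
  ext w
  constructor
  · rintro ⟨σ, h⟩
    obtain ⟨⟨s1, s2⟩, e, hr⟩ := k1 _ h
    simp only [Prod.mk.injEq] at e
    exact ⟨s1, e.2 ▸ hr⟩
  · rintro ⟨σ, h⟩
    obtain ⟨_, hr⟩ := k2 _ h
    exact ⟨_, hr⟩

inductive Pr (R : Type)
  | ins (i : Ins R) | seq (p q : Pr R) | star (p : Pr R)

section
variable {R : Type} [DecidableEq R]

def E : Pr R → St R → St R → Prop
  | .ins i => IStep i
  | .seq p q => fun s s'' => ∃ s', E p s s' ∧ E q s' s''
  | .star p => ReflTransGen (E p)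

inductive SEd : List (Pr R) → Ins R → List (Pr R) → Prop
  | ins (i : Ins R) (K : List (Pr R)) : SEd (.ins i :: K) i K
  | seq (p q : Pr R) (K : List (Pr R)) : SEd (.seq p q :: K) .nop (p :: q :: K)
  | st0 (p : Pr R) (K : List (Pr R)) : SEd (.star p :: K) .nop K
  | st1 (p : Pr R) (K : List (Pr R)) : SEd (.star p :: K) .nop (p :: .star p :: K)

theorem run_of_E (p : Pr R) : ∀ (K : List (Pr R)) (s s' : St R), E p s s' →
    ReflTransGen (MStep SEd) (p :: K, s) (K, s') := by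
  induction p with
  | ins i => exact fun K s s' h => .single ⟨i, .ins i K, h⟩
  | seq p q ihp ihq =>
    rintro K s s'' ⟨s', h1, h2⟩
    exact .head (b := (p :: q :: K, s)) ⟨.nop, .seq p q K, rfl⟩ ((ihp _ _ _ h1).trans (ihq _ _ _ h2))
  | star p ih =>
    intro K s s' h
    induction h using ReflTransGen.head_induction_on with
    | refl => exact .single ⟨.nop, .st0 p K, rfl⟩
    | @head a b h1 _ ih2 =>
      exact .head (b := (p :: .star p :: K, a)) ⟨.nop, .st1 p K, rfl⟩ ((ih _ _ _ h1).trans ih2)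

def EK : List (Pr R) → St R → St R → Prop
  | [], s, s' => s' = s
  | p :: K, s, s'' => ∃ s', E p s s' ∧ EK K s' s''

theorem EK_of_run (c : List (Pr R) × St R) (s'' : St R)
    (h : ReflTransGen (MStep SEd) c ([], s'')) : EK c.1 c.2 s'' := by
  induction h using ReflTransGen.head_induction_on with
  | refl => rfl
  | @head a b h1 _ ih =>
    obtain ⟨K, s⟩ := a
    obtain ⟨K', s'⟩ := b
    obtain ⟨i, g1, g2⟩ := h1
    simp only at g1 g2 ih ⊢
    cases g1 with
    | ins i K => exact ⟨s', g2, ih⟩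
    | seq p q K =>
      cases g2
      obtain ⟨t, h1, t', h2, h3⟩ := ih
      exact ⟨t', ⟨t, h1, h2⟩, h3⟩
    | st0 p K => cases g2; exact ⟨_, .refl, ih⟩
    | st1 p K =>
      cases g2
      obtain ⟨t, h1, t', h2, h3⟩ := ih
      exact ⟨t', .head h1 h2, h3⟩

def cl : Pr R → List (Pr R) → List (List (Pr R))
  | .ins i, K => [.ins i :: K]
  | .seq p q, K => (.seq p q :: K) :: (cl p (q :: K) ++ cl q K)
  | .star p, K => (.star p :: K) :: cl p (.star p :: K)

def Pr.regs : Pr R → List R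
  | .ins i => i.regs
  | .seq p q => p.regs ++ q.regs
  | .star p => p.regs

omit [DecidableEq R] in
theorem cl_self (p : Pr R) (K : List (Pr R)) : p :: K ∈ cl p K := by cases p <;> simp [cl]

omit [DecidableEq R] in
theorem cl_closed (p : Pr R) : ∀ K, ∀ K1 ∈ cl p K, ∀ i K2, SEd K1 i K2 →
    (K2 ∈ cl p K ∨ K2 = K) ∧ ∀ r ∈ i.regs, r ∈ p.regs := by
  induction p with
  | ins i =>
    intro K K1 h j K2 e
    simp only [cl, List.mem_singleton] at h
    subst h
    cases e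
    exact ⟨Or.inr rfl, fun r hr => hr⟩
  | seq p q ihp ihq =>
    intro K K1 h j K2 e
    simp only [cl, List.mem_cons, List.mem_append, Pr.regs] at h ⊢
    rcases h with rfl | h | h
    · cases e
      exact ⟨Or.inl (Or.inr (Or.inl (cl_self _ _))), by simp [Ins.regs]⟩
    · obtain ⟨g1 | rfl, g2⟩ := ihp _ _ h _ _ e
      · exact ⟨Or.inl (Or.inr (Or.inl g1)), fun r hr => Or.inl (g2 r hr)⟩
      · exact ⟨Or.inl (Or.inr (Or.inr (cl_self _ _))), fun r hr => Or.inl (g2 r hr)⟩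
    · obtain ⟨g1 | rfl, g2⟩ := ihq _ _ h _ _ e
      · exact ⟨Or.inl (Or.inr (Or.inr g1)), fun r hr => Or.inr (g2 r hr)⟩
      · exact ⟨Or.inr rfl, fun r hr => Or.inr (g2 r hr)⟩
  | star p ih =>
    intro K K1 h j K2 e
    simp only [cl, List.mem_cons, Pr.regs] at h ⊢
    rcases h with rfl | h
    · cases e
      · exact ⟨Or.inr rfl, by simp [Ins.regs]⟩
      · exact ⟨Or.inl (Or.inr (cl_self _ _)), by simp [Ins.regs]⟩
    · obtain ⟨g1 | rfl, g2⟩ := ih _ _ h _ _ e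
      · exact ⟨Or.inl (Or.inr g1), g2⟩
      · exact ⟨Or.inl (Or.inl rfl), g2⟩

theorem icl_prog (p : Pr R) : ICL {w | ∃ σ, E p (fun _ => 0, []) (σ, w)} := by
  have := icl_of (SEd (R := R)) [p] [] {K | K ∈ cl p [] ∨ K = []} {r | r ∈ p.regs}
    ((List.finite_toSet _).union (Set.finite_singleton _)) (List.finite_toSet _)
    (Or.inl (cl_self _ _)) (Or.inr rfl) (by
      rintro K (h | rfl) i K2 e
      · exact cl_closed p _ _ h _ _ e
      · cases e)
  convert this using 1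
  ext w
  constructor
  · rintro ⟨σ, h⟩
    exact ⟨σ, run_of_E p [] _ _ h⟩
  · rintro ⟨σ, h⟩
    obtain ⟨s', h1, h2⟩ := EK_of_run _ _ h
    cases h2
    exact ⟨σ, h1⟩

end

end Pool.Agent.H63.IC
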