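import Pool.Agent.H63.IC1

set_option autoImplicit false

/-! Budgeted simulation of LOOP programs by incrementing counter machines. -/

namespace Pool.Agent.H63.IC

open Function Relation

abbrev Vl : Type := ℕ → ℕ
abbrev S0 : Type := St (Option ℕ)

def V (s : S0) : Vl := fun r => s.1 (some r)
def sm (N : ℕ) (v : Vl) : ℕ := ∑ r ∈ Finset.range N, v r
def T (N : ℕ) (s : S0) : ℕ := s.1 none + sm N (V s)

theorem sm_upd {N j : ℕ} (h : j < N) (v : Vl) (x : ℕ) : sm N (update v j x) + v j = sm N v + x := by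
  unfold sm
  rw [Finset.sum_update_of_mem (Finset.mem_range.2 h),
    ← Finset.add_sum_erase _ _ (Finset.mem_range.2 h), Finset.sdiff_singleton_eq_erase]
  omega

theorem le_sm {N j : ℕ} (h : j < N) (v : Vl) : v j ≤ sm N v :=
  Finset.single_le_sum (f := v) (fun _ _ => Nat.zero_le _) (Finset.mem_range.2 h)

@[simp] theorem V_none (σ : Option ℕ → ℕ) (x : ℕ) (w w' : List (Fin 3)) :
    V (update σ none x, w) = V (σ, w') := by
  funext r; simp [V]

theorem V_some (σ : Option ℕ → ℕ) (j x : ℕ) (w : List (Fin 3)) :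
    V (update σ (some j) x, w) = update (V (σ, w)) j x := by
  funext r; simp [V, update_apply]

def Prog (R : Vl → Vl → Prop) : Prop :=
  ∃ (p : Pr (Option ℕ)) (N0 : ℕ) (β : ℕ → ℕ), Primrec β ∧ Monotone β ∧ (∀ k, k ≤ β k) ∧
    ∀ N, N0 ≤ N →
      (∀ s s', E p s s' → s'.2 = s.2 ∧ T N s ≤ T N s' ∧
        (T N s' ≤ T N s → ∀ u, R (V s) u → V s' = u)) ∧
      (∀ v u, R v u → sm N u ≤ β (sm N v)) ∧
      ∀ s u, R (V s) u → β (sm N (V s)) ≤ T N s → ∃ s', E p s s' ∧ V s' = u ∧ T N s' = T N s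

variable {R R' : Vl → Vl → Prop}

theorem Prog.mono (h : Prog R) (e : ∀ v v', R' v v' → R v v') : Prog R' := by
  obtain ⟨p, N0, β, h1, h2, h3, h⟩ := h
  refine ⟨p, N0, β, h1, h2, h3, fun N hN => ?_⟩
  obtain ⟨g1, g2, g3⟩ := h N hN
  exact ⟨fun s s' k => ⟨(g1 s s' k).1, (g1 s s' k).2.1, fun k2 u k3 => (g1 s s' k).2.2 k2 u (e _ _ k3)⟩,
    fun v u k => g2 v u (e _ _ k), fun s u k => g3 s u (e _ _ k)⟩

theorem Prog.skip : Prog fun v v' => v' = v := by
  refine ⟨.ins .nop, 0, id, Primrec.id, monotone_id, fun _ => le_rfl, fun N _ => ⟨?_, ?_, ?_⟩⟩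
  · rintro s s' (rfl : s' = s)
    exact ⟨rfl, le_rfl, fun _ u h => h.symm⟩
  · rintro v u rfl; exact le_rfl
  · rintro s u rfl _; exact ⟨s, rfl, rfl, rfl⟩

theorem Prog.inc (j : ℕ) : Prog fun v v' => v' = update v j (v j + 1) := by
  refine ⟨.seq (.ins (.dec none)) (.ins (.inc (some j))), j + 1, Nat.succ, Primrec.succ,
    fun _ _ h => Nat.succ_le_succ h, Nat.le_succ, fun N hN => ⟨?_, ?_, ?_⟩⟩
  · rintro ⟨σ, w⟩ s' ⟨s1, h1, (rfl : s' = _)⟩
    have := sm_upd (show j < N by omega) (V (σ, w)) (σ (some j) + 1)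
    rcases h1 with rfl | ⟨h1, rfl⟩
    · refine ⟨rfl, ?_, fun _ u h => ?_⟩
      · simp only [T, V_some, ne_eq, reduceCtorEq, not_false_eq_true, update_of_ne] at this ⊢
        simp only [V] at this; omega
      · rw [h, V_some]; rfl
    · refine ⟨rfl, ?_, fun _ u h => ?_⟩
      · simp only [T, V_some, ne_eq, reduceCtorEq, not_false_eq_true, update_of_ne, update_self,
          V_none σ _ w w] at this h1 ⊢
        simp only [V] at this; omega
      · rw [h, V_some, V_none σ _ w w]; simp [V]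
  · rintro v u rfl
    have := sm_upd (show j < N by omega) v (v j + 1)
    simp only [Nat.succ_eq_add_one]; omega
  · rintro ⟨σ, w⟩ u rfl h
    have := sm_upd (show j < N by omega) (V (σ, w)) (σ (some j) + 1)
    have h0 : 0 < σ none := by simp only [T, Nat.succ_eq_add_one] at h; omega
    refine ⟨_, ⟨_, Or.inr ⟨h0, rfl⟩, rfl⟩, ?_, ?_⟩
    · rw [V_some, V_none σ _ w w]; simp [V]
    · simp only [T, V_some, ne_eq, reduceCtorEq, not_false_eq_true, update_of_ne, update_self,
        V_none σ _ w w] at this ⊢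
      simp only [V] at this; omega

theorem Prog.seq (h : Prog R) (h' : Prog R') : Prog fun v v'' => ∃ v', R v v' ∧ R' v' v'' := by
  obtain ⟨p, N0, β, h1, h2, h3, h⟩ := h
  obtain ⟨p', N0', β', h1', h2', h3', h'⟩ := h'
  refine ⟨.seq p p', max N0 N0', β' ∘ β, h1'.comp h1, h2'.comp h2,
    fun k => (h3 k).trans (h3' _), fun N hN => ?_⟩
  obtain ⟨g1, g2, g3⟩ := h N (le_of_max_le_left hN)
  obtain ⟨g1', g2', g3'⟩ := h' N (le_of_max_le_right hN)
  refine ⟨?_, ?_, ?_⟩
  · rintro s s'' ⟨s', k1, k2⟩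
    obtain ⟨a1, a2, a3⟩ := g1 _ _ k1
    obtain ⟨b1, b2, b3⟩ := g1' _ _ k2
    refine ⟨b1.trans a1, a2.trans b2, ?_⟩
    rintro k u ⟨v', c1, c2⟩
    exact b3 (by omega) u (by rwa [a3 (by omega) _ c1])
  · rintro v u ⟨v', c1, c2⟩
    exact (g2' _ _ c2).trans (h2' (g2 _ _ c1))
  · rintro s u ⟨v', c1, c2⟩ k
    obtain ⟨s', a1, rfl, a3⟩ := g3 s v' c1 ((h3' _).trans k)
    obtain ⟨s'', b1, b2, b3⟩ := g3' s' u c2 (a3 ▸ (h2' (g2 _ _ c1)).trans k)
    exact ⟨s'', ⟨s', a1, b1⟩, b2, b3.trans a3⟩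

theorem iter_mono {β : ℕ → ℕ} (h2 : Monotone β) (h3 : ∀ k, k ≤ β k) {a b x y : ℕ} (h : a ≤ b)
    (hx : x ≤ y) : β^[a] x ≤ β^[b] y :=
  (h2.iterate a hx).trans (Function.monotone_iterate_of_id_le h3 h y)

/-- transfer one unit from register `j` to the budget -/
def back (j : ℕ) : Pr (Option ℕ) := .seq (.ins (.dec (some j))) (.ins (.inc none))

theorem back_sound {N j : ℕ} (hj : j < N) {s s' : S0} (h : E (back j) s s') :
    s'.2 = s.2 ∧ T N s ≤ T N s' ∧
      (T N s' ≤ T N s → V s j ≠ 0 ∧ V s' = update (V s) j (V s j - 1)) := by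
  obtain ⟨σ, w⟩ := s
  obtain ⟨s1, h1, (rfl : s' = _)⟩ := h
  have := sm_upd hj (V (σ, w)) (σ (some j) - 1)
  rcases h1 with rfl | ⟨h1, rfl⟩
  · simp only [T, update_self, V_none σ _ w w]
    exact ⟨trivial, by omega, fun h => by omega⟩
  · simp only [T, update_self, V_none _ _ w w, V_some, ne_eq, reduceCtorEq, not_false_eq_true,
      update_of_ne] at this h1 ⊢
    simp only [V] at this ⊢
    exact ⟨trivial, by omega, fun _ => ⟨by omega, trivial⟩⟩

theorem back_compl {N j : ℕ} (hj : j < N) (s : S0) (h : V s j ≠ 0) :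
    ∃ s', E (back j) s s' ∧ V s' = update (V s) j (V s j - 1) ∧ T N s' = T N s := by
  obtain ⟨σ, w⟩ := s
  have := sm_upd hj (V (σ, w)) (σ (some j) - 1)
  refine ⟨_, ⟨_, Or.inr ⟨Nat.pos_of_ne_zero h, rfl⟩, rfl⟩, ?_, ?_⟩
  · rw [V_none _ _ w w, V_some]; rfl
  · simp only [T, update_self, V_none _ _ w w, V_some, ne_eq, reduceCtorEq, not_false_eq_true,
      update_of_ne] at this ⊢
    simp only [V] at this h; omega

theorem Prog.loop (j : ℕ) (h : Prog R) : Prog fun v v' => ∃ (F : ℕ → Vl) (n : ℕ), F 0 = v ∧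
    F n = v' ∧ v' j = 0 ∧ n ≤ v j ∧
      ∀ k < n, F k j ≠ 0 ∧ R (update (F k) j (F k j - 1)) (F (k + 1)) := by
  obtain ⟨p, N0, β, h1, h2, h3, h⟩ := h
  refine ⟨.seq (.star (.seq (back j) p)) (.ins (.zero (some j))), max N0 (j + 1),
    fun k => β^[k] k, (Primrec.nat_iterate Primrec.id Primrec.id (h1.comp Primrec.snd).to₂),
    fun a b hab => iter_mono h2 h3 hab hab,
    fun k => iter_mono h2 h3 (Nat.zero_le k) le_rfl, fun N hN => ?_⟩
  obtain ⟨g1, g2, g3⟩ := h N (le_of_max_le_left hN)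
  have hj : j < N := le_of_max_le_right hN
  have bd : ∀ (F : ℕ → Vl) (n : ℕ), (∀ k < n, F k j ≠ 0 ∧ R (update (F k) j (F k j - 1)) (F (k + 1))) →
      ∀ k ≤ n, sm N (F k) ≤ β^[k] (sm N (F 0)) := by
    intro F n hF k hk
    induction k with
    | zero => exact le_rfl
    | succ k ih =>
      rw [iterate_succ_apply']
      refine (g2 _ _ (hF k hk).2).trans (h2 ?_)
      have := sm_upd hj (F k) (F k j - 1)
      have := ih (by omega)
      omega
  refine ⟨?_, ?_, ?_⟩
  · rintro s s'' ⟨s', k1, k2, (rfl : s'' = s')⟩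
    have key : s''.2 = s.2 ∧ T N s ≤ T N s'' ∧ (T N s'' ≤ T N s → ∀ (F : ℕ → Vl) (n : ℕ), F 0 = V s →
        F n j = 0 → (∀ k < n, F k j ≠ 0 ∧ R (update (F k) j (F k j - 1)) (F (k + 1))) →
        ∃ k ≤ n, V s'' = F k) := by
      clear k2
      induction k1 with
      | refl => exact ⟨rfl, le_rfl, fun _ F n e _ _ => ⟨0, Nat.zero_le _, e.symm⟩⟩
      | @tail b c _ hbc ih =>
        obtain ⟨t, a1, a2⟩ := hbc
        obtain ⟨b1, b2, b3⟩ := back_sound hj a1
        obtain ⟨c1, c2, c3⟩ := g1 _ _ a2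
        obtain ⟨d1, d2, d3⟩ := ih
        refine ⟨c1.trans (b1.trans d1), by omega, fun k F n e1 e2 e3 => ?_⟩
        obtain ⟨i, hi, e⟩ := d3 (by omega) F n e1 e2 e3
        obtain ⟨f1, f2⟩ := b3 (by omega)
        have : i < n := lt_of_le_of_ne hi (by rintro rfl; exact f1 (e ▸ e2))
        exact ⟨i + 1, this, c3 (by omega) _ (by rw [f2, e]; exact (e3 i this).2)⟩
    refine ⟨key.1, key.2.1, ?_⟩
    rintro k u ⟨F, n, e1, rfl, e2, -, e3⟩
    obtain ⟨i, hi, e⟩ := key.2.2 k F n e1 e2 e3
    rcases hi.lt_or_eq with hi | rfl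
    · exact absurd (e ▸ k2 : F i j = 0) (e3 i hi).1
    · exact e
  · rintro v u ⟨F, n, rfl, rfl, -, e2, e3⟩
    exact (bd F n e3 n le_rfl).trans (iter_mono h2 h3 (e2.trans (le_sm hj _)) le_rfl)
  · rintro s u ⟨F, n, e1, rfl, e0, e2, e3⟩ k
    have key : ∀ i ≤ n, ∃ s', ReflTransGen (E (.seq (back j) p)) s s' ∧ V s' = F i ∧
        T N s' = T N s := by
      intro i hi
      induction i with
      | zero => exact ⟨s, .refl, e1.symm, rfl⟩
      | succ i ih =>
        obtain ⟨s', a1, a2, a3⟩ := ih (by omega)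
        obtain ⟨t, b1, b2, b3⟩ := back_compl hj s' (a2 ▸ (e3 i hi).1)
        obtain ⟨t', c1, c2, c3⟩ := g3 t (F (i + 1)) (by rw [b2, a2]; exact (e3 i hi).2) (by
          rw [b3, a3, b2, a2]
          refine le_trans ?_ k
          have h4 := sm_upd hj (F i) (F i j - 1)
          have h5 := bd F n e3 i (by omega)
          have h6 : β^[i + 1] (sm N (F 0)) ≤ β^[sm N (V s)] (sm N (V s)) :=
            iter_mono h2 h3 (hi.trans (e2.trans (le_sm hj _))) (by rw [e1])
          rw [iterate_succ_apply'] at h6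
          exact (h2 (by omega)).trans h6)
        exact ⟨t', a1.tail ⟨t, b1, c1⟩, c2, by omega⟩
    obtain ⟨s', a1, a2, a3⟩ := key n le_rfl
    exact ⟨s', ⟨s', a1, (a2 ▸ e0 : V s' j = 0), rfl⟩, a2, a3⟩

theorem Prog.clear (j : ℕ) : Prog fun v v' => v' = update v j 0 := by
  refine (Prog.skip.loop j).mono ?_
  rintro v _ rfl
  refine ⟨fun k => update v j (v j - k), v j, by simp, by simp, by simp, le_rfl, fun k hk => ?_⟩
  simp only [update_self, update_idem]
  exact ⟨by omega, rfl⟩

theorem Prog.move {a b : ℕ} (h : a ≠ b) :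
    Prog fun v v' => v' = fun i => if i = a then 0 else if i = b then v b + v a else v i := by
  refine ((Prog.inc b).loop a).mono ?_
  rintro v _ rfl
  refine ⟨fun k i => if i = a then v a - k else if i = b then v b + k else v i, v a, ?_, by simp,
    by simp, le_rfl, fun k hk => ⟨by simp; omega, ?_⟩⟩ <;> funext i <;> simp only [update_apply] <;>
    split_ifs <;> simp_all <;> omega

theorem Prog.add {a o t : ℕ} (h1 : a ≠ o) (h2 : a ≠ t) (h3 : o ≠ t) :
    Prog fun v v' => v t = 0 ∧ v' = update v o (v o + v a) := by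
  refine ((((Prog.inc o).seq (Prog.inc t)).loop a).seq (Prog.move h2.symm)).mono ?_
  rintro v _ ⟨h, rfl⟩
  refine ⟨_, ⟨fun k i => if i = a then v a - k else if i = o then v o + k else
    if i = t then k else v i, v a, ?_, rfl, by simp, le_rfl, fun k hk => ⟨by simp; omega, _, rfl, ?_⟩⟩, ?_⟩ <;>
    funext i <;> simp only [update_apply] <;> split_ifs <;> simp_all <;> omega

def Cmp (n : ℕ) (f : List.Vector ℕ n → ℕ) : Prop := ∀ (a : Fin n → ℕ) (o b : ℕ), (∀ i, a i < b) →
  o < b → (∀ i, a i ≠ o) → Prog fun v v' => (∀ j, b ≤ j → v j = 0) ∧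
    v' = update v o (v o + f (List.Vector.ofFn fun i => v (a i)))

theorem cmp_of {n : ℕ} {f : List.Vector ℕ n → ℕ} (hf : Nat.Primrec' f) : Cmp n f := by
  induction hf with
  | zero => exact fun a o b _ _ _ => Prog.skip.mono fun v v' h => by simp [h.2]
  | succ =>
    intro a o b h1 h2 h3
    refine ((Prog.add (t := b) (h3 0) (h1 0).ne h2.ne).seq (Prog.inc o)).mono ?_
    rintro v _ ⟨h, rfl⟩
    exact ⟨_, ⟨h b le_rfl, rfl⟩, by simp [add_assoc]⟩
  | get i =>
    intro a o b h1 h2 h3
    refine (Prog.add (t := b) (h3 i) (h1 i).ne h2.ne).mono ?_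
    rintro v _ ⟨h, rfl⟩
    exact ⟨h b le_rfl, by simp⟩
  | @comp m n f g _ _ ihf ihg =>
    intro a o b h1 h2 h3
    let G : Vl → ℕ → ℕ := fun v t =>
      if h : t < n then g ⟨t, h⟩ (List.Vector.ofFn fun i => v (a i)) else 0
    have p1 : ∀ k ≤ n, Prog fun v v' => (∀ j, b ≤ j → v j = 0) ∧
        v' = fun j => if b ≤ j ∧ j < b + k then G v (j - b) else v j := by
      intro k hk
      induction k with
      | zero => exact Prog.skip.mono fun v v' h => by rw [h.2]; funext j; rw [if_neg (by omega)]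
      | succ k ih =>
        refine ((ih (by omega)).seq (ihg ⟨k, hk⟩ a (b + k) (b + n) (fun i => by have := h1 i; omega)
          (by omega) fun i => by have := h1 i; omega)).mono ?_
        rintro v _ ⟨h, rfl⟩
        refine ⟨_, ⟨h, rfl⟩, fun j hj => by rw [if_neg (by omega), h j (by omega)], ?_⟩
        have e : ∀ i, (if b ≤ a i ∧ a i < b + k then G v (a i - b) else v (a i)) = v (a i) :=
          fun i => if_neg (by have := h1 i; omega)
        funext j
        simp only [update_apply, e]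
        split_ifs <;> first | omega | rfl | skip
        subst j
        simp [G, h (b + k), show k < n from hk]
    have p3 : ∀ k, Prog fun v v' => v' = fun j => if b ≤ j ∧ j < b + k then 0 else v j := by
      intro k
      induction k with
      | zero => exact Prog.skip.mono fun v v' h => by rw [h]; funext j; rw [if_neg (by omega)]
      | succ k ih =>
        refine (ih.seq (Prog.clear (b + k))).mono ?_
        rintro v _ rfl
        refine ⟨_, rfl, ?_⟩
        funext j
        simp only [update_apply]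
        split_ifs <;> first | omega | rfl
    refine ((p1 n le_rfl).seq ((ihf (fun i => b + i) o (b + n) (fun i => by omega) (by omega)
      fun i => by omega).seq (p3 n))).mono ?_
    rintro v _ ⟨h, rfl⟩
    refine ⟨_, ⟨h, rfl⟩, _, ⟨fun j hj => by rw [if_neg (by omega), h j (by omega)], rfl⟩, ?_⟩
    have e : ∀ i : Fin n, (if b ≤ b + i ∧ b + i < b + n then G v (b + i - b) else v (b + i)) =
        g i (List.Vector.ofFn fun i => v (a i)) := fun i => by simp [G]
    funext j
    simp only [update_apply, e]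
    split_ifs <;> first | omega | rfl | exact h j (by omega)
  | @prec n f g _ _ ihf ihg =>
    intro a o b h1 h2 h3
    have h4 : ∀ i : Fin n, a i.succ < b := fun i => h1 _
    have h0 := h1 0
    have body := (ihg (Fin.cons (b + 1) (Fin.cons b fun i => a i.succ)) (b + 3) (b + 4)
      (by simp only [Fin.forall_fin_succ, Fin.cons_zero, Fin.cons_succ]
          exact ⟨by omega, by omega, fun i => by have := h4 i; omega⟩) (by omega)
      (by simp only [Fin.forall_fin_succ, Fin.cons_zero, Fin.cons_succ]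
          exact ⟨by omega, by omega, fun i => by have := h4 i; omega⟩)).seq
      ((Prog.clear b).seq ((Prog.move (a := b + 3) (b := b) (by omega)).seq (Prog.inc (b + 1))))
    refine ((ihf (fun i => a i.succ) b (b + 4) (fun i => by have := h4 i; omega) (by omega)
      fun i => (h4 i).ne).seq ((Prog.add (a := a 0) (o := b + 2) (t := b + 4) (by omega) (by omega)
      (by omega)).seq ((body.loop (b + 2)).seq ((Prog.move h2.ne').seq (Prog.clear (b + 1)))))).mono ?_
    rintro v _ ⟨h, rfl⟩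
    let w := List.Vector.ofFn fun i : Fin n => v (a i.succ)
    let r : ℕ → ℕ := fun k => k.rec (f w) fun y IH => g (y ::ᵥ IH ::ᵥ w)
    let F : ℕ → Vl := fun k j => if j = b then r k else if j = b + 1 then k else
      if j = b + 2 then v (a 0) - k else v j
    refine ⟨_, ⟨fun j hj => h j (by omega), rfl⟩, _, ⟨by simp [h], rfl⟩, _,
      ⟨F, v (a 0), ?_, rfl, by simp [F], by simp [h0.ne], fun k hk => ⟨by simp [F]; omega, _, ⟨fun j hj => ?_, rfl⟩,
        _, rfl, _, rfl, ?_⟩⟩, _, rfl, ?_⟩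
    · funext j
      simp only [update_apply, F]
      split_ifs <;> first | omega | rfl | simp_all [r, w]
    · simp only [update_apply, F]
      split_ifs <;> first | omega | exact h j (by omega)
    · have e : (List.Vector.ofFn fun i => update (F k) (b + 2) (F k (b + 2) - 1)
          ((Fin.cons (b + 1) (Fin.cons b fun i => a i.succ) : Fin (n + 2) → ℕ) i)) =
          k ::ᵥ r k ::ᵥ w := by
        have e2 : ∀ i : Fin n, update (F k) (b + 2) (F k (b + 2) - 1) (a i.succ) = v (a i.succ) :=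
          fun i => by
            have := h4 i
            simp only [update_apply, F]
            split_ifs <;> first | omega | rfl
        simp only [List.Vector.ofFn, Fin.cons_zero, Fin.cons_succ, e2]
        simp [F, w]
      rw [e]
      funext j
      have := h (b + 3) (by omega)
      simp only [update_apply, F]
      split_ifs <;> first | omega | rfl | simp_all [r]
    · funext j
      simp only [update_apply, F, List.Vector.head_ofFn, List.Vector.tail_ofFn]
      split_ifs <;> first | omega | rfl | simpa using h j (by omega)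

end Pool.Agent.H63.IC
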