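import Pool.Agent.H63.IC2

set_option autoImplicit false

/-! Weak computation of the Ackermann functions and of their inverses; every primitive recursive
predicate is decided on the words `a^n b^n c^n` by an incrementing counter machine. -/

namespace Pool.Agent.H63.IC

open Function Relation

abbrev P0 : Type := Pr (Option ℕ)

def lp (r : Option ℕ) (p : P0) : P0 := .seq (.star (.seq (.ins (.dec r)) p)) (.ins (.zero r))

theorem star_sound {p : P0} (I : S0 → Prop) (hI : ∀ s s', I s → E p s s' → I s') {s s' : S0}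
    (h : E (.star p) s s') (h0 : I s) : I s' := by
  induction h with
  | refl => exact h0
  | tail _ h ih => exact hI _ _ ih h

theorem dec_sound {r : Option ℕ} {s s' : S0} (h : IStep (.dec r) s s') :
    s'.2 = s.2 ∧ s.1 r ≤ s'.1 r + 1 ∧ ∀ x, x ≠ r → s'.1 x = s.1 x := by
  rcases h with rfl | ⟨h, rfl⟩
  · exact ⟨rfl, by omega, fun _ _ => rfl⟩
  · exact ⟨rfl, by simp; omega, fun x hx => by simp [hx]⟩

theorem lp_sound {r : Option ℕ} {p : P0} (I : S0 → Prop)
    (hI : ∀ s s1 s2 : S0, I s → s1.2 = s.2 → s.1 r ≤ s1.1 r + 1 → (∀ x, x ≠ r → s1.1 x = s.1 x) →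
      E p s1 s2 → I s2) {s s' : S0} (h : E (lp r p) s s') (h0 : I s) : I s' ∧ s'.1 r = 0 := by
  obtain ⟨t, h1, h2, (rfl : s' = t)⟩ := h
  refine ⟨star_sound I ?_ h1 h0, h2⟩
  rintro a b ha ⟨c, k1, k2⟩
  obtain ⟨g1, g2, g3⟩ := dec_sound k1
  exact hI _ _ _ ha g1 g2 g3 k2

theorem star_compl {p : P0} (F : ℕ → S0) (n : ℕ) (h : ∀ k < n, E p (F k) (F (k + 1))) :
    E (.star p) (F 0) (F n) := by
  induction n with
  | zero => exact .refl
  | succ n ih => exact ReflTransGen.tail (ih fun k hk => h k (by omega)) (h n (by omega))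

theorem lp_compl {r : Option ℕ} {p : P0} (F : ℕ → S0) (n : ℕ) (h0 : (F n).1 r = 0)
    (h : ∀ k < n, 0 < (F k).1 r ∧ E p (update (F k).1 r ((F k).1 r - 1), (F k).2) (F (k + 1))) :
    E (lp r p) (F 0) (F n) :=
  ⟨F n, star_compl F n fun k hk => ⟨_, Or.inr ⟨(h k hk).1, rfl⟩, (h k hk).2⟩, h0, rfl⟩

def mv (a b : Option ℕ) : P0 := lp a (.ins (.inc b))

theorem mv_sound {a b : Option ℕ} (hab : a ≠ b) {s s' : S0} (h : E (mv a b) s s') :
    s'.2 = s.2 ∧ s'.1 a = 0 ∧ s.1 a + s.1 b ≤ s'.1 b ∧ ∀ r, r ≠ a → r ≠ b → s'.1 r = s.1 r := by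
  have := lp_sound (fun t => t.2 = s.2 ∧ s.1 a + s.1 b ≤ t.1 a + t.1 b ∧
    ∀ r, r ≠ a → r ≠ b → t.1 r = s.1 r) (by
      rintro t t1 t2 ⟨h1, h2, h3⟩ g1 g2 g3 (rfl : t2 = _)
      have := g3 b hab.symm
      refine ⟨g1.trans h1, by simp [hab]; omega, fun r k1 k2 => ?_⟩
      simp [k2, g3 r k1, h3 r k1 k2]) h ⟨rfl, le_rfl, fun _ _ _ => rfl⟩
  exact ⟨this.1.1, this.2, by omega, this.1.2.2⟩

def G (σ : Option ℕ → ℕ) (a b : Option ℕ) (x y : ℕ) : Option ℕ → ℕ :=
  fun r => if r = a then x else if r = b then y else σ r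

theorem mv_compl {a b : Option ℕ} (hab : a ≠ b) (σ : Option ℕ → ℕ) (x y : ℕ) (w : List (Fin 3)) :
    E (mv a b) (G σ a b x y, w) (G σ a b 0 (x + y), w) := by
  have := lp_compl (r := a) (p := .ins (.inc b)) (fun k => (G σ a b (x - k) (k + y), w)) x
    (by simp [G]) (fun k hk => ⟨by simp [G]; omega, by
      simp only [E, IStep, Prod.mk.injEq, and_true]
      funext r
      simp only [G, update_apply]
      split_ifs <;> first | omega | simp_all⟩)
  simpa [mv] using this

theorem ack_iter (m n : ℕ) : ack (m + 1) n = (ack m)^[n + 1] 1 := by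
  induction n with
  | zero => simp
  | succ n ih => rw [ack_succ_succ, ih, ← iterate_succ_apply' (ack m)]

theorem ack_it {m a b x y : ℕ} (h : a ≤ b) (hx : x ≤ y) : (ack m)^[a] x ≤ (ack m)^[b] y :=
  iter_mono (ack_mono_right m) (fun k => (lt_ack_right m k).le) h hx

def Fw : ℕ → P0
  | 0 => .ins (.inc none)
  | m + 1 => .seq (mv none (some (m + 1))) (.seq (.ins (.inc (some (m + 1))))
      (.seq (.ins (.inc none)) (lp (some (m + 1)) (Fw m))))

def Bw : ℕ → P0
  | 0 => .ins (.dec none)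
  | m + 1 => .seq (.star (.seq (Bw m) (.ins (.inc (some (m + 1)))))) (.seq (.ins (.dec none))
      (.seq (.ins (.zero none)) (.seq (.ins (.dec (some (m + 1)))) (mv (some (m + 1)) none))))

theorem Fw_sound (m : ℕ) : ∀ s s' : S0, E (Fw m) s s' → s'.2 = s.2 ∧ ack m (s.1 none) ≤ s'.1 none ∧
    ∀ j, (j = 0 ∨ m < j ∨ s.1 (some j) = 0) → s'.1 (some j) = s.1 (some j) := by
  induction m with
  | zero =>
    rintro s s' (rfl : s' = _)
    simp
  | succ m ih =>
    rintro s s' ⟨s1, h1, s2, (rfl : s2 = _), s3, (rfl : s3 = _), h2⟩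
    obtain ⟨a1, a2, a3, a4⟩ := mv_sound (by simp) h1
    have := lp_sound (fun t => t.2 = s.2 ∧
      ack (m + 1) (s.1 none) ≤ (ack m)^[t.1 (some (m + 1))] (t.1 none) ∧
      ∀ j, j ≠ m + 1 → (j = 0 ∨ m < j ∨ s.1 (some j) = 0) → t.1 (some j) = s.1 (some j)) (by
        rintro t t1 t2 ⟨b1, b2, b3⟩ g1 g2 g3 g4
        obtain ⟨c1, c2, c3⟩ := ih _ _ g4
        refine ⟨c1.trans (g1.trans b1), b2.trans ?_, fun j k1 k2 => ?_⟩
        · rw [c3 _ (by omega), ← g3 none (by simp)]
          exact (ack_it g2 le_rfl).trans (by rw [iterate_succ_apply]; exact ack_it le_rfl c2)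
        · have e := (g3 (some j) (by simpa using k1)).trans (b3 j k1 k2)
          rw [c3 j (by rw [e]; exact k2), e]) h2
      ⟨a1, by
        simp only [ne_eq, reduceCtorEq, not_false_eq_true, update_of_ne, update_self, ack_iter]
        exact ack_it (by omega) (by omega), fun j k1 _ => by
        simp only [ne_eq, reduceCtorEq, not_false_eq_true, update_of_ne, Option.some.injEq, k1]
        exact a4 _ (by simp) (by simpa using k1)⟩
    obtain ⟨⟨b1, b2, b3⟩, b4⟩ := this
    refine ⟨b1, by simpa [b4] using b2, fun j hj => ?_⟩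
    by_cases e : j = m + 1
    · subst e; omega
    · exact b3 j e (by omega)

theorem Bw_sound (m : ℕ) : ∀ s s' : S0, E (Bw m) s s' → s'.2 = s.2 ∧ s.1 none ≤ ack m (s'.1 none) ∧
    ∀ j, (j = 0 ∨ m < j) → s'.1 (some j) = s.1 (some j) := by
  induction m with
  | zero =>
    intro s s' h
    obtain ⟨g1, g2, g3⟩ := dec_sound h
    exact ⟨g1, by simpa using g2, fun j _ => g3 _ (by simp)⟩
  | succ m ih =>
    rintro s s' ⟨s1, h1, s2, h2, s3, ⟨h3, (rfl : s3 = s2)⟩, s4, h4, h5⟩
    obtain ⟨a1, a2, a3⟩ := star_sound (fun t => t.2 = s.2 ∧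
      s.1 none ≤ (ack m)^[t.1 (some (m + 1))] (t.1 none) ∧
      ∀ j, (j = 0 ∨ m + 1 < j) → t.1 (some j) = s.1 (some j)) (by
        rintro t t2 ⟨b1, b2, b3⟩ ⟨t1, g, (rfl : t2 = _)⟩
        obtain ⟨c1, c2, c3⟩ := ih _ _ g
        refine ⟨c1.trans b1, b2.trans ?_, fun j k => ?_⟩
        · simp only [update_self, ne_eq, reduceCtorEq, not_false_eq_true, update_of_ne]
          rw [c3 _ (by omega), iterate_succ_apply]
          exact ack_it le_rfl c2
        · have : j ≠ m + 1 := by omega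
          simp only [ne_eq, Option.some.injEq, this, not_false_eq_true, update_of_ne]
          rw [c3 j (by omega), b3 j k]) h1
      ⟨rfl, ack_it (Nat.zero_le _) le_rfl, fun _ _ => rfl⟩
    obtain ⟨b1, b2, b3⟩ := dec_sound h2
    obtain ⟨c1, c2, c3⟩ := dec_sound h4
    obtain ⟨d1, d2, d3, d4⟩ := mv_sound (by simp) h5
    refine ⟨d1.trans (c1.trans (b1.trans a1)), a2.trans ?_, fun j k => ?_⟩
    · rw [ack_iter]
      have := b3 (some (m + 1)) (by simp)
      exact ack_it (by omega) (by omega)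
    · have : some j ≠ some (m + 1) := by simp; omega
      rw [d4 _ this (by simp), c3 _ this, b3 _ (by simp), a3 j k]

theorem G_self (σ : Option ℕ → ℕ) (a b : Option ℕ) : G σ a b (σ a) (σ b) = σ := by
  funext r; simp only [G]; split_ifs <;> simp_all

theorem Fw_compl (m : ℕ) : ∀ (σ : Option ℕ → ℕ) (w : List (Fin 3)),
    (∀ j, 1 ≤ j → j ≤ m → σ (some j) = 0) → E (Fw m) (σ, w) (update σ none (ack m (σ none)), w) := by
  induction m with
  | zero => intro σ w _; simp [Fw, E, IStep]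
  | succ m ih =>
    intro σ w h
    have h0 := h (m + 1) (by omega) le_rfl
    have := lp_compl (r := some (m + 1)) (p := Fw m)
      (fun k => (G σ none (some (m + 1)) ((ack m)^[k] 1) (σ none + 1 - k), w)) (σ none + 1)
      (by simp [G]) (fun k hk => ⟨by simp [G]; omega, by
        convert ih _ w _ using 2
        · funext r
          simp only [G, update_apply, iterate_succ_apply']
          split_ifs <;> first | omega | simp_all
        · intro j k1 k2
          have : j ≠ m + 1 := by omega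
          simp [G, this, h j k1 (by omega)]⟩)
    have h2 := mv_compl (a := none) (b := some (m + 1)) (by simp) σ (σ none) (σ (some (m + 1))) w
    rw [G_self] at h2
    refine ⟨_, h2, _, rfl, _, rfl, ?_⟩
    convert this using 2 <;> funext r <;> simp only [G, update_apply, ack_iter] <;>
      split_ifs <;> first | omega | simp_all

theorem Bw_compl (m : ℕ) : ∀ (σ : Option ℕ → ℕ) (w : List (Fin 3)) (x : ℕ), σ none = ack m x →
    (∀ j, 1 ≤ j → j ≤ m → σ (some j) = 0) → E (Bw m) (σ, w) (update σ none x, w) := by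
  induction m with
  | zero => intro σ w x h _; simp [Bw, E, IStep, h]
  | succ m ih =>
    intro σ w x hx h
    have h0 := h (m + 1) (by omega) le_rfl
    have := star_compl (p := .seq (Bw m) (.ins (.inc (some (m + 1)))))
      (fun k => (G σ none (some (m + 1)) ((ack m)^[x + 1 - k] 1) k, w)) (x + 1)
      (fun k hk => ⟨_, ih _ w ((ack m)^[x - k] 1) (by
        simp only [G, if_true]
        rw [show x + 1 - k = x - k + 1 by omega, iterate_succ_apply']) (by
          intro j k1 k2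
          have : j ≠ m + 1 := by omega
          simp [G, this, h j k1 (by omega)]), by
        simp only [E, IStep, Prod.mk.injEq, and_true]
        funext r
        simp only [G, update_apply, show x + 1 - (k + 1) = x - k by omega]
        split_ifs <;> first | omega | simp_all⟩)
    have h2 := mv_compl (a := some (m + 1)) (b := none) (by simp) σ x 0 w
    refine ⟨(G σ none (some (m + 1)) 1 (x + 1), w), ?_, _, Or.inr ⟨by simp [G], rfl⟩, _,
      ⟨by simp [G], rfl⟩, _, Or.inr ⟨by simp [G], rfl⟩, ?_⟩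
    · convert this using 2
      · funext r; simp only [G, ← ack_iter, Nat.sub_zero]; split_ifs <;> simp_all
      · simp
    · convert h2 using 2 <;> funext r <;> simp only [G, update_apply] <;>
        split_ifs <;> first | omega | simp_all

/-- zero tests of the registers `1, …, N` -/
def zs : ℕ → P0
  | 0 => .ins .nop
  | N + 1 => .seq (zs N) (.ins (.zero (some (N + 1))))

theorem zs_iff (N : ℕ) (s s' : S0) :
    E (zs N) s s' ↔ s' = s ∧ ∀ j, 1 ≤ j → j ≤ N → s.1 (some j) = 0 := by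
  induction N generalizing s' with
  | zero => simp only [zs, E, IStep, iff_self_and]; omega
  | succ N ih =>
    simp only [zs, E, IStep, ih]
    constructor
    · rintro ⟨t, ⟨rfl, h1⟩, h2, rfl⟩
      refine ⟨rfl, fun j k1 k2 => ?_⟩
      rcases k2.lt_or_eq with k | rfl
      · exact h1 j k1 (by omega)
      · exact h2
    · rintro ⟨rfl, h⟩
      exact ⟨_, ⟨rfl, fun j k1 k2 => h j k1 (by omega)⟩, h _ (by omega) le_rfl, rfl⟩

def wd (i j k : ℕ) : List (Fin 3) := List.replicate i 0 ++ List.replicate j 1 ++ List.replicate k 2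

theorem wd_inj {i j k i' j' k' : ℕ} (h : wd i j k = wd i' j' k') : i = i' ∧ j = j' ∧ k = k' := by
  have h0 := congrArg (List.count 0) h
  have h1 := congrArg (List.count 1) h
  have h2 := congrArg (List.count 2) h
  simp [wd, List.count_replicate] at h0 h1 h2
  exact ⟨h0, h1, h2⟩

def ou (r : Option ℕ) (a : Fin 3) : P0 := lp r (.ins (.out a))

theorem ou_sound {r : Option ℕ} {a : Fin 3} {s s' : S0} (h : E (ou r a) s s') :
    ∃ k, s'.2 = s.2 ++ List.replicate k a ∧ s.1 r ≤ k ∧ ∀ x, x ≠ r → s'.1 x = s.1 x := by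
  obtain ⟨⟨k, h1, h2, h3⟩, h4⟩ := lp_sound (fun t => ∃ k, t.2 = s.2 ++ List.replicate k a ∧
    s.1 r ≤ k + t.1 r ∧ ∀ x, x ≠ r → t.1 x = s.1 x) (by
      rintro t t1 t2 ⟨k, h1, h2, h3⟩ g1 g2 g3 (rfl : t2 = _)
      exact ⟨k + 1, by simp [g1, h1, List.replicate_succ'], by simp; omega,
        fun x hx => (g3 x hx).trans (h3 x hx)⟩) h ⟨0, by simp, by simp, fun _ _ => rfl⟩
  exact ⟨k, h1, by omega, h3⟩

theorem ou_compl (r : Option ℕ) (a : Fin 3) (σ : Option ℕ → ℕ) (w : List (Fin 3)) :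
    E (ou r a) (σ, w) (update σ r 0, w ++ List.replicate (σ r) a) := by
  have := lp_compl (r := r) (p := .ins (.out a))
    (fun k => (update σ r (σ r - k), w ++ List.replicate k a)) (σ r) (by simp)
    (fun k hk => ⟨by simp; omega, by simp [E, IStep, List.replicate_succ', Nat.sub_sub]⟩)
  simpa [ou] using this

def rd : P0 := .seq (.ins (.out 0)) (.seq (.ins (.inc none)) (.ins (.inc (some 0))))

def s0 (n : ℕ) : S0 := (G (fun _ => 0) none (some 0) n n, List.replicate n 0)

theorem rd_step (n : ℕ) (t : S0) : E rd (s0 n) t ↔ t = s0 (n + 1) := by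
  simp only [rd, E, IStep, exists_eq_left, s0, List.replicate_succ']
  rw [iff_iff_eq]
  congr 2
  funext r
  simp only [G, update_apply]
  split_ifs <;> simp_all

theorem sm_one {N : ℕ} (v : Vl) (h : ∀ j, 1 ≤ j → j ≤ N → v j = 0) : sm (N + 1) v = v 0 := by
  unfold sm
  rw [Finset.sum_range_succ', Finset.sum_eq_zero fun j hj => h _ (by omega)
    (by simpa [Nat.succ_le_iff] using hj), zero_add]

theorem icl_prim {P : ℕ → Prop} (hP : PrimrecPred P) :
    ∃ L, ICL L ∧ ∀ n, wd n n n ∈ L ↔ P n := by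
  classical
  have hf : Primrec fun n => if P n then 0 else 1 := Primrec.ite hP (.const 0) (.const 1)
  obtain ⟨p, N0, β, h1, h2, h3, h⟩ := cmp_of (Nat.Primrec'.prim_iff₁.2 hf) (fun _ => 0) 1 2
    (by simp) (by simp) (by simp)
  obtain ⟨m, hm⟩ := exists_lt_ack_of_nat_primrec (Primrec.nat_iff.1 h1)
  obtain ⟨g1, -, g3⟩ := h (N0 + 1 + 1) (by omega)
  have e0 : s0 0 = (fun _ => 0, []) := by
    simp only [s0, List.replicate_zero, Prod.mk.injEq, and_true]; exact G_self _ _ _
  refine ⟨_, icl_prog (.seq (.star rd) (.seq (Fw m) (.seq p (.seq (zs (N0 + 1)) (.seq (Bw m)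
    (.seq (ou none 1) (ou (some 0) 2))))))), fun n => ⟨?_, fun hn => ?_⟩⟩
  · rintro ⟨σ, s1, a1, s2, a2, s3, a3, s4, a4, s5, a5, s6, a6, a7⟩
    obtain ⟨i, rfl⟩ := star_sound (fun t => ∃ i, t = s0 i)
      (by rintro _ t ⟨i, rfl⟩ k; exact ⟨_, (rd_step i t).1 k⟩) a1 ⟨0, e0.symm⟩
    obtain ⟨b1, b2, b3⟩ := Fw_sound m _ _ a2
    obtain ⟨c1, c2, c3⟩ := g1 _ _ a3
    obtain ⟨rfl, d⟩ := (zs_iff _ _ _).1 a4
    obtain ⟨e1, e2, e3⟩ := Bw_sound m _ _ a5
    obtain ⟨j, f1, f2, f3⟩ := ou_sound a6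
    obtain ⟨k, i1, i2, -⟩ := ou_sound a7
    obtain ⟨rfl, rfl, rfl⟩ := wd_inj (i := n) (j := n) (k := n) (i' := i) (j' := j) (k' := k)
      (by simp only at i1; rw [i1, f1, e1, c1, b1]; rfl)
    have v0 : V s2 0 = n := (b3 0 (Or.inl rfl)).trans (by simp [s0, G])
    have v1 : ∀ j, 1 ≤ j → V s2 j = 0 := fun j hj => by
      have : (s0 n).1 (some j) = 0 := by simp [s0, G]; omega
      exact (b3 j (Or.inr (Or.inr this))).trans this
    have := c3 (by
      simp only [T]
      rw [sm_one (V s4) d, sm_one _ fun j hj _ => v1 j hj, v0]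
      have k1 := f3 (some 0) (by simp)
      have k2 := e3 0 (Or.inl rfl)
      have k3 := ack_mono_right m f2
      have k4 : (s0 n).1 none = n := by simp [s0, G]
      simp only [V, k4] at b2 ⊢
      omega) _ ⟨fun j hj => v1 j (by omega), rfl⟩
    have k := d 1 le_rfl (by omega)
    have k2 := congrFun this 1
    simp only [update_self, List.Vector.head_ofFn, v0] at k2
    by_contra hn
    simp only [V, hn, if_false] at k2
    omega
  · let σ2 := update (s0 n).1 none (ack m n)
    have v1 : ∀ j, 1 ≤ j → σ2 (some j) = 0 := fun j hj => by simp [σ2, s0, G]; omega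
    have v0 : σ2 (some 0) = n := by simp [σ2, s0, G]
    have v2 : sm (N0 + 1 + 1) (V (σ2, (s0 n).2)) = n := (sm_one _ fun j hj _ => v1 j hj).trans v0
    obtain ⟨⟨σ3, w⟩, c1, c2, c3⟩ := g3 (σ2, (s0 n).2) (V (σ2, (s0 n).2)) ⟨fun j hj => v1 j (by omega), by
      have : V (σ2, (s0 n).2) 0 = n := v0
      simp [this, hn]⟩ (by
      simp only [T, v2]
      have := hm n
      simp only [σ2, update_self]; omega)
    obtain rfl : w = (s0 n).2 := (g1 _ _ c1).1
    have c4 : ∀ j, σ3 (some j) = σ2 (some j) := fun j => congrFun c2 j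
    have c5 : σ3 none = ack m n := by
      simp only [T, c2] at c3
      simpa [σ2] using c3
    refine ⟨update (update (update σ3 none n) none 0) (some 0) 0, s0 n, e0 ▸ star_compl s0 n fun k _ => (rd_step k _).2 rfl, (σ2, (s0 n).2), ?_, _, c1,
      _, (zs_iff _ _ _).2 ⟨rfl, fun j hj _ => (c4 j).trans (v1 j hj)⟩, _,
      Bw_compl m _ _ n c5 fun j hj _ => (c4 j).trans (v1 j hj), _, ou_compl _ _ _ _, ?_⟩
    · have := Fw_compl m (s0 n).1 (s0 n).2 fun j hj _ => by simp [s0, G]; omega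
      simpa [σ2, s0, G] using this
    · convert ou_compl _ _ _ _ using 2
      simp [wd, s0, c4, v0]

end Pool.Agent.H63.IC
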