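import Pool.Agent.H63.IC3

set_option autoImplicit false

/-! Primitive recursive reachability and the diagonal languages. -/

namespace Pool.Agent.H63.IC

open Function Relation

section lists
variable {β : Type}

def allL (L : List β) (k : ℕ) : List (List β) :=
  Nat.rec [[]] (fun _ r => L.flatMap fun a => r.map fun l => a :: l) k

theorem mem_allL {L : List β} {k : ℕ} {l : List β} :
    l ∈ allL L k ↔ l.length = k ∧ ∀ x ∈ l, x ∈ L := by
  induction k generalizing l with
  | zero =>
    show l ∈ [[]] ↔ _
    cases l <;> simp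
  | succ k ih =>
    show l ∈ (L.flatMap fun a => (allL L k).map fun l => a :: l) ↔ _
    cases l with
    | nil => simp
    | cons a l =>
      simp only [List.mem_flatMap, List.mem_map, List.cons.injEq, ih, List.length_cons,
        Nat.add_right_cancel_iff, List.mem_cons, forall_eq_or_imp]
      constructor
      · rintro ⟨b, hb, m, ⟨h1, h2⟩, rfl, rfl⟩
        exact ⟨h1, hb, h2⟩
      · rintro ⟨h1, hb, h2⟩
        exact ⟨a, hb, l, ⟨h1, h2⟩, rfl, rfl⟩

def subs (L : List β) : List (List β) :=
  L.foldr (fun a r => r ++ r.map fun l => a :: l) [[]]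

theorem mem_subs {L T : List β} : T ∈ subs L ↔ T.Sublist L := by
  induction L generalizing T with
  | nil => simp [subs]
  | cons a L ih =>
    show T ∈ subs L ++ (subs L).map (fun l => a :: l) ↔ _
    simp only [List.mem_append, List.mem_map, ih, List.sublist_cons_iff]
    constructor
    · rintro (h | ⟨l, h, rfl⟩)
      exacts [Or.inl h, Or.inr ⟨l, rfl, h⟩]
    · rintro (h | ⟨l, rfl, h⟩)
      exacts [Or.inl h, Or.inr ⟨l, h, rfl⟩]

end lists

attribute [fun_prop] Primrec

section basic
variable {X Y β γ : Type} [Primcodable X] [Primcodable Y] [Primcodable β] [Primcodable γ]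

@[fun_prop] theorem p_id : Primrec (fun x : X => x) := Primrec.id
@[fun_prop] theorem p_const (b : β) : Primrec (fun _ : X => b) := Primrec.const b
@[fun_prop] theorem p_comp {f : β → γ} {g : X → β} (hf : Primrec f) (hg : Primrec g) :
    Primrec (fun x => f (g x)) := hf.comp hg
@[fun_prop] theorem p_pair {f : X → β} {g : X → γ} (hf : Primrec f) (hg : Primrec g) :
    Primrec (fun x => (f x, g x)) := hf.pair hg
@[fun_prop] theorem p_fst {f : X → β × γ} (hf : Primrec f) : Primrec (fun x => (f x).1) :=
  Primrec.fst.comp hf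
@[fun_prop] theorem p_snd {f : X → β × γ} (hf : Primrec f) : Primrec (fun x => (f x).2) :=
  Primrec.snd.comp hf
@[fun_prop] theorem p_len {f : X → List β} (hf : Primrec f) : Primrec (fun x => (f x).length) :=
  Primrec.list_length.comp hf
@[fun_prop] theorem p_range {f : X → ℕ} (hf : Primrec f) : Primrec (fun x => List.range (f x)) :=
  Primrec.list_range.comp hf
@[fun_prop] theorem p_map {f : X → List β} {g : X → β → γ} (hf : Primrec f)
    (hg : Primrec (fun p : X × β => g p.1 p.2)) : Primrec (fun x => (f x).map (g x)) :=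
  Primrec.list_map hf hg
@[fun_prop] theorem p_flatMap {f : X → List β} {g : X → β → List γ} (hf : Primrec f)
    (hg : Primrec (fun p : X × β => g p.1 p.2)) : Primrec (fun x => (f x).flatMap (g x)) :=
  Primrec.list_flatMap hf hg
@[fun_prop] theorem p_cons {f : X → β} {g : X → List β} (hf : Primrec f) (hg : Primrec g) :
    Primrec (fun x => f x :: g x) := Primrec.list_cons.comp hf hg
@[fun_prop] theorem p_append {f g : X → List β} (hf : Primrec f) (hg : Primrec g) :
    Primrec (fun x => f x ++ g x) := Primrec.list_append.comp hf hg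

@[fun_prop] theorem p_allL {f : X → List β} {g : X → ℕ} (hf : Primrec f) (hg : Primrec g) :
    Primrec (fun x => allL (f x) (g x)) :=
  Primrec.nat_rec' (g := fun _ => [[]])
    (h := fun x (r : ℕ × List (List β)) => (f x).flatMap fun a => r.2.map fun l => a :: l)
    hg (.const _) (show Primrec _ by fun_prop)

@[fun_prop] theorem p_subs {f : X → List β} (hf : Primrec f) : Primrec (fun x => subs (f x)) :=
  Primrec.list_foldr (g := fun _ => [[]])
    (h := fun _ (r : β × List (List β)) => r.2 ++ r.2.map fun l => r.1 :: l)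
    hf (.const _) (show Primrec _ by fun_prop)

theorem pall {L : X → List β} {P : X → β → Prop} (hL : Primrec L)
    (hP : PrimrecPred fun p : X × β => P p.1 p.2) : PrimrecPred fun x => ∀ a ∈ L x, P x a :=
  (PrimrecRel.forall_mem_list (R := fun a x => P x a)
    (hP.comp (Primrec.snd.pair Primrec.fst))).comp hL Primrec.id

theorem pex {L : X → List β} {P : X → β → Prop} (hL : Primrec L)
    (hP : PrimrecPred fun p : X × β => P p.1 p.2) : PrimrecPred fun x => ∃ a ∈ L x, P x a :=
  (PrimrecRel.exists_mem_list (R := fun a x => P x a)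
    (hP.comp (Primrec.snd.pair Primrec.fst))).comp hL Primrec.id

theorem peq {f g : X → β} (hf : Primrec f) (hg : Primrec g) : PrimrecPred fun x => f x = g x :=
  Primrec.eq.comp hf hg

theorem pmem {f : X → β} {L : X → List β} (hf : Primrec f) (hL : Primrec L) :
    PrimrecPred fun x => f x ∈ L x :=
  (pex (P := fun x a => f x = a) hL (peq (by fun_prop) (by fun_prop))).of_eq (by simp)

theorem pimp {p q : X → Prop} (hp : PrimrecPred p) (hq : PrimrecPred q) :
    PrimrecPred fun x => p x → q x :=
  (hp.not.or hq).of_eq fun _ => imp_iff_not_or.symm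


@[fun_prop] theorem p_repl {f : X → ℕ} {g : X → β} (hf : Primrec f) (hg : Primrec g) :
    Primrec (fun x => List.replicate (f x) (g x)) :=
  (show Primrec fun x => (List.range (f x)).map fun _ => g x by fun_prop).of_eq (by simp)

theorem reach_prim {U : X → List β} {stp : X → β → β → Prop} {s t : X → β} (hU : Primrec U)
    (h : PrimrecPred fun p : X × β × β => stp p.1 p.2.1 p.2.2) (hs : Primrec s) (ht : Primrec t) :
    PrimrecPred fun x => ReflTransGen (fun a b => b ∈ U x ∧ stp x a b) (s x) (t x) := by
  classical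
  have : PrimrecPred fun x => t x = s x ∨ ∀ A ∈ subs (U x),
      (∀ b ∈ U x, ∀ a ∈ s x :: A, stp x a b → b ∈ A) → t x ∈ A :=
    (peq ht hs).or (pall (by fun_prop) (pimp (pall (by fun_prop) (pall (by fun_prop)
      (pimp (h.comp (f := fun q : ((X × List β) × β) × β => (q.1.1.1, q.2, q.1.2)) (by fun_prop))
        (pmem (by fun_prop) (by fun_prop))))) (pmem (by fun_prop) (by fun_prop))))
  refine this.of_eq fun x => ⟨?_, fun k => ?_⟩
  · rintro (e | k)
    · rw [e]
    · have := k ((U x).filter fun b => ReflTransGen (fun a b => b ∈ U x ∧ stp x a b) (s x) b)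
        (mem_subs.2 List.filter_sublist) (by
          intro b hb a ha hab
          simp only [List.mem_cons, List.mem_filter, decide_eq_true_eq] at ha ⊢
          rcases ha with rfl | ha
          · exact ⟨hb, .single ⟨hb, hab⟩⟩
          · exact ⟨hb, ha.2.tail ⟨hb, hab⟩⟩)
      simpa using (List.mem_filter.1 this).2
  · generalize t x = y at k
    induction k with
    | refl => exact Or.inl rfl
    | tail _ k ih =>
      refine Or.inr fun A hA hc => hc _ k.1 _ ?_ k.2
      rcases ih with rfl | ih
      · simp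
      · exact List.mem_cons_of_mem _ (ih A hA hc)

theorem ppair {L : X → List β} {R : X → β → β → Prop} (hL : Primrec L)
    (h : PrimrecPred fun p : X × β × β => R p.1 p.2.1 p.2.2) :
    PrimrecPred fun x => (L x).Pairwise (R x) := by
  have : PrimrecPred fun x => ∀ a ∈ L x, ∀ b ∈ L x, [a, b] ∈ subs (L x) → R x a b :=
    pall hL (pall (by fun_prop) (pimp (pmem (by fun_prop) (by fun_prop))
      (h.comp (f := fun q : (X × β) × β => (q.1.1, q.1.2, q.2)) (by fun_prop))))
  refine this.of_eq fun x => ?_
  rw [List.pairwise_iff_forall_sublist]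
  exact ⟨fun k a b hab => k a (hab.subset (by simp)) b (hab.subset (by simp)) (mem_subs.2 hab),
    fun k a _ b _ hab => k (mem_subs.1 hab)⟩

end basic

theorem diag {C : Type} [Primcodable C] [Inhabited C] (M : C → ℕ → Prop)
    (hM : PrimrecPred fun p : C × ℕ => M p.1 p.2) :
    ∃ L, ICL L ∧ ∀ c, ∃ n, 0 < n ∧ ¬ (wd n n n ∈ L ↔ M c n) := by
  have : Primrec fun n : ℕ => (((Encodable.decode (n - 1) : Option C).getD default), n) :=
    (Primrec.option_getD.comp (Primrec.decode.comp (Primrec.nat_sub.comp .id (.const 1)))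
      (.const _)).pair .id
  obtain ⟨L, h1, h2⟩ := icl_prim (hM.comp this).not
  refine ⟨L, h1, fun c => ⟨Encodable.encode c + 1, by omega, ?_⟩⟩
  rw [h2]
  simp

theorem reach_map {V : Type} {e : V → ℕ} (he : Injective e) {st : List V → List V → Prop}
    {stp : List ℕ → List ℕ → Prop} (h : ∀ u v', stp (u.map e) v' → ∃ v, v' = v.map e ∧ st u v)
    {s t : List V} (k : ReflTransGen stp (s.map e) (t.map e)) : ReflTransGen st s t := by
  have : ∀ y, ReflTransGen stp (s.map e) y → ∃ v, y = v.map e ∧ ReflTransGen st s v := by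
    intro y k
    induction k with
    | refl => exact ⟨s, rfl, .refl⟩
    | tail _ k ih =>
      obtain ⟨v, rfl, g⟩ := ih
      obtain ⟨v', rfl, g'⟩ := h _ _ k
      exact ⟨v', rfl, g.tail g'⟩
  obtain ⟨v, g1, g2⟩ := this _ k
  rwa [(List.map_injective_iff.2 he) g1]

def cw (a b c n : ℕ) : List ℕ := List.replicate n a ++ List.replicate n b ++ List.replicate n c

theorem cw_eq {V : Type} (e : V → ℕ) (ι : Fin 3 → V) (n : ℕ) :
    cw (e (ι 0)) (e (ι 1)) (e (ι 2)) n = ((wd n n n).map ι).map e := by simp [cw, wd]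

/-- diagonalisation against all length-non-decreasing systems with a primitive recursive coding -/
theorem diag_mono {C : Type} [Primcodable C] [Inhabited C] (stp : C → List ℕ → List ℕ → Prop)
    (h : PrimrecPred fun p : C × List ℕ × List ℕ => stp p.1 p.2.1 p.2.2) :
    ∃ L, ICL L ∧ ∀ (V : Type) [Fintype V] (ι : Fin 3 → V) (st : List V → List V → Prop)
      (ax : List V), (∀ u v, st u v → u.length ≤ v.length) →
      (∀ e : V → ℕ, Injective e → ∃ c, (∀ u v, st u v → stp c (u.map e) (v.map e)) ∧
        ∀ u v', stp c (u.map e) v' → ∃ v, v' = v.map e ∧ st u v) →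
      ∃ n, 0 < n ∧ ¬ (wd n n n ∈ L ↔ ReflTransGen st ax ((wd n n n).map ι)) := by
  let U : ℕ → List ℕ → List (List ℕ) := fun K w =>
    (List.range (w :: [] ++ w.map fun _ => []).length).flatMap fun i => allL (List.range K) i
  obtain ⟨L, h1, h2⟩ := diag (C := C × List ℕ × ℕ × ℕ × ℕ × ℕ) (fun c n => ReflTransGen
    (fun a b => b ∈ U c.2.2.1 (cw c.2.2.2.1 c.2.2.2.2.1 c.2.2.2.2.2 n) ∧ stp c.1 a b) c.2.1
      (cw c.2.2.2.1 c.2.2.2.2.1 c.2.2.2.2.2 n))
    (reach_prim (by simp only [U, cw]; fun_prop) (h.comp
      (f := fun q : ((C × List ℕ × ℕ × ℕ × ℕ × ℕ) × ℕ) × List ℕ × List ℕ => (q.1.1.1, q.2))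
        (by fun_prop)) (by fun_prop) (by simp only [cw]; fun_prop))
  refine ⟨L, h1, fun V _ ι st ax g1 g2 => ?_⟩
  let e : V → ℕ := fun x => Fintype.equivFin V x
  have he : Injective e := Fin.val_injective.comp (Fintype.equivFin V).injective
  obtain ⟨c, g3, g4⟩ := g2 e he
  obtain ⟨n, hn, k⟩ := h2 (c, ax.map e, Fintype.card V, e (ι 0), e (ι 1), e (ι 2))
  refine ⟨n, hn, fun k2 => k (k2.trans ?_)⟩
  simp only [cw_eq]
  generalize (wd n n n).map ι = w
  refine ⟨fun k3 => ?_, fun k3 => reach_map he g4 (ReflTransGen.mono (fun _ _ h => h.2) _ _ k3)⟩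
  have : ∀ u, ReflTransGen st u w → u.length ≤ w.length ∧ ReflTransGen
      (fun a b => b ∈ U (Fintype.card V) (w.map e) ∧ stp c a b) (u.map e) (w.map e) := by
    intro u k
    induction k using ReflTransGen.head_induction_on with
    | refl => exact ⟨le_rfl, .refl⟩
    | @head a b k _ ih =>
      refine ⟨(g1 _ _ k).trans ih.1, .head ⟨?_, g3 _ _ k⟩ ih.2⟩
      simp only [U, List.mem_flatMap, List.mem_range, mem_allL]
      refine ⟨_, ?_, rfl, ?_⟩
      · have := ih.1
        simp; omega
      · simp only [List.mem_map]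
        rintro _ ⟨x, -, rfl⟩
        exact (Fintype.equivFin V x).2
  exact (this _ k3).2

end Pool.Agent.H63.IC
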