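import Mathlib

set_option autoImplicit false
open Finset Fintype Filter Topology

namespace Pool.Agent.H63.IsoSh
noncomputable section
open Classical

variable {d : ℕ}

abbrev G (d : ℕ) := Fin d → ℤ

def bx (d : ℕ) (a b : ℤ) : Finset (G d) := piFinset fun _ => Ico a b

theorem mem_bx {a b : ℤ} {v : G d} : v ∈ bx d a b ↔ ∀ i, a ≤ v i ∧ v i < b := by simp [bx]

theorem card_bx (a b : ℤ) : (bx d a b).card = (b - a).toNat ^ d := by simp [bx]

theorem approx {S : Set (G d → ℤ)} {y : G d → ℤ} (h : y ∈ closure S) (s : Finset (G d)) :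
    ∃ z ∈ S, ∀ v ∈ s, z v = y v := by
  have : IsOpen (⋂ v ∈ s, (fun z : G d → ℤ => z v) ⁻¹' {y v}) :=
    isOpen_biInter_finset fun v _ => (isOpen_discrete _).preimage (continuous_apply v)
  obtain ⟨z, a, b⟩ := mem_closure_iff.1 h _ this (by simp)
  exact ⟨z, b, by simpa using a⟩

theorem closed_of {C : Set (G d → ℤ)}
    (h : ∀ y, (∀ s : Finset (G d), ∃ z ∈ C, ∀ v ∈ s, z v = y v) → y ∈ C) : IsClosed C :=
  isClosed_of_closure_subset fun y hy => h y (approx hy)

theorem ex_weight (s : Finset (G d)) (c : G d → ℝ) (h : ∃ v ∈ s, c v ≠ 0) :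
    ∃ w : G d → ℝ, (∀ v, 0 < w v) ∧ (∀ u v, w (u + v) = w u * w v) ∧ ∑ v ∈ s, w v * c v ≠ 0 := by
  let χ : G d → Multiplicative (Fin d → ℝ) →* ℝ := fun v =>
    { toFun := fun t => Real.exp (∑ i, t.toAdd i * v i)
      map_one' := by simp
      map_mul' := fun a b => by simp [add_mul, sum_add_distrib, Real.exp_add] }
  have inj : Function.Injective χ := fun u v e => funext fun i => by
    have := DFunLike.congr_fun e (Multiplicative.ofAdd (Pi.single i 1))
    simpa [χ, Pi.single_apply] using this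
  have li := (linearIndependent_monoidHom (Multiplicative (Fin d → ℝ)) ℝ).comp χ inj
  by_contra hc
  push Not at hc
  obtain ⟨v, hv, h⟩ := h
  refine h (linearIndependent_iff'.1 li s c (funext fun t => ?_) v hv)
  have := hc (fun v => Real.exp (∑ i, t.toAdd i * v i)) (fun _ => Real.exp_pos _)
    (fun u v => by simp [mul_add, sum_add_distrib, Real.exp_add])
  simpa [χ, mul_comm] using this

def occ (N : ℕ) (p y : G d → ℤ) (u : G d) : Prop := ∀ v ∈ bx d 0 N, y (u + v) = p v

variable {X : Set (G d → ℤ)} {A : Finset ℤ}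

theorem elim (hA : ∀ x ∈ X, ∀ v, x v ∈ A) (hs : ∀ u, ∀ x ∈ X, (fun v => x (u + v)) ∈ X)
    {x : G d → ℤ} (hx : x ∈ X) (hd : X ⊆ closure (Set.range fun u v => x (u + v)))
    (r N : ℕ) {p q : G d → ℤ} (hq : q ∈ X)
    (hpq : ∀ v ∈ bx d 0 N, v ∉ bx d (2 * r) (N - 2 * r) → p v = q v) (w : G d → ℝ)
    (w0 : ∀ v, 0 < w v) (w1 : ∀ u v, w (u + v) = w u * w v)
    (w2 : 0 < ∑ v ∈ bx d 0 N, w v * (p v - q v)) :
    ∃ (y : G d → ℤ) (M : ℕ), IsCompact (closure (Set.range fun u v => y (u + v))) ∧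
      (∀ z ∈ closure (Set.range fun u v => y (u + v)), (∀ v, z v ∈ A) ∧
        (∃ x ∈ X, ∀ v ∈ bx d (-r) (r + 1), z v = x v) ∧
        ∀ s : Finset (G d), (∀ u ∈ s, occ N p z u) → s.card ≤ M) ∧
      ∀ x ∈ X, ∃ u, ∀ v ∈ bx d (-r) (r + 1), y (u + v) = x v := by
  let XL : Set (G d → ℤ) := {y | (∀ v, y v ∈ A) ∧
    ∀ u, ∃ x ∈ X, ∀ v ∈ bx d (-r) (r + 1), y (u + v) = x v}
  have cl : IsClosed XL := closed_of fun y h => ⟨fun v => by
      obtain ⟨z, a, b⟩ := h {v}; rw [← b v (by simp)]; exact a.1 v, fun u => by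
      obtain ⟨z, a, b⟩ := h ((bx d (-r) (r + 1)).image (u + ·))
      obtain ⟨x, c, e⟩ := a.2 u
      exact ⟨x, c, fun v hv => by rw [← b _ (mem_image_of_mem _ hv), e v hv]⟩⟩
  have cp : IsCompact XL := (isCompact_univ_pi fun _ => (A.finite_toSet).isCompact).of_isClosed_subset
    cl fun y h v _ => h.1 v
  have fin : ((fun (x : G d → ℤ) (v : bx d (-r) (r + 1)) => x v) '' X).Finite :=
    (Set.Finite.pi' fun _ => A.finite_toSet).subset (by rintro _ ⟨x, h, rfl⟩ v; exact hA x h _)
  have : ∀ π : bx d (-r) (r + 1) → ℤ, ∃ u, π ∈ (fun (x : G d → ℤ) (v : bx d (-r) (r + 1)) => x v) '' X →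
      ∀ v : bx d (-r) (r + 1), x (u + v) = π v := fun π => by
    by_cases h : π ∈ (fun (x : G d → ℤ) (v : bx d (-r) (r + 1)) => x v) '' X
    · obtain ⟨z, hz, rfl⟩ := h
      obtain ⟨_, ⟨u, rfl⟩, e⟩ := approx (hd hz) (bx d (-r) (r + 1))
      exact ⟨u, fun _ v => e v v.2⟩
    · exact ⟨0, fun h' => absurd h' h⟩
  choose U hU using this
  let W : Finset (G d) := fin.toFinset.biUnion fun π => (bx d (-r) (r + 1)).image (U π + ·)
  let S : Set (G d → ℤ) := {y | y ∈ XL ∧ ∀ v ∈ W, y v = x v}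
  let T : ℕ → Set (G d → ℤ) := fun k => {y | y ∈ S ∧ ∀ u ∈ bx d (-k) k,
    (∀ v ∈ bx d 0 N, u + v ∉ W) → ¬ occ N p y u}
  have clS : IsClosed S := closed_of fun y h => ⟨cl.closure_subset_iff.2 le_rfl (by
      rw [mem_closure_iff_nhds]
      intro t ht
      rw [nhds_pi, Filter.mem_pi'] at ht
      obtain ⟨I, t', a, b⟩ := ht
      obtain ⟨z, c, e⟩ := h I
      exact ⟨z, b fun i hi => e i hi ▸ mem_of_mem_nhds (a i), c.1⟩), fun v hv => by
      obtain ⟨z, a, b⟩ := h {v}; rw [← b v (by simp)]; exact a.2 v hv⟩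
  have clT : ∀ k, IsClosed (T k) := fun k => by
    refine clS.inter (closed_of fun y h u hu hW o => ?_)
    obtain ⟨z, a, b⟩ := h ((bx d 0 N).image (u + ·))
    exact a u hu hW fun v hv => by rw [b _ (mem_image_of_mem _ hv), o v hv]
  have cpS : IsCompact S := cp.of_isClosed_subset clS fun _ h => h.1
  have neT : ∀ k, (T k).Nonempty := fun k => by
    obtain ⟨y, hy, hm⟩ := cpS.exists_isMinOn ⟨x, ⟨hA x hx, fun u => ⟨_, hs u x hx, fun _ _ => rfl⟩⟩,
      fun _ _ => rfl⟩ (f := fun y => ∑ v ∈ bx d (-k) (k + N), w v * (y v : ℝ))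
      (continuous_finsetSum _ fun v _ => continuous_const.mul
        (continuous_of_discreteTopology.comp (continuous_apply v))).continuousOn
    refine ⟨y, hy, fun u hu hW o => ?_⟩
    let y' : G d → ℤ := fun v => if v - u ∈ bx d 0 N then q (v - u) else y v
    have hy' : y' ∈ S := by
      refine ⟨⟨fun v => ?_, fun t => ?_⟩, fun v hv => ?_⟩
      · simp only [y']; split_ifs
        · exact hA q hq _
        · exact hy.1.1 v
      · by_cases e : ∃ v ∈ bx d (-r) (r + 1), t + v - u ∈ bx d (2 * r) (N - 2 * r)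
        · obtain ⟨v0, a, b⟩ := e
          refine ⟨_, hs (t - u) q hq, fun v hv => ?_⟩
          simp only [y']
          rw [if_pos, add_sub_right_comm]
          rw [mem_bx] at a b hv ⊢
          intro i
          have := a i; have := b i; have := hv i
          simp only [Pi.sub_apply, Pi.add_apply] at *
          omega
        · push Not at e
          obtain ⟨z, a, b⟩ := hy.1.2 t
          refine ⟨z, a, fun v hv => ?_⟩
          simp only [y']
          split_ifs with c
          · rw [← hpq _ c (e v hv), ← o _ c, ← b v hv]; congr 1; abel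
          · exact b v hv
      · simp only [y']
        rw [if_neg fun c => hW _ c (by simpa using hv)]
        exact hy.2 v hv
    have h1 := hm hy'
    have sub : (bx d 0 N).image (u + ·) ⊆ bx d (-k) (k + N) := fun v hv => by
      obtain ⟨t, a, rfl⟩ := mem_image.1 hv
      rw [mem_bx] at a hu ⊢
      intro i
      have := a i; have := hu i
      simp only [Pi.add_apply]; omega
    have h2 : ∑ v ∈ bx d (-k) (k + N), w v * ((y v : ℝ) - y' v) =
        w u * ∑ v ∈ bx d 0 N, w v * (p v - q v) := by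
      rw [← sum_subset sub (fun v _ hv => by
        simp only [y']
        rw [if_neg fun c => hv (mem_image.2 ⟨_, c, by simp⟩)]; simp),
        sum_image (fun a _ b _ e => add_left_cancel e), mul_sum]
      refine sum_congr rfl fun v hv => ?_
      simp only [y', add_sub_cancel_left, if_pos hv, o v hv, w1]; ring
    simp only [mul_sub, sum_sub_distrib] at h2 w2
    have := mul_pos (w0 u) w2
    simp only [Set.mem_ofPred_eq] at h1
    rw [mul_sub] at this
    linarith
  obtain ⟨y, hy⟩ := IsCompact.nonempty_iInter_of_sequence_nonempty_isCompact_isClosed T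
    (fun k y h => ⟨h.1, fun u hu => h.2 u (by
      rw [mem_bx] at hu ⊢; intro i; have := hu i; omega)⟩) neT
    (cpS.of_isClosed_subset (clT 0) fun _ h => h.1) clT
  rw [Set.mem_iInter] at hy
  have yS := (hy 0).1
  have sub : closure (Set.range fun u v => y (u + v)) ⊆ XL := cl.closure_subset_iff.2 (by
    rintro _ ⟨u, rfl⟩
    refine ⟨fun v => yS.1.1 _, fun t => ?_⟩
    simpa only [← add_assoc] using yS.1.2 (u + t))
  refine ⟨y, (W ×ˢ bx d 0 N).card, cp.of_isClosed_subset isClosed_closure sub, fun z hz =>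
    ⟨(sub hz).1, by simpa using (sub hz).2 0, fun s h => ?_⟩, fun z hz => ?_⟩
  · obtain ⟨_, ⟨t, rfl⟩, e⟩ := approx hz (s.biUnion fun u => (bx d 0 N).image (u + ·))
    rw [← card_image_of_injective s (add_right_injective t)]
    refine le_trans (card_le_card fun a ha => ?_) (card_image_le (f := fun z => z.1 - z.2))
    obtain ⟨u, hu, rfl⟩ := mem_image.1 ha
    by_contra c
    refine (hy (univ.sup (fun i => ((t + u) i).natAbs) + 1)).2 (t + u) (mem_bx.2 fun i => ?_)
      (fun v hv b => c (mem_image.2 ⟨(_, v), mem_product.2 ⟨b, hv⟩, by simp⟩)) fun v hv => ?_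
    · have := le_sup (f := fun i => ((t + u) i).natAbs) (mem_univ i)
      omega
    · rw [← h u hu v hv, ← e _ (mem_biUnion.2 ⟨u, hu, mem_image_of_mem _ hv⟩), add_assoc]
  · have hm : (fun v : bx d (-r) (r + 1) => z v) ∈ fin.toFinset := fin.mem_toFinset.2 ⟨z, hz, rfl⟩
    refine ⟨U fun v => z v, fun v hv => ?_⟩
    rw [yS.2 _ (mem_biUnion.2 ⟨_, hm, mem_image_of_mem _ hv⟩)]
    exact hU _ ⟨z, hz, rfl⟩ ⟨v, hv⟩

def LL (X : Set (G d → ℤ)) (N : ℕ) : Set (bx d 0 N → ℤ) := (fun (x : G d → ℤ) (v : bx d 0 N) => x v) '' X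

def Fq (X : Set (G d → ℤ)) (N : ℕ) : Set (bx d 0 N → ℤ) :=
  {π | ∀ M : ℕ, ∃ x ∈ X, ∃ s : Finset (G d), M < s.card ∧ ∀ u ∈ s, ∀ v : bx d 0 N, x (u + v) = π v}

theorem LL_fin (hA : ∀ x ∈ X, ∀ v, x v ∈ A) (N : ℕ) : (LL X N).Finite :=
  (Set.Finite.pi' fun _ => A.finite_toSet).subset (by rintro _ ⟨x, h, rfl⟩ v; exact hA x h _)

theorem count (hA : ∀ x ∈ X, ∀ v, x v ∈ A) (hs : ∀ u, ∀ x ∈ X, (fun v => x (u + v)) ∈ X)
    (N : ℕ) (hN : 0 < N) (F : Finset (bx d 0 N → ℤ)) (hF : ∀ π ∈ Fq X N, π ∈ F) :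
    ∃ C : ℝ, ∀ L : ℕ, Real.log (LL X L).ncard ≤
      ((L / N + 1) ^ d : ℕ) * (Real.log (F.card + 1) + 1) + C := by
  have : ∀ π : bx d 0 N → ℤ, ∃ M : ℕ, π ∉ F → ∀ x ∈ X, ∀ s : Finset (G d),
      (∀ u ∈ s, ∀ v : bx d 0 N, x (u + v) = π v) → s.card ≤ M := fun π => by
    by_cases h : π ∈ Fq X N
    · exact ⟨0, fun c => absurd (hF π h) c⟩
    · simp only [Fq, Set.mem_ofPred_eq] at h
      push Not at h
      obtain ⟨M, h⟩ := h
      refine ⟨M, fun _ x hx s e => ?_⟩
      by_contra c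
      obtain ⟨u, a, v, b⟩ := h x hx s (by omega)
      exact b (e u a v)
  choose M hM using this
  let P := (LL_fin hA N).toFinset
  let K := ∑ π ∈ P, M π
  refine ⟨Real.log ((K + 1) * (K.factorial * Real.exp 1) * (P.card + 1) ^ K), fun L => ?_⟩
  set m := L / N + 1 with hm
  let pos : (Fin d → Fin m) → G d := fun t i => N * (t i).val
  have pinj : Function.Injective pos := fun t t' e => funext fun i => Fin.ext (by
    have := congrFun e i
    simp only [pos] at this
    exact_mod_cast mul_left_cancel₀ (by exact_mod_cast hN.ne') this)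
  let g : (G d → ℤ) → (Fin d → Fin m) → bx d 0 N → ℤ := fun x t v => x (pos t + v)
  let H : Finset ((Fin d → Fin m) → bx d 0 N → ℤ) := (range (K + 1)).biUnion fun j =>
    (powersetCard j univ).biUnion fun s => piFinset fun t => if t ∈ s then P else F
  have h1 : g '' X ⊆ H := by
    rintro _ ⟨x, hx, rfl⟩
    have gP : ∀ t, g x t ∈ P := fun t => (LL_fin hA N).mem_toFinset.2 ⟨_, hs (pos t) x hx, rfl⟩
    simp only [H, mem_coe, mem_biUnion, mem_range, mem_powersetCard, mem_piFinset]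
    refine ⟨_, ?_, univ.filter fun t => g x t ∉ F, ⟨subset_univ _, rfl⟩, fun t => ?_⟩
    · rw [card_eq_sum_card_fiberwise (f := g x) (t := P) (fun t _ => gP t), Nat.lt_succ_iff]
      refine sum_le_sum fun π _ => ?_
      by_cases c : π ∈ F
      · rw [card_eq_zero.2]; · exact Nat.zero_le _
        rw [filter_eq_empty_iff]
        rintro t a rfl
        exact (mem_filter.1 a).2 c
      · rw [← card_image_of_injective _ pinj]
        refine hM π c x hx _ fun u hu v => ?_
        obtain ⟨t, a, rfl⟩ := mem_image.1 hu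
        exact congrFun (mem_filter.1 a).2 v
    · split_ifs with c
      · exact gP t
      · simpa using c
  have n0 : (0 : ℤ) < N := by exact_mod_cast hN
  have h2 : (LL X L).ncard ≤ H.card := by
    let dec : ((Fin d → Fin m) → bx d 0 N → ℤ) → bx d 0 L → ℤ := fun γ v =>
      γ (fun i => ⟨(v.1 i).toNat / N, by
        have := mem_bx.1 v.2 i
        exact Nat.lt_succ_of_le (Nat.div_le_div_right (by omega))⟩)
        ⟨fun i => v.1 i % N, mem_bx.2 fun i => ⟨Int.emod_nonneg _ n0.ne', Int.emod_lt_of_pos _ n0⟩⟩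
    have : LL X L = dec '' (g '' X) := by
      rw [LL, Set.image_image]
      refine Set.image_congr fun x _ => funext fun v => congrArg x (funext fun i => ?_)
      have := (mem_bx.1 v.2 i).1
      simp only [pos, Pi.add_apply, Int.natCast_div, Int.toNat_of_nonneg this]
      exact (Int.mul_ediv_add_emod _ _).symm
    rw [this, ← Set.ncard_coe_finset]
    exact (Set.ncard_image_le ((H.finite_toSet).subset h1)).trans
      (Set.ncard_le_ncard h1 H.finite_toSet)
  have cT : Fintype.card (Fin d → Fin m) = m ^ d := by simp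
  have h3 : H.card ≤ (K + 1) * ((m ^ d + 1) ^ K * ((P.card + 1) ^ K * (F.card + 1) ^ (m ^ d))) := by
    refine card_biUnion_le.trans ((sum_le_card_nsmul _ _ ((m ^ d + 1) ^ K * ((P.card + 1) ^ K *
      (F.card + 1) ^ (m ^ d))) fun j hj => ?_).trans_eq (by simp))
    have hj : j ≤ K := Nat.lt_succ_iff.1 (mem_range.1 hj)
    refine card_biUnion_le.trans ((sum_le_card_nsmul _ _
      ((P.card + 1) ^ K * (F.card + 1) ^ (m ^ d)) fun s h => ?_).trans ?_)
    · rw [card_piFinset, prod_congr rfl (g := fun t => if t ∈ s then P.card else F.card)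
        (fun t _ => by split_ifs <;> rfl), prod_ite]
      simp only [prod_const, filter_mem_eq_inter, univ_inter, (mem_powersetCard.1 h).2]
      refine Nat.mul_le_mul ((Nat.pow_le_pow_left (Nat.le_succ _) _).trans
        (Nat.pow_le_pow_right (by omega) hj)) ((Nat.pow_le_pow_left (Nat.le_succ _) _).trans
        (Nat.pow_le_pow_right (by omega) (cT ▸ card_le_univ _)))
    · rw [card_powersetCard, card_univ, cT, smul_eq_mul]
      exact Nat.mul_le_mul_right _ ((Nat.choose_le_pow _ _).trans ((Nat.pow_le_pow_left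
        (Nat.le_succ _) _).trans (Nat.pow_le_pow_right (by omega) hj)))
  generalize m ^ d = T at *
  have h4 : ((T : ℝ) + 1) ^ K ≤ K.factorial * Real.exp (T + 1) := by
    have := Real.pow_div_factorial_le_exp ((T : ℝ) + 1) (by positivity) K
    rwa [div_le_iff₀ (by positivity), mul_comm] at this
  have h5 : ((LL X L).ncard : ℝ) ≤ (K + 1) * ((T + 1) ^ K * ((P.card + 1) ^ K * (F.card + 1) ^ T)) := by
    exact_mod_cast h2.trans h3
  have h6 : (1 : ℝ) ≤ (K + 1) * ((T + 1) ^ K * ((P.card + 1) ^ K * (F.card + 1) ^ T)) := by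
    exact_mod_cast Nat.succ_le_of_lt (by positivity)
  have h7 : Real.log (LL X L).ncard ≤
      Real.log ((K + 1) * ((T + 1) ^ K * ((P.card + 1) ^ K * (F.card + 1) ^ T))) := by
    rcases Nat.eq_zero_or_pos (LL X L).ncard with e | e
    · rw [e]; simpa using Real.log_nonneg h6
    · exact Real.log_le_log (by exact_mod_cast e) h5
  refine h7.trans ?_
  rw [Real.log_le_iff_le_exp (by positivity), Real.exp_add, Real.exp_log (by positivity), mul_add,
    Real.exp_add, Real.exp_nat_mul, Real.exp_log (by positivity), mul_one]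
  rw [Real.exp_add] at h4
  calc _ ≤ (K + 1) * ((K.factorial * (Real.exp T * Real.exp 1)) *
      ((P.card + 1) ^ K * ((F.card : ℝ) + 1) ^ T)) := by gcongr
    _ = _ := by ring

theorem ent_zero (hd : 1 ≤ d) (hA : ∀ x ∈ X, ∀ v, x v ∈ A)
    (hs : ∀ u, ∀ x ∈ X, (fun v => x (u + v)) ∈ X) (r : ℕ)
    (h : ∀ N : ℕ, ∀ π ∈ Fq X N, ∀ π' ∈ Fq X N,
      (∀ v : bx d 0 N, v.1 ∉ bx d (2 * r) (N - 2 * r) → π v = π' v) → π = π') :
    Tendsto (fun n : ℕ => Real.log (LL X n).ncard / (n : ℝ) ^ d) atTop (𝓝 0) := by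
  have sub : ∀ N, Fq X N ⊆ LL X N := fun N π hπ => by
    obtain ⟨x, hx, s, a, b⟩ := hπ 0
    obtain ⟨u, hu⟩ := card_pos.1 a
    exact ⟨_, hs u x hx, funext (b u hu)⟩
  let F := fun N => ((LL_fin hA N).subset (sub N)).toFinset
  have hF : ∀ N : ℕ, 4 * r ≤ N → (F N).card ≤ A.card ^ (N ^ d - (N - 4 * r) ^ d) := fun N hN => by
    let B := bx d 0 N \ bx d (2 * r) (N - 2 * r)
    have : (F N).card ≤ (piFinset fun _ : B => A).card := by
      refine card_le_card_of_injOn (fun π (v : B) => π ⟨v.1, (mem_sdiff.1 v.2).1⟩) (fun π hπ => ?_)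
        fun π a π' b e => h N π (by simpa [F] using a) π' (by simpa [F] using b) fun v hv =>
          congrFun e ⟨v.1, mem_sdiff.2 ⟨v.2, hv⟩⟩
      obtain ⟨x, hx, rfl⟩ := sub N (by simpa [F] using hπ)
      simpa using fun v _ => hA x hx v
    rw [card_piFinset, prod_const, card_univ, Fintype.card_coe, card_sdiff_of_subset (fun v hv => by
      rw [mem_bx] at hv ⊢; intro i; have := hv i; omega), card_bx, card_bx] at this
    convert this using 4 <;> omega
  have t1 : Tendsto (fun N : ℕ => 2 ^ d * ((1 - (1 - 4 * r / (N : ℝ)) ^ d) * Real.log (A.card + 1) +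
      2 / (N : ℝ))) atTop (𝓝 0) := by
    have := (((((tendsto_const_div_atTop_nhds_zero_nat (4 * r : ℝ)).const_sub 1).pow d).const_sub
      1).mul_const (Real.log (A.card + 1))).add (tendsto_const_div_atTop_nhds_zero_nat (2 : ℝ))
    simpa using this.const_mul ((2 : ℝ) ^ d)
  rw [tendsto_order]
  refine ⟨fun a ha => Eventually.of_forall fun n => ha.trans_le (by
    have := Real.log_natCast_nonneg (LL X n).ncard; positivity), fun η hη => ?_⟩
  obtain ⟨N, h1, h2⟩ := ((t1.eventually (gt_mem_nhds (half_pos hη))).and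
    (eventually_ge_atTop (4 * r + 1))).exists
  obtain ⟨C, hC⟩ := count hA hs N (by omega) (F N) (fun π a => by simpa [F] using a)
  have N1 : (1 : ℝ) ≤ N := by exact_mod_cast (by omega : 1 ≤ N)
  have b1 : Real.log ((F N).card + 1) + 1 ≤ N ^ d * ((1 - (1 - 4 * r / (N : ℝ)) ^ d) *
      Real.log (A.card + 1) + 2 / (N : ℝ)) := by
    have e1 : (F N).card + 1 ≤ 2 * (A.card + 1) ^ (N ^ d - (N - 4 * r) ^ d) := by
      have := (hF N (by omega)).trans (Nat.pow_le_pow_left (Nat.le_add_right _ 1) _)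
      have : 0 < (A.card + 1) ^ (N ^ d - (N - 4 * r) ^ d) := by positivity
      omega
    have e2 : Real.log ((F N).card + 1) ≤ Real.log (2 * (A.card + 1) ^ (N ^ d - (N - 4 * r) ^ d)) :=
      Real.log_le_log (by positivity) (by exact_mod_cast e1)
    rw [Real.log_mul (by norm_num) (by positivity), Real.log_pow,
      Nat.cast_sub (Nat.pow_le_pow_left (Nat.sub_le _ _) _), Nat.cast_pow, Nat.cast_pow,
      Nat.cast_sub (by omega)] at e2
    have e3 : ((N : ℝ) - (4 * r : ℕ)) ^ d = N ^ d * (1 - 4 * r / (N : ℝ)) ^ d := by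
      rw [← mul_pow]; congr 1; push_cast; field_simp
    have e4 : 2 ≤ (N : ℝ) ^ d * (2 / N) := by
      have : (N : ℝ) ^ 1 ≤ N ^ d := pow_le_pow_right₀ N1 hd
      rw [← mul_div_assoc, le_div_iff₀ (by linarith)]; nlinarith
    have := Real.log_two_lt_d9
    rw [e3] at e2
    nlinarith
  filter_upwards [(tendsto_const_div_atTop_nhds_zero_nat |C|).eventually (gt_mem_nhds (half_pos hη)),
    eventually_ge_atTop N] with L c1 c2
  have L1 : (N : ℝ) ≤ L := by exact_mod_cast c2
  have L0 : (0 : ℝ) < L := by linarith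
  have c3 : (((L / N + 1) ^ d : ℕ) : ℝ) * N ^ d ≤ 2 ^ d * L ^ d := by
    have : (L / N + 1) * N ≤ 2 * L := by have := Nat.div_mul_le_self L N; nlinarith
    rw [← mul_pow]
    exact_mod_cast (mul_pow _ _ _).symm.trans_le (Nat.pow_le_pow_left this d)
  have c4 : |C| / (L : ℝ) ^ d ≤ |C| / L := by
    have : (L : ℝ) ^ 1 ≤ L ^ d := pow_le_pow_right₀ (by linarith) hd
    rw [pow_one] at this
    gcongr
  have c5 := le_abs_self C
  have c6 : 0 ≤ Real.log ((F N).card + 1) := Real.log_nonneg (by simp)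
  have c7 : 0 ≤ (1 - (1 - 4 * r / (N : ℝ)) ^ d) * Real.log (A.card + 1) + 2 / (N : ℝ) :=
    nonneg_of_mul_nonneg_right (by linarith) (by positivity : (0 : ℝ) < N ^ d)
  generalize (1 - (1 - 4 * r / (N : ℝ)) ^ d) * Real.log (A.card + 1) + 2 / (N : ℝ) = β at *
  have c8 : (((L / N + 1) ^ d : ℕ) : ℝ) * (Real.log ((F N).card + 1) + 1) ≤ 2 ^ d * L ^ d * β := by
    refine (mul_le_mul_of_nonneg_left b1 (by positivity)).trans ?_
    rw [← mul_assoc]; gcongr
  rw [div_lt_iff₀ (by positivity)]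
  rw [div_le_iff₀ (by positivity)] at c4
  have c9 : 0 < (L : ℝ) ^ d := by positivity
  nlinarith [hC L, mul_lt_mul_of_pos_right c1 c9, mul_lt_mul_of_pos_right h1 c9]

end
end Pool.Agent.H63.IsoSh
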