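import Mathlib

set_option autoImplicit false

namespace Pool.Agent.H63.JG

open List

/-- one jumping derivation step for the rule set `R` -/
def JStep {A : Type} (R : List A × List A → Prop) (x y : List A) : Prop :=
  ∃ r, R r ∧ ∃ u v u' v' : List A, x = u ++ r.1 ++ v ∧ y = u' ++ r.2 ++ v' ∧ u ++ v = u' ++ v'

def CS {T N : Type} (r : List (Symbol T N) × List (Symbol T N)) : Prop :=
  ∃ (α β γ : List (Symbol T N)) (A : N), γ ≠ [] ∧
    r.1 = α ++ [Symbol.nonterminal A] ++ β ∧ r.2 = α ++ γ ++ β

def vmap {T C : Type} (Ok : C → Prop) : Symbol T {c // Ok c} → Symbol T C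
  | .terminal a => .terminal a
  | .nonterminal c => .nonterminal c.1

theorem vmap_inj {T C : Type} (Ok : C → Prop) : Function.Injective (vmap (T := T) Ok) := by
  intro a b h
  cases a <;> cases b <;> simp_all [vmap]
  exact Subtype.ext h

theorem lift_word {T C : Type} (Ok : C → Prop) (l : List (Symbol T C))
    (h : ∀ c, Symbol.nonterminal c ∈ l → Ok c) : ∃ l', map (vmap Ok) l' = l := by
  induction l with
  | nil => exact ⟨[], rfl⟩
  | cons a l ih =>
    obtain ⟨l', hl⟩ := ih fun c hc => h c (mem_cons_of_mem _ hc)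
    cases a with
    | terminal a => exact ⟨.terminal a :: l', by simp [vmap, hl]⟩
    | nonterminal c => exact ⟨.nonterminal ⟨c, h c (by simp)⟩ :: l', by simp [vmap, hl]⟩

theorem map_term {T C : Type} (Ok : C → Prop) (w : List T) :
    map (vmap Ok) (w.map Symbol.terminal) = (w.map Symbol.terminal : List (Symbol T C)) := by
  simp [Function.comp_def, vmap]

theorem restrict {T C : Type} [Fintype T] (Ok : C → Prop) (hfin : {c | Ok c}.Finite)
    (R : List (Symbol T C) × List (Symbol T C) → Prop) (K : ℕ) (S : C) (hS : Ok S)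
    (hR : ∀ r, R r → r.1.length ≤ K ∧ r.2.length ≤ K ∧
      (∀ c, Symbol.nonterminal c ∈ r.1 → Ok c) ∧ (∀ c, Symbol.nonterminal c ∈ r.2 → Ok c) ∧ CS r) :
    ∃ (N' : Type) (_ : Fintype N') (S' : N') (P' : Finset (List (Symbol T N') × List (Symbol T N'))),
      (∀ r ∈ P', CS r) ∧ ∀ w : List T,
        Relation.ReflTransGen (JStep (· ∈ P')) [Symbol.nonterminal S'] (w.map Symbol.terminal) ↔
        Relation.ReflTransGen (JStep R) [Symbol.nonterminal S] (w.map Symbol.terminal) := by
  classical
  haveI : Finite {c // Ok c} := hfin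
  haveI : Fintype {c // Ok c} := Fintype.ofFinite _
  let f := vmap (T := T) Ok
  have finj : Function.Injective (map f) := map_injective_iff.2 (vmap_inj Ok)
  let Q : Set (List (Symbol T {c // Ok c}) × List (Symbol T {c // Ok c})) :=
    {r | R (map f r.1, map f r.2)}
  have hQ : Q.Finite := by
    refine ((List.finite_length_le (Symbol T {c // Ok c}) K).prod
      (List.finite_length_le (Symbol T {c // Ok c}) K)).subset ?_
    intro r hr
    obtain ⟨h1, h2, -⟩ := hR _ hr
    exact ⟨by simpa using h1, by simpa using h2⟩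
  refine ⟨{c // Ok c}, inferInstance, ⟨S, hS⟩, hQ.toFinset, ?_, ?_⟩
  · intro r hr
    rw [Set.Finite.mem_toFinset] at hr
    obtain ⟨-, -, -, -, α, β, γ, A, hγ, h1, h2⟩ := hR _ hr
    simp only at h1 h2
    obtain ⟨l1, β', e1, e2, hβ⟩ := map_eq_append_iff.1 h1
    obtain ⟨α', m, e3, hα, hm⟩ := map_eq_append_iff.1 e2
    obtain ⟨l2, β'', g1, g2, hβ'⟩ := map_eq_append_iff.1 h2
    obtain ⟨α'', γ', g3, hα', hγ'⟩ := map_eq_append_iff.1 g2
    have a1 : α'' = α' := finj (hα'.trans hα.symm)
    have a2 : β'' = β' := finj (hβ'.trans hβ.symm)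
    obtain ⟨c, rfl, hc⟩ := map_eq_singleton_iff.1 hm
    cases c with
    | terminal a => simp [f, vmap] at hc
    | nonterminal c =>
      refine ⟨α', β', γ', c, ?_, by rw [e1, e3], by rw [g1, g3, a1, a2]⟩
      rintro rfl
      exact hγ (by simpa using hγ'.symm)
  · intro w
    constructor
    · intro h
      have key : ∀ z, Relation.ReflTransGen (JStep (· ∈ hQ.toFinset))
            [Symbol.nonterminal ⟨S, hS⟩] z →
            Relation.ReflTransGen (JStep R) [Symbol.nonterminal S] (map f z) := by
        intro z hz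
        induction hz with
        | refl => exact .refl
        | tail _ hab ih =>
          obtain ⟨r, hr, u, v, u', v', h1, h2, h3⟩ := hab
          have hr := (Set.Finite.mem_toFinset hQ).1 hr
          refine ih.tail ⟨_, hr, map f u, map f v, map f u', map f v', by simp [h1], by simp [h2], ?_⟩
          rw [← map_append, h3, map_append]
      have := key _ h
      rw [map_term] at this
      exact this
    · intro h
      have key : ∀ z, Relation.ReflTransGen (JStep R) [Symbol.nonterminal S] z →
          ∃ z', map f z' = z ∧ Relation.ReflTransGen (JStep (· ∈ hQ.toFinset))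
            [Symbol.nonterminal ⟨S, hS⟩] z' := by
        intro z hz
        induction hz with
        | refl => exact ⟨_, rfl, .refl⟩
        | tail _ hbc ih =>
          obtain ⟨z', hz', hd⟩ := ih
          obtain ⟨r, hr, u, v, u', v', h1, h2, h3⟩ := hbc
          rw [h1] at hz'
          obtain ⟨l1, v0, e1, e2, hv⟩ := map_eq_append_iff.1 hz'
          obtain ⟨u0, x0, e3, hu, hx⟩ := map_eq_append_iff.1 e2
          obtain ⟨y0, hy⟩ := lift_word Ok r.2 (hR r hr).2.2.2.1
          have : map f (u0 ++ v0) = u' ++ v' := by rw [map_append, hu, hv, h3]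
          obtain ⟨u1, v1, e4, hu1, hv1⟩ := map_eq_append_iff.1 this
          refine ⟨u1 ++ y0 ++ v1, by rw [map_append, map_append, hu1, hv1, h2]; rw [hy], ?_⟩
          refine hd.tail ⟨(x0, y0), ?_, u0, v0, u1, v1, by rw [e1, e3], rfl, e4⟩
          refine (Set.Finite.mem_toFinset hQ).2 ?_
          show R (map f x0, map f y0)
          rw [hx, hy]; exact hr
      obtain ⟨z', hz', hd⟩ := key _ h
      have : z' = w.map Symbol.terminal := finj (hz'.trans (map_term Ok w).symm)
      rw [← this]; exact hd

end Pool.Agent.H63.JG
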