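import Pool.Agent.H63.JG1

set_option autoImplicit false

namespace Pool.Agent.H63.JG

open List

structure MD (V : Type) where
  x1 : List V
  c : V
  x2 : List V
  y : List V

def MD.x {V : Type} (d : MD V) : List V := d.x1 ++ d.c :: d.x2

inductive Cell (V : Type)
  | p (v : V)
  | M (d : MD V)
  | L (a b : ℕ) (y : List V) (o : Option (MD V))

section
variable {T N : Type}

abbrev Sy (T N : Type) := Symbol T (Cell (Symbol T N))

def plain : Sy T N → Prop
  | .terminal _ => True
  | .nonterminal (.p _) => True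
  | .nonterminal (.M _) => False
  | .nonterminal (.L _ _ _ _) => False

def PL (l : List (Sy T N)) : Prop := ∀ c ∈ l, plain c

def pc (v : Symbol T N) : Sy T N := .nonterminal (.p v)
def mc (d : MD (Symbol T N)) : Sy T N := .nonterminal (.M d)
def lc (a b : ℕ) (y : List (Symbol T N)) (o : Option (MD (Symbol T N))) : Sy T N :=
  .nonterminal (.L a b y o)

def dec (S : N) : Sy T N → Symbol T N
  | .terminal a => .terminal a
  | .nonterminal (.p v) => v
  | .nonterminal (.M d) => d.c
  | .nonterminal (.L _ _ _ _) => .nonterminal S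

def XB (d : MD (Symbol T N)) : List (Sy T N) := map pc d.x1 ++ mc d :: map pc d.x2

variable (S : N) (P : List (Symbol T N) × List (Symbol T N) → Prop) (K : ℕ)

def rule (d : MD (Symbol T N)) : Prop := P (d.x, d.y)

def Semi (c : Sy T N) : Prop := plain c ∨ ∃ d, rule P d ∧ c = mc d

def Tgt (y : List (Symbol T N)) : Option (MD (Symbol T N)) → List (Sy T N) → Prop
  | none, Y => map (dec S) Y = y ∧
      (PL Y ∨ ∃ y1 d y2, PL y1 ∧ PL y2 ∧ rule P d ∧ Y = y1 ++ mc d :: y2)
  | some d, Y => ∃ y1 y2, PL y1 ∧ PL y2 ∧ rule P d ∧ map (dec S) (y1 ++ y2) = y ∧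
      Y = y1 ++ XB d ++ y2

def Good (a b : ℕ) (y : List (Symbol T N)) (o : Option (MD (Symbol T N))) : Prop :=
  a ≤ K ∧ b ≤ 2 * K ∧ y.length ≤ K ∧ ∀ d, o = some d → rule P d

inductive HR : List (Sy T N) × List (Sy T N) → Prop
  | jump (d : MD (Symbol T N)) : rule P d → HR (XB d, XB d)
  | start (d : MD (Symbol T N)) (α β : List (Sy T N)) (A : Cell (Symbol T N)) : rule P d →
      XB d = α ++ .nonterminal A :: β → HR (XB d, α ++ lc α.length β.length d.y none :: β)
  | pass (d d' : MD (Symbol T N)) : rule P d → rule P d' →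
      HR (XB d ++ map pc d'.x, map pc d.x1 ++
        lc d.x1.length (d.x2.length + d'.x.length) d.y (some d') :: (map pc d.x2 ++ map pc d'.x))
  | convL (s t β : List (Sy T N)) (A : Cell (Symbol T N)) (c : Sy T N) (y : List (Symbol T N))
      (o : Option (MD (Symbol T N))) : plain c → (∀ e ∈ s ++ .nonterminal A :: t, Semi P e) →
      (∀ e ∈ β, Semi P e) → Good P K (s.length + 1 + t.length) β.length y o →
      HR ((s ++ .nonterminal A :: t) ++ lc (s.length + 1 + t.length) β.length y o :: β,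
        (s ++ c :: t) ++ lc (s.length + 1 + t.length) β.length y o :: β)
  | convR (α s t : List (Sy T N)) (A : Cell (Symbol T N)) (c : Sy T N) (y : List (Symbol T N))
      (o : Option (MD (Symbol T N))) : plain c → (∀ e ∈ α, Semi P e) →
      (∀ e ∈ s ++ .nonterminal A :: t, Semi P e) →
      Good P K α.length (s.length + 1 + t.length) y o →
      HR (α ++ lc α.length (s.length + 1 + t.length) y o :: (s ++ .nonterminal A :: t),
        α ++ lc α.length (s.length + 1 + t.length) y o :: (s ++ c :: t))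
  | fin (Y1 seg Y2 : List (Sy T N)) (y : List (Symbol T N)) (o : Option (MD (Symbol T N))) :
      seg ≠ [] → Tgt S P y o (Y1 ++ seg ++ Y2) → Good P K Y1.length Y2.length y o →
      HR (Y1 ++ lc Y1.length Y2.length y o :: Y2, Y1 ++ seg ++ Y2)

/-! basic list lemmas -/

theorem align {A : Type} {q : A → Prop} {u v u' v' : List A} {a a' : A}
    (h : u ++ a :: v = u' ++ a' :: v') (hu : ∀ c ∈ u, q c) (hv : ∀ c ∈ v, q c) (ha : ¬ q a') :
    u = u' ∧ a = a' ∧ v = v' := by
  rcases append_eq_append_iff.1 h with ⟨w, h1, h2⟩ | ⟨w, h1, h2⟩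
  · cases w with
    | nil => simp at h1 h2; exact ⟨h1.symm, h2.1, h2.2⟩
    | cons b w =>
      simp only [cons_append, cons.injEq] at h2
      exact absurd (hv a' (by rw [h2.2]; simp)) ha
  · cases w with
    | nil => simp at h1 h2; exact ⟨h1, h2.1.symm, h2.2.symm⟩
    | cons b w =>
      simp only [cons_append, cons.injEq] at h2
      exact absurd (hu a' (by rw [h1, h2.1]; simp)) ha

theorem inside {A : Type} {q : A → Prop} {u B v s t : List A} {m : A}
    (h : u ++ B ++ v = s ++ m :: t) (hu : ∀ c ∈ u, q c) (hv : ∀ c ∈ v, q c) (hm : ¬ q m) :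
    ∃ s' t', B = s' ++ m :: t' ∧ s = u ++ s' ∧ t = t' ++ v := by
  rcases append_eq_append_iff.1 h with ⟨w, h1, h2⟩ | ⟨w, h1, h2⟩
  · exact absurd (hv m (by rw [h2]; simp)) hm
  · cases w with
    | nil =>
      simp only [nil_append] at h2
      exact absurd (hv m (by rw [← h2]; simp)) hm
    | cons b w =>
      simp only [cons_append, cons.injEq] at h2
      obtain ⟨rfl, rfl⟩ := h2
      rcases append_eq_append_iff.1 h1 with ⟨w', h3, h4⟩ | ⟨w', h3, h4⟩
      · exact ⟨w', w, h4, h3, rfl⟩
      · cases w' with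
        | nil => simp at h3 h4; exact ⟨[], w, by simp [h4], by simp [h3], rfl⟩
        | cons b' w' =>
          simp only [cons_append, cons.injEq] at h4
          exact absurd (hu m (by rw [h3, h4.1]; simp)) hm

theorem repl {A : Type} {s1 t1 s t : List A} {c m : A} (a : A)
    (h : s1 ++ c :: t1 = s ++ m :: t) (hc : c ≠ m) :
    ∃ s' t', s1 ++ a :: t1 = s' ++ m :: t' ∧ s'.length = s.length ∧ t'.length = t.length := by
  rcases append_eq_append_iff.1 h with ⟨w, h1, h2⟩ | ⟨w, h1, h2⟩
  · cases w with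
    | nil => simp at h2; exact absurd h2.1 hc
    | cons b w =>
      simp only [cons_append, cons.injEq] at h2
      refine ⟨s1 ++ a :: w, t, by simp [h2.2], by simp [h1], rfl⟩
  · cases w with
    | nil => simp at h2; exact absurd h2.1.symm hc
    | cons b w =>
      simp only [cons_append, cons.injEq] at h2
      refine ⟨s, w ++ a :: t1, by simp [h1, h2.1], rfl, by simp [h2.2]⟩

theorem PL_pc (l : List (Symbol T N)) : PL (map pc l) := by
  intro c hc
  obtain ⟨v, -, rfl⟩ := mem_map.1 hc
  trivial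

theorem PL_append {u v : List (Sy T N)} : PL (u ++ v) ↔ PL u ∧ PL v := by
  simp [PL, or_imp, forall_and]

theorem dec_pc (l : List (Symbol T N)) : map (dec S) (map pc l) = l := by
  simp [Function.comp_def, dec, pc]

theorem dec_XB (d : MD (Symbol T N)) : map (dec S) (XB d) = d.x := by
  simp [XB, MD.x, Function.comp_def, dec, pc, mc]

theorem np_mc (d : MD (Symbol T N)) : ¬ plain (mc d) := fun h => h
theorem np_lc (a b : ℕ) (y : List (Symbol T N)) (o : Option (MD (Symbol T N))) :
    ¬ plain (lc a b y o) := fun h => h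

/-! soundness -/

def Der (z : List (Symbol T N)) : Prop :=
  Relation.ReflTransGen (JStep P) [Symbol.nonterminal S] z

def Pre (x s : List (Symbol T N)) : Prop := ∃ s1 s2, s = s1 ++ s2 ∧ Der S P (s1 ++ x ++ s2)

theorem Pre.post {x y s : List (Symbol T N)} (h : Pre S P x s) (hr : P (x, y))
    (t1 t2 : List (Symbol T N)) (ht : s = t1 ++ t2) : Der S P (t1 ++ y ++ t2) := by
  obtain ⟨s1, s2, h1, h2⟩ := h
  exact h2.tail ⟨(x, y), hr, s1, s2, t1, t2, rfl, rfl, h1.symm.trans ht⟩

def Rest (z : List (Sy T N)) : Prop :=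
  (PL z ∧ Der S P (map (dec S) z)) ∨
  ∃ u d v, z = u ++ mc d :: v ∧ PL u ∧ PL v ∧ rule P d ∧
    ∀ u' v', u = u' ++ map pc d.x1 → v = map pc d.x2 ++ v' → Pre S P d.x (map (dec S) (u' ++ v'))

def NoL (c : Sy T N) : Prop := ∀ a b y o, c ≠ lc a b y o

def MG (B : List (Sy T N)) : Prop :=
  ∀ s d t, B = s ++ mc d :: t → s.length = d.x1.length ∧ t.length = d.x2.length

def Lock (z : List (Sy T N)) : Prop :=
  ∃ u α y o β v, z = u ++ (α ++ lc α.length β.length y o :: β) ++ v ∧ PL u ∧ PL v ∧
    (∀ c ∈ α, NoL c) ∧ (∀ c ∈ β, NoL c) ∧ MG (α ++ lc α.length β.length y o :: β) ∧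
    ∀ Y, Tgt S P y o Y → ∀ u' v', u ++ v = u' ++ v' → Rest S P (u' ++ Y ++ v')

theorem plain_NoL {c : Sy T N} (h : plain c) : NoL c := by
  rintro a b y o rfl
  exact h

theorem mc_NoL (d : MD (Symbol T N)) : NoL (mc d) := by
  intro a b y o h
  simp [mc, lc] at h

theorem MG_XB (d : MD (Symbol T N)) : MG (XB d) := by
  intro s d' t h
  obtain ⟨h1, h2, h3⟩ := align (q := plain) h (PL_pc _) (PL_pc _) (np_mc d')
  have : d = d' := by simpa [mc] using h2
  subst this
  rw [← h1, ← h3]; simp

theorem MG_repl {s t : List (Sy T N)} {a c : Sy T N} (h : MG (s ++ a :: t))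
    (hc : ∀ d, c ≠ mc d) : MG (s ++ c :: t) := by
  intro s' d t' e
  obtain ⟨s2, t2, e2, l1, l2⟩ := repl a e (hc d)
  obtain ⟨g1, g2⟩ := h _ _ _ e2
  exact ⟨l1 ▸ g1, l2 ▸ g2⟩

theorem XB_NoL (d : MD (Symbol T N)) : ∀ c ∈ XB d, NoL c := by
  intro c hc
  simp only [XB, mem_append, mem_cons] at hc
  rcases hc with hc | rfl | hc
  · exact plain_NoL (PL_pc _ c hc)
  · exact mc_NoL d
  · exact plain_NoL (PL_pc _ c hc)

/-- a rule whose left side starts with a marked block -/
theorem match_M {z s t e : List (Sy T N)} {d : MD (Symbol T N)} (he : PL e)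
    (hz : Rest S P z ∨ Lock S P z) (h : z = s ++ (XB d ++ e) ++ t) :
    PL s ∧ PL t ∧ Pre S P d.x (map (dec S) (s ++ (e ++ t))) := by
  have h' : z = (s ++ map pc d.x1) ++ mc d :: (map pc d.x2 ++ (e ++ t)) := by
    rw [h]; simp [XB]
  rcases hz with (⟨h1, -⟩ | ⟨u, d0, v, h1, hu, hv, -, hp⟩) | ⟨u, α, y, o, β, v, h1, hu, hv, -, -, hg, -⟩
  · exact absurd (h1 (mc d) (by rw [h']; simp)) (np_mc d)
  · obtain ⟨e1, e2, e3⟩ := align (q := plain) (h1.symm.trans h') hu hv (np_mc d)
    have : d0 = d := by simpa [mc] using e2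
    subst this
    rw [e1, PL_append] at hu
    rw [e3, PL_append, PL_append] at hv
    exact ⟨hu.1, hv.2.2, hp _ _ e1 e3⟩
  · obtain ⟨s', t', e1, e2, e3⟩ := inside (q := plain) (h1.symm.trans h') hu hv (np_mc d)
    obtain ⟨g1, g2⟩ := hg _ _ _ e1
    have a1 := (append_inj' e2 (by simp [g1])).2
    have a2 := (append_inj e3 (by simp [g2])).1
    have : lc α.length β.length y o ∈ XB d := by
      rw [XB, a1, a2, ← e1]; simp
    exact absurd rfl (XB_NoL d _ this _ _ _ _)

theorem match_L {z s t α β : List (Sy T N)} {y : List (Symbol T N)} {o : Option (MD (Symbol T N))}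
    {a b : ℕ} (ha : a = α.length) (hb : b = β.length)
    (hz : Rest S P z ∨ Lock S P z) (h : z = s ++ (α ++ lc a b y o :: β) ++ t) :
    PL s ∧ PL t ∧ (∀ c ∈ α, NoL c) ∧ (∀ c ∈ β, NoL c) ∧ MG (α ++ lc a b y o :: β) ∧
      ∀ Y, Tgt S P y o Y → ∀ u' v', s ++ t = u' ++ v' → Rest S P (u' ++ Y ++ v') := by
  subst ha hb
  have h' : z = (s ++ α) ++ lc α.length β.length y o :: (β ++ t) := by
    rw [h]; simp
  have hm : lc α.length β.length y o ∈ z := by rw [h']; simp
  rcases hz with (⟨h1, -⟩ | ⟨u, d0, v, h1, hu, hv, -, hp⟩) |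
    ⟨u, α0, y0, o0, β0, v, h1, hu, hv, hα, hβ, hg, hY⟩
  · exact absurd (h1 _ hm) (np_lc _ _ _ _)
  · rw [h1] at hm
    simp only [mem_append, mem_cons] at hm
    rcases hm with hm | hm | hm
    · exact absurd (hu _ hm) (np_lc _ _ _ _)
    · simp [lc, mc] at hm
    · exact absurd (hv _ hm) (np_lc _ _ _ _)
  · have h2 : z = (u ++ α0) ++ lc α0.length β0.length y0 o0 :: (β0 ++ v) := by
      rw [h1]; simp
    obtain ⟨e1, e2, e3⟩ := align (q := NoL) (h2.symm.trans h') (by
      intro c hc
      rcases mem_append.1 hc with hc | hc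
      · exact plain_NoL (hu c hc)
      · exact hα c hc) (by
      intro c hc
      rcases mem_append.1 hc with hc | hc
      · exact hβ c hc
      · exact plain_NoL (hv c hc)) (fun hn => hn _ _ _ _ rfl)
    simp only [lc, Symbol.nonterminal.injEq, Cell.L.injEq] at e2
    obtain ⟨l1, l2, rfl, rfl⟩ := e2
    obtain ⟨rfl, rfl⟩ := append_inj' e1 l1
    obtain ⟨rfl, rfl⟩ := append_inj e3 l2
    exact ⟨hu, hv, hα, hβ, hg, hY⟩

theorem PL_split {u v u' v' : List (Sy T N)} (h : u ++ v = u' ++ v') (hu : PL u) (hv : PL v) :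
    PL u' ∧ PL v' := PL_append.1 (h ▸ PL_append.2 ⟨hu, hv⟩)

theorem rest_none {y : List (Symbol T N)} {Y u' v' : List (Sy T N)} (hu : PL u') (hv : PL v')
    (hd : Der S P (map (dec S) u' ++ y ++ map (dec S) v')) (hY : Tgt S P y none Y) :
    Rest S P (u' ++ Y ++ v') := by
  obtain ⟨h1, h2 | ⟨y1, d, y2, p1, p2, hr, rfl⟩⟩ := hY
  · left
    exact ⟨PL_append.2 ⟨PL_append.2 ⟨hu, h2⟩, hv⟩, by rw [map_append, map_append, h1]; exact hd⟩
  · right
    refine ⟨u' ++ y1, d, y2 ++ v', by simp, PL_append.2 ⟨hu, p1⟩, PL_append.2 ⟨p2, hv⟩, hr, ?_⟩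
    intro u2 v2 e1 e2
    refine ⟨map (dec S) u2, map (dec S) v2, map_append, ?_⟩
    have : map (dec S) u2 ++ d.x ++ map (dec S) v2 = map (dec S) u' ++ y ++ map (dec S) v' := by
      rw [← h1, ← dec_XB S d, ← map_append, ← map_append, ← map_append, ← map_append]
      congr 1
      calc u2 ++ XB d ++ v2 = (u2 ++ map pc d.x1) ++ mc d :: (map pc d.x2 ++ v2) := by simp [XB]
        _ = _ := by rw [← e1, ← e2]; simp
    rw [this]; exact hd

theorem inv_step {z z' : List (Sy T N)} (hz : Rest S P z ∨ Lock S P z)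
    (h : JStep (HR S P K) z z') : Rest S P z' ∨ Lock S P z' := by
  obtain ⟨r, hr, s, t, s', t', h1, h2, h3⟩ := h
  cases hr with
  | jump d hd =>
    obtain ⟨ps, pt, hp⟩ := match_M S P (e := []) (by simp [PL]) hz (by simpa using h1)
    obtain ⟨ps', pt'⟩ := PL_split h3 ps pt
    left; right
    refine ⟨s' ++ map pc d.x1, d, map pc d.x2 ++ t', by rw [h2]; simp [XB],
      PL_append.2 ⟨ps', PL_pc _⟩, PL_append.2 ⟨PL_pc _, pt'⟩, hd, ?_⟩
    intro u2 v2 e1 e2
    rw [← append_cancel_right e1, ← append_cancel_left e2, ← h3]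
    simpa using hp
  | start d α β A hd hX =>
    obtain ⟨ps, pt, hp⟩ := match_M S P (e := []) (by simp [PL]) hz (by simpa using h1)
    obtain ⟨ps', pt'⟩ := PL_split h3 ps pt
    right
    refine ⟨s', α, d.y, none, β, t', h2, ps', pt', fun c hc => XB_NoL d c (by rw [hX]; simp [hc]),
      fun c hc => XB_NoL d c (by rw [hX]; simp [hc]), ?_, ?_⟩
    · exact MG_repl (hX ▸ MG_XB d) (fun d' => by simp [lc, mc])
    · intro Y hY u' v' e
      obtain ⟨pu, pv⟩ := PL_split e ps' pt'
      refine rest_none S P pu pv (hp.post S P hd _ _ ?_) hY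
      rw [nil_append, h3, e, map_append]
  | pass d d' hd hd' =>
    obtain ⟨ps, pt, hp⟩ := match_M S P (PL_pc _) hz h1
    obtain ⟨ps', pt'⟩ := PL_split h3 ps pt
    right
    refine ⟨s', map pc d.x1, d.y, some d', map pc d.x2 ++ map pc d'.x, t', by simpa using h2, ps', pt',
      fun c hc => plain_NoL (PL_pc _ c hc),
      fun c hc => plain_NoL (PL_append.2 ⟨PL_pc _, PL_pc _⟩ c hc), ?_, ?_⟩
    · intro a d2 b e
      have : mc d2 ∈ a ++ mc d2 :: b := by simp
      rw [← e] at this
      rcases mem_append.1 this with hc | hc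
      · exact absurd (PL_pc _ _ hc) (np_mc _)
      · rcases mem_cons.1 hc with hc | hc
        · simp [lc, mc] at hc
        · exact absurd (PL_append.2 ⟨PL_pc _, PL_pc _⟩ _ hc) (np_mc _)
    · rintro Y ⟨y1, y2, p1, p2, -, hy, rfl⟩ u' v' e
      obtain ⟨pu, pv⟩ := PL_split e ps' pt'
      right
      refine ⟨u' ++ y1 ++ map pc d'.x1, d', map pc d'.x2 ++ (y2 ++ v'), by simp [XB],
        PL_append.2 ⟨PL_append.2 ⟨pu, p1⟩, PL_pc _⟩, PL_append.2 ⟨PL_pc _, PL_append.2 ⟨p2, pv⟩⟩,
        hd', ?_⟩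
      intro u2 v2 e1 e2
      rw [← append_cancel_right e1, ← append_cancel_left e2]
      have hy' : map (dec S) (u' ++ y1 ++ (y2 ++ v')) =
          map (dec S) u' ++ d.y ++ map (dec S) v' := by
        rw [← hy]; simp
      rw [hy']
      rw [map_append, map_append, dec_pc] at hp
      rcases append_eq_append_iff.1 (h3.trans e) with ⟨w, g1, g2⟩ | ⟨w, g1, g2⟩
      · refine ⟨map (dec S) s, map (dec S) w ++ d.y ++ map (dec S) v', by rw [g1]; simp, ?_⟩
        have := hp.post S P hd (map (dec S) s ++ d'.x ++ map (dec S) w) (map (dec S) v')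
          (by rw [g2]; simp)
        simpa using this
      · refine ⟨map (dec S) u' ++ d.y ++ map (dec S) w, map (dec S) t, by rw [g2]; simp, ?_⟩
        have := hp.post S P hd (map (dec S) u') (map (dec S) w ++ d'.x ++ map (dec S) t)
          (by rw [g1]; simp)
        simpa using this
  | convL a b β A c y o hc _ _ _ =>
    obtain ⟨ps, pt, hα, hβ, hg, hY⟩ := match_L S P (by simp; omega) rfl hz h1
    obtain ⟨ps', pt'⟩ := PL_split h3 ps pt
    right
    have hl : (a ++ c :: b).length = a.length + 1 + b.length := by simp; omega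
    refine ⟨s', a ++ c :: b, y, o, β, t', by rw [hl]; exact h2, ps', pt', ?_, hβ, ?_,
      fun Y h u' v' e => hY Y h u' v' (h3.trans e)⟩
    · intro e he
      simp only [mem_append, mem_cons] at he hα
      rcases he with he | rfl | he
      · exact hα e (Or.inl he)
      · exact plain_NoL hc
      · exact hα e (Or.inr (Or.inr he))
    · rw [hl, append_assoc, cons_append]
      rw [append_assoc, cons_append] at hg
      exact MG_repl hg (by rintro d rfl; exact hc)
  | convR α a b A c y o hc _ _ _ =>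
    obtain ⟨ps, pt, hα, hβ, hg, hY⟩ := match_L S P rfl (by simp; omega) hz h1
    obtain ⟨ps', pt'⟩ := PL_split h3 ps pt
    right
    have hl : (a ++ c :: b).length = a.length + 1 + b.length := by simp; omega
    refine ⟨s', α, y, o, a ++ c :: b, t', by rw [hl]; exact h2, ps', pt', hα, ?_, ?_,
      fun Y h u' v' e => hY Y h u' v' (h3.trans e)⟩
    · intro e he
      simp only [mem_append, mem_cons] at he hβ
      rcases he with he | rfl | he
      · exact hβ e (Or.inl he)
      · exact plain_NoL hc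
      · exact hβ e (Or.inr (Or.inr he))
    · rw [hl, ← cons_append, ← append_assoc]
      rw [← cons_append, ← append_assoc] at hg
      exact MG_repl hg (by rintro d rfl; exact hc)
  | fin Y1 seg Y2 y o _ hT _ =>
    obtain ⟨ps, pt, hα, hβ, hg, hY⟩ := match_L S P rfl rfl hz h1
    left
    rw [h2]
    exact hY _ hT _ _ h3

theorem sound (w : List T)
    (h : Relation.ReflTransGen (JStep (HR S P K)) [lc 0 0 [Symbol.nonterminal S] none]
      (w.map Symbol.terminal)) : Der S P (w.map Symbol.terminal) := by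
  have key : ∀ z, Relation.ReflTransGen (JStep (HR S P K)) [lc 0 0 [Symbol.nonterminal S] none] z →
      Rest S P z ∨ Lock S P z := by
    intro z hz
    induction hz with
    | refl =>
      right
      refine ⟨[], [], _, none, [], [], rfl, by simp [PL], by simp [PL], by simp, by simp, ?_, ?_⟩
      · intro s d t e
        have : mc d ∈ s ++ mc d :: t := by simp
        rw [← e] at this
        simp [mc, lc] at this
      · intro Y hY u' v' e
        obtain ⟨rfl, rfl⟩ : u' = [] ∧ v' = [] := by simpa using e.symm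
        exact rest_none S P (by simp [PL]) (by simp [PL]) (by simpa using .refl) hY
    | tail _ hbc ih => exact inv_step S P K ih hbc
  have hw : PL (w.map Symbol.terminal : List (Sy T N)) := by
    intro c hc
    obtain ⟨a, -, rfl⟩ := mem_map.1 hc
    trivial
  rcases key _ h with (⟨-, h1⟩ | ⟨u, d, v, h1, -⟩) | ⟨u, α, y, o, β, v, h1, -⟩
  · simpa [Function.comp_def, dec] using h1
  · exact absurd (hw (mc d) (by rw [h1]; simp)) (np_mc d)
  · exact absurd (hw (lc α.length β.length y o) (by rw [h1]; simp)) (np_lc _ _ _ _)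

end

end Pool.Agent.H63.JG
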