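import Pool.Agent.H63.JG2

set_option autoImplicit false

namespace Pool.Agent.H63.JG

open List

section
variable {T N : Type} (S : N) (P : List (Symbol T N) × List (Symbol T N) → Prop) (K : ℕ)

def NT (c : Sy T N) : Prop := Semi P c ∧ ∃ A, c = Symbol.nonterminal A

abbrev HD := Relation.ReflTransGen (JStep (HR S P K))

theorem step_in {l r : List (Sy T N)} (h : HR S P K (l, r)) (u v u' v' : List (Sy T N))
    (e : u ++ v = u' ++ v') : HD S P K (u ++ l ++ v) (u' ++ r ++ v') :=
  .single ⟨(l, r), h, u, v, u', v', rfl, rfl, e⟩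

theorem semi_plain {c : Sy T N} (h : plain c) : Semi P c := Or.inl h

theorem convL_all (y : List (Symbol T N)) (o : Option (MD (Symbol T N))) (β u v : List (Sy T N))
    (hβ : ∀ e ∈ β, Semi P e) (a : ℕ) (hg : Good P K a β.length y o) :
    ∀ (α s Y : List (Sy T N)), PL s → PL Y → (∀ e ∈ α, NT P e) → Y.length = α.length →
      a = s.length + α.length →
      HD S P K (u ++ ((s ++ α) ++ lc a β.length y o :: β) ++ v)
        (u ++ ((s ++ Y) ++ lc a β.length y o :: β) ++ v) := by
  intro α
  induction α with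
  | nil =>
    intro s Y _ _ _ hl _
    have : Y = [] := by simpa using hl
    subst this
    exact .refl
  | cons e α ih =>
    intro s Y ps pY hα hl ha
    cases Y with
    | nil => simp at hl
    | cons c Y =>
      obtain ⟨he, A, rfl⟩ := hα e (by simp)
      have pc' : plain c := pY c (by simp)
      have ha' : a = s.length + 1 + α.length := by simp at ha; omega
      have h1 := step_in S P K (HR.convL s α β A c y o pc' (by
        intro e he'
        simp only [mem_append, mem_cons] at he'
        rcases he' with h | rfl | h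
        · exact semi_plain P (ps e h)
        · exact he
        · exact (hα e (by simp [h])).1) hβ (ha' ▸ hg)) u v u v rfl
      rw [← ha'] at h1
      have h2 := ih (s ++ [c]) Y (PL_append.2 ⟨ps, by intro e he; simp at he; exact he ▸ pc'⟩)
        (fun e he => pY e (by simp [he])) (fun e he => hα e (by simp [he])) (by simpa using hl)
        (by simp; omega)
      simp only [append_assoc, cons_append, nil_append] at h1 h2 ⊢
      exact h1.trans h2

theorem convR_all (y : List (Symbol T N)) (o : Option (MD (Symbol T N))) (α u v : List (Sy T N))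
    (hα : ∀ e ∈ α, Semi P e) (b : ℕ) (hg : Good P K α.length b y o) :
    ∀ (β s Y : List (Sy T N)), PL s → PL Y → (∀ e ∈ β, NT P e) → Y.length = β.length →
      b = s.length + β.length →
      HD S P K (u ++ (α ++ lc α.length b y o :: (s ++ β)) ++ v)
        (u ++ (α ++ lc α.length b y o :: (s ++ Y)) ++ v) := by
  intro β
  induction β with
  | nil =>
    intro s Y _ _ _ hl _
    have : Y = [] := by simpa using hl
    subst this
    exact .refl
  | cons e β ih =>
    intro s Y ps pY hβ hl ha
    cases Y with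
    | nil => simp at hl
    | cons c Y =>
      obtain ⟨he, A, rfl⟩ := hβ e (by simp)
      have pc' : plain c := pY c (by simp)
      have ha' : b = s.length + 1 + β.length := by simp at ha; omega
      have h1 := step_in S P K (HR.convR α s β A c y o pc' hα (by
        intro e he'
        simp only [mem_append, mem_cons] at he'
        rcases he' with h | rfl | h
        · exact semi_plain P (ps e h)
        · exact he
        · exact (hβ e (by simp [h])).1) (ha' ▸ hg)) u v u v rfl
      rw [← ha'] at h1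
      have h2 := ih (s ++ [c]) Y (PL_append.2 ⟨ps, by intro e he; simp at he; exact he ▸ pc'⟩)
        (fun e he => pY e (by simp [he])) (fun e he => hβ e (by simp [he])) (by simpa using hl)
        (by simp; omega)
      simp only [append_assoc, cons_append, nil_append] at h1 h2 ⊢
      exact h1.trans h2

theorem run {y : List (Symbol T N)} {o : Option (MD (Symbol T N))} {α β Y1 seg Y2 : List (Sy T N)}
    (hα : ∀ e ∈ α, NT P e) (hβ : ∀ e ∈ β, NT P e) (hg : Good P K α.length β.length y o)
    (l1 : Y1.length = α.length) (l2 : Y2.length = β.length) (p1 : PL Y1) (p2 : PL Y2)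
    (hs : seg ≠ []) (hT : Tgt S P y o (Y1 ++ seg ++ Y2)) (u v u' v' : List (Sy T N))
    (e : u ++ v = u' ++ v') :
    HD S P K (u ++ (α ++ lc α.length β.length y o :: β) ++ v) (u' ++ (Y1 ++ seg ++ Y2) ++ v') := by
  have h1 := convL_all S P K y o β u v (fun e he => (hβ e he).1) α.length hg α [] Y1 (by simp [PL])
    p1 hα l1 (by simp)
  have h2 := convR_all S P K y o Y1 u v (fun e he => semi_plain P (p1 e he)) β.length (l1 ▸ hg)
    β [] Y2 (by simp [PL]) p2 hβ l2 (by simp)
  have h3 := step_in S P K (HR.fin Y1 seg Y2 y o hs hT (by rw [l1, l2]; exact hg)) u v u' v' e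
  rw [l1, l2] at h3
  rw [l1] at h2
  simp only [nil_append] at h1 h2
  exact (h1.trans h2).trans h3

theorem NT_pc (l : List (Symbol T N)) : ∀ e ∈ map pc l, NT P e := by
  intro e he
  obtain ⟨v, -, rfl⟩ := mem_map.1 he
  exact ⟨Or.inl trivial, _, rfl⟩

theorem NT_XB {d : MD (Symbol T N)} (hd : rule P d) : ∀ e ∈ XB d, NT P e := by
  intro e he
  simp only [XB, mem_append, mem_cons] at he
  rcases he with he | rfl | he
  · exact NT_pc P _ e he
  · exact ⟨Or.inr ⟨d, hd, rfl⟩, _, rfl⟩
  · exact NT_pc P _ e he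

theorem len_XB (d : MD (Symbol T N)) : (XB d).length = d.x.length := by simp [XB, MD.x]

theorem cut_seg {y1 y2 : List (Sy T N)} (c : Sy T N) (p1 : PL y1) (p2 : PL y2) (a b : ℕ)
    (ha : a ≤ y1.length) (hb : b ≤ y2.length) :
    ∃ Y1 seg Y2, y1 ++ c :: y2 = Y1 ++ seg ++ Y2 ∧ Y1.length = a ∧ Y2.length = b ∧ PL Y1 ∧ PL Y2 ∧
      seg ≠ [] := by
  refine ⟨y1.take a, y1.drop a ++ c :: y2.take (y2.length - b), y2.drop (y2.length - b), ?_,
    by simp [ha], by simp; omega, fun e he => p1 e (mem_of_mem_take he),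
    fun e he => p2 e (mem_of_mem_drop he), by simp⟩
  rw [← append_assoc, take_append_drop, append_assoc, cons_append, take_append_drop]

variable (hP : ∀ r, P r → r.1 ≠ [] ∧ r.1.length ≤ r.2.length ∧ r.2.length ≤ K)
include hP

theorem do_none {d : MD (Symbol T N)} (hd : rule P d) {Y : List (Sy T N)}
    (hT : Tgt S P d.y none Y) (u v u' v' : List (Sy T N)) (e : u ++ v = u' ++ v') :
    HD S P K (u ++ XB d ++ v) (u' ++ Y ++ v') := by
  obtain ⟨h0, h1, h2⟩ := hP _ hd
  simp only at h0 h1 h2
  have hl : Y.length = d.y.length := by rw [← hT.1]; simp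
  have hm : 0 < d.x.length := length_pos_iff.2 h0
  obtain ⟨y1, c, y2, p1, p2, hY⟩ : ∃ y1 c y2, PL y1 ∧ PL y2 ∧ Y = y1 ++ c :: y2 := by
    rcases hT.2 with h | ⟨y1, d', y2, p1, p2, -, h⟩
    · cases Y with
      | nil => simp at hl; omega
      | cons c Y => exact ⟨[], c, Y, by simp [PL], fun e he => h e (by simp [he]), rfl⟩
    · exact ⟨y1, _, y2, p1, p2, h⟩
  have hl2 : y1.length + 1 + y2.length = d.y.length := by rw [← hl, hY]; simp; omega
  obtain ⟨a, ha1, ha2, ha3⟩ : ∃ a, a ≤ y1.length ∧ a < d.x.length ∧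
      d.x.length - 1 - a ≤ y2.length := ⟨min y1.length (d.x.length - 1), by omega, by omega, by omega⟩
  obtain ⟨Y1, seg, Y2, e1, l1, l2, q1, q2, hs⟩ := cut_seg c p1 p2 a _ ha1 ha3
  have hx : a < (XB d).length := by rw [len_XB]; exact ha2
  have hsp : XB d = (XB d).take a ++ (XB d)[a] :: (XB d).drop (a + 1) := by simp
  obtain ⟨-, A, hA⟩ := NT_XB P hd _ (getElem_mem hx)
  rw [hA] at hsp
  have la : ((XB d).take a).length = a := by simp; omega
  have lb : ((XB d).drop (a + 1)).length = d.x.length - 1 - a := by simp [len_XB]; omega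
  have s1 := step_in S P K (HR.start d _ _ A hd hsp) u v u v rfl
  have s2 := run S P K (α := (XB d).take a) (β := (XB d).drop (a + 1)) (y := d.y) (o := none)
    (fun e he => NT_XB P hd e (mem_of_mem_take he)) (fun e he => NT_XB P hd e (mem_of_mem_drop he))
    ⟨by omega, by omega, h2, by simp⟩ (by rw [l1, la]) (by rw [l2, lb]) q1 q2 hs
    (by rw [← e1, ← hY]; exact hT) u v u' v' e
  rw [hY, e1]
  exact s1.trans s2

theorem do_pass {d d' : MD (Symbol T N)} (hd : rule P d) (hd' : rule P d') (h1 : d'.x1 = [])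
    {Y0 u v a1 a2 b1 b2 c1 c2 : List (Sy T N)} (pY : PL Y0) (hY : map (dec S) Y0 = d.y)
    (e1 : u ++ v = a1 ++ (map pc d'.x ++ a2)) (e2 : a1 ++ a2 = b1 ++ b2)
    (e3 : b1 ++ Y0 ++ b2 = c1 ++ c2) :
    HD S P K (u ++ XB d ++ v) (c1 ++ XB d' ++ c2) := by
  obtain ⟨h0, h2, h3⟩ := hP _ hd
  obtain ⟨-, h4, h5⟩ := hP _ hd'
  simp only at h0 h2 h3 h4 h5
  have lx : d.x.length = d.x1.length + 1 + d.x2.length := by simp [MD.x]; omega
  have lx' : d'.x.length = 1 + d'.x2.length := by simp [MD.x, h1]; omega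
  have lY : Y0.length = d.y.length := by rw [← hY]; simp
  have s1 := step_in S P K (HR.jump d hd) u v a1 _ e1
  have s2 := step_in S P K (HR.pass d d' hd hd') a1 a2 a1 a2 rfl
  have p1 : PL (Y0.take d.x1.length) := fun e he => pY e (mem_of_mem_take he)
  have p2 : PL (Y0.drop d.x1.length) := fun e he => pY e (mem_of_mem_drop he)
  obtain ⟨Y1, seg, Y2, g1, l1, l2, q1, q2, hs⟩ := cut_seg (y1 := Y0.take d.x1.length)
    (y2 := map pc d'.x2 ++ Y0.drop d.x1.length) (mc d') p1 (PL_append.2 ⟨PL_pc _, p2⟩)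
    d.x1.length (d.x2.length + d'.x.length) (by simp; omega) (by simp; omega)
  have g2 : Y1 ++ seg ++ Y2 = Y0.take d.x1.length ++ XB d' ++ Y0.drop d.x1.length := by
    rw [← g1]; simp [XB, h1]
  have s3 := run S P K (α := map pc d.x1) (β := map pc d.x2 ++ map pc d'.x) (y := d.y)
    (o := some d') (NT_pc P _) (by rw [← map_append]; exact NT_pc P _)
    ⟨by simp; omega, by simp; omega, h3, by simp; exact hd'⟩ (by simp [l1]) (by simp [l2]) q1 q2 hs
    ⟨_, _, p1, p2, hd', by rw [take_append_drop, hY], g2⟩ a1 a2 b1 b2 e2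
  have s4 := step_in S P K (HR.jump d' hd') (b1 ++ Y0.take d.x1.length)
    (Y0.drop d.x1.length ++ b2) c1 c2 (by
      rw [← e3, append_assoc, ← append_assoc (Y0.take _), take_append_drop, append_assoc])
  rw [g2] at s3
  simp only [length_map, length_append, append_assoc] at s1 s2 s3 s4 ⊢
  exact ((s1.trans s2).trans s3).trans s4

omit hP in
theorem split_PL {z : List (Sy T N)} {s t : List (Symbol T N)} (pz : PL z)
    (h : map (dec S) z = s ++ t) :
    ∃ u v, z = u ++ v ∧ PL u ∧ PL v ∧ map (dec S) u = s ∧ map (dec S) v = t := by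
  obtain ⟨u, v, e, h1, h2⟩ := map_eq_append_iff.1 h
  rw [e, PL_append] at pz
  exact ⟨u, v, e, pz.1, pz.2, h1, h2⟩

omit hP in
theorem tri {A : Type} {p x q s y t : List A} (h : p ++ x ++ q = s ++ y ++ t) (hx : x ≠ [])
    (hy : y ≠ []) :
    (∃ w, s = p ++ x ++ w ∧ q = w ++ y ++ t) ∨ (∃ w, p = s ++ y ++ w ∧ t = w ++ x ++ q) ∨
    ∃ x1 c x2 y1 y2, x = x1 ++ c :: x2 ∧ y = y1 ++ c :: y2 ∧ p ++ x1 = s ++ y1 ∧
      x2 ++ q = y2 ++ t := by
  rw [append_assoc, append_assoc] at h
  rcases append_eq_append_iff.1 h with ⟨w, h1, h2⟩ | ⟨w, h1, h2⟩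
  · rcases append_eq_append_iff.1 h2 with ⟨w2, h3, h4⟩ | ⟨w2, h3, h4⟩
    · left
      exact ⟨w2, by rw [h1, h3]; simp, by rw [h4]; simp⟩
    · cases w2 with
      | nil => left; exact ⟨[], by rw [h1, h3]; simp, by simpa using h4.symm⟩
      | cons c w2 =>
        cases y with
        | nil => exact absurd rfl hy
        | cons c' y =>
          simp only [cons_append, cons.injEq] at h4
          right; right
          exact ⟨w, c, w2, [], y, h3, by simp [h4.1], by simp [h1], h4.2.symm⟩
  · rcases append_eq_append_iff.1 h2 with ⟨w2, h3, h4⟩ | ⟨w2, h3, h4⟩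
    · right; left
      exact ⟨w2, by rw [h1, h3]; simp, by rw [h4]; simp⟩
    · cases w2 with
      | nil => right; left; exact ⟨[], by rw [h1, h3]; simp, by simpa using h4.symm⟩
      | cons c w2 =>
        cases x with
        | nil => exact absurd rfl hx
        | cons c' x =>
          simp only [cons_append, cons.injEq] at h4
          right; right
          exact ⟨[], c, x, w, w2, by simp [h4.1], h3, by simp [h1], h4.2⟩

def Ready (w : List T) (z : List (Symbol T N)) : Prop :=
  ∃ u x y v, P (x, y) ∧ PL u ∧ PL v ∧ z = map (dec S) u ++ x ++ map (dec S) v ∧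
    ∀ d : MD (Symbol T N), d.x = x → d.y = y → HD S P K (u ++ XB d ++ v) (w.map Symbol.terminal)

theorem comp_aux (w : List T) (z : List (Symbol T N))
    (h : Relation.ReflTransGen (JStep P) z (w.map Symbol.terminal)) :
    z = w.map Symbol.terminal ∨ Ready S P K w z := by
  induction h using Relation.ReflTransGen.head_induction_on with
  | refl => exact Or.inl rfl
  | @head z z1 hs _ ih =>
    right
    obtain ⟨⟨x, y⟩, hr, s1, s2, t1, t2, h1, h2, h3⟩ := hs
    simp only at h1 h2
    obtain ⟨hx0, hxy, -⟩ := hP _ hr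
    simp only at hx0 hxy
    have hy0 : y ≠ [] := by
      rintro rfl
      exact hx0 (by simpa using hxy)
    rcases ih with ih | ⟨u2, x', y', v2, hr', pu2, pv2, hz1, hH⟩
    · have pw : PL (w.map Symbol.terminal : List (Sy T N)) := by
        intro c hc
        obtain ⟨a, -, rfl⟩ := mem_map.1 hc
        trivial
      have dw : map (dec S) (w.map Symbol.terminal : List (Sy T N)) = t1 ++ y ++ t2 := by
        rw [← h2, ih]; simp [Function.comp_def, dec]
      obtain ⟨l, v1, e1, pl, pv1, dl, dv1⟩ := split_PL S pw dw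
      obtain ⟨u1, Y, e2, pu1, pY, du1, dY⟩ := split_PL S pl dl
      obtain ⟨u, v, e3, pu, pv, du, dv⟩ := split_PL S (PL_append.2 ⟨pu1, pv1⟩)
        (s := s1) (t := s2) (by rw [map_append, du1, dv1, h3])
      refine ⟨u, x, y, v, hr, pu, pv, by rw [h1, du, dv], fun d dx dy => ?_⟩
      rw [e1, e2]
      exact do_none S P K hP (by rw [rule, dx, dy]; exact hr) ⟨by rw [dY, dy], Or.inl pY⟩ _ _ _ _
        e3.symm
    · obtain ⟨hx'0, -, -⟩ := hP _ hr'
      simp only at hx'0
      obtain ⟨c', x2', hx'⟩ := exists_cons_of_ne_nil hx'0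
      let d0 : MD (Symbol T N) := ⟨[], c', x2', y'⟩
      have d0x : d0.x = x' := by simp [d0, MD.x, hx']
      have hd0 : rule P d0 := by rw [rule, d0x]; exact hr'
      rcases tri (hz1.symm.trans h2) hx'0 hy0 with ⟨q, g1, g2⟩ | ⟨q, g1, g2⟩ |
        ⟨x1, c, x2, y1, y2, g1, g2, g3, g4⟩
      · obtain ⟨l, v1, e1, pl, pv1, dl, dv1⟩ := split_PL S pv2 g2
        obtain ⟨q', Y0, e2, pq, pY, dq, dY⟩ := split_PL S pl dl
        obtain ⟨u, v, e3, pu, pv, du, dv⟩ := split_PL S
          (z := u2 ++ (map pc d0.x ++ (q' ++ v1)))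
          (PL_append.2 ⟨pu2, PL_append.2 ⟨PL_pc _, PL_append.2 ⟨pq, pv1⟩⟩⟩)
          (s := s1) (t := s2) (by
            rw [map_append, map_append, map_append, dec_pc, dq, dv1, h3, g1, d0x]; simp)
        refine ⟨u, x, y, v, hr, pu, pv, by rw [h1, du, dv], fun d dx dy => ?_⟩
        refine (do_pass S P K hP (by rw [rule, dx, dy]; exact hr) hd0 rfl pY (by rw [dY, dy])
          e3.symm (b1 := u2 ++ q') (b2 := v1) (c1 := u2) (c2 := v2) (by simp)
          (by rw [e1, e2]; simp)).trans (hH d0 d0x rfl)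
      · obtain ⟨l, q', e1, pl, pq, dl, dq⟩ := split_PL S pu2 g1
        obtain ⟨u1, Y0, e2, pu1, pY, du1, dY⟩ := split_PL S pl dl
        obtain ⟨u, v, e3, pu, pv, du, dv⟩ := split_PL S
          (z := (u1 ++ q') ++ (map pc d0.x ++ v2))
          (PL_append.2 ⟨PL_append.2 ⟨pu1, pq⟩, PL_append.2 ⟨PL_pc _, pv2⟩⟩)
          (s := s1) (t := s2) (by
            rw [map_append, map_append, map_append, dec_pc, dq, du1, h3, g2, d0x]; simp)
        refine ⟨u, x, y, v, hr, pu, pv, by rw [h1, du, dv], fun d dx dy => ?_⟩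
        refine (do_pass S P K hP (by rw [rule, dx, dy]; exact hr) hd0 rfl pY (by rw [dY, dy])
          e3.symm (b1 := u1) (b2 := q' ++ v2) (c1 := u2) (c2 := v2) (by simp)
          (by rw [e1, e2]; simp)).trans (hH d0 d0x rfl)
      · let d1 : MD (Symbol T N) := ⟨x1, c, x2, y'⟩
        have d1x : d1.x = x' := by simp [d1, MD.x, g1]
        have hd1 : rule P d1 := by rw [rule, d1x]; exact hr'
        obtain ⟨u1, y1', e1, pu1, py1, du1, dy1⟩ := split_PL S (z := u2 ++ map pc x1)
          (PL_append.2 ⟨pu2, PL_pc _⟩) (s := t1) (t := y1) (by rw [map_append, dec_pc, g3])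
        obtain ⟨y2', v1, e2, py2, pv1, dy2, dv1⟩ := split_PL S (z := map pc x2 ++ v2)
          (PL_append.2 ⟨PL_pc _, pv2⟩) (s := y2) (t := t2) (by rw [map_append, dec_pc, g4])
        obtain ⟨u, v, e3, pu, pv, du, dv⟩ := split_PL S (PL_append.2 ⟨pu1, pv1⟩)
          (s := s1) (t := s2) (by rw [map_append, du1, dv1, h3])
        refine ⟨u, x, y, v, hr, pu, pv, by rw [h1, du, dv], fun d dx dy => ?_⟩
        have k1 := do_none S P K hP (d := d) (by rw [rule, dx, dy]; exact hr)
          (Y := y1' ++ mc d1 :: y2')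
          ⟨by rw [map_append, map_cons, dy1, dy2, dy, g2]; rfl,
            Or.inr ⟨y1', d1, y2', py1, py2, hd1, rfl⟩⟩ _ _ _ _ e3.symm
        have k2 := hH d1 d1x rfl
        have : u2 ++ XB d1 ++ v2 = u1 ++ (y1' ++ mc d1 :: y2') ++ v1 := by
          calc u2 ++ XB d1 ++ v2 = (u2 ++ map pc x1) ++ mc d1 :: (map pc x2 ++ v2) := by
                simp [XB, d1]
            _ = _ := by rw [e1, e2]; simp
        rw [this] at k2
        exact k1.trans k2

theorem complete (hK : 1 ≤ K) (w : List T) (h : Der S P (w.map Symbol.terminal)) :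
    HD S P K [lc 0 0 [Symbol.nonterminal S] none] (w.map Symbol.terminal) := by
  rcases comp_aux S P K hP w _ h with h1 | ⟨u, x, y, v, hr, pu, pv, hz, hH⟩
  · cases w with
    | nil => simp at h1
    | cons a w => simp at h1
  · obtain ⟨hx0, -, -⟩ := hP _ hr
    simp only at hx0
    have hl := congrArg length hz
    have := length_pos_iff.2 hx0
    simp only [length_append, length_map, length_cons, length_nil] at hl
    have hu : u = [] := length_eq_zero_iff.1 (by omega)
    have hv : v = [] := length_eq_zero_iff.1 (by omega)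
    subst hu hv
    let d : MD (Symbol T N) := ⟨[], Symbol.nonterminal S, [], y⟩
    have dx : d.x = x := by simpa [d, MD.x] using hz
    have hd : rule P d := by rw [rule, dx]; exact hr
    have k := step_in S P K (HR.fin [] [mc d] [] [Symbol.nonterminal S] none (by simp)
      ⟨rfl, Or.inr ⟨[], d, [], by simp [PL], by simp [PL], hd, rfl⟩⟩
      ⟨by simp, by simp, by simpa using hK, by simp⟩) [] [] [] [] rfl
    exact k.trans (hH d dx rfl)

end

end Pool.Agent.H63.JG
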