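import Pool.Agent.H63.JG3

set_option autoImplicit false

namespace Pool.Agent.H63.JG

open List

section
variable {T N : Type} (S : N) (P : List (Symbol T N) × List (Symbol T N) → Prop) (K : ℕ)

def Ok (c : Cell (Symbol T N)) : Prop :=
  (∃ v, c = .p v) ∨ (∃ d, rule P d ∧ c = .M d) ∨ ∃ a b y o, Good P K a b y o ∧ c = .L a b y o

def AllOk (l : List (Sy T N)) : Prop := ∀ c, Symbol.nonterminal c ∈ l → Ok P K c

theorem allOk_semi {l : List (Sy T N)} (h : ∀ e ∈ l, Semi P e) : AllOk P K l := by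
  intro c hc
  rcases h _ hc with h | ⟨d, hd, h⟩
  · cases c with
    | p v => exact Or.inl ⟨v, rfl⟩
    | M d => exact h.elim
    | L a b y o => exact h.elim
  · simp only [mc, Symbol.nonterminal.injEq] at h
    exact Or.inr (Or.inl ⟨d, hd, h⟩)

theorem allOk_L {α β : List (Sy T N)} {a b : ℕ} {y : List (Symbol T N)}
    {o : Option (MD (Symbol T N))} (h1 : ∀ e ∈ α, Semi P e) (h2 : ∀ e ∈ β, Semi P e)
    (hg : Good P K a b y o) : AllOk P K (α ++ lc a b y o :: β) := by
  intro c hc
  simp only [mem_append, mem_cons] at hc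
  rcases hc with hc | hc | hc
  · exact allOk_semi P K h1 c hc
  · simp only [lc, Symbol.nonterminal.injEq] at hc
    exact Or.inr (Or.inr ⟨a, b, y, o, hg, hc⟩)
  · exact allOk_semi P K h2 c hc

theorem semi_PL {l : List (Sy T N)} (h : PL l) : ∀ e ∈ l, Semi P e := fun e he => Or.inl (h e he)

theorem semi_app {l l' : List (Sy T N)} (h : ∀ e ∈ l, Semi P e) (h' : ∀ e ∈ l', Semi P e) :
    ∀ e ∈ l ++ l', Semi P e := fun e he => (mem_append.1 he).elim (h e) (h' e)

theorem semi_repl {s t : List (Sy T N)} {a c : Sy T N} (h : ∀ e ∈ s ++ a :: t, Semi P e)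
    (hc : plain c) : ∀ e ∈ s ++ c :: t, Semi P e := by
  intro e he
  simp only [mem_append, mem_cons] at he h
  rcases he with he | rfl | he
  · exact h e (Or.inl he)
  · exact Or.inl hc
  · exact h e (Or.inr (Or.inr he))

variable (hP : ∀ r, P r → r.1 ≠ [] ∧ r.1.length ≤ r.2.length ∧ r.2.length ≤ K)
include hP

theorem tgt_semi {y : List (Symbol T N)} {o : Option (MD (Symbol T N))} {Y : List (Sy T N)}
    (h : Tgt S P y o Y) : (∀ e ∈ Y, Semi P e) ∧ Y.length ≤ y.length + K := by
  cases o with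
  | none =>
    obtain ⟨h1, h2⟩ := h
    refine ⟨?_, by rw [← h1]; simp⟩
    rcases h2 with h2 | ⟨y1, d, y2, p1, p2, hd, rfl⟩
    · exact semi_PL P h2
    · refine semi_app P (semi_PL P p1) ?_
      intro e he
      rcases mem_cons.1 he with rfl | he
      · exact Or.inr ⟨d, hd, rfl⟩
      · exact Or.inl (p2 e he)
  | some d =>
    obtain ⟨y1, y2, p1, p2, hd, h1, rfl⟩ := h
    refine ⟨semi_app P (semi_app P (semi_PL P p1) fun e he => (NT_XB P hd e he).1) (semi_PL P p2), ?_⟩
    obtain ⟨-, h4, h5⟩ := hP _ hd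
    simp only at h4 h5
    rw [← h1]
    simp [len_XB]; omega

theorem HR_ok (r : List (Sy T N) × List (Sy T N)) (hr : HR S P K r) :
    r.1.length ≤ 3 * K + 1 ∧ r.2.length ≤ 3 * K + 1 ∧ AllOk P K r.1 ∧ AllOk P K r.2 ∧ CS r := by
  cases hr with
  | jump d hd =>
    obtain ⟨-, h4, h5⟩ := hP _ hd
    simp only at h4 h5
    have := allOk_semi P K fun e he => (NT_XB P hd e he).1
    refine ⟨by simp [len_XB]; omega, by simp [len_XB]; omega, this, this,
      map pc d.x1, map pc d.x2, [mc d], .M d, by simp, by simp [XB, mc], by simp [XB]⟩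
  | start d α β A hd hX =>
    obtain ⟨-, h4, h5⟩ := hP _ hd
    simp only at h4 h5
    have hs := fun e he => (NT_XB P hd e he).1
    have hl : α.length + 1 + β.length = d.x.length := by rw [← len_XB, hX]; simp; omega
    refine ⟨by simp [len_XB]; omega, by simp; omega, allOk_semi P K hs,
      allOk_L P K (fun e he => hs e (by rw [hX]; simp [he])) (fun e he => hs e (by rw [hX]; simp [he]))
        ⟨by omega, by omega, h5, by simp⟩,
      α, β, [lc α.length β.length d.y none], A, by simp, by simp [hX], by simp⟩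
  | pass d d' hd hd' =>
    obtain ⟨-, h4, h5⟩ := hP _ hd
    obtain ⟨-, h6, h7⟩ := hP _ hd'
    simp only at h4 h5 h6 h7
    have lx : d.x.length = d.x1.length + 1 + d.x2.length := by simp [MD.x]; omega
    refine ⟨by simp [len_XB]; omega, by simp; omega,
      allOk_semi P K (semi_app P (fun e he => (NT_XB P hd e he).1) (semi_PL P (PL_pc _))),
      allOk_L P K (semi_PL P (PL_pc _)) (semi_app P (semi_PL P (PL_pc _)) (semi_PL P (PL_pc _)))
        ⟨by omega, by omega, h5, by simp; exact hd'⟩,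
      map pc d.x1, map pc d.x2 ++ map pc d'.x, [lc _ _ d.y (some d')], .M d, by simp,
      by simp [XB, mc], by simp; rfl⟩
  | convL s t β A c y o hc h1 h2 hg =>
    have ⟨g1, g2, _, _⟩ := hg
    refine ⟨by simp; omega, by simp; omega, allOk_L P K h1 h2 hg,
      allOk_L P K (semi_repl P h1 hc) h2 hg,
      s, t ++ lc (s.length + 1 + t.length) β.length y o :: β, [c], A, by simp, by simp, by simp⟩
  | convR α s t A c y o hc h1 h2 hg =>
    have ⟨g1, g2, _, _⟩ := hg
    refine ⟨by simp; omega, by simp; omega, allOk_L P K h1 h2 hg,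
      allOk_L P K h1 (semi_repl P h2 hc) hg,
      α ++ lc α.length (s.length + 1 + t.length) y o :: s, t, [c], A, by simp, by simp, by simp⟩
  | fin Y1 seg Y2 y o hs hT hg =>
    have ⟨g1, g2, g3, _⟩ := hg
    obtain ⟨k1, k2⟩ := tgt_semi S P K hP hT
    refine ⟨by simp; omega, by simp only; omega,
      allOk_L P K (fun e he => k1 e (by simp [he])) (fun e he => k1 e (by simp [he])) hg,
      allOk_semi P K k1, Y1, Y2, seg, .L Y1.length Y2.length y o, hs, by simp [lc], rfl⟩

theorem rule_fin [Fintype T] [Fintype N] : {d : MD (Symbol T N) | rule P d}.Finite := by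
  have h := List.finite_length_le (Symbol T N) K
  refine ((h.prod ((Set.finite_univ (α := Symbol T N)).prod (h.prod h))).image
    (fun t => (⟨t.1, t.2.1, t.2.2.1, t.2.2.2⟩ : MD (Symbol T N)))).subset ?_
  intro d hd
  obtain ⟨-, h4, h5⟩ := hP _ hd
  simp only at h4 h5
  have lx : d.x.length = d.x1.length + 1 + d.x2.length := by simp [MD.x]; omega
  exact ⟨(d.x1, d.c, d.x2, d.y), ⟨by simp; omega, trivial, by simp; omega, by simpa using h5⟩, rfl⟩

theorem ok_fin [Fintype T] [Fintype N] : {c | Ok P K c}.Finite := by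
  have h := List.finite_length_le (Symbol T N) K
  have h2 := rule_fin P K hP
  have h3 : {o : Option (MD (Symbol T N)) | ∀ d, o = some d → rule P d}.Finite := by
    refine ((h2.image some).insert none).subset ?_
    intro o ho
    cases o with
    | none => simp
    | some d => exact Or.inr ⟨d, ho d rfl, rfl⟩
  refine (((Set.finite_univ (α := Symbol T N)).image Cell.p).union ((h2.image Cell.M).union
    (((Set.finite_le_nat K).prod ((Set.finite_le_nat (2 * K)).prod (h.prod h3))).image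
      (fun t => Cell.L t.1 t.2.1 t.2.2.1 t.2.2.2)))).subset ?_
  rintro c (⟨v, rfl⟩ | ⟨d, hd, rfl⟩ | ⟨a, b, y, o, ⟨g1, g2, g3, g4⟩, rfl⟩)
  · exact Or.inl ⟨v, trivial, rfl⟩
  · exact Or.inr (Or.inl ⟨d, hd, rfl⟩)
  · exact Or.inr (Or.inr ⟨(a, b, y, o), ⟨g1, g2, g3, g4⟩, rfl⟩)

end

theorem main {T N : Type} [Fintype T] [Fintype N] (S : N)
    (P : Finset (List (Symbol T N) × List (Symbol T N)))
    (hP : ∀ r ∈ P, (∃ A : N, Symbol.nonterminal A ∈ r.1) ∧ r.1.length ≤ r.2.length) :
    ∃ (N' : Type) (_ : Fintype N') (S' : N') (P' : Finset (List (Symbol T N') × List (Symbol T N'))),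
      (∀ r ∈ P', CS r) ∧ ∀ w : List T,
        Relation.ReflTransGen (JStep (· ∈ P)) [Symbol.nonterminal S] (w.map Symbol.terminal) ↔
        Relation.ReflTransGen (JStep (· ∈ P')) [Symbol.nonterminal S'] (w.map Symbol.terminal) := by
  let K := P.sup (fun r => r.2.length) + 1
  have hK : ∀ r, r ∈ P → r.1 ≠ [] ∧ r.1.length ≤ r.2.length ∧ r.2.length ≤ K := by
    intro r hr
    obtain ⟨⟨A, hA⟩, h2⟩ := hP r hr
    exact ⟨ne_nil_of_mem hA, h2,
      (Finset.le_sup (f := fun r => r.2.length) hr).trans (Nat.le_succ _)⟩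
  have h1 : 1 ≤ K := Nat.le_add_left _ _
  obtain ⟨N', i, S', P', hc, hw⟩ := restrict (T := T) (Ok (· ∈ P) K) (ok_fin _ K hK)
    (HR S (· ∈ P) K) (3 * K + 1) (.L 0 0 [Symbol.nonterminal S] none)
    (Or.inr (Or.inr ⟨0, 0, _, none, ⟨by simp, by simp, by simpa using h1, by simp⟩, rfl⟩))
    (HR_ok S _ K hK)
  refine ⟨N', i, S', P', hc, fun w => ?_⟩
  rw [hw]
  exact ⟨complete S _ K hK h1 w, sound S _ K w⟩

end Pool.Agent.H63.JG
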