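import Pool.Agent.H63.LIDefs

/-! An l-group whose l-ideals are the lower sets of the incidence poset of a graph. -/

set_option autoImplicit false

namespace Pool.Agent.H63.LI

open Filter

abbrev Au : Type := ℝ ≃o ℝ

noncomputable def mx (f g : Au) : Au :=
  StrictMono.orderIsoOfSurjective (fun x => max (f x) (g x))
    (fun _ _ h => max_lt_max (f.strictMono h) (g.strictMono h)) fun y =>
      ⟨min (f.symm y) (g.symm y), by
        rcases le_total (f.symm y) (g.symm y) with h | h
        · simpa [h] using g.le_symm_apply.1 h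
        · simpa [h] using f.le_symm_apply.1 h⟩

noncomputable def mn (f g : Au) : Au :=
  StrictMono.orderIsoOfSurjective (fun x => min (f x) (g x))
    (fun _ _ h => min_lt_min (f.strictMono h) (g.strictMono h)) fun y =>
      ⟨max (f.symm y) (g.symm y), by
        rcases le_total (f.symm y) (g.symm y) with h | h
        · simpa [h] using f.symm_apply_le.1 h
        · simpa [h] using g.symm_apply_le.1 h⟩

@[simp] theorem mx_apply (f g : Au) (x : ℝ) : mx f g x = max (f x) (g x) := rfl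
@[simp] theorem mn_apply (f g : Au) (x : ℝ) : mn f g x = min (f x) (g x) := rfl

noncomputable def af (a b : ℝ) (h : 0 < a) : Au :=
  StrictMono.orderIsoOfSurjective (fun x => a * x + b)
    (fun _ _ h' => by dsimp only; nlinarith) fun y => ⟨(y - b) / a, by field_simp; ring⟩

@[simp] theorem af_apply (a b : ℝ) (h : 0 < a) (x : ℝ) : af a b h x = a * x + b := rfl

/-- translation by `m` near `-∞` and by `n` near `+∞` -/
def Tn (f : Au) (m n : ℤ) : Prop :=
  ∃ R : ℝ, (∀ x, x ≤ -R → f x = x + m) ∧ ∀ x, R ≤ x → f x = x + n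

theorem Tn.one : Tn 1 0 0 := ⟨0, by simp, by simp⟩

theorem Tn.mul {f g : Au} {m n m' n' : ℤ} (h : Tn f m n) (h' : Tn g m' n') :
    Tn (f * g) (m + m') (n + n') := by
  obtain ⟨R, h1, h2⟩ := h
  obtain ⟨R', h3, h4⟩ := h'
  have := le_max_left R R'
  have := le_max_right R R'
  have := le_abs_self (m' : ℝ)
  have := neg_abs_le (n' : ℝ)
  have := abs_nonneg (m' : ℝ)
  have := abs_nonneg (n' : ℝ)
  refine ⟨max R R' + |(m' : ℝ)| + |(n' : ℝ)|, fun x hx => ?_, fun x hx => ?_⟩
  · rw [RelIso.mul_apply, h3 x (by linarith), h1 _ (by linarith)]; push_cast; ring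
  · rw [RelIso.mul_apply, h4 x (by linarith), h2 _ (by linarith)]; push_cast; ring

theorem Tn.inv {f : Au} {m n : ℤ} (h : Tn f m n) : Tn f⁻¹ (-m) (-n) := by
  obtain ⟨R, h1, h2⟩ := h
  have := neg_abs_le (m : ℝ)
  have := le_abs_self (n : ℝ)
  have := abs_nonneg (m : ℝ)
  have := abs_nonneg (n : ℝ)
  refine ⟨R + |(m : ℝ)| + |(n : ℝ)|, fun x hx => f.injective ?_, fun x hx => f.injective ?_⟩
  · rw [RelIso.apply_inv_self, h1 _ (by push_cast; linarith)]; push_cast; ring
  · rw [RelIso.apply_inv_self, h2 _ (by push_cast; linarith)]; push_cast; ring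

theorem Tn.mx {f g : Au} {m n m' n' : ℤ} (h : Tn f m n) (h' : Tn g m' n') :
    Tn (mx f g) (max m m') (max n n') := by
  obtain ⟨R, h1, h2⟩ := h
  obtain ⟨R', h3, h4⟩ := h'
  have := le_max_left R R'
  have := le_max_right R R'
  refine ⟨max R R', fun x hx => ?_, fun x hx => ?_⟩
  · rw [mx_apply, h1 x (by linarith), h3 x (by linarith), max_add_add_left]; push_cast; rfl
  · rw [mx_apply, h2 x (by linarith), h4 x (by linarith), max_add_add_left]; push_cast; rfl

theorem Tn.mn {f g : Au} {m n m' n' : ℤ} (h : Tn f m n) (h' : Tn g m' n') :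
    Tn (mn f g) (min m m') (min n n') := by
  obtain ⟨R, h1, h2⟩ := h
  obtain ⟨R', h3, h4⟩ := h'
  have := le_max_left R R'
  have := le_max_right R R'
  refine ⟨max R R', fun x hx => ?_, fun x hx => ?_⟩
  · rw [mn_apply, h1 x (by linarith), h3 x (by linarith), min_add_add_left]; push_cast; rfl
  · rw [mn_apply, h2 x (by linarith), h4 x (by linarith), min_add_add_left]; push_cast; rfl

theorem Tn.one_eq {m n : ℤ} (h : Tn 1 m n) : m = 0 ∧ n = 0 := by
  obtain ⟨R, h1, h2⟩ := h
  exact ⟨by simpa using h1 _ le_rfl, by simpa using h2 _ le_rfl⟩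

theorem stretch {x0 x1 : ℝ} (h : x0 < x1) (R : ℝ) : ∃ k : Au, Tn k 0 0 ∧ k x0 ≤ -R ∧ R ≤ k x1 := by
  obtain ⟨l, hl, h1⟩ : ∃ l : ℝ, 1 ≤ l ∧ |R| + |x0 + x1| ≤ l * ((x1 - x0) / 2) := by
    refine ⟨max 1 ((|R| + |x0 + x1|) / ((x1 - x0) / 2)), le_max_left _ _, ?_⟩
    rw [← div_le_iff₀ (by linarith)]
    exact le_max_right _ _
  have := le_abs_self R
  have := abs_nonneg R
  have := le_abs_self (x0 + x1)
  have := neg_abs_le (x0 + x1)
  have := le_abs_self x0
  have := neg_abs_le x1
  have := abs_nonneg x0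
  have := abs_nonneg x1
  have := abs_nonneg (x0 + x1)
  set S := 2 * |R| + |x0| + |x1| + |x0 + x1|
  refine ⟨mx (mn (af l ((1 - l) * ((x0 + x1) / 2)) (by linarith))
    (mx 1 (af (1 / 2) (S / 2) (by norm_num)))) (mn 1 (af (1 / 2) (-S / 2) (by norm_num))),
    ⟨S, fun x hx => ?_, fun x hx => ?_⟩, ?_, ?_⟩
  · have : l * x + (1 - l) * ((x0 + x1) / 2) ≤ x := by nlinarith
    simp only [mx_apply, mn_apply, af_apply, RelIso.one_apply, Int.cast_zero, add_zero]
    rw [min_eq_left (show x ≤ 1 / 2 * x + -S / 2 by linarith)]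
    exact max_eq_right ((min_le_left _ _).trans this)
  · have : x ≤ l * x + (1 - l) * ((x0 + x1) / 2) := by nlinarith
    simp only [mx_apply, mn_apply, af_apply, RelIso.one_apply, Int.cast_zero, add_zero]
    rw [max_eq_left (show 1 / 2 * x + S / 2 ≤ x by linarith), min_eq_right this]
    exact max_eq_left (min_le_left _ _)
  · simp only [mx_apply, mn_apply, af_apply, RelIso.one_apply]
    exact max_le ((min_le_left _ _).trans (by nlinarith)) ((min_le_right _ _).trans (by linarith))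
  · simp only [mx_apply, mn_apply, af_apply, RelIso.one_apply]
    exact le_max_of_le_left (le_min (by nlinarith) (le_max_of_le_right (by linarith)))

theorem std (a b : Prop) [Decidable a] [Decidable b] : ∃ f : Au,
    Tn f (if a then 1 else 0) (if b then 1 else 0) ∧ (∀ x, x ≤ f x) ∧ (¬ a → ¬ b → f = 1) := by
  by_cases ha : a <;> by_cases hb : b <;> simp only [ha, hb, if_true, if_false]
  · exact ⟨af 1 1 one_pos, ⟨0, by simp, by simp⟩, by simp, by simp⟩
  · refine ⟨mx 1 (mn (af 1 1 one_pos) (af (1 / 2) 0 (by norm_num))), ⟨2, fun x hx => ?_,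
      fun x hx => ?_⟩, by simp, by simp⟩
    · simp only [mx_apply, mn_apply, af_apply, RelIso.one_apply]
      rw [min_eq_left (by linarith), max_eq_right (by linarith)]; simp
    · simp only [mx_apply, mn_apply, af_apply, RelIso.one_apply]
      rw [min_eq_right (by linarith), max_eq_left (by linarith)]; simp
  · refine ⟨mx 1 (mn (af 1 1 one_pos) (af 2 0 (by norm_num))), ⟨2, fun x hx => ?_,
      fun x hx => ?_⟩, by simp, by simp⟩
    · simp only [mx_apply, mn_apply, af_apply, RelIso.one_apply]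
      rw [min_eq_right (by linarith), max_eq_left (by linarith)]; simp
    · simp only [mx_apply, mn_apply, af_apply, RelIso.one_apply]
      rw [min_eq_left (by linarith), max_eq_right (by linarith)]; simp
  · exact ⟨1, Tn.one, by simp, by simp⟩

variable {E V : Type} (s t : E → V)

@[ext] structure GG where
  g : E → Au
  z : V → ℤ
  fg : {e | g e ≠ 1}.Finite
  fz : {v | z v ≠ 0}.Finite
  tn : ∀ e, Tn (g e) (z (s e)) (z (t e))

variable {s t}

theorem fin2 {I A : Type} {a : A} {f g : I → A} (op : A → A → A) (h : op a a = a)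
    (hf : {e | f e ≠ a}.Finite) (hg : {e | g e ≠ a}.Finite) : {e | op (f e) (g e) ≠ a}.Finite :=
  (hf.union hg).subset fun e he => by
    by_contra hn
    simp only [Set.mem_union, Set.mem_ofPred_eq, not_or, not_not] at hn
    exact he (by rw [hn.1, hn.2, h])

namespace GG

noncomputable instance : Mul (GG s t) := ⟨fun a b => ⟨fun e => a.g e * b.g e, fun v => a.z v + b.z v,
  fin2 (· * ·) (mul_one _) a.fg b.fg, fin2 (· + ·) (add_zero _) a.fz b.fz,
  fun e => (a.tn e).mul (b.tn e)⟩⟩
instance : One (GG s t) := ⟨⟨fun _ => 1, fun _ => 0, by simp, by simp, fun _ => Tn.one⟩⟩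
instance : Inv (GG s t) := ⟨fun a => ⟨fun e => (a.g e)⁻¹, fun v => -a.z v, by simpa using a.fg,
  by simpa using a.fz, fun e => (a.tn e).inv⟩⟩
noncomputable instance : Max (GG s t) := ⟨fun a b => ⟨fun e => mx (a.g e) (b.g e),
  fun v => max (a.z v) (b.z v), fin2 mx (by ext; simp) a.fg b.fg, fin2 max (max_self _) a.fz b.fz,
  fun e => (a.tn e).mx (b.tn e)⟩⟩
noncomputable instance : Min (GG s t) := ⟨fun a b => ⟨fun e => mn (a.g e) (b.g e),
  fun v => min (a.z v) (b.z v), fin2 mn (by ext; simp) a.fg b.fg, fin2 min (min_self _) a.fz b.fz,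
  fun e => (a.tn e).mn (b.tn e)⟩⟩

@[simp] theorem mul_g (a b : GG s t) (e : E) : (a * b).g e = a.g e * b.g e := rfl
@[simp] theorem mul_z (a b : GG s t) (v : V) : (a * b).z v = a.z v + b.z v := rfl
@[simp] theorem one_g (e : E) : (1 : GG s t).g e = 1 := rfl
@[simp] theorem one_z (v : V) : (1 : GG s t).z v = 0 := rfl
@[simp] theorem inv_g (a : GG s t) (e : E) : a⁻¹.g e = (a.g e)⁻¹ := rfl
@[simp] theorem inv_z (a : GG s t) (v : V) : a⁻¹.z v = -a.z v := rfl

noncomputable instance : Group (GG s t) := Group.ofLeftAxioms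
  (fun a b c => by ext1 <;> funext _ <;> simp [mul_assoc, add_assoc])
  (fun a => by ext1 <;> funext _ <;> simp) fun a => by ext1 <;> funext _ <;> simp

noncomputable instance : Lattice (GG s t) where
  le a b := (∀ e x, a.g e x ≤ b.g e x) ∧ ∀ v, a.z v ≤ b.z v
  le_refl _ := ⟨fun _ _ => le_rfl, fun _ => le_rfl⟩
  le_trans _ _ _ h h' := ⟨fun e x => (h.1 e x).trans (h'.1 e x), fun v => (h.2 v).trans (h'.2 v)⟩
  le_antisymm _ _ h h' := GG.ext (funext fun e => DFunLike.ext _ _ fun x =>
    (h.1 e x).antisymm (h'.1 e x)) (funext fun v => (h.2 v).antisymm (h'.2 v))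
  sup := max
  inf := min
  le_sup_left _ _ := ⟨fun _ _ => le_max_left _ _, fun _ => le_max_left _ _⟩
  le_sup_right _ _ := ⟨fun _ _ => le_max_right _ _, fun _ => le_max_right _ _⟩
  sup_le _ _ _ h h' := ⟨fun e x => max_le (h.1 e x) (h'.1 e x), fun v => max_le (h.2 v) (h'.2 v)⟩
  inf_le_left _ _ := ⟨fun _ _ => min_le_left _ _, fun _ => min_le_left _ _⟩
  inf_le_right _ _ := ⟨fun _ _ => min_le_right _ _, fun _ => min_le_right _ _⟩
  le_inf _ _ _ h h' := ⟨fun e x => le_min (h.1 e x) (h'.1 e x), fun v => le_min (h.2 v) (h'.2 v)⟩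

theorem le_def {a b : GG s t} : a ≤ b ↔ (∀ e x, a.g e x ≤ b.g e x) ∧ ∀ v, a.z v ≤ b.z v := Iff.rfl
@[simp] theorem sup_g (a b : GG s t) (e : E) : (a ⊔ b).g e = mx (a.g e) (b.g e) := rfl
@[simp] theorem sup_z (a b : GG s t) (v : V) : (a ⊔ b).z v = max (a.z v) (b.z v) := rfl
@[simp] theorem inf_g (a b : GG s t) (e : E) : (a ⊓ b).g e = mn (a.g e) (b.g e) := rfl
@[simp] theorem inf_z (a b : GG s t) (v : V) : (a ⊓ b).z v = min (a.z v) (b.z v) := rfl

theorem lgrp (a b c d : GG s t) (h : a ≤ b) : c * a * d ≤ c * b * d :=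
  ⟨fun e _ => (c.g e).monotone (h.1 e _), fun v => by simpa using h.2 v⟩

end GG

end Pool.Agent.H63.LI
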