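import Pool.Agent.H63.LI1

/-! The l-ideals of the group of a locally finite graph. -/

set_option autoImplicit false

namespace Pool.Agent.H63.LI

variable {E V : Type} {s t : E → V}

def Inc (_s _t : E → V) : Type := E ⊕ V

instance : PartialOrder (Inc s t) where
  le a b := a = b ∨ ∃ e, a = .inl e ∧ (b = .inr (s e) ∨ b = .inr (t e))
  le_refl _ := .inl rfl
  le_trans := by
    rintro _ _ _ (rfl | ⟨e, rfl, h⟩) (rfl | ⟨e', h', h''⟩)
    · exact .inl rfl
    · exact .inr ⟨e', h', h''⟩
    · exact .inr ⟨e, rfl, h⟩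
    · rcases h with rfl | rfl <;> cases h'
  le_antisymm := by
    rintro _ _ (rfl | ⟨e, rfl, h⟩) (h' | ⟨e', h', h''⟩)
    · rfl
    · rfl
    · exact h'.symm
    · rcases h with rfl | rfl <;> cases h'

theorem Inc.le_def {a b : Inc s t} :
    a ≤ b ↔ a = b ∨ ∃ e, a = .inl e ∧ (b = .inr (s e) ∨ b = .inr (t e)) := Iff.rfl

def Sp (a : GG s t) : Inc s t → Prop
  | .inl e => a.g e ≠ 1
  | .inr v => a.z v ≠ 0

theorem Sp.lower {a : GG s t} {p q : Inc s t} (h : p ≤ q) (hq : Sp a q) : Sp a p := by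
  rcases h with rfl | ⟨e, rfl, rfl | rfl⟩
  · exact hq
  · exact fun h => hq (h ▸ a.tn e).one_eq.1
  · exact fun h => hq (h ▸ a.tn e).one_eq.2

theorem Sp.two {a b c : GG s t} (h : ∀ e, a.g e = 1 → b.g e = 1 → c.g e = 1)
    (h' : ∀ v, a.z v = 0 → b.z v = 0 → c.z v = 0) {q : Inc s t} (hq : Sp c q) :
    Sp a q ∨ Sp b q := by
  by_contra hn
  rw [not_or] at hn
  cases q with
  | inl e => exact hq (h e (not_not.1 hn.1) (not_not.1 hn.2))
  | inr v => exact hq (h' v (not_not.1 hn.1) (not_not.1 hn.2))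

def low (N : LId (GG s t)) : LowerSet (Inc s t) :=
  ⟨{q | ∃ a ∈ N.1, Sp a q}, fun _ _ h ⟨a, ha, hq⟩ => ⟨a, ha, hq.lower h⟩⟩

def idS (L : LowerSet (Inc s t)) : Subgroup (GG s t) where
  carrier := {a | ∀ q, Sp a q → q ∈ L}
  one_mem' q hq := by cases q <;> exact absurd rfl hq
  mul_mem' {a b} ha hb q hq := (Sp.two (a := a) (b := b) (fun e h h' => by simp [h, h'])
    (fun e h h' => by simp [h, h']) hq).elim (ha q) (hb q)
  inv_mem' {a} ha q hq := (Sp.two (a := a) (b := a) (fun e h _ => by simp [h])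
    (fun e h _ => by simp [h]) hq).elim (ha q) (ha q)

def idl (L : LowerSet (Inc s t)) : LId (GG s t) := ⟨idS L,
  { normal := ⟨fun a ha g q hq => (Sp.two (a := a) (b := a) (fun e h _ => by simp [h])
      (fun e h _ => by simp [h]) hq).elim (ha q) (ha q)⟩
    sup_mem := fun a ha b hb q hq => (Sp.two (a := a) (b := b)
      (fun e h h' => by ext; simp [h, h']) (fun e h h' => by simp [h, h']) hq).elim (ha q) (hb q)
    inf_mem := fun a ha b hb q hq => (Sp.two (a := a) (b := b)
      (fun e h h' => by ext; simp [h, h']) (fun e h h' => by simp [h, h']) hq).elim (ha q) (hb q)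
    convex := fun a ha b hb c h1 h2 q hq => (Sp.two (a := a) (b := b)
      (fun e h h' => DFunLike.ext _ _ fun x => le_antisymm (by simpa [h'] using h2.1 e x)
        (by simpa [h] using h1.1 e x))
      (fun v h h' => le_antisymm (h' ▸ h2.2 v) (h ▸ h1.2 v)) hq).elim (ha q) (hb q) }⟩

open Classical in
noncomputable def single (e : E) (f : Au) (hf : Tn f 0 0) : GG s t :=
  ⟨fun e' => if e' = e then f else 1, fun _ => 0,
    (Set.finite_singleton e).subset fun e' h => by_contra fun h' => h (if_neg h'), by simp,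
    fun e' => by split_ifs; exacts [hf, Tn.one]⟩

theorem pos {N : LId (GG s t)} {q : Inc s t} (h : q ∈ low N) : ∃ p ∈ N.1, 1 ≤ p ∧ Sp p q := by
  obtain ⟨a, ha, hq⟩ := h
  rcases Sp.two (a := a ⊔ 1) (b := a⁻¹ ⊔ 1) (fun e h h' => DFunLike.ext _ _ fun x => by
      have h1 := DFunLike.congr_fun h x
      have h2 := DFunLike.congr_fun h' (a.g e x)
      simp at h1 h2
      exact le_antisymm h1 h2) (fun v h h' => by simp at h h'; omega) hq with h | h
  · exact ⟨_, N.2.sup_mem _ ha _ N.1.one_mem, le_sup_right, h⟩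
  · exact ⟨_, N.2.sup_mem _ (N.1.inv_mem ha) _ N.1.one_mem, le_sup_right, h⟩

theorem single_mem {N : LId (GG s t)} {e : E} (h : (.inl e : Inc s t) ∈ low N) (f : Au)
    (hf : Tn f 0 0) : single e f hf ∈ N.1 := by
  obtain ⟨p, hp, h1, h2⟩ := pos h
  obtain ⟨x0, hx⟩ : ∃ x, p.g e x ≠ x := not_forall.1 fun h => h2 (DFunLike.ext _ _ h)
  obtain ⟨R, a1, a2⟩ := id hf
  simp only [Int.cast_zero, add_zero] at a1 a2
  obtain ⟨k, hk, b1, b2⟩ := stretch (lt_of_le_of_ne (h1.1 e x0) hx.symm) R
  have hh := N.2.normal.conj_mem p hp (single e k hk)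
  set h := single e k hk * p * (single e k hk)⁻¹ with hdef
  have hpos : 1 ≤ h := by simpa using GG.lgrp 1 p (single e k hk) (single e k hk)⁻¹ h1
  have key : ∀ x, -R ≤ x → R ≤ h.g e x := fun x hx => by
    simp only [hdef, GG.mul_g, GG.inv_g, single, if_true, RelIso.mul_apply]
    refine b2.trans (k.monotone ((p.g e).monotone ?_))
    exact k.le_symm_apply.2 (b1.trans hx)
  have up : ∀ f : Au, (∀ x, x ≤ -R → f x = x) → (∀ x, R ≤ x → f x = x) → ∀ x, f x ≤ h.g e x := by
    intro f a1 a2 x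
    rcases le_total x (-R) with hx | hx
    · rw [a1 x hx]; exact hpos.1 e x
    · rcases le_total R x with hx' | hx'
      · rw [a2 x hx']; exact hpos.1 e x
      · exact ((f.monotone hx').trans (a2 R le_rfl).le).trans (key x hx)
  have le : ∀ f hf, (∀ x, f x ≤ h.g e x) → single e f hf ≤ h := fun f hf H =>
    ⟨fun e' x => by
      by_cases he : e' = e
      · subst he; simpa [single] using H x
      · simpa [single, he] using hpos.1 e' x, hpos.2⟩
  have e1 : (single e f⁻¹ (by simpa using hf.inv) : GG s t) = (single e f hf)⁻¹ := by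
    ext1 <;> funext e' <;> simp [single]
    split_ifs <;> simp
  have l2 := le f⁻¹ (by simpa using hf.inv) (up _
    (fun x hx => f.injective (by rw [RelIso.apply_inv_self, a1 x hx]))
    fun x hx => f.injective (by rw [RelIso.apply_inv_self, a2 x hx]))
  rw [e1] at l2
  refine N.2.convex _ (N.1.inv_mem hh) _ hh _ ?_ (le f hf (up f a1 a2))
  simpa using GG.lgrp _ _ h⁻¹ (single e f hf) l2

theorem zero_mem {N : LId (GG s t)} (S : Finset E) : ∀ a : GG s t, (∀ v, a.z v = 0) →
    (∀ e, a.g e ≠ 1 → e ∈ S ∧ (.inl e : Inc s t) ∈ low N) → a ∈ N.1 := by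
  classical
  induction S using Finset.induction_on with
  | empty =>
    intro a h1 h2
    rw [show a = 1 from GG.ext (funext fun e => by_contra fun h => by simpa using (h2 e h).1)
      (funext h1)]
    exact N.1.one_mem
  | insert e S _ ih =>
    intro a h1 h2
    by_cases he : a.g e = 1
    · refine ih a h1 fun e' h => ⟨?_, (h2 e' h).2⟩
      exact (Finset.mem_insert.1 (h2 e' h).1).resolve_left fun h' => h (h' ▸ he)
    · have hf : Tn (a.g e) 0 0 := by simpa [h1] using a.tn e
      have := ih ((single e _ hf)⁻¹ * a) (by simp [single, h1]) fun e' h => by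
        have h' : e' ≠ e := fun h' => h (by simp [single, h'])
        have h3 : a.g e' ≠ 1 := by simpa [single, h'] using h
        exact ⟨(Finset.mem_insert.1 (h2 e' h3).1).resolve_left h', (h2 e' h3).2⟩
      simpa using N.1.mul_mem (single_mem (h2 e he).2 _ hf) this

variable (hl : ∀ v, {e | s e = v ∨ t e = v}.Finite)
include hl

open Classical in
theorem tau (v : V) : ∃ τ : GG s t, 1 ≤ τ ∧ (∀ w, τ.z w = if w = v then 1 else 0) ∧
    ∀ e, τ.g e ≠ 1 → s e = v ∨ t e = v := by
  choose f h1 h2 h3 using fun e => std (s e = v) (t e = v)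
  have h4 : ∀ e, f e ≠ 1 → s e = v ∨ t e = v := fun e h => by_contra fun h' =>
    h (h3 e (fun a => h' (.inl a)) fun a => h' (.inr a))
  exact ⟨⟨f, fun w => if w = v then 1 else 0, (hl v).subset h4,
    (Set.finite_singleton v).subset fun w h => by_contra fun h' => h (if_neg h'), h1⟩,
    ⟨h2, fun w => by dsimp only [GG.one_z]; split_ifs <;> simp⟩, fun _ => rfl, h4⟩

open Classical in
theorem tau_mem {N : LId (GG s t)} {v : V} (h : (.inr v : Inc s t) ∈ low N) :
    ∃ τ ∈ N.1, ∀ w, τ.z w = if w = v then 1 else 0 := by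
  obtain ⟨p, hp, h1, h2⟩ := pos h
  obtain ⟨τ, a1, a2, -⟩ := tau hl v
  refine ⟨p ⊓ τ, N.2.convex _ N.1.one_mem _ hp _ (le_inf h1 a1) inf_le_left, fun w => ?_⟩
  have := h1.2 w
  have h3 : p.z v ≠ 0 := h2
  simp only [GG.inf_z, a2, GG.one_z] at this ⊢
  split_ifs with hw
  · subst hw; omega
  · omega

theorem all_mem {N : LId (GG s t)} (S : Finset V) : ∀ a : GG s t, (∀ v, a.z v ≠ 0 → v ∈ S) →
    (∀ q, Sp a q → q ∈ low N) → a ∈ N.1 := by
  classical
  induction S using Finset.induction_on with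
  | empty =>
    intro a h1 h2
    exact zero_mem a.fg.toFinset a (fun v => by_contra fun h => by simpa using h1 v h)
      fun e h => ⟨by simpa using h, h2 (.inl e) h⟩
  | insert v S _ ih =>
    intro a h1 h2
    by_cases hv : a.z v = 0
    · exact ih a (fun w h => (Finset.mem_insert.1 (h1 w h)).resolve_left fun h' => h (h' ▸ hv)) h2
    · obtain ⟨τ, hτ, hz⟩ := tau_mem hl (h2 (.inr v) hv)
      let zH : V → GG s t →* Multiplicative ℤ := fun w =>
        ⟨⟨fun a => .ofAdd (a.z w), rfl⟩, fun _ _ => rfl⟩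
      have hp : ∀ (n : ℤ) w, (τ ^ n).z w = n * τ.z w := fun n w =>
        congrArg Multiplicative.toAdd (map_zpow (zH w) τ n)
      have hm := N.1.zpow_mem hτ (a.z v)
      have := ih ((τ ^ a.z v)⁻¹ * a) (fun w h => by
        have h' : w ≠ v := fun h' => h (by simp [hp, hz, h'])
        exact (Finset.mem_insert.1 (h1 w (by simpa [hp, hz, h'] using h))).resolve_left h')
        fun q hq => (idS (low N)).mul_mem (fun q hq => ⟨_, N.1.inv_mem hm, hq⟩) h2 q hq
      simpa using N.1.mul_mem hm this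

theorem low_idl (L : LowerSet (Inc s t)) : low (idl L) = L := by
  classical
  ext q
  refine ⟨fun ⟨a, ha, hq⟩ => ha q hq, fun hq => ?_⟩
  cases q with
  | inl e =>
    obtain ⟨k, hk, h1, -⟩ := stretch (zero_lt_one' ℝ) 1
    refine ⟨single e k hk, ?_, ?_⟩
    · rintro (e' | v) h
      · by_cases he : e' = e
        · exact he ▸ hq
        · exact absurd (if_neg he) h
      · exact absurd rfl h
    · intro h
      simp only [single, if_true] at h
      rw [h] at h1
      norm_num at h1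
  | inr v =>
    obtain ⟨τ, -, a2, a3⟩ := tau hl v
    refine ⟨τ, ?_, by simp [Sp, a2]⟩
    rintro (e | w) h
    · exact L.lower (.inr ⟨e, rfl, (a3 e h).imp (fun h => by rw [h]) fun h => by rw [h]⟩) hq
    · by_cases hw : w = v
      · exact hw ▸ hq
      · exact absurd ((a2 w).trans (if_neg hw)) h

theorem mem_of {N : LId (GG s t)} (a : GG s t) (h : ∀ q, Sp a q → q ∈ low N) : a ∈ N.1 :=
  all_mem hl a.fz.toFinset a (fun _ h => a.fz.mem_toFinset.2 h) h

noncomputable def iso : LId (GG s t) ≃o LowerSet (Inc s t) where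
  toFun := low
  invFun := idl
  left_inv N := Subtype.ext (le_antisymm (fun a ha => mem_of hl a ha) fun a ha _ hq => ⟨a, ha, hq⟩)
  right_inv := low_idl hl
  map_rel_iff' {N N'} := ⟨fun h a ha => mem_of hl a fun _ hq => h ⟨a, ha, hq⟩,
    fun h _ ⟨a, ha, hq⟩ => ⟨a, h ha, hq⟩⟩

end Pool.Agent.H63.LI
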