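import Pool.Agent.H63.LI2
import Pool.Agent.H30.MulM

/-! A machine simulated by Horn axioms in lattices. -/

set_option autoImplicit false

namespace Pool.Agent.H63.LI

open Pool.Agent.H30.MulM

abbrev Pr : Type 1 := ∀ (L : Type) [Lattice L], (ℕ → L) → Prop

def Df (P : Pr) : Prop := ∃ φ : Fm, ∀ (L : Type) [Lattice L] (ρ : ℕ → L), φ.Sat ρ ↔ P L ρ

section defin

variable {P P' : Pr}

theorem Df.eq (i j : ℕ) : Df fun _ _ ρ => ρ i = ρ j := ⟨.eq (.var i) (.var j), fun _ _ _ => .rfl⟩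
theorem Df.le (i j : ℕ) : Df fun _ _ ρ => ρ i ≤ ρ j :=
  ⟨.eq (.inf (.var i) (.var j)) (.var i), fun _ _ _ => inf_eq_left⟩
theorem Df.not (h : Df P) : Df fun L _ ρ => ¬ P L ρ := by
  obtain ⟨φ, h⟩ := h
  exact ⟨.neg φ, fun L _ ρ => by rw [Fm.Sat, h]⟩
theorem Df.and (h : Df P) (h' : Df P') : Df fun L _ ρ => P L ρ ∧ P' L ρ := by
  obtain ⟨φ, h⟩ := h
  obtain ⟨ψ, h'⟩ := h'
  exact ⟨.and φ ψ, fun L _ ρ => by rw [Fm.Sat, h, h']⟩
theorem Df.of_iff (h : Df P) (e : ∀ (L : Type) [Lattice L] ρ, P L ρ ↔ P' L ρ) : Df P' := by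
  obtain ⟨φ, h⟩ := h
  exact ⟨φ, fun L _ ρ => (h L ρ).trans (e L ρ)⟩
theorem Df.or (h : Df P) (h' : Df P') : Df fun L _ ρ => P L ρ ∨ P' L ρ :=
  (h.not.and h'.not).not.of_iff fun _ _ _ => by tauto
theorem Df.imp (h : Df P) (h' : Df P') : Df fun L _ ρ => P L ρ → P' L ρ :=
  (h.and h'.not).not.of_iff fun _ _ _ => by tauto
theorem Df.all {R : ∀ (L : Type) [Lattice L], (ℕ → L) → L → Prop}
    (h : Df fun L _ ρ => R L (fun i => ρ (i + 1)) (ρ 0)) : Df fun L _ ρ => ∀ t, R L ρ t := by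
  obtain ⟨φ, h⟩ := h
  exact ⟨.all φ, fun L _ ρ => forall_congr' fun t => h L _⟩
theorem Df.ex {R : ∀ (L : Type) [Lattice L], (ℕ → L) → L → Prop}
    (h : Df fun L _ ρ => R L (fun i => ρ (i + 1)) (ρ 0)) : Df fun L _ ρ => ∃ t, R L ρ t :=
  (Df.all (R := fun L _ ρ t => ¬ R L ρ t) h.not).not.of_iff fun _ _ _ => by simp
theorem Df.exL {I : Type} {R : I → Pr} (h : ∀ i, Df (R i)) (l : List I) :
    Df fun L _ ρ => ∃ i ∈ l, R i L ρ := by
  induction l with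
  | nil => exact (Df.eq 0 0).not.of_iff fun _ _ _ => by simp
  | cons a l ih => exact ((h a).or ih).of_iff fun _ _ _ => by simp
theorem Df.exF {I : Type} [Finite I] {R : I → Pr} (h : ∀ i, Df (R i)) :
    Df fun L _ ρ => ∃ i, R i L ρ := by
  have := Fintype.ofFinite I
  exact (Df.exL h Finset.univ.toList).of_iff fun _ _ _ => by simp
theorem Df.allF {I : Type} [Finite I] {R : I → Pr} (h : ∀ i, Df (R i)) :
    Df fun L _ ρ => ∀ i, R i L ρ :=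
  (Df.exF fun i => (h i).not).not.of_iff fun _ _ _ => by simp

end defin

section preds

variable {L : Type} [Lattice L]

def JI (x : L) : Prop := ∃ y, y ≤ x ∧ ¬ x ≤ y ∧ ∀ z, z ≤ x → ¬ x ≤ z → z ≤ y
def Pt (C x : L) : Prop := JI x ∧ ¬ x ≤ C
def Rl (C A B x y : L) : Prop := Pt C x ∧ Pt C y ∧ ∃ m e1 e2, JI m ∧ m ≤ C ∧ JI e1 ∧ JI e2 ∧
  e1 ≤ A ∧ e2 ≤ B ∧ e1 ≤ x ∧ e1 ≤ m ∧ e2 ≤ m ∧ e2 ≤ y
def Sk (S : L → L → Prop) : ℕ → L → L → Prop
  | 0, x, y => x = y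
  | k + 1, x, y => ∃ z, Sk S k x z ∧ S z y
def OK (S M : L → L → Prop) (k p : ℕ) (x y : L) : Prop :=
  if k = 0 then M x y else if k = 1 then M y x else
    y = x ∧ ∃ u w, M u w ∧ ∃ j : Fin p, Sk S (j + 1) w x ∧ j.1 + 1 < p

variable {Q : Type} (ins : Q → Bool → Option Q × ℕ × ℕ)

def Ax (S : L → L → Prop) (M : Q × Bool → L → L → Prop) (Bd : Option Q → L) (o : L) : Prop :=
  (∃ y, S o y) ∧ (∀ x y, S x y → ∃ z, S y z) ∧ (∀ x y y', S x y → S x y' → y = y') ∧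
  (∀ x y, S x y → ¬ x ≤ Bd none) ∧ ∀ s : Q × Bool, M s o o ∧
    (∀ x x' y, S x x' → M s x y → ∃ y', M s x' y' ∧ Sk S ((ins s.1 s.2).2.2 + 1) y y') ∧
    ∀ x y, x ≤ Bd (some s.1) → OK S (M s) (ins s.1 s.2).2.1 ((ins s.1 s.2).2.2 + 1) x y →
      y ≤ Bd (ins s.1 s.2).1

theorem Sk.add {S : L → L → Prop} {m n : ℕ} {x y z : L} (h : Sk S m x y) (h' : Sk S n y z) :
    Sk S (m + n) x z := by
  induction n generalizing z with
  | zero => exact h' ▸ h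
  | succ n ih => obtain ⟨w, h1, h2⟩ := h'; exact ⟨w, ih h1, h2⟩

theorem Sk.split {S : L → L → Prop} {m n : ℕ} {x z : L} (h : Sk S (m + n) x z) :
    ∃ y, Sk S m x y ∧ Sk S n y z := by
  induction n generalizing z with
  | zero => exact ⟨z, h, rfl⟩
  | succ n ih =>
    obtain ⟨w, h1, h2⟩ := h
    obtain ⟨y, h3, h4⟩ := ih h1
    exact ⟨y, h3, w, h4, h2⟩

variable {ins}

theorem sound {S : L → L → Prop} {M : Q × Bool → L → L → Prop} {Bd : Option Q → L} {o : L}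
    (H : Ax ins S M Bd o) {q : Option Q} {N : ℕ} (h : Halt ins q N) :
    ∀ x, Sk S N o x → ¬ x ≤ Bd q := by
  obtain ⟨h1, h2, h3, h4, h5⟩ := H
  have tot : ∀ N x, Sk S N o x → ∃ y, S x y := by
    intro N x hx
    cases N with
    | zero => exact hx ▸ h1
    | succ N => obtain ⟨z, -, hz⟩ := hx; exact h2 _ _ hz
  have ex : ∀ N, ∃ x, Sk S N o x := by
    intro N
    induction N with
    | zero => exact ⟨o, rfl⟩
    | succ N ih =>
      obtain ⟨x, hx⟩ := ih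
      obtain ⟨y, hy⟩ := tot N x hx
      exact ⟨y, x, hx, hy⟩
  have fn : ∀ N x y, Sk S N o x → Sk S N o y → x = y := by
    intro N
    induction N with
    | zero => exact fun x y a b => a.symm.trans b
    | succ N ih =>
      rintro x y ⟨z, a, b⟩ ⟨z', a', b'⟩
      exact h3 z x y b (ih _ _ a' a ▸ b')
  have mul : ∀ s N x y, Sk S N o x → Sk S (((ins s.1 s.2).2.2 + 1) * N) o y → M s x y := by
    intro s N
    induction N with
    | zero => intro x y a b; exact a ▸ b ▸ (h5 s).1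
    | succ N ih =>
      rintro x' y' ⟨x, a, a'⟩ b
      obtain ⟨y, hy⟩ := ex (((ins s.1 s.2).2.2 + 1) * N)
      obtain ⟨y'', c, c'⟩ := (h5 s).2.1 x x' y a' (ih x y a hy)
      exact fn _ _ _ (hy.add c') b ▸ c
  induction h with
  | stop N =>
    intro x hx
    obtain ⟨y, hy⟩ := tot N x hx
    exact h4 x y hy
  | @step s N N' b hok _ ih =>
    intro x hx hb
    obtain ⟨y, hy⟩ := ex N'
    refine ih y hy ((h5 (s, b)).2.2 x y hb ?_)
    unfold ok at hok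
    unfold OK
    dsimp only
    split_ifs at hok ⊢
    · exact mul (s, b) _ _ _ hx (hok ▸ hy)
    · exact mul (s, b) _ _ _ hy (hok ▸ hx)
    · obtain ⟨rfl, hd⟩ := hok
      set p := (ins s b).2.2 + 1
      have hp : 0 < p := Nat.succ_pos _
      have hm := Nat.mod_lt N' hp
      have h0 : N' % p ≠ 0 := fun h => hd (Nat.dvd_of_mod_eq_zero h)
      rw [← Nat.div_add_mod N' p] at hx
      obtain ⟨w, a, a'⟩ := hx.split
      obtain ⟨u, hu⟩ := ex (N' / p)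
      refine ⟨fn _ _ _ hy (by rw [← Nat.div_add_mod N' p]; exact a.add a'), u, w,
        mul (s, b) _ _ _ hu a, ⟨N' % p - 1, by omega⟩, ?_, by dsimp only; omega⟩
      rwa [show N' % p - 1 + 1 = N' % p by omega]

end preds

theorem Df.ji (i : ℕ) : Df fun _ _ ρ => JI (ρ i) :=
  .ex <| (Df.le 0 (i + 1)).and <| (Df.le (i + 1) 0).not.and <| .all <|
    (Df.le 0 (i + 1 + 1)).imp <| (Df.le (i + 1 + 1) 0).not.imp (.le 0 1)

theorem Df.pt (c i : ℕ) : Df fun _ _ ρ => Pt (ρ c) (ρ i) := (Df.ji i).and (Df.le i c).not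

theorem Df.rl (c a b i j : ℕ) : Df fun _ _ ρ => Rl (ρ c) (ρ a) (ρ b) (ρ i) (ρ j) :=
  (Df.pt c i).and <| (Df.pt c j).and <| .ex <| .ex <| .ex <| (Df.ji 2).and <|
    (Df.le 2 (c + 1 + 1 + 1)).and <| (Df.ji 1).and <| (Df.ji 0).and <|
    (Df.le 1 (a + 1 + 1 + 1)).and <| (Df.le 0 (b + 1 + 1 + 1)).and <|
    (Df.le 1 (i + 1 + 1 + 1)).and <| (Df.le 1 2).and <| (Df.le 0 2).and (.le 0 (j + 1 + 1 + 1))

theorem Df.sk (k : ℕ) : ∀ c a b i j : ℕ,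
    Df fun _ _ ρ => Sk (Rl (ρ c) (ρ a) (ρ b)) k (ρ i) (ρ j) := by
  induction k with
  | zero => exact fun _ _ _ i j => .eq i j
  | succ k ih =>
    exact fun c a b i j => .ex ((ih (c + 1) (a + 1) (b + 1) (i + 1) 0).and
      (.rl (c + 1) (a + 1) (b + 1) 0 (j + 1)))

theorem Df.ok (k p c a b a' b' i j : ℕ) : Df fun _ _ ρ =>
    OK (Rl (ρ c) (ρ a) (ρ b)) (Rl (ρ c) (ρ a') (ρ b')) k p (ρ i) (ρ j) := by
  unfold OK
  split_ifs
  · exact .rl c a' b' i j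
  · exact .rl c a' b' j i
  · refine (Df.eq j i).and <| .ex <| .ex <| (Df.rl (c + 1 + 1) (a' + 1 + 1) (b' + 1 + 1) 1 0).and <|
      .exF fun n => ?_
    by_cases h : n.1 + 1 < p
    · exact (Df.sk (n + 1) (c + 1 + 1) (a + 1 + 1) (b + 1 + 1) 0 (i + 1 + 1)).of_iff
        fun _ _ _ => by simp [h]
    · exact (Df.eq 0 0).not.of_iff fun _ _ _ => by simp [h]

theorem Df.ax {Q : Type} [Finite Q] (ins : Q → Bool → Option Q × ℕ × ℕ) (a b : Q × Bool → ℕ)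
    (d : Option Q → ℕ) : Df fun _ _ ρ => Ax ins (Rl (ρ 2) (ρ 3) (ρ 4))
      (fun s => Rl (ρ 2) (ρ (a s)) (ρ (b s))) (fun q => ρ (d q)) (ρ 1) :=
  (Df.ex (.rl 3 4 5 2 0)).and <|
  (Df.all <| .all <| (Df.rl 4 5 6 1 0).imp (.ex (.rl 5 6 7 1 0))).and <|
  (Df.all <| .all <| .all <| (Df.rl 5 6 7 2 1).imp <| (Df.rl 5 6 7 2 0).imp (.eq 1 0)).and <|
  (Df.all <| .all <| (Df.rl 4 5 6 1 0).imp (Df.le 1 (d none + 1 + 1)).not).and <|
  .allF fun s => (Df.rl 2 (a s) (b s) 1 1).and <|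
    (Df.all <| .all <| .all <| (Df.rl 5 6 7 2 1).imp <|
      (Df.rl 5 (a s + 1 + 1 + 1) (b s + 1 + 1 + 1) 2 0).imp <| .ex <|
      (Df.rl 6 (a s + 1 + 1 + 1 + 1) (b s + 1 + 1 + 1 + 1) 2 0).and (.sk _ 6 7 8 1 0)).and <|
    .all <| .all <| (Df.le 1 (d (some s.1) + 1 + 1)).imp <|
      (Df.ok _ _ 4 5 6 (a s + 1 + 1) (b s + 1 + 1) 1 0).imp (.le 0 (d _ + 1 + 1))

end Pool.Agent.H63.LI
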