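import Pool.Agent.H63.LI3

/-! Undecidability of the theory of lattices of l-ideals. -/

set_option autoImplicit false

namespace Pool.Agent.H63.LI

open Pool.Agent.H30.MulM

theorem ji_iff {P : Type} [PartialOrder P] {x : LowerSet P} : JI x ↔ ∃ q, x = LowerSet.Iic q := by
  constructor
  · rintro ⟨y, -, h2, h3⟩
    obtain ⟨q, hq, hq'⟩ := Set.not_subset.1 h2
    refine ⟨q, le_antisymm (by_contra fun h => hq' ?_) (LowerSet.Iic_le.2 hq)⟩
    exact LowerSet.Iic_le.1 (h3 _ (LowerSet.Iic_le.2 hq) h)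
  · rintro ⟨q, rfl⟩
    refine ⟨LowerSet.Iio q, fun _ h => le_of_lt h, fun h => lt_irrefl q (LowerSet.Iic_le.1 h),
      fun z h1 h2 r hr => lt_of_le_of_ne (h1 hr) fun e => h2 (LowerSet.Iic_le.2 (e ▸ hr))⟩

section std

variable {Q : Type} (ins : Q → Bool → Option Q × ℕ × ℕ)

def fn : Option (Q × Bool) → ℕ → ℕ
  | none, n => n + 1
  | some s, n => ((ins s.1 s.2).2.2 + 1) * n

def src : Option (Q × Bool) × ℕ × Bool → ℕ ⊕ Option (Q × Bool) × ℕ
  | (_, n, false) => .inl n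
  | (l, n, true) => .inl (fn ins l n)

def tgt (e : Option (Q × Bool) × ℕ × Bool) : ℕ ⊕ Option (Q × Bool) × ℕ := .inr (e.1, e.2.1)

theorem locfin [Finite Q] (v : ℕ ⊕ Option (Q × Bool) × ℕ) :
    {e | src ins e = v ∨ tgt e = v}.Finite := by
  refine (Set.finite_univ.prod ((Set.finite_Iic (v.elim id Prod.snd)).prod
    Set.finite_univ)).subset ?_
  rintro ⟨l, n, b⟩ (rfl | rfl)
  · cases b
    · simp [src]
    · cases l <;> simp [src, fn, Nat.le_mul_of_pos_left]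
  · simp [tgt]

abbrev PP : Type := Inc (src ins) (tgt (Q := Q))

theorem max_inr {v : ℕ ⊕ Option (Q × Bool) × ℕ} {q : PP ins}
    (h : (show PP ins from .inr v) ≤ q) : q = .inr v := by
  rcases h with h | ⟨_, h, -⟩
  · exact h.symm
  · cases h

theorem min_inl {e : Option (Q × Bool) × ℕ × Bool} {q : PP ins}
    (h : q ≤ (show PP ins from .inl e)) : q = .inl e := by
  rcases h with h | ⟨_, -, h | h⟩
  · exact h
  · cases h
  · cases h

def pt (n : ℕ) : LowerSet (PP ins) := .Iic (.inr (.inl n))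
def Bs (p : ℕ → Prop) : LowerSet (PP ins) :=
  ⟨{q | ∀ n, q = .inr (.inl n) → p n}, fun _ _ h hq n e => hq n (max_inr ins (e ▸ h))⟩
def Ed (l : Option (Q × Bool)) (b : Bool) : LowerSet (PP ins) :=
  ⟨{q | ∃ n, q = .inl (l, n, b)}, fun _ _ h ⟨n, e⟩ => ⟨n, min_inl ins (e ▸ h)⟩⟩

variable {ins}

theorem pt_le {n : ℕ} {p : ℕ → Prop} : pt ins n ≤ Bs ins p ↔ p n :=
  LowerSet.Iic_le.trans ⟨fun h => h n rfl, fun h m e => by cases e; exact h⟩

theorem pt_inj {m n : ℕ} (h : pt ins m = pt ins n) : m = n :=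
  (pt_le (p := (m = ·))).1 (h ▸ pt_le.2 rfl)

theorem pt_iff {x : LowerSet (PP ins)} : Pt (Bs ins fun _ => False) x ↔ ∃ n, x = pt ins n := by
  constructor
  · rintro ⟨h1, h2⟩
    obtain ⟨q, rfl⟩ := ji_iff.1 h1
    by_contra hn
    exact h2 (LowerSet.Iic_le.2 fun n e => hn ⟨n, by rw [e]; rfl⟩)
  · rintro ⟨n, rfl⟩
    exact ⟨ji_iff.2 ⟨_, rfl⟩, fun h => pt_le.1 h⟩

def RR (ins : Q → Bool → Option Q × ℕ × ℕ) (l : Option (Q × Bool)) :=
  Rl (Bs ins fun _ => False) (Ed ins l false) (Ed ins l true)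

theorem rr_iff {l : Option (Q × Bool)} {x y : LowerSet (PP ins)} :
    RR ins l x y ↔ ∃ n, x = pt ins n ∧ y = pt ins (fn ins l n) := by
  constructor
  · rintro ⟨h1, h2, m, e1, e2, a1, a2, a3, a4, a5, a6, a7, a8, a9, a10⟩
    obtain ⟨i, rfl⟩ := pt_iff.1 h1
    obtain ⟨j, rfl⟩ := pt_iff.1 h2
    obtain ⟨m, rfl⟩ := ji_iff.1 a1
    obtain ⟨e1, rfl⟩ := ji_iff.1 a3
    obtain ⟨e2, rfl⟩ := ji_iff.1 a4
    obtain ⟨n, rfl⟩ := LowerSet.Iic_le.1 a5
    obtain ⟨n', rfl⟩ := LowerSet.Iic_le.1 a6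
    have b2 := LowerSet.Iic_le.1 a2
    have hn : n = n' := by
      rcases LowerSet.Iic_le.1 a8 with rfl | ⟨_, h, rfl | rfl⟩
      · cases min_inl ins (LowerSet.Iic_le.1 a9)
      · cases h
        exact (b2 n rfl).elim
      · cases h
        rcases LowerSet.Iic_le.1 a9 with h | ⟨_, h, h' | h'⟩
        · cases h
        · cases h; cases h'
        · cases h; cases h'; rfl
    subst hn
    rcases LowerSet.Iic_le.1 a7 with h | ⟨_, h, h' | h'⟩
    · cases h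
    · cases h; cases h'
      rcases LowerSet.Iic_le.1 a10 with h | ⟨_, h, h' | h'⟩
      · cases h
      · cases h; cases h'; exact ⟨_, rfl, rfl⟩
      · cases h'
    · cases h'
  · rintro ⟨n, rfl, rfl⟩
    exact ⟨pt_iff.2 ⟨_, rfl⟩, pt_iff.2 ⟨_, rfl⟩, .Iic (.inr (.inr (l, n))),
      .Iic (.inl (l, n, false)), .Iic (.inl (l, n, true)), ji_iff.2 ⟨_, rfl⟩,
      LowerSet.Iic_le.2 fun _ e => (by cases e), ji_iff.2 ⟨_, rfl⟩, ji_iff.2 ⟨_, rfl⟩,
      LowerSet.Iic_le.2 ⟨n, rfl⟩, LowerSet.Iic_le.2 ⟨n, rfl⟩,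
      LowerSet.Iic_le.2 (.inr ⟨_, rfl, .inl rfl⟩), LowerSet.Iic_le.2 (.inr ⟨_, rfl, .inr rfl⟩),
      LowerSet.Iic_le.2 (.inr ⟨_, rfl, .inr rfl⟩), LowerSet.Iic_le.2 (.inr ⟨_, rfl, .inl rfl⟩)⟩

theorem sk_iff {k n : ℕ} {y : LowerSet (PP ins)} :
    Sk (RR ins none) k (pt ins n) y ↔ y = pt ins (n + k) := by
  induction k generalizing y with
  | zero => exact eq_comm
  | succ k ih =>
    constructor
    · rintro ⟨z, h1, h2⟩
      obtain ⟨m, h3, rfl⟩ := rr_iff.1 h2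
      rw [← pt_inj ((ih.1 h1).symm.trans h3)]
      rfl
    · rintro rfl
      exact ⟨_, ih.2 rfl, rr_iff.2 ⟨_, rfl, rfl⟩⟩

theorem ax_std : Ax ins (RR ins none) (fun s => RR ins (some s))
    (fun q => Bs ins fun N => ¬ Halt ins q N) (pt ins 0) := by
  refine ⟨⟨_, rr_iff.2 ⟨0, rfl, rfl⟩⟩, fun x y h => ?_, fun x y y' h h' => ?_, fun x y h => ?_,
    fun s => ⟨rr_iff.2 ⟨0, rfl, rfl⟩, fun x x' y h h' => ?_, fun x y hx h => ?_⟩⟩
  · obtain ⟨n, -, rfl⟩ := rr_iff.1 h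
    exact ⟨_, rr_iff.2 ⟨_, rfl, rfl⟩⟩
  · obtain ⟨n, rfl, rfl⟩ := rr_iff.1 h
    obtain ⟨n', e, rfl⟩ := rr_iff.1 h'
    rw [pt_inj e]
  · obtain ⟨n, rfl, -⟩ := rr_iff.1 h
    exact fun h => pt_le.1 h (.stop _)
  · obtain ⟨n, rfl, rfl⟩ := rr_iff.1 h
    obtain ⟨n', e, rfl⟩ := rr_iff.1 h'
    obtain rfl := pt_inj e
    exact ⟨_, rr_iff.2 ⟨_, rfl, rfl⟩, sk_iff.2 rfl⟩
  · suffices ∃ N N', x = pt ins N ∧ y = pt ins N' ∧
        ok (ins s.1 s.2).2.1 ((ins s.1 s.2).2.2 + 1) N N' by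
      obtain ⟨N, N', rfl, rfl, hok⟩ := this
      exact pt_le.2 fun h => pt_le.1 hx (.step s.2 hok h)
    unfold OK at h
    unfold ok
    split_ifs at h ⊢
    · obtain ⟨n, rfl, rfl⟩ := rr_iff.1 h
      exact ⟨_, _, rfl, rfl, rfl⟩
    · obtain ⟨n, rfl, rfl⟩ := rr_iff.1 h
      exact ⟨_, _, rfl, rfl, rfl⟩
    · obtain ⟨rfl, u, w, h1, j, h2, h3⟩ := h
      obtain ⟨n, rfl, rfl⟩ := rr_iff.1 h1
      refine ⟨_, _, sk_iff.1 h2, sk_iff.1 h2, rfl, fun hd => ?_⟩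
      exact absurd (Nat.le_of_dvd (by omega) ((Nat.dvd_add_right ⟨n, rfl⟩).1 hd)) (by omega)

end std

section sent

theorem Tr.Bd.mono {m n : ℕ} (e : m ≤ n) : ∀ {t : Tr}, t.Bd m → t.Bd n
  | .var _, h => lt_of_lt_of_le h e
  | .inf _ _, h => ⟨h.1.mono e, h.2.mono e⟩
  | .sup _ _, h => ⟨h.1.mono e, h.2.mono e⟩

theorem Tr.exists_bd : ∀ t : Tr, ∃ n, t.Bd n
  | .var i => ⟨i + 1, Nat.lt_succ_self i⟩
  | .inf s t | .sup s t => by
    obtain ⟨m, hm⟩ := s.exists_bd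
    obtain ⟨n, hn⟩ := t.exists_bd
    exact ⟨m + n, hm.mono (by omega), hn.mono (by omega)⟩

theorem Fm.Bd.mono : ∀ {φ : Fm} {m n : ℕ}, φ.Bd m → m ≤ n → φ.Bd n
  | .eq _ _, _, _, h, e => ⟨h.1.mono e, h.2.mono e⟩
  | .neg φ, _, _, h, e => Fm.Bd.mono (φ := φ) h e
  | .and _ _, _, _, h, e => ⟨h.1.mono e, h.2.mono e⟩
  | .all φ, _, _, h, e => Fm.Bd.mono (φ := φ) h (Nat.succ_le_succ e)

theorem Fm.exists_bd : ∀ φ : Fm, ∃ n, φ.Bd n
  | .eq s t => by
    obtain ⟨m, hm⟩ := s.exists_bd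
    obtain ⟨n, hn⟩ := t.exists_bd
    exact ⟨m + n, hm.mono (by omega), hn.mono (by omega)⟩
  | .neg φ => φ.exists_bd
  | .and φ ψ => by
    obtain ⟨m, hm⟩ := φ.exists_bd
    obtain ⟨n, hn⟩ := ψ.exists_bd
    exact ⟨m + n, hm.mono (by omega), hn.mono (by omega)⟩
  | .all φ => by
    obtain ⟨m, hm⟩ := φ.exists_bd
    exact ⟨m, hm.mono (by omega)⟩

def allN : ℕ → Fm → Fm
  | 0, φ => φ
  | n + 1, φ => allN n φ.all

theorem allN_bd : ∀ (n k : ℕ) (φ : Fm), φ.Bd (k + n) → (allN n φ).Bd k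
  | 0, _, _, h => h
  | n + 1, k, φ, h => allN_bd n k φ.all h

theorem allN_sat {L : Type} [Lattice L] :
    ∀ (n : ℕ) (φ : Fm), (∀ ρ : ℕ → L, φ.Sat ρ) → ∀ ρ : ℕ → L, (allN n φ).Sat ρ
  | 0, _, h => h
  | n + 1, φ, h => allN_sat n φ.all fun _ _ => h _

theorem allN_sat' {L : Type} [Lattice L] : ∀ (n : ℕ) (φ : Fm) (ρ σ : ℕ → L),
    (allN n φ).Sat ρ → ∃ ρ' : ℕ → L, (∀ i < n, ρ' i = σ i) ∧ φ.Sat ρ'
  | 0, _, ρ, _, h => ⟨ρ, by simp, h⟩
  | n + 1, φ, ρ, σ, h => by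
    obtain ⟨ρ', h1, h⟩ := allN_sat' n φ.all ρ (fun i => σ (i + 1)) h
    refine ⟨_, ?_, h (σ 0)⟩
    rintro (_ | i) hi
    · rfl
    · exact h1 i (by omega)

theorem allN_code : ∀ (n : ℕ) {F : ℕ → Fm}, (Primrec fun m => (F m).code) →
    Primrec fun m => (allN n (F m)).code
  | 0, _, h => h
  | n + 1, F, h => allN_code n (F := fun m => (F m).all) (Primrec₂.natPair.comp (.const 3) h)

theorem Tr.code_inj : ∀ {s t : Tr}, s.code = t.code → s = t := by
  intro s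
  induction s with
  | var i =>
    intro t h
    cases t <;> simp only [Tr.code, Nat.pair_eq_pair] at h <;> try omega
    rw [h.2]
  | inf _ _ ih ih' =>
    intro t h
    cases t <;> simp only [Tr.code, Nat.pair_eq_pair] at h <;> try omega
    rw [ih h.2.1, ih' h.2.2]
  | sup _ _ ih ih' =>
    intro t h
    cases t <;> simp only [Tr.code, Nat.pair_eq_pair] at h <;> try omega
    rw [ih h.2.1, ih' h.2.2]

theorem Fm.code_inj : ∀ {φ ψ : Fm}, φ.code = ψ.code → φ = ψ := by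
  intro φ
  induction φ with
  | eq u v =>
    intro ψ h
    cases ψ <;> simp only [Fm.code, Nat.pair_eq_pair] at h <;> try omega
    rw [Tr.code_inj h.2.1, Tr.code_inj h.2.2]
  | neg φ ih =>
    intro ψ h
    cases ψ <;> simp only [Fm.code, Nat.pair_eq_pair] at h <;> try omega
    rw [ih h.2]
  | and φ φ' ih ih' =>
    intro ψ h
    cases ψ <;> simp only [Fm.code, Nat.pair_eq_pair] at h <;> try omega
    rw [ih h.2.1, ih' h.2.2]
  | all φ ih =>
    intro ψ h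
    cases ψ <;> simp only [Fm.code, Nat.pair_eq_pair] at h <;> try omega
    rw [ih h.2]

theorem val_iso {L L' : Type} [Lattice L] [Lattice L'] (e : L ≃o L') (ρ : ℕ → L) :
    ∀ t : Tr, t.val (fun i => e (ρ i)) = e (t.val ρ)
  | .var _ => rfl
  | .inf s t => by rw [Tr.val, Tr.val, val_iso e ρ s, val_iso e ρ t, e.map_inf]
  | .sup s t => by rw [Tr.val, Tr.val, val_iso e ρ s, val_iso e ρ t, e.map_sup]

theorem sat_iso {L L' : Type} [Lattice L] [Lattice L'] (e : L ≃o L') :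
    ∀ (φ : Fm) (ρ : ℕ → L), φ.Sat (fun i => e (ρ i)) ↔ φ.Sat ρ
  | .eq s t, ρ => by simp only [Fm.Sat, val_iso, e.injective.eq_iff]
  | .neg φ, ρ => not_congr (sat_iso e φ ρ)
  | .and φ ψ, ρ => and_congr (sat_iso e φ ρ) (sat_iso e ψ ρ)
  | .all φ, ρ => by
    rw [Fm.Sat, e.surjective.forall]
    refine forall_congr' fun t => ?_
    rw [← sat_iso e φ (push t ρ)]
    refine iff_of_eq (congrArg _ (funext fun i => ?_))
    cases i <;> rfl

def num (z s : Fm) : ℕ → Fm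
  | 0 => z
  | n + 1 => .neg (.all (.all (.all (.all (.all (.neg (.and (num z s n) s)))))))

theorem num_code (z s : Fm) : Primrec fun n => (num z s n).code := by
  refine (Primrec.nat_rec₁ (f := fun _ c => Nat.pair 1 (Nat.pair 3 (Nat.pair 3 (Nat.pair 3
    (Nat.pair 3 (Nat.pair 3 (Nat.pair 1 (Nat.pair 2 (Nat.pair c s.code))))))))) z.code
      (Primrec₂.natPair.comp (.const 1) <|
      Primrec₂.natPair.comp (.const 3) <| Primrec₂.natPair.comp (.const 3) <|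
      Primrec₂.natPair.comp (.const 3) <| Primrec₂.natPair.comp (.const 3) <|
      Primrec₂.natPair.comp (.const 3) <| Primrec₂.natPair.comp (.const 1) <|
      Primrec₂.natPair.comp (.const 2) <|
      Primrec₂.natPair.comp Primrec.snd (.const _)).to₂).of_eq fun n => ?_
  induction n with
  | zero => rfl
  | succ n ih => simp only [num, Fm.code, ← ih]

theorem num_bd {z s : Fm} {b : ℕ} (hz : z.Bd b) (hs : s.Bd b) : ∀ n, (num z s n).Bd b
  | 0 => hz
  | n + 1 => ⟨(num_bd hz hs n).mono (by omega), hs.mono (by omega)⟩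

theorem undec : ¬ ComputablePred Theory := by
  obtain ⟨Q, hQ, ins, q0, hu⟩ := exists_undec
  obtain ⟨K, ⟨ι⟩⟩ := Finite.exists_equiv_fin ((Q × Bool) ⊕ (Q × Bool) ⊕ Option Q)
  let a : Q × Bool → ℕ := fun s => ι (.inl s) + 5
  let b : Q × Bool → ℕ := fun s => ι (.inr (.inl s)) + 5
  let d : Option Q → ℕ := fun s => ι (.inr (.inr s)) + 5
  obtain ⟨z, hz⟩ := Df.eq 1 0
  obtain ⟨s, hs⟩ := (Df.rl 2 3 4 0 5).and ((Df.eq 1 6).and ((Df.eq 2 7).and
    ((Df.eq 3 8).and (Df.eq 4 9))))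
  obtain ⟨ψ, hψ⟩ := (Df.ax ins a b d).and (Df.le 0 (d (some q0)))
  obtain ⟨B, hb, hb', hb''⟩ := (Fm.and z (.and s ψ)).exists_bd
  have hn : ∀ n (L : Type) [Lattice L] (ρ : ℕ → L), (num z s n).Sat ρ ↔
      Sk (Rl (ρ 2) (ρ 3) (ρ 4)) n (ρ 1) (ρ 0) := by
    intro n L _
    induction n with
    | zero => exact hz L
    | succ n ih =>
      intro ρ
      simp only [num, Fm.Sat, ih, hs, push, not_forall, not_not, Sk]
      constructor
      · rintro ⟨_, _, _, _, t, h1, h2, rfl, rfl, rfl, rfl⟩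
        exact ⟨t, h1, h2⟩
      · rintro ⟨t, h1, h2⟩
        exact ⟨_, _, _, _, t, h1, h2, rfl, rfl, rfl, rfl⟩
  let F : ℕ → Fm := fun n => .neg (.and (num z s (2 ^ n)) ψ)
  have key : ∀ n, Theory (allN (B + K + 5) (F n)).code ↔ Halt ins (some q0) (2 ^ n) := by
    intro n
    constructor
    · rintro ⟨φ, h1, -, h3⟩
      rw [Fm.code_inj h1] at h3
      have h4 := (sat_iso (iso (locfin ins)) _ _).2 (h3 (GG (src ins) tgt) GG.lgrp)
      let σ : ℕ → LowerSet (PP ins) := push (pt ins (2 ^ n)) (push (pt ins 0)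
        (push (Bs ins fun _ => False) (push (Ed ins none false) (push (Ed ins none true)
        fun i => if h : i < K then Sum.elim (fun s => Ed ins (some s) false)
          (Sum.elim (fun s => Ed ins (some s) true) fun q => Bs ins fun N => ¬ Halt ins q N)
          (ι.symm ⟨i, h⟩) else ⊥))))
      obtain ⟨ρ, h5, h6⟩ := allN_sat' _ _ _ σ h4
      have ha : ∀ s, ρ (a s) = Ed ins (some s) false := fun s => by
        rw [h5 _ (by have := (ι (.inl s)).2; simp only [a]; omega)]; simp [σ, a, push]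
      have hb : ∀ s, ρ (b s) = Ed ins (some s) true := fun s => by
        rw [h5 _ (by have := (ι (.inr (.inl s))).2; simp only [b]; omega)]; simp [σ, b, push]
      have hd : ∀ q, ρ (d q) = Bs ins fun N => ¬ Halt ins q N := fun s => by
        rw [h5 _ (by have := (ι (.inr (.inr s))).2; simp only [d]; omega)]; simp [σ, d, push]
      by_contra hh
      apply h6
      rw [Fm.Sat, hn, hψ]
      simp only [ha, hb, hd, h5 0 (by omega), h5 1 (by omega), h5 2 (by omega), h5 3 (by omega),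
        h5 4 (by omega)]
      exact ⟨sk_iff.2 (by simp [σ, push]), ax_std, pt_le.2 hh⟩
    · intro h
      refine ⟨_, rfl, allN_bd _ _ _ ⟨(num_bd hb hb' _).mono (by omega), hb''.mono (by omega)⟩,
        fun G _ _ _ => allN_sat _ (F n) (fun ρ h' => ?_) _⟩
      rw [Fm.Sat, hn, hψ] at h'
      exact sound h'.2.1 h _ h'.1 h'.2.2
  have hp : Primrec fun n => (allN (B + K + 5) (F n)).code := by
    have h2 : Primrec fun n : ℕ => 2 ^ n :=
      (Primrec₂.unpaired'.1 Nat.Primrec.pow).comp (.const 2) .id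
    refine allN_code _ (F := F) ?_
    exact Primrec₂.natPair.comp (.const 1) <| Primrec₂.natPair.comp (.const 2) <|
      Primrec₂.natPair.comp ((num_code z s).comp h2) (.const _)
  rintro ⟨dd, hd⟩
  exact hu (ComputablePred.of_eq ⟨fun n => dd _, hd.comp hp.to_comp⟩ key)

end sent

end Pool.Agent.H63.LI
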