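import Mathlib

/-! Lattices of l-ideals of l-groups and first-order sentences about lattices. -/

set_option autoImplicit false

namespace Pool.Agent.H63.LI

/-- `N` is an l-ideal: a normal subgroup that is a convex sublattice. -/
structure IsLId {G : Type} [Group G] [Lattice G] (N : Subgroup G) : Prop where
  normal : N.Normal
  sup_mem : ∀ a ∈ N, ∀ b ∈ N, a ⊔ b ∈ N
  inf_mem : ∀ a ∈ N, ∀ b ∈ N, a ⊓ b ∈ N
  convex : ∀ a ∈ N, ∀ b ∈ N, ∀ c, a ≤ c → c ≤ b → c ∈ N

/-- The l-ideals of `G`. -/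
def LId (G : Type) [Group G] [Lattice G] : Type := {N : Subgroup G // IsLId N}

variable {G : Type} [Group G] [Lattice G]

/-- ordered by inclusion -/
instance : PartialOrder (LId G) := Subtype.partialOrder _

instance : InfSet (LId G) := ⟨fun S => ⟨⨅ N ∈ S, N.1,
  { normal := ⟨fun _ ha g => by
      simp only [Subgroup.mem_iInf] at ha ⊢
      exact fun N hN => N.2.normal.conj_mem _ (ha N hN) g⟩
    sup_mem := fun _ ha _ hb => by
      simp only [Subgroup.mem_iInf] at ha hb ⊢
      exact fun N hN => N.2.sup_mem _ (ha N hN) _ (hb N hN)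
    inf_mem := fun _ ha _ hb => by
      simp only [Subgroup.mem_iInf] at ha hb ⊢
      exact fun N hN => N.2.inf_mem _ (ha N hN) _ (hb N hN)
    convex := fun _ ha _ hb c h h' => by
      simp only [Subgroup.mem_iInf] at ha hb ⊢
      exact fun N hN => N.2.convex _ (ha N hN) _ (hb N hN) c h h' }⟩⟩

/-- The lattice of l-ideals: meets and joins are those of the inclusion order. -/
instance : CompleteLattice (LId G) := completeLatticeOfInf _ fun _ =>
  ⟨fun N hN => (iInf₂_le N hN : _ ≤ N.1), fun N hN => (le_iInf₂ hN : N.1 ≤ _)⟩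

/-- Terms of the language of lattices (variables are de Bruijn indices). -/
inductive Tr : Type
  | var (i : ℕ) : Tr
  | inf (s t : Tr) : Tr
  | sup (s t : Tr) : Tr

/-- First-order formulas of the language of lattices. -/
inductive Fm : Type
  | eq (s t : Tr) : Fm
  | neg (φ : Fm) : Fm
  | and (φ ψ : Fm) : Fm
  | all (φ : Fm) : Fm

/-- All variables are below `n`. -/
def Tr.Bd (n : ℕ) : Tr → Prop
  | .var i => i < n
  | .inf s t => s.Bd n ∧ t.Bd n
  | .sup s t => s.Bd n ∧ t.Bd n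

/-- All free variables are below `n`; sentences are the formulas with `Bd 0`. -/
def Fm.Bd : ℕ → Fm → Prop
  | n, .eq s t => s.Bd n ∧ t.Bd n
  | n, .neg φ => φ.Bd n
  | n, .and φ ψ => φ.Bd n ∧ ψ.Bd n
  | n, .all φ => φ.Bd (n + 1)

/-- The valuation with a new variable `0`. -/
def push {L : Type} (t : L) (ρ : ℕ → L) : ℕ → L
  | 0 => t
  | n + 1 => ρ n

/-- The value of a term in a lattice. -/
def Tr.val {L : Type} [Lattice L] (ρ : ℕ → L) : Tr → L
  | .var i => ρ i
  | .inf s t => s.val ρ ⊓ t.val ρ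
  | .sup s t => s.val ρ ⊔ t.val ρ

/-- Truth in a lattice. -/
def Fm.Sat {L : Type} [Lattice L] : Fm → (ℕ → L) → Prop
  | .eq s t, ρ => s.val ρ = t.val ρ
  | .neg φ, ρ => ¬ φ.Sat ρ
  | .and φ ψ, ρ => φ.Sat ρ ∧ ψ.Sat ρ
  | .all φ, ρ => ∀ t, φ.Sat (push t ρ)

/-- Gödel numbers of terms. -/
def Tr.code : Tr → ℕ
  | .var i => Nat.pair 0 i
  | .inf s t => Nat.pair 1 (Nat.pair s.code t.code)
  | .sup s t => Nat.pair 2 (Nat.pair s.code t.code)

/-- Gödel numbers of formulas. -/
def Fm.code : Fm → ℕ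
  | .eq s t => Nat.pair 0 (Nat.pair s.code t.code)
  | .neg φ => Nat.pair 1 φ.code
  | .and φ ψ => Nat.pair 2 (Nat.pair φ.code ψ.code)
  | .all φ => Nat.pair 3 φ.code

/-- `n` is the Gödel number of a sentence true in the lattice of l-ideals of every l-group. -/
def Theory (n : ℕ) : Prop :=
  ∃ φ : Fm, φ.code = n ∧ φ.Bd 0 ∧ ∀ (G : Type) [Group G] [Lattice G],
    (∀ a b c d : G, a ≤ b → c * a * d ≤ c * b * d) → φ.Sat fun _ => (⊥ : LId G)

end Pool.Agent.H63.LI
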