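import Pool.Agent.H63.FGDefs

set_option autoImplicit false

/-! Left permitting E0L grammars. -/

namespace Pool.Agent.H63.FG

/-- A left permitting E0L grammar over `V = T ∪ N`: a non-empty axiom and finitely many rules
`(a → x, U, ∅)`, written `(a, x, U)`, with `a ∈ V`, `x ∈ V^*`, `U ⊆ N`. -/
structure LPG (T N : Type) where
  ax : List (Symbol T N)
  ax_ne : ax ≠ []
  rules : Set (Symbol T N × List (Symbol T N) × Set N)
  fin : rules.Finite

variable {T N : Type}

/-- `rs` lists the rules `(a_i → x_i, U_i)` used at the positions of `u = a_1 ⋯ a_n`;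
`v = x_1 ⋯ x_n`, and every symbol of `U_i` occurs in `a_1 ⋯ a_{i-1}`. -/
def LPG.Step (G : LPG T N) (u v : List (Symbol T N)) : Prop :=
  ∃ rs : List (Symbol T N × List (Symbol T N) × Set N), (∀ r ∈ rs, r ∈ G.rules) ∧
    u = rs.map (fun r => r.1) ∧ v = rs.flatMap (fun r => r.2.1) ∧
    ∀ r1 r r2, rs = r1 ++ r :: r2 → ∀ B ∈ r.2.2, Symbol.nonterminal B ∈ r1.map (fun r => r.1)

def LPG.lang (G : LPG T N) : Set (List T) :=
  {w | Relation.ReflTransGen G.Step G.ax (w.map Symbol.terminal)}

end Pool.Agent.H63.FG
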