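import Pool.Agent.H63.FG3
import Pool.Agent.H63.LPDefs

set_option autoImplicit false

/-! ET0L is contained in LP-E0L; an inductive form of the LP-E0L step. -/

namespace Pool.Agent.H63.FG

open Function Relation

section
variable {T N : Type}

inductive Par (P : Set (Symbol T N × List (Symbol T N) × Set N)) :
    List (Symbol T N) → List (Symbol T N) → List (Symbol T N) → Prop
  | nil (pre) : Par P pre [] []
  | cons {pre X y U u v} : (X, y, U) ∈ P → (∀ B ∈ U, Symbol.nonterminal B ∈ pre) →
      Par P (pre ++ [X]) u v → Par P pre (X :: u) (y ++ v)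

theorem par_iff (P : Set (Symbol T N × List (Symbol T N) × Set N)) (pre u v : List (Symbol T N)) :
    Par P pre u v ↔ ∃ rs : List (Symbol T N × List (Symbol T N) × Set N), (∀ r ∈ rs, r ∈ P) ∧
      u = rs.map (fun r => r.1) ∧ v = rs.flatMap (fun r => r.2.1) ∧ ∀ r1 r r2, rs = r1 ++ r :: r2 →
        ∀ B ∈ r.2.2, Symbol.nonterminal B ∈ pre ++ r1.map (fun r => r.1) := by
  constructor
  · intro h
    induction h with
    | nil => exact ⟨[], by simp, rfl, rfl, by simp⟩
    | @cons pre X y U u v h1 h2 _ ih =>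
      obtain ⟨rs, g1, rfl, rfl, g2⟩ := ih
      refine ⟨(X, y, U) :: rs, by simpa [h1] using g1, rfl, rfl, fun r1 r r2 e B hB => ?_⟩
      cases r1 with
      | nil => cases e; simpa using h2 B hB
      | cons a r1 => cases e; simpa using g2 _ _ _ rfl B hB
  · rintro ⟨rs, g1, rfl, rfl, g2⟩
    induction rs generalizing pre with
    | nil => exact .nil _
    | cons a rs ih =>
      refine .cons (U := a.2.2) (g1 a (by simp)) (by simpa using g2 [] a rs rfl)
        (ih _ (fun r k => g1 r (by simp [k])) fun r1 r r2 e B hB => ?_)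
      simpa using g2 (a :: r1) r r2 (by simp [e]) B hB

theorem step_iff (G : LPG T N) (u v : List (Symbol T N)) : G.Step u v ↔ Par G.rules [] u v := by
  simp [par_iff, LPG.Step]

theorem par_cons {P : Set (Symbol T N × List (Symbol T N) × Set N)} {pre u v : List (Symbol T N)}
    {X : Symbol T N} (h : Par P pre (X :: u) v) : ∃ y U v', v = y ++ v' ∧ (X, y, U) ∈ P ∧
      (∀ B ∈ U, Symbol.nonterminal B ∈ pre) ∧ Par P (pre ++ [X]) u v' := by
  cases h with
  | cons h1 h2 h3 => exact ⟨_, _, _, rfl, h1, h2, h3⟩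

theorem par_append {P : Set (Symbol T N × List (Symbol T N) × Set N)}
    {pre u1 u2 v : List (Symbol T N)} : Par P pre (u1 ++ u2) v ↔
      ∃ v1 v2, v = v1 ++ v2 ∧ Par P pre u1 v1 ∧ Par P (pre ++ u1) u2 v2 := by
  induction u1 generalizing pre v with
  | nil =>
    refine ⟨fun h => ⟨[], v, rfl, .nil _, by simpa using h⟩, ?_⟩
    rintro ⟨v1, v2, rfl, h1, h2⟩
    cases h1; simpa using h2
  | cons X u ih =>
    constructor
    · intro h
      obtain ⟨y, U, v', rfl, h1, h2, h3⟩ := par_cons h
      obtain ⟨v1, v2, rfl, h4, h5⟩ := ih.1 h3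
      exact ⟨y ++ v1, v2, by simp, .cons h1 h2 h4, by simpa using h5⟩
    · rintro ⟨v1, v2, rfl, h1, h2⟩
      obtain ⟨y, U, v', rfl, h3, h4, h5⟩ := par_cons h1
      rw [List.append_assoc]
      exact .cons h3 h4 (ih.2 ⟨_, _, rfl, h5, by simpa using h2⟩)

abbrev EN (G : ETG T N) := (Fin G.n ⊕ Bool) ⊕ Symbol T N

def ct (G : ETG T N) (k : Fin G.n ⊕ Bool) : Symbol T (EN G) := .nonterminal (.inl k)
def bar (G : ETG T N) (x : List (Symbol T N)) : List (Symbol T (EN G)) :=
  x.map fun X => .nonterminal (.inr X)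

inductive ER (G : ETG T N) : Symbol T (EN G) × List (Symbol T (EN G)) × Set (EN G) → Prop
  | go (k k') : k ≠ .inr true → ER G (ct G k, [ct G k'], ∅)
  | fin : ER G (ct G (.inr true), [], ∅)
  | tab (h X y) : (X, y) ∈ G.table h → ER G (.nonterminal (.inr X), bar G y, {.inl (.inl h)})
  | idle (X) : ER G (.nonterminal (.inr X), bar G [X], {.inl (.inr false)})
  | out (a) : ER G (.nonterminal (.inr (.terminal a)), [.terminal a], {.inl (.inr true)})

def simE [Fintype T] [Fintype N] (G : ETG T N) : LPG T (EN G) where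
  ax := ct G (.inr false) :: bar G G.ax
  ax_ne := by simp
  rules := {r | ER G r}
  fin := by
    refine (Set.finite_univ.prod (((List.finite_length_le _ 1).union
      ((Set.finite_iUnion G.fin).image fun r => bar G r.2)).prod Set.finite_univ)).subset ?_
    intro r h
    simp only [Set.mem_ofPred_eq] at h
    cases h with
    | tab h X y g => exact ⟨trivial, Or.inr ⟨(X, y), Set.mem_iUnion.2 ⟨h, g⟩, rfl⟩, trivial⟩
    | _ => simp [bar]

theorem e_down (G : ETG T N) (k : Fin G.n ⊕ Bool) (x : List (Symbol T N)) :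
    ∀ (pre : List (Symbol T N)) v, Par {r | ER G r} (ct G k :: bar G pre) (bar G x) v →
      (∃ h, k = .inl h ∧ ∃ rs : List (Symbol T N × List (Symbol T N)), (∀ r ∈ rs, r ∈ G.table h) ∧
        x = rs.map (fun r => r.1) ∧ v = bar G (rs.flatMap fun r => r.2)) ∨
      (k = .inr false ∧ v = bar G x) ∨
      (k = .inr true ∧ ∃ w : List T, x = w.map .terminal ∧ v = w.map .terminal) := by
  induction x with
  | nil =>
    intro pre v h
    cases h
    rcases k with h | _ | _
    · exact Or.inl ⟨h, rfl, [], by simp, rfl, rfl⟩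
    · exact Or.inr (Or.inl ⟨rfl, rfl⟩)
    · exact Or.inr (Or.inr ⟨rfl, [], rfl, rfl⟩)
  | cons X x ih =>
    intro pre v h
    obtain ⟨y, U, v', rfl, h1, h2, h3⟩ := par_cons h
    have h4 := ih (pre ++ [X]) v' (by simpa [bar] using h3)
    simp only [Set.mem_ofPred_eq] at h1
    cases h1 with
    | tab j _ y g =>
      obtain rfl : .inl j = k := by simpa [ct, bar] using h2
      obtain ⟨_, ⟨⟩, rs, g1, rfl, rfl⟩ | ⟨⟨⟩, -⟩ | ⟨⟨⟩, -⟩ := h4
      exact Or.inl ⟨j, rfl, (X, y) :: rs, by simpa [g] using g1, rfl, by simp [bar]⟩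
    | idle =>
      obtain rfl : .inr false = k := by simpa [ct, bar] using h2
      obtain ⟨_, ⟨⟩, -⟩ | ⟨-, rfl⟩ | ⟨⟨⟩, -⟩ := h4
      exact Or.inr (Or.inl ⟨rfl, rfl⟩)
    | out a =>
      obtain rfl : .inr true = k := by simpa [ct, bar] using h2
      obtain ⟨_, ⟨⟩, -⟩ | ⟨⟨⟩, -⟩ | ⟨-, w, rfl, rfl⟩ := h4
      exact Or.inr (Or.inr ⟨rfl, a :: w, rfl, rfl⟩)

theorem e_up (G : ETG T N) (k : Fin G.n ⊕ Bool) {α : Type} (f : α → Symbol T N)
    (g : α → List (Symbol T (EN G))) (l : List α)
    (h : ∀ a ∈ l, ER G (.nonterminal (.inr (f a)), g a, {.inl k})) :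
    ∀ pre, ct G k ∈ pre → Par {r | ER G r} pre (bar G (l.map f)) (l.flatMap g) := by
  induction l with
  | nil => exact fun pre _ => .nil _
  | cons a l ih =>
    exact fun pre hp => .cons (h a (by simp)) (by rintro _ rfl; exact hp)
      (ih (fun a k => h a (by simp [k])) _ (by simp [hp]))

theorem simE_lang [Fintype T] [Fintype N] (G : ETG T N) : (simE G).lang = G.lang := by
  ext w
  constructor
  · intro h
    have : ∀ u, ReflTransGen (simE G).Step (simE G).ax u →
        (∃ k x, u = ct G k :: bar G x ∧ ReflTransGen G.Step G.ax x) ∨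
        ∃ w ∈ G.lang, u = w.map .terminal := by
      intro u k
      induction k with
      | refl => exact Or.inl ⟨_, _, rfl, .refl⟩
      | tail _ k ih =>
        rw [step_iff] at k
        obtain ⟨k0, x, rfl, g⟩ | ⟨w, g, rfl⟩ := ih
        · obtain ⟨y, U, v', rfl, h1, -, h3⟩ := par_cons k
          have h4 := e_down G k0 x [] v' h3
          simp only [simE, Set.mem_ofPred_eq] at h1
          generalize e : (ct G k0, y, U) = r at h1
          cases h1 with
          | go k1 k' hk =>
            obtain ⟨e1, rfl, rfl⟩ := Prod.mk.inj e |>.imp id Prod.mk.inj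
            obtain rfl : k0 = k1 := by simpa [ct] using e1
            obtain ⟨h, rfl, rs, g1, rfl, rfl⟩ | ⟨-, rfl⟩ | ⟨rfl, -⟩ := h4
            · refine Or.inl ⟨k', _, rfl, ?_⟩
              by_cases e2 : rs = []
              · subst e2; exact g
              · exact g.tail ⟨by simpa using e2, h, rs, g1, rfl, rfl⟩
            · exact Or.inl ⟨k', _, rfl, g⟩
            · exact absurd rfl hk
          | fin =>
            obtain ⟨e1, rfl, rfl⟩ := Prod.mk.inj e |>.imp id Prod.mk.inj
            obtain rfl : k0 = .inr true := by simpa [ct] using e1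
            obtain ⟨_, ⟨⟩, -⟩ | ⟨⟨⟩, -⟩ | ⟨-, w, rfl, rfl⟩ := h4
            exact Or.inr ⟨w, g, rfl⟩
          | _ => simp [ct] at e
        · cases w with
          | nil => cases k; exact Or.inr ⟨[], g, rfl⟩
          | cons a w =>
            obtain ⟨y, U, v', rfl, h1, -⟩ := par_cons k
            simp only [simE, Set.mem_ofPred_eq] at h1
            generalize e : (Symbol.terminal a, y, U) = r at h1
            cases h1 <;> simp [ct] at e
    obtain ⟨k, x, e, -⟩ | ⟨w', g, e⟩ := this _ h
    · have : ct G k ∈ w.map (Symbol.terminal (N := EN G)) := by simp [e]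
      simp [ct] at this
    · rwa [(List.map_injective_iff.2 fun _ _ h => Symbol.terminal.inj h) e]
  · intro h
    have : ∀ x, ReflTransGen G.Step G.ax x → ∀ k,
        ReflTransGen (simE G).Step (simE G).ax (ct G k :: bar G x) := by
      intro x g
      induction g with
      | refl =>
        refine fun k => .single ((step_iff _ _ _).2 (.cons (y := [_]) (.go _ k (by simp)) (by simp) ?_))
        simpa [simE, bar, ← List.map_eq_flatMap] using
          e_up G (.inr false) id (fun X => bar G [X]) G.ax (fun a _ => .idle a) _ (by simp)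
      | tail _ g ih =>
        obtain ⟨-, h, rs, g1, rfl, rfl⟩ := g
        refine fun k => (ih (.inl h)).tail ((step_iff _ _ _).2
          (.cons (y := [_]) (.go _ k (by simp)) (by simp) ?_))
        simpa [simE, bar, List.map_flatMap] using e_up G (.inl h) (fun r : Symbol T N × List (Symbol T N) =>
          r.1) (fun r => bar G r.2) rs (fun a ha => .tab h _ _ (g1 a ha)) _ (by simp)
    refine (this _ h (.inr true)).tail ((step_iff _ _ _).2 (.cons (y := []) .fin (by simp) ?_))
    simpa [simE, ← List.map_eq_flatMap] using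
      e_up G (.inr true) .terminal (fun a => [.terminal a]) w (fun a _ => .out a) _ (by simp)

end

end Pool.Agent.H63.FG
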