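import Pool.Agent.H63.LP1

set_option autoImplicit false

/-! Left permitting E0L grammars run incrementing counter machines backwards. -/

namespace Pool.Agent.H63.FG

open Function Relation IC

inductive SS (Q R : Type)
  | z | a (q : Q) | b (i : Ins R) (q : Q) | h

instance {Q R : Type} [Fintype Q] [Fintype R] : Fintype (SS Q R) :=
  Fintype.ofEquiv _ (proxy_equiv% (SS Q R))

section
variable {Q R : Type} [DecidableEq R]

abbrev PN (Q R : Type) := SS Q R ⊕ Option (R × Bool)
abbrev PS (Q R : Type) := Symbol (Fin 3) (PN Q R)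

def ss (S : SS Q R) : PS Q R := .nonterminal (.inl S)
def dl : PS Q R := .nonterminal (.inr none)
def tk2 (l : List (R × Bool)) : List (PS Q R) := l.map fun z => .nonterminal (.inr (some z))
def c2 (l : List (R × Bool)) : R → ℕ := cn (l.map Prod.fst)

def dr : SS Q R → List (PS Q R)
  | .b (.out a) _ => [dl, .terminal a]
  | .h => []
  | _ => [dl]

def need : SS Q R → Set (PN Q R)
  | .b (.inc r) _ => {.inr (some (r, true))}
  | _ => ∅

inductive QR (Ed : Q → Ins R → Q → Prop) (q0 qf : Q) : PS Q R × List (PS Q R) × Set (PN Q R) → Prop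
  | ter (a) : QR Ed q0 qf (.terminal a, [.terminal a], ∅)
  | gen (r) : QR Ed q0 qf (ss .z, ss .z :: tk2 [(r, false)], ∅)
  | start : QR Ed q0 qf (ss .z, [ss (.a qf)], ∅)
  | pick (p i q) : Ed p i q → QR Ed q0 qf (ss (.a q), [ss (.b i p)], ∅)
  | stop : QR Ed q0 qf (ss (.a q0), [ss .h], ∅)
  | back (i p) : QR Ed q0 qf (ss (.b i p), [ss (.a p)], ∅)
  | push (r p) : QR Ed q0 qf (ss (.b (.dec r) p), ss (.a p) :: tk2 [(r, false)], ∅)
  | halt : QR Ed q0 qf (ss .h, [], ∅)
  | keep (r β S) : (∀ p, S ≠ .b (.zero r) p) → S ≠ .h →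
      QR Ed q0 qf (.nonterminal (.inr (some (r, false))), tk2 [(r, β)], {.inl S})
  | del (r) : QR Ed q0 qf (.nonterminal (.inr (some (r, true))), [], ∅)
  | chk (S) : QR Ed q0 qf (dl, dr S, insert (.inl S) (need S))

def simP [Fintype Q] [Fintype R] (Ed : Q → Ins R → Q → Prop) (q0 qf : Q) : LPG (Fin 3) (PN Q R) where
  ax := [ss .z, dl]
  ax_ne := by simp
  rules := {r | QR Ed q0 qf r}
  fin := (Set.finite_univ.prod ((List.finite_length_le _ 2).prod Set.finite_univ)).subset (by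
    intro r h
    simp only [Set.mem_ofPred_eq] at h
    cases h with
    | chk S => rcases S with _ | _ | ⟨_ | _ | _ | _ | _, _⟩ | _ <;> simp [dr]
    | _ => simp [tk2])

variable (Ed : Q → Ins R → Q → Prop) (q0 qf : Q)

omit [DecidableEq R] in
theorem p_ter (w : List (Fin 3)) : ∀ pre v, Par {r | QR Ed q0 qf r} pre (w.map .terminal) v ↔
    v = w.map .terminal := by
  induction w with
  | nil => exact fun pre v => ⟨fun h => by cases h; rfl, by rintro rfl; exact .nil _⟩
  | cons a w ih =>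
    refine fun pre v => ⟨fun h => ?_, ?_⟩
    · obtain ⟨y, U, v', rfl, h1, -, h3⟩ := par_cons h
      rw [(ih _ _).1 h3]
      simp only [Set.mem_ofPred_eq] at h1
      generalize e : (Symbol.terminal a, y, U) = r at h1
      cases h1 <;> simp [ss, dl] at e
      simp [e]
    · rintro rfl
      exact .cons (y := [_]) (.ter a) (by simp) ((ih _ _).2 rfl)

theorem p_tok (S : SS Q R) (l : List (R × Bool)) : ∀ (pre : List (R × Bool)) v,
    Par {r | QR Ed q0 qf r} (ss S :: tk2 pre) (tk2 l) v → ∃ l', v = tk2 l' ∧ c2 l' ≤ c2 l ∧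
      (∀ r, (r, true) ∈ l → c2 l' r < c2 l r) ∧ (∀ r p, S = .b (.zero r) p → c2 l' r = 0) ∧
      (S = .h → l' = []) := by
  induction l with
  | nil => intro pre v h; cases h; exact ⟨[], rfl, le_rfl, by simp, fun _ _ _ => rfl, fun _ => rfl⟩
  | cons x l ih =>
    intro pre v h
    obtain ⟨y, U, v', rfl, h1, h2, h3⟩ := par_cons h
    obtain ⟨l', rfl, g1, g2, g3, g4⟩ := ih (pre ++ [x]) v' (by simpa [tk2] using h3)
    simp only [Set.mem_ofPred_eq] at h1
    generalize e : ((.nonterminal (.inr (some x)) : PS Q R), y, U) = r at h1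
    cases h1 with
    | keep r β S' k1 k2 =>
      simp only [Prod.mk.injEq, Symbol.nonterminal.injEq, Sum.inr.injEq, Option.some.injEq] at e
      obtain ⟨rfl, rfl, rfl⟩ := e
      obtain rfl : S' = S := by simpa [ss, tk2] using h2
      refine ⟨(r, β) :: l', rfl, fun j => ?_, fun j hj => ?_, fun j p hj => ?_, fun k => absurd k k2⟩
      · have := g1 j; simp only [c2, cn, List.map_cons, List.count_cons] at this ⊢; omega
      · have := g2 j (by simpa using hj)
        simp only [c2, cn, List.map_cons, List.count_cons] at this ⊢; omega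
      · have := g3 j p hj
        have hne : r ≠ j := by rintro rfl; exact k1 p hj
        simpa [c2, cn, hne] using this
    | del r =>
      simp only [Prod.mk.injEq, Symbol.nonterminal.injEq, Sum.inr.injEq, Option.some.injEq] at e
      obtain ⟨rfl, rfl, rfl⟩ := e
      refine ⟨l', rfl, fun j => ?_, fun j hj => ?_, g3, g4⟩
      · have := g1 j; simp only [c2, cn, List.map_cons, List.count_cons] at this ⊢; omega
      · have := g1 j
        rcases List.mem_cons.1 hj with ⟨⟨⟩⟩ | hj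
        · simp only [c2, cn, List.map_cons, List.count_cons_self] at this ⊢; omega
        · have := g2 j hj; simp only [c2, cn, List.map_cons, List.count_cons] at this ⊢; omega
    | _ => simp [ss, dl] at e

def Co (q : Q) (σ : R → ℕ) (w : List (Fin 3)) : Prop :=
  ∀ w1 σ0, σ0 ≤ σ → Rc Ed q0 q σ0 w1 → w1 ++ w ∈ MLang Ed q0 qf

def Gp : SS Q R → (R → ℕ) → List (Fin 3) → Prop
  | .z, _, w => w = []
  | .a q, σ, w => Co Ed q0 qf q σ w
  | .b i p, σ, w => ∃ q, Ed p i q ∧ Co Ed q0 qf q σ w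
  | .h, _, w => w ∈ MLang Ed q0 qf

def PInv (u : List (PS Q R)) : Prop :=
  (∃ S l w, u = ss S :: (tk2 l ++ dl :: w.map Symbol.terminal) ∧ Gp Ed q0 qf S (c2 l) w) ∨
  ∃ w ∈ MLang Ed q0 qf, u = w.map Symbol.terminal

variable [Fintype Q] [Fintype R]

theorem pinv_step {u v : List (PS Q R)} (h : PInv Ed q0 qf u) (k : (simP Ed q0 qf).Step u v) :
    PInv Ed q0 qf v := by
  rw [step_iff] at k
  obtain ⟨S, l, w, rfl, h⟩ | ⟨w, h, rfl⟩ := h
  swap
  · exact Or.inr ⟨w, h, (p_ter Ed q0 qf w _ _).1 k⟩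
  obtain ⟨y, U, v', rfl, h1, -, h3⟩ := par_cons k
  clear k
  obtain ⟨v1, v2, rfl, h4, h5⟩ := par_append.1 h3
  obtain ⟨l', rfl, g1, g2, g3, g4⟩ := p_tok Ed q0 qf S l [] v1 h4
  obtain ⟨y', U', v3, rfl, h6, h7, h8⟩ := par_cons h5
  obtain rfl := (p_ter Ed q0 qf w _ _).1 h8
  simp only [simP, Set.mem_ofPred_eq] at h1 h6
  obtain ⟨rfl, g5⟩ : y' = dr S ∧ ∀ B ∈ need S, Symbol.nonterminal B ∈ ss S :: tk2 l := by
    generalize e : (dl, y', U') = r at h6
    cases h6 with
    | chk S' =>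
      simp only [Prod.mk.injEq, true_and] at e
      obtain ⟨rfl, rfl⟩ := e
      obtain rfl : S' = S := by simpa [ss, tk2] using h7 _ (Or.inl rfl)
      exact ⟨rfl, fun B hB => by simpa using h7 B (Or.inr hB)⟩
    | _ => simp [ss, dl] at e
  generalize e : (ss S, y, U) = r at h1
  cases h1 <;> simp only [ss, dl, Prod.mk.injEq, Symbol.nonterminal.injEq, Sum.inl.injEq,
    reduceCtorEq, false_and] at e <;> obtain ⟨rfl, rfl, rfl⟩ := e
  case gen r => exact Or.inl ⟨.z, (r, false) :: l', w, rfl, h⟩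
  case start => exact Or.inl ⟨.a qf, l', w, rfl, fun w1 σ _ k => by cases h; simpa using ⟨σ, k⟩⟩
  case pick p i q k => exact Or.inl ⟨.b i p, l', w, rfl, q, k, fun w1 σ k1 => h w1 σ (k1.trans g1)⟩
  case stop => exact Or.inl ⟨.h, l', w, rfl, h [] _ (fun _ => Nat.zero_le _) .refl⟩
  case halt => exact Or.inr ⟨w, h, by simp [g4 rfl, tk2, dr]⟩
  case push r p =>
    obtain ⟨q, k, h⟩ := h
    refine Or.inl ⟨.a p, (r, false) :: l', w, rfl, fun w1 σ k1 k2 => ?_⟩
    have k3 : update σ r (σ r - 1) ≤ c2 l := fun j => by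
      have := k1 j
      have := g1 j
      simp only [c2, List.map_cons, cn_cons, update_apply] at *
      split_ifs at * <;> subst_vars <;> omega
    by_cases k4 : 0 < σ r
    · exact h w1 _ k3 (k2.tail ⟨_, k, Or.inr ⟨k4, rfl⟩⟩)
    · exact h w1 _ (by rwa [show σ r - 1 = σ r by omega, update_eq_self] at k3)
        (k2.tail ⟨_, k, Or.inl rfl⟩)
  case back i p =>
    obtain ⟨q, k, h⟩ := h
    cases i with
    | inc r =>
      refine Or.inl ⟨.a p, l', w, rfl, fun w1 σ k1 k2 => h w1 _ (fun j => ?_) (k2.tail ⟨_, k, rfl⟩)⟩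
      have := g2 r (by simpa [ss, tk2] using g5 _ rfl)
      have : σ j ≤ c2 l' j := k1 j
      have : c2 l' j ≤ c2 l j := g1 j
      simp only [update_apply]
      split_ifs with e
      · subst e; omega
      · omega
    | out a =>
      exact Or.inl ⟨.a p, l', a :: w, rfl, fun w1 σ k1 k2 => by
        simpa using h (w1 ++ [a]) σ (k1.trans g1) (k2.tail ⟨_, k, rfl⟩)⟩
    | nop => exact Or.inl ⟨.a p, l', w, rfl, fun w1 σ k1 k2 => h w1 σ (k1.trans g1) (k2.tail ⟨_, k, rfl⟩)⟩
    | dec r =>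
      exact Or.inl ⟨.a p, l', w, rfl, fun w1 σ k1 k2 => h w1 σ (k1.trans g1)
        (k2.tail ⟨_, k, Or.inl rfl⟩)⟩
    | zero r =>
      exact Or.inl ⟨.a p, l', w, rfl, fun w1 σ k1 k2 => h w1 σ (k1.trans g1)
        (k2.tail ⟨_, k, Nat.le_zero.1 (g3 r p rfl ▸ k1 r), rfl⟩)⟩

def un (l : List R) : List (R × Bool) := l.map fun r => (r, false)

omit [DecidableEq R] [Fintype Q] [Fintype R] in
theorem p_keep (S : SS Q R) (l : List R) (h : ∀ r ∈ l, (∀ p, S ≠ .b (.zero r) p) ∧ S ≠ .h) :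
    ∀ pre, ss S ∈ pre → Par {r | QR Ed q0 qf r} pre (tk2 (un l)) (tk2 (un l)) := by
  induction l with
  | nil => exact fun _ _ => .nil _
  | cons r l ih =>
    exact fun pre hp => .cons (y := [_]) (.keep r false S (h r (by simp)).1 (h r (by simp)).2)
      (by rintro _ rfl; exact hp) (ih (fun a k => h a (by simp [k])) _ (by simp [hp]))

omit [DecidableEq R] in
theorem mkP {S : SS Q R} {y : List (PS Q R)} (h : QR Ed q0 qf (ss S, y, ∅)) {l l' : List (R × Bool)}
    (hT : Par {r | QR Ed q0 qf r} [ss S] (tk2 l) (tk2 l'))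
    (hn : ∀ B ∈ need S, Symbol.nonterminal B ∈ (tk2 l : List (PS Q R))) (w : List (Fin 3))
    {v : List (PS Q R)} (e : v = y ++ (tk2 l' ++ (dr S ++ w.map .terminal))) :
    (simP Ed q0 qf).Step (ss S :: (tk2 l ++ dl :: w.map .terminal)) v := by
  rw [step_iff, e]
  refine .cons h (by simp) (par_append.2 ⟨_, _, rfl, hT, .cons (.chk S) ?_
    ((p_ter Ed q0 qf w _ _).2 rfl)⟩)
  rintro B (rfl | hB)
  · simp [ss]
  · simp [hn B hB]

omit [DecidableEq R] in
theorem mkK {S : SS Q R} {y : List (PS Q R)} (h : QR Ed q0 qf (ss S, y, ∅)) (l : List R)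
    (hT : ∀ r ∈ l, (∀ p, S ≠ .b (.zero r) p) ∧ S ≠ .h) (hn : need S = ∅) (w : List (Fin 3))
    {v : List (PS Q R)} (e : v = y ++ (tk2 (un l) ++ (dr S ++ w.map .terminal))) :
    (simP Ed q0 qf).Step (ss S :: (tk2 (un l) ++ dl :: w.map .terminal)) v :=
  mkP Ed q0 qf h (p_keep Ed q0 qf S l hT _ (by simp)) (by simp [hn]) w e

theorem psim_run (σ : R → ℕ) (w : List (Fin 3)) (c : Q × St R)
    (h : ReflTransGen (MStep Ed) c (qf, σ, w)) : ∃ w2 l, w = c.2.2 ++ w2 ∧ cn l = c.2.1 ∧
      ReflTransGen (simP Ed q0 qf).Step [ss .z, dl]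
        (ss (.a c.1) :: (tk2 (un l) ++ dl :: w2.map .terminal)) := by
  induction h using ReflTransGen.head_induction_on with
  | refl =>
    have : ∀ l : List R, ReflTransGen (simP Ed q0 qf).Step [ss .z, dl]
        (ss .z :: (tk2 (un l) ++ dl :: ([] : List (Fin 3)).map .terminal)) := by
      intro l
      induction l with
      | nil => exact .refl
      | cons r l ih =>
        exact ih.tail (mkK Ed q0 qf (.gen r) l (by simp) rfl [] rfl)
    refine ⟨[], (∑ r, σ r • ({r} : Multiset R)).toList, by simp, ?_, (this _).tail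
      (mkK Ed q0 qf .start _ (by simp) rfl [] rfl)⟩
    funext r
    simp [cn, ← Multiset.coe_count, Multiset.count_sum', Multiset.count_singleton]
  | @head a b k _ ih =>
    obtain ⟨p, σ1, w1⟩ := a
    obtain ⟨q, s'⟩ := b
    obtain ⟨i, g1, g2⟩ := k
    obtain ⟨w2, l, e1, e2, h⟩ := ih
    simp only at g1 g2 e1 e2 h ⊢
    have h' := h.tail (mkK Ed q0 qf (.pick p i q g1) l (by simp) rfl w2 (v := ss (.b i p) :: (tk2 (un l) ++ dl :: w2.map .terminal)) rfl)
    cases i with
    | inc r =>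
      cases g2
      obtain ⟨l1, l2, rfl⟩ := List.append_of_mem (a := r) (l := l)
        (List.count_pos_iff.1 (by have := congrFun e2 r; simp [cn] at this; omega))
      refine ⟨w2, l1 ++ l2, e1, by rw [cn_del r, e2]; simp, (h.tail (mkP Ed q0 qf (.pick p _ q g1)
        (l' := un l1 ++ (r, true) :: un l2) ?_ (by simp [need]) w2 rfl)).tail
        (mkP Ed q0 qf (.back _ p) (l' := un (l1 ++ l2)) ?_ (by simp [need, tk2]) w2 rfl)⟩
      · simpa [tk2, un] using par_append.2 ⟨_, _, rfl, p_keep Ed q0 qf (.a q) l1 (by simp) [ss (.a q)]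
          (by simp), .cons (.keep r true (.a q) (by simp) (by simp)) (by simp [ss])
            (p_keep Ed q0 qf (.a q) l2 (by simp) _ (by simp))⟩
      · simpa [tk2, un] using par_append.2 ⟨_, _, rfl, p_keep Ed q0 qf (.b (.inc r) p) l1 (by simp)
          [ss (.b (.inc r) p)] (by simp), .cons (.del r) (by simp)
            (p_keep Ed q0 qf (.b (.inc r) p) l2 (by simp) _ (by simp))⟩
    | out a =>
      cases g2
      exact ⟨a :: w2, l, by simpa using e1, e2, h'.tail (mkK Ed q0 qf (.back _ p) l (by simp) rfl w2 rfl)⟩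
    | nop =>
      cases g2
      exact ⟨w2, l, e1, e2, h'.tail (mkK Ed q0 qf (.back _ p) l (by simp) rfl w2 rfl)⟩
    | zero r =>
      obtain ⟨g2, rfl⟩ := g2
      refine ⟨w2, l, e1, e2, h'.tail (mkK Ed q0 qf (.back _ p) l
        (fun j hj => ⟨fun _ e => ?_, by simp⟩) rfl w2 rfl)⟩
      cases e
      exact List.count_eq_zero.1 ((congrFun e2 r).trans g2) hj
    | dec r =>
      rcases g2 with rfl | ⟨g2, rfl⟩
      · exact ⟨w2, l, e1, e2, h'.tail (mkK Ed q0 qf (.back _ p) l (by simp) rfl w2 rfl)⟩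
      · refine ⟨w2, r :: l, e1, ?_, h'.tail (mkK Ed q0 qf (.push _ p) l (by simp) rfl w2 rfl)⟩
        rw [cn_cons, e2]
        simp only at g2
        simp [Nat.sub_add_cancel g2]

theorem simP_lang : (simP Ed q0 qf).lang = MLang Ed q0 qf := by
  ext w
  constructor
  · intro h
    have : ∀ u, ReflTransGen (simP Ed q0 qf).Step [ss .z, dl] u → PInv Ed q0 qf u := by
      intro u k
      induction k with
      | refl => exact Or.inl ⟨.z, [], [], rfl, rfl⟩
      | tail _ k ih => exact pinv_step Ed q0 qf ih k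
    obtain ⟨S, l, w', e, -⟩ | ⟨w', g, e⟩ := this _ h
    · have : ss S ∈ w.map (Symbol.terminal (N := PN Q R)) := by simp [e]
      simp [ss] at this
    · rwa [(List.map_injective_iff.2 fun _ _ h => Symbol.terminal.inj h) e]
  · rintro ⟨σ, h⟩
    obtain ⟨w2, l, e0, e, h3⟩ := psim_run Ed q0 qf σ w _ h
    obtain rfl : w2 = w := e0.symm
    obtain rfl : l = [] := List.eq_nil_iff_forall_not_mem.2 fun r =>
      List.count_eq_zero.1 (congrFun e r)
    exact (h3.tail (mkP Ed q0 qf .stop (l' := []) (.nil _) (by simp [need]) w2 rfl)).tail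
      (mkP Ed q0 qf .halt (l := []) (l' := []) (.nil _) (by simp [need]) w2 rfl)

end

theorem lp_sep : ∃ (N : Type) (_ : Fintype N) (G : LPG (Fin 3) N),
    ∀ (N' : Type) [Fintype N'] (G' : ETG (Fin 3) N'), G'.lang \ {[]} ≠ G.lang \ {[]} := by
  obtain ⟨L, ⟨Q, R, _, _, _, Ed, q0, qf, rfl⟩, h⟩ := et_sep'
  exact ⟨_, inferInstance, simP Ed q0 qf, simP_lang Ed q0 qf ▸ h⟩

end Pool.Agent.H63.FG
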