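import Mathlib

set_option autoImplicit false

namespace Pool.Agent.H63.Lw

open MonoidAlgebra Filter

section defs

variable {G : Type} [Group G]

/-- a finitely supported probability measure (an element of the real group algebra, whose product
is convolution) with generating support and positive mass at the identity -/
def IsStep (μ : MonoidAlgebra ℝ G) : Prop :=
  (∀ g, 0 ≤ μ.coeff g) ∧ ∑ g ∈ μ.coeff.support, μ.coeff g = 1 ∧
    Subgroup.closure (μ.coeff.support : Set G) = ⊤ ∧ 0 < μ.coeff 1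

open Classical in
/-- probability that `d` independent `n`-step walks satisfy the law `w = 1` -/
noncomputable def prob {d : ℕ} (μ : MonoidAlgebra ℝ G) (w : FreeGroup (Fin d)) (n : ℕ) : ℝ :=
  ∑ g ∈ Fintype.piFinset (fun _ : Fin d => (μ ^ n).coeff.support),
    if FreeGroup.lift g w = 1 then ∏ i, (μ ^ n).coeff (g i) else 0

/-- the probability of the law -/
noncomputable def Pr {d : ℕ} (μ : MonoidAlgebra ℝ G) (w : FreeGroup (Fin d)) : ℝ :=
  limsup (prob μ w) atTop

end defs

variable {G : Type} [Group G]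

noncomputable def E (m : MonoidAlgebra ℝ G) (φ : G → ℝ) : ℝ :=
  ∑ g ∈ m.coeff.support, m.coeff g * φ g

theorem E_eq (m : MonoidAlgebra ℝ G) (φ : G → ℝ) :
    E m φ = Finsupp.linearCombination ℝ φ m.coeff := by
  rw [Finsupp.linearCombination_apply]; rfl

theorem E_madd (m m' : MonoidAlgebra ℝ G) (φ : G → ℝ) : E (m + m') φ = E m φ + E m' φ := by
  simp only [E_eq, coeff_add, map_add]

theorem E_msum {ι : Type} (s : Finset ι) (m : ι → MonoidAlgebra ℝ G) (φ : G → ℝ) :
    E (∑ i ∈ s, m i) φ = ∑ i ∈ s, E (m i) φ := by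
  simp only [E_eq, coeff_sum, map_sum]

theorem E_single (g : G) (c : ℝ) (φ : G → ℝ) : E (single g c) φ = c * φ g := by
  simp [E_eq]

theorem E_one (φ : G → ℝ) : E (1 : MonoidAlgebra ℝ G) φ = φ 1 := by
  rw [one_def, E_single, one_mul]

theorem E_add (m : MonoidAlgebra ℝ G) (φ ψ : G → ℝ) :
    E m (fun g => φ g + ψ g) = E m φ + E m ψ := by
  simp only [E, mul_add, Finset.sum_add_distrib]

theorem E_sub (m : MonoidAlgebra ℝ G) (φ ψ : G → ℝ) :
    E m (fun g => φ g - ψ g) = E m φ - E m ψ := by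
  simp only [E, mul_sub, Finset.sum_sub_distrib]

theorem E_cmul (m : MonoidAlgebra ℝ G) (c : ℝ) (φ : G → ℝ) :
    E m (fun g => c * φ g) = c * E m φ := by
  simp only [E, Finset.mul_sum]
  exact Finset.sum_congr rfl fun _ _ => by ring

theorem E_mulc (m : MonoidAlgebra ℝ G) (c : ℝ) (φ : G → ℝ) :
    E m (fun g => φ g * c) = E m φ * c := by
  simp only [E, Finset.sum_mul, mul_assoc]

theorem E_mul (m m' : MonoidAlgebra ℝ G) (φ : G → ℝ) :
    E (m * m') φ = E m fun x => E m' fun y => φ (x * y) := by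
  induction m using MonoidAlgebra.induction_linear with
  | zero => simp [E]
  | add a b ha hb => rw [add_mul, E_madd, E_madd, ha, hb]
  | single x c =>
    rw [E_single]
    induction m' using MonoidAlgebra.induction_linear with
    | zero => simp [E]
    | add a b ha hb => rw [mul_add, E_madd, E_madd, ha, hb, mul_add]
    | single y c' => rw [single_mul_single, E_single, E_single, mul_assoc]

/-- probability measure carried by `P` -/
def PM (m : MonoidAlgebra ℝ G) (P : G → Prop) : Prop :=
  E m (fun _ => 1) = 1 ∧ ∀ φ : G → ℝ, (∀ g, P g → 0 ≤ φ g) → 0 ≤ E m φ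

theorem PM.const {m : MonoidAlgebra ℝ G} {P : G → Prop} (h : PM m P) (c : ℝ) :
    E m (fun _ => c) = c := by
  have := E_cmul m c fun _ => 1
  simpa [h.1] using this

theorem PM.mono {m : MonoidAlgebra ℝ G} {P : G → Prop} (h : PM m P) {φ ψ : G → ℝ}
    (hle : ∀ g, P g → φ g ≤ ψ g) : E m φ ≤ E m ψ := by
  have := h.2 (fun g => ψ g - φ g) fun g hg => sub_nonneg.2 (hle g hg)
  rw [E_sub] at this
  linarith

theorem PM.pow {m : MonoidAlgebra ℝ G} {P : G → Prop} (h : PM m P) (h1 : P 1)
    (hm : ∀ a b, P a → P b → P (a * b)) (n : ℕ) : PM (m ^ n) P := by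
  induction n with
  | zero =>
    rw [pow_zero]
    exact ⟨E_one _, fun φ hφ => by rw [E_one]; exact hφ 1 h1⟩
  | succ n ih =>
    rw [pow_succ]
    refine ⟨by rw [E_mul]; simp only [h.1, ih.1], fun φ hφ => ?_⟩
    rw [E_mul]
    exact ih.2 _ fun a ha => h.2 _ fun b hb => hφ _ (hm a b ha hb)

theorem PM.isStep {m : MonoidAlgebra ℝ G} {P : G → Prop} (h : PM m P) :
    (∀ g, 0 ≤ m.coeff g) ∧ ∑ g ∈ m.coeff.support, m.coeff g = 1 := by
  classical
  refine ⟨fun g => ?_, by simpa [E] using h.1⟩
  have := h.2 (fun x => if x = g then 1 else 0) fun x _ => by positivity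
  simp only [E, mul_ite, mul_one, mul_zero, Finset.sum_ite_eq', Finsupp.mem_support_iff] at this
  split_ifs at this with h1
  · exact this
  · rw [not_not.1 h1]

theorem coeff_eq [DecidableEq G] (m : MonoidAlgebra ℝ G) (g : G) :
    m.coeff g = E m fun x => if x = g then 1 else 0 := by
  simp only [E, mul_ite, mul_one, mul_zero, Finset.sum_ite_eq', Finsupp.mem_support_iff]
  split_ifs with h1
  · rfl
  · rw [not_not.1 h1]

theorem pi_succ {d : ℕ} (m : MonoidAlgebra ℝ G) (F : (Fin (d + 1) → G) → ℝ) :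
    ∑ g ∈ Fintype.piFinset (fun _ : Fin (d + 1) => m.coeff.support),
      (∏ i, m.coeff (g i)) * F g =
    E m fun x => ∑ g ∈ Fintype.piFinset (fun _ : Fin d => m.coeff.support),
      (∏ i, m.coeff (g i)) * F (Fin.cons x g) := by
  simp only [E, Finset.mul_sum]
  rw [← Finset.sum_product']
  refine Finset.sum_nbij' (fun g => (g 0, Fin.tail g)) (fun p => Fin.cons p.1 p.2) ?_ ?_ ?_ ?_ ?_
  · intro g hg
    simp only [Fintype.mem_piFinset, Finset.mem_product] at hg ⊢
    exact ⟨hg 0, fun i => hg _⟩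
  · intro p hp
    simp only [Fintype.mem_piFinset, Finset.mem_product] at hp ⊢
    intro i
    refine Fin.cases ?_ (fun i => ?_) i
    · simpa using hp.1
    · simpa using hp.2 i
  · intro g _; simp
  · intro p _; simp
  · intro g _
    rw [Fin.prod_univ_succ]
    simp [Fin.tail, mul_assoc]

theorem pi_zero (m : MonoidAlgebra ℝ G) (F : (Fin 0 → G) → ℝ) :
    ∑ g ∈ Fintype.piFinset (fun _ : Fin 0 => m.coeff.support),
      (∏ i, m.coeff (g i)) * F g = F ![] := by
  rw [Finset.sum_eq_single ![]]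
  · simp
  · intro b _ hb; exact absurd (Subsingleton.elim _ _) hb
  · intro h; exact absurd (Fintype.mem_piFinset.2 fun i => i.elim0) h

open Classical in
theorem prob_six (μ : MonoidAlgebra ℝ G) (w : FreeGroup (Fin 6)) (n : ℕ) :
    prob μ w n = E (μ ^ n) fun x => E (μ ^ n) fun y => E (μ ^ n) fun u => E (μ ^ n) fun u' =>
      E (μ ^ n) fun z' => E (μ ^ n) fun z =>
        if FreeGroup.lift ![x, y, u, u', z', z] w = 1 then 1 else 0 := by
  have : prob μ w n = ∑ g ∈ Fintype.piFinset (fun _ : Fin 6 => (μ ^ n).coeff.support),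
      (∏ i, (μ ^ n).coeff (g i)) * (if FreeGroup.lift g w = 1 then 1 else 0) := by
    unfold prob
    exact Finset.sum_congr rfl fun g _ => by split_ifs <;> simp
  rw [this]
  simp only [pi_succ, pi_zero]
  rfl

end Pool.Agent.H63.Lw
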