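import Pool.Agent.H63.Lw1

set_option autoImplicit false

namespace Pool.Agent.H63.Lw

open MonoidAlgebra Filter

abbrev H := Equiv.Perm (Fin 3)

@[ext] structure W where
  f : ℤ → H
  s : ℤ

instance : Mul W := ⟨fun a b => ⟨fun i => a.f i * b.f (i - a.s), a.s + b.s⟩⟩
instance : One W := ⟨⟨fun _ => 1, 0⟩⟩
instance : Inv W := ⟨fun a => ⟨fun i => (a.f (i + a.s))⁻¹, -a.s⟩⟩

@[simp] theorem mul_f (a b : W) (i : ℤ) : (a * b).f i = a.f i * b.f (i - a.s) := rfl
@[simp] theorem mul_s (a b : W) : (a * b).s = a.s + b.s := rfl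
@[simp] theorem one_f (i : ℤ) : (1 : W).f i = 1 := rfl
@[simp] theorem one_s : (1 : W).s = 0 := rfl
@[simp] theorem inv_f (a : W) (i : ℤ) : (a⁻¹).f i = (a.f (i + a.s))⁻¹ := rfl
@[simp] theorem inv_s (a : W) : (a⁻¹).s = -a.s := rfl

instance : Group W := Group.ofLeftAxioms
  (fun a b c => by ext1 <;> [(funext i; simp [mul_assoc, sub_sub]); simp [add_assoc]])
  (fun a => by ext1 <;> [(funext i; simp); simp])
  (fun a => by ext1 <;> [(funext i; simp); simp])

def stepW (h : H) : W := ⟨fun i => if i = 0 then h else 1, 1⟩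

def G : Subgroup W := Subgroup.closure (Set.range stepW)

def step (h : H) : G := ⟨stepW h, Subgroup.subset_closure ⟨h, rfl⟩⟩

def lamp (h : H) : G := step h * (step 1)⁻¹

theorem step_f (h : H) (i : ℤ) : (step h).1.f i = if i = 0 then h else 1 := rfl
theorem step_s (h : H) : (step h).1.s = 1 := rfl
theorem lamp_f (h : H) (i : ℤ) : (lamp h).1.f i = if i = 0 then h else 1 := by
  simp [lamp, step_f]
theorem lamp_s (h : H) : (lamp h).1.s = 0 := by simp [lamp, step_s]

theorem gen_top {S : Set G} (h : ∀ a, step a ∈ Subgroup.closure S) : Subgroup.closure S = ⊤ := by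
  refine top_unique ((Subgroup.closure_closure_coe_preimage (k := Set.range stepW)).ge.trans ?_)
  refine (Subgroup.closure_le _).2 ?_
  rintro ⟨x, hx⟩ ⟨a, ha⟩
  obtain rfl : stepW a = x := ha
  exact h a

theorem G_fg : Group.FG G := by
  unfold G
  infer_instance

noncomputable def mu : MonoidAlgebra ℝ G := single 1 (1 / 2) + ∑ h, single (step h) (1 / 12)

noncomputable def nu : MonoidAlgebra ℝ G :=
  single (step 1) (1 / 4) + single (step 1)⁻¹ (1 / 4) + ∑ h, single (lamp h) (1 / 12)

theorem E_mu (φ : G → ℝ) : E mu φ = 1 / 2 * φ 1 + 1 / 12 * ∑ h, φ (step h) := by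
  simp only [mu, E_madd, E_msum, E_single, Finset.mul_sum]

theorem E_nu (φ : G → ℝ) : E nu φ =
    1 / 4 * φ (step 1) + 1 / 4 * φ (step 1)⁻¹ + 1 / 12 * ∑ h, φ (lamp h) := by
  simp only [nu, E_madd, E_msum, E_single, Finset.mul_sum]

theorem cardH : Fintype.card H = 6 := by decide

theorem sumH (c : ℝ) : ∑ _h : H, c = 6 * c := by simp [cardH]

def Nice (z : G) : Prop := (∀ i < 0, z.1.f i = 1) ∧ 0 ≤ z.1.s

theorem pm_mu : PM mu Nice := by
  refine ⟨by rw [E_mu, sumH]; norm_num, fun φ hφ => ?_⟩
  rw [E_mu]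
  have h1 := hφ 1 ⟨fun _ _ => rfl, le_rfl⟩
  have h2 : 0 ≤ ∑ h, φ (step h) := Finset.sum_nonneg fun h _ =>
    hφ _ ⟨fun i hi => by rw [step_f, if_neg hi.ne], by rw [step_s]; norm_num⟩
  positivity

theorem pm_mu_pow (n : ℕ) : PM (mu ^ n) Nice := by
  refine pm_mu.pow ⟨fun _ _ => rfl, le_rfl⟩ ?_ n
  rintro a b ⟨a1, a2⟩ ⟨b1, b2⟩
  refine ⟨fun i hi => ?_, by simpa using add_nonneg a2 b2⟩
  simp [a1 i hi, b1 (i - a.1.s) (by omega)]

theorem pm_nu : PM nu fun _ => True := by
  refine ⟨by rw [E_nu, sumH]; norm_num, fun φ hφ => ?_⟩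
  rw [E_nu]
  have h1 := hφ (step 1) trivial
  have h1 := hφ (step 1)⁻¹ trivial
  have h2 : 0 ≤ ∑ h, φ (lamp h) := Finset.sum_nonneg fun h _ => hφ _ trivial
  positivity

theorem pm_nu_pow (n : ℕ) : PM (nu ^ n) fun _ => True :=
  pm_nu.pow trivial (fun _ _ _ _ => trivial) n

theorem mu_step : IsStep mu := by
  classical
  have key : ∀ g, (g = 1 ∨ ∃ h, g = step h) → 0 < mu.coeff g := by
    intro g hg
    rw [coeff_eq, E_mu]
    have h1 : ∀ h, (0 : ℝ) ≤ if step h = g then 1 else 0 := fun h => by positivity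
    rcases hg with rfl | ⟨h, rfl⟩
    · have := Finset.sum_nonneg fun h (_ : h ∈ Finset.univ) => h1 h
      rw [if_pos rfl]; positivity
    · have := Finset.single_le_sum (fun h (_ : h ∈ Finset.univ) => h1 h) (Finset.mem_univ h)
      rw [if_pos rfl] at this
      have h2 : (0 : ℝ) ≤ if 1 = step h then 1 else 0 := by positivity
      linarith
  exact ⟨pm_mu.isStep.1, pm_mu.isStep.2, gen_top fun a => Subgroup.subset_closure
    (Finsupp.mem_support_iff.2 (key _ (Or.inr ⟨a, rfl⟩)).ne'), key 1 (Or.inl rfl)⟩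

theorem nu_step : IsStep nu := by
  classical
  have key : ∀ g, (g = step 1 ∨ ∃ h, g = lamp h) → 0 < nu.coeff g := by
    intro g hg
    rw [coeff_eq, E_nu]
    have h1 : ∀ h, (0 : ℝ) ≤ if lamp h = g then 1 else 0 := fun h => by positivity
    have h2 : (0 : ℝ) ≤ if (step 1)⁻¹ = g then 1 else 0 := by positivity
    rcases hg with rfl | ⟨h, rfl⟩
    · have := Finset.sum_nonneg fun h (_ : h ∈ Finset.univ) => h1 h
      rw [if_pos rfl]; positivity
    · have := Finset.single_le_sum (fun h (_ : h ∈ Finset.univ) => h1 h) (Finset.mem_univ h)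
      rw [if_pos rfl] at this
      have h2 : (0 : ℝ) ≤ if step 1 = lamp h then 1 else 0 := by positivity
      linarith
  refine ⟨pm_nu.isStep.1, pm_nu.isStep.2, gen_top fun a => ?_,
    key 1 (Or.inr ⟨1, by simp [lamp]⟩)⟩
  have : step a = lamp a * step 1 := by simp [lamp]
  rw [this]
  exact Subgroup.mul_mem _
    (Subgroup.subset_closure (Finsupp.mem_support_iff.2 (key _ (Or.inr ⟨a, rfl⟩)).ne'))
    (Subgroup.subset_closure (Finsupp.mem_support_iff.2 (key _ (Or.inl rfl)).ne'))

/-! moments -/

theorem E_poly (m : MonoidAlgebra ℝ G) (hm : E m (fun _ => 1) = 1) (S : G → ℝ)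
    (a0 a1 a2 a3 a4 : ℝ) :
    E m (fun g => a0 + a1 * S g + a2 * S g ^ 2 + a3 * S g ^ 3 + a4 * S g ^ 4) =
      a0 + a1 * E m S + a2 * E m (fun g => S g ^ 2) + a3 * E m (fun g => S g ^ 3) +
        a4 * E m (fun g => S g ^ 4) := by
  have := E_cmul m a0 fun _ => 1
  simp only [mul_one, hm] at this
  simp only [E_add, E_cmul, this]

noncomputable def S (g : G) : ℝ := g.1.s

theorem S_mul (a b : G) : S (a * b) = S a + S b := by simp [S]

theorem mu_mom (n : ℕ) : E (mu ^ n) S = n / 2 ∧ E (mu ^ n) (fun g => S g ^ 2) = n ^ 2 / 4 + n / 4 := by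
  induction n with
  | zero => simp [E_one, S]
  | succ n ih =>
    have h1 : ∀ h, S (step h) = 1 := fun h => by simp [S, step_s]
    have h0 : S 1 = 0 := by simp [S]
    simp only [pow_succ mu, E_mul, E_mu, S_mul, h1, sumH, mul_one, h0]
    constructor
    · have := E_poly (mu ^ n) (pm_mu_pow n).1 S (1 / 2) 1 0 0 0
      rw [ih.1] at this
      push_cast
      refine Eq.trans (congrArg _ (funext fun g => by ring)) (this.trans (by ring))
    · have := E_poly (mu ^ n) (pm_mu_pow n).1 S (1 / 2) 1 1 0 0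
      rw [ih.1, ih.2] at this
      push_cast
      refine Eq.trans (congrArg _ (funext fun g => by ring)) (this.trans (by ring))

theorem nu_mom (n : ℕ) : E (nu ^ n) S = 0 ∧ E (nu ^ n) (fun g => S g ^ 2) = n / 2 ∧
    E (nu ^ n) (fun g => S g ^ 3) = 0 ∧ E (nu ^ n) (fun g => S g ^ 4) = (3 * n ^ 2 - n) / 4 := by
  induction n with
  | zero => simp [E_one, S]
  | succ n ih =>
    have h1 : S (step 1) = 1 := by simp [S, step_s]
    have h2 : S (step 1)⁻¹ = -1 := by simp [S, step_s]
    have h3 : ∀ h, S (lamp h) = 0 := fun h => by simp [S, lamp_s]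
    simp only [pow_succ nu, E_mul, E_nu, S_mul, h1, h2, h3, sumH]
    obtain ⟨i1, i2, i3, i4⟩ := ih
    have k := E_poly (nu ^ n) (pm_nu_pow n).1 S
    rw [i1, i2, i3, i4] at k
    push_cast
    refine ⟨?_, ?_, ?_, ?_⟩
    · exact Eq.trans (congrArg _ (funext fun g => by ring)) ((k 0 1 0 0 0).trans (by ring))
    · exact Eq.trans (congrArg _ (funext fun g => by ring)) ((k (1 / 2) 0 1 0 0).trans (by ring))
    · exact Eq.trans (congrArg _ (funext fun g => by ring)) ((k 0 (3 / 2) 0 1 0).trans (by ring))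
    · exact Eq.trans (congrArg _ (funext fun g => by ring)) ((k (1 / 2) 0 3 0 1).trans (by ring))

def Good (L : ℕ) (z : G) : Prop := (∀ i, (L : ℤ) < |i| → z.1.f i = 1) ∧ |z.1.s| ≤ L

open Classical in
theorem exit (L n : ℕ) :
    E (nu ^ n) (fun z => if Good L z then S z ^ 2 else (L + 1) ^ 2) ≤ n / 2 := by
  induction n with
  | zero =>
    rw [pow_zero, E_one, if_pos ⟨fun _ _ => rfl, by simp⟩]
    simp [S]
  | succ n ih =>
    rw [pow_succ, E_mul]
    have bd : ∀ z : G, (if Good L z then S z ^ 2 else ((L : ℝ) + 1) ^ 2) ≤ (L + 1) ^ 2 := by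
      intro z
      split_ifs with h
      · have : |S z| ≤ L := by unfold S; exact_mod_cast h.2
        have h2 := sq_abs (S z)
        nlinarith [abs_nonneg (S z)]
      · exact le_rfl
    refine ((pm_nu_pow n).mono (ψ := fun z =>
      (if Good L z then S z ^ 2 else ((L : ℝ) + 1) ^ 2) + 1 / 2) fun z _ => ?_).trans ?_
    · by_cases hz : Good L z
      · have mv : ∀ y : G, (∀ i, y.1.f i = 1) → |y.1.s| ≤ 1 →
            (if Good L (z * y) then S (z * y) ^ 2 else ((L : ℝ) + 1) ^ 2) = (S z + S y) ^ 2 := by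
          intro y hy hy'
          split_ifs with h
          · rw [S_mul]
          · have h1 : ¬ |z.1.s + y.1.s| ≤ L := fun h1 =>
              h ⟨fun i hi => by simp [hz.1 i hi, hy], h1⟩
            have h2 : |z.1.s + y.1.s| = L + 1 := by
              have := abs_add_le z.1.s y.1.s
              have := hz.2
              omega
            rw [← sq_abs (S z + S y)]
            congr 1
            unfold S
            exact_mod_cast h2.symm
        have lp : ∀ h, (if Good L (z * lamp h) then S (z * lamp h) ^ 2 else ((L : ℝ) + 1) ^ 2) =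
            S z ^ 2 := by
          intro h
          rw [if_pos]
          · simp [S, lamp_s]
          · refine ⟨fun i hi => ?_, by simpa [lamp_s] using hz.2⟩
            have : i - z.1.s ≠ 0 := by
              intro e
              have := hz.2
              rw [← sub_eq_zero.1 e] at this
              omega
            simp [hz.1 i hi, lamp_f, this]
        rw [E_nu, mv _ (by simp [step_f]) (by simp [step_s]),
          mv _ (by simp [step_f]) (by simp [step_s]), if_pos hz]
        simp only [lp, sumH]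
        have h1 : S (step 1) = 1 := by simp [S, step_s]
        have h2 : S (step 1)⁻¹ = -1 := by simp [S, step_s]
        rw [h1, h2]
        nlinarith
      · rw [if_neg hz]
        refine (pm_nu.mono (ψ := fun _ => ((L : ℝ) + 1) ^ 2) fun y _ => bd _).trans ?_
        rw [pm_nu.const]; linarith
    · rw [E_add, (pm_nu_pow n).const]
      push_cast
      linarith

open Classical in
theorem key (n : ℕ) : ∀ (b r : ℕ) (φ : ℕ → H → ℝ), (∀ l h, 0 ≤ φ l h) →
    E (mu ^ n) (fun z => if ((b + r : ℕ) : ℤ) ≤ z.1.s then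
      ∏ l ∈ Finset.range r, φ l (z.1.f (b + l : ℕ)) else 0) ≤
      ∏ l ∈ Finset.range r, (∑ h, φ l h) / 6 := by
  induction n with
  | zero =>
    intro b r φ hφ
    rw [pow_zero, E_one]
    split_ifs with h
    · obtain rfl : r = 0 := by simp at h; omega
      simp
    · exact Finset.prod_nonneg fun l _ => div_nonneg (Finset.sum_nonneg fun h _ => hφ l h) (by norm_num)
  | succ n ih =>
    intro b r φ hφ
    rw [pow_succ', E_mul, E_mu]
    simp only [one_mul]
    have h1 := ih b r φ hφ
    have h2 : ∑ h, E (mu ^ n) (fun z => if ((b + r : ℕ) : ℤ) ≤ (step h * z).1.s then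
        ∏ l ∈ Finset.range r, φ l ((step h * z).1.f (b + l : ℕ)) else 0) ≤
        6 * ∏ l ∈ Finset.range r, (∑ h, φ l h) / 6 := by
      cases b with
      | succ b =>
        rw [← sumH]
        refine Finset.sum_le_sum fun h _ => le_trans (le_of_eq ?_) (ih b r φ hφ)
        congr 1
        funext z
        refine if_congr (by simp [step_s]; omega) (Finset.prod_congr rfl fun l _ => ?_) rfl
        have : ((b + 1 + l : ℕ) : ℤ) ≠ 0 := by omega
        simp only [Subgroup.coe_mul, mul_f, step_f, step_s, if_neg this, one_mul]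
        congr 2; push_cast; ring
      | zero =>
        cases r with
        | zero =>
          rw [← sumH]
          refine Finset.sum_le_sum fun h _ => ?_
          refine ((pm_mu_pow n).mono (ψ := fun _ => 1) fun z _ => ?_).trans ?_
          · split_ifs <;> simp
          · rw [(pm_mu_pow n).const]; simp
        | succ r =>
          have h3 := ih 0 r (fun l => φ (l + 1)) fun l h => hφ _ _
          rw [Finset.prod_range_succ', ← mul_assoc, mul_comm 6, mul_assoc,
            mul_div_cancel₀ _ (by norm_num : (6 : ℝ) ≠ 0), Finset.mul_sum]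
          refine Finset.sum_le_sum fun h _ => le_trans ?_
            (mul_le_mul_of_nonneg_right h3 (hφ 0 h))
          rw [← E_mulc]
          refine (pm_mu_pow n).mono fun z hz => le_of_eq ?_
          rw [ite_mul, zero_mul]
          refine if_congr (by simp [step_s]; omega) ?_ rfl
          rw [Finset.prod_range_succ']
          congr 1
          · refine Finset.prod_congr rfl fun l _ => ?_
            have : ((0 + (l + 1) : ℕ) : ℤ) ≠ 0 := by omega
            simp only [Subgroup.coe_mul, mul_f, step_f, step_s, if_neg this, one_mul]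
            congr 2; push_cast; ring
          · simp [step_f, step_s, hz.1 (-1) (by norm_num)]
    linarith

end Pool.Agent.H63.Lw
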