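import Pool.Agent.H63.Lw2

set_option autoImplicit false

namespace Pool.Agent.H63.Lw

open MonoidAlgebra Filter Topology

def cm {K : Type} [Group K] (a b : K) : K := a * b * a⁻¹ * b⁻¹

def wv {K : Type} [Group K] (x y u u' z' z : K) : K :=
  cm ((x * y⁻¹) ^ 17 * cm z u * ((x * y⁻¹) ^ 17)⁻¹) (cm z' u')

def word : FreeGroup (Fin 6) :=
  wv (.of 0) (.of 1) (.of 2) (.of 3) (.of 4) (.of 5)

theorem lift_word (x y u u' z' z : G) :
    FreeGroup.lift ![x, y, u, u', z', z] word = wv x y u u' z' z := by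
  simp [word, wv, cm]

open Classical in
@[irreducible] noncomputable def ind (x y u u' z' z : G) : ℝ :=
  if wv x y u u' z' z = 1 then 1 else 0

theorem prob_word (μ : MonoidAlgebra ℝ G) (n : ℕ) :
    prob μ word n = E (μ ^ n) fun x => E (μ ^ n) fun y => E (μ ^ n) fun u => E (μ ^ n) fun u' =>
      E (μ ^ n) fun z' => E (μ ^ n) fun z => ind x y u u' z' z := by
  rw [prob_six]
  simp only [ind]
  congr!
  exact lift_word _ _ _ _ _ _

theorem ind_one {x y u u' z' z : G} (h : wv x y u u' z' z = 1) : ind x y u u' z' z = 1 := by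
  rw [ind, if_pos h]

theorem ind_zero {x y u u' z' z : G} (h : ¬ wv x y u u' z' z = 1) : ind x y u u' z' z = 0 := by
  rw [ind, if_neg h]

theorem ind_le (x y u u' z' z : G) : ind x y u u' z' z ≤ 1 := by
  rw [ind]; split_ifs <;> norm_num

theorem pow_s (a : G) (k : ℕ) : (a ^ k).1.s = k * a.1.s := by
  induction k with
  | zero => simp
  | succ k ih => rw [pow_succ, Subgroup.coe_mul, mul_s, ih]; push_cast; ring

theorem cm_s (a b : G) : (cm a b).1.s = 0 := by simp [cm]

theorem cm_f (z u : G) (i : ℤ) : (cm z u).1.f i =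
    z.1.f i * u.1.f (i - z.1.s) * (z.1.f (i - u.1.s))⁻¹ * (u.1.f i)⁻¹ := by
  simp only [cm, Subgroup.coe_mul, Subgroup.coe_inv, mul_f, inv_f, mul_s, inv_s]
  congr 4 <;> ring

theorem wv_iff' (x y u u' z' z : G) : wv x y u u' z' z = 1 ↔ ∀ i,
    Commute (((x * y⁻¹) ^ 17).1.f i * (cm z u).1.f (i - 17 * (x.1.s - y.1.s)) *
      (((x * y⁻¹) ^ 17).1.f i)⁻¹) ((cm z' u').1.f i) := by
  have hD : ((x * y⁻¹) ^ 17).1.s = 17 * (x.1.s - y.1.s) := by
    rw [pow_s]; simp [sub_eq_add_neg]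
  unfold wv
  generalize (x * y⁻¹) ^ 17 = g at *
  have c1 := cm_s z u
  have c2 := cm_s z' u'
  generalize cm z u = c at *
  generalize cm z' u' = c' at *
  have e0 : (g * c * g⁻¹).1.s = 0 := by simp [c1]
  have e1 : ∀ i, (g * c * g⁻¹).1.f i = g.1.f i * c.1.f (i - 17 * (x.1.s - y.1.s)) * (g.1.f i)⁻¹ := by
    intro i; simp [c1, hD]
  simp only [← e1]
  generalize g * c * g⁻¹ = a at *
  rw [cm, mul_inv_eq_one, mul_inv_eq_iff_eq_mul]
  constructor
  · intro h i
    have := congrArg (fun t : G => t.1.f i) h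
    simpa [e0, c2, Commute, SemiconjBy] using this
  · intro h
    apply Subtype.ext
    ext1
    · funext i; simpa [e0, c2] using (h i).eq
    · simp [add_comm]

theorem good_cm {L : ℕ} {z u : G} (hz : Good L z) (hu : Good L u) (i : ℤ) (hi : 2 * (L : ℤ) < |i|) :
    (cm z u).1.f i = 1 := by
  have h1 := hz.2
  have h2 := hu.2
  rw [abs_le] at h1 h2
  rw [lt_abs] at hi
  rw [cm_f, hz.1, hu.1, hz.1, hu.1] <;> first | simp | (rw [lt_abs]; omega)

open Classical in
theorem nu_lower (m : ℕ) (hm : 1 ≤ m) : 3 / 16 * (7 / 8) ^ 4 ≤ prob nu word (m ^ 2) := by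
  have P := pm_nu_pow (m ^ 2)
  have hm' : (1 : ℝ) ≤ m := by exact_mod_cast hm
  set q := E (nu ^ m ^ 2) fun z => if Good (2 * m) z then (1 : ℝ) else 0 with hq
  have q1 : 7 / 8 ≤ q := by
    have h1 := (P.mono (φ := fun z => 4 * m ^ 2 - 4 * m ^ 2 * if Good (2 * m) z then 1 else 0)
      fun z _ => ?_).trans (exit (2 * m) (m ^ 2))
    · rw [E_sub, P.const, E_cmul, ← hq] at h1
      push_cast at h1
      by_contra hc
      nlinarith [mul_pos (pow_pos (by linarith : (0 : ℝ) < m) 2) (sub_pos.2 (not_le.1 hc))]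
    · split_ifs
      · nlinarith [sq_nonneg (S z)]
      · push_cast; nlinarith
  let I : G → G → ℝ := fun x y => if (m : ℤ) ≤ 2 * |x.1.s - y.1.s| then 1 else 0
  have i1 : 3 / 16 ≤ E (nu ^ m ^ 2) fun x => E (nu ^ m ^ 2) fun y => I x y := by
    obtain ⟨m1, m2, m3, m4⟩ := nu_mom (m ^ 2)
    have k := E_poly (nu ^ m ^ 2) P.1 S
    rw [m1, m2, m3, m4] at k
    have n0 : (0 : ℝ) < ((m ^ 2 : ℕ) : ℝ) := by push_cast; positivity
    have h1 : ∀ x, (-2 * ((m ^ 2 : ℕ) : ℝ) ^ 2 + 4 * ((m ^ 2 : ℕ) : ℝ) ^ 2 -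
        (3 * ((m ^ 2 : ℕ) : ℝ) ^ 2 - (m ^ 2 : ℕ)) / 4) + 0 * S x + (5 * ((m ^ 2 : ℕ) : ℝ)) * S x ^ 2 +
        0 * S x ^ 3 + (-1) * S x ^ 4 ≤
        16 * ((m ^ 2 : ℕ) : ℝ) ^ 2 * E (nu ^ m ^ 2) fun y => I x y := by
      intro x
      rw [← E_cmul]
      refine le_trans (le_of_eq ?_) ((k (8 * ((m ^ 2 : ℕ) : ℝ) * S x ^ 2 -
        2 * ((m ^ 2 : ℕ) : ℝ) ^ 2 - S x ^ 4) (-16 * ((m ^ 2 : ℕ) : ℝ) * S x + 4 * S x ^ 3)
        (8 * ((m ^ 2 : ℕ) : ℝ) - 6 * S x ^ 2) (4 * S x) (-1)).ge.trans (P.mono fun y _ => ?_))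
      · ring
      · have e : S x = (S x - S y) + S y := by ring
        have e2 : S x - S y = ((x.1.s - y.1.s : ℤ) : ℝ) := by simp [S]
        simp only [I]
        split_ifs with h
        · nlinarith [sq_nonneg ((S x - S y) ^ 2 - 4 * ((m ^ 2 : ℕ) : ℝ))]
        · have h2 : 2 * |S x - S y| < m := by rw [e2]; exact_mod_cast not_le.1 h
          have h3 : 4 * (S x - S y) ^ 2 ≤ ((m ^ 2 : ℕ) : ℝ) := by
            push_cast
            rw [← sq_abs]
            nlinarith [abs_nonneg (S x - S y)]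
          nlinarith [mul_le_mul_of_nonneg_left h3 n0.le, sq_nonneg ((S x - S y) ^ 2)]
    have h2 := (k _ _ _ _ _).ge.trans (P.mono fun x _ => h1 x)
    rw [E_cmul] at h2
    by_contra hc
    nlinarith [mul_pos (pow_pos n0 2) (sub_pos.2 (not_le.1 hc))]
  have h3 : (E (nu ^ m ^ 2) fun x => E (nu ^ m ^ 2) fun y => I x y) * q * q * q * q ≤
      prob nu word (m ^ 2) := by
    rw [prob_word]
    simp only [← E_mulc]
    refine P.mono fun x _ => P.mono fun y _ => ?_
    rw [hq]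
    calc _ = E (nu ^ m ^ 2) fun u => E (nu ^ m ^ 2) fun u' => E (nu ^ m ^ 2) fun z' =>
          E (nu ^ m ^ 2) fun z => I x y * (if Good (2 * m) u then (1 : ℝ) else 0) *
            (if Good (2 * m) u' then (1 : ℝ) else 0) * (if Good (2 * m) z' then (1 : ℝ) else 0) *
            (if Good (2 * m) z then (1 : ℝ) else 0) := by
          simp only [E_cmul, E_mulc]
      _ ≤ E (nu ^ m ^ 2) fun u => E (nu ^ m ^ 2) fun u' => E (nu ^ m ^ 2) fun z' =>
          E (nu ^ m ^ 2) fun z => ind x y u u' z' z := by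
          refine P.mono fun u _ => P.mono fun u' _ => P.mono fun z' _ => P.mono fun z _ => ?_
          by_cases hw : wv x y u u' z' z = 1
          · rw [ind_one hw]
            simp only [I]
            split_ifs <;> norm_num
          · rw [ind_zero hw]
            simp only [I]
            split_ifs with h1 h2 h3 h4 h5 <;> try norm_num
            apply hw
            refine (wv_iff' x y u u' z' z).2 fun i => ?_
            by_cases hi : 2 * ((2 * m : ℕ) : ℤ) < |i|
            · rw [good_cm h4 h3 i hi]; exact Commute.one_right _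
            · rw [good_cm h5 h2]
              · simp
              · rw [not_lt, abs_le] at hi
                rw [lt_abs]
                rcases abs_cases (x.1.s - y.1.s) with h | h <;> omega
  refine le_trans ?_ h3
  have : (7 / 8 : ℝ) ^ 4 ≤ q * q * q * q := by
    have := pow_le_pow_left₀ (by norm_num) q1 4
    linarith
  nlinarith [mul_le_mul i1 this (by positivity) (by linarith)]

theorem cent : ∀ a γ v : H, (∑ h : H, if γ * (h * v⁻¹) * γ⁻¹ * a = a * (γ * (h * v⁻¹) * γ⁻¹)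
    then 1 else 0 : ℕ) ≤ if a = 1 then 6 else 3 := by decide +kernel

theorem cent2 : ∀ v : H, (∑ h : H, if h * v⁻¹ = 1 then 6 else 3 : ℕ) = 21 := by decide +kernel

open Classical in
theorem mu_upper (n : ℕ) (hn : 32 ≤ n) :
    prob mu word n ≤ 150000 / n + (7 / 12) ^ (n / 16) := by
  have P := pm_mu_pow n
  have hn' : (32 : ℝ) ≤ n := by exact_mod_cast hn
  obtain ⟨m1, m2⟩ := mu_mom n
  have k := fun a b c => E_poly (mu ^ n) P.1 S a b c 0 0
  simp only [m1, m2, zero_mul, add_zero] at k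
  let bad : G → ℝ := fun z => if z.1.s < (n / 4 : ℕ) then 1 else 0
  have b0 : E (mu ^ n) bad ≤ 4 / n := by
    have h1 := (P.mono (φ := fun z => (n : ℝ) ^ 2 / 16 * bad z) fun z _ => ?_).trans
      (k (n ^ 2 / 4) (-n) 1).le
    · rw [E_cmul] at h1
      rw [le_div_iff₀ (by linarith)]
      by_contra hc
      nlinarith [mul_pos (by linarith : (0 : ℝ) < n) (sub_pos.2 (not_le.1 hc))]
    · simp only [bad]
      split_ifs with h
      · have : 4 * S z ≤ n := by unfold S; exact_mod_cast (by omega : 4 * z.1.s ≤ n)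
        nlinarith
      · nlinarith [sq_nonneg (S z - n / 2)]
  let far : G → G → ℝ := fun x y => if ((n / 16 : ℕ) : ℤ) < |17 * (x.1.s - y.1.s)| then 1 else 0
  have f0 : (E (mu ^ n) fun x => E (mu ^ n) fun y => far x y) ≤ 147968 / n := by
    have h1 : ∀ x, (n : ℝ) ^ 2 * (E (mu ^ n) fun y => far x y) ≤
        295936 * ((n ^ 2 / 4 + n / 4) + (-n) * S x + 1 * S x ^ 2) := by
      intro x
      rw [← E_cmul]
      refine (P.mono fun y _ => ?_).trans
        ((k (295936 * S x ^ 2) (-591872 * S x) 295936).le.trans (le_of_eq (by ring)))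
      have e2 : S x - S y = ((x.1.s - y.1.s : ℤ) : ℝ) := by simp [S]
      simp only [far]
      split_ifs with h
      · have h2 : (n : ℝ) ≤ 544 * |S x - S y| := by
          rw [e2]
          rw [abs_mul] at h
          exact_mod_cast (by norm_num at h ⊢; omega : (n : ℤ) ≤ 544 * |x.1.s - y.1.s|)
        have h3 := sq_abs (S x - S y)
        nlinarith [abs_nonneg (S x - S y)]
      · nlinarith [sq_nonneg (S x - S y)]
    have h2 := P.mono fun x _ => h1 x
    rw [E_cmul, E_cmul, k] at h2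
    rw [le_div_iff₀ (by linarith)]
    by_contra hc
    nlinarith [mul_pos (by linarith : (0 : ℝ) < n) (sub_pos.2 (not_le.1 hc))]
  have le1 : ∀ (φ : G → ℝ), (∀ g, φ g ≤ 1) → E (mu ^ n) φ ≤ 1 := fun φ h =>
    (P.mono fun g _ => h g).trans (P.const 1).le
  have b1 : (0 : ℝ) ≤ 4 / n := by positivity
  have b2 : (0 : ℝ) ≤ (7 / 12) ^ (n / 16) := by positivity
  rw [prob_word]
  refine le_trans (P.mono (ψ := fun x => E (mu ^ n) fun y =>
    far x y + (4 * (4 / n) + (7 / 12) ^ (n / 16))) fun x _ => P.mono fun y _ => ?_) ?_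
  swap
  · simp only [E_add, P.const]
    have : (150000 : ℝ) / n = 147968 / n + 4 * (4 / n) + 2016 / n := by ring
    have : (0 : ℝ) ≤ 2016 / n := by positivity
    linarith
  have i1 := ind_le x y
  by_cases hf : ((n / 16 : ℕ) : ℤ) < |17 * (x.1.s - y.1.s)|
  · refine le_trans (le1 _ fun u => le1 _ fun u' => le1 _ fun z' => le1 _ fun z => i1 _ _ _ _) ?_
    simp only [far, if_pos hf]
    linarith
  simp only [far, if_neg hf, zero_add]
  rw [not_lt, abs_le] at hf
  refine le_trans (P.mono (ψ := fun u => bad u + (3 * (4 / n) + (7 / 12) ^ (n / 16)))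
    fun u hu => ?_) (by rw [E_add, P.const]; linarith)
  by_cases su : u.1.s < (n / 4 : ℕ)
  · refine le_trans (le1 _ fun u' => le1 _ fun z' => le1 _ fun z => i1 _ _ _ _) ?_
    simp only [bad, if_pos su]
    linarith
  simp only [bad, if_neg su, zero_add]
  refine le_trans (P.mono (ψ := fun u => bad u + (2 * (4 / n) + (7 / 12) ^ (n / 16)))
    fun u' hu' => ?_) (by rw [E_add, P.const]; linarith)
  by_cases su' : u'.1.s < (n / 4 : ℕ)
  · refine le_trans (le1 _ fun z' => le1 _ fun z => i1 _ _ _ _) ?_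
    simp only [bad, if_pos su']
    linarith
  simp only [bad, if_neg su', zero_add]
  let ρ : ℕ → H → ℝ := fun l h =>
    ((if h * (u'.1.f (n / 16 + l : ℕ))⁻¹ = 1 then 6 else 3 : ℕ) : ℝ) / 6
  have k1 := key n (n / 16) (n / 16) ρ fun l h => by positivity
  have k2 : ∏ l ∈ Finset.range (n / 16), (∑ h, ρ l h) / 6 = (7 / 12 : ℝ) ^ (n / 16) := by
    rw [Finset.prod_congr rfl (g := fun _ => (7 / 12 : ℝ)), Finset.prod_const, Finset.card_range]
    intro l _
    simp only [ρ]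
    rw [← Finset.sum_div, ← Nat.cast_sum, cent2]
    norm_num
  rw [k2] at k1
  refine le_trans (P.mono (ψ := fun z' => bad z' + 4 / n +
    if ((n / 16 + n / 16 : ℕ) : ℤ) ≤ z'.1.s then
      ∏ l ∈ Finset.range (n / 16), ρ l (z'.1.f (n / 16 + l : ℕ)) else 0)
    fun z' hz' => ?_) (by rw [E_add, E_add, P.const]; linarith)
  by_cases sz' : z'.1.s < (n / 4 : ℕ)
  · refine le_trans (le1 _ fun z => i1 _ _ _ _) ?_
    simp only [bad, if_pos sz']
    have : (0 : ℝ) ≤ if ((n / 16 + n / 16 : ℕ) : ℤ) ≤ z'.1.s then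
      ∏ l ∈ Finset.range (n / 16), ρ l (z'.1.f (n / 16 + l : ℕ)) else 0 := by positivity
    linarith
  simp only [bad, if_neg sz', zero_add]
  rw [if_pos (by omega)]
  obtain ⟨b, hb⟩ : ∃ b : ℕ, (b : ℤ) = (n / 16 : ℕ) - 17 * (x.1.s - y.1.s) :=
    ⟨_, Int.toNat_of_nonneg (by omega)⟩
  let γ : ℤ → H := ((x * y⁻¹) ^ 17).1.f
  let a : ℕ → H := fun l => z'.1.f (n / 16 + l : ℕ) * (u'.1.f (n / 16 + l : ℕ))⁻¹
  let φ : ℕ → H → ℝ := fun l h =>
    ((if γ (n / 16 + l : ℕ) * (h * (u.1.f (b + l : ℕ))⁻¹) * (γ (n / 16 + l : ℕ))⁻¹ * a l =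
      a l * (γ (n / 16 + l : ℕ) * (h * (u.1.f (b + l : ℕ))⁻¹) * (γ (n / 16 + l : ℕ))⁻¹)
      then 1 else 0 : ℕ) : ℝ)
  have k3 := key n b (n / 16) φ fun l h => by positivity
  have k4 : ∏ l ∈ Finset.range (n / 16), (∑ h, φ l h) / 6 ≤
      ∏ l ∈ Finset.range (n / 16), ρ l (z'.1.f (n / 16 + l : ℕ)) := by
    refine Finset.prod_le_prod (fun l _ => by positivity) fun l _ => ?_
    simp only [ρ, φ]
    rw [← Nat.cast_sum]
    gcongr
    exact cent _ _ _
  refine le_trans (P.mono (ψ := fun z => bad z + if ((b + n / 16 : ℕ) : ℤ) ≤ z.1.s then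
      ∏ l ∈ Finset.range (n / 16), φ l (z.1.f (b + l : ℕ)) else 0)
    fun z hz => ?_) (by rw [E_add]; linarith)
  have nn : (0 : ℝ) ≤ if ((b + n / 16 : ℕ) : ℤ) ≤ z.1.s then
      ∏ l ∈ Finset.range (n / 16), φ l (z.1.f (b + l : ℕ)) else 0 := by positivity
  by_cases sz : z.1.s < (n / 4 : ℕ)
  · refine (i1 _ _ _ _).trans ?_
    simp only [bad, if_pos sz]
    linarith
  simp only [bad, if_neg sz, zero_add]
  by_cases hw : wv x y u u' z' z = 1
  swap
  · rw [ind_zero hw]; exact nn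
  rw [ind_one hw, if_pos (by omega)]
  refine le_of_eq (Finset.prod_eq_one fun l hl => ?_).symm
  rw [Finset.mem_range] at hl
  have h1 := (wv_iff' x y u u' z' z).1 hw (n / 16 + l : ℕ)
  rw [show ((n / 16 + l : ℕ) : ℤ) - 17 * (x.1.s - y.1.s) = (b + l : ℕ) by push_cast at *; omega,
    cm_f, cm_f, hu.1 (_ - _) (by omega), hz.1 (_ - _) (by omega), hu'.1 (_ - _) (by omega),
    hz'.1 (_ - _) (by omega)] at h1
  simp only [mul_one, inv_one] at h1
  simp only [φ]
  rw [if_pos h1.eq, Nat.cast_one]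

theorem prob_nonneg {K : Type} [Group K] {d : ℕ} {μ : MonoidAlgebra ℝ K} {P : K → Prop}
    (w : FreeGroup (Fin d)) (n : ℕ) (h : PM (μ ^ n) P) : 0 ≤ prob μ w n := by
  refine Finset.sum_nonneg fun g _ => ?_
  split_ifs
  · exact Finset.prod_nonneg fun i _ => h.isStep.1 _
  · exact le_rfl

theorem mu_lim : Tendsto (prob mu word) atTop (𝓝 0) := by
  have h1 : Tendsto (fun n : ℕ => (150000 : ℝ) / n + (7 / 12) ^ (n / 16)) atTop (𝓝 (0 + 0)) :=
    (tendsto_const_div_atTop_nhds_zero_nat _).add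
      ((tendsto_pow_atTop_nhds_zero_of_lt_one (by norm_num) (by norm_num)).comp
        (Nat.tendsto_div_const_atTop (by norm_num)))
  rw [add_zero] at h1
  exact squeeze_zero' (Eventually.of_forall fun n => prob_nonneg _ n (pm_mu_pow n))
    ((eventually_ge_atTop 32).mono mu_upper) h1

theorem word_ne : word ≠ 1 := by
  intro h
  have h1 := mu_lim
  have : prob mu word = fun _ => 1 := by
    funext n
    rw [prob_six, h]
    simp only [map_one, if_true, (pm_mu_pow n).const]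
  rw [this] at h1
  exact one_ne_zero (tendsto_nhds_unique tendsto_const_nhds h1)

theorem nu_pos : 0 < Pr nu word := by
  refine lt_of_lt_of_le (by norm_num : (0 : ℝ) < 3 / 16 * (7 / 8) ^ 4)
    (le_limsup_of_frequently_le ?_ ?_)
  · rw [frequently_atTop]
    intro a
    exact ⟨(a + 1) ^ 2, by nlinarith, nu_lower _ (by omega)⟩
  · refine isBoundedUnder_of ⟨1, fun n => ?_⟩
    have P := pm_nu_pow n
    have le1 : ∀ (φ : G → ℝ), (∀ g, φ g ≤ 1) → E (nu ^ n) φ ≤ 1 := fun φ h =>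
      (P.mono fun g _ => h g).trans (P.const 1).le
    rw [prob_word]
    exact le1 _ fun _ => le1 _ fun _ => le1 _ fun _ => le1 _ fun _ => le1 _ fun _ =>
      le1 _ fun _ => ind_le _ _ _ _ _ _

end Pool.Agent.H63.Lw
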