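import Mathlib

set_option autoImplicit false

namespace Pool.Agent.H63.Lz

open Set unitInterval

variable {n : ℕ}

abbrev X (n : ℕ) := {f : Fin n → ℂ // Function.Injective f ∧ ∀ m, ‖f m‖ < 1}

noncomputable def htf (i : ℕ) (ρ : Equiv.Perm (Fin n)) (s : ℝ) (m : Fin n) : ℂ :=
  if ((ρ m : ℕ)) = i then
    (((2 * (i : ℝ) + 2) / (n : ℝ) - 1 : ℝ) : ℂ)
      - ((1 / (n : ℝ) : ℝ) : ℂ) * Complex.exp ((Real.pi : ℂ) * (s : ℂ) * Complex.I)
  else if ((ρ m : ℕ)) = i + 1 then
    (((2 * (i : ℝ) + 2) / (n : ℝ) - 1 : ℝ) : ℂ)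
      + ((1 / (n : ℝ) : ℝ) : ℂ) * Complex.exp ((Real.pi : ℂ) * (s : ℂ) * Complex.I)
  else (((2 * ((ρ m : ℕ) : ℝ) + 1) / (n : ℝ) - 1 : ℝ) : ℂ)

theorem npos (m : Fin n) : (0 : ℝ) < n := by exact_mod_cast m.pos

theorem exp_re (s : ℝ) : (Complex.exp ((Real.pi : ℂ) * (s : ℂ) * Complex.I)).re =
    Real.cos (Real.pi * s) := by
  rw [← Complex.ofReal_mul, Complex.exp_ofReal_mul_I_re]

theorem exp_im (s : ℝ) : (Complex.exp ((Real.pi : ℂ) * (s : ℂ) * Complex.I)).im =
    Real.sin (Real.pi * s) := by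
  rw [← Complex.ofReal_mul, Complex.exp_ofReal_mul_I_im]

theorem htf_re (i : ℕ) (ρ : Equiv.Perm (Fin n)) (s : ℝ) (m : Fin n) :
    n * ((htf i ρ s m).re + 1) = if ((ρ m : ℕ)) = i then 2 * i + 2 - Real.cos (Real.pi * s)
      else if ((ρ m : ℕ)) = i + 1 then 2 * i + 2 + Real.cos (Real.pi * s)
      else 2 * ((ρ m : ℕ) : ℝ) + 1 := by
  have := npos m
  unfold htf
  split_ifs
  · rw [Complex.sub_re, Complex.re_ofReal_mul, exp_re, Complex.ofReal_re]; field_simp; ring
  · rw [Complex.add_re, Complex.re_ofReal_mul, exp_re, Complex.ofReal_re]; field_simp; ring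
  · rw [Complex.ofReal_re]; field_simp; ring

theorem htf_sep (i : ℕ) (ρ : Equiv.Perm (Fin n)) (s : ℝ) {a b : Fin n} (h : ρ a < ρ b)
    (h' : ¬ ((ρ a : ℕ) = i ∧ (ρ b : ℕ) = i + 1)) :
    n * (htf i ρ s a).re + 1 ≤ n * (htf i ρ s b).re := by
  have ha := htf_re i ρ s a
  have hb := htf_re i ρ s b
  have c1 := Real.cos_le_one (Real.pi * s)
  have c2 := Real.neg_one_le_cos (Real.pi * s)
  rw [Fin.lt_def] at h
  generalize (ρ a : ℕ) = u at *
  generalize (ρ b : ℕ) = v at *
  rw [mul_add] at ha hb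
  split_ifs at ha hb with h1 h2 h3 h4 h5 h6 h7 h8
  all_goals try omega
  · have : (i : ℝ) + 2 ≤ v := by exact_mod_cast (by omega : i + 2 ≤ v)
    linarith
  · have : (i : ℝ) + 2 ≤ v := by exact_mod_cast (by omega : i + 2 ≤ v)
    linarith
  · have : (u : ℝ) + 1 ≤ i := by exact_mod_cast (by omega : u + 1 ≤ i)
    linarith
  · have : (u : ℝ) + 1 ≤ i := by exact_mod_cast (by omega : u + 1 ≤ i)
    linarith
  · have : (u : ℝ) + 1 ≤ v := by exact_mod_cast (by omega : u + 1 ≤ v)
    linarith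

theorem htf_lt (i : ℕ) (ρ : Equiv.Perm (Fin n)) (s : ℝ) {a b : Fin n} (h : ρ a < ρ b)
    (h' : ¬ ((ρ a : ℕ) = i ∧ (ρ b : ℕ) = i + 1)) : (htf i ρ s a).re < (htf i ρ s b).re := by
  have := htf_sep i ρ s h h'
  have h0 := npos a
  by_contra hc
  nlinarith [mul_le_mul_of_nonneg_left (not_lt.1 hc) h0.le]

theorem htf_diff (i : ℕ) (ρ : Equiv.Perm (Fin n)) (s : ℝ) {a b : Fin n}
    (ha : (ρ a : ℕ) = i) (hb : (ρ b : ℕ) = i + 1) : htf i ρ s b - htf i ρ s a =
      ((2 / (n : ℝ) : ℝ) : ℂ) * Complex.exp ((Real.pi : ℂ) * (s : ℂ) * Complex.I) := by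
  simp only [htf, ha, hb, if_true, Nat.succ_ne_self, if_false]
  push_cast; ring

theorem htf_mem {i : ℕ} (hi : i + 1 < n) (ρ : Equiv.Perm (Fin n)) (s : ℝ) :
    Function.Injective (htf i ρ s) ∧ ∀ m, ‖htf i ρ s m‖ < 1 := by
  constructor
  · have key : ∀ a b, ρ a < ρ b → htf i ρ s a ≠ htf i ρ s b := by
      intro a b h e
      by_cases h' : (ρ a : ℕ) = i ∧ (ρ b : ℕ) = i + 1
      · have := htf_diff i ρ s h'.1 h'.2
        rw [e, sub_self] at this
        have h0 := npos a
        exact mul_ne_zero (Complex.ofReal_ne_zero.2 (by positivity)) (Complex.exp_ne_zero _)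
          this.symm
      · have := htf_lt i ρ s h h'
        rw [e] at this
        exact lt_irrefl _ this
    intro a b e
    by_contra hne
    rcases lt_or_gt_of_ne (fun h => hne (ρ.injective h)) with h | h
    · exact key a b h e
    · exact key b a h e.symm
  · intro m
    have h0 := npos m
    have hi' : (i : ℝ) + 2 ≤ n := by exact_mod_cast (by omega : i + 2 ≤ n)
    have hc : |(2 * (i : ℝ) + 2) / (n : ℝ) - 1| + 1 / n < 1 := by
      have : |(2 * (i : ℝ) + 2) / (n : ℝ) - 1| ≤ 1 - 2 / n := by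
        rw [abs_le]
        constructor
        · have : 2 / (n : ℝ) ≤ (2 * (i : ℝ) + 2) / n := by gcongr; linarith [Nat.cast_nonneg (α := ℝ) i]
          linarith
        · have : (2 * (i : ℝ) + 2) / n + 2 / n ≤ 2 := by
            rw [← add_div, div_le_iff₀ h0]; linarith
          linarith
      have h2 : 1 / (n : ℝ) < 2 / n := by gcongr; norm_num
      linarith
    have he : ‖((1 / (n : ℝ) : ℝ) : ℂ) * Complex.exp ((Real.pi : ℂ) * (s : ℂ) * Complex.I)‖ =
        1 / n := by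
      rw [norm_mul, ← Complex.ofReal_mul, Complex.norm_exp_ofReal_mul_I, mul_one,
        Complex.norm_real, Real.norm_of_nonneg (by positivity)]
    unfold htf
    split_ifs
    · refine (norm_sub_le _ _).trans_lt ?_
      rwa [he, Complex.norm_real, Real.norm_eq_abs]
    · refine (norm_add_le _ _).trans_lt ?_
      rwa [he, Complex.norm_real, Real.norm_eq_abs]
    · rw [Complex.norm_real, Real.norm_eq_abs, abs_lt]
      have h1 : ((ρ m : ℕ) : ℝ) + 1 ≤ n := by exact_mod_cast (ρ m).2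
      constructor
      · have : 0 < (2 * ((ρ m : ℕ) : ℝ) + 1) / n := by positivity
        linarith
      · have : (2 * ((ρ m : ℕ) : ℝ) + 1) / n < 2 := by rw [div_lt_iff₀ h0]; linarith
        linarith

theorem std_lt (ρ : Equiv.Perm (Fin n)) {a b : Fin n} (h : ρ a < ρ b) :
    (2 * ((ρ a : ℕ) : ℝ) + 1) / (n : ℝ) - 1 < (2 * ((ρ b : ℕ) : ℝ) + 1) / (n : ℝ) - 1 := by
  have h0 := npos a
  have : ((ρ a : ℕ) : ℝ) < (ρ b : ℕ) := by exact_mod_cast h
  gcongr

/-- standard configuration -/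
noncomputable def std (ρ : Equiv.Perm (Fin n)) : X n :=
  ⟨fun m => (((2 * ((ρ m : ℕ) : ℝ) + 1) / (n : ℝ) - 1 : ℝ) : ℂ), by
    constructor
    · intro a b e
      have e' := Complex.ofReal_injective e
      by_contra hne
      rcases lt_or_gt_of_ne (fun h => hne (ρ.injective h)) with h | h
      · exact (std_lt ρ h).ne e'
      · exact (std_lt ρ h).ne e'.symm
    · intro m
      have h0 := npos m
      rw [Complex.norm_real, Real.norm_eq_abs, abs_lt]
      have h1 : ((ρ m : ℕ) : ℝ) + 1 ≤ n := by exact_mod_cast (ρ m).2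
      constructor
      · have : 0 < (2 * ((ρ m : ℕ) : ℝ) + 1) / n := by positivity
        linarith
      · have : (2 * ((ρ m : ℕ) : ℝ) + 1) / n < 2 := by rw [div_lt_iff₀ h0]; linarith
        linarith⟩

theorem htf_zero (i : ℕ) (ρ : Equiv.Perm (Fin n)) : htf i ρ 0 = (std ρ).1 := by
  funext m
  simp only [htf, std]
  split_ifs with h1 h2
  · rw [h1]; simp; ring
  · rw [h2]; simp; ring
  · rfl

/-- adjacent transposition -/
def sw {i : ℕ} (hi : i + 1 < n) : Equiv.Perm (Fin n) := Equiv.swap ⟨i, by omega⟩ ⟨i + 1, hi⟩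

theorem sw_val {i : ℕ} (hi : i + 1 < n) (u : Fin n) :
    (sw hi u : ℕ) = if (u : ℕ) = i then i + 1 else if (u : ℕ) = i + 1 then i else u := by
  simp only [sw, Equiv.swap_apply_def, Fin.ext_iff]
  split_ifs <;> rfl

theorem htf_one {i : ℕ} (hi : i + 1 < n) (ρ : Equiv.Perm (Fin n)) :
    htf i ρ 1 = (std (sw hi * ρ)).1 := by
  funext m
  simp only [htf, std, Equiv.Perm.mul_apply, sw_val]
  split_ifs with h1 h2
  · simp; ring
  · simp; ring
  · rfl

theorem htf_cont (i : ℕ) (ρ : Equiv.Perm (Fin n)) : ContDiff ℝ (⊤ : ℕ∞) (htf i ρ) := by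
  rw [contDiff_pi]
  intro m
  have h1 : ContDiff ℝ (⊤ : ℕ∞) (fun s : ℝ => (s : ℂ)) := Complex.ofRealCLM.contDiff
  have h2 : ContDiff ℝ (⊤ : ℕ∞) fun s : ℝ => Complex.exp ((Real.pi : ℂ) * (s : ℂ) * Complex.I) :=
    ((contDiff_const.mul h1).mul contDiff_const).cexp
  unfold htf
  split_ifs
  · exact contDiff_const.sub (contDiff_const.mul h2)
  · exact contDiff_const.add (contDiff_const.mul h2)
  · exact contDiff_const

/-- the half turn -/
noncomputable def ht {i : ℕ} (hi : i + 1 < n) (ρ : Equiv.Perm (Fin n)) :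
    Path (std ρ) (std (sw hi * ρ)) where
  toFun s := ⟨htf i ρ s, htf_mem hi ρ s⟩
  continuous_toFun := ((htf_cont i ρ).continuous.comp continuous_subtype_val).subtype_mk _
  source' := Subtype.ext (htf_zero i ρ)
  target' := Subtype.ext (htf_one hi ρ)

/-- pieces of a positive word -/
def Word {p q : X n} (k : ℕ) (Γ : Path p q) : Prop :=
  ∀ j : ℕ, j < k → ∃ i : ℕ, i + 1 < n ∧ ∃ ρ : Equiv.Perm (Fin n),
    ∀ (t : unitInterval) (s : ℝ), 0 ≤ s → s ≤ 1 → (t : ℝ) = ((j : ℝ) + s) / (k : ℝ) →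
      ∀ m : Fin n, (Γ t).1 m = htf i ρ s m

/-- trivial or positive -/
def Pos {p q : X n} (c : Path p q) : Prop :=
  (∃ d : Path p q, d.Homotopic c ∧ ∀ t, d t = p) ∨
    ∃ Γ : Path p q, Γ.Homotopic c ∧ ∃ k : ℕ, 1 ≤ k ∧ Word k Γ

theorem Pos.of_hom {p q : X n} {c c' : Path p q} (h : Pos c) (e : c.Homotopic c') : Pos c' := by
  rcases h with ⟨d, h1, h2⟩ | ⟨d, h1, h2⟩
  · exact Or.inl ⟨d, h1.trans e, h2⟩
  · exact Or.inr ⟨d, h1.trans e, h2⟩

theorem Pos.cast {p q p' q' : X n} {c : Path p q} (h : Pos c) (hp : p' = p) (hq : q' = q) :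
    Pos (c.cast hp hq) := by
  subst hp hq; exact h

theorem const_trans {Y : Type} [TopologicalSpace Y] {x y z : Y} (Γ : Path x y) (H : Path y z)
    (hΓ : ∀ t, Γ t = x) : ∃ Γ' : Path x z, Γ'.Homotopic (Γ.trans H) ∧ ∀ t, Γ' t = H t := by
  have : y = x := by rw [← Γ.target, hΓ]
  subst this
  have : Γ = Path.refl y := by ext t; simp [hΓ]
  subst this
  exact ⟨H, (Path.Homotopic.refl_trans H).symm, fun _ => rfl⟩

theorem Pos.append {p : X n} {ρ : Equiv.Perm (Fin n)} {c : Path p (std ρ)} (h : Pos c)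
    {i : ℕ} (hi : i + 1 < n) : Pos (c.trans (ht hi ρ)) := by
  right
  rcases h with ⟨d, h1, h2⟩ | ⟨d, h1, k, hk, h2⟩
  · obtain ⟨Γ, h3, h4⟩ := const_trans d (ht hi ρ) h2
    refine ⟨Γ, h3.trans (h1.hcomp (Path.Homotopic.refl _)), 1, le_rfl, ?_⟩
    intro j hj
    obtain rfl : j = 0 := by omega
    refine ⟨i, hi, ρ, fun t s _ _ hs m => ?_⟩
    rw [h4, ← (by simpa using hs : (t : ℝ) = s)]
    rfl
  · have hk' : (1 : ℝ) ≤ k := by exact_mod_cast hk
    let f : I → I := fun t => ⟨max ((k + 1) * t / (2 * k)) (((k + 1) * t - k + 1) / 2), by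
      constructor
      · exact le_max_of_le_left (by have := t.2.1; positivity)
      · have := t.2.2
        refine max_le ?_ ?_
        · rw [div_le_one (by positivity)]; nlinarith
        · rw [div_le_one (by positivity)]; nlinarith⟩
    have hf : Continuous f := by
      refine Continuous.subtype_mk ?_ _
      fun_prop
    have f0 : f 0 = 0 := Subtype.ext (by
      simp only [f, Icc.coe_zero, mul_zero, zero_div]
      exact max_eq_left (by linarith))
    have f1 : f 1 = 1 := Subtype.ext (by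
      simp only [f, Icc.coe_one, mul_one]
      rw [show ((k : ℝ) + 1 - k + 1) / 2 = 1 by ring]
      exact max_eq_right (by rw [div_le_one (by positivity)]; linarith))
    refine ⟨(d.trans (ht hi ρ)).reparam f hf f0 f1, ?_, k + 1, by omega, ?_⟩
    · exact Path.Homotopic.trans ⟨(Path.Homotopy.reparam _ f hf f0 f1).symm⟩
        (h1.hcomp (Path.Homotopic.refl _))
    · intro j hj
      have ev : ∀ t, (d.trans (ht hi ρ)).reparam f hf f0 f1 t =
          (d.trans (ht hi ρ)).extend (f t) := by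
        intro t; rw [Path.extend_extends']; rfl
      rcases Nat.lt_succ_iff_lt_or_eq.1 hj with hj' | rfl
      · obtain ⟨i', hi', ρ', h3⟩ := h2 j hj'
        refine ⟨i', hi', ρ', fun t s s0 s1 hs m => ?_⟩
        have hj2 : (j : ℝ) + 1 ≤ k := by exact_mod_cast hj'
        have hj0 : (0 : ℝ) ≤ j := Nat.cast_nonneg j
        have e1 : ((k : ℝ) + 1) * t = j + s := by rw [hs]; push_cast; field_simp
        have e2 : (f t : ℝ) = (j + s) / (2 * k) := by
          simp only [f, e1]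
          refine max_eq_left ?_
          rw [div_le_div_iff₀ (by positivity) (by positivity)]
          nlinarith
        have e3 : 2 * (f t : ℝ) = (j + s) / k := by rw [e2]; field_simp
        have m1 : ((j : ℝ) + s) / k ∈ I :=
          ⟨by positivity, by rw [div_le_one (by positivity)]; linarith⟩
        rw [ev, Path.extend_trans_of_le_half _ _ (by have := m1.2; linarith), e3,
          Path.extend_apply _ m1]
        exact h3 _ s s0 s1 rfl m
      · refine ⟨i, hi, ρ, fun t s s0 s1 hs m => ?_⟩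
        have e1 : ((j : ℝ) + 1) * t = j + s := by rw [hs]; push_cast; field_simp
        have e2 : (f t : ℝ) = (s + 1) / 2 := by
          simp only [f, e1]
          rw [show ((j : ℝ) + s - j + 1) / 2 = (s + 1) / 2 by ring]
          refine max_eq_right ?_
          rw [div_le_div_iff₀ (by positivity) (by positivity)]
          nlinarith
        have e3 : 2 * (f t : ℝ) - 1 = s := by rw [e2]; ring
        rw [ev, Path.extend_trans_of_half_le _ _ (by linarith), e3, Path.extend_apply _ ⟨s0, s1⟩]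
        rfl

end Pool.Agent.H63.Lz
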