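import Pool.Agent.H63.Lz1

set_option autoImplicit false

namespace Pool.Agent.H63.Lz

open Set unitInterval Filter Topology

variable {n : ℕ}

def Uc (x y : Fin n → ℂ) : Prop :=
  ∀ a b, ((x a).re < (x b).re → (y a).re < (y b).re) ∧
    ((x a).re = (x b).re → (x a).im < (x b).im → (y a).re = (y b).re → (y a).im < (y b).im)

def Vc (x y : Fin n → ℂ) : Prop :=
  ∀ a b, ((x a).re < (x b).re → (y a).re < (y b).re) ∧ ((x a).im < (x b).im → (y a).im < (y b).im)

theorem Vc.uc {x y : Fin n → ℂ} (h : Vc x y) : Uc x y :=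
  fun a b => ⟨(h a b).1, fun _ h2 _ => (h a b).2 h2⟩

theorem Vc.trans {x y z : Fin n → ℂ} (h : Vc x y) (h' : Uc y z) : Uc x z := by
  intro a b
  refine ⟨fun h1 => (h' a b).1 ((h a b).1 h1), fun _ h2 h3 => ?_⟩
  rcases lt_trichotomy (y a).re (y b).re with h4 | h4 | h4
  · exact absurd h3 ((h' a b).1 h4).ne
  · exact (h' a b).2 h4 ((h a b).2 h2) h3
  · exact absurd h3.symm ((h' b a).1 h4).ne

theorem uc_self (x : Fin n → ℂ) : Uc x x := fun _ _ => ⟨id, fun _ h _ => h⟩

theorem Uc.inj {x y : Fin n → ℂ} (hx : Function.Injective x) (h : Uc x y) :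
    Function.Injective y := by
  intro a b e
  apply hx
  rcases lt_trichotomy (x a).re (x b).re with h1 | h1 | h1
  · exact absurd (congrArg Complex.re e) ((h a b).1 h1).ne
  · rcases lt_trichotomy (x a).im (x b).im with h2 | h2 | h2
    · exact absurd (congrArg Complex.im e) ((h a b).2 h1 h2 (congrArg Complex.re e)).ne
    · exact Complex.ext h1 h2
    · exact absurd (congrArg Complex.im e.symm)
        ((h b a).2 h1.symm h2 (congrArg Complex.re e.symm)).ne
  · exact absurd (congrArg Complex.re e.symm) ((h b a).1 h1).ne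

def S (x : X n) : Set (Fin n → ℂ) := {y | (∀ m, ‖y m‖ < 1) ∧ Uc x.1 y}

theorem S_star (x : X n) : StarConvex ℝ x.1 (S x) := by
  rintro y ⟨h1, h2⟩ s t hs ht hst
  refine ⟨fun m => ?_, fun a b => ⟨fun h => ?_, fun h h' h'' => ?_⟩⟩
  · have := (convex_ball (0 : ℂ) 1) (mem_ball_zero_iff.2 (x.2.2 m)) (mem_ball_zero_iff.2 (h1 m))
      hs ht hst
    exact mem_ball_zero_iff.1 this
  · have := (h2 a b).1 h
    simp only [Pi.add_apply, Pi.smul_apply, Complex.add_re, Complex.smul_re, smul_eq_mul]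
    obtain rfl : s = 1 - t := by linarith
    rcases ht.eq_or_lt with rfl | ht'
    · simpa using h
    · nlinarith [mul_pos ht' (sub_pos.2 this), mul_nonneg hs (sub_pos.2 h).le]
  · simp only [Pi.add_apply, Pi.smul_apply, Complex.add_re, Complex.smul_re, smul_eq_mul,
      Complex.add_im, Complex.smul_im] at h'' ⊢
    obtain rfl : s = 1 - t := by linarith
    rcases ht.eq_or_lt with rfl | ht'
    · simpa using h'
    · have e : (y a).re = (y b).re := by
        rw [h] at h''
        exact mul_left_cancel₀ ht'.ne' (by linarith)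
      have := (h2 a b).2 h h' e
      nlinarith [mul_pos ht' (sub_pos.2 this), mul_nonneg hs (sub_pos.2 h').le]

theorem S_self (x : X n) : x.1 ∈ S x := ⟨x.2.2, uc_self _⟩

def incl (x : X n) : C(S x, X n) :=
  ⟨fun y => ⟨y.1, y.2.2.inj x.2.1, y.2.1⟩, continuous_subtype_val.subtype_mk _⟩

def InU (x : X n) {p q : X n} (e : Path p q) : Prop := ∀ t, Uc x.1 (e t).1

theorem InU.trans {x p q r : X n} {e : Path p q} {e' : Path q r} (h : InU x e) (h' : InU x e') :
    InU x (e.trans e') := by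
  intro t
  rw [Path.trans_apply]
  split_ifs
  · exact h _
  · exact h' _

theorem hom_of_inU {x p q : X n} {e e' : Path p q} (h : InU x e) (h' : InU x e') :
    e.Homotopic e' := by
  haveI := (S_star x).contractibleSpace ⟨_, S_self x⟩
  have hp : p.1 ∈ S x := ⟨p.2.2, by simpa using h 0⟩
  have hq : q.1 ∈ S x := ⟨q.2.2, by simpa using h 1⟩
  let L : ∀ e : Path p q, InU x e → Path (⟨p.1, hp⟩ : S x) ⟨q.1, hq⟩ := fun e h =>
    { toFun := fun t => ⟨(e t).1, (e t).2.2, h t⟩
      continuous_toFun := (continuous_subtype_val.comp e.continuous).subtype_mk _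
      source' := by simp
      target' := by simp }
  exact (SimplyConnectedSpace.paths_homotopic (L e h) (L e' h')).map (incl x)

theorem exists_inU {x q : X n} (hq : Uc x.1 q.1) : ∃ e : Path x q, InU x e := by
  haveI := (S_star x).contractibleSpace ⟨_, S_self x⟩
  let e := PathConnectedSpace.somePath (⟨x.1, S_self x⟩ : S x) ⟨q.1, q.2.2, hq⟩
  exact ⟨e.map (incl x).continuous, fun t => (e t).2.2⟩

def Lt (x : Fin n → ℂ) (a b : Fin n) : Prop :=
  (x a).re < (x b).re ∨ ((x a).re = (x b).re ∧ (x b).im < (x a).im)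

def Ord (x : Fin n → ℂ) (ρ : Equiv.Perm (Fin n)) : Prop := ∀ a b, ρ a < ρ b → Lt x a b

def Cons (x : Fin n → ℂ) (ρ : Equiv.Perm (Fin n)) : Prop :=
  ∀ a b, (x a).re < (x b).re → ρ a < ρ b

theorem Ord.cons {x : Fin n → ℂ} {ρ : Equiv.Perm (Fin n)} (h : Ord x ρ) : Cons x ρ := by
  intro a b hab
  by_contra hc
  rcases (not_lt.1 hc).eq_or_lt with e | e
  · rw [ρ.injective e] at hab; exact lt_irrefl _ hab
  · rcases h b a e with h1 | h1
    · exact lt_asymm hab h1
    · exact hab.ne h1.1.symm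

theorem exists_ord {x : Fin n → ℂ} (hx : Function.Injective x) : ∃ ρ, Ord x ρ := by
  let f : Fin n → ℝ ×ₗ ℝ := fun m => toLex ((x m).re, -(x m).im)
  have hf : Function.Injective f := by
    intro a b e
    have e' : ((x a).re, -(x a).im) = ((x b).re, -(x b).im) := toLex.injective e
    simp only [Prod.mk.injEq, neg_inj] at e'
    exact hx (Complex.ext e'.1 e'.2)
  have hm : StrictMono (f ∘ Tuple.sort f) :=
    (Tuple.monotone_sort f).strictMono_of_injective (hf.comp (Tuple.sort f).injective)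
  refine ⟨(Tuple.sort f)⁻¹, fun a b h => ?_⟩
  have := hm h
  simp only [Function.comp_apply, Equiv.Perm.coe_inv, Equiv.apply_symm_apply, f, Prod.Lex.toLex_lt_toLex,
    neg_lt_neg_iff] at this
  exact this

theorem Cons.std {x : Fin n → ℂ} {ρ : Equiv.Perm (Fin n)} (h : Cons x ρ) : Uc x (std ρ).1 := by
  intro a b
  refine ⟨fun h1 => ?_, fun _ h2 h3 => ?_⟩
  · simpa only [Lz.std, Complex.ofReal_re] using std_lt ρ (h a b h1)
  · exfalso
    have : (Lz.std ρ).1 a = (Lz.std ρ).1 b := Complex.ext h3 (by simp only [Lz.std, Complex.ofReal_im])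
    rw [(Lz.std ρ).2.1 this] at h2
    exact lt_irrefl _ h2

theorem perm_eq {ρ ρ' : Equiv.Perm (Fin n)}
    (h : ∀ i (hi : i + 1 < n), ρ (ρ'⁻¹ ⟨i, by omega⟩) < ρ (ρ'⁻¹ ⟨i + 1, hi⟩)) : ρ' = ρ := by
  have hm : StrictMono fun u => ρ (ρ'⁻¹ u) := by
    cases n with
    | zero => intro a; exact a.elim0
    | succ n =>
      rw [Fin.strictMono_iff_lt_succ]
      intro i
      exact h i (by omega)
  have : (fun u => ρ (ρ'⁻¹ u)) = id := hm.eq_id
  ext u
  have h2 := congrFun this (ρ' u)
  simp at h2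
  rw [h2]

theorem ht_inU {x : X n} {ρ : Equiv.Perm (Fin n)} (hc : Cons x.1 ρ) {i : ℕ} (hi : i + 1 < n)
    {a b : Fin n} (ha : (ρ a : ℕ) = i) (hb : (ρ b : ℕ) = i + 1) (h1 : (x.1 a).re = (x.1 b).re)
    (h2 : (x.1 a).im < (x.1 b).im) : InU x (ht hi ρ) := by
  intro t u v
  have ea : ∀ w, (ρ w : ℕ) = i → w = a := fun w h => ρ.injective (Fin.ext (h.trans ha.symm))
  have eb : ∀ w, (ρ w : ℕ) = i + 1 → w = b := fun w h => ρ.injective (Fin.ext (h.trans hb.symm))
  change (_ → (htf i ρ t u).re < (htf i ρ t v).re) ∧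
    (_ → _ → (htf i ρ t u).re = (htf i ρ t v).re → (htf i ρ t u).im < (htf i ρ t v).im)
  refine ⟨fun h => htf_lt i ρ t (hc u v h) ?_, fun h3 h4 h5 => ?_⟩
  · rintro ⟨h3, h4⟩
    rw [ea u h3, eb v h4] at h
    exact h.ne h1
  · have huv : ρ u ≠ ρ v := fun e => by rw [ρ.injective e] at h4; exact lt_irrefl _ h4
    rcases lt_or_gt_of_ne huv with h | h
    · by_cases h6 : (ρ u : ℕ) = i ∧ (ρ v : ℕ) = i + 1
      · have hd := htf_diff i ρ t h6.1 h6.2
        have hre := congrArg Complex.re hd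
        have him := congrArg Complex.im hd
        rw [Complex.sub_re, Complex.re_ofReal_mul, exp_re, h5, sub_self] at hre
        rw [Complex.sub_im, Complex.im_ofReal_mul, exp_im] at him
        have h0 : (0 : ℝ) < 2 / n := by have := npos a; positivity
        have hcos : Real.cos (Real.pi * t) = 0 := by
          rcases mul_eq_zero.1 hre.symm with e | e
          · exact absurd e h0.ne'
          · exact e
        have hsin : 0 ≤ Real.sin (Real.pi * t) :=
          Real.sin_nonneg_of_nonneg_of_le_pi (mul_nonneg Real.pi_pos.le t.2.1)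
            (by nlinarith [Real.pi_pos, t.2.2])
        have h7 := Real.sin_sq_add_cos_sq (Real.pi * t)
        have : 0 < Real.sin (Real.pi * t) := by
          rcases hsin.eq_or_lt with e | e
          · rw [← e, hcos] at h7; norm_num at h7
          · exact e
        nlinarith [mul_pos h0 this]
      · exact absurd h5 (htf_lt i ρ t h h6).ne
    · by_cases h6 : (ρ v : ℕ) = i ∧ (ρ u : ℕ) = i + 1
      · rw [ea v h6.1, eb u h6.2] at h4
        exact absurd h4 (lt_asymm h2)
      · exact absurd h5.symm (htf_lt i ρ t h h6).ne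

theorem sw_lt {i : ℕ} (hi : i + 1 < n) {u v : Fin n} (h : u < v)
    (h' : ¬ ((u : ℕ) = i ∧ (v : ℕ) = i + 1)) : sw hi u < sw hi v := by
  rw [Fin.lt_def] at *
  rw [sw_val, sw_val]
  split_ifs <;> omega

theorem lt_of_sw_lt {i : ℕ} (hi : i + 1 < n) {u v : Fin n} (h : sw hi u < sw hi v)
    (h' : ¬ ((v : ℕ) = i ∧ (u : ℕ) = i + 1)) : u < v := by
  rw [Fin.lt_def] at *
  rw [sw_val, sw_val] at h
  split_ifs at h <;> omega

theorem bubble {x p : X n} {ρ : Equiv.Perm (Fin n)} (ho : Ord x.1 ρ) (N : ℕ) :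
    ∀ ρ' : Equiv.Perm (Fin n),
      (Finset.univ.filter fun w : Fin n × Fin n => ρ' w.1 < ρ' w.2 ∧ ρ w.2 < ρ w.1).card < N →
      Cons x.1 ρ' → ∀ c : Path p (std ρ'), Pos c →
        ∃ e : Path (std ρ') (std ρ), InU x e ∧ Pos (c.trans e) := by
  induction N with
  | zero => intro ρ' h; omega
  | succ N ih =>
    intro ρ' hN hc c hp
    by_cases h : ∀ i (hi : i + 1 < n), ρ (ρ'⁻¹ ⟨i, by omega⟩) < ρ (ρ'⁻¹ ⟨i + 1, hi⟩)
    · obtain rfl := perm_eq h
      exact ⟨Path.refl _, fun t => hc.std, hp.of_hom (Path.Homotopic.trans_refl c).symm⟩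
    · push Not at h
      obtain ⟨i, hi, h⟩ := h
      set a := ρ'⁻¹ ⟨i, by omega⟩ with ha0
      set b := ρ'⁻¹ ⟨i + 1, hi⟩ with hb0
      have ha : (ρ' a : ℕ) = i := by simp [ha0]
      have hb : (ρ' b : ℕ) = i + 1 := by simp [hb0]
      have hab : ρ' a < ρ' b := by rw [Fin.lt_def]; omega
      have hba : ρ b < ρ a := by
        refine lt_of_le_of_ne h fun e => ?_
        rw [ρ.injective e] at hab
        exact lt_irrefl _ hab
      have ea : ∀ w, (ρ' w : ℕ) = i → w = a := fun w h => ρ'.injective (Fin.ext (h.trans ha.symm))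
      have eb : ∀ w, (ρ' w : ℕ) = i + 1 → w = b :=
        fun w h => ρ'.injective (Fin.ext (h.trans hb.symm))
      have hx : (x.1 b).re = (x.1 a).re ∧ (x.1 a).im < (x.1 b).im := by
        rcases ho b a hba with h1 | h1
        · exact absurd (hc b a h1) (lt_asymm hab)
        · exact h1
      have hc' : Cons x.1 (sw hi * ρ') := by
        intro u v huv
        refine sw_lt hi (hc u v huv) ?_
        rintro ⟨h3, h4⟩
        rw [ea u h3, eb v h4] at huv
        exact huv.ne hx.1.symm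
      have hcard : (Finset.univ.filter fun w : Fin n × Fin n =>
          (sw hi * ρ') w.1 < (sw hi * ρ') w.2 ∧ ρ w.2 < ρ w.1).card < N := by
        refine lt_of_lt_of_le (Finset.card_lt_card ?_) (Nat.lt_succ_iff.1 hN)
        rw [Finset.ssubset_iff_of_subset]
        · refine ⟨(a, b), by simp [hab, hba], ?_⟩
          simp only [Finset.mem_filter, Finset.mem_univ, true_and, Equiv.Perm.mul_apply, not_and]
          intro h3
          rw [Fin.lt_def, sw_val, sw_val, ha, hb] at h3
          simp at h3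
        · intro w hw
          simp only [Finset.mem_filter, Finset.mem_univ, true_and, Equiv.Perm.mul_apply] at hw ⊢
          refine ⟨lt_of_sw_lt hi hw.1 ?_, hw.2⟩
          rintro ⟨h3, h4⟩
          rw [ea _ h3, eb _ h4] at hw
          exact lt_asymm hba hw.2
      obtain ⟨e, h1, h2⟩ := ih (sw hi * ρ') hcard hc' _ (hp.append hi)
      exact ⟨(ht hi ρ').trans e, (ht_inU hc hi ha hb hx.1.symm hx.2).trans h1,
        h2.of_hom (Path.Homotopic.trans_assoc _ _ _)⟩

section ind

variable (D : C(ℝ, X n))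

noncomputable def sub (s t : ℝ) : Path (D s) (D t) := (Path.segment s t).map D.continuous

theorem sub_trans (r s t : ℝ) : ((sub D r s).trans (sub D s t)).Homotopic (sub D r t) := by
  have := (SimplyConnectedSpace.paths_homotopic ((Path.segment r s).trans (Path.segment s t))
    (Path.segment r t)).map D
  rwa [Path.map_trans] at this

def Claim (t : ℝ) : Prop :=
  ∃ ρ, Ord (D t).1 ρ ∧ ∃ e : Path (D t) (std ρ), InU (D t) e ∧ Pos ((sub D 0 t).trans e)

theorem step {s t : ℝ} {x : X n} (hs : Claim D s) (h1 : ∀ u ∈ uIcc s t, Vc x.1 (D u).1)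
    {ρ : Equiv.Perm (Fin n)} (h2 : Ord x.1 ρ) (h3 : Ord (D t).1 ρ) : Claim D t := by
  obtain ⟨ρ', h4, e', h5, h6⟩ := hs
  have vs := h1 s left_mem_uIcc
  have vt := h1 t right_mem_uIcc
  obtain ⟨e'', h7, h8⟩ := bubble h2 _ ρ' (Nat.lt_succ_self _)
    (fun a b h => h4.cons a b ((vs a b).1 h)) _ h6
  obtain ⟨e, he⟩ := exists_inU h3.cons.std
  refine ⟨ρ, h3, e, he, h8.of_hom ?_⟩
  have i1 : InU x (sub D s t) := by
    intro u
    refine (h1 _ ?_).uc
    rw [← segment_eq_uIcc, ← Path.range_segment]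
    exact ⟨u, rfl⟩
  have k := hom_of_inU (InU.trans (x := x) (fun u => vs.trans (h5 u)) h7)
    (i1.trans (fun u => vt.trans (he u)))
  refine (Path.Homotopic.trans_assoc _ _ _).trans ?_
  refine ((Path.Homotopic.refl _).hcomp k).trans ?_
  exact (Path.Homotopic.trans_assoc _ _ _).symm.trans
    ((sub_trans D 0 s t).hcomp (Path.Homotopic.refl _))

theorem ev_vc (t : ℝ) : ∀ᶠ u in 𝓝 t, Vc (D t).1 (D u).1 := by
  have c : ∀ a, Continuous fun u => (D u).1 a := fun a =>
    (continuous_apply a).comp (continuous_subtype_val.comp D.continuous)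
  simp only [Vc, eventually_all, eventually_and]
  intro a b
  constructor
  · intro h
    exact (Complex.continuous_re.comp (c a)).continuousAt.eventually_lt
      (Complex.continuous_re.comp (c b)).continuousAt h
  · intro h
    exact (Complex.continuous_im.comp (c a)).continuousAt.eventually_lt
      (Complex.continuous_im.comp (c b)).continuousAt h

theorem claim_one (h0 : D 0 = std 1)
    (hr : ∀ t ∈ Ico (0 : ℝ) 1, ∀ a b, ((D t).1 a).re = ((D t).1 b).re →
      ((D t).1 b).im < ((D t).1 a).im → ∀ᶠ u in 𝓝[>] t, ((D u).1 a).re < ((D u).1 b).re) :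
    Claim D 1 := by
  have ball : ∀ t, ∃ δ > 0, ∀ u, |u - t| < δ → Vc (D t).1 (D u).1 := by
    intro t
    obtain ⟨δ, hδ, h⟩ := Metric.eventually_nhds_iff.1 (ev_vc D t)
    exact ⟨δ, hδ, fun u hu => h (by rwa [Real.dist_eq])⟩
  have c0 : Claim D 0 := by
    refine ⟨1, ?_, (Path.refl _).cast h0 rfl, ?_, Or.inl ⟨_, Path.Homotopic.refl _, ?_⟩⟩
    · intro a b h
      left
      rw [h0]
      simpa only [std, Complex.ofReal_re] using std_lt 1 h
    · intro t
      change Uc (D 0).1 (std 1).1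
      rw [h0]
      exact uc_self _
    · intro t
      rw [Path.trans_apply]
      split_ifs
      · simp [sub]
      · simp [h0]
  let A := {t ∈ Icc (0 : ℝ) 1 | Claim D t}
  have hne : A.Nonempty := ⟨0, by simp, c0⟩
  have hbd : BddAbove A := ⟨1, fun t ht => ht.1.2⟩
  have s0 : 0 ≤ sSup A := le_csSup hbd ⟨by simp, c0⟩
  have s1 : sSup A ≤ 1 := csSup_le hne fun t ht => ht.1.2
  obtain ⟨δ, hδ, hv⟩ := ball (sSup A)
  obtain ⟨ρ, hρ⟩ := exists_ord (D (sSup A)).2.1
  have cs : Claim D (sSup A) := by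
    obtain ⟨t, ht, ht'⟩ := exists_lt_of_lt_csSup hne (sub_lt_self (sSup A) hδ)
    have := le_csSup hbd ht
    refine step D ht.2 (fun u hu => hv u ?_) hρ hρ
    rw [uIcc_of_le this] at hu
    rw [abs_lt]
    constructor <;> linarith [hu.1, hu.2]
  rcases s1.eq_or_lt with e | hlt
  · rwa [e] at cs
  · exfalso
    have e1 : ∀ᶠ u in 𝓝[>] (sSup A), Ord (D u).1 ρ := by
      simp only [Ord, eventually_all]
      intro a b hab
      rcases hρ a b hab with h | h
      · exact ((ev_vc D _).filter_mono nhdsWithin_le_nhds).mono fun u hu => Or.inl ((hu a b).1 h)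
      · exact (hr _ ⟨s0, hlt⟩ a b h.1 h.2).mono fun u hu => Or.inl hu
    have e2 : ∀ᶠ u in 𝓝[>] (sSup A), u ∈ Ioo (sSup A) (min 1 (sSup A + δ)) :=
      Ioo_mem_nhdsGT (lt_min hlt (by linarith))
    obtain ⟨t, h1, h2, h3⟩ := (e1.and e2).exists
    rw [lt_min_iff] at h3
    have ct : Claim D t := by
      refine step D cs (fun u hu => hv u ?_) hρ h1
      rw [uIcc_of_le h2.le] at hu
      rw [abs_lt]
      constructor <;> linarith [hu.1, hu.2, h3.2]
    exact absurd (le_csSup hbd ⟨⟨s0.trans h2.le, h3.1.le⟩, ct⟩) (not_le.2 h2)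

end ind

theorem pos_of {ρ : Equiv.Perm (Fin n)} (d : Path (std (1 : Equiv.Perm (Fin n))) (std ρ))
    (hr : ∀ t ∈ Ico (0 : ℝ) 1, ∀ a b, ((d.extend t).1 a).re = ((d.extend t).1 b).re →
      ((d.extend t).1 b).im < ((d.extend t).1 a).im →
        ∀ᶠ u in 𝓝[>] t, ((d.extend u).1 a).re < ((d.extend u).1 b).re) : Pos d := by
  obtain ⟨ρ', h1, e, h2, h3⟩ := claim_one d.extend d.extend_zero hr
  have e1 : d.extend 1 = std ρ := d.extend_one
  obtain rfl : ρ = ρ' := by
    apply perm_eq
    intro i hi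
    apply h1.cons
    rw [e1]
    simpa only [std, Complex.ofReal_re] using
      std_lt ρ (a := ρ⁻¹ ⟨i, by omega⟩) (b := ρ⁻¹ ⟨i + 1, hi⟩) (by simp [Fin.lt_def])
  have k : e.Homotopic ((Path.refl _).cast e1 rfl) :=
    hom_of_inU h2 (fun t => by change Uc _ (std ρ).1; rw [e1]; exact uc_self _)
  have h4 := (h3.of_hom ((Path.Homotopic.refl _).hcomp k)).cast d.extend_zero.symm rfl
  refine h4.of_hom ?_
  have : ((sub d.extend 0 1).trans ((Path.refl (std ρ)).cast e1 rfl)).cast d.extend_zero.symm rfl =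
      d.trans (Path.refl _) := by
    ext t : 2
    simp only [Path.cast_coe, Path.trans_apply]
    split_ifs
    · rw [← d.extend_extends']
      simp [sub, Path.segment, AffineMap.lineMap_apply]
    · simp
  rw [this]
  exact Path.Homotopic.trans_refl d

end Pool.Agent.H63.Lz
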