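import Pool.Agent.H63.Lz1

set_option autoImplicit false

namespace Pool.Agent.H63.Lz

open Set Real

theorem lor_id {V : Type} [AddCommGroup V] [Module ℝ V] (q : V →ₗ[ℝ] V →ₗ[ℝ] ℝ)
    (hs : ∀ v w, q v w = q w v) (pd : ∀ v, v ≠ 0 → 0 < q v v) (a : V →ₗ[ℝ] ℝ) (T v : V) :
    0 ≤ a T ^ 2 * q v v - 2 * a T * a v * q v T + a v ^ 2 * q T T := by
  have : 0 ≤ q (a T • v - a v • T) (a T • v - a v • T) := by
    by_cases h : a T • v - a v • T = 0
    · rw [h]; simp
    · exact (pd _ h).le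
  simp only [map_sub, map_smul, LinearMap.sub_apply, LinearMap.smul_apply, smul_eq_mul,
    hs T v] at this
  linarith

theorem lor1 {V : Type} [AddCommGroup V] [Module ℝ V] (q : V →ₗ[ℝ] V →ₗ[ℝ] ℝ)
    (hs : ∀ v w, q v w = q w v) (pd : ∀ v, v ≠ 0 → 0 < q v v) (a : V →ₗ[ℝ] ℝ) (T v : V)
    (h0 : 0 < a T) (hT : q T T - a T * a T < 0) (hv : v ≠ 0) (h : q T v - a T * a v = 0) :
    0 < q v v - a v * a v := by
  have h1 := lor_id q hs pd a T v
  by_cases ha : a v = 0
  · rw [ha]; simpa using pd v hv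
  · rw [hs v T, show q T v = a T * a v by linarith] at h1
    have h2 : 0 < a v ^ 2 := by positivity
    have h3 : 0 < a T ^ 2 * (q v v - a v * a v) := by nlinarith [mul_pos h2 (neg_pos.2 hT)]
    exact (mul_pos_iff_of_pos_left (by positivity)).1 h3

theorem lor2 {V : Type} [AddCommGroup V] [Module ℝ V] (q : V →ₗ[ℝ] V →ₗ[ℝ] ℝ)
    (hs : ∀ v w, q v w = q w v) (pd : ∀ v, v ≠ 0 → 0 < q v v) (a : V →ₗ[ℝ] ℝ) (T v : V)
    (h0 : 0 < a T) (hT : q T T - a T * a T < 0) (hv : q v v - a v * a v < 0) :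
    q v T - a v * a T < 0 ↔ 0 < a v := by
  have h1 := lor_id q hs pd a T v
  have h2 : a T * (a v * (q v T - a v * a T)) < 0 := by
    nlinarith [mul_pos (pow_pos h0 2) (neg_pos.2 hv), mul_nonneg (sq_nonneg (a v)) (neg_pos.2 hT).le]
  have h3 : a v * (q v T - a v * a T) < 0 := by
    by_contra hc
    exact absurd h2 (not_lt.2 (mul_nonneg h0.le (not_lt.1 hc)))
  constructor
  · intro h
    by_contra hc
    exact absurd h3 (not_lt.2 (mul_nonneg_of_nonpos_of_nonpos (not_lt.1 hc) h.le))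
  · intro h
    by_contra hc
    exact absurd h3 (not_lt.2 (mul_nonneg h.le (not_lt.1 hc)))

variable {n : ℕ}

abbrev V (n : ℕ) := Fin n → ℂ

noncomputable def al (x : V n) : V n →ₗ[ℝ] ℝ where
  toFun v := ∑ m, ((x m).re * (v m).im - (x m).im * (v m).re)
  map_add' v w := by
    rw [← Finset.sum_add_distrib]
    exact Finset.sum_congr rfl fun m _ => by simp; ring
  map_smul' c v := by
    rw [RingHom.id_apply, smul_eq_mul, Finset.mul_sum]
    exact Finset.sum_congr rfl fun m _ => by simp; ring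

theorem al_apply (x v : V n) : al x v = ∑ m, ((x m).re * (v m).im - (x m).im * (v m).re) := rfl

noncomputable def ipr (v : V n) : V n →ₗ[ℝ] ℝ where
  toFun w := ∑ m, ((v m).re * (w m).re + (v m).im * (w m).im)
  map_add' v w := by
    rw [← Finset.sum_add_distrib]
    exact Finset.sum_congr rfl fun m _ => by simp; ring
  map_smul' c v := by
    rw [RingHom.id_apply, smul_eq_mul, Finset.mul_sum]
    exact Finset.sum_congr rfl fun m _ => by simp; ring

theorem ipr_apply (v w : V n) :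
    ipr v w = ∑ m, ((v m).re * (w m).re + (v m).im * (w m).im) := rfl

theorem ipr_comm (v w : V n) : ipr v w = ipr w v := by
  rw [ipr_apply, ipr_apply]
  exact Finset.sum_congr rfl fun m _ => by ring

theorem ipr_pos {v : V n} (hv : v ≠ 0) : 0 < ipr v v := by
  obtain ⟨m, hm⟩ := Function.ne_iff.1 hv
  refine Finset.sum_pos' (fun j _ => by nlinarith [sq_nonneg (v j).re, sq_nonneg (v j).im])
    ⟨m, Finset.mem_univ _, ?_⟩
  exact Complex.normSq_pos.2 hm

noncomputable def th (x : V n) (a b : Fin n) : V n →ₗ[ℝ] ℝ where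
  toFun v := ((v a - v b) / (x a - x b)).im
  map_add' v w := by
    rw [← Complex.add_im, ← add_div]; simp only [Pi.add_apply]; congr 2; ring
  map_smul' c v := by
    rw [RingHom.id_apply, smul_eq_mul, ← Complex.im_ofReal_mul, ← mul_div_assoc]
    simp only [Pi.smul_apply, Complex.real_smul]; congr 2; ring

theorem th_apply (x : V n) (a b : Fin n) (v : V n) :
    th x a b v = ((v a - v b) / (x a - x b)).im := rfl

theorem th_comm (x : V n) (a b : Fin n) (v : V n) : th x b a v = th x a b v := by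
  rw [th_apply, th_apply, ← neg_sub (v a), ← neg_sub (x a), neg_div_neg_eq]

noncomputable def mu (x : V n) (p : Fin n × Fin n) : ℝ :=
  if p.1 = p.2 then 0 else (1 - smoothTransition ((n * ((x p.1).re - (x p.2).re)) ^ 2)) / 2

theorem mu_nonneg (x : V n) (p : Fin n × Fin n) : 0 ≤ mu x p := by
  unfold mu
  split_ifs
  · exact le_rfl
  · linarith [smoothTransition.le_one ((n * ((x p.1).re - (x p.2).re)) ^ 2)]

theorem mu_le (x : V n) (p : Fin n × Fin n) : mu x p ≤ 1 / 2 := by
  unfold mu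
  split_ifs
  · norm_num
  · linarith [smoothTransition.nonneg ((n * ((x p.1).re - (x p.2).re)) ^ 2)]

noncomputable def MM (x : V n) : ℝ := ∑ p, mu x p

noncomputable def ka (n : ℕ) : ℝ := 1 / (n : ℝ) ^ 3

noncomputable def ff (x : V n) : ℝ := 1 - smoothTransition ((MM x - 1) / ka n)

noncomputable def cc (x : V n) : ℝ := ipr x x * (1 - (1 - ka n) * ff x)

noncomputable def ll (x : V n) (p : Fin n × Fin n) : V n →ₗ[ℝ] ℝ := al x - cc x • th x p.1 p.2

theorem ll_apply (x : V n) (p : Fin n × Fin n) (v : V n) :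
    ll x p v = al x v - cc x * th x p.1 p.2 v := rfl

noncomputable def qq (x : V n) : V n →ₗ[ℝ] V n →ₗ[ℝ] ℝ :=
  (ka n * ipr x x / 2) • LinearMap.mk₂ ℝ (fun v w => ipr v w)
    (fun a b c => by simp only [ipr_comm _ c, map_add])
    (fun a b c => by simp only [ipr_comm _ c, map_smul])
    (fun a b c => map_add _ _ _) (fun a b c => map_smul _ _ _) +
  ∑ p, mu x p • (ll x p).smulRight (ll x p)

theorem qq_apply (x v w : V n) :
    qq x v w = ka n * ipr x x / 2 * ipr v w + ∑ p, mu x p * (ll x p v * ll x p w) := by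
  simp [qq, LinearMap.sum_apply]

theorem qq_comm (x v w : V n) : qq x v w = qq x w v := by
  rw [qq_apply, qq_apply, ipr_comm v w]
  congr 1
  exact Finset.sum_congr rfl fun m _ => by ring

theorem ka_pos (hn : 2 ≤ n) : 0 < ka n := by
  have : (2 : ℝ) ≤ n := by exact_mod_cast hn
  unfold ka; positivity

theorem ka_le (hn : 2 ≤ n) : ka n ≤ 1 := by
  have : (2 : ℝ) ≤ n := by exact_mod_cast hn
  unfold ka
  rw [div_le_one (by positivity)]
  exact one_le_pow₀ (by linarith)

theorem N_pos (hn : 2 ≤ n) {x : V n} (hx : Function.Injective x) : 0 < ipr x x := by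
  apply ipr_pos
  rintro rfl
  have := hx (a₁ := ⟨0, by omega⟩) (a₂ := ⟨1, by omega⟩) rfl
  simp at this

theorem qq_pos (hn : 2 ≤ n) {x : V n} (hx : Function.Injective x) (v : V n) (hv : v ≠ 0) :
    0 < qq x v v := by
  rw [qq_apply]
  have h1 := ka_pos hn
  have h2 := N_pos hn hx
  have h3 := ipr_pos hv
  exact add_pos_of_pos_of_nonneg (by positivity)
    (Finset.sum_nonneg fun p _ => mul_nonneg (mu_nonneg _ _) (mul_self_nonneg _))

noncomputable def gg (x : V n) : V n →L[ℝ] V n →L[ℝ] ℝ :=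
  LinearMap.toContinuousLinearMap
    ((LinearMap.toContinuousLinearMap : (V n →ₗ[ℝ] ℝ) ≃ₗ[ℝ] (V n →L[ℝ] ℝ)).toLinearMap ∘ₗ
      (qq x - (al x).smulRight (al x)))

theorem gg_apply (x v w : V n) : gg x v w = qq x v w - al x v * al x w := by
  simp [gg]

noncomputable def TT (x : V n) : V n := fun m => Complex.I * x m

theorem al_T (x : V n) : al x (TT x) = ipr x x := by
  rw [al_apply, ipr_apply]
  exact Finset.sum_congr rfl fun m _ => by simp [TT]

theorem ipr_T (x : V n) : ipr (TT x) (TT x) = ipr x x := by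
  rw [ipr_apply, ipr_apply]
  exact Finset.sum_congr rfl fun m _ => by simp [TT]; ring

theorem ff_mem (x : V n) : 0 ≤ ff x ∧ ff x ≤ 1 := by
  unfold ff
  constructor
  · linarith [smoothTransition.le_one ((MM x - 1) / ka n)]
  · linarith [smoothTransition.nonneg ((MM x - 1) / ka n)]

theorem cc_nonneg (hn : 2 ≤ n) {x : V n} (hx : Function.Injective x) : 0 ≤ cc x := by
  have h1 := ka_pos hn
  have h2 := ka_le hn
  have h3 := ff_mem x
  refine mul_nonneg (N_pos hn hx).le ?_
  nlinarith [mul_nonneg h1.le h3.1]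

theorem T_time (hn : 2 ≤ n) {x : V n} (hx : Function.Injective x) :
    qq x (TT x) (TT x) - al x (TT x) * al x (TT x) < 0 := by
  have h1 := ka_pos hn
  have h2 := ka_le hn
  have h3 := ff_mem x
  have h4 := N_pos hn hx
  have e : ∑ p, mu x p * (ll x p (TT x) * ll x p (TT x)) =
      MM x * ff x ^ 2 * ((1 - ka n) ^ 2 * ipr x x ^ 2) := by
    rw [MM, Finset.sum_mul, Finset.sum_mul]
    refine Finset.sum_congr rfl fun p _ => ?_
    by_cases h : p.1 = p.2
    · simp [mu, h]
    · have hd : x p.1 - x p.2 ≠ 0 := sub_ne_zero.2 fun e => h (hx e)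
      have : th x p.1 p.2 (TT x) = 1 := by
        rw [th_apply, TT, TT, ← mul_sub, mul_div_assoc, div_self hd]; simp
      rw [ll_apply, al_T, this, cc]; ring
  have h5 : MM x * ff x ^ 2 ≤ 1 + ka n := by
    by_cases h : MM x ≤ 1 + ka n
    · have : ff x ^ 2 ≤ 1 := pow_le_one₀ h3.1 h3.2
      have h0 : 0 ≤ MM x := Finset.sum_nonneg fun p _ => mu_nonneg _ _
      nlinarith
    · have : ff x = 0 := by
        rw [ff, smoothTransition.one_of_one_le, sub_self]
        rw [le_div_iff₀ h1]; linarith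
      rw [this]; nlinarith
  rw [qq_apply, e, al_T, ipr_T]
  have h6 := mul_le_mul_of_nonneg_right h5
    (by positivity : 0 ≤ (1 - ka n) ^ 2 * ipr x x ^ 2)
  have h7 : (1 + ka n) * (1 - ka n) ^ 2 ≤ 1 - ka n := by
    nlinarith [mul_nonneg (sub_nonneg.2 h2) (sq_nonneg (ka n))]
  have h8 := mul_le_mul_of_nonneg_right h7 (sq_nonneg (ipr x x))
  nlinarith [mul_pos h1 (pow_pos h4 2)]

theorem wall (hn : 2 ≤ n) {x : V n} (hx : Function.Injective x) {v : V n}
    (h1 : gg x v v < 0) (h2 : gg x v (TT x) < 0) {a b : Fin n} (h3 : (x a).re = (x b).re)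
    (h4 : (x b).im < (x a).im) : (v a).re < (v b).re := by
  rw [gg_apply] at h1 h2
  have h5 := (lor2 (qq x) (qq_comm x) (qq_pos hn hx) (al x) (TT x) v
    (by rw [al_T]; exact N_pos hn hx) (T_time hn hx) h1).1 h2
  have hab : a ≠ b := by rintro rfl; exact lt_irrefl _ h4
  have h6 : mu x (a, b) * (ll x (a, b) v * ll x (a, b) v) +
      mu x (b, a) * (ll x (b, a) v * ll x (b, a) v) ≤ ∑ p, mu x p * (ll x p v * ll x p v) :=
    Finset.add_le_sum (f := fun p => mu x p * (ll x p v * ll x p v))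
      (fun p _ => mul_nonneg (mu_nonneg _ _) (mul_self_nonneg _)) (Finset.mem_univ _)
      (Finset.mem_univ _) (by simp [hab])
  have m1 : mu x (a, b) = 1 / 2 := by simp [mu, hab, h3]
  have m2 : mu x (b, a) = 1 / 2 := by simp [mu, hab.symm, h3]
  rw [m1, m2, ll_apply, ll_apply, th_comm x a b] at h6
  have h7 : 0 ≤ ka n * ipr x x / 2 * ipr v v := by
    have := ka_pos hn
    have := N_pos hn hx
    have : 0 ≤ ipr v v := by
      rw [ipr_apply]
      exact Finset.sum_nonneg fun j _ => by nlinarith [sq_nonneg (v j).re, sq_nonneg (v j).im]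
    positivity
  rw [qq_apply] at h1
  have h8 : 0 < th x a b v := by
    by_contra hc
    have := mul_nonneg (cc_nonneg hn hx) (neg_nonneg.2 (not_lt.1 hc))
    simp only at h6
    nlinarith
  have e : x a - x b = (((x a).im - (x b).im : ℝ) : ℂ) * Complex.I := by
    apply Complex.ext <;> simp [h3]
  rw [th_apply, e, div_mul_eq_div_div, Complex.div_I, Complex.neg_im, Complex.mul_I_im,
    Complex.div_ofReal_re, Complex.sub_re, neg_pos, div_neg_iff] at h8
  rcases h8 with h | h <;> linarith [h.1, h.2]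

theorem gg_perm (x : V n) (ρ : Equiv.Perm (Fin n)) (v w : V n) :
    gg (fun m => x (ρ m)) (fun m => v (ρ m)) (fun m => w (ρ m)) = gg x v w := by
  have a1 : ∀ v : V n, al (fun m => x (ρ m)) (fun m => v (ρ m)) = al x v := fun v =>
    Equiv.sum_comp ρ fun m => (x m).re * (v m).im - (x m).im * (v m).re
  have a2 : ∀ v w : V n, ipr (fun m => v (ρ m)) (fun m => w (ρ m)) = ipr v w := fun v w =>
    Equiv.sum_comp ρ fun m => (v m).re * (w m).re + (v m).im * (w m).im
  have a3 : ∀ p, mu (fun m => x (ρ m)) p = mu x (ρ.prodCongr ρ p) := by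
    intro p; simp [mu]
  have a4 : MM (fun m => x (ρ m)) = MM x := by
    simp only [MM, a3]; exact Equiv.sum_comp (ρ.prodCongr ρ) (mu x)
  have a5 : cc (fun m => x (ρ m)) = cc x := by simp only [cc, ff, a2, a4]
  have a6 : ∀ p (v : V n), ll (fun m => x (ρ m)) p (fun m => v (ρ m)) =
      ll x (ρ.prodCongr ρ p) v := by
    intro p v; rw [ll_apply, ll_apply, a1, a5]; rfl
  simp only [gg_apply, qq_apply, a1, a2, a3, a6]
  rw [Equiv.sum_comp (ρ.prodCongr ρ) fun p => mu x p * (ll x p v * ll x p w)]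

theorem gg_smooth : ContDiffOn ℝ ((⊤ : ℕ∞) : WithTop ℕ∞) (gg (n := n))
    {f : Fin n → ℂ | Function.Injective f ∧ ∀ m, ‖f m‖ < 1} := by
  have hre : ∀ m, ContDiff ℝ (⊤ : ℕ∞) fun x : V n => (x m).re := fun m =>
    Complex.reCLM.contDiff.comp (contDiff_apply ℝ ℂ m)
  have him : ∀ m, ContDiff ℝ (⊤ : ℕ∞) fun x : V n => (x m).im := fun m =>
    Complex.imCLM.contDiff.comp (contDiff_apply ℝ ℂ m)
  have a1 : ∀ v : V n, ContDiff ℝ (⊤ : ℕ∞) fun x : V n => al x v := fun v => by
    simp only [al_apply]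
    exact ContDiff.sum fun m _ => ((hre m).mul contDiff_const).sub ((him m).mul contDiff_const)
  have a2 : ContDiff ℝ (⊤ : ℕ∞) fun x : V n => ipr x x := by
    simp only [ipr_apply]
    exact ContDiff.sum fun m _ => ((hre m).mul (hre m)).add ((him m).mul (him m))
  have a3 : ∀ p, ContDiff ℝ (⊤ : ℕ∞) fun x : V n => mu x p := by
    intro p
    unfold mu
    split_ifs
    · exact contDiff_const
    · exact (contDiff_const.sub (smoothTransition.contDiff.comp
        ((contDiff_const.mul ((hre _).sub (hre _))).pow 2))).div_const _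
  have a4 : ContDiff ℝ (⊤ : ℕ∞) fun x : V n => MM x := ContDiff.sum fun p _ => a3 p
  have a5 : ContDiff ℝ (⊤ : ℕ∞) fun x : V n => cc x :=
    a2.mul (contDiff_const.sub (contDiff_const.mul (contDiff_const.sub
      (smoothTransition.contDiff.comp ((a4.sub contDiff_const).div_const _)))))
  have a6 : ∀ a b (v : V n), ContDiffOn ℝ (⊤ : ℕ∞) (fun x : V n => th x a b v)
      {f : Fin n → ℂ | Function.Injective f ∧ ∀ m, ‖f m‖ < 1} := by
    intro a b v
    by_cases h : a = b
    · simp only [th_apply, h, sub_self, zero_div]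
      exact contDiffOn_const
    · simp only [th_apply, div_eq_mul_inv]
      exact Complex.imCLM.contDiff.comp_contDiffOn (contDiffOn_const.mul
        (((contDiff_apply ℝ ℂ a).sub (contDiff_apply ℝ ℂ b)).contDiffOn.inv
          fun x hx => sub_ne_zero.2 fun e => h (hx.1 e)))
  have a7 : ∀ p (v : V n), ContDiffOn ℝ (⊤ : ℕ∞) (fun x : V n => ll x p v)
      {f : Fin n → ℂ | Function.Injective f ∧ ∀ m, ‖f m‖ < 1} := fun p v =>
    (a1 v).contDiffOn.sub (a5.contDiffOn.mul (a6 _ _ v))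
  rw [contDiffOn_clm_apply]
  intro v
  rw [contDiffOn_clm_apply]
  intro w
  simp only [gg_apply, qq_apply]
  exact ((((contDiff_const.mul a2).div_const _).mul contDiff_const).contDiffOn.add
    (ContDiffOn.sum fun p _ => (a3 p).contDiffOn.mul ((a7 p v).mul (a7 p w)))).sub
    ((a1 v).mul (a1 w)).contDiffOn

/-- velocity of a half turn -/
noncomputable def vel (i : ℕ) (ρ : Equiv.Perm (Fin n)) (s σ : ℝ) (m : Fin n) : ℂ :=
  if ((ρ m : ℕ)) = i then
    -(((1 / (n : ℝ) : ℝ) : ℂ) * Complex.exp ((Real.pi : ℂ) * (s : ℂ) * Complex.I) * (σ * Complex.I))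
  else if ((ρ m : ℕ)) = i + 1 then
    ((1 / (n : ℝ) : ℝ) : ℂ) * Complex.exp ((Real.pi : ℂ) * (s : ℂ) * Complex.I) * (σ * Complex.I)
  else 0

theorem vel_time {i : ℕ} (hi : i + 1 < n) (ρ : Equiv.Perm (Fin n)) (s : ℝ) {σ : ℝ} (hσ : 0 < σ) :
    gg (htf i ρ s) (vel i ρ s σ) (vel i ρ s σ) < 0 ∧
      gg (htf i ρ s) (vel i ρ s σ) (TT (htf i ρ s)) < 0 := by
  have hn : 2 ≤ n := by omega
  have hn' : (2 : ℝ) ≤ n := by exact_mod_cast hn
  obtain ⟨hx, hx'⟩ := htf_mem hi ρ s
  set a := ρ⁻¹ ⟨i, by omega⟩ with ha0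
  set b := ρ⁻¹ ⟨i + 1, hi⟩ with hb0
  have ha : (ρ a : ℕ) = i := by simp [ha0]
  have hb : (ρ b : ℕ) = i + 1 := by simp [hb0]
  have ea : ∀ w, (ρ w : ℕ) = i → w = a := fun w h => ρ.injective (Fin.ext (h.trans ha.symm))
  have eb : ∀ w, (ρ w : ℕ) = i + 1 → w = b := fun w h => ρ.injective (Fin.ext (h.trans hb.symm))
  have hab : a ≠ b := by intro e; rw [e] at ha; omega
  have v0 : ∀ c, c ≠ a ∧ c ≠ b → vel i ρ s σ c = 0 := by
    intro c hc
    rw [vel, if_neg fun h => hc.1 (ea c h), if_neg fun h => hc.2 (eb c h)]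
  have hd := htf_diff i ρ s ha hb
  have va : vel i ρ s σ a = -(((1 / (n : ℝ) : ℝ) : ℂ) *
      Complex.exp ((Real.pi : ℂ) * (s : ℂ) * Complex.I) * (σ * Complex.I)) := by
    rw [vel, if_pos ha]
  have vb : vel i ρ s σ b = ((1 / (n : ℝ) : ℝ) : ℂ) *
      Complex.exp ((Real.pi : ℂ) * (s : ℂ) * Complex.I) * (σ * Complex.I) := by
    rw [vel, if_neg (by omega), if_pos hb]
  have hE : Complex.exp ((Real.pi : ℂ) * (s : ℂ) * Complex.I) ≠ 0 := Complex.exp_ne_zero _
  have hcs : (Complex.exp ((Real.pi : ℂ) * (s : ℂ) * Complex.I)).re ^ 2 +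
      (Complex.exp ((Real.pi : ℂ) * (s : ℂ) * Complex.I)).im ^ 2 = 1 := by
    rw [exp_re, exp_im, Real.cos_sq_add_sin_sq]
  have m0 : ∀ u w, ρ u < ρ w → ¬ ((ρ u : ℕ) = i ∧ (ρ w : ℕ) = i + 1) →
      1 ≤ (n * ((htf i ρ s u).re - (htf i ρ s w).re)) ^ 2 := by
    intro u w h h'
    have := htf_sep i ρ s h h'
    nlinarith
  have m1 : ∀ p : Fin n × Fin n, p ≠ (a, b) ∧ p ≠ (b, a) → mu (htf i ρ s) p = 0 := by
    rintro ⟨u, w⟩ ⟨h1, h2⟩
    unfold mu
    split_ifs with h
    · rfl
    · rw [smoothTransition.one_of_one_le, sub_self, zero_div]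
      rcases lt_or_gt_of_ne (fun e => h (ρ.injective e)) with h3 | h3
      · exact m0 u w h3 fun h4 => h1 (by rw [ea u h4.1, eb w h4.2])
      · have := m0 w u h3 fun h4 => h2 (by rw [ea w h4.1, eb u h4.2])
        simp only
        nlinarith
  generalize Complex.exp ((Real.pi : ℂ) * (s : ℂ) * Complex.I) = E at *
  generalize htf i ρ s = x at *
  generalize vel i ρ s σ = v at *
  have hp : (a, b) ≠ (b, a) := by simp [hab]
  have e1 : al x v = 2 * σ * (1 / n) ^ 2 := by
    rw [al_apply, Fintype.sum_eq_add a b hab (fun c hc => by simp [v0 c hc]), va, vb,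
      eq_add_of_sub_eq hd]
    simp only [Complex.add_re, Complex.add_im, Complex.neg_re, Complex.neg_im, Complex.mul_re,
      Complex.mul_im, Complex.ofReal_re, Complex.ofReal_im, Complex.I_re, Complex.I_im]
    linear_combination (2 * σ * (1 / n) ^ 2) * hcs
  have e2 : ipr v v = 2 * σ ^ 2 * (1 / n) ^ 2 := by
    rw [ipr_apply, Fintype.sum_eq_add a b hab (fun c hc => by simp [v0 c hc]), va, vb]
    simp only [Complex.neg_re, Complex.neg_im, Complex.mul_re,
      Complex.mul_im, Complex.ofReal_re, Complex.ofReal_im, Complex.I_re, Complex.I_im]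
    linear_combination (2 * σ ^ 2 * (1 / n) ^ 2) * hcs
  have e3 : th x b a v = σ := by
    have hn0 : (n : ℂ) ≠ 0 := by exact_mod_cast (by omega : n ≠ 0)
    have : (v b - v a) / (x b - x a) = σ * Complex.I := by
      rw [hd, va, vb]; push_cast; field_simp; ring
    rw [th_apply, this]; simp
  have e4 : MM x = mu x (a, b) + mu x (b, a) := Fintype.sum_eq_add _ _ hp m1
  have e5 : MM x ≤ 1 := by linarith [mu_le x (a, b), mu_le x (b, a)]
  have k0 := ka_pos hn
  have e6 : cc x = ipr x x * ka n := by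
    rw [cc, ff, smoothTransition.zero_of_nonpos (div_nonpos_of_nonpos_of_nonneg (by linarith) k0.le)]
    ring
  have e7 : ∑ p, mu x p * (ll x p v * ll x p v) = MM x * (al x v - cc x * σ) ^ 2 := by
    rw [Fintype.sum_eq_add _ _ hp (fun p h => by rw [m1 p h, zero_mul]), e4, ll_apply, ll_apply]
    simp only [e3, ← th_comm x a b]
    ring
  have N0 := N_pos hn hx
  have N1 : ipr x x ≤ n := by
    rw [ipr_apply]
    refine (Finset.sum_le_sum (g := fun _ => (1 : ℝ)) fun m _ => ?_).trans (by simp)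
    have := Complex.normSq_eq_norm_sq (x m)
    rw [Complex.normSq_apply] at this
    rw [this]
    exact pow_le_one₀ (norm_nonneg _) (hx' m).le
  have N2 : ipr x x * ka n ≤ (1 / n) ^ 2 := by
    have : (1 / (n : ℝ)) ^ 2 = n * ka n := by unfold ka; field_simp
    rw [this]; gcongr
  have t1 : qq x v v - al x v * al x v < 0 := by
    rw [qq_apply, e7, e2, e6, e1]
    have h1 := mul_le_mul_of_nonneg_right e5
      (sq_nonneg (2 * σ * (1 / n) ^ 2 - ipr x x * ka n * σ))
    have h2 : 0 < ipr x x * ka n := mul_pos N0 k0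
    rw [mul_comm (ka n)]
    generalize ipr x x * ka n = c at *
    generalize (1 / (n : ℝ)) ^ 2 = r at *
    nlinarith [mul_pos (mul_pos h2 (pow_pos hσ 2)) (by linarith : 0 < 3 * r - c)]
  rw [gg_apply, gg_apply]
  refine ⟨t1, (lor2 (qq x) (qq_comm x) (qq_pos hn hx) (al x) (TT x) v
    (by rw [al_T]; exact N0) (T_time hn hx) t1).2 ?_⟩
  rw [e1]; positivity

theorem htf_deriv (i : ℕ) (ρ : Equiv.Perm (Fin n)) (k j t : ℝ) :
    HasDerivAt (fun t => htf i ρ (k * t - j)) (vel i ρ (k * t - j) (Real.pi * k)) t := by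
  rw [hasDerivAt_pi]
  intro m
  have h1 : HasDerivAt (fun t : ℝ => ((k * t - j : ℝ) : ℂ)) (k : ℂ) t := by
    simpa using (((hasDerivAt_id t).const_mul k).sub_const j).ofReal_comp
  have h2 := ((((h1.const_mul (Real.pi : ℂ)).mul_const Complex.I).cexp).const_mul
    ((1 / (n : ℝ) : ℝ) : ℂ))
  unfold htf vel
  split_ifs
  · convert h2.const_sub _ using 1
    push_cast; ring
  · convert h2.const_add _ using 1
    push_cast; ring
  · exact hasDerivAt_const _ _

end Pool.Agent.H63.Lz
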