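import Mathlib
import Pool.Agent.H89.SP5

set_option autoImplicit false

namespace Pool.Agent.H63.MT

open Finset H89.TG H89.SP
open scoped Classical

section
variable {V L L' : Type} {G : SimpleGraph V}

/-- at least `i` neighbours with a property -/
def Has (G : SimpleGraph V) (e : V) (p : V → Prop) (i : ℕ) : Prop :=
  ∃ F : Finset V, F.card = i ∧ ∀ c ∈ F, G.Adj e c ∧ p c

/-- same capped counts of neighbours -/
def Sim (G : SimpleGraph V) (τ : V → L') (K : ℕ) (e e' : V) : Prop :=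
  ∀ p : L' → Prop, ∀ i ≤ K, Has G e (fun c => p (τ c)) i ↔ Has G e' (fun c => p (τ c)) i

theorem Sim.mono {L'' : Type} {τ : V → L'} {K K' : ℕ} {e e' : V} (h : Sim G τ K e e')
    (φ : L' → L'') (hK : K' ≤ K) : Sim G (fun v => φ (τ v)) K' e e' :=
  fun p i hi => h (fun l => p (φ l)) i (hi.trans hK)

/-- labels of virtual nodes are determined by capped counts, with few exceptions -/
def Det (G : SimpleGraph V) (R : Finset V) (χ : V → L) (b K : ℕ) (L' : Type) : Prop :=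
  ∃ τ : V → L', ∃ B : Finset V, B.card ≤ b * R.card ∧
    ∀ e ∉ R, ∀ e' ∉ R, e ∉ B → e' ∉ B → Sim G τ K e e' → χ e = χ e'

/-- admissible hosts -/
def Ok (G : SimpleGraph V) (R : Finset V) (g : ℕ) : Prop :=
  Acyc G g ∧ (∀ y, ∃ F : Finset V, F.card ≤ R.card ∧ ∀ z, Nr G.Adj Set.univ y g z → z ∈ F) ∧
    ∀ e ∉ R, ∀ c, G.Adj e c → c ∈ R

theorem Ok.mono {R : Finset V} {g e : ℕ} (h : Ok G R g) (k : e ≤ g) : Ok G R e :=
  ⟨h.1.mono k, fun y => (h.2.1 y).imp fun _ q => ⟨q.1, fun z t => q.2 z (t.mono k)⟩, h.2.2⟩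

theorem wz_sub (χ : V → L) (c : V) (σ : List L) :
    {b | (∃ b z, Wz G χ b c σ z) ∧ ¬ ∃ z, Wz G χ b c σ z}.Subsingleton := by
  rintro b1 ⟨⟨b, z, h⟩, h1⟩ b2 ⟨-, h2⟩
  cases σ with
  | nil => exact absurd ⟨c, rfl⟩ h1
  | cons l σ =>
    obtain ⟨c', k1, -, k3, k4⟩ := h
    have e1 : c' = b1 := by_contra fun q => h1 ⟨z, c', k1, q, k3, k4⟩
    have e2 : c' = b2 := by_contra fun q => h2 ⟨z, c', k1, q, k3, k4⟩
    exact e1.symm.trans e2

theorem sub_fin {S : Set V} (h : S.Subsingleton) : ∃ F : Finset V, F.card ≤ 1 ∧ ∀ x ∈ S, x ∈ F := by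
  rcases h.eq_empty_or_singleton with e | ⟨x, e⟩
  · exact ⟨∅, by simp, by simp [e]⟩
  · exact ⟨{x}, by simp, by simp [e]⟩

theorem Det.rf [Finite L] {R : Finset V} {χ : V → L} {b K g : ℕ} (h : Det G R χ b K L')
    (ho : Ok G R g) (ρ N : ℕ) {I : Type} [Finite I] (Y : I → Set V)
    (hY : ∀ i, (Y i).Subsingleton) (d : ℕ) (hd : d ≤ g) :
    Det G R (fun v => (Rf G χ ρ N v, {i | ∃ y ∈ Y i, Nr G.Adj Set.univ y d v}))
      (b + Nat.card {σ : List L // σ.length ≤ ρ} + Nat.card I) (K + N + 1)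
      (L' × L × Set {σ : List L // σ.length ≤ ρ}) := by
  obtain ⟨τ, B, h1, h2⟩ := h
  have := Fintype.ofFinite {σ : List L // σ.length ≤ ρ}
  have := Fintype.ofFinite I
  choose F1 f1 f2 using fun (c : V) (σ : {σ : List L // σ.length ≤ ρ}) =>
    sub_fin (wz_sub (G := G) χ c σ.1)
  have : ∀ i, ∃ F : Finset V, F.card ≤ R.card ∧
      ∀ z, (∃ y ∈ Y i, Nr G.Adj Set.univ y d z) → z ∈ F := by
    intro i
    rcases (hY i).eq_empty_or_singleton with e | ⟨x, e⟩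
    · exact ⟨∅, by simp, by simp [e]⟩
    · obtain ⟨F, k1, k2⟩ := ho.2.1 x
      refine ⟨F, k1, ?_⟩
      rintro z ⟨y, hy, q⟩
      rw [e, Set.mem_singleton_iff] at hy
      exact k2 z (hy ▸ q.mono hd)
  choose F2 f3 f4 using this
  refine ⟨fun v => (τ v, χ v, {σ | ∃ b z, Wz G χ b v σ.1 z}),
    B ∪ (R.biUnion fun c => univ.biUnion (F1 c)) ∪ univ.biUnion F2, ?_, ?_⟩
  · have e1 := card_biUnion_le_card_mul R (fun c => univ.biUnion (F1 c)) _ fun c _ =>
      card_biUnion_le_card_mul univ (F1 c) 1 fun σ _ => f1 c σ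
    have e2 := card_biUnion_le_card_mul univ F2 _ fun i _ => f3 i
    have e3 := card_union_le B (R.biUnion fun c => univ.biUnion (F1 c))
    have e4 := card_union_le (B ∪ (R.biUnion fun c => univ.biUnion (F1 c))) (univ.biUnion F2)
    rw [card_univ] at e1 e2
    rw [Nat.card_eq_fintype_card, Nat.card_eq_fintype_card]
    nlinarith
  · intro e he e' he' n1 n2 hs
    simp only [mem_union, not_or] at n1 n2
    have key : ∀ e ∉ R, e ∉ (R.biUnion fun c => univ.biUnion (F1 c)) → ∀ c, G.Adj e c →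
        ∀ σ : {σ : List L // σ.length ≤ ρ},
          (∃ z, Wz G χ e c σ.1 z) ↔ ∃ b z, Wz G χ b c σ.1 z := by
      intro e he n c a σ
      refine ⟨fun k => ⟨e, k⟩, fun k => by_contra fun q => n ?_⟩
      exact mem_biUnion.2 ⟨c, ho.2.2 e he c a, mem_biUnion.2 ⟨σ, mem_univ _, f2 c σ e ⟨k, q⟩⟩⟩
    have mk : ∀ e, e ∉ univ.biUnion F2 → {i | ∃ y ∈ Y i, Nr G.Adj Set.univ y d e} = ∅ :=
      fun e n => Set.eq_empty_of_forall_notMem fun i k =>
        n (mem_biUnion.2 ⟨i, mem_univ _, f4 i e k⟩)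
    refine Prod.ext (Prod.ext (h2 e he e' he' n1.1.1 n2.1.1 (hs.mono Prod.fst (by omega))) ?_)
      ((mk e n1.2).trans (mk e' n2.2).symm)
    refine Set.ext fun t => ?_
    have := hs (fun l => l.2.1 = t.1 ∧ t.2.1 ∈ l.2.2) t.2.2 (by have := t.2.2.2; omega)
    refine Iff.trans (exists_congr fun F => and_congr_right fun _ => forall₂_congr fun c _ =>
      and_congr_right fun a => and_congr_right fun _ => key e he n1.1.2 c a _) (this.trans ?_)
    exact exists_congr fun F => and_congr_right fun _ => forall₂_congr fun c _ =>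
      and_congr_right fun a => and_congr_right fun _ => (key e' he' n2.1.2 c a _).symm

end

variable {J : Type} {V : J → Type} {n : ℕ} {G : ∀ j, SimpleGraph (V j)} {R : ∀ j, Finset (V j)}

/-- tree locality with determined labels -/
def TD (G : ∀ j, SimpleGraph (V j)) (R : ∀ j, Finset (V j)) {n : ℕ}
    (P : ∀ j, (Fin n → V j) → Prop) : Prop :=
  ∃ r : ℕ, ∀ N : ℕ, ∃ (g b K : ℕ) (L L' : Type) (_ : Finite L) (_ : Finite L'), ∀ j,
    Ok (G j) (R j) g → ∃ χ : V j → L, (∀ Λ : Finset (V j × V j), Λ.card ≤ N → BF (G j) χ r Λ →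
      ∀ x y, (∀ i, (x i, y i) ∈ Λ) → P j x → P j y) ∧ Det (G j) (R j) χ b K L'

theorem td_eq (a b : Fin n) : TD G R fun _ x => x a = x b :=
  ⟨0, fun _ => ⟨0, 0, 0, Unit, Unit, inferInstance, inferInstance, fun _ _ => ⟨fun _ => (),
    fun _ _ h _ _ k => (h.eq _ (k a) _ (k b)).1, fun _ => (), ∅, by simp,
    fun _ _ _ _ _ _ _ => rfl⟩⟩⟩

theorem td_adj (a b : Fin n) : TD G R fun j x => (G j).Adj (x a) (x b) :=
  ⟨0, fun _ => ⟨0, 0, 0, Unit, Unit, inferInstance, inferInstance, fun _ _ => ⟨fun _ => (),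
    fun _ _ h _ _ k => (h.adj _ (k a) _ (k b)).1, fun _ => (), ∅, by simp,
    fun _ _ _ _ _ _ _ => rfl⟩⟩⟩

theorem td_col (C : ∀ j, V j → Prop) (hC : ∀ j, ∀ e ∉ R j, ¬ C j e) (a : Fin n) :
    TD G R fun j x => C j (x a) :=
  ⟨0, fun _ => ⟨0, 0, 0, Prop, Unit, inferInstance, inferInstance, fun j _ => ⟨C j,
    fun _ _ h _ _ k => (h.lab _ (k a)).mp, fun _ => (), ∅, by simp,
    fun e he e' he' _ _ _ => propext (iff_of_false (hC j e he) (hC j e' he'))⟩⟩⟩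

theorem td_not {P : ∀ j, (Fin n → V j) → Prop} (h : TD G R P) : TD G R fun j x => ¬ P j x := by
  obtain ⟨r, h⟩ := h
  refine ⟨r, fun N => ?_⟩
  obtain ⟨g, b, K, L, L', hL, hL', h⟩ := h N
  refine ⟨g, b, K, L, L', hL, hL', fun j hj => (h j hj).imp fun χ h =>
    ⟨fun Λ h1 h2 x y k p q => p ?_, h.2⟩⟩
  exact h.1 _ (card_image_le.trans h1) h2.swap y x (fun i => mem_image.2 ⟨_, k i, rfl⟩) q

theorem td_and {P Q : ∀ j, (Fin n → V j) → Prop} (h : TD G R P) (k : TD G R Q) :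
    TD G R fun j x => P j x ∧ Q j x := by
  obtain ⟨r, h⟩ := h
  obtain ⟨r', k⟩ := k
  refine ⟨r + r', fun N => ?_⟩
  obtain ⟨g, b, K, L, L', _, _, h⟩ := h N
  obtain ⟨g', b', K', M, M', _, _, k⟩ := k N
  refine ⟨g + g', b + b', K + K', L × M, L' × M', inferInstance, inferInstance, fun j hj => ?_⟩
  obtain ⟨χ, h1, τ, B, h2, h3⟩ := h j (hj.mono (by omega))
  obtain ⟨χ', k1, τ', B', k2, k3⟩ := k j (hj.mono (by omega))
  refine ⟨fun v => (χ v, χ' v), fun Λ a b x y c p =>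
    ⟨h1 Λ a (b.mono (fun _ _ e => congrArg Prod.fst e) (by omega)) x y c p.1,
      k1 Λ a (b.mono (fun _ _ e => congrArg Prod.snd e) (by omega)) x y c p.2⟩,
    fun v => (τ v, τ' v), B ∪ B', (card_union_le _ _).trans (by rw [add_mul]; omega),
    fun e he e' he' n1 n2 s => ?_⟩
  rw [mem_union, not_or] at n1 n2
  exact Prod.ext (h3 e he e' he' n1.1 n2.1 (s.mono Prod.fst (by omega)))
    (k3 e he e' he' n1.2 n2.2 (s.mono Prod.snd (by omega)))

theorem TD.iff {P Q : ∀ j, (Fin n → V j) → Prop} (h : TD G R P) (e : ∀ j x, P j x ↔ Q j x) :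
    TD G R Q := by
  rwa [← show P = Q from funext fun j => funext fun x => propext (e j x)]

theorem td_ex {P : ∀ j, (Fin (n + 1) → V j) → Prop} (h : TD G R P) :
    TD G R fun j (x : Fin n → V j) => ∃ z, P j (Fin.cons z x) := by
  obtain ⟨r, h⟩ := h
  refine ⟨4 * r + 5, fun N => ?_⟩
  obtain ⟨g, b, K, L, L', hL, hL', h⟩ := h (N + 3 * r + 4)
  refine ⟨g + (N + 3 * r + 4),
    b + Nat.card {σ : List L // σ.length ≤ 3 * r + 3} + Nat.card (L × Fin N), K + (N + 1) + 1,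
    RL L (3 * r + 3) (N + 1) × Set (L × Fin N),
    L' × L × Set {σ : List L // σ.length ≤ 3 * r + 3}, inferInstance,
    inferInstance, fun j ho => ?_⟩
  obtain ⟨χ, h, hdet⟩ := h j (ho.mono (by omega))
  have hj := ho.1
  have cl : ∀ s : L, ∃ Y : Fin N → Set (V j), (∀ k, (Y k).Subsingleton) ∧
      ((∀ x : Fin N → V j, ∃ z, χ z = s ∧ ∀ k, ¬ Nr (G j).Adj Set.univ (x k) (r + 1) z) ∨
        ∀ z, χ z = s → ∃ k, ∃ y ∈ Y k, Nr (G j).Adj Set.univ y (r + 1) z) := by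
    intro s
    by_cases k : ∀ x : Fin N → V j, ∃ z, χ z = s ∧ ∀ k, ¬ Nr (G j).Adj Set.univ (x k) (r + 1) z
    · exact ⟨fun _ => ∅, by simp, Or.inl k⟩
    · push Not at k
      obtain ⟨x, hx⟩ := k
      exact ⟨fun k => {x k}, by simp, Or.inr fun z hz => (hx z hz).imp fun k q => ⟨_, rfl, q⟩⟩
  choose Y c1 c2 using cl
  refine ⟨fun v => (Rf (G j) χ _ _ v,
    {p | ∃ y ∈ Y p.1 p.2, Nr (G j).Adj Set.univ y (2 * r + 2) v}), fun Λ h1 h2 x y k => ?_,
    hdet.rf ho (3 * r + 3) (N + 1) (fun p : L × Fin N => Y p.1 p.2) (fun p => c1 _ _) _ (by omega)⟩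
  rintro ⟨z, p⟩
  have lab : ∀ q ∈ Λ, Rf (G j) χ (3 * r + 3) (N + 1) q.1 = Rf (G j) χ _ _ q.2 :=
    fun q hq => congrArg Prod.fst (h2.lab q hq)
  have h3 : BF (G j) χ (4 * r + 5) Λ :=
    h2.mono (fun _ _ e => congrArg (fun t => t.1.1) e) le_rfl
  suffices ∃ z' Λ', Λ ⊆ Λ' ∧ Λ'.card ≤ N + 3 * r + 4 ∧ BF (G j) χ r Λ' ∧ (z, z') ∈ Λ' by
    obtain ⟨z', Λ', s1, s2, s3, s4⟩ := this
    exact ⟨z', h Λ' s2 s3 _ _ (fun i => Fin.cases s4 (fun i => s1 (k i)) i) p⟩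
  by_cases near : ∃ q ∈ Λ, Nr (G j).Adj Set.univ q.1 (3 * r + 3) z
  · obtain ⟨q, hq, near⟩ := near
    have : z ∈ {v | ∃ q ∈ Λ, q.1 = v} ∨ ∃ a c, ∃ σ : List L, σ.length ≤ 3 * r + 2 ∧
        a ∈ {v | ∃ q ∈ Λ, q.1 = v} ∧ c ∉ {v | ∃ q ∈ Λ, q.1 = v} ∧ (G j).Adj a c ∧
        Wz (G j) χ a c σ z := by
      rcases nb χ (sy near) with e | ⟨c, σ, a1, a2, a3⟩
      · exact Or.inl ⟨q, hq, e⟩
      · exact (leave {v | ∃ q ∈ Λ, q.1 = v} σ ⟨q, hq, rfl⟩ a2 a3).imp_right fun ⟨a, c, σ', h1, h2⟩ =>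
          ⟨a, c, σ', by omega, h2⟩
    rcases this with ⟨q, hq, rfl⟩ | ⟨_, c, σ, a1, ⟨q, hq, rfl⟩, a3, a4, a5⟩
    · exact ⟨q.2, Λ, Subset.rfl, by omega, h3.mono (fun _ _ e => e) (by omega), hq⟩
    have a6 : ∀ q ∈ Λ, q.1 ≠ c := fun q hq e => a3 ⟨q, hq, e⟩
    obtain ⟨c', ⟨m1, m2, z', m3⟩, m4⟩ := transfer _ _ Λ
      (fun i hi => Rf.cnt (lab q hq) (χ c) σ (by omega) i (by omega))
      (fun p hp q hq => (h2.eq p hp q hq).1)
      (fun t ht e => ⟨(h2.adj q hq t ht).2 e.1, (h3.lab t ht).trans e.2.1,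
        rel (by omega) σ (by omega) _ _ _ _ e.1.symm ((h2.adj q hq t ht).2 e.1).symm
          (lab t ht).symm (lab q hq).symm e.2.2⟩) ⟨a4, rfl, z, a5⟩ a6
    obtain ⟨k1, k2⟩ := BF.add (ρ := r + 1 + σ.length) hj (by omega)
      (h3.mono (fun _ _ e => e) (by omega)) (by omega) (a := q.1) (a' := q.2) hq a6 m4 a4 m1 m2.symm
    have := card_insert_le (c, c') Λ
    obtain ⟨Λ', s1, s2, s3, s4, -⟩ := grow hj (by omega) σ _ q.1 c q.2 c' k1 (by omega)
      (mem_insert_self _ _) (by simp only [forall_mem_insert]; exact ⟨by simp, k2⟩) a5 m3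
    exact ⟨z', Λ', (subset_insert _ _).trans s1, by omega, s3.mono (fun _ _ e => e) (by omega), s4⟩
  · obtain ⟨z', k1, k2⟩ : ∃ z', χ z' = χ z ∧
        ∀ q ∈ Λ, ¬ Nr (G j).Adj Set.univ q.2 (r + 1) z' := by
      rcases c2 (χ z) with e | e
      · obtain ⟨f⟩ : Nonempty (Λ ↪ Fin N) :=
          Function.Embedding.nonempty_of_card_le (by simpa using h1)
        obtain ⟨z', k1, k2⟩ := e (Function.extend f (fun q => q.1.2) fun _ => z)
        refine ⟨z', k1, fun q hq => ?_⟩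
        have := k2 (f ⟨q, hq⟩)
        rwa [f.injective.extend_apply] at this
      · obtain ⟨i, y, y1, y2⟩ := e z rfl
        refine ⟨z, rfl, fun q hq e => near ⟨q, hq, ?_⟩⟩
        have : (χ z, i) ∈ {p : L × Fin N | ∃ y ∈ Y p.1 p.2,
            Nr (G j).Adj Set.univ y (2 * r + 2) q.2} := ⟨y, y1, (y2.tr (sy e)).mono (by omega)⟩
        obtain ⟨y', y3, y4⟩ := (Set.ext_iff.1 (congrArg Prod.snd (h2.lab q hq)) _).2 this
        rw [c1 _ _ y3 y1] at y4
        exact ((sy y4).tr y2).mono (by omega)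
    have := card_insert_le (z, z') Λ
    exact ⟨z', _, subset_insert _ _, by omega, BF.far (h3.mono (fun _ _ e => e) (by omega))
      (fun q hq e => near ⟨q, hq, e.mono (by omega)⟩) k2 k1.symm, mem_insert_self _ _⟩

theorem indep {α : Type} (d : ℕ) (P : α → Finset α) (hP : ∀ a, (P a).card ≤ d) :
    ∀ (k : ℕ) (T : Finset α), T.card ≤ k → (∀ a ∈ T, a ∉ P a) →
      ∃ S ⊆ T, T.card ≤ (2 * d + 1) * S.card ∧ ∀ a ∈ S, ∀ b ∈ S, b ∉ P a := by
  intro k
  induction k with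
  | zero => exact fun T h _ => ⟨∅, empty_subset _, by omega, by simp⟩
  | succ k ih =>
    intro T h1 h2
    rcases T.eq_empty_or_nonempty with rfl | ne
    · exact ⟨∅, empty_subset _, by simp, by simp⟩
    obtain ⟨a, ha, q⟩ : ∃ a ∈ T, (T.filter fun b => a ∈ P b).card ≤ d := by
      by_contra q
      push Not at q
      have e1 : ∑ a ∈ T, (T.filter fun b => a ∈ P b).card ≤ ∑ _a ∈ T, d := by
        simp only [card_filter]
        rw [sum_comm]
        refine sum_le_sum fun b _ => ?_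
        rw [← card_filter]
        exact (card_le_card fun x hx => (mem_filter.1 hx).2).trans (hP b)
      exact absurd (sum_lt_sum_of_nonempty ne q) (not_lt.2 e1)
    let Q := insert a (P a ∪ T.filter fun b => a ∈ P b)
    have q1 : Q.card ≤ 2 * d + 1 := (card_insert_le _ _).trans (by
      have := card_union_le (P a) (T.filter fun b => a ∈ P b); have := hP a; omega)
    have q2 := le_card_sdiff Q T
    have q3 : (T \ Q).card < T.card := card_lt_card
      ⟨sdiff_subset, fun t => (mem_sdiff.1 (t ha)).2 (mem_insert_self _ _)⟩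
    obtain ⟨S, s1, s2, s3⟩ := ih (T \ Q) (by omega) fun b hb => h2 b (mem_sdiff.1 hb).1
    have na : a ∉ S := fun t => (mem_sdiff.1 (s1 t)).2 (mem_insert_self _ _)
    refine ⟨insert a S, insert_subset ha (s1.trans sdiff_subset), ?_, ?_⟩
    · rw [card_insert_of_notMem na, mul_add]; omega
    · intro x hx y hy
      rcases mem_insert.1 hx with rfl | hx' <;> rcases mem_insert.1 hy with rfl | hy'
      · exact h2 _ ha
      · exact fun t => (mem_sdiff.1 (s1 hy')).2 (mem_insert_of_mem (mem_union_left _ t))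
      · exact fun t => (mem_sdiff.1 (s1 hx')).2 (mem_insert_of_mem (mem_union_right _
          (mem_filter.2 ⟨(mem_sdiff.1 (s1 hx')).1, t⟩)))
      · exact s3 x hx' y hy'

end Pool.Agent.H63.MT
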