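import Mathlib
import Pool.Agent.H63.MT1

set_option autoImplicit false

namespace Pool.Agent.H63.MT

open Finset H89.TG H89.SP
open scoped Classical

theorem failE {n M d g Δ ρ : ℕ} (T : Finset (Fin M)) (π : Fin n → Fin n)
    (hπ : Function.Injective π) (hn : 0 < n) (A : Finset (Fin M → Fin (d + 2) → Fin n))
    (hA : ∀ ω ∈ A, Good g Δ ω Set.univ ∧ ∀ i ∈ T,
      Nr (inc ω (↑T)ᶜ).Adj Set.univ (.inl (π (ω i 0))) ρ (.inl (π (ω i 1)))) :
    A.card * (n ^ (d + 2)) ^ T.card ≤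
      ((Δ + (d + 2) + 1) ^ ρ * n ^ (d + 1)) ^ T.card * (n ^ (d + 2)) ^ M := by
  let S : SimpleGraph (Fin n ⊕ Fin M) → Finset (Fin (d + 2) → Fin n) := fun G =>
    univ.filter fun x => Dg G (Δ + (d + 2)) ∧
      Nr G.Adj Set.univ (.inl (π (x 0))) ρ (.inl (π (x 1)))
  have := multi' T (fun ω => S (inc ω (↑T)ᶜ)) ((Δ + (d + 2) + 1) ^ ρ * n ^ (d + 1))
    (fun ω => ?_) (fun ω j hj x => congrArg S (inc_congr fun i hi =>
      Function.update_of_ne (fun e : i = j => hi (e ▸ hj)) _ _)) A fun ω hω i hi =>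
    mem_filter.2 ⟨mem_univ _, inc_dg (hA ω hω).1.2.2 (Set.subset_univ _), (hA ω hω).2 i hi⟩
  · simpa using this
  generalize inc ω (↑T)ᶜ = G
  by_cases h : Dg G (Δ + (d + 2))
  swap
  · rw [show S G = ∅ from filter_eq_empty_iff.2 fun _ _ k => h k.1]; simp
  have := uni (1 : Fin (d + 2)) (fun x : Fin (d + 2) → Fin n => univ.filter fun u =>
      Nr G.Adj Set.univ (.inl (π (x 0))) ρ (.inl (π u))) ((Δ + (d + 2) + 1) ^ ρ)
    (fun x => le_trans (card_le_card_of_injOn π (fun u hu => mem_filter.2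
      ⟨mem_univ _, (mem_filter.1 hu).2⟩) hπ.injOn) (inl_ball h ρ (π (x 0))))
    (fun x y => by rw [Function.update_of_ne (by simp)]) (S G)
    fun x hx => mem_filter.2 ⟨mem_univ _, (mem_filter.1 hx).2.2⟩
  simp only [Fintype.card_fin] at this
  refine Nat.le_of_mul_le_mul_right (c := n) ?_ hn
  rw [mul_assoc, ← pow_succ]
  exact this

theorem HG (c t d : ℕ) (hc : 0 < c) : ∃ Δ : ℕ, ∀ ρ g N0 : ℕ, ∃ n M : ℕ,
    ∃ ω : Fin M → Fin (d + 2) → Fin n, N0 ≤ n ∧ Good g Δ ω Set.univ ∧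
      (∀ A : Fin (d + 2) → Finset (Fin n), (∀ j, n ≤ c * (A j).card) → ∃ T : Finset (Fin M),
        t * n ≤ T.card ∧ ∀ i ∈ T, ∀ j, ω i j ∈ A j) ∧
      ∀ (T : Finset (Fin M)) (π : Fin n → Fin n), T.card = 2 * n → Function.Injective π →
        ¬ ∀ i ∈ T, Nr (inc ω (↑T)ᶜ).Adj Set.univ (.inl (π (ω i 0))) ρ (.inl (π (ω i 1))) := by
  obtain ⟨q, hq⟩ : ∃ q, q = c ^ (d + 2) := ⟨_, rfl⟩
  have q0 : 0 < q := by rw [hq]; positivity
  have q1 : (1 : ℝ) ≤ q := by exact_mod_cast q0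
  obtain ⟨θ, hθ⟩ : ∃ θ : ℝ, θ = 1 - 1 / (4 * q) := ⟨_, rfl⟩
  have t0 : 1 / (4 * q : ℝ) ≤ 1 / 4 := by gcongr; linarith
  have t1 : 0 < 1 / (4 * q : ℝ) := by positivity
  obtain ⟨K, hK⟩ := exists_pow_lt_of_lt_one
    (show (0 : ℝ) < 1 / 2 / (2 ^ (d + 2) * 2 ^ t) by positivity) (show θ < 1 by linarith)
  obtain ⟨Δ, hΔ⟩ : ∃ Δ, Δ = 8 * q * K * (d + 2) * (d + 2) + 1 := ⟨_, rfl⟩
  refine ⟨Δ, fun ρ g N0 => ?_⟩
  obtain ⟨β, hβ⟩ : ∃ β, β = (Δ + (d + 2) + 1) ^ ρ := ⟨_, rfl⟩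
  obtain ⟨n, n1, n2, n3⟩ : ∃ n, N0 ≤ n ∧
      8 * q * ((d + 2) * (d + 2) * (Δ + (d + 2) + 1) ^ (g + 2)) < n ∧ 4 * 4 ^ K * β ^ 2 ≤ n :=
    ⟨N0 + 8 * q * ((d + 2) * (d + 2) * (Δ + (d + 2) + 1) ^ (g + 2)) + 4 * 4 ^ K * β ^ 2 + 1,
      by omega, by omega, by omega⟩
  have n0 : 0 < n := by omega
  refine ⟨n, K * n, ?_⟩
  by_contra h
  push Not at h
  obtain ⟨x, hx⟩ : ∃ x : ℝ, x = (n : ℝ) ^ (d + 2) := ⟨_, rfl⟩
  have x0 : 0 < x := by rw [hx]; positivity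
  let Gd := univ.filter fun ω : Fin (K * n) → Fin (d + 2) → Fin n => Good g Δ ω Set.univ
  have e1 : (θ * x) ^ (K * n) ≤ Gd.card := by
    refine le_trans (pow_le_pow_left₀ (by rw [hθ]; nlinarith) ?_ _)
      (show ((n ^ (d + 2) - n ^ (d + 2) / (4 * q) : ℕ) : ℝ) ^ (K * n) ≤ _ by
        exact_mod_cast good_count rfl hΔ q0 n2)
    rw [Nat.cast_sub (Nat.div_le_self _ _)]
    have := Nat.cast_div_le (α := ℝ) (m := n ^ (d + 2)) (n := 4 * q)
    push_cast at this ⊢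
    rw [← hx] at this ⊢
    rw [hθ, sub_mul, one_mul, one_div_mul_eq_div]
    linarith
  let FC : (Fin (d + 2) → Finset (Fin n)) → Finset (Fin (K * n) → Fin (d + 2) → Fin n) :=
    fun p => univ.filter fun ω => (∀ j, n ≤ c * (p j).card) ∧ ∀ T : Finset (Fin (K * n)),
      (∀ i ∈ T, ∀ j, ω i j ∈ p j) → T.card < t * n
  let FD : Finset (Fin (K * n)) × (Fin n → Fin n) → Finset (Fin (K * n) → Fin (d + 2) → Fin n) :=
    fun p => univ.filter fun ω => p.1.card = 2 * n ∧ Function.Injective p.2 ∧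
      Good g Δ ω Set.univ ∧
      ∀ i ∈ p.1, Nr (inc ω (↑p.1)ᶜ).Adj Set.univ (.inl (p.2 (ω i 0))) ρ (.inl (p.2 (ω i 1)))
  have e2 : Gd ⊆ univ.biUnion FC ∪ univ.biUnion FD := by
    intro ω hω
    have g1 := (mem_filter.1 hω).2
    by_cases k : ∀ A : Fin (d + 2) → Finset (Fin n), (∀ j, n ≤ c * (A j).card) →
        ∃ T : Finset (Fin (K * n)), t * n ≤ T.card ∧ ∀ i ∈ T, ∀ j, ω i j ∈ A j
    · obtain ⟨T, π, k1, k2, k3⟩ := h ω n1 g1 k
      exact mem_union_right _ (mem_biUnion.2 ⟨(T, π), mem_univ _,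
        mem_filter.2 ⟨mem_univ _, k1, k2, g1, k3⟩⟩)
    · simp only [not_forall, not_exists, not_and] at k
      obtain ⟨A, k1, k3⟩ := k
      exact mem_union_left _ (mem_biUnion.2 ⟨A, mem_univ _, mem_filter.2 ⟨mem_univ _, k1,
        fun T hT => lt_of_not_ge fun e => by
          obtain ⟨i, hi, j, q⟩ := k3 T e
          exact q (hT i hi j)⟩⟩)
  have θ0 : 1 / 2 ≤ θ := by linarith
  have e3 : ∀ p, ((FC p).card : ℝ) * (1 / 2) ^ (t * n) ≤ (θ * θ * x) ^ (K * n) := by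
    intro p
    rcases (FC p).eq_empty_or_nonempty with e | ⟨ω, hω⟩
    · rw [e]; simp only [card_empty, Nat.cast_zero, zero_mul]; positivity
    obtain ⟨-, k1, -⟩ := mem_filter.1 hω
    let S := Fintype.piFinset p
    have s1 : x ≤ q * S.card := by
      rw [hx, hq, Fintype.card_piFinset]
      have := prod_le_prod' (s := univ) fun j _ => k1 j
      rw [prod_mul_distrib, prod_const, prod_const, card_univ, Fintype.card_fin] at this
      exact_mod_cast this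
    have s2 : (S.card : ℝ) ≤ x := by
      have := card_le_univ S
      rw [hx]
      simp only [Fintype.card_fun, Fintype.card_fin] at this
      exact_mod_cast this
    refine (failC S (t * n) (FC p) fun ω hω T hT => (mem_filter.1 hω).2.2 T fun i hi =>
      Fintype.mem_piFinset.1 (hT i hi)).trans ?_
    simp only [Fintype.card_fun, Fintype.card_fin]
    push_cast
    rw [← hx]
    refine pow_le_pow_left₀ (by linarith) ?_ _
    have : 2 * (1 / (4 * q)) * x ≤ S.card / 2 := by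
      rw [show 2 * (1 / (4 * q : ℝ)) * x = x / q / 2 by field_simp; ring]
      gcongr
      rw [div_le_iff₀ (by linarith)]; linarith
    rw [hθ]; nlinarith [mul_pos (mul_pos t1 t1) x0]
  have nR : (0 : ℝ) < n := by exact_mod_cast n0
  have e4 : ∀ p, ((FD p).card : ℝ) ≤ (β / n) ^ (2 * n) * x ^ (K * n) := by
    intro p
    rcases (FD p).eq_empty_or_nonempty with e | ⟨ω, hω⟩
    · rw [e]; simp only [card_empty, Nat.cast_zero]; positivity
    obtain ⟨-, k1, k2, -⟩ := mem_filter.1 hω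
    have := failE p.1 p.2 k2 n0 (FD p) fun ω hω => (mem_filter.1 hω).2.2.2
    rw [k1, ← hβ] at this
    have e : ((FD p).card : ℝ) * x ^ (2 * n) ≤ (β * n ^ (d + 1)) ^ (2 * n) * x ^ (K * n) := by
      rw [hx]
      exact_mod_cast this
    have e' : (β : ℝ) * n ^ (d + 1) = β / n * x := by rw [hx]; field_simp; ring
    rw [e', mul_pow] at e
    refine le_of_mul_le_mul_right (a := x ^ (2 * n)) (e.trans (le_of_eq (by ring))) (by positivity)
  have y0 : 0 < (θ * x) ^ (K * n) := by positivity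
  have e5 : ((univ.biUnion FC).card : ℝ) ≤ (θ * x) ^ (K * n) / 2 := by
    have a1 : ((univ.biUnion FC).card : ℝ) ≤ ∑ p, ((FC p).card : ℝ) := by
      exact_mod_cast card_biUnion_le
    have a2 := sum_le_card_nsmul univ (fun p => ((FC p).card : ℝ))
      ((θ * θ * x) ^ (K * n) / (1 / 2) ^ (t * n)) fun p _ => by
        rw [le_div_iff₀ (by positivity)]; exact e3 p
    refine a1.trans (a2.trans ?_)
    simp only [card_univ, Fintype.card_fun, Fintype.card_finset, Fintype.card_fin, nsmul_eq_mul]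
    push_cast
    have a3 : ((2 : ℝ) ^ n) ^ (d + 2) * ((θ * θ * x) ^ (K * n) / (1 / 2) ^ (t * n)) =
        (2 ^ (d + 2) * 2 ^ t * θ ^ K) ^ n * (θ * x) ^ (K * n) := by
      rw [mul_assoc θ, mul_pow θ, pow_mul θ, one_div, inv_pow, div_inv_eq_mul, pow_mul 2 t,
        ← pow_mul 2 n, mul_comm n (d + 2), pow_mul 2 (d + 2), mul_pow (_ * _), mul_pow (2 ^ (d + 2))]
      ring
    have a5 : 2 ^ (d + 2) * 2 ^ t * θ ^ K ≤ (1 / 2 : ℝ) := by
      rw [lt_div_iff₀ (by positivity)] at hK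
      linarith
    have a4 : (2 ^ (d + 2) * 2 ^ t * θ ^ K) ^ n ≤ (1 / 2 : ℝ) :=
      (pow_le_of_le_one (by positivity) (by linarith) n0.ne').trans a5
    rw [a3]; nlinarith
  have e6 : ((univ.biUnion FD).card : ℝ) ≤ (θ * x) ^ (K * n) / 4 := by
    have a1 : ((univ.biUnion FD).card : ℝ) ≤ ∑ p, ((FD p).card : ℝ) := by
      exact_mod_cast card_biUnion_le
    have a2 := sum_le_card_nsmul univ (fun p => ((FD p).card : ℝ))
      ((β / n) ^ (2 * n) * x ^ (K * n)) fun p _ => e4 p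
    refine a1.trans (a2.trans ?_)
    simp only [card_univ, Fintype.card_prod, Fintype.card_finset, Fintype.card_fin, nsmul_eq_mul,
      Fintype.card_fun]
    push_cast
    have a3 : (2 : ℝ) ^ (K * n) * n ^ n * ((β / n) ^ (2 * n) * x ^ (K * n)) =
        (4 ^ K * n * (β / n) ^ 2) ^ n * (1 / 2 * x) ^ (K * n) := by
      rw [mul_pow (_ * _), mul_pow (4 ^ K), mul_pow (1 / 2), ← pow_mul, ← pow_mul,
        show (4 : ℝ) = 2 / (1 / 2) by norm_num, div_pow 2]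
      field_simp
    have a4 : (4 : ℝ) ^ K * n * (β / n) ^ 2 ≤ 1 / 4 := by
      have b1 : (4 : ℝ) * 4 ^ K * β ^ 2 ≤ n := by exact_mod_cast n3
      rw [show (4 : ℝ) ^ K * n * (β / n) ^ 2 = 4 ^ K * β ^ 2 / n by field_simp, div_le_iff₀ nR]
      linarith
    have a5 : ((4 : ℝ) ^ K * n * (β / n) ^ 2) ^ n ≤ 1 / 4 :=
      (pow_le_of_le_one (by positivity) (by linarith) n0.ne').trans a4
    have a6 : (1 / 2 * x) ^ (K * n) ≤ (θ * x) ^ (K * n) := by gcongr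
    rw [a3]
    nlinarith [mul_le_mul a5 a6 (by positivity) (by norm_num)]
  have e7 : (Gd.card : ℝ) ≤ (univ.biUnion FC).card + (univ.biUnion FD).card := by
    exact_mod_cast (card_le_card e2).trans (card_union_le _ _)
  linarith

/-- the sequence of hypergraphs -/
structure Seq where
  n : ℕ → ℕ
  M : ℕ → ℕ
  Δ : ℕ → ℕ
  s : ℕ → ℕ
  ω : ∀ m, Fin (M m) → Fin (2 * m + 1 + 2) → Fin (n m)
  good : ∀ m, Good (s m) (Δ m) (ω m) Set.univ
  test : ∀ m (A : Fin (2 * m + 1 + 2) → Finset (Fin (n m))),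
    (∀ j, n m ≤ 32 * (m + 1) * (A j).card) →
    ∃ T : Finset (Fin (M m)), (5 * m + 9) * n m ≤ T.card ∧ ∀ i ∈ T, ∀ j, ω m i j ∈ A j
  ent : ∀ m (T : Finset (Fin (M m))) (π : Fin (n m) → Fin (n m)), T.card = 2 * n m →
    Function.Injective π → ¬ ∀ i ∈ T,
      Nr (inc (ω m) (↑T)ᶜ).Adj Set.univ (.inl (π (ω m i 0))) m (.inl (π (ω m i 1)))
  ball : ∀ m, (Δ m + (2 * m + 1 + 2) + 1) ^ m ≤ n m
  big : ∀ m, 32 * m * (2 * (Δ m + (2 * m + 1 + 2) + 1) ^ 4 * (Δ m + (2 * m + 1 + 2) + 1) ^ 4 +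
    2 * (Δ m + (2 * m + 1 + 2) + 1) ^ 4 + 1) * (Δ m + 1) ≤ n m
  s1 : ∀ m, m + 10 ≤ s m
  s2 : ∀ m, s m ≤ n m
  s3 : ∀ a b, a < b → n a * (n a * a + 1) ≤ s b ∧ 4 * n a < s b

theorem seq : Nonempty Seq := by
  choose Δ h using fun m => HG (32 * (m + 1)) (5 * m + 9) (2 * m + 1) (by omega)
  choose n M ω h using fun m s => h m m s (s + (Δ m + (2 * m + 1 + 2) + 1) ^ m +
    32 * m * (2 * (Δ m + (2 * m + 1 + 2) + 1) ^ 4 * (Δ m + (2 * m + 1 + 2) + 1) ^ 4 +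
    2 * (Δ m + (2 * m + 1 + 2) + 1) ^ 4 + 1) * (Δ m + 1))
  let s : ℕ → ℕ := fun m => Nat.rec 10
    (fun m s => s + 4 * n m s + n m s * (n m s * m + 1) + 1) m
  have e : ∀ m, s (m + 1) = s m + 4 * n m (s m) + n m (s m) * (n m (s m) * m + 1) + 1 :=
    fun _ => rfl
  have e2 : StrictMono s := strictMono_nat_of_lt_succ fun m => by have := e m; omega
  refine ⟨⟨fun m => n m (s m), fun m => M m (s m), Δ, s, fun m => ω m (s m),
    fun m => (h m _).2.1, fun m => (h m _).2.2.1, fun m => (h m _).2.2.2,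
    fun m => le_trans (by omega) (h m _).1, fun m => le_trans (by omega) (h m _).1, fun m => ?_,
    fun m => le_trans (by omega) (h m _).1, fun a b hab => ⟨?_, ?_⟩⟩⟩
  · induction m with
    | zero => exact le_rfl
    | succ m ih => have := e m; omega
  · have := e a; have := e2.monotone (show a + 1 ≤ b from hab); omega
  · have := e a; have := e2.monotone (show a + 1 ≤ b from hab); omega

end Pool.Agent.H63.MT
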