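import Mathlib
import Pool.Agent.H63.MT2

set_option autoImplicit false

namespace Pool.Agent.H63.MT

open Finset H89.TG H89.SP
open scoped Classical

theorem nr_imp {V : Type} {adj adj' : V → V → Prop} {S S' : Set V} {x y : V} {d : ℕ}
    (h : Nr adj S x d y) (k : ∀ a b, adj a b → a ∈ S → b ∈ S → adj' a b) (hS : S ⊆ S') :
    Nr adj' S' x d y := by
  induction h with
  | refl => exact Nr.refl _
  | step _ a b c ih => exact ih.step (k _ _ a b c) (hS b) (hS c)

/-- patterns of classes -/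
def pat (m : ℕ) (β : Bool) (j : Fin (2 * m + 1 + 2)) : ℕ :=
  if j.1 < 2 then 0 else if j.1 < m + 2 then 2 else if j.1 < 2 * m + 2 then 1 else
    if β then 2 else 1

theorem pat_lt (m β j) : pat m β j < 3 := by unfold pat; split_ifs <;> omega

theorem pat_zero (m β j) : pat m β j = 0 ↔ j.1 < 2 := by
  unfold pat; split_ifs <;> simp <;> omega

theorem pat_par (m : ℕ) : ∃ β β', (univ.filter fun j => pat m β j = 2).card % 2 = 1 ∧
    (univ.filter fun j => pat m β' j = 2).card % 2 ≠ 1 := by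
  have : (univ.filter fun j => pat m true j = 2) =
      insert (Fin.last _) (univ.filter fun j => pat m false j = 2) := by
    ext j
    have := j.2
    simp only [mem_filter, mem_univ, true_and, mem_insert, Fin.ext_iff, Fin.val_last, pat]
    split_ifs <;> simp_all <;> omega
  have e : (univ.filter fun j => pat m true j = 2).card =
      (univ.filter fun j => pat m false j = 2).card + 1 := by
    rw [this, card_insert_of_notMem]
    simp only [mem_filter, mem_univ, true_and, Fin.val_last, pat]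
    split_ifs <;> simp_all <;> omega
  by_cases h : (univ.filter fun j => pat m true j = 2).card % 2 = 1
  · exact ⟨true, false, h, by omega⟩
  · exact ⟨false, true, by omega, h⟩

theorem pat_blk (m : ℕ) (β : Bool) (q : ℕ → Prop) (h : q 1 ∨ q 2) :
    m ≤ (univ.filter fun j => q (pat m β j)).card := by
  rcases h with h | h
  · refine le_trans (by simp) (card_le_card_of_injOn (s := (univ : Finset (Fin m)))
      (fun i => (⟨i.1 + m + 2, by omega⟩ : Fin (2 * m + 1 + 2))) (fun i _ => ?_)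
      fun a _ b _ e => by simpa [Fin.ext_iff] using e)
    have := i.2
    simp only [coe_filter, mem_univ, true_and, Set.mem_ofPred_eq, pat]
    rw [if_neg (by omega), if_neg (by omega), if_pos (by omega)]
    exact h
  · refine le_trans (by simp) (card_le_card_of_injOn (s := (univ : Finset (Fin m)))
      (fun i => (⟨i.1 + 2, by omega⟩ : Fin (2 * m + 1 + 2))) (fun i _ => ?_)
      fun a _ b _ e => by simpa [Fin.ext_iff] using e)
    have := i.2
    simp only [coe_filter, mem_univ, true_and, Set.mem_ofPred_eq, pat]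
    rw [if_neg (by omega), if_pos (by omega)]
    exact h

theorem pat_cnt (m : ℕ) (β β' : Bool) (q : ℕ → Prop) (i : ℕ) (hi : i ≤ m) :
    i ≤ (univ.filter fun j => q (pat m β j)).card ↔
      i ≤ (univ.filter fun j => q (pat m β' j)).card := by
  by_cases h : q 1 ∨ q 2
  · exact iff_of_true (hi.trans (pat_blk m β q h)) (hi.trans (pat_blk m β' q h))
  · rw [filter_congr (q := fun j => q (pat m β' j))]
    intro j _
    push Not at h
    unfold pat
    split_ifs <;> simp [h.1, h.2]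

theorem cls_card (n i : ℕ) (hi : i < 3) (hn : 8 ≤ n) :
    n ≤ 4 * (univ.filter fun v : Fin n => v.1 % 3 = i).card := by
  have := card_le_card_of_injOn (s := (univ : Finset (Fin (n / 3))))
    (t := univ.filter fun v : Fin n => v.1 % 3 = i)
    (fun w => (⟨3 * w.1 + i, by have := w.2; omega⟩ : Fin n)) (fun w _ => by
      simp only [coe_filter, mem_univ, true_and, Set.mem_ofPred_eq]; omega)
    fun a _ b _ e => by simp only [Fin.ext_iff] at e ⊢; omega
  rw [card_univ, Fintype.card_fin] at this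
  omega

theorem pop {α L : Type} [Finite L] [Nonempty L] (S : Finset α) (τ : α → L) :
    ∃ l, S.card ≤ Nat.card L * (S.filter fun v => τ v = l).card := by
  have := Fintype.ofFinite L
  by_contra q
  push Not at q
  have e1 := card_eq_sum_card_fiberwise (s := S) (t := univ) (f := τ) fun _ _ => mem_univ _
  have e2 := sum_lt_sum_of_nonempty univ_nonempty fun l _ => q l
  rw [← mul_sum, ← e1, Nat.card_eq_fintype_card] at e2
  simp only [card_univ, sum_const, smul_eq_mul] at e2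
  omega

namespace Seq
variable (S : Seq)

/-- used hyperedges -/
def I (m : ℕ) : Set (Fin (S.M m)) := {e | ∀ j, (S.ω m e j).1 % 3 = 0 ↔ j.1 < 2}

/-- host graphs -/
def host (m : ℕ) : SimpleGraph (Fin (S.n m) ⊕ Fin (S.M m)) := inc (S.ω m) (S.I m)

/-- real vertices -/
noncomputable def R (m : ℕ) : Finset (Fin (S.n m) ⊕ Fin (S.M m)) := univ.image .inl

/-- source graphs -/
def GA (m : ℕ) (u v : Fin (S.n m)) : Prop :=
  (u.1 % 3 = 0 ↔ ¬ v.1 % 3 = 0) ∧ ∃ z, (S.host m).Adj (.inl u) z ∧ (S.host m).Adj z (.inl v)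

/-- odd number of marked common neighbours -/
def Od (m : ℕ) (u v : Fin (S.n m)) : Prop :=
  {z | (S.GA m u z ∧ S.GA m z v) ∧ z.1 % 3 = 2}.ncard % 2 = 1

/-- target graphs -/
def HA (m : ℕ) (u v : {v : Fin (S.n m) // v.1 % 3 = 0}) : Prop :=
  u ≠ v ∧ S.Od m u.1 v.1 ∧ S.Od m v.1 u.1

variable {S}

theorem R_card (m : ℕ) : (S.R m).card = S.n m := by
  rw [R, card_image_of_injective _ Sum.inl_injective]; simp

theorem acyc (m : ℕ) : Acyc (S.host m) (S.s m) := by
  have k : ∀ a b, (S.host m).Adj a b → (inc (S.ω m) Set.univ).Adj a b :=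
    fun a b ⟨i, _, q⟩ => ⟨i, trivial, q⟩
  exact fun z a b h1 h2 h3 => (S.good m).1 z a b (k _ _ h1) (k _ _ h2)
    (nr_imp h3 (fun a b q _ _ => k a b q) subset_rfl)

theorem dgh (m : ℕ) : Dg (S.host m) (S.Δ m + (2 * m + 1 + 2)) :=
  inc_dg (S.good m).2.2 (Set.subset_univ _)

theorem adj_r {m : ℕ} {e : Fin (S.M m)} {c} :
    (S.host m).Adj (.inr e) c ↔ e ∈ S.I m ∧ ∃ j, c = .inl (S.ω m e j) := by
  constructor
  · rintro ⟨i, hi, j, ⟨q, -⟩ | ⟨rfl, q⟩⟩ <;> cases q
    exact ⟨hi, j, rfl⟩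
  · rintro ⟨hi, j, rfl⟩
    exact ⟨e, hi, j, Or.inr ⟨rfl, rfl⟩⟩

theorem adj_l {m : ℕ} {v : Fin (S.n m)} {c} (h : (S.host m).Adj (.inl v) c) :
    ∃ e j, e ∈ S.I m ∧ c = .inr e ∧ v = S.ω m e j := by
  obtain ⟨i, hi, j, ⟨q, rfl⟩ | ⟨-, q⟩⟩ := h
  · exact ⟨i, j, hi, rfl, Sum.inl.inj q⟩
  · cases q

theorem ok {m g : ℕ} (h : g ≤ m) : Ok (S.host m) (S.R m) g := by
  refine ⟨(acyc m).mono (by have := S.s1 m; omega), fun y => ?_, ?_⟩
  · obtain ⟨F, f1, f2⟩ := (dgh (S := S) m).ball y m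
    exact ⟨F, by rw [R_card]; exact f1.trans (S.ball m), fun z k => f2 z (k.mono h)⟩
  · rintro (v | e) he c a
    · exact absurd (mem_image_of_mem _ (mem_univ v)) he
    · obtain ⟨-, j, rfl⟩ := adj_r.1 a
      exact mem_image_of_mem _ (mem_univ _)

theorem inj {m : ℕ} (e : Fin (S.M m)) : Function.Injective (S.ω m e) := (S.good m).2.1 e trivial

theorem od_iff {m : ℕ} {e : Fin (S.M m)} (he : e ∈ S.I m) {a b : Fin (2 * m + 1 + 2)}
    (ha : a.1 < 2) (hb : b.1 < 2) (hab : a ≠ b) : S.Od m (S.ω m e a) (S.ω m e b) ↔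
      (univ.filter fun j => (S.ω m e j).1 % 3 = 2).card % 2 = 1 := by
  have ad : ∀ j, (S.host m).Adj (.inr e) (.inl (S.ω m e j)) := fun j => adj_r.2 ⟨he, j, rfl⟩
  have : {z | (S.GA m (S.ω m e a) z ∧ S.GA m z (S.ω m e b)) ∧ z.1 % 3 = 2} =
      ↑((univ.filter fun j => (S.ω m e j).1 % 3 = 2).image (S.ω m e)) := by
    ext z
    simp only [Set.mem_ofPred_eq, coe_image, coe_filter, mem_univ, true_and, Set.mem_image]
    constructor
    · rintro ⟨⟨⟨-, e1, p1, p2⟩, -, e2, p3, p4⟩, hz⟩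
      have n1 : (Sum.inl z : _ ⊕ Fin (S.M m)) ≠ .inl (S.ω m e a) := fun q => by
        have := (he a).2 ha
        rw [← Sum.inl.inj q] at this
        omega
      have n2 : (Sum.inl (S.ω m e b) : _ ⊕ Fin (S.M m)) ≠ .inl (S.ω m e a) :=
        fun q => hab (inj e (Sum.inl.inj q)).symm
      obtain ⟨i1, -, -, rfl, -⟩ := adj_l p1
      obtain ⟨i2, -, -, rfl, -⟩ := adj_l p3
      have := acyc m _ _ _ p1 (ad a).symm ((((((Nr.refl 0).step p2 (by simp) n1).step p3 n1
        (by simp)).step p4 (by simp) n2).step (ad b).symm n2 (by simp)).mono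
        (by have := S.s1 m; omega))
      rw [this] at p2
      obtain ⟨-, j, q⟩ := adj_r.1 p2
      cases q
      exact ⟨j, hz, rfl⟩
    · rintro ⟨j, hj, rfl⟩
      have := (he a).2 ha
      have := (he b).2 hb
      exact ⟨⟨⟨by omega, _, (ad a).symm, ad j⟩, by omega, _, (ad j).symm, ad b⟩, hj⟩
  rw [Od, this, Set.ncard_coe_finset, card_image_of_injective _ (inj e)]

theorem ha_deg (m : ℕ) (u : {v : Fin (S.n m) // v.1 % 3 = 0}) :
    (univ.filter (S.HA m u)).card ≤ (S.Δ m + (2 * m + 1 + 2) + 1) ^ 4 := by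
  refine le_trans (card_le_card_of_injOn Subtype.val (fun v hv => ?_) Subtype.val_injective.injOn)
    (inl_ball (dgh m) 4 u.1)
  have h := (mem_filter.1 hv).2.2.1
  obtain ⟨z, ⟨⟨-, e1, p1, p2⟩, -, e2, p3, p4⟩, -⟩ := Set.nonempty_of_ncard_ne_zero
    (s := {z | (S.GA m u.1 z ∧ S.GA m z v.1) ∧ z.1 % 3 = 2}) fun q => by
      rw [Od, q] at h; omega
  have u := fun x : Fin (S.n m) ⊕ Fin (S.M m) => Set.mem_univ x
  exact mem_filter.2 ⟨mem_univ _, ((((Nr.refl 0).step p1 (u _) (u _)).step p2 (u _)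
    (u _)).step p3 (u _) (u _)).step p4 (u _) (u _)⟩

theorem ha_iff {m : ℕ} {e : Fin (S.M m)} {β : Bool} (he : ∀ j, (S.ω m e j).1 % 3 = pat m β j)
    (x y : {v : Fin (S.n m) // v.1 % 3 = 0}) (hx : x.1 = S.ω m e 0) (hy : y.1 = S.ω m e 1) :
    e ∈ S.I m ∧ (S.HA m x y ↔ (univ.filter fun j => pat m β j = 2).card % 2 = 1) := by
  have hI : e ∈ S.I m := fun j => by rw [he, pat_zero]
  refine ⟨hI, ?_⟩
  rw [HA, hx, hy, od_iff hI (by simp) (by simp) (by simp), od_iff hI (by simp) (by simp) (by simp),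
    and_self]
  simp only [he]
  refine and_iff_right fun q => ?_
  have := inj e (hx.symm.trans ((congrArg Subtype.val q).trans hy))
  simp at this

theorem has_iff {m : ℕ} {e : Fin (S.M m)} (he : e ∈ S.I m) (q : _ → Prop) (i : ℕ) :
    Has (S.host m) (.inr e) q i ↔ i ≤ (univ.filter fun j => q (.inl (S.ω m e j))).card := by
  constructor
  · rintro ⟨F, rfl, h⟩
    refine le_trans (card_le_card (t := (univ.filter fun j => q (.inl (S.ω m e j))).image
      fun j => .inl (S.ω m e j)) fun c hc => ?_) card_image_le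
    obtain ⟨-, j, rfl⟩ := adj_r.1 (h c hc).1
    exact mem_image_of_mem _ (mem_filter.2 ⟨mem_univ _, (h _ hc).2⟩)
  · intro h
    obtain ⟨T, t1, t2⟩ := exists_subset_card_eq h
    refine ⟨T.image fun j => .inl (S.ω m e j), ?_, ?_⟩
    · exact (card_image_of_injective _ (Sum.inl_injective.comp (inj e))).trans t2
    · simp only [forall_mem_image]
      exact fun j hj => ⟨adj_r.2 ⟨he, j, rfl⟩, (mem_filter.1 (t1 hj)).2⟩

theorem avoid_few {m ρ : ℕ} (hρ : ρ ≤ m) (π : Fin (S.n m) → Fin (S.n m))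
    (hπ : Function.Injective π) : (univ.filter fun e => Nr (S.host m).Adj {.inr e}ᶜ
      (.inl (π (S.ω m e 0))) ρ (.inl (π (S.ω m e 1)))).card ≤ (2 * m + 3) * (2 * S.n m) := by
  set T0 := univ.filter fun e => Nr (S.host m).Adj {.inr e}ᶜ
      (.inl (π (S.ω m e 0))) ρ (.inl (π (S.ω m e 1)))
  have : ∀ e, ∃ W : Finset (Fin (S.n m) ⊕ Fin (S.M m)), W.card ≤ m + 1 ∧ (e ∈ T0 →
      .inr e ∉ W ∧ Nr (S.host m).Adj ↑W (.inl (π (S.ω m e 0))) m (.inl (π (S.ω m e 1)))) := by
    intro e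
    by_cases h : e ∈ T0
    · obtain ⟨W, w1, -, -, w4, w5⟩ := ((mem_filter.1 h).2.mono hρ).ext (by simp)
      exact ⟨W, w1, fun _ => ⟨fun q => (w5 _ q).1 rfl, w4⟩⟩
    · exact ⟨∅, by simp, fun q => absurd q h⟩
  choose W w1 w2 using this
  obtain ⟨Q, q1, q2, q3⟩ := indep (m + 1) (fun e => univ.filter fun i => .inr i ∈ W e)
    (fun e => (card_le_card_of_injOn Sum.inr (fun i hi => (mem_filter.1 hi).2)
      Sum.inr_injective.injOn).trans (w1 e)) _ T0 le_rfl
    fun e he q => (w2 e he).1 (mem_filter.1 q).2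
  refine q2.trans (Nat.mul_le_mul_left _ (le_of_not_ge fun h => ?_))
  obtain ⟨T, t1, t2⟩ := exists_subset_card_eq h
  refine S.ent m T π t2 hπ fun i hi => nr_imp (w2 i (q1 (t1 hi))).2 ?_ (Set.subset_univ _)
  rintro a b ⟨i', -, j, k⟩ ha hb
  refine ⟨i', fun q => q3 i (t1 hi) i' (t1 q) (mem_filter.2 ⟨mem_univ _, ?_⟩), j, k⟩
  rcases k with k | k
  · exact k.2 ▸ hb
  · exact k.2 ▸ ha

end Seq

end Pool.Agent.H63.MT
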