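import Mathlib
import Pool.Agent.H63.MT3

set_option autoImplicit false

namespace Pool.Agent.H63.MT

open Finset H89.TG H89.SP
open scoped Classical

namespace Seq
variable {S : Seq}

theorem same {m r N b K : ℕ} {L L' : Type} [Finite L] [Finite L']
    {χ : Fin (S.n m) ⊕ Fin (S.M m) → L} (f : {v : Fin (S.n m) // v.1 % 3 = 0} → Fin (S.n m))
    (hq : Tq (S.host m) χ r N (S.HA m) (fun u => .inl (f u)) fun _ => ())
    (hd : Det (S.host m) (S.R m) χ b K L') (p1 : 6 * r + 13 ≤ N) (p2 : 6 * r + 13 ≤ m)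
    (p3 : b ≤ m) (p4 : K ≤ m) (p5 : Nat.card ((L × Unit) × (L × Unit)) ≤ m)
    (p6 : Nat.card (L' × L × Prop × {σ : List L // σ.length ≤ 3 * r + 5}) ≤ m) : False := by
  have := Fintype.ofFinite L
  have s1 := S.s1 m
  have s2 := S.s2 m
  obtain ⟨τ, B, b1, b2⟩ := hd
  obtain ⟨π, hπ⟩ := Equiv.Perm.exists_extending_pair (f := Subtype.val) (g := f)
    Subtype.val_injective fun u v e => hq.1 u v (congrArg Sum.inl e) rfl
  have sym : ∀ u v, S.HA m u v → S.HA m v u := fun u v k => ⟨k.1.symm, k.2.2, k.2.1⟩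
  have x0 := fewA (S.HA m) sym (fun u => (χ (.inl (f u)), ()))
    (fun u v => Nr (S.host m).Adj Set.univ (.inl (f u)) (r + 1) (.inl (f v)))
    (fun u v => Nr (S.host m).Adj Set.univ (.inl (f u)) (3 * r + 3) (.inl (f v))) _ (ha_deg m)
    (fun u v k => k.mono (by omega))
    (fun u v u' v' s1 s2 s3 => ((s1.tr (sy s2)).tr s3).mono (by omega))
    fun u v u' v' a b e e' k => by_contra fun q => k (hq.far (by omega) a b e e' q)
  have : ∀ v : Fin (S.n m), ∃ c, ∃ σ : {σ : List L // σ.length ≤ 3 * r + 5},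
      Nr (S.host m).Adj Set.univ (.inl (π v)) (3 * r + 5) (.inl v) →
        ∀ e ≠ c, Wz (S.host m) χ e (.inl v) σ.1 (.inl (π v)) := by
    intro v
    by_cases k : Nr (S.host m).Adj Set.univ (.inl (π v)) (3 * r + 5) (.inl v)
    · rcases nb χ k with e | ⟨c, σ, a1, a2, a3⟩
      · exact ⟨.inl v, ⟨[], by simp⟩, fun _ _ _ => e⟩
      · exact ⟨c, ⟨χ c :: σ, by simpa using a1⟩, fun _ e he => ⟨c, a2, he.symm, rfl, a3⟩⟩
    · exact ⟨.inl v, ⟨[], by simp⟩, fun q => absurd q k⟩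
  choose c σ hc using this
  let lab : Fin (S.n m) → L' × L × Prop × {σ : List L // σ.length ≤ 3 * r + 5} := fun v =>
    (τ (.inl v), χ (.inl v), Nr (S.host m).Adj Set.univ (.inl (π v)) (3 * r + 5) (.inl v), σ v)
  have : Nonempty (L' × L × Prop × {σ : List L // σ.length ≤ 3 * r + 5}) := ⟨lab ⟨0, by omega⟩⟩
  choose l hl using fun i : ℕ => pop (univ.filter fun v : Fin (S.n m) => v.1 % 3 = i) lab
  have tst : ∀ β, ∃ T : Finset (Fin (S.M m)), (5 * m + 9) * S.n m ≤ T.card ∧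
      ∀ e ∈ T, ∀ j, (S.ω m e j).1 % 3 = pat m β j ∧ lab (S.ω m e j) = l (pat m β j) := by
    intro β
    obtain ⟨T, t1, t2⟩ := S.test m (fun j => (univ.filter fun v : Fin (S.n m) =>
      v.1 % 3 = pat m β j).filter fun v => lab v = l (pat m β j)) fun j => by
        have e1 := cls_card (S.n m) _ (pat_lt m β j) (by omega)
        have e2 := (hl (pat m β j)).trans (Nat.mul_le_mul_right _ p6)
        refine e1.trans (le_trans (Nat.mul_le_mul_left 4 e2) ?_)
        rw [← mul_assoc]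
        exact Nat.mul_le_mul (show 4 * m ≤ 32 * (m + 1) by omega) (le_of_eq (by congr))
    exact ⟨T, t1, fun e he j => ⟨(mem_filter.1 (mem_filter.1 (t2 e he j)).1).2,
      (mem_filter.1 (t2 e he j)).2⟩⟩
  set Xf := univ.filter fun u => ∃ v, S.HA m u v ∧
    ¬ Nr (S.host m).Adj Set.univ (.inl (f u)) (3 * r + 3) (.inl (f v))
  let E1 := Xf.biUnion fun u => dS (S.ω m) Set.univ u.1
  let E2 := univ.filter fun e => Nr (S.host m).Adj {.inr e}ᶜ
      (.inl (π (S.ω m e 0))) (3 * r + 3) (.inl (π (S.ω m e 1)))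
  let E3 := univ.filter fun e : Fin (S.M m) => Sum.inr e ∈ univ.image c
  let E4 := univ.filter fun e : Fin (S.M m) => Sum.inr e ∈ B
  have e1 : E1.card ≤ S.n m := by
    refine (card_biUnion_le_card_mul _ _ _ fun u _ => (S.good m).2.2 u.1).trans
      (le_trans ?_ (S.big m))
    rw [← Nat.card_eq_fintype_card] at x0
    exact Nat.mul_le_mul (x0.trans (Nat.mul_le_mul (by omega) (by omega))) (by omega)
  have e2 : E2.card ≤ (2 * m + 3) * (2 * S.n m) := avoid_few (by omega) π π.injective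
  have e3 : E3.card ≤ S.n m := (card_le_card_of_injOn Sum.inr (fun i hi => (mem_filter.1 hi).2)
    Sum.inr_injective.injOn).trans (card_image_le.trans (by simp))
  have e4 : E4.card ≤ m * S.n m := (card_le_card_of_injOn Sum.inr (fun i hi => (mem_filter.1 hi).2)
    Sum.inr_injective.injOn).trans (b1.trans (by rw [R_card]; exact Nat.mul_le_mul_right _ p3))
  have pick : ∀ β, ∃ e, e ∉ E1 ∧ e ∉ E2 ∧ e ∉ E3 ∧ e ∉ E4 ∧
      ∀ j, (S.ω m e j).1 % 3 = pat m β j ∧ lab (S.ω m e j) = l (pat m β j) := by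
    intro β
    obtain ⟨T, t1, t2⟩ := tst β
    obtain ⟨e, k1, k2⟩ := exists_mem_notMem_of_card_lt_card (s := E1 ∪ E2 ∪ E3 ∪ E4) (t := T) (by
      have := card_union_le (E1 ∪ E2 ∪ E3) E4
      have := card_union_le (E1 ∪ E2) E3
      have := card_union_le E1 E2
      nlinarith)
    simp only [mem_union, not_or] at k2
    exact ⟨e, k2.1.1.1, k2.1.1.2, k2.1.2, k2.2, t2 e k1⟩
  obtain ⟨β, β', o1, o2⟩ := pat_par m
  obtain ⟨e, a1, a2, a3, a4, a5⟩ := pick β
  obtain ⟨e', -, -, c3, c4, c5⟩ := pick β'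
  have z0 : ∀ β, pat m β 0 = 0 := fun β => (pat_zero _ _ _).2 (by simp)
  have z1 : ∀ β, pat m β 1 = 0 := fun β => (pat_zero _ _ _).2 (by simp)
  let x : {v : Fin (S.n m) // v.1 % 3 = 0} := ⟨S.ω m e 0, (a5 0).1.trans (z0 _)⟩
  let y : {v : Fin (S.n m) // v.1 % 3 = 0} := ⟨S.ω m e 1, (a5 1).1.trans (z1 _)⟩
  let x' : {v : Fin (S.n m) // v.1 % 3 = 0} := ⟨S.ω m e' 0, (c5 0).1.trans (z0 _)⟩
  let y' : {v : Fin (S.n m) // v.1 % 3 = 0} := ⟨S.ω m e' 1, (c5 1).1.trans (z1 _)⟩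
  obtain ⟨i1, i2⟩ := ha_iff (fun j => (a5 j).1) x y rfl rfl
  obtain ⟨i3, i4⟩ := ha_iff (fun j => (c5 j).1) x' y' rfl rfl
  have hxy := i2.2 o1
  have ad : ∀ j, (S.host m).Adj (.inr e) (.inl (S.ω m e j)) := fun j => adj_r.2 ⟨i1, j, rfl⟩
  have ad' : ∀ j, (S.host m).Adj (.inr e') (.inl (S.ω m e' j)) := fun j => adj_r.2 ⟨i3, j, rfl⟩
  have near : Nr (S.host m).Adj Set.univ (.inl (π (S.ω m e 0))) (3 * r + 3)
      (.inl (π (S.ω m e 1))) := by
    rw [show π (S.ω m e 0) = f x from hπ x, show π (S.ω m e 1) = f y from hπ y]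
    by_contra q
    exact a1 (mem_biUnion.2 ⟨x, mem_filter.2 ⟨mem_univ _, y, hxy, q⟩,
      mem_dS.2 ⟨trivial, 0, rfl⟩⟩)
  have u := fun x : Fin (S.n m) ⊕ Fin (S.M m) => Set.mem_univ x
  obtain ⟨_, rfl, a, b, σ1, σ2, k1, k2, k3, k4, -, k6, k7⟩ :=
    (thru χ {.inr e} (by simp) (by simp) _ near).resolve_left
      fun q => a2 (mem_filter.2 ⟨mem_univ _, q⟩)
  have n0 : Nr (S.host m).Adj Set.univ (.inl (π (S.ω m e 0))) (3 * r + 5) (.inl (S.ω m e 0)) :=
    (((sy (Wz.nr _ k6)).step k3.symm (u _) (u _)).step (ad 0) (u _) (u _)).mono (by omega)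
  have n1 : Nr (S.host m).Adj Set.univ (.inl (π (S.ω m e 1))) (3 * r + 5) (.inl (S.ω m e 1)) :=
    (((sy (Wz.nr _ k7)).step k4.symm (u _) (u _)).step (ad 1) (u _) (u _)).mono (by omega)
  have l0 : lab (S.ω m e 0) = lab (S.ω m e' 0) := by rw [(a5 0).2, (c5 0).2, z0, z0]
  have l1 : lab (S.ω m e 1) = lab (S.ω m e' 1) := by rw [(a5 1).2, (c5 1).2, z1, z1]
  have nc : ∀ e ∉ E3, ∀ v, Sum.inr e ≠ c v := fun e he v q =>
    he (mem_filter.2 ⟨mem_univ _, mem_image.2 ⟨v, mem_univ _, q.symm⟩⟩)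
  have w1 := hc _ n0 _ (nc e a3 _)
  have w2 := hc _ n1 _ (nc e a3 _)
  have w3 := hc _ ((congrArg (fun t => t.2.2.1) l0).mp n0) _ (nc e' c3 _)
  have w4 := hc _ ((congrArg (fun t => t.2.2.1) l1).mp n1) _ (nc e' c3 _)
  rw [← show σ _ = σ _ from congrArg (fun t => t.2.2.2) l0] at w3
  rw [← show σ _ = σ _ from congrArg (fun t => t.2.2.2) l1] at w4
  have nr : ∀ e : Fin (S.M m), Sum.inr e ∉ S.R m := fun e => by simp [R]
  have ce : χ (.inr e) = χ (.inr e') := by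
    refine b2 _ (nr e) _ (nr e') (fun q => a4 (mem_filter.2 ⟨mem_univ _, q⟩))
      (fun q => c4 (mem_filter.2 ⟨mem_univ _, q⟩)) fun p i hi => ?_
    rw [has_iff i1, has_iff i3]
    have q1 : ∀ j, τ (.inl (S.ω m e j)) = (l (pat m β j)).1 :=
      fun j => congrArg Prod.fst (a5 j).2
    have q2 : ∀ j, τ (.inl (S.ω m e' j)) = (l (pat m β' j)).1 :=
      fun j => congrArg Prod.fst (c5 j).2
    simp only [q1, q2]
    exact pat_cnt m β β' (fun t => p (l t).1) i (by omega)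
  have ne : ∀ e : Fin (S.M m), (Sum.inl (S.ω m e 0) : _ ⊕ Fin (S.M m)) ≠ .inl (S.ω m e 1) :=
    fun e q => by simpa using inj e (Sum.inl.inj q)
  obtain ⟨-, Λ, m1, m2, m3, m4⟩ := cross (r := r) (acyc m) (by omega) (σ _).2 (σ _).2 (ad 0) (ad 1)
    (ne e) (ad' 0) (ad' 1) (ne e') ce (congrArg (fun t => t.2.1) l0)
    (congrArg (fun t => t.2.1) l1) w1 w2 w3 w4
  rw [show π (S.ω m e 0) = f x from hπ x, show π (S.ω m e' 0) = f x' from hπ x'] at m3
  rw [show π (S.ω m e 1) = f y from hπ y, show π (S.ω m e' 1) = f y' from hπ y'] at m4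
  exact o2 (i4.1 (hq.2 Λ (by omega) m2 x y x' y' hxy m3 m4 rfl rfl))

theorem core (μ : ℕ → ℕ) (f : ∀ m, {v : Fin (S.n m) // v.1 % 3 = 0} → Fin (S.n (μ m)))
    (hf : ∀ m, Function.Injective (f m))
    {P : ∀ j, (Fin 2 → Fin (S.n (μ j)) ⊕ Fin (S.M (μ j))) → Prop}
    (hP : TD (fun j => S.host (μ j)) (fun j => S.R (μ j)) P)
    (h : ∀ m u v, S.HA m u v ↔ u ≠ v ∧ P m ![.inl (f m u), .inl (f m v)] ∧
      P m ![.inl (f m v), .inl (f m u)]) : False := by
  obtain ⟨r, hP⟩ := hP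
  obtain ⟨g, b, K, L, L', _, _, hP⟩ := hP (6 * r + 13)
  obtain ⟨c, k3⟩ := sep Unit L r
  obtain ⟨m, m1, m2, m3, m4, m5, m6⟩ : ∃ m, g + 6 * r + 13 ≤ m ∧ b ≤ m ∧ K ≤ m ∧
      Nat.card ((L × Unit) × (L × Unit)) ≤ m ∧
      Nat.card (L' × L × Prop × {σ : List L // σ.length ≤ 3 * r + 5}) ≤ m ∧ c ≤ m :=
    ⟨g + 6 * r + 13 + b + K + Nat.card ((L × Unit) × (L × Unit)) +
      Nat.card (L' × L × Prop × {σ : List L // σ.length ≤ 3 * r + 5}) + c,
      by omega, by omega, by omega, by omega, by omega, by omega⟩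
  have s1 := S.s1 m
  have s2 := S.s2 m
  have cA : S.n m ≤ 4 * Fintype.card {v : Fin (S.n m) // v.1 % 3 = 0} := by
    rw [Fintype.card_subtype]; exact cls_card _ 0 (by omega) (by omega)
  have tq : g ≤ μ m → ∃ χ : _ → L, Tq (S.host (μ m)) χ r (6 * r + 13) (S.HA m)
      (fun u => .inl (f m u)) (fun _ => ()) ∧ Det (S.host (μ m)) (S.R (μ m)) χ b K L' := by
    intro q
    obtain ⟨χ, k1, k2⟩ := hP m (ok q)
    refine ⟨χ, ⟨fun u v e _ => hf m (Sum.inl.inj e), fun Λ a1 a2 u v u' v' a3 a4 a5 _ _ => ?_⟩, k2⟩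
    rw [h] at a3 ⊢
    refine ⟨fun e => a3.1 (hf m (Sum.inl.inj ((a2.eq _ a4 _ a5).2 (by rw [e])))),
      k1 Λ a1 a2 _ _ (fun i => ?_) a3.2.1, k1 Λ a1 a2 _ _ (fun i => ?_) a3.2.2⟩
    · fin_cases i
      exacts [a4, a5]
    · fin_cases i
      exacts [a5, a4]
  rcases lt_trichotomy (μ m) m with q | q | q
  · have := Fintype.card_le_of_injective _ (hf m)
    rw [Fintype.card_fin] at this
    have := (S.s3 _ _ q).2
    omega
  · obtain ⟨χ, k1, k2⟩ := tq (by omega)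
    generalize f m = f0 at k1
    generalize μ m = μ0 at q f0 χ k1 k2
    subst q
    exact same f0 k1 k2 le_rfl (by omega) m2 m3 m4 m5
  · obtain ⟨χ, k1, -⟩ := tq (by omega)
    have s3 := (S.s3 _ _ q).1
    have := S.s1 (μ m)
    have cB : Fintype.card {v : Fin (S.n m) // v.1 % 3 = 0} ≤ S.n m :=
      (Fintype.card_subtype_le _).trans (by simp)
    obtain ⟨X, A, x1, x2, x3, x4⟩ := k3 _ _ _ χ _ _ _ _ _ _ (acyc (μ m)) (by omega) (by omega) k1
      (fun u v k => ⟨k.1.symm, k.2.2, k.2.1⟩) (ha_deg m) (by omega)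
      (le_trans (Nat.mul_le_mul cB (Nat.succ_le_succ (Nat.mul_le_mul cB (by omega)))) s3)
    have x5 : 32 * X.card ≤ S.n m := by
      refine le_trans ?_ (le_trans (Nat.le_mul_of_pos_right _ (by omega)) (S.big m))
      rw [mul_assoc 32]
      exact Nat.mul_le_mul_left _ (x1.trans (Nat.mul_le_mul_right _ m6))
    have e1 := le_card_sdiff X A
    have e2 := card_compl A
    obtain ⟨β, -, o1, -⟩ := pat_par m
    obtain ⟨T, t1, t2⟩ := S.test m (fun j => if j = 0 then (A \ X).image Subtype.val else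
      if j = 1 then Aᶜ.image Subtype.val else univ.filter fun v => v.1 % 3 = pat m β j) fun j => by
        refine le_trans ?_ (Nat.mul_le_mul_right _ (show 32 ≤ 32 * (m + 1) by omega))
        split_ifs
        · rw [card_image_of_injective _ Subtype.val_injective]; omega
        · rw [card_image_of_injective _ Subtype.val_injective]; omega
        · have := cls_card (S.n m) _ (pat_lt m β j) (by omega); omega
    obtain ⟨e, he⟩ : T.Nonempty := card_pos.1 (by nlinarith)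
    have a0 := t2 e he 0
    have a1 := t2 e he 1
    rw [if_pos rfl] at a0
    rw [if_neg (by simp), if_pos rfl] at a1
    obtain ⟨x, hx, ex⟩ := mem_image.1 a0
    obtain ⟨y, hy, ey⟩ := mem_image.1 a1
    refine mem_compl.1 hy (x4 x y ((ha_iff (β := β) (fun j => ?_) x y ex ey).2.2 o1)
      (mem_sdiff.1 hx).2 (mem_sdiff.1 hx).1)
    by_cases q0 : j = 0
    · rw [q0, ← ex, x.2, (pat_zero _ _ _).2 (by simp)]
    by_cases q1 : j = 1
    · rw [q1, ← ey, y.2, (pat_zero _ _ _).2 (by simp)]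
    have := t2 e he j
    rw [if_neg q0, if_neg q1] at this
    exact (mem_filter.1 this).2

end Seq

end Pool.Agent.H63.MT
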