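import Mathlib

set_option autoImplicit false
open Finset

namespace Pool.Agent.H63.Mark
variable {ι : Type*} [Fintype ι] [DecidableEq ι]

theorem maxp {A : Matrix ι ι ℝ} (h0 : ∀ i j, 0 ≤ A i j) (h1 : ∀ i, ∑ j, A i j ≤ 1) {β : ℝ}
    (b0 : 0 ≤ β) (b1 : β < 1) (u : ι → ℝ) (hu : ∀ i, β * ∑ j, A i j * u j ≤ u i) (i : ι) :
    0 ≤ u i := by
  obtain ⟨k, -, hk⟩ := exists_min_image univ u ⟨i, mem_univ i⟩
  refine le_trans ?_ (hk i (mem_univ i))
  by_contra h
  push Not at h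
  have a : (∑ j, A k j) * u k ≤ ∑ j, A k j * u j := by
    rw [sum_mul]
    exact sum_le_sum fun j _ => mul_le_mul_of_nonneg_left (hk j (mem_univ j)) (h0 k j)
  have b : u k ≤ ∑ j, A k j * u j := by nlinarith [h1 k]
  nlinarith [hu k, mul_le_mul_of_nonneg_left b b0]

theorem pow_sub {A : Matrix ι ι ℝ} (h0 : ∀ i j, 0 ≤ A i j) (h1 : ∀ i, ∑ j, A i j ≤ 1) (s : ℕ) :
    (∀ i j, 0 ≤ (A ^ s) i j) ∧ ∀ i, ∑ j, (A ^ s) i j ≤ 1 := by
  induction s with
  | zero => simp [Matrix.one_apply, ite_nonneg]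
  | succ s ih =>
    simp only [pow_succ', Matrix.mul_apply]
    refine ⟨fun i j => sum_nonneg fun k _ => mul_nonneg (h0 _ _) (ih.1 _ _), fun i => ?_⟩
    rw [sum_comm]
    refine le_trans (sum_le_sum fun k _ => ?_) (h1 i)
    rw [← mul_sum]
    exact mul_le_of_le_one_right (h0 _ _) (ih.2 k)

theorem resolv {A : Matrix ι ι ℝ} (h0 : ∀ i j, 0 ≤ A i j) (h1 : ∀ i, ∑ j, A i j ≤ 1) {β : ℝ}
    (b0 : 0 ≤ β) (b1 : β < 1) : ∃ R : Matrix ι ι ℝ, (∀ i j, 0 ≤ R i j) ∧
      (∀ (g : ι → ℝ) i, ∑ j, R i j * g j = (1 - β) * g i + β * ∑ k, A i k * ∑ j, R k j * g j) ∧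
      ∀ (F : ι → ι → ℝ) (C : ℝ), (∀ s : ℕ, ∑ i, ∑ j, (A ^ s) i j * F i j ≤ C * s) →
        ∑ i, ∑ j, R i j * F i j ≤ C * (β / (1 - β)) := by
  have p0 := fun s => (pow_sub h0 h1 s).1
  have sm : ∀ i j, Summable fun s : ℕ => (1 - β) * β ^ s * (A ^ s) i j := by
    intro i j
    refine ((summable_geometric_of_lt_one b0 b1).mul_left (1 - β)).of_nonneg_of_le
      (fun s => mul_nonneg (mul_nonneg (by linarith) (by positivity)) (p0 s i j)) fun s => ?_
    refine mul_le_of_le_one_right (mul_nonneg (by linarith) (by positivity)) ?_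
    exact (single_le_sum (fun j _ => p0 s i j) (mem_univ j)).trans ((pow_sub h0 h1 s).2 i)
  refine ⟨fun i j => ∑' s : ℕ, (1 - β) * β ^ s * (A ^ s) i j, fun i j => tsum_nonneg fun s =>
    mul_nonneg (mul_nonneg (by linarith) (by positivity)) (p0 s i j), fun g i => ?_, fun F C h => ?_⟩
  · have e : ∀ j, ∑' s : ℕ, (1 - β) * β ^ s * (A ^ s) i j = (1 - β) * (if i = j then 1 else 0) +
        β * ∑ k, A i k * ∑' s : ℕ, (1 - β) * β ^ s * (A ^ s) k j := by
      intro j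
      rw [(sm i j).tsum_eq_zero_add]
      congr 1
      · simp [Matrix.one_apply]
      · refine HasSum.tsum_eq ?_
        refine ((hasSum_sum fun k (_ : k ∈ univ) => (sm k j).hasSum.mul_left (A i k)).mul_left
          β).congr_fun ?_
        intro s
        rw [pow_succ' A, Matrix.mul_apply, mul_sum, mul_sum]
        exact sum_congr rfl fun k _ => by ring
    simp only [e, add_mul, sum_add_distrib]
    congr 1
    · simp
    · simp only [mul_sum, sum_mul, mul_assoc]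
      exact sum_comm
  · have a := hasSum_sum fun i (_ : i ∈ univ) => hasSum_sum fun j (_ : j ∈ univ) =>
      (sm i j).hasSum.mul_right (F i j)
    have b := (hasSum_coe_mul_geometric_of_norm_lt_one (𝕜 := ℝ) (r := β)
      (by rwa [Real.norm_of_nonneg b0])).mul_left (C * (1 - β))
    refine (hasSum_le (fun s => ?_) a b).trans (le_of_eq ?_)
    · have := mul_le_mul_of_nonneg_left (h s)
        (mul_nonneg (by linarith) (by positivity) : 0 ≤ (1 - β) * β ^ s)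
      simp only [mul_sum, ← mul_assoc] at this
      linarith
    · have : 1 - β ≠ 0 := by linarith
      field_simp

theorem res_one {A R : Matrix ι ι ℝ} (h0 : ∀ i j, 0 ≤ A i j) (h1 : ∀ i, ∑ j, A i j = 1) {β : ℝ}
    (b0 : 0 ≤ β) (b1 : β < 1)
    (r : ∀ (g : ι → ℝ) i, ∑ j, R i j * g j = (1 - β) * g i + β * ∑ k, A i k * ∑ j, R k j * g j)
    (i : ι) : ∑ j, R i j = 1 := by
  have e := r fun _ => 1
  simp only [mul_one] at e
  have a := maxp h0 (fun i => (h1 i).le) b0 b1 (fun i => ∑ j, R i j - 1) (fun i => by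
    simp only [mul_sub, sum_sub_distrib, mul_one, h1]; linarith [e i]) i
  have b := maxp h0 (fun i => (h1 i).le) b0 b1 (fun i => 1 - ∑ j, R i j) (fun i => by
    simp only [mul_sub, sum_sub_distrib, mul_one, h1]; linarith [e i]) i
  linarith

theorem equil {A : Matrix ι ι ℝ} (h0 : ∀ i j, 0 ≤ A i j) (h1 : ∀ i, ∑ j, A i j = 1) {β : ℝ}
    (b0 : 0 ≤ β) (b1 : β < 1) (L : ι → Prop) : ∃ h : ι → ℝ, (∀ i, 0 ≤ h i) ∧ (∀ i, h i ≤ 1) ∧
      (∀ i, L i → h i = 1) ∧ (∀ i, ¬ L i → h i = β * ∑ j, A i j * h j) ∧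
      ∀ i, β * ∑ j, A i j * h j ≤ h i := by
  classical
  let B : Matrix ι ι ℝ := fun i j => if L i then 0 else A i j
  have c0 : ∀ i j, 0 ≤ B i j := fun i j => by simp only [B]; split_ifs; exacts [le_rfl, h0 i j]
  have c1 : ∀ i, ∑ j, B i j ≤ 1 := fun i => by
    by_cases h : L i <;> simp [B, h, h1]
  obtain ⟨R, r0, r1, -⟩ := resolv c0 c1 b0 b1
  have ne : 0 < 1 - β := by linarith
  obtain ⟨h, hh⟩ : ∃ h : ι → ℝ, h = fun i => ∑ j, R i j * if L j then (1 - β)⁻¹ else 0 := ⟨_, rfl⟩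
  have e : ∀ i, h i = (1 - β) * (if L i then (1 - β)⁻¹ else 0) + β * ∑ k, B i k * h k := fun i => by
    rw [hh]; exact r1 _ i
  have e1 : ∀ i, L i → h i = 1 := fun i hi => by rw [e]; simp [B, hi, ne.ne']
  have e2 : ∀ i, ¬ L i → h i = β * ∑ j, A i j * h j := fun i hi => by rw [e]; simp [B, hi]
  have le : ∀ i, h i ≤ 1 := fun i => sub_nonneg.1 <|
    maxp c0 c1 b0 b1 (fun i => 1 - h i) (fun i => by
      by_cases hi : L i
      · simp [B, hi, e1 i hi]
      · simp only [B, hi, if_false, mul_sub, sum_sub_distrib, mul_one, h1]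
        linarith [e2 i hi]) i
  refine ⟨h, fun i => ?_, le, e1, e2, fun i => ?_⟩
  · rw [hh]
    exact sum_nonneg fun j _ => mul_nonneg (r0 _ _) (by split_ifs <;> positivity)
  · by_cases hi : L i
    · have : ∑ j, A i j * h j ≤ 1 := (h1 i).symm ▸
        sum_le_sum fun j _ => mul_le_of_le_one_right (h0 i j) (le j)
      rw [e1 i hi]; nlinarith
    · exact (e2 i hi).ge

noncomputable def PS (A : Matrix ι ι ℝ) (t : ℕ) (ν : ι → ℝ) (F : (Fin (t + 1) → ι) → ℝ) : ℝ :=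
  ∑ w : Fin (t + 1) → ι, ν (w 0) * (∏ k : Fin t, A (w k.castSucc) (w k.succ)) * F w

theorem PS_zero (A : Matrix ι ι ℝ) (ν : ι → ℝ) (F : (Fin 1 → ι) → ℝ) :
    PS A 0 ν F = ∑ x, ν x * F fun _ => x := by
  rw [PS, ← (Equiv.funUnique (Fin 1) ι).symm.sum_comp]
  simp only [univ_eq_empty, prod_empty, mul_one]
  rfl

theorem PS_succ (A : Matrix ι ι ℝ) (t : ℕ) (ν : ι → ℝ) (F : (Fin (t + 2) → ι) → ℝ) :
    PS A (t + 1) ν F = ∑ x, PS A t (fun y => ν x * A x y) fun w => F (Fin.cons x w) := by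
  rw [PS, ← (Fin.consEquiv fun _ => ι).sum_comp, Fintype.sum_prod_type]
  refine sum_congr rfl fun x _ => sum_congr rfl fun w _ => ?_
  rw [Fin.prod_univ_succ]
  simp only [Fin.consEquiv_apply, Fin.cons_zero, Fin.castSucc_zero, Fin.cons_succ,
    ← Fin.succ_castSucc, mul_assoc]
  rfl

theorem PS_mono {A : Matrix ι ι ℝ} (h0 : ∀ i j, 0 ≤ A i j) {t : ℕ} {ν : ι → ℝ} (hν : ∀ i, 0 ≤ ν i)
    {F G : (Fin (t + 1) → ι) → ℝ} (h : ∀ w, F w ≤ G w) : PS A t ν F ≤ PS A t ν G :=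
  sum_le_sum fun w _ => mul_le_mul_of_nonneg_left (h w)
    (mul_nonneg (hν _) (prod_nonneg fun _ _ => h0 _ _))

theorem PS_last (A : Matrix ι ι ℝ) (t : ℕ) : ∀ (ν : ι → ℝ) (F : ι → ι → ℝ),
    PS A t ν (fun w => F (w 0) (w (Fin.last t))) = ∑ i, ∑ j, ν i * (A ^ t) i j * F i j := by
  induction t with
  | zero => intro ν F; simp [PS_zero, Matrix.one_apply]
  | succ t ih =>
    intro ν F
    rw [PS_succ]
    refine sum_congr rfl fun x _ => ?_
    simp only [Fin.cons_zero, ← Fin.succ_last, Fin.cons_succ]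
    rw [ih _ fun _ j => F x j, sum_comm]
    refine sum_congr rfl fun j _ => ?_
    rw [pow_succ', Matrix.mul_apply, mul_sum, sum_mul]
    exact sum_congr rfl fun k _ => by ring

theorem PS_one {A : Matrix ι ι ℝ} (h1 : ∀ i, ∑ j, A i j = 1) (t : ℕ) :
    ∀ ν : ι → ℝ, PS A t ν (fun _ => 1) = ∑ i, ν i := by
  induction t with
  | zero => intro ν; simp [PS_zero]
  | succ t ih => intro ν; simp [PS_succ, ih, ← mul_sum, h1]

open Classical in
theorem PS_hit {A : Matrix ι ι ℝ} (h0 : ∀ i j, 0 ≤ A i j) (h1 : ∀ i, ∑ j, A i j = 1) {β : ℝ}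
    (b0 : 0 ≤ β) (b1 : β ≤ 1) {h : ι → ℝ} (p : ∀ i, 0 ≤ h i) (ex : ∀ i, β * ∑ j, A i j * h j ≤ h i)
    (t : ℕ) : ∀ ν : ι → ℝ, (∀ i, 0 ≤ ν i) →
      β ^ t * PS A t ν (fun w => if ∃ s, 1 ≤ h (w s) then 1 else 0) ≤ ∑ i, ν i * h i := by
  induction t with
  | zero =>
    intro ν hν
    rw [PS_zero, pow_zero, one_mul]
    refine sum_le_sum fun x _ => mul_le_mul_of_nonneg_left ?_ (hν x)
    split_ifs with hx
    exacts [hx.choose_spec, p x]
  | succ t ih =>
    intro ν hν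
    rw [PS_succ, mul_sum]
    refine sum_le_sum fun x _ => ?_
    have n0 : ∀ y, 0 ≤ ν x * A x y := fun y => mul_nonneg (hν x) (h0 x y)
    by_cases hx : 1 ≤ h x
    · have := PS_mono h0 n0 (t := t) (G := fun _ => 1)
        (F := fun w => if ∃ s, 1 ≤ h ((Fin.cons x w : Fin (t + 2) → ι) s) then 1 else 0)
        fun w => by split_ifs <;> norm_num
      rw [PS_one h1, ← mul_sum, h1, mul_one] at this
      have b := pow_le_one₀ (n := t + 1) b0 b1
      have := mul_le_mul_of_nonneg_left this (pow_nonneg b0 (t + 1))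
      nlinarith [hν x]
    · have := mul_le_mul_of_nonneg_left (ih _ n0) b0
      simp only [Fin.exists_fin_succ, Fin.cons_zero, hx, false_or, Fin.cons_succ] at this ⊢
      simp only [mul_assoc, ← mul_sum] at this
      rw [pow_succ', mul_assoc]
      nlinarith [mul_le_mul_of_nonneg_left (ex x) (hν x)]

end Pool.Agent.H63.Mark
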