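import Pool.Agent.H63.Mark1

set_option autoImplicit false
open Finset

namespace Pool.Agent.H63.Mark
variable {ι : Type*} [Fintype ι] [DecidableEq ι]

def MT (d : ι → ι → ℝ) (M : ℝ) : Prop := ∀ (μ : ι → ℝ) (A : Matrix ι ι ℝ),
  (∀ i, 0 ≤ μ i) → (∑ i, μ i = 1) → (∀ i j, 0 ≤ A i j) → (∀ i, ∑ j, A i j = 1) →
  (∀ i j, μ i * A i j = μ j * A j i) → ∀ t : ℕ,
    ∑ i, ∑ j, μ i * (A ^ t) i j * d i j ^ 2 ≤ M * (t : ℝ) * ∑ i, ∑ j, μ i * A i j * d i j ^ 2

theorem MT.un {d : ι → ι → ℝ} {M : ℝ} (H : MT d M) {m : ι → ℝ} {A : Matrix ι ι ℝ}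
    (m0 : ∀ i, 0 ≤ m i) (m1 : 0 < ∑ i, m i) (h0 : ∀ i j, 0 ≤ A i j) (h1 : ∀ i, ∑ j, A i j = 1)
    (hr : ∀ i j, m i * A i j = m j * A j i) (t : ℕ) :
    ∑ i, ∑ j, (A ^ t) i j * (m i * d i j ^ 2) ≤ (M * ∑ i, ∑ j, m i * A i j * d i j ^ 2) * t := by
  have := H (fun i => (∑ i, m i)⁻¹ * m i) A (fun i => mul_nonneg (by positivity) (m0 i))
    (by rw [← mul_sum, inv_mul_cancel₀ m1.ne']) h0 h1 (fun i j => by rw [mul_assoc, hr, mul_assoc]) t
  simp only [mul_assoc, ← mul_sum] at this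
  simp only [mul_left_comm _ (m _), mul_assoc, ← mul_sum]
  apply le_of_mul_le_mul_left _ (inv_pos.2 m1)
  linarith

theorem layer {d : ι → ι → ℝ} {M : ℝ} (H : MT d M) (d0 : ∀ i j, 0 ≤ d i j) (d1 : ∀ i, d i i = 0)
    (d2 : ∀ i j, d i j = d j i) (d3 : ∀ i j k, d i k ≤ d i j + d j k)
    {μ : ι → ℝ} {A R : Matrix ι ι ℝ} (m0 : ∀ i, 0 ≤ μ i) (m1 : ∑ i, μ i = 1)
    (h0 : ∀ i j, 0 ≤ A i j) (h1 : ∀ i, ∑ j, A i j = 1) (hr : ∀ i j, μ i * A i j = μ j * A j i)
    {β : ℝ} (b0 : 0 ≤ β) (b1 : β < 1) (r0 : ∀ i j, 0 ≤ R i j)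
    (r1 : ∀ (g : ι → ℝ) i, ∑ j, R i j * g j = (1 - β) * g i + β * ∑ k, A i k * ∑ j, R k j * g j)
    (W : ι → Prop) [DecidablePred W] {n h Θ : ι → ℝ} {a : ℝ} (a0 : 0 < a)
    (hn : ∀ i, n i = h i - β * ∑ j, A i j * h j) (n0 : ∀ i, 0 ≤ n i) (p0 : ∀ i, 0 ≤ h i)
    (p1 : ∀ i, h i ≤ 1)
    (nL : ∀ i, n i ≠ 0 → W i ∧ a ≤ ∑ x, R i x * d i x ∧ ∑ x, R i x * d i x ≤ 2 * a)
    (t0 : ∀ i, 0 ≤ Θ i) (t1 : ∀ i, β * ∑ j, A i j * Θ j ≤ Θ i)
    (off : ∀ z, ¬ W z → 2 * ∑ x, R z x * d z x ≤ a / 4 + Θ z) :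
    a ^ 2 * ∑ i, μ i * n i ≤
      256 * M * β * (∑ i, ∑ j, μ i * A i j * (if W i ∨ W j then d i j ^ 2 else 0)) +
        4 * a * ∑ i, μ i * n i * Θ i := by
  obtain ⟨α, hα⟩ : ∃ α, α = 1 - β := ⟨_, rfl⟩
  have α0 : 0 < α := by linarith
  have R1 := res_one h0 h1 b0 b1 r1
  obtain ⟨P, hP⟩ : ∃ P : ι → ℝ, P = fun z => a / 4 * h z + Θ z := ⟨_, rfl⟩
  have P0 : ∀ z, 0 ≤ P z := fun z => by
    rw [hP]; exact add_nonneg (mul_nonneg (by positivity) (p0 z)) (t0 z)
  obtain ⟨S, S0, hS⟩ : ∃ S, 0 ≤ S ∧ ∀ z, P z ≤ S := ⟨∑ z, P z, sum_nonneg fun z _ => P0 z,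
    fun z => single_le_sum (fun z _ => P0 z) (mem_univ z)⟩
  obtain ⟨κ, κ0, κ1, κ2⟩ : ∃ κ, 0 < κ ∧ κ ≤ α ∧ κ * S ≤ α * (a / 8) := by
    refine ⟨α * (a / (a + 8 * S)), by positivity,
      mul_le_of_le_one_right α0.le (by rw [div_le_one (by positivity)]; linarith), ?_⟩
    rw [mul_assoc]
    gcongr
    rw [div_mul_eq_mul_div, div_le_div_iff₀ (by positivity) (by positivity)]
    nlinarith
  obtain ⟨s, hs⟩ : ∃ s : ι → ℝ, s = fun z => 1 + n z / (8 * α) := ⟨_, rfl⟩
  have s1 : ∀ z, 1 ≤ s z := fun z => by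
    have := n0 z; rw [hs]; exact le_add_of_nonneg_right (by positivity)
  have s0 : ∀ z, 0 < s z := fun z => by linarith [s1 z]
  obtain ⟨c, hc⟩ : ∃ c : ι → ℝ, c = fun z => ∑ x, if W x then μ z * A z x else 0 := ⟨_, rfl⟩
  have c0 : ∀ z, 0 ≤ c z := fun z => by
    rw [hc]; exact sum_nonneg fun x _ => ite_nonneg (mul_nonneg (m0 _) (h0 _ _)) le_rfl
  obtain ⟨m, hm⟩ : ∃ m : ι → ℝ, m = fun z => if W z then μ z * s z else c z / κ + 1 := ⟨_, rfl⟩
  have mW : ∀ z, W z → m z = μ z * s z := fun z hz => by simp [hm, hz]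
  have mO : ∀ z, ¬ W z → m z = c z / κ + 1 := fun z hz => by simp [hm, hz]
  have mp : ∀ z, ¬ W z → 0 < m z := fun z hz => by have := c0 z; rw [mO z hz]; positivity
  have mμ : ∀ z, μ z ≤ m z := fun z => by
    by_cases hz : W z
    · rw [mW z hz]; exact le_mul_of_one_le_right (m0 z) (s1 z)
    · have := single_le_sum (fun z _ => m0 z) (mem_univ z)
      have := div_nonneg (c0 z) κ0.le
      rw [mO z hz]; linarith
  obtain ⟨B, hB⟩ : ∃ B : ι → ι → ℝ, B = fun z x =>
    if W z then A z x / s z else (if W x then μ z * A z x else 0) / m z := ⟨_, rfl⟩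
  have BW : ∀ z, W z → ∀ x, B z x = A z x / s z := fun z hz x => by simp [hB, hz]
  have BO : ∀ z, ¬ W z → ∀ x, B z x = (if W x then μ z * A z x else 0) / m z :=
    fun z hz x => by simp only [hB, hz, if_false]
  have B0 : ∀ z x, 0 ≤ B z x := fun z x => by
    by_cases hz : W z
    · rw [BW z hz]; exact div_nonneg (h0 _ _) (s0 z).le
    · rw [BO z hz]
      exact div_nonneg (ite_nonneg (mul_nonneg (m0 _) (h0 _ _)) le_rfl) (mp z hz).le
  have B1 : ∀ z, ¬ W z → ∑ x, B z x ≤ κ := fun z hz => by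
    simp only [BO z hz, ← sum_div]
    rw [div_le_iff₀ (mp z hz), mO z hz, mul_add, mul_div_cancel₀ _ κ0.ne', hc]
    linarith
  have B2 : ∀ z, ∑ x, B z x ≤ 1 := fun z => by
    by_cases hz : W z
    · simp only [BW z hz, ← sum_div, h1]
      exact (div_le_one (s0 z)).2 (s1 z)
    · linarith [B1 z hz]
  have mB : ∀ z x, m z * B z x = μ z * A z x * if W z ∨ W x then 1 else 0 := fun z x => by
    by_cases hz : W z
    · have := (s0 z).ne'
      rw [mW z hz, BW z hz, if_pos (Or.inl hz)]; field_simp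
    · rw [BO z hz, mul_div_cancel₀ _ (mp z hz).ne']
      simp [hz]
  let A' : Matrix ι ι ℝ := fun z x => B z x + if z = x then 1 - ∑ y, B z y else 0
  have e0 : ∀ i j, 0 ≤ A' i j := fun i j =>
    add_nonneg (B0 i j) (ite_nonneg (sub_nonneg.2 (B2 i)) le_rfl)
  have eU : ∀ (U : ι → ℝ) z, ∑ x, A' z x * U x = ∑ x, B z x * U x + (1 - ∑ y, B z y) * U z := by
    intro U z
    simp [A', add_mul, sum_add_distrib]
  have e1 : ∀ i, ∑ j, A' i j = 1 := fun i => by simpa using eU (fun _ => 1) i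
  obtain ⟨R', q0, q1, q2⟩ := resolv e0 (fun i => (e1 i).le) b0 b1
  have Q1 := res_one e0 e1 b0 b1 q1
  have en := q2 _ _ (H.un (fun i => (m0 i).trans (mμ i))
    (lt_of_lt_of_le (by rw [m1]; norm_num) (sum_le_sum fun i _ => mμ i)) e0 e1 fun i j => by
      by_cases hij : i = j
      · rw [hij]
      · simp only [A', hij, Ne.symm hij, if_false, add_zero, mB, hr i j, or_comm])
  have ee : ∑ i, ∑ j, m i * A' i j * d i j ^ 2 =
      ∑ i, ∑ j, μ i * A i j * (if W i ∨ W j then d i j ^ 2 else 0) := by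
    refine sum_congr rfl fun i _ => sum_congr rfl fun j _ => ?_
    by_cases hij : i = j
    · simp [hij, d1]
    · simp only [A', hij, if_false, add_zero, mB]; split_ifs <;> simp
  rw [ee, ← hα] at en
  have key : ∀ y, n y ≠ 0 → a ^ 2 ≤ 32 * ∑ x, R' y x * d y x ^ 2 + 4 * a * Θ y := by
    intro y hy
    obtain ⟨v, hv⟩ : ∃ v : ι → ℝ, v = fun z => ∑ x, R z x * d x y := ⟨_, rfl⟩
    obtain ⟨u, hu⟩ : ∃ u : ι → ℝ, u = fun z => ∑ x, R' z x * d x y := ⟨_, rfl⟩
    have v0 : ∀ z, 0 ≤ v z := fun z => by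
      rw [hv]; exact sum_nonneg fun x _ => mul_nonneg (r0 _ _) (d0 _ _)
    have v1 : ∀ z, v z ≤ ∑ x, R z x * d z x + d z y := fun z => by
      rw [hv, ← one_mul (d z y), ← R1 z, sum_mul, ← sum_add_distrib]
      refine sum_le_sum fun x _ => ?_
      rw [← mul_add, d2 z x]
      exact mul_le_mul_of_nonneg_left (d3 _ _ _) (r0 _ _)
    have v2 : ∀ z, v z = α * d z y + β * ∑ k, A z k * v k := fun z => by
      rw [hv, hα]; exact r1 _ z
    have u2 : ∀ z, u z = α * d z y + β * ∑ k, A' z k * u k := fun z => by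
      rw [hu, hα]; exact q1 _ z
    have D := maxp e0 (fun i => (e1 i).le) b0 b1 (fun z => 2 * u z + (P z + 3 * a / 8 - v z))
      (fun z => by
        have f1 : ∑ j, A' z j * (2 * u j + (P j + 3 * a / 8 - v j)) = 2 * ∑ j, A' z j * u j +
            (∑ j, B z j * (P j - v j) + (1 - ∑ y, B z y) * (P z - v z)) + 3 * a / 8 := by
          have : 3 * a / 8 = ∑ j, A' z j * (3 * a / 8) := by rw [← sum_mul, e1, one_mul]
          conv_rhs => rw [← eU, this, mul_sum, ← sum_add_distrib, ← sum_add_distrib]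
          exact sum_congr rfl fun j _ => by ring
        rw [f1]
        have g0 := d0 z y
        suffices β * (∑ j, B z j * (P j - v j) + (1 - ∑ y, B z y) * (P z - v z)) ≤
            2 * α * d z y + (P z - v z) + α * (3 * a / 8) by
          have := u2 z
          subst hα
          linarith
        by_cases hz : W z
        · have f2 : ∑ j, B z j * (P j - v j) =
              (a / 4 * ∑ j, A z j * h j + ∑ j, A z j * Θ j - ∑ j, A z j * v j) / s z := by
            rw [mul_sum, ← sum_add_distrib, ← sum_sub_distrib, sum_div]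
            exact sum_congr rfl fun j _ => by rw [BW z hz, hP]; ring
          have f3 : ∑ y, B z y = 1 / s z := by simp only [BW z hz, ← sum_div, h1]
          have f4 : n z * v z ≤ n z * (2 * a + d z y) := by
            by_cases hz2 : n z = 0
            · simp [hz2]
            · exact mul_le_mul_of_nonneg_left (by linarith [v1 z, (nL z hz2).2.2]) (n0 z)
          have f5 : α * (s z - 1) = n z / 8 := by rw [hs]; field_simp; ring
          apply le_of_mul_le_mul_left _ (s0 z)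
          rw [f2, f3]
          have f6 : s z * (β * ((a / 4 * ∑ j, A z j * h j + ∑ j, A z j * Θ j -
              ∑ j, A z j * v j) / s z + (1 - 1 / s z) * (P z - v z))) =
              a / 4 * (h z - n z) + β * ∑ j, A z j * Θ j - (v z - α * d z y) +
                (1 - α) * (s z - 1) * (P z - v z) := by
            have := (s0 z).ne'
            rw [hn z, hα]
            have := v2 z
            rw [hα] at this
            field_simp
            linear_combination (4 : ℝ) * this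
          have f7 : P z = a / 4 * h z + Θ z := by rw [hP]
          have f8 := mul_nonneg (n0 z) (P0 z)
          have f9 := mul_nonneg (n0 z) g0
          have f10 := mul_nonneg α0.le g0
          have f11 : 0 ≤ s z * (α * (3 * a / 8)) := by have := s0 z; positivity
          rw [f6]
          have f12 : s z * (2 * α * d z y + (P z - v z) + α * (3 * a / 8)) =
              2 * α * d z y + n z / 4 * d z y + (P z - v z) + (1 - α) * (s z - 1) * (P z - v z) +
                n z / 8 * (P z - v z) + s z * (α * (3 * a / 8)) := by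
            linear_combination (2 * d z y + (P z - v z)) * f5
          rw [f12]
          linarith [t1 z]
        · have f2 : ∑ j, B z j * (P j - v j) ≤ (∑ j, B z j) * S := by
            rw [sum_mul]
            exact sum_le_sum fun j _ => mul_le_mul_of_nonneg_left
              (by linarith [hS j, v0 j]) (B0 _ _)
          have f3 := B1 z hz
          have f4 : 0 ≤ ∑ j, B z j := sum_nonneg fun j _ => B0 _ _
          generalize ∑ j, B z j * (P j - v j) = X at f2 ⊢
          generalize ∑ j, B z j = b at f2 f3 f4 ⊢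
          have f5 : X - b * (P z - v z) ≤ α * (a / 8) + α * v z := by
            nlinarith [mul_nonneg f4 (P0 z), mul_le_mul_of_nonneg_right f3 S0,
              mul_le_mul_of_nonneg_right (f3.trans κ1) (v0 z)]
          have f6 : β * (X - b * (P z - v z)) ≤ α * (a / 8) + α * v z := by
            have : 0 ≤ α * (a / 8) + α * v z := by have := v0 z; positivity
            nlinarith [mul_le_mul_of_nonneg_left f5 b0]
          have f7 : Θ z ≤ P z := by
            rw [hP]; exact le_add_of_nonneg_left (mul_nonneg (by positivity) (p0 z))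
          have f8 : 2 * v z ≤ 2 * d z y + a / 4 + P z := by linarith [v1 z, off z hz]
          have f9 := mul_le_mul_of_nonneg_left f8 α0.le
          subst hα
          linarith) y
    have k1 : 2 * u y ≤ a / 8 + 8 / a * ∑ x, R' y x * d y x ^ 2 := by
      rw [hu, ← one_mul (a / 8), ← Q1 y, mul_sum, sum_mul, mul_sum, ← sum_add_distrib]
      refine sum_le_sum fun x _ => ?_
      have : 2 * d y x ≤ a / 8 + 8 / a * d y x ^ 2 := by
        have : 0 ≤ (a - 8 * d y x) ^ 2 / (8 * a) := by positivity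
        refine sub_nonneg.1 (this.trans_eq ?_)
        field_simp; ring
      rw [d2 x y]
      nlinarith [mul_le_mul_of_nonneg_left this (q0 y x)]
    have k2 : a ≤ v y := by rw [hv]; simpa only [d2 y] using (nL y hy).2.1
    have k3 : P y ≤ a / 4 + Θ y := by
      rw [hP]; exact add_le_add_left (mul_le_of_le_one_right (by positivity) (p1 y)) _
    have k4 : a / 4 ≤ 8 / a * ∑ x, R' y x * d y x ^ 2 + Θ y := by linarith
    have k5 := mul_le_mul_of_nonneg_left k4 (by positivity : 0 ≤ 4 * a)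
    rw [mul_add, ← mul_assoc, show 4 * a * (8 / a) = 32 by field_simp; norm_num] at k5
    linarith
  have fin : ∀ y, a ^ 2 * (μ y * n y) ≤
      256 * α * ∑ x, R' y x * (m y * d y x ^ 2) + 4 * a * (μ y * n y * Θ y) := by
    intro y
    have Q0 : 0 ≤ ∑ x, R' y x * d y x ^ 2 := sum_nonneg fun x _ => mul_nonneg (q0 _ _) (sq_nonneg _)
    simp only [mul_left_comm _ (m y), ← mul_sum]
    by_cases hy : n y = 0
    · have := (m0 y).trans (mμ y)
      simp only [hy, mul_zero, zero_mul, add_zero]; positivity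
    · have k1 := mul_le_mul_of_nonneg_left (key y hy) (mul_nonneg (m0 y) (n0 y))
      have k2 : μ y * n y ≤ 8 * α * m y := by
        rw [mW y (nL y hy).1, hs]
        have := mul_nonneg α0.le (m0 y)
        have e : 8 * α * (μ y * (1 + n y / (8 * α))) = 8 * (α * μ y) + μ y * n y := by field_simp
        linarith
      nlinarith [mul_le_mul_of_nonneg_right k2 Q0]
  have := sum_le_sum fun y (_ : y ∈ univ) => fin y
  rw [sum_add_distrib, ← mul_sum, ← mul_sum, ← mul_sum] at this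
  have en2 := mul_le_mul_of_nonneg_left en (by positivity : 0 ≤ 256 * α)
  refine this.trans (add_le_add_left (en2.trans_eq ?_) _)
  field_simp

end Pool.Agent.H63.Mark
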