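import Pool.Agent.H63.Mark2

set_option autoImplicit false
open Finset

namespace Pool.Agent.H63.Mark
variable {ι : Type*} [Fintype ι] [DecidableEq ι]

theorem exists_lev {ε : ℝ} (hε : 0 < ε) (r : ℝ) :
    ∃ l : ℕ, r < ε * 2 ^ (l + 1) ∧ (l = 0 ∨ ε * 2 ^ l ≤ r) := by
  classical
  have ex : ∃ l : ℕ, r < ε * 2 ^ (l + 1) := by
    obtain ⟨l, hl⟩ := pow_unbounded_of_one_lt (r / ε) (one_lt_two (α := ℝ))
    refine ⟨l, ?_⟩
    rw [div_lt_iff₀' hε] at hl
    have : 0 < ε * 2 ^ l := by positivity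
    rw [pow_succ]; linarith
  refine ⟨Nat.find ex, Nat.find_spec ex, ?_⟩
  rcases h : Nat.find ex with _ | k
  · exact Or.inl rfl
  · exact Or.inr (not_lt.1 (Nat.find_min ex (m := k) (by omega)))

theorem geo {ε a : ℝ} (hε : 0 < ε) (ha : 0 ≤ a) (N : ℕ) :
    ∑ k ∈ range N, (if ε * 2 ^ k ≤ a then ε * 2 ^ k else 0) ≤ 2 * a := by
  suffices ∑ k ∈ range N, (if ε * 2 ^ k ≤ a then ε * 2 ^ k else 0) ≤ 2 * a ∧
    ∑ k ∈ range N, (if ε * 2 ^ k ≤ a then ε * 2 ^ k else 0) ≤ ε * 2 ^ N from this.1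
  induction N with
  | zero => simp; constructor <;> linarith
  | succ N ih =>
    have : 0 < ε * 2 ^ N := by positivity
    rw [sum_range_succ, pow_succ]
    split_ifs with h <;> constructor <;> linarith [ih.1, ih.2]

theorem cnt (l N : ℕ) {x : ℝ} (hx : 0 ≤ x) :
    ∑ k ∈ range N, (if k ≤ l + 3 ∧ l < k + 6 then x else 0) ≤ 9 * x := by
  rw [← sum_filter, sum_const, nsmul_eq_mul]
  have : ((range N).filter fun k => k ≤ l + 3 ∧ l < k + 6).card ≤ 9 :=
    (card_le_card (t := Icc (l - 5) (l + 3)) fun k hk => by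
      simp only [mem_filter, mem_Icc] at hk ⊢; omega).trans (by simp; omega)
  gcongr
  exact_mod_cast this

theorem lev_bound {ε r : ℝ} (hε : 0 < ε) (r0 : 0 ≤ r) {l N : ℕ} (hN : l < N)
    (h1 : r < ε * 2 ^ (l + 1)) (p : ℕ → Prop) [DecidablePred p] (h2 : l = 0 ∨ p l) :
    r ^ 2 ≤ 4 * ε ^ 2 + ∑ k ∈ range N, 4 * (ε * 2 ^ k) ^ 2 * if p k then 1 else 0 := by
  have a := pow_le_pow_left₀ r0 h1.le 2
  have n0 : ∀ k ∈ range N, (0 : ℝ) ≤ 4 * (ε * 2 ^ k) ^ 2 * if p k then 1 else 0 :=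
    fun k _ => by split_ifs <;> positivity
  rcases h2 with rfl | h2
  · have := sum_nonneg n0
    norm_num at a
    linarith
  · have := single_le_sum n0 (mem_range.2 hN)
    rw [if_pos h2] at this
    rw [pow_succ 2] at a
    nlinarith

theorem symm_sum {μ : ι → ℝ} {A : Matrix ι ι ℝ} (hr : ∀ i j, μ i * A i j = μ j * A j i)
    (f g : ι → ℝ) : ∑ i, μ i * (∑ j, A i j * f j) * g i = ∑ i, μ i * (∑ j, A i j * g j) * f i := by
  simp only [mul_sum, sum_mul]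
  rw [sum_comm]
  exact sum_congr rfl fun i _ => sum_congr rfl fun j _ => by
    linear_combination (f i * g j) * hr j i

open Classical in
theorem layers {d : ι → ι → ℝ} {M : ℝ} (M0 : 0 ≤ M) (H : MT d M) (d0 : ∀ i j, 0 ≤ d i j)
    (d1 : ∀ i, d i i = 0) (d2 : ∀ i j, d i j = d j i) (d3 : ∀ i j k, d i k ≤ d i j + d j k)
    {μ : ι → ℝ} {A R : Matrix ι ι ℝ} (m0 : ∀ i, 0 ≤ μ i) (m1 : ∑ i, μ i = 1)
    (h0 : ∀ i j, 0 ≤ A i j) (h1 : ∀ i, ∑ j, A i j = 1) (hr : ∀ i j, μ i * A i j = μ j * A j i)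
    {β : ℝ} (b0 : 0 ≤ β) (b1 : β < 1) (r0 : ∀ i j, 0 ≤ R i j)
    (r1 : ∀ (g : ι → ℝ) i, ∑ j, R i j * g j = (1 - β) * g i + β * ∑ k, A i k * ∑ j, R k j * g j)
    {ε : ℝ} (hε : 0 < ε) : ∃ (N : ℕ) (h : ℕ → ι → ℝ), (∀ k i, 0 ≤ h k i) ∧
      (∀ k i, β * ∑ j, A i j * h k j ≤ h k i) ∧
      (∀ y, (∑ x, R y x * d y x) ^ 2 ≤
        4 * ε ^ 2 + ∑ k ∈ range N, 4 * (ε * 2 ^ k) ^ 2 * if 1 ≤ h k y then 1 else 0) ∧
      (1 - β) * ∑ k ∈ range N, (ε * 2 ^ k) ^ 2 * ∑ i, μ i * h k i ≤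
        9216 * M * β * ∑ i, ∑ j, μ i * A i j * d i j ^ 2 := by
  choose l l1 l2 using fun y => exists_lev hε (∑ x, R y x * d y x)
  obtain ⟨N, hN⟩ : ∃ N, ∀ y, l y < N :=
    ⟨∑ y, l y + 1, fun y => Nat.lt_succ_of_le (single_le_sum (fun _ _ => Nat.zero_le _) (mem_univ y))⟩
  choose h p0 p1 p2 p3 p4 using fun k =>
    equil h0 h1 b0 b1 fun y => l y = k ∧ ε * 2 ^ k ≤ ∑ x, R y x * d y x
  refine ⟨N, h, p0, p4, fun y => lev_bound hε (sum_nonneg fun x _ => mul_nonneg (r0 _ _) (d0 _ _))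
    (hN y) (l1 y) _ ((l2 y).imp_right fun hh => (p2 _ y ⟨rfl, hh⟩).ge), ?_⟩
  obtain ⟨n, hn⟩ : ∃ n : ℕ → ι → ℝ, ∀ k i, n k i = h k i - β * ∑ j, A i j * h k j :=
    ⟨_, fun _ _ => rfl⟩
  have n0 : ∀ k i, 0 ≤ n k i := fun k i => by rw [hn]; exact sub_nonneg.2 (p4 k i)
  obtain ⟨p, hp⟩ : ∃ p : ℕ → ℝ, ∀ k, p k = ∑ i, μ i * n k i := ⟨_, fun _ => rfl⟩
  have pn : ∀ k, 0 ≤ p k := fun k => by
    rw [hp]; exact sum_nonneg fun i _ => mul_nonneg (m0 i) (n0 k i)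
  have s1 : ∀ k, (1 - β) * ∑ i, μ i * h k i = p k := by
    intro k
    have := symm_sum hr (h k) fun _ => 1
    simp only [mul_one, h1] at this
    simp only [hp, hn, mul_sub, sum_sub_distrib, mul_left_comm _ β, ← mul_sum, this]
    ring
  have s2 : ∀ k j, ∑ i, μ i * n k i * h j i ≤ p j := by
    intro k j
    have : ∑ i, μ i * n k i * h j i = ∑ i, μ i * n j i * h k i := by
      have := symm_sum hr (h k) (h j)
      simp only [hn, mul_sub, sub_mul, sum_sub_distrib, mul_left_comm _ β, mul_assoc β, ← mul_sum,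
        this]
      congr 1
      exact sum_congr rfl fun i _ => by ring
    rw [this, hp]
    exact sum_le_sum fun i _ => mul_le_of_le_one_right (mul_nonneg (m0 i) (n0 j i)) (p1 k i)
  have c0 : ∀ k j, (0 : ℝ) ≤ if k + 6 ≤ j then 4 * (ε * 2 ^ j) else 0 :=
    fun k j => by split_ifs <;> positivity
  have key : ∀ k, (ε * 2 ^ k) ^ 2 * p k ≤ 256 * M * β * (∑ i, ∑ j, μ i * A i j *
      (if (k ≤ l i + 3 ∧ l i < k + 6) ∨ (k ≤ l j + 3 ∧ l j < k + 6) then d i j ^ 2 else 0)) +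
      ∑ j ∈ range N, 16 * (ε * 2 ^ j) * p j *
        (if ε * 2 ^ k ≤ ε * 2 ^ j / 64 then ε * 2 ^ k else 0) := by
    intro k
    have := layer H d0 d1 d2 d3 m0 m1 h0 h1 hr b0 b1 r0 r1 (fun y => k ≤ l y + 3 ∧ l y < k + 6)
      (n := n k) (h := h k) (a := ε * 2 ^ k)
      (Θ := fun y => ∑ j ∈ range N, (if k + 6 ≤ j then 4 * (ε * 2 ^ j) else 0) * h j y)
      (by positivity) (hn k) (n0 k) (p0 k) (p1 k) (fun i hi => by
        have : l i = k ∧ ε * 2 ^ k ≤ ∑ x, R i x * d i x := by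
          by_contra hh
          exact hi (by rw [hn, ← p3 k i hh, sub_self])
        have h2 := l1 i
        rw [this.1, pow_succ] at h2
        exact ⟨by omega, this.2, by linarith⟩)
      (fun i => sum_nonneg fun j _ => mul_nonneg (c0 k j) (p0 j i))
      (fun i => by
        simp only [mul_sum (range N)]
        rw [sum_comm, mul_sum]
        refine sum_le_sum fun j _ => ?_
        simp only [mul_left_comm (A _ _), ← mul_sum]
        rw [mul_left_comm]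
        exact mul_le_mul_of_nonneg_left (p4 j i) (c0 k j))
      (fun z hz => by
        have t0 : ∀ j ∈ range N, 0 ≤ (if k + 6 ≤ j then 4 * (ε * 2 ^ j) else 0) * h j z :=
          fun j _ => mul_nonneg (c0 k j) (p0 j z)
        have h2 := l1 z
        by_cases hk : k + 6 ≤ l z
        · have := single_le_sum t0 (mem_range.2 (hN z))
          rw [if_pos hk, p2 _ z ⟨rfl, (l2 z).resolve_left (by omega)⟩] at this
          have : 0 < ε * 2 ^ k := by positivity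
          rw [pow_succ] at h2
          linarith
        · have := sum_nonneg t0
          have : ε * 2 ^ (l z + 1 + 3) ≤ ε * 2 ^ k := by gcongr; exacts [one_le_two, by omega]
          rw [pow_add] at this
          linarith)
    rw [← hp] at this
    refine this.trans (add_le_add_right ?_ _)
    simp only [mul_sum (range N)]
    rw [sum_comm, mul_sum]
    refine sum_le_sum fun j _ => ?_
    simp only [mul_left_comm (μ _ * _), ← mul_sum]
    have := pn j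
    split_ifs with h2 h3
    · have := mul_le_mul_of_nonneg_left (s2 k j) (by positivity : 0 ≤ 16 * (ε * 2 ^ j) * (ε * 2 ^ k))
      linarith
    · have : ε * 2 ^ (k + 6) ≤ ε * 2 ^ j := by gcongr; exact one_le_two
      rw [pow_add] at this
      exact absurd (by linarith) h3
    · simp only [zero_mul, mul_zero]; positivity
    · simp
  have tot := sum_le_sum fun k (_ : k ∈ range N) => key k
  rw [sum_add_distrib, ← mul_sum, sum_comm (s := range N) (t := range N)] at tot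
  have a1 : ∑ j ∈ range N, ∑ k ∈ range N, 16 * (ε * 2 ^ j) * p j *
      (if ε * 2 ^ k ≤ ε * 2 ^ j / 64 then ε * 2 ^ k else 0) ≤
      ∑ j ∈ range N, (ε * 2 ^ j) ^ 2 * p j / 2 := by
    refine sum_le_sum fun j _ => ?_
    have := pn j
    have := mul_le_mul_of_nonneg_left (geo hε (by positivity : 0 ≤ ε * 2 ^ j / 64) N)
      (by positivity : 0 ≤ 16 * (ε * 2 ^ j) * p j)
    rw [← mul_sum]; linarith
  have a2 : ∑ k ∈ range N, ∑ i, ∑ j, μ i * A i j *
      (if (k ≤ l i + 3 ∧ l i < k + 6) ∨ (k ≤ l j + 3 ∧ l j < k + 6) then d i j ^ 2 else 0) ≤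
      18 * ∑ i, ∑ j, μ i * A i j * d i j ^ 2 := by
    rw [sum_comm, mul_sum]
    refine sum_le_sum fun i _ => ?_
    rw [sum_comm, mul_sum]
    refine sum_le_sum fun j _ => ?_
    rw [← mul_sum, mul_left_comm]
    refine mul_le_mul_of_nonneg_left ?_ (mul_nonneg (m0 i) (h0 i j))
    have e0 := sq_nonneg (d i j)
    refine le_trans (sum_le_sum fun k _ => ?_) (((sum_add_distrib).trans_le
      (add_le_add (cnt (l i) N e0) (cnt (l j) N e0))).trans_eq (by ring))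
    by_cases h2 : k ≤ l i + 3 ∧ l i < k + 6 <;> by_cases h3 : k ≤ l j + 3 ∧ l j < k + 6 <;>
      simp only [h2, h3, if_true, if_false, or_self, true_or, or_true, and_self] <;> linarith
  have a3 := mul_le_mul_of_nonneg_left a2 (by positivity : 0 ≤ 256 * M * β)
  rw [← sum_div] at a1
  have : (1 - β) * ∑ k ∈ range N, (ε * 2 ^ k) ^ 2 * ∑ i, μ i * h k i =
      ∑ k ∈ range N, (ε * 2 ^ k) ^ 2 * p k := by
    rw [mul_sum]; exact sum_congr rfl fun k _ => by rw [← s1]; ring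
  linarith

open Classical in
theorem PL {A : Matrix ι ι ℝ} (h0 : ∀ i j, 0 ≤ A i j) (h1 : ∀ i, ∑ j, A i j = 1) {β : ℝ}
    (b0 : 0 ≤ β) (b1 : β ≤ 1) (t : ℕ) {ν : ι → ℝ} (hν : ∀ i, 0 ≤ ν i) {N : ℕ} {c : ℕ → ℝ}
    (c0 : ∀ k, 0 ≤ c k) {h : ℕ → ι → ℝ} (p : ∀ k i, 0 ≤ h k i)
    (ex : ∀ k i, β * ∑ j, A i j * h k j ≤ h k i) {e : ℝ} (e0 : 0 ≤ e) {Φ : ι → ℝ}
    (hΦ : ∀ y, Φ y ≤ e + ∑ k ∈ range N, c k * if 1 ≤ h k y then 1 else 0) :
    β ^ t * PS A t ν (fun w => ⨆ s, Φ (w s)) ≤ e * ∑ i, ν i + ∑ k ∈ range N, c k * ∑ i, ν i * h k i := by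
  have a := PS_mono h0 hν (t := t) (F := fun w => ⨆ s, Φ (w s))
    (G := fun w => e * 1 + ∑ k ∈ range N, c k * if ∃ s, 1 ≤ h k (w s) then 1 else 0) fun w =>
      ciSup_le fun s => (hΦ _).trans (by
        rw [mul_one]
        refine add_le_add_right (sum_le_sum fun k _ => mul_le_mul_of_nonneg_left ?_ (c0 k)) _
        split_ifs with a b
        exacts [le_rfl, absurd ⟨s, a⟩ b, zero_le_one, le_rfl])
  have b : PS A t ν (fun w => e * 1 + ∑ k ∈ range N, c k * if ∃ s, 1 ≤ h k (w s) then 1 else 0) =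
      e * PS A t ν (fun _ => 1) +
        ∑ k ∈ range N, c k * PS A t ν fun w => if ∃ s, 1 ≤ h k (w s) then 1 else 0 := by
    simp only [PS, mul_add, sum_add_distrib, mul_sum]
    rw [sum_comm]
    congr 1
    · exact sum_congr rfl fun _ _ => by ring
    · exact sum_congr rfl fun _ _ => sum_congr rfl fun _ _ => by ring
  rw [b, PS_one h1] at a
  refine (mul_le_mul_of_nonneg_left a (pow_nonneg b0 t)).trans ?_
  rw [mul_add, mul_sum (range N)]
  refine add_le_add (mul_le_of_le_one_left (mul_nonneg e0 (sum_nonneg fun i _ => hν i))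
    (pow_le_one₀ b0 b1)) (sum_le_sum fun k _ => ?_)
  rw [mul_left_comm]
  exact mul_le_mul_of_nonneg_left (PS_hit h0 h1 b0 b1 (p k) (ex k) t ν hν) (c0 k)

theorem doob {A R : Matrix ι ι ℝ} (h0 : ∀ i j, 0 ≤ A i j) (h1 : ∀ i, ∑ j, A i j = 1) {β : ℝ}
    (b0 : 0 ≤ β) (b1 : β < 1) (r0 : ∀ i j, 0 ≤ R i j)
    (r1 : ∀ (g : ι → ℝ) i, ∑ j, R i j * g j = (1 - β) * g i + β * ∑ k, A i k * ∑ j, R k j * g j)
    (t : ℕ) {ν : ι → ℝ} (hν : ∀ i, 0 ≤ ν i) {g : ι → ℝ} (g0 : ∀ i, 0 ≤ g i) {ε : ℝ} (hε : 0 < ε) :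
    β ^ t * PS A t ν (fun w => ⨆ s, (∑ z, R (w s) z * g z) ^ 2) ≤
      4 * ε ^ 2 * ∑ i, ν i + 32 * ∑ i, ν i * ∑ z, R i z * g z ^ 2 := by
  choose l l1 l2 using fun y => exists_lev hε (∑ z, R y z * g z)
  obtain ⟨N, hN⟩ : ∃ N, ∀ y, l y < N :=
    ⟨∑ y, l y + 1, fun y => Nat.lt_succ_of_le (single_le_sum (fun _ _ => Nat.zero_le _) (mem_univ y))⟩
  have f0 : ∀ k z, 0 ≤ if ε * 2 ^ k ≤ 2 * g z then 2 * g z / (ε * 2 ^ k) else 0 := fun k z => by
    have := g0 z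
    split_ifs <;> positivity
  refine (PL h0 h1 b0 b1.le t hν (N := N) (c := fun k => 4 * (ε * 2 ^ k) ^ 2)
    (fun k => by positivity)
    (h := fun k y => ∑ z, R y z * if ε * 2 ^ k ≤ 2 * g z then 2 * g z / (ε * 2 ^ k) else 0)
    (fun k i => sum_nonneg fun z _ => mul_nonneg (r0 _ _) (f0 k z))
    (fun k i => by
      rw [r1 _ i]; exact le_add_of_nonneg_left (mul_nonneg (by linarith) (f0 k i)))
    (e := 4 * ε ^ 2) (by positivity) (Φ := fun y => (∑ z, R y z * g z) ^ 2) fun y =>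
      lev_bound hε (sum_nonneg fun z _ => mul_nonneg (r0 _ _) (g0 _)) (hN y) (l1 y) _
        ((l2 y).imp_right fun hh => ?_)).trans (add_le_add_right ?_ _)
  · have a0 : 0 < ε * 2 ^ l y := by positivity
    generalize ε * 2 ^ l y = a at hh a0
    have : ∑ z, R y z * (2 * g z / a) ≤
        ∑ z, R y z * ((if a ≤ 2 * g z then 2 * g z / a else 0) + 1) := by
      refine sum_le_sum fun z _ => mul_le_mul_of_nonneg_left ?_ (r0 _ _)
      split_ifs with h
      · linarith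
      · rw [zero_add, div_le_one a0]; linarith
    simp only [mul_add, sum_add_distrib, mul_one, res_one h0 h1 b0 b1 r1] at this
    have e : ∑ z, R y z * (2 * g z / a) = 2 * (∑ z, R y z * g z) / a := by
      rw [mul_sum, sum_div]; exact sum_congr rfl fun z _ => by ring
    have : 2 ≤ 2 * (∑ z, R y z * g z) / a := by rw [le_div_iff₀ a0]; linarith
    linarith
  · simp only [mul_sum]
    rw [sum_comm]
    refine sum_le_sum fun i _ => ?_
    rw [sum_comm]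
    refine sum_le_sum fun z _ => ?_
    have := g0 z
    have := mul_le_mul_of_nonneg_left (geo hε (by positivity : 0 ≤ 2 * g z) N)
      (mul_nonneg (mul_nonneg (hν i) (r0 i z)) (by positivity : 0 ≤ 8 * g z))
    refine le_trans (le_of_eq ?_) (this.trans_eq (by ring))
    rw [mul_sum]
    refine sum_congr rfl fun k _ => ?_
    split_ifs
    · field_simp; ring
    · simp

theorem main {d : ι → ι → ℝ} {M : ℝ} (M0 : 0 ≤ M) (H : MT d M) (d0 : ∀ i j, 0 ≤ d i j)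
    (d1 : ∀ i, d i i = 0) (d2 : ∀ i j, d i j = d j i) (d3 : ∀ i j k, d i k ≤ d i j + d j k)
    {μ : ι → ℝ} {A : Matrix ι ι ℝ} (m0 : ∀ i, 0 ≤ μ i) (m1 : ∑ i, μ i = 1)
    (h0 : ∀ i j, 0 ≤ A i j) (h1 : ∀ i, ∑ j, A i j = 1) (hr : ∀ i j, μ i * A i j = μ j * A j i)
    (t : ℕ) : PS A t μ (fun w => ⨆ s, d (w s) (w 0) ^ 2) ≤
      1000000 * M * t * ∑ i, ∑ j, μ i * A i j * d i j ^ 2 := by
  obtain ⟨β, b0, b1, b2, b3⟩ : ∃ β : ℝ, 0 ≤ β ∧ β < 1 ∧ β = 2 * t * (1 - β) ∧ 1 / 2 ≤ β ^ t := by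
    have : (0 : ℝ) < 2 * t + 1 := by positivity
    have a : (2 * t + 1 : ℝ)⁻¹ ≤ 1 := inv_le_one_of_one_le₀ (by linarith [Nat.cast_nonneg (α := ℝ) t])
    refine ⟨1 + -(2 * t + 1 : ℝ)⁻¹, by linarith, by simpa using this, by field_simp; ring,
      le_trans ?_ (one_add_mul_le_pow (by linarith) t)⟩
    have : t * (2 * t + 1 : ℝ)⁻¹ ≤ 1 / 2 := by rw [← div_eq_mul_inv, div_le_iff₀ this]; linarith
    linarith
  obtain ⟨R, r0, r1, r2⟩ := resolv h0 (fun i => (h1 i).le) b0 b1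
  obtain ⟨E, hE⟩ : ∃ E, E = ∑ i, ∑ j, μ i * A i j * d i j ^ 2 := ⟨_, rfl⟩
  have E0 : 0 ≤ E := hE ▸ sum_nonneg fun i _ => sum_nonneg fun j _ =>
    mul_nonneg (mul_nonneg (m0 i) (h0 i j)) (sq_nonneg _)
  have α0 : 0 < 1 - β := by linarith
  have en := r2 _ _ (H.un m0 (by rw [m1]; norm_num) h0 h1 hr)
  rw [← hE, show β / (1 - β) = 2 * t by rw [div_eq_iff α0.ne']; exact b2] at en
  rw [← hE]
  refine le_of_forall_pos_le_add fun δ hδ => ?_
  obtain ⟨ε, hε, e2⟩ : ∃ ε : ℝ, 0 < ε ∧ ε ^ 2 = δ / 32 :=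
    ⟨√(δ / 32), by positivity, Real.sq_sqrt (by positivity)⟩
  obtain ⟨N, h, p0, p1, p2, p3⟩ := layers M0 H d0 d1 d2 d3 m0 m1 h0 h1 hr b0 b1 r0 r1 hε
  have a1 := PL h0 h1 b0 b1.le t m0 (fun k => by positivity) p0 p1 (by positivity) p2
  have a2 : ∑ k ∈ range N, (ε * 2 ^ k) ^ 2 * ∑ i, μ i * h k i ≤ 18432 * M * t * E := by
    apply le_of_mul_le_mul_left _ α0
    rw [← hE] at p3
    refine p3.trans_eq ?_
    linear_combination (9216 * M * E) * b2
  simp only [mul_assoc (4 : ℝ), ← mul_sum, m1] at a1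
  have a3 := sum_le_sum fun x (_ : x ∈ univ) => doob h0 h1 b0 b1 r0 r1 t
    (ν := fun y => if y = x then μ x else 0) (fun i => ite_nonneg (m0 x) le_rfl)
    (g := fun z => d x z) (d0 x) hε
  simp only [ite_mul, zero_mul, sum_ite_eq', mem_univ, if_true, sum_add_distrib, ← mul_sum,
    m1] at a3
  simp only [mul_left_comm _ (μ _), ← mul_sum] at en
  have a4 : ∑ x, PS A t (fun y => if y = x then μ x else 0)
      (fun w => ⨆ s, (∑ z, R (w s) z * d x z) ^ 2) =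
      PS A t μ fun w => ⨆ s, (∑ z, R (w s) z * d (w 0) z) ^ 2 := by
    simp only [PS]
    rw [sum_comm]
    simp
  have a5 := PS_mono h0 m0 (t := t) (F := fun w => ⨆ s, d (w s) (w 0) ^ 2)
    (G := fun w => 2 * (⨆ s, (∑ x, R (w s) x * d (w s) x) ^ 2) +
      2 * ⨆ s, (∑ z, R (w s) z * d (w 0) z) ^ 2) fun w => ciSup_le fun s => by
    have k1 := le_ciSup (Finite.bddAbove_range fun s => (∑ x, R (w s) x * d (w s) x) ^ 2) s
    have k2 := le_ciSup (Finite.bddAbove_range fun s => (∑ x, R (w s) x * d (w 0) x) ^ 2) s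
    have k3 : d (w s) (w 0) ≤ ∑ x, R (w s) x * d (w s) x + ∑ x, R (w s) x * d (w 0) x := by
      rw [← one_mul (d _ _), ← res_one h0 h1 b0 b1 r1 (w s), sum_mul, ← sum_add_distrib]
      refine sum_le_sum fun x _ => ?_
      rw [← mul_add, d2 (w 0) x]
      exact mul_le_mul_of_nonneg_left (d3 _ _ _) (r0 _ _)
    nlinarith [pow_le_pow_left₀ (d0 _ _) k3 2,
      sq_nonneg (∑ x, R (w s) x * d (w s) x - ∑ x, R (w s) x * d (w 0) x)]
  have a6 : ∀ F G, PS A t μ (fun w => 2 * F w + 2 * G w) = 2 * PS A t μ F + 2 * PS A t μ G := by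
    intro F G
    simp only [PS, mul_add, sum_add_distrib, mul_sum]
    congr 1 <;> exact sum_congr rfl fun _ _ => by ring
  rw [a6] at a5
  rw [a4] at a3
  have a7 : 0 ≤ PS A t μ (fun w => ⨆ s, d (w s) (w 0) ^ 2) := by
    have := PS_mono h0 m0 (t := t) (F := fun _ => 0) (G := fun w => ⨆ s, d (w s) (w 0) ^ 2)
      fun w => Real.iSup_nonneg fun s => sq_nonneg _
    simpa [PS] using this
  have a8 := mul_le_mul_of_nonneg_left a5 (pow_nonneg b0 t)
  have a9 := mul_le_mul_of_nonneg_right b3 a7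
  have : 0 ≤ M * t * E := by positivity
  linarith

end Pool.Agent.H63.Mark
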