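import Mathlib

namespace H63.Mum

/-- the finite group `(Z/q^8)^2 × (Z/q^4)^2` -/
abbrev Kq (q : ℕ) := ZMod (q ^ 8) × ZMod (q ^ 8) × ZMod (q ^ 4) × ZMod (q ^ 4)

def mk4 (q : ℕ) (a b c d : ℤ) : Kq q :=
  ((a : ZMod (q ^ 8)), (b : ZMod (q ^ 8)), (c : ZMod (q ^ 4)), (d : ZMod (q ^ 4)))

theorem mk4_surj {q : ℕ} (x : Kq q) : ∃ a b c d : ℤ, x = mk4 q a b c d := by
  obtain ⟨x1, x2, x3, x4⟩ := x
  obtain ⟨a, rfl⟩ := ZMod.intCast_surjective x1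
  obtain ⟨b, rfl⟩ := ZMod.intCast_surjective x2
  obtain ⟨c, rfl⟩ := ZMod.intCast_surjective x3
  obtain ⟨d, rfl⟩ := ZMod.intCast_surjective x4
  exact ⟨a, b, c, d, rfl⟩

theorem mk4_decomp (q : ℕ) (a b c d : ℤ) :
    mk4 q a b c d = a • mk4 q 1 0 0 0 + b • mk4 q 0 1 0 0 + c • mk4 q 0 0 1 0
      + d • mk4 q 0 0 0 1 := by
  simp [mk4]

theorem mk4_eq_zero {q : ℕ} {a b c d : ℤ} :
    mk4 q a b c d = 0 ↔ (q : ℤ) ^ 8 ∣ a ∧ (q : ℤ) ^ 8 ∣ b ∧ (q : ℤ) ^ 4 ∣ c ∧ (q : ℤ) ^ 4 ∣ d := by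
  simp [mk4, Prod.ext_iff, ZMod.intCast_zmod_eq_zero_iff_dvd]

theorem smul_mk4 (q : ℕ) (n a b c d : ℤ) :
    n • mk4 q a b c d = mk4 q (n * a) (n * b) (n * c) (n * d) := by
  simp [mk4]

theorem pow8_smul {q : ℕ} (x : Kq q) : ((q : ℤ) ^ 8) • x = 0 := by
  obtain ⟨a, b, c, d, rfl⟩ := mk4_surj x
  rw [smul_mk4, mk4_eq_zero]
  refine ⟨dvd_mul_right _ _, dvd_mul_right _ _, ⟨(q : ℤ) ^ 4 * c, by ring⟩,
    ⟨(q : ℤ) ^ 4 * d, by ring⟩⟩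

variable (q : ℕ) [NeZero q]

noncomputable def ch : ℤ →+ UnitAddCircle :=
  (ZMod.toAddCircle (N := q ^ 8)).comp (Int.castAddHom _)

theorem ch_apply (n : ℤ) : ch q n = ((n / (q : ℝ) ^ 8 : ℝ) : UnitAddCircle) := by
  simp [ch, ZMod.toAddCircle_intCast]

theorem ch_eq_zero {n : ℤ} : ch q n = 0 ↔ (q : ℤ) ^ 8 ∣ n := by
  simp [ch, ZMod.intCast_zmod_eq_zero_iff_dvd]

theorem circ4 (n : ℤ) :
    ZMod.toAddCircle ((n : ℤ) : ZMod (q ^ 4)) = ch q ((q : ℤ) ^ 4 * n) := by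
  rw [ch_apply, ZMod.toAddCircle_intCast]
  have : (q : ℝ) ≠ 0 := by exact_mod_cast NeZero.ne q
  congr 1
  push_cast
  field_simp

noncomputable def ef (x y : Kq q) : UnitAddCircle :=
  ZMod.toAddCircle (x.1 * y.2.1 - x.2.1 * y.1) +
    ZMod.toAddCircle (x.2.2.1 * y.2.2.2 - x.2.2.2 * y.2.2.1)

/-- the symplectic form -/
noncomputable def e : Kq q →+ Kq q →+ UnitAddCircle :=
  AddMonoidHom.mk' (fun x => AddMonoidHom.mk' (fun y => ef q x y) (by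
    intro y z
    simp only [ef, Prod.fst_add, Prod.snd_add, mul_add, map_add, map_sub]
    abel)) (by
    intro x y
    ext z
    all_goals simp [ef, add_mul, map_add, map_sub]
    all_goals abel)

theorem e_apply (x y : Kq q) : e q x y = ef q x y := rfl

theorem e_mk (a b c d a' b' c' d' : ℤ) :
    e q (mk4 q a b c d) (mk4 q a' b' c' d') =
      ch q (a * b' - b * a' + (q : ℤ) ^ 4 * (c * d' - d * c')) := by
  rw [map_add, ← circ4, e_apply]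
  simp [ef, mk4, ch]

theorem e_self (x : Kq q) : e q x x = 0 := by
  simp [e_apply, ef, mul_comm]

theorem e_swap (x y : Kq q) : e q y x = - e q x y := by
  simp only [e_apply, ef, map_sub, mul_comm]
  abel

def m1 : Kq q := mk4 q 0 (-(q : ℤ) ^ 2) 0 1
def m2 : Kq q := mk4 q ((q : ℤ) ^ 4) 0 ((q : ℤ) ^ 2) (-(q : ℤ))
def m3 : Kq q := mk4 q 0 0 0 ((q : ℤ) ^ 2)

/-- the Lagrangian subgroup -/
noncomputable def Mq : AddSubgroup (Kq q) :=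
  ((e q).flip (m1 q)).ker ⊓ ((e q).flip (m2 q)).ker ⊓ ((e q).flip (m3 q)).ker

theorem mem_Mq {x : Kq q} :
    x ∈ Mq q ↔ e q x (m1 q) = 0 ∧ e q x (m2 q) = 0 ∧ e q x (m3 q) = 0 := by
  simp [Mq, and_assoc]

theorem m1_mem : m1 q ∈ Mq q := by
  rw [mem_Mq]
  simp only [m1, m2, m3, e_mk, ch_eq_zero]
  refine ⟨⟨0, by ring⟩, ⟨0, by ring⟩, ⟨0, by ring⟩⟩

theorem m2_mem : m2 q ∈ Mq q := by
  rw [mem_Mq]
  simp only [m1, m2, m3, e_mk, ch_eq_zero]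
  refine ⟨⟨0, by ring⟩, ⟨0, by ring⟩, ⟨1, by ring⟩⟩

theorem m3_mem : m3 q ∈ Mq q := by
  rw [mem_Mq]
  simp only [m1, m2, m3, e_mk, ch_eq_zero]
  refine ⟨⟨0, by ring⟩, ⟨-1, by ring⟩, ⟨0, by ring⟩⟩

theorem Mq_param {a b c d : ℤ} (h : mk4 q a b c d ∈ Mq q) :
    ∃ t k l : ℤ, c = (q : ℤ) ^ 2 * t ∧ a = (q : ℤ) ^ 4 * t + (q : ℤ) ^ 6 * k ∧
      b = -(q : ℤ) ^ 3 * t - (q : ℤ) ^ 2 * d + (q : ℤ) ^ 4 * l := by
  have hq : (q : ℤ) ≠ 0 := by exact_mod_cast NeZero.ne q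
  rw [mem_Mq] at h
  simp only [m1, m2, m3, e_mk, ch_eq_zero] at h
  obtain ⟨⟨k, hk⟩, ⟨l, hl⟩, ⟨t, ht⟩⟩ := h
  have hc : c = (q : ℤ) ^ 2 * t := by
    apply mul_left_cancel₀ (pow_ne_zero 6 hq)
    linear_combination ht
  refine ⟨t, -k, -l, hc, ?_, ?_⟩
  · apply mul_left_cancel₀ (pow_ne_zero 2 hq)
    linear_combination -hk + (q : ℤ) ^ 4 * hc
  · apply mul_left_cancel₀ (pow_ne_zero 4 hq)
    linear_combination -hl - (q : ℤ) ^ 5 * hc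

theorem Mq_iso {x y : Kq q} (hx : x ∈ Mq q) (hy : y ∈ Mq q) : e q x y = 0 := by
  obtain ⟨a, b, c, d, rfl⟩ := mk4_surj x
  obtain ⟨a', b', c', d', rfl⟩ := mk4_surj y
  obtain ⟨t, k, l, rfl, rfl, rfl⟩ := Mq_param q hx
  obtain ⟨t', k', l', rfl, rfl, rfl⟩ := Mq_param q hy
  rw [e_mk, ch_eq_zero]
  refine ⟨t * l' - l * t' - (q : ℤ) * k * t' - k * d' + (q : ℤ) ^ 2 * k * l'
    + (q : ℤ) * t * k' + d * k' - (q : ℤ) ^ 2 * l * k', by ring⟩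

theorem mem_Mq_of_perp {x : Kq q} (h : ∀ y ∈ Mq q, e q x y = 0) : x ∈ Mq q :=
  (mem_Mq q).2 ⟨h _ (m1_mem q), h _ (m2_mem q), h _ (m3_mem q)⟩

theorem e_nondeg {x : Kq q} (h : ∀ y, e q x y = 0) : x = 0 := by
  have hq : (q : ℤ) ≠ 0 := by exact_mod_cast NeZero.ne q
  obtain ⟨a, b, c, d, rfl⟩ := mk4_surj x
  have h1 := h (mk4 q 0 1 0 0)
  have h2 := h (mk4 q (-1) 0 0 0)
  have h3 := h (mk4 q 0 0 0 1)
  have h4 := h (mk4 q 0 0 (-1) 0)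
  rw [e_mk, ch_eq_zero] at h1 h2 h3 h4
  rw [mk4_eq_zero]
  refine ⟨by simpa using h1, by simpa using h2, ?_, ?_⟩
  · obtain ⟨k, hk⟩ := h3
    refine ⟨k, mul_left_cancel₀ (pow_ne_zero 4 hq) ?_⟩
    linear_combination hk
  · obtain ⟨k, hk⟩ := h4
    refine ⟨k, mul_left_cancel₀ (pow_ne_zero 4 hq) ?_⟩
    linear_combination hk

theorem torsion_circ {N : ℤ} (hN : N ≠ 0) {t : UnitAddCircle} (h : N • t = 0) :
    ∃ j : ℤ, t = ((j / (N : ℝ) : ℝ) : UnitAddCircle) := by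
  induction t using QuotientAddGroup.induction_on with
  | H x =>
    rw [← AddCircle.coe_zsmul, AddCircle.coe_eq_zero_iff] at h
    obtain ⟨n, hn⟩ := h
    refine ⟨n, ?_⟩
    congr 1
    have : (N : ℝ) ≠ 0 := by exact_mod_cast hN
    simp only [zsmul_eq_mul, mul_one] at hn
    field_simp
    linarith

theorem e_dual (χ : Kq q →+ UnitAddCircle) : ∃ x, ∀ y, χ y = e q x y := by
  have hq : (q : ℤ) ≠ 0 := by exact_mod_cast NeZero.ne q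
  have hqr : (q : ℝ) ≠ 0 := by exact_mod_cast NeZero.ne q
  have h8 : ∀ z : Kq q, ∃ j : ℤ, χ z = ch q j := by
    intro z
    obtain ⟨j, hj⟩ := torsion_circ (pow_ne_zero 8 hq) (t := χ z)
      (by rw [← map_zsmul, pow8_smul, map_zero])
    exact ⟨j, by rw [hj, ch_apply]; push_cast; rfl⟩
  have h4 : ∀ c d : ℤ, ∃ j : ℤ, χ (mk4 q 0 0 c d) = ch q ((q : ℤ) ^ 4 * j) := by
    intro c d
    obtain ⟨j, hj⟩ := torsion_circ (pow_ne_zero 4 hq) (t := χ (mk4 q 0 0 c d))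
      (by rw [← map_zsmul, smul_mk4, (mk4_eq_zero).2 (by simp), map_zero])
    refine ⟨j, ?_⟩
    rw [hj, ch_apply]
    congr 1
    push_cast
    field_simp
  obtain ⟨α, hα⟩ := h8 (mk4 q 1 0 0 0)
  obtain ⟨β, hβ⟩ := h8 (mk4 q 0 1 0 0)
  obtain ⟨γ, hγ⟩ := h4 1 0
  obtain ⟨δ, hδ⟩ := h4 0 1
  refine ⟨mk4 q β (-α) δ (-γ), fun y => ?_⟩
  obtain ⟨a, b, c, d, rfl⟩ := mk4_surj y
  rw [e_mk, mk4_decomp]
  simp only [map_add χ, map_zsmul χ, hα, hβ, hγ, hδ, ← map_zsmul (ch q), ← map_add (ch q)]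
  congr 1
  simp only [smul_eq_mul]
  ring

/-- no polarization is compatible with `Mq` -/
theorem no_split (hq1 : q ≠ 1) (π : Kq q →+ Kq q) (hM : ∀ x ∈ Mq q, π x ∈ Mq q)
    (hadj : ∀ x y, e q x y + e q (π y) x = e q (π x) y) (hid : ∀ x, π (π x) = π x) : False := by
  have hq : (q : ℤ) ≠ 0 := by exact_mod_cast NeZero.ne q
  set B : Kq q →+ Kq q →+ UnitAddCircle := (e q).comp π with hB
  have hBa : ∀ x y, B x y = e q (π x) y := fun _ _ => rfl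
  set a := mk4 q 1 0 0 0 with ha
  set b := mk4 q 0 1 0 0 with hb
  set u := mk4 q 0 0 1 0 with hu
  set v := mk4 q 0 0 0 1 with hv
  have hu4 : ((q : ℤ) ^ 4) • u = 0 := by rw [hu, smul_mk4, mk4_eq_zero]; simp
  have hv4 : ((q : ℤ) ^ 4) • v = 0 := by rw [hv, smul_mk4, mk4_eq_zero]; simp
  have l4u : ∀ z, ((q : ℤ) ^ 4) • B u z = 0 := fun z => by
    rw [← AddMonoidHom.smul_apply, ← map_zsmul, hu4]; simp
  have l4v : ∀ z, ((q : ℤ) ^ 4) • B v z = 0 := fun z => by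
    rw [← AddMonoidHom.smul_apply, ← map_zsmul, hv4]; simp
  have r4u : ∀ z, ((q : ℤ) ^ 4) • B z u = 0 := fun z => by rw [← map_zsmul, hu4]; simp
  have r4v : ∀ z, ((q : ℤ) ^ 4) • B z v = 0 := fun z => by rw [← map_zsmul, hv4]; simp
  have r8 : ∀ z w, ((q : ℤ) ^ 8) • B z w = 0 := fun z w => by rw [← map_zsmul, pow8_smul]; simp
  have e1 : m1 q = (-(q : ℤ) ^ 2) • b + v := by rw [m1, mk4_decomp]; simp [hb, hv]
  have e2 : m2 q = ((q : ℤ) ^ 4) • a + ((q : ℤ) ^ 2) • u + (-(q : ℤ)) • v := by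
    rw [m2, mk4_decomp]; simp [ha, hu, hv]
  have e3 : m3 q = ((q : ℤ) ^ 2) • v := by rw [m3, mk4_decomp]; simp [hv]
  have F1 : B (m3 q) (m1 q) = 0 := Mq_iso q (hM _ (m3_mem q)) (m1_mem q)
  have F2 : B (m2 q) (m2 q) = 0 := Mq_iso q (hM _ (m2_mem q)) (m2_mem q)
  rw [e3, e1] at F1
  rw [e2] at F2
  simp only [map_add, map_zsmul, AddMonoidHom.add_apply, AddMonoidHom.smul_apply] at F1 F2
  have G1 : ((q : ℤ) ^ 2) • B v v = 0 := by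
    linear_combination (norm := module) F1 + l4v b
  have G2 : ((q : ℤ) ^ 3) • (B u v + B v u) = 0 := by
    linear_combination (norm := module) -F2 + r8 a a + ((q : ℤ) ^ 2) • l4u a - (q : ℤ) • l4v a
      + ((q : ℤ) ^ 2) • r4u a + l4u u - (q : ℤ) • r4v a + G1
  obtain ⟨x1, x2, δ', δ, hπ⟩ := mk4_surj (π v)
  have h0 : ((q : ℤ) ^ 4) • π v = 0 := by rw [← map_zsmul, hv4, map_zero]
  rw [hπ, smul_mk4, mk4_eq_zero] at h0
  obtain ⟨⟨x, hx⟩, ⟨y, hy⟩, -, -⟩ := h0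
  have hx' : x1 = (q : ℤ) ^ 4 * x := mul_left_cancel₀ (pow_ne_zero 4 hq) (by linear_combination hx)
  have hy' : x2 = (q : ℤ) ^ 4 * y := mul_left_cancel₀ (pow_ne_zero 4 hq) (by linear_combination hy)
  have Bvv : B v v = ch q ((q : ℤ) ^ 4 * δ') := by
    rw [hBa, hπ, hv, e_mk]; congr 1; ring
  have Bvu : B v u = ch q (-((q : ℤ) ^ 4 * δ)) := by
    rw [hBa, hπ, hu, e_mk]; congr 1; ring
  have Buv : B u v = ch q ((q : ℤ) ^ 4 - (q : ℤ) ^ 4 * δ) := by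
    rw [hBa, ← hadj, ← hBa, Bvu, hu, hv, e_mk, ← map_add]; congr 1; ring
  rw [Bvv, ← map_zsmul, ch_eq_zero] at G1
  obtain ⟨d, hd⟩ := G1
  have hd' : δ' = (q : ℤ) ^ 2 * d := mul_left_cancel₀ (pow_ne_zero 6 hq)
    (by simp only [smul_eq_mul] at hd; linear_combination hd)
  rw [Bvu, Buv, ← map_add, ← map_zsmul, ch_eq_zero] at G2
  obtain ⟨s, hs⟩ := G2
  have F4 : B (π v) u = B v u := by rw [hBa, hBa, hid]
  rw [hπ, mk4_decomp, ← ha, ← hb, ← hu, ← hv, hx', hy', hd'] at F4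
  simp only [map_add, map_zsmul, AddMonoidHom.add_apply, AddMonoidHom.smul_apply] at F4
  have G3 : ((q : ℤ) ^ 3 * (δ - 1)) • B v u = 0 := by
    linear_combination (norm := module) ((q : ℤ) ^ 3) • F4 - ((q : ℤ) ^ 3 * x) • r4u a
      - ((q : ℤ) ^ 3 * y) • r4u b - ((q : ℤ) * d) • r4u u
  rw [Bvu, ← map_zsmul, ch_eq_zero] at G3
  obtain ⟨r, hr⟩ := G3
  simp only [smul_eq_mul] at hs hr
  have hs' : 1 - 2 * δ = q * s := mul_left_cancel₀ (pow_ne_zero 7 hq) (by linear_combination hs)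
  have hr' : -(δ - 1) * δ = q * r := mul_left_cancel₀ (pow_ne_zero 7 hq) (by linear_combination hr)
  have : (q : ℤ) ∣ 1 := ⟨4 * r + s * (1 - 2 * δ), by linear_combination 4 * hr' + (1 - 2 * δ) * hs'⟩
  have : q ∣ 1 := by exact_mod_cast this
  exact hq1 (Nat.dvd_one.1 this)

end H63.Mum
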