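import Pool.Agent.H63.Mum1

open Filter Topology

namespace H63.Mum

def fq (n : ℕ) : ℕ := Nat.fermatNumber n

instance (n : ℕ) : NeZero (fq n) := ⟨by have := Nat.two_lt_fermatNumber n; unfold fq; omega⟩

abbrev R (n : ℕ) := Kq (fq n)

noncomputable abbrev M (n : ℕ) : AddSubgroup (R n) := Mq (fq n)

instance : Fact (∀ n, IsOpen (M n : Set (R n))) := ⟨fun _ => isOpen_discrete _⟩

/-- the restricted product of the finite symplectic groups -/
abbrev K := RestrictedProduct R (fun n => (M n : Set (R n))) cofinite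

instance : LocallyCompactSpace K :=
  RestrictedProduct.locallyCompactSpace_of_addGroup _
    (Eventually.of_forall fun n => (Set.toFinite _).isCompact)

theorem bound (x : K) : ∃ N, ∀ n ≥ N, x n ∈ M n := by
  exact eventually_atTop.1 (x.eventually.filter_mono Nat.cofinite_eq_atTop.ge)

noncomputable def U (N : ℕ) : AddSubgroup K where
  carrier := {x | (∀ n, x n ∈ M n) ∧ ∀ n < N, x n = 0}
  zero_mem' := ⟨fun n => (M n).zero_mem, fun _ _ => rfl⟩
  add_mem' := by
    rintro x y ⟨h1, h2⟩ ⟨h3, h4⟩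
    refine ⟨fun n => (M n).add_mem (h1 n) (h3 n), fun n hn => ?_⟩
    rw [RestrictedProduct.add_apply, h2 n hn, h4 n hn, add_zero]
  neg_mem' := by
    rintro x ⟨h1, h2⟩
    refine ⟨fun n => (M n).neg_mem (h1 n), fun n hn => ?_⟩
    rw [RestrictedProduct.neg_apply, h2 n hn, neg_zero]

theorem mem_U {N : ℕ} {x : K} : x ∈ U N ↔ (∀ n, x n ∈ M n) ∧ ∀ n < N, x n = 0 := Iff.rfl

theorem U_open (N : ℕ) : IsOpen (U N : Set K) := by
  have h1 : IsOpen {x : K | ∀ n, x.1 n ∈ (M n : Set (R n))} :=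
    RestrictedProduct.isOpen_forall_mem (fun _ => isOpen_discrete _)
  have h2 : IsOpen (⋂ n ∈ Finset.range N, {x : K | x n = 0}) :=
    isOpen_biInter_finset fun n _ =>
      (isOpen_discrete ({0} : Set (R n))).preimage (RestrictedProduct.continuous_eval n)
  convert h1.inter h2 using 1
  ext x
  simp only [SetLike.mem_coe, mem_U, Set.mem_inter_iff, Set.mem_ofPred_eq, Set.mem_iInter,
    Finset.mem_range]
  rfl

theorem U_nhds (N : ℕ) : (U N : Set K) ∈ 𝓝 (0 : K) := (U_open N).mem_nhds (U N).zero_mem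

theorem exists_U {s : Set K} (hs : s ∈ 𝓝 (0 : K)) : ∃ N, (U N : Set K) ⊆ s := by
  have hc := (RestrictedProduct.isEmbedding_structureMap (R := R)
    (A := fun n => (M n : Set (R n))) (𝓕 := cofinite)).continuous
  have h0 : RestrictedProduct.structureMap R (fun n => (M n : Set (R n))) cofinite
      (fun n => ⟨0, (M n).zero_mem⟩) = 0 := rfl
  have h1 := hc.continuousAt.preimage_mem_nhds (h0 ▸ hs)
  rw [nhds_pi, Filter.mem_pi] at h1
  obtain ⟨I, hI, t, ht, hsub⟩ := h1
  obtain ⟨N, hN⟩ := hI.bddAbove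
  refine ⟨N + 1, fun x hx => ?_⟩
  obtain ⟨hx1, hx2⟩ := mem_U.1 hx
  have : (fun n => (⟨x n, hx1 n⟩ : (M n : Set (R n)))) ∈ I.pi t := by
    intro i hi
    have h3 : (⟨x i, hx1 i⟩ : (M i : Set (R i))) = ⟨0, (M i).zero_mem⟩ :=
      Subtype.ext (hx2 i (Nat.lt_succ_of_le (hN hi)))
    simp only [h3]
    exact mem_of_mem_nhds (ht i)
  exact hsub this

theorem U0_compact : IsCompact (U 0 : Set K) := by
  have hc := (RestrictedProduct.isEmbedding_structureMap (R := R)
    (A := fun n => (M n : Set (R n))) (𝓕 := cofinite)).continuous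
  have := isCompact_range hc
  rw [RestrictedProduct.range_structureMap] at this
  convert this using 1
  ext x
  simp only [SetLike.mem_coe, mem_U, Set.mem_ofPred_eq]
  exact ⟨fun h => h.1, fun h => ⟨h, fun n hn => absurd hn (Nat.not_lt_zero n)⟩⟩

noncomputable def sing (n : ℕ) : R n →+ K :=
  AddMonoidHom.mk' (fun z => RestrictedProduct.single M n z)
    (fun a b => RestrictedProduct.single_add M n a b)

theorem sing_same (n : ℕ) (z : R n) : sing n z n = z := RestrictedProduct.single_eq_same M n z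

theorem sing_ne {n m : ℕ} (z : R n) (h : m ≠ n) : sing n z m = 0 :=
  RestrictedProduct.single_eq_of_ne M z h

noncomputable def ev (n : ℕ) : K →+ R n := AddMonoidHom.mk' (fun x => x n) (fun _ _ => rfl)

theorem ev_apply (n : ℕ) (x : K) : ev n x = x n := rfl

theorem sing_mem_U {n N : ℕ} (h : N ≤ n) {z : R n} (hz : z ∈ M n) : sing n z ∈ U N := by
  refine ⟨fun m => ?_, fun m hm => sing_ne z (by omega)⟩
  by_cases hm : m = n
  · subst hm; rw [sing_same]; exact hz
  · rw [sing_ne z hm]; exact (M m).zero_mem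

noncomputable def trunc (N : ℕ) (y : K) : K := ∑ n ∈ Finset.range N, sing n (y n)

theorem trunc_apply (N : ℕ) (y : K) (m : ℕ) : trunc N y m = if m < N then y m else 0 := by
  rw [← ev_apply, trunc, map_sum]
  simp only [ev_apply]
  split_ifs with h
  · rw [Finset.sum_eq_single m]
    · exact sing_same m _
    · intro b _ hb; exact sing_ne _ hb.symm
    · intro hm; exact absurd (Finset.mem_range.2 h) hm
  · apply Finset.sum_eq_zero
    intro b hb
    exact sing_ne _ (by have := Finset.mem_range.1 hb; omega)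

theorem sub_trunc_mem {N : ℕ} {y : K} (hy : ∀ n ≥ N, y n ∈ M n) : y - trunc N y ∈ U N := by
  refine ⟨fun m => ?_, fun m hm => ?_⟩
  · rw [RestrictedProduct.sub_apply, trunc_apply]
    split_ifs with h
    · rw [sub_self]; exact (M m).zero_mem
    · rw [sub_zero]; exact hy m (by omega)
  · rw [RestrictedProduct.sub_apply, trunc_apply, if_pos hm, sub_self]

theorem U_mono {N N' : ℕ} (h : N ≤ N') {x : K} (hx : x ∈ U N') : x ∈ U N :=
  ⟨hx.1, fun n hn => hx.2 n (by omega)⟩

open Pointwise in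
instance : SigmaCompactSpace K := by
  refine ⟨⟨fun N => {x : K | ∀ n ≥ N, x n = 0} + (U 0 : Set K), fun N => ?_, ?_⟩⟩
  · refine IsCompact.add (Set.Finite.isCompact ?_) U0_compact
    refine Set.Finite.of_finite_image (f := fun x : K => fun n : Fin N => x n)
      (Set.toFinite _) ?_
    intro x hx y hy hxy
    ext n : 1
    by_cases hn : n < N
    · exact congrFun hxy ⟨n, hn⟩
    · rw [hx n (by omega), hy n (by omega)]
  · rw [Set.eq_univ_iff_forall]
    intro y
    obtain ⟨N, hN⟩ := bound y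
    refine Set.mem_iUnion.2 ⟨N, trunc N y, fun n hn => ?_, y - trunc N y,
      U_mono (Nat.zero_le _) (sub_trunc_mem hN), by simp⟩
    rw [trunc_apply, if_neg (by omega)]

section forms
variable (f : ∀ n, R n →+ R n →+ UnitAddCircle)

noncomputable def S (x y : K) : UnitAddCircle := ∑ᶠ n, f n (x n) (y n)

theorem S_eq {x y : K} (N : ℕ) (h : ∀ n ≥ N, f n (x n) (y n) = 0) :
    S f x y = ∑ n ∈ Finset.range N, f n (x n) (y n) := by
  apply finsum_eq_sum_of_support_subset
  intro n hn
  simp only [Finset.coe_range, Set.mem_Iio]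
  by_contra h'
  exact hn (h n (by omega))

def Good : Prop := ∀ n x y, x ∈ M n → y ∈ M n → f n x y = 0

variable {f}

theorem S_eq' (hf : Good f) {x y : K} (N : ℕ) (hx : ∀ n ≥ N, x n ∈ M n)
    (hy : ∀ n ≥ N, y n ∈ M n) : S f x y = ∑ n ∈ Finset.range N, f n (x n) (y n) :=
  S_eq f N fun n hn => hf n _ _ (hx n hn) (hy n hn)

theorem bound3 (x y z : K) : ∃ N, (∀ n ≥ N, x n ∈ M n) ∧ (∀ n ≥ N, y n ∈ M n) ∧
    (∀ n ≥ N, z n ∈ M n) := by
  obtain ⟨a, ha⟩ := bound x
  obtain ⟨b, hb⟩ := bound y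
  obtain ⟨c, hc⟩ := bound z
  exact ⟨a + b + c, fun n hn => ha n (by omega), fun n hn => hb n (by omega),
    fun n hn => hc n (by omega)⟩

noncomputable def SB (hf : Good f) : K →+ K →+ UnitAddCircle :=
  AddMonoidHom.mk' (fun x => AddMonoidHom.mk' (fun y => S f x y) (by
    intro y z
    obtain ⟨N, h1, h2, h3⟩ := bound3 x y z
    rw [S_eq' hf N h1 h2, S_eq' hf N h1 h3,
      S_eq' hf (y := y + z) N h1 (fun n hn => (M n).add_mem (h2 n hn) (h3 n hn)),
      ← Finset.sum_add_distrib]
    simp [RestrictedProduct.add_apply])) (by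
    intro x y
    ext z
    obtain ⟨N, h1, h2, h3⟩ := bound3 x y z
    simp only [AddMonoidHom.mk'_apply, AddMonoidHom.add_apply]
    rw [S_eq' hf N h1 h3, S_eq' hf N h2 h3,
      S_eq' hf (x := x + y) N (fun n hn => (M n).add_mem (h1 n hn) (h2 n hn)) h3,
      ← Finset.sum_add_distrib]
    simp [RestrictedProduct.add_apply])

theorem SB_apply (hf : Good f) (x y : K) : SB hf x y = S f x y := rfl

theorem SB_U_left (hf : Good f) {N : ℕ} {u y : K} (hu : u ∈ U N) (hy : ∀ n ≥ N, y n ∈ M n) :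
    SB hf u y = 0 := by
  rw [SB_apply, S_eq' hf N (fun n _ => hu.1 n) hy]
  apply Finset.sum_eq_zero
  intro n hn
  rw [hu.2 n (Finset.mem_range.1 hn)]; simp

theorem SB_U_right (hf : Good f) {N : ℕ} {u y : K} (hu : u ∈ U N) (hy : ∀ n ≥ N, y n ∈ M n) :
    SB hf y u = 0 := by
  rw [SB_apply, S_eq' hf N hy (fun n _ => hu.1 n)]
  apply Finset.sum_eq_zero
  intro n hn
  rw [hu.2 n (Finset.mem_range.1 hn)]; simp

theorem SB_cont (hf : Good f) : Continuous fun p : K × K => SB hf p.1 p.2 := by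
  rw [continuous_iff_continuousAt]
  rintro ⟨x, y⟩
  obtain ⟨N, h1, h2, -⟩ := bound3 x y y
  have e1 : ∀ᶠ p : K × K in 𝓝 (x, y), p.1 - x ∈ U N := by
    have : ContinuousAt (fun p : K × K => p.1 - x) (x, y) := by fun_prop
    exact this.preimage_mem_nhds (by simpa using U_nhds N)
  have e2 : ∀ᶠ p : K × K in 𝓝 (x, y), p.2 - y ∈ U N := by
    have : ContinuousAt (fun p : K × K => p.2 - y) (x, y) := by fun_prop
    exact this.preimage_mem_nhds (by simpa using U_nhds N)
  refine (continuousAt_const (y := SB hf x y)).congr ?_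
  filter_upwards [e1, e2] with p hp1 hp2
  have a1 : SB hf x (p.2 - y) = 0 := SB_U_right hf hp2 h1
  have a2 : SB hf (p.1 - x) p.2 = 0 := SB_U_left hf hp1 fun n hn => by
    have := (M n).add_mem (hp2.1 n) (h2 n hn)
    simpa [RestrictedProduct.sub_apply] using this
  simp only [map_sub, AddMonoidHom.sub_apply] at a1 a2
  linear_combination (norm := abel) -a1 - a2

theorem SB_sing (hf : Good f) (x : K) (n : ℕ) (z : R n) : SB hf x (sing n z) = f n (x n) z := by
  rw [SB_apply, S, finsum_eq_single _ n, sing_same]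
  intro m hm
  rw [sing_ne z hm, map_zero]

end forms

theorem good_e : Good (fun n => e (fq n)) := fun n _ _ hx hy => Mq_iso (fq n) hx hy

/-- the symplectic form on `K` -/
noncomputable def E : K →+ K →+ UnitAddCircle := SB good_e

noncomputable def hf (n : ℕ) : ℤ := (((fq n : ℤ)) ^ 8 + 1) / 2

theorem two_hf (n : ℕ) : 2 * hf n = (fq n : ℤ) ^ 8 + 1 := by
  have h : Odd (fq n : ℤ) := by exact_mod_cast Nat.odd_fermatNumber n
  exact Int.mul_ediv_cancel' (even_iff_two_dvd.1 (h.pow.add_one))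

theorem good_b : Good (fun n => hf n • e (fq n)) := fun n _ _ hx hy => by
  simp [Mq_iso (fq n) hx hy]

/-- the cocycle -/
noncomputable def β : K →+ K →+ UnitAddCircle := SB good_b

theorem β_sub (x y : K) : β x y = E x y + β y x := by
  obtain ⟨N, h1, h2, -⟩ := bound3 x y y
  rw [β, E, SB_apply, SB_apply, SB_apply, S_eq' good_b N h1 h2, S_eq' good_b N h2 h1,
    S_eq' good_e N h1 h2, ← Finset.sum_add_distrib]
  apply Finset.sum_congr rfl
  intro n _
  simp only [AddMonoidHom.smul_apply]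
  rw [e_swap (fq n) (x n) (y n)]
  have h8 : ((fq n : ℤ) ^ 8) • e (fq n) (x n) (y n) = 0 := by
    rw [← map_zsmul, pow8_smul, map_zero]
  have h2 := congrArg (fun k : ℤ => k • e (fq n) (x n) (y n)) (two_hf n)
  linear_combination (norm := module) h2 + h8

theorem E_nondeg {x : K} (h : ∀ y, E x y = 0) : x = 0 := by
  ext n : 1
  apply e_nondeg (fq n)
  intro z
  rw [← h (sing n z), E, SB_sing]

theorem no_small {t : UnitAddCircle} (h : ∀ k : ℕ, ‖k • t‖ < 1 / 4) : t = 0 := by
  induction t using QuotientAddGroup.induction_on with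
  | H x0 =>
    set x := x0 - round x0 with hx
    have hxe : ((x0 : ℝ) : UnitAddCircle) = (x : UnitAddCircle) := by
      rw [hx, AddCircle.coe_sub]
      have : (((round x0 : ℤ) : ℝ) : UnitAddCircle) = 0 :=
        (AddCircle.coe_eq_zero_iff _).2 ⟨round x0, by simp⟩
      rw [this, sub_zero]
    rw [hxe] at h ⊢
    have key : ∀ j : ℕ, |(2 : ℝ) ^ j * x| ≤ 1 / 2 := by
      intro j
      induction j with
      | zero => simpa [hx] using abs_sub_round x0
      | succ j ih =>
        have h1 := h (2 ^ j)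
        rw [← AddCircle.coe_nsmul, nsmul_eq_mul] at h1
        push_cast at h1
        rw [(AddCircle.norm_coe_eq_abs_iff (1 : ℝ) one_ne_zero).2 (by simpa using ih)] at h1
        rw [pow_succ, mul_right_comm, abs_mul]
        simp only [Nat.abs_ofNat]
        linarith
    have : x = 0 := by
      by_contra hne
      obtain ⟨j, hj⟩ := pow_unbounded_of_one_lt (1 / |x|) (one_lt_two (α := ℝ))
      have h2 := key j
      have h3 : 0 < |x| := abs_pos.2 hne
      rw [abs_mul, abs_of_pos (by positivity)] at h2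
      rw [div_lt_iff₀ h3] at hj
      linarith
    rw [this]; rfl

theorem kill_U (χ : K →+ UnitAddCircle) (hχ : Continuous χ) : ∃ N, ∀ u ∈ U N, χ u = 0 := by
  have h0 : χ ⁻¹' (Metric.ball 0 (1 / 4)) ∈ 𝓝 (0 : K) :=
    hχ.continuousAt.preimage_mem_nhds (by rw [map_zero]; exact Metric.ball_mem_nhds _ (by norm_num))
  obtain ⟨N, hN⟩ := exists_U h0
  refine ⟨N, fun u hu => no_small fun k => ?_⟩
  have h1 : χ (k • u) ∈ Metric.ball 0 (1 / 4) := hN ((U N).nsmul_mem hu k)
  rw [map_nsmul, mem_ball_zero_iff] at h1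
  exact h1

theorem mkK (x : ∀ n, R n) (N : ℕ) (h : ∀ n ≥ N, x n ∈ M n) : ∃ z : K, ∀ n, z n = x n :=
  ⟨⟨x, (eventually_atTop.2 ⟨N, h⟩).filter_mono Nat.cofinite_eq_atTop.le⟩, fun _ => rfl⟩

theorem E_dual (χ : K →+ UnitAddCircle) (hχ : Continuous χ) : ∃ x, ∀ y, χ y = E x y := by
  obtain ⟨N, hU⟩ := kill_U χ hχ
  have hx0 : ∀ n, ∃ x : R n, ∀ y, χ (sing n y) = e (fq n) x y :=
    fun n => e_dual (fq n) (χ.comp (sing n))
  choose x hx using hx0
  have hxM : ∀ n ≥ N, x n ∈ M n := by
    intro n hn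
    apply mem_Mq_of_perp
    intro y hy
    rw [← hx n y]
    exact hU _ (sing_mem_U hn hy)
  obtain ⟨z, hz⟩ := mkK x N hxM
  refine ⟨z, fun y => ?_⟩
  obtain ⟨N', hN'⟩ := bound y
  have hy : ∀ n ≥ N + N', y n ∈ M n := fun n hn => hN' n (by omega)
  have h1 := hU _ (U_mono (Nat.le_add_right N N') (sub_trunc_mem hy))
  rw [map_sub, sub_eq_zero] at h1
  rw [h1, E, SB_apply, S_eq' good_e (N + N') (fun n hn => by rw [hz]; exact hxM n (by omega)) hy,
    trunc, map_sum]
  exact Finset.sum_congr rfl fun n _ => by rw [hz]; exact hx n (y n)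

theorem no_proj (π : K →+ K) (hπ : Continuous π)
    (hadj : ∀ x y, E x y + E (π y) x = E (π x) y) (hid : ∀ x, π (π x) = π x) : False := by
  have h0 : π ⁻¹' (U 0 : Set K) ∈ 𝓝 (0 : K) :=
    hπ.continuousAt.preimage_mem_nhds (by rw [map_zero]; exact U_nhds 0)
  obtain ⟨n, hn⟩ := exists_U h0
  set p : R n →+ R n := (ev n).comp (π.comp (sing n)) with hp
  have hpa : ∀ z, p z = π (sing n z) n := fun _ => rfl
  have hs : ∀ z, π (sing n z) = sing n (p z) := by
    intro z
    ext m : 1
    by_cases hm : m = n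
    · subst hm; rw [sing_same]; rfl
    · rw [sing_ne _ hm]
      have hc : IsCoprime ((fq m : ℤ) ^ 8) ((fq n : ℤ) ^ 8) :=
        (Nat.isCoprime_iff_coprime.2 (Nat.coprime_fermatNumber_fermatNumber hm)).pow
      obtain ⟨a, b, hab⟩ := hc
      have h1 : ((fq m : ℤ) ^ 8) • π (sing n z) m = 0 := pow8_smul _
      have h2 : ((fq n : ℤ) ^ 8) • π (sing n z) m = 0 := by
        rw [← ev_apply, ← map_zsmul, ← map_zsmul, ← map_zsmul, pow8_smul]; simp
      have h3 := congrArg (fun k : ℤ => k • π (sing n z) m) hab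
      simp only [add_smul, mul_smul, h1, h2, smul_zero, add_zero, one_smul] at h3
      exact h3.symm
  refine no_split (fq n) (Nat.fermatNumber_ne_one n) p (fun z hz => ?_) (fun x y => ?_)
    (fun z => ?_)
  · exact (hn (sing_mem_U le_rfl hz)).1 n
  · have := hadj (sing n x) (sing n y)
    rw [E, SB_sing, SB_sing, SB_sing, sing_same] at this
    exact this
  · rw [hpa, ← hs, hid]; rfl

end H63.Mum
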