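import Mathlib

set_option autoImplicit false
open Function

namespace Pool.Agent.H63.OneWay

def op (e t : ℕ) : ℕ :=
  if e = 2 ∧ t % 8 = 7 then 1 else
  if t / 8 = 0 then (if e = 0 ∧ (t = 0 ∨ t = 2) then 3 else if e = 3 ∧ t = 1 then 2 else 0) else
  if e = 3 then (if t % 8 = 0 ∨ t % 8 = 6 then 3 else 0) else
  if e = 2 then (if t % 8 = 1 ∨ t % 8 = 5 then (if t / 8 % 2 = 0 then 4 else 3) else 0) else
  if e = 1 then (if t / 8 ≤ 2 then (if t % 8 = 2 then 2 else 0) else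
    if t % 8 = 2 ∨ t % 8 = 4 then 4 else 0) else
  if t % 8 = 3 then 2 else 0

theorem op_le (e t : ℕ) : op e t ≤ 4 := by unfold op; split_ifs <;> omega

abbrev S := Bool ⊕ (Fin 4 × Fin 40 × Fin 5)
abbrev Cell := Bool × Bool × S
abbrev St := Fin 4 × Fin 40 × Cell

def val : S → Bool
  | .inl b => b
  | .inr (e, t, r) => op e t == r

def nx : S → S
  | .inl b => .inl !b
  | .inr (e, t, r) => .inr (e, if r = 4 then t + 1 else t, r + 1)

def pv : S → S
  | .inl b => .inl !b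
  | .inr (e, t, r) => .inr (e, if r = 0 then t - 1 else t, r - 1)

theorem pv_nx (s : S) : pv (nx s) = s := by
  rcases s with b | ⟨e, t, r⟩
  · simp [pv, nx]
  · fin_cases r <;> simp [pv, nx] <;> rfl

theorem nx_pv (s : S) : nx (pv s) = s := by
  rcases s with b | ⟨e, t, r⟩
  · simp [pv, nx]
  · fin_cases r <;> simp [pv, nx] <;> rfl

def loc (g : S → S) (p : ℕ) (c : Cell) : Cell :=
  if p = 1 then (c.1, c.2.1, g c.2.2) else
  if p = 2 then (c.1, c.2.1, if c.1 then g c.2.2 else c.2.2) else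
  if p = 3 then (c.1, c.2.1 ^^ val c.2.2, c.2.2) else
  if p = 4 then (c.1, c.2.1 ^^ (c.1 && val c.2.2), c.2.2) else c

theorem loc_loc {g h : S → S} (H : ∀ s, g (h s) = s) (p : ℕ) (c : Cell) : loc g p (loc h p c) = c := by
  obtain ⟨i, o, s⟩ := c
  unfold loc
  split_ifs <;> cases i <;> simp [*] at *

def com (c : Cell) (b : Bool) : Cell := (c.1 ^^ b, c.2)

def F (a b : St) : St := (a.1, a.2.1 + 1, loc nx (op a.1 a.2.1) (com a.2.2 b.2.2.2.1))
def unl (a : St) : St := (a.1, a.2.1 - 1, loc pv (op a.1 (a.2.1 - 1 : Fin 40)) a.2.2)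
def Fi (a b : St) : St := ((unl a).1, (unl a).2.1, com (unl a).2.2 (unl b).2.2.2.1)

def f (x : ℕ → St) (i : ℕ) : St := F (x i) (x (i + 1))
def g (x : ℕ → St) (i : ℕ) : St := Fi (x i) (x (i + 1))

theorem g_f (x : ℕ → St) : g (f x) = x := by
  funext i
  simp [g, f, Fi, unl, F, loc_loc pv_nx, com]

theorem f_g (x : ℕ → St) : f (g x) = x := by
  funext i
  simp [g, f, Fi, unl, F, loc_loc nx_pv, com]

abbrev Blk := Cell × Cell × Cell × Cell

def G (t : ℕ) (B : Blk) (b : Bool) : Blk :=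
  (loc nx (op 0 t) (com B.1 B.2.1.2.1), loc nx (op 1 t) (com B.2.1 B.2.2.1.2.1),
    loc nx (op 2 t) (com B.2.2.1 B.2.2.2.2.1), loc nx (op 3 t) (com B.2.2.2 b))

def inp (o : Bool) (t : ℕ) : Bool := if t = 1 ∨ t = 2 then o else false

def It (B : Blk) (b : Bool) (t0 : ℕ) : ℕ → Blk
  | 0 => B
  | t + 1 => G (t0 + t) (It B b t0 t) (inp b (t0 + t))

theorem It0 (B : Blk) (b : Bool) (t : ℕ) : It B b t 0 = B := rfl
theorem It1 (B : Blk) (b : Bool) (t : ℕ) :
    It B b t 1 = G (t + 0) (It B b t 0) (inp b (t + 0)) := rfl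
theorem It2 (B : Blk) (b : Bool) (t : ℕ) :
    It B b t 2 = G (t + 1) (It B b t 1) (inp b (t + 1)) := rfl
theorem It3 (B : Blk) (b : Bool) (t : ℕ) :
    It B b t 3 = G (t + 2) (It B b t 2) (inp b (t + 2)) := rfl
theorem It4 (B : Blk) (b : Bool) (t : ℕ) :
    It B b t 4 = G (t + 3) (It B b t 3) (inp b (t + 3)) := rfl
theorem It5 (B : Blk) (b : Bool) (t : ℕ) :
    It B b t 5 = G (t + 4) (It B b t 4) (inp b (t + 4)) := rfl
theorem It6 (B : Blk) (b : Bool) (t : ℕ) :
    It B b t 6 = G (t + 5) (It B b t 5) (inp b (t + 5)) := rfl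
theorem It7 (B : Blk) (b : Bool) (t : ℕ) :
    It B b t 7 = G (t + 6) (It B b t 6) (inp b (t + 6)) := rfl
theorem It8 (B : Blk) (b : Bool) (t : ℕ) :
    It B b t 8 = G (t + 7) (It B b t 7) (inp b (t + 7)) := rfl

def blk (e : Fin 4) (t : Fin 40) (r : Fin 5) (c : Cell) : Blk :=
  ((false, false, .inl c.2.1), (false, false, c.2.2), (false, false, .inr (e, t, r)),
    (false, false, .inl c.1))

theorem round0 (e : Fin 4) (t : Fin 40) (c : Cell) (b : Bool) :
    It (blk e t 0 c) b 0 8 = blk e t 1 (com c b) ∧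
      ∀ u < 8, (It (blk e t 0 c) b 0 u).1.2.1 = inp c.2.1 u := by
  obtain ⟨i, o, s⟩ := c
  refine ⟨?_, fun u hu => ?_⟩
  · cases i <;> cases o <;> cases b <;> rfl
  · interval_cases u <;> cases i <;> cases o <;> cases b <;> rfl

theorem round (e : Fin 4) (t : Fin 40) (c : Cell) (b : Bool) (r : Fin 5) (hr : r ≠ 0) :
    It (blk e t r c) b (8 * r) 8 =
      blk e (if r = 4 then t + 1 else t) (r + 1) (if op e t = r then loc nx r c else c) ∧
      ∀ u < 8, (It (blk e t r c) b (8 * r) u).1.2.1 = false := by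
  have : r = 1 ∨ r = 2 ∨ r = 3 ∨ r = 4 := by revert r; decide
  obtain ⟨i, o, s⟩ := c
  obtain ⟨m, hm⟩ : ∃ m, val (.inr (e, t, r)) = m := ⟨_, rfl⟩
  obtain ⟨v, hv⟩ : ∃ v, val s = v := ⟨_, rfl⟩
  have h1 : (op e t = r) = (m = true) := by rw [← hm]; simp [val]
  have h2 : ∀ b, val (.inl b) = b := fun _ => rfl
  have h3 : ∀ b, nx (.inl b) = .inl !b := fun _ => rfl
  have h4 : nx (.inr (e, t, r)) = .inr (e, if r = 4 then t + 1 else t, r + 1) := rfl
  simp only [h1]
  clear h1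
  refine ⟨?_, fun u hu => ?_⟩
  · rcases this with rfl | rfl | rfl | rfl <;> cases i <;> cases o <;> cases m <;> cases v <;>
      simp +decide [It0, It1, It2, It3, It4, It5, It6, It7, It8, G, loc, com, blk, inp, h2, h3, h4,
        hm, hv]
  · rcases this with rfl | rfl | rfl | rfl <;> interval_cases u <;>
      cases i <;> cases o <;> cases m <;> cases v <;>
      simp +decide [It0, It1, It2, It3, It4, It5, It6, It7, G, loc, com, blk, inp, h2, h3, h4, hm, hv]

end Pool.Agent.H63.OneWay
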