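import Pool.Agent.H63.OneWay1

set_option autoImplicit false
open Function

namespace Pool.Agent.H63.OneWay

theorem It_add (B : Blk) (b : Bool) (t m n : ℕ) :
    It B b t (m + n) = It (It B b t m) b (t + m) n := by
  induction n with
  | zero => rfl
  | succ n ih => rw [← add_assoc, It, It, ih, add_assoc]

def enc (a : St) : Blk := blk a.1 a.2.1 0 a.2.2

theorem full (a b : St) : It (enc a) b.2.2.2.1 0 40 = enc (F a b) ∧
    ∀ u < 40, (It (enc a) b.2.2.2.1 0 u).1.2.1 = inp a.2.2.2.1 u := by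
  obtain ⟨e, t, c⟩ := a
  obtain ⟨o, ho⟩ : ∃ o, o = b.2.2.2.1 := ⟨_, rfl⟩
  simp only [enc, F, ← ho]
  obtain ⟨h0, k0⟩ := round0 e t c o
  obtain ⟨h1, k1⟩ := round e t (com c o) o 1 (by decide)
  obtain ⟨c1, e1⟩ : ∃ c1, c1 = if op e t = (1 : Fin 5) then loc nx (1 : Fin 5) (com c o) else com c o :=
    ⟨_, rfl⟩
  obtain ⟨h2, k2⟩ := round e t c1 o 2 (by decide)
  obtain ⟨c2, e2⟩ : ∃ c2, c2 = if op e t = (2 : Fin 5) then loc nx (2 : Fin 5) c1 else c1 := ⟨_, rfl⟩
  obtain ⟨h3, k3⟩ := round e t c2 o 3 (by decide)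
  obtain ⟨c3, e3⟩ : ∃ c3, c3 = if op e t = (3 : Fin 5) then loc nx (3 : Fin 5) c2 else c2 := ⟨_, rfl⟩
  obtain ⟨h4, k4⟩ := round e t c3 o 4 (by decide)
  rw [← e1] at h1
  rw [← e2] at h2
  rw [← e3] at h3
  have a1 : It (blk e t 0 c) o 0 16 = blk e t 2 c1 := by
    rw [show 16 = 8 + 8 from rfl, It_add, h0]; exact h1
  have a2 : It (blk e t 0 c) o 0 24 = blk e t 3 c2 := by
    rw [show 24 = 16 + 8 from rfl, It_add, a1]; exact h2
  have a3 : It (blk e t 0 c) o 0 32 = blk e t 4 c3 := by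
    rw [show 32 = 24 + 8 from rfl, It_add, a2]; exact h3
  refine ⟨?_, fun u hu => ?_⟩
  · refine (It_add _ _ 0 32 8).trans ?_
    rw [a3]
    refine h4.trans ?_
    have := op_le e t
    subst e3 e2 e1
    obtain ⟨p, hp⟩ : ∃ p, op e t = p := ⟨_, rfl⟩
    rw [hp] at this ⊢
    interval_cases p <;> rfl
  · by_cases u1 : u < 8
    · exact k0 u u1
    have hi : inp c.2.1 u = false := if_neg (by omega)
    rw [hi]
    by_cases u2 : u < 16
    · obtain ⟨w, rfl⟩ : ∃ w, u = 8 + w := ⟨u - 8, by omega⟩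
      rw [It_add, h0]; exact k1 w (by omega)
    by_cases u3 : u < 24
    · obtain ⟨w, rfl⟩ : ∃ w, u = 16 + w := ⟨u - 16, by omega⟩
      rw [It_add, a1]; exact k2 w (by omega)
    by_cases u4 : u < 32
    · obtain ⟨w, rfl⟩ : ∃ w, u = 24 + w := ⟨u - 24, by omega⟩
      rw [It_add, a2]; exact k3 w (by omega)
    · obtain ⟨w, rfl⟩ : ∃ w, u = 32 + w := ⟨u - 32, by omega⟩
      rw [It_add, a3]; exact k4 w (by omega)

def sel (B : Blk) (e : ℕ) : Cell :=
  if e = 0 then B.1 else if e = 1 then B.2.1 else if e = 2 then B.2.2.1 else B.2.2.2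

def un (t : Fin 40) (B : ℕ → Blk) (n : ℕ) : St :=
  (⟨n % 4, Nat.mod_lt _ (by norm_num)⟩, t, sel (B (n / 4)) (n % 4))

theorem f_un (t : Fin 40) (B : ℕ → Blk) :
    f (un t B) = un (t + 1) fun j => G t (B j) (B (j + 1)).1.2.1 := by
  funext n
  have h : n % 4 = 0 ∨ n % 4 = 1 ∨ n % 4 = 2 ∨ n % 4 = 3 := by omega
  rcases h with h | h | h | h
  · simp [f, F, un, sel, G, h, show (n + 1) % 4 = 1 by omega, show (n + 1) / 4 = n / 4 by omega]
  · simp [f, F, un, sel, G, h, show (n + 1) % 4 = 2 by omega, show (n + 1) / 4 = n / 4 by omega]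
  · simp [f, F, un, sel, G, h, show (n + 1) % 4 = 3 by omega, show (n + 1) / 4 = n / 4 by omega]
  · simp [f, F, un, sel, G, h, show (n + 1) % 4 = 0 by omega, show (n + 1) / 4 = n / 4 + 1 by omega]

def φ (x : ℕ → St) : ℕ → St := un 0 fun j => enc (x j)

theorem sim_t (x : ℕ → St) (t : ℕ) (ht : t ≤ 40) :
    f^[t] (φ x) = un (Fin.ofNat 40 t) fun j => It (enc (x j)) (x (j + 1)).2.2.2.1 0 t := by
  induction t with
  | zero => rfl
  | succ t ih =>
    rw [iterate_succ_apply', ih (by omega), f_un]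
    congr 1
    · ext; simp [Fin.val_add]
    · funext j
      rw [(full (x (j + 1)) (x (j + 1 + 1))).2 t (by omega), It, zero_add]
      congr 1
      simp; omega

theorem sim (x : ℕ → St) : f^[40] (φ x) = φ (f x) := by
  rw [sim_t x 40 le_rfl]
  exact congrArg (un 0) (funext fun j => (full (x j) (x (j + 1))).1)

theorem phase (x : ℕ → St) (t i : ℕ) :
    ((f^[t] (φ x) i).1 : ℕ) = i % 4 ∧ ((f^[t] (φ x) i).2.1 : ℕ) = t % 40 := by
  induction t with
  | zero => exact ⟨rfl, rfl⟩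
  | succ t ih =>
    rw [iterate_succ_apply']
    refine ⟨ih.1, ?_⟩
    show (((f^[t] (φ x) i).2.1 + 1 : Fin 40) : ℕ) = _
    rw [Fin.val_add, ih.2]; simp

theorem dec {x y : ℕ → St} {j : ℕ} (h : ∀ e < 4, φ x (4 * j + e) = φ y (4 * j + e)) : x j = y j := by
  have h0 := h 0 (by omega)
  have h1 := h 1 (by omega)
  have h2 := h 2 (by omega)
  have h3 := h 3 (by omega)
  have d : ∀ e < 4, (4 * j + e) / 4 = j ∧ (4 * j + e) % 4 = e := fun e he => by omega
  simp [φ, un, sel, enc, blk, d 1, d 2, d 3] at h0 h1 h2 h3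
  exact Prod.ext h2.1 (Prod.ext h2.2 (Prod.ext h3 (Prod.ext h0 h1)))

def σ (r : ℕ) (x : ℕ → St) (i : ℕ) : St := x (i + r)

theorem f_σ (r : ℕ) (x : ℕ → St) : f (σ r x) = σ r (f x) := by
  funext i; simp [f, σ, add_right_comm]

theorem fi_σ (r n : ℕ) (x : ℕ → St) : f^[n] (σ r x) = σ r (f^[n] x) :=
  (Semiconj.iterate_right (f := σ r) (fun x => (f_σ r x).symm) n x).symm

theorem φ_σ (x : ℕ → St) : φ (σ 1 x) = σ 4 (φ x) := by
  funext i; simp [φ, σ, un]

theorem rad {F : St → St → St} {f : (ℕ → St) → ℕ → St} (hf : ∀ x i, f x i = F (x i) (x (i + 1)))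
    (n : ℕ) {x y : ℕ → St} {a : ℕ} (h : ∀ i, a ≤ i → i ≤ a + n → x i = y i) :
    f^[n] x a = f^[n] y a := by
  induction n generalizing a with
  | zero => exact h a le_rfl le_rfl
  | succ n ih =>
    rw [iterate_succ_apply', iterate_succ_apply', hf, hf, ih fun i h1 h2 => h i h1 (by omega),
      ih fun i h1 h2 => h i (by omega) (by omega)]

theorem left {x y : ℕ → St} {N b : ℕ} (hb : ∀ n ≤ N, f^[n] x b = f^[n] y b) (d : ℕ) :
    ∀ a, a + d = b → (∀ i, a ≤ i → i < b → x i = y i) → ∀ n ≤ N, f^[n] x a = f^[n] y a := by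
  induction d with
  | zero => rintro a rfl _; exact hb
  | succ d ih =>
    intro a ha h n hn
    have := ih (a + 1) (by omega) fun i h1 h2 => h i (by omega) h2
    induction n with
    | zero => exact h a le_rfl (by omega)
    | succ n ih2 =>
      rw [iterate_succ_apply', iterate_succ_apply', f, f, ih2 (by omega), this n (by omega)]

end Pool.Agent.H63.OneWay
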