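import Pool.Agent.H63.OneWay2

set_option autoImplicit false
open Function Set

namespace Pool.Agent.H63.OneWay

def X : ℕ → Set (ℕ → St)
  | 0 => univ
  | k + 1 => {x | ∃ r < 4, ∃ s < 40, ∃ z ∈ X k, x = σ r (f^[s] (φ z))}

theorem X_f (k : ℕ) : ∀ x ∈ X k, f x ∈ X k := by
  induction k with
  | zero => exact fun _ _ => trivial
  | succ k ih =>
    rintro _ ⟨r, hr, s, hs, z, hz, rfl⟩
    rw [f_σ, ← iterate_succ_apply' f]
    by_cases h : s + 1 < 40
    · exact ⟨r, hr, s + 1, h, z, hz, rfl⟩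
    · obtain rfl : s = 39 := by omega
      exact ⟨r, hr, 0, by omega, f z, ih z hz, congrArg _ (sim z)⟩

theorem X_fi (k n : ℕ) : ∀ x ∈ X k, f^[n] x ∈ X k := fun _ h => MapsTo.iterate (X_f k) n h

theorem X_g (k : ℕ) : ∀ x ∈ X k, ∃ y ∈ X k, f y = x := by
  induction k with
  | zero => exact fun x _ => ⟨g x, trivial, f_g x⟩
  | succ k ih =>
    rintro _ ⟨r, hr, s, hs, z, hz, rfl⟩
    rcases s with _ | s
    · obtain ⟨w, hw, rfl⟩ := ih z hz
      refine ⟨_, ⟨r, hr, 39, by omega, w, hw, rfl⟩, ?_⟩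
      rw [f_σ, ← iterate_succ_apply' f]
      exact congrArg _ (sim w)
    · exact ⟨_, ⟨r, hr, s, by omega, z, hz, rfl⟩, by rw [f_σ, ← iterate_succ_apply' f]⟩

theorem X_σ (k : ℕ) : ∀ x ∈ X k, σ 1 x ∈ X k := by
  induction k with
  | zero => exact fun _ _ => trivial
  | succ k ih =>
    rintro _ ⟨r, hr, s, hs, z, hz, rfl⟩
    have e : ∀ w, σ 1 (σ r w) = σ (r + 1) w := fun w => by funext i; simp only [σ]; congr 1; omega
    rw [e]
    by_cases h : r + 1 < 4
    · exact ⟨r + 1, h, s, hs, z, hz, rfl⟩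
    · obtain rfl : r = 3 := by omega
      exact ⟨0, by omega, s, hs, σ 1 z, ih z hz, by rw [φ_σ, fi_σ]; rfl⟩

theorem X_anti (k : ℕ) : X (k + 1) ⊆ X k := by
  induction k with
  | zero => exact fun _ _ => trivial
  | succ k ih => rintro _ ⟨r, hr, s, hs, z, hz, rfl⟩; exact ⟨r, hr, s, hs, z, ih hz, rfl⟩

theorem X_cpt (k : ℕ) : IsCompact (X k) ∧ (X k).Nonempty := by
  induction k with
  | zero => exact ⟨isCompact_univ, univ_nonempty⟩
  | succ k ih =>
    have cf : Continuous f := continuous_pi fun i =>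
      (continuous_of_discreteTopology (f := fun p : St × St => F p.1 p.2)).comp
        (f := fun x : ℕ → St => (x i, x (i + 1))) (by fun_prop)
    have cφ : Continuous φ := continuous_pi fun i =>
      (continuous_of_discreteTopology (f := fun p : St => φ (fun _ => p) i)).comp
        (continuous_apply (i / 4))
    have e : X (k + 1) = ⋃ r ∈ Iio 4, ⋃ s ∈ Iio 40, (fun z => σ r (f^[s] (φ z))) '' X k := by
      ext x; simp [X, eq_comm]
    obtain ⟨z, hz⟩ := ih.2
    refine ⟨?_, _, 0, by omega, 0, by omega, z, hz, rfl⟩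
    rw [e]
    exact (finite_Iio 4).isCompact_biUnion fun r _ => (finite_Iio 40).isCompact_biUnion fun s _ =>
      ih.1.image ((continuous_pi fun i => continuous_apply (i + r)).comp ((cf.iterate s).comp cφ))

theorem sim_q (q : ℕ) (z : ℕ → St) : f^[40 * q] (φ z) = φ (f^[q] z) := by
  rw [iterate_mul]
  exact (Semiconj.iterate_right (f := φ) (fun x => (sim x).symm) q z).symm

theorem rk (k : ℕ) : ∀ x ∈ X k, ∀ y ∈ X k, ∀ a, (∀ i, a ≤ i → i ≤ a + 100 * 5 ^ k → x i = y i) →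
    ∀ n ≤ 40 ^ k + 1, f^[n] x a = f^[n] y a := by
  induction k with
  | zero => exact fun x _ y _ a h n hn => rad (fun _ _ => rfl) n fun i h1 h2 => h i h1 (by omega)
  | succ k ih =>
    rintro _ ⟨r, hr, s, hs, z, hz, rfl⟩ _ ⟨r', hr', s', hs', z', hz', rfl⟩ a h n hn
    have p1 := phase z s (a + r)
    have p2 := phase z' s' (a + r')
    have h0 : f^[s] (φ z) (a + r) = f^[s'] (φ z') (a + r') := h a le_rfl (by omega)
    rw [h0] at p1
    obtain rfl : r = r' := by omega
    obtain rfl : s = s' := by omega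
    have p5 : 1 ≤ 5 ^ k := Nat.one_le_pow _ _ (by omega)
    have h1 : ∀ i, a + r ≤ i → i ≤ a + r + 500 * 5 ^ k → f^[s] (φ z) i = f^[s] (φ z') i :=
      fun i h1 h2 => by
        have := h (i - r) (by omega) (by omega)
        simpa only [σ, show i - r + r = i by omega] using this
    have h2 : ∀ i, a + r ≤ i → i + 40 ≤ a + r + 500 * 5 ^ k → φ z i = φ z' i := fun i h2 h3 => by
      have := rad (f := g) (fun _ _ => rfl) s (a := i) fun j h4 h5 => h1 j (by omega) (by omega)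
      rwa [LeftInverse.iterate g_f, LeftInverse.iterate g_f] at this
    obtain ⟨j, hj⟩ : ∃ j, j = (a + r) / 4 + 1 := ⟨_, rfl⟩
    have h3 : ∀ i, j ≤ i → i ≤ j + 11 + 100 * 5 ^ k → z i = z' i := fun i h3 h4 =>
      dec fun e he => h2 _ (by omega) (by omega)
    rw [fi_σ, fi_σ]
    refine left (N := 40 ^ (k + 1) + 1) (b := 4 * j) (fun n hn => ?_) (4 * j - (a + r)) (a + r)
      (by omega) (fun i h4 h5 => h1 i h4 (by omega)) n hn
    rw [← iterate_add_apply, ← iterate_add_apply, ← Nat.mod_add_div (n + s) 40, iterate_add_apply,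
      iterate_add_apply, sim_q, sim_q]
    refine rad (fun _ _ => rfl) _ fun i h4 h5 => ?_
    have := ih z hz z' hz' (i / 4) (fun l h6 h7 => h3 l (by omega) (by omega)) ((n + s) / 40) (by omega)
    simp only [φ, un, this]

theorem rm (k m : ℕ) : ∀ x ∈ X k, ∀ y ∈ X k, ∀ a,
    (∀ i, a ≤ i → i ≤ a + 100 * 5 ^ k * m → x i = y i) →
    ∀ n ≤ 40 ^ k * m, f^[n] x a = f^[n] y a := by
  induction m with
  | zero =>
    intro x _ y _ a h n hn
    obtain rfl : n = 0 := by omega
    exact h a le_rfl (by omega)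
  | succ m ih =>
    intro x hx y hy a h n hn
    rw [mul_add_one] at h hn
    by_cases hN : n ≤ 40 ^ k
    · exact rk k x hx y hy a (fun i h1 h2 => h i h1 (by omega)) n (by omega)
    · obtain ⟨l, rfl⟩ : ∃ l, n = l + 40 ^ k := ⟨n - 40 ^ k, by omega⟩
      rw [iterate_add_apply, iterate_add_apply]
      exact ih _ (X_fi k _ x hx) _ (X_fi k _ y hy) a (fun i h1 h2 =>
        rk k x hx y hy i (fun l h3 h4 => h l (by omega) (by omega)) _ (by omega)) l (by omega)

def Y : Set (ℕ → St) := ⋂ k, X k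

theorem Y_ne : Y.Nonempty :=
  IsCompact.nonempty_iInter_of_sequence_nonempty_isCompact_isClosed X X_anti
    (fun k => (X_cpt k).2) (X_cpt 0).1 fun k => (X_cpt k).1.isClosed

theorem Y_φ {x : ℕ → St} (h : x ∈ Y) : φ x ∈ Y :=
  mem_iInter.2 fun k => X_anti k ⟨0, by omega, 0, by omega, x, mem_iInter.1 h k, rfl⟩

theorem Y_σ {x : ℕ → St} (h : x ∈ Y) (r : ℕ) : σ r x ∈ Y := by
  induction r with
  | zero => exact h
  | succ r ih =>
    have e : σ (r + 1) x = σ 1 (σ r x) := by funext i; simp only [σ]; congr 1; omega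
    exact e ▸ mem_iInter.2 fun k => X_σ k _ (mem_iInter.1 ih k)

theorem inf_order (n : ℕ) (hn : 0 < n) : ¬∀ x ∈ Y, f^[n] x = x := by
  induction n using Nat.strong_induction_on with
  | _ n ih =>
    intro h
    obtain ⟨x, hx⟩ := Y_ne
    have p := (phase x n 0).2
    rw [h _ (Y_φ hx)] at p
    have p0 : ((φ x 0).2.1 : ℕ) = 0 := rfl
    obtain ⟨q, rfl⟩ : ∃ q, n = 40 * q := ⟨n / 40, by omega⟩
    refine ih q (by omega) (by omega) fun y hy => funext fun j => dec fun e _ => ?_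
    rw [← sim_q, h _ (Y_φ hy)]

theorem unb (R : ℕ) : ∃ n : ℕ, ∃ x ∈ Y, ∃ y ∈ Y, (∀ i ≤ R, x i = y i) ∧ f^[n] x 0 ≠ f^[n] y 0 := by
  classical
  by_contra! h
  let T : ℕ → (Fin (R + 1) → St) → St := fun n w =>
    if h : ∃ x ∈ Y, (fun i : Fin (R + 1) => x i) = w then f^[n] h.choose 0 else w 0
  have hT : ∀ n, ∀ x ∈ Y, T n (fun i => x i) = f^[n] x 0 := fun n x hx => by
    have e : ∃ y ∈ Y, (fun i : Fin (R + 1) => y i) = fun i : Fin (R + 1) => x i := ⟨x, hx, rfl⟩
    simp only [T, dif_pos e]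
    exact h n _ e.choose_spec.1 x hx fun i hi => congrFun e.choose_spec.2 ⟨i, by omega⟩
  obtain ⟨n, m, hne, e⟩ := Finite.exists_ne_map_eq_of_infinite T
  wlog hlt : n < m generalizing n m
  · exact this m n hne.symm e.symm (by omega)
  obtain ⟨d, rfl⟩ : ∃ d, m = n + d := ⟨m - n, by omega⟩
  refine inf_order d (by omega) fun x hx => ((LeftInverse.injective g_f).iterate n) ?_
  rw [← iterate_add_apply]
  funext i
  have := (hT n _ (Y_σ hx i)).symm.trans (e ▸ hT (n + d) _ (Y_σ hx i))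
  rw [fi_σ, fi_σ] at this
  simpa [σ] using this.symm

end Pool.Agent.H63.OneWay
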