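import Pool.Agent.H63.PGDefs

set_option autoImplicit false

/-! One-ND rule normal form for propagating programmed grammars. -/

namespace Pool.Agent.H63.PG

open Relation

inductive NN (T N Ψ : Type)
  | s | a0 | m (Y Z : Symbol T N) (q : Ψ) | o (A : N)

inductive LL (T N Ψ : Type)
  | nd | ini (q q' : Ψ) | one (a : T) | al (Y Z : Symbol T N) (q q' : Ψ) | be (q : Ψ)
  | mm (Z : Symbol T N) (q q' : Ψ) | ga (Y : Symbol T N) (q q' : Ψ) | gb (q : Ψ)
  | en (a b : T) (q : Ψ) | de (b : T)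

variable {T N Ψ : Type}

instance [Fintype T] [Fintype N] [Fintype Ψ] : Fintype (NN T N Ψ) :=
  Fintype.ofEquiv _ (proxy_equiv% (NN T N Ψ))

instance [Fintype T] [Fintype N] [Fintype Ψ] : Fintype (LL T N Ψ) :=
  Fintype.ofEquiv _ (proxy_equiv% (LL T N Ψ))

def e1 : Symbol T N → Symbol T (NN T N Ψ)
  | .terminal a => .terminal a
  | .nonterminal A => .nonterminal (.o A)

abbrev ee (u : List (Symbol T N)) : List (Symbol T (NN T N Ψ)) := u.map e1

variable (G : PG T N Ψ)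

def Rch (u : List (Symbol T N)) (q : Ψ) : Prop :=
  ∃ p, ReflTransGen G.Step ([.nonterminal G.start], p) (u, q)

def hh (x : List (Symbol T N)) : Symbol T N := x.headD (.nonterminal G.start)

def nf : PG T (NN T N Ψ) (LL T N Ψ) where
  start := .s
  lhs
    | .nd => .a0
    | .ini _ _ => .s
    | .one _ => .s
    | .al Y Z q _ => .m Y Z q
    | .be q => .o (G.lhs q)
    | .mm Z q _ => .m (.nonterminal (G.lhs q)) Z q
    | .ga Y q _ => .m Y (.nonterminal (G.lhs q)) q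
    | .gb _ => .a0
    | .en a b q => .m (.terminal a) (.terminal b) q
    | .de _ => .a0
  rhs
    | .nd => [.nonterminal .a0]
    | .ini q q' => .nonterminal (.m (hh G (G.rhs q)) (hh G (G.rhs q).tail) q') ::
        .nonterminal .a0 :: ee (G.rhs q).tail.tail
    | .one a => [.terminal a]
    | .al Y Z _ q' => [.nonterminal (.m Y Z q')]
    | .be q => ee (G.rhs q)
    | .mm Z q q' => .nonterminal (.m (hh G (G.rhs q)) Z q') :: ee (G.rhs q).tail
    | .ga Y q q' => [.nonterminal (.m Y (hh G (G.rhs q)) q')]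
    | .gb q => .nonterminal .a0 :: ee (G.rhs q).tail
    | .en a _ _ => [.terminal a]
    | .de b => [.terminal b]
  σ
    | .nd => {l | l = .nd ∨ (∃ Y Z q q', l = .al Y Z q q') ∨ (∃ Z q q', l = .mm Z q q') ∨
        (∃ Y q q', l = .ga Y q q') ∨ ∃ a b q, l = .en a b q}
    | .ini q q' => {l | l = .nd ∧ q' ∈ G.σ q ∧ (G.rhs q).tail ≠ [] ∧
        Rch G [.nonterminal (G.lhs q)] q}
    | .one a => {l | l = .one a ∧ [a] ∈ G.lang}
    | .al _ _ q q' => {l | l = .be q ∧ q' ∈ G.σ q}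
    | .be _ => {.nd}
    | .mm _ q q' => {l | l = .nd ∧ q' ∈ G.σ q}
    | .ga _ q q' => {l | l = .gb q ∧ q' ∈ G.σ q}
    | .gb _ => {.nd}
    | .en _ b _ => {.de b}
    | .de b => {.de b}

theorem nf_prop (h : G.Propagating) : (nf G).Propagating := by
  intro r
  cases r <;> simp [nf, h _]

theorem nf_one : (nf G).OneND := by
  have : ∀ r, ((nf G).σ r).Nontrivial → r = .nd := by
    intro r ⟨x, hx, y, hy, hne⟩
    cases r <;> simp only [nf, Set.mem_ofPred_eq, Set.mem_singleton_iff] at hx hy <;>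
      first | rfl | exact absurd (hx.trans hy.symm) hne | exact absurd (hx.1.trans hy.1.symm) hne
  exact fun r r' h h' => (this r h).trans (this r' h').symm

theorem hh_tail {x : List (Symbol T N)} (h : x ≠ []) : hh G x :: x.tail = x := by
  cases x with
  | nil => exact absurd rfl h
  | cons a x => rfl

theorem split2 {α : Type} {p s u r : List α} {X : α} (h : p ++ X :: s = u ++ r) :
    (∃ v, u = p ++ X :: v ∧ s = v ++ r) ∨ ∃ p', p = u ++ p' ∧ r = p' ++ X :: s := by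
  rcases List.append_eq_append_iff.1 h with ⟨c, rfl, e⟩ | ⟨c, rfl, e⟩
  · cases c with
    | nil => exact Or.inr ⟨[], by simp, by simpa using e.symm⟩
    | cons x c => cases e; exact Or.inl ⟨c, rfl, rfl⟩
  · exact Or.inr ⟨c, rfl, e⟩

theorem split5 {α : Type} {p s u1 u2 u3 : List α} {X Y Z : α}
    (h : p ++ X :: s = u1 ++ Y :: (u2 ++ Z :: u3)) :
    (∃ v, u1 = p ++ X :: v ∧ s = v ++ Y :: (u2 ++ Z :: u3)) ∨
    (p = u1 ∧ X = Y ∧ s = u2 ++ Z :: u3) ∨
    (∃ p' v, u2 = p' ++ X :: v ∧ p = u1 ++ Y :: p' ∧ s = v ++ Z :: u3) ∨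
    (p = u1 ++ Y :: u2 ∧ X = Z ∧ s = u3) ∨
    ∃ p', u3 = p' ++ X :: s ∧ p = u1 ++ Y :: (u2 ++ Z :: p') := by
  rcases split2 h with h | ⟨p', rfl, e⟩
  · exact Or.inl h
  cases p' with
  | nil => cases e; simp
  | cons y p' =>
    obtain ⟨rfl, e2⟩ := List.cons.inj e
    clear e h
    rcases split2 e2.symm with ⟨v, rfl, rfl⟩ | ⟨p'', rfl, e⟩
    · exact Or.inr (Or.inr (Or.inl ⟨_, _, rfl, rfl, rfl⟩))
    cases p'' with
    | nil => obtain ⟨rfl, rfl⟩ := List.cons.inj e; simp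
    | cons z p'' =>
      obtain ⟨rfl, rfl⟩ := List.cons.inj e
      exact Or.inr (Or.inr (Or.inr (Or.inr ⟨_, rfl, rfl⟩)))

theorem ee_split {u : List (Symbol T N)} {p s : List (Symbol T (NN T N Ψ))} {X : NN T N Ψ}
    (h : ee u = p ++ .nonterminal X :: s) :
    ∃ v1 A v2, u = v1 ++ .nonterminal A :: v2 ∧ X = .o A ∧ p = ee v1 ∧ s = ee v2 := by
  obtain ⟨v1, v2, rfl, rfl, h2⟩ := List.map_eq_append_iff.1 h
  obtain ⟨Y, v2, rfl, h3, rfl⟩ := List.map_eq_cons_iff.1 h2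
  cases Y with
  | terminal a => simp [e1] at h3
  | nonterminal A => exact ⟨v1, A, v2, rfl, by simpa [e1] using h3.symm, rfl, rfl⟩

def KK : LL T N Ψ → List (Symbol T N) → List (Symbol T N) → List (Symbol T N) →
    Symbol T N → Symbol T N → Ψ → Prop
  | .be q0, u1, u2, u3, Y, Z, q => q ∈ G.σ q0 ∧ Rch G (u1 ++ Y :: (u2 ++ Z :: u3)) q0
  | .gb q0, u1, u2, u3, Y, Z, q => Z = hh G (G.rhs q0) ∧ q ∈ G.σ q0 ∧
      Rch G (u1 ++ Y :: (u2 ++ .nonterminal (G.lhs q0) :: u3)) q0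
  | .de _, _, _, _, _, _, _ => False
  | _, u1, u2, u3, Y, Z, q => Rch G (u1 ++ Y :: (u2 ++ Z :: u3)) q

def Inv (c : List (Symbol T (NN T N Ψ)) × LL T N Ψ) : Prop :=
  c.1 = [.nonterminal .s] ∨
  (∃ u1 u2 u3 Y Z q, c.1 = ee u1 ++ .nonterminal (.m Y Z q) :: (ee u2 ++ .nonterminal .a0 :: ee u3) ∧
    KK G c.2 u1 u2 u3 Y Z q) ∨
  (∃ u1 u3 b q, c.1 = ee u1 ++ .nonterminal .a0 :: ee u3 ∧ c.2 = .de b ∧
    Rch G (u1 ++ .terminal b :: u3) q) ∨
  ∃ u q, c.1 = ee u ∧ ((nf G).lhs c.2 = .s ∨ (nf G).lhs c.2 = .a0) ∧ Rch G u q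

theorem Rch.step {G : PG T N Ψ} {u v : List (Symbol T N)} {q q' : Ψ} (h : Rch G u q)
    (u1 u2 : List (Symbol T N)) (e1 : u = u1 ++ .nonterminal (G.lhs q) :: u2)
    (e2 : v = u1 ++ G.rhs q ++ u2) (hq : q' ∈ G.σ q) : Rch G v q' :=
  h.imp fun _ k => k.tail ⟨u1, u2, e1, e2, hq⟩

theorem inv_step (hp : G.Propagating) {c c' : List (Symbol T (NN T N Ψ)) × LL T N Ψ}
    (h : Inv G c) (k : (nf G).Step c c') : Inv G c' := by
  obtain ⟨u, l⟩ := c
  obtain ⟨v, l'⟩ := c'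
  obtain ⟨p, s, e, rfl, hl⟩ := k
  simp only at e hl
  obtain rfl | ⟨u1, u2, u3, Y, Z, q, rfl, h⟩ | ⟨u1, u3, b, q, rfl, rfl, h⟩ | ⟨u, q, rfl, h, -⟩ := h
  · obtain ⟨rfl, e2, rfl⟩ : p = [] ∧ (nf G).lhs l = .s ∧ s = [] := by
      cases p <;> simp_all
    cases l with
    | ini q0 q1 =>
      obtain ⟨rfl, h1, h2, h3⟩ := hl
      exact Or.inr (Or.inl ⟨[], [], (G.rhs q0).tail.tail, hh G (G.rhs q0), hh G (G.rhs q0).tail, q1,
        by simp [nf], h3.step [] [] rfl (by simp [hh_tail G h2, hh_tail G (hp _)]) h1⟩)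
    | one a =>
      obtain ⟨rfl, _, q, h⟩ := hl
      exact Or.inr (Or.inr (Or.inr ⟨[.terminal _], q, rfl, Or.inl rfl, _, h⟩))
    | _ => simp [nf] at e2
  · simp only at h
    rcases split5 e.symm with ⟨v, e2, rfl⟩ | ⟨rfl, e2, rfl⟩ | ⟨p', v, e2, rfl, rfl⟩ |
      ⟨rfl, e2, rfl⟩ | ⟨p', e2, rfl⟩
    · obtain ⟨v1, A, v2, rfl, e3, rfl, rfl⟩ := ee_split e2
      cases l <;> simp only [nf, reduceCtorEq, NN.o.injEq] at e3
      rename_i q0
      obtain rfl : l' = .nd := hl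
      subst e3
      exact Or.inr (Or.inl ⟨v1 ++ G.rhs q0 ++ v2, u2, u3, Y, Z, q, by simp [nf],
        h.2.step v1 (v2 ++ Y :: (u2 ++ Z :: u3)) (by simp) (by simp) h.1⟩)
    · clear e
      cases l with
      | al Y' Z' q0 q1 =>
        cases e2
        obtain ⟨rfl, h1⟩ := hl
        exact Or.inr (Or.inl ⟨u1, u2, u3, Y, Z, q1, by simp [nf], h1, h⟩)
      | mm Z' q0 q1 =>
        cases e2
        obtain ⟨rfl, h1⟩ := hl
        exact Or.inr (Or.inl ⟨u1, (G.rhs q).tail ++ u2, u3, hh G (G.rhs q), Z, q1, by simp [nf],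
          Rch.step h u1 _ rfl (by rw [List.append_assoc, List.append_assoc, ← List.cons_append,
            hh_tail G (hp _)]) h1⟩)
      | ga Y' q0 q1 =>
        cases e2
        obtain ⟨rfl, h1⟩ := hl
        exact Or.inr (Or.inl ⟨u1, u2, u3, Y, _, q1, by simp [nf], rfl, h1, h⟩)
      | en a b q0 =>
        cases e2
        obtain rfl : l' = .de _ := hl
        exact Or.inr (Or.inr (Or.inl ⟨u1 ++ .terminal a :: u2, u3, b, q, by simp [nf, e1], rfl,
          by simpa [KK] using h⟩))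
      | _ => simp [nf] at e2
    · obtain ⟨v1, A, v2, rfl, e3, rfl, rfl⟩ := ee_split e2
      cases l <;> simp only [nf, reduceCtorEq, NN.o.injEq] at e3
      rename_i q0
      obtain rfl : l' = .nd := hl
      subst e3
      exact Or.inr (Or.inl ⟨u1, v1 ++ G.rhs q0 ++ v2, u3, Y, Z, q, by simp [nf],
        h.2.step (u1 ++ Y :: v1) (v2 ++ Z :: u3) (by simp) (by simp) h.1⟩)
    · cases l with
      | nd =>
        refine Or.inr (Or.inl ⟨u1, u2, u3, Y, Z, q, by simp [nf], ?_⟩)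
        obtain rfl | ⟨_, _, _, _, rfl⟩ | ⟨_, _, _, rfl⟩ | ⟨_, _, _, rfl⟩ | ⟨_, _, _, rfl⟩ := hl <;>
          exact h
      | gb q0 =>
        obtain rfl : l' = .nd := hl
        obtain ⟨rfl, h1, h2⟩ := h
        exact Or.inr (Or.inl ⟨u1, u2, (G.rhs q0).tail ++ u3, Y, hh G (G.rhs q0), q, by simp [nf],
          h2.step (u1 ++ Y :: u2) u3 (by simp) (by
            rw [← List.cons_append (as := (G.rhs q0).tail), hh_tail G (hp _)]; simp) h1⟩)
      | de => exact h.elim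
      | _ => simp [nf] at e2
    · obtain ⟨v1, A, v2, rfl, e3, rfl, rfl⟩ := ee_split e2
      cases l <;> simp only [nf, reduceCtorEq, NN.o.injEq] at e3
      rename_i q0
      obtain rfl : l' = .nd := hl
      subst e3
      exact Or.inr (Or.inl ⟨u1, u2, v1 ++ G.rhs q0 ++ v2, Y, Z, q, by simp [nf],
        h.2.step (u1 ++ Y :: (u2 ++ Z :: v1)) v2 (by simp) (by simp) h.1⟩)
  · obtain rfl : l' = .de b := hl
    rcases split2 e.symm with ⟨v, e2, -⟩ | ⟨p', rfl, e2⟩
    · obtain ⟨v1, A, v2, -, e3, -⟩ := ee_split e2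
      simp [nf] at e3
    · cases p' with
      | nil =>
        obtain ⟨-, rfl⟩ := List.cons.inj e2
        exact Or.inr (Or.inr (Or.inr ⟨_, q, by simp [nf, e1], Or.inr rfl, h⟩))
      | cons x p' =>
        obtain ⟨v1, A, v2, -, e3, -⟩ := ee_split (List.cons.inj e2).2
        simp [nf] at e3
  · obtain ⟨v1, A, v2, -, e3, -⟩ := ee_split e
    simp [e3] at h

theorem mk {l l' : LL T N Ψ} {u v : List (Symbol T (NN T N Ψ))} (p s : List (Symbol T (NN T N Ψ)))
    (e1 : u = p ++ .nonterminal ((nf G).lhs l) :: s) (e2 : v = p ++ (nf G).rhs l ++ s)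
    (h : l' ∈ (nf G).σ l) : (nf G).Step (u, l) (v, l') := ⟨p, s, e1, e2, h⟩

theorem sim (hp : G.Propagating) (p0 : Ψ) (c : List (Symbol T N) × Ψ)
    (h : ReflTransGen G.Step ([.nonterminal G.start], p0) c) : c.1.length = 1 ∨
      ∃ u1 u2 u3 Y Z l, c.1 = u1 ++ Y :: (u2 ++ Z :: u3) ∧ ReflTransGen (nf G).Step
        ([.nonterminal .s], l)
        (ee u1 ++ .nonterminal (.m Y Z c.2) :: (ee u2 ++ .nonterminal .a0 :: ee u3), .nd) := by
  induction h with
  | refl => exact Or.inl rfl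
  | @tail b c k0 k ih =>
    obtain ⟨u, q⟩ := b
    obtain ⟨v, q'⟩ := c
    obtain ⟨p, s, e, rfl, hq⟩ := k
    simp only at e hq ih ⊢
    rcases ih with ih | ⟨u1, u2, u3, Y, Z, l, rfl, ih⟩
    · subst e
      obtain ⟨rfl, rfl⟩ : p = [] ∧ s = [] := by
        simp only [List.length_append, List.length_cons] at ih
        exact ⟨List.length_eq_zero_iff.1 (by omega), List.length_eq_zero_iff.1 (by omega)⟩
      by_cases h2 : (G.rhs q).tail = []
      · left; rw [← hh_tail G (hp q), h2]; rfl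
      · exact Or.inr ⟨[], [], (G.rhs q).tail.tail, hh G (G.rhs q), hh G (G.rhs q).tail, .ini q q',
          by simp [hh_tail G h2, hh_tail G (hp q)],
          .single (mk G [] [] rfl (by simp [nf]) ⟨rfl, hq, h2, p0, k0⟩)⟩
    right
    have n0 : ∀ l', l' ∈ (nf G).σ .nd → ReflTransGen (nf G).Step ([.nonterminal .s], l)
        (ee u1 ++ .nonterminal (.m Y Z q) :: (ee u2 ++ .nonterminal .a0 :: ee u3), l') :=
      fun l' hl => ih.tail (mk G (ee u1 ++ .nonterminal (.m Y Z q) :: ee u2) (ee u3) (by simp [nf])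
        (by simp [nf]) hl)
    have n1 := (n0 (.al Y Z q q') (by simp [nf])).tail (mk G (l' := .be q) (ee u1) _ rfl rfl ⟨rfl, hq⟩)
    rcases split5 e.symm with ⟨v, rfl, rfl⟩ | ⟨rfl, rfl, rfl⟩ | ⟨p', v, rfl, rfl, rfl⟩ |
      ⟨rfl, rfl, rfl⟩ | ⟨p', rfl, rfl⟩
    · exact ⟨p ++ G.rhs q ++ v, u2, u3, Y, Z, l, by simp, n1.tail (mk G (ee p)
        (ee v ++ .nonterminal (.m Y Z q') :: (ee u2 ++ .nonterminal .a0 :: ee u3))
        (by simp [nf, e1]) (by simp [nf]) rfl)⟩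
    · exact ⟨p, (G.rhs q).tail ++ u2, u3, hh G (G.rhs q), Z, l, by
        rw [List.append_assoc, List.append_assoc, ← List.cons_append, hh_tail G (hp q)],
        (n0 (.mm Z q q') (by simp [nf])).tail (mk G (ee p) _ rfl (by simp [nf]) ⟨rfl, hq⟩)⟩
    · exact ⟨u1, p' ++ G.rhs q ++ v, u3, Y, Z, l, by simp, n1.tail (mk G
        (ee u1 ++ .nonterminal (.m Y Z q') :: ee p') (ee v ++ .nonterminal .a0 :: ee u3)
        (by simp [nf, e1]) (by simp [nf]) rfl)⟩
    · exact ⟨u1, u2, (G.rhs q).tail ++ s, Y, hh G (G.rhs q), l, by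
        rw [← List.cons_append (as := (G.rhs q).tail), hh_tail G (hp q)]; simp,
        ((n0 (.ga Y q q') (by simp [nf])).tail (mk G (l' := .gb q) (ee u1) _ rfl rfl ⟨rfl, hq⟩)).tail
        (mk G (ee u1 ++ .nonterminal (.m Y (hh G (G.rhs q)) q') :: ee u2) (ee s) (by simp [nf])
          (by simp [nf]) rfl)⟩
    · exact ⟨u1, u2, p' ++ G.rhs q ++ s, Y, Z, l, by simp, n1.tail (mk G
        (ee u1 ++ .nonterminal (.m Y Z q') :: (ee u2 ++ .nonterminal .a0 :: ee p')) (ee s)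
        (by simp [nf, e1]) (by simp [nf]) rfl)⟩

theorem ee_ter (w : List T) : (ee (w.map .terminal) : List (Symbol T (NN T N Ψ))) = w.map .terminal := by
  simp [e1]

theorem nf_lang (hp : G.Propagating) : (nf G).lang = G.lang := by
  ext w
  constructor
  · rintro ⟨p, q, h⟩
    have : ∀ c, ReflTransGen (nf G).Step ([.nonterminal .s], p) c → Inv G c := by
      intro c k
      induction k with
      | refl => exact Or.inl rfl
      | tail _ k ih => exact inv_step G hp ih k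
    have nt : ∀ X : NN T N Ψ, Symbol.nonterminal X ∉ w.map Symbol.terminal := by simp
    obtain e | ⟨u1, u2, u3, Y, Z, q, e, -⟩ | ⟨u1, u3, b, q, e, -⟩ | ⟨u, q, e, -, p, k⟩ := this _ h
    · exact absurd (by simp only at e; simp [e]) (nt .s)
    · exact absurd (by simp only at e; simp [e]) (nt .a0)
    · exact absurd (by simp only at e; simp [e]) (nt .a0)
    · have inj : Function.Injective (e1 : Symbol T N → Symbol T (NN T N Ψ)) := by
        rintro (a | a) (b | b) h <;> simp_all [e1]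
      simp only at e
      rw [← ee_ter (N := N) (Ψ := Ψ)] at e
      exact ⟨p, q, (List.map_injective_iff.2 inj) e ▸ k⟩
  · rintro ⟨p, q, h⟩
    rcases sim G hp p _ h with k | ⟨u1, u2, u3, Y, Z, l, e, k⟩
    · obtain ⟨a, rfl⟩ := List.length_eq_one_iff.1 (by simpa using k)
      exact ⟨.one a, .one a, .single (mk G [] [] rfl rfl ⟨rfl, p, q, h⟩)⟩
    · simp only at e k
      obtain ⟨w1, w2, rfl, rfl, e2⟩ := List.map_eq_append_iff.1 e
      obtain ⟨a, w2, rfl, rfl, e3⟩ := List.map_eq_cons_iff.1 e2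
      obtain ⟨w2, w3, rfl, rfl, e4⟩ := List.map_eq_append_iff.1 e3
      obtain ⟨b, w3, rfl, rfl, rfl⟩ := List.map_eq_cons_iff.1 e4
      simp only [ee_ter] at k
      exact ⟨l, .de b, ((k.tail (mk G (l' := .en a b q) (w1.map .terminal ++ .nonterminal
        (.m (.terminal a) (.terminal b) q) :: w2.map .terminal) (w3.map .terminal) (by simp [nf])
        rfl (by simp [nf]))).tail (mk G (l' := .de b) (w1.map .terminal)
        (w2.map .terminal ++ .nonterminal .a0 :: w3.map .terminal) (by simp [nf]) rfl rfl)).tail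
        (mk G (w1.map .terminal ++ .terminal a :: w2.map .terminal) (w3.map .terminal)
          (by simp [nf]) (by simp [nf]) rfl)⟩

end Pool.Agent.H63.PG
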