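import Mathlib

set_option autoImplicit false

/-! Programmed grammars without appearance checking. -/

namespace Pool.Agent.H63.PG

/-- A programmed grammar with terminals `T`, nonterminals `N` and labels `Ψ`: one rule
`(r : lhs r → rhs r, σ r)` for each label `r`. -/
structure PG (T N Ψ : Type) where
  start : N
  lhs : Ψ → N
  rhs : Ψ → List (Symbol T N)
  σ : Ψ → Set Ψ

variable {T N Ψ : Type}

def PG.Step (G : PG T N Ψ) (c c' : List (Symbol T N) × Ψ) : Prop :=
  ∃ u1 u2, c.1 = u1 ++ Symbol.nonterminal (G.lhs c.2) :: u2 ∧ c'.1 = u1 ++ G.rhs c.2 ++ u2 ∧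
    c'.2 ∈ G.σ c.2

def PG.lang (G : PG T N Ψ) : Set (List T) :=
  {w | ∃ p q, Relation.ReflTransGen G.Step ([Symbol.nonterminal G.start], p)
    (w.map Symbol.terminal, q)}

def PG.Propagating (G : PG T N Ψ) : Prop := ∀ r, G.rhs r ≠ []

/-- at most one rule has a success field with two or more labels -/
def PG.OneND (G : PG T N Ψ) : Prop := ∀ r r', (G.σ r).Nontrivial → (G.σ r').Nontrivial → r = r'

end Pool.Agent.H63.PG
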