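import Mathlib

set_option autoImplicit false

namespace Pool.Agent.H63.PHJ

open Finset

/-- unordered pairs from `γ`, written with the smaller entry first -/
def sq (γ : Finset ℕ) : Finset (ℕ × ℕ) := (γ ×ˢ γ).filter (fun p => p.1 ≤ p.2)

lemma mem_sq {γ : Finset ℕ} {j k : ℕ} : (j, k) ∈ sq γ ↔ j ∈ γ ∧ k ∈ γ ∧ j ≤ k := by
  simp [sq, and_assoc]

lemma sq_mono {γ δ : Finset ℕ} (h : γ ⊆ δ) : sq γ ⊆ sq δ := by
  rintro ⟨j, k⟩ hp
  rw [mem_sq] at hp ⊢
  exact ⟨h hp.1, h hp.2.1, hp.2.2⟩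

lemma sq_empty : sq ∅ = ∅ := by simp [sq]

def Edge {κ : Type} (n : ℕ) (C : Finset (ℕ × ℕ) → κ) : Prop :=
  ∃ S γ, S ⊆ sq (range n) ∧ γ ⊆ range n ∧ γ.Nonempty ∧ Disjoint S (sq γ) ∧ C (S ∪ sq γ) = C S

def Focus {κ : Type} (n s : ℕ) (C : Finset (ℕ × ℕ) → κ) : Prop :=
  ∃ f ⊆ sq (range n), ∃ K : Finset κ, s ≤ K.card ∧
    ∀ c ∈ K, ∃ γ, γ ⊆ range n ∧ γ.Nonempty ∧ Disjoint f (sq γ) ∧ C (f ∪ sq γ) = c

lemma edge_lift {κ : Type} {n n' : ℕ} (hn : n ≤ n') (C : Finset (ℕ × ℕ) → κ) (X : Finset (ℕ × ℕ))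
    (hX : X ⊆ sq (range n')) (hd : ∀ p ∈ X, n ≤ p.2) (h : Edge n (fun S => C (S ∪ X))) :
    Edge n' C := by
  obtain ⟨S, γ, h1, h2, h3, h4, h5⟩ := h
  have hr : range n ⊆ range n' := range_subset_range.2 hn
  refine ⟨S ∪ X, γ, union_subset (h1.trans (sq_mono hr)) hX, h2.trans hr, h3, ?_, ?_⟩
  · rw [disjoint_union_left]
    refine ⟨h4, disjoint_left.2 ?_⟩
    rintro ⟨j, k⟩ hp hq
    have := hd _ hp
    have := mem_range.1 (h2 (mem_sq.1 hq).2.1)
    simp only at *
    omega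
  · simp only at h5
    rw [← h5, union_right_comm]

theorem focus (κ : Type) [Finite κ] (s : ℕ) :
    ∃ n, ∀ C : Finset (ℕ × ℕ) → κ, Edge n C ∨ Focus n s C := by
  classical
  induction s with
  | zero => exact ⟨0, fun C => Or.inr ⟨∅, empty_subset _, ∅, le_rfl, by simp⟩⟩
  | succ s ih =>
    obtain ⟨n, hn⟩ := ih
    obtain ⟨ι, hι, hHJ⟩ := Combinatorics.Line.exists_mono_in_high_dimension
      ↥((range n).powerset) (↥((sq (range n)).powerset) → κ)
    let e : ι → ℕ := fun i => n + (Fintype.equivFin ι i : ℕ)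
    have he : Function.Injective e := fun i j h =>
      (Fintype.equivFin ι).injective (Fin.ext (Nat.add_left_cancel h))
    have hen : ∀ i, n ≤ e i := fun i => Nat.le_add_right _ _
    have heN : ∀ i, e i < n + Fintype.card ι := fun i =>
      Nat.add_lt_add_left (Fintype.equivFin ι i).2 _
    refine ⟨n + Fintype.card ι, fun C => ?_⟩
    generalize n + Fintype.card ι = n' at *
    clear_value e
    let cross : (ι → ↥((range n).powerset)) → Finset (ℕ × ℕ) := fun v =>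
      univ.biUnion fun i => (v i).1.image (fun j => (j, e i))
    have mcross : ∀ v j k, (j, k) ∈ cross v ↔ ∃ i, k = e i ∧ j ∈ (v i).1 := by
      intro v j k
      simp only [cross, mem_biUnion, mem_univ, true_and, mem_image, Prod.mk.injEq]
      constructor
      · rintro ⟨i, a, ha, rfl, rfl⟩; exact ⟨i, rfl, ha⟩
      · rintro ⟨i, rfl, h⟩; exact ⟨i, j, h, rfl, rfl⟩
    clear_value cross
    have hlt : ∀ (x : ↥((range n).powerset)) j, j ∈ x.1 → j < n := fun x j hj =>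
      mem_range.1 (mem_powerset.1 x.2 hj)
    set E := univ.image e with hE
    have mE : ∀ k, k ∈ E ↔ ∃ i, k = e i := by
      intro k; simp only [hE, mem_image, mem_univ, true_and]
      exact ⟨fun ⟨i, h⟩ => ⟨i, h.symm⟩, fun ⟨i, h⟩ => ⟨i, h.symm⟩⟩
    clear_value E
    obtain ⟨l, c0, hc0⟩ := hHJ (fun v S => C (S.1 ∪ (cross v ∪ sq E)))
    let o : ↥((range n).powerset) := ⟨∅, empty_mem_powerset _⟩
    set δ := (univ.filter (fun i => l.idxFun i = none)).image e with hδ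
    have mδ : ∀ k, k ∈ δ ↔ ∃ i, k = e i ∧ l.idxFun i = none := by
      intro k; simp only [hδ, mem_image, mem_filter, mem_univ, true_and]
      exact ⟨fun ⟨i, h, h'⟩ => ⟨i, h'.symm, h⟩, fun ⟨i, h, h'⟩ => ⟨i, h', h.symm⟩⟩
    clear_value δ
    obtain ⟨i0, hi0⟩ := l.proper
    have hnn : n ≤ n' := (hen i0).trans (heN i0).le
    have hδne : δ.Nonempty := ⟨e i0, (mδ _).2 ⟨i0, rfl, hi0⟩⟩
    have lo : ∀ i j, j ∈ (l o i).1 → l.idxFun i ≠ none ∧ ∀ x, l x i = l o i := by
      intro i j hj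
      cases h : l.idxFun i with
      | none => rw [l.apply_none _ _ h] at hj; simp [o] at hj
      | some a => exact ⟨by simp, fun x => by rw [l.apply_some h, l.apply_some h]⟩
    have hXsub : cross (l o) ∪ sq E ⊆ sq (range n') := by
      rintro ⟨j, k⟩ hp
      rw [mem_union, mcross, mem_sq, mE, mE] at hp
      rw [mem_sq, mem_range, mem_range]
      rcases hp with ⟨i, rfl, h⟩ | ⟨⟨i, rfl⟩, ⟨i', rfl⟩, h⟩
      · have := hlt _ _ h; have := hen i; have := heN i; omega
      · exact ⟨heN _, heN _, h⟩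
    have hXd : ∀ p ∈ cross (l o) ∪ sq E, n ≤ p.2 := by
      rintro ⟨j, k⟩ hp
      rw [mem_union, mcross, mem_sq, mE, mE] at hp
      rcases hp with ⟨i, rfl, h⟩ | ⟨-, ⟨i', rfl⟩, h⟩ <;> exact hen _
    rcases hn (fun S => C (S ∪ (cross (l o) ∪ sq E))) with hedge | ⟨f, hf, K, hK, hfoc⟩
    · exact Or.inl (edge_lift hnn C _ hXsub hXd hedge)
    by_cases hc : C (f ∪ (cross (l o) ∪ sq E)) ∈ K
    · obtain ⟨γ, h1, h2, h3, h4⟩ := hfoc _ hc
      exact Or.inl (edge_lift hnn C _ hXsub hXd ⟨f, γ, hf, h1, h2, h3, h4⟩)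
    right
    have key : ∀ γ, γ ⊆ range n → Disjoint f (sq γ) → γ ∪ δ ⊆ range n' ∧ (γ ∪ δ).Nonempty ∧
        Disjoint (f ∪ (cross (l o) ∪ (sq E \ sq δ))) (sq (γ ∪ δ)) ∧
        C (f ∪ (cross (l o) ∪ (sq E \ sq δ)) ∪ sq (γ ∪ δ)) =
          C (f ∪ sq γ ∪ (cross (l o) ∪ sq E)) := by
      intro γ hγ hd
      have hγ' : ∀ j ∈ γ, j < n := fun j hj => mem_range.1 (hγ hj)
      have hδ' : ∀ j ∈ δ, n ≤ j := fun j hj => by
        obtain ⟨i, rfl, -⟩ := (mδ _).1 hj; exact hen i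
      let x : ↥((range n).powerset) := ⟨γ, mem_powerset.2 hγ⟩
      refine ⟨?_, hδne.mono subset_union_right, ?_, ?_⟩
      · intro j hj
        rw [mem_range]
        rcases mem_union.1 hj with h | h
        · have := hγ' j h; omega
        · obtain ⟨i, rfl, -⟩ := (mδ _).1 h; exact heN i
      · rw [disjoint_left]
        rintro ⟨j, k⟩ hp hq
        rw [mem_sq, mem_union, mem_union] at hq
        obtain ⟨q1, q2, q3⟩ := hq
        rw [mem_union, mem_union, mem_sdiff, mcross, mem_sq, mem_sq, mE, mE] at hp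
        rcases hp with hp | ⟨i, rfl, h⟩ | ⟨⟨⟨i, rfl⟩, ⟨i', rfl⟩, h⟩, h'⟩
        · have h0 := mem_sq.1 (hf hp)
          rw [mem_range, mem_range] at h0
          rcases q1 with q1 | q1
          · rcases q2 with q2 | q2
            · exact disjoint_left.1 hd hp (mem_sq.2 ⟨q1, q2, q3⟩)
            · have := hδ' _ q2; omega
          · have := hδ' _ q1; omega
        · rcases q2 with q2 | q2
          · have := hγ' _ q2; have := hen i; omega
          · obtain ⟨i', h1, h2⟩ := (mδ _).1 q2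
            rw [← he h1] at h2
            exact (lo i j h).1 h2
        · rcases q1 with q1 | q1
          · have := hγ' _ q1; have := hen i; omega
          · rcases q2 with q2 | q2
            · have := hγ' _ q2; have := hen i'; omega
            · exact h' ⟨q1, q2, q3⟩
      · have hS : f ∪ sq γ ∈ (sq (range n)).powerset :=
          mem_powerset.2 (union_subset hf (sq_mono hγ))
        have e1 := congrFun ((hc0 x).trans (hc0 o).symm) ⟨_, hS⟩
        simp only at e1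
        rw [← e1]
        congr 1
        ext ⟨j, k⟩
        simp only [mem_union, mem_sdiff, mcross, mem_sq, mE]
        constructor
        · rintro ((hp | ⟨i, rfl, h⟩ | ⟨h, -⟩) | ⟨q1 | q1, q2 | q2, q3⟩)
          · exact Or.inl (Or.inl hp)
          · exact Or.inr (Or.inl ⟨i, rfl, by rw [(lo i j h).2 x]; exact h⟩)
          · exact Or.inr (Or.inr h)
          · exact Or.inl (Or.inr ⟨q1, q2, q3⟩)
          · obtain ⟨i, rfl, h⟩ := (mδ _).1 q2
            exact Or.inr (Or.inl ⟨i, rfl, by rw [l.apply_none _ _ h]; exact q1⟩)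
          · have := hγ' _ q2; have := hδ' _ q1; omega
          · obtain ⟨i, rfl, -⟩ := (mδ _).1 q1
            obtain ⟨i', rfl, -⟩ := (mδ _).1 q2
            exact Or.inr (Or.inr ⟨⟨i, rfl⟩, ⟨i', rfl⟩, q3⟩)
        · rintro ((hp | ⟨q1, q2, q3⟩) | ⟨i, rfl, h⟩ | h)
          · exact Or.inl (Or.inl hp)
          · exact Or.inr ⟨Or.inl q1, Or.inl q2, q3⟩
          · cases h' : l.idxFun i with
            | none =>
              rw [l.apply_none _ _ h'] at h
              have := hγ' _ h; have := hen i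
              exact Or.inr ⟨Or.inl h, Or.inr ((mδ _).2 ⟨i, rfl, h'⟩), by omega⟩
            | some a =>
              rw [l.apply_some h'] at h
              exact Or.inl (Or.inr (Or.inl ⟨i, rfl, by rw [l.apply_some h']; exact h⟩))
          · by_cases hq : j ∈ δ ∧ k ∈ δ ∧ j ≤ k
            · exact Or.inr ⟨Or.inr hq.1, Or.inr hq.2.1, hq.2.2⟩
            · exact Or.inl (Or.inr (Or.inr ⟨h, hq⟩))
    refine ⟨f ∪ (cross (l o) ∪ (sq E \ sq δ)), ?_, insert (C (f ∪ (cross (l o) ∪ sq E))) K, ?_, ?_⟩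
    · refine union_subset (hf.trans (sq_mono (range_subset_range.2 hnn))) (Subset.trans ?_ hXsub)
      exact union_subset_union_right sdiff_subset
    · rw [card_insert_of_notMem hc]; omega
    · intro c hc'
      rcases mem_insert.1 hc' with rfl | hc'
      · obtain ⟨k1, k2, k3, k4⟩ := key ∅ (empty_subset _) (by simp [sq_empty])
        exact ⟨_, k1, k2, k3, by rw [k4, sq_empty, union_empty]⟩
      · obtain ⟨γ, h1, h2, h3, h4⟩ := hfoc c hc'
        obtain ⟨k1, k2, k3, k4⟩ := key γ h1 h3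
        exact ⟨_, k1, k2, k3, k4.trans h4⟩

/-- polynomial Hales Jewett, degree two, two letters -/
theorem phj {κ : Type} [Finite κ] (C : Finset (ℕ × ℕ) → κ) : ∃ n, Edge n C := by
  classical
  haveI := Fintype.ofFinite κ
  obtain ⟨n, hn⟩ := focus κ (Fintype.card κ + 1)
  rcases hn C with h | ⟨f, -, K, hK, -⟩
  · exact ⟨n, h⟩
  · have := card_le_univ K
    omega

def ex (p : ℕ × ℕ) : ℕ := 3 ^ p.1 + 3 ^ p.2

lemma ex_inj {j k j' k' : ℕ} (h1 : j ≤ k) (h2 : j' ≤ k') (h : ex (j, k) = ex (j', k')) :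
    j = j' ∧ k = k' := by
  simp only [ex] at h
  have a1 : 3 ^ j ≤ 3 ^ k := Nat.pow_le_pow_right (by norm_num) h1
  have a2 : 3 ^ j' ≤ 3 ^ k' := Nat.pow_le_pow_right (by norm_num) h2
  have a3 : 0 < 3 ^ j := by positivity
  have a4 : 0 < 3 ^ j' := by positivity
  have hk : k = k' := by
    rcases lt_trichotomy k k' with hh | hh | hh
    · have : 3 ^ (k + 1) ≤ 3 ^ k' := Nat.pow_le_pow_right (by norm_num) hh
      rw [pow_succ] at this; omega
    · exact hh
    · have : 3 ^ (k' + 1) ≤ 3 ^ k := Nat.pow_le_pow_right (by norm_num) hh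
      rw [pow_succ] at this; omega
  subst hk
  exact ⟨Nat.pow_right_injective (by norm_num : 2 ≤ 3) (by simpa using h), rfl⟩

open Classical in
noncomputable def cf (e : ℕ) : ℤ := if ∃ j, e = ex (j, j) then 1 else 2

lemma cf_ex {j k : ℕ} (h : j ≤ k) : cf (ex (j, k)) = if j = k then 1 else 2 := by
  unfold cf
  by_cases hjk : j = k
  · rw [if_pos ⟨j, by rw [hjk]⟩, if_pos hjk]
  · rw [if_neg, if_neg hjk]
    rintro ⟨i, hi⟩
    have := ex_inj h le_rfl hi
    omega

lemma cf_cases (e : ℕ) : cf e = 1 ∨ cf e = 2 := by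
  unfold cf; split_ifs <;> simp

def om : GaussianInt := ⟨10, 5⟩

noncomputable def val (S : Finset ℕ) : GaussianInt := ∑ e ∈ S, (cf e : GaussianInt) * om ^ e

lemma sum_sq (γ : Finset ℕ) : ∑ p ∈ sq γ, (cf (ex p) : GaussianInt) * om ^ ex p =
    (∑ j ∈ γ, om ^ 3 ^ j) ^ 2 := by
  have h1 : ∑ p ∈ sq γ, (cf (ex p) : GaussianInt) * om ^ ex p =
      ∑ j ∈ γ, ∑ k ∈ γ, ((if j ≤ k then om ^ 3 ^ j * om ^ 3 ^ k else 0) +
        (if j < k then om ^ 3 ^ j * om ^ 3 ^ k else 0)) := by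
    rw [sq, sum_filter, sum_product]
    refine sum_congr rfl fun j _ => sum_congr rfl fun k _ => ?_
    simp only
    rcases lt_trichotomy j k with h | h | h
    · rw [if_pos h.le, if_pos h.le, if_pos h, cf_ex h.le, if_neg h.ne, ex, pow_add]
      push_cast; ring
    · rw [if_pos h.le, if_pos h.le, if_neg (by omega), cf_ex h.le, if_pos h, ex, pow_add]
      push_cast; ring
    · rw [if_neg (by omega), if_neg (by omega), if_neg (by omega), add_zero]
  rw [h1]
  simp only [sum_add_distrib]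
  rw [sum_comm (f := fun j k => if j < k then om ^ 3 ^ j * om ^ 3 ^ k else 0), ← sum_add_distrib,
    _root_.sq, sum_mul_sum]
  refine sum_congr rfl fun j _ => ?_
  rw [← sum_add_distrib]
  refine sum_congr rfl fun k _ => ?_
  by_cases h : j ≤ k
  · rw [if_pos h, if_neg (by omega), add_zero]
  · rw [if_neg h, if_pos (by omega), zero_add, mul_comm]

theorem mono_square {κ : Type} [Finite κ] (C : Finset ℕ → κ) :
    ∃ S T : Finset ℕ, S ≠ T ∧ C S = C T ∧ ∃ z : GaussianInt, val S - val T = z ^ 2 := by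
  classical
  obtain ⟨n, S, γ, h1, h2, ⟨j, hj⟩, h4, h5⟩ := phj (fun S => C (S.image ex))
  have hinj : Set.InjOn ex (sq (range n)) := by
    rintro ⟨a, b⟩ hp ⟨c, d⟩ hq h
    have := ex_inj (mem_sq.1 hp).2.2 (mem_sq.1 hq).2.2 h
    rw [this.1, this.2]
  have hsub : S ∪ sq γ ⊆ sq (range n) := union_subset h1 (sq_mono h2)
  refine ⟨(S ∪ sq γ).image ex, S.image ex, ?_, h5, ∑ j ∈ γ, om ^ 3 ^ j, ?_⟩
  · intro h
    have hjj : (j, j) ∈ sq γ := mem_sq.2 ⟨hj, hj, le_rfl⟩
    have : ex (j, j) ∈ S.image ex := h ▸ mem_image_of_mem _ (mem_union_right _ hjj)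
    obtain ⟨p, hp, hp'⟩ := mem_image.1 this
    rw [hinj (h1 hp) (sq_mono h2 hjj) hp'] at hp
    exact disjoint_left.1 h4 hp hjj
  · unfold val
    rw [sum_image (hinj.mono hsub), sum_image (hinj.mono h1), sum_union h4, sum_sq]
    ring

def D (S T : Finset ℕ) (m : ℕ) : Prop := ¬ (m ∈ S ↔ m ∈ T) ∧ ∀ e < m, (e ∈ S ↔ e ∈ T)

lemma exists_D {S T : Finset ℕ} (h : S ≠ T) : ∃ m, D S T m := by
  classical
  have hex : ∃ m, ¬ (m ∈ S ↔ m ∈ T) := by
    by_contra hcon
    push Not at hcon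
    exact h (Finset.ext hcon)
  exact ⟨Nat.find hex, Nat.find_spec hex, fun e he => not_not.1 (Nat.find_min hex he)⟩

lemma D_tri {S T U : Finset ℕ} {a b c : ℕ} (h1 : D S T a) (h2 : D S U b) (h3 : D T U c) :
    (a = b ∧ a < c) ∨ (a = c ∧ a < b) ∨ (b = c ∧ b < a) := by
  have e1 : ¬ (a < b ∧ a < c) := fun h => h1.1 ((h2.2 a h.1).trans (h3.2 a h.2).symm)
  have e2 : ¬ (b < a ∧ b < c) := fun h => h2.1 ((h1.2 b h.1).trans (h3.2 b h.2))
  have e3 : ¬ (c < a ∧ c < b) := fun h => h3.1 ((h1.2 c h.1).symm.trans (h2.2 c h.2))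
  have e4 : ¬ (a = b ∧ b = c) := by
    rintro ⟨rfl, rfl⟩
    have := h1.1; have := h2.1; have := h3.1
    tauto
  omega

def U5 (u : GaussianInt) : Prop := u.im % 5 = 0 ∧ u.re % 5 ≠ 0

lemma U5.mul {u v : GaussianInt} (hu : U5 u) (hv : U5 v) : U5 (u * v) := by
  obtain ⟨a, ha⟩ := Int.dvd_of_emod_eq_zero hu.1
  obtain ⟨b, hb⟩ := Int.dvd_of_emod_eq_zero hv.1
  constructor
  · rw [Zsqrtd.im_mul, ha, hb]
    exact Int.emod_eq_zero_of_dvd ⟨u.re * b + a * v.re, by ring⟩
  · intro h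
    have h1 := Int.dvd_of_emod_eq_zero h
    rw [Zsqrtd.re_mul, ha, show u.re * v.re + -1 * (5 * a) * v.im = u.re * v.re + 5 * (-a * v.im) by
      ring, dvd_add_left (Dvd.intro _ rfl)] at h1
    rcases (Int.prime_iff_natAbs_prime.2 (by norm_num) : Prime (5 : ℤ)).dvd_or_dvd h1 with h | h
    · exact hu.2 (Int.emod_eq_zero_of_dvd h)
    · exact hv.2 (Int.emod_eq_zero_of_dvd h)

lemma U5.conj {u : GaussianInt} (hu : U5 u) : U5 (star u) := by
  obtain ⟨h1, h2⟩ := hu
  constructor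
  · rw [Zsqrtd.im_star]; omega
  · rw [Zsqrtd.re_star]; exact h2

lemma factor {S T : Finset ℕ} {m : ℕ} (h : D S T m) : ∃ u, val S - val T = om ^ m * u ∧ U5 u := by
  classical
  let a : ℕ → ℤ := fun e => (if e ∈ S then cf e else 0) - (if e ∈ T then cf e else 0)
  have ha : ∀ e < m, a e = 0 := fun e he => by
    simp only [a, h.2 e he, sub_self]
  have hm : m ∈ S ∪ T := by
    have := h.1; rw [mem_union]; tauto
  have ham : a m = cf m ∨ a m = -cf m := by
    have := h.1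
    by_cases h1 : m ∈ S <;> by_cases h2 : m ∈ T <;> simp [a, h1, h2] at this ⊢
  have h1 : val S - val T = ∑ e ∈ S ∪ T, (a e : GaussianInt) * om ^ e := by
    have hv : ∀ R : Finset ℕ, R ⊆ S ∪ T → val R =
        ∑ e ∈ S ∪ T, ((if e ∈ R then cf e else 0 : ℤ) : GaussianInt) * om ^ e := by
      intro R hR
      unfold val
      exact sum_subset_zero_on_sdiff hR (fun e he => by simp [(mem_sdiff.1 he).2])
        (fun e he => by simp [he])
    rw [hv S subset_union_left, hv T subset_union_right, ← sum_sub_distrib]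
    refine sum_congr rfl fun e _ => ?_
    simp only [a]; push_cast; ring
  refine ⟨∑ e ∈ S ∪ T, (a e : GaussianInt) * om ^ (e - m), ?_, ?_⟩
  · rw [h1, mul_sum]
    refine sum_congr rfl fun e _ => ?_
    by_cases he : e < m
    · simp [ha e he]
    · rw [mul_left_comm, ← pow_add, show m + (e - m) = e by omega]
  · rw [← add_sum_erase _ _ hm]
    obtain ⟨t, ht⟩ : (5 : GaussianInt) ∣ ∑ e ∈ (S ∪ T).erase m, (a e : GaussianInt) * om ^ (e - m) := by
      apply dvd_sum
      intro e he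
      have hne := ne_of_mem_erase he
      by_cases hlt : e < m
      · simp [ha e hlt]
      · apply Dvd.dvd.mul_left
        exact Dvd.dvd.pow ⟨⟨2, 1⟩, by decide⟩ (by omega)
    rw [ht]
    have h5 : (5 : GaussianInt) = ((5 : ℤ) : GaussianInt) := by simp
    have := cf_cases m
    constructor
    · simp only [Nat.sub_self, pow_zero, mul_one, Zsqrtd.im_add, Zsqrtd.im_intCast, h5,
        Zsqrtd.im_smul]
      omega
    · simp only [Nat.sub_self, pow_zero, mul_one, Zsqrtd.re_add, Zsqrtd.re_intCast, h5,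
        Zsqrtd.re_smul]
      omega

lemma pi_pow (k : ℕ) : (((⟨2, 1⟩ : GaussianInt) ^ (k + 1)).re -
    2 * ((⟨2, 1⟩ : GaussianInt) ^ (k + 1)).im) % 5 = 0 ∧
      ((⟨2, 1⟩ : GaussianInt) ^ (k + 1)).im % 5 ≠ 0 := by
  induction k with
  | zero => decide
  | succ k ih =>
    rw [pow_succ, Zsqrtd.re_mul, Zsqrtd.im_mul]
    simp only
    omega

lemma not_real' {M k : ℕ} {u : GaussianInt} (hu : U5 u) :
    (om ^ (M + (k + 1)) * star (om ^ M) * u).im ≠ 0 := by
  have e : om ^ (M + (k + 1)) * star (om ^ M) * u =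
      ((125 ^ M * 5 ^ (k + 1) : ℤ) : GaussianInt) * ((⟨2, 1⟩ : GaussianInt) ^ (k + 1) * u) := by
    have h1 : om * star om = 125 := by decide
    have h2 : om = 5 * ⟨2, 1⟩ := by decide
    rw [star_pow, pow_add, mul_right_comm (om ^ M), ← mul_pow, h1]
    conv_lhs => rw [h2, mul_pow]
    push_cast; ring
  rw [e, Zsqrtd.im_smul]
  apply mul_ne_zero (by positivity)
  intro h
  have h1 := (U5.mul (u := ⟨((⟨2, 1⟩ : GaussianInt) ^ (k + 1)).im, 0⟩) ⟨rfl, (pi_pow k).2⟩ hu).2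
  rw [Zsqrtd.im_mul] at h
  rw [Zsqrtd.re_mul] at h1
  obtain ⟨a, ha⟩ := Int.dvd_of_emod_eq_zero hu.1
  apply h1
  apply Int.emod_eq_zero_of_dvd
  refine ⟨-(((⟨2, 1⟩ : GaussianInt) ^ (k + 1)).re * a), ?_⟩
  rw [ha] at h
  simp only
  linear_combination h

lemma not_real {M M' : ℕ} (h : M ≠ M') {u : GaussianInt} (hu : U5 u) :
    (om ^ M * star (om ^ M') * u).im ≠ 0 := by
  rcases lt_or_gt_of_ne h with h | h
  · obtain ⟨k, rfl⟩ := Nat.exists_eq_add_of_lt h
    intro h0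
    apply not_real' (M := M) (k := k) hu.conj
    have : om ^ (M + (k + 1)) * star (om ^ M) * star u =
        star (om ^ M * star (om ^ (M + k + 1)) * u) := by
      simp only [star_mul', star_star, add_assoc]; ring
    rw [this, Zsqrtd.im_star, h0, neg_zero]
  · obtain ⟨k, rfl⟩ := Nat.exists_eq_add_of_lt h
    exact not_real' (k := k) hu

lemma three {S T U : Finset ℕ} {a b : ℕ} (h1 : D S T a) (h2 : D S U b) (h : a ≠ b) :
    ((val S - val T) * star (val S - val U)).im ≠ 0 := by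
  obtain ⟨u, e1, u1⟩ := factor h1
  obtain ⟨v, e2, u2⟩ := factor h2
  have := not_real h (u1.mul u2.conj)
  rw [e1, e2, star_mul']
  convert this using 2
  ring

lemma four {S T U V : Finset ℕ} {a b c d : ℕ} (h1 : D S T a) (h2 : D U V b) (h3 : D S U c)
    (h4 : D T V d) (h : a + b ≠ c + d) :
    ((val S - val T) * (val U - val V) * star ((val S - val U) * (val T - val V))).im ≠ 0 := by
  obtain ⟨u1, e1, v1⟩ := factor h1
  obtain ⟨u2, e2, v2⟩ := factor h2
  obtain ⟨u3, e3, v3⟩ := factor h3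
  obtain ⟨u4, e4, v4⟩ := factor h4
  have := not_real h ((v1.mul v2).mul (v3.mul v4).conj)
  rw [e1, e2, e3, e4]
  convert this using 2
  simp only [star_mul', pow_add]
  ring

lemma D.symm {S T : Finset ℕ} {m : ℕ} (h : D S T m) : D T S m :=
  ⟨fun hh => h.1 hh.symm, fun e he => (h.2 e he).symm⟩

lemma val_inj : Function.Injective val := by
  intro S T h
  by_contra hne
  obtain ⟨m, hm⟩ := exists_D hne
  obtain ⟨u, e, hu⟩ := factor hm
  rw [h, sub_self] at e
  rcases mul_eq_zero.1 e.symm with h0 | h0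
  · exact absurd (pow_eq_zero_iff' .. |>.1 h0).1 (by decide)
  · rw [h0] at hu
    exact hu.2 rfl

end Pool.Agent.H63.PHJ
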