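import Pool.Agent.H63.PLDefs

/-! Definable predicates of plactic monoids. -/

set_option autoImplicit false

namespace Pool.Agent.H63.PL

variable {A : Type} [LinearOrder A]

def g (a : A) : Plac A := PresentedMonoid.of _ a

def hom {M : Type} [Monoid M] (f : A → M)
    (h1 : ∀ x y z, x ≤ y → y < z → f x * (f z * f y) = f z * (f x * f y))
    (h2 : ∀ x y z, x < y → y ≤ z → f y * (f x * f z) = f y * (f z * f x)) : Plac A →* M :=
  PresentedMonoid.lift f (by
    intro a b h
    rw [← FreeMonoid.ofList_toList a, ← FreeMonoid.ofList_toList b]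
    generalize a.toList = u at h
    generalize b.toList = v at h
    cases h with
    | one h h' => simpa [FreeMonoid.lift_ofList] using h1 _ _ _ h h'
    | two h h' => simpa [FreeMonoid.lift_ofList] using h2 _ _ _ h h')

@[simp] theorem hom_g {M : Type} [Monoid M] (f : A → M) (h1 h2) (a : A) :
    hom f h1 h2 (g a) = f a := rfl

theorem k1 {x y z : A} (h : x ≤ y) (h' : y < z) : g x * (g z * g y) = g z * (g x * g y) :=
  PresentedMonoid.mk_eq_mk_of_rel (x := .ofList [x, z, y]) (y := .ofList [z, x, y])
    (Knuth.one h h')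

theorem k2 {x y z : A} (h : x < y) (h' : y ≤ z) : g y * (g x * g z) = g y * (g z * g x) :=
  PresentedMonoid.mk_eq_mk_of_rel (x := .ofList [y, x, z]) (y := .ofList [y, z, x])
    (Knuth.two h h')

def W (l : List A) : Plac A := (l.map g).prod

@[simp] theorem W_nil : W ([] : List A) = 1 := rfl
@[simp] theorem W_cons (a : A) (l : List A) : W (a :: l) = g a * W l := by simp [W]
@[simp] theorem W_append (l l' : List A) : W (l ++ l') = W l * W l' := by simp [W]
theorem W_replicate (a : A) (n : ℕ) : W (List.replicate n a) = g a ^ n := by simp [W]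

theorem exists_W (s : Plac A) : ∃ l, s = W l := by
  obtain ⟨a, rfl⟩ := PresentedMonoid.surjective_mk s
  induction a with
  | one => exact ⟨[], rfl⟩
  | of x => exact ⟨[x], by simp; rfl⟩
  | mul x y hx hy =>
    obtain ⟨l, hl⟩ := hx
    obtain ⟨l', hl'⟩ := hy
    exact ⟨l ++ l', by rw [map_mul, hl, hl', W_append]⟩

def ctH : Plac A →* Multiplicative (Multiset A) :=
  hom (fun a => Multiplicative.ofAdd {a}) (fun _ _ _ _ _ => mul_left_comm _ _ _)
    (fun _ _ _ _ _ => by rw [mul_comm (Multiplicative.ofAdd _) (Multiplicative.ofAdd _)])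

/-- the content -/
def ct (s : Plac A) : Multiset A := (ctH s).toAdd

@[simp] theorem ct_mul (s t : Plac A) : ct (s * t) = ct s + ct t := by simp [ct]
@[simp] theorem ct_one : ct (1 : Plac A) = 0 := by simp [ct]
@[simp] theorem ct_g (a : A) : ct (g a) = {a} := rfl
@[simp] theorem ct_pow (s : Plac A) (n : ℕ) : ct (s ^ n) = n • ct s := by simp [ct]
@[simp] theorem ct_W (l : List A) : ct (W l) = l := by
  induction l with
  | nil => simp
  | cons a l ih => simp [ih]

theorem eq_one_of_ct {s : Plac A} (h : ct s = 0) : s = 1 := by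
  obtain ⟨l, rfl⟩ := exists_W s
  have : l = [] := by simpa using h
  simp [this]

theorem g_ne_one (a : A) : g a ≠ 1 := fun h => by simpa using congrArg ct h

theorem g_inj {a b : A} (h : g a = g b) : a = b := by simpa using congrArg ct h

theorem pow_inj {a : A} {m n : ℕ} (h : g a ^ m = g a ^ n) : m = n := by
  simpa using congrArg (fun s => (ct s).card) h

section preds

variable {M : Type} [Monoid M]

def Gen (x : M) : Prop := ¬ x = 1 ∧ ∀ u v, x = u * v → u = 1 ∨ v = 1
def Mem (x s : M) : Prop := ∃ u v, s = u * x * v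
def Lt (x y : M) : Prop := ¬ x = y ∧ x * (y * x) = y * (x * x)
def Suc (x y : M) : Prop := Gen y ∧ Lt x y ∧ ∀ z, Gen z → Lt x z → ¬ Lt z y
def Pw (x p : M) : Prop := ∀ z, Gen z → Mem z p → z = x
def Rd (S x p : M) : Prop := Pw x p ∧ ∃ u v, S = u * p * v ∧ ¬ Mem x u ∧ ¬ Mem x v
def EqE (x y p q : M) : Prop := q * p * x = x * (q * p) ∧ q * p * y = y * (q * p)

end preds

theorem gen_iff {x : Plac A} : Gen x ↔ ∃ a, x = g a := by
  constructor
  · rintro ⟨h1, h2⟩
    obtain ⟨l, rfl⟩ := exists_W x
    cases l with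
    | nil => exact absurd rfl h1
    | cons a l =>
      rcases h2 _ _ (W_cons a l) with h | h
      · exact absurd h (g_ne_one a)
      · exact ⟨a, by simp [h]⟩
  · rintro ⟨a, rfl⟩
    refine ⟨g_ne_one a, fun u v h => ?_⟩
    have := congrArg (fun s => (ct s).card) h
    simp only [ct_g, Multiset.card_singleton, ct_mul, Multiset.card_add] at this
    by_cases hu : (ct u).card = 0
    · exact .inl (eq_one_of_ct (Multiset.card_eq_zero.1 hu))
    · exact .inr (eq_one_of_ct (Multiset.card_eq_zero.1 (by omega)))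

theorem mem_iff {a : A} {s : Plac A} : Mem (g a) s ↔ a ∈ ct s := by
  constructor
  · rintro ⟨u, v, rfl⟩; simp
  · obtain ⟨l, rfl⟩ := exists_W s
    intro h
    obtain ⟨u, v, rfl⟩ := List.append_of_mem (show a ∈ l by simpa using h)
    exact ⟨W u, W v, by simp [mul_assoc]⟩

def rowF (a : A) : Function.End (Option A) := fun s => s.bind fun b => if a ≤ b then some a else none

theorem rowF_dead {a b : A} (h : a < b) (s : Option A) : rowF b (rowF a s) = none := by
  cases s with
  | none => rfl
  | some c =>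
    by_cases hc : a ≤ c <;> simp [rowF, hc, h]

def rowH : Plac A →* Function.End (Option A) :=
  hom rowF
    (fun x y z h h' => by
      funext s
      change rowF x (rowF z (rowF y s)) = rowF z (rowF x (rowF y s))
      rw [rowF_dead h', rowF_dead (h.trans_lt h')]; rfl)
    (fun x y z h h' => by
      funext s
      change rowF y (rowF x (rowF z s)) = rowF y (rowF z (rowF x s))
      rw [rowF_dead h, rowF_dead (h.trans_le h')]; rfl)

theorem lt_iff {a b : A} : Lt (g a) (g b) ↔ a < b := by
  constructor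
  · rintro ⟨h1, h2⟩
    by_contra h
    have hlt : b < a := lt_of_le_of_ne (not_lt.1 h) fun e => h1 (by rw [e])
    have := congrFun (congrArg rowH h2) (some a)
    change rowF a (rowF b (rowF a (some a))) = rowF b (rowF a (rowF a (some a))) at this
    rw [rowF_dead hlt] at this
    simp [rowF, hlt.le] at this
  · intro h
    exact ⟨fun e => h.ne (g_inj e), k1 le_rfl h⟩

theorem suc_iff {a : A} {y : Plac A} : Suc (g a) y ↔ ∃ b, y = g b ∧ a ⋖ b := by
  constructor
  · rintro ⟨h1, h2, h3⟩
    obtain ⟨b, rfl⟩ := gen_iff.1 h1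
    exact ⟨b, rfl, lt_iff.1 h2, fun c hc hc' =>
      h3 (g c) (gen_iff.2 ⟨c, rfl⟩) (lt_iff.2 hc) (lt_iff.2 hc')⟩
  · rintro ⟨b, rfl, h⟩
    refine ⟨gen_iff.2 ⟨b, rfl⟩, lt_iff.2 h.1, fun z hz h1 h2 => ?_⟩
    obtain ⟨c, rfl⟩ := gen_iff.1 hz
    exact h.2 (lt_iff.1 h1) (lt_iff.1 h2)

theorem pw_iff {a : A} {p : Plac A} : Pw (g a) p ↔ ∃ n, p = g a ^ n := by
  constructor
  · intro h
    obtain ⟨l, rfl⟩ := exists_W p
    refine ⟨l.length, ?_⟩
    rw [← W_replicate]
    congr 1
    exact List.eq_replicate_iff.2 ⟨rfl, fun b hb =>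
      g_inj (h (g b) (gen_iff.2 ⟨b, rfl⟩) (mem_iff.2 (by simpa using hb)))⟩
  · rintro ⟨n, rfl⟩ z hz hm
    obtain ⟨c, rfl⟩ := gen_iff.1 hz
    have := mem_iff.1 hm
    simp only [ct_pow, ct_g] at this
    rw [Multiset.mem_singleton.1 (Multiset.mem_of_mem_nsmul this)]

theorem rd_count {a : A} {S p : Plac A} (h : Rd S (g a) p) : p = g a ^ (ct S).count a := by
  obtain ⟨h1, u, v, rfl, hu, hv⟩ := h
  obtain ⟨n, rfl⟩ := pw_iff.1 h1
  rw [mem_iff] at hu hv
  simp [Multiset.count_eq_zero.2 hu, Multiset.count_eq_zero.2 hv]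

def biF (a b c : A) : Function.End ℕ := fun t => if c = a then t + 1 else if c = b then t - 1 else t

def biH {a b : A} (h : a ⋖ b) : Plac A →* Function.End ℕ :=
  hom (biF a b)
    (fun x y z h1 h2 => by
      funext t
      change biF a b x (biF a b z (biF a b y t)) = biF a b z (biF a b x (biF a b y t))
      have h3 := h.1
      have h4 := @h.2 y
      unfold biF
      grind)
    (fun x y z h1 h2 => by
      funext t
      change biF a b y (biF a b x (biF a b z t)) = biF a b y (biF a b z (biF a b x t))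
      have h3 := h.1
      have h4 := @h.2 y
      unfold biF
      grind)

theorem biH_a {a b : A} (h : a ⋖ b) (n t : ℕ) : biH h (g a ^ n) t = t + n := by
  induction n generalizing t with
  | zero => rfl
  | succ n ih =>
    rw [pow_succ, map_mul]
    change biH h (g a ^ n) (biF a b a t) = _
    rw [ih]; simp [biF]; omega

theorem biH_b {a b : A} (h : a ⋖ b) (n t : ℕ) : biH h (g b ^ n) t = t - n := by
  induction n generalizing t with
  | zero => rfl
  | succ n ih =>
    rw [pow_succ, map_mul]
    change biH h (g b ^ n) (biF a b b t) = _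
    rw [ih]; simp [biF, h.1.ne']; omega

theorem eqE_iff {a b : A} (h : a ⋖ b) {n m : ℕ} :
    EqE (g a) (g b) (g a ^ n) (g b ^ m) ↔ n = m := by
  constructor
  · rintro ⟨h1, h2⟩
    have e1 := congrFun (congrArg (biH h) h1) 0
    have e2 := congrFun (congrArg (biH h) h2) 0
    have ha := biH_a h 1
    have hb := biH_b h 1
    simp only [pow_one] at ha hb
    simp only [map_mul (biH h), Function.End.mul_def, Function.comp, biH_a, biH_b, ha, hb] at e1 e2
    omega
  · rintro rfl
    have ca : Commute (g b * g a) (g a) := by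
      change _ * _ = _ * _
      rw [k1 le_rfl h.1, mul_assoc]
    have cb : Commute (g b * g a) (g b) := by
      change _ * _ = _ * _
      rw [mul_assoc, k2 h.1 le_rfl]
    have : g b ^ n * g a ^ n = (g b * g a) ^ n := by
      induction n with
      | zero => simp
      | succ n ih =>
        rw [pow_succ, pow_succ', pow_succ', ← ih, mul_assoc, ← mul_assoc (g b),
          ← mul_assoc (g b ^ n), ← (cb.pow_right n).eq, mul_assoc]
    rw [EqE, this]
    exact ⟨(ca.pow_left n).eq, (cb.pow_left n).eq⟩

end Pool.Agent.H63.PL
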