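import Pool.Agent.H63.PL1
import Pool.Agent.H30.MulM

/-! Undecidability of the first-order theory of plactic monoids of infinite rank. -/

set_option autoImplicit false

namespace Pool.Agent.H63.PL

open Pool.Agent.H30.MulM

section defin

variable {A M : Type} [Monoid M] (c : A → M)

def Tm (f : (ℕ → M) → M) : Prop :=
  ∃ u : List (ℕ ⊕ A), ∀ ρ, (u.map (Sum.elim ρ c)).prod = f ρ

def Df (P : (ℕ → M) → Prop) : Prop := ∃ φ : Fm A, ∀ ρ, φ.Sat c ρ ↔ P ρ

variable {c} {f f' f'' f''' : (ℕ → M) → M} {P P' : (ℕ → M) → Prop}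

theorem Tm.var (i : ℕ) : Tm c fun ρ => ρ i := ⟨[.inl i], by simp⟩
theorem Tm.one : Tm c fun _ => 1 := ⟨[], by simp⟩
theorem Tm.mul (h : Tm c f) (h' : Tm c f') : Tm c fun ρ => f ρ * f' ρ := by
  obtain ⟨u, hu⟩ := h
  obtain ⟨v, hv⟩ := h'
  exact ⟨u ++ v, fun ρ => by rw [List.map_append, List.prod_append, hu, hv]⟩
theorem Tm.pow (h : Tm c f) (n : ℕ) : Tm c fun ρ => f ρ ^ n := by
  induction n with
  | zero => simpa using Tm.one
  | succ n ih => simpa [pow_succ] using ih.mul h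
theorem Tm.ren (h : Tm c f) (σ : ℕ → ℕ) : Tm c fun ρ => f fun i => ρ (σ i) := by
  obtain ⟨u, hu⟩ := h
  refine ⟨u.map (Sum.map σ id), fun ρ => ?_⟩
  beta_reduce
  rw [← hu, List.map_map]
  congr 2
  funext x
  cases x <;> rfl

theorem Df.eq (h : Tm c f) (h' : Tm c f') : Df c fun ρ => f ρ = f' ρ := by
  obtain ⟨u, hu⟩ := h
  obtain ⟨v, hv⟩ := h'
  exact ⟨.eq u v, fun ρ => by rw [Fm.Sat, hu, hv]⟩
theorem Df.not (h : Df c P) : Df c fun ρ => ¬ P ρ := by
  obtain ⟨φ, h⟩ := h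
  exact ⟨.neg φ, fun ρ => by rw [Fm.Sat, h]⟩
theorem Df.and (h : Df c P) (h' : Df c P') : Df c fun ρ => P ρ ∧ P' ρ := by
  obtain ⟨φ, h⟩ := h
  obtain ⟨ψ, h'⟩ := h'
  exact ⟨.and φ ψ, fun ρ => by rw [Fm.Sat, h, h']⟩
theorem Df.of_iff (h : Df c P) (e : ∀ ρ, P ρ ↔ P' ρ) : Df c P' := by
  obtain ⟨φ, h⟩ := h
  exact ⟨φ, fun ρ => (h ρ).trans (e ρ)⟩
theorem Df.or (h : Df c P) (h' : Df c P') : Df c fun ρ => P ρ ∨ P' ρ :=
  (h.not.and h'.not).not.of_iff fun _ => by tauto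
theorem Df.imp (h : Df c P) (h' : Df c P') : Df c fun ρ => P ρ → P' ρ :=
  (h.and h'.not).not.of_iff fun _ => by tauto
theorem Df.all {R : (ℕ → M) → M → Prop} (h : Df c fun ρ => R (fun i => ρ (i + 1)) (ρ 0)) :
    Df c fun ρ => ∀ t, R ρ t := by
  obtain ⟨φ, h⟩ := h
  exact ⟨.all φ, fun ρ => forall_congr' fun t => h _⟩
theorem Df.ex {R : (ℕ → M) → M → Prop} (h : Df c fun ρ => R (fun i => ρ (i + 1)) (ρ 0)) :
    Df c fun ρ => ∃ t, R ρ t :=
  (Df.all (R := fun ρ t => ¬ R ρ t) h.not).not.of_iff fun _ => by simp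
theorem Df.exL {I : Type} {R : I → (ℕ → M) → Prop} (h : ∀ i, Df c (R i)) (l : List I) :
    Df c fun ρ => ∃ i ∈ l, R i ρ := by
  induction l with
  | nil => exact (Df.eq Tm.one Tm.one).not.of_iff fun _ => by simp
  | cons a l ih => exact ((h a).or ih).of_iff fun _ => by simp
theorem Df.exF {I : Type} [Finite I] {R : I → (ℕ → M) → Prop} (h : ∀ i, Df c (R i)) :
    Df c fun ρ => ∃ i, R i ρ := by
  have := Fintype.ofFinite I
  exact (Df.exL h Finset.univ.toList).of_iff fun _ => by simp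

theorem Df.gen (h : Tm c f) : Df c fun ρ => Gen (f ρ) :=
  (Df.eq h .one).not.and <| .all <| .all <|
    (Df.eq (h.ren fun i => i + 1 + 1) ((Tm.var 1).mul (.var 0))).imp
      ((Df.eq (.var 1) .one).or (.eq (.var 0) .one))

theorem Df.mem (h : Tm c f) (h' : Tm c f') : Df c fun ρ => Mem (f ρ) (f' ρ) :=
  .ex <| .ex <| .eq (h'.ren fun i => i + 1 + 1)
    (((Tm.var 1).mul (h.ren fun i => i + 1 + 1)).mul (.var 0))

theorem Df.lt (h : Tm c f) (h' : Tm c f') : Df c fun ρ => Lt (f ρ) (f' ρ) :=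
  (Df.eq h h').not.and (.eq (h.mul (h'.mul h)) (h'.mul (h.mul h)))

theorem Df.suc (h : Tm c f) (h' : Tm c f') : Df c fun ρ => Suc (f ρ) (f' ρ) :=
  (Df.gen h').and <| (Df.lt h h').and <| .all <| (Df.gen (.var 0)).imp <|
    (Df.lt (h.ren (· + 1)) (.var 0)).imp (Df.lt (.var 0) (h'.ren (· + 1))).not

theorem Df.pw (h : Tm c f) (h' : Tm c f') : Df c fun ρ => Pw (f ρ) (f' ρ) :=
  .all <| (Df.gen (.var 0)).imp <|
    (Df.mem (.var 0) (h'.ren (· + 1))).imp (.eq (.var 0) (h.ren (· + 1)))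

theorem Df.rd (h : Tm c f) (h' : Tm c f') (h'' : Tm c f'') :
    Df c fun ρ => Rd (f ρ) (f' ρ) (f'' ρ) :=
  (Df.pw h' h'').and <| .ex <| .ex <| (Df.eq (h.ren fun i => i + 1 + 1)
    (((Tm.var 1).mul (h''.ren fun i => i + 1 + 1)).mul (.var 0))).and <|
      (Df.mem (h'.ren fun i => i + 1 + 1) (.var 1)).not.and
        (Df.mem (h'.ren fun i => i + 1 + 1) (.var 0)).not

theorem Df.eqE (h : Tm c f) (h' : Tm c f') (h'' : Tm c f'') (h''' : Tm c f''') :
    Df c fun ρ => EqE (f ρ) (f' ρ) (f'' ρ) (f''' ρ) :=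
  (Df.eq ((h'''.mul h'').mul h) (h.mul (h'''.mul h''))).and
    (.eq ((h'''.mul h'').mul h') (h'.mul (h'''.mul h'')))

def OkF (k n : ℕ) (x y a a' : M) : Prop :=
  if k = 0 then EqE x y (a ^ n) a' else if k = 1 then EqE x y a (a' ^ n)
    else EqE x y a a' ∧ ¬ ∃ d, Pw x d ∧ a = d ^ n

theorem Df.okF (k n : ℕ) (h : Tm c f) (h' : Tm c f') (h'' : Tm c f'') (h''' : Tm c f''') :
    Df c fun ρ => OkF k n (f ρ) (f' ρ) (f'' ρ) (f''' ρ) := by
  unfold OkF
  split_ifs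
  · exact .eqE h h' (h''.pow n) h'''
  · exact .eqE h h' h'' (h'''.pow n)
  · exact (Df.eqE h h' h'' h''').and (Df.ex <| (Df.pw (h.ren (· + 1)) (.var 0)).and
      (.eq (h''.ren (· + 1)) ((Tm.var 0).pow n))).not

variable {Q : Type} (ins : Q → Bool → Option Q × ℕ × ℕ) (K : ℕ) (idx : Option Q → ℕ)

def Step (x p y q : M) : Prop :=
  ∃ sb : Q × Bool, ∃ a a', Pw x a ∧ Pw y a' ∧ p = a ^ K * x ^ idx (some sb.1) ∧
    q = a' ^ K * y ^ idx (ins sb.1 sb.2).1 ∧
      OkF (ins sb.1 sb.2).2.1 ((ins sb.1 sb.2).2.2 + 1) x y a a'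

def Next (S x p : M) : Prop :=
  p = 1 ∨ (∃ a, Pw x a ∧ p = a ^ K * x ^ idx none) ∨
    ∃ y q, Suc x y ∧ Rd S y q ∧ Step ins K idx x p y q

def Psi (x p : M) : Prop :=
  Gen x → ∃ S, Rd S x p ∧ ∀ x p, Gen x → Rd S x p → Next ins K idx S x p

theorem Df.step [Finite Q] (h : Tm c f) (h' : Tm c f') (h'' : Tm c f'') (h''' : Tm c f''') :
    Df c fun ρ => Step ins K idx (f ρ) (f' ρ) (f'' ρ) (f''' ρ) :=
  Df.exF fun sb => .ex <| .ex <| (Df.pw (h.ren fun i => i + 1 + 1) (.var 1)).and <|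
    (Df.pw (h''.ren fun i => i + 1 + 1) (.var 0)).and <|
    (Df.eq (h'.ren fun i => i + 1 + 1)
      (((Tm.var 1).pow K).mul ((h.ren fun i => i + 1 + 1).pow _))).and <|
    (Df.eq (h'''.ren fun i => i + 1 + 1)
      (((Tm.var 0).pow K).mul ((h''.ren fun i => i + 1 + 1).pow _))).and <|
    .okF _ _ (h.ren fun i => i + 1 + 1) (h''.ren fun i => i + 1 + 1) (.var 1) (.var 0)

theorem Df.next [Finite Q] (h : Tm c f) (h' : Tm c f') (h'' : Tm c f'') :
    Df c fun ρ => Next ins K idx (f ρ) (f' ρ) (f'' ρ) :=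
  (Df.eq h'' .one).or <| (Df.ex <| (Df.pw (h'.ren (· + 1)) (.var 0)).and
    (.eq (h''.ren (· + 1)) (((Tm.var 0).pow K).mul ((h'.ren (· + 1)).pow _)))).or <|
  .ex <| .ex <| (Df.suc (h'.ren fun i => i + 1 + 1) (.var 1)).and <|
    (Df.rd (h.ren fun i => i + 1 + 1) (.var 1) (.var 0)).and <|
    .step ins K idx (h'.ren fun i => i + 1 + 1) (h''.ren fun i => i + 1 + 1) (.var 1) (.var 0)

theorem Df.psi [Finite Q] : Df c fun ρ => Psi ins K idx (ρ 1) (ρ 0) :=
  (Df.gen (.var 1)).imp <| .ex <| (Df.rd (.var 0) (.var 2) (.var 1)).and <| .all <| .all <|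
    (Df.gen (.var 1)).imp <| (Df.rd (.var 2) (.var 1) (.var 0)).imp <|
      .next ins K idx (.var 2) (.var 1) (.var 0)

end defin

section machine

variable {A : Type} [LinearOrder A] {Q : Type} {ins : Q → Bool → Option Q × ℕ × ℕ} {K : ℕ}
  {idx : Option Q → ℕ}

theorem okF_iff {a b : A} (h : a ⋖ b) (k n N N' : ℕ) :
    OkF k n (g a) (g b) (g a ^ N) (g b ^ N') ↔ ok k n N N' := by
  unfold OkF ok
  split_ifs
  · rw [← pow_mul, eqE_iff h, mul_comm, eq_comm]
  · rw [← pow_mul, eqE_iff h, mul_comm]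
  · rw [eqE_iff h, eq_comm]
    refine and_congr_right fun _ => not_congr ⟨?_, ?_⟩
    · rintro ⟨d, hd, e⟩
      obtain ⟨m, rfl⟩ := pw_iff.1 hd
      rw [← pow_mul] at e
      exact ⟨m, by rw [pow_inj e, mul_comm]⟩
    · rintro ⟨m, rfl⟩
      exact ⟨g a ^ m, pw_iff.2 ⟨m, rfl⟩, by rw [← pow_mul, mul_comm]⟩

theorem dec (hK : ∀ o, idx o < K) (hi : Function.Injective idx) {N N' : ℕ} {o o' : Option Q}
    (h : N * K + idx o = N' * K + idx o') : N = N' ∧ o = o' := by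
  have h1 := congrArg (· % K) h
  simp only [Nat.mul_add_mod_self_right, Nat.mod_eq_of_lt (hK _)] at h1
  obtain rfl := hi h1
  have := hK o
  exact ⟨Nat.eq_of_mul_eq_mul_right (by omega) (Nat.add_right_cancel h), rfl⟩

theorem sound (hK : ∀ o, idx o < K) (h0 : ∀ o, 0 < idx o) (hi : Function.Injective idx)
    {S : Plac A} (hS : ∀ x p, Gen x → Rd S x p → Next ins K idx S x p) (m : ℕ) :
    ∀ (a : A) o N, ((ct S).filter (a < ·)).card = m → Rd S (g a) (g a ^ (N * K + idx o)) →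
      Halt ins o N := by
  induction m using Nat.strong_induction_on with | _ m ih
  intro a o N hm hr
  rcases hS _ _ (gen_iff.2 ⟨a, rfl⟩) hr with h | ⟨d, hd, h⟩ | ⟨y, q, hy, hq, ⟨s, b⟩, d, d', hd, hd',
    e, e', hok⟩
  · have := pow_inj (h.trans (pow_zero _).symm)
    have := h0 o
    omega
  · obtain ⟨n, rfl⟩ := pw_iff.1 hd
    rw [← pow_mul, ← pow_add] at h
    rw [(dec hK hi (pow_inj h)).2]
    exact .stop _
  · obtain ⟨a', rfl, hc⟩ := suc_iff.1 hy
    obtain ⟨n, rfl⟩ := pw_iff.1 hd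
    obtain ⟨n', rfl⟩ := pw_iff.1 hd'
    rw [← pow_mul, ← pow_add] at e e'
    obtain ⟨rfl, rfl⟩ := dec hK hi (pow_inj e)
    subst e'
    refine .step b ((okF_iff hc _ _ _ _).1 hok) (ih _ ?_ a' _ _ rfl hq)
    have hcnt := pow_inj (rd_count hq)
    have hmem : a' ∈ ct S := Multiset.count_pos.1 (by have := h0 (ins s b).1; simp only at hcnt; omega)
    rw [← hm]
    refine Multiset.card_lt_card (lt_of_le_of_ne
      (Multiset.monotone_filter_right _ fun z hz => hc.1.trans hz) fun e => ?_)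
    have : a' ∈ (ct S).filter (a < ·) := Multiset.mem_filter.2 ⟨hmem, hc.1⟩
    rw [← e] at this
    simpa using (Multiset.mem_filter.1 this).2

theorem complete (hA : ∀ a : A, ∃ b, a ⋖ b) {o : Option Q} {N : ℕ} (h : Halt ins o N) :
    ∀ a : A, ∃ T : Plac A, (∀ z ∈ ct T, a < z) ∧ ∀ U : Plac A, (∀ z ∈ ct U, z < a) →
      ∀ x, a ≤ x → ∀ p, Rd (U * g a ^ (N * K + idx o) * T) (g x) p →
        Next ins K idx (U * g a ^ (N * K + idx o) * T) (g x) p := by
  induction h with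
  | stop N =>
    refine fun a => ⟨1, by simp, fun U hU x hx p hp => ?_⟩
    have hc := rd_count hp
    have hxU : x ∉ ct U := fun h => (hU x h).not_ge hx
    rcases hx.eq_or_lt with rfl | hx
    · refine .inr (.inl ⟨g a ^ N, pw_iff.2 ⟨_, rfl⟩, ?_⟩)
      rw [hc, ← pow_mul, ← pow_add]
      simp [Multiset.count_eq_zero.2 hxU]
    · left
      rw [hc]
      simp [Multiset.count_eq_zero.2 hxU, Multiset.count_singleton, hx.ne']
  | @step s N N' b hok _ ih =>
    intro a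
    obtain ⟨a', ha⟩ := hA a
    obtain ⟨T, hT, ih⟩ := ih a'
    have hT' : ∀ z ∈ ct (g a' ^ (N' * K + idx (ins s b).1) * T), a < z := by
      intro z hz
      simp only [ct_mul, ct_pow, ct_g, Multiset.mem_add] at hz
      rcases hz with hz | hz
      · rw [Multiset.mem_singleton.1 (Multiset.mem_of_mem_nsmul hz)]; exact ha.1
      · exact ha.1.trans (hT z hz)
    refine ⟨_, hT', fun U hU x hx p hp => ?_⟩
    have hU' : ∀ z ∈ ct (U * g a ^ (N * K + idx (some s))), z < a' := by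
      intro z hz
      simp only [ct_mul, ct_pow, ct_g, Multiset.mem_add] at hz
      rcases hz with hz | hz
      · exact (hU z hz).trans ha.1
      · rw [Multiset.mem_singleton.1 (Multiset.mem_of_mem_nsmul hz)]; exact ha.1
    rcases hx.eq_or_lt with rfl | hx
    · have hc := rd_count hp
      have h1 : a ∉ ct U := fun h => (hU a h).false
      have h2 : a ∉ ct (g a' ^ (N' * K + idx (ins s b).1) * T) := fun h => (hT' a h).false
      rw [ct_mul, Multiset.count_add, Multiset.count_eq_zero.2 h2] at hc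
      refine .inr (.inr ⟨g a', g a' ^ (N' * K + idx (ins s b).1), suc_iff.2 ⟨_, rfl, ha⟩,
        ⟨pw_iff.2 ⟨_, rfl⟩, _, T, (mul_assoc _ _ _).symm, fun h => (hU' _ (mem_iff.1 h)).false,
          fun h => (hT _ (mem_iff.1 h)).false⟩, (s, b), g a ^ N, g a' ^ N', pw_iff.2 ⟨_, rfl⟩,
        pw_iff.2 ⟨_, rfl⟩, ?_, by rw [← pow_mul, ← pow_add], (okF_iff ha _ _ _ _).2 hok⟩)
      rw [hc, ← pow_mul, ← pow_add]
      simp [Multiset.count_eq_zero.2 h1]
    · rw [← mul_assoc] at hp ⊢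
      exact ih _ hU' x (ha.ge_of_gt hx) p hp

theorem psi_iff (hA : ∀ a : A, ∃ b, a ⋖ b) (a0 : A) (hK : ∀ o, idx o < K) (h0 : ∀ o, 0 < idx o)
    (hi : Function.Injective idx) (o : Option Q) (N : ℕ) :
    (∀ x : Plac A, Psi ins K idx x (x ^ (N * K + idx o))) ↔ Halt ins o N := by
  constructor
  · intro h
    obtain ⟨S, h1, h2⟩ := h (g a0) (gen_iff.2 ⟨a0, rfl⟩)
    exact sound hK h0 hi h2 _ a0 o N rfl h1
  · intro h x hx
    obtain ⟨a, rfl⟩ := gen_iff.1 hx
    obtain ⟨T, hT, h⟩ := complete (K := K) (idx := idx) hA h a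
    refine ⟨1 * g a ^ (N * K + idx o) * T, ⟨pw_iff.2 ⟨_, rfl⟩, 1, T, rfl, fun h => ?_,
      fun h => (hT _ (mem_iff.1 h)).false⟩, fun x p hx hp => ?_⟩
    · simpa using mem_iff.1 h
    obtain ⟨x, rfl⟩ := gen_iff.1 hx
    rcases le_or_gt a x with hx | hx
    · exact h 1 (by simp) x hx p hp
    · left
      have h2 : x ∉ ct T := fun h => (hT x h).asymm hx
      rw [rd_count hp]
      simp [Multiset.count_eq_zero.2 h2, Multiset.count_singleton, hx.ne]

end machine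

section sent

variable {A : Type}

theorem Fm.Bd.mono : ∀ {φ : Fm A} {m n : ℕ}, φ.Bd m → m ≤ n → φ.Bd n
  | .eq _ _, _, _, h, e => fun i hi => (h i hi).trans_le e
  | .neg φ, _, _, h, e => Fm.Bd.mono (φ := φ) h e
  | .and _ _, _, _, h, e => ⟨h.1.mono e, h.2.mono e⟩
  | .all φ, _, _, h, e => Fm.Bd.mono (φ := φ) h (Nat.succ_le_succ e)

theorem Fm.exists_bd : ∀ φ : Fm A, ∃ n, φ.Bd n
  | .eq u v => by
    refine ⟨((u ++ v).map (Sum.elim id fun _ => 0)).sum + 1, fun i hi => Nat.lt_succ_of_le ?_⟩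
    exact List.le_sum_of_mem (List.mem_map.2 ⟨_, hi, rfl⟩)
  | .neg φ => φ.exists_bd
  | .and φ ψ => by
    obtain ⟨m, hm⟩ := φ.exists_bd
    obtain ⟨n, hn⟩ := ψ.exists_bd
    exact ⟨m + n, hm.mono (by omega), hn.mono (by omega)⟩
  | .all φ => by
    obtain ⟨m, hm⟩ := φ.exists_bd
    exact ⟨m, hm.mono (by omega)⟩

def allN : ℕ → Fm A → Fm A
  | 0, φ => φ
  | n + 1, φ => allN n φ.all

theorem allN_bd : ∀ (n k : ℕ) (φ : Fm A), φ.Bd (k + n) → (allN n φ).Bd k
  | 0, _, _, h => h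
  | n + 1, k, φ, h => allN_bd n k φ.all h

theorem allN_sat {M : Type} [Monoid M] {c : A → M} :
    ∀ (n : ℕ) (φ : Fm A), (∀ ρ, φ.Sat c ρ) → ∀ ρ, (allN n φ).Sat c ρ
  | 0, _, h => h
  | n + 1, φ, h => allN_sat n φ.all fun _ _ => h _

theorem allN_sat' {M : Type} [Monoid M] {c : A → M} :
    ∀ (n : ℕ) (φ : Fm A) (ρ : ℕ → M), (allN n φ).Sat c ρ → ∃ ρ, φ.Sat c ρ
  | 0, _, ρ, h => ⟨ρ, h⟩
  | n + 1, φ, ρ, h => by
    obtain ⟨ρ', h⟩ := allN_sat' n φ.all ρ h
    exact ⟨_, h 1⟩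

variable [Primcodable A]

theorem allN_code : ∀ (n : ℕ) {F : ℕ → Fm A}, (Primrec fun m => (F m).code) →
    Primrec fun m => (allN n (F m)).code
  | 0, _, h => h
  | n + 1, F, h => allN_code n (F := fun m => (F m).all)
      (Primrec₂.natPair.comp (.const 3) h)

theorem Fm.code_inj : ∀ {φ ψ : Fm A}, φ.code = ψ.code → φ = ψ := by
  intro φ
  induction φ with
  | eq u v =>
    intro ψ h
    cases ψ <;> simp only [Fm.code, Nat.pair_eq_pair] at h <;> try omega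
    obtain ⟨rfl, rfl⟩ := Prod.mk.inj (Encodable.encode_injective h.2)
    rfl
  | neg φ ih =>
    intro ψ h
    cases ψ <;> simp only [Fm.code, Nat.pair_eq_pair] at h <;> try omega
    rw [ih h.2]
  | and φ φ' ih ih' =>
    intro ψ h
    cases ψ <;> simp only [Fm.code, Nat.pair_eq_pair] at h <;> try omega
    rw [ih h.2.1, ih' h.2.2]
  | all φ ih =>
    intro ψ h
    cases ψ <;> simp only [Fm.code, Nat.pair_eq_pair] at h <;> try omega
    rw [ih h.2]

theorem undec [LinearOrder A] (hA : ∀ a : A, ∃ b, a ⋖ b) (a0 : A) :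
    ¬ ComputablePred (Theory A) := by
  obtain ⟨Q, hQ, ins, q0, hu⟩ := exists_undec
  obtain ⟨K, ⟨e⟩⟩ := Finite.exists_equiv_fin (Option Q)
  let idx : Option Q → ℕ := fun o => e o + 1
  have hK : ∀ o, idx o < K + 1 := fun o => Nat.succ_lt_succ (e o).2
  have h0 : ∀ o, 0 < idx o := fun o => Nat.succ_pos _
  have hi : Function.Injective idx := fun o o' h => e.injective (Fin.ext (Nat.succ_injective h))
  obtain ⟨ψ, hψ⟩ := Df.psi (c := g (A := A)) ins (K + 1) idx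
  obtain ⟨B, hB⟩ := ψ.exists_bd
  let F : ℕ → Fm A := fun n => .neg (.and (.eq [.inl 0]
    ((List.range (2 ^ n * (K + 1) + idx (some q0))).map fun _ => .inl 1)) (.neg ψ))
  have hF : ∀ n ρ, (F n).Sat g ρ ↔ (ρ 0 = ρ 1 ^ (2 ^ n * (K + 1) + idx (some q0)) →
      Psi ins (K + 1) idx (ρ 1) (ρ 0)) := by
    intro n ρ
    simp [F, Fm.Sat, hψ, List.map_map, Function.comp_def]
  have key : ∀ n, Theory A (allN B (F n).all.all).code ↔ Halt ins (some q0) (2 ^ n) := by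
    intro n
    rw [← psi_iff hA a0 hK h0 hi]
    constructor
    · rintro ⟨φ, h1, -, h3⟩ x
      rw [Fm.code_inj h1] at h3
      obtain ⟨ρ, hρ⟩ := allN_sat' _ _ _ h3
      exact (hF n _).1 (hρ x (x ^ (2 ^ n * (K + 1) + idx (some q0)))) rfl
    · intro h
      refine ⟨_, rfl, allN_bd _ _ _ ⟨fun i hi => ?_, hB.mono (by omega)⟩,
        allN_sat (c := g) B (F n).all.all (fun ρ t t' => (hF n _).2 fun e => ?_) _⟩
      · simp only [List.cons_append, List.nil_append, List.mem_cons, List.mem_map,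
          Sum.inl.injEq] at hi
        rcases hi with hi | ⟨_, -, hi⟩ <;> omega
      · rw [e]; exact h _
  have hp : Primrec fun n => (allN B (F n).all.all).code := by
    refine allN_code B (F := fun n => (F n).all.all) ?_
    have h2 : Primrec fun n : ℕ => 2 ^ n :=
      (Primrec₂.unpaired'.1 Nat.Primrec.pow).comp (.const 2) .id
    have h3 : Primrec fun n : ℕ => (List.range (2 ^ n * (K + 1) + idx (some q0))).map
        fun _ => (Sum.inl 1 : ℕ ⊕ A) :=
      Primrec.list_map (Primrec.list_range.comp (Primrec.nat_add.comp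
        (Primrec.nat_mul.comp h2 (.const _)) (.const _))) (Primrec.const _).to₂
    exact Primrec₂.natPair.comp (.const 3) <| Primrec₂.natPair.comp (.const 3) <|
      Primrec₂.natPair.comp (.const 1) <| Primrec₂.natPair.comp (.const 2) <|
      Primrec₂.natPair.comp (Primrec₂.natPair.comp (.const 0)
        (Primrec.encode.comp ((Primrec.const _).pair h3))) (.const _)
  rintro ⟨d, hd⟩
  exact hu (ComputablePred.of_eq ⟨fun n => d _, hd.comp hp.to_comp⟩ key)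

end sent

end Pool.Agent.H63.PL
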