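import Mathlib

/-! Plactic monoids and first-order sentences about monoids with constants. -/

set_option autoImplicit false

namespace Pool.Agent.H63.PL

variable {A : Type}

/-- The Knuth relations. -/
inductive Knuth [LinearOrder A] : List A → List A → Prop
  | one {x y z : A} : x ≤ y → y < z → Knuth [x, z, y] [z, x, y]
  | two {x y z : A} : x < y → y ≤ z → Knuth [y, x, z] [y, z, x]

/-- The plactic monoid of a totally ordered set. -/
abbrev Plac (A : Type) [LinearOrder A] : Type :=
  PresentedMonoid fun u v : FreeMonoid A => Knuth u.toList v.toList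

/-- First-order formulas in the signature of monoids with constants from `A`. A term is a word
in variables (`inl`, de Bruijn indices) and constants (`inr`); the empty word is `1`. -/
inductive Fm (A : Type) : Type
  | eq (u v : List (ℕ ⊕ A)) : Fm A
  | neg (φ : Fm A) : Fm A
  | and (φ ψ : Fm A) : Fm A
  | all (φ : Fm A) : Fm A

/-- All free variables are below `n`; sentences are the formulas with `Bd 0`. -/
def Fm.Bd : ℕ → Fm A → Prop
  | n, .eq u v => ∀ i, Sum.inl i ∈ u ++ v → i < n
  | n, .neg φ => φ.Bd n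
  | n, .and φ ψ => φ.Bd n ∧ ψ.Bd n
  | n, .all φ => φ.Bd (n + 1)

/-- The valuation with a new variable `0`. -/
def push {M : Type} (t : M) (ρ : ℕ → M) : ℕ → M
  | 0 => t
  | n + 1 => ρ n

/-- Truth in the monoid `M`, the constants being interpreted by `c`. -/
def Fm.Sat {M : Type} [Monoid M] (c : A → M) : Fm A → (ℕ → M) → Prop
  | .eq u v, ρ => (u.map (Sum.elim ρ c)).prod = (v.map (Sum.elim ρ c)).prod
  | .neg φ, ρ => ¬ φ.Sat c ρ
  | .and φ ψ, ρ => φ.Sat c ρ ∧ ψ.Sat c ρ
  | .all φ, ρ => ∀ t, φ.Sat c (push t ρ)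

/-- Gödel numbers. -/
def Fm.code [Primcodable A] : Fm A → ℕ
  | .eq u v => Nat.pair 0 (Encodable.encode (u, v))
  | .neg φ => Nat.pair 1 φ.code
  | .and φ ψ => Nat.pair 2 (Nat.pair φ.code ψ.code)
  | .all φ => Nat.pair 3 φ.code

/-- `n` is the Gödel number of a sentence true in the plactic monoid, with the generators as
constants. -/
def Theory (A : Type) [LinearOrder A] [Primcodable A] (n : ℕ) : Prop :=
  ∃ φ : Fm A, φ.code = n ∧ φ.Bd 0 ∧
    φ.Sat (M := Plac A) (fun a => PresentedMonoid.of _ a) fun _ => 1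

end Pool.Agent.H63.PL
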