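import Mathlib

namespace Pool.Agent.H63.PadicLog

open Filter Topology

instance fact5 : Fact (Nat.Prime 5) := ⟨by norm_num⟩

lemma norm5 : ‖(5 : ℚ_[5])‖ = 5⁻¹ := by
  have := @Padic.norm_p 5 _
  exact_mod_cast this

lemma le_fifth {z : ℚ_[5]} (hz : ‖z‖ < 1) : ‖z‖ ≤ 5⁻¹ := by
  have := (Padic.norm_le_pow_iff_norm_lt_pow_add_one z (-1)).2 (by simpa using hz)
  simpa using this

lemma norm_add_le' (a b : ℚ_[5]) {r : ℝ} (ha : ‖a‖ ≤ r) (hb : ‖b‖ ≤ r) : ‖a + b‖ ≤ r :=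
  le_trans (Padic.nonarchimedean a b) (max_le ha hb)

lemma norm_one_add {z : ℚ_[5]} (hz : ‖z‖ < 1) : ‖1 + z‖ = 1 := by
  rw [Padic.add_eq_max_of_ne (by rw [norm_one]; exact hz.ne'), norm_one]
  exact max_eq_left hz.le

lemma norm_eq_one {x : ℚ_[5]} (hx : ‖x - 1‖ < 1) : ‖x‖ = 1 := by
  have := norm_one_add hx
  rwa [add_sub_cancel] at this

lemma step {z : ℚ_[5]} (hz : ‖z‖ < 1) :
    ∃ c : ℚ_[5], ‖c‖ ≤ 1 ∧ (1 + z) ^ 5 - 1 = 5 * z * (1 + z * c) := by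
  have h5 : (5 : ℚ_[5]) ≠ 0 := by norm_num
  have hw : ‖z / 5‖ ≤ 1 := by
    rw [norm_div, norm5, div_le_one (by norm_num)]; exact le_fifth hz
  have h2 : ‖(2 : ℚ_[5])‖ ≤ 1 := by exact_mod_cast Padic.norm_int_le_one (p := 5) 2
  refine ⟨2 + 2 * z + z ^ 2 + z / 5 * z ^ 2, ?_, by field_simp; ring⟩
  have hz2 : ‖z ^ 2‖ ≤ 1 := by rw [norm_pow]; exact pow_le_one₀ (norm_nonneg _) hz.le
  refine norm_add_le' _ _ (norm_add_le' _ _ (norm_add_le' _ _ h2 ?_) hz2) ?_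
  · rw [norm_mul]; exact mul_le_one₀ h2 (norm_nonneg _) hz.le
  · rw [norm_mul]; exact mul_le_one₀ hw (norm_nonneg _) hz2

noncomputable def sq (x : ℚ_[5]) (k : ℕ) : ℚ_[5] := (x ^ 5 ^ k - 1) / 5 ^ k

lemma norm_pow_sub {x : ℚ_[5]} (hx : ‖x - 1‖ < 1) (k : ℕ) :
    ‖x ^ 5 ^ k - 1‖ = 5⁻¹ ^ k * ‖x - 1‖ := by
  induction k with
  | zero => simp
  | succ k ih =>
    have hlt : ‖x ^ 5 ^ k - 1‖ < 1 := by
      rw [ih]
      exact mul_lt_one_of_nonneg_of_lt_one_right (pow_le_one₀ (by norm_num) (by norm_num))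
        (norm_nonneg _) hx
    obtain ⟨c, hc, h⟩ := step hlt
    rw [add_sub_cancel, ← pow_mul, ← pow_succ] at h
    rw [h, norm_mul, norm_mul, norm5, norm_one_add, ih]
    · ring
    · rw [norm_mul]; exact mul_lt_one_of_nonneg_of_lt_one_left (norm_nonneg _) hlt hc

lemma norm_sq {x : ℚ_[5]} (hx : ‖x - 1‖ < 1) (k : ℕ) : ‖sq x k‖ = ‖x - 1‖ := by
  rw [sq, norm_div, norm_pow_sub hx, norm_pow, norm5]
  field_simp

lemma dist_sq {x : ℚ_[5]} (hx : ‖x - 1‖ < 1) (k : ℕ) :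
    dist (sq x k) (sq x (k + 1)) ≤ 1 * 5⁻¹ ^ k := by
  have hlt : ‖x ^ 5 ^ k - 1‖ < 1 := by
    rw [norm_pow_sub hx]
    exact mul_lt_one_of_nonneg_of_lt_one_right (pow_le_one₀ (by norm_num) (by norm_num))
      (norm_nonneg _) hx
  obtain ⟨c, hc, h⟩ := step hlt
  rw [add_sub_cancel, ← pow_mul, ← pow_succ] at h
  have : sq x (k + 1) - sq x k = sq x k * (x ^ 5 ^ k - 1) * c := by
    rw [sq, sq, h]; field_simp; ring
  rw [dist_comm, dist_eq_norm, this, norm_mul, norm_mul, norm_sq hx, norm_pow_sub hx]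
  have h0 := norm_nonneg (x - 1)
  have h1 : (0 : ℝ) ≤ 5⁻¹ ^ k := by positivity
  calc ‖x - 1‖ * (5⁻¹ ^ k * ‖x - 1‖) * ‖c‖ ≤ 1 * (5⁻¹ ^ k * 1) * 1 := by gcongr
    _ = _ := by ring

noncomputable def lg (x : ℚ_[5]) : ℚ_[5] := limUnder atTop (sq x)

lemma tendsto_lg {x : ℚ_[5]} (hx : ‖x - 1‖ < 1) : Tendsto (sq x) atTop (𝓝 (lg x)) :=
  (cauchySeq_of_le_geometric 5⁻¹ 1 (by norm_num) (dist_sq hx)).tendsto_limUnder

lemma norm_lg {x : ℚ_[5]} (hx : ‖x - 1‖ < 1) : ‖lg x‖ = ‖x - 1‖ := by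
  have h1 := (tendsto_lg hx).norm
  simp_rw [norm_sq hx] at h1
  exact tendsto_nhds_unique h1 tendsto_const_nhds

lemma mul_mem {x y : ℚ_[5]} (hx : ‖x - 1‖ < 1) (hy : ‖y - 1‖ < 1) : ‖x * y - 1‖ < 1 := by
  have : x * y - 1 = x * (y - 1) + (x - 1) := by ring
  rw [this]
  refine lt_of_le_of_lt (Padic.nonarchimedean _ _) (max_lt ?_ hx)
  rwa [norm_mul, norm_eq_one hx, one_mul]

lemma inv_mem {x : ℚ_[5]} (hx : ‖x - 1‖ < 1) : ‖x⁻¹ - 1‖ < 1 := by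
  have h1 := norm_eq_one hx
  have h0 : x ≠ 0 := by rintro rfl; simp at h1
  have : x⁻¹ - 1 = -(x⁻¹ * (x - 1)) := by field_simp; ring
  rwa [this, norm_neg, norm_mul, norm_inv, h1, inv_one, one_mul]

lemma lg_mul {x y : ℚ_[5]} (hx : ‖x - 1‖ < 1) (hy : ‖y - 1‖ < 1) : lg (x * y) = lg x + lg y := by
  have h5 : Tendsto (fun k : ℕ => (5 : ℚ_[5]) ^ k) atTop (𝓝 0) :=
    tendsto_pow_atTop_nhds_zero_of_norm_lt_one (by rw [norm5]; norm_num)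
  have h1 := ((tendsto_lg hx).add (tendsto_lg hy)).add
    (h5.mul ((tendsto_lg hx).mul (tendsto_lg hy)))
  rw [zero_mul, add_zero] at h1
  refine tendsto_nhds_unique (tendsto_lg (mul_mem hx hy)) (h1.congr fun k => ?_)
  simp only [sq, mul_pow]
  field_simp
  ring

lemma lg_one : lg 1 = 0 := by
  rw [← norm_eq_zero, norm_lg] <;> simp

lemma lg_sub {x y : ℚ_[5]} (hx : ‖x - 1‖ < 1) (hy : ‖y - 1‖ < 1) : ‖lg x - lg y‖ = ‖x - y‖ := by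
  have h1 := norm_eq_one hy
  have h0 : y ≠ 0 := by rintro rfl; simp at h1
  have h2 := mul_mem hx (inv_mem hy)
  have h3 := lg_mul h2 hy
  rw [inv_mul_cancel_right₀ h0] at h3
  rw [h3, add_sub_cancel_right, norm_lg h2]
  have : x * y⁻¹ - 1 = (x - y) * y⁻¹ := by field_simp
  rw [this, norm_mul, norm_inv, h1, inv_one, mul_one]

lemma lg_continuousOn : ContinuousOn lg {x | ‖x - 1‖ < 1} := by
  apply LipschitzOnWith.continuousOn (K := 1)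
  apply LipschitzOnWith.of_dist_le_mul
  intro x hx y hy
  rw [dist_eq_norm, dist_eq_norm, lg_sub hx hy]; simp

def U1 : Subgroup ℚ_[5]ˣ where
  carrier := {x | ‖(x : ℚ_[5]) - 1‖ < 1}
  mul_mem' := fun ha hb => by simpa using mul_mem ha hb
  one_mem' := by simp
  inv_mem' := fun ha => by simpa using inv_mem ha

noncomputable def lgHom : U1 →* Multiplicative ℚ_[5] :=
  MonoidHom.mk' (fun x => Multiplicative.ofAdd (lg ((x : ℚ_[5]ˣ) : ℚ_[5]))) (by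
    intro x y
    rw [← ofAdd_add, ← lg_mul x.2 y.2]
    simp)

lemma lg_prod_zpow {ι κ : Type*} [Fintype ι] [Fintype κ] (a : ι → κ → ℚ_[5])
    (ha : ∀ i k, ‖a i k - 1‖ < 1) (e : ι → κ → ℤ) :
    ‖∏ i, ∏ k, a i k ^ e i k - 1‖ < 1 ∧
      lg (∏ i, ∏ k, a i k ^ e i k) = ∑ i, ∑ k, (e i k : ℚ_[5]) * lg (a i k) := by
  have hne : ∀ i k, a i k ≠ 0 := by
    intro i k h0
    have := ha i k
    simp [h0] at this
  let u : ι → κ → U1 := fun i k => ⟨Units.mk0 _ (hne i k), ha i k⟩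
  have h1 : (((∏ i, ∏ k, u i k ^ e i k : U1) : ℚ_[5]ˣ) : ℚ_[5]) = ∏ i, ∏ k, a i k ^ e i k := by
    simp [u]
  refine ⟨h1 ▸ (∏ i, ∏ k, u i k ^ e i k : U1).2, ?_⟩
  have h2 : (lgHom (∏ i, ∏ k, u i k ^ e i k)).toAdd = lg (∏ i, ∏ k, a i k ^ e i k) := by
    rw [← h1]; rfl
  rw [← h2]
  simp only [map_prod, map_zpow, toAdd_prod, toAdd_zpow, zsmul_eq_mul]
  rfl

lemma linear_of_bounded {ι G : Type*} [Fintype G] (f : (ι → ℤ_[5]) →+ (G → ℚ_[5]))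
    (hf : ∀ z, ‖f z‖ ≤ 1) (c : ℤ_[5]) (z : ι → ℤ_[5]) : f (c • z) = c • f z := by
  rw [← sub_eq_zero, ← norm_le_zero_iff]
  have h5 : Tendsto (fun k : ℕ => (5⁻¹ : ℝ) ^ k * 2) atTop (𝓝 0) := by
    simpa using (tendsto_pow_atTop_nhds_zero_of_lt_one (r := (5⁻¹ : ℝ)) (by norm_num)
      (by norm_num)).mul_const 2
  refine ge_of_tendsto' h5 fun k => ?_
  obtain ⟨c', hc'⟩ := Ideal.mem_span_singleton'.1 (PadicInt.appr_spec k c)
  have hc : c = (c.appr k : ℤ_[5]) + ((5 ^ k : ℕ) : ℤ_[5]) * c' := by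
    push_cast at hc' ⊢
    linear_combination -hc'
  have h1 : f (c • z) - c • f z = (5 : ℚ_[5]) ^ k • (f (c' • z) - c' • f z) := by
    conv_lhs => rw [hc]
    rw [add_smul, add_smul, mul_smul, mul_smul, Nat.cast_smul_eq_nsmul, Nat.cast_smul_eq_nsmul,
      Nat.cast_smul_eq_nsmul, Nat.cast_smul_eq_nsmul, map_add, map_nsmul, map_nsmul,
      ← Nat.cast_smul_eq_nsmul ℚ_[5] (5 ^ k), ← Nat.cast_smul_eq_nsmul ℚ_[5] (5 ^ k), smul_sub]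
    push_cast
    abel
  rw [h1, norm_smul, norm_pow, norm5]
  gcongr
  refine le_trans (norm_sub_le _ _) ?_
  have h2 : ‖c' • f z‖ ≤ 1 := by
    rw [← algebraMap_smul ℚ_[5] c', norm_smul]
    exact mul_le_one₀ c'.2 (norm_nonneg _) (hf z)
  linarith [hf (c' • z)]

lemma card_le {ι G : Type*} [Fintype G] [Fintype ι] (f : (ι → ℤ_[5]) →+ (G → ℚ_[5]))
    (hf : ∀ z, ‖f z‖ ≤ 1) (hinj : Function.Injective f) (S : Submodule ℚ_[5] (G → ℚ_[5]))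
    (hS : ∀ z, f z ∈ S) : Fintype.card ι ≤ Module.finrank ℚ_[5] S := by
  classical
  let f' : (ι → ℤ_[5]) →ₗ[ℤ_[5]] (G → ℚ_[5]) :=
    { toFun := f, map_add' := f.map_add, map_smul' := linear_of_bounded f hf }
  have h1 := (Pi.basisFun ℤ_[5] ι).linearIndependent.map' f' (LinearMap.ker_eq_bot.2 hinj)
  rw [LinearIndependent.iff_fractionRing ℤ_[5] ℚ_[5]] at h1
  have h2 : LinearIndependent ℚ_[5] (fun i => (⟨f (Pi.basisFun ℤ_[5] ι i), hS _⟩ : S)) :=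
    LinearIndependent.of_comp S.subtype h1
  exact h2.fintype_card_le_finrank

end Pool.Agent.H63.PadicLog
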