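import Pool.Agent.H63.RWDefs

/-! The rewrite system. -/

set_option autoImplicit false

namespace Pool.Agent.H63.RW

inductive K2 (Q : Type) : Type
  | c (q : Option (Q × Bool))
  | aux
  | ic
  deriving Fintype

inductive Ix (Q : Type) : Type
  | z
  | s
  | bin (a : K2 Q)
  | star
  | ell
  deriving Fintype

inductive K0 (Q : Type) : Type
  | z
  | ex (f : Ix Q) (b : Bool)
  | ey (f : Ix Q) (b : Bool)
  | a (i : Fin 4)
  | j (i : Fin 4)
  | p (i : Fin 5)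
  deriving Fintype

inductive K1 : Type
  | s
  | L (i : Fin 3)
  | I (b : Bool)
  deriving Fintype

abbrev T (Q V : Type) : Type := Tm (K0 Q) K1 (K2 Q) V

structure Mc (Q : Type) where
  A : Q × Bool → ℕ
  B : Q × Bool → ℕ
  J : Q × Bool → ℕ → Prop
  nx : Q × Bool → Option Q
  q0 : Q
  m : ℕ
  hA : ∀ q, A q ≤ m
  hB : ∀ q, B q ≤ m
  hJ : ∀ q j, J q j → j ≤ m

variable {Q V W : Type}

def sn : ℕ → T Q V → T Q V
  | 0, x => x
  | k + 1, x => .c1 .s (sn k x)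

def cf (q : Option (Q × Bool)) (m n r : T Q V) : T Q V := .c2 (.c q) m (.c2 .aux n r)

def lift (o : Option Q) (b : Bool) : Option (Q × Bool) := o.map fun s => (s, b)

inductive Val (M : Mc Q) : T Q V → Prop
  | z : Val M (.c0 .z)
  | s (x : T Q V) : Val M (.c1 .s x)
  | aux (x r : T Q V) : Val M (.c2 .aux x r)
  | halt (x r : T Q V) : Val M (.c2 (.c none) x r)
  | ic (b : Bool) (x r : T Q V) : Val M (.c2 .ic x (cf (some (M.q0, b)) x (.c0 .z) r))
  | loop (q : Q × Bool) (x y r : T Q V) :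
      Val M (cf (some q) (sn (M.A q) x) y (cf (some q) x (sn (M.B q) y) r))
  | exit (q : Q × Bool) (j : ℕ) (b : Bool) (y r : T Q V) : M.J q j →
      Val M (cf (some q) (sn j (.c0 .z)) y (cf (lift (M.nx q) b) (sn j y) (.c0 .z) r))

def hd : T Q V → Ix Q
  | .c0 .z => .z
  | .c1 .s _ => .s
  | .c1 (.L _) _ => .ell
  | .c2 a _ _ => .bin a
  | _ => .star

def Mid : T Q V → Prop
  | .var _ => False
  | .c0 (.ex _ _) => False
  | .c0 (.ey _ _) => False
  | .c0 (.a _) => False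
  | _ => True

def ok (f g : Ix Q) : Prop := f ≠ g ∧ (g = .ell → f = .z ∨ f = .s)

inductive RC : ℕ → T Q V → T Q V → Prop
  | xx (f : Ix Q) : RC 4 (.c0 (.ex f false)) (.c0 (.ex f true))
  | xy {f g : Ix Q} : ok f g → RC 4 (.c0 (.ex f true)) (.c0 (.ey g false))
  | yy (g : Ix Q) : RC 4 (.c0 (.ey g false)) (.c0 (.ey g true))
  | yx {f g : Ix Q} : ok f g → RC 4 (.c0 (.ey g true)) (.c0 (.ex f false))
  | a (i : Fin 4) : RC 4 (.c0 (.a i)) (.c0 (.a (i + 1)))
  | j (i : Fin 4) : RC 4 (.c0 (.j i)) (.c0 (.j (i + 1)))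
  | p (i : Fin 5) : RC 5 (.c0 (.p i)) (.c0 (.p (i + 1)))
  | L (i : Fin 3) (x : T Q V) : RC 3 (.c1 (.L i) x) (.c1 (.L (i + 1)) x)

inductive Root (M : Mc Q) : T Q V → T Q V → Prop
  | vx {t : T Q V} (b : Bool) : Val M t → Root M t (.c0 (.ex (hd t) b))
  | va {t : T Q V} {i : Fin 4} : i.1 < 2 → Val M t → Root M t (.c0 (.a i))
  | vp {t : T Q V} {i : Fin 5} : i.1 < 2 → Val M t → Root M t (.c0 (.p i))
  | y {t : T Q V} (b : Bool) : Mid t → Root M t (.c0 (.ey (hd t) b))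
  | xa (f : Ix Q) (b : Bool) {i : Fin 4} : 2 ≤ i.1 → Root M (.c0 (.ex f b)) (.c0 (.a i))
  | ya (f : Ix Q) (b : Bool) {i : Fin 4} : 2 ≤ i.1 → Root M (.c0 (.ey f b)) (.c0 (.a i))
  | lp (k : Fin 3) (x : T Q V) {i : Fin 5} : 2 ≤ i.1 → i.1 < 4 →
      Root M (.c1 (.L k) x) (.c0 (.p i))
  | bl (a : K2 Q) (x y : T Q V) {i : Fin 3} : i.1 < 2 → Root M (.c2 a x y) (.c1 (.L i) x)
  | iI (x y : T Q V) : Root M (.c2 .ic x y) (.c1 (.I false) x)
  | ij (x y : T Q V) : Root M (.c2 .ic x y) (.c0 (.j 0))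
  | II (b : Bool) (x : T Q V) : Root M (.c1 (.I b) (.c1 .s x)) (.c1 (.I (!b)) x)
  | Ij (b : Bool) (x : T Q V) : Root M (.c1 (.I b) x) (.c0 (.j 1))
  | Iz (b : Bool) : Root M (.c1 (.I b) (.c0 .z)) (.c0 (.j 3))
  | cyc {n : ℕ} {t t' : T Q V} : RC n t t' → Root M t t'

variable {M : Mc Q}

theorem sn_subst (σ : V → T Q W) (k : ℕ) (x : T Q V) : (sn k x).subst σ = sn k (x.subst σ) := by
  induction k with
  | zero => rfl
  | succ k ih => simp [sn, Tm.subst, ih]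

theorem Val.subst (σ : V → T Q W) {t : T Q V} (h : Val M t) :
    Val M (t.subst σ) ∧ hd (t.subst σ) = hd t := by
  cases h <;> simp only [cf, Tm.subst, sn_subst] <;> refine ⟨?_, rfl⟩
  · exact .z
  · exact .s _
  · exact .aux _ _
  · exact .halt _ _
  · exact .ic _ _ _
  · exact .loop _ _ _ _
  · exact .exit _ _ _ _ _ ‹_›

theorem Mid.subst (σ : V → T Q W) {t : T Q V} (h : Mid t) :
    Mid (t.subst σ) ∧ hd (t.subst σ) = hd t := by
  rcases t with _ | ⟨_ | _ | _ | _ | _ | _⟩ | ⟨_ | _ | _, _⟩ | _ <;>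
    simp_all [Mid, Tm.subst, hd]

theorem Root.subst (σ : V → T Q W) {t t' : T Q V} (h : Root M t t') :
    Root M (t.subst σ) (t'.subst σ) := by
  cases h with
  | vx b h => exact (h.subst σ).2 ▸ .vx b (h.subst σ).1
  | va h h' => exact .va h (h'.subst σ).1
  | vp h h' => exact .vp h (h'.subst σ).1
  | y b h => exact (h.subst σ).2 ▸ .y b (h.subst σ).1
  | xa f b h => exact .xa f b h
  | ya f b h => exact .ya f b h
  | lp k x h h' => exact .lp k _ h h'
  | bl a x y h => exact .bl a _ _ h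
  | iI => exact .iI _ _
  | ij => exact .ij _ _
  | II => exact .II _ _
  | Ij => exact .Ij _ _
  | Iz => exact .Iz _
  | cyc h =>
    cases h with
    | xx f => exact .cyc (.xx f)
    | xy h => exact .cyc (.xy h)
    | yy f => exact .cyc (.yy f)
    | yx h => exact .cyc (.yx h)
    | a i => exact .cyc (.a i)
    | j i => exact .cyc (.j i)
    | p i => exact .cyc (.p i)
    | L i x => exact .cyc (.L i _)

def Bd {A0 A1 A2 : Type} : ℕ → Tm A0 A1 A2 ℕ → Prop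
  | _, .var v => v < 3
  | _, .c0 _ => True
  | 0, _ => False
  | n + 1, .c1 _ t => Bd n t
  | n + 1, .c2 _ t u => Bd n t ∧ Bd n u

theorem Bd_finite {A0 A1 A2 : Type} [Finite A0] [Finite A1] [Finite A2] (n : ℕ) :
    {t : Tm A0 A1 A2 ℕ | Bd n t}.Finite := by
  have h0 : (Tm.var '' Set.Iio 3 ∪ Set.range Tm.c0 : Set (Tm A0 A1 A2 ℕ)).Finite :=
    ((Set.finite_Iio 3).image _).union (Set.finite_range _)
  induction n with
  | zero =>
    refine h0.subset fun t ht => ?_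
    cases t <;> simp_all [Bd]
  | succ n ih =>
    refine (h0.union ((((Set.finite_univ (α := A1)).prod ih).image fun p => Tm.c1 p.1 p.2).union
      (((Set.finite_univ (α := A2)).prod (ih.prod ih)).image
        fun p => Tm.c2 p.1 p.2.1 p.2.2))).subset fun t ht => ?_
    cases t <;> simp_all [Bd]

theorem Bd_mono {A0 A1 A2 : Type} {n k : ℕ} {t : Tm A0 A1 A2 ℕ} (h : Bd n t) (hk : n ≤ k) :
    Bd k t := by
  induction t generalizing n k with
  | var => simpa [Bd] using h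
  | c0 => simp [Bd]
  | c1 a t ih =>
    rcases n with _ | n
    · simp [Bd] at h
    obtain ⟨k, rfl⟩ : ∃ j, k = j + 1 := ⟨k - 1, by omega⟩
    exact ih h (by omega)
  | c2 a t u ih ih' =>
    rcases n with _ | n
    · simp [Bd] at h
    obtain ⟨k, rfl⟩ : ∃ j, k = j + 1 := ⟨k - 1, by omega⟩
    exact ⟨ih h.1 (by omega), ih' h.2 (by omega)⟩

theorem Bd_sn {k n : ℕ} {t : T Q ℕ} (h : Bd 0 t) (hk : k ≤ n) : Bd n (sn k t) := by
  induction k generalizing n with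
  | zero => exact Bd_mono h hk
  | succ k ih =>
    obtain ⟨n, rfl⟩ : ∃ j, n = j + 1 := ⟨n - 1, by omega⟩
    exact ih (by omega)

def rules (M : Mc Q) : Set (T Q ℕ × T Q ℕ) :=
  {p | Root M p.1 p.2 ∧ Bd (M.m + 4) p.1 ∧ Bd (M.m + 4) p.2}

theorem rules_finite [Fintype Q] : (rules M).Finite :=
  ((Bd_finite _).prod (Bd_finite _)).subset fun _ h => h.2

theorem rules_wf {l r : T Q V} (h : Root M l r) :
    (∀ v, l ≠ .var v) ∧ ∀ v, r.Occ v → l.Occ v := by
  cases h with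
  | cyc h => cases h <;> simp [Tm.Occ]
  | vx b h => cases h <;> simp [Tm.Occ, cf]
  | va _ h => cases h <;> simp [Tm.Occ, cf]
  | vp _ h => cases h <;> simp [Tm.Occ, cf]
  | y b h => refine ⟨?_, by simp [Tm.Occ]⟩; rintro v rfl; exact h
  | _ => simp [Tm.Occ] <;> tauto

def s3 (x y r : T Q W) : ℕ → T Q W := fun n => if n = 0 then x else if n = 1 then y else r

theorem Val.pat {t : T Q W} (h : Val M t) :
    ∃ l : T Q ℕ, ∃ σ, Val M l ∧ Bd (M.m + 4) l ∧ t = l.subst σ := by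
  have b0 : ∀ i < 3, ∀ k ≤ M.m, ∀ n, Bd (M.m + n) (sn k (.var i) : T Q ℕ) :=
    fun i hi k hk n => Bd_sn hi (by omega)
  have b1 : ∀ k ≤ M.m, ∀ n, Bd (M.m + n) (sn k (.c0 .z) : T Q ℕ) :=
    fun k hk n => Bd_sn trivial (by omega)
  cases h with
  | z => exact ⟨_, fun _ => .c0 .z, .z, by simp [Bd], rfl⟩
  | s x => exact ⟨_, fun _ => x, .s (.var 0), by simp [Bd], rfl⟩
  | aux x r => exact ⟨_, s3 x r r, .aux (.var 0) (.var 1), by simp [Bd], rfl⟩
  | halt x r => exact ⟨_, s3 x r r, .halt (.var 0) (.var 1), by simp [Bd], rfl⟩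
  | ic b x r => exact ⟨_, s3 x r r, .ic b (.var 0) (.var 1), by simp [Bd, cf], rfl⟩
  | loop q x y r =>
    exact ⟨_, s3 x y r, .loop q (.var 0) (.var 1) (.var 2),
      by simpa [Bd, cf] using ⟨b0 0 (by omega) _ (M.hA q) 3, b0 1 (by omega) _ (M.hB q) 0⟩,
      by simp [cf, Tm.subst, sn_subst, s3]⟩
  | exit q j b y r h =>
    exact ⟨_, s3 y y r, .exit q j b (.var 1) (.var 2) h,
      by simpa [Bd, cf] using ⟨b1 _ (M.hJ q j h) 3, b0 1 (by omega) _ (M.hJ q j h) 1⟩,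
      by simp [cf, Tm.subst, sn_subst, s3]⟩

theorem Root.pat {t t' : T Q Empty} (h : Root M t t') :
    ∃ l r σ, (l, r) ∈ rules M ∧ t = l.subst σ ∧ t' = r.subst σ := by
  have e : ∀ a b, Root M (.c0 a : T Q ℕ) (.c0 b) → ∃ l r σ, (l, r) ∈ rules M ∧
      (.c0 a : T Q Empty) = l.subst σ ∧ (.c0 b : T Q Empty) = r.subst σ :=
    fun a b h => ⟨_, _, fun _ => .c0 .z, ⟨h, by simp [Bd], by simp [Bd]⟩, rfl, rfl⟩
  cases h with
  | vx b h =>
    obtain ⟨l, σ, h1, h2, rfl⟩ := h.pat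
    exact ⟨l, _, σ, ⟨.vx b h1, h2, by simp [Bd]⟩, rfl, by rw [(h1.subst σ).2]; rfl⟩
  | va h' h =>
    obtain ⟨l, σ, h1, h2, rfl⟩ := h.pat
    exact ⟨l, _, σ, ⟨.va h' h1, h2, by simp [Bd]⟩, rfl, rfl⟩
  | vp h' h =>
    obtain ⟨l, σ, h1, h2, rfl⟩ := h.pat
    exact ⟨l, _, σ, ⟨.vp h' h1, h2, by simp [Bd]⟩, rfl, rfl⟩
  | y b h =>
    rcases t with v | a | ⟨a, x⟩ | ⟨a, x, y⟩
    · exact v.elim
    · have : Mid (.c0 a : T Q ℕ) ∧ hd (.c0 a : T Q Empty) = hd (.c0 a : T Q ℕ) := by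
        cases a <;> simp_all [Mid, hd]
      exact e _ _ (this.2 ▸ .y b this.1)
    · exact ⟨.c1 a (.var 0), _, fun _ => x, ⟨.y (t := .c1 a (.var 0)) b trivial, by simp [Bd],
        by simp [Bd]⟩, rfl, by cases a <;> rfl⟩
    · exact ⟨.c2 a (.var 0) (.var 1), _, s3 x y y, ⟨.y (t := .c2 a (.var 0) (.var 1)) b trivial,
        by simp [Bd], by simp [Bd]⟩, rfl, rfl⟩
  | xa f b h => exact e _ _ (.xa f b h)
  | ya f b h => exact e _ _ (.ya f b h)
  | lp k x h h' =>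
    exact ⟨_, _, fun _ => x, ⟨.lp k (.var 0) h h', by simp [Bd], by simp [Bd]⟩, rfl, rfl⟩
  | bl a x y h =>
    exact ⟨_, _, s3 x y y, ⟨.bl a (.var 0) (.var 1) h, by simp [Bd], by simp [Bd]⟩, rfl, rfl⟩
  | iI x y =>
    exact ⟨_, _, s3 x y y, ⟨.iI (.var 0) (.var 1), by simp [Bd], by simp [Bd]⟩, rfl, rfl⟩
  | ij x y =>
    exact ⟨_, _, s3 x y y, ⟨.ij (.var 0) (.var 1), by simp [Bd], by simp [Bd]⟩, rfl, rfl⟩
  | II b x => exact ⟨_, _, fun _ => x, ⟨.II b (.var 0), by simp [Bd], by simp [Bd]⟩, rfl, rfl⟩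
  | Ij b x => exact ⟨_, _, fun _ => x, ⟨.Ij b (.var 0), by simp [Bd], by simp [Bd]⟩, rfl, rfl⟩
  | Iz b => exact ⟨_, _, fun _ => .c0 .z, ⟨.Iz b, by simp [Bd], by simp [Bd]⟩, rfl, rfl⟩
  | cyc h =>
    cases h with
    | xx f => exact e _ _ (.cyc (.xx f))
    | xy h => exact e _ _ (.cyc (.xy h))
    | yy f => exact e _ _ (.cyc (.yy f))
    | yx h => exact e _ _ (.cyc (.yx h))
    | a i => exact e _ _ (.cyc (.a i))
    | j i => exact e _ _ (.cyc (.j i))
    | p i => exact e _ _ (.cyc (.p i))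
    | L i x =>
      exact ⟨_, _, fun _ => x, ⟨.cyc (.L i (.var 0)), by simp [Bd], by simp [Bd]⟩, rfl, rfl⟩

abbrev G (Q : Type) : Type := T Q Empty

inductive St (M : Mc Q) : G Q → G Q → Prop
  | root {t t' : G Q} : Root M t t' → St M t t'
  | c1 (a : K1) {t t' : G Q} : St M t t' → St M (.c1 a t) (.c1 a t')
  | left (a : K2 Q) {t t' : G Q} (u : G Q) : St M t t' → St M (.c2 a t u) (.c2 a t' u)
  | right (a : K2 Q) (t : G Q) {u u' : G Q} : St M u u' → St M (.c2 a t u) (.c2 a t u')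

theorem step_eq : Step (rules M) = St M := by
  funext t t'
  refine propext ⟨fun h => ?_, fun h => ?_⟩
  · induction h with
    | root σ h => exact .root (h.1.subst σ)
    | c1 a _ ih => exact .c1 a ih
    | left a u _ ih => exact .left a u ih
    | right a t _ ih => exact .right a t ih
  · induction h with
    | root h => obtain ⟨l, r, σ, h1, rfl, rfl⟩ := h.pat; exact .root σ h1
    | c1 a _ ih => exact .c1 a ih
    | left a u _ ih => exact .left a u ih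
    | right a t _ ih => exact .right a t ih

end Pool.Agent.H63.RW
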