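import Pool.Agent.H63.RW1

/-! Contexts, short cycles and sibling steps. -/

set_option autoImplicit false

namespace Pool.Agent.H63.RW

variable {Q : Type} {M : Mc Q}

inductive Fr (Q : Type) : Type
  | u (a : K1)
  | l (a : K2 Q) (t : G Q)
  | r (a : K2 Q) (t : G Q)

def fill : List (Fr Q) → G Q → G Q
  | [], t => t
  | .u a :: K, t => .c1 a (fill K t)
  | .l a s :: K, t => .c2 a (fill K t) s
  | .r a s :: K, t => .c2 a s (fill K t)

theorem fill_inj {K : List (Fr Q)} {a b : G Q} : fill K a = fill K b ↔ a = b := by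
  induction K with
  | nil => rfl
  | cons f K ih => cases f <;> simp [fill, ih]

def rt : G Q → K0 Q ⊕ K1 ⊕ K2 Q
  | .var v => v.elim
  | .c0 a => .inl a
  | .c1 a _ => .inr (.inl a)
  | .c2 a _ _ => .inr (.inr a)

theorem rt_fill (f : Fr Q) (K : List (Fr Q)) (a b : G Q) :
    rt (fill (f :: K) a) = rt (fill (f :: K) b) := by cases f <;> rfl

theorem first_diff {K K' : List (Fr Q)} {a b a' b' : G Q} (h1 : fill K a = fill K' a')
    (h2 : fill K b = fill K' b') (h : rt a ≠ rt b) (h' : rt a' ≠ rt b') : a = a' ∧ b = b' := by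
  induction K generalizing K' with
  | nil =>
    rcases K' with _ | ⟨f, K'⟩
    · exact ⟨h1, h2⟩
    · rw [fill] at h1 h2
      exact absurd (by rw [h1, h2, rt_fill]) h
  | cons f K ih =>
    rcases K' with _ | ⟨f', K'⟩
    · rw [show fill [] a' = a' from rfl] at h1
      rw [show fill [] b' = b' from rfl] at h2
      exact absurd (by rw [← h1, ← h2, rt_fill]) h'
    · cases f <;> cases f' <;> simp only [fill, Tm.c1.injEq, Tm.c2.injEq, reduceCtorEq] at h1 h2
      · exact ih h1.2 h2.2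
      · exact ih h1.2.1 h2.2.1
      · exact absurd (congrArg rt (fill_inj.1 (h1.2.1.trans h2.2.1.symm))) h
      · exact absurd (congrArg rt (fill_inj.1 (h1.2.2.trans h2.2.2.symm))) h
      · exact ih h1.2.2 h2.2.2

theorem St.fill (K : List (Fr Q)) {a b : G Q} (h : St M a b) : St M (fill K a) (fill K b) := by
  induction K with
  | nil => exact h
  | cons f K ih =>
    cases f
    · exact .c1 _ ih
    · exact .left _ _ ih
    · exact .right _ _ ih

def wt : G Q → ℕ
  | .var _ => 0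
  | .c0 .z => 5
  | .c0 (.ex _ _) => 2
  | .c0 (.ey _ _) => 2
  | .c0 (.a _) => 1
  | .c0 (.j _) => 3
  | .c0 (.p _) => 3
  | .c1 .s t => 5 + wt t
  | .c1 (.L _) t => 4 + wt t
  | .c1 (.I _) t => 4 + wt t
  | .c2 _ t u => 5 + wt t + wt u

def ph : G Q → ℕ
  | .var _ => 0
  | .c0 .z => 0
  | .c0 (.ex _ b) => if b then 15 else 0
  | .c0 (.ey _ b) => if b then 45 else 30
  | .c0 (.a i) => 15 * i.1
  | .c0 (.j i) => 15 * i.1
  | .c0 (.p i) => 12 * i.1
  | .c1 .s t => ph t
  | .c1 (.L i) t => 20 * i.1 + ph t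
  | .c1 (.I _) t => ph t
  | .c2 _ t u => ph t + ph u

def CS (n : ℕ) (u w : G Q) : Prop := ∃ K k k', u = fill K k ∧ w = fill K k' ∧ RC n k k'

def Ty (n d : ℕ) : Prop := (n = 3 ∧ d = 20) ∨ (n = 4 ∧ d = 15) ∨ (n = 5 ∧ d = 12)

theorem RC.meas {n : ℕ} {u w : G Q} (h : RC n u w) :
    wt w = wt u ∧ ∃ d, Ty n d ∧ ph w % 60 = (ph u + d) % 60 := by
  cases h with
  | L i x => exact ⟨rfl, 20, by simp [Ty], by simp only [ph, Fin.val_add]; omega⟩
  | p i => exact ⟨rfl, 12, by simp [Ty], by simp only [ph, Fin.val_add]; omega⟩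
  | a i => exact ⟨rfl, 15, by simp [Ty], by simp only [ph, Fin.val_add]; omega⟩
  | j i => exact ⟨rfl, 15, by simp [Ty], by simp only [ph, Fin.val_add]; omega⟩
  | _ => exact ⟨rfl, 15, by simp [Ty], by simp [ph]⟩

theorem Val.wt {t : G Q} (h : Val M t) : 5 ≤ wt t := by
  cases h <;> simp only [RW.wt, cf] <;> omega

theorem Mid.wt {t : G Q} (h : Mid t) : 3 ≤ wt t := by
  rcases t with _ | ⟨_ | _ | _ | _ | _ | _⟩ | ⟨_ | _ | _, _⟩ | _ <;>
    simp_all only [Mid, RW.wt] <;> omega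

theorem St.meas {u w : G Q} (h : St M u w) : wt w < wt u ∨
    (wt w = wt u ∧ ∃ n d, CS n u w ∧ Ty n d ∧ ph w % 60 = (ph u + d) % 60) := by
  induction h with
  | root h =>
    cases h with
    | cyc h =>
      obtain ⟨a, d, b, c⟩ := h.meas
      exact Or.inr ⟨a, _, d, ⟨[], _, _, rfl, rfl, h⟩, b, c⟩
    | vx b h => have := h.wt; left; simp only [wt]; omega
    | va _ h => have := h.wt; left; simp only [wt]; omega
    | vp _ h => have := h.wt; left; simp only [wt]; omega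
    | y b h => have := h.wt; left; simp only [wt]; omega
    | _ => left; simp only [wt]; omega
  | c1 a _ ih =>
    rcases ih with ih | ⟨h1, n, d, ⟨K, k, k', rfl, rfl, h⟩, h2, h3⟩
    · left; cases a <;> simp only [wt] <;> omega
    · exact Or.inr ⟨by cases a <;> simp only [wt, h1], n, d, ⟨.u a :: K, k, k', rfl, rfl, h⟩, h2,
        by cases a <;> simp only [ph] <;> omega⟩
  | left a s _ ih =>
    rcases ih with ih | ⟨h1, n, d, ⟨K, k, k', rfl, rfl, h⟩, h2, h3⟩
    · left; simp only [wt]; omega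
    · exact Or.inr ⟨by simp only [wt, h1], n, d, ⟨.l a s :: K, k, k', rfl, rfl, h⟩, h2,
        by simp only [ph]; omega⟩
  | right a s _ ih =>
    rcases ih with ih | ⟨h1, n, d, ⟨K, k, k', rfl, rfl, h⟩, h2, h3⟩
    · left; simp only [wt]; omega
    · exact Or.inr ⟨by simp only [wt, h1], n, d, ⟨.r a s :: K, k, k', rfl, rfl, h⟩, h2,
        by simp only [ph]; omega⟩

theorem St.le {u w : G Q} (h : St M u w) : wt w ≤ wt u := by
  rcases h.meas with h | h
  · omega
  · exact h.1.le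

theorem St.cs {u w : G Q} (h : St M u w) (e : wt u ≤ wt w) :
    ∃ n d, CS n u w ∧ Ty n d ∧ ph w % 60 = (ph u + d) % 60 :=
  (h.meas.resolve_left (by omega)).2

theorem St.irrefl {u : G Q} : ¬ St M u u := fun h => by
  obtain ⟨n, d, -, h1, h2⟩ := h.cs le_rfl
  unfold Ty at h1
  omega

theorem cyc3 {u v w : G Q} (h1 : St M u v) (h2 : St M v w) (h3 : St M w u) : CS 3 u v := by
  have := h1.le; have := h2.le; have := h3.le
  obtain ⟨n1, d1, a1, b1, c1⟩ := h1.cs (by omega)
  obtain ⟨n2, d2, a2, b2, c2⟩ := h2.cs (by omega)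
  obtain ⟨n3, d3, a3, b3, c3⟩ := h3.cs (by omega)
  have e : (d1 + d2 + d3) % 60 = 0 := by omega
  unfold Ty at b1 b2 b3
  obtain rfl : n1 = 3 := by clear c1 c2 c3; omega
  exact a1

def path (K : List (Fr Q)) : List Bool := K.map fun f => match f with
  | .r _ _ => true
  | _ => false

def lab : List Bool → G Q → ℕ
  | [], .c0 a => ph (.c0 a)
  | false :: q, .c1 _ t => lab q t
  | false :: q, .c2 _ t _ => lab q t
  | true :: q, .c2 _ _ u => lab q u
  | _, _ => 0

theorem lab_self (K : List (Fr Q)) (a : K0 Q) : lab (path K) (fill K (.c0 a)) = ph (.c0 a) := by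
  induction K with
  | nil => rfl
  | cons f K ih => cases f <;> exact ih

theorem lab_ne {K : List (Fr Q)} {q : List Bool} (h : q ≠ path K) (a b : K0 Q) :
    lab q (fill K (.c0 a)) = lab q (fill K (.c0 b)) := by
  induction K generalizing q with
  | nil =>
    rcases q with _ | ⟨_ | _, q⟩
    · exact absurd rfl h
    · rfl
    · rfl
  | cons f K ih =>
    cases f <;> rcases q with _ | ⟨_ | _, q⟩ <;> simp only [fill, lab]
    · exact ih fun e => h (by simp [path, e])
    · exact ih fun e => h (by simp [path, e])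
    · exact ih fun e => h (by simp [path, e])

theorem path_eq {K K' : List (Fr Q)} {a b : G Q} (h : path K = path K')
    (e : fill K a = fill K' b) : K = K' ∧ a = b := by
  induction K generalizing K' with
  | nil =>
    rcases K' with _ | ⟨f, K'⟩
    · exact ⟨rfl, e⟩
    · simp [path] at h
  | cons f K ih =>
    rcases K' with _ | ⟨f', K'⟩
    · simp [path] at h
    · cases f <;> cases f' <;> simp [path, fill] at h e ⊢
      · exact ⟨⟨e.1, (ih h e.2).1⟩, (ih h e.2).2⟩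
      · exact ⟨⟨⟨e.1, e.2.2⟩, (ih h e.2.1).1⟩, (ih h e.2.1).2⟩
      · exact ⟨⟨⟨e.1, e.2.1⟩, (ih h e.2.2).1⟩, (ih h e.2.2).2⟩

theorem CS.con {n : ℕ} {u w : G Q} (h : CS n u w) (hn : n ≠ 3) : ∃ K a b, u = fill K (.c0 a) ∧
    w = fill K (.c0 b) ∧ RC n (.c0 a : G Q) (.c0 b) ∧ ∀ q, lab q w = lab q u ∨
      (q = path K ∧ lab q w % 60 = (lab q u + 60 / n) % 60) := by
  obtain ⟨K, k, k', rfl, rfl, h⟩ := h
  obtain ⟨a, b, rfl, rfl⟩ : ∃ a b, k = .c0 a ∧ k' = .c0 b := by
    cases h <;> first | exact ⟨_, _, rfl, rfl⟩ | exact absurd rfl hn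
  refine ⟨K, a, b, rfl, rfl, h, fun q => ?_⟩
  by_cases e : q = path K
  · subst e
    obtain ⟨-, d, h1, h2⟩ := h.meas
    rw [lab_self, lab_self, h2]
    rcases h1 with ⟨rfl, rfl⟩ | ⟨rfl, rfl⟩ | ⟨rfl, rfl⟩ <;> simp
  · exact Or.inl (lab_ne e _ _)

theorem cyc4 {w1 w2 w3 w4 : G Q} (h1 : St M w1 w2) (h2 : St M w2 w3) (h3 : St M w3 w4)
    (h4 : St M w4 w1) : ∃ K k1 k2 k3 k4, w1 = fill K (.c0 k1) ∧ w2 = fill K (.c0 k2) ∧
      w3 = fill K (.c0 k3) ∧ w4 = fill K (.c0 k4) ∧ RC 4 (.c0 k1 : G Q) (.c0 k2) ∧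
      RC 4 (.c0 k2 : G Q) (.c0 k3) ∧ RC 4 (.c0 k3 : G Q) (.c0 k4) ∧
      RC 4 (.c0 k4 : G Q) (.c0 k1) := by
  have := h1.le; have := h2.le; have := h3.le; have := h4.le
  obtain ⟨n1, d1, a1, b1, c1⟩ := h1.cs (by omega)
  obtain ⟨n2, d2, a2, b2, c2⟩ := h2.cs (by omega)
  obtain ⟨n3, d3, a3, b3, c3⟩ := h3.cs (by omega)
  obtain ⟨n4, d4, a4, b4, c4⟩ := h4.cs (by omega)
  have e : (d1 + d2 + d3 + d4) % 60 = 0 := by omega
  unfold Ty at b1 b2 b3 b4
  obtain ⟨rfl, rfl, rfl, rfl⟩ : n1 = 4 ∧ n2 = 4 ∧ n3 = 4 ∧ n4 = 4 := by clear c1 c2 c3 c4; omega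
  clear c1 c2 c3 c4 b1 b2 b3 b4 e
  obtain ⟨K1, k1, l1, e1, f1, g1, p1⟩ := a1.con (by omega)
  obtain ⟨K2, k2, l2, e2, f2, g2, p2⟩ := a2.con (by omega)
  obtain ⟨K3, k3, l3, e3, f3, g3, p3⟩ := a3.con (by omega)
  obtain ⟨K4, k4, l4, e4, f4, g4, p4⟩ := a4.con (by omega)
  have q1 : lab (path K1) w2 % 60 = (lab (path K1) w1 + 15) % 60 := by
    rw [e1, f1, lab_self, lab_self]
    obtain ⟨-, d, h1, h2⟩ := g1.meas
    unfold Ty at h1; omega
  have q : path K1 = path K2 ∧ path K1 = path K3 ∧ path K1 = path K4 := by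
    rcases p2 (path K1) with p2 | p2 <;> rcases p3 (path K1) with p3 | p3 <;>
      rcases p4 (path K1) with p4 | p4 <;> first | exact ⟨p2.1, p3.1, p4.1⟩ | omega
  obtain ⟨rfl, r2⟩ := path_eq q.1 (f1.symm.trans e2)
  obtain ⟨rfl, r3⟩ := path_eq q.2.1 (f2.symm.trans e3)
  obtain ⟨rfl, r4⟩ := path_eq q.2.2 (f3.symm.trans e4)
  have r1 := fill_inj.1 (f4.symm.trans e1)
  cases r1; cases r2; cases r3; cases r4
  exact ⟨_, _, _, _, _, e1, e2, e3, e4, g1, g2, g3, g4⟩

theorem cyc5 {w1 w2 w3 w4 w5 : G Q} (h1 : St M w1 w2) (h2 : St M w2 w3) (h3 : St M w3 w4)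
    (h4 : St M w4 w5) (h5 : St M w5 w1) : ∃ K k1 k2 k3 k4, w1 = fill K (.c0 k1) ∧
      w2 = fill K (.c0 k2) ∧ w3 = fill K (.c0 k3) ∧ w4 = fill K (.c0 k4) ∧
      RC 5 (.c0 k1 : G Q) (.c0 k2) ∧ RC 5 (.c0 k2 : G Q) (.c0 k3) ∧
      RC 5 (.c0 k3 : G Q) (.c0 k4) := by
  have := h1.le; have := h2.le; have := h3.le; have := h4.le; have := h5.le
  obtain ⟨n1, d1, a1, b1, c1⟩ := h1.cs (by omega)
  obtain ⟨n2, d2, a2, b2, c2⟩ := h2.cs (by omega)
  obtain ⟨n3, d3, a3, b3, c3⟩ := h3.cs (by omega)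
  obtain ⟨n4, d4, a4, b4, c4⟩ := h4.cs (by omega)
  obtain ⟨n5, d5, a5, b5, c5⟩ := h5.cs (by omega)
  have e : (d1 + d2 + d3 + d4 + d5) % 60 = 0 := by omega
  unfold Ty at b1 b2 b3 b4 b5
  obtain ⟨rfl, rfl, rfl, rfl, rfl⟩ : n1 = 5 ∧ n2 = 5 ∧ n3 = 5 ∧ n4 = 5 ∧ n5 = 5 := by
    clear c1 c2 c3 c4 c5; omega
  clear c1 c2 c3 c4 c5 b1 b2 b3 b4 b5 e
  obtain ⟨K1, k1, l1, e1, f1, g1, p1⟩ := a1.con (by omega)
  obtain ⟨K2, k2, l2, e2, f2, g2, p2⟩ := a2.con (by omega)
  obtain ⟨K3, k3, l3, e3, f3, g3, p3⟩ := a3.con (by omega)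
  obtain ⟨K4, k4, l4, e4, f4, g4, p4⟩ := a4.con (by omega)
  obtain ⟨K5, k5, l5, e5, f5, g5, p5⟩ := a5.con (by omega)
  have q1 : lab (path K1) w2 % 60 = (lab (path K1) w1 + 12) % 60 := by
    rw [e1, f1, lab_self, lab_self]
    obtain ⟨-, d, h1, h2⟩ := g1.meas
    unfold Ty at h1; omega
  have q : path K1 = path K2 ∧ path K1 = path K3 := by
    rcases p2 (path K1) with p2 | p2 <;> rcases p3 (path K1) with p3 | p3 <;>
      rcases p4 (path K1) with p4 | p4 <;> rcases p5 (path K1) with p5 | p5 <;>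
      first | exact ⟨p2.1, p3.1⟩ | omega
  obtain ⟨rfl, r2⟩ := path_eq q.1 (f1.symm.trans e2)
  obtain ⟨rfl, r3⟩ := path_eq q.2 (f2.symm.trans e3)
  cases r2; cases r3
  exact ⟨_, _, _, _, _, e1, e2, e3, f3, g1, g2, g3⟩

theorem Root.rt_ne {u w : G Q} (h : Root M u w) : rt u ≠ rt w := by
  cases h with
  | cyc h => cases h <;> simp [rt]
  | vx b h => cases h <;> simp [rt, cf]
  | va _ h => cases h <;> simp [rt, cf]
  | vp _ h => cases h <;> simp [rt, cf]
  | y b h =>
    rcases u with _ | ⟨_ | _ | _ | _ | _ | _⟩ | _ | _ <;> simp_all [rt, Mid]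
  | _ => simp [rt]

theorem Root.c1 {u m : G Q} {a : K1} (h : Root M u (.c1 a m)) :
    (∃ b n i, u = .c2 b m n ∧ a = .L i ∧ i.1 < 2) ∨ (∃ n, u = .c2 .ic m n ∧ a = .I false) ∨
    (∃ b, u = .c1 (.I b) (.c1 .s m) ∧ a = .I (!b)) ∨ ∃ i, u = .c1 (.L i) m ∧ a = .L (i + 1) := by
  cases h with
  | cyc h => cases h; simp
  | bl a x y h => exact Or.inl ⟨_, _, _, rfl, rfl, h⟩
  | iI => simp
  | II => simp

theorem Root.c2 {u m n : G Q} {a : K2 Q} : ¬ Root M u (.c2 a m n) := by
  intro h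
  cases h with
  | cyc h => cases h

theorem sib {n : ℕ} {K : List (Fr Q)} {u k k' : G Q} (h : RC n k k') (h1 : St M u (fill K k))
    (h2 : St M u (fill K k')) : ∃ u0, u = fill K u0 ∧ Root M u0 k ∧ Root M u0 k' := by
  have hk : k ≠ k' := fun e => (Root.cyc (M := M) h).rt_ne (congrArg rt e)
  induction K generalizing u with
  | nil =>
    refine ⟨u, rfl, ?_⟩
    simp only [fill] at h1 h2
    cases h with
    | L i x =>
      cases h1 with
      | root h1 =>
        cases h2 with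
        | root h2 => exact ⟨h1, h2⟩
        | c1 _ h2 => have := h1.c1; simp at this; omega
      | c1 _ h1 =>
        generalize e : (K1.L (i + 1)) = c at h2
        cases h2 with
        | root h2 =>
          have := h2.c1
          subst e
          simp at this
          exact (St.irrefl (this ▸ h1)).elim
        | c1 => simp at e
    | _ => cases h1; cases h2; exact ⟨‹_›, ‹_›⟩
  | cons f K ih =>
    cases f with
    | u a =>
      simp only [fill] at h1 h2
      cases h1 with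
      | root h1 =>
        cases h2 with
        | root h2 =>
          have a1 := h1.c1
          have a2 := h2.c1
          refine absurd (fill_inj.1 (?_ : fill K k = fill K k')) hk
          aesop
        | c1 _ h2 => exact absurd rfl h1.rt_ne
      | c1 _ h1 =>
        cases h2 with
        | root h2 => exact absurd rfl h2.rt_ne
        | c1 _ h2 =>
          obtain ⟨u0, rfl, h⟩ := ih h1 h2
          exact ⟨u0, rfl, h⟩
    | l a s =>
      simp only [fill] at h1 h2
      cases h1 with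
      | root h1 => exact h1.c2.elim
      | left _ _ h1 =>
        cases h2 with
        | root h2 => exact h2.c2.elim
        | left _ _ h2 =>
          obtain ⟨u0, rfl, h⟩ := ih h1 h2
          exact ⟨u0, rfl, h⟩
        | right _ _ h2 => exact (St.irrefl h2).elim
      | right _ _ h1 =>
        generalize e : fill K k' = c at h2
        cases h2 with
        | root h2 => exact h2.c2.elim
        | left _ _ h2 => exact (St.irrefl h1).elim
        | right _ _ h2 => exact absurd (fill_inj.1 e.symm) hk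
    | r a s =>
      simp only [fill] at h1 h2
      cases h1 with
      | root h1 => exact h1.c2.elim
      | right _ _ h1 =>
        cases h2 with
        | root h2 => exact h2.c2.elim
        | right _ _ h2 =>
          obtain ⟨u0, rfl, h⟩ := ih h1 h2
          exact ⟨u0, rfl, h⟩
        | left _ _ h2 => exact (St.irrefl h2).elim
      | left _ _ h1 =>
        generalize e : fill K k' = c at h2
        cases h2 with
        | root h2 => exact h2.c2.elim
        | right _ _ h2 => exact (St.irrefl h1).elim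
        | left _ _ h2 => exact absurd (fill_inj.1 e.symm) hk

end Pool.Agent.H63.RW
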