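import Pool.Agent.H63.RW2

/-! The clash formulas and what they mean. -/

set_option autoImplicit false

namespace Pool.Agent.H63.RW

variable {Q : Type} {M : Mc Q}

theorem Val.pr {u : G Q} (h : Val M u) :
    u = .c0 .z ∨ (∃ x, u = .c1 .s x) ∨ ∃ a x y, u = .c2 a x y := by
  cases h <;> simp [cf]

theorem Root.ex {u : G Q} {f : Ix Q} {b : Bool} (h : Root M u (.c0 (.ex f b))) :
    (Val M u ∧ hd u = f) ∨ (b = true ∧ u = .c0 (.ex f false)) ∨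
      (b = false ∧ ∃ g, u = .c0 (.ey g true)) := by
  cases h with
  | vx b h => exact Or.inl ⟨h, rfl⟩
  | cyc h => cases h <;> simp

theorem Root.ey {u : G Q} {f : Ix Q} {b : Bool} (h : Root M u (.c0 (.ey f b))) :
    (Mid u ∧ hd u = f) ∨ (b = true ∧ u = .c0 (.ey f false)) ∨
      (b = false ∧ ∃ g, u = .c0 (.ex g true)) := by
  cases h with
  | y b h => exact Or.inl ⟨h, rfl⟩
  | cyc h => cases h <;> simp

theorem Root.a {u : G Q} {i : Fin 4} (h : Root M u (.c0 (.a i))) :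
    (i.1 < 2 ∧ Val M u) ∨ (2 ≤ i.1 ∧ ∃ f b, u = .c0 (.ex f b) ∨ u = .c0 (.ey f b)) ∨
      ∃ k, u = .c0 (.a k) ∧ i = k + 1 := by
  cases h with
  | va h h' => exact Or.inl ⟨h, h'⟩
  | xa f b h => exact Or.inr (Or.inl ⟨h, f, b, Or.inl rfl⟩)
  | ya f b h => exact Or.inr (Or.inl ⟨h, f, b, Or.inr rfl⟩)
  | cyc h => cases h; simp

theorem Root.j {u : G Q} {i : Fin 4} (h : Root M u (.c0 (.j i))) :
    (i = 0 ∧ ∃ x y, u = .c2 .ic x y) ∨ (i = 1 ∧ ∃ b x, u = .c1 (.I b) x) ∨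
      (i = 3 ∧ ∃ b, u = .c1 (.I b) (.c0 .z)) ∨ ∃ k, u = .c0 (.j k) ∧ i = k + 1 := by
  cases h with
  | cyc h => cases h; simp
  | _ => simp

theorem Root.p {u : G Q} {i : Fin 5} (h : Root M u (.c0 (.p i))) :
    (i.1 < 2 ∧ Val M u) ∨ (2 ≤ i.1 ∧ i.1 < 4 ∧ ∃ k x, u = .c1 (.L k) x) ∨
      ∃ k, u = .c0 (.p k) ∧ i = k + 1 := by
  cases h with
  | vp h h' => exact Or.inl ⟨h, h'⟩
  | lp k x h h' => exact Or.inr (Or.inl ⟨h, h', k, x, rfl⟩)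
  | cyc h => cases h; simp

theorem Val.not0 {k : K0 Q} (h : Val M (.c0 k : G Q)) : k = .z := by simpa using h.pr

theorem sp4 {u : G Q} {k1 k2 : K0 Q} (h : RC 4 (.c0 k1 : G Q) (.c0 k2)) (h1 : Root M u (.c0 k1))
    (h2 : Root M u (.c0 k2)) : (Val M u ∧ k1 = .ex (hd u) false) ∨ (Mid u ∧ k1 = .ey (hd u) false) ∨
    (Val M u ∧ k1 = .a 0) ∨ ((∃ f b, u = .c0 (.ex f b) ∨ u = .c0 (.ey f b)) ∧ k1 = .a 2) := by
  cases h with
  | xx f =>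
    rcases h1.ex with ⟨a, rfl⟩ | ⟨a, -⟩ | ⟨-, g, rfl⟩
    · exact Or.inl ⟨a, rfl⟩
    · cases a
    · rcases h2.ex with ⟨a, -⟩ | ⟨-, a⟩ | ⟨a, -⟩
      · cases a.not0
      · cases a
      · cases a
  | xy h =>
    rcases h1.ex with ⟨a, rfl⟩ | ⟨-, rfl⟩ | ⟨a, -⟩
    · rcases h2.ey with ⟨-, b⟩ | ⟨b, -⟩ | ⟨-, g, rfl⟩
      · exact absurd b h.1
      · cases b
      · cases a.not0
    · simpa [Mid] using h2.ey
    · cases a
  | yy g =>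
    rcases h1.ey with ⟨a, rfl⟩ | ⟨a, -⟩ | ⟨-, g, rfl⟩
    · exact Or.inr (Or.inl ⟨a, rfl⟩)
    · cases a
    · simpa [Mid] using h2.ey
  | yx h =>
    rcases h2.ex with ⟨a, rfl⟩ | ⟨a, -⟩ | ⟨-, g, rfl⟩
    · rcases h1.ey with ⟨-, b⟩ | ⟨-, rfl⟩ | ⟨b, -⟩
      · exact absurd b h.1
      · cases a.not0
      · cases b
    · cases a
    · simpa [Mid] using h1.ey
  | a i =>
    rcases h1.a with ⟨a, b⟩ | ⟨a, b⟩ | ⟨k, rfl, rfl⟩
    · rcases h2.a with ⟨c, -⟩ | ⟨-, f, _, rfl | rfl⟩ | ⟨k, rfl, -⟩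
      · exact Or.inr (Or.inr (Or.inl ⟨b, by congr; omega⟩))
      all_goals cases b.not0
    · rcases h2.a with ⟨-, d⟩ | ⟨c, -⟩ | ⟨k, rfl, -⟩
      · obtain ⟨f, _, rfl | rfl⟩ := b <;> cases d.not0
      · exact Or.inr (Or.inr (Or.inr ⟨b, by congr; omega⟩))
      · simp at b
    · rcases h2.a with ⟨-, d⟩ | ⟨-, c⟩ | ⟨k', c, d⟩
      · cases d.not0
      · simp at c
      · cases c; omega
  | j i =>
    exfalso
    rcases h1.j with ⟨a, _, _, rfl⟩ | ⟨a, _, _, rfl⟩ | ⟨a, _, rfl⟩ | ⟨_, rfl, a⟩ <;>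
      have := h2.j <;> simp at this <;> omega

def C4 (M : Mc Q) (u v : G Q) : Prop := ∃ w1 w2 w3 w4, St M w1 w2 ∧ St M w2 w3 ∧ St M w3 w4 ∧
  St M w4 w1 ∧ St M u w1 ∧ St M u w2 ∧
    ((St M v w3 ∧ St M v w4) ∨ v = w1 ∨ v = w2 ∨ v = w3 ∨ v = w4)

def C5 (M : Mc Q) (u v : G Q) : Prop := ∃ w1 w2 w3 w4 w5, St M w1 w2 ∧ St M w2 w3 ∧ St M w3 w4 ∧
  St M w4 w5 ∧ St M w5 w1 ∧ St M u w1 ∧ St M u w2 ∧ St M v w3 ∧ St M v w4

def LS (M : Mc Q) (u w : G Q) : Prop :=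
  ∃ a b, St M u w ∧ St M u a ∧ St M w a ∧ St M a b ∧ St M b w

def C (M : Mc Q) (x y : G Q) : Prop :=
  C4 M x y ∨ C5 M x y ∨ ∃ x1 y1, LS M x x1 ∧ LS M y y1 ∧ C4 M x1 y1

def Bin (t : G Q) : Prop := ∃ a x y, t = .c2 a x y

def Cl (M : Mc Q) (a b : G Q) : Prop := rt a ≠ rt b ∧ (∀ i, b = .c0 (.j i) → Val M a) ∧
  (hd b = .ell → ¬ Bin a) ∧ (hd a = .ell → ¬ Bin b)

theorem hd_rt {a b : G Q} (h : rt a = rt b) : hd a = hd b := by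
  rcases a with v | a | ⟨a, _⟩ | _ <;> rcases b with v' | b | ⟨b, _⟩ | _ <;>
    first | exact v.elim | exact v'.elim | simp [rt] at h
  · subst h; rfl
  · subst h; cases a <;> rfl
  · subst h; rfl

theorem Val.ell {u : G Q} (h : Val M u) : hd u ≠ .ell := by cases h <;> simp [hd, cf]

theorem ok_bin {a : G Q} {g : Ix Q} (h : ok (hd a) g) (e : g = .ell) : ¬ Bin a := by
  rintro ⟨_, _, _, rfl⟩
  simpa [hd] using h.2 e

theorem C4.cl {u v : G Q} (h : C4 M u v) : ∃ K a b, u = fill K a ∧ v = fill K b ∧ Cl M a b := by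
  obtain ⟨w1, w2, w3, w4, h1, h2, h3, h4, h5, h6, h7⟩ := h
  obtain ⟨K, k1, k2, k3, k4, rfl, rfl, rfl, rfl, g1, g2, g3, g4⟩ := cyc4 h1 h2 h3 h4
  obtain ⟨a, rfl, a1, a2⟩ := sib g1 h5 h6
  have sa := sp4 g1 a1 a2
  rcases h7 with ⟨h7, h8⟩ | h7
  · obtain ⟨b, rfl, b1, b2⟩ := sib g3 h7 h8
    refine ⟨K, a, b, rfl, rfl, ?_⟩
    have sb := sp4 g3 b1 b2
    rcases sa with ⟨c, rfl⟩ | ⟨c, rfl⟩ | ⟨c, rfl⟩ | ⟨c, rfl⟩ <;> cases g1 <;>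
      rcases sb with ⟨d, rfl⟩ | ⟨d, rfl⟩ | ⟨d, rfl⟩ | ⟨d, rfl⟩
    all_goals first | (cases g2; done) | skip
    · cases g2 with
      | xy g => exact ⟨fun e => g.1 (hd_rt e), fun _ _ => c, ok_bin g, fun e => absurd e c.ell⟩
    · cases g3
      cases g4 with
      | xy g => exact ⟨fun e => g.1 (hd_rt e.symm), fun i e => (by subst e; cases d.not0),
          fun e => absurd e d.ell, ok_bin g⟩
    · obtain ⟨f, e, rfl | rfl⟩ := d <;>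
        exact ⟨by rcases c.pr with rfl | ⟨_, rfl⟩ | ⟨_, _, _, rfl⟩ <;> simp [rt], fun _ _ => c,
          by simp [hd], fun e => absurd e c.ell⟩
    · obtain ⟨f, e, rfl | rfl⟩ := c <;>
        exact ⟨by rcases d.pr with rfl | ⟨_, rfl⟩ | ⟨_, _, _, rfl⟩ <;> simp [rt],
          fun i e => (by subst e; cases d.not0), fun e => absurd e d.ell, by simp [hd]⟩
  · have key : ∀ k, ((∃ f b, k = .ex f b ∨ k = .ey f b) ∧ (Val M a ∨ Mid a)) ∨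
        ((∃ i, k = .a i) ∧ (Val M a ∨ ∃ f b, a = .c0 (.ex f b) ∨ a = .c0 (.ey f b))) →
        Cl M a (.c0 k) := by
      intro k hk
      have : rt a ≠ .inl k ∧ (∀ i, k ≠ .j i) ∧ hd (.c0 k : G Q) ≠ .ell := by
        rcases hk with ⟨⟨f, b, rfl | rfl⟩, c | c⟩ | ⟨⟨i, rfl⟩, c | ⟨f, b, rfl | rfl⟩⟩
        all_goals first
          | (rcases c.pr with rfl | ⟨_, rfl⟩ | ⟨_, _, _, rfl⟩ <;> simp [rt, hd]; done)
          | (simp [rt, hd]; done)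
          | (rcases a with v | ⟨_ | _ | _ | _ | _ | _⟩ | _ | _ <;> simp_all [rt, hd, Mid])
      exact ⟨this.1, fun i e => by cases e; exact absurd rfl (this.2.1 i),
        fun e => absurd e this.2.2, fun _ => by simp [Bin]⟩
    have : Cl M a (.c0 k1) ∧ Cl M a (.c0 k2) ∧ Cl M a (.c0 k3) ∧ Cl M a (.c0 k4) := by
      rcases sa with ⟨c, rfl⟩ | ⟨c, rfl⟩ | ⟨c, rfl⟩ | ⟨c, rfl⟩ <;> cases g1 <;> cases g2 <;>
        cases g3 <;> refine ⟨key _ ?_, key _ ?_, key _ ?_, key _ ?_⟩ <;>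
        first | exact Or.inr ⟨⟨_, rfl⟩, Or.inr c⟩ | simp [c]
    rcases h7 with rfl | rfl | rfl | rfl
    · exact ⟨K, a, _, rfl, rfl, this.1⟩
    · exact ⟨K, a, _, rfl, rfl, this.2.1⟩
    · exact ⟨K, a, _, rfl, rfl, this.2.2.1⟩
    · exact ⟨K, a, _, rfl, rfl, this.2.2.2⟩

theorem C5.cl {u v : G Q} (h : C5 M u v) :
    ∃ K a b, u = fill K a ∧ v = fill K b ∧ rt a ≠ rt b ∧ hd b = .ell := by
  obtain ⟨w1, w2, w3, w4, w5, h1, h2, h3, h4, h5, h6, h7, h8, h9⟩ := h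
  obtain ⟨K, k1, k2, k3, k4, rfl, rfl, rfl, rfl, g1, g2, g3⟩ := cyc5 h1 h2 h3 h4 h5
  obtain ⟨a, rfl, a1, a2⟩ := sib g1 h6 h7
  obtain ⟨b, rfl, b1, b2⟩ := sib g3 h8 h9
  refine ⟨K, a, b, rfl, rfl, ?_⟩
  have sp : ∀ (u : G Q) (i : Fin 5), Root M u (.c0 (.p i)) → Root M u (.c0 (.p (i + 1))) →
      (i = 0 ∧ Val M u) ∨ (i = 2 ∧ hd u = .ell) := by
    intro u i h1 h2
    rcases h1.p with ⟨a, b⟩ | ⟨a, b, _, _, rfl⟩ | ⟨k, rfl, rfl⟩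
    · rcases h2.p with ⟨c, -⟩ | ⟨-, -, _, _, rfl⟩ | ⟨_, rfl, -⟩
      · exact Or.inl ⟨by omega, b⟩
      · simpa using b.pr
      · cases b.not0
    · rcases h2.p with ⟨-, d⟩ | ⟨c, d, -⟩ | ⟨_, c, -⟩
      · simpa using d.pr
      · exact Or.inr ⟨by omega, rfl⟩
      · cases c
    · rcases h2.p with ⟨-, d⟩ | ⟨-, -, _, _, c⟩ | ⟨_, c, d⟩
      · cases d.not0
      · cases c
      · cases c; omega
  cases g1; cases g2; cases g3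
  rcases sp _ _ a1 a2 with ⟨c, d⟩ | ⟨c, d⟩ <;> rcases sp _ _ b1 b2 with ⟨e, f⟩ | ⟨e, f⟩
  · omega
  · exact ⟨fun h => d.ell ((hd_rt h).trans f), f⟩
  · omega
  · omega

theorem LS.cl {u w : G Q} (h : LS M u w) :
    ∃ K a m n, u = fill K (.c2 a m n) ∧ w = fill K (.c1 (.L 0) m) := by
  obtain ⟨a, b, h1, h2, h3, h4, h5⟩ := h
  obtain ⟨K, k, k', rfl, rfl, g⟩ := cyc3 h3 h4 h5
  obtain ⟨u0, rfl, a1, a2⟩ := sib g h1 h2
  cases g with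
  | L i x =>
    rcases a1.c1 with ⟨b, n, j, rfl, e, a⟩ | ⟨_, -, e⟩ | ⟨_, -, e⟩ | ⟨j, rfl, e⟩
    · have := a2.c1
      cases e
      simp at this
      exact ⟨K, b, x, n, rfl, by congr; omega⟩
    · cases e
    · cases e
    · have := a2.c1
      cases e
      simp at this

end Pool.Agent.H63.RW
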