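import Pool.Agent.H63.RW3

/-! Soundness and completeness of the clash formula. -/

set_option autoImplicit false

namespace Pool.Agent.H63.RW

variable {Q : Type} {M : Mc Q}

theorem bin_of_rt {a b : G Q} (h : rt a = rt b) (hb : Bin b) : Bin a := by
  obtain ⟨_, _, _, rfl⟩ := hb
  rcases a with v | _ | _ | _ <;> first | exact v.elim | simp [rt] at h
  exact ⟨_, _, _, rfl⟩

theorem inner {β a b m n m' n' : G Q} {i : Fin 4} {c c' : K2 Q} (hβ : ¬ Val M β)
    (hr : rt β ≠ rt (.c0 (.j i))) (hc : Cl M a b) {K D P P' : List (Fr Q)}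
    (e1 : fill D β = fill P (.c2 c m n)) (e2 : fill D (.c0 (.j i)) = fill P' (.c2 c' m' n'))
    (e3 : fill P (.c1 (.L 0) m) = fill K a) (e4 : fill P' (.c1 (.L 0) m') = fill K b) : False := by
  have fd : ∀ {K D : List (Fr Q)}, fill D β = fill K a → fill D (.c0 (.j i)) = fill K b → False := by
    intro K D h1 h2
    obtain ⟨rfl, rfl⟩ := first_diff h1 h2 hr hc.1
    exact hβ (hc.2.1 i rfl)
  have ab : ∀ {K : List (Fr Q)}, fill K a ≠ fill K b := fun h => hc.1 (congrArg rt (fill_inj.1 h))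
  have f1 : ∀ {D P : List (Fr Q)}, fill D β = fill P (.c2 c m n) →
      fill D (.c0 (.j i)) = fill P (.c1 (.L 0) m) → False := fun h1 h2 => by
    simpa using (first_diff h1 h2 hr (by simp [rt])).2
  have f2 : ∀ {D P : List (Fr Q)}, fill D β = fill P (.c1 (.L 0) m') →
      fill D (.c0 (.j i)) = fill P (.c2 c' m' n') → False := fun h1 h2 => by
    simpa using (first_diff h1 h2 hr (by simp [rt])).2
  have f3 : ∀ {D : List (Fr Q)}, fill D β ≠ fill D (.c0 (.j i)) :=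
    fun h => hr (congrArg rt (fill_inj.1 h))
  induction K generalizing D P P' with
  | nil =>
    simp only [fill] at e3 e4
    subst e3 e4
    rcases D with _ | ⟨f, D⟩
    · rcases P' with _ | ⟨_ | _ | _, _⟩ <;> cases e2
    have e := (congrArg rt e1).symm.trans ((rt_fill f D _ _).trans (congrArg rt e2))
    rcases P with _ | ⟨g, P⟩ <;> rcases P' with _ | ⟨g', P'⟩
    · exact hc.1 rfl
    · exact hc.2.2.2 rfl (bin_of_rt ((rt_fill _ _ _ _).trans e.symm) ⟨_, _, _, rfl⟩)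
    · exact hc.2.2.1 rfl (bin_of_rt ((rt_fill _ _ _ _).trans e) ⟨_, _, _, rfl⟩)
    · exact hc.1 ((rt_fill _ _ _ _).trans (e.trans (rt_fill _ _ _ _)))
  | cons k K ih =>
    rcases D with _ | ⟨f, D⟩
    · rcases P' with _ | ⟨_ | _ | _, _⟩ <;> cases e2
    rcases P with _ | ⟨g | g | g, P⟩ <;> rcases P' with _ | ⟨g' | g' | g', P'⟩ <;> cases f <;>
      cases k <;>
      simp only [fill, Tm.c1.injEq, Tm.c2.injEq, reduceCtorEq] at e1 e2 e3 e4
    all_goals first
      | exact ih e1.2 e2.2 e3.2 e4.2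
      | exact ih e1.2.1 e2.2.1 e3.2.1 e4.2.1
      | exact ih e1.2.2 e2.2.2 e3.2.2 e4.2.2
      | grind [fill_inj]

theorem not_C {β : G Q} {i : Fin 4} (hβ : ¬ Val M β) (hr : rt β ≠ rt (.c0 (.j i)))
    (D : List (Fr Q)) : ¬ C M (fill D β) (fill D (.c0 (.j i))) := by
  rintro (h | h | ⟨x1, y1, h1, h2, h⟩)
  · obtain ⟨K, a, b, e1, e2, hc⟩ := h.cl
    obtain ⟨rfl, rfl⟩ := first_diff e1 e2 hr hc.1
    exact hβ (hc.2.1 i rfl)
  · obtain ⟨K, a, b, e1, e2, h1, h2⟩ := h.cl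
    obtain ⟨rfl, rfl⟩ := first_diff e1 e2 hr h1
    cases h2
  · obtain ⟨K, a, b, e1, e2, hc⟩ := h.cl
    obtain ⟨P, c, m, n, e3, rfl⟩ := h1.cl
    obtain ⟨P', c', m', n', e4, rfl⟩ := h2.cl
    exact inner hβ hr hc e3 e4 e1 e2

def AV (M : Mc Q) : G Q → Prop
  | .var _ => False
  | .c0 a => Val M (.c0 a : G Q)
  | .c1 a t => Val M (.c1 a t) ∧ AV M t
  | .c2 a t u => Val M (.c2 a t u) ∧ AV M t ∧ AV M u

theorem av_of {x : G Q} (h : ∀ y, y = x ∨ C M x y) : AV M x := by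
  have : ∀ D β, x = fill D β → Val M β := by
    rintro D β rfl
    by_contra hβ
    obtain ⟨i, hi⟩ : ∃ i, rt β ≠ rt (.c0 (.j i) : G Q) := by
      by_cases e : rt β = rt (.c0 (.j 0) : G Q)
      · exact ⟨1, by rw [e]; simp [rt]⟩
      · exact ⟨0, e⟩
    rcases h (fill D (.c0 (.j i))) with e | e
    · exact hi (congrArg rt (fill_inj.1 e).symm)
    · exact not_C hβ hi D e
  clear h
  induction x with
  | var v => exact v.elim
  | c0 a => exact this [] _ rfl
  | c1 a t ih => exact ⟨this [] _ rfl, ih fun D β e => this (.u a :: D) β (by rw [e]; rfl)⟩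
  | c2 a t u ih ih' =>
    exact ⟨this [] _ rfl, ih fun D β e => this (.l a u :: D) β (by rw [e]; rfl),
      ih' fun D β e => this (.r a t :: D) β (by rw [e]; rfl)⟩

theorem C4.fill (K : List (Fr Q)) {u v : G Q} (h : C4 M u v) : C4 M (fill K u) (fill K v) := by
  obtain ⟨w1, w2, w3, w4, h1, h2, h3, h4, h5, h6, h7⟩ := h
  refine ⟨_, _, _, _, h1.fill K, h2.fill K, h3.fill K, h4.fill K, h5.fill K, h6.fill K, ?_⟩
  rcases h7 with h | rfl | rfl | rfl | rfl
  · exact Or.inl ⟨h.1.fill K, h.2.fill K⟩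
  all_goals simp

theorem LS.fill (K : List (Fr Q)) {u v : G Q} (h : LS M u v) : LS M (fill K u) (fill K v) := by
  obtain ⟨a, b, h1, h2, h3, h4, h5⟩ := h
  exact ⟨_, _, h1.fill K, h2.fill K, h3.fill K, h4.fill K, h5.fill K⟩

theorem C.fill (K : List (Fr Q)) {u v : G Q} (h : C M u v) : C M (fill K u) (fill K v) := by
  rcases h with h | ⟨w1, w2, w3, w4, w5, h1, h2, h3, h4, h5, h6, h7, h8, h9⟩ | ⟨x, y, h1, h2, h⟩
  · exact Or.inl (h.fill K)
  · exact Or.inr (Or.inl ⟨_, _, _, _, _, h1.fill K, h2.fill K, h3.fill K, h4.fill K, h5.fill K,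
      h6.fill K, h7.fill K, h8.fill K, h9.fill K⟩)
  · exact Or.inr (Or.inr ⟨_, _, h1.fill K, h2.fill K, h.fill K⟩)

theorem c4_e {x y : G Q} (hx : Val M x) (hy : Mid y) (h : ok (hd x) (hd y)) : C4 M x y :=
  ⟨_, _, _, _, .root (.cyc (.xx _)), .root (.cyc (.xy h)), .root (.cyc (.yy _)),
    .root (.cyc (.yx h)), .root (.vx _ hx), .root (.vx _ hx),
    Or.inl ⟨.root (.y _ hy), .root (.y _ hy)⟩⟩

theorem c4_a {x y : G Q} (hx : Val M x) (hy : ¬ Mid y) : C4 M x y := by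
  refine ⟨.c0 (.a 0), .c0 (.a 1), .c0 (.a 2), .c0 (.a 3), .root (.cyc (.a 0)), .root (.cyc (.a 1)),
    .root (.cyc (.a 2)), .root (.cyc (.a 3)), .root (.va (by simp) hx), .root (.va (by simp) hx),
    ?_⟩
  rcases y with v | ⟨_ | _ | _ | i | _ | _⟩ | _ | _ <;> simp only [Mid, not_true] at hy
  · exact v.elim
  · exact Or.inl ⟨.root (.xa _ _ (by simp)), .root (.xa _ _ (by simp))⟩
  · exact Or.inl ⟨.root (.ya _ _ (by simp)), .root (.ya _ _ (by simp))⟩
  · fin_cases i <;> simp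

theorem hd_ne {x y : G Q} (hx : Val M x) (h : rt x ≠ rt y) : hd x ≠ hd y := by
  rcases hx.pr with rfl | ⟨_, rfl⟩ | ⟨_, _, _, rfl⟩ <;>
    rcases y with v | ⟨_ | _ | _ | _ | _ | _⟩ | ⟨_ | _ | _, _⟩ | _ <;>
    first | exact v.elim | simp_all [rt, hd]

theorem c_root {x y : G Q} (hx : Val M x) (h : rt x ≠ rt y) : C M x y := by
  by_cases h1 : Mid y
  · by_cases h2 : hd y = .ell
    · obtain ⟨k, m, rfl⟩ : ∃ k m, y = .c1 (.L k) m := by
        rcases y with v | ⟨_ | _ | _ | _ | _ | _⟩ | ⟨_ | _ | _, _⟩ | _ <;> simp_all [hd]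
      exact Or.inr (Or.inl ⟨.c0 (.p 0), .c0 (.p 1), .c0 (.p 2), .c0 (.p 3), .c0 (.p 4),
        .root (.cyc (.p 0)), .root (.cyc (.p 1)), .root (.cyc (.p 2)), .root (.cyc (.p 3)),
        .root (.cyc (.p 4)), .root (.vp (by simp) hx), .root (.vp (by simp) hx),
        .root (.lp _ _ (by simp) (by simp)), .root (.lp _ _ (by simp) (by simp))⟩)
    · exact Or.inl (c4_e hx h1 ⟨hd_ne hx h, fun e => absurd e h2⟩)
  · exact Or.inl (c4_a hx h1)

theorem c4_num (k : ℕ) {y : G Q} (h : y ≠ sn k (.c0 .z)) : C4 M (sn k (.c0 .z)) y := by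
  have key : ∀ x y : G Q, Val M x → (hd x = .z ∨ hd x = .s) → rt x ≠ rt y → C4 M x y := by
    intro x y h1 h2 h3
    by_cases h4 : Mid y
    · exact c4_e h1 h4 ⟨hd_ne h1 h3, fun _ => h2⟩
    · exact c4_a h1 h4
  induction k generalizing y with
  | zero =>
    refine key _ _ .z (Or.inl rfl) fun e => h ?_
    rcases y with v | _ | _ | _ <;> first | exact v.elim | simp_all [rt, sn]
  | succ k ih =>
    by_cases e : rt (sn (k + 1) (.c0 .z) : G Q) = rt y
    · obtain ⟨t, rfl⟩ : ∃ t, y = .c1 .s t := by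
        rcases y with v | _ | _ | _ <;> first | exact v.elim | simp_all [rt, sn]
      exact (ih (y := t) fun e => h (by rw [e]; rfl)).fill [.u .s]
    · exact key _ _ (.s _) (Or.inr rfl) e

inductive Comb (M : Mc Q) : G Q → Prop
  | z : Comb M (.c0 .z)
  | c {a : K2 Q} {k : ℕ} {r : G Q} : Val M (.c2 a (sn k (.c0 .z)) r) → Comb M r →
      Comb M (.c2 a (sn k (.c0 .z)) r)

theorem ls_root (a : K2 Q) (m n : G Q) : LS M (.c2 a m n) (.c1 (.L 0) m) :=
  ⟨.c1 (.L 1) m, .c1 (.L 2) m, .root (.bl _ _ _ (by simp)), .root (.bl _ _ _ (by simp)),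
    .root (.cyc (.L 0 m)), .root (.cyc (.L 1 m)), .root (.cyc (.L 2 m))⟩

theorem Comb.cc {x : G Q} (h : Comb M x) (y : G Q) : y = x ∨ C M x y := by
  induction h generalizing y with
  | z => exact (eq_or_ne _ _).imp_right fun e => Or.inl (c4_num 0 e)
  | @c a k r h _ ih =>
    by_cases e : rt (.c2 a (sn k (.c0 .z)) r : G Q) = rt y
    · obtain ⟨m, r', rfl⟩ : ∃ m r', y = .c2 a m r' := by
        rcases y with v | _ | _ | _ <;> first | exact v.elim | simp_all [rt]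
      by_cases e' : m = sn k (.c0 .z)
      · subst e'
        exact (ih r').imp (fun e => by rw [e]) fun h => h.fill [.r a _]
      · exact Or.inr (Or.inr (Or.inr ⟨_, _, ls_root _ _ _, ls_root _ _ _,
          (c4_num k e').fill [.u (.L 0)]⟩))
    · exact Or.inr (c_root h e)

end Pool.Agent.H63.RW
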