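import Pool.Agent.H63.RW4
import Pool.Agent.H30.MulM

/-! The input gadget and the simulation of the machine. -/

set_option autoImplicit false

namespace Pool.Agent.H63.RW

variable {Q : Type} {M : Mc Q}

def Pu : G Q → Prop
  | .var _ => False
  | .c0 a => a = .z
  | .c1 a t => a = .s ∧ Pu t
  | .c2 _ t u => Pu t ∧ Pu u

theorem AV.pu {x : G Q} (h : AV M x) : Pu x := by
  induction x with
  | var v => exact h
  | c0 a => exact Val.not0 h
  | c1 a t ih => exact ⟨by have := h.1.pr; simp at this; exact this, ih h.2⟩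
  | c2 a t u ih ih' => exact ⟨ih h.2.1, ih' h.2.2⟩

theorem Pu.sub {K : List (Fr Q)} {t : G Q} (h : Pu (fill K t)) : Pu t := by
  induction K with
  | nil => exact h
  | cons f K ih => cases f <;> first | exact ih h.2 | exact ih h.1

theorem AV.sub {K : List (Fr Q)} {t : G Q} (h : AV M (fill K t)) : AV M t := by
  induction K with
  | nil => exact h
  | cons f K ih => cases f <;> first | exact ih h.2 | exact ih h.2.1 | exact ih h.2.2

theorem pu_sn (k : ℕ) : Pu (sn k (.c0 .z) : G Q) := by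
  induction k with
  | zero => rfl
  | succ k ih => exact ⟨rfl, ih⟩

theorem St.imp {u w : G Q} (h : St M u w) : ¬ Pu w := by
  induction h with
  | root h =>
    cases h with
    | cyc h => cases h <;> simp [Pu]
    | _ => simp [Pu]
  | c1 a _ ih => exact fun h => ih h.2
  | left a u _ ih => exact fun h => ih h.1
  | right a u _ ih => exact fun h => ih h.2

theorem puA {K : List (Fr Q)} {x : G Q} {k : K0 Q} (hk : k ≠ .z) (hx : Pu x)
    (h : St M x (fill K (.c0 k))) : Pu (fill K (.c0 .z)) := by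
  induction K generalizing x with
  | nil => rfl
  | cons f K ih =>
    cases f <;> simp only [fill] at h ⊢ <;> generalize e : fill K (.c0 k) = c at h
    · cases h with
      | root h =>
        have : Pu c := by
          rcases h.c1 with ⟨_, _, _, rfl, -⟩ | ⟨_, rfl, -⟩ | ⟨_, rfl, -⟩ | ⟨_, rfl, -⟩ <;>
            simp_all [Pu]
        exact (hk (Pu.sub (K := K) (t := .c0 k) (e ▸ this))).elim
      | c1 _ h => exact ⟨hx.1, ih hx.2 (e ▸ h)⟩
    · cases h with
      | root h => exact h.c2.elim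
      | left _ _ h => exact ⟨ih hx.1 (e ▸ h), hx.2⟩
      | right _ _ h => exact (hk (Pu.sub (K := K) (t := .c0 k) (e ▸ hx.1))).elim
    · cases h with
      | root h => exact h.c2.elim
      | right _ _ h => exact ⟨hx.1, ih hx.2 (e ▸ h)⟩
      | left _ _ h => exact (hk (Pu.sub (K := K) (t := .c0 k) (e ▸ hx.2))).elim

theorem puB {K : List (Fr Q)} {u t : G Q} (hK : Pu (fill K (.c0 .z)))
    (ht : (∃ k, t = .c0 k) ∨ ∃ a m, t = .c1 a m ∧ Pu m) (h : St M u (fill K t)) :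
    ∃ u0, u = fill K u0 ∧ Root M u0 t := by
  induction K generalizing u with
  | nil =>
    refine ⟨u, rfl, ?_⟩
    rcases ht with ⟨k, rfl⟩ | ⟨a, m, rfl, hm⟩ <;> cases h
    · assumption
    · assumption
    · exact absurd hm (St.imp ‹_›)
  | cons f K ih =>
    cases f <;> simp only [fill] at h hK
    · cases h with
      | root h => have := h.c1; have := hK.1; simp_all
      | c1 _ h => obtain ⟨u0, rfl, g⟩ := ih hK.2 h; exact ⟨u0, rfl, g⟩
    · cases h with
      | root h => exact h.c2.elim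
      | left _ _ h => obtain ⟨u0, rfl, g⟩ := ih hK.1 h; exact ⟨u0, rfl, g⟩
      | right _ _ h => exact absurd hK.2 h.imp
    · cases h with
      | root h => exact h.c2.elim
      | right _ _ h => obtain ⟨u0, rfl, g⟩ := ih hK.2 h; exact ⟨u0, rfl, g⟩
      | left _ _ h => exact absurd hK.1 h.imp

def Init (M : Mc Q) (N : ℕ) (x : G Q) : Prop := ∃ (c0 c1 c2 c3 : G Q) (u : ℕ → G Q),
  St M x c0 ∧ St M c0 c1 ∧ St M c1 c2 ∧ St M c2 c3 ∧ St M c3 c0 ∧ St M x (u 0) ∧
    St M (u N) c3 ∧ St M (u N) c1 ∧ ∀ i < N, St M (u i) c1 ∧ St M (u i) (u (i + 1))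

theorem nex {v : G Q} {f g : Ix Q} {b : Bool} (h1 : Root M v (.c0 (.ex f b)))
    (h2 : Root M v (.c0 (.ey g b))) (h : ok f g) : False := by
  rcases h1.ex with ⟨a, rfl⟩ | ⟨rfl, rfl⟩ | ⟨rfl, _, rfl⟩
  · rcases h2.ey with ⟨-, b⟩ | ⟨-, rfl⟩ | ⟨-, g, rfl⟩
    · exact h.1 b
    · cases a.not0
    · cases a.not0
  · simpa [Mid] using h2.ey
  · simpa [Mid] using h2.ey

theorem Init.sound {N : ℕ} {x : G Q} (hx : Pu x) (h : Init M N x) :
    ∃ K r, x = fill K (.c2 .ic (sn N (.c0 .z)) r) := by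
  obtain ⟨c0, c1, c2, c3, u, h0, h1, h2, h3, h4, h5, h6, h7, h8⟩ := h
  obtain ⟨K, k0, k1, k2, k3, rfl, rfl, rfl, rfl, g1, g2, g3, g4⟩ := cyc4 h1 h2 h3 h4
  have hK := puA (by rintro rfl; cases g1) hx h0
  obtain ⟨x0, rfl, a0⟩ := puB hK (Or.inl ⟨_, rfl⟩) h0
  obtain ⟨v, e1, a1⟩ := puB hK (Or.inl ⟨_, rfl⟩) h7
  obtain ⟨v', e3, a3⟩ := puB hK (Or.inl ⟨_, rfl⟩) h6
  obtain rfl := fill_inj.1 (e1.symm.trans e3)
  have p0 := hx.sub
  obtain ⟨rfl, b, rfl⟩ : k1 = .j 1 ∧ ∃ b, v = .c1 (.I b) (.c0 .z) := by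
    cases g1 with
    | xx f => cases g2; cases g3; exact (nex a1 a3 ‹_›).elim
    | xy h => cases g2; cases g4; exact (nex a3 a1 h).elim
    | yy f => cases g2; cases g3; exact (nex a3 a1 ‹_›).elim
    | yx h => cases g2; cases g4; exact (nex a1 a3 h).elim
    | a i =>
      cases g2; cases g3
      exfalso
      rcases a1.a with ⟨a, b⟩ | ⟨a, f, _, rfl | rfl⟩ | ⟨_, rfl, a⟩ <;>
        rcases a3.a with ⟨c, d⟩ | ⟨c, _, _, d | d⟩ | ⟨_, d, c⟩ <;>
        first | omega | (cases d.not0; done) | (cases d; done) | (subst d; cases b.not0; done) | (cases d; omega)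
    | j i =>
      cases g2; cases g3
      obtain rfl : i = 0 := by
        rcases a0.j with ⟨a, -⟩ | ⟨-, _, _, rfl⟩ | ⟨-, _, rfl⟩ | ⟨_, rfl, -⟩
        · exact a
        all_goals simp [Pu] at p0
      refine ⟨rfl, ?_⟩
      rcases a3.j with ⟨a, -⟩ | ⟨a, -⟩ | ⟨-, a⟩ | ⟨_, rfl, a⟩
      · cases a
      · cases a
      · exact a
      · have := a1.j
        simp at this; omega
  have key : ∀ t ≤ N, ∃ b, u (N - t) = fill K (.c1 (.I b) (sn t (.c0 .z))) := by
    intro t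
    induction t with
    | zero => exact fun _ => ⟨b, e1⟩
    | succ t ih =>
      intro ht
      obtain ⟨b, hb⟩ := ih (by omega)
      obtain ⟨c1, c2⟩ := h8 (N - (t + 1)) (by omega)
      rw [show N - (t + 1) + 1 = N - t by omega, hb] at c2
      obtain ⟨w, e, d1⟩ := puB hK (Or.inr ⟨_, _, rfl, pu_sn t⟩) c2
      obtain ⟨w', e', d2⟩ := puB hK (Or.inl ⟨_, rfl⟩) c1
      obtain rfl := fill_inj.1 (e.symm.trans e')
      rcases d1.c1 with ⟨_, _, _, -, d, -⟩ | ⟨_, rfl, -⟩ | ⟨_, rfl, -⟩ | ⟨_, -, d⟩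
      · cases d
      · simpa using d2.j
      · exact ⟨_, e⟩
      · cases d
  obtain ⟨b, hb⟩ := key N le_rfl
  rw [Nat.sub_self] at hb
  obtain ⟨w, e, d⟩ := puB hK (Or.inr ⟨_, _, rfl, pu_sn N⟩) (hb ▸ h5)
  obtain rfl := fill_inj.1 e
  rcases d.c1 with ⟨_, _, _, -, d, -⟩ | ⟨_, rfl, -⟩ | ⟨_, rfl, -⟩ | ⟨_, -, d⟩
  · cases d
  · exact ⟨K, _, rfl⟩
  · simp [Pu] at p0
  · cases d

theorem init_ic (N : ℕ) (r : G Q) : Init M N (.c2 .ic (sn N (.c0 .z)) r) := by
  refine ⟨.c0 (.j 0), .c0 (.j 1), .c0 (.j 2), .c0 (.j 3),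
    fun i => .c1 (.I (decide (i % 2 = 1))) (sn (N - i) (.c0 .z)), .root (.ij _ _),
    .root (.cyc (.j 0)), .root (.cyc (.j 1)), .root (.cyc (.j 2)), .root (.cyc (.j 3)),
    .root (.iI _ _), by simpa [sn] using .root (.Iz _), .root (.Ij _ _),
    fun i hi => ⟨.root (.Ij _ _), ?_⟩⟩
  have : decide ((i + 1) % 2 = 1) = !decide (i % 2 = 1) := by
    rcases Nat.mod_two_eq_zero_or_one i with h | h <;> simp [h, Nat.add_mod]
  simp only [this]
  rw [show N - i = N - (i + 1) + 1 by omega]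
  exact .root (.II _ _)

theorem sn_sn (a b : ℕ) (x : G Q) : sn a (sn b x) = sn (a + b) x := by
  induction a with
  | zero => simp [sn]
  | succ a ih => rw [Nat.succ_add, sn, sn, ih]

theorem sn_eq {a m : ℕ} {x : G Q} (h : sn m (.c0 .z) = sn a x) :
    ∃ k, m = a + k ∧ x = sn k (.c0 .z) := by
  induction a generalizing m with
  | zero => exact ⟨m, by simp, h.symm⟩
  | succ a ih =>
    rcases m with _ | m
    · cases h
    · obtain ⟨k, rfl, e⟩ := ih (Tm.c1.inj h).2
      exact ⟨k, by omega, e⟩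

open Pool.Agent.H30.MulM (Halt)

variable (ins : Q → Bool → Option Q × ℕ × ℕ) (q0 : Q) (m : ℕ) (hm : ∀ s b, (ins s b).2.2 < m)

def mc : Mc Q where
  A q := if (ins q.1 q.2).2.1 = 0 then 1 else (ins q.1 q.2).2.2 + 1
  B q := if (ins q.1 q.2).2.1 = 1 then 1 else (ins q.1 q.2).2.2 + 1
  J q j := if (ins q.1 q.2).2.1 ≤ 1 then j = 0 else 0 < j ∧ j ≤ (ins q.1 q.2).2.2
  nx q := (ins q.1 q.2).1
  q0 := q0
  m := m
  hA q := by have := hm q.1 q.2; split_ifs <;> omega
  hB q := by have := hm q.1 q.2; split_ifs <;> omega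
  hJ q j h := by have := hm q.1 q.2; split_ifs at h <;> omega

theorem ok_iff (q : Q × Bool) (N N' : ℕ) :
    H30.MulM.ok (ins q.1 q.2).2.1 ((ins q.1 q.2).2.2 + 1) N N' ↔
    ∃ t j, (mc ins q0 m hm).J q j ∧ N = (mc ins q0 m hm).A q * t + j ∧
      N' = (mc ins q0 m hm).B q * t + j := by
  simp only [mc, H30.MulM.ok]
  generalize (ins q.1 q.2).2.1 = k
  generalize (ins q.1 q.2).2.2 = p
  rcases k with _ | _ | k
  · simp
  · simp
  · simp only [Nat.reduceEqDiff, if_false, Nat.add_one_ne_zero, show ¬ k + 1 + 1 ≤ 1 by omega]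
    constructor
    · rintro ⟨rfl, h⟩
      have := Nat.mod_lt N' (show 0 < p + 1 by omega)
      exact ⟨N' / (p + 1), N' % (p + 1), ⟨Nat.pos_of_ne_zero fun e => h (Nat.dvd_of_mod_eq_zero e),
        by omega⟩, (Nat.div_add_mod _ _).symm, (Nat.div_add_mod _ _).symm⟩
    · rintro ⟨t, j, h, rfl, rfl⟩
      refine ⟨rfl, fun e => ?_⟩
      have := Nat.le_of_dvd h.1 ((Nat.dvd_add_right (Dvd.intro _ rfl)).1 e)
      omega

def Hq : Option (Q × Bool) → ℕ → ℕ → Prop
  | none, _, _ => True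
  | some q, a, b => ∃ t j, (mc ins q0 m hm).J q j ∧ a = (mc ins q0 m hm).A q * t + j ∧
      Halt ins (ins q.1 q.2).1 ((mc ins q0 m hm).B q * t + j + b)

theorem Hq_halt {o : Option Q} {b : Bool} {N : ℕ} (h : Hq ins q0 m hm (lift o b) N 0) :
    Halt ins o N := by
  rcases o with _ | s
  · exact .stop N
  · obtain ⟨t, j, h1, h2, h3⟩ := h
    exact .step b ((ok_iff ins q0 m hm (s, b) _ _).2 ⟨t, j, h1, h2, rfl⟩) h3

theorem run_sound (n : ℕ) : ∀ q a b (r : G Q), wt r < n →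
    AV (mc ins q0 m hm) (cf q (sn a (.c0 .z)) (sn b (.c0 .z)) r) → Hq ins q0 m hm q a b := by
  induction n with
  | zero => omega
  | succ n ih =>
    intro q a b r hr h
    have h1 := h.1
    have h2 := h.2.2.2.2
    generalize e : cf q (sn a (.c0 .z)) (sn b (.c0 .z)) r = w at h1
    change Val _ (cf q _ _ r) at h1
    rw [e] at h1
    cases h1 <;> simp only [cf, Tm.c2.injEq, K2.c.injEq, reduceCtorEq, false_and, true_and] at e
    · rw [e.1]; trivial
    · obtain ⟨rfl, e1, rfl, rfl⟩ := e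
      obtain ⟨k, rfl, rfl⟩ := sn_eq e1
      rw [sn_sn] at h2
      obtain ⟨t, j, c1, rfl, c3⟩ := ih _ _ _ _ (by simp only [wt] at hr; omega) h2
      exact ⟨t + 1, j, c1, by ring, by convert c3 using 1; ring⟩
    · obtain ⟨rfl, e1, rfl, rfl⟩ := e
      obtain ⟨k, rfl, e2⟩ := sn_eq e1
      obtain rfl : k = 0 := by
        rcases k with _ | k
        · rfl
        · cases e2
      rw [sn_sn] at h2
      have := Hq_halt ins q0 m hm (ih _ _ 0 _ (by simp only [wt] at hr; omega) h2)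
      exact ⟨0, _, ‹_›, by simp, by rw [mul_zero, zero_add]; exact this⟩

theorem run_complete {o : Option Q} {N : ℕ} (h : Halt ins o N) :
    ∃ b r, Comb (mc ins q0 m hm) (cf (lift o b) (sn N (.c0 .z)) (.c0 .z) r) := by
  induction h with
  | stop N => exact ⟨true, .c0 .z, .c (.halt _ _) (.c (k := 0) (.aux _ _) .z)⟩
  | @step s N N' b h1 _ ih =>
    obtain ⟨t, j, c1, rfl, rfl⟩ := (ok_iff ins q0 m hm (s, b) _ _).1 h1
    obtain ⟨b', r, ih⟩ := ih
    have : ∀ t n, Comb (mc ins q0 m hm) (cf (lift (ins s b).1 b')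
        (sn ((mc ins q0 m hm).B (s, b) * t + j + n) (.c0 .z)) (.c0 .z) r) →
        ∃ r, Comb (mc ins q0 m hm) (cf (some (s, b))
          (sn ((mc ins q0 m hm).A (s, b) * t + j) (.c0 .z)) (sn n (.c0 .z)) r) := by
      intro t
      induction t with
      | zero =>
        intro n h
        simp only [mul_zero, zero_add] at h ⊢
        rw [← sn_sn] at h
        exact ⟨_, .c (.exit (s, b) j b' _ r c1) (.c (.aux _ _) h)⟩
      | succ t ih =>
        intro n h
        obtain ⟨r, h⟩ := ih ((mc ins q0 m hm).B (s, b) + n) (by convert h using 3; ring)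
        have v := Val.loop (M := mc ins q0 m hm) (s, b)
          (sn ((mc ins q0 m hm).A (s, b) * t + j) (.c0 .z)) (sn n (.c0 .z)) r
        rw [sn_sn, sn_sn, ← add_assoc, add_comm (Mc.A _ _), ← Nat.mul_succ] at v
        exact ⟨_, .c v (.c (.aux _ _) h)⟩
    exact ⟨b, this t 0 ih⟩

theorem halt_iff (N : ℕ) : (∃ x, Init (mc ins q0 m hm) N x ∧ ∀ y, y = x ∨ C (mc ins q0 m hm) x y) ↔
    Halt ins (some q0) N := by
  constructor
  · rintro ⟨x, h1, h2⟩
    have h3 := av_of h2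
    obtain ⟨K, r, rfl⟩ := h1.sound h3.pu
    have h4 := h3.sub
    have h5 := h4.1
    generalize e : Tm.c2 K2.ic (sn N (.c0 .z)) r = w at h5
    cases h5 <;> simp only [cf, Tm.c2.injEq, reduceCtorEq, false_and, true_and] at e
    obtain ⟨rfl, rfl⟩ := e
    exact Hq_halt ins q0 m hm (o := some q0) (run_sound ins q0 m hm _ _ _ 0 _ (Nat.lt_succ_self _) h4.2.2)
  · intro h
    obtain ⟨b, r, h⟩ := run_complete ins q0 m hm h
    exact ⟨_, init_ic N _, (Comb.c (.ic b _ r) h).cc⟩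

end Pool.Agent.H63.RW
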