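import Pool.Agent.H63.RW5

/-! The sentences. -/

set_option autoImplicit false

namespace Pool.Agent.H63.RW

variable {Q : Type} {M : Mc Q}

theorem sat_ex {T : Type} (r : T → T → Prop) (X : List (List (Bool × ℕ × ℕ))) (vs : List ℕ)
    (q : List (Bool × ℕ)) (ρ : ℕ → T) : Sat r X (vs.map (fun v => (false, v)) ++ q) ρ ↔
      ∃ ρ' : ℕ → T, (∀ v ∉ vs, ρ' v = ρ v) ∧ Sat r X q ρ' := by
  induction vs generalizing ρ with
  | nil => exact ⟨fun h => ⟨ρ, fun _ _ => rfl, h⟩, fun ⟨ρ', h1, h2⟩ => by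
      rwa [show ρ = ρ' from funext fun v => (h1 v (by simp)).symm]⟩
  | cons v vs ih =>
    simp only [List.map_cons, List.cons_append, Sat, ih, List.mem_cons, not_or]
    constructor
    · rintro ⟨t, ρ', h1, h2⟩
      exact ⟨ρ', fun w hw => by rw [h1 w hw.2, Function.update_of_ne hw.1], h2⟩
    · rintro ⟨ρ', h1, h2⟩
      refine ⟨ρ' v, ρ', fun w hw => ?_, h2⟩
      by_cases e : w = v
      · simp [e]
      · rw [Function.update_of_ne e, h1 w ⟨e, hw⟩]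

def pre (N : ℕ) : List (Bool × ℕ) :=
  (0 :: (List.range (N + 5)).map (· + 13)).map (fun v => (false, v)) ++
    (true, 1) :: ([2, 3, 4, 5, 6, 7, 8, 9, 10, 11, 12].map (fun v => (false, v)) ++ [])

def ini (N : ℕ) : List (Bool × ℕ × ℕ) :=
  [(true, 0, 13), (true, 13, 14), (true, 14, 15), (true, 15, 16), (true, 16, 13), (true, 0, 17),
    (true, N + 17, 16), (true, N + 17, 14)] ++ ((List.range N).map (fun i => (true, i + 17, 14)) ++
      (List.range N).map fun i => (true, i + 17, i + 18))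

def c4 (u v : ℕ) : List (List (Bool × ℕ × ℕ)) :=
  [[(true, v, 10), (true, v, 11)], [(false, v, 8)], [(false, v, 9)], [(false, v, 10)],
    [(false, v, 11)]].map ([(true, 8, 9), (true, 9, 10), (true, 10, 11), (true, 11, 8),
      (true, u, 8), (true, u, 9)] ++ ·)

def disj : List (List (Bool × ℕ × ℕ)) :=
  [(false, 1, 0)] :: [(true, 8, 9), (true, 9, 10), (true, 10, 11), (true, 11, 12), (true, 12, 8),
    (true, 0, 8), (true, 0, 9), (true, 1, 10), (true, 1, 11)] :: (c4 0 1 ++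
    (c4 2 3).map ([(true, 0, 2), (true, 0, 4), (true, 2, 4), (true, 4, 5), (true, 5, 2),
      (true, 1, 3), (true, 1, 6), (true, 3, 6), (true, 6, 7), (true, 7, 3)] ++ ·))

def form (N : ℕ) : Form := (pre N, disj.map (ini N ++ ·))

theorem form_closed (N : ℕ) : Closed (form N) := by
  have h : ∀ v, v < N + 18 → v ∈ (pre N).map Prod.snd := by
    intro v hv
    by_cases e : 13 ≤ v
    · simp only [pre, List.map_append, List.mem_append, List.map_map, List.map_cons, List.mem_cons,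
        List.mem_map, List.mem_range]
      exact Or.inl (Or.inr ⟨v - 13, by omega, by simp; omega⟩)
    · simp [pre]; omega
  intro c hc a ha
  obtain ⟨d, hd, rfl⟩ := List.mem_map.1 hc
  suffices a.2.1 < N + 18 ∧ a.2.2 < N + 18 from ⟨h _ this.1, h _ this.2⟩
  rcases List.mem_append.1 ha with ha | ha
  · simp only [ini, List.mem_append, List.mem_cons, List.mem_map, List.mem_range,
      List.not_mem_nil, or_false] at ha
    rcases ha with (h | h | h | h | h | h | h | h) | ⟨i, _, h⟩ | ⟨i, _, h⟩ <;> subst h <;>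
      simp <;> omega
  · have : ∀ d ∈ disj, ∀ a ∈ d, a.2.1 < 18 ∧ a.2.2 < 18 := by decide
    have := this d hd a ha
    omega

def IniAt (M : Mc Q) (N : ℕ) (ρ : ℕ → G Q) : Prop :=
  St M (ρ 0) (ρ 13) ∧ St M (ρ 13) (ρ 14) ∧ St M (ρ 14) (ρ 15) ∧ St M (ρ 15) (ρ 16) ∧
    St M (ρ 16) (ρ 13) ∧ St M (ρ 0) (ρ 17) ∧ St M (ρ (N + 17)) (ρ 16) ∧ St M (ρ (N + 17)) (ρ 14) ∧
    ∀ i < N, St M (ρ (i + 17)) (ρ 14) ∧ St M (ρ (i + 17)) (ρ (i + 18))

def DAt (M : Mc Q) (ρ : ℕ → G Q) : Prop :=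
  ∃ c ∈ disj, ∀ a ∈ c, if a.1 then St M (ρ a.2.1) (ρ a.2.2) else ρ a.2.1 = ρ a.2.2

theorem sat_mat (N : ℕ) (ρ : ℕ → G Q) :
    Sat (St M) (form N).2 [] ρ ↔ IniAt M N ρ ∧ DAt M ρ := by
  simp only [Sat, form, List.mem_map, exists_exists_and_eq_and, List.forall_mem_append, DAt,
    exists_and_left, and_left_comm (a := _ ∈ disj)]
  refine and_congr_left fun _ => ?_
  simp [ini, IniAt, forall_and, or_imp, and_assoc]

def D4 (M : Mc Q) (ρ : ℕ → G Q) (u v : ℕ) : Prop :=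
  St M (ρ 8) (ρ 9) ∧ St M (ρ 9) (ρ 10) ∧ St M (ρ 10) (ρ 11) ∧ St M (ρ 11) (ρ 8) ∧
    St M (ρ u) (ρ 8) ∧ St M (ρ u) (ρ 9) ∧ ((St M (ρ v) (ρ 10) ∧ St M (ρ v) (ρ 11)) ∨ ρ v = ρ 8 ∨
      ρ v = ρ 9 ∨ ρ v = ρ 10 ∨ ρ v = ρ 11)

theorem dat_iff {ρ : ℕ → G Q} : DAt M ρ ↔ ρ 1 = ρ 0 ∨ (St M (ρ 8) (ρ 9) ∧ St M (ρ 9) (ρ 10) ∧
    St M (ρ 10) (ρ 11) ∧ St M (ρ 11) (ρ 12) ∧ St M (ρ 12) (ρ 8) ∧ St M (ρ 0) (ρ 8) ∧
    St M (ρ 0) (ρ 9) ∧ St M (ρ 1) (ρ 10) ∧ St M (ρ 1) (ρ 11)) ∨ D4 M ρ 0 1 ∨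
    (St M (ρ 0) (ρ 2) ∧ St M (ρ 0) (ρ 4) ∧ St M (ρ 2) (ρ 4) ∧ St M (ρ 4) (ρ 5) ∧
      St M (ρ 5) (ρ 2)) ∧ (St M (ρ 1) (ρ 3) ∧ St M (ρ 1) (ρ 6) ∧ St M (ρ 3) (ρ 6) ∧
        St M (ρ 6) (ρ 7) ∧ St M (ρ 7) (ρ 3)) ∧ D4 M ρ 2 3 := by
  simp only [DAt, disj, c4, D4, List.map_cons, List.map_nil, List.cons_append, List.nil_append,
    List.exists_mem_cons_iff, List.forall_mem_cons, List.not_mem_nil, false_and, exists_false,
    or_false, false_imp_iff, implies_true, and_true, if_true, Bool.false_eq_true, if_false,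
    and_or_left, and_assoc, or_assoc]

theorem DAt.out {ρ : ℕ → G Q} (h : DAt M ρ) : ρ 1 = ρ 0 ∨ C M (ρ 0) (ρ 1) := by
  rcases dat_iff.1 h with h | h | h | h
  · exact Or.inl h
  · exact Or.inr (Or.inr (Or.inl ⟨_, _, _, _, _, h⟩))
  · exact Or.inr (Or.inl ⟨_, _, _, _, h⟩)
  · exact Or.inr (Or.inr (Or.inr ⟨_, _, ⟨_, _, h.1⟩, ⟨_, _, h.2.1⟩, _, _, _, _, h.2.2⟩))

theorem DAt.of {ρ : ℕ → G Q} (h : ρ 1 = ρ 0 ∨ C M (ρ 0) (ρ 1)) :
    ∃ ρ' : ℕ → G Q, (∀ v ∉ [2, 3, 4, 5, 6, 7, 8, 9, 10, 11, 12], ρ' v = ρ v) ∧ DAt M ρ' := by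
  have key : ∀ a2 a3 a4 a5 a6 a7 a8 a9 a10 a11 a12 : G Q, ∃ ρ' : ℕ → G Q,
      (∀ v ∉ [2, 3, 4, 5, 6, 7, 8, 9, 10, 11, 12], ρ' v = ρ v) ∧ ρ' 0 = ρ 0 ∧ ρ' 1 = ρ 1 ∧
      ρ' 2 = a2 ∧ ρ' 3 = a3 ∧ ρ' 4 = a4 ∧ ρ' 5 = a5 ∧ ρ' 6 = a6 ∧ ρ' 7 = a7 ∧ ρ' 8 = a8 ∧
      ρ' 9 = a9 ∧ ρ' 10 = a10 ∧ ρ' 11 = a11 ∧ ρ' 12 = a12 := by
    intro a2 a3 a4 a5 a6 a7 a8 a9 a10 a11 a12
    refine ⟨fun v => if 2 ≤ v ∧ v ≤ 12 then [a2, a3, a4, a5, a6, a7, a8, a9, a10, a11, a12].getD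
      (v - 2) a2 else ρ v, fun v hv => if_neg ?_, by simp⟩
    simp at hv; omega
  rcases h with h | ⟨a, b, c, d, h⟩ | ⟨a, b, c, d, e, h⟩ |
    ⟨x, y, ⟨x1, x2, h1⟩, ⟨y1, y2, h2⟩, a, b, c, d, h⟩
  · exact ⟨ρ, fun _ _ => rfl, dat_iff.2 (Or.inl h)⟩
  · obtain ⟨ρ', h0, h1⟩ := key a a a a a a a b c d a
    exact ⟨ρ', h0, dat_iff.2 (Or.inr (Or.inr (Or.inl (by simpa only [D4, h1] using h))))⟩
  · obtain ⟨ρ', h0, h1⟩ := key a a a a a a a b c d e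
    exact ⟨ρ', h0, dat_iff.2 (Or.inr (Or.inl (by simpa only [h1] using h)))⟩
  · obtain ⟨ρ', h0, h3⟩ := key x y x1 x2 y1 y2 a b c d a
    exact ⟨ρ', h0, dat_iff.2 (Or.inr (Or.inr (Or.inr (by
      simpa only [D4, h3] using ⟨h1, h2, h⟩))))⟩

theorem holds_iff (N : ℕ) :
    Holds (rules M) (form N) ↔ ∃ x, Init M N x ∧ ∀ y, y = x ∨ C M x y := by
  have tr : ∀ ρ ρ' : ℕ → G Q, ∀ y, (∀ v ∉ [2, 3, 4, 5, 6, 7, 8, 9, 10, 11, 12],
      ρ' v = Function.update ρ 1 y v) → ρ' 0 = ρ 0 ∧ ρ' 1 = y ∧ (IniAt M N ρ' ↔ IniAt M N ρ) := by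
    intro ρ ρ' y h
    have h0 : ρ' 0 = ρ 0 := by simpa using h 0
    have h1 : ∀ v, 13 ≤ v → ρ' v = ρ v := fun v hv => by
      rw [h v (by simp; omega), Function.update_of_ne (by omega)]
    refine ⟨h0, by simpa using h 1, ?_⟩
    simp (disch := omega) only [IniAt, h0, h1]
  have e : ∀ ρ : ℕ → G Q, Sat (St M) (form N).2 (form N).1 ρ ↔ ∃ ρ' : ℕ → G Q,
      (∀ v ∉ 0 :: (List.range (N + 5)).map (· + 13), ρ' v = ρ v) ∧ IniAt M N ρ' ∧
        ∀ y, y = ρ' 0 ∨ C M (ρ' 0) y := by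
    intro ρ
    rw [show (form N).1 = pre N from rfl, pre, sat_ex]
    simp only [Sat.eq_2, sat_ex, sat_mat]
    refine exists_congr fun ρ' => and_congr_right fun _ => ⟨fun h => ⟨?_, fun y => ?_⟩, ?_⟩
    · obtain ⟨ρ2, h1, h2, -⟩ := h (.c0 .z)
      exact (tr _ _ _ h1).2.2.1 h2
    · obtain ⟨ρ2, h1, -, h2⟩ := h y
      obtain ⟨a, b, -⟩ := tr _ _ _ h1
      exact a ▸ b ▸ h2.out
    · rintro ⟨h1, h2⟩ y
      obtain ⟨ρ2, h3, h4⟩ := DAt.of (M := M) (ρ := Function.update ρ' 1 y) (by simpa using h2 y)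
      exact ⟨ρ2, h3, (tr _ _ _ h3).2.2.2 h1, h4⟩
  simp only [Holds, step_eq, e, form_closed, true_and]
  constructor
  · intro h
    obtain ⟨ρ, -, h1, h2⟩ := h fun _ => .c0 .z
    exact ⟨ρ 0, ⟨_, _, _, _, fun i => ρ (i + 17), h1⟩, h2⟩
  · rintro ⟨x, ⟨c0, c1, c2, c3, u, h1⟩, h2⟩ ρ
    refine ⟨fun v => if v = 0 then x else if v = 13 then c0 else if v = 14 then c1 else
      if v = 15 then c2 else if v = 16 then c3 else if 17 ≤ v ∧ v < N + 18 then u (v - 17) else ρ v,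
      fun v hv => ?_, ?_, h2⟩
    · have : v ≠ 0 ∧ ¬ (13 ≤ v ∧ v < N + 18) := by
        simp only [List.mem_cons, List.mem_map, List.mem_range, not_or, not_exists, not_and] at hv
        exact ⟨hv.1, fun h => hv.2 (v - 13) (by omega) (by omega)⟩
      simp (disch := omega) only [if_neg]
    · obtain ⟨a1, a2, a3, a4, a5, a6, a7, a8, a9⟩ := h1
      refine ⟨a1, a2, a3, a4, a5, by simpa using a6, by simpa using a7, by simpa using a8,
        fun i hi => ?_⟩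
      simp (disch := omega) only [if_neg, if_pos]
      exact a9 i hi

theorem form_prim : Primrec form := by
  have a : ∀ k, Primrec fun n : ℕ => n + k := fun k => Primrec.nat_add.comp .id (.const k)
  refine Primrec.pair (Primrec.list_append.comp (Primrec.list_map (Primrec.list_cons.comp (.const 0)
    (Primrec.list_map (Primrec.list_range.comp (a 5)) ((a 13).comp .snd).to₂))
    ((Primrec.const false).pair .snd).to₂) (.const _)) (Primrec.list_map (.const _)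
    (Primrec.list_append.comp (Primrec.comp ?_ .fst) .snd).to₂)
  refine Primrec.list_append.comp ?_ (Primrec.list_append.comp
    (Primrec.list_map Primrec.list_range
      ((Primrec.const true).pair (((a 17).comp .snd).pair (.const 14))).to₂)
    (Primrec.list_map Primrec.list_range
      ((Primrec.const true).pair (((a 17).comp .snd).pair ((a 18).comp .snd))).to₂))
  iterate 6 refine Primrec.list_cons.comp (.const _) ?_
  exact Primrec.list_cons.comp ((Primrec.const true).pair ((a 17).pair (.const 16)))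
    (Primrec.list_cons.comp ((Primrec.const true).pair ((a 17).pair (.const 14))) (.const _))

theorem main : ∃ (A0 A1 A2 : Type) (_ : Finite A0) (_ : Finite A1) (_ : Finite A2)
    (_ : Nonempty A0) (R : Set (Tm A0 A1 A2 ℕ × Tm A0 A1 A2 ℕ)), R.Finite ∧
    (∀ p ∈ R, (∀ v, p.1 ≠ .var v) ∧ ∀ v, p.2.Occ v → p.1.Occ v) ∧
    ¬ ComputablePred (Holds R) := by
  obtain ⟨Q, _, ins, q0, h⟩ := H30.MulM.exists_undec
  have := Fintype.ofFinite Q
  obtain ⟨m, hm⟩ := (Set.finite_range fun p : Q × Bool => (ins p.1 p.2).2.2).bddAbove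
  have hm' : ∀ s b, (ins s b).2.2 < m + 1 := fun s b => Nat.lt_succ_of_le (hm ⟨(s, b), rfl⟩)
  refine ⟨K0 Q, K1, K2 Q, inferInstance, inferInstance, inferInstance, ⟨.z⟩,
    rules (mc ins q0 _ hm'), rules_finite, fun p hp => rules_wf hp.1, fun ⟨d, hd⟩ => h ?_⟩
  have p2 : Primrec fun n : ℕ => 2 ^ n := (Primrec₂.unpaired'.1 Nat.Primrec.pow).comp (.const 2) .id
  have : ComputablePred fun n : ℕ => Holds (rules (mc ins q0 _ hm')) (form (2 ^ n)) :=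
    ⟨fun n => d _, hd.comp (form_prim.comp p2).to_comp⟩
  exact this.of_eq fun n => (holds_iff _).trans (halt_iff ins q0 _ hm' _)

end Pool.Agent.H63.RW
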