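import Mathlib

/-! One-step rewriting on ground terms and prenex positive sentences about it.
Signatures have constants `A0`, unary symbols `A1` and binary symbols `A2`. -/

set_option autoImplicit false

namespace Pool.Agent.H63.RW

/-- Terms with variables from `V`; ground terms are those with `V = Empty`. -/
inductive Tm (A0 A1 A2 V : Type) : Type
  | var (v : V) : Tm A0 A1 A2 V
  | c0 (a : A0) : Tm A0 A1 A2 V
  | c1 (a : A1) (t : Tm A0 A1 A2 V) : Tm A0 A1 A2 V
  | c2 (a : A2) (t u : Tm A0 A1 A2 V) : Tm A0 A1 A2 V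

variable {A0 A1 A2 V W : Type}

/-- Substitution. -/
def Tm.subst (σ : V → Tm A0 A1 A2 W) : Tm A0 A1 A2 V → Tm A0 A1 A2 W
  | .var v => σ v
  | .c0 a => .c0 a
  | .c1 a t => .c1 a (t.subst σ)
  | .c2 a t u => .c2 a (t.subst σ) (u.subst σ)

/-- The variable `v` occurs in the term. -/
def Tm.Occ (v : V) : Tm A0 A1 A2 V → Prop
  | .var w => v = w
  | .c0 _ => False
  | .c1 _ t => t.Occ v
  | .c2 _ t u => t.Occ v ∨ u.Occ v

/-- One-step rewriting of ground terms by the rules `R`. -/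
inductive Step (R : Set (Tm A0 A1 A2 ℕ × Tm A0 A1 A2 ℕ)) :
    Tm A0 A1 A2 Empty → Tm A0 A1 A2 Empty → Prop
  | root {l r : Tm A0 A1 A2 ℕ} (σ : ℕ → Tm A0 A1 A2 Empty) : (l, r) ∈ R →
      Step R (l.subst σ) (r.subst σ)
  | c1 (a : A1) {t t' : Tm A0 A1 A2 Empty} : Step R t t' → Step R (.c1 a t) (.c1 a t')
  | left (a : A2) {t t' : Tm A0 A1 A2 Empty} (u : Tm A0 A1 A2 Empty) : Step R t t' →
      Step R (.c2 a t u) (.c2 a t' u)
  | right (a : A2) (t : Tm A0 A1 A2 Empty) {u u' : Tm A0 A1 A2 Empty} : Step R u u' →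
      Step R (.c2 a t u) (.c2 a t u')

/-- A prenex positive formula: a quantifier prefix (`true` for all, `false` exists, with the
bound variable) and a disjunction of conjunctions of atoms; the atom `(true, i, j)` is
`x_i → x_j` and `(false, i, j)` is `x_i = x_j`. -/
abbrev Form : Type := List (Bool × ℕ) × List (List (Bool × ℕ × ℕ))

/-- Every variable of the matrix is bound by the prefix. -/
def Closed (φ : Form) : Prop :=
  ∀ c ∈ φ.2, ∀ a ∈ c, a.2.1 ∈ φ.1.map Prod.snd ∧ a.2.2 ∈ φ.1.map Prod.snd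

/-- Truth of a formula in a structure `(T, r)` under a valuation. -/
def Sat {T : Type} (r : T → T → Prop) (M : List (List (Bool × ℕ × ℕ))) :
    List (Bool × ℕ) → (ℕ → T) → Prop
  | [], ρ => ∃ c ∈ M, ∀ a ∈ c, if a.1 then r (ρ a.2.1) (ρ a.2.2) else ρ a.2.1 = ρ a.2.2
  | (true, v) :: q, ρ => ∀ t, Sat r M q (Function.update ρ v t)
  | (false, v) :: q, ρ => ∃ t, Sat r M q (Function.update ρ v t)

/-- The formula is a sentence true in the structure of ground terms with one-step rewriting. -/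
def Holds (R : Set (Tm A0 A1 A2 ℕ × Tm A0 A1 A2 ℕ)) (φ : Form) : Prop :=
  Closed φ ∧ ∀ ρ, Sat (Step R) φ.2 φ.1 ρ

end Pool.Agent.H63.RW
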