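import Mathlib

set_option autoImplicit false

open Polynomial

namespace Pool.Agent.H63.Robinson

theorem deriv_C (n : ℕ) : derivative (Chebyshev.C ℤ n) = (n : ℤ[X]) * Chebyshev.S ℤ (n - 1) := by
  induction n using Nat.twoStepInduction with
  | zero => simp
  | one => simp
  | more n ih1 ih2 =>
    have h1 := Chebyshev.C_add_two ℤ (n : ℤ)
    have h2 := Chebyshev.S_add_one ℤ (n : ℤ)
    have h3 := Chebyshev.S_eq_X_mul_S_add_C ℤ (n : ℤ)
    push_cast at ih2 ⊢
    rw [h1, derivative_sub, derivative_mul, derivative_X, ih1, ih2]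
    have e1 : (n : ℤ) + 1 - 1 = n := by ring
    have e2 : (n : ℤ) + 2 - 1 = n + 1 := by ring
    rw [e1, e2]
    linear_combination (-(n : ℤ[X])) * h2 - h3

theorem monic_C (n : ℕ) : IsMonicOfDegree (Chebyshev.C ℤ ((n + 1 : ℕ) : ℤ)) (n + 1) := by
  induction n using Nat.twoStepInduction with
  | zero => simpa using isMonicOfDegree_X ℤ
  | one =>
    have : Chebyshev.C ℤ ((1 + 1 : ℕ) : ℤ) = X ^ 2 - 2 := by
      simpa using Chebyshev.C_two ℤ
    rw [this]
    refine (isMonicOfDegree_X_pow ℤ 2).sub ?_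
    have : (2 : ℤ[X]) = C 2 := rfl
    rw [this, natDegree_C]; norm_num
  | more n ih1 ih2 =>
    have h1 := Chebyshev.C_add_two ℤ ((n : ℤ) + 1)
    have e : ((n + 2 + 1 : ℕ) : ℤ) = (n : ℤ) + 1 + 2 := by push_cast; ring
    rw [e, h1]
    have e2 : (n : ℤ) + 1 + 1 = ((n + 1 + 1 : ℕ) : ℤ) := by push_cast; ring
    have e3 : (n : ℤ) + 1 = ((n + 1 : ℕ) : ℤ) := by push_cast; ring
    rw [e2, e3]
    have h4 := (isMonicOfDegree_X ℤ).mul ih2
    have e4 : 1 + (n + 1 + 1) = n + 2 + 1 := by ring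
    rw [e4] at h4
    refine h4.sub ?_
    rw [ih1.natDegree_eq]; omega

/-- shifted Chebyshev polynomial -/
noncomputable def U (n : ℕ) : ℤ[X] := (Chebyshev.C ℤ n).comp (X - C 2)

theorem monic_U (n : ℕ) (hn : n ≠ 0) : IsMonicOfDegree (U n) n := by
  obtain ⟨m, rfl⟩ := Nat.exists_eq_succ_of_ne_zero hn
  have := (monic_C m).comp one_ne_zero (isMonicOfDegree_X_sub_one (2 : ℤ))
  simpa [U] using this

theorem deriv_U (n : ℕ) : ∃ V : ℤ[X], derivative (U n) = (n : ℤ[X]) * V := by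
  refine ⟨(Chebyshev.S ℤ (n - 1)).comp (X - C 2), ?_⟩
  rw [U, derivative_comp, deriv_C]
  simp

theorem coeff_U (n i : ℕ) : ∃ b : ℤ, ((n : ℤ) - i) * (U n).coeff i = n * b := by
  obtain ⟨V, hV⟩ := deriv_U n
  rcases i with _ | i
  · exact ⟨(U n).coeff 0, by simp⟩
  · have h := congrArg (fun p => p.coeff i) hV
    simp only [coeff_derivative] at h
    have e : (n : ℤ[X]) = C (n : ℤ) := by simp
    rw [e, coeff_C_mul] at h
    refine ⟨(U n).coeff (i + 1) - V.coeff i, ?_⟩
    push_cast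
    linear_combination -h

/-- scaled version -/
noncomputable def T (c : ℝ) (n : ℕ) : ℝ[X] := ((U n).map (Int.castRingHom ℝ)).scaleRoots c

theorem natDegree_map_U (n : ℕ) (hn : n ≠ 0) : ((U n).map (Int.castRingHom ℝ)).natDegree = n := by
  rw [(monic_U n hn).monic.natDegree_map, (monic_U n hn).natDegree_eq]

theorem monic_T (c : ℝ) (n : ℕ) (hn : n ≠ 0) : IsMonicOfDegree (T c n) n := by
  refine ⟨?_, ?_⟩
  · rw [T, natDegree_scaleRoots, natDegree_map_U n hn]
  · rw [T, monic_scaleRoots_iff]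
    exact (monic_U n hn).monic.map _

theorem coeff_T (c : ℝ) (n : ℕ) (hn : n ≠ 0) (i : ℕ) :
    (T c n).coeff i = ((U n).coeff i : ℝ) * c ^ (n - i) := by
  rw [T, coeff_scaleRoots, natDegree_map_U n hn, coeff_map]
  simp

theorem eval_T (c : ℝ) (n : ℕ) (hn : n ≠ 0) (θ : ℝ) :
    (T c n).eval (c * (2 + 2 * Real.cos θ)) = c ^ n * (2 * Real.cos (n * θ)) := by
  rw [T, scaleRoots_eval_mul, natDegree_map_U n hn, U, Polynomial.map_comp, Chebyshev.map_C,
    eval_comp]
  congr 1
  have := Chebyshev.C_two_mul_real_cos θ (n : ℤ)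
  simp only [Polynomial.map_sub, map_X, map_C, eval_sub, eval_X, eval_C]
  have e : 2 + 2 * Real.cos θ - (Int.castRingHom ℝ) 2 = 2 * Real.cos θ := by simp
  rw [e, this]; simp

theorem approx (c : ℝ) (hc : 0 < c) (m : ℕ) (G : ℝ[X]) :
    ∃ R : ℝ[X], (∀ j, m ≤ j → R.coeff j = 0) ∧
      (∀ θ : ℝ, |R.eval (c * (2 + 2 * Real.cos θ))| ≤ ∑ i ∈ Finset.range m, 2 * c ^ i) ∧
      ∀ j < m, ∃ z : ℤ, (G + R).coeff j = z := by
  induction m generalizing G with
  | zero => exact ⟨0, by simp, by simp, by simp⟩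
  | succ m ih =>
    obtain ⟨P, hP1, hP2, hP3⟩ : ∃ P : ℝ[X], (∀ j, m < j → P.coeff j = 0) ∧ P.coeff m = 1 ∧
        ∀ θ : ℝ, |P.eval (c * (2 + 2 * Real.cos θ))| ≤ 2 * c ^ m := by
      rcases Nat.eq_zero_or_pos m with rfl | hm
      · refine ⟨1, ?_, by simp, by simp⟩
        intro j hj
        rw [coeff_one, if_neg (by omega)]
      · have hm' : m ≠ 0 := by omega
        refine ⟨T c m, ?_, ?_, ?_⟩
        · intro j hj
          apply coeff_eq_zero_of_natDegree_lt
          rw [(monic_T c m hm').natDegree_eq]; exact hj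
        · have := (monic_T c m hm').monic.coeff_natDegree
          rwa [(monic_T c m hm').natDegree_eq] at this
        · intro θ
          rw [eval_T c m hm', abs_mul, abs_mul, abs_of_pos (pow_pos hc m), abs_two]
          have := Real.abs_cos_le_one (m * θ)
          have h2 := pow_pos hc m
          nlinarith
    set t : ℝ := ⌈G.coeff m⌉ - G.coeff m with ht
    have ht0 : 0 ≤ t := by have := Int.le_ceil (G.coeff m); linarith
    have ht1 : t ≤ 1 := by have := Int.ceil_lt_add_one (G.coeff m); linarith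
    obtain ⟨R, hR1, hR2, hR3⟩ := ih (G + C t * P)
    refine ⟨C t * P + R, ?_, ?_, ?_⟩
    · intro j hj
      rw [coeff_add, coeff_C_mul, hP1 j (by omega), hR1 j (by omega)]; simp
    · intro θ
      rw [Finset.sum_range_succ, eval_add, eval_mul, eval_C]
      refine (abs_add_le _ _).trans ?_
      rw [abs_mul, abs_of_nonneg ht0]
      have h1 := hP3 θ
      have h2 := hR2 θ
      have h3 := abs_nonneg (P.eval (c * (2 + 2 * Real.cos θ)))
      nlinarith
    · intro j hj
      rcases Nat.lt_succ_iff_lt_or_eq.1 hj with h | rfl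
      · obtain ⟨z, hz⟩ := hR3 j h
        exact ⟨z, by rw [← hz, add_assoc]⟩
      · refine ⟨⌈G.coeff j⌉, ?_⟩
        rw [coeff_add, coeff_add, coeff_C_mul, hP2, hR1 j le_rfl, ht]; ring

/-- alternating signs give all the roots -/
theorem roots_of_alt (c : ℝ) (hc : 0 < c) (n : ℕ) (hn : n ≠ 0) (F : ℝ[X]) (hF : IsMonicOfDegree F n)
    (halt : ∀ j : ℕ, 0 < (-1) ^ j * F.eval (c * (2 + 2 * Real.cos (j * Real.pi / n))))
    (z : ℂ) (hz : aeval z F = 0) : z.im = 0 ∧ 0 ≤ z.re ∧ z.re ≤ 4 * c := by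
  classical
  have hnpos : (0 : ℝ) < n := by positivity
  have hcont : Continuous fun θ : ℝ => F.eval (c * (2 + 2 * Real.cos θ)) :=
    F.continuous.comp (by fun_prop)
  have hex : ∀ j : ℕ, ∃ θ : ℝ, j * Real.pi / n < θ ∧ θ < (j + 1 : ℕ) * Real.pi / n ∧
      F.eval (c * (2 + 2 * Real.cos θ)) = 0 := by
    intro j
    have hlt : j * Real.pi / n ≤ ((j + 1 : ℕ) : ℝ) * Real.pi / n := by
      have := Real.pi_pos
      gcongr; omega
    have hc2 : Continuous fun θ : ℝ => (-1 : ℝ) ^ j * F.eval (c * (2 + 2 * Real.cos θ)) :=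
      continuous_const.mul hcont
    have h1 := halt j
    have h2 := halt (j + 1)
    have h3 := intermediate_value_Ioo' hlt hc2.continuousOn
    have h4 : (0 : ℝ) ∈ Set.Ioo
        ((-1 : ℝ) ^ j * F.eval (c * (2 + 2 * Real.cos (((j + 1 : ℕ) : ℝ) * Real.pi / n))))
        ((-1 : ℝ) ^ j * F.eval (c * (2 + 2 * Real.cos (j * Real.pi / n)))) := by
      refine ⟨?_, h1⟩
      rw [pow_succ] at h2
      linarith
    obtain ⟨θ, hθ, hθ0⟩ := h3 h4
    refine ⟨θ, hθ.1, hθ.2, ?_⟩
    simpa using hθ0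
  choose θ hθ1 hθ2 hθ3 using hex
  have hθmem : ∀ j < n, θ j ∈ Set.Icc 0 Real.pi := by
    intro j hj
    have hpi := Real.pi_pos
    constructor
    · exact le_trans (by positivity) (hθ1 j).le
    · refine (hθ2 j).le.trans ?_
      rw [div_le_iff₀ hnpos]
      have : ((j + 1 : ℕ) : ℝ) ≤ n := by exact_mod_cast hj
      nlinarith
  have hmono : StrictMono θ := by
    apply strictMono_nat_of_lt_succ
    intro j
    exact (hθ2 j).trans (hθ1 (j + 1))
  set r : ℕ → ℂ := fun j => ((c * (2 + 2 * Real.cos (θ j)) : ℝ) : ℂ) with hr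
  have hinj : Set.InjOn r (Finset.range n : Set ℕ) := by
    intro a ha b hb hab
    simp only [hr, Complex.ofReal_inj] at hab
    have h1 : Real.cos (θ a) = Real.cos (θ b) := by
      have := mul_left_cancel₀ hc.ne' hab
      linarith
    exact hmono.injective (Real.injOn_cos (hθmem a (by simpa using ha)) (hθmem b (by simpa using hb)) h1)
  by_contra hcon
  have hznot : z ∉ (Finset.range n).image r := by
    intro h
    obtain ⟨j, -, rfl⟩ := Finset.mem_image.1 h
    apply hcon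
    have h1 := Real.cos_le_one (θ j)
    have h2 := Real.neg_one_le_cos (θ j)
    simp only [hr, Complex.ofReal_im, Complex.ofReal_re, true_and]
    constructor <;> nlinarith
  have hzero : F.map (algebraMap ℝ ℂ) = 0 := by
    apply eq_zero_of_natDegree_lt_card_of_eval_eq_zero' _ (insert z ((Finset.range n).image r))
    · intro w hw
      rcases Finset.mem_insert.1 hw with rfl | hw
      · rwa [eval_map_algebraMap]
      · obtain ⟨j, -, rfl⟩ := Finset.mem_image.1 hw
        rw [eval_map_algebraMap]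
        have := aeval_algebraMap_apply ℂ (c * (2 + 2 * Real.cos (θ j))) F
        simp only [hr]
        rw [show (((c * (2 + 2 * Real.cos (θ j)) : ℝ) : ℂ)) =
          algebraMap ℝ ℂ (c * (2 + 2 * Real.cos (θ j))) from rfl, this]
        simp [hθ3 j]
    · rw [Finset.card_insert_of_notMem hznot, Finset.card_image_of_injOn hinj, Finset.card_range,
        hF.monic.natDegree_map, hF.natDegree_eq]
      omega
  exact (hF.monic.map _).ne_zero hzero

theorem robinson (q : ℕ) (hq : 0 < q) (k : ℕ) :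
    ∃ f : ℤ[X], f.Monic ∧ (2 : ℤ) ^ k ∣ f.coeff 0 ∧ f.coeff 0 ≠ 0 ∧ (2 : ℤ) ^ k ∣ f.coeff 1 - 1 ∧
      ∀ z : ℂ, aeval z f = 0 → z.im = 0 ∧ 0 ≤ z.re ∧ z.re ≤ 4 + 4 / (q : ℝ) := by
  have hqR : (0 : ℝ) < q := by exact_mod_cast hq
  set c : ℝ := (q + 1) / q with hcdef
  have hc1 : 1 < c := by rw [hcdef, lt_div_iff₀ hqR]; linarith
  have hc : 0 < c := by linarith
  obtain ⟨K, hK⟩ := pow_unbounded_of_one_lt ((2 : ℝ) ^ k * q) hc1
  set n : ℕ := (K + 2).factorial * q ^ K with hndef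
  have hnK : K + 2 ≤ n := by
    have h1 := Nat.self_le_factorial (K + 2)
    have h2 : 1 ≤ q ^ K := Nat.one_le_pow _ _ hq
    nlinarith
  have hn : n ≠ 0 := by omega
  obtain ⟨m, hm⟩ : ∃ m, n = m + K := ⟨n - K, by omega⟩
  have hm2 : 2 ≤ m := by omega
  have h2k : (0 : ℝ) < 2 ^ k := by positivity
  obtain ⟨R, hR1, hR2, hR3⟩ := approx c hc m (C ((2 : ℝ) ^ k)⁻¹ * (T c n - X))
  set F : ℝ[X] := T c n + C ((2 : ℝ) ^ k) * R with hF
  have hlow : ∀ j < m, ∃ z : ℤ, F.coeff j = (X : ℝ[X]).coeff j + 2 ^ k * z := by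
    intro j hj
    obtain ⟨z, hz⟩ := hR3 j hj
    refine ⟨z, ?_⟩
    rw [← hz, hF]
    simp only [coeff_add, coeff_C_mul, coeff_sub]
    field_simp
    ring
  have hint : ∀ j, ∃ z : ℤ, F.coeff j = z := by
    intro j
    rcases lt_or_ge j m with hj | hj
    · obtain ⟨z, hz⟩ := hlow j hj
      refine ⟨(X : ℤ[X]).coeff j + 2 ^ k * z, ?_⟩
      rw [hz]
      simp only [coeff_X]
      split_ifs <;> simp
    · rw [hF, coeff_add, coeff_C_mul, hR1 j hj, mul_zero, add_zero, coeff_T c n hn]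
      rcases le_or_gt n j with hjn | hjn
      · refine ⟨(U n).coeff j, ?_⟩
        rw [Nat.sub_eq_zero_of_le hjn]; simp
      · obtain ⟨d, hd⟩ : ∃ d, n = j + d := ⟨n - j, by omega⟩
        have hd0 : 0 < d := by omega
        have hdK : d ≤ K := by omega
        obtain ⟨b, hb⟩ := coeff_U n j
        obtain ⟨e, he⟩ : d ∣ (K + 2).factorial := Nat.dvd_factorial hd0 (by omega)
        obtain ⟨s, hs⟩ : ∃ s, K = d + s := ⟨K - d, by omega⟩
        have hu : (U n).coeff j = e * q ^ K * b := by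
          have h1 : ((n : ℤ) - j) = d := by rw [hd]; push_cast; ring
          rw [h1] at hb
          have h2 : (n : ℤ) = d * (e * q ^ K) := by rw [hndef, he]; push_cast; ring
          rw [h2] at hb
          have hd' : (d : ℤ) ≠ 0 := by exact_mod_cast hd0.ne'
          apply mul_left_cancel₀ hd'
          linear_combination hb
        refine ⟨e * q ^ s * (q + 1) ^ d * b, ?_⟩
        have e1 : n - j = d := by omega
        rw [e1, hu, hcdef, div_pow]
        push_cast
        rw [hs, pow_add]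
        field_simp
  have hFmonic : IsMonicOfDegree F n := by
    refine (monic_T c n hn).add_right ?_
    have : (C ((2 : ℝ) ^ k) * R).natDegree ≤ m - 1 := by
      rw [natDegree_le_iff_coeff_eq_zero]
      intro j hj
      rw [coeff_C_mul, hR1 j (by omega), mul_zero]
    omega
  have hlift : F ∈ lifts (Int.castRingHom ℝ) := by
    rw [lifts_iff_coeff_lifts]
    intro j
    obtain ⟨z, hz⟩ := hint j
    exact ⟨z, by simp [hz]⟩
  obtain ⟨f, hf, -, hfm⟩ := lifts_and_natDegree_eq_and_monic hlift hFmonic.monic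
  have hfc : ∀ j, (f.coeff j : ℝ) = F.coeff j := by
    intro j; rw [← hf, coeff_map]; simp
  have hsum : (2 : ℝ) ^ k * ∑ i ∈ Finset.range m, 2 * c ^ i < 2 * c ^ n := by
    rw [← Finset.mul_sum, geom_sum_eq hc1.ne', hm, pow_add]
    have e : c - 1 = 1 / q := by rw [hcdef]; field_simp; ring
    rw [e, div_div_eq_mul_div, div_one]
    have h1 := pow_pos hc m
    nlinarith [mul_pos h2k hqR]
  have halt : ∀ j : ℕ, 0 < (-1) ^ j * F.eval (c * (2 + 2 * Real.cos (j * Real.pi / n))) := by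
    intro j
    rw [hF, eval_add, eval_T c n hn, eval_mul, eval_C]
    have hnR : (n : ℝ) ≠ 0 := by exact_mod_cast hn
    have e : (n : ℝ) * (j * Real.pi / n) = j * Real.pi := by field_simp
    rw [e, Real.cos_nat_mul_pi]
    have h1 := hR2 (j * Real.pi / n)
    set w := R.eval (c * (2 + 2 * Real.cos (j * Real.pi / n)))
    have h2 : (2 : ℝ) ^ k * |w| < 2 * c ^ n :=
      lt_of_le_of_lt (mul_le_mul_of_nonneg_left h1 h2k.le) hsum
    have h3 := le_abs_self w
    have h4 := neg_abs_le w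
    rcases neg_one_pow_eq_or ℝ j with h | h <;> rw [h] <;> nlinarith
  refine ⟨f, hfm, ?_, ?_, ?_, ?_⟩
  · obtain ⟨z, hz⟩ := hlow 0 (by omega)
    refine ⟨z, ?_⟩
    have : (f.coeff 0 : ℝ) = ((2 ^ k * z : ℤ) : ℝ) := by rw [hfc, hz]; simp
    exact_mod_cast this
  · intro h0
    have h1 := halt n
    have hnR : (n : ℝ) ≠ 0 := by exact_mod_cast hn
    have e : (n : ℝ) * Real.pi / n = Real.pi := by field_simp
    rw [e, Real.cos_pi] at h1
    have e2 : c * (2 + 2 * (-1)) = 0 := by ring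
    rw [e2, ← coeff_zero_eq_eval_zero, ← hfc, h0] at h1
    simp at h1
  · obtain ⟨z, hz⟩ := hlow 1 (by omega)
    refine ⟨z, ?_⟩
    have : ((f.coeff 1 - 1 : ℤ) : ℝ) = ((2 ^ k * z : ℤ) : ℝ) := by
      push_cast; rw [hfc, hz]; simp
    exact_mod_cast this
  · intro z hz
    have h1 : aeval z F = 0 := by
      rw [← hf, ← hz]
      exact aeval_map_algebraMap ℝ z f
    have := roots_of_alt c hc n hn F hFmonic halt z h1
    have e : 4 * c = 4 + 4 / (q : ℝ) := by rw [hcdef]; field_simp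
    rwa [e] at this

end Pool.Agent.H63.Robinson
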