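import Pool.Agent.H63.Robinson

set_option autoImplicit false

open Polynomial

namespace Pool.Agent.H63.Robinson

theorem sq_ne_mod4 : ∀ x : ZMod (2 ^ 2), x ^ 2 ≠ 2 ∧ x ^ 2 ≠ 3 := by decide

theorem sq_ne (z : ℤ_[2]) : z ^ 2 ≠ 2 ∧ z ^ 2 ≠ 3 := by
  have h := sq_ne_mod4 (PadicInt.toZModPow 2 z)
  constructor
  · intro hz
    apply h.1
    rw [← map_pow, hz, map_ofNat]
  · intro hz
    apply h.2
    rw [← map_pow, hz, map_ofNat]

theorem back (z : ℤ_[2]) (h : z ^ 2 - 2 ∈ ({-2, -1, 0, 1, 2} : Set ℤ_[2])) :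
    z ∈ ({-2, -1, 0, 1, 2} : Set ℤ_[2]) := by
  simp only [Set.mem_insert_iff, Set.mem_singleton_iff] at h ⊢
  rcases h with h | h | h | h | h
  · have : z ^ 2 = 0 := by linear_combination h
    have : z = 0 := by simpa using this
    tauto
  · have : (z - 1) * (z + 1) = 0 := by linear_combination h
    rcases mul_eq_zero.1 this with h | h
    · have : z = 1 := by linear_combination h
      tauto
    · have : z = -1 := by linear_combination h
      tauto
  · exact absurd (by linear_combination h) (sq_ne z).1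
  · exact absurd (by linear_combination h) (sq_ne z).2
  · have : (z - 2) * (z + 2) = 0 := by linear_combination h
    rcases mul_eq_zero.1 this with h | h
    · have : z = 2 := by linear_combination h
      tauto
    · have : z = -2 := by linear_combination h
      tauto

theorem contract (w z : ℤ_[2]) (hw : w ^ 2 - 2 = w) (h : (2 : ℤ_[2]) ∣ z - w) :
    ‖z ^ 2 - 2 - w‖ ≤ 1 / 2 * ‖z - w‖ := by
  obtain ⟨t, ht⟩ := h
  have e : z ^ 2 - 2 - w = 2 * (t + w) * (z - w) := by linear_combination hw + (z - w) * ht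
  rw [e, norm_mul, norm_mul]
  have h2 : ‖(2 : ℤ_[2])‖ = 1 / 2 := by
    have := @PadicInt.norm_p 2 _
    simpa using this
  rw [h2]
  have h3 := PadicInt.norm_le_one (t + w)
  have h4 := norm_nonneg (z - w)
  nlinarith

theorem dvd_step (w z : ℤ_[2]) (hw : w ^ 2 - 2 = w) (h : (2 : ℤ_[2]) ∣ z - w) :
    (2 : ℤ_[2]) ∣ z ^ 2 - 2 - w := by
  have e : z ^ 2 - 2 - w = (z - w) * (z + w) := by linear_combination hw
  rw [e]; exact h.mul_right _

theorem parity (z : ℤ_[2]) : (2 : ℤ_[2]) ∣ z - 2 ∨ (2 : ℤ_[2]) ∣ z - (-1) := by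
  have hp : Prime (2 : ℤ_[2]) := by simpa using @PadicInt.prime_p 2 _
  have h1 : (2 : ℤ_[2]) ∣ z * (z + 1) := by
    have h2 : ∀ x : ZMod 2, x * (x + 1) = 0 := by decide
    have h3 : z * (z + 1) ∈ RingHom.ker (PadicInt.toZMod (p := 2)) := by
      rw [RingHom.mem_ker, map_mul, map_add, map_one]; exact h2 _
    rw [PadicInt.ker_toZMod, PadicInt.maximalIdeal_eq_span_p, Ideal.mem_span_singleton] at h3
    simpa using h3
  rcases hp.dvd_or_dvd h1 with h | h
  · left; exact dvd_sub h dvd_rfl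
  · right; simpa using h

theorem preperiodic (b : ℕ → ℤ_[2]) (hb : ∀ n, b (n + 1) = b n ^ 2 - 2) (n m : ℕ) (hnm : n < m)
    (h : b n = b m) : b 0 ∈ ({-2, -1, 0, 1, 2} : Set ℤ_[2]) := by
  have key : ∀ w : ℤ_[2], w ^ 2 - 2 = w → (2 : ℤ_[2]) ∣ b n - w → b n = w := by
    intro w hw hd
    have h1 : ∀ k, (2 : ℤ_[2]) ∣ b (n + k) - w := by
      intro k
      induction k with
      | zero => exact hd
      | succ k ih => rw [← add_assoc, hb]; exact dvd_step w _ hw ih
    have h2 : ∀ k, ‖b (n + (k + 1)) - w‖ ≤ 1 / 2 * ‖b n - w‖ := by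
      intro k
      induction k with
      | zero => rw [zero_add, hb]; exact contract w _ hw hd
      | succ k ih =>
        rw [← add_assoc, hb]
        have := contract w _ hw (h1 (k + 1))
        have h3 := norm_nonneg (b (n + (k + 1)) - w)
        linarith
    obtain ⟨k, rfl⟩ : ∃ k, m = n + (k + 1) := ⟨m - n - 1, by omega⟩
    have h3 := h2 k
    rw [← h] at h3
    have h4 := norm_nonneg (b n - w)
    have h5 : ‖b n - w‖ = 0 := by linarith
    exact sub_eq_zero.1 (norm_eq_zero.1 h5)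
  have hn : b n ∈ ({-2, -1, 0, 1, 2} : Set ℤ_[2]) := by
    rcases parity (b n) with h1 | h1
    · rw [key 2 (by norm_num) h1]; simp
    · rw [key (-1) (by norm_num) h1]; simp
  clear key h hnm
  induction n with
  | zero => exact hn
  | succ n ih => rw [hb] at hn; exact ih (back _ hn)

theorem small_root (f : ℤ[X]) (k : ℕ) (hk : 0 < k) (h0 : (2 : ℤ) ^ k ∣ f.coeff 0)
    (h0' : f.coeff 0 ≠ 0) (h1 : (2 : ℤ) ^ k ∣ f.coeff 1 - 1) :
    ∃ z : ℤ_[2], aeval z f = 0 ∧ z ≠ 0 ∧ ‖z‖ ≤ (1 / 2) ^ k := by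
  have e0 : aeval (0 : ℤ_[2]) f = (f.coeff 0 : ℤ_[2]) := by
    rw [← coeff_zero_eq_aeval_zero']; simp
  have e1 : aeval (0 : ℤ_[2]) f.derivative = (f.coeff 1 : ℤ_[2]) := by
    rw [← coeff_zero_eq_aeval_zero', coeff_derivative]; simp
  have n0 : ‖(f.coeff 0 : ℤ_[2])‖ ≤ (1 / 2) ^ k := by
    have := (PadicInt.norm_int_le_pow_iff_dvd (p := 2) (k := f.coeff 0) (n := k)).2 (by simpa using h0)
    simpa using this
  have n1 : ‖(f.coeff 1 : ℤ_[2])‖ = 1 := by
    apply le_antisymm (PadicInt.norm_le_one _)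
    by_contra hlt
    have h2 := (PadicInt.norm_int_lt_one_iff_dvd (p := 2) (f.coeff 1)).1 (not_le.1 hlt)
    have h3 : (2 : ℤ) ∣ f.coeff 1 - 1 := (dvd_pow_self 2 hk.ne').trans h1
    push_cast at h2
    omega
  have hlt : ((1 : ℝ) / 2) ^ k < 1 := pow_lt_one₀ (by norm_num) (by norm_num) hk.ne'
  obtain ⟨z, hz, hz1, -, -⟩ := hensels_lemma (F := f) (a := (0 : ℤ_[2])) (by
    rw [e0, e1, n1]; linarith)
  rw [e1, n1, sub_zero] at hz1
  refine ⟨z, hz, ?_, ?_⟩
  · rintro rfl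
    rw [e0] at hz
    exact h0' (by exact_mod_cast hz)
  · have hdec : f = C (f.coeff 0) + X * (C (f.coeff 1) + X * f.divX.divX) := by
      have a1 := X_mul_divX_add f
      have a2 := X_mul_divX_add f.divX
      rw [coeff_divX] at a2
      simp only [zero_add] at a2
      linear_combination -a1 - X * a2
    rw [hdec] at hz
    simp only [map_add, map_mul, aeval_C, aeval_X, algebraMap_int_eq, eq_intCast, map_intCast] at hz
    set h := aeval z f.divX.divX
    have hu : ‖(f.coeff 1 : ℤ_[2]) + z * h‖ = 1 := by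
      have h2 : ‖z * h‖ < 1 := by
        rw [norm_mul]
        have := PadicInt.norm_le_one h
        have h3 := norm_nonneg z
        nlinarith
      rw [PadicInt.norm_add_eq_max_of_ne (by rw [n1]; exact h2.ne'), n1]
      exact max_eq_left h2.le
    have h3 : z * ((f.coeff 1 : ℤ_[2]) + z * h) = -(f.coeff 0 : ℤ_[2]) := by linear_combination hz
    have h4 := congrArg norm h3
    rw [norm_mul, hu, mul_one, norm_neg] at h4
    rw [h4]; exact n0

abbrev A := AlgebraicClosure ℚ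
abbrev W := AlgebraicClosure ℚ_[2]

instance algA : Algebra.IsAlgebraic ℚ A := by
  have := AlgebraicClosure.isAlgebraic ℚ
  exact this

noncomputable def jj : A →ₐ[ℚ] ℂ := IsAlgClosed.lift
noncomputable def ii : A →ₐ[ℚ] W := IsAlgClosed.lift

theorem conj_iff (a : A) (P : ℂ → Prop) :
    (∀ z : ℂ, aeval z (minpoly ℚ a) = 0 → P z) ↔ ∀ σ : A →ₐ[ℚ] ℂ, P (σ a) := by
  have h := Algebra.IsAlgebraic.range_eval_eq_rootSet_minpoly (F := ℚ) ℂ a
  have hi : IsIntegral ℚ a := Algebra.IsIntegral.isIntegral a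
  constructor
  · intro H σ
    apply H
    rw [aeval_algHom_apply, minpoly.aeval, map_zero]
  · intro H z hz
    have : z ∈ (minpoly ℚ a).rootSet ℂ := mem_rootSet.2 ⟨minpoly.ne_zero hi, hz⟩
    rw [← h] at this
    obtain ⟨σ, rfl⟩ := this
    exact H σ

noncomputable def K0 : Subfield A :=
  (⨅ σ : A →ₐ[ℚ] ℂ, (Complex.ofRealHom.fieldRange).comap (σ : A →+* ℂ)) ⊓
    ((algebraMap ℚ_[2] W).fieldRange).comap (ii : A →+* W)

theorem mem_K0 (a : A) :
    a ∈ K0 ↔ (∀ σ : A →ₐ[ℚ] ℂ, (σ a).im = 0) ∧ ∃ y : ℚ_[2], algebraMap ℚ_[2] W y = ii a := by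
  simp only [K0, Subfield.mem_inf, Subfield.mem_iInf, Subfield.mem_comap, RingHom.mem_fieldRange]
  refine and_congr (forall_congr' fun σ => ?_) Iff.rfl
  constructor
  · rintro ⟨x, hx⟩
    have : σ a = (x : ℂ) := hx.symm
    rw [this]; simp
  · intro h
    exact ⟨(σ a).re, Complex.ext (by simp) (by simp [h])⟩

theorem lift_int (a : A) (ha : IsIntegral ℤ a) (y : ℚ_[2]) (hy : algebraMap ℚ_[2] W y = ii a) :
    ∃ z : ℤ_[2], (z : ℚ_[2]) = y := by
  have h1 : IsIntegral ℤ (algebraMap ℚ_[2] W y) := by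
    rw [hy]; exact map_isIntegral_int (ii : A →+* W) ha
  have h2 : IsIntegral ℤ y := (isIntegral_algebraMap_iff (algebraMap ℚ_[2] W).injective).1 h1
  have h3 : IsIntegral ℤ_[2] y := h2.tower_top
  exact IsIntegrallyClosed.algebraMap_eq_of_integral h3

theorem orbit_finite (a : A) (ha : IsIntegral ℤ a)
    (h : ∀ σ : A →ₐ[ℚ] ℂ, (σ a).im = 0 ∧ 0 ≤ (σ a).re ∧ (σ a).re ≤ 4) :
    ∃ n m : ℕ, n < m ∧ (fun x : A => x ^ 2 - 2)^[n] (a - 2) = (fun x : A => x ^ 2 - 2)^[m] (a - 2) := by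
  have hi : IsIntegral ℚ a := Algebra.IsIntegral.isIntegral a
  let F := IntermediateField.adjoin ℚ {a}
  haveI : FiniteDimensional ℚ F := IntermediateField.adjoin.finiteDimensional hi
  haveI : NumberField F := {}
  let g : F := IntermediateField.AdjoinSimple.gen ℚ a
  let b : ℕ → F := fun n => (fun x : F => x ^ 2 - 2)^[n] (g - 2)
  have hb : ∀ n, b (n + 1) = b n ^ 2 - 2 := fun n => Function.iterate_succ_apply' _ _ _
  have hval : ∀ n, (b n : A) = (fun x : A => x ^ 2 - 2)^[n] (a - 2) := by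
    intro n
    induction n with
    | zero => rfl
    | succ n ih => rw [hb, Function.iterate_succ_apply', ← ih]; rfl
  have hgi : IsIntegral ℤ g := (isIntegral_algebraMap_iff (algebraMap F A).injective).1 ha
  have h2i : IsIntegral ℤ (2 : F) := by
    have := isIntegral_algebraMap (R := ℤ) (A := F) (x := 2)
    simpa using this
  have hfin := NumberField.Embeddings.finite_of_norm_le F ℂ 2
  have hmem : ∀ n, b n ∈ {x : F | IsIntegral ℤ x ∧ ∀ φ : F →+* ℂ, ‖φ x‖ ≤ 2} := by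
    intro n
    constructor
    · induction n with
      | zero => exact hgi.sub h2i
      | succ n ih => rw [hb]; exact (ih.pow 2).sub h2i
    · intro φ
      have hroot : aeval (φ g) (minpoly ℚ a) = 0 := by
        have e : minpoly ℚ g = minpoly ℚ a := IntermediateField.minpoly_gen ℚ a
        rw [← e]
        have := aeval_algHom_apply φ.toRatAlgHom g (minpoly ℚ g)
        rw [minpoly.aeval, map_zero] at this
        exact this
      have hP := (conj_iff a (fun z => z.im = 0 ∧ 0 ≤ z.re ∧ z.re ≤ 4)).2 h _ hroot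
      have hr : ∃ r : ℝ, |r| ≤ 2 ∧ φ (b n) = r := by
        induction n with
        | zero =>
          refine ⟨(φ g).re - 2, abs_le.2 ⟨by linarith [hP.2.1], by linarith [hP.2.2]⟩, ?_⟩
          have : b 0 = g - 2 := rfl
          rw [this, map_sub, map_ofNat]
          apply Complex.ext <;> simp [hP.1]
        | succ n ih =>
          obtain ⟨r, hr1, hr2⟩ := ih
          refine ⟨r ^ 2 - 2, ?_, ?_⟩
          · have := abs_le.1 hr1
            exact abs_le.2 ⟨by nlinarith, by nlinarith⟩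
          · rw [hb, map_sub, map_pow, hr2, map_ofNat]; push_cast; rfl
      obtain ⟨r, hr1, hr2⟩ := hr
      rw [hr2]; simpa using hr1
  obtain ⟨n, m, hnm, e⟩ := Set.Finite.exists_lt_map_eq_of_forall_mem hmem hfin
  exact ⟨n, m, hnm, by rw [← hval, ← hval, e]⟩

theorem four_cases (a : A) (hK : a ∈ K0) (ha : IsIntegral ℤ a)
    (h : ∀ σ : A →ₐ[ℚ] ℂ, (σ a).im = 0 ∧ 0 ≤ (σ a).re ∧ (σ a).re ≤ 4) :
    a ∈ ({0, 1, 2, 3, 4} : Set A) := by
  obtain ⟨y, hy⟩ := ((mem_K0 a).1 hK).2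
  obtain ⟨z, rfl⟩ := lift_int a ha y hy
  obtain ⟨n, m, hnm, e⟩ := orbit_finite a ha h
  let ψ : ℤ_[2] →+* W := (algebraMap ℚ_[2] W).comp PadicInt.Coe.ringHom
  have hψ : Function.Injective ψ := (algebraMap ℚ_[2] W).injective.comp Subtype.val_injective
  have hz : ψ z = ii a := hy
  let b : ℕ → ℤ_[2] := fun n => (fun x : ℤ_[2] => x ^ 2 - 2)^[n] (z - 2)
  have hb : ∀ n, b (n + 1) = b n ^ 2 - 2 := fun n => Function.iterate_succ_apply' _ _ _
  have hval : ∀ n, ψ (b n) = ii ((fun x : A => x ^ 2 - 2)^[n] (a - 2)) := by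
    intro n
    induction n with
    | zero =>
      have : b 0 = z - 2 := rfl
      rw [this, map_sub, hz]; simp [map_ofNat]
    | succ n ih =>
      rw [hb, Function.iterate_succ_apply', map_sub, map_pow, ih]; simp [map_ofNat]
  have h0 := preperiodic b hb n m hnm (hψ (by rw [hval, hval, e]))
  have hb0 : b 0 = z - 2 := rfl
  rw [hb0] at h0
  have hinj : Function.Injective ii := (ii : A →+* W).injective
  simp only [Set.mem_insert_iff, Set.mem_singleton_iff] at h0 ⊢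
  rcases h0 with h0 | h0 | h0 | h0 | h0
  · have : z = 0 := by linear_combination h0
    left; apply hinj; rw [← hz, this]; simp
  · have : z = 1 := by linear_combination h0
    right; left; apply hinj; rw [← hz, this]; simp
  · have : z = 2 := by linear_combination h0
    right; right; left; apply hinj; rw [← hz, this]; simp [map_ofNat]
  · have : z = 3 := by linear_combination h0
    right; right; right; left; apply hinj; rw [← hz, this]; simp [map_ofNat]
  · have : z = 4 := by linear_combination h0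
    right; right; right; right; apply hinj; rw [← hz, this]; simp [map_ofNat]

theorem exists_small (s : ℝ) (hs : 4 < s) (k : ℕ) (hk : 0 < k) :
    ∃ (a : A) (z : ℤ_[2]), a ∈ K0 ∧ IsIntegral ℤ a ∧
      (∀ σ : A →ₐ[ℚ] ℂ, (σ a).im = 0 ∧ 0 ≤ (σ a).re ∧ (σ a).re ≤ s) ∧
      algebraMap ℚ_[2] W (z : ℚ_[2]) = ii a ∧ z ≠ 0 ∧ ‖z‖ ≤ (1 / 2) ^ k := by
  obtain ⟨q, hq⟩ := exists_nat_gt (4 / (s - 4))
  have hs' : 0 < s - 4 := by linarith
  have hqR : (0 : ℝ) < q := lt_trans (by positivity) hq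
  have hq0 : 0 < q := by exact_mod_cast hqR
  have hqs : 4 + 4 / (q : ℝ) ≤ s := by
    rw [div_lt_iff₀ hs'] at hq
    have : 4 / (q : ℝ) ≤ s - 4 := by rw [div_le_iff₀ hqR]; linarith
    linarith
  obtain ⟨f, hfm, h0, h0', h1, hroots⟩ := robinson q hq0 k
  obtain ⟨z, hz, hz0, hzn⟩ := small_root f k hk h0 h0' h1
  let ψ : ℤ_[2] →+* W := (algebraMap ℚ_[2] W).comp PadicInt.Coe.ringHom
  have hzW : aeval (ψ z) f = 0 := by
    have := aeval_algHom_apply ψ.toIntAlgHom z f
    rw [hz, map_zero] at this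
    exact this
  have hsp : (f.map (algebraMap ℤ A)).Splits := IsAlgClosed.splits _
  have hne : f.map (algebraMap ℤ A) ≠ 0 := (hfm.map _).ne_zero
  have hr := hsp.roots_map (ii : A →+* W)
  have hmem : ψ z ∈ ((f.map (algebraMap ℤ A)).map (ii : A →+* W)).roots := by
    rw [mem_roots (((hfm.map _).map _).ne_zero), IsRoot.def, Polynomial.map_map,
      show (ii : A →+* W).comp (algebraMap ℤ A) = algebraMap ℤ W from RingHom.ext_int _ _,
      eval_map_algebraMap]
    exact hzW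
  rw [hr, Multiset.mem_map] at hmem
  obtain ⟨a, ha, haz⟩ := hmem
  rw [mem_roots hne, IsRoot.def, eval_map_algebraMap] at ha
  have hσ : ∀ σ : A →ₐ[ℚ] ℂ, (σ a).im = 0 ∧ 0 ≤ (σ a).re ∧ (σ a).re ≤ s := by
    intro σ
    have h2 : aeval (σ a) f = 0 := by
      have := aeval_algHom_apply (σ : A →+* ℂ).toIntAlgHom a f
      rw [ha, map_zero] at this
      exact this
    have := hroots _ h2
    exact ⟨this.1, this.2.1, this.2.2.trans hqs⟩
  refine ⟨a, z, (mem_K0 a).2 ⟨fun σ => (hσ σ).1, z, haz.symm⟩, ⟨f, hfm, ha⟩, hσ, haz.symm, hz0, hzn⟩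

theorem infinite_above (s : ℝ) (hs : 4 < s) :
    {a : A | a ∈ K0 ∧ IsIntegral ℤ a ∧
      ∀ σ : A →ₐ[ℚ] ℂ, (σ a).im = 0 ∧ 0 ≤ (σ a).re ∧ (σ a).re ≤ s}.Infinite := by
  intro hfin
  let ψ : ℤ_[2] →+* W := (algebraMap ℚ_[2] W).comp PadicInt.Coe.ringHom
  have hψ : Function.Injective ψ := (algebraMap ℚ_[2] W).injective.comp Subtype.val_injective
  have h1 := (hfin.image ii).preimage hψ.injOn
  have h2 := h1.subset (Set.inter_subset_left (t := {z : ℤ_[2] | z ≠ 0}))
  have hne : ∀ k, 0 < k → ∃ z ∈ (ψ ⁻¹' (ii '' {a : A | a ∈ K0 ∧ IsIntegral ℤ a ∧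
      ∀ σ : A →ₐ[ℚ] ℂ, (σ a).im = 0 ∧ 0 ≤ (σ a).re ∧ (σ a).re ≤ s})) ∩ {z : ℤ_[2] | z ≠ 0},
      ‖z‖ ≤ (1 / 2) ^ k := by
    intro k hk
    obtain ⟨a, z, a1, a2, a3, a4, a5, a6⟩ := exists_small s hs k hk
    exact ⟨z, ⟨⟨a, ⟨a1, a2, a3⟩, a4.symm⟩, a5⟩, a6⟩
  obtain ⟨z1, hz1, -⟩ := hne 1 one_pos
  obtain ⟨z0, hz0, hmin⟩ := Set.exists_min_image _ (fun z : ℤ_[2] => ‖z‖) h2 ⟨z1, hz1⟩
  have hpos : 0 < ‖z0‖ := norm_pos_iff.2 hz0.2
  obtain ⟨k, hk⟩ := exists_pow_lt_of_lt_one hpos (by norm_num : (1 / 2 : ℝ) < 1)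
  obtain ⟨z, hz, hzn⟩ := hne (k + 1) (Nat.succ_pos k)
  have h3 := hmin z hz
  have h4 : (0 : ℝ) < (1 / 2) ^ k := by positivity
  rw [pow_succ] at hzn
  linarith

end Pool.Agent.H63.Robinson
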