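import Mathlib

set_option autoImplicit false

/-! State-controlled finite automata and monotone (length-non-decreasing) grammars. -/

namespace Pool.Agent.H63.SC

/-- finite automaton with rules `p a → q`, `a ∈ Σ ∪ {ε}`, written `(p, a, q)` -/
structure FA (Q A : Type) where
  s : Q
  F : Set Q
  R : Set (Q × Option A × Q)

/-- `(p a x, α) ▷ (q x, α p)` -/
def FA.Move {Q A : Type} (M : FA Q A) (c c' : Q × List A × List Q) : Prop :=
  ∃ a, (c.1, a, c'.1) ∈ M.R ∧ c.2.1 = a.toList ++ c'.2.1 ∧ c'.2.2 = c.2.2 ++ [c.1]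

def FA.ctrl {Q A : Type} (M : FA Q A) (C : Set (List Q)) : Set (List A) :=
  {w | ∃ f ∈ M.F, ∃ α ∈ C, Relation.ReflTransGen M.Move (M.s, w, []) (f, [], α)}

/-- a family of languages: a set of languages over each finite alphabet -/
def Family : Type 1 := (A : Type) → [Fintype A] → Set (Set (List A))

def SCFA (𝓛 : Family) : Family := fun A _ =>
  {K | ∃ (Q : Type) (_ : Fintype Q) (M : FA Q A), ∃ C ∈ 𝓛 Q, K = M.ctrl C}

/-- a monotone grammar: finitely many rules `x → y`, `x` contains a nonterminal, `|x| ≤ |y|` -/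
structure MG (T N : Type) where
  start : N
  rules : Set (List (Symbol T N) × List (Symbol T N))
  fin : rules.Finite
  lhs : ∀ r ∈ rules, ∃ B, Symbol.nonterminal B ∈ r.1
  mono : ∀ r ∈ rules, r.1.length ≤ r.2.length

def MG.Step {T N : Type} (G : MG T N) (u v : List (Symbol T N)) : Prop :=
  ∃ r ∈ G.rules, ∃ p q, u = p ++ r.1 ++ q ∧ v = p ++ r.2 ++ q

def MG.lang {T N : Type} (G : MG T N) : Set (List T) :=
  {w | Relation.ReflTransGen G.Step [Symbol.nonterminal G.start] (w.map Symbol.terminal)}

/-- context-sensitive languages: generated by a monotone grammar up to the empty word -/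
def CS : Family := fun A _ =>
  {K | ∃ (N : Type) (_ : Fintype N) (G : MG A N), K \ {[]} = G.lang}

end Pool.Agent.H63.SC
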