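import Pool.Agent.H63.FG1
import Pool.Agent.H63.SCDefs

set_option autoImplicit false

/-! A padded monotone grammar for the language of an incrementing counter machine. -/

namespace Pool.Agent.H63.SC

open Function Relation IC FG

inductive Hd (Q R : Type)
  | s0 | st (q : Q) | zr (r : R) (q : Q) | dc (r : R) (q : Q) | bk (q : Q) | fin

instance {Q R : Type} [Fintype Q] [Fintype R] : Fintype (Hd Q R) :=
  Fintype.ofEquiv _ (proxy_equiv% (Hd Q R))

section
variable {Q R : Type} [DecidableEq R]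

abbrev MN (Q R : Type) := Hd Q R ⊕ Option (Option R)
abbrev MS (Q R : Type) := Symbol (Option (Fin 3)) (MN Q R)

def hd (H : Hd Q R) : MS Q R := .nonterminal (.inl H)
def en : MS Q R := .nonterminal (.inr none)
def tok (z : Option R) : MS Q R := .nonterminal (.inr (some z))

inductive MR (Ed : Q → Ins R → Q → Prop) (q0 qf : Q) :
    List (MS Q R) → Hd Q R → List (MS Q R) → List (MS Q R) → Prop
  | ini : MR Ed q0 qf [] .s0 [] [.terminal none, hd (.st q0), en]
  | inc (q r q') : Ed q (.inc r) q' → MR Ed q0 qf [] (.st q) [] [hd (.st q'), tok (some r)]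
  | out (q a q') : Ed q (.out a) q' → MR Ed q0 qf [] (.st q) [] [.terminal (some a), hd (.st q')]
  | nop (q q') : Ed q .nop q' → MR Ed q0 qf [] (.st q) [] [hd (.st q')]
  | skip (q r q') : Ed q (.dec r) q' → MR Ed q0 qf [] (.st q) [] [hd (.st q')]
  | zero (q r q') : Ed q (.zero r) q' → MR Ed q0 qf [] (.st q) [] [hd (.zr r q')]
  | dec (q r q') : Ed q (.dec r) q' → MR Ed q0 qf [] (.st q) [] [hd (.dc r q')]
  | stop : MR Ed q0 qf [] (.st qf) [] [hd .fin]
  | z1 (r q z) : z ≠ some r → MR Ed q0 qf [] (.zr r q) [tok z] [tok z, hd (.zr r q)]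
  | z2 (r q) : MR Ed q0 qf [] (.zr r q) [en] [hd (.bk q), en]
  | d1 (r q z) : MR Ed q0 qf [] (.dc r q) [tok z] [tok z, hd (.dc r q)]
  | d2 (r q) : MR Ed q0 qf [] (.dc r q) [tok (some r)] [hd (.bk q), tok none]
  | b1 (q z) : MR Ed q0 qf [tok z] (.bk q) [] [hd (.bk q), tok z]
  | b2 (q a) : MR Ed q0 qf [.terminal a] (.bk q) [] [.terminal a, hd (.st q)]
  | f1 (z) : MR Ed q0 qf [] .fin [tok z] [.terminal none, hd .fin]
  | f2 : MR Ed q0 qf [] .fin [en] [.terminal none, .terminal none]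

def simM [Fintype Q] [Fintype R] (Ed : Q → Ins R → Q → Prop) (q0 qf : Q) :
    MG (Option (Fin 3)) (MN Q R) where
  start := .inl .s0
  rules := {r | ∃ x1 H x2, r.1 = x1 ++ hd H :: x2 ∧ MR Ed q0 qf x1 H x2 r.2}
  fin := ((List.finite_length_le _ 3).prod (List.finite_length_le _ 3)).subset (by
    rintro ⟨_, y⟩ ⟨x1, H, x2, rfl, h⟩
    cases h <;> simp)
  lhs := by rintro ⟨_, y⟩ ⟨x1, H, x2, rfl, -⟩; exact ⟨.inl H, by simp [hd]⟩
  mono := by rintro ⟨_, y⟩ ⟨x1, H, x2, rfl, h⟩; cases h <;> simp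

omit [DecidableEq R] in
theorem uniq {A B A' B' : List (MS Q R)} {H H' : Hd Q R} (hA : ∀ H, hd H ∉ A) (hB : ∀ H, hd H ∉ B)
    (e : A ++ hd H :: B = A' ++ hd H' :: B') : A = A' ∧ H = H' ∧ B = B' := by
  rcases List.append_eq_append_iff.1 e with ⟨c, rfl, e2⟩ | ⟨c, rfl, e2⟩
  · cases c with
    | nil => simpa [hd] using e2
    | cons x c => exact absurd (by rw [(List.cons.inj e2).2]; simp) (hB H')
  · cases c with
    | nil => simpa [hd, eq_comm] using e2
    | cons x c => exact absurd (by rw [← (List.cons.inj e2).1]; simp) (hA H')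

variable (Ed : Q → Ins R → Q → Prop) (q0 qf : Q)

def Gm : Hd Q R → List (Fin 3) → List (Option R) → List (Option R) → Prop
  | .s0, _, _, _ => False
  | .st q, w, l1, l2 => l1 = [] ∧ Rc Ed q0 q (cnt l2) w
  | .zr r q, w, l1, l2 => some r ∉ l1 ∧ (some r ∉ l2 → Rc Ed q0 q (cnt (l1 ++ l2)) w)
  | .dc r q, w, l1, l2 => 0 < cnt (l1 ++ l2) r →
      Rc Ed q0 q (update (cnt (l1 ++ l2)) r (cnt (l1 ++ l2) r - 1)) w
  | .bk q, w, l1, l2 => Rc Ed q0 q (cnt (l1 ++ l2)) w
  | .fin, w, l1, _ => l1 = [] ∧ w ∈ MLang Ed q0 qf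

def MInv (u : List (MS Q R)) : Prop := u = [hd .s0] ∨
  (∃ H, ∃ w : List (Option (Fin 3)), ∃ l1 l2 : List (Option R), u = (w.map Symbol.terminal ++ l1.map tok) ++ hd H :: (l2.map tok ++ [en]) ∧
    Gm Ed q0 qf H (w.filterMap id) l1 l2) ∨
  ∃ w : List (Option (Fin 3)), u = w.map Symbol.terminal ∧ w.filterMap id ∈ MLang Ed q0 qf

omit [DecidableEq R] in
theorem rt {l : List (Option R)} {z : Option R} {q : List (MS Q R)}
    (e : l.map tok ++ [en] = [tok z] ++ q) : ∃ l', l = z :: l' ∧ q = l'.map tok ++ [en] := by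
  cases l with
  | nil => simp [tok, en] at e
  | cons x l => simp only [tok, List.map_cons, List.cons_append, List.nil_append, List.cons.injEq,
      Symbol.nonterminal.injEq, Sum.inr.injEq, Option.some.injEq] at e; exact ⟨l, by rw [e.1], e.2.symm⟩

omit [DecidableEq R] in
theorem re {l : List (Option R)} {q : List (MS Q R)}
    (e : l.map tok ++ [en] = [en] ++ q) : l = [] ∧ q = [] := by
  cases l with
  | nil => simpa using e
  | cons x l => simp [tok, en] at e

variable [Fintype Q] [Fintype R]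

theorem minv_step {u v : List (MS Q R)} (h : MInv Ed q0 qf u) (k : (simM Ed q0 qf).Step u v) :
    MInv Ed q0 qf v := by
  obtain ⟨⟨_, y⟩, ⟨x1, H', x2, rfl, hr⟩, p, q, e, rfl⟩ := k
  have e' : u = (p ++ x1) ++ hd H' :: (x2 ++ q) := by simp [e]
  clear e
  simp only at hr ⊢
  obtain rfl | ⟨H, w, l1, l2, rfl, h⟩ | ⟨w, rfl, h⟩ := h
  · obtain ⟨e1, rfl, e2⟩ := uniq (A := []) (by simp) (by simp) e'
    cases hr
    obtain rfl : p = [] := by simpa using e1
    obtain rfl : q = [] := by simpa using e2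
    exact Or.inr (Or.inl ⟨.st q0, [none], [], [], rfl, rfl, .refl⟩)
  swap
  · have : hd H' ∈ w.map (Symbol.terminal (N := MN Q R)) := by simp [e']
    simp [hd] at this
  obtain ⟨e1, rfl, e2⟩ := uniq (by simp [hd, tok]) (by simp [hd, tok, en]) e'
  clear e'
  cases hr with
  | ini => exact h.elim
  | inc s r s' g =>
    obtain ⟨rfl, h⟩ := h
    exact Or.inr (Or.inl ⟨.st s', w, [], some r :: l2, by simp_all, rfl,
      cnt_cons r l2 ▸ h.tail ⟨_, g, rfl⟩⟩)
  | out s a s' g =>
    obtain ⟨rfl, h⟩ := h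
    exact Or.inr (Or.inl ⟨.st s', w ++ [some a], [], l2, by simp_all, rfl,
      by rw [List.filterMap_append]; exact h.tail ⟨_, g, rfl⟩⟩)
  | nop s s' g =>
    obtain ⟨rfl, h⟩ := h
    exact Or.inr (Or.inl ⟨.st s', w, [], l2, by simp_all, rfl, h.tail ⟨_, g, rfl⟩⟩)
  | skip s r s' g =>
    obtain ⟨rfl, h⟩ := h
    exact Or.inr (Or.inl ⟨.st s', w, [], l2, by simp_all, rfl, h.tail ⟨_, g, Or.inl rfl⟩⟩)
  | zero s r s' g =>
    obtain ⟨rfl, h⟩ := h
    exact Or.inr (Or.inl ⟨.zr r s', w, [], l2, by simp_all, by simp,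
      fun k => h.tail ⟨_, g, List.count_eq_zero.2 k, rfl⟩⟩)
  | dec s r s' g =>
    obtain ⟨rfl, h⟩ := h
    exact Or.inr (Or.inl ⟨.dc r s', w, [], l2, by simp_all, fun k => h.tail ⟨_, g, Or.inr ⟨k, rfl⟩⟩⟩)
  | stop =>
    obtain ⟨rfl, h⟩ := h
    exact Or.inr (Or.inl ⟨.fin, w, [], l2, by simp_all, rfl, _, h⟩)
  | z1 r s z g =>
    obtain ⟨l, rfl, rfl⟩ := rt e2
    rw [List.append_nil] at e1
    exact Or.inr (Or.inl ⟨.zr r s, w, l1 ++ [z], l, by simp [← e1], by simp [h.1, g.symm],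
      fun k => by simpa using h.2 (by simp [k, g.symm])⟩)
  | z2 r s =>
    obtain ⟨rfl, rfl⟩ := re e2
    rw [List.append_nil] at e1
    exact Or.inr (Or.inl ⟨.bk s, w, l1, [], by simp [← e1], h.2 (by simp)⟩)
  | d1 r s z =>
    obtain ⟨l, rfl, rfl⟩ := rt e2
    rw [List.append_nil] at e1
    exact Or.inr (Or.inl ⟨.dc r s, w, l1 ++ [z], l, by simp [← e1], by simpa [Gm] using h⟩)
  | d2 r s =>
    obtain ⟨l, rfl, rfl⟩ := rt e2
    rw [List.append_nil] at e1
    refine Or.inr (Or.inl ⟨.bk s, w, l1, none :: l, by simp [← e1], ?_⟩)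
    simp only [Gm]
    rw [cnt_none, cnt_del r]
    exact h (by simp [cnt])
  | b1 s z =>
    obtain rfl | ⟨l, x, rfl⟩ := List.eq_nil_or_concat l1
    · have : tok z ∈ w.map (Symbol.terminal (N := MN Q R)) := by simp at e1; simp [e1]
      simp [tok] at this
    · simp only [List.concat_eq_append, List.map_append, List.map_cons, List.map_nil,
        ← List.append_assoc] at e1
      obtain ⟨rfl, e3⟩ := List.append_inj' e1 rfl
      obtain rfl : x = z := by simpa [tok] using e3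
      exact Or.inr (Or.inl ⟨.bk s, w, l, x :: l2, by simp_all, by simpa [Gm] using h⟩)
  | b2 s a =>
    obtain rfl | ⟨l, x, rfl⟩ := List.eq_nil_or_concat l1
    · exact Or.inr (Or.inl ⟨.st s, w, [], l2, by simp_all, rfl, h⟩)
    · simp only [List.concat_eq_append, List.map_append, List.map_cons, List.map_nil,
        ← List.append_assoc] at e1
      simpa [tok] using (List.append_inj' e1 rfl).2
  | f1 z =>
    obtain ⟨l, rfl, rfl⟩ := rt e2
    obtain ⟨rfl, h⟩ := h
    exact Or.inr (Or.inl ⟨.fin, w ++ [none], [], l, by simp_all, rfl, by simpa using h⟩)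
  | f2 =>
    obtain ⟨rfl, rfl⟩ := re e2
    obtain ⟨rfl, h⟩ := h
    exact Or.inr (Or.inr ⟨w ++ [none, none], by simp_all, by simpa using h⟩)

omit [DecidableEq R] in
theorem mkM {x1 x2 y : List (MS Q R)} {H : Hd Q R} (h : MR Ed q0 qf x1 H x2 y)
    (p q : List (MS Q R)) {u v : List (MS Q R)} (e1 : u = p ++ (x1 ++ hd H :: x2) ++ q)
    (e2 : v = p ++ y ++ q) : (simM Ed q0 qf).Step u v :=
  ⟨(_, y), ⟨x1, H, x2, rfl, h⟩, p, q, e1, e2⟩

omit [DecidableEq R] in
theorem sw_r (H : Hd Q R) (l : List (Option R))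
    (h : ∀ z ∈ l, MR Ed q0 qf [] H [tok z] [tok z, hd H]) (q : List (MS Q R)) :
    ∀ p : List (MS Q R), ReflTransGen (simM Ed q0 qf).Step (p ++ hd H :: (l.map tok ++ q))
      (p ++ l.map tok ++ hd H :: q) := by
  induction l with
  | nil => intro p; simpa using ReflTransGen.refl
  | cons z l ih =>
    intro p
    refine .head (mkM Ed q0 qf (h z (by simp)) p (l.map tok ++ q) (by simp) rfl) ?_
    have := ih (fun z k => h z (by simp [k])) (p ++ [tok z])
    simpa using this

omit [DecidableEq R] in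
theorem sw_l (s : Q) (l : List (Option R)) (q : List (MS Q R)) :
    ∀ p : List (MS Q R), ReflTransGen (simM Ed q0 qf).Step (p ++ l.map tok ++ hd (.bk s) :: q)
      (p ++ hd (.bk s) :: (l.map tok ++ q)) := by
  induction l with
  | nil => intro p; simpa using ReflTransGen.refl
  | cons z l ih =>
    intro p
    refine .tail ?_ (mkM Ed q0 qf (.b1 s z) p (l.map tok ++ q) rfl (by simp))
    have := ih (p ++ [tok z])
    simpa using this

omit [DecidableEq R] in
theorem sw_b (s : Q) (l : List (Option R)) (q : List (MS Q R)) (w : List (Option (Fin 3)))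
    (hw : w ≠ []) : ReflTransGen (simM Ed q0 qf).Step
      (w.map .terminal ++ l.map tok ++ hd (.bk s) :: q) (w.map .terminal ++ hd (.st s) :: (l.map tok ++ q)) := by
  obtain rfl | ⟨w, a, rfl⟩ := List.eq_nil_or_concat w
  · exact absurd rfl hw
  · exact (sw_l Ed q0 qf s l q _).tail (mkM Ed q0 qf (.b2 s a) (w.map .terminal) (l.map tok ++ q)
      (by simp) (by simp))

theorem msim_run (c : Q × St R) (h : ReflTransGen (MStep Ed) (q0, fun _ => 0, []) c) :
    ∃ w l, w ≠ [] ∧ w.filterMap id = c.2.2 ∧ cnt l = c.2.1 ∧ ReflTransGen (simM Ed q0 qf).Step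
      [hd .s0] (w.map Symbol.terminal ++ hd (.st c.1) :: (l.map tok ++ [en])) := by
  induction h with
  | refl => exact ⟨[none], [], by simp, rfl, rfl, .single (mkM Ed q0 qf .ini [] [] rfl rfl)⟩
  | @tail b c _ k ih =>
    obtain ⟨q, σ, w0⟩ := b
    obtain ⟨q', s'⟩ := c
    obtain ⟨w, l, h0, rfl, rfl, h3⟩ := ih
    obtain ⟨i, g1, g2⟩ := k
    simp only at g1 g2 h3 ⊢
    cases i with
    | inc r =>
      cases g2
      exact ⟨w, some r :: l, h0, rfl, cnt_cons r l, h3.tail (mkM Ed q0 qf (.inc _ _ _ g1)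
        (w.map .terminal) (l.map tok ++ [en]) (by simp) (by simp))⟩
    | out a =>
      cases g2
      exact ⟨w ++ [some a], l, by simp, by simp, rfl, h3.tail (mkM Ed q0 qf (.out _ _ _ g1)
        (w.map .terminal) (l.map tok ++ [en]) (by simp) (by simp))⟩
    | nop =>
      cases g2
      exact ⟨w, l, h0, rfl, rfl, h3.tail (mkM Ed q0 qf (.nop _ _ g1)
        (w.map .terminal) (l.map tok ++ [en]) (by simp) (by simp))⟩
    | zero r =>
      obtain ⟨g2, rfl⟩ := g2
      refine ⟨w, l, h0, rfl, rfl, ((h3.tail (mkM Ed q0 qf (.zero _ _ _ g1)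
        (w.map .terminal) (l.map tok ++ [en]) (by simp) (by simp))).trans
        (sw_r Ed q0 qf (.zr r q') l (fun z hz => .z1 _ _ _ ?_) [en] (w.map .terminal))).trans (.head (mkM Ed q0 qf
          (.z2 r q') (w.map .terminal ++ l.map tok) [] (by simp) (by simp)) (sw_b Ed q0 qf q' l _ w h0))⟩
      rintro rfl
      exact List.count_eq_zero.1 g2 hz
    | dec r =>
      rcases g2 with rfl | ⟨g2, rfl⟩
      · exact ⟨w, l, h0, rfl, rfl, h3.tail (mkM Ed q0 qf (.skip _ _ _ g1)
          (w.map .terminal) (l.map tok ++ [en]) (by simp) (by simp))⟩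
      · obtain ⟨l1, l2, rfl⟩ := List.append_of_mem (List.count_pos_iff.1 g2)
        refine ⟨w, l1 ++ none :: l2, h0, rfl, by rw [cnt_none, cnt_del r], ((h3.tail (mkM Ed q0 qf
          (.dec _ _ _ g1) (w.map .terminal) _ (by simp; rfl) (by simp))).trans
          (sw_r Ed q0 qf (.dc r q') l1 (fun z _ => .d1 _ _ _) (tok (some r) :: (l2.map tok ++ [en]))
            (w.map .terminal))).trans (.head (mkM Ed q0 qf (.d2 r q') (w.map .terminal ++ l1.map tok)
            (l2.map tok ++ [en]) (by simp) rfl) ?_)⟩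
        simpa using sw_b Ed q0 qf q' l1 (tok none :: (l2.map tok ++ [en])) w h0

omit [DecidableEq R] in
theorem fin_run (l : List (Option R)) : ∀ w : List (Option (Fin 3)), ∃ w' : List (Option (Fin 3)),
    w'.filterMap id = w.filterMap id ∧ ReflTransGen (simM Ed q0 qf).Step
      (w.map Symbol.terminal ++ hd .fin :: (l.map tok ++ [en])) (w'.map .terminal) := by
  induction l with
  | nil =>
    exact fun w => ⟨w ++ [none, none], by simp,
      .single (mkM Ed q0 qf .f2 (w.map .terminal) [] (by simp) (by simp))⟩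
  | cons z l ih =>
    intro w
    obtain ⟨w', h1, h2⟩ := ih (w ++ [none])
    exact ⟨w', by simpa using h1, .head (mkM Ed q0 qf (.f1 z) (w.map .terminal) (l.map tok ++ [en])
      (by simp) (by simp)) h2⟩

theorem simM_lang : List.filterMap id '' (simM Ed q0 qf).lang = MLang Ed q0 qf := by
  ext w
  constructor
  · rintro ⟨w, h, rfl⟩
    have : ∀ u, ReflTransGen (simM Ed q0 qf).Step [hd .s0] u → MInv Ed q0 qf u := by
      intro u k
      induction k with
      | refl => exact Or.inl rfl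
      | tail _ k ih => exact minv_step Ed q0 qf ih k
    obtain e | ⟨H, w', l1, l2, e, -⟩ | ⟨w', e, g⟩ := this _ h
    · have : hd .s0 ∈ w.map (Symbol.terminal (N := MN Q R)) := by simp [e]
      simp [hd] at this
    · have : hd H ∈ w.map (Symbol.terminal (N := MN Q R)) := by simp [e]
      simp [hd] at this
    · rwa [(List.map_injective_iff.2 fun _ _ h => Symbol.terminal.inj h) e]
  · rintro ⟨σ, h⟩
    obtain ⟨w1, l, -, h1, -, h3⟩ := msim_run Ed q0 qf _ h
    obtain ⟨w2, h4, h5⟩ := fin_run Ed q0 qf l w1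
    exact ⟨w2, (h3.tail (mkM Ed q0 qf .stop (w1.map .terminal) (l.map tok ++ [en]) (by simp)
      (by simp))).trans h5, h4.trans h1⟩

end

theorem ctrl_map {Q A B : Type} (M : FA Q A) (C : Set (List Q)) (h : A → Option B) :
    (FA.mk M.s M.F {x | ∃ a, (x.1, a, x.2.2) ∈ M.R ∧ x.2.1 = a.bind h} : FA Q B).ctrl C =
      List.filterMap h '' M.ctrl C := by
  have e : ∀ a : Option A, a.toList.filterMap h = (a.bind h).toList := by
    rintro (_ | a)
    · rfl
    · cases k : h a <;> simp [k]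
  ext w
  constructor
  · rintro ⟨f, hf, α, hα, k⟩
    suffices ∃ w', w'.filterMap h = w ∧ ReflTransGen M.Move (M.s, w', []) (f, [], α) from
      this.imp fun w' g => ⟨⟨f, hf, α, hα, g.2⟩, g.1⟩
    change ∃ w', w'.filterMap h = (M.s, w, ([] : List Q)).2.1 ∧
      ReflTransGen M.Move ((M.s, w, ([] : List Q)).1, w', (M.s, w, []).2.2) (f, [], α)
    simp only at k
    generalize (M.s, w, ([] : List Q)) = c at k
    induction k using ReflTransGen.head_induction_on with
    | refl => exact ⟨[], rfl, .refl⟩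
    | head g _ ih =>
      obtain ⟨_, ⟨a, g1, rfl⟩, g2, g3⟩ := g
      obtain ⟨w', g4, g5⟩ := ih
      exact ⟨a.toList ++ w', by rw [g2, List.filterMap_append, e, g4], .head ⟨a, g1, rfl, g3⟩ g5⟩
  · rintro ⟨w, ⟨f, hf, α, hα, k⟩, rfl⟩
    refine ⟨f, hf, α, hα, ?_⟩
    change ReflTransGen _ ((M.s, w, ([] : List Q)).1, (M.s, w, ([] : List Q)).2.1.filterMap h,
      (M.s, w, ([] : List Q)).2.2) _
    generalize (M.s, w, ([] : List Q)) = c at k
    induction k using ReflTransGen.head_induction_on with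
    | refl => exact .refl
    | head g _ ih =>
      obtain ⟨a, g1, g2, g3⟩ := g
      exact .head ⟨a.bind h, ⟨a, g1, rfl⟩, by simp only [g2, List.filterMap_append, e], g3⟩ ih

def mstp (c : List (List ℕ × List ℕ)) (u v : List ℕ) : Prop :=
  ∃ r ∈ c, ∃ p ∈ subs u, ∃ q ∈ subs u, u = p ++ r.1 ++ q ∧ v = p ++ r.2 ++ q

theorem mstp_prim :
    PrimrecPred fun p : List (List ℕ × List ℕ) × List ℕ × List ℕ => mstp p.1 p.2.1 p.2.2 :=
  pex (by fun_prop) (pex (by fun_prop) (pex (by fun_prop) ((peq (by fun_prop) (by fun_prop)).and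
    (peq (by fun_prop) (by fun_prop)))))

theorem lang_ne {T N : Type} (G : MG T N) : [] ∉ G.lang := by
  have : ∀ u, ReflTransGen G.Step [Symbol.nonterminal G.start] u → 0 < u.length := by
    intro u k
    induction k with
    | refl => simp
    | tail _ k ih =>
      obtain ⟨r, hr, p, q, rfl, rfl⟩ := k
      have := G.mono r hr
      simp only [List.length_append] at ih ⊢; omega
  exact fun h => by simpa using this _ h

theorem sc_sep (𝓛 : Family) (h : ∀ (A : Type) [Fintype A], ∀ K ∈ CS A, [] ∉ K →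
    ∃ K' ∈ SCFA 𝓛 A, K' \ {[]} = K) : ∃ K ∈ SCFA 𝓛 (Fin 3), K ∉ CS (Fin 3) := by
  classical
  obtain ⟨L, ⟨Q, R, _, _, _, Ed, q0, qf, rfl⟩, h2⟩ := diag_mono mstp mstp_prim
  obtain ⟨_, ⟨Q', _, M, C, hC, rfl⟩, e⟩ := h _ (simM Ed q0 qf).lang
    ⟨_, inferInstance, simM Ed q0 qf, by simp [lang_ne]⟩ (lang_ne _)
  refine ⟨_, ⟨Q', _, _, C, hC, (ctrl_map M C id).symm⟩, ?_⟩
  rintro ⟨N', _, G', e0⟩
  obtain ⟨n, hn, k⟩ := h2 (Symbol (Fin 3) N') .terminal G'.Step [.nonterminal G'.start] (by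
    rintro _ _ ⟨r, hr, p, q, rfl, rfl⟩
    have := G'.mono r hr
    simp; omega) (by
    intro e he
    refine ⟨G'.fin.toFinset.toList.map fun r => (r.1.map e, r.2.map e), ?_, ?_⟩
    · rintro _ _ ⟨r, hr, p, q, rfl, rfl⟩
      exact ⟨_, List.mem_map.2 ⟨r, by simpa using hr, rfl⟩, p.map e, mem_subs.2 (by simp),
        q.map e, mem_subs.2 (List.Sublist.map _ (by simp)), by simp, by simp⟩
    · rintro u _ ⟨_, hr, p', -, q', -, e1, rfl⟩
      obtain ⟨r, hr2, rfl⟩ := List.mem_map.1 hr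
      obtain ⟨p, q, rfl, e2, rfl⟩ := List.map_eq_append_iff.1 e1
      obtain ⟨p, x, rfl, rfl, e3⟩ := List.map_eq_append_iff.1 e2
      obtain rfl := (List.map_injective_iff.2 he) e3
      exact ⟨p ++ r.2 ++ q, by simp, r, by simpa using hr2, p, q, rfl, rfl⟩)
  refine k (Iff.trans ?_ (Set.ext_iff.1 e0 (wd n n n)))
  have hw := wd_ne hn
  rw [← simM_lang]
  simp only [Set.mem_sdiff, Set.mem_singleton_iff, hw, not_false_eq_true, and_true, Set.mem_image]
  refine exists_congr fun w => and_congr_left fun g => ?_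
  have : w ≠ [] := by rintro rfl; exact hw g.symm
  simpa [this] using (Set.ext_iff.1 e w).symm

end Pool.Agent.H63.SC
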