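import Mathlib

set_option autoImplicit false

namespace Pool.Agent.H63.Santalo

open Finset

theorem step1 {ι : Type} [DecidableEq ι] (n : ℕ) (F : Finset ι) (a b : ι → Fin (n + 1) → ℝ)
    (H : ∀ S ⊆ F, S.card ≤ 2 ^ n * (2 * n + 1) →
      ∃ p v : Fin (n + 1) → ℝ, ∀ B ∈ S, ∃ t : ℝ, ∀ i, a B i ≤ p i + t * v i ∧ p i + t * v i ≤ b B i)
    (ε : ℝ) (hε : 0 < ε) :
    ∃ p v : Fin (n + 1) → ℝ, v ≠ 0 ∧ ∀ B ∈ F, ∃ t : ℝ, ∀ i,
      a B i - ε ≤ p i + t * v i ∧ p i + t * v i ≤ b B i + ε := by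
  classical
  let C : (Fin n → Bool) → ι → Set ((Fin n → ℝ) × (Fin n → ℝ)) := fun s B =>
    {x | ∃ t : ℝ, (a B 0 - ε ≤ t ∧ t ≤ b B 0 + ε) ∧ ∀ i : Fin n,
      if s i then 0 < x.1 i ∧ x.1 i * (a B i.succ - ε) + x.2 i ≤ t ∧ t ≤ x.1 i * (b B i.succ + ε) + x.2 i
      else x.1 i < 0 ∧ x.1 i * (b B i.succ + ε) + x.2 i ≤ t ∧ t ≤ x.1 i * (a B i.succ - ε) + x.2 i}
  have hconv : ∀ s B, Convex ℝ (C s B) := by
    rintro s B x ⟨t, ht, hx⟩ y ⟨u, hu, hy⟩ α β hα hβ hαβ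
    refine ⟨α * t + β * u, ⟨?_, ?_⟩, fun i => ?_⟩
    · have e : a B 0 - ε = α * (a B 0 - ε) + β * (a B 0 - ε) := by rw [← add_mul, hαβ, one_mul]
      rw [e]; gcongr; exacts [ht.1, hu.1]
    · have e : b B 0 + ε = α * (b B 0 + ε) + β * (b B 0 + ε) := by rw [← add_mul, hαβ, one_mul]
      rw [e]; gcongr; exacts [ht.2, hu.2]
    · have h1 := hx i
      have h2 := hy i
      simp only [Prod.fst_add, Prod.snd_add, Prod.smul_fst, Prod.smul_snd, Pi.add_apply,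
        Pi.smul_apply, smul_eq_mul]
      split_ifs at h1 h2 ⊢
      · refine ⟨?_, by nlinarith [mul_le_mul_of_nonneg_left h1.2.1 hα, mul_le_mul_of_nonneg_left h2.2.1 hβ],
          by nlinarith [mul_le_mul_of_nonneg_left h1.2.2 hα, mul_le_mul_of_nonneg_left h2.2.2 hβ]⟩
        have := convex_Ioi (𝕜 := ℝ) (0 : ℝ) h1.1 h2.1 hα hβ hαβ
        simpa using this
      · refine ⟨?_, by nlinarith [mul_le_mul_of_nonneg_left h1.2.1 hα, mul_le_mul_of_nonneg_left h2.2.1 hβ],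
          by nlinarith [mul_le_mul_of_nonneg_left h1.2.2 hα, mul_le_mul_of_nonneg_left h2.2.2 hβ]⟩
        have := convex_Iio (𝕜 := ℝ) (0 : ℝ) h1.1 h2.1 hα hβ hαβ
        simpa using this
  have hrank : Module.finrank ℝ ((Fin n → ℝ) × (Fin n → ℝ)) + 1 = 2 * n + 1 := by
    simp [Module.finrank_prod]; ring
  have hex : ∃ s, (⋂ B ∈ F, C s B).Nonempty := by
    by_contra hcon
    have h1 : ∀ s, ∃ I ⊆ F, I.card ≤ 2 * n + 1 ∧ ¬ (⋂ B ∈ I, C s B).Nonempty := by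
      intro s
      by_contra h2
      push Not at h2
      apply hcon
      refine ⟨s, Convex.helly_theorem' (𝕜 := ℝ) (fun B _ => hconv s B) fun I hI hc => ?_⟩
      rw [hrank] at hc
      exact h2 I hI hc
    choose I hI1 hI2 hI3 using h1
    obtain ⟨p, v, hpv⟩ := H (univ.biUnion I) (biUnion_subset.2 fun s _ => hI1 s) (by
      refine card_biUnion_le.trans ?_
      refine (sum_le_card_nsmul _ _ _ fun s _ => hI2 s).trans ?_
      simp)
    choose! t ht using hpv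
    obtain ⟨T, hT⟩ := ((univ.biUnion I).image fun B => |t B|).exists_le
    have hT' : ∀ B ∈ univ.biUnion I, |t B| ≤ |T| := fun B hB =>
      (hT _ (mem_image_of_mem _ hB)).trans (le_abs_self T)
    have hT0 := abs_nonneg T
    set η : ℝ := ε / (|T| + 1) with hη
    have hη0 : 0 < η := by positivity
    let w : Fin (n + 1) → ℝ := fun i => if v i = 0 then η else v i
    have hw : ∀ i, w i ≠ 0 := by
      intro i; simp only [w]; split_ifs with h
      exacts [hη0.ne', h]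
    have hin : ∀ B ∈ univ.biUnion I, ∀ i,
        a B i - ε ≤ p i + t B * w i ∧ p i + t B * w i ≤ b B i + ε := by
      intro B hB i
      have h1 := ht B hB i
      have h2 : |t B * η| ≤ ε := by
        rw [abs_mul, abs_of_pos hη0, hη, mul_div_assoc', div_le_iff₀ (by positivity)]
        have := hT' B hB
        nlinarith
      have h3 := abs_le.1 h2
      simp only [w]
      split_ifs with h
      · rw [h] at h1; constructor <;> linarith [h1.1, h1.2, h3.1, h3.2]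
      · constructor <;> linarith [h1.1, h1.2]
    let γ : Fin n → ℝ := fun i => w 0 / w i.succ
    let δ : Fin n → ℝ := fun i => p 0 - γ i * p i.succ
    have hγ : ∀ i, γ i ≠ 0 := fun i => div_ne_zero (hw _) (hw _)
    apply hI3 fun i => decide (0 < γ i)
    refine ⟨(γ, δ), Set.mem_iInter₂.2 fun B hB => ?_⟩
    have hB' : B ∈ univ.biUnion I := mem_biUnion.2 ⟨_, mem_univ _, hB⟩
    refine ⟨p 0 + t B * w 0, hin B hB' 0, fun i => ?_⟩
    have h1 := hin B hB' i.succ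
    have e : p 0 + t B * w 0 = γ i * (p i.succ + t B * w i.succ) + δ i := by
      have := hw i.succ
      simp only [δ, γ]; field_simp; ring
    rw [e]
    simp only [decide_eq_true_eq]
    split_ifs with h
    · exact ⟨h, by nlinarith [h1.1], by nlinarith [h1.2]⟩
    · have h' : γ i < 0 := lt_of_le_of_ne (not_lt.1 h) (hγ i)
      exact ⟨h', by nlinarith [h1.2], by nlinarith [h1.1]⟩
  obtain ⟨s, ⟨γ, δ⟩, hx⟩ := hex
  refine ⟨Fin.cons 0 fun i => -δ i / γ i, Fin.cons 1 fun i => 1 / γ i, ?_, fun B hB => ?_⟩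
  · intro h
    have := congrFun h 0
    simp at this
  · obtain ⟨t, ht, hx⟩ := Set.mem_iInter₂.1 hx B hB
    refine ⟨t, fun i => ?_⟩
    refine Fin.cases ?_ (fun i => ?_) i
    · simpa using ht
    · have h1 := hx i
      simp only [Fin.cons_succ]
      have e : -δ i / γ i + t * (1 / γ i) = (t - δ i) / γ i := by ring
      rw [e]
      split_ifs at h1
      · rw [le_div_iff₀ h1.1, div_le_iff₀ h1.1]
        constructor <;> linarith [h1.2.1, h1.2.2]
      · rw [le_div_iff_of_neg h1.1, div_le_iff_of_neg h1.1]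
        constructor <;> linarith [h1.2.1, h1.2.2]

theorem step2 {ι : Type} [DecidableEq ι] (d : ℕ) (F : Finset ι) (a b : ι → Fin d → ℝ)
    (H : ∀ ε : ℝ, 0 < ε → ∃ p v : Fin d → ℝ, v ≠ 0 ∧ ∀ B ∈ F, ∃ t : ℝ, ∀ i,
      a B i - ε ≤ p i + t * v i ∧ p i + t * v i ≤ b B i + ε) :
    ∃ p v : Fin d → ℝ, v ≠ 0 ∧ ∀ B ∈ F, ∃ t : ℝ, ∀ i,
      a B i ≤ p i + t * v i ∧ p i + t * v i ≤ b B i := by
  classical
  rcases F.eq_empty_or_nonempty with rfl | ⟨B0, hB0⟩
  · obtain ⟨p, v, hv, -⟩ := H 1 one_pos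
    exact ⟨p, v, hv, by simp⟩
  obtain ⟨R, hR⟩ := (F.image fun B => ‖a B‖ + ‖b B‖ + 1).exists_le
  have hR' : ∀ B ∈ F, ‖a B‖ + ‖b B‖ + 1 ≤ R := fun B hB => hR _ (mem_image_of_mem _ hB)
  have hR0 : 0 ≤ R := le_trans (by positivity) (hR' B0 hB0)
  have hbd : ∀ B ∈ F, ∀ ε : ℝ, ε ≤ 1 → ∀ x : Fin d → ℝ,
      (∀ i, a B i - ε ≤ x i ∧ x i ≤ b B i + ε) → ‖x‖ ≤ R := by
    intro B hB ε hε x hx
    rw [pi_norm_le_iff_of_nonneg hR0]
    intro i
    have h1 := norm_le_pi_norm (a B) i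
    have h2 := norm_le_pi_norm (b B) i
    rw [Real.norm_eq_abs] at h1 h2 ⊢
    have h3 := abs_le.1 h1
    have h4 := abs_le.1 h2
    have h5 := hR' B hB
    have h6 := norm_nonneg (a B)
    have h7 := norm_nonneg (b B)
    exact abs_le.2 ⟨by linarith [(hx i).1], by linarith [(hx i).2]⟩
  let K : Set ((Fin d → ℝ) × (Fin d → ℝ) × (F → ℝ)) :=
    Metric.closedBall 0 R ×ˢ Metric.sphere 0 1 ×ˢ Metric.closedBall 0 (2 * R)
  have hK : IsCompact K :=
    (isCompact_closedBall _ _).prod ((isCompact_sphere _ _).prod (isCompact_closedBall _ _))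
  let Z : ℕ → Set ((Fin d → ℝ) × (Fin d → ℝ) × (F → ℝ)) := fun k =>
    K ∩ {x | ∀ B : F, ∀ i, a B i - 1 / ((k : ℝ) + 1) ≤ x.1 i + x.2.2 B * x.2.1 i ∧
      x.1 i + x.2.2 B * x.2.1 i ≤ b B i + 1 / ((k : ℝ) + 1)}
  have hcl : ∀ k, IsClosed (Z k) := by
    intro k
    refine hK.isClosed.inter ?_
    simp only [Set.ofPred_forall, Set.ofPred_and]
    refine isClosed_iInter fun B => isClosed_iInter fun i => IsClosed.inter ?_ ?_
    · exact isClosed_le (by fun_prop) (by fun_prop)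
    · exact isClosed_le (by fun_prop) (by fun_prop)
  have hne : ∀ k, (Z k).Nonempty := by
    intro k
    have hk1 : 1 / ((k : ℝ) + 1) ≤ 1 := by
      rw [div_le_one (by positivity)]; linarith [Nat.cast_nonneg (α := ℝ) k]
    obtain ⟨p, v, hv, h⟩ := H (1 / ((k : ℝ) + 1)) (by positivity)
    choose! t ht using h
    have hv0 : 0 < ‖v‖ := norm_pos_iff.2 hv
    have hx : ∀ B ∈ F, ‖p + t B • v‖ ≤ R := fun B hB =>
      hbd B hB _ hk1 _ fun i => by simpa using ht B hB i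
    refine ⟨(p + t B0 • v, ‖v‖⁻¹ • v, fun B => (t B - t B0) * ‖v‖), ⟨?_, ?_, ?_⟩, ?_⟩
    · simpa using hx B0 hB0
    · simp [norm_smul, hv0.ne']
    · simp only [mem_closedBall_zero_iff]
      rw [pi_norm_le_iff_of_nonneg (by positivity)]
      intro B
      have e : (t B - t B0) • v = (p + t B • v) - (p + t B0 • v) := by rw [sub_smul]; abel
      have h1 : ‖(t B - t B0) • v‖ ≤ 2 * R := by
        rw [e]
        refine (norm_sub_le _ _).trans ?_
        linarith [hx B B.2, hx B0 hB0]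
      rw [norm_smul] at h1
      rw [norm_mul, norm_norm]; exact h1
    · intro B i
      have e : (p + t B0 • v) i + (t B - t B0) * ‖v‖ * (‖v‖⁻¹ • v) i = p i + t B * v i := by
        simp only [Pi.add_apply, Pi.smul_apply, smul_eq_mul]
        field_simp; ring
      simp only [e]
      exact ht B B.2 i
  have hdec : ∀ k, Z (k + 1) ⊆ Z k := by
    rintro k x ⟨hx1, hx2⟩
    refine ⟨hx1, fun B i => ?_⟩
    have h1 := hx2 B i
    have h2 : 1 / (((k + 1 : ℕ) : ℝ) + 1) ≤ 1 / ((k : ℝ) + 1) := by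
      apply one_div_le_one_div_of_le (by positivity); push_cast; linarith
    constructor <;> linarith [h1.1, h1.2]
  obtain ⟨x, hx⟩ := IsCompact.nonempty_iInter_of_sequence_nonempty_isCompact_isClosed Z hdec hne
    (hK.of_isClosed_subset (hcl 0) Set.inter_subset_left) hcl
  rw [Set.mem_iInter] at hx
  refine ⟨x.1, x.2.1, ?_, fun B hB => ⟨x.2.2 ⟨B, hB⟩, fun i => ⟨?_, ?_⟩⟩⟩
  · intro h
    have := (hx 0).1.2.1
    rw [h] at this
    simp at this
  · by_contra hlt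
    obtain ⟨k, hk⟩ := exists_nat_one_div_lt (sub_pos.2 (not_le.1 hlt))
    have := ((hx k).2 ⟨B, hB⟩ i).1
    simp only at this
    linarith
  · by_contra hlt
    obtain ⟨k, hk⟩ := exists_nat_one_div_lt (sub_pos.2 (not_le.1 hlt))
    have := ((hx k).2 ⟨B, hB⟩ i).2
    simp only at this
    linarith

theorem upper (d : ℕ) (hd : 1 ≤ d) (F : Finset (Set (Fin d → ℝ)))
    (hF : ∀ B ∈ F, ∃ a b : Fin d → ℝ, (∀ i, a i < b i) ∧ B = {x | ∀ i, a i ≤ x i ∧ x i ≤ b i})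
    (H : ∀ S ⊆ F, S.card ≤ 2 ^ (d - 1) * (2 * d - 1) →
      ∃ p v : Fin d → ℝ, v ≠ 0 ∧ ∀ B ∈ S, ∃ t : ℝ, p + t • v ∈ B) :
    ∃ p v : Fin d → ℝ, v ≠ 0 ∧ ∀ B ∈ F, ∃ t : ℝ, p + t • v ∈ B := by
  classical
  obtain ⟨n, rfl⟩ : ∃ n, d = n + 1 := ⟨d - 1, by omega⟩
  choose! a b hab hB using hF
  obtain ⟨p, v, hv, h⟩ := step2 (n + 1) F a b (step1 n F a b fun S hS hc => by
    obtain ⟨p, v, -, h⟩ := H S hS (by
      have e : 2 * (n + 1) - 1 = 2 * n + 1 := by omega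
      simpa [e] using hc)
    refine ⟨p, v, fun B hBS => ?_⟩
    obtain ⟨t, ht⟩ := h B hBS
    rw [hB B (hS hBS)] at ht
    exact ⟨t, fun i => by simpa using ht i⟩)
  refine ⟨p, v, hv, fun B hBF => ?_⟩
  obtain ⟨t, ht⟩ := h B hBF
  refine ⟨t, ?_⟩
  rw [hB B hBF]
  intro i
  simpa using ht i

end Pool.Agent.H63.Santalo
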