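import Pool.Agent.Lead.Sel.Spec

set_option autoImplicit false
open Complex Pool.Agent.Lead.Sel

namespace Pool.Agent.H63.Sel

/-- two sided power bounds for large `|t|` -/
def Cmp (f : ℝ → ℝ) (e1 e2 : ℝ) : Prop :=
  ∃ c C t0 : ℝ, 0 < c ∧ 1 ≤ t0 ∧ ∀ t : ℝ, t0 ≤ |t| → c * |t| ^ e1 ≤ f t ∧ f t ≤ C * |t| ^ e2

theorem Cmp.congr {f g : ℝ → ℝ} {e1 e2 : ℝ} (h : Cmp f e1 e2) (T : ℝ)
    (hfg : ∀ t, T ≤ |t| → f t = g t) : Cmp g e1 e2 := by
  obtain ⟨c, C, t0, hc, ht, h⟩ := h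
  refine ⟨c, C, max t0 T, hc, le_max_of_le_left ht, fun t htt => ?_⟩
  rw [← hfg t (le_of_max_le_right htt)]
  exact h t (le_of_max_le_left htt)

theorem Cmp.mul {f g : ℝ → ℝ} {e1 e2 e3 e4 : ℝ} (hf : Cmp f e1 e2) (hg : Cmp g e3 e4) :
    Cmp (fun t => f t * g t) (e1 + e3) (e2 + e4) := by
  obtain ⟨c, C, t0, hc, ht, h⟩ := hf
  obtain ⟨c', C', t0', hc', ht', h'⟩ := hg
  refine ⟨c * c', C * C', max t0 t0', mul_pos hc hc', le_max_of_le_left ht, fun t htt => ?_⟩
  obtain ⟨a1, a2⟩ := h t (le_of_max_le_left htt)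
  obtain ⟨b1, b2⟩ := h' t (le_of_max_le_right htt)
  have h0 : 0 < |t| := by linarith [le_of_max_le_left htt]
  have p1 : 0 ≤ c * |t| ^ e1 := by positivity
  have p3 : 0 ≤ c' * |t| ^ e3 := by positivity
  rw [Real.rpow_add h0, Real.rpow_add h0]
  constructor
  · calc _ = (c * |t| ^ e1) * (c' * |t| ^ e3) := by ring
      _ ≤ _ := mul_le_mul a1 b1 p3 (p1.trans a1)
  · calc _ ≤ (C * |t| ^ e2) * (C' * |t| ^ e4) := mul_le_mul a2 b2 (p3.trans b1) ((p1.trans a1).trans a2)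
      _ = _ := by ring

theorem Cmp.inv {f : ℝ → ℝ} {e1 e2 : ℝ} (hf : Cmp f e1 e2) :
    Cmp (fun t => (f t)⁻¹) (-e2) (-e1) := by
  obtain ⟨c, C, t0, hc, ht, h⟩ := hf
  have hC : 0 < C := by
    obtain ⟨a1, a2⟩ := h t0 (le_abs_self t0)
    have h0 : 0 < |t0| := by linarith [le_abs_self t0]
    have : 0 < C * |t0| ^ e2 := lt_of_lt_of_le (by positivity) (a1.trans a2)
    by_contra hh
    have := mul_nonpos_of_nonpos_of_nonneg (not_lt.1 hh) (by positivity : 0 ≤ |t0| ^ e2)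
    linarith
  refine ⟨C⁻¹, c⁻¹, t0, by positivity, ht, fun t htt => ?_⟩
  obtain ⟨a1, a2⟩ := h t htt
  have h0 : 0 < |t| := by linarith
  have p1 : 0 < c * |t| ^ e1 := by positivity
  rw [Real.rpow_neg h0.le, Real.rpow_neg h0.le, ← mul_inv, ← mul_inv]
  exact ⟨inv_anti₀ (p1.trans_le a1) a2, inv_anti₀ p1 a1⟩

theorem Cmp.mono {f : ℝ → ℝ} {e1 e2 e3 e4 : ℝ} (hf : Cmp f e1 e2) (h1 : e3 ≤ e1) (h2 : e2 ≤ e4) :
    Cmp f e3 e4 := by
  obtain ⟨c, C, t0, hc, ht, h⟩ := hf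
  refine ⟨c, max C 0, t0, hc, ht, fun t htt => ?_⟩
  obtain ⟨a1, a2⟩ := h t htt
  have h0 : 1 ≤ |t| := ht.trans htt
  constructor
  · exact le_trans (mul_le_mul_of_nonneg_left (Real.rpow_le_rpow_of_exponent_le h0 h1) hc.le) a1
  · exact a2.trans (mul_le_mul (le_max_left _ _) (Real.rpow_le_rpow_of_exponent_le h0 h2)
      (by positivity) (le_max_right _ _))

theorem cmp_bdd {f : ℝ → ℝ} {c C : ℝ} (hc : 0 < c) (h : ∀ t, c ≤ f t ∧ f t ≤ C) : Cmp f 0 0 :=
  ⟨c, C, 1, hc, le_rfl, fun t _ => by simpa using h t⟩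

theorem cmp_prod {ι : Type} (s : Finset ι) (f : ι → ℝ → ℝ) (e1 e2 : ι → ℝ)
    (h : ∀ j ∈ s, Cmp (f j) (e1 j) (e2 j)) :
    Cmp (fun t => ∏ j ∈ s, f j t) (∑ j ∈ s, e1 j) (∑ j ∈ s, e2 j) := by
  classical
  induction s using Finset.induction_on with
  | empty => simpa using cmp_bdd (f := fun _ => 1) (C := 1) one_pos (fun _ => ⟨le_rfl, le_rfl⟩)
  | insert a s ha ih =>
    simp only [Finset.prod_insert ha, Finset.sum_insert ha]
    exact (h a (Finset.mem_insert_self _ _)).mul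
      (ih fun j hj => h j (Finset.mem_insert_of_mem hj))

theorem Cmp.pow {f : ℝ → ℝ} (hf : Cmp f 1 1) (m : ℕ) : Cmp (fun t => f t ^ m) m m := by
  have := cmp_prod (Finset.range m) (fun _ => f) (fun _ => 1) (fun _ => 1) (fun _ _ => hf)
  simpa using this

theorem Cmp.le {f : ℝ → ℝ} {e1 e2 e3 e4 : ℝ} (h1 : Cmp f e1 e2) (h2 : Cmp f e3 e4) : e1 ≤ e4 := by
  obtain ⟨c, C, t0, hc, ht, h⟩ := h1
  obtain ⟨c', C', t0', hc', ht', h'⟩ := h2
  by_contra hcon
  push Not at hcon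
  have hl := tendsto_rpow_atTop (sub_pos.2 hcon)
  obtain ⟨t, h3, h4, h5⟩ := ((hl.eventually_gt_atTop (C' / c)).and
    ((Filter.eventually_ge_atTop t0).and (Filter.eventually_ge_atTop t0'))).exists
  have h0 : 0 < t := by linarith
  have a1 := (h t (by rwa [abs_of_pos h0])).1
  have a2 := (h' t (by rwa [abs_of_pos h0])).2
  rw [abs_of_pos h0] at a1 a2
  rw [Real.rpow_sub h0, div_lt_div_iff₀ hc (by positivity)] at h3
  linarith

theorem cmp_affine (x : ℝ) : Cmp (fun t => ‖(x : ℂ) + t * I‖) 1 1 := by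
  refine ⟨1, |x| + 1, 1, one_pos, le_rfl, fun t ht => ?_⟩
  rw [Real.rpow_one, one_mul]
  constructor
  · simpa using Complex.abs_im_le_norm ((x : ℂ) + t * I)
  · have := Complex.norm_le_abs_re_add_abs_im ((x : ℂ) + t * I)
    simp at this
    nlinarith [abs_nonneg x]

theorem cmp_rpow {l : ℝ} (hl : 0 < l) (b e : ℝ) : Cmp (fun t => |l * t + b| ^ e) e e := by
  refine ⟨min ((l / 2) ^ e) ((2 * l) ^ e), max ((l / 2) ^ e) ((2 * l) ^ e), max 1 (2 * |b| / l),
    by positivity, le_max_left _ _, fun t ht => ?_⟩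
  have h0 : 0 < |t| := by linarith [le_of_max_le_left ht]
  have h1 : 2 * |b| ≤ |t| * l := (div_le_iff₀ hl).1 (le_of_max_le_right ht)
  have h2 : |l * t| = l * |t| := by rw [abs_mul, abs_of_pos hl]
  have a1 : l / 2 * |t| ≤ |l * t + b| := by
    have := abs_add_le (l * t + b) (-b)
    rw [add_neg_cancel_right, abs_neg, h2] at this
    linarith
  have a2 : |l * t + b| ≤ 2 * l * |t| := by
    have := abs_add_le (l * t) b
    rw [h2] at this
    nlinarith [abs_nonneg b]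
  have p1 : 0 < l / 2 * |t| := by positivity
  have p2 : 0 ≤ |t| ^ e := by positivity
  have e1 : (l / 2 * |t|) ^ e = (l / 2) ^ e * |t| ^ e := Real.mul_rpow (by positivity) h0.le
  have e2 : (2 * l * |t|) ^ e = (2 * l) ^ e * |t| ^ e := Real.mul_rpow (by positivity) h0.le
  rcases le_total 0 e with he | he
  · exact ⟨le_trans (mul_le_mul_of_nonneg_right (min_le_left _ _) p2)
        (e1 ▸ Real.rpow_le_rpow p1.le a1 he),
      le_trans (e2 ▸ Real.rpow_le_rpow (abs_nonneg _) a2 he)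
        (mul_le_mul_of_nonneg_right (le_max_right _ _) p2)⟩
  · exact ⟨le_trans (mul_le_mul_of_nonneg_right (min_le_right _ _) p2)
        (e2 ▸ Real.rpow_le_rpow_of_nonpos (p1.trans_le a1) a2 he),
      le_trans (e1 ▸ Real.rpow_le_rpow_of_nonpos p1 a1 he)
        (mul_le_mul_of_nonneg_right (le_max_left _ _) p2)⟩

theorem cmp_Gamma (g3 : G3) {l : ℝ} (hl : 0 < l) (b x : ℝ) :
    Cmp (fun t => ‖Complex.Gamma (x + ((l * t + b : ℝ) : ℂ) * I)‖ *
      Real.exp (Real.pi * |l * t + b| / 2)) (x - 3 / 2) (x + 1 / 2) := by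
  obtain ⟨c, C, hc, hC, h⟩ := g3 x x
  obtain ⟨c1, C1, t1, hc1, ht1, h1⟩ := cmp_rpow hl b (x - 3 / 2)
  obtain ⟨c2, C2, t2, hc2, ht2, h2⟩ := cmp_rpow hl b (x + 1 / 2)
  refine ⟨c * c1, C * C2, max (max t1 t2) ((1 + |b|) / l), by positivity,
    le_max_of_le_left (le_max_of_le_left ht1), fun t ht => ?_⟩
  have a1 := (h1 t (le_of_max_le_left (le_of_max_le_left ht))).1
  have a2 := (h2 t (le_of_max_le_right (le_of_max_le_left ht))).2
  have a3 : 1 + |b| ≤ |t| * l := (div_le_iff₀ hl).1 (le_of_max_le_right ht)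
  have a4 : 1 ≤ |l * t + b| := by
    have := abs_add_le (l * t + b) (-b)
    rw [add_neg_cancel_right, abs_neg, abs_mul, abs_of_pos hl] at this
    linarith
  obtain ⟨b1, b2⟩ := h x (l * t + b) le_rfl le_rfl a4
  have hE : 0 < Real.exp (Real.pi * |l * t + b| / 2) := Real.exp_pos _
  rw [Real.exp_neg, ← div_eq_mul_inv] at b1 b2
  rw [div_le_iff₀ hE] at b1
  rw [le_div_iff₀ hE] at b2
  simp only at a1 a2 ⊢
  constructor
  · refine le_trans ?_ b1
    rw [mul_assoc]; gcongr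
  · refine le_trans b2 ?_
    rw [mul_assoc]; gcongr

theorem Ram.summable {a : ℕ → ℂ} (h : Ram a) {s : ℂ} (hs : 1 < s.re) : LSeriesSummable a s := by
  obtain ⟨C, hC⟩ := h ((s.re - 1) / 2) (by linarith)
  refine LSeriesSummable_of_le_const_mul_rpow (x := (s.re + 1) / 2) (by linarith)
    ⟨C, fun n hn => ?_⟩
  rw [show (s.re + 1) / 2 - 1 = (s.re - 1) / 2 by ring]
  exact hC n (Nat.one_le_iff_ne_zero.2 hn)

theorem lseries_near_one {a : ℕ → ℂ} (h1 : a 1 = 1) (h : Ram a) :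
    ∃ σ0 : ℝ, 1 < σ0 ∧ ∀ s : ℂ, σ0 ≤ s.re → 1 / 2 ≤ ‖LSeries a s‖ ∧ ‖LSeries a s‖ ≤ 3 / 2 := by
  have hs2 : Summable (fun n => ‖LSeries.term a 2 n‖) := (Ram.summable h (by norm_num)).norm
  set B := ∑' n, ‖LSeries.term a 2 n‖ with hB
  obtain ⟨k, hk⟩ := pow_unbounded_of_one_lt (2 * B) (by norm_num : (1 : ℝ) < 2)
  refine ⟨2 + k, by have : (0 : ℝ) ≤ k := Nat.cast_nonneg k; linarith, fun s hs => ?_⟩
  have hk0 : (0 : ℝ) ≤ k := Nat.cast_nonneg k
  have hsum : Summable (LSeries.term a s) := Ram.summable h (by linarith)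
  have key : ‖LSeries a s - 1‖ ≤ 1 / 2 := by
    rw [LSeries, hsum.tsum_eq_add_tsum_ite 1, LSeries.term_of_ne_zero one_ne_zero, h1]
    simp only [Nat.cast_one, one_cpow, div_one, add_sub_cancel_left]
    have hb : ∀ n : ℕ, ‖(if n = 1 then 0 else LSeries.term a s n)‖ ≤
        ‖LSeries.term a 2 n‖ / 2 ^ k := by
      intro n
      split_ifs with hn
      · rw [norm_zero]; positivity
      · rw [LSeries.norm_term_eq, LSeries.norm_term_eq]
        split_ifs with h0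
        · simp
        · have hn2 : (2 : ℝ) ≤ n := by exact_mod_cast (by omega : 2 ≤ n)
          rw [div_div]
          apply div_le_div_of_nonneg_left (norm_nonneg _) (by positivity)
          calc (n : ℝ) ^ (2 : ℂ).re * 2 ^ k ≤ (n : ℝ) ^ (2 : ℂ).re * (n : ℝ) ^ k := by gcongr
            _ = (n : ℝ) ^ ((2 : ℝ) + k) := by
                rw [Real.rpow_add (by linarith), Real.rpow_natCast]; simp
            _ ≤ _ := Real.rpow_le_rpow_of_exponent_le (by linarith) hs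
    refine le_trans (tsum_of_norm_bounded (hs2.div_const (2 ^ k)).hasSum hb) ?_
    rw [tsum_div_const, ← hB, div_le_iff₀ (by positivity)]
    linarith
  constructor
  · have := norm_sub_norm_le (1 : ℂ) (1 - LSeries a s)
    rw [sub_sub_cancel, norm_one, norm_sub_rev] at this
    linarith
  · have := norm_add_le (LSeries a s - 1) 1
    rw [sub_add_cancel, norm_one] at this
    linarith

theorem entire_ext {F G : ℂ → ℂ} (hF : Differentiable ℂ F) (hG : Differentiable ℂ G) {U : Set ℂ}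
    (hU : IsOpen U) {z : ℂ} (hz : z ∈ U) (h : ∀ s ∈ U, F s = G s) : F = G :=
  AnalyticOnNhd.eq_of_eventuallyEq (z₀ := z) (hF.differentiableOn.analyticOnNhd isOpen_univ)
    (hG.differentiableOn.analyticOnNhd isOpen_univ)
    (Filter.eventually_of_mem (hU.mem_nhds hz) h)

theorem fe_entire {G : ℂ → ℂ} (hG : Differentiable ℂ G) {Q : ℝ} (hQ : 0 < Q) {k m : ℕ}
    {lam : Fin k → ℝ} {μ : Fin k → ℂ} {ω : ℂ} (hl : ∀ j, 0 < lam j) (hμ : ∀ j, 0 ≤ (μ j).re)
    (h : ∀ s : ℂ, 0 < s.re → s.re < 1 →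
      (Q : ℂ) ^ s * (∏ j, Complex.Gamma ((lam j : ℂ) * s + μ j)) * (G s / (s - 1) ^ m) =
      ω * starRingEnd ℂ ((Q : ℂ) ^ (1 - starRingEnd ℂ s)
        * (∏ j, Complex.Gamma ((lam j : ℂ) * (1 - starRingEnd ℂ s) + μ j))
        * (G (1 - starRingEnd ℂ s) / ((1 - starRingEnd ℂ s) - 1) ^ m))) (s : ℂ) :
    (Q : ℂ) ^ s * G s * (-s) ^ m *
        ∏ j, (Complex.Gamma ((lam j : ℂ) * (1 - s) + starRingEnd ℂ (μ j)))⁻¹ =
      ω * (Q : ℂ) ^ (1 - s) * starRingEnd ℂ (G (1 - starRingEnd ℂ s)) * (s - 1) ^ m *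
        ∏ j, (Complex.Gamma ((lam j : ℂ) * s + μ j))⁻¹ := by
  have hQ' : (Q : ℂ) ≠ 0 := by exact_mod_cast hQ.ne'
  have d1 : ∀ α β : ℂ, Differentiable ℂ (fun s : ℂ => (Complex.Gamma (α * s + β))⁻¹) := fun α β =>
    Complex.differentiable_one_div_Gamma.comp (by fun_prop)
  have d2 : Differentiable ℂ (fun s : ℂ => starRingEnd ℂ (G (1 - starRingEnd ℂ s))) := by
    intro z
    have : DifferentiableAt ℂ (fun w => G (1 - w)) (starRingEnd ℂ z) := by fun_prop
    have := this.conj_conj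
    rwa [Complex.conj_conj] at this
  refine congrFun (entire_ext (F := fun s => (Q : ℂ) ^ s * G s * (-s) ^ m *
        ∏ j, (Complex.Gamma ((lam j : ℂ) * (1 - s) + starRingEnd ℂ (μ j)))⁻¹)
      (G := fun s => ω * (Q : ℂ) ^ (1 - s) * starRingEnd ℂ (G (1 - starRingEnd ℂ s)) * (s - 1) ^ m *
        ∏ j, (Complex.Gamma ((lam j : ℂ) * s + μ j))⁻¹) ?_ ?_
      (U := {s : ℂ | 0 < s.re ∧ s.re < 1}) ?_ (z := 1 / 2) ?_ ?_) s
  · refine (((differentiable_id.const_cpow (Or.inl hQ')).mul hG).mul (by fun_prop)).mul ?_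
    refine Differentiable.fun_finsetProd fun j _ => ?_
    have := d1 (-(lam j : ℂ)) ((lam j : ℂ) + starRingEnd ℂ (μ j))
    have e : ∀ s : ℂ, (lam j : ℂ) * (1 - s) + starRingEnd ℂ (μ j) =
        -(lam j : ℂ) * s + ((lam j : ℂ) + starRingEnd ℂ (μ j)) := fun s => by ring
    simp only [e]
    exact this
  · refine ((((differentiable_const ω).mul (((differentiable_const 1).sub
      differentiable_id).const_cpow (Or.inl hQ'))).mul d2).mul (by fun_prop)).mul ?_
    exact Differentiable.fun_finsetProd fun j _ => d1 _ _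
  · exact (isOpen_lt continuous_const Complex.continuous_re).inter
      (isOpen_lt Complex.continuous_re continuous_const)
  · constructor <;> norm_num
  · rintro s ⟨s0, s1⟩
    have := h s s0 s1
    have c1 : starRingEnd ℂ ((Q : ℂ) ^ (1 - starRingEnd ℂ s)) = (Q : ℂ) ^ (1 - s) := by
      have := Complex.cpow_conj (Q : ℂ) (1 - starRingEnd ℂ s) (by
        rw [Complex.arg_ofReal_of_nonneg hQ.le]; exact Real.pi_ne_zero.symm)
      rw [Complex.conj_ofReal] at this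
      rw [← this]; simp
    have c2 : ∀ j, starRingEnd ℂ (Complex.Gamma ((lam j : ℂ) * (1 - starRingEnd ℂ s) + μ j)) =
        Complex.Gamma ((lam j : ℂ) * (1 - s) + starRingEnd ℂ (μ j)) := fun j => by
      rw [← Complex.Gamma_conj]; simp
    simp only [map_mul, map_prod, map_div₀, map_pow, c1, c2, map_sub, map_one, Complex.conj_conj]
      at this
    have n1 : ∏ j, Complex.Gamma ((lam j : ℂ) * s + μ j) ≠ 0 :=
      Finset.prod_ne_zero_iff.2 fun j _ => Complex.Gamma_ne_zero_of_re_pos (by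
        have := mul_pos (hl j) s0; have := hμ j; simp; linarith)
    have n2 : ∏ j, Complex.Gamma ((lam j : ℂ) * (1 - s) + starRingEnd ℂ (μ j)) ≠ 0 :=
      Finset.prod_ne_zero_iff.2 fun j _ => Complex.Gamma_ne_zero_of_re_pos (by
        have := mul_pos (hl j) (sub_pos.2 s1); have := hμ j; simp; linarith)
    have n3 : (s - 1) ^ m ≠ 0 := pow_ne_zero _ (fun h => by
      have := congrArg Complex.re h; simp at this; linarith)
    have n4 : (-s) ^ m ≠ 0 := pow_ne_zero _ (fun h => by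
      have := congrArg Complex.re h; simp at this; linarith)
    rw [show (1 - s - 1) = -s by ring] at this
    simp only [Finset.prod_inv_distrib]
    generalize ∏ j, Complex.Gamma ((lam j : ℂ) * s + μ j) = X at *
    generalize ∏ j, Complex.Gamma ((lam j : ℂ) * (1 - s) + starRingEnd ℂ (μ j)) = Y at *
    generalize (s - 1) ^ m = U at *
    generalize (-s) ^ m = W at *
    field_simp at this ⊢
    linear_combination this

theorem cg0' (g3 : G3) (a : ℕ → ℂ) (D : ℝ) (m : ℕ) (G : ℂ → ℂ) (h1 : a 1 = 1) (hR : Ram a)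
    (hS : SelData a D m G) : ∃ E R0 : ℝ, ∀ R : ℝ, R0 ≤ R →
      Cmp (fun t => ‖G (-R + t * I)‖) (D * R - E) (D * R + E) := by
  obtain ⟨hG, -, hL, Q, hQ, k, lam, μ, ω, hl, hμ, hω, hD, hfe⟩ := hS
  obtain ⟨σ0, hσ, hb⟩ := lseries_near_one h1 hR
  have hD0 : 0 ≤ D := by
    rw [hD]; exact mul_nonneg zero_le_two (Finset.sum_nonneg fun j _ => (hl j).le)
  refine ⟨D / 2 + 2 * k + m, σ0 - 1, fun R hR' => ?_⟩
  have A1 := cmp_prod Finset.univ _ _ _
    (fun j _ => cmp_Gamma g3 (hl j) (μ j).im (lam j * (1 + R) + (μ j).re))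
  have A2 := (cmp_prod Finset.univ _ _ _
    (fun j _ => cmp_Gamma g3 (hl j) (μ j).im (-(lam j * R) + (μ j).re))).inv
  have A3 := (cmp_affine (-R - 1)).pow m
  have A4 : Cmp (fun t : ℝ => Q ^ (1 + 2 * R) * ‖LSeries a (1 + R + t * I)‖) 0 0 := by
    have hq : 0 < Q ^ (1 + 2 * R) := by positivity
    refine cmp_bdd (c := Q ^ (1 + 2 * R) * (1 / 2)) (C := Q ^ (1 + 2 * R) * (3 / 2))
      (by positivity) fun t => ?_
    obtain ⟨b1, b2⟩ := hb (1 + R + t * I) (by simp; linarith)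
    constructor <;> gcongr
  refine ((((A1.mul A2).mul A3).mul A4).mono ?_ ?_).congr 1 fun t ht => ?_
  · simp only [Finset.sum_add_distrib, Finset.sum_sub_distrib, Finset.sum_neg_distrib,
      ← Finset.sum_mul, Finset.sum_const, Finset.card_univ, Fintype.card_fin, nsmul_eq_mul]
    have : (0 : ℝ) ≤ m := Nat.cast_nonneg m
    rw [hD] at hD0 ⊢
    nlinarith
  · simp only [Finset.sum_add_distrib, Finset.sum_sub_distrib, Finset.sum_neg_distrib,
      ← Finset.sum_mul, Finset.sum_const, Finset.card_univ, Fintype.card_fin, nsmul_eq_mul]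
    rw [hD]
    nlinarith
  · have t0 : t ≠ 0 := fun h => by rw [h] at ht; norm_num at ht
    have e := congrArg norm (fe_entire hG hQ hl hμ hfe (-R + t * I))
    have e1 : 1 - starRingEnd ℂ (-R + t * I) = 1 + R + t * I := by simp; ring
    have e2 : ∀ j, ‖Complex.Gamma ((lam j : ℂ) * (1 - (-R + t * I)) + starRingEnd ℂ (μ j))‖ =
        ‖Complex.Gamma (((lam j * (1 + R) + (μ j).re : ℝ) : ℂ) +
          ((lam j * t + (μ j).im : ℝ) : ℂ) * I)‖ := fun j => by
      rw [← Complex.norm_conj, ← Complex.Gamma_conj]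
      congr 2
      apply Complex.ext <;> simp
    have e3 : ∀ j, (lam j : ℂ) * (-R + t * I) + μ j =
        ((-(lam j * R) + (μ j).re : ℝ) : ℂ) + ((lam j * t + (μ j).im : ℝ) : ℂ) * I := fun j => by
      apply Complex.ext <;> simp
    have e4 : ‖(1 + R + t * I - 1 : ℂ)‖ = ‖-(-R + t * I : ℂ)‖ := by
      rw [← Complex.norm_conj]; congr 1; simp; ring
    have e5 : (-R + t * I - 1 : ℂ) = ((-R - 1 : ℝ) : ℂ) + t * I := by push_cast; ring
    rw [e1, hL (1 + R + t * I) (by simp; linarith)] at e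
    simp only [norm_mul, norm_pow, norm_prod, norm_inv, Complex.norm_conj, hω, e2, e3, e4, e5,
      Complex.norm_cpow_eq_rpow_re_of_pos hQ, Finset.prod_inv_distrib] at e
    have r1 : (-R + t * I : ℂ).re = -R := by simp
    have r2 : (1 - (-R + t * I) : ℂ).re = 1 + 2 * R + -R := by simp; ring
    rw [r1, r2, Real.rpow_add hQ] at e
    have n1 : ‖-(-R + t * I : ℂ)‖ ^ m ≠ 0 := pow_ne_zero _ (norm_ne_zero_iff.2 fun h => by
      have := congrArg Complex.im h; simp at this; exact t0 this)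
    have n2 : Q ^ (-R) ≠ 0 := by positivity
    have n3 : ∏ j, ‖Complex.Gamma (((lam j * (1 + R) + (μ j).re : ℝ) : ℂ) +
          ((lam j * t + (μ j).im : ℝ) : ℂ) * I)‖ ≠ 0 :=
      Finset.prod_ne_zero_iff.2 fun j _ => norm_ne_zero_iff.2
        (Complex.Gamma_ne_zero_of_re_pos (by
          have := mul_pos (hl j) (by linarith : 0 < 1 + R); have := hμ j; simp; linarith))
    have n4 : ∏ j, Real.exp (Real.pi * |lam j * t + (μ j).im| / 2) ≠ 0 :=
      Finset.prod_ne_zero_iff.2 fun j _ => (Real.exp_pos _).ne'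
    simp only [Finset.prod_mul_distrib, mul_inv]
    generalize ∏ j, ‖Complex.Gamma (((-(lam j * R) + (μ j).re : ℝ) : ℂ) +
          ((lam j * t + (μ j).im : ℝ) : ℂ) * I)‖ = Y at *
    generalize ∏ j, ‖Complex.Gamma (((lam j * (1 + R) + (μ j).re : ℝ) : ℂ) +
          ((lam j * t + (μ j).im : ℝ) : ℂ) * I)‖ = X at *
    generalize Y⁻¹ = Z at *
    generalize ∏ j, Real.exp (Real.pi * |lam j * t + (μ j).im| / 2) = W at *
    field_simp at e ⊢
    linear_combination -e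

theorem cg0 (g3 : G3) : CG0 := fun a D m G h1 hR hS => cg0' g3 a D m G h1 hR hS

end Pool.Agent.H63.Sel
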