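import Mathlib

set_option autoImplicit false

namespace Pool.Agent.H63.Sidon2

variable {F : Type} [Field F]

lemma quad_zero {A B C x y z : F} (hxy : x ≠ y) (hxz : x ≠ z) (hyz : y ≠ z)
    (h1 : A * x ^ 2 + B * x + C = 0) (h2 : A * y ^ 2 + B * y + C = 0)
    (h3 : A * z ^ 2 + B * z + C = 0) : A = 0 ∧ B = 0 ∧ C = 0 := by
  have e1 : A * (x + y) + B = 0 := by
    apply mul_left_cancel₀ (sub_ne_zero.2 hxy); linear_combination h1 - h2
  have e2 : A * (x + z) + B = 0 := by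
    apply mul_left_cancel₀ (sub_ne_zero.2 hxz); linear_combination h1 - h3
  have e3 : A = 0 := by
    apply mul_left_cancel₀ (sub_ne_zero.2 hyz); linear_combination e1 - e2
  have e4 : B = 0 := by rw [e3] at e1; simpa using e1
  refine ⟨e3, e4, ?_⟩
  rw [e3, e4] at h1; simpa using h1

lemma pair_eq {a b c d : F} (h1 : a + b = c + d) (h2 : a * b = c * d) :
    (a = c ∧ b = d) ∨ (a = d ∧ b = c) := by
  have : (a - c) * (a - d) = 0 := by linear_combination a * h1 - h2
  rcases mul_eq_zero.1 this with h | h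
  · left; have := sub_eq_zero.1 h; exact ⟨this, by linear_combination h1 - this⟩
  · right; have := sub_eq_zero.1 h; exact ⟨this, by linear_combination h1 - this⟩

/-- Bose Chowla -/
lemma bose (τ : F →+* F) {θ a b c d : F} (hθ : τ θ ≠ θ) (ha : τ a = a) (hb : τ b = b)
    (hc : τ c = c) (hd : τ d = d) (h : (θ + a) * (θ + b) = (θ + c) * (θ + d)) :
    (a = c ∧ b = d) ∨ (a = d ∧ b = c) := by
  have h' := congrArg τ h
  simp only [map_mul, map_add, ha, hb, hc, hd] at h'
  have e1 : a + b = c + d := by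
    apply mul_left_cancel₀ (sub_ne_zero.2 hθ); linear_combination h' - h
  exact pair_eq e1 (by linear_combination h - θ * e1)

lemma ne_zero_of_fix (τ : F →+* F) {θ a : F} (hθ : τ θ ≠ θ) (ha : τ a = a) : θ + a ≠ 0 := by
  intro h
  have h' := congrArg τ h
  simp only [map_add, ha, map_zero] at h'
  exact hθ (by linear_combination h' - h)

/-- Singer -/
lemma singer (σ : F →+* F) {η a b c d : F} (h3 : σ (σ (σ η)) = η) (hη : σ η ≠ η) (ha : σ a = a)
    (hb : σ b = b) (hc : σ c = c) (hd : σ d = d)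
    (h : (σ η + a) / (η + a) * ((σ η + b) / (η + b)) =
      (σ η + c) / (η + c) * ((σ η + d) / (η + d))) :
    (a = c ∧ b = d) ∨ (a = d ∧ b = c) := by
  have na := ne_zero_of_fix σ hη ha
  have nb := ne_zero_of_fix σ hη hb
  have nc := ne_zero_of_fix σ hη hc
  have nd := ne_zero_of_fix σ hη hd
  have nc' : σ η + c ≠ 0 := by
    have := (map_ne_zero σ).2 nc; rwa [map_add, hc] at this
  have nd' : σ η + d ≠ 0 := by
    have := (map_ne_zero σ).2 nd; rwa [map_add, hd] at this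
  set κ := (η + a) * (η + b) / ((η + c) * (η + d)) with hκ
  have hκσ : σ κ = κ := by
    rw [hκ]; simp only [map_div₀, map_mul, map_add, ha, hb, hc, hd]
    field_simp
    field_simp at h
    linear_combination h
  have q0 : (1 - κ) * η ^ 2 + (a + b - κ * (c + d)) * η + (a * b - κ * (c * d)) = 0 := by
    have : κ * ((η + c) * (η + d)) = (η + a) * (η + b) := by rw [hκ]; field_simp
    linear_combination -this
  have q1 := congrArg σ q0
  simp only [map_add, map_sub, map_mul, map_pow, map_one, map_zero, ha, hb, hc, hd, hκσ] at q1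
  have q2 := congrArg σ q1
  simp only [map_add, map_sub, map_mul, map_pow, map_one, map_zero, ha, hb, hc, hd, hκσ] at q2
  have n1 : σ η ≠ σ (σ η) := fun hh => hη (σ.injective hh).symm
  have n2 : η ≠ σ (σ η) := fun hh => hη (by have := congrArg σ hh; rwa [h3] at this)
  obtain ⟨e1, e2, e3⟩ := quad_zero hη.symm n2 n1 q0 q1 q2
  have hk : κ = 1 := by linear_combination -e1
  rw [hk] at e2 e3
  exact pair_eq (by linear_combination e2) (by linear_combination e3)

structure Gen (F : Type) [Field F] (n : ℕ) where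
  g : F
  lg : F → ℕ
  lg_lt : ∀ x, lg x < n
  pow_lg : ∀ x, x ≠ 0 → g ^ lg x = x
  pow_eq : ∀ a b : ℕ, g ^ a = g ^ b ↔ a ≡ b [MOD n]

lemma exists_gen [Fintype F] {n : ℕ} (hn : Fintype.card F = n + 1) : Nonempty (Gen F n) := by
  classical
  obtain ⟨g, hg⟩ := IsCyclic.exists_generator (α := Fˣ)
  have ho : orderOf g = n := by
    rw [orderOf_eq_card_of_forall_mem_zpowers hg, Nat.card_eq_fintype_card, Fintype.card_units, hn]
    simp
  have hpos : 0 < n := ho ▸ orderOf_pos g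
  have h : ∀ x : F, ∃ l : ℕ, l < n ∧ (x ≠ 0 → (g : F) ^ l = x) := by
    intro x
    by_cases hx : x = 0
    · exact ⟨0, hpos, fun h => absurd hx h⟩
    · have hm : Units.mk0 x hx ∈ Submonoid.powers g := (mem_powers_iff_mem_zpowers).2 (hg _)
      obtain ⟨l, hl⟩ := hm
      refine ⟨l % n, Nat.mod_lt _ hpos, fun _ => ?_⟩
      have : g ^ (l % n) = Units.mk0 x hx := by rw [← ho, pow_mod_orderOf]; exact hl
      simpa using congrArg (fun u : Fˣ => (u : F)) this
  choose lg h1 h2 using h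
  refine ⟨⟨g, lg, h1, h2, fun a b => ?_⟩⟩
  rw [← ho, ← pow_eq_pow_iff_modEq, ← Units.val_pow_eq_pow_val, ← Units.val_pow_eq_pow_val,
    Units.val_inj]

namespace Gen

variable {n : ℕ} (G : Gen F n)

lemma npos (G : Gen F n) : 0 < n := lt_of_le_of_lt (Nat.zero_le _) (G.lg_lt 0)

lemma pow_n : G.g ^ n = 1 := by
  rw [← pow_zero G.g, G.pow_eq]; simp [Nat.ModEq]

lemma g_ne : G.g ≠ 0 := by
  intro h
  have := G.pow_n
  rw [h, zero_pow G.npos.ne'] at this
  exact zero_ne_one this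

lemma lg_mul {x y : F} (hx : x ≠ 0) (hy : y ≠ 0) : G.lg (x * y) ≡ G.lg x + G.lg y [MOD n] := by
  rw [← G.pow_eq, pow_add, G.pow_lg _ hx, G.pow_lg _ hy, G.pow_lg _ (mul_ne_zero hx hy)]

lemma dvd_lg {d e : ℕ} (hn : n = d * e) {x : F} (hx : x ≠ 0) (h : x ^ (d + 1) = x) :
    e ∣ G.lg x := by
  have hd : 0 < d := Nat.pos_of_mul_pos_right (hn ▸ G.npos)
  have h1 : G.g ^ (G.lg x * d) = G.g ^ 0 := by
    rw [pow_mul, G.pow_lg _ hx, pow_zero]
    apply mul_right_cancel₀ hx
    rw [← pow_succ, h, one_mul]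
  rw [G.pow_eq, Nat.modEq_zero_iff_dvd, mul_comm (G.lg x)] at h1
  exact Nat.dvd_of_mul_dvd_mul_left hd (dvd_trans (dvd_of_eq hn.symm) h1)

lemma g_not_fix {d : ℕ} (hd : 0 < d) (hdn : d < n) : G.g ^ (d + 1) ≠ G.g := by
  intro h
  have h1 : G.g ^ d = G.g ^ 0 := by
    apply mul_right_cancel₀ G.g_ne
    rw [← pow_succ, h, pow_zero, one_mul]
  rw [G.pow_eq, Nat.modEq_zero_iff_dvd] at h1
  exact absurd (Nat.le_of_dvd hd h1) (by omega)

lemma card_fix (G : Gen F n) [Fintype F] [DecidableEq F] {d e : ℕ} (hn : n = d * e) :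
    d ≤ (Finset.univ.filter (fun x : F => x ^ (d + 1) = x)).card := by
  have he : 0 < e := Nat.pos_of_mul_pos_left (hn ▸ G.npos)
  have : (Finset.range d).card ≤ (Finset.univ.filter (fun x : F => x ^ (d + 1) = x)).card := by
    apply Finset.card_le_card_of_injOn (fun j => G.g ^ (e * j))
    · intro j _
      simp only [Finset.coe_filter, Finset.mem_univ, true_and, Set.mem_ofPred_eq]
      rw [pow_succ, ← pow_mul, show e * j * d = n * j by rw [hn]; ring, pow_mul, G.pow_n]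
      simp
    · intro i hi j hj hij
      simp only [Finset.coe_range, Set.mem_Iio] at hi hj
      simp only at hij
      rw [G.pow_eq] at hij
      have := Nat.ModEq.mul_left_cancel' he.ne' (hij.of_dvd (dvd_of_eq (by rw [hn, mul_comm])))
      exact Nat.ModEq.eq_of_lt_of_lt this hi hj
  simpa using this

/-- the cubic character -/
def c (x : F) : ZMod 3 := (G.lg x : ZMod 3)

lemma c_mul (h3 : 3 ∣ n) {x y : F} (hx : x ≠ 0) (hy : y ≠ 0) : G.c (x * y) = G.c x + G.c y := by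
  unfold c
  rw [← Nat.cast_add, ZMod.natCast_eq_natCast_iff]
  exact (G.lg_mul hx hy).of_dvd h3

lemma c_fix {d e : ℕ} (hn : n = d * e) (he : 3 ∣ e) {x : F} (hx : x ≠ 0) (h : x ^ (d + 1) = x) :
    G.c x = 0 := by
  unfold c
  rw [ZMod.natCast_eq_zero_iff]
  exact he.trans (G.dvd_lg hn hx h)

/-- integer coordinates -/
def E (m r t : ℕ) : F := G.g ^ (r * (t % (2 * m)) + t / (2 * m))

lemma E_add {m r s t : ℕ} (hs : s % (2 * m) < m) (ht : t % (2 * m) < m) :
    G.E m r (s + t) = G.E m r s * G.E m r t := by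
  have hm : 0 < 2 * m := by omega
  unfold E
  rw [← pow_add, Nat.add_mod, Nat.mod_eq_of_lt (a := s % (2 * m) + t % (2 * m)) (by omega),
    Nat.add_div hm, if_neg (by omega)]
  congr 1; ring

lemma exists_E {m r : ℕ} (hn : n = r * m) (x : F) :
    ∃ t, t < 2 * n ∧ t % (2 * m) < m ∧ (x ≠ 0 → G.E m r t = x) := by
  have hr : 0 < r := Nat.pos_of_mul_pos_right (hn ▸ G.npos)
  have h1 : G.lg x / r < m := by
    rw [Nat.div_lt_iff_lt_mul hr, mul_comm, ← hn]; exact G.lg_lt x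
  have h2 : G.lg x % r < r := Nat.mod_lt _ hr
  have hm0 : 0 < m := Nat.pos_of_mul_pos_left (hn ▸ G.npos)
  have hm : 0 < 2 * m := by omega
  have e1 : (G.lg x / r + 2 * m * (G.lg x % r)) % (2 * m) = G.lg x / r := by
    rw [Nat.add_mul_mod_self_left, Nat.mod_eq_of_lt (by omega)]
  have e2 : (G.lg x / r + 2 * m * (G.lg x % r)) / (2 * m) = G.lg x % r := by
    rw [Nat.add_mul_div_left _ _ hm, Nat.div_eq_of_lt (by omega), zero_add]
  refine ⟨G.lg x / r + 2 * m * (G.lg x % r), ?_, by rw [e1]; exact h1, fun hx => ?_⟩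
  · have : 2 * m * (G.lg x % r + 1) ≤ 2 * m * r := Nat.mul_le_mul_left _ h2
    have h3 : 2 * n = 2 * m * r := by rw [mul_assoc, mul_comm m r, ← hn]
    rw [h3]; nlinarith
  · unfold E
    rw [e1, e2, Nat.div_add_mod, G.pow_lg _ hx]

lemma exists_E' {m r : ℕ} (hn : n = r * m) (y : F) :
    ∃ t, t < m ∧ (y ≠ 0 → G.E m r t = y ^ r) := by
  have hm : 0 < m := Nat.pos_of_mul_pos_left (hn ▸ G.npos)
  have h1 : G.lg y % m < m := Nat.mod_lt _ hm
  refine ⟨G.lg y % m, h1, fun hy => ?_⟩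
  unfold E
  rw [Nat.mod_eq_of_lt (by omega), Nat.div_eq_of_lt (by omega), add_zero]
  conv_rhs => rw [← G.pow_lg _ hy, ← pow_mul]
  rw [G.pow_eq, mul_comm (G.lg y)]
  exact ((Nat.mod_modEq _ _).mul_left' r).of_dvd (dvd_of_eq hn)

lemma class_le [Fintype F] [DecidableEq F] {a w : ℕ} (hn : n = a * (3 * w)) (τ : F →+* F)
    (hτ : ∀ x, τ x = x ^ (a + 1)) (hθ : τ G.g ≠ G.g) (i : ZMod 3) :
    ((Finset.univ.filter (fun x : F => x ^ (a + 1) = x)).filter
      (fun x => G.c (G.g + x) = i)).card ≤ w := by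
  have hw : 0 < 3 * w := Nat.pos_of_mul_pos_left (hn ▸ G.npos)
  have : ((Finset.univ.filter (fun x : F => x ^ (a + 1) = x)).filter
      (fun x => G.c (G.g + x) = i)).card ≤ (Finset.range w).card := by
    apply Finset.card_le_card_of_injOn (fun x => G.lg (G.g + x) % (3 * w) / 3)
    · intro x _
      have := Nat.mod_lt (G.lg (G.g + x)) hw
      simp only [Finset.coe_range, Set.mem_Iio]
      omega
    · intro x hx y hy hxy
      simp only [Finset.coe_filter, Finset.mem_filter, Finset.mem_univ, true_and,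
        Set.mem_ofPred_eq] at hx hy
      simp only at hxy
      have fx : τ x = x := by rw [hτ]; exact hx.1
      have fy : τ y = y := by rw [hτ]; exact hy.1
      have nx := ne_zero_of_fix τ hθ fx
      have ny := ne_zero_of_fix τ hθ fy
      have h3 : G.lg (G.g + x) % 3 = G.lg (G.g + y) % 3 := by
        have := hx.2.trans hy.2.symm
        unfold c at this
        exact (ZMod.natCast_eq_natCast_iff _ _ _).1 this
      have d1 := Nat.mod_mod_of_dvd (G.lg (G.g + x)) (Dvd.intro w rfl : 3 ∣ 3 * w)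
      have d2 := Nat.mod_mod_of_dvd (G.lg (G.g + y)) (Dvd.intro w rfl : 3 ∣ 3 * w)
      have hmod : G.lg (G.g + x) ≡ G.lg (G.g + y) [MOD 3 * w] := by
        unfold Nat.ModEq; omega
      have hp : (G.g + x) ^ a = (G.g + y) ^ a := by
        rw [← G.pow_lg _ nx, ← G.pow_lg _ ny, ← pow_mul, ← pow_mul, G.pow_eq]
        exact (hmod.mul_right' a).of_dvd (dvd_of_eq (hn.trans (mul_comm _ _)))
      have e1 : (τ G.g + x) * (G.g + y) = (τ G.g + y) * (G.g + x) := by
        have p1 : τ G.g + x = (G.g + x) ^ a * (G.g + x) := by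
          rw [← pow_succ, ← hτ, map_add, fx]
        have p2 : τ G.g + y = (G.g + y) ^ a * (G.g + y) := by
          rw [← pow_succ, ← hτ, map_add, fy]
        rw [p1, p2, hp]; ring
      apply mul_left_cancel₀ (sub_ne_zero.2 hθ)
      linear_combination -e1
  simpa using this

end Gen

lemma three_classes {α : Type} (s : Finset α) (f : α → ZMod 3) (i : ZMod 3) :
    s.card ≤ (s.filter (fun x => f x = i)).card + (s.filter (fun x => f x = i + 1)).card +
      (s.filter (fun x => f x = i + 2)).card := by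
  classical
  have hsub : s ⊆ (s.filter (fun x => f x = i) ∪ s.filter (fun x => f x = i + 1)) ∪
      s.filter (fun x => f x = i + 2) := by
    intro x hx
    simp only [Finset.mem_union, Finset.mem_filter, hx, true_and]
    generalize f x = z
    revert z i
    decide
  calc s.card ≤ _ := Finset.card_le_card hsub
    _ ≤ _ := Finset.card_union_le _ _
    _ ≤ _ := Nat.add_le_add_right (Finset.card_union_le _ _) _

theorem core [Fintype F] {n a w r m : ℕ} (hcard : Fintype.card F = n + 1) (σ τ : F →+* F)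
    (hna : n = a * (3 * w)) (hnr : n = r * m) (hm3 : 3 ∣ m)
    (hσ : ∀ x, σ x = x ^ (r + 1)) (hτ : ∀ x, τ x = x ^ (a + 1)) (hσ3 : ∀ x, σ (σ (σ x)) = x) :
    ∃ A : Finset ℕ, A ⊆ Finset.Icc 1 (6 * n) ∧
      (∀ a ∈ A, ∀ b ∈ A, ∀ c ∈ A, ∀ d ∈ A,
            a + b = c + d → (a = c ∧ b = d) ∨ (a = d ∧ b = c)) ∧
      a ≤ A.card + 2 * w ∧ r ≤ 3 * (A ∩ Finset.Icc 1 m).card := by
  classical
  obtain ⟨G⟩ := exists_gen hcard
  have npos := G.npos
  have ha0 : 0 < a := Nat.pos_of_mul_pos_right (hna ▸ npos)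
  have hw0 : 0 < 3 * w := Nat.pos_of_mul_pos_left (hna ▸ npos)
  have hr0 : 0 < r := Nat.pos_of_mul_pos_right (hnr ▸ npos)
  have hm0 : 0 < m := Nat.pos_of_mul_pos_left (hnr ▸ npos)
  have hm1 : 3 ≤ m := Nat.le_of_dvd hm0 hm3
  have hmn : m ≤ n := by rw [hnr]; exact Nat.le_mul_of_pos_left _ hr0
  have h3n : 3 ∣ n := hnr ▸ hm3.mul_left r
  have hθ : τ G.g ≠ G.g := by
    rw [hτ]; exact G.g_not_fix ha0 (by
      have : a * 2 ≤ a * (3 * w) := Nat.mul_le_mul_left _ (by omega)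
      omega)
  have hη : σ G.g ≠ G.g := by
    rw [hσ]; exact G.g_not_fix hr0 (by rw [hnr]; nlinarith)
  set K2 := Finset.univ.filter (fun x : F => x ^ (r + 1) = x) with hK2
  set K3 := Finset.univ.filter (fun x : F => x ^ (a + 1) = x) with hK3
  have cK2 : r ≤ K2.card := G.card_fix hnr
  have cK3 : a ≤ K3.card := G.card_fix hna
  obtain ⟨j, hj⟩ : ∃ j : ZMod 3,
      r ≤ 3 * (K2.filter (fun u => G.c ((G.g + u) * (σ G.g + u)) = j)).card := by
    have := three_classes K2 (fun u => G.c ((G.g + u) * (σ G.g + u))) 0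
    by_contra hcon
    push Not at hcon
    have h0 := hcon 0
    have h1 := hcon (0 + 1)
    have h2 := hcon (0 + 2)
    omega
  set X := K2.filter (fun u => G.c ((G.g + u) * (σ G.g + u)) = j) with hX
  set i : ZMod 3 := j - G.c (σ G.g - G.g) + 1 with hi
  set V := K3.filter (fun x => G.c (G.g + x) = i) with hV
  have cV : a ≤ V.card + 2 * w := by
    have := three_classes K3 (fun x => G.c (G.g + x)) i
    have h1 := G.class_le hna τ hτ hθ (i + 1)
    have h2 := G.class_le hna τ hτ hθ (i + 2)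
    rw [← hK3] at h1 h2
    rw [← hV] at this
    omega
  have mX : ∀ u ∈ X, σ u = u ∧ G.c ((G.g + u) * (σ G.g + u)) = j := by
    intro u hu
    simp only [hX, hK2, Finset.mem_filter, Finset.mem_univ, true_and] at hu
    exact ⟨by rw [hσ]; exact hu.1, hu.2⟩
  have mV : ∀ x ∈ V, τ x = x ∧ G.c (G.g + x) = i := by
    intro u hu
    simp only [hV, hK3, Finset.mem_filter, Finset.mem_univ, true_and] at hu
    exact ⟨by rw [hτ]; exact hu.1, hu.2⟩
  choose tB hB1 hB2 hB3 using fun x : F => G.exists_E hnr (G.g + x)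
  choose tS hS1 hS3 using fun x : F => G.exists_E' hnr (G.g + x)
  have hS2 : ∀ x, tS x % (2 * m) < m := fun x => by
    rw [Nat.mod_eq_of_lt (by have := hS1 x; omega)]; exact hS1 x
  have EB : ∀ x ∈ V, G.E m r (tB x) = G.g + x := fun x hx =>
    hB3 x (ne_zero_of_fix τ hθ (mV x hx).1)
  have ES : ∀ u ∈ X, G.E m r (tS u) = (σ G.g + u) / (G.g + u) := fun u hu => by
    have hne := ne_zero_of_fix σ hη (mX u hu).1
    rw [hS3 u hne, eq_div_iff hne, ← pow_succ, ← hσ, map_add, (mX u hu).1]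
  have sidB : ∀ x ∈ V, ∀ y ∈ V, ∀ z ∈ V, ∀ v ∈ V, tB x + tB y = tB z + tB v →
      (x = z ∧ y = v) ∨ (x = v ∧ y = z) := by
    intro x hx y hy z hz v hv h
    have := congrArg (G.E m r) h
    rw [G.E_add (hB2 _) (hB2 _), G.E_add (hB2 _) (hB2 _), EB _ hx, EB _ hy, EB _ hz, EB _ hv] at this
    exact bose τ hθ (mV _ hx).1 (mV _ hy).1 (mV _ hz).1 (mV _ hv).1 this
  have sidS : ∀ x ∈ X, ∀ y ∈ X, ∀ z ∈ X, ∀ v ∈ X, tS x + tS y = tS z + tS v →
      (x = z ∧ y = v) ∨ (x = v ∧ y = z) := by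
    intro x hx y hy z hz v hv h
    have := congrArg (G.E m r) h
    rw [G.E_add (hS2 _) (hS2 _), G.E_add (hS2 _) (hS2 _), ES _ hx, ES _ hy, ES _ hz, ES _ hv] at this
    exact singer σ (hσ3 _) hη (mX _ hx).1 (mX _ hy).1 (mX _ hz).1 (mX _ hv).1 this
  have mix : ∀ u ∈ X, ∀ x ∈ V, ∀ u' ∈ X, ∀ x' ∈ V, tS u + tB x = tS u' + tB x' → x = x' := by
    intro u hu x hx u' hu' x' hx' h
    have h0 := congrArg (G.E m r) h
    rw [G.E_add (hS2 _) (hB2 _), G.E_add (hS2 _) (hB2 _), ES _ hu, ES _ hu', EB _ hx, EB _ hx'] at h0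
    by_contra hne
    obtain ⟨f1, c1⟩ := mX u hu
    obtain ⟨f2, c2⟩ := mX u' hu'
    obtain ⟨f3, c3⟩ := mV x hx
    obtain ⟨f4, c4⟩ := mV x' hx'
    have n1 := ne_zero_of_fix σ hη f1
    have n2 := ne_zero_of_fix σ hη f2
    have n3 := ne_zero_of_fix τ hθ f3
    have n4 := ne_zero_of_fix τ hθ f4
    have n1' : σ G.g + u ≠ 0 := by
      have := (map_ne_zero σ).2 n1; rwa [map_add, f1] at this
    have n2' : σ G.g + u' ≠ 0 := by
      have := (map_ne_zero σ).2 n2; rwa [map_add, f2] at this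
    have nD : σ G.g - G.g ≠ 0 := sub_ne_zero.2 hη
    have nx : x' - x ≠ 0 := sub_ne_zero.2 (Ne.symm hne)
    have h1 : (σ G.g + u) * (G.g + u') * (G.g + x) = (σ G.g + u') * (G.g + u) * (G.g + x') := by
      field_simp at h0
      linear_combination h0
    have nu : u' - u ≠ 0 := by
      intro hh
      have : u' = u := sub_eq_zero.1 hh
      rw [this] at h1
      exact hne (add_left_cancel (mul_left_cancel₀ (mul_ne_zero n1' n1) h1))
    have p1 : (σ G.g - G.g) * (u' - u) * (G.g + x) = (σ G.g + u') * (G.g + u) * (x' - x) := by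
      linear_combination h1
    have p2 : (σ G.g - G.g) * (u' - u) * (G.g + x') = (σ G.g + u) * (G.g + u') * (x' - x) := by
      linear_combination h1
    have key : (σ G.g - G.g) * (u' - u) * (G.g + x) * ((σ G.g - G.g) * (u' - u) * (G.g + x')) =
        (G.g + u) * (σ G.g + u) * ((G.g + u') * (σ G.g + u')) * ((x' - x) * (x' - x)) := by
      rw [p1, p2]; ring
    have cu : G.c (u' - u) = 0 := G.c_fix hnr hm3 nu (by rw [← hσ, map_sub, f1, f2])
    have cx : G.c (x' - x) = 0 :=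
      G.c_fix hna (Dvd.intro w rfl) nx (by rw [← hτ, map_sub, f3, f4])
    have kc := congrArg G.c key
    rw [G.c_mul h3n (mul_ne_zero (mul_ne_zero nD nu) n3) (mul_ne_zero (mul_ne_zero nD nu) n4),
      G.c_mul h3n (mul_ne_zero nD nu) n3, G.c_mul h3n (mul_ne_zero nD nu) n4, G.c_mul h3n nD nu,
      G.c_mul h3n (mul_ne_zero (mul_ne_zero n1 n1') (mul_ne_zero n2 n2')) (mul_ne_zero nx nx),
      G.c_mul h3n (mul_ne_zero n1 n1') (mul_ne_zero n2 n2'), G.c_mul h3n nx nx,
      c1, c2, c3, c4, cu, cx, hi] at kc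
    have : (2 : ZMod 3) = 0 := by linear_combination kc
    exact absurd this (by decide)
  have injB : Set.InjOn (fun x => tB x + (4 * n + 1)) V := by
    intro x hx y hy hxy
    simp only at hxy
    rcases sidB x hx x hx y hy y hy (by omega) with h | h <;> exact h.1
  have injS : Set.InjOn (fun x => tS x + 1) X := by
    intro x hx y hy hxy
    simp only at hxy
    rcases sidS x hx x hx y hy y hy (by omega) with h | h <;> exact h.1
  refine ⟨X.image (fun x => tS x + 1) ∪ V.image (fun x => tB x + (4 * n + 1)), ?_, ?_, ?_, ?_⟩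
  · intro z hz
    simp only [Finset.mem_union, Finset.mem_image] at hz
    rw [Finset.mem_Icc]
    rcases hz with ⟨x, -, rfl⟩ | ⟨x, -, rfl⟩
    · have := hS1 x; omega
    · have := hB1 x; omega
  · intro z1 h1 z2 h2 z3 h3 z4 h4 h
    simp only [Finset.mem_union, Finset.mem_image] at h1 h2 h3 h4
    rcases h1 with ⟨x1, m1, rfl⟩ | ⟨x1, m1, rfl⟩ <;> rcases h2 with ⟨x2, m2, rfl⟩ | ⟨x2, m2, rfl⟩ <;>
      rcases h3 with ⟨x3, m3, rfl⟩ | ⟨x3, m3, rfl⟩ <;>
      rcases h4 with ⟨x4, m4, rfl⟩ | ⟨x4, m4, rfl⟩ <;>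
      have b1 := hS1 x1 <;> have b2 := hS1 x2 <;> have b3 := hS1 x3 <;> have b4 := hS1 x4 <;>
      have d1 := hB1 x1 <;> have d2 := hB1 x2 <;> have d3 := hB1 x3 <;> have d4 := hB1 x4
    · rcases sidS x1 m1 x2 m2 x3 m3 x4 m4 (by omega) with ⟨rfl, rfl⟩ | ⟨rfl, rfl⟩ <;> simp
    · omega
    · omega
    · omega
    · omega
    · have := mix x1 m1 x2 m2 x3 m3 x4 m4 (by omega); subst this; omega
    · have := mix x1 m1 x2 m2 x4 m4 x3 m3 (by omega); subst this; omega
    · omega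
    · omega
    · have := mix x2 m2 x1 m1 x3 m3 x4 m4 (by omega); subst this; omega
    · have := mix x2 m2 x1 m1 x4 m4 x3 m3 (by omega); subst this; omega
    · omega
    · omega
    · omega
    · omega
    · rcases sidB x1 m1 x2 m2 x3 m3 x4 m4 (by omega) with ⟨rfl, rfl⟩ | ⟨rfl, rfl⟩ <;> simp
  · have h1 := Finset.card_le_card (Finset.subset_union_right (s₁ := X.image (fun x => tS x + 1))
      (s₂ := V.image (fun x => tB x + (4 * n + 1))))
    rw [Finset.card_image_of_injOn injB] at h1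
    omega
  · have h1 : X.image (fun x => tS x + 1) ⊆
        (X.image (fun x => tS x + 1) ∪ V.image (fun x => tB x + (4 * n + 1))) ∩ Finset.Icc 1 m := by
      intro z hz
      rw [Finset.mem_inter]
      refine ⟨Finset.mem_union_left _ hz, ?_⟩
      obtain ⟨x, -, rfl⟩ := Finset.mem_image.1 hz
      have := hS1 x
      rw [Finset.mem_Icc]; omega
    have h2 := Finset.card_le_card h1
    rw [Finset.card_image_of_injOn injS] at h2
    omega

theorem level (j : ℕ) : ∃ A : Finset ℕ, A ⊆ Finset.Icc 1 (6 * (8 * 4 ^ j) ^ 6) ∧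
      (∀ a ∈ A, ∀ b ∈ A, ∀ c ∈ A, ∀ d ∈ A,
            a + b = c + d → (a = c ∧ b = d) ∨ (a = d ∧ b = c)) ∧
      (8 * 4 ^ j) ^ 3 ≤ 4 * A.card ∧
      (8 * 4 ^ j) ^ 2 ≤ 4 * (A ∩ Finset.Icc 1 (2 * (8 * 4 ^ j) ^ 4)).card := by
  classical
  have hq : 8 * 4 ^ j = 2 ^ (2 * j + 3) := by rw [pow_add, pow_mul]; ring
  have hq3 : (8 * 4 ^ j) % 3 = 2 := by simp [Nat.mul_mod, Nat.pow_mod]
  have hq8 : 8 ≤ 8 * 4 ^ j := Nat.le_mul_of_pos_right _ (by positivity)
  set k := 2 * j + 3 with hk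
  let F := GaloisField 2 (k * 6)
  letI : Fintype F := Fintype.ofFinite F
  have hcard : Fintype.card F = (8 * 4 ^ j) ^ 6 := by
    rw [← Nat.card_eq_fintype_card, GaloisField.card 2 (k * 6) (by omega), hq, pow_mul]
  have s1 : ∀ x : F, iterateFrobenius F 2 (k * 2) x = x ^ ((8 * 4 ^ j) ^ 2) := fun x => by
    rw [iterateFrobenius_def, hq, ← pow_mul]
  have s2 : ∀ x : F, iterateFrobenius F 2 (k * 3) x = x ^ ((8 * 4 ^ j) ^ 3) := fun x => by
    rw [iterateFrobenius_def, hq, ← pow_mul]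
  generalize 8 * 4 ^ j = q at *
  obtain ⟨t, rfl⟩ : ∃ t, q = 3 * t + 2 := ⟨q / 3, by omega⟩
  obtain ⟨A, h1, h2, h3, h4⟩ := core (F := F)
    (n := (27 * t ^ 3 + 54 * t ^ 2 + 36 * t + 7) * (3 * (9 * t ^ 3 + 18 * t ^ 2 + 12 * t + 3)))
    (a := 27 * t ^ 3 + 54 * t ^ 2 + 36 * t + 7) (w := 9 * t ^ 3 + 18 * t ^ 2 + 12 * t + 3)
    (r := 9 * t ^ 2 + 12 * t + 3) (m := (3 * t + 2) ^ 4 + (3 * t + 2) ^ 2 + 1)
    (by rw [hcard]; ring) (iterateFrobenius F 2 (k * 2)) (iterateFrobenius F 2 (k * 3)) rfl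
    (by ring) ⟨27 * t ^ 4 + 72 * t ^ 3 + 75 * t ^ 2 + 36 * t + 7, by ring⟩
    (fun x => by rw [s1]; congr 1; ring) (fun x => by rw [s2]; congr 1; ring)
    (fun x => by
      rw [s1, s1, s1, ← pow_mul, ← pow_mul, ← pow_add, ← pow_add, ← hcard]
      exact FiniteField.pow_card x)
  have ht : 2 ≤ t := by omega
  refine ⟨A, h1.trans (Finset.Icc_subset_Icc_right ?_), h2, ?_, ?_⟩
  · have : (3 * t + 2) ^ 6 = (27 * t ^ 3 + 54 * t ^ 2 + 36 * t + 7) *
      (3 * (9 * t ^ 3 + 18 * t ^ 2 + 12 * t + 3)) + 1 := by ring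
    omega
  · have : (3 * t + 2) ^ 3 = 27 * t ^ 3 + 54 * t ^ 2 + 36 * t + 8 := by ring
    omega
  · have hle : (A ∩ Finset.Icc 1 ((3 * t + 2) ^ 4 + (3 * t + 2) ^ 2 + 1)).card ≤
        (A ∩ Finset.Icc 1 (2 * (3 * t + 2) ^ 4)).card := by
      apply Finset.card_le_card
      apply Finset.inter_subset_inter_left
      apply Finset.Icc_subset_Icc_right
      have : (3 * t + 2) ^ 4 = 81 * t ^ 4 + 216 * t ^ 3 + 216 * t ^ 2 + 96 * t + 16 := by ring
      have : (3 * t + 2) ^ 2 = 9 * t ^ 2 + 12 * t + 4 := by ring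
      omega
    have : (3 * t + 2) ^ 2 = 9 * t ^ 2 + 12 * t + 4 := by ring
    omega

end Pool.Agent.H63.Sidon2
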