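import Mathlib
import Pool.Agent.H63.Elim

namespace Pool.Agent.H63.SiegelPoly

open Polynomial Pool.Agent.H63.PolyL1 Pool.Agent.H63.Elim

attribute [local instance] Matrix.seminormedAddCommGroup

theorem siegel {β : Type*} [Fintype β] (F : β → ℤ[X]) (K R : ℕ) (B : ℝ) (hB1 : 1 ≤ B)
    (hF : ∀ b, (F b).natDegree ≤ R) (hB : ∀ b, (L (F b) : ℝ) ≤ B) (hK : 0 < K)
    (hn : K + R < Fintype.card β * K) :
    ∃ c : β → ℤ[X], c ≠ 0 ∧ ∑ b, c b * F b = 0 ∧ ∀ b, (c b).natDegree ≤ K ∧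
      (L (c b) : ℝ) ≤ K * ((Fintype.card β * K : ℕ) * B) ^
        (((K + R : ℕ) : ℝ) / ((Fintype.card β * K : ℕ) - (K + R : ℕ))) := by
  classical
  let A : Matrix (Fin (K + R)) (β × Fin K) ℤ := fun r p => (X ^ (p.2 : ℕ) * F p.1).coeff r
  have hA : ‖A‖ ≤ B := by
    rw [Matrix.norm_le_iff (by linarith)]
    intro r p
    rw [Int.norm_eq_abs, ← Int.cast_abs]
    refine le_trans ?_ (hB p.1)
    have h1 := L_pow X p.2
    rw [L_X, one_pow] at h1
    exact_mod_cast (coeff_le_L _ _).trans ((L_mul _ _).trans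
      (mul_le_of_le_one_left (L_nonneg _) h1))
  obtain ⟨t, ht0, ht1, ht2⟩ := Int.Matrix.exists_ne_zero_int_vec_norm_le A (by simpa using hn)
    (by simp; omega)
  simp only [Fintype.card_prod, Fintype.card_fin] at ht2
  have hexp : (0 : ℝ) ≤ ((K + R : ℕ) : ℝ) / ((Fintype.card β * K : ℕ) - (K + R : ℕ)) := by
    apply div_nonneg (Nat.cast_nonneg _)
    rw [sub_nonneg]; exact_mod_cast hn.le
  have ht3 : ‖t‖ ≤ ((Fintype.card β * K : ℕ) * B) ^
        (((K + R : ℕ) : ℝ) / ((Fintype.card β * K : ℕ) - (K + R : ℕ))) := by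
    refine ht2.trans (Real.rpow_le_rpow (by positivity) ?_ hexp)
    gcongr
    exact max_le hB1 hA
  refine ⟨fun b => ∑ k : Fin K, monomial k (t (b, k)), ?_, ?_, fun b => ⟨?_, ?_⟩⟩
  · intro h0
    apply ht0
    ext ⟨b, k⟩
    have := congrArg (fun p => coeff p k) (congrFun h0 b)
    simp only [finsetSum_coeff, coeff_monomial, Pi.zero_apply, coeff_zero] at this
    rw [Finset.sum_eq_single k] at this
    · simpa using this
    · intro j _ hj; rw [if_neg (fun h => hj (Fin.ext h))]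
    · simp
  · have h1 : ∑ b, (∑ k : Fin K, monomial k (t (b, k))) * F b
        = ∑ p : β × Fin K, C (t p) * (X ^ (p.2 : ℕ) * F p.1) := by
      rw [Fintype.sum_prod_type]
      refine Finset.sum_congr rfl fun b _ => ?_
      rw [Finset.sum_mul]
      refine Finset.sum_congr rfl fun k _ => ?_
      rw [← C_mul_X_pow_eq_monomial, mul_assoc]
    rw [h1]
    ext r
    rw [finsetSum_coeff, coeff_zero]
    simp only [coeff_C_mul]
    by_cases hr : r < K + R
    · have := congrFun ht1 ⟨r, hr⟩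
      rw [Matrix.mulVec, dotProduct] at this
      simp only [Pi.zero_apply] at this
      rw [← this]
      exact Finset.sum_congr rfl fun p _ => mul_comm _ _
    · refine Finset.sum_eq_zero fun p _ => ?_
      rw [coeff_eq_zero_of_natDegree_lt, mul_zero]
      refine natDegree_mul_le.trans_lt ?_
      have := hF p.1
      have := p.2.2
      rw [natDegree_X_pow]; omega
  · apply natDegree_sum_le_of_forall_le
    intro k _
    exact (natDegree_monomial_le _).trans k.2.le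
  · have h1 := L_sum Finset.univ (fun k : Fin K => monomial k (t (b, k)))
    have h2 : (L (∑ k : Fin K, monomial k (t (b, k))) : ℝ) ≤ ∑ k : Fin K, ‖t (b, k)‖ := by
      simp only [L_monomial] at h1
      simp only [Int.norm_eq_abs]
      exact_mod_cast h1
    refine h2.trans ((Finset.sum_le_sum fun k _ => (norm_le_pi_norm t _).trans ht3).trans ?_)
    simp

lemma poly_le (C η : ℝ) (hC : 0 ≤ C) (hη : 0 < η) (k : ℕ) :
    ∃ c : ℝ, 0 ≤ c ∧ ∀ x : ℝ, 0 ≤ x → (C * x) ^ k ≤ Real.exp (η * x + c) := by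
  refine ⟨((k + 1) * C / η) ^ k, by positivity, fun x hx => ?_⟩
  have h1 : C * x ≤ ((k + 1) * C / η) * Real.exp (η * x / (k + 1)) := by
    have h2 : η * x / (k + 1) ≤ Real.exp (η * x / (k + 1)) := by
      linarith [Real.add_one_le_exp (η * x / (k + 1))]
    calc C * x = ((k + 1) * C / η) * (η * x / (k + 1)) := by field_simp
      _ ≤ _ := by gcongr
  calc (C * x) ^ k ≤ (((k + 1) * C / η) * Real.exp (η * x / (k + 1))) ^ k := by gcongr
    _ = ((k + 1) * C / η) ^ k * Real.exp (k * (η * x / (k + 1))) := by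
        rw [mul_pow, Real.exp_nat_mul]
    _ ≤ Real.exp (((k + 1) * C / η) ^ k) * Real.exp (η * x) := by
        refine mul_le_mul ?_ (Real.exp_le_exp.2 ?_) (by positivity) (by positivity)
        · linarith [Real.add_one_le_exp (((k + 1) * C / η) ^ k)]
        · rw [← mul_div_assoc, div_le_iff₀ (by positivity)]
          nlinarith [mul_nonneg hη.le hx]
    _ = _ := by rw [← Real.exp_add, add_comm]

variable {τ : Type*} [Fintype τ] [DecidableEq τ] (a : τ → ℤ)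

lemma L_prod_lin (ha : ∀ t, |a t| ≤ 1) (hT : Fintype.card τ ≤ 3) (s : Finset τ) :
    L (∏ t ∈ s, (X - C (a t))) ≤ 8 := by
  refine (L_prod _ _).trans ?_
  calc ∏ t ∈ s, L (X - C (a t)) ≤ ∏ _t ∈ s, (2 : ℤ) :=
        Finset.prod_le_prod (fun _ _ => L_nonneg _) fun t _ =>
          (L_X_sub_C _).trans (by linarith [ha t])
    _ = 2 ^ s.card := by simp
    _ ≤ 2 ^ 3 := pow_le_pow_right₀ (by norm_num) ((Finset.card_le_univ s).trans hT)

lemma L_lam (ha : ∀ t, |a t| ≤ 1) (hT : Fintype.card τ ≤ 3) (N D : ℕ) (e : τ → ℕ)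
    (he : ∀ t, e t ≤ D) : L (lam a N e) ≤ 24 * N * D := by
  refine (L_sum _ _).trans ?_
  calc ∑ t, L (((N * e t : ℕ) : ℤ[X]) * Pi1 a t) ≤ ∑ _t : τ, (N * D * 8 : ℤ) := by
        refine Finset.sum_le_sum fun t _ => (L_mul _ _).trans ?_
        rw [← C_eq_natCast, L_C, Nat.abs_cast]
        have := L_prod_lin a ha hT (Finset.univ.erase t)
        have h2 : ((N * e t : ℕ) : ℤ) ≤ N * D := by exact_mod_cast Nat.mul_le_mul_left N (he t)
        exact mul_le_mul h2 this (L_nonneg _) (by positivity)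
    _ = Fintype.card τ * (N * D * 8 : ℤ) := by simp
    _ ≤ 3 * (N * D * 8 : ℤ) := by gcongr; exact_mod_cast hT
    _ = _ := by ring

lemma L_ff (ha : ∀ t, |a t| ≤ 1) (hT : Fintype.card τ ≤ 3) (N D : ℕ) (e : τ → ℕ)
    (he : ∀ t, e t ≤ D) : (L (ff a N e) : ℝ) ≤ Real.exp (3 * D * N) := by
  have h1 : L (ff a N e) ≤ 2 ^ (3 * (N * D)) := by
    refine (L_prod _ _).trans ?_
    calc ∏ t, L ((X - C (a t)) ^ (N * e t)) ≤ ∏ _t : τ, (2 : ℤ) ^ (N * D) := by
          refine Finset.prod_le_prod (fun _ _ => L_nonneg _) fun t _ => (L_pow _ _).trans ?_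
          calc L (X - C (a t)) ^ (N * e t) ≤ 2 ^ (N * e t) :=
                pow_le_pow_left₀ (L_nonneg _) ((L_X_sub_C _).trans (by linarith [ha t])) _
            _ ≤ _ := pow_le_pow_right₀ (by norm_num) (Nat.mul_le_mul_left N (he t))
      _ = 2 ^ (Fintype.card τ * (N * D)) := by
          rw [Finset.prod_const, ← pow_mul, mul_comm]; rfl
      _ ≤ _ := pow_le_pow_right₀ (by norm_num) (Nat.mul_le_mul_right _ hT)
  have h2 : (L (ff a N e) : ℝ) ≤ 2 ^ (3 * (N * D)) := by exact_mod_cast h1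
  refine h2.trans ?_
  rw [show (3 * D * N : ℝ) = (3 * (N * D) : ℕ) * 1 by push_cast; ring, Real.exp_nat_mul]
  gcongr
  linarith [Real.add_one_le_exp 1]

lemma natDegree_ff (hT : Fintype.card τ ≤ 3) (N D : ℕ) (e : τ → ℕ)
    (he : ∀ t, e t ≤ D) : (ff a N e).natDegree ≤ 3 * D * N := by
  have h1 : ∀ t, ((X - C (a t)) ^ (N * e t)).natDegree ≤ N * D := by
    intro t
    rw [natDegree_pow, natDegree_X_sub_C, mul_one]; exact Nat.mul_le_mul_left N (he t)
  have h2 : ∑ t, ((X - C (a t)) ^ (N * e t)).natDegree ≤ ∑ _t : τ, N * D :=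
    Finset.sum_le_sum fun t _ => h1 t
  have h3 := natDegree_prod_le Finset.univ fun t => (X - C (a t)) ^ (N * e t)
  have h4 : Fintype.card τ * (N * D) ≤ 3 * (N * D) := Nat.mul_le_mul_right _ hT
  rw [Finset.sum_const, Finset.card_univ, smul_eq_mul] at h2
  rw [ff, mul_assoc, mul_comm D]
  omega

theorem core (κ η : ℝ) (hκ : 0 ≤ κ) (hη : 0 < η) (s : ℕ) (hs : 2 ≤ s)
    (ha : Function.Injective a) (ha1 : ∀ t, |a t| ≤ 1) (hT1 : 1 ≤ Fintype.card τ)
    (hT : Fintype.card τ ≤ 3) {ι : Type*} [Fintype ι] (ex : ι → τ → ℕ)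
    (hex : Function.Injective ex) (hexD : ∀ m t, ex m t ≤ 2 * s ^ 2)
    {β : Type*} [Fintype β] (hβ : (2 * s ^ 2) ^ 3 ≤ Fintype.card β) :
    ∃ c0 : ℝ, 0 ≤ c0 ∧ ∀ x N : ℕ, 1 ≤ x → N ≤ x → 2 ^ Fintype.card ι * Fintype.card τ ≤ N →
      ∀ (F : β → ℤ[X]) (q : ℤ), (∀ b, (F b).natDegree ≤ 3 * (2 * s ^ 2) * x) →
      (∀ b, (L (F b) : ℝ) ≤ Real.exp (κ * (2 * s ^ 2) * x)) →
      (∀ c : β → ℤ[X], c ≠ 0 → ∑ b, c b * F b = 0 →
        ∃ g : ι → β, (fun m => c (g m)) ≠ 0 ∧ C q ∣ ∑ m, c (g m) * ff a N (ex m)) →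
      ∀ (A : Type) [CommRing A] (φ : ℤ[X] →+* A), φ (C q) = 0 → (∀ m, φ (ff a N (ex m)) = 1) →
      ∃ P : ℤ[X], P ≠ 0 ∧ φ P = 0 ∧ (P.natDegree : ℝ) ≤ x / s + c0 ∧
        (L P : ℝ) ≤ Real.exp ((4 * κ / s + η) * x + c0) := by
  set D := 2 * s ^ 2 with hD
  set J := Fintype.card ι with hJ
  set n := Fintype.card β with hn
  obtain ⟨c1, hc1, hc1'⟩ := poly_le (16 + 24 * J + 24 * D + n : ℝ) η (by positivity) hη (J + 4)
  refine ⟨c1 + (1 + 3 * J), by positivity, ?_⟩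
  intro x N hx hNx hN F q hF1 hF2 hextr A _ φ hq hf
  set K := x / s + 1 with hK
  have hs0 : 0 < s := by omega
  have hK0 : 0 < K := Nat.succ_pos _
  have hxK : x ≤ s * K := (Nat.lt_mul_div_succ x hs0).le
  have hKx : K ≤ 2 * x := by
    have := Nat.div_le_self x s; omega
  have hD8 : 8 * s ≤ D ^ 2 := by
    have h1 : 2 ^ 3 ≤ s ^ 3 := Nat.pow_le_pow_left hs 3
    calc 8 * s ≤ s ^ 3 * s := Nat.mul_le_mul_right _ h1
      _ ≤ 4 * (s ^ 3 * s) := by omega
      _ = D ^ 2 := by rw [hD]; ring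
  have hD0 : 0 < D := by positivity
  have hE : K + 3 * D * x ≤ 4 * D * s * K := by
    have h1 : 3 * D * x ≤ 3 * D * (s * K) := Nat.mul_le_mul_left _ hxK
    have h2 : 1 * K ≤ D * s * K := Nat.mul_le_mul_right _ (Nat.mul_pos hD0 hs0)
    nlinarith
  have hE2 : 2 * (4 * D * s * K) ≤ D ^ 3 * K := by
    calc 2 * (4 * D * s * K) = (8 * s) * (D * K) := by ring
      _ ≤ D ^ 2 * (D * K) := Nat.mul_le_mul_right _ hD8
      _ = _ := by ring
  have hE3 : D ^ 3 * K ≤ n * K := Nat.mul_le_mul_right _ hβ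
  have hE4 : 0 < 4 * D * s * K := by positivity
  have hB1 : 1 ≤ Real.exp (κ * (2 * s ^ 2) * x) := Real.one_le_exp (by positivity)
  obtain ⟨c, hc0, hc1, hc2⟩ := siegel F K (3 * D * x) _ hB1 hF1 hF2 hK0 (by rw [← hn]; omega)
  rw [← hn] at hc2
  set γ : ℝ := ((K + 3 * D * x : ℕ) : ℝ) / ((n * K : ℕ) - (K + 3 * D * x : ℕ)) with hγ
  have hDr : (D : ℝ) = 2 * s ^ 2 := by rw [hD]; push_cast; ring
  have hsr : (2 : ℝ) ≤ s := by exact_mod_cast hs
  have hγ1 : γ ≤ 8 * s / D ^ 2 := by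
    have r1 : ((K + 3 * D * x : ℕ) : ℝ) ≤ 4 * D * s * K := by exact_mod_cast hE
    have r2 : (2 * (4 * D * s * K) : ℝ) ≤ D ^ 3 * K := by exact_mod_cast hE2
    have r3 : (D ^ 3 * K : ℝ) ≤ (n * K : ℕ) := by exact_mod_cast hE3
    have r4 : (0 : ℝ) < D ^ 3 * K := by positivity
    calc γ ≤ (4 * D * s * K) / (D ^ 3 * K / 2) :=
          div_le_div₀ (by positivity) r1 (by positivity) (by linarith)
      _ = _ := by field_simp; ring
  have hγ2 : γ ≤ 1 := by
    refine hγ1.trans ?_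
    rw [div_le_one (by positivity)]
    exact_mod_cast hD8
  have hγ3 : γ * (2 * s ^ 2) ≤ 4 / s := by
    calc γ * (2 * s ^ 2) ≤ 8 * s / D ^ 2 * (2 * s ^ 2) := by gcongr
      _ = _ := by rw [hDr]; field_simp; ring
  have hn1 : (1 : ℝ) ≤ (n * K : ℕ) := by
    have : 0 < n * K := by omega
    exact_mod_cast this
  set Hr : ℝ := K * ((n * K : ℕ) * Real.exp (4 * κ / s * x)) with hHr
  have hH : ∀ b, (L (c b) : ℝ) ≤ Hr := by
    intro b
    refine (hc2 b).2.trans ?_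
    rw [hHr, Real.mul_rpow (by positivity) (by positivity), ← Real.exp_mul]
    refine mul_le_mul_of_nonneg_left (mul_le_mul ?_ (Real.exp_le_exp.2 ?_) (by positivity)
      (by positivity)) (by positivity)
    · exact Real.rpow_le_self_of_one_le hn1 hγ2
    · calc κ * (2 * s ^ 2) * x * γ = κ * x * (γ * (2 * s ^ 2)) := by ring
        _ ≤ κ * x * (4 / s) := by gcongr
        _ = _ := by ring
  obtain ⟨g, hg0, hg1⟩ := hextr c hc0 hc1
  set G : ℤ := (16 + 24 * J + 24 * D) * x with hG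
  have hxz : (1 : ℤ) ≤ x := by exact_mod_cast hx
  obtain ⟨P, hP0, hP1, hP2, hP3⟩ := exists_P a N ex ha hex hT1 hN _ hg0 q hg1 K ⌊Hr⌋ G
    (fun m => (hc2 _).1) (fun m => Int.le_floor.2 (hH _))
    (by rw [hG]; nlinarith [Int.natCast_nonneg J, Int.natCast_nonneg D])
    (by
      intro m
      have h1 := L_prod_lin a ha1 hT Finset.univ
      have h2 := L_lam a ha1 hT N D (ex m) (hexD m)
      have h3 : ((K + J * Fintype.card τ : ℕ) : ℤ) ≤ 2 * x + 3 * J * x := by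
        have : J * Fintype.card τ ≤ J * 3 := Nat.mul_le_mul_left _ hT
        have h4 : J * 3 * 1 ≤ J * 3 * x := Nat.mul_le_mul_left _ hx
        have : K + J * Fintype.card τ ≤ 2 * x + 3 * J * x := by nlinarith
        exact_mod_cast this
      have h4 : (24 * N * D : ℤ) ≤ 24 * x * D := by gcongr
      have h5 : L (Pi0 a) * ((K + J * Fintype.card τ : ℕ) : ℤ) ≤ 8 * (2 * x + 3 * J * x) :=
        mul_le_mul h1 h3 (by positivity) (by norm_num)
      rw [← hJ, hG]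
      nlinarith) φ hq hf
  rw [← hJ] at hP2 hP3
  refine ⟨P, hP0, hP1, ?_, ?_⟩
  · have h1 : P.natDegree ≤ x / s + (1 + 3 * J) := by
      have : J * Fintype.card τ ≤ J * 3 := Nat.mul_le_mul_left _ hT
      omega
    have h2 : (P.natDegree : ℝ) ≤ (x / s : ℕ) + (1 + 3 * J) := by exact_mod_cast h1
    have h3 : ((x / s : ℕ) : ℝ) ≤ x / s := Nat.cast_div_le
    linarith
  · have h1 : (L P : ℝ) ≤ J * (G ^ J * (⌊Hr⌋ : ℤ)) := by exact_mod_cast hP3
    have hxr : (1 : ℝ) ≤ x := by exact_mod_cast hx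
    set Y : ℝ := (16 + 24 * J + 24 * D + n : ℝ) * x with hY
    have hJ0 : (0 : ℝ) ≤ J := Nat.cast_nonneg _
    have hD0' : (0 : ℝ) ≤ D := Nat.cast_nonneg _
    have hn0 : (0 : ℝ) ≤ n := Nat.cast_nonneg _
    have hGY : (G : ℝ) ≤ Y := by rw [hG, hY]; push_cast; nlinarith
    have hG0 : (0 : ℝ) ≤ G := by rw [hG]; push_cast; positivity
    have hJY : (J : ℝ) ≤ Y := by rw [hY]; nlinarith
    have hnY : (n : ℝ) ≤ Y := by rw [hY]; nlinarith
    have hKY : (K : ℝ) ≤ Y := by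
      have : (K : ℝ) ≤ 2 * x := by exact_mod_cast hKx
      rw [hY]; nlinarith
    have hY0 : 0 ≤ Y := hJ0.trans hJY
    calc (L P : ℝ) ≤ J * (G ^ J * Hr) := h1.trans (by gcongr; exact Int.floor_le _)
      _ = J * (G ^ J * (K * (n * K * Real.exp (4 * κ / s * x)))) := by rw [hHr]; push_cast; rfl
      _ ≤ Y * (Y ^ J * (Y * (Y * Y * Real.exp (4 * κ / s * x)))) := by gcongr
      _ = Y ^ (J + 4) * Real.exp (4 * κ / s * x) := by ring
      _ ≤ Real.exp (η * x + c1) * Real.exp (4 * κ / s * x) := by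
          gcongr; exact hc1' x (by positivity)
      _ ≤ _ := by
          rw [← Real.exp_add]
          apply Real.exp_le_exp.2
          rw [add_mul (4 * κ / s) η x]
          linarith

lemma log_bound (card : ℕ) (LP Lw : ℤ) (n d : ℕ) (x y u v : ℝ) (h : (card : ℤ) ≤ LP ^ n * Lw ^ d)
    (h1 : 0 ≤ LP) (h2 : 0 ≤ Lw) (h3 : (LP : ℝ) ≤ Real.exp u) (h4 : (Lw : ℝ) ≤ Real.exp v)
    (hu : 0 ≤ u) (hv : 0 ≤ v) (hn : (n : ℝ) ≤ x) (hd : (d : ℝ) ≤ y) :
    Real.log card ≤ x * u + y * v := by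
  have hx : 0 ≤ x := (Nat.cast_nonneg _).trans hn
  have hy : 0 ≤ y := (Nat.cast_nonneg _).trans hd
  rcases Nat.eq_zero_or_pos card with h0 | h0
  · simp [h0]; positivity
  rw [Real.log_le_iff_le_exp (by exact_mod_cast h0)]
  have h5 : (card : ℝ) ≤ (LP : ℝ) ^ n * (Lw : ℝ) ^ d := by exact_mod_cast h
  have h1' : (0 : ℝ) ≤ LP := by exact_mod_cast h1
  have h2' : (0 : ℝ) ≤ Lw := by exact_mod_cast h2
  calc (card : ℝ) ≤ Real.exp u ^ n * Real.exp v ^ d := h5.trans (by gcongr)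
    _ = Real.exp (n * u + d * v) := by rw [Real.exp_add, Real.exp_nat_mul, Real.exp_nat_mul]
    _ ≤ _ := by gcongr

lemma exists_good_c (P : ℤ[X]) (hP : P ≠ 0) (k : ℕ) (Q : ℂ → ℂ[X])
    (hQ : ∀ z, Q z ≠ 0 ∧ (Q z).natDegree ≤ k) :
    ∃ c : ℕ, c ≤ k * P.natDegree ∧ ∀ z : ℂ, (Q z).eval (c : ℂ) ≠ 0 ∨ aeval z P ≠ 0 := by
  classical
  by_contra hne
  push Not at hne
  let S : Finset ℂ := (P.aroots ℂ).toFinset.biUnion fun z => (Q z).roots.toFinset
  have hS : S.card ≤ k * P.natDegree := by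
    refine Finset.card_biUnion_le.trans ?_
    calc ∑ z ∈ (P.aroots ℂ).toFinset, (Q z).roots.toFinset.card
        ≤ ∑ _z ∈ (P.aroots ℂ).toFinset, k := Finset.sum_le_sum fun z _ =>
          (Multiset.toFinset_card_le _).trans ((card_roots' _).trans (hQ z).2)
      _ = k * (P.aroots ℂ).toFinset.card := by simp [mul_comm]
      _ ≤ _ := Nat.mul_le_mul_left _ ((Multiset.toFinset_card_le _).trans
          ((card_roots' _).trans natDegree_map_le))
  have hsub : (Finset.range (k * P.natDegree + 1)).image (Nat.cast : ℕ → ℂ) ⊆ S := by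
    intro y hy
    obtain ⟨c, hc, rfl⟩ := Finset.mem_image.1 hy
    obtain ⟨z, hz1, hz2⟩ := hne c (by simpa [Nat.lt_succ_iff] using hc)
    refine Finset.mem_biUnion.2 ⟨z, ?_, ?_⟩
    · rw [Multiset.mem_toFinset, mem_aroots]; exact ⟨hP, hz2⟩
    · rw [Multiset.mem_toFinset, mem_roots (hQ z).1]; exact hz1
  have := Finset.card_le_card hsub
  rw [Finset.card_image_of_injective _ Nat.cast_injective, Finset.card_range] at this
  omega

lemma lin_le (b ε : ℝ) (hε : 0 < ε) (x : ℝ) : b * x ≤ ε * x ^ 2 + b ^ 2 / (4 * ε) := by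
  have : ε * x ^ 2 + b ^ 2 / (4 * ε) - b * x = (2 * ε * x - b) ^ 2 / (4 * ε) := by
    field_simp; ring
  have h2 : 0 ≤ (2 * ε * x - b) ^ 2 / (4 * ε) := by positivity
  linarith

end Pool.Agent.H63.SiegelPoly
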