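import Mathlib

set_option autoImplicit false
open MeasureTheory Real Set

namespace Pool.Agent.H63.Sine

noncomputable abbrev X := Lp ℝ 2 (volume.restrict (Ioo (0 : ℝ) 1))

theorem mem (k : ℕ) : MemLp (fun z : ℝ => √2 * sin (k * π * z)) 2 (volume.restrict (Ioo (0 : ℝ) 1)) :=
  MemLp.of_bound (by fun_prop : Continuous fun z : ℝ => √2 * sin (k * π * z)).aestronglyMeasurable √2
    (Filter.Eventually.of_forall fun z => by
      rw [norm_mul, Real.norm_of_nonneg (sqrt_nonneg 2)]
      exact mul_le_of_le_one_right (sqrt_nonneg 2) (abs_sin_le_one _))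

noncomputable def e (n : ℕ) : X := (mem (n + 1)).toLp _

theorem inner_e (n : ℕ) (x : X) :
    inner ℝ (e n) x = √2 * ∫ z in Ioo (0 : ℝ) 1, x z * sin ((n + 1 : ℕ) * π * z) := by
  rw [L2.inner_def, ← integral_const_mul]
  apply integral_congr_ae
  filter_upwards [(mem (n + 1)).coeFn_toLp] with z hz
  rw [e, hz]; simp only [RCLike.inner_apply, conj_trivial]; ring

theorem int_cos (m : ℤ) : ∫ z in Ioo (0 : ℝ) 1, cos (m * π * z) = if m = 0 then 1 else 0 := by
  rw [← integral_Ioc_eq_integral_Ioo, ← intervalIntegral.integral_of_le zero_le_one]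
  split_ifs with h
  · simp [h]
  · have : (m : ℝ) * π ≠ 0 := mul_ne_zero (by exact_mod_cast h) pi_ne_zero
    rw [intervalIntegral.integral_comp_mul_left (fun z => cos z) this]
    simp [sin_int_mul_pi]

theorem ortho : Orthonormal ℝ e := by
  rw [orthonormal_iff_ite]
  intro i j
  rw [inner_e]
  have h1 : ∫ z in Ioo (0 : ℝ) 1, e j z * sin ((i + 1 : ℕ) * π * z) =
      ∫ z in Ioo (0 : ℝ) 1, (√2 / 2) * (cos (((j : ℤ) - i : ℤ) * π * z) -
        cos (((j : ℤ) + i + 2 : ℤ) * π * z)) := by
    apply integral_congr_ae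
    filter_upwards [(mem (j + 1)).coeFn_toLp] with z hz
    rw [e, hz, cos_sub_cos]
    push_cast
    rw [show (((j : ℝ) - i) * π * z + (j + i + 2) * π * z) / 2 = (j + 1) * π * z by ring,
      show (((j : ℝ) - i) * π * z - (j + i + 2) * π * z) / 2 = -((i + 1) * π * z) by ring, sin_neg]
    ring
  have hi : ∀ m : ℤ, IntegrableOn (fun z : ℝ => cos (m * π * z)) (Ioo 0 1) := fun m =>
    ((by fun_prop : Continuous fun z : ℝ => cos (m * π * z)).integrableOn_Icc).mono_set
      Ioo_subset_Icc_self
  rw [h1, integral_const_mul, integral_sub (hi _) (hi _), int_cos, int_cos,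
    if_neg (by omega : ¬ ((j : ℤ) + i + 2 = 0)), ← mul_assoc, ← mul_div_assoc,
    mul_self_sqrt (by norm_num)]
  by_cases h : i = j
  · simp [h]
  · rw [if_neg h, if_neg (by omega)]; norm_num

theorem complete (x : X) (h : ∀ n, inner ℝ (e n) x = 0) : x = 0 := by
  have h0 : ∀ n : ℕ, ∫ z in Ioo (0 : ℝ) 1, x z * sin (n * π * z) = 0 := by
    intro n
    rcases n with _ | n
    · simp
    · have := h n
      rw [inner_e] at this
      exact (mul_eq_zero.1 this).resolve_left (by positivity)
  have h1 : ∀ m : ℤ, ∫ z in Ioo (0 : ℝ) 1, x z * sin (m * π * z) = 0 := by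
    intro m
    obtain ⟨n, rfl | rfl⟩ := m.eq_nat_or_neg
    · exact_mod_cast h0 n
    · simp only [Int.cast_neg, neg_mul, sin_neg, mul_neg, integral_neg, Int.cast_natCast, h0 n,
        neg_zero]
  set y : ℝ → ℝ := (Ioo (0 : ℝ) 1).indicator x with hy
  have ym : MemLp y 2 volume := (memLp_indicator_iff_restrict measurableSet_Ioo).2 (Lp.memLp x)
  have yn : MemLp (fun z => y (-z)) 2 volume :=
    ym.comp_measurePreserving (Measure.measurePreserving_neg volume)
  have gm : MemLp (fun z => ((y z - y (-z) : ℝ) : ℂ)) 2 (volume.restrict (Ioc (-1 : ℝ) 1)) :=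
    ((ym.sub yn).restrict _).ofReal
  have yi : IntervalIntegrable (fun z => (y z : ℂ)) volume (-1) 1 :=
    (intervalIntegrable_iff_integrableOn_Ioc_of_le (by norm_num)).2
      ((ym.restrict _).integrable (by norm_num)).ofReal
  have P := hasSum_sq_fourierCoeffOn (by norm_num : (-1 : ℝ) < 1) gm
  have z : ∀ i : ℤ, fourierCoeffOn (by norm_num : (-1 : ℝ) < 1)
      (fun z => ((y z - y (-z) : ℝ) : ℂ)) i = 0 := by
    intro i
    rw [fourierCoeffOn_eq_integral]
    have c : ∀ j : ℤ, Continuous fun z : ℝ => Complex.exp (j * π * z * Complex.I) := fun j => by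
      fun_prop
    have I1 : ∀ j : ℤ, IntervalIntegrable
        (fun z : ℝ => Complex.exp (j * π * z * Complex.I) * y z) volume (-1) 1 := fun j =>
      yi.continuousOn_mul (c j).continuousOn
    have e1 : ∀ z : ℝ, (fourier (-i) (z : AddCircle (1 - -1 : ℝ))) • ((y z - y (-z) : ℝ) : ℂ) =
        Complex.exp ((-i : ℤ) * π * z * Complex.I) * y z -
          (fun z : ℝ => Complex.exp (i * π * z * Complex.I) * y z) (-z) := by
      intro z
      rw [fourier_coe_apply]
      have : (2 * π * Complex.I * (-i : ℤ) * z / (1 - -1 : ℝ) : ℂ) = (-i : ℤ) * π * z * Complex.I := by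
        push_cast; ring
      rw [this]
      simp only [smul_eq_mul]
      push_cast
      rw [show (i * π * -z * Complex.I : ℂ) = -i * π * z * Complex.I by ring]
      ring
    simp_rw [e1]
    rw [intervalIntegral.integral_sub (I1 _) (by
      have := (IntervalIntegrable.iff_comp_neg).1 (I1 i)
      simpa using this.symm), intervalIntegral.integral_comp_neg
      (fun z : ℝ => Complex.exp (i * π * z * Complex.I) * y z), neg_neg,
      ← intervalIntegral.integral_sub (I1 _) (I1 _)]
    have e2 : ∀ z : ℝ, Complex.exp ((-i : ℤ) * π * z * Complex.I) * y z -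
        Complex.exp (i * π * z * Complex.I) * y z =
        (-2 * Complex.I) * (((Ioo (0 : ℝ) 1).indicator (fun z => x z * sin (i * π * z)) z : ℝ) : ℂ) := by
      intro z
      by_cases hz : z ∈ Ioo (0 : ℝ) 1
      · rw [hy, indicator_of_mem hz, indicator_of_mem hz]
        push_cast
        rw [Complex.sin, show (-(i * π * z) * Complex.I : ℂ) = -i * π * z * Complex.I by ring]
        linear_combination (↑(x z) * (Complex.exp (-i * π * z * Complex.I) -
          Complex.exp (i * π * z * Complex.I))) * Complex.I_mul_I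
      · rw [hy, indicator_of_notMem hz, indicator_of_notMem hz]; simp
    simp_rw [e2]
    rw [intervalIntegral.integral_const_mul, intervalIntegral.integral_ofReal,
      intervalIntegral.integral_of_le (by norm_num), setIntegral_indicator measurableSet_Ioo,
      inter_eq_right.2 (show Ioo (0 : ℝ) 1 ⊆ Ioc (-1 : ℝ) 1 from
        fun z hz => ⟨by linarith [hz.1], hz.2.le⟩), h1]
    simp
  simp only [z, norm_zero, ne_eq, OfNat.ofNat_ne_zero, not_false_eq_true, zero_pow] at P
  have P2 := hasSum_zero.unique P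
  rw [intervalIntegral.integral_of_le (by norm_num), smul_eq_mul, eq_comm, mul_eq_zero,
    integral_eq_zero_iff_of_nonneg (fun _ => by positivity)
      (by simpa using (memLp_two_iff_integrable_sq_norm gm.1).1 gm)] at P2
  have P3 := ae_restrict_of_ae_restrict_of_subset (s := Ioo (0 : ℝ) 1) (t := Ioc (-1 : ℝ) 1)
    (fun z hz => ⟨by linarith [hz.1], hz.2.le⟩) (P2.resolve_left (by norm_num))
  ext1
  filter_upwards [P3, ae_restrict_mem measurableSet_Ioo, Lp.coeFn_zero ℝ 2 _] with z h1 h2 h3
  rw [h3]
  rw [hy, indicator_of_mem h2, indicator_of_notMem (fun h => by linarith [h.1, h2.1])] at h1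
  simpa using h1

noncomputable def sb : HilbertBasis ℕ ℝ X :=
  HilbertBasis.mkOfOrthogonalEqBot ortho (by
    rw [Submodule.eq_bot_iff]
    exact fun x hx => complete x fun n =>
      Submodule.inner_right_of_mem_orthogonal (Submodule.subset_span (mem_range_self n)) hx)

theorem parseval (x : X) : HasSum (fun n => inner ℝ (e n) x ^ 2) (‖x‖ ^ 2) := by
  have := sb.hasSum_inner_mul_inner x x
  simp only [sb, HilbertBasis.coe_mkOfOrthogonalEqBot, real_inner_self_eq_norm_sq] at this
  simpa only [sq, real_inner_comm x] using this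

theorem synth (a : ℕ → ℝ) (h : Summable fun n => a n ^ 2) : ∃ x : X, ∀ n, inner ℝ (e n) x = a n := by
  have hm : Memℓp a 2 := memℓp_gen (by simpa using h)
  refine ⟨sb.repr.symm ⟨a, hm⟩, fun n => ?_⟩
  have := sb.repr_apply_apply (sb.repr.symm ⟨a, hm⟩) n
  rw [LinearIsometryEquiv.apply_symm_apply] at this
  simpa [sb] using this.symm

theorem ext' {x y : X} (h : ∀ n, inner ℝ (e n) x = inner ℝ (e n) y) : x = y :=
  sub_eq_zero.1 (complete _ fun n => by rw [inner_sub_right, h, sub_self])

end Pool.Agent.H63.Sine
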