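import Mathlib

set_option autoImplicit false

namespace Pool.Agent.H63.SpGen

open Matrix SymplecticGroup

variable {l : Type} [DecidableEq l] [Fintype l]

/-- copied from a private lemma of Mathlib -/
lemma exists_symm {R : Type} [Field R]
    {A C : Matrix l l R} (hker : ∀ (x : l → R), (A • x = 0) → (C • x = 0) → x = 0)
    (hsymm : Aᵀ * C = Cᵀ * A) :
    ∃ (X : Matrix l l R), X.IsSymm ∧ IsUnit (A + X * C) := by
  rcases exists_rank_normal_form C with ⟨V, U, s, hV, hU, heq⟩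
  set P := V * C * U with P_def; set Q := Vᵀ⁻¹ * A * U with Q_def
  set f := fun (x : Matrix l l R) ↦ x.submatrix s.symm s.symm
  have hf (x) : f x = x.submatrix s.symm s.symm := rfl
  have f_unit {x} : IsUnit x → IsUnit (f x) := (isUnit_submatrix_equiv ..).2
  have f_mul (x y) : f (x * y) = f x * f y := submatrix_mul _ _ _ _ _ s.symm.bijective
  have _ : Invertible V := hV.invertible
  have _ : Invertible U := hU.invertible
  have _ : Invertible (f Vᵀ) := (f_unit (V.isUnit_transpose.2 hV)).invertible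
  have con1 (x : Fin C.rank ⊕ Fin (Fintype.card l - C.rank) → R)
      (heq1 : (f Q) • x = 0) (heq2 : (f P) • x = 0) : x = 0 := by
    refine (f_unit hU).smul_left_cancel.1 ?_
    rw [f_mul, f_mul, mul_assoc, mul_smul, IsUnit.smul_eq_zero, mul_smul, hf,
      smul_eq_mulVec, submatrix_mulVec_equiv, Equiv.symm_symm] at heq1 heq2
    · rw [Equiv.comp_symm_eq, Pi.zero_comp] at heq1 heq2
      exact s.surjective.injective_comp_right <| by simpa using hker _ heq1 heq2
    · exact f_unit hV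
    · exact f_unit <| isUnit_nonsing_inv_iff.2 <| V.isUnit_transpose.2 hV
  have con2 : Qᵀ * P = Pᵀ * Q := by
    simp only [P_def, mul_assoc, transpose_mul, transpose_nonsing_inv, transpose_transpose, Q_def,
      inv_mul_cancel_left_of_invertible, mul_inv_cancel_left_of_invertible]
    rw [← mul_assoc Aᵀ, hsymm, mul_assoc]
  replace con2 : (f Q).toBlocks₁₁ᵀ = (f Q).toBlocks₁₁ ∧ (f Q).toBlocks₁₂ = 0 := by
    apply_fun reindex s s at con2
    rw [reindex_apply, reindex_apply, ← hf, ← hf, f_mul, f_mul Pᵀ, heq, hf,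
      ← transpose_submatrix, ← hf Q, ← (f Q).fromBlocks_toBlocks, hf (_)ᵀ, hf
      ((fromBlocks 1 0 0 0).submatrix _ _)] at con2
    simp [fromBlocks_transpose, fromBlocks_multiply] at con2; tauto
  have con3 : IsUnit (f Q).toBlocks₂₂ := by
    refine mulVec_injective_iff_isUnit.1 ?_
    rw [← coe_mulVecLin, ← LinearMap.ker_eq_bot]
    refine ker_mulVecLin_eq_bot_iff.2 fun x hx ↦ Sum.elim_injective' <|
      (con1 _ ?_ ?_).trans Sum.elim_zero_zero.symm
    · rw [← (f Q).fromBlocks_toBlocks]; simp [hx, con2.2, fromBlocks_mulVec]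
    · simp [hf, heq, fromBlocks_mulVec]
  set Y : Matrix (Fin C.rank ⊕ Fin (Fintype.card l - C.rank)) (Fin C.rank ⊕
    Fin (Fintype.card l - C.rank)) R := fromBlocks (1 - (f Q).toBlocks₁₁) 0 0 0 with Y_def
  have hY_symm : Y.IsSymm := by
    rw [Y_def, isSymm_fromBlocks_iff]
    exact ⟨IsSymm.sub isSymm_one con2.1, by simp⟩
  set X := (f Vᵀ) * Y * (f V) with X_def
  refine ⟨X.submatrix s s, IsSymm.submatrix ?_ s, (isUnit_submatrix_equiv s.symm s.symm).1 ?_⟩
  · simp_rw [X_def, Matrix.IsSymm, transpose_mul, hY_symm.eq, hf, transpose_submatrix,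
      transpose_transpose, mul_assoc]
  · have heq' : f (A + X.submatrix s s * C) = (f Vᵀ) * (f Q + Y * (f P)) * f (U⁻¹) := by
      simp_rw [hf, submatrix_add, Pi.add_apply, Q_def, P_def, ← hf, f_mul, hf, mul_add, ← mul_assoc,
        ← inv_submatrix_equiv, add_mul, mul_assoc _ (U.submatrix _ _), mul_inv_of_invertible]
      simp [X_def]; rfl
    rw [← hf, heq', IsUnit.mul_iff, IsUnit.mul_iff]
    refine ⟨⟨isUnit_of_invertible _, ?_⟩, ?_⟩
    · nth_rw 1 [Y_def, heq, ← (f Q).fromBlocks_toBlocks, con2.2]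
      simpa [hf, fromBlocks_multiply, fromBlocks_add]
    · exact f_unit <| isUnit_nonsing_inv_iff.2 hU


variable {K : Type} [Field K]

section gen
variable (H : Matrix (l ⊕ l) (l ⊕ l) K → Prop)
  (hmul : ∀ g h, H g → H h → H (g * h))
  (hcancel : ∀ g h, g ∈ symplecticGroup l K → H h → H (h * g) → H g)
  (hconj : ∀ h, H h → H (J l K * h * -J l K))
  (hN : ∀ S : Matrix l l K, Sᵀ = S → H (fromBlocks 1 S 0 1))
include hconj hN

lemma lower (S : Matrix l l K) (hS : Sᵀ = S) : H (fromBlocks 1 0 S 1) := by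
  have := hconj _ (hN (-S) (by rw [transpose_neg, hS]))
  simpa [J, fromBlocks_neg, fromBlocks_multiply] using this

include hmul

lemma weyl (S S' : Matrix l l K) (hS : Sᵀ = S) (hS' : S'ᵀ = S') (h1 : S * S' = 1) :
    H (fromBlocks 0 S (-S') 0) := by
  have h2 : S' * S = 1 := mul_eq_one_comm.1 h1
  have := hmul _ _ (hmul _ _ (hN S hS) (lower H hconj hN (-S') (by rw [transpose_neg, hS'])))
    (hN S hS)
  simpa [fromBlocks_multiply, h1, h2] using this

lemma levi_symm (S : Matrix l l K) (hS : Sᵀ = S) (h : S.det ≠ 0) :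
    H (fromBlocks S 0 0 (S⁻¹)ᵀ) := by
  have h1 : S * S⁻¹ = 1 := mul_nonsing_inv S (Ne.isUnit h)
  have hS' : (S⁻¹)ᵀ = S⁻¹ := by rw [transpose_nonsing_inv, hS]
  have := hmul _ _ (weyl H hmul hconj hN S S⁻¹ hS hS' h1)
    (weyl H hmul hconj hN (-1) (-1) (by simp) (by simp) (by simp))
  rw [hS']
  simpa [fromBlocks_multiply] using this

lemma levi (A : Matrix l l K) (h : A.det ≠ 0) : H (fromBlocks A 0 0 (A⁻¹)ᵀ) := by
  have hm : ∀ A B : Matrix l l K, H (fromBlocks A 0 0 (A⁻¹)ᵀ) → H (fromBlocks B 0 0 (B⁻¹)ᵀ) →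
      H (fromBlocks (A * B) 0 0 ((A * B)⁻¹)ᵀ) := by
    intro A B hA hB
    have := hmul _ _ hA hB
    simpa [fromBlocks_multiply, Matrix.mul_inv_rev] using this
  apply diagonal_transvection_induction_of_det_ne_zero
    (fun A : Matrix l l K => H (fromBlocks A 0 0 (A⁻¹)ᵀ)) A h
  · intro D hD
    exact levi_symm H hmul hconj hN _ (diagonal_transpose D) hD
  · intro t
    have e : swap K t.i t.j * (swap K t.i t.j + single t.j t.j t.c) = t.toMatrix := by
      rw [mul_add, swap_mul_self, TransvectionStruct.toMatrix, transvection]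
      congr 1
      ext a b
      by_cases h1 : a = t.i
      · subst h1; rw [swap_mul_apply_left]; simp [single_apply]
      · by_cases h2 : a = t.j
        · subst h2; rw [swap_mul_apply_right]; simp [single_apply, t.hij, t.hij.symm]
        · rw [swap_mul_of_ne h1 h2]; simp [single_apply, Ne.symm h1, Ne.symm h2]
    have hd := congrArg det e
    rw [det_mul, TransvectionStruct.det] at hd
    have := hm _ _ (levi_symm H hmul hconj hN (swap K t.i t.j) (transpose_swap _ _)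
      (left_ne_zero_of_mul_eq_one hd)) (levi_symm H hmul hconj hN
        (swap K t.i t.j + single t.j t.j t.c) (by simp) (right_ne_zero_of_mul_eq_one hd))
    rwa [e] at this
  · intro A B _ _ hA hB
    exact hm A B hA hB

include hcancel

theorem gen (hsp : ∀ h, H h → h ∈ symplecticGroup l K) (g : Matrix (l ⊕ l) (l ⊕ l) K)
    (hg : g ∈ symplecticGroup l K) : H g := by
  have sA : ∀ b d : Matrix l l K, fromBlocks 1 b 0 d ∈ symplecticGroup l K →
      H (fromBlocks 1 b 0 d) := by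
    intro b d h
    obtain ⟨-, h2, h3⟩ := fromBlocks_mem_iff.1 h
    have hd : d = 1 := by simpa using h3
    subst hd
    exact hN b (by simpa using h2)
  have sB : ∀ b c d : Matrix l l K, fromBlocks 1 b c d ∈ symplecticGroup l K →
      H (fromBlocks 1 b c d) := by
    intro b c d h
    obtain ⟨h1, -, -⟩ := fromBlocks_mem_iff.1 h
    have hc : (-c)ᵀ = -c := by rw [transpose_neg]; simpa using h1.symm
    have h4 := lower H hconj hN _ hc
    refine hcancel _ _ h h4 ?_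
    have h5 := mul_mem (hsp _ h4) h
    simp only [fromBlocks_multiply, Matrix.one_mul, Matrix.zero_mul, add_zero, Matrix.mul_one,
      neg_add_cancel] at h5 ⊢
    exact sA _ _ h5
  have sC : ∀ a b c d : Matrix l l K, a.det ≠ 0 → fromBlocks a b c d ∈ symplecticGroup l K →
      H (fromBlocks a b c d) := by
    intro a b c d ha h
    have h4 := levi H hmul hconj hN a⁻¹ (isUnit_nonsing_inv_det a (Ne.isUnit ha)).ne_zero
    refine hcancel _ _ h h4 ?_
    have h5 := mul_mem (hsp _ h4) h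
    simp only [fromBlocks_multiply, Matrix.zero_mul, add_zero,
      nonsing_inv_mul a (Ne.isUnit ha)] at h5 ⊢
    exact sB _ _ _ h5
  rw [← fromBlocks_toBlocks g] at hg ⊢
  generalize g.toBlocks₁₁ = a at *
  generalize g.toBlocks₁₂ = b at *
  generalize g.toBlocks₂₁ = c at *
  generalize g.toBlocks₂₂ = d at *
  have hF : IsUnit (fromBlocks a b c d) := (isUnit_iff_isUnit_det _).2 (symplectic_det hg)
  obtain ⟨X, hX, hu⟩ := exists_symm (A := a) (C := c) (fun x hx1 hx2 => by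
    have hv0 : fromBlocks a b c d *ᵥ (Sum.elim x 0) = fromBlocks a b c d *ᵥ (Sum.elim 0 0) := by
      rw [smul_eq_mulVec] at hx1 hx2
      simp [fromBlocks_mulVec, hx1, hx2]
    exact (Sum.elim_eq_iff.1 (mulVec_injective_iff_isUnit.2 hF hv0)).1) (fromBlocks_mem_iff.1 hg).1
  have h4 := hN X hX
  refine hcancel _ _ hg h4 ?_
  have h5 := mul_mem (hsp _ h4) hg
  simp only [fromBlocks_multiply, Matrix.one_mul] at h5 ⊢
  exact sC _ _ _ _ ((isUnit_iff_isUnit_det _).1 hu).ne_zero h5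

end gen

section axb
variable {p : ℕ} [Fact p.Prime] {V : Type} [AddCommGroup V] [Module ℂ V]

lemma approx (z : ℚ_[p]) (hz : ‖z‖ ≤ 1) (N : ℕ) :
    ∃ i : ℕ, ‖z - i‖ ≤ (p : ℝ) ^ (-(N : ℤ)) := by
  let z' : ℤ_[p] := ⟨z, hz⟩
  refine ⟨z'.appr N, ?_⟩
  have := (PadicInt.norm_le_pow_iff_mem_span_pow _ N).2 (PadicInt.appr_spec N z')
  simpa [z', PadicInt.norm_def] using this

lemma shift (u : ℚ_[p] → V →ₗ[ℂ] V) (hu : ∀ x y v, u (x + y) v = u x (u y v)) (w : V) (r : ℝ)
    (hw : ∀ z, ‖z‖ ≤ r → u z w = w) (b : ℚ_[p]) (N : ℕ) (hb : (p : ℝ) ^ (-(N : ℤ)) * ‖b‖ ≤ r)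
    (z : ℚ_[p]) (hz : ‖z‖ ≤ 1) :
    u (z * b) (∑ i ∈ Finset.range (p ^ N), u (i * b) w) = ∑ i ∈ Finset.range (p ^ N), u (i * b) w := by
  have hr : 0 ≤ r := le_trans (by positivity) hb
  have h0 : u 0 w = w := hw 0 (by simpa using hr)
  have h1 : u b (∑ i ∈ Finset.range (p ^ N), u (i * b) w) =
      ∑ i ∈ Finset.range (p ^ N), u (i * b) w := by
    have e1 := Finset.sum_range_succ (fun i : ℕ => u (i * b) w) (p ^ N)
    have e2 := Finset.sum_range_succ' (fun i : ℕ => u (i * b) w) (p ^ N)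
    have e3 : u (((p ^ N : ℕ) : ℚ_[p]) * b) w = w := by
      apply hw
      rw [norm_mul, Nat.cast_pow, Padic.norm_p_pow]
      exact hb
    rw [e1, e3] at e2
    simp only [Nat.cast_zero, zero_mul, h0] at e2
    rw [map_sum]
    conv_rhs => rw [add_right_cancel e2]
    refine Finset.sum_congr rfl fun i _ => ?_
    rw [← hu]; congr 2; push_cast; ring
  have h2 : ∀ k : ℕ, u (k * b) (∑ i ∈ Finset.range (p ^ N), u (i * b) w) =
      ∑ i ∈ Finset.range (p ^ N), u (i * b) w := by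
    intro k
    induction k with
    | zero =>
      rw [map_sum]
      refine Finset.sum_congr rfl fun i _ => ?_
      rw [← hu]; simp
    | succ k ih => rw [Nat.cast_succ, add_mul, one_mul, hu, h1, ih]
  obtain ⟨k, hk⟩ := approx z hz N
  rw [show z * b = (z - k) * b + k * b by ring, hu, h2, map_sum]
  refine Finset.sum_congr rfl fun i _ => ?_
  rw [← hu, add_comm, hu, hw]
  rw [norm_mul]
  exact le_trans (mul_le_mul_of_nonneg_right hk (norm_nonneg _)) hb

lemma average (t : ℚ_[p] → V →ₗ[ℂ] V)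
    (ht : ∀ a b v, a ≠ 0 → b ≠ 0 → t (a * b) v = t a (t b v)) (M : ℕ) :
    ∃ (ι : Type) (_ : Fintype ι) (s : ι → ℚ_[p]), (∀ α, ‖s α‖ = 1) ∧ (∃ α, s α = 1) ∧
      ∀ w : V, (∀ a, ‖a‖ = 1 → ‖a - 1‖ ≤ (p : ℝ) ^ (-(M : ℤ)) → t a w = w) →
        ∀ a, ‖a‖ = 1 → t a (∑ α, t (s α) w) = ∑ α, t (s α) w := by
  classical
  haveI : NeZero (p ^ M) := ⟨pow_ne_zero _ (Fact.out : p.Prime).ne_zero⟩
  let φ : ℤ_[p]ˣ →* (ZMod (p ^ M))ˣ := Units.map (PadicInt.toZModPow M).toMonoidHom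
  have hs : ∀ α : φ.range, ∃ a : ℤ_[p]ˣ, φ a = α ∧ (α = 1 → a = 1) := by
    intro α
    by_cases h : α = 1
    · exact ⟨1, by simp [h], fun _ => rfl⟩
    · obtain ⟨a, ha⟩ := α.2
      exact ⟨a, ha, fun h' => absurd h' h⟩
  choose s hs1 hs2 using hs
  have hn : ∀ a : ℤ_[p]ˣ, ‖((a : ℤ_[p]) : ℚ_[p])‖ = 1 := fun a => PadicInt.norm_units a
  have hn0 : ∀ a : ℤ_[p]ˣ, ((a : ℤ_[p]) : ℚ_[p]) ≠ 0 := fun a h => by
    have := hn a; rw [h] at this; simp at this
  refine ⟨φ.range, inferInstance, fun α => ((s α : ℤ_[p]) : ℚ_[p]), fun α => hn _,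
    ⟨1, by simp [hs2 1 rfl]⟩, fun w hw a ha => ?_⟩
  have key : ∀ x y : ℤ_[p]ˣ, φ x = φ y → t ((x : ℤ_[p]) : ℚ_[p]) w = t ((y : ℤ_[p]) : ℚ_[p]) w := by
    intro x y hxy
    have e : ((x : ℤ_[p]) : ℚ_[p]) = ((y : ℤ_[p]) : ℚ_[p]) * (((y⁻¹ * x : ℤ_[p]ˣ) : ℤ_[p]) : ℚ_[p]) := by
      rw [← PadicInt.coe_mul, ← Units.val_mul, mul_inv_cancel_left]
    rw [e, ht _ _ _ (hn0 _) (hn0 _), hw _ (hn _)]
    have h1 : φ (y⁻¹ * x) = 1 := by rw [map_mul, map_inv, hxy, inv_mul_cancel]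
    have h2 : PadicInt.toZModPow M (((y⁻¹ * x : ℤ_[p]ˣ) : ℤ_[p]) - 1) = 0 := by
      rw [map_sub, map_one, sub_eq_zero]
      exact congrArg Units.val h1
    rw [← RingHom.mem_ker, PadicInt.ker_toZModPow, ← PadicInt.norm_le_pow_iff_mem_span_pow] at h2
    exact h2
  let a' : ℤ_[p]ˣ := PadicInt.mkUnits ha
  have ha' : ((a' : ℤ_[p]) : ℚ_[p]) = a := rfl
  rw [map_sum]
  refine Fintype.sum_equiv (Equiv.mulLeft (⟨φ a', a', rfl⟩ : φ.range)) _ _ fun α => ?_
  rw [← ha', ← ht _ _ _ (hn0 _) (hn0 _), ← PadicInt.coe_mul, ← Units.val_mul]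
  apply key
  rw [map_mul, hs1, hs1]
  rfl

theorem unip_trivial (u t : ℚ_[p] → V →ₗ[ℂ] V) (hu : ∀ x y v, u (x + y) v = u x (u y v))
    (ht : ∀ a b v, a ≠ 0 → b ≠ 0 → t (a * b) v = t a (t b v))
    (hc : ∀ a x v, a ≠ 0 → t a (u x v) = u (x / a) (t a v))
    (st : ∀ v, ∃ k : ℕ, ∀ a, ‖a‖ = 1 → ‖a - 1‖ ≤ (p : ℝ) ^ (-(k : ℤ)) → t a v = v)
    (su : ∀ v, ∃ j : ℤ, ∀ x, ‖x‖ ≤ (p : ℝ) ^ j → u x v = v)
    (nofix : ∀ w, (∀ a, ‖a‖ = 1 → t a w = w) → w = 0) (v : V) (x : ℚ_[p]) : u x v = v := by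
  classical
  have hp1 : (1 : ℝ) < p := by exact_mod_cast (Fact.out : p.Prime).one_lt
  have hp0 : (0 : ℝ) < p := by linarith
  have ne0 : ∀ a : ℚ_[p], ‖a‖ = 1 → a ≠ 0 := fun a h h' => by rw [h'] at h; simp at h
  obtain ⟨m, hm⟩ := st v
  have step : ∀ j : ℤ, (∀ x, ‖x‖ ≤ (p : ℝ) ^ j → u x v = v) →
      ∀ y, ‖y‖ ≤ (p : ℝ) ^ (j + 1) → u y v = v := by
    intro j hj y hy
    set b : ℚ_[p] := (p : ℚ_[p]) ^ (-(j + m)) with hb
    have nb : ‖b‖ = (p : ℝ) ^ (j + m) := by rw [hb, Padic.norm_p_zpow, neg_neg]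
    choose k hk using fun i : ℕ => st (u (i * b) v)
    obtain ⟨ι, hι, s, s1, ⟨α0, s2⟩, s3⟩ := average t ht ((Finset.range (p ^ m)).sup k)
    have z1 : ∀ i ∈ Finset.range (p ^ m), ∑ α, u (i * (((s α)⁻¹ - 1) * b)) (t (s α) v) = 0 := by
      intro i hi
      have := nofix _ (s3 (u (i * b) v) (fun a ha ha' => hk i a ha (ha'.trans
        (zpow_le_zpow_right₀ hp1.le (by
          have := Finset.le_sup (f := k) hi; omega)))))
      have h2 := congrArg (u (-(i * b))) this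
      rw [map_sum, map_zero] at h2
      rw [← h2]
      refine Finset.sum_congr rfl fun α _ => ?_
      rw [hc _ _ _ (ne0 _ (s1 α)), ← hu]
      congr 2; ring
    have z2 : ∑ α, ∑ i ∈ Finset.range (p ^ m), u (i * (((s α)⁻¹ - 1) * b)) (t (s α) v) = 0 := by
      rw [Finset.sum_comm]; exact Finset.sum_eq_zero z1
    have hva : ∀ α z, ‖z‖ ≤ (p : ℝ) ^ j → u z (t (s α) v) = t (s α) v := by
      intro α z hz
      have := hc (s α) (z * s α) v (ne0 _ (s1 α))
      rw [mul_div_cancel_right₀ _ (ne0 _ (s1 α)), hj _ (by rw [norm_mul, s1, mul_one]; exact hz)]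
        at this
      exact this.symm
    have nc : ∀ α, ‖(s α)⁻¹ - 1‖ = ‖s α - 1‖ := by
      intro α
      have : (s α)⁻¹ - 1 = -(s α - 1) / s α := by field_simp [ne0 _ (s1 α)]; ring
      rw [this, norm_div, norm_neg, s1, div_one]
    have z3 : ∀ α, (u y - LinearMap.id : V →ₗ[ℂ] V)
        (∑ i ∈ Finset.range (p ^ m), u (i * (((s α)⁻¹ - 1) * b)) (t (s α) v)) =
        (if ‖s α - 1‖ ≤ (p : ℝ) ^ (-(m : ℤ)) then ((p ^ m : ℕ) : ℂ) else 0) • (u y v - v) := by
      intro α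
      split_ifs with h
      · rw [hm _ (s1 α) h, Finset.sum_congr rfl (g := fun _ => v) (fun i _ => hj _ (by
          rw [norm_mul, norm_mul, nc, nb]
          calc _ ≤ 1 * ((p : ℝ) ^ (-(m : ℤ)) * (p : ℝ) ^ (j + m)) := by
                gcongr
                exact_mod_cast Padic.norm_int_le_one (p := p) (i : ℤ)
            _ = _ := by rw [one_mul, ← zpow_add₀ hp0.ne']; congr 1; ring))]
        rw [Nat.cast_smul_eq_nsmul]
        simp [smul_sub]
      · have h' : (p : ℝ) ^ (-(m : ℤ) + 1) ≤ ‖s α - 1‖ := by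
          by_contra hcon
          exact h ((Padic.norm_le_pow_iff_norm_lt_pow_add_one _ _).2 (not_le.1 hcon))
        have hle : ‖s α - 1‖ ≤ 1 := by
          have := Padic.nonarchimedean (s α) (-1)
          rwa [s1, norm_neg, norm_one, max_self, ← sub_eq_add_neg] at this
        have nb' : (p : ℝ) ^ (j + 1) ≤ ‖((s α)⁻¹ - 1) * b‖ := by
          rw [norm_mul, nc, nb]
          calc _ = (p : ℝ) ^ (-(m : ℤ) + 1) * (p : ℝ) ^ (j + m) := by
                rw [← zpow_add₀ hp0.ne']; congr 1; ring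
            _ ≤ _ := by gcongr
        have hpos : 0 < ‖((s α)⁻¹ - 1) * b‖ := lt_of_lt_of_le (by positivity) nb'
        have := shift u hu (t (s α) v) _ (hva α) (((s α)⁻¹ - 1) * b) m (by
          rw [norm_mul, nc, nb]
          calc _ ≤ (p : ℝ) ^ (-(m : ℤ)) * (1 * (p : ℝ) ^ (j + m)) := by gcongr
            _ = _ := by rw [one_mul, ← zpow_add₀ hp0.ne']; congr 1; ring)
          (y / (((s α)⁻¹ - 1) * b)) (by
            rw [norm_div, div_le_one hpos]; exact hy.trans nb')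
        rw [div_mul_cancel₀ _ (norm_pos_iff.1 hpos)] at this
        rw [LinearMap.sub_apply, this, zero_smul, LinearMap.id_apply, sub_self]
    have z4 := congrArg (u y - LinearMap.id : V →ₗ[ℂ] V) z2
    rw [map_sum, map_zero, Finset.sum_congr rfl (fun α _ => z3 α), ← Finset.sum_smul] at z4
    rcases smul_eq_zero.1 z4 with h | h
    · exfalso
      have h' : ((∑ α, (if ‖s α - 1‖ ≤ (p : ℝ) ^ (-(m : ℤ)) then p ^ m else 0) : ℕ) : ℂ) = 0 := by
        rw [← h]; push_cast; rfl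
      rw [Nat.cast_eq_zero, Finset.sum_eq_zero_iff] at h'
      have := h' α0 (Finset.mem_univ _)
      rw [s2, sub_self, norm_zero, if_pos (by positivity)] at this
      exact pow_ne_zero _ (Fact.out : p.Prime).ne_zero this
    · exact sub_eq_zero.1 h
  obtain ⟨j, hj⟩ := su v
  have all : ∀ n : ℕ, ∀ x, ‖x‖ ≤ (p : ℝ) ^ (j + n) → u x v = v := by
    intro n
    induction n with
    | zero => simpa using hj
    | succ n ih => rw [Nat.cast_succ, ← add_assoc]; exact step _ ih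
  obtain ⟨n, hn⟩ := pow_unbounded_of_one_lt (‖x‖ / (p : ℝ) ^ j) hp1
  apply all n
  rw [div_lt_iff₀ (by positivity)] at hn
  rw [zpow_add₀ hp0.ne', zpow_natCast, mul_comm]
  exact hn.le

end axb

end Pool.Agent.H63.SpGen
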