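import Pool.Agent.H63.TCDefs

set_option autoImplicit false

namespace Pool.Agent.H63.TC

open List

theorem run_nil {Q A : Type} {δ : Finset (Q × A × Q)} {p q : Q} : Run δ p [] q ↔ p = q :=
  ⟨fun h => by cases h; rfl, fun h => h ▸ .nil _⟩

theorem run_cons {Q A : Type} {δ : Finset (Q × A × Q)} {p q : Q} {a : A} {w : List A} :
    Run δ p (a :: w) q ↔ ∃ r, (p, a, r) ∈ δ ∧ Run δ r w q :=
  ⟨fun h => by cases h with | cons h1 h2 => exact ⟨_, h1, h2⟩, fun ⟨_, h1, h2⟩ => .cons h1 h2⟩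

theorem run_append {Q A : Type} {δ : Finset (Q × A × Q)} {u v : List A} :
    ∀ {p q : Q}, Run δ p (u ++ v) q ↔ ∃ r, Run δ p u r ∧ Run δ r v q := by
  induction u with
  | nil => intro p q; simp [run_nil]
  | cons a u ih =>
    intro p q
    simp only [cons_append, run_cons, ih]
    constructor
    · rintro ⟨r, h1, s, h2, h3⟩; exact ⟨s, ⟨r, h1, h2⟩, h3⟩
    · rintro ⟨s, ⟨r, h1, h2⟩, h3⟩; exact ⟨r, h1, s, h2, h3⟩

theorem tc_le {A : Type} {L : Set (List A)} {t : ℕ} (h : HasNFA L t) : tc L ≤ t :=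
  Nat.sInf_le h

theorem tc_spec {A : Type} {L : Set (List A)} (h : Reg L) : HasNFA L (tc L) :=
  Nat.sInf_mem (s := {t | HasNFA L t}) h

/-- normalisation of the state set -/
theorem norm {A : Type} {L : Set (List A)} {t : ℕ} (h : HasNFA L t) (Q' : Type) [Fintype Q']
    (hc : t + 1 ≤ Fintype.card Q') :
    ∃ (q0 : Q') (F : Set Q') (δ : Finset (Q' × A × Q')), δ.card ≤ t ∧ lang q0 F δ = L := by
  classical
  obtain ⟨Q, _, q0, F, δ, h1, rfl⟩ := h
  let S : Finset Q := insert q0 (δ.image (·.2.2))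
  have hS : Fintype.card S ≤ Fintype.card Q' := by
    rw [Fintype.card_coe]
    exact (Finset.card_insert_le _ _).trans ((Nat.succ_le_succ Finset.card_image_le).trans (h1 ▸ hc))
  obtain ⟨e⟩ := Function.Embedding.nonempty_of_card_le hS
  have h0 : q0 ∈ S := Finset.mem_insert_self _ _
  let f : Q → Q' := fun q => if h : q ∈ S then e ⟨q, h⟩ else e ⟨q0, h0⟩
  have finj : ∀ p ∈ S, ∀ q ∈ S, f p = f q → p = q := by
    intro p hp q hq hpq
    simp only [f, hp, hq, dif_pos] at hpq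
    exact congrArg Subtype.val (e.injective hpq)
  have tgt : ∀ p a r, (p, a, r) ∈ δ → r ∈ S := fun p a r hr =>
    Finset.mem_insert_of_mem (Finset.mem_image.2 ⟨_, hr, rfl⟩)
  let δ' : Finset (Q' × A × Q') := (δ.filter (·.1 ∈ S)).image fun x => (f x.1, x.2.1, f x.2.2)
  have k1 : ∀ w p q, p ∈ S → Run δ p w q → q ∈ S ∧ Run δ' (f p) w (f q) := by
    intro w p q hp hr
    induction hr with
    | nil q => exact ⟨hp, .nil _⟩
    | cons h1 _ ih =>
      obtain ⟨g1, g2⟩ := ih (tgt _ _ _ h1)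
      exact ⟨g1, .cons (Finset.mem_image.2 ⟨_, Finset.mem_filter.2 ⟨h1, hp⟩, rfl⟩) g2⟩
  have k2 : ∀ w p y, p ∈ S → Run δ' (f p) w y → ∃ q ∈ S, y = f q ∧ Run δ p w q := by
    intro w
    induction w with
    | nil => intro p y hp hr; exact ⟨p, hp, (run_nil.1 hr).symm, .nil _⟩
    | cons a w ih =>
      intro p y hp hr
      obtain ⟨r, h1, h2⟩ := run_cons.1 hr
      obtain ⟨⟨p', a', r'⟩, hx, he⟩ := Finset.mem_image.1 h1
      obtain ⟨hx1, hx2⟩ := Finset.mem_filter.1 hx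
      simp only [Prod.mk.injEq] at he hx2
      obtain ⟨e1, rfl, rfl⟩ := he
      have := finj _ hx2 _ hp e1
      subst this
      obtain ⟨q, g1, g2, g3⟩ := ih r' y (tgt _ _ _ hx1) h2
      exact ⟨q, g1, g2, .cons hx1 g3⟩
  refine ⟨f q0, {y | ∃ q ∈ S, q ∈ F ∧ y = f q}, δ',
    Finset.card_image_le.trans ((Finset.card_filter_le _ _).trans h1.le), ?_⟩
  ext w
  constructor
  · rintro ⟨y, ⟨q, hq, hF, rfl⟩, hr⟩
    obtain ⟨q', g1, g2, g3⟩ := k2 w q0 _ h0 hr
    rw [finj _ hq _ g1 g2] at hF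
    exact ⟨q', hF, g3⟩
  · rintro ⟨q, hF, hr⟩
    obtain ⟨g1, g2⟩ := k1 w q0 q h0 hr
    exact ⟨f q, ⟨q, g1, hF, rfl⟩, g2⟩

/-- inverse morphism on the same state set -/
theorem inv_nfa {Q A B : Type} [Fintype Q] [Fintype B] (q0 : Q) (F : Set Q)
    (δ : Finset (Q × A × Q)) (h : B → List A) :
    ∃ δ' : Finset (Q × B × Q), lang q0 F δ' = invm h (lang q0 F δ) := by
  classical
  let δ' : Finset (Q × B × Q) := Finset.univ.filter fun x => Run δ x.1 (h x.2.1) x.2.2
  have key : ∀ w p q, Run δ' p w q ↔ Run δ p (w.flatMap h) q := by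
    intro w
    induction w with
    | nil => intro p q; simp [run_nil]
    | cons b w ih =>
      intro p q
      simp only [run_cons, flatMap_cons, run_append, ih, δ', Finset.mem_filter, Finset.mem_univ,
        true_and]
  exact ⟨δ', by ext w; simp only [lang, invm, Set.mem_ofPred_eq, key]⟩

/-- two letters at a time, through subsets of blocks -/
theorem block_nfa {B : Type} [Fintype B] (M s : ℕ) (q0 : Fin M × Fin s) (F : Set (Fin M × Fin s))
    (δ : Finset ((Fin M × Fin s) × B × (Fin M × Fin s))) :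
    ∃ t, HasNFA (lang q0 F δ) t ∧ t ≤ (M * s) * Fintype.card B * Fintype.card B * M +
      Fintype.card B * 2 ^ s * (M * s) + (M * s) * Fintype.card B := by
  classical
  let Q := Fin M × Fin s
  let Q2 := Q ⊕ (B × Fin M × Finset (Fin s)) ⊕ Unit
  let sub : Q → B → B → Fin M → Finset (Fin s) := fun p a b g =>
    Finset.univ.filter fun o => Run δ p [a, b] (g, o)
  let d1 : Finset (Q2 × B × Q2) := (Finset.univ : Finset (Q × B × B × Fin M)).image fun x =>
    (Sum.inl x.1, x.2.1, Sum.inr (Sum.inl (x.2.2.1, x.2.2.2, sub x.1 x.2.1 x.2.2.1 x.2.2.2)))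
  let d2 : Finset (Q2 × B × Q2) :=
    ((Finset.univ : Finset (B × Finset (Fin s) × Q)).filter fun x => x.2.2.2 ∈ x.2.1).image fun x =>
    (Sum.inr (Sum.inl (x.1, x.2.2.1, x.2.1)), x.1, Sum.inl x.2.2)
  let d3 : Finset (Q2 × B × Q2) :=
    ((Finset.univ : Finset (Q × B)).filter fun x => ∃ q ∈ F, Run δ x.1 [x.2] q).image fun x =>
    (Sum.inl x.1, x.2, Sum.inr (Sum.inr ()))
  let D := d1 ∪ d2 ∪ d3
  let F2 : Set Q2 := {y | (∃ q ∈ F, y = Sum.inl q) ∨ y = Sum.inr (Sum.inr ())}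
  have m1 : ∀ p a y, (Sum.inl p, a, y) ∈ D ↔
      (∃ b g, y = Sum.inr (Sum.inl (b, g, sub p a b g))) ∨
      (y = Sum.inr (Sum.inr ()) ∧ ∃ q ∈ F, Run δ p [a] q) := by
    intro p a y
    simp only [D, d1, d2, d3, Finset.mem_union, Finset.mem_image, Finset.mem_filter,
      Finset.mem_univ, true_and]
    constructor
    · rintro ((⟨x, h⟩ | ⟨x, -, h⟩) | ⟨x, h1, h⟩)
      · cases h; exact Or.inl ⟨_, _, rfl⟩
      · cases h
      · cases h; exact Or.inr ⟨rfl, h1⟩
    · rintro (⟨b, g, rfl⟩ | ⟨rfl, h⟩)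
      · exact Or.inl (Or.inl ⟨(p, a, b, g), rfl⟩)
      · exact Or.inr ⟨(p, a), h, rfl⟩
  have m2 : ∀ b g S a y, (Sum.inr (Sum.inl (b, g, S)), a, y) ∈ D ↔
      a = b ∧ ∃ o ∈ S, y = Sum.inl (g, o) := by
    intro b g S a y
    simp only [D, d1, d2, d3, Finset.mem_union, Finset.mem_image, Finset.mem_filter,
      Finset.mem_univ, true_and]
    constructor
    · rintro ((⟨x, h⟩ | ⟨⟨b', S', g', o⟩, h1, h⟩) | ⟨x, h1, h⟩)
      · cases h
      · cases h; exact ⟨rfl, o, h1, rfl⟩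
      · cases h
    · rintro ⟨rfl, o, h, rfl⟩
      exact Or.inl (Or.inr ⟨(a, S, g, o), h, rfl⟩)
  have m3 : ∀ a y, (Sum.inr (Sum.inr ()), a, y) ∉ D := by
    intro a y
    simp only [D, d1, d2, d3, Finset.mem_union, Finset.mem_image, Finset.mem_filter,
      Finset.mem_univ, true_and]
    rintro ((⟨x, h⟩ | ⟨x, h1, h⟩) | ⟨x, h1, h⟩) <;> cases h
  have m4 : ∀ p : Q, (∃ y ∈ F2, Run D (Sum.inl p) [] y) ↔ ∃ q ∈ F, Run δ p [] q := by
    intro p
    constructor
    · rintro ⟨y, hy, hr⟩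
      have := run_nil.1 hr
      subst this
      rcases hy with ⟨q, hq, h⟩ | h
      · cases h; exact ⟨_, hq, .nil _⟩
      · cases h
    · rintro ⟨q, hq, hr⟩
      have := run_nil.1 hr
      subst this
      exact ⟨_, Or.inl ⟨_, hq, rfl⟩, .nil _⟩
  have key : ∀ (n : ℕ) (w : List B), w.length ≤ n → ∀ p : Q,
      (∃ y ∈ F2, Run D (Sum.inl p) w y) ↔ ∃ q ∈ F, Run δ p w q := by
    intro n
    induction n with
    | zero =>
      intro w hw p
      have : w = [] := length_eq_zero_iff.1 (by omega)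
      subst this
      exact m4 p
    | succ n ih =>
      intro w hw p
      match w, hw with
      | [], _ => exact m4 p
      | [a], _ =>
        constructor
        · rintro ⟨y, hy, hr⟩
          obtain ⟨r, h1, h2⟩ := run_cons.1 hr
          have := run_nil.1 h2
          subst this
          rcases (m1 _ _ _).1 h1 with ⟨b, g, rfl⟩ | ⟨-, h⟩
          · rcases hy with ⟨q, -, h⟩ | h <;> cases h
          · exact h
        · intro h
          exact ⟨_, Or.inr rfl, .cons ((m1 _ _ _).2 (Or.inr ⟨rfl, h⟩)) (.nil _)⟩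
      | a :: b :: w, hw =>
        have hw' : w.length ≤ n := by simp at hw; omega
        constructor
        · rintro ⟨y, hy, hr⟩
          obtain ⟨r, h1, h2⟩ := run_cons.1 hr
          obtain ⟨r2, h3, h4⟩ := run_cons.1 h2
          rcases (m1 _ _ _).1 h1 with ⟨b', g, rfl⟩ | ⟨rfl, -⟩
          · obtain ⟨rfl, o, ho, rfl⟩ := (m2 _ _ _ _ _).1 h3
            obtain ⟨q, hq, h5⟩ := (ih w hw' (g, o)).1 ⟨y, hy, h4⟩
            have h6 : Run δ p [a, b] (g, o) := (Finset.mem_filter.1 ho).2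
            exact ⟨q, hq, run_append (u := [a, b]).2 ⟨_, h6, h5⟩⟩
          · exact absurd h3 (m3 _ _)
        · rintro ⟨q, hq, hr⟩
          obtain ⟨⟨g, o⟩, h6, h5⟩ := (run_append (u := [a, b])).1 hr
          obtain ⟨y, hy, h4⟩ := (ih w hw' (g, o)).2 ⟨q, hq, h5⟩
          exact ⟨y, hy, .cons ((m1 _ _ _).2 (Or.inl ⟨b, g, rfl⟩)) (.cons ((m2 _ _ _ _ _).2
            ⟨rfl, o, Finset.mem_filter.2 ⟨Finset.mem_univ _, h6⟩, rfl⟩) h4)⟩
  refine ⟨D.card, ⟨Q2, inferInstance, Sum.inl q0, F2, D, rfl, ?_⟩, ?_⟩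
  · ext w
    exact key _ w le_rfl q0
  · refine (Finset.card_union_le _ _).trans (add_le_add ((Finset.card_union_le _ _).trans
      (add_le_add ?_ ?_)) ?_)
    · refine Finset.card_image_le.trans (le_of_eq ?_)
      simp [Q]; ring
    · refine Finset.card_image_le.trans ((Finset.card_filter_le _ _).trans (le_of_eq ?_))
      simp [Q]; ring
    · refine Finset.card_image_le.trans ((Finset.card_filter_le _ _).trans (le_of_eq ?_))
      simp [Q]

theorem upper_nat {k m t : ℕ} (ht : t ∈ G k m) :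
    t * (Nat.log 2 (m + 1) / 2 + 1) ≤ 14 * k ^ 2 * (m + 1) ^ 2 := by
  obtain ⟨A, _, h, L, hL, hm, rfl⟩ := ht
  set n := m + 1 with hn
  set s := Nat.log 2 n / 2 + 1 with hs
  set M := n / s + 1 with hM
  have s0 : 0 < s := by omega
  have hMs : n ≤ M * s := by
    rw [hM, add_mul, one_mul]
    have := Nat.div_add_mod n s
    have := Nat.mod_lt n s0
    nlinarith
  have h2 : 2 ^ Nat.log 2 n ≤ n := Nat.pow_log_le_self 2 (by omega)
  have hl : Nat.log 2 n < n := (Nat.lt_two_pow_self).trans_le h2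
  have hsn : s ≤ n := by omega
  have hMs' : M * s ≤ 2 * n := by
    rw [hM, add_mul, one_mul]
    have := Nat.div_mul_le_self n s
    omega
  have h4 : 2 ^ s * s ≤ 4 * n := by
    have a1 : s ≤ 2 ^ s := (Nat.lt_two_pow_self).le
    have a2 : 2 ^ s * 2 ^ s ≤ 4 * 2 ^ Nat.log 2 n := by
      rw [← pow_add, show 4 = 2 ^ 2 by rfl, ← pow_add]
      exact Nat.pow_le_pow_right (by norm_num) (by omega)
    nlinarith
  obtain ⟨q0, F, δ, -, hδ⟩ := norm (hm ▸ tc_spec hL) (Fin M × Fin s) (by simp only [Fintype.card_prod, Fintype.card_fin]; exact hMs)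
  obtain ⟨δ', h'⟩ := inv_nfa q0 F δ h
  obtain ⟨t, ht, hle⟩ := block_nfa M s q0 F δ'
  rw [h', hδ] at ht
  have h5 := (tc_le ht).trans hle
  simp only [Fintype.card_fin] at h5
  have kk : k ≤ k ^ 2 := by nlinarith
  calc tc (invm h L) * s ≤ ((M * s) * k * k * M + k * 2 ^ s * (M * s) + (M * s) * k) * s :=
        Nat.mul_le_mul_right _ h5
    _ = k ^ 2 * ((M * s) * (M * s)) + k * ((2 ^ s * s) * (M * s)) + k * ((M * s) * s) := by ring
    _ ≤ k ^ 2 * ((2 * n) * (2 * n)) + k ^ 2 * ((4 * n) * (2 * n)) + k ^ 2 * ((2 * n) * n) := by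
        gcongr
    _ = 14 * k ^ 2 * n ^ 2 := by ring

end Pool.Agent.H63.TC
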