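import Pool.Agent.H63.TC1

set_option autoImplicit false

namespace Pool.Agent.H63.TC

open List

/-- padding: raise the transition complexity to any prescribed value with fresh letters -/
theorem pad {A : Type} {L : Set (List A)} (hL : Reg L) (j : ℕ) :
    ∃ L' : Set (List (A ⊕ Fin j)), Reg L' ∧ tc L' = tc L + j ∧
      ∀ w : List A, w.map Sum.inl ∈ L' ↔ w ∈ L := by
  classical
  obtain ⟨Q, _, q0, F, δ, h1, h2⟩ := tc_spec hL
  let d1 : Finset (Option Q × (A ⊕ Fin j) × Option Q) :=
    δ.image fun x => (some x.1, Sum.inl x.2.1, some x.2.2)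
  let d2 : Finset (Option Q × (A ⊕ Fin j) × Option Q) :=
    (Finset.univ : Finset (Fin j)).image fun i => (some q0, Sum.inr i, none)
  let F' : Set (Option Q) := {y | y = none ∨ ∃ q ∈ F, y = some q}
  let L' := lang (some q0) F' (d1 ∪ d2)
  have key : ∀ (w : List A) (p : Q) (y : Option Q),
      Run (d1 ∪ d2) (some p) (w.map Sum.inl) y ↔ ∃ q, y = some q ∧ Run δ p w q := by
    intro w
    induction w with
    | nil => intro p y; simp [run_nil, eq_comm]
    | cons a w ih =>
      intro p y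
      simp only [map_cons, run_cons, d1, d2, Finset.mem_union, Finset.mem_image]
      constructor
      · rintro ⟨r, ⟨x, hx, h⟩ | ⟨x, -, h⟩, h3⟩
        · cases h
          obtain ⟨q, g1, g2⟩ := (ih _ _).1 h3
          exact ⟨q, g1, _, hx, g2⟩
        · cases h
      · rintro ⟨q, g1, r, g2, g3⟩
        exact ⟨some r, Or.inl ⟨_, g2, rfl⟩, (ih _ _).2 ⟨q, g1, g3⟩⟩
  have hw : ∀ w : List A, w.map Sum.inl ∈ L' ↔ w ∈ L := by
    intro w
    rw [← h2]
    constructor
    · rintro ⟨y, hy, hr⟩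
      obtain ⟨q, rfl, g⟩ := (key _ _ _).1 hr
      rcases hy with h | ⟨q', hq, h⟩ <;> cases h
      exact ⟨_, hq, g⟩
    · rintro ⟨q, hq, g⟩
      exact ⟨some q, Or.inr ⟨q, hq, rfl⟩, (key _ _ _).2 ⟨q, rfl, g⟩⟩
  have hN : HasNFA L' (d1 ∪ d2).card := ⟨_, inferInstance, _, _, _, rfl, rfl⟩
  refine ⟨L', ⟨_, hN⟩, le_antisymm ((tc_le hN).trans ((Finset.card_union_le _ _).trans
    (add_le_add (Finset.card_image_le.trans h1.le) (Finset.card_image_le.trans (by simp))))) ?_, hw⟩
  obtain ⟨Q2, _, p0, F2, D, g1, g2⟩ := tc_spec ⟨_, hN⟩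
  let em : Q2 × A × Q2 → Q2 × (A ⊕ Fin j) × Q2 := fun x => (x.1, Sum.inl x.2.1, x.2.2)
  have emi : Function.Injective em := by
    rintro ⟨a, b, c⟩ ⟨a', b', c'⟩ h
    cases h; rfl
  let D1 := D.preimage em emi.injOn
  have k1 : ∀ (w : List A) (p q : Q2), Run D1 p w q ↔ Run D p (w.map Sum.inl) q := by
    intro w
    induction w with
    | nil => intro p q; simp [run_nil]
    | cons a w ih => intro p q; simp only [map_cons, run_cons, ih, D1, Finset.mem_preimage, em]
  have k2 : HasNFA L D1.card := by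
    refine ⟨Q2, inferInstance, p0, F2, D1, rfl, ?_⟩
    ext w
    rw [← hw, ← g2]
    simp only [lang, Set.mem_ofPred_eq, k1]
  have k3 : ∀ i : Fin j, ∃ r, (p0, Sum.inr i, r) ∈ D := by
    intro i
    have : [Sum.inr i] ∈ L' := ⟨none, Or.inl rfl, .cons (Finset.mem_union_right _
      (Finset.mem_image.2 ⟨i, Finset.mem_univ _, rfl⟩)) (.nil _)⟩
    rw [← g2] at this
    obtain ⟨q, -, hr⟩ := this
    obtain ⟨r, h, -⟩ := run_cons.1 hr
    exact ⟨r, h⟩
  choose ρ hρ using k3
  let D2 : Finset (Q2 × (A ⊕ Fin j) × Q2) :=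
    (Finset.univ : Finset (Fin j)).image fun i => (p0, Sum.inr i, ρ i)
  have c2 : D2.card = j := by
    rw [Finset.card_image_of_injective _ (fun a b h => by cases h; rfl)]; simp
  have c1 : (D1.image em).card = D1.card := Finset.card_image_of_injective _ emi
  have dj : Disjoint (D1.image em) D2 := by
    rw [Finset.disjoint_left]
    intro x h1 h2
    obtain ⟨y, -, rfl⟩ := Finset.mem_image.1 h1
    obtain ⟨i, -, h⟩ := Finset.mem_image.1 h2
    cases h
  have sub : D1.image em ∪ D2 ⊆ D := by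
    intro x hx
    rcases Finset.mem_union.1 hx with h | h
    · obtain ⟨y, hy, rfl⟩ := Finset.mem_image.1 h
      exact Finset.mem_preimage.1 hy
    · obtain ⟨i, -, rfl⟩ := Finset.mem_image.1 h
      exact hρ i
  have := Finset.card_le_card sub
  rw [Finset.card_union_of_disjoint dj, c1, c2, g1] at this
  have := tc_le k2
  omega

theorem mem_G {k m : ℕ} {A : Type} [Fintype A] {L : Set (List A)} (hL : Reg L) (hm : tc L ≤ m)
    (h : Fin k → List A) : tc (invm h L) ∈ G k m := by
  obtain ⟨L', h1, h2, h3⟩ := pad hL (m - tc L)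
  refine ⟨A ⊕ Fin (m - tc L), inferInstance, fun b => (h b).map Sum.inl, L', h1, by omega, ?_⟩
  congr 1
  ext w
  simp only [invm, Set.mem_ofPred_eq, ← h3, map_flatMap]

theorem G_bdd (k m : ℕ) : BddAbove (G k m) :=
  ⟨14 * k ^ 2 * (m + 1) ^ 2, fun _ ht => le_trans (Nat.le_mul_of_pos_right _ (by omega)) (upper_nat ht)⟩

theorem G_greatest (k m : ℕ) : IsGreatest (G k m) (g k m) := by
  have hL : HasNFA (lang () ∅ (∅ : Finset (Unit × Unit × Unit))) 0 :=
    ⟨Unit, inferInstance, _, _, _, rfl, rfl⟩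
  have := mem_G (k := k) (m := m) ⟨_, hL⟩ ((tc_le hL).trans (Nat.zero_le _)) fun _ => []
  exact ⟨Nat.sSup_mem ⟨_, this⟩ (G_bdd k m), fun _ ht => le_csSup (G_bdd k m) ht⟩

/-! the universal gadget -/

section gadget
variable (n : ℕ) [NeZero n]

def nxt (a : Fin 4) (x : ZMod n × Bool) : ZMod n × Bool :=
  if a = 0 then (if x.2 then x else (x.1 + 1, false))
  else if a = 1 then (if x.2 then (x.1 + 1, true) else x) else x

def U : Finset ((ZMod n × Bool) × Fin 4 × (ZMod n × Bool)) :=
  ((Finset.univ : Finset ((ZMod n × Bool) × Fin 3)).image fun x => (x.1, x.2.castSucc, nxt n x.2.castSucc x.1))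
  ∪ {((0, false), 2, (0, true))} ∪
  ((Finset.univ : Finset (ZMod n)).image fun i => ((i, true), 3, (i, false)))

theorem U_card : (U n).card ≤ 7 * n + 1 := by
  refine (Finset.card_union_le _ _).trans (le_trans (add_le_add ((Finset.card_union_le _ _).trans
    (add_le_add Finset.card_image_le le_rfl)) Finset.card_image_le) ?_)
  simp [ZMod.card]; omega

theorem U0 (x y : ZMod n × Bool) : (x, (0 : Fin 4), y) ∈ U n ↔ y = nxt n 0 x := by
  simp only [U, Finset.mem_union, Finset.mem_image, Finset.mem_univ, true_and, Finset.mem_singleton,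
    Prod.mk.injEq]
  constructor
  · rintro ((⟨z, h1, h2, h3⟩ | ⟨-, h, -⟩) | ⟨i, -, h, -⟩)
    · rw [← h3, h2, h1]
    · cases h
    · cases h
  · rintro rfl
    exact Or.inl (Or.inl ⟨(x, 0), rfl, rfl, rfl⟩)

theorem U1 (x y : ZMod n × Bool) : (x, (1 : Fin 4), y) ∈ U n ↔ y = nxt n 1 x := by
  simp only [U, Finset.mem_union, Finset.mem_image, Finset.mem_univ, true_and, Finset.mem_singleton,
    Prod.mk.injEq]
  constructor
  · rintro ((⟨z, h1, h2, h3⟩ | ⟨-, h, -⟩) | ⟨i, -, h, -⟩)
    · rw [← h3, h2, h1]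
    · cases h
    · cases h
  · rintro rfl
    exact Or.inl (Or.inl ⟨(x, 1), rfl, rfl, rfl⟩)

theorem U2 (x y : ZMod n × Bool) :
    (x, (2 : Fin 4), y) ∈ U n ↔ y = x ∨ (x = (0, false) ∧ y = (0, true)) := by
  simp only [U, Finset.mem_union, Finset.mem_image, Finset.mem_univ, true_and, Finset.mem_singleton]
  constructor
  · rintro ((⟨z, h⟩ | h) | ⟨i, h⟩)
    · simp only [Prod.mk.injEq] at h
      obtain ⟨h1, h2, h3⟩ := h
      left; rw [← h3, h2, h1]; rfl
    · cases h; exact Or.inr ⟨rfl, rfl⟩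
    · simp only [Prod.mk.injEq] at h
      exact absurd h.2.1 (by decide)
  · rintro (rfl | ⟨rfl, rfl⟩)
    · exact Or.inl (Or.inl ⟨(y, 2), rfl⟩)
    · exact Or.inl (Or.inr rfl)

theorem U3 (x y : ZMod n × Bool) :
    (x, (3 : Fin 4), y) ∈ U n ↔ x.2 = true ∧ y = (x.1, false) := by
  simp only [U, Finset.mem_union, Finset.mem_image, Finset.mem_univ, true_and, Finset.mem_singleton]
  constructor
  · rintro ((⟨z, h⟩ | h) | ⟨i, h⟩)
    · simp only [Prod.mk.injEq] at h
      exact absurd h.2.1 (Fin.castSucc_ne_last _)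
    · simp only [Prod.mk.injEq] at h
      exact absurd h.2.1 (by decide)
    · cases h; exact ⟨rfl, rfl⟩
  · obtain ⟨i, b⟩ := x
    rintro ⟨rfl, rfl⟩
    exact Or.inr ⟨i, rfl⟩

theorem run0 (k : ℕ) : ∀ (i : ZMod n) (b : Bool) (y : ZMod n × Bool),
    Run (U n) (i, b) (replicate k 0) y ↔ y = (if b then i else i + k, b) := by
  induction k with
  | zero => intro i b y; simp [run_nil, eq_comm]
  | succ k ih =>
    intro i b y
    cases b <;> simp [replicate_succ, run_cons, U0, nxt, ih, add_assoc, add_comm (1 : ZMod n)]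

theorem run1 (k : ℕ) : ∀ (i : ZMod n) (b : Bool) (y : ZMod n × Bool),
    Run (U n) (i, b) (replicate k 1) y ↔ y = (if b then i + k else i, b) := by
  induction k with
  | zero => intro i b y; simp [run_nil, eq_comm]
  | succ k ih =>
    intro i b y
    cases b <;> simp [replicate_succ, run_cons, U1, nxt, ih, add_assoc, add_comm (1 : ZMod n)]

def wd (e : ZMod n × ZMod n) : List (Fin 4) :=
  replicate (-e.1).val 0 ++ (replicate (-e.2).val 1 ++ (2 :: (replicate e.2.val 1 ++ replicate e.1.val 0)))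

theorem run_wd (e : ZMod n × ZMod n) (i : ZMod n) (b : Bool) (y : ZMod n × Bool) :
    Run (U n) (i, b) (wd n e) y ↔ y = (i, b) ∨ (b = false ∧ i = e.1 ∧ y = (e.2, true)) := by
  cases b
  · simp [wd, run_append, run_cons, run0, run1, U2, or_and_right, exists_or, add_neg_eq_zero,
      and_assoc]
  · simp [wd, run_append, run_cons, run0, run1, U2]

theorem run_list (l : List (ZMod n × ZMod n)) : ∀ (i : ZMod n) (b : Bool) (y : ZMod n × Bool),
    Run (U n) (i, b) (l.flatMap (wd n)) y ↔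
      y = (i, b) ∨ (b = false ∧ ∃ q, (i, q) ∈ l ∧ y = (q, true)) := by
  induction l with
  | nil => intro i b y; simp [run_nil, eq_comm]
  | cons e l ih =>
    intro i b y
    simp only [flatMap_cons, run_append, run_wd, mem_cons]
    constructor
    · rintro ⟨r, rfl | ⟨rfl, rfl, rfl⟩, h⟩
      · rcases (ih _ _ _).1 h with h | ⟨h1, q, h2, h3⟩
        · exact Or.inl h
        · exact Or.inr ⟨h1, q, Or.inr h2, h3⟩
      · rcases (ih _ _ _).1 h with h | ⟨h1, -⟩
        · exact Or.inr ⟨rfl, e.2, Or.inl rfl, h⟩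
        · cases h1
    · rintro (rfl | ⟨rfl, q, rfl | h2, rfl⟩)
      · exact ⟨_, Or.inl rfl, (ih _ _ _).2 (Or.inl rfl)⟩
      · exact ⟨_, Or.inr ⟨rfl, rfl, rfl⟩, (ih _ _ _).2 (Or.inl rfl)⟩
      · exact ⟨_, Or.inl rfl, (ih _ _ _).2 (Or.inr ⟨rfl, q, h2, rfl⟩)⟩

noncomputable def hR (k : ℕ) (R : Finset (ZMod n × ZMod n)) (b : Fin (k + 2)) : List (Fin 4) :=
  if b = 1 then R.toList.flatMap (wd n) ++ [3] else [0]

def LU : Set (List (Fin 4)) := lang (0, false) {(0, false)} (U n)

theorem test (k : ℕ) (R : Finset (ZMod n × ZMod n)) (p q : ZMod n) :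
    replicate p.val 0 ++ (1 :: replicate (-q).val 0) ∈ invm (hR n k R) (LU n) ↔ (p, q) ∈ R := by
  have h0 : hR n k R 0 = [0] := by simp [hR]
  have h1 : hR n k R 1 = R.toList.flatMap (wd n) ++ [3] := by simp [hR]
  have hr : ∀ j, (replicate j (0 : Fin (k + 2))).flatMap (hR n k R) = replicate j 0 := by
    intro j
    induction j with
    | zero => rfl
    | succ j ih => simp [replicate_succ, ih, h0]
  simp only [invm, LU, lang, Set.mem_ofPred_eq, flatMap_append, flatMap_cons, hr, h1,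
    Set.mem_singleton_iff, exists_eq_left, run_append, run0, run_list, run_cons, run_nil, U3]
  constructor
  · rintro ⟨r, ⟨s, rfl | ⟨-, q', h2, rfl⟩, z, ⟨h3, rfl⟩, rfl⟩, h4⟩
    · simp at h3
    · rw [run0] at h4
      simp only [Bool.false_eq_true, if_false, ZMod.natCast_val, ZMod.cast_id', id_eq,
        Prod.mk.injEq, and_true] at h4
      have : q' = q := by rw [← sub_eq_zero, sub_eq_add_neg, ← h4]
      subst this
      simpa using h2
  · intro h
    refine ⟨(q, false), ⟨(q, true), Or.inr ⟨by simp, q, by simpa using h, rfl⟩, _, ⟨rfl, rfl⟩, rfl⟩, ?_⟩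
    rw [run0]; simp

theorem inj_R (k : ℕ) : Function.Injective fun R => invm (hR n k R) (LU n) := by
  intro R R' h
  ext ⟨p, q⟩
  rw [← test n k, ← test n k]
  simp only at h
  rw [h]

end gadget

theorem count {B I : Type} [Fintype B] [Fintype I] (f : I → Set (List B)) (hf : Function.Injective f)
    (t : ℕ) (h : ∀ i, Reg (f i) ∧ tc (f i) ≤ t) :
    Fintype.card I ≤ (t + 1) * 2 ^ (t + 1) * ((t + 1) * Fintype.card B * (t + 1) + 1) ^ t := by
  classical
  have := fun i => norm (tc_spec (h i).1) (Fin (t + 1)) (by simpa using (h i).2)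
  choose q0 F δ h1 h2 using this
  let c : I → Fin (t + 1) × Set (Fin (t + 1)) × (Fin t → Option (Fin (t + 1) × B × Fin (t + 1))) :=
    fun i => (q0 i, F i, fun j => (δ i).toList[j.1]?)
  have ci : Function.Injective c := by
    intro i i' e
    simp only [c, Prod.mk.injEq] at e
    obtain ⟨e1, e2, e3⟩ := e
    have l1 : (δ i).toList.length ≤ t := by simpa using (h1 i).trans (h i).2
    have l2 : (δ i').toList.length ≤ t := by simpa using (h1 i').trans (h i').2
    have e4 : (δ i).toList = (δ i').toList := by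
      refine List.ext_getElem? fun j => ?_
      by_cases hj : j < t
      · exact congrFun e3 ⟨j, hj⟩
      · rw [getElem?_eq_none (by omega), getElem?_eq_none (by omega)]
    have e5 : δ i = δ i' := by
      rw [← Finset.toList_toFinset (δ i), e4, Finset.toList_toFinset]
    apply hf
    rw [← h2 i, ← h2 i', e1, e2, e5]
  have := Fintype.card_le_of_injective c ci
  simpa [mul_assoc] using this

theorem lower_nat (k m n : ℕ) (hn : 0 < n) (hm : 7 * n + 1 ≤ m) :
    2 ^ (n * n) ≤ (g (k + 2) m + 1) * 2 ^ (g (k + 2) m + 1) *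
      ((g (k + 2) m + 1) * (k + 2) * (g (k + 2) m + 1) + 1) ^ g (k + 2) m := by
  haveI : NeZero n := ⟨hn.ne'⟩
  have hU : HasNFA (LU n) (U n).card := ⟨_, inferInstance, _, _, _, rfl, rfl⟩
  have := count (fun R => invm (hR n k R) (LU n)) (inj_R n k) (g (k + 2) m) (fun R => ⟨by
      obtain ⟨δ', h⟩ := inv_nfa (0, false) {(0, false)} (U n) (hR n k R)
      exact ⟨_, _, inferInstance, _, _, δ', rfl, h⟩,
    (G_greatest _ _).2 (mem_G ⟨_, hU⟩ ((tc_le hU).trans ((U_card n).trans hm)) _)⟩)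
  simpa [ZMod.card] using this

end Pool.Agent.H63.TC
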