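import Mathlib

set_option autoImplicit false

namespace Pool.Agent.H63.TC

/-- `Run δ p w q`: reading the word `w`, the transition relation `δ` leads from `p` to `q`
(no empty transitions). -/
inductive Run {Q A : Type} (δ : Finset (Q × A × Q)) : Q → List A → Q → Prop
  | nil (q : Q) : Run δ q [] q
  | cons {p r q : Q} {a : A} {w : List A} : (p, a, r) ∈ δ → Run δ r w q → Run δ p (a :: w) q

/-- The language of the automaton with start state `q0`, accepting set `F`, transitions `δ`. -/
def lang {Q A : Type} (q0 : Q) (F : Set Q) (δ : Finset (Q × A × Q)) : Set (List A) :=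
  {w | ∃ q ∈ F, Run δ q0 w q}

/-- `L` is recognized by an NFA (finite state set, one start state) with exactly `t` transitions. -/
def HasNFA {A : Type} (L : Set (List A)) (t : ℕ) : Prop :=
  ∃ (Q : Type) (_ : Fintype Q) (q0 : Q) (F : Set Q) (δ : Finset (Q × A × Q)),
    δ.card = t ∧ lang q0 F δ = L

/-- `L` is regular: some NFA recognizes it. -/
def Reg {A : Type} (L : Set (List A)) : Prop := ∃ t, HasNFA L t

/-- transition complexity: least number of transitions of an NFA recognizing `L` -/
noncomputable def tc {A : Type} (L : Set (List A)) : ℕ := sInf {t | HasNFA L t}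

/-- inverse image of `L` under the monoid morphism sending the letter `b` to the word `h b` -/
def invm {B A : Type} (h : B → List A) (L : Set (List A)) : Set (List B) :=
  {w | w.flatMap h ∈ L}

/-- the values `tc (h⁻¹ L)` over all finite alphabets, morphisms from a `k`-letter alphabet and
regular `L` with `tc L = m` -/
def G (k m : ℕ) : Set ℕ :=
  {t | ∃ (A : Type) (_ : Fintype A) (h : Fin k → List A) (L : Set (List A)),
    Reg L ∧ tc L = m ∧ t = tc (invm h L)}

/-- the worst case `g_k(m)` -/
noncomputable def g (k m : ℕ) : ℕ := sSup (G k m)

end Pool.Agent.H63.TC
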