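import Mathlib

namespace Pool.Agent.H63.Tb

open Matrix

variable {R : Type} [CommRing R] {p l : ℕ}

/-- embedding of `Fin l` as `1..l` -/
def io (p : ℕ) {l : ℕ} (i : Fin l) : ZMod p := ((i.val + 1 : ℕ) : ZMod p)

lemma cast_eq_zero_small (hp : p = 2 * l + 1) (k : ℕ) (h0 : 0 < k) (hk : k < 2 * l + 1) :
    (k : ZMod p) ≠ 0 := by
  intro h
  rw [ZMod.natCast_eq_zero_iff] at h
  have := Nat.le_of_dvd h0 h
  omega

lemma io_ne_zero (hp : p = 2 * l + 1) (i : Fin l) : io p i ≠ 0 :=
  cast_eq_zero_small hp _ (by omega) (by have := i.2; omega)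

lemma io_add_ne (hp : p = 2 * l + 1) (i j : Fin l) : io p i + io p j ≠ 0 := by
  unfold io
  rw [← Nat.cast_add]
  exact cast_eq_zero_small hp _ (by omega) (by have := i.2; have := j.2; omega)

lemma io_inj (hp : p = 2 * l + 1) (i j : Fin l) (h : io p i = io p j) : i = j := by
  unfold io at h
  rw [ZMod.natCast_eq_natCast_iff'] at h
  have hi := i.2
  have hj := j.2
  rw [Nat.mod_eq_of_lt (by omega), Nat.mod_eq_of_lt (by omega)] at h
  exact Fin.ext (by omega)

lemma io_cases (hp : p = 2 * l + 1) [NeZero p] (n : ZMod p) :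
    n = 0 ∨ (∃ i : Fin l, n = io p i) ∨ ∃ i : Fin l, n = -io p i := by
  have hn := ZMod.val_lt n
  by_cases h0 : n.val = 0
  · left; exact (ZMod.val_eq_zero n).1 h0
  by_cases h1 : n.val ≤ l
  · right; left
    refine ⟨⟨n.val - 1, by omega⟩, ?_⟩
    unfold io
    have : n.val - 1 + 1 = n.val := by omega
    simp only [this, ZMod.natCast_val, ZMod.cast_id', id]
  · right; right
    refine ⟨⟨p - n.val - 1, by omega⟩, ?_⟩
    unfold io
    have : p - n.val - 1 + 1 = p - n.val := by omega
    simp only [this]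
    rw [Nat.cast_sub hn.le]
    simp

/-- odd basis functions -/
def ob (R : Type) [CommRing R] (p : ℕ) {l : ℕ} (j : Fin l) (n : ZMod p) : R :=
  (if n = io p j then 1 else 0) - (if n = -io p j then 1 else 0)

lemma ob_neg (j : Fin l) (n : ZMod p) : ob R p j (-n) = -ob R p j n := by
  unfold ob
  have h1 : (-n = io p j) ↔ (n = -io p j) := neg_eq_iff_eq_neg
  have h2 : (-n = -io p j) ↔ (n = io p j) := neg_inj
  simp only [h1, h2]; ring

lemma ob_zero (hp : p = 2 * l + 1) (j : Fin l) : ob R p j 0 = 0 := by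
  unfold ob
  have h := io_ne_zero hp j
  rw [if_neg h.symm, if_neg (by intro h'; exact h (neg_eq_zero.1 h'.symm))]; simp

lemma ob_io (hp : p = 2 * l + 1) (i j : Fin l) : ob R p j (io p i) = if i = j then 1 else 0 := by
  unfold ob
  have h1 : io p i ≠ -io p j := fun h => io_add_ne hp i j (by rw [h]; ring)
  rw [if_neg h1, sub_zero]
  by_cases h : i = j
  · simp [h]
  · rw [if_neg h, if_neg (fun h' => h (io_inj hp i j h'))]

lemma sum_ob [NeZero p] (j : Fin l) (F : ZMod p → R) :
    ∑ n, F n * ob R p j n = F (io p j) - F (-io p j) := by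
  unfold ob
  simp only [mul_sub, mul_ite, mul_one, mul_zero, Finset.sum_sub_distrib, Finset.sum_ite_eq',
    Finset.mem_univ, if_true]

lemma odd_expand (hp : p = 2 * l + 1) [NeZero p] (u : ZMod p → R) (hu : ∀ n, u (-n) = -u n)
    (h0 : u 0 = 0) (m : ZMod p) : ∑ i : Fin l, ob R p i m * u (io p i) = u m := by
  have key : ∀ k : Fin l, ∑ i : Fin l, ob R p i (io p k) * u (io p i) = u (io p k) := by
    intro k
    simp only [ob_io hp, ite_mul, one_mul, zero_mul, Finset.sum_ite_eq, Finset.mem_univ, if_true]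
  rcases io_cases hp m with rfl | ⟨k, rfl⟩ | ⟨k, rfl⟩
  · simp [ob_zero hp, h0]
  · exact key k
  · simp only [ob_neg, neg_mul, Finset.sum_neg_distrib, key k, hu]

/-- matrix of convolution with an even function on odd functions -/
def Nm (p l : ℕ) (c : ZMod p → R) : Matrix (Fin l) (Fin l) R :=
  fun i j => c (io p i - io p j) - c (io p i + io p j)

lemma Nm_expand (hp : p = 2 * l + 1) [NeZero p] (c : ZMod p → R) (hc : ∀ n, c (-n) = c n)
    (j : Fin l) (m : ZMod p) :
    ∑ i : Fin l, ob R p i m * Nm p l c i j = c (m - io p j) - c (m + io p j) := by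
  refine odd_expand hp (fun m => c (m - io p j) - c (m + io p j)) (fun n => ?_) ?_ m
  · have h1 : c (-n - io p j) = c (n + io p j) := by rw [← hc]; congr 1; ring
    have h2 : c (-n + io p j) = c (n - io p j) := by rw [← hc]; congr 1; ring
    simp only [h1, h2]; ring
  · simp only [zero_sub, zero_add, hc, sub_self]

abbrev J (l : ℕ) := Unit ⊕ Fin l ⊕ Fin l

def Psi (R : Type) [CommRing R] (p l : ℕ) : Matrix (ZMod p) (J l) R :=
  fun n j => match j with
    | Sum.inl _ => 1
    | Sum.inr (Sum.inl j) => ob R p j (n + 1) - ob R p j (n - 1)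
    | Sum.inr (Sum.inr j) => ob R p j n

def Dm [NeZero p] (l : ℕ) (A B : ZMod p → R) : Matrix (J l) (J l) R :=
  fromBlocks (fun _ _ => ∑ n, A n + ∑ n, B n) 0 0
    (fromBlocks (Nm p l (A + B)) 0 0 (Nm p l (A - B)))

lemma intertwine (hp : p = 2 * l + 1) [NeZero p] (A B : ZMod p → R) (hA : ∀ n, A (-n) = A n)
    (hB : ∀ n, B (-n) = B n) :
    (Matrix.of fun m n => A (m - n) + B (m + n)) * Psi R p l = Psi R p l * Dm l A B := by
  have hAB : ∀ n, (A + B) (-n) = (A + B) n := fun n => by simp [hA, hB]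
  have hAB' : ∀ n, (A - B) (-n) = (A - B) n := fun n => by simp [hA, hB]
  ext m j
  rcases j with j | j | j
  · simp only [mul_apply, Psi, Dm, of_apply, mul_one, Fintype.sum_sum_type, Finset.univ_unique,
      Finset.sum_singleton, fromBlocks_apply₁₁, fromBlocks_apply₂₁, Matrix.zero_apply, mul_zero,
      Finset.sum_const_zero, add_zero, one_mul, Finset.sum_add_distrib]
    congr 1
    · exact Fintype.sum_equiv (Equiv.subLeft m) _ _ (fun n => rfl)
    · exact Fintype.sum_equiv (Equiv.addLeft m) _ _ (fun n => rfl)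
  · simp only [mul_apply, Psi, Dm, of_apply, Fintype.sum_sum_type, Finset.univ_unique,
      Finset.sum_singleton, fromBlocks_apply₁₂, fromBlocks_apply₂₂, fromBlocks_apply₁₁,
      fromBlocks_apply₂₁, Matrix.zero_apply, mul_zero,
      Finset.sum_const_zero, add_zero, zero_add]
    have h1 : ∑ n, (A (m - n) + B (m + n)) * ob R p j (n + 1)
        = ∑ n, (A (m - (n - 1)) + B (m + (n - 1))) * ob R p j n :=
      Fintype.sum_equiv (Equiv.addRight 1) _ _ (fun n => by simp)
    have h2 : ∑ n, (A (m - n) + B (m + n)) * ob R p j (n - 1)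
        = ∑ n, (A (m - (n + 1)) + B (m + (n + 1))) * ob R p j n :=
      Fintype.sum_equiv (Equiv.subRight 1) _ _ (fun n => by simp)
    simp only [mul_sub, sub_mul, Finset.sum_sub_distrib]
    rw [h1, h2, sum_ob, sum_ob, Nm_expand hp _ hAB, Nm_expand hp _ hAB]
    simp only [Pi.add_apply]
    have e1 : m - (io p j - 1) = m + 1 - io p j := by ring
    have e2 : m + (io p j - 1) = m - 1 + io p j := by ring
    have e3 : m - (-io p j - 1) = m + 1 + io p j := by ring
    have e4 : m + (-io p j - 1) = m - 1 - io p j := by ring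
    have e5 : m - (io p j + 1) = m - 1 - io p j := by ring
    have e6 : m + (io p j + 1) = m + 1 + io p j := by ring
    have e7 : m - (-io p j + 1) = m - 1 + io p j := by ring
    have e8 : m + (-io p j + 1) = m + 1 - io p j := by ring
    rw [e1, e2, e3, e4, e5, e6, e7, e8]
    ring
  · simp only [mul_apply, Psi, Dm, of_apply, Fintype.sum_sum_type, Finset.univ_unique,
      Finset.sum_singleton, fromBlocks_apply₁₂, fromBlocks_apply₂₂, Matrix.zero_apply, mul_zero,
      Finset.sum_const_zero, add_zero, zero_add]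
    rw [sum_ob, Nm_expand hp _ hAB']
    simp only [Pi.sub_apply, sub_neg_eq_add, ← sub_eq_add_neg]
    ring

lemma psi_inj (hp : p = 2 * l + 1) [NeZero p] [IsDomain R] [CharZero R] (v : J l → R)
    (hv : Psi R p l *ᵥ v = 0) : v = 0 := by
  set c := v (Sum.inl ()) with hc
  set G : ZMod p → R := fun n => ∑ j, ob R p j n * v (Sum.inr (Sum.inl j)) with hG
  set H : ZMod p → R := fun n => ∑ j, ob R p j n * v (Sum.inr (Sum.inr j)) with hH
  have hGn : ∀ n, G (-n) = -G n := fun n => by simp [hG, ob_neg]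
  have hHn : ∀ n, H (-n) = -H n := fun n => by simp [hH, ob_neg]
  have hG0 : G 0 = 0 := by simp [hG, ob_zero hp]
  have he : ∀ n, c + (G (n + 1) - G (n - 1)) + H n = 0 := by
    intro n
    have := congrFun hv n
    simp only [mulVec, dotProduct, Psi, Fintype.sum_sum_type, Finset.univ_unique,
      Finset.sum_singleton, one_mul, Pi.zero_apply, sub_mul, Finset.sum_sub_distrib] at this
    simp only [hG, hH]
    rw [← this]; ring
  have hH0 : ∀ n, H n = 0 := by
    intro n
    have h1 := he n
    have h2 := he (-n)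
    have e1 : -n + 1 = -(n - 1) := by ring
    have e2 : -n - 1 = -(n + 1) := by ring
    rw [e1, e2, hGn, hGn, hHn] at h2
    have : (2 : R) * H n = 0 := by linear_combination h1 - h2
    exact (mul_eq_zero.1 this).resolve_left two_ne_zero
  have hc0 : c = 0 := by
    have h1 : ∑ n, (c + (G (n + 1) - G (n - 1)) + H n) = 0 := by simp [he]
    have h2 : ∑ n, G (n + 1) = ∑ n, G n := Fintype.sum_equiv (Equiv.addRight 1) _ _ (fun n => rfl)
    have h3 : ∑ n, G (n - 1) = ∑ n, G n := Fintype.sum_equiv (Equiv.subRight 1) _ _ (fun n => rfl)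
    simp only [hH0, add_zero, Finset.sum_add_distrib, Finset.sum_sub_distrib, h2, h3, sub_self,
      Finset.sum_const, Finset.card_univ, ZMod.card, nsmul_eq_mul] at h1
    have hp0 : (p : R) ≠ 0 := Nat.cast_ne_zero.2 (NeZero.ne p)
    exact (mul_eq_zero.1 h1).resolve_left hp0
  have hstep : ∀ n, G (n + 2) = G n := by
    intro n
    have := he (n + 1)
    rw [hc0, hH0] at this
    have e1 : n + 1 + 1 = n + 2 := by ring
    have e2 : n + 1 - 1 = n := by ring
    rw [e1, e2] at this
    linear_combination this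
  have hk : ∀ k : ℕ, G (2 * (k : ZMod p)) = 0 := by
    intro k
    induction k with
    | zero => simpa using hG0
    | succ k ih =>
      have : (2 : ZMod p) * ((k + 1 : ℕ) : ZMod p) = 2 * (k : ZMod p) + 2 := by push_cast; ring
      rw [this, hstep, ih]
  have hGz : ∀ n, G n = 0 := by
    intro n
    have h1 : ((2 * l + 1 : ℕ) : ZMod p) = 0 := by rw [← hp]; exact ZMod.natCast_self p
    have := hk ((l + 1) * n.val)
    have e : (2 : ZMod p) * (((l + 1) * n.val : ℕ) : ZMod p) = n := by
      push_cast at h1 ⊢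
      rw [ZMod.natCast_val, ZMod.cast_id', id]
      linear_combination n * h1
    rwa [e] at this
  funext j
  rcases j with j | j | j
  · exact hc0
  · have := hGz (io p j)
    simpa [hG, ob_io hp] using this
  · have := hH0 (io p j)
    simpa [hH, ob_io hp] using this

theorem det_sym (hp : p = 2 * l + 1) [NeZero p] [IsDomain R] [CharZero R] (A B : ZMod p → R)
    (hA : ∀ n, A (-n) = A n) (hB : ∀ n, B (-n) = B n) :
    (Matrix.of fun m n => A (m - n) + B (m + n)).det
      = (∑ n, A n + ∑ n, B n) * ((Nm p l (A + B)).det * (Nm p l (A - B)).det) := by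
  have hcard : Fintype.card (J l) = Fintype.card (ZMod p) := by
    simp [ZMod.card, hp]; ring
  let e : J l ≃ ZMod p := Fintype.equivOfCardEq hcard
  set Q : Matrix (ZMod p) (ZMod p) R := Matrix.of fun m n => A (m - n) + B (m + n) with hQ
  have h1 := intertwine hp A B hA hB
  rw [← hQ] at h1
  have h2 : Q.submatrix e e * (Psi R p l).submatrix e id
      = (Psi R p l).submatrix e id * Dm l A B := by
    rw [submatrix_mul_equiv, h1]
    ext i j
    simp [mul_apply]
  have h3 := congrArg det h2
  rw [det_mul, det_mul, det_submatrix_equiv_self] at h3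
  have h4 : ((Psi R p l).submatrix e id).det ≠ 0 := by
    intro h
    obtain ⟨v, hv0, hv⟩ := exists_mulVec_eq_zero_iff.2 h
    apply hv0
    apply psi_inj hp v
    funext n
    have := congrFun hv (e.symm n)
    simpa [mulVec, dotProduct] using this
  have h5 : (Dm l A B).det = (∑ n, A n + ∑ n, B n) *
      ((Nm p l (A + B)).det * (Nm p l (A - B)).det) := by
    unfold Dm
    rw [det_fromBlocks_zero₂₁, det_fromBlocks_zero₂₁, det_unique]
  rw [← h5]
  rw [mul_comm] at h3
  exact mul_left_cancel₀ h4 h3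

/-- shifted version -/
theorem det_sym' (hp : p = 2 * l + 1) [NeZero p] [IsDomain R] [CharZero R] (A B : ZMod p → R)
    (hA : ∀ n, A (-n) = A n) (hB : ∀ n, B (-n) = B n) (h s : ZMod p)
    (Q : Matrix (ZMod p) (ZMod p) R) (hQ : ∀ m n, Q m n = A (n - m - h) + B (s - m - n)) :
    ∃ σ : ℤˣ, Q.det
      = ((σ : ℤ) : R) * ((∑ n, A n + ∑ n, B n) * ((Nm p l (A + B)).det * (Nm p l (A - B)).det)) := by
  have h1 : ((2 * l + 1 : ℕ) : ZMod p) = 0 := by rw [← hp]; exact ZMod.natCast_self p
  push_cast at h1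
  set a1 : ZMod p := (l + 1) * (s - h) with ha1
  set a2 : ZMod p := (l + 1) * (s + h) with ha2
  have e1 : a2 - a1 = h := by rw [ha1, ha2]; linear_combination h * h1
  have e2 : a1 + a2 = s := by rw [ha1, ha2]; linear_combination s * h1
  have hQ' : Q = ((Matrix.of fun m n => A (m - n) + B (m + n)).submatrix (Equiv.subRight a1) id).submatrix
      id (Equiv.subRight a2) := by
    ext m n
    simp only [hQ, submatrix_apply, id, Equiv.subRight_apply, of_apply]
    congr 1
    · rw [← hA]; congr 1; rw [← e1]; ring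
    · rw [← hB]; congr 1; rw [← e2]; ring
  refine ⟨Equiv.Perm.sign (Equiv.subRight a2) * Equiv.Perm.sign (Equiv.subRight a1), ?_⟩
  rw [hQ', det_permute', det_permute, det_sym hp A B hA hB]
  push_cast
  ring

end Pool.Agent.H63.Tb
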