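import Mathlib
import Pool.Agent.H63.Tb1

namespace Pool.Agent.H63.Tb

open Matrix LaurentPolynomial

abbrev LP := LaurentPolynomial ℤ

lemma C_inj : Function.Injective (LaurentPolynomial.C : ℤ →+* LP) := by
  intro x y h
  rw [← Polynomial.toLaurent_C, ← Polynomial.toLaurent_C] at h
  exact Polynomial.C_injective (Polynomial.toLaurent_injective h)

instance : CharZero LP := charZero_of_injective_ringHom C_inj

lemma sum_shift {M : Type} [AddCommGroup M] (a : ℕ) (F : ℕ → M) (hF : ∀ k, F (k + a) = F k)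
    (s : ℕ) : ∑ k ∈ Finset.range a, F (s + k) = ∑ k ∈ Finset.range a, F k := by
  induction s with
  | zero => simp
  | succ s ih =>
    rw [← ih]
    have h1 := Finset.sum_range_succ (fun k => F (s + k)) a
    have h2 := Finset.sum_range_succ' (fun k => F (s + k)) a
    have h3 : F (s + a) = F (s + 0) := by rw [hF, add_zero]
    rw [h1, h3] at h2
    have h4 := add_right_cancel h2
    rw [h4]
    exact Finset.sum_congr rfl fun k _ => by congr 1; ring

lemma sum_refl {M : Type} [AddCommGroup M] (a : ℕ) (F : ℕ → M) (hF : ∀ k, F (k + a) = F k)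
    (μ : ℕ) (hμ : a ≤ μ + 1) :
    ∑ k ∈ Finset.range a, F (μ - k) = ∑ k ∈ Finset.range a, F k := by
  rw [← sum_shift a F hF (μ + 1 - a), ← Finset.sum_range_reflect]
  refine Finset.sum_congr rfl fun k hk => ?_
  have := Finset.mem_range.1 hk
  congr 1; omega

lemma dvd_T_even (j : ℤ) : (1 - T 2 : LP) ∣ T (2 * j) - 1 := by
  induction j using Int.induction_on with
  | zero => simp
  | succ j ih =>
    have : (T (2 * ((j : ℤ) + 1)) : LP) - 1 = T 2 * (T (2 * j) - 1) - (1 - T 2) := by
      rw [show 2 * ((j : ℤ) + 1) = 2 + 2 * j by ring, T_add]; ring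
    rw [this]
    exact dvd_sub (Dvd.dvd.mul_left ih _) dvd_rfl
  | pred j ih =>
    have h1 : (T (-2) : LP) * T 2 = 1 := by rw [← T_add]; simp
    have : (T (2 * (-(j : ℤ) - 1)) : LP) - 1
        = T (-2) * (T (2 * (-(j : ℤ))) - 1) + T (-2) * (1 - T 2) := by
      rw [show 2 * (-(j : ℤ) - 1) = -2 + 2 * (-j) by ring, T_add]
      linear_combination h1
    rw [this]
    exact dvd_add (Dvd.dvd.mul_left ih _) (Dvd.dvd.mul_left dvd_rfl _)

variable {p l : ℕ}

/-- number of `k < a` with `z = k δ - h` does not depend on `z` -/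
lemma cnt_const [Fact p.Prime] (a : ℕ) (δ h : ZMod p) (hδ : δ ≠ 0) (ha : (a : ZMod p) * δ = 0)
    (z z' : ZMod p) :
    ∑ k ∈ Finset.range a, (if z = k * δ - h then (1 : LP) else 0)
      = ∑ k ∈ Finset.range a, (if z' = k * δ - h then (1 : LP) else 0) := by
  have hper : ∀ (z : ZMod p) (k : ℕ), (if z = ((k + a : ℕ) : ZMod p) * δ - h then (1 : LP) else 0)
      = if z = k * δ - h then (1 : LP) else 0 := by
    intro z k
    have : ((k + a : ℕ) : ZMod p) * δ = k * δ := by push_cast; linear_combination ha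
    rw [this]
  set s := ((z - z') / δ).val with hs
  have hs' : (s : ZMod p) * δ = z - z' := by
    rw [hs, ZMod.natCast_val, ZMod.cast_id', id, div_mul_cancel₀ _ hδ]
  rw [← sum_shift a (fun k => if z = (k : ZMod p) * δ - h then (1 : LP) else 0) (hper z) s]
  refine Finset.sum_congr rfl fun k _ => ?_
  have : (z = ((s + k : ℕ) : ZMod p) * δ - h) ↔ (z' = k * δ - h) := by
    push_cast
    constructor
    · intro h1; linear_combination h1 + hs'
    · intro h1; linear_combination h1 - hs'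
  simp only [this]

/-- weighted indicator sums -/
noncomputable def W (a : ℕ) (δ h : ZMod p) (c : ℕ → LP) (z : ZMod p) : LP :=
  ∑ k ∈ Finset.range a, if z = k * δ - h then c k else 0

lemma W_even (a : ℕ) (δ h : ZMod p) (ha : (a : ZMod p) * δ = 0) (c : ℕ → LP)
    (hc : ∀ k, c (k + a) = c k) (μ : ℕ) (hμ : a ≤ μ + 1) (hsym : ∀ k ≤ μ, c (μ - k) = c k)
    (hh : 2 * h = μ * δ) (z : ZMod p) : W a δ h c (-z) = W a δ h c z := by
  unfold W
  rw [← sum_refl a (fun k => if z = (k : ZMod p) * δ - h then c k else 0) ?_ μ hμ]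
  · refine Finset.sum_congr rfl fun k hk => ?_
    have hk' : k ≤ μ := by have := Finset.mem_range.1 hk; omega
    rw [hsym k hk', Nat.cast_sub hk']
    have : (-z = k * δ - h) ↔ (z = ((μ : ZMod p) - k) * δ - h) := by
      constructor
      · intro h1; linear_combination hh - h1
      · intro h1; linear_combination hh - h1
    simp only [this]
  · intro k
    have : ((k + a : ℕ) : ZMod p) * δ = k * δ := by push_cast; linear_combination ha
    simp only [this, hc]

lemma W_sum [NeZero p] (a : ℕ) (δ h : ZMod p) (c : ℕ → LP) :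
    ∑ z, W a δ h c z = ∑ k ∈ Finset.range a, c k := by
  unfold W
  rw [Finset.sum_comm]
  simp

lemma W_dvd [Fact p.Prime] (a : ℕ) (δ h : ZMod p) (hδ : δ ≠ 0) (ha : (a : ZMod p) * δ = 0)
    (c : ℕ → LP) (c0 : LP) (hc : ∀ k, (1 - T 2 : LP) ∣ c k - c0) (z z' : ZMod p) :
    (1 - T 2 : LP) ∣ W a δ h c z - W a δ h c z' := by
  have h1 : ∀ z, (1 - T 2 : LP) ∣ W a δ h c z
      - c0 * ∑ k ∈ Finset.range a, (if z = k * δ - h then (1 : LP) else 0) := by
    intro z
    unfold W
    rw [Finset.mul_sum, ← Finset.sum_sub_distrib]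
    refine Finset.dvd_sum fun k _ => ?_
    split_ifs
    · simpa using hc k
    · simp
  have h2 := dvd_sub (h1 z) (h1 z')
  rw [cnt_const a δ h hδ ha z z'] at h2
  simpa using h2

theorem core [Fact p.Prime] (hp : p = 2 * l + 1) (ν : LP →+* LP)
    (hνe : ∀ k, Even k → ν (T k) = T k) (hνo : ∀ k, Odd k → ν (T k) = -T k)
    (a : ℕ) (d : ℕ → ℤ) (hde : ∀ k, Even (d (2 * k))) (hdo : ∀ k, Odd (d (2 * k + 1)))
    (hper : ∀ i, d (i + 2 * a) = d i) (μ : ℕ) (hμ : a + 1 ≤ μ)
    (hsym : ∀ i ≤ 2 * μ, d (2 * μ - i) = d i) (δ u : ZMod p) (hδ : δ ≠ 0)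
    (ha : (a : ZMod p) * δ = 0) (Q : Matrix (ZMod p) (ZMod p) LP)
    (hQ : ∀ m n, Q m n = ∑ k ∈ Finset.range a,
      ((if m = (u - k * δ) - n then T (d (2 * k + 1)) else 0)
        - (if m = n - k * δ then T (d (2 * k)) else 0))) :
    ∃ (f : LP) (σ : ℤˣ), Q.det = ((σ : ℤ) : LP) *
      ((∑ k ∈ Finset.range a, (T (d (2 * k + 1)) - T (d (2 * k)))) *
        (((1 - T 2) ^ l * f) * ((1 - T 2) ^ l * ν f))) := by
  have h1 : ((2 * l + 1 : ℕ) : ZMod p) = 0 := by rw [← hp]; exact ZMod.natCast_self p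
  push_cast at h1
  set h : ZMod p := (l + 1) * (μ * δ) with hh
  set h' : ZMod p := (l + 1) * (((μ - 1 : ℕ) : ZMod p) * δ) with hh'
  have e1 : 2 * h = μ * δ := by rw [hh]; linear_combination (μ * δ) * h1
  have e2 : 2 * h' = ((μ - 1 : ℕ) : ZMod p) * δ := by
    rw [hh']; linear_combination (((μ - 1 : ℕ) : ZMod p) * δ) * h1
  set A : ZMod p → LP := W a δ h (fun k => -T (d (2 * k))) with hA
  set B : ZMod p → LP := W a δ h' (fun k => T (d (2 * k + 1))) with hB
  have hAe : ∀ z, A (-z) = A z := by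
    refine W_even a δ h ha _ (fun k => ?_) μ (by omega) (fun k hk => ?_) e1
    · rw [show 2 * (k + a) = 2 * k + 2 * a by ring, hper]
    · rw [← hsym (2 * k) (by omega)]; congr 3; omega
  have hBe : ∀ z, B (-z) = B z := by
    refine W_even a δ h' ha _ (fun k => ?_) (μ - 1) (by omega) (fun k hk => ?_) e2
    · rw [show 2 * (k + a) + 1 = 2 * k + 1 + 2 * a by ring, hper]
    · rw [← hsym (2 * k + 1) (by omega)]; congr 2; omega
  have hQ' : ∀ m n, Q m n = A (n - m - h) + B (u - h' - m - n) := by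
    intro m n
    rw [hQ, hA, hB]
    unfold W
    rw [← Finset.sum_add_distrib]
    refine Finset.sum_congr rfl fun k _ => ?_
    have i1 : (m = (u - k * δ) - n) ↔ (u - h' - m - n = k * δ - h') := by
      constructor
      · intro h1; linear_combination -h1
      · intro h1; linear_combination -h1
    have i2 : (m = n - k * δ) ↔ (n - m - h = k * δ - h) := by
      constructor
      · intro h1; linear_combination -h1
      · intro h1; linear_combination -h1
    simp only [i1, i2]
    split_ifs <;> ring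
  obtain ⟨σ, hσ⟩ := det_sym' hp A B hAe hBe h (u - h') Q hQ'
  have hνA : ∀ z, ν (A z) = A z := by
    intro z
    rw [hA]; unfold W
    rw [map_sum]
    refine Finset.sum_congr rfl fun k _ => ?_
    split_ifs
    · rw [map_neg, hνe _ (hde k)]
    · simp
  have hνB : ∀ z, ν (B z) = -B z := by
    intro z
    rw [hB]; unfold W
    rw [map_sum, ← Finset.sum_neg_distrib]
    refine Finset.sum_congr rfl fun k _ => ?_
    split_ifs
    · rw [hνo _ (hdo k)]
    · simp
  have hdA : ∀ z z', (1 - T 2 : LP) ∣ A z - A z' := by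
    refine W_dvd a δ h hδ ha _ (-1) (fun k => ?_)
    obtain ⟨j, hj⟩ := hde k
    have := dvd_T_even j
    rw [hj, ← two_mul]
    have e : (-T (2 * j) : LP) - -1 = -(T (2 * j) - 1) := by ring
    rw [e]; exact (dvd_neg).2 this
  have hdB : ∀ z z', (1 - T 2 : LP) ∣ B z - B z' := by
    refine W_dvd a δ h' hδ ha _ (T 1) (fun k => ?_)
    obtain ⟨j, hj⟩ := hdo k
    have := dvd_T_even j
    rw [hj]
    have e : (T (2 * j + 1) : LP) - T 1 = T 1 * (T (2 * j) - 1) := by rw [T_add]; ring
    rw [e]; exact Dvd.dvd.mul_left this _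
  have hN : ∀ i j, (1 - T 2 : LP) ∣ Nm p l (A + B) i j := by
    intro i j
    unfold Nm
    simp only [Pi.add_apply]
    have := dvd_add (hdA (io p i - io p j) (io p i + io p j)) (hdB (io p i - io p j) (io p i + io p j))
    convert this using 1; ring
  choose N' hN' using hN
  have hN1 : Nm p l (A + B) = (1 - T 2 : LP) • Matrix.of N' := by
    ext i j : 1
    rw [hN']; simp
  have hN2 : Nm p l (A - B) = ν.mapMatrix (Nm p l (A + B)) := by
    ext i j : 1
    simp only [Nm, RingHom.mapMatrix_apply, map_apply, Pi.add_apply, Pi.sub_apply, map_sub,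
      map_add, hνA, hνB]
    ring
  have hν2 : ν (1 - T 2) = 1 - T 2 := by rw [map_sub, map_one, hνe 2 (by decide)]
  have hd1 : (Nm p l (A + B)).det = (1 - T 2) ^ l * (Matrix.of N').det := by
    rw [hN1, det_smul, Fintype.card_fin]
  refine ⟨(Matrix.of N').det, σ, ?_⟩
  rw [hσ, hN2, ← RingHom.map_det, hd1, map_mul, map_pow, hν2, hA, hB, W_sum, W_sum,
    Finset.sum_sub_distrib, Finset.sum_neg_distrib]
  ring

/-- determinant of `t X - 1` -/
theorem det_refl [NeZero p] (hp : p = 2 * l + 1) (u : ZMod p) (Q : Matrix (ZMod p) (ZMod p) LP)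
    (hQ : ∀ m n, Q m n = (if m = u - n then T 1 else 0) - (if m = n then 1 else 0)) :
    ∃ σ : ℤˣ, Q.det = ((σ : ℤ) : LP) * ((T 1 - 1) * (1 - T 2) ^ l) := by
  set A : ZMod p → LP := fun z => if z = 0 then -1 else 0 with hA
  set B : ZMod p → LP := fun z => if z = 0 then T 1 else 0 with hB
  have hQ' : ∀ m n, Q m n = A (n - m - 0) + B (u - m - n) := by
    intro m n
    rw [hQ, hA, hB]
    have i1 : (m = u - n) ↔ (u - m - n = 0) := by
      constructor
      · intro h1; linear_combination -h1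
      · intro h1; linear_combination -h1
    have i2 : (m = n) ↔ (n - m - 0 = 0) := by
      constructor
      · intro h1; linear_combination -h1
      · intro h1; linear_combination -h1
    simp only [i1, i2]
    split_ifs <;> ring
  obtain ⟨σ, hσ⟩ := det_sym' hp A B (fun z => by simp [hA]) (fun z => by simp [hB]) 0 u Q hQ'
  have hN : ∀ c : LP, Nm p l (fun z => if z = 0 then c else 0) = c • (1 : Matrix (Fin l) (Fin l) LP) := by
    intro c
    ext i j : 1
    simp only [Nm, if_neg (io_add_ne hp i j), sub_zero, Matrix.smul_apply, Matrix.one_apply, smul_eq_mul]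
    by_cases h : i = j
    · simp [h]
    · rw [if_neg h, if_neg (fun h' => h (io_inj hp i j (sub_eq_zero.1 h'))), mul_zero]
  have h1 : A + B = fun z => if z = 0 then (T 1 - 1 : LP) else 0 := by
    funext z; simp only [hA, hB, Pi.add_apply]; split_ifs <;> ring
  have h2 : A - B = fun z => if z = 0 then (-1 - T 1 : LP) else 0 := by
    funext z; simp only [hA, hB, Pi.sub_apply]; split_ifs <;> ring
  refine ⟨σ, ?_⟩
  rw [hσ, h1, h2, hN, hN, det_smul, det_smul, det_one, Fintype.card_fin, mul_one, mul_one,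
    ← mul_pow]
  have h3 : ((T 1 - 1) * (-1 - T 1) : LP) = 1 - T 2 := by
    have : (T 2 : LP) = T 1 * T 1 := by rw [← T_add]; norm_num
    rw [this]; ring
  rw [h3]
  simp only [hA, hB, Finset.sum_ite_eq', Finset.mem_univ, if_true]
  ring

/-! ### arithmetic of the Schubert signs -/

lemma neg_div_odd (N M : ℤ) (hN : Odd N) (hM : 0 < M) : (-N) / (2 * M) = -(N / (2 * M)) - 1 := by
  have h1 := Int.mul_ediv_add_emod N (2 * M)
  have h2 := Int.emod_nonneg N (by omega : 2 * M ≠ 0)
  have h3 := Int.emod_lt_of_pos N (by omega : 0 < 2 * M)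
  have h4 : N % (2 * M) ≠ 0 := by
    intro h
    rw [h] at h1
    obtain ⟨j, hj⟩ := hN
    have : 2 * (M * (N / (2 * M))) = 2 * j + 1 := by rw [← hj]; linarith
    omega
  have := (Int.ediv_emod_unique (a := -N) (b := 2 * M) (q := -(N / (2 * M)) - 1)
    (r := 2 * M - N % (2 * M)) (by omega)).2 ⟨by linarith, by omega, by omega⟩
  exact this.1

/-- the floor sequence -/
def fl (a : ℕ) (b : ℤ) (i : ℤ) : ℤ := (2 * i * b - 1) / (2 * a)

lemma fl_refl (a : ℕ) (ha : 0 < a) (b c q : ℤ) (hc : c * b = 1 + 2 * a * q) (i : ℤ) :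
    fl a b (c - i) = -fl a b i - 1 + 2 * q := by
  unfold fl
  have h1 : 2 * (c - i) * b - 1 = -(2 * i * b - 1) + (2 * a) * (2 * q) := by linear_combination 2 * hc
  have ha' : (0 : ℤ) < a := by exact_mod_cast ha
  rw [h1, Int.add_mul_ediv_left _ _ (by omega), neg_div_odd _ _ ⟨i * b - 1, by ring⟩ ha']

lemma fl_add (a : ℕ) (ha : 0 < a) (b i : ℤ) : fl a b (i + a) = fl a b i + b := by
  unfold fl
  have h1 : 2 * (i + a) * b - 1 = (2 * i * b - 1) + (2 * a) * b := by ring
  have ha' : (0 : ℤ) < a := by exact_mod_cast ha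
  rw [h1, Int.add_mul_ediv_left _ _ (by omega)]

lemma fl_neg (a : ℕ) (ha : 0 < a) (b i : ℤ) (hi : ¬ (a : ℤ) ∣ i * b) :
    fl a b i = i * b / a ∧ fl a b (-i) = -(i * b / a) - 1 := by
  unfold fl
  have ha' : (0 : ℤ) < a := by exact_mod_cast ha
  have h1 := Int.mul_ediv_add_emod (i * b) a
  have h2 := Int.emod_nonneg (i * b) ha'.ne'
  have h3 := Int.emod_lt_of_pos (i * b) ha'
  have h4 : (i * b) % a ≠ 0 := fun h => hi (Int.dvd_of_emod_eq_zero h)
  constructor
  · exact ((Int.ediv_emod_unique (a := 2 * i * b - 1) (b := 2 * a) (q := i * b / a)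
      (r := 2 * ((i * b) % a) - 1) (by omega)).2 ⟨by linarith, by omega, by omega⟩).1
  · exact ((Int.ediv_emod_unique (a := 2 * -i * b - 1) (b := 2 * a) (q := -(i * b / a) - 1)
      (r := 2 * a - 2 * ((i * b) % a) - 1) (by omega)).2 ⟨by linarith, by omega, by omega⟩).1

lemma fl_zero (a : ℕ) (ha : 0 < a) (b : ℤ) : fl a b 0 = -1 := by
  unfold fl
  have ha' : (0 : ℤ) < a := by exact_mod_cast ha
  exact ((Int.ediv_emod_unique (a := 2 * 0 * b - 1) (b := 2 * a) (q := -1)
      (r := 2 * a - 1) (by omega)).2 ⟨by linarith, by omega, by omega⟩).1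

end Pool.Agent.H63.Tb
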