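import Mathlib

/-!
Points of the Weil restriction torus `A = R_{K/ℚ}(𝔾_m)`: `A(ℚ) = Kˣ`, `A(F) = (F ⊗ K)ˣ`
for `F = ℝ` or `ℚ_p`, and the two parts of the expected answer for `A`.
-/

namespace Pool.Agent.H63.TorusDefs

open scoped TensorProduct

section general

variable (F : Type) [Field F] [TopologicalSpace F] [IsTopologicalRing F] [Algebra ℚ F]
  (K : Type) [Field K] [NumberField K]

/-- `F ⊗ K` carries its topology of finite-dimensional `F`-vector space. -/
noncomputable instance tensorTop : TopologicalSpace (F ⊗[ℚ] K) := moduleTopology F (F ⊗[ℚ] K)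

instance tensorIsModuleTop : IsModuleTopology F (F ⊗[ℚ] K) := ⟨rfl⟩

instance tensorTopRing : IsTopologicalRing (F ⊗[ℚ] K) :=
  IsModuleTopology.isTopologicalRing F (F ⊗[ℚ] K)

/-- The inclusion `A(ℚ) = Kˣ → A(F) = (F ⊗ K)ˣ`, `x ↦ 1 ⊗ x`. -/
noncomputable def toPts : Kˣ →* (F ⊗[ℚ] K)ˣ :=
  Units.map (Algebra.TensorProduct.includeRight : K →ₐ[ℚ] F ⊗[ℚ] K).toRingHom.toMonoidHom

/-- The closure of `L ≤ A(ℚ)` in `A(F)`. -/
noncomputable def closureIn (L : Subgroup Kˣ) : Subgroup (F ⊗[ℚ] K)ˣ :=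
  (L.map (toPts F K)).topologicalClosure

end general

variable (K : Type) [Field K] [NumberField K]

/-- The identity component of a subgroup `H` of `A(ℝ)`. -/
noncomputable def identityComponent (H : Subgroup (ℝ ⊗[ℚ] K)ˣ) : Subgroup (ℝ ⊗[ℚ] K)ˣ :=
  (Subgroup.connectedComponentOfOne H).map H.subtype

/-- `B ≤ A(ℝ)` is cut out by polynomials (real coefficients allowed) in the coordinates
attached to a `ℚ`-basis of `K`. The real points of any algebraic subgroup of `A` defined over `ℚ`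
(or over `ℝ`) form such a subgroup. -/
def IsZeroLocus (B : Subgroup (ℝ ⊗[ℚ] K)ˣ) : Prop :=
  ∃ S : Set (MvPolynomial (Fin (Module.finrank ℚ K)) ℝ), ∀ x : (ℝ ⊗[ℚ] K)ˣ,
    x ∈ B ↔ ∀ P ∈ S,
      MvPolynomial.eval (fun i => ((Module.finBasis ℚ K).baseChange ℝ).repr (x : ℝ ⊗[ℚ] K) i) P = 0

/-- The real part of the expected answer for `A = R_{K/ℚ}(𝔾_m)`. -/
def RealExpected : Prop :=
  ∀ L : Subgroup Kˣ, L.FG → ∃ B : Subgroup (ℝ ⊗[ℚ] K)ˣ, IsZeroLocus K B ∧
    identityComponent K (closureIn ℝ K L) ≤ B ∧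
    (identityComponent K (closureIn ℝ K L)).relIndex B ≠ 0

/-- The rank of a subgroup of `Kˣ`. -/
noncomputable def rk (H : Subgroup Kˣ) : ℕ := Module.finrank ℤ (Additive H)

/-- Over an algebraically closed field `Ω`, the characters of `A` are `x ↦ ∏ σ, σ x ^ l σ` with
`σ` running over the embeddings `K → Ω`, and the algebraic subgroups of `A` are the common kernels
`B_Λ` of subgroups `Λ` of characters, with `dim B_Λ = [K:ℚ] - rank Λ`.
This is the group of points of `A(ℚ) = Kˣ` lying in `B_Λ`. -/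
def killedBy (Ω : Type) [Field Ω] [CharZero Ω] (Λ : Submodule ℤ ((K →+* Ω) → ℤ)) :
    Subgroup Kˣ where
  carrier := {x | ∀ l ∈ Λ, ∏ σ : K →+* Ω, σ (x : K) ^ l σ = 1}
  mul_mem' := by
    intro a b ha hb l hl
    simp [mul_zpow, Finset.prod_mul_distrib, ha l hl, hb l hl]
  one_mem' := by intro l _; simp
  inv_mem' := by
    intro a ha l hl
    simp [inv_zpow, Finset.prod_inv_distrib, ha l hl]

/-- The `p`-adic part of the expected answer for `A = R_{K/ℚ}(𝔾_m)`. The closure of `L` lies in a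
compact group, so it is its own maximal compact subgroup. -/
def PadicExpected (p : ℕ) [Fact p.Prime] : Prop :=
  ∀ L : Subgroup Kˣ, L.FG →
    (∃ M : Subgroup (ℚ_[p] ⊗[ℚ] K)ˣ, IsCompact (M : Set (ℚ_[p] ⊗[ℚ] K)ˣ) ∧
      L.map (toPts ℚ_[p] K) ≤ M) →
    (∀ Λ : Submodule ℤ ((K →+* AlgebraicClosure ℚ_[p]) → ℤ),
      rk K (L ⊓ killedBy K (AlgebraicClosure ℚ_[p]) Λ) ≤
        Module.finrank ℚ K - Module.finrank ℤ Λ) →
    ∃ (H : Subgroup (closureIn ℚ_[p] K L)) (H' : Subgroup (Multiplicative (Fin (rk K L) → ℤ_[p]))),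
      H.FiniteIndex ∧ H'.FiniteIndex ∧ Nonempty (H ≃* H')

end Pool.Agent.H63.TorusDefs
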