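import Mathlib

namespace Pool.Agent.H63.TorusField

open Polynomial

noncomputable def fZ : ℤ[X] := X ^ 4 - 6 * X ^ 3 - 4 * X ^ 2 + 14 * X + 10
noncomputable def fQ : ℚ[X] := X ^ 4 - 6 * X ^ 3 - 4 * X ^ 2 + 14 * X + 10
noncomputable def gZ : ℤ[X] := X ^ 3 + 4 * X ^ 2 - 124 * X - 716
noncomputable def gQ : ℚ[X] := X ^ 3 + 4 * X ^ 2 - 124 * X - 716

lemma fZ_natDegree : fZ.natDegree = 4 := by unfold fZ; compute_degree!
lemma fZ_monic : fZ.Monic := by unfold fZ; monicity!
lemma fQ_natDegree : fQ.natDegree = 4 := by unfold fQ; compute_degree!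
lemma fQ_monic : fQ.Monic := by unfold fQ; monicity!
lemma gQ_natDegree : gQ.natDegree = 3 := by unfold gQ; compute_degree!
lemma gQ_monic : gQ.Monic := by unfold gQ; monicity!
lemma gZ_monic : gZ.Monic := by unfold gZ; monicity!

lemma fZ_map : fZ.map (Int.castRingHom ℚ) = fQ := by
  simp [fZ, fQ]

lemma fZ_irred : Irreducible fZ := by
  have hdeg : fZ.degree = 4 := by
    rw [Polynomial.degree_eq_natDegree fZ_monic.ne_zero, fZ_natDegree]; rfl
  have hP : (Ideal.span {(2 : ℤ)}).IsPrime :=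
    (Ideal.span_singleton_prime (by norm_num)).2 Int.prime_two
  refine irreducible_of_eisenstein_criterion hP ?_ ?_ ?_ ?_ fZ_monic.isPrimitive
  · rw [fZ_monic.leadingCoeff, Ideal.mem_span_singleton]; norm_num
  · intro n hn
    rw [hdeg] at hn
    have hn' : n < 4 := by exact_mod_cast hn
    rw [Ideal.mem_span_singleton]
    interval_cases n <;> simp [fZ, coeff_X, coeff_X_pow]
  · rw [hdeg]; norm_num
  · rw [Ideal.span_singleton_pow, Ideal.mem_span_singleton]
    simp [fZ, coeff_X, coeff_X_pow]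

lemma fQ_irred : Irreducible fQ := by
  rw [← fZ_map]
  exact (IsPrimitive.Int.irreducible_iff_irreducible_map_cast fZ_monic.isPrimitive).1 fZ_irred

lemma gQ_irred : Irreducible gQ := by
  apply irreducible_of_degree_le_three_of_not_isRoot
  · rw [gQ_natDegree]; simp
  · intro x hx
    have h1 : aeval x gZ = 0 := by
      simpa [gZ, gQ, IsRoot, map_ofNat] using hx
    obtain ⟨r, hr⟩ := isInteger_of_is_root_of_monic gZ_monic h1
    rw [← hr] at h1
    have h2 : r ^ 3 + 4 * r ^ 2 - 124 * r - 716 = 0 := by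
      have : ((r ^ 3 + 4 * r ^ 2 - 124 * r - 716 : ℤ) : ℚ) = 0 := by
        simpa [gZ, map_ofNat] using h1
      exact_mod_cast this
    have h3 : ((r : ZMod 3)) ^ 3 + 4 * (r : ZMod 3) ^ 2 - 124 * (r : ZMod 3) - 716 = 0 := by
      have := congrArg (Int.cast : ℤ → ZMod 3) h2
      push_cast at this
      exact this
    generalize (r : ZMod 3) = s at h3
    revert s
    decide

lemma splits_of_roots {F : Type*} [Field F] [Algebra ℚ F] (r : Fin 4 → F)
    (hr : Function.Injective r)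
    (h0 : ∀ i, r i ^ 4 - 6 * r i ^ 3 - 4 * r i ^ 2 + 14 * r i + 10 = 0) :
    (fQ.map (algebraMap ℚ F)).Splits := by
  classical
  rw [splits_iff_card_roots]
  have hne : fQ.map (algebraMap ℚ F) ≠ 0 := (fQ_monic.map _).ne_zero
  apply le_antisymm (card_roots' _)
  rw [natDegree_map, fQ_natDegree]
  calc 4 = (Finset.univ.image r).card := by
        rw [Finset.card_image_of_injective _ hr]; simp
    _ ≤ (fQ.map (algebraMap ℚ F)).roots.toFinset.card := by
        apply Finset.card_le_card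
        intro x hx
        obtain ⟨i, -, rfl⟩ := Finset.mem_image.1 hx
        rw [Multiset.mem_toFinset, mem_roots hne]
        simpa [fQ, IsRoot] using h0 i
    _ ≤ _ := Multiset.toFinset_card_le _

lemma splits_real : (fQ.map (algebraMap ℚ ℝ)).Splits := by
  set φ : ℝ → ℝ := fun x => x ^ 4 - 6 * x ^ 3 - 4 * x ^ 2 + 14 * x + 10 with hφ
  have hc : Continuous φ := by rw [hφ]; fun_prop
  obtain ⟨a, ha, ha0⟩ : (0 : ℝ) ∈ φ '' Set.Ioo (-2) (-1) :=
    intermediate_value_Ioo' (by norm_num) hc.continuousOn (by simp [hφ]; norm_num)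
  obtain ⟨b, hb, hb0⟩ : (0 : ℝ) ∈ φ '' Set.Ioo (-1) 0 :=
    intermediate_value_Ioo (by norm_num) hc.continuousOn (by simp [hφ]; norm_num)
  obtain ⟨c, hc', hc0⟩ : (0 : ℝ) ∈ φ '' Set.Ioo 1 2 :=
    intermediate_value_Ioo' (by norm_num) hc.continuousOn (by simp [hφ]; norm_num)
  obtain ⟨d, hd, hd0⟩ : (0 : ℝ) ∈ φ '' Set.Ioo 6 7 :=
    intermediate_value_Ioo (by norm_num) hc.continuousOn (by simp [hφ]; norm_num)
  apply splits_of_roots ![a, b, c, d]
  · apply StrictMono.injective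
    rw [Fin.strictMono_iff_lt_succ]
    intro i
    fin_cases i <;> simp <;> linarith [ha.1, ha.2, hb.1, hb.2, hc'.1, hc'.2, hd.1, hd.2]
  · intro i
    fin_cases i
    · exact ha0
    · exact hb0
    · exact hc0
    · exact hd0

instance : Fact (Nat.Prime 5) := ⟨by norm_num⟩

lemma padic_root (a : ℤ) (h1 : (5 : ℤ) ∣ a ^ 4 - 6 * a ^ 3 - 4 * a ^ 2 + 14 * a + 10)
    (h2 : ¬ (5 : ℤ) ∣ 4 * a ^ 3 - 18 * a ^ 2 - 8 * a + 14) :
    ∃ z : ℤ_[5], z ^ 4 - 6 * z ^ 3 - 4 * z ^ 2 + 14 * z + 10 = 0 ∧ ‖z - a‖ < 1 := by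
  have e1 : aeval (a : ℤ_[5]) fZ = ((a ^ 4 - 6 * a ^ 3 - 4 * a ^ 2 + 14 * a + 10 : ℤ) : ℤ_[5]) := by
    simp [fZ, map_ofNat]
  have e2 : aeval (a : ℤ_[5]) (derivative fZ)
      = ((4 * a ^ 3 - 18 * a ^ 2 - 8 * a + 14 : ℤ) : ℤ_[5]) := by
    simp [fZ, map_ofNat]; ring
  have n2 : ‖aeval (a : ℤ_[5]) (derivative fZ)‖ = 1 := by
    rw [e2]
    apply le_antisymm (PadicInt.norm_le_one _)
    by_contra h
    push Not at h
    exact h2 ((PadicInt.norm_int_lt_one_iff_dvd _).1 h)
  have hn : ‖aeval (a : ℤ_[5]) fZ‖ < ‖aeval (a : ℤ_[5]) (derivative fZ)‖ ^ 2 := by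
    rw [n2, e1, one_pow]
    exact (PadicInt.norm_int_lt_one_iff_dvd _).2 h1
  obtain ⟨z, hz, hz1, -⟩ := hensels_lemma hn
  refine ⟨z, ?_, by rwa [n2] at hz1⟩
  simpa [fZ, map_ofNat] using hz

lemma splits_padic : (fQ.map (algebraMap ℚ ℚ_[5])).Splits := by
  have h : ∀ i : Fin 4, ∃ z : ℤ_[5], z ^ 4 - 6 * z ^ 3 - 4 * z ^ 2 + 14 * z + 10 = 0 ∧
      ‖z - ((i : ℤ) : ℤ_[5])‖ < 1 := by
    intro i
    apply padic_root <;> fin_cases i <;> decide
  choose z hz0 hz1 using h
  apply splits_of_roots (fun i => (z i : ℚ_[5]))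
  · intro i j hij
    have hij' : z i = z j := Subtype.ext hij
    have h1 : ‖(((i : ℤ) - (j : ℤ) : ℤ) : ℤ_[5])‖ < 1 := by
      have : (((i : ℤ) - (j : ℤ) : ℤ) : ℤ_[5]) = (z j - ((j : ℤ) : ℤ_[5])) + -(z i - ((i : ℤ) : ℤ_[5])) := by
        rw [hij']; push_cast; ring
      rw [this]
      refine lt_of_le_of_lt (PadicInt.nonarchimedean _ _) (max_lt (hz1 j) ?_)
      rw [norm_neg]; exact hz1 i
    have h2 := (PadicInt.norm_int_lt_one_iff_dvd _).1 h1
    clear h1 hij hij'
    revert i j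
    decide
  · intro i
    have := congrArg (algebraMap ℤ_[5] ℚ_[5]) (hz0 i)
    simp only [map_add, map_sub, map_mul, map_pow, map_ofNat, map_zero] at this
    exact this

structure Good (K : Type) [Field K] [NumberField K] (θ : Fin 4 → K) : Prop where
  galois : IsGalois ℚ K
  inj : Function.Injective θ
  prod : ∀ x : K, x ^ 4 - 6 * x ^ 3 - 4 * x ^ 2 + 14 * x + 10 = ∏ i, (x - θ i)
  gen : Algebra.adjoin ℚ (Set.range θ) = ⊤
  real : Nonempty (K →+* ℝ)
  padic : Nonempty (K →+* ℚ_[5])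

theorem exists_good : ∃ (K : Type) (_ : Field K) (_ : NumberField K) (θ : Fin 4 → K), Good K θ := by
  classical
  let K := fQ.SplittingField
  have : NumberField K := { to_charZero := inferInstance, to_finiteDimensional := inferInstance }
  have hsep : fQ.Separable := fQ_irred.separable
  have hspl : (fQ.map (algebraMap ℚ K)).Splits := SplittingField.splits fQ
  have hcard : Fintype.card (fQ.rootSet K) = 4 := by
    rw [card_rootSet_eq_natDegree hsep hspl, fQ_natDegree]
  let e : fQ.rootSet K ≃ Fin 4 := Fintype.equivFinOfCardEq hcard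
  have hrange : Set.range (fun i => ((e.symm i : fQ.rootSet K) : K)) = fQ.rootSet K := by
    ext x
    constructor
    · rintro ⟨i, rfl⟩; exact (e.symm i).2
    · intro hx; exact ⟨e ⟨x, hx⟩, by simp⟩
  have hinj : Function.Injective (fun i => ((e.symm i : fQ.rootSet K) : K)) :=
    Subtype.val_injective.comp e.symm.injective
  refine ⟨K, inferInstance, inferInstance, fun i => ((e.symm i : fQ.rootSet K) : K),
    ⟨@IsGalois.of_separable_splitting_field ℚ _ K _ _ fQ (IsSplittingField.splittingField fQ) hsep, hinj, ?_, ?_, ⟨?_⟩, ⟨?_⟩⟩⟩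
  · intro x
    have hm : (fQ.map (algebraMap ℚ K)).Monic := fQ_monic.map _
    have hd : (fQ.map (algebraMap ℚ K)).natDegree = 4 := by rw [natDegree_map, fQ_natDegree]
    have hm2 : (∏ i : Fin 4, (X - C ((e.symm i : fQ.rootSet K) : K))).Monic :=
      monic_prod_X_sub_C _ _
    have hd2 : (∏ i : Fin 4, (X - C ((e.symm i : fQ.rootSet K) : K))).natDegree = 4 := by
      rw [natDegree_prod_of_monic _ _ (fun i _ => monic_X_sub_C _)]; simp
    have hdvd : (∏ i : Fin 4, (X - C ((e.symm i : fQ.rootSet K) : K))) ∣ fQ.map (algebraMap ℚ K) := by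
      apply Finset.prod_dvd_of_coprime
      · intro i _ j _ hij
        exact pairwise_coprime_X_sub_C hinj hij
      · intro i _
        rw [dvd_iff_isRoot, IsRoot, eval_map_algebraMap]
        exact aeval_eq_zero_of_mem_rootSet (e.symm i).2
    have heq := eq_of_monic_of_dvd_of_natDegree_le hm2 hm hdvd (by rw [hd, hd2])
    have := congrArg (eval x) heq
    simpa [fQ, eval_prod] using this
  · rw [hrange]; exact SplittingField.adjoin_rootSet fQ
  · exact (SplittingField.lift fQ splits_real : K →ₐ[ℚ] ℝ).toRingHom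
  · exact (SplittingField.lift fQ splits_padic : K →ₐ[ℚ] ℚ_[5]).toRingHom

end Pool.Agent.H63.TorusField
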