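import Mathlib
import Pool.Agent.H63.TorusField

namespace Pool.Agent.H63.TorusGal

open Polynomial Pool.Agent.H63.TorusField NumberField

variable {K : Type} [Field K] [NumberField K] {θ : Fin 4 → K}

lemma theta_root (h : Good K θ) (i : Fin 4) :
    θ i ^ 4 - 6 * θ i ^ 3 - 4 * θ i ^ 2 + 14 * θ i + 10 = 0 := by
  rw [h.prod]
  exact Finset.prod_eq_zero (Finset.mem_univ i) (sub_self _)

lemma root_eq (h : Good K θ) (x : K) (hx : x ^ 4 - 6 * x ^ 3 - 4 * x ^ 2 + 14 * x + 10 = 0) :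
    ∃ i, x = θ i := by
  rw [h.prod, Finset.prod_eq_zero_iff] at hx
  obtain ⟨i, -, hi⟩ := hx
  exact ⟨i, sub_eq_zero.1 hi⟩

lemma exists_perm (h : Good K θ) (g : K ≃ₐ[ℚ] K) :
    ∃ π : Equiv.Perm (Fin 4), ∀ i, g (θ i) = θ (π i) := by
  have : ∀ i, ∃ j, g (θ i) = θ j := by
    intro i
    apply root_eq h
    have := congrArg g (theta_root h i)
    simpa [map_ofNat] using this
  choose s hs using this
  have hinj : Function.Injective s := by
    intro i j hij
    apply h.inj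
    apply g.injective
    rw [hs, hs, hij]
  exact ⟨Equiv.ofBijective s (Finite.injective_iff_bijective.1 hinj), hs⟩

noncomputable def perm (h : Good K θ) : (K ≃ₐ[ℚ] K) →* Equiv.Perm (Fin 4) :=
  MonoidHom.mk' (fun g => (exists_perm h g).choose) (by
    intro g g'
    ext1 i
    apply h.inj
    rw [← (exists_perm h (g * g')).choose_spec, Equiv.Perm.mul_apply,
      ← (exists_perm h g).choose_spec, ← (exists_perm h g').choose_spec]
    rfl)

lemma perm_spec (h : Good K θ) (g : K ≃ₐ[ℚ] K) (i : Fin 4) : g (θ i) = θ (perm h g i) :=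
  (exists_perm h g).choose_spec i

lemma perm_inj (h : Good K θ) : Function.Injective (perm h) := by
  rw [injective_iff_map_eq_one]
  intro g hg
  have : (g : K →ₐ[ℚ] K) = AlgHom.id ℚ K := by
    apply AlgHom.ext_of_adjoin_eq_top h.gen
    rintro _ ⟨i, rfl⟩
    have := perm_spec h g i
    rw [hg] at this
    simpa using this
  ext x
  exact DFunLike.congr_fun this x

lemma vieta (h : Good K θ) :
    θ 0 + θ 1 + θ 2 + θ 3 = 6 ∧
    θ 0 * θ 1 + θ 0 * θ 2 + θ 0 * θ 3 + θ 1 * θ 2 + θ 1 * θ 3 + θ 2 * θ 3 = -4 ∧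
    θ 0 * θ 1 * θ 2 + θ 0 * θ 1 * θ 3 + θ 0 * θ 2 * θ 3 + θ 1 * θ 2 * θ 3 = -14 ∧
    θ 0 * θ 1 * θ 2 * θ 3 = 10 := by
  have h0 := h.prod 0
  have h1 := h.prod 1
  have h2 := h.prod (-1)
  have h3 := h.prod 2
  simp only [Fin.prod_univ_four] at h0 h1 h2 h3
  refine ⟨?_, ?_, ?_, ?_⟩
  · linear_combination (1 / 2 : K) * h0 - (1 / 2 : K) * h1 - (1 / 6 : K) * h2 + (1 / 6 : K) * h3
  · linear_combination h0 - (1 / 2 : K) * h1 - (1 / 2 : K) * h2
  · linear_combination (-1 / 2 : K) * h0 + h1 - (1 / 3 : K) * h2 - (1 / 6 : K) * h3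
  · linear_combination -h0

lemma dvd_finrank (p : ℚ[X]) (hp : Irreducible p) (hm : p.Monic) (x : K) (hx : aeval x p = 0) :
    p.natDegree ∣ Module.finrank ℚ K := by
  rw [minpoly.eq_of_irreducible_of_monic hp hx hm]
  exact minpoly.degree_dvd (Algebra.IsIntegral.isIntegral x)

lemma twelve_dvd (h : Good K θ) : 12 ∣ Module.finrank ℚ K := by
  have h4 : 4 ∣ Module.finrank ℚ K := by
    rw [← fQ_natDegree]
    apply dvd_finrank fQ fQ_irred fQ_monic (θ 0)
    simpa [fQ, map_ofNat] using theta_root h 0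
  have h3 : 3 ∣ Module.finrank ℚ K := by
    rw [← gQ_natDegree]
    apply dvd_finrank gQ gQ_irred gQ_monic (θ 0 * θ 1 + θ 2 * θ 3)
    obtain ⟨e1, e2, e3, e4⟩ := vieta h
    simp only [gQ, map_sub, map_add, map_mul, map_pow, aeval_X, map_ofNat]
    set y := θ 0 * θ 1 + θ 2 * θ 3 with hy
    set E1 := θ 0 + θ 1 + θ 2 + θ 3 with hE1
    set E2 := θ 0 * θ 1 + θ 0 * θ 2 + θ 0 * θ 3 + θ 1 * θ 2 + θ 1 * θ 3 + θ 2 * θ 3 with hE2
    set E3 := θ 0 * θ 1 * θ 2 + θ 0 * θ 1 * θ 3 + θ 0 * θ 2 * θ 3 + θ 1 * θ 2 * θ 3 with hE3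
    set E4 := θ 0 * θ 1 * θ 2 * θ 3 with hE4
    have key : y ^ 3 - E2 * y ^ 2 + (E1 * E3 - 4 * E4) * y
        - (E1 ^ 2 * E4 - 4 * E2 * E4 + E3 ^ 2) = 0 := by
      rw [hy, hE1, hE2, hE3, hE4]; ring
    rw [e1, e2, e3, e4] at key
    linear_combination key
  exact Nat.Coprime.mul_dvd_of_dvd_of_dvd (by norm_num : Nat.Coprime 4 3) h4 h3

lemma card_aut (h : Good K θ) : Nat.card (K ≃ₐ[ℚ] K) = Module.finrank ℚ K := by
  have := h.galois
  exact IsGalois.card_aut_eq_finrank ℚ K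

lemma alt_le (h : Good K θ) : alternatingGroup (Fin 4) ≤ (perm h).range := by
  apply Equiv.Perm.alternatingGroup_le_of_index_le_two
  have h1 : Nat.card (perm h).range = Module.finrank ℚ K := by
    rw [← card_aut h]
    exact (Nat.card_congr (MonoidHom.ofInjective (perm_inj h)).toEquiv).symm
  have h2 := Subgroup.card_mul_index (perm h).range
  have h3 : Nat.card (Equiv.Perm (Fin 4)) = 24 := by
    rw [Nat.card_perm]; simp; rfl
  obtain ⟨c, hc⟩ := twelve_dvd h
  have hpos : 0 < Module.finrank ℚ K := Module.finrank_pos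
  rw [h1, h3, hc] at h2
  have hc0 : 1 ≤ c := by omega
  nlinarith

lemma exists_aut (h : Good K θ) (π : Equiv.Perm (Fin 4)) (hπ : Equiv.Perm.sign π = 1) :
    ∃ g, perm h g = π :=
  alt_le h (Equiv.Perm.mem_alternatingGroup.2 hπ)

lemma trans (h : Good K θ) (i j : Fin 4) : ∃ g, perm h g i = j := by
  have : ∃ π : Equiv.Perm (Fin 4), Equiv.Perm.sign π = 1 ∧ π i = j := by
    revert i j; decide
  obtain ⟨π, h1, h2⟩ := this
  obtain ⟨g, rfl⟩ := exists_aut h π h1
  exact ⟨g, h2⟩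

def nn : Fin 5 → ℤ := ![4, 9, -6, 14, -16]
def qq : Fin 5 → ℤ := ![7, 1999, 1187, 10687, 37]
def fval (a : ℤ) : ℤ := a ^ 4 - 6 * a ^ 3 - 4 * a ^ 2 + 14 * a + 10
def dval (a : ℤ) : ℤ := 4 * a ^ 3 - 18 * a ^ 2 - 8 * a + 14

lemma qq_dvd : ∀ j, qq j ∣ fval (nn j) := by decide
lemma qq_cop : ∀ j k, k ≠ j → Int.gcd (qq j) (fval (nn k)) = 1 := by decide
lemma qq_cop' : ∀ j, Int.gcd (qq j) (dval (nn j)) = 1 := by decide
lemma qq_gt : ∀ j, 1 < qq j := by decide
lemma fval_ne : ∀ j, fval (nn j) ≠ 0 := by decide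
lemma fval_five : ∀ j, ¬ (5 : ℤ) ∣ fval (nn j) := by decide

lemma prod_eq (h : Good K θ) (a : ℤ) : ((fval a : ℤ) : K) = ∏ i, ((a : K) - θ i) := by
  rw [← h.prod]; simp [fval]

lemma ne_zero (h : Good K θ) (j : Fin 5) (i : Fin 4) : ((nn j : ℤ) : K) - θ i ≠ 0 := by
  intro h0
  have := prod_eq h (nn j)
  rw [Finset.prod_eq_zero (Finset.mem_univ i) h0] at this
  exact fval_ne j (by exact_mod_cast this)

lemma theta_int (h : Good K θ) (i : Fin 4) : IsIntegral ℤ (θ i) := by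
  refine ⟨fZ, fZ_monic, ?_⟩
  rw [← aeval_def]
  simpa [fZ, map_ofNat] using theta_root h i

lemma exists_val0 (h : Good K θ) (q : ℤ) (hq : 1 < q) :
    ∃ v : Valuation K (WithZero (Multiplicative ℤ)), v q < 1 ∧ (∀ m : ℤ, v m ≤ 1) ∧
      ∀ i, v (θ i) ≤ 1 := by
  have hne : Ideal.span {(q : 𝓞 K)} ≠ ⊤ := by
    rw [Ne, Ideal.span_singleton_eq_top]
    intro hu
    have h1 : IsUnit (algebraMap ℤ (𝓞 K) q) := by simpa using hu
    have h2 : IsUnit q := (isUnit_map_iff (algebraMap ℤ (𝓞 K)) q).1 h1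
    rcases Int.isUnit_iff.1 h2 with h3 | h3 <;> omega
  obtain ⟨P, hP, hle⟩ := Ideal.exists_le_maximal _ hne
  have hqP : (q : 𝓞 K) ∈ P := hle (Ideal.mem_span_singleton_self _)
  have hP0 : P ≠ ⊥ := by
    rintro rfl
    rw [Ideal.mem_bot] at hqP
    have : q = 0 := by exact_mod_cast hqP
    omega
  let w : IsDedekindDomain.HeightOneSpectrum (𝓞 K) := ⟨P, hP.isPrime, hP0⟩
  refine ⟨w.valuation K, ?_, ?_, ?_⟩
  · have := (w.valuation_lt_one_iff_mem (K := K) (q : 𝓞 K)).2 hqP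
    simpa using this
  · intro m
    have := w.valuation_le_one (K := K) (m : 𝓞 K)
    simpa using this
  · intro i
    exact w.valuation_le_one (K := K) ⟨θ i, theta_int h i⟩

lemma exists_val1 (h : Good K θ) (j : Fin 5) :
    ∃ (v : Valuation K (WithZero (Multiplicative ℤ))) (i0 : Fin 4),
      v ((nn j : K) - θ i0) < 1 ∧
      ∀ k i, (k, i) ≠ (j, i0) → v ((nn k : K) - θ i) = 1 := by
  obtain ⟨v, hq, hint, hθ⟩ := exists_val0 h (qq j) (qq_gt j)
  have hle : ∀ (a : ℤ) i, v ((a : K) - θ i) ≤ 1 := fun a i =>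
    le_trans (v.map_sub _ _) (max_le (hint a) (hθ i))
  have hcop : ∀ m : ℤ, Int.gcd (qq j) m = 1 → v m = 1 := by
    intro m hm
    obtain ⟨a, b, hab⟩ := Int.isCoprime_iff_gcd_eq_one.2 hm
    apply le_antisymm (hint m)
    by_contra hlt
    push Not at hlt
    have h1 : v ((a : K) * (qq j : K) + (b : K) * (m : K)) < 1 := by
      apply v.map_add_lt
      · rw [map_mul, mul_comm]; exact mul_lt_one_of_lt_of_le hq (hint a)
      · rw [map_mul, mul_comm]; exact mul_lt_one_of_lt_of_le hlt (hint b)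
    have h2 : (a : K) * (qq j : K) + (b : K) * (m : K) = 1 := by exact_mod_cast hab
    rw [h2, map_one] at h1
    exact lt_irrefl _ h1
  have hf : v (fval (nn j) : K) < 1 := by
    obtain ⟨c, hc⟩ := qq_dvd j
    rw [hc]; push_cast
    rw [map_mul]; exact mul_lt_one_of_lt_of_le hq (hint c)
  have hex : ∃ i0, v ((nn j : K) - θ i0) < 1 := by
    by_contra hne
    push Not at hne
    rw [prod_eq h, map_prod, Finset.prod_eq_one (fun i _ => le_antisymm (hle _ i) (hne i))] at hf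
    exact lt_irrefl _ hf
  obtain ⟨i0, hi0⟩ := hex
  refine ⟨v, i0, hi0, ?_⟩
  intro k i hki
  apply le_antisymm (hle _ _)
  by_contra hlt
  push Not at hlt
  by_cases hk : k = j
  · subst hk
    have hi : i ≠ i0 := by rintro rfl; exact hki rfl
    have hd := hcop _ (qq_cop' k)
    obtain ⟨e1, e2, e3, -⟩ := vieta h
    have hsum : ((dval (nn k) : ℤ) : K) = ∑ l, ∏ m ∈ Finset.univ.erase l, ((nn k : K) - θ m) := by
      have e0 : (Finset.univ.erase (0 : Fin 4)) = {1, 2, 3} := by decide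
      have e1' : (Finset.univ.erase (1 : Fin 4)) = {0, 2, 3} := by decide
      have e2' : (Finset.univ.erase (2 : Fin 4)) = {0, 1, 3} := by decide
      have e3' : (Finset.univ.erase (3 : Fin 4)) = {0, 1, 2} := by decide
      rw [Fin.sum_univ_four, e0, e1', e2', e3']
      simp only [dval]
      push_cast
      rw [Finset.prod_insert (by decide), Finset.prod_pair (by decide),
        Finset.prod_insert (by decide), Finset.prod_pair (by decide),
        Finset.prod_insert (by decide), Finset.prod_pair (by decide),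
        Finset.prod_insert (by decide), Finset.prod_pair (by decide)]
      linear_combination (3 * (nn k : K) ^ 2) * e1 - (2 * (nn k : K)) * e2 + e3
    have hlt' : v (∑ l, ∏ m ∈ Finset.univ.erase l, ((nn k : K) - θ m)) < 1 := by
      apply v.map_sum_lt one_ne_zero
      intro l _
      obtain ⟨m, hm, hm1⟩ : ∃ m ∈ Finset.univ.erase l, v ((nn k : K) - θ m) < 1 := by
        by_cases hl : l = i
        · exact ⟨i0, by simp [hl, hi.symm], hi0⟩
        · exact ⟨i, by simp [Ne.symm hl], hlt⟩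
      rw [← Finset.mul_prod_erase _ _ hm, map_mul, map_prod]
      exact mul_lt_one_of_lt_of_le hm1 (Finset.prod_le_one' fun m _ => hle _ m)
    rw [← hsum, hd] at hlt'
    exact lt_irrefl _ hlt'
  · have hd := hcop _ (qq_cop j k hk)
    rw [prod_eq h, ← Finset.mul_prod_erase _ _ (Finset.mem_univ i), map_mul, map_prod] at hd
    have := mul_lt_one_of_lt_of_le hlt (Finset.prod_le_one' (s := Finset.univ.erase i)
      fun m _ => hle (nn k) m)
    rw [hd] at this
    exact lt_irrefl _ this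

lemma exists_val (h : Good K θ) (j : Fin 5) (i0 : Fin 4) :
    ∃ (v : Valuation K (WithZero (Multiplicative ℤ))),
      v ((nn j : K) - θ i0) < 1 ∧
      ∀ k i, (k, i) ≠ (j, i0) → v ((nn k : K) - θ i) = 1 := by
  obtain ⟨v, i1, h1, h2⟩ := exists_val1 h j
  obtain ⟨g, hg⟩ := trans h i0 i1
  refine ⟨v.comap (g : K →+* K), ?_, ?_⟩
  · simpa [perm_spec h, hg] using h1
  · intro k i hki
    have := h2 k (perm h g i) (by
      intro he
      apply hki
      simp only [Prod.mk.injEq] at he ⊢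
      exact ⟨he.1, (perm h g).injective (he.2.trans hg.symm)⟩)
    simpa [perm_spec h] using this

theorem indep (h : Good K θ) (m : Fin 5 → Fin 4 → ℤ)
    (hm : ∏ j, ∏ i, ((nn j : K) - θ i) ^ m j i = 1) : m = 0 := by
  ext j i
  obtain ⟨v, h1, h2⟩ := exists_val h j i
  have h3 := congrArg v hm
  rw [map_one, ← Finset.prod_product', map_prod,
    Finset.prod_eq_single (j, i) (fun b _ hb => by rw [map_zpow₀, h2 b.1 b.2 hb, one_zpow])
      (by simp), map_zpow₀] at h3
  have h4 : v ((nn j : K) - θ i) ≠ 0 := by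
    rw [Valuation.ne_zero_iff]; exact ne_zero h j i
  exact (zpow_eq_one_iff_right₀ zero_le h1.ne).1 h3

end Pool.Agent.H63.TorusGal
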