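import Mathlib

namespace Pool.Agent.H63.TorusLin

open Module

lemma li_cast (F : Type*) [Field F] [CharZero F] {ι κ : Type*} [Fintype ι] [DecidableEq ι]
    (v : κ → ι → ℤ) (hv : LinearIndependent ℤ v) :
    LinearIndependent F (fun k i => (v k i : F)) := by
  have h1 := Module.Flat.linearIndependent_one_tmul (S := F) hv
  have h2 := h1.map' (TensorProduct.piScalarRight ℤ F F ι).toLinearMap (LinearEquiv.ker _)
  have h3 : (fun k i => (v k i : F)) = ⇑(TensorProduct.piScalarRight ℤ F F ι).toLinearMap ∘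
      fun x => (1 : F) ⊗ₜ[ℤ] v x := by
    ext k i
    simp
  rw [h3]
  exact h2

lemma finrank_int_le (F : Type*) [Field F] [CharZero F] {ι : Type*} [Fintype ι] [DecidableEq ι]
    (T : Submodule ℤ (ι → ℤ)) (U : Submodule F (ι → F))
    (h : ∀ t ∈ T, (fun i => (t i : F)) ∈ U) : finrank ℤ T ≤ finrank F U := by
  let b := Module.finBasis ℤ T
  have h1 : LinearIndependent ℤ (fun k => (b k : ι → ℤ)) :=
    b.linearIndependent.map' T.subtype (Submodule.ker_subtype T)
  have h2 := li_cast F _ h1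
  have h3 : LinearIndependent F (fun k => (⟨fun i => ((b k : ι → ℤ) i : F), h _ (b k).2⟩ : U)) :=
    LinearIndependent.of_comp U.subtype h2
  simpa using h3.fintype_card_le_finrank

def emb (R : Type*) [CommRing R] : (Fin 9 → R) →ₗ[R] (Fin 5 → Fin 4 → R) where
  toFun t := ![![0, t 0, t 1, -t 0 - t 1], ![-t 0, 0, t 2, t 0 - t 2], ![-t 1, -t 2, 0, t 1 + t 2],
    ![t 3, t 4, t 5, -t 3 - t 4 - t 5], ![t 6, t 7, t 8, -t 6 - t 7 - t 8]]
  map_add' s t := by
    ext j i; fin_cases j <;> fin_cases i <;> simp <;> ring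
  map_smul' c t := by
    ext j i; fin_cases j <;> fin_cases i <;> simp <;> ring

lemma emb_apply (R : Type*) [CommRing R] (t : Fin 9 → R) : emb R t =
    ![![0, t 0, t 1, -t 0 - t 1], ![-t 0, 0, t 2, t 0 - t 2], ![-t 1, -t 2, 0, t 1 + t 2],
    ![t 3, t 4, t 5, -t 3 - t 4 - t 5], ![t 6, t 7, t 8, -t 6 - t 7 - t 8]] := rfl

lemma emb_cast (F : Type*) [CommRing F] (t : Fin 9 → ℤ) (j : Fin 5) (i : Fin 4) :
    emb F (fun l => (t l : F)) j i = ((emb ℤ t j i : ℤ) : F) := by
  fin_cases j <;> fin_cases i <;> simp [emb_apply]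

lemma emb_sum (F : Type*) [CommRing F] (t : Fin 9 → F) (j : Fin 5) : ∑ i, emb F t j i = 0 := by
  fin_cases j <;> simp [emb_apply, Fin.sum_univ_four] <;> ring

lemma emb_inj (R : Type*) [CommRing R] (t : Fin 9 → R) (h : emb R t = 0) : t = 0 := by
  have h0 := congrFun (congrFun h 0) 1
  have h1 := congrFun (congrFun h 0) 2
  have h2 := congrFun (congrFun h 1) 2
  have h3 := congrFun (congrFun h 3) 0
  have h4 := congrFun (congrFun h 3) 1
  have h5 := congrFun (congrFun h 3) 2
  have h6 := congrFun (congrFun h 4) 0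
  have h7 := congrFun (congrFun h 4) 1
  have h8 := congrFun (congrFun h 4) 2
  simp [emb_apply] at h0 h1 h2 h3 h4 h5 h6 h7 h8
  ext l
  fin_cases l <;> simpa

variable {F : Type*} [Field F]

def TF (Y : Submodule F (Fin 4 → F)) : Submodule F (Fin 9 → F) :=
  (Submodule.pi Set.univ fun _ => Y).comap (emb F)

lemma mem_TF (Y : Submodule F (Fin 4 → F)) (t : Fin 9 → F) : t ∈ TF Y ↔ ∀ j, emb F t j ∈ Y := by
  simp [TF, Submodule.mem_pi]

lemma le_three (Y : Submodule F (Fin 4 → F)) (φ : (Fin 9 → F) →ₗ[F] (Fin 4 → F))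
    (h1 : ∀ t ∈ TF Y, φ t ∈ Y)
    (h2 : ∀ t ∈ TF Y, φ t = 0 → emb F t 3 = 0 → emb F t 4 = 0 → t = 0) :
    finrank F (TF Y) ≤ 3 * finrank F Y := by
  let ρ : Fin 3 → (Fin 9 → F) →ₗ[F] (Fin 4 → F) :=
    ![φ, (LinearMap.proj 3).comp (emb F), (LinearMap.proj 4).comp (emb F)]
  have hρ : ∀ k, ∀ t : TF Y, ((ρ k).comp (TF Y).subtype) t ∈ Y := by
    intro k t
    fin_cases k
    · exact h1 _ t.2
    · exact (mem_TF Y t).1 t.2 3
    · exact (mem_TF Y t).1 t.2 4
  let Φ : TF Y →ₗ[F] (Fin 3 → Y) :=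
    LinearMap.pi fun k => ((ρ k).comp (TF Y).subtype).codRestrict Y (hρ k)
  have hinj : Function.Injective Φ := by
    rw [injective_iff_map_eq_zero]
    intro t ht
    apply Subtype.ext
    exact h2 t t.2 (congrArg Subtype.val (congrFun ht 0)) (congrArg Subtype.val (congrFun ht 1))
      (congrArg Subtype.val (congrFun ht 2))
  have := LinearMap.finrank_le_finrank_of_injective hinj
  simpa [Module.finrank_pi_fintype] using this

lemma finrank_TF (Y : Submodule F (Fin 4 → F)) : finrank F (TF Y) ≤ 3 * finrank F Y := by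
  by_cases hc : ∀ a b c : F, ![a, b, c, 0, 0, 0, 0, 0, 0] ∈ TF Y
  · let φ : (Fin 9 → F) →ₗ[F] (Fin 4 → F) :=
      { toFun := fun t => ![t 0, t 1, t 2, -t 0 - t 1 - t 2]
        map_add' := by intro s t; ext i; fin_cases i <;> simp; ring
        map_smul' := by intro c t; ext i; fin_cases i <;> simp; ring }
    apply le_three Y φ
    · intro t _
      have a1 := (mem_TF Y _).1 (hc (t 1) (t 2) 0) 0
      have a2 := (mem_TF Y _).1 (hc (-t 0) 0 0) 1
      convert Y.add_mem a1 a2 using 1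
      ext i; fin_cases i <;> simp [φ, emb_apply]; ring
    · intro t _ h0 h3 h4
      have b0 := congrFun h0 0
      have b1 := congrFun h0 1
      have b2 := congrFun h0 2
      have b3 := congrFun h3 0
      have b4 := congrFun h3 1
      have b5 := congrFun h3 2
      have b6 := congrFun h4 0
      have b7 := congrFun h4 1
      have b8 := congrFun h4 2
      simp [φ, emb_apply] at b0 b1 b2 b3 b4 b5 b6 b7 b8
      ext l
      fin_cases l <;> simpa
  · push Not at hc
    obtain ⟨a, b, c, habc⟩ := hc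
    let φ : (Fin 9 → F) →ₗ[F] (Fin 4 → F) :=
      c • (LinearMap.proj 0).comp (emb F) + (-b) • (LinearMap.proj 1).comp (emb F)
        + a • (LinearMap.proj 2).comp (emb F)
    have hφ : ∀ t, φ t = c • emb F t 0 + (-b) • emb F t 1 + a • emb F t 2 := fun t => rfl
    apply le_three Y φ
    · intro t ht
      rw [mem_TF] at ht
      rw [hφ]
      exact Y.add_mem (Y.add_mem (Y.smul_mem _ (ht 0)) (Y.smul_mem _ (ht 1))) (Y.smul_mem _ (ht 2))
    · intro t ht h0 h3 h4
      rw [hφ] at h0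
      have b0 := congrFun h0 0
      have b1 := congrFun h0 1
      have b2 := congrFun h0 2
      have b3 := congrFun h3 0
      have b4 := congrFun h3 1
      have b5 := congrFun h3 2
      have b6 := congrFun h4 0
      have b7 := congrFun h4 1
      have b8 := congrFun h4 2
      simp [emb_apply] at b0 b1 b2 b3 b4 b5 b6 b7 b8
      have key : ∀ r : F, a = r * t 0 → b = r * t 1 → c = r * t 2 → False := by
        intro r ha hb hc
        apply habc
        convert (TF Y).smul_mem r ht using 1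
        ext l
        fin_cases l <;> simp [*]
      have t0 : t 0 = 0 := by
        by_contra hne
        apply key (a / t 0)
        · field_simp
        · field_simp; linear_combination b0
        · field_simp; linear_combination b1
      have t1 : t 1 = 0 := by
        by_contra hne
        apply key (b / t 1)
        · field_simp; linear_combination -b0
        · field_simp
        · field_simp; linear_combination b2
      have t2 : t 2 = 0 := by
        by_contra hne
        apply key (c / t 2)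
        · field_simp; linear_combination -b1
        · field_simp; linear_combination -b2
        · field_simp
      ext l
      fin_cases l <;> simpa

variable {G : Type*} [Fintype G] (π : G → Equiv.Perm (Fin 4))

def YY (F : Type*) [Field F] (Λ : Set (G → ℤ)) : Submodule F (Fin 4 → F) where
  carrier := {v | ∑ i, v i = 0 ∧ ∀ l ∈ Λ, ∀ k, ∑ g, (l g : F) * v ((π g)⁻¹ k) = 0}
  add_mem' := by
    rintro a b ⟨ha, ha'⟩ ⟨hb, hb'⟩
    refine ⟨by simp [Finset.sum_add_distrib, ha, hb], fun l hl k => ?_⟩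
    simp only [Pi.add_apply, mul_add, Finset.sum_add_distrib, ha' l hl k, hb' l hl k, add_zero]
  zero_mem' := by simp
  smul_mem' := by
    rintro c a ⟨ha, ha'⟩
    refine ⟨by simp [← Finset.mul_sum, ha], fun l hl k => ?_⟩
    have := ha' l hl k
    simp only [Pi.smul_apply, smul_eq_mul]
    simp_rw [mul_left_comm _ c]
    rw [← Finset.mul_sum, this, mul_zero]

def WW (F : Type*) [Field F] (Λ : Set (G → ℤ)) : Submodule F (G → F) where
  carrier := {c | ∀ l ∈ Λ, ∑ g, (l g : F) * c g = 0}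
  add_mem' := by
    intro a b ha hb l hl
    simp [mul_add, Finset.sum_add_distrib, ha l hl, hb l hl]
  zero_mem' := by simp
  smul_mem' := by
    intro c a ha l hl
    have := ha l hl
    simp only [Pi.smul_apply, smul_eq_mul]
    simp_rw [mul_left_comm _ c]
    rw [← Finset.mul_sum, this, mul_zero]

def TT (Λ : Set (G → ℤ)) : Submodule ℤ (Fin 9 → ℤ) where
  carrier := {t | ∀ l ∈ Λ, ∀ j k, ∑ g, l g * emb ℤ t j ((π g)⁻¹ k) = 0}
  add_mem' := by
    intro a b ha hb l hl j k
    simp only [map_add, Pi.add_apply, mul_add, Finset.sum_add_distrib, ha l hl j k, hb l hl j k,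
      add_zero]
  zero_mem' := by simp
  smul_mem' := by
    intro c a ha l hl j k
    have := ha l hl j k
    simp only [map_smul, Pi.smul_apply, smul_eq_mul]
    simp_rw [mul_left_comm _ c]
    rw [← Finset.mul_sum, this, mul_zero]

lemma three_le [CharZero F] (hπ : ∀ σ : Equiv.Perm (Fin 4), Equiv.Perm.sign σ = 1 → ∃ g, π g = σ)
    (Λ : Set (G → ℤ)) : 3 * finrank F (YY π F Λ) ≤ finrank F (WW F Λ) := by
  let Φ0 : (Fin 3 → YY π F Λ) →ₗ[F] (G → F) :=
    { toFun := fun v g => ∑ k : Fin 3, (v k : Fin 4 → F) ((π g)⁻¹ k.castSucc)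
      map_add' := by intro a b; ext g; simp [Finset.sum_add_distrib]
      map_smul' := by intro c a; ext g; simp [Finset.mul_sum] }
  have hΦ0 : ∀ v g, Φ0 v g = ∑ k : Fin 3, (v k : Fin 4 → F) ((π g)⁻¹ k.castSucc) := fun _ _ => rfl
  have hmem : ∀ v, Φ0 v ∈ WW F Λ := by
    intro v l hl
    simp_rw [hΦ0, Finset.mul_sum]
    rw [Finset.sum_comm]
    exact Finset.sum_eq_zero fun k _ => (v k).2.2 l hl _
  have hinj : Function.Injective (Φ0.codRestrict _ hmem) := by
    rw [injective_iff_map_eq_zero]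
    intro v hv
    have hv' : Φ0 v = 0 := congrArg Subtype.val hv
    have key : ∀ a b c : Fin 4, a ≠ b → a ≠ c → b ≠ c →
        (∃ σ : Equiv.Perm (Fin 4), Equiv.Perm.sign σ = 1 ∧ σ⁻¹ 0 = a ∧ σ⁻¹ 1 = b ∧ σ⁻¹ 2 = c) →
        (v 0 : Fin 4 → F) a + (v 1 : Fin 4 → F) b + (v 2 : Fin 4 → F) c = 0 := by
      rintro a b c - - - ⟨σ, h1, rfl, rfl, rfl⟩
      obtain ⟨g, rfl⟩ := hπ σ h1
      have := congrFun hv' g
      rw [hΦ0, Fin.sum_univ_three] at this
      exact this
    have s0 := (v 0).2.1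
    have s1 := (v 1).2.1
    have s2 := (v 2).2.1
    rw [Fin.sum_univ_four] at s0 s1 s2
    have k1 := key 0 1 2 (by decide) (by decide) (by decide) (by decide)
    have k2 := key 0 2 3 (by decide) (by decide) (by decide) (by decide)
    have k3 := key 0 3 1 (by decide) (by decide) (by decide) (by decide)
    have k4 := key 1 0 3 (by decide) (by decide) (by decide) (by decide)
    have k5 := key 1 2 0 (by decide) (by decide) (by decide) (by decide)
    have k6 := key 1 3 2 (by decide) (by decide) (by decide) (by decide)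
    have k7 := key 2 0 1 (by decide) (by decide) (by decide) (by decide)
    have k8 := key 2 1 3 (by decide) (by decide) (by decide) (by decide)
    have k9 := key 2 3 0 (by decide) (by decide) (by decide) (by decide)
    have k10 := key 3 0 2 (by decide) (by decide) (by decide) (by decide)
    have k11 := key 3 1 0 (by decide) (by decide) (by decide) (by decide)
    have k12 := key 3 2 1 (by decide) (by decide) (by decide) (by decide)
    have z00 : (v 0 : Fin 4 → F) 0 = 0 := by
      linear_combination (-1 / 4 : F) * s1 + (-1 / 4 : F) * s2 + (1 / 2 : F) * k1 + (1 / 4 : F) * k2 + (1 / 4 : F) * k3 + (1 / 4 : F) * k4 + (-1 / 4 : F) * k6 + (-1 / 4 : F) * k8 + (1 / 4 : F) * k9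
    have z01 : (v 0 : Fin 4 → F) 1 = 0 := by
      linear_combination (-1 / 4 : F) * s1 + (-1 / 4 : F) * s2 + (-1 / 4 : F) * k2 + (1 / 4 : F) * k3 + (1 / 4 : F) * k4 + (1 / 2 : F) * k5 + (1 / 4 : F) * k6 + (1 / 4 : F) * k8 + (-1 / 4 : F) * k9
    have z02 : (v 0 : Fin 4 → F) 2 = 0 := by
      linear_combination (-1 / 4 : F) * s1 + (-1 / 4 : F) * s2 + (1 / 4 : F) * k2 + (-1 / 4 : F) * k3 + (-1 / 4 : F) * k4 + (1 / 4 : F) * k6 + (1 / 2 : F) * k7 + (1 / 4 : F) * k8 + (1 / 4 : F) * k9
    have z03 : (v 0 : Fin 4 → F) 3 = 0 := by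
      linear_combination (1 / 1 : F) * s0 + (3 / 4 : F) * s1 + (3 / 4 : F) * s2 + (-1 / 2 : F) * k1 + (-1 / 4 : F) * k2 + (-1 / 4 : F) * k3 + (-1 / 4 : F) * k4 + (-1 / 2 : F) * k5 + (-1 / 4 : F) * k6 + (-1 / 2 : F) * k7 + (-1 / 4 : F) * k8 + (-1 / 4 : F) * k9
    have z10 : (v 1 : Fin 4 → F) 0 = 0 := by
      linear_combination (1 / 4 : F) * s1 + (1 / 4 : F) * k1 + (-1 / 4 : F) * k3 + (1 / 2 : F) * k4 + (-1 / 4 : F) * k5 + (-1 / 4 : F) * k6 + (1 / 4 : F) * k7 + (-1 / 2 : F) * k8 + (1 / 4 : F) * k9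
    have z11 : (v 1 : Fin 4 → F) 1 = 0 := by
      linear_combination (1 / 4 : F) * s1 + (1 / 4 : F) * k1 + (-1 / 2 : F) * k2 + (1 / 4 : F) * k3 + (1 / 4 : F) * k5 + (-1 / 4 : F) * k6 + (-1 / 4 : F) * k7 + (1 / 2 : F) * k8 + (-1 / 4 : F) * k9
    have z12 : (v 1 : Fin 4 → F) 2 = 0 := by
      linear_combination (1 / 4 : F) * s1 + (-1 / 4 : F) * k1 + (1 / 2 : F) * k2 + (-1 / 4 : F) * k3 + (-1 / 2 : F) * k4 + (1 / 4 : F) * k5 + (1 / 4 : F) * k6 + (1 / 4 : F) * k7 + (-1 / 4 : F) * k9
    have z13 : (v 1 : Fin 4 → F) 3 = 0 := by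
      linear_combination (1 / 4 : F) * s1 + (-1 / 4 : F) * k1 + (1 / 4 : F) * k3 + (-1 / 4 : F) * k5 + (1 / 4 : F) * k6 + (-1 / 4 : F) * k7 + (1 / 4 : F) * k9
    have z20 : (v 2 : Fin 4 → F) 0 = 0 := by
      linear_combination (1 / 4 : F) * s2 + (1 / 4 : F) * k1 + (-1 / 4 : F) * k2 + (1 / 4 : F) * k4 + (1 / 4 : F) * k5 + (-1 / 2 : F) * k6 + (-1 / 4 : F) * k7 + (-1 / 4 : F) * k8 + (1 / 2 : F) * k9
    have z21 : (v 2 : Fin 4 → F) 1 = 0 := by
      linear_combination (1 / 4 : F) * s2 + (-1 / 4 : F) * k1 + (-1 / 4 : F) * k2 + (1 / 2 : F) * k3 + (-1 / 4 : F) * k4 + (1 / 4 : F) * k5 + (1 / 4 : F) * k7 + (1 / 4 : F) * k8 + (-1 / 2 : F) * k9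
    have z22 : (v 2 : Fin 4 → F) 2 = 0 := by
      linear_combination (1 / 4 : F) * s2 + (1 / 4 : F) * k1 + (1 / 4 : F) * k2 + (-1 / 2 : F) * k3 + (-1 / 4 : F) * k4 + (-1 / 4 : F) * k5 + (1 / 2 : F) * k6 + (1 / 4 : F) * k7 + (-1 / 4 : F) * k8
    have z23 : (v 2 : Fin 4 → F) 3 = 0 := by
      linear_combination (1 / 4 : F) * s2 + (-1 / 4 : F) * k1 + (1 / 4 : F) * k2 + (1 / 4 : F) * k4 + (-1 / 4 : F) * k5 + (-1 / 4 : F) * k7 + (1 / 4 : F) * k8
    funext k
    apply Subtype.ext
    funext i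
    fin_cases k <;> fin_cases i
    exacts [z00, z01, z02, z03, z10, z11, z12, z13, z20, z21, z22, z23]
  have := LinearMap.finrank_le_finrank_of_injective hinj
  simpa [Module.finrank_pi_fintype] using this

theorem lemA [CharZero F] (hπ : ∀ σ : Equiv.Perm (Fin 4), Equiv.Perm.sign σ = 1 → ∃ g, π g = σ)
    (Λ : Set (G → ℤ)) : finrank ℤ (TT π Λ) ≤ finrank F (WW F Λ) := by
  refine le_trans (finrank_int_le F _ (TF (YY π F Λ)) ?_)
    (le_trans (finrank_TF _) (three_le π hπ Λ))
  intro t ht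
  rw [mem_TF]
  intro j
  refine ⟨emb_sum F _ j, fun l hl k => ?_⟩
  simp_rw [emb_cast]
  exact_mod_cast ht l hl j k

def logMap (ℓ : Fin 5 → Fin 4 → F) : (Fin 9 → F) →ₗ[F] (G → F) where
  toFun t g := ∑ j, ∑ i, emb F t j i * ℓ j (π g i)
  map_add' s t := by ext g; simp [add_mul, Finset.sum_add_distrib]
  map_smul' c t := by ext g; simp [Finset.mul_sum, mul_assoc]

lemma logMap_apply (ℓ : Fin 5 → Fin 4 → F) (t : Fin 9 → F) (g : G) :
    logMap π ℓ t g = ∑ j, ∑ i, emb F t j i * ℓ j (π g i) := rfl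

theorem lemB (ℓ : Fin 5 → Fin 4 → F) : finrank F (LinearMap.range (logMap π ℓ)) ≤ 8 := by
  let d : Fin 5 → Fin 3 → F := fun j k => ℓ j k.castSucc - ℓ j 3
  let M : (Fin 9 → F) →ₗ[F] (Fin 3 × Fin 3 → F) :=
    { toFun := fun t p => ∑ j, emb F t j p.1.castSucc * d j p.2
      map_add' := by intro s t; ext g; simp [add_mul, Finset.sum_add_distrib]
      map_smul' := by intro c t; ext g; simp [Finset.mul_sum, mul_assoc] }
  have hM : ∀ t p, M t p = ∑ j, emb F t j p.1.castSucc * d j p.2 := fun _ _ => rfl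
  have hker : LinearMap.ker M ≤ LinearMap.ker (logMap π ℓ) := by
    intro t ht
    rw [LinearMap.mem_ker] at ht ⊢
    have h1 : ∀ i k : Fin 4, ∑ j, emb F t j i * (ℓ j k - ℓ j 3) = 0 := by
      have h2 : ∀ (i : Fin 3) (k : Fin 4), ∑ j, emb F t j i.castSucc * (ℓ j k - ℓ j 3) = 0 := by
        intro i k
        refine Fin.lastCases ?_ (fun k' => ?_) k
        · simp [Fin.last]
        · exact congrFun ht (i, k')
      intro i k
      refine Fin.lastCases ?_ (fun i' => h2 i' k) i
      have h3 : ∀ j, emb F t j (Fin.last 3) = -∑ i : Fin 3, emb F t j i.castSucc := by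
        intro j
        have := emb_sum F t j
        rw [Fin.sum_univ_castSucc] at this
        linear_combination this
      simp_rw [h3, neg_mul, Finset.sum_mul, Finset.sum_neg_distrib]
      rw [Finset.sum_comm, Finset.sum_eq_zero fun i _ => h2 i k, neg_zero]
    ext g
    rw [logMap_apply]
    have h4 : ∀ j, ∑ i, emb F t j i * ℓ j (π g i)
        = ∑ i, emb F t j i * (ℓ j (π g i) - ℓ j 3) := by
      intro j
      simp_rw [mul_sub]
      rw [Finset.sum_sub_distrib, ← Finset.sum_mul, emb_sum]; simp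
    simp_rw [h4]
    rw [Finset.sum_comm, Finset.sum_eq_zero fun i _ => h1 i _]
    rfl
  have hns : ¬ Function.Surjective M := by
    intro hs
    let N : (Fin 3 → F) →ₗ[F] (Fin 2 → F) :=
      { toFun := fun c r => ∑ k, d (Fin.natAdd 3 r) k * c k
        map_add' := by intro s t; ext g; simp [mul_add, Finset.sum_add_distrib]
        map_smul' := by intro c t; ext g; simp [Finset.mul_sum, mul_left_comm] }
    have hN : LinearMap.ker N ≠ ⊥ := LinearMap.ker_ne_bot_of_finrank_lt (by simp)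
    obtain ⟨c, hc, hc0⟩ := (Submodule.ne_bot_iff _).1 hN
    rw [LinearMap.mem_ker] at hc
    have c3 : ∑ k, d 3 k * c k = 0 := congrFun hc 0
    have c4 : ∑ k, d 4 k * c k = 0 := congrFun hc 1
    obtain ⟨k0, hk0⟩ := Function.ne_iff.1 hc0
    let w : Fin 5 → F := fun j => ∑ k, d j k * c k
    have hw : ∀ t i, ∑ k, M t (i, k) * c k = ∑ j, emb F t j i.castSucc * w j := by
      intro t i
      simp only [hM, w, Finset.sum_mul, Finset.mul_sum, mul_assoc]
      rw [Finset.sum_comm]
    have w3 : w 3 = 0 := c3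
    have w4 : w 4 = 0 := c4
    have hz : ∀ t, ∑ i : Fin 3, w (Fin.castAdd 2 i) * ∑ k, M t (i, k) * c k = 0 := by
      intro t
      simp only [hw, Fin.sum_univ_three, Fin.sum_univ_five, w3, w4]
      simp [emb_apply]
      ring
    have hw0 : ∀ i : Fin 3, w (Fin.castAdd 2 i) = 0 := by
      intro i
      obtain ⟨t, ht⟩ := hs (Pi.single (i, k0) 1)
      have := hz t
      rw [ht, Finset.sum_eq_single i, Finset.sum_eq_single k0] at this
      · simpa [show c k0 ≠ 0 from hk0] using this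
      · intro b _ hb; simp [Pi.single_apply, hb]
      · simp
      · intro b _ hb; simp [Pi.single_apply, hb]
      · simp
    have hw1 : w = 0 := by
      ext j
      fin_cases j
      · exact hw0 0
      · exact hw0 1
      · exact hw0 2
      · exact w3
      · exact w4
    obtain ⟨t, ht⟩ := hs (Pi.single (0, k0) 1)
    have := hw t 0
    rw [ht, hw1, Finset.sum_eq_single k0] at this
    · simp at this; exact hk0 this
    · intro b _ hb; simp [Pi.single_apply, hb]
    · simp
  have hni : LinearMap.ker M ≠ ⊥ := by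
    intro h
    exact hns ((LinearMap.injective_iff_surjective_of_finrank_eq_finrank (by simp)).1
      (LinearMap.ker_eq_bot.1 h))
  have h1 : LinearMap.ker (logMap π ℓ) ≠ ⊥ := fun h => hni (le_bot_iff.1 (h ▸ hker))
  have h2 := LinearMap.finrank_range_add_finrank_ker (logMap π ℓ)
  have h3 : finrank F (LinearMap.ker (logMap π ℓ)) ≠ 0 := by
    rwa [Ne, Submodule.finrank_eq_zero]
  simp at h2
  omega

end Pool.Agent.H63.TorusLin
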