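import Mathlib
import Pool.Agent.H63.TorusGal
import Pool.Agent.H63.TorusLin
import Pool.Agent.H63.TorusDefs

namespace Pool.Agent.H63.TorusCore

open Pool.Agent.H63.TorusField Pool.Agent.H63.TorusGal Pool.Agent.H63.TorusLin
  Pool.Agent.H63.TorusDefs
open scoped TensorProduct

variable {K : Type} [Field K] [NumberField K] {θ : Fin 4 → K}

noncomputable def aU (h : Good K θ) (j : Fin 5) (i : Fin 4) : Kˣ :=
  Units.mk0 (((nn j : ℤ) : K) - θ i) (ne_zero h j i) ^ 4

noncomputable def psi (h : Good K θ) : Multiplicative (Fin 9 → ℤ) →* Kˣ :=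
  MonoidHom.mk' (fun t => ∏ j, ∏ i, aU h j i ^ emb ℤ t.toAdd j i) (by
    intro s t
    simp [zpow_add, Finset.prod_mul_distrib])

lemma psi_val (h : Good K θ) (t : Fin 9 → ℤ) : ((psi h (Multiplicative.ofAdd t) : Kˣ) : K) =
    ∏ j, ∏ i, ((((nn j : ℤ) : K) - θ i) ^ 4) ^ emb ℤ t j i := by
  simp [psi, aU]

lemma aut_psi (h : Good K θ) (g : K ≃ₐ[ℚ] K) (t : Fin 9 → ℤ) :
    g ((psi h (Multiplicative.ofAdd t) : Kˣ) : K) =
    ∏ j, ∏ i, ((((nn j : ℤ) : K) - θ (perm h g i)) ^ 4) ^ emb ℤ t j i := by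
  simp [psi_val, perm_spec h]

lemma char_psi (h : Good K θ) (l : (K ≃ₐ[ℚ] K) → ℤ) (t : Fin 9 → ℤ) :
    ∏ g : K ≃ₐ[ℚ] K, g ((psi h (Multiplicative.ofAdd t) : Kˣ) : K) ^ l g =
    ∏ j, ∏ k, (((nn j : ℤ) : K) - θ k) ^ (4 * ∑ g, l g * emb ℤ t j ((perm h g)⁻¹ k)) := by
  have h1 : ∀ g : K ≃ₐ[ℚ] K, g ((psi h (Multiplicative.ofAdd t) : Kˣ) : K) ^ l g =
      ∏ j, ∏ k, (((nn j : ℤ) : K) - θ k) ^ (4 * (l g * emb ℤ t j ((perm h g)⁻¹ k))) := by
    intro g
    rw [aut_psi, ← Finset.prod_zpow]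
    refine Finset.prod_congr rfl fun j _ => ?_
    rw [← Finset.prod_zpow]
    refine Fintype.prod_equiv (perm h g) _ _ fun i => ?_
    rw [← zpow_natCast, ← zpow_mul, ← zpow_mul]
    congr 1
    simp; ring
  simp_rw [h1]
  rw [Finset.prod_comm]
  refine Finset.prod_congr rfl fun j _ => ?_
  rw [Finset.prod_comm]
  refine Finset.prod_congr rfl fun k _ => ?_
  rw [Finset.mul_sum]
  have hne := ne_zero h j k
  generalize (((nn j : ℤ) : K) - θ k) = a at hne
  induction (Finset.univ : Finset (K ≃ₐ[ℚ] K)) using Finset.cons_induction with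
  | empty => simp
  | cons g s hg ih => rw [Finset.prod_cons, Finset.sum_cons, zpow_add₀ hne, ih]

lemma mem_TT_of_char (h : Good K θ) (Λ : Set ((K ≃ₐ[ℚ] K) → ℤ)) (t : Fin 9 → ℤ)
    (ht : ∀ l ∈ Λ, ∏ g : K ≃ₐ[ℚ] K, g ((psi h (Multiplicative.ofAdd t) : Kˣ) : K) ^ l g = 1) :
    t ∈ TT (perm h) Λ := by
  intro l hl j k
  have h1 := ht l hl
  rw [char_psi] at h1
  have h2 := congrFun (congrFun (indep h _ h1) j) k
  simpa using h2

lemma psi_inj (h : Good K θ) : Function.Injective (psi h) := by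
  rw [injective_iff_map_eq_one]
  intro t ht
  have h1 := psi_val h t.toAdd
  rw [ofAdd_toAdd, ht] at h1
  simp_rw [← zpow_natCast, ← zpow_mul] at h1
  have h2 := indep h _ h1.symm
  have h3 : emb ℤ t.toAdd = 0 := by
    ext j i
    have := congrFun (congrFun h2 j) i
    simpa using this
  exact toAdd_eq_zero.1 (emb_inj ℤ _ h3)

lemma range_fg (h : Good K θ) : (psi h).range.FG := by
  rw [← Group.fg_iff_subgroup_fg]
  infer_instance

lemma rk_map (h : Good K θ) (T : Submodule ℤ (Fin 9 → ℤ)) (H : Subgroup Kˣ)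
    (hH : ∀ x ∈ H, ∃ t ∈ T, psi h (Multiplicative.ofAdd t) = x) :
    rk K H ≤ Module.finrank ℤ T := by
  choose f hf1 hf2 using hH
  let φ : Additive H →+ T :=
    { toFun := fun x => ⟨f _ x.toMul.2, hf1 _ _⟩
      map_zero' := by
        apply Subtype.ext
        apply Multiplicative.ofAdd.injective
        apply psi_inj h
        simp [hf2]
      map_add' := by
        intro x y
        apply Subtype.ext
        apply Multiplicative.ofAdd.injective
        apply psi_inj h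
        simp [hf2] }
  apply LinearMap.finrank_le_finrank_of_injective (f := φ.toIntLinearMap)
  intro x y hxy
  have : f _ x.toMul.2 = f _ y.toMul.2 := congrArg Subtype.val hxy
  apply Additive.toMul.injective
  apply Subtype.ext
  rw [← hf2 _ x.toMul.2, ← hf2 _ y.toMul.2, this]

lemma rk_range (h : Good K θ) : rk K (psi h).range = 9 := by
  have e : Multiplicative (Fin 9 → ℤ) ≃* (psi h).range := MonoidHom.ofInjective (psi_inj h)
  have e' : (Fin 9 → ℤ) ≃+ Additive (psi h).range := MulEquiv.toAdditiveRight e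
  unfold rk
  rw [← e'.toIntLinearEquiv.finrank_eq]
  simp

section iso

variable {F : Type} [Field F] [Algebra ℚ F] (σ : K →+* F)

noncomputable def Phi0 : F ⊗[ℚ] K →ₐ[F] ((K ≃ₐ[ℚ] K) → F) :=
  Algebra.TensorProduct.lift (Algebra.ofId F _)
    (AlgHom.pi fun g : K ≃ₐ[ℚ] K => σ.toRatAlgHom.comp (g : K →ₐ[ℚ] K))
    (fun _ _ => Commute.all _ _)

lemma Phi0_tmul (x : K) (g : K ≃ₐ[ℚ] K) : Phi0 σ ((1 : F) ⊗ₜ x) g = σ (g x) := by
  simp [Phi0]

lemma Phi0_bij (h : Good K θ) : Function.Bijective (Phi0 σ) := by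
  have hli : LinearIndependent F (fun (g : K ≃ₐ[ℚ] K) (x : K) => σ (g x)) := by
    have := (linearIndependent_monoidHom K F).comp
      (fun g : K ≃ₐ[ℚ] K => (σ : K →* F).comp (g : K →* K)) (by
        intro g g' hg
        ext x
        exact σ.injective (DFunLike.congr_fun hg x))
    exact this
  have hsp := span_flip_eq_top_iff_linearIndependent.2 hli
  have hsurj : Function.Surjective (Phi0 σ).toLinearMap := by
    rw [← LinearMap.range_eq_top, eq_top_iff, ← hsp, Submodule.span_le]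
    rintro _ ⟨x, rfl⟩
    exact ⟨(1 : F) ⊗ₜ x, funext fun g => Phi0_tmul σ x g⟩
  refine ⟨?_, hsurj⟩
  refine (LinearMap.injective_iff_surjective_of_finrank_eq_finrank ?_).2 hsurj
  rw [Module.finrank_baseChange, Module.finrank_pi, ← card_aut h, Nat.card_eq_fintype_card]

noncomputable def Phi (h : Good K θ) : F ⊗[ℚ] K ≃ₐ[F] ((K ≃ₐ[ℚ] K) → F) :=
  AlgEquiv.ofBijective (Phi0 σ) (Phi0_bij σ h)

variable [TopologicalSpace F] [IsTopologicalRing F]

lemma Phi_toPts (h : Good K θ) (x : Kˣ) (g : K ≃ₐ[ℚ] K) :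
    Phi σ h (toPts F K x : F ⊗[ℚ] K) g = σ (g x) := Phi0_tmul σ x g

lemma Phi_cont (h : Good K θ) : Continuous (Phi σ h) :=
  IsModuleTopology.continuous_of_linearMap (Phi σ h).toLinearMap

lemma Phi_symm_cont (h : Good K θ) : Continuous (Phi σ h).symm :=
  haveI := IsModuleTopology.toContinuousAdd F (F ⊗[ℚ] K)
  IsModuleTopology.continuous_of_linearMap (Phi σ h).symm.toLinearMap

lemma Phi_ne (h : Good K θ) (x : (F ⊗[ℚ] K)ˣ) (g : K ≃ₐ[ℚ] K) : Phi σ h x g ≠ 0 := by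
  intro h0
  have : Phi σ h (x * (x⁻¹ : (F ⊗[ℚ] K)ˣ)) g = 1 := by simp
  rw [map_mul, Pi.mul_apply, h0, zero_mul] at this
  exact zero_ne_one this

include σ in
lemma t2 [T2Space F] (h : Good K θ) : T2Space (F ⊗[ℚ] K) :=
  T2Space.of_injective_continuous (Phi σ h).injective (Phi_cont σ h)

end iso

end Pool.Agent.H63.TorusCore
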