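import Mathlib

namespace Pool.Agent.H63.TorusLine

open Filter Topology Module

variable {E : Type*} [NormedAddCommGroup E] [NormedSpace ℝ E] [FiniteDimensional ℝ E]

lemma exists_line (H : AddSubgroup E) (hH : IsClosed (H : Set E))
    (hacc : ∀ ε > 0, ∃ x ∈ H, x ≠ 0 ∧ ‖x‖ < ε) : ∃ u : E, u ≠ 0 ∧ ∀ t : ℝ, t • u ∈ H := by
  have h1 : ∀ n : ℕ, ∃ x ∈ H, x ≠ 0 ∧ ‖x‖ < 1 / ((n : ℝ) + 1) := fun n => hacc _ (by positivity)
  choose x hxH hx0 hxn using h1
  have hpos : ∀ n, 0 < ‖x n‖ := fun n => norm_pos_iff.2 (hx0 n)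
  have hsph : ∀ n, ‖x n‖⁻¹ • x n ∈ Metric.sphere (0 : E) 1 := by
    intro n
    simp [norm_smul, (hpos n).ne']
  obtain ⟨u, hu, φ, hφ, hlim⟩ := (isCompact_sphere (0 : E) 1).tendsto_subseq hsph
  refine ⟨u, ?_, fun t => ?_⟩
  · rintro rfl; simp at hu
  · have hn : Tendsto (fun n => ‖x (φ n)‖) atTop (𝓝 0) := by
      have : Tendsto (fun n => ‖x n‖) atTop (𝓝 0) :=
        squeeze_zero (fun n => norm_nonneg _) (fun n => (hxn n).le)
          tendsto_one_div_add_atTop_nhds_zero_nat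
      exact this.comp hφ.tendsto_atTop
    have hc : Tendsto (fun n => (⌊t / ‖x (φ n)‖⌋ : ℝ) * ‖x (φ n)‖) atTop (𝓝 t) := by
      have hlo : Tendsto (fun n => t - ‖x (φ n)‖) atTop (𝓝 t) := by
        simpa using tendsto_const_nhds.sub hn
      refine tendsto_of_tendsto_of_tendsto_of_le_of_le hlo tendsto_const_nhds ?_ ?_
      · intro n
        have h2 := Int.lt_floor_add_one (t / ‖x (φ n)‖)
        rw [div_lt_iff₀ (hpos _)] at h2
        simp only; linarith
      · intro n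
        have h2 := Int.floor_le (t / ‖x (φ n)‖)
        rw [le_div_iff₀ (hpos _)] at h2
        exact h2
    have hl := hc.smul hlim
    refine hH.mem_of_tendsto hl (Eventually.of_forall fun n => ?_)
    have : ((⌊t / ‖x (φ n)‖⌋ : ℝ) * ‖x (φ n)‖) • ((fun n => ‖x n‖⁻¹ • x n) ∘ φ) n
        = ⌊t / ‖x (φ n)‖⌋ • x (φ n) := by
      simp only [Function.comp, smul_smul]
      rw [mul_assoc, mul_inv_cancel₀ (hpos _).ne', mul_one, Int.cast_smul_eq_zsmul]
    rw [this]
    exact H.zsmul_mem (hxH _) _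

theorem rank_bound {ι : Type*} [Fintype ι] (H : AddSubgroup E) (hH : IsClosed (H : Set E))
    (S W : Submodule ℝ E) (hHS : ∀ x ∈ H, x ∈ S) (hWH : ∀ x ∈ W, x ∈ H)
    (hline : ∀ u : E, (∀ t : ℝ, t • u ∈ H) → u ∈ W)
    (Lg : (ι → ℤ) →ₗ[ℤ] E) (hL : ∀ t, Lg t ∈ H) :
    Fintype.card ι + finrank ℝ W ≤ finrank ℤ ((W.restrictScalars ℤ).comap Lg) + finrank ℝ S := by
  obtain ⟨W', hW'⟩ := W.exists_isCompl
  let p : E →ₗ[ℝ] E := W'.projection W hW'.symm
  have hker : LinearMap.ker p = W := Submodule.ker_projection _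
  have hpH : ∀ x ∈ H, p x ∈ H := by
    intro x hx
    have := H.sub_mem hx (hWH _ (Submodule.sub_projection_mem hW'.symm x))
    simpa using this
  let H' : AddSubgroup E := H ⊓ W'.toAddSubgroup
  have hH' : IsClosed (H' : Set E) := hH.inter W'.closed_of_finiteDimensional
  have hdisc : ∃ ε > 0, ∀ x ∈ H', ‖x‖ < ε → x = 0 := by
    by_contra hc
    push Not at hc
    obtain ⟨u, hu0, hu⟩ := exists_line H' hH' (fun ε hε => by
      obtain ⟨x, hx, h1, h2⟩ := hc ε hε
      exact ⟨x, hx, h2, h1⟩)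
    have h1 : u ∈ W := hline u fun t => (hu t).1
    have h2 : u ∈ W' := by simpa using (hu 1).2
    exact hu0 ((Submodule.disjoint_def.1 hW'.disjoint) u h1 h2)
  obtain ⟨ε, hε, hdisc⟩ := hdisc
  let q : (ι → ℤ) →ₗ[ℤ] E := (p.restrictScalars ℤ).comp Lg
  have hq : ∀ x ∈ LinearMap.range q, x ∈ H' := by
    rintro _ ⟨t, rfl⟩
    exact ⟨hpH _ (hL t), Submodule.projection_apply_mem _ _⟩
  have hd : DiscreteTopology (Submodule.span ℤ (LinearMap.range q : Set E)) := by
    rw [Submodule.span_eq]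
    refine discreteTopology_iff_isOpen_singleton_zero.mpr ⟨Metric.ball 0 ε, Metric.isOpen_ball, ?_⟩
    ext x
    simp only [Set.mem_preimage, mem_ball_zero_iff, Set.mem_singleton_iff]
    constructor
    · intro hx; exact Subtype.ext (hdisc _ (hq _ x.2) hx)
    · rintro rfl; simpa using hε
  have h1 := Real.finrank_eq_int_finrank_of_discrete hd
  rw [Set.finrank, Set.finrank, Submodule.span_eq] at h1
  have h2 : finrank ℝ (Submodule.span ℝ (LinearMap.range q : Set E))
      ≤ finrank ℝ (LinearMap.range (p.domRestrict S)) := by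
    apply Submodule.finrank_mono
    rw [Submodule.span_le]
    rintro _ ⟨t, rfl⟩
    exact ⟨⟨Lg t, hHS _ (hL t)⟩, rfl⟩
  have h3 := LinearMap.finrank_range_add_finrank_ker (p.domRestrict S)
  have h4 : finrank ℝ (LinearMap.ker (p.domRestrict S)) = finrank ℝ W := by
    rw [LinearMap.ker_domRestrict, hker]
    exact (Submodule.comapSubtypeEquivOfLe (fun x hx => hHS x (hWH x hx))).finrank_eq
  have h5 : finrank ℤ (LinearMap.range q) + finrank ℤ (LinearMap.ker q) = finrank ℤ (ι → ℤ) := by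
    rw [← q.quotKerEquivRange.finrank_eq]
    exact Submodule.finrank_quotient_add_finrank _
  have h6 : LinearMap.ker q = (W.restrictScalars ℤ).comap Lg := by
    ext t
    simp [q, ← hker]
  rw [h6, Module.finrank_pi] at h5
  omega

end Pool.Agent.H63.TorusLine
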