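import Mathlib
import Pool.Agent.H63.TorusCore
import Pool.Agent.H63.PadicLog

namespace Pool.Agent.H63.TorusPadic

open Pool.Agent.H63.TorusField Pool.Agent.H63.TorusGal Pool.Agent.H63.TorusLin
  Pool.Agent.H63.TorusDefs Pool.Agent.H63.TorusCore Pool.Agent.H63.PadicLog
open scoped TensorProduct

variable {K : Type} [Field K] [NumberField K] {θ : Fin 4 → K}

lemma hyp_ok (h : Good K θ) (Ω : Type) [Field Ω] [CharZero Ω] [IsAlgClosed Ω] (τ : K →+* Ω)
    (Λ : Submodule ℤ ((K →+* Ω) → ℤ)) :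
    rk K ((psi h).range ⊓ killedBy K Ω Λ) ≤ Module.finrank ℚ K - Module.finrank ℤ Λ := by
  classical
  have hbij : Function.Bijective (fun g : K ≃ₐ[ℚ] K => τ.comp (g : K →+* K)) := by
    rw [Fintype.bijective_iff_injective_and_card]
    refine ⟨fun g g' hg => ?_, ?_⟩
    · ext x
      exact τ.injective (DFunLike.congr_fun hg x)
    · rw [NumberField.Embeddings.card K Ω, ← card_aut h, Nat.card_eq_fintype_card]
  let e := Equiv.ofBijective _ hbij
  let Λ' : Submodule ℤ ((K ≃ₐ[ℚ] K) → ℤ) := Λ.map (LinearEquiv.funCongrLeft ℤ ℤ e).toLinearMap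
  have hfr : Module.finrank ℤ Λ' = Module.finrank ℤ Λ := LinearEquiv.finrank_map_eq _ _
  have h1 : rk K ((psi h).range ⊓ killedBy K Ω Λ)
      ≤ Module.finrank ℤ (TT (perm h) (Λ' : Set _)) := by
    apply rk_map h
    rintro _ ⟨⟨t, rfl⟩, hx⟩
    refine ⟨t.toAdd, ?_, by simp⟩
    apply mem_TT_of_char h
    rintro _ ⟨l, hl, rfl⟩
    apply τ.injective
    have h2 := hx l hl
    rw [← Equiv.prod_comp e] at h2
    rw [map_prod, map_one, ← h2]
    refine Finset.prod_congr rfl fun g _ => ?_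
    rw [map_zpow₀]
    rfl
  have h2 := lemA (F := ℚ) (perm h) (exists_aut h) (Λ' : Set _)
  set W := WW ℚ (Λ' : Set ((K ≃ₐ[ℚ] K) → ℤ)) with hW
  let U : Submodule ℚ ((K ≃ₐ[ℚ] K) → ℚ) :=
    { carrier := {v | ∀ c ∈ W, ∑ g, v g * c g = 0}
      add_mem' := by
        intro a b ha hb c hc
        simp [add_mul, Finset.sum_add_distrib, ha c hc, hb c hc]
      zero_mem' := by simp
      smul_mem' := by
        intro r a ha c hc
        simp only [Pi.smul_apply, smul_eq_mul, mul_assoc]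
        rw [← Finset.mul_sum, ha c hc, mul_zero] }
  have h3 : Module.finrank ℤ Λ' ≤ Module.finrank ℚ U :=
    finrank_int_le ℚ _ U fun t ht c hc => hc t ht
  have h4 : U ⊓ W = ⊥ := by
    rw [eq_bot_iff]
    rintro v ⟨hv1, hv2⟩
    have h5 := hv1 v hv2
    rw [Finset.sum_eq_zero_iff_of_nonneg fun g _ => mul_self_nonneg _] at h5
    ext g
    exact mul_self_eq_zero.1 (h5 g (Finset.mem_univ g))
  have h5 := Submodule.finrank_sup_add_finrank_inf_eq U W
  have h6 := Submodule.finrank_le (U ⊔ W)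
  rw [Module.finrank_pi, ← Nat.card_eq_fintype_card, card_aut h] at h6
  rw [h4, finrank_bot] at h5
  omega

variable (σ : K →+* ℚ_[5]) (h : Good K θ)

include h in
lemma a_mem (j : Fin 5) (k : Fin 4) : ‖σ ((((nn j : ℤ) : K) - θ k) ^ 4) - 1‖ < 1 := by
  have hint : ∀ i, ∃ y : ℤ_[5], algebraMap ℤ_[5] ℚ_[5] y = σ (θ i) := by
    intro i
    apply IsIntegrallyClosed.isIntegral_iff.1
    have h1 : IsIntegral ℤ (σ (θ i)) := (theta_int h i).map σ.toIntAlgHom
    exact h1.tower_top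
  choose y hy using hint
  have hprod : ((fval (nn j) : ℤ) : ℤ_[5]) = ∏ i, ((nn j : ℤ_[5]) - y i) := by
    apply IsFractionRing.injective ℤ_[5] ℚ_[5]
    have := congrArg σ (prod_eq h (nn j))
    simp only [map_prod, map_sub, map_intCast, hy] at this ⊢
    exact this
  have hne : PadicInt.toZMod ((nn j : ℤ_[5]) - y k) ≠ 0 := by
    intro h0
    have h1 := congrArg PadicInt.toZMod hprod
    rw [map_prod, Finset.prod_eq_zero (Finset.mem_univ k) h0, map_intCast,
      ZMod.intCast_zmod_eq_zero_iff_dvd] at h1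
    exact fval_five j h1
  have h2 : ((nn j : ℤ_[5]) - y k) ^ 4 - 1 ∈ IsLocalRing.maximalIdeal ℤ_[5] := by
    rw [← PadicInt.ker_toZMod, RingHom.mem_ker, map_sub, map_pow, map_one, sub_eq_zero]
    exact ZMod.pow_card_sub_one_eq_one hne
  rw [IsLocalRing.mem_maximalIdeal, PadicInt.mem_nonunits] at h2
  have h3 : algebraMap ℤ_[5] ℚ_[5] (((nn j : ℤ_[5]) - y k) ^ 4 - 1)
      = σ ((((nn j : ℤ) : K) - θ k) ^ 4) - 1 := by
    simp only [map_sub, map_pow, map_intCast, map_one, hy]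
  rw [← h3]
  exact h2

def MM : Subgroup (ℚ_[5] ⊗[ℚ] K)ˣ where
  carrier := {x | ∀ g, ‖Phi σ h x g - 1‖ < 1}
  mul_mem' := fun ha hb g => by simpa using PadicLog.mul_mem (ha g) (hb g)
  one_mem' := by simp
  inv_mem' := by
    intro a ha g
    have h1 : Phi σ h (a * (a⁻¹ : (ℚ_[5] ⊗[ℚ] K)ˣ)) g = 1 := by simp
    rw [map_mul, Pi.mul_apply] at h1
    rw [eq_inv_of_mul_eq_one_right h1]
    exact PadicLog.inv_mem (ha g)

lemma MM_compact : IsCompact (MM σ h : Set (ℚ_[5] ⊗[ℚ] K)ˣ) := by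
  let T : Set ((K ≃ₐ[ℚ] K) → ℚ_[5]) := Metric.closedBall 1 5⁻¹
  have hT : ∀ y, y ∈ T ↔ ∀ g, ‖y g - 1‖ < 1 := by
    intro y
    rw [mem_closedBall_iff_norm, pi_norm_le_iff_of_nonneg (by norm_num)]
    exact forall_congr' fun g => ⟨fun h1 => lt_of_le_of_lt h1 (by norm_num), fun h1 => le_fifth h1⟩
  have hne : ∀ y : T, ∀ g, (y : (K ≃ₐ[ℚ] K) → ℚ_[5]) g ≠ 0 := by
    intro y g h0
    have := (hT y).1 y.2 g
    simp [h0] at this
  have : CompactSpace T := isCompact_iff_compactSpace.1 (isCompact_closedBall _ _)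
  let f : T → (ℚ_[5] ⊗[ℚ] K)ˣ := fun y =>
    ⟨(Phi σ h).symm y, (Phi σ h).symm (fun g => ((y : (K ≃ₐ[ℚ] K) → ℚ_[5]) g)⁻¹),
      by rw [← map_mul, ← map_one (Phi σ h).symm]; congr 1; ext g; simp [hne y g],
      by rw [← map_mul, ← map_one (Phi σ h).symm]; congr 1; ext g; simp [hne y g]⟩
  have hf : Continuous f := by
    rw [Units.continuous_iff]
    constructor
    · exact (Phi_symm_cont σ h).comp continuous_subtype_val
    · exact (Phi_symm_cont σ h).comp (continuous_pi fun g =>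
        Continuous.inv₀ ((continuous_apply g).comp continuous_subtype_val) fun y => hne y g)
  have hr : (MM σ h : Set (ℚ_[5] ⊗[ℚ] K)ˣ) = Set.range f := by
    ext x
    constructor
    · intro hx
      exact ⟨⟨Phi σ h x, (hT _).2 hx⟩, Units.ext (by simp [f])⟩
    · rintro ⟨y, rfl⟩ g
      simpa [f] using (hT y).1 y.2 g
  rw [hr]
  exact isCompact_range hf

noncomputable def Lo (x : (ℚ_[5] ⊗[ℚ] K)ˣ) : (K ≃ₐ[ℚ] K) → ℚ_[5] := fun g => lg (Phi σ h x g)

noncomputable def ell (j : Fin 5) (k : Fin 4) : ℚ_[5] := lg (σ ((((nn j : ℤ) : K) - θ k) ^ 4))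

lemma Phi_psi (t : Fin 9 → ℤ) (g : K ≃ₐ[ℚ] K) :
    Phi σ h (toPts ℚ_[5] K (psi h (Multiplicative.ofAdd t)) : ℚ_[5] ⊗[ℚ] K) g =
      ∏ j, ∏ i, σ ((((nn j : ℤ) : K) - θ (perm h g i)) ^ 4) ^ emb ℤ t j i := by
  rw [Phi_toPts, aut_psi]
  simp only [map_prod, map_zpow₀]

lemma le_MM : (psi h).range.map (toPts ℚ_[5] K) ≤ MM σ h := by
  rintro _ ⟨_, ⟨t, rfl⟩, rfl⟩ g
  have := Phi_psi σ h t.toAdd g
  rw [ofAdd_toAdd] at this
  rw [this]
  exact (lg_prod_zpow _ (fun j i => a_mem σ h j _) _).1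

lemma Lo_psi (t : Fin 9 → ℤ) : Lo σ h (toPts ℚ_[5] K (psi h (Multiplicative.ofAdd t))) =
    logMap (perm h) (ell σ (θ := θ)) fun l => (t l : ℚ_[5]) := by
  ext g
  rw [Lo, Phi_psi, (lg_prod_zpow _ (fun j i => a_mem σ h j _) _).2, logMap_apply]
  simp_rw [emb_cast]
  rfl

lemma Lo_continuousOn : ContinuousOn (Lo σ h) (MM σ h) := by
  rw [continuousOn_pi]
  intro g
  exact lg_continuousOn.comp
    ((continuous_apply g).comp ((Phi_cont σ h).comp Units.continuous_val)).continuousOn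
    fun x hx => hx g

theorem not_padicExpected {K : Type} [Field K] [NumberField K] {θ : Fin 4 → K} (h : Good K θ) :
    ¬ PadicExpected K 5 := by
  classical
  intro hP
  obtain ⟨σ⟩ := h.padic
  have := t2 σ h
  obtain ⟨H, H', -, hH', ⟨e⟩⟩ := hP _ (range_fg h) ⟨MM σ h, MM_compact σ h, le_MM σ h⟩
    (hyp_ok h _ ((algebraMap ℚ_[5] _).comp σ))
  have hcl : closureIn ℚ_[5] K (psi h).range ≤ MM σ h :=
    Subgroup.topologicalClosure_minimal _ (le_MM σ h) (MM_compact σ h).isClosed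
  let S0 := LinearMap.range (logMap (perm h) (ell σ (θ := θ)))
  have hS : ∀ x ∈ closureIn ℚ_[5] K (psi h).range, Lo σ h x ∈ S0 := by
    intro x hx
    have h1 : IsClosed ((MM σ h : Set _) ∩ Lo σ h ⁻¹' (S0 : Set _)) :=
      (Lo_continuousOn σ h).preimage_isClosed_of_isClosed (MM_compact σ h).isClosed
        S0.closed_of_finiteDimensional
    have hsub : (((psi h).range.map (toPts ℚ_[5] K) : Subgroup _) : Set (ℚ_[5] ⊗[ℚ] K)ˣ)
        ⊆ (MM σ h : Set _) ∩ Lo σ h ⁻¹' (S0 : Set _) := by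
      intro y hy
      refine ⟨le_MM σ h hy, ?_⟩
      obtain ⟨_, ⟨t, rfl⟩, rfl⟩ := hy
      have := Lo_psi σ h t.toAdd
      rw [ofAdd_toAdd] at this
      rw [Set.mem_preimage, this]
      exact ⟨_, rfl⟩
    exact (closure_minimal hsub h1 hx).2
  let ι : Multiplicative (Fin (rk K (psi h).range) → ℤ_[5]) →* H' :=
    (powMonoidHom H'.index).codRestrict H' fun z => H'.pow_index_mem z
  have hι : Function.Injective ι := by
    rw [injective_iff_map_eq_one]
    intro z hz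
    have h1 : z ^ H'.index = 1 := congrArg Subtype.val hz
    have h2 : H'.index • z.toAdd = 0 := by rw [← toAdd_pow, h1]; rfl
    rcases smul_eq_zero.1 h2 with h3 | h3
    · exact absurd h3 hH'.index_ne_zero
    · exact toAdd_eq_zero.1 h3
  let ω : Multiplicative (Fin (rk K (psi h).range) → ℤ_[5]) →* (ℚ_[5] ⊗[ℚ] K)ˣ :=
    ((closureIn ℚ_[5] K (psi h).range).subtype.comp H.subtype).comp (e.symm.toMonoidHom.comp ι)
  have hω : Function.Injective ω :=
    (Subtype.val_injective.comp Subtype.val_injective).comp (e.symm.injective.comp hι)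
  have hωm : ∀ z, ω z ∈ closureIn ℚ_[5] K (psi h).range := fun z =>
    ((e.symm (ι z) : H) : closureIn ℚ_[5] K (psi h).range).2
  let f : (Fin (rk K (psi h).range) → ℤ_[5]) →+ ((K ≃ₐ[ℚ] K) → ℚ_[5]) :=
    AddMonoidHom.mk' (fun z => Lo σ h (ω (Multiplicative.ofAdd z))) (by
      intro a b
      ext g
      rw [ofAdd_add, map_mul, Pi.add_apply, Lo, Lo, Lo, ← lg_mul (hcl (hωm _) g) (hcl (hωm _) g)]
      simp)
  have hf : ∀ z g, f z g = lg (Phi σ h (ω (Multiplicative.ofAdd z)) g) := fun _ _ => rfl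
  have h1 := card_le f (fun z => by
      rw [pi_norm_le_iff_of_nonneg zero_le_one]
      intro g
      rw [hf, norm_lg (hcl (hωm _) g)]
      exact (hcl (hωm _) g).le)
    (by
      rw [injective_iff_map_eq_zero]
      intro z hz
      have h2 : ω (Multiplicative.ofAdd z) = 1 := by
        apply Units.ext
        apply (Phi σ h).injective
        ext g
        have h3 := norm_lg (hcl (hωm (Multiplicative.ofAdd z)) g)
        rw [← hf, hz] at h3
        simp only [Pi.zero_apply, norm_zero] at h3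
        simpa using sub_eq_zero.1 (norm_eq_zero.1 h3.symm)
      exact ofAdd_eq_one.1 (hω (h2.trans (map_one ω).symm)))
    S0 (fun z => hS _ (hωm _))
  have h2 : Module.finrank ℚ_[5] S0 ≤ 8 := lemB _ _
  rw [Fintype.card_fin, rk_range] at h1
  omega

end Pool.Agent.H63.TorusPadic
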