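import Mathlib
import Pool.Agent.H63.TorusCore
import Pool.Agent.H63.TorusLine

namespace Pool.Agent.H63.TorusReal

open Pool.Agent.H63.TorusField Pool.Agent.H63.TorusGal Pool.Agent.H63.TorusLin
  Pool.Agent.H63.TorusDefs Pool.Agent.H63.TorusCore Pool.Agent.H63.TorusLine
open scoped TensorProduct

def ann {G : Type*} [Fintype G] (C0 : AddSubgroup (G → ℝ)) : Set (G → ℤ) :=
  {l | ∀ c ∈ C0, ∑ g, (l g : ℝ) * c g = 0}

lemma prod_exp_pow {G : Type*} [Fintype G] (c : G → ℝ) (m : G →₀ ℕ) :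
    ∏ g, Real.exp (c g) ^ m g = Real.exp (∑ g, (m g : ℝ) * c g) := by
  rw [Real.exp_sum]
  exact Finset.prod_congr rfl fun g _ => (Real.exp_nat_mul _ _).symm

lemma poly_vanish {G : Type*} [Fintype G] (C0 : AddSubgroup (G → ℝ)) (P : MvPolynomial G ℝ)
    (hP : ∀ c ∈ C0, MvPolynomial.eval (fun g => Real.exp (c g)) P = 0)
    (c0 : G → ℝ) (hc0 : c0 ∈ WW ℝ (ann C0)) :
    MvPolynomial.eval (fun g => Real.exp (c0 g)) P = 0 := by
  classical
  let χ : (G →₀ ℕ) → (Multiplicative C0 →* ℝ) := fun m =>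
    { toFun := fun c => ∏ g, Real.exp ((c.toAdd : G → ℝ) g) ^ m g
      map_one' := by simp
      map_mul' := by intro a b; simp [Real.exp_add, mul_pow, Finset.prod_mul_distrib] }
  have hχ : ∀ m (c : C0), χ m (Multiplicative.ofAdd c) = ∏ g, Real.exp ((c : G → ℝ) g) ^ m g :=
    fun _ _ => rfl
  have hwd : ∀ m m', χ m = χ m' →
      ∏ g, Real.exp (c0 g) ^ m g = ∏ g, Real.exp (c0 g) ^ m' g := by
    intro m m' hm
    have hl : (fun g => (m g : ℤ) - (m' g : ℤ)) ∈ ann C0 := by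
      intro c hc
      have h1 := DFunLike.congr_fun hm (Multiplicative.ofAdd ⟨c, hc⟩)
      rw [hχ, hχ, prod_exp_pow, prod_exp_pow, Real.exp_eq_exp] at h1
      push_cast
      simp_rw [sub_mul]
      rw [Finset.sum_sub_distrib, sub_eq_zero]
      exact h1
    have h2 := hc0 _ hl
    push_cast at h2
    simp_rw [sub_mul] at h2
    rw [Finset.sum_sub_distrib, sub_eq_zero] at h2
    rw [prod_exp_pow, prod_exp_pow, h2]
  let ev : (Multiplicative C0 →* ℝ) → ℝ := fun x =>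
    if h : ∃ m, χ m = x then ∏ g, Real.exp (c0 g) ^ h.choose g else 0
  have hev : ∀ m, ev (χ m) = ∏ g, Real.exp (c0 g) ^ m g := by
    intro m
    have h : ∃ m', χ m' = χ m := ⟨m, rfl⟩
    simp only [ev, dif_pos h]
    exact hwd _ _ h.choose_spec
  let w : (Multiplicative C0 →* ℝ) → ℝ := fun x =>
    ∑ m ∈ P.support with χ m = x, P.coeff m
  have hfib : ∀ Fn : (Multiplicative C0 →* ℝ) → ℝ,
      ∑ m ∈ P.support, P.coeff m * Fn (χ m) = ∑ x ∈ P.support.image χ, w x * Fn x := by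
    intro Fn
    rw [← Finset.sum_fiberwise_of_maps_to (g := χ) (t := P.support.image χ)
      (fun m hm => Finset.mem_image_of_mem χ hm)]
    refine Finset.sum_congr rfl fun x _ => ?_
    rw [Finset.sum_mul]
    refine Finset.sum_congr rfl fun m hm => ?_
    rw [(Finset.mem_filter.1 hm).2]
  have hw : ∀ x ∈ P.support.image χ, w x = 0 := by
    apply linearIndependent_iff'.1 (linearIndependent_monoidHom (Multiplicative C0) ℝ)
    ext c
    have h1 := hP _ c.toAdd.2
    rw [MvPolynomial.eval_eq'] at h1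
    have h2 := hfib (fun x => x c)
    simp only [Finset.sum_apply, Pi.smul_apply, smul_eq_mul, Pi.zero_apply]
    rw [← h2]
    exact h1
  rw [MvPolynomial.eval_eq']
  simp_rw [← hev]
  rw [hfib, Finset.sum_eq_zero]
  intro x hx
  rw [hw x hx, zero_mul]

variable {K : Type} [Field K] [NumberField K] {θ : Fin 4 → K} (σ : K →+* ℝ) (h : Good K θ)

noncomputable def Ex : Multiplicative ((K ≃ₐ[ℚ] K) → ℝ) →* (ℝ ⊗[ℚ] K)ˣ :=
  MonoidHom.toHomUnits
    { toFun := fun c => (Phi σ h).symm (fun g => Real.exp (c.toAdd g))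
      map_one' := by
        rw [← map_one (Phi σ h).symm]; congr 1; ext g; simp
      map_mul' := by
        intro a b
        rw [← map_mul]; congr 1; ext g; simp [Real.exp_add] }

lemma Ex_val (c : (K ≃ₐ[ℚ] K) → ℝ) : ((Ex σ h (Multiplicative.ofAdd c) : (ℝ ⊗[ℚ] K)ˣ) : ℝ ⊗[ℚ] K)
    = (Phi σ h).symm (fun g => Real.exp (c g)) := rfl

lemma Ex_cont : Continuous (fun c => Ex σ h (Multiplicative.ofAdd c)) := by
  rw [Units.continuous_iff]
  constructor
  · change Continuous fun c : (K ≃ₐ[ℚ] K) → ℝ => (Phi σ h).symm (fun g => Real.exp (c g))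
    exact (Phi_symm_cont σ h).comp (by fun_prop)
  · simp_rw [← map_inv, ← ofAdd_neg, Ex_val]
    exact (Phi_symm_cont σ h).comp (by fun_prop)

noncomputable def Lo (x : (ℝ ⊗[ℚ] K)ˣ) : (K ≃ₐ[ℚ] K) → ℝ := fun g => Real.log (Phi σ h x g)

lemma Lo_cont : Continuous (Lo σ h) := by
  refine continuous_pi fun g => Continuous.log ?_ fun x => Phi_ne σ h x g
  exact (continuous_apply g).comp ((Phi_cont σ h).comp Units.continuous_val)

lemma Lo_Ex (c : (K ≃ₐ[ℚ] K) → ℝ) : Lo σ h (Ex σ h (Multiplicative.ofAdd c)) = c := by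
  ext g
  simp [Lo, Ex_val]

noncomputable def ell (j : Fin 5) (k : Fin 4) : ℝ := Real.log (σ ((((nn j : ℤ) : K) - θ k) ^ 4))

include h in
lemma pos4 (j : Fin 5) (k : Fin 4) : 0 < σ ((((nn j : ℤ) : K) - θ k) ^ 4) := by
  rw [map_pow]
  have : σ (((nn j : ℤ) : K) - θ k) ≠ 0 := (map_ne_zero σ).2 (ne_zero h j k)
  positivity

lemma toPts_psi (t : Fin 9 → ℤ) : toPts ℝ K (psi h (Multiplicative.ofAdd t)) =
    Ex σ h (Multiplicative.ofAdd (logMap (perm h) (ell σ (θ := θ)) fun l => (t l : ℝ))) := by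
  apply Units.ext
  apply (Phi σ h).injective
  rw [Ex_val, AlgEquiv.apply_symm_apply]
  ext g
  rw [Phi_toPts, aut_psi, logMap_apply, Real.exp_sum, map_prod]
  refine Finset.prod_congr rfl fun j _ => ?_
  rw [Real.exp_sum, map_prod]
  refine Finset.prod_congr rfl fun i _ => ?_
  rw [emb_cast, map_zpow₀, ell, mul_comm, ← Real.rpow_def_of_pos (pos4 σ h _ _), Real.rpow_intCast]

theorem not_realExpected {K : Type} [Field K] [NumberField K] {θ : Fin 4 → K} (h : Good K θ) :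
    ¬ RealExpected K := by
  classical
  intro hR
  obtain ⟨σ⟩ := h.real
  have := t2 σ h
  obtain ⟨B, ⟨S, hS⟩, hCB, hidx⟩ := hR _ (range_fg h)
  set H := closureIn ℝ K (psi h).range with hHdef
  set C := identityComponent K H with hCdef
  let toAddSub : Subgroup (ℝ ⊗[ℚ] K)ˣ → AddSubgroup ((K ≃ₐ[ℚ] K) → ℝ) := fun A =>
    AddSubgroup.toSubgroup.symm (A.comap (Ex σ h))
  have hmem : ∀ A c, c ∈ toAddSub A ↔ Ex σ h (Multiplicative.ofAdd c) ∈ A := fun _ _ => Iff.rfl
  let H0 := toAddSub H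
  let C0 := toAddSub C
  let S0 := LinearMap.range (logMap (perm h) (ell σ (θ := θ)))
  let W := WW ℝ (ann C0)
  have hHcl : IsClosed (H0 : Set ((K ≃ₐ[ℚ] K) → ℝ)) :=
    (Subgroup.isClosed_topologicalClosure _).preimage (Ex_cont σ h)
  have hHS : ∀ x ∈ H0, x ∈ S0 := by
    intro c hc
    have hcl : IsClosed (Lo σ h ⁻¹' (S0 : Set _)) :=
      S0.closed_of_finiteDimensional.preimage (Lo_cont σ h)
    have hsub : (((psi h).range.map (toPts ℝ K) : Subgroup _) : Set (ℝ ⊗[ℚ] K)ˣ)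
        ⊆ Lo σ h ⁻¹' (S0 : Set _) := by
      rintro _ ⟨_, ⟨t, rfl⟩, rfl⟩
      have := toPts_psi σ h t.toAdd
      rw [ofAdd_toAdd] at this
      rw [Set.mem_preimage, this, Lo_Ex]
      exact ⟨_, rfl⟩
    have := closure_minimal hsub hcl ((hmem H c).1 hc)
    rwa [Set.mem_preimage, Lo_Ex] at this
  have hCH : C ≤ H := Subgroup.map_subtype_le _
  have hWB : ∀ c ∈ W, Ex σ h (Multiplicative.ofAdd c) ∈ B := by
    intro c hc
    rw [hS]
    intro P hP
    let b := (Module.finBasis ℚ K).baseChange ℝ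
    let Q : Fin (Module.finrank ℚ K) → MvPolynomial (K ≃ₐ[ℚ] K) ℝ := fun i =>
      ∑ g, MvPolynomial.C (b.repr ((Phi σ h).symm (Pi.single g 1)) i) * MvPolynomial.X g
    have hQ : ∀ y : (K ≃ₐ[ℚ] K) → ℝ, MvPolynomial.eval y (MvPolynomial.bind₁ Q P) =
        MvPolynomial.eval (fun i => b.repr ((Phi σ h).symm y) i) P := by
      intro y
      rw [← MvPolynomial.coe_aeval_eq_eval, ← MvPolynomial.coe_aeval_eq_eval]
      change MvPolynomial.aeval y (MvPolynomial.bind₁ Q P) = MvPolynomial.aeval _ P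
      rw [MvPolynomial.aeval_bind₁]
      congr 2
      ext i
      conv_rhs => rw [pi_eq_sum_univ' y]
      simp [Q, mul_comm]
    rw [Ex_val, ← hQ]
    apply poly_vanish C0 _ _ c hc
    intro c' hc'
    rw [hQ, ← Ex_val]
    exact (hS _).1 (hCB ((hmem C c').1 hc')) P hP
  have hWC : ∀ c ∈ W, c ∈ C0 := by
    intro c hc
    have h1 := C.pow_relIndex_mem (hWB _ (W.smul_mem ((C.relIndex B : ℝ)⁻¹) hc))
    rw [← map_pow, ← ofAdd_nsmul, ← Nat.cast_smul_eq_nsmul ℝ, smul_smul,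
      mul_inv_cancel₀ (by exact_mod_cast hidx), one_smul] at h1
    exact h1
  have hCW : ∀ c ∈ C0, c ∈ W := fun c hc l hl => hl c hc
  have hline : ∀ u, (∀ t : ℝ, t • u ∈ H0) → u ∈ W := by
    intro u hu
    apply hCW
    let γ : ℝ → H := fun t => ⟨Ex σ h (Multiplicative.ofAdd (t • u)), hu t⟩
    have hγ : Continuous γ := ((Ex_cont σ h).comp (by fun_prop)).subtype_mk _
    have h1 : Set.range γ ⊆ connectedComponent (1 : H) := by
      apply (isPreconnected_range hγ).subset_connectedComponent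
      exact ⟨0, Subtype.ext (by simp [γ])⟩
    exact ⟨γ 1, h1 ⟨1, rfl⟩, by simp [γ]; rfl⟩
  let cst : (Fin 9 → ℤ) →ₗ[ℤ] (Fin 9 → ℝ) :=
    { toFun := fun t l => (t l : ℝ)
      map_add' := by intro a b; ext; simp
      map_smul' := by intro a b; ext; simp }
  let Lg : (Fin 9 → ℤ) →ₗ[ℤ] ((K ≃ₐ[ℚ] K) → ℝ) :=
    ((logMap (perm h) (ell σ (θ := θ))).restrictScalars ℤ).comp cst
  have hLg : ∀ t, Ex σ h (Multiplicative.ofAdd (Lg t)) =
      toPts ℝ K (psi h (Multiplicative.ofAdd t)) := fun t => (toPts_psi σ h t).symm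
  have hL : ∀ t, Lg t ∈ H0 := by
    intro t
    rw [hmem, hLg]
    exact Subgroup.le_topologicalClosure _ ⟨_, ⟨_, rfl⟩, rfl⟩
  have h1 := rank_bound H0 hHcl S0 W hHS (fun x hx => hCH (hWC x hx)) hline Lg hL
  have h2 : Module.finrank ℝ S0 ≤ 8 := lemB _ _
  have h3 := lemA (F := ℝ) (perm h) (exists_aut h) (ann C0)
  have h4 : (W.restrictScalars ℤ).comap Lg ≤ TT (perm h) (ann C0) := by
    intro t ht
    apply mem_TT_of_char h
    intro l hl
    have h5 : ∑ g, (l g : ℝ) * Lg t g = 0 := ht l hl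
    apply σ.injective
    rw [map_prod, map_one, ← Real.exp_zero, ← h5, Real.exp_sum]
    refine Finset.prod_congr rfl fun g _ => ?_
    rw [map_zpow₀, ← Phi_toPts σ h, ← hLg, Ex_val, AlgEquiv.apply_symm_apply, mul_comm,
      Real.exp_mul, Real.rpow_intCast]
  have h5 := Submodule.finrank_mono h4
  simp only [Fintype.card_fin] at h1
  change _ ≤ Module.finrank ℝ W at h3
  omega

end Pool.Agent.H63.TorusReal
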