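import Mathlib

set_option autoImplicit false

namespace Pool.Agent.H63.UP

/-- the local rule of the left machine, on codes -/
def relN (c r l c' r' l' : ℕ) : Prop :=
  (c = 0 ∧ r ≤ 5 ∧ (l ≤ 5 ∨ l = 7) ∧ c' = 0 ∧ r' = r ∧ l' = l) ∨
  (c = 0 ∧ r = 0 ∧ l = 6 ∧ c' = 1 ∧ r' = 0 ∧ l' = 7) ∨
  (c = 0 ∧ r = 0 ∧ l = 8 ∧ c' = 0 ∧ r' = 0 ∧ l' = 8) ∨
  (c = 0 ∧ r = 0 ∧ 9 ≤ l ∧ l ≤ 12 ∧ c' = 4 ∧ r' = 0 ∧ l' + 9 = l) ∨
  (c = 4 ∧ r = 0 ∧ l ≤ 3 ∧ c' = 0 ∧ r' = 0 ∧ l' = l + 9) ∨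
  (c = 4 ∧ r = 0 ∧ l = 8 ∧ c' = 2 ∧ r' = 0 ∧ l' = 9) ∨
  (c = 1 ∧ r ≤ 4 ∧ c' = 1 ∧ r' = l ∧ l' = r) ∨
  (c = 1 ∧ r = 5 ∧ c' = 1 ∧ r' = l ∧ l' = 6) ∨
  (c = 2 ∧ r = 0 ∧ l ≤ 3 ∧ c' = 2 ∧ r' = l ∧ l' = 0) ∨
  (c = 3 ∧ r = 0 ∧ l ≤ 2 ∧ c' = 2 ∧ r' = l + 1 ∧ l' = 1) ∨
  (c = 3 ∧ r = 0 ∧ l = 3 ∧ c' = 3 ∧ r' = 0 ∧ l' = 0) ∨
  (c = 2 ∧ r = 0 ∧ l = 4 ∧ c' = 3 ∧ r' = 4 ∧ l' = 0) ∨
  (c = 2 ∧ r = 0 ∧ l = 7 ∧ c' = 3 ∧ r' = 4 ∧ l' = 1) ∨
  (c = 3 ∧ r = 0 ∧ l = 4 ∧ c' = 0 ∧ r' = 5 ∧ l' = 8)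

theorem R1 {c r l c' r' l' : ℕ} (h : c = 0 ∧ r ≤ 5 ∧ (l ≤ 5 ∨ l = 7) ∧ c' = 0 ∧ r' = r ∧ l' = l) :
    relN c r l c' r' l' := Or.inl h
theorem R2 {c r l c' r' l' : ℕ} (h : c = 0 ∧ r = 0 ∧ l = 6 ∧ c' = 1 ∧ r' = 0 ∧ l' = 7) :
    relN c r l c' r' l' := Or.inr (Or.inl h)
theorem R3 {c r l c' r' l' : ℕ} (h : c = 0 ∧ r = 0 ∧ l = 8 ∧ c' = 0 ∧ r' = 0 ∧ l' = 8) :
    relN c r l c' r' l' := Or.inr (Or.inr (Or.inl h))
theorem R4 {c r l c' r' l' : ℕ} (h : c = 0 ∧ r = 0 ∧ 9 ≤ l ∧ l ≤ 12 ∧ c' = 4 ∧ r' = 0 ∧ l' + 9 = l) :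
    relN c r l c' r' l' := Or.inr (Or.inr (Or.inr (Or.inl h)))
theorem R5 {c r l c' r' l' : ℕ} (h : c = 4 ∧ r = 0 ∧ l ≤ 3 ∧ c' = 0 ∧ r' = 0 ∧ l' = l + 9) :
    relN c r l c' r' l' := Or.inr (Or.inr (Or.inr (Or.inr (Or.inl h))))
theorem R6 {c r l c' r' l' : ℕ} (h : c = 4 ∧ r = 0 ∧ l = 8 ∧ c' = 2 ∧ r' = 0 ∧ l' = 9) :
    relN c r l c' r' l' := Or.inr (Or.inr (Or.inr (Or.inr (Or.inr (Or.inl h)))))
theorem R7 {c r l c' r' l' : ℕ} (h : c = 1 ∧ r ≤ 4 ∧ c' = 1 ∧ r' = l ∧ l' = r) :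
    relN c r l c' r' l' := Or.inr (Or.inr (Or.inr (Or.inr (Or.inr (Or.inr (Or.inl h))))))
theorem R8 {c r l c' r' l' : ℕ} (h : c = 1 ∧ r = 5 ∧ c' = 1 ∧ r' = l ∧ l' = 6) :
    relN c r l c' r' l' := Or.inr (Or.inr (Or.inr (Or.inr (Or.inr (Or.inr (Or.inr (Or.inl h)))))))
theorem R9 {c r l c' r' l' : ℕ} (h : c = 2 ∧ r = 0 ∧ l ≤ 3 ∧ c' = 2 ∧ r' = l ∧ l' = 0) :
    relN c r l c' r' l' := Or.inr (Or.inr (Or.inr (Or.inr (Or.inr (Or.inr (Or.inr (Or.inr (Or.inl h))))))))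
theorem R10 {c r l c' r' l' : ℕ} (h : c = 3 ∧ r = 0 ∧ l ≤ 2 ∧ c' = 2 ∧ r' = l + 1 ∧ l' = 1) :
    relN c r l c' r' l' := Or.inr (Or.inr (Or.inr (Or.inr (Or.inr (Or.inr (Or.inr (Or.inr (Or.inr (Or.inl h)))))))))
theorem R11 {c r l c' r' l' : ℕ} (h : c = 3 ∧ r = 0 ∧ l = 3 ∧ c' = 3 ∧ r' = 0 ∧ l' = 0) :
    relN c r l c' r' l' := Or.inr (Or.inr (Or.inr (Or.inr (Or.inr (Or.inr (Or.inr (Or.inr (Or.inr (Or.inr (Or.inl h))))))))))
theorem R12 {c r l c' r' l' : ℕ} (h : c = 2 ∧ r = 0 ∧ l = 4 ∧ c' = 3 ∧ r' = 4 ∧ l' = 0) :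
    relN c r l c' r' l' := Or.inr (Or.inr (Or.inr (Or.inr (Or.inr (Or.inr (Or.inr (Or.inr (Or.inr (Or.inr (Or.inr (Or.inl h)))))))))))
theorem R13 {c r l c' r' l' : ℕ} (h : c = 2 ∧ r = 0 ∧ l = 7 ∧ c' = 3 ∧ r' = 4 ∧ l' = 1) :
    relN c r l c' r' l' := Or.inr (Or.inr (Or.inr (Or.inr (Or.inr (Or.inr (Or.inr (Or.inr (Or.inr (Or.inr (Or.inr (Or.inr (Or.inl h))))))))))))
theorem R14 {c r l c' r' l' : ℕ} (h : c = 3 ∧ r = 0 ∧ l = 4 ∧ c' = 0 ∧ r' = 5 ∧ l' = 8) :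
    relN c r l c' r' l' := Or.inr (Or.inr (Or.inr (Or.inr (Or.inr (Or.inr (Or.inr (Or.inr (Or.inr (Or.inr (Or.inr (Or.inr (Or.inr (h)))))))))))))

structure Half where
  c : ℕ → ℤ → ℕ
  r : ℕ → ℤ → ℕ
  l : ℕ → ℤ → ℕ
  q : ℕ → ℤ → Prop
  step : ∀ t y c' r' l', q t y → relN (c t y) (r t y) (l t y) c' r' l' →
    c (t+1) y = c' ∧ l (t+1) (y-1) = l' ∧ (c' ≠ 1 → r (t+1) (y+1) = r' ∧ q (t+1) (y+1))

def zp (z0 : ℤ) (t : ℕ) : ℤ := z0 - ((t / 2 : ℕ) : ℤ)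

variable (H : Half) (z0 : ℤ)

def Out (t : ℕ) (b : ℤ) : Prop :=
  ∀ y, y < b → H.q t y ∧ H.r t y = 0 ∧ (y ≠ zp z0 t → H.c t y = 0 ∧ H.l t y ≤ 3) ∧
    (y = zp z0 t → t % 2 = 0 → H.c t y = 0 ∧ 9 ≤ H.l t y ∧ H.l t y ≤ 12) ∧
    (y = zp z0 t → t % 2 = 1 → H.c t y = 4 ∧ H.l t y ≤ 3)

variable {H z0}

theorem blank {t : ℕ} {y : ℤ} (hq : H.q t y) (hc : H.c t y = 0) (hr : H.r t y ≤ 5)
    (hl : H.l t y ≤ 5 ∨ H.l t y = 7) :
    H.c (t+1) y = 0 ∧ H.l (t+1) (y-1) = H.l t y ∧ H.r (t+1) (y+1) = H.r t y ∧ H.q (t+1) (y+1) := by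
  have := H.step t y 0 (H.r t y) (H.l t y) hq (R1 (by omega))
  exact ⟨this.1, this.2.1, this.2.2 (by omega)⟩

theorem out_loc {t : ℕ} {b y : ℤ} (h : Out H z0 t b) (hy : y < b) :
    H.r (t+1) (y+1) = 0 ∧ H.q (t+1) (y+1) ∧
    ((y = zp z0 t ∧ t % 2 = 0) → H.c (t+1) y = 4) ∧
    (¬ (y = zp z0 t ∧ t % 2 = 0) → H.c (t+1) y = 0) ∧
    ((y = zp z0 t ∧ t % 2 = 1) → 9 ≤ H.l (t+1) (y-1) ∧ H.l (t+1) (y-1) ≤ 12) ∧
    (¬ (y = zp z0 t ∧ t % 2 = 1) → H.l (t+1) (y-1) ≤ 3) := by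
  obtain ⟨hq, hr, h1, h2, h3⟩ := h y hy
  by_cases e : y = zp z0 t
  · rcases Nat.mod_two_eq_zero_or_one t with p | p
    · obtain ⟨a, b, c⟩ := h2 e p
      have := H.step t y 4 0 (H.l t y - 9) hq (R4 (by omega))
      obtain ⟨u, v, w⟩ := this
      have w := w (by omega)
      exact ⟨w.1, w.2, by omega, by omega, by omega, by omega⟩
    · obtain ⟨a, b⟩ := h3 e p
      have := H.step t y 0 0 (H.l t y + 9) hq (R5 (by omega))
      obtain ⟨u, v, w⟩ := this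
      have w := w (by omega)
      exact ⟨w.1, w.2, by omega, by omega, by omega, by omega⟩
  · obtain ⟨a, b⟩ := h1 e
    obtain ⟨u, v, w, w'⟩ := blank hq a (by omega) (by omega)
    exact ⟨by omega, w', by omega, by omega, by omega, by omega⟩

theorem zp_succ (t : ℕ) : (t % 2 = 0 ∧ zp z0 (t+1) = zp z0 t) ∨
    (t % 2 = 1 ∧ zp z0 (t+1) = zp z0 t - 1) := by
  unfold zp; omega

theorem out_step {t : ℕ} {b : ℤ} (h : Out H z0 t b) : Out H z0 (t+1) (b-1) := by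
  intro y hy
  obtain ⟨a1, a2, -⟩ := out_loc h (y := y-1) (by omega)
  obtain ⟨-, -, b1, b2, -⟩ := out_loc h (y := y) (by omega)
  obtain ⟨-, -, -, -, c1, c2⟩ := out_loc h (y := y+1) (by omega)
  rw [sub_add_cancel] at a1 a2
  rw [add_sub_cancel_right] at c1 c2
  have := zp_succ (z0 := z0) t
  refine ⟨a2, a1, ?_, ?_, ?_⟩ <;> omega

theorem out_step' {t : ℕ} {b : ℤ} (h : Out H z0 t b)
    (h1 : (zp z0 t ≠ b ∧ H.l (t+1) (b-1) ≤ 3) ∨ (zp z0 t = b ∧ t % 2 = 1 ∧ H.l (t+1) (b-1) = 9)) :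
    Out H z0 (t+1) b := by
  intro y hy
  by_cases e : y < b - 1
  · exact out_step h y e
  obtain rfl : y = b - 1 := by omega
  obtain ⟨a1, a2, -⟩ := out_loc h (y := b-1-1) (by omega)
  obtain ⟨-, -, b1, b2, -⟩ := out_loc h (y := b-1) (by omega)
  rw [sub_add_cancel] at a1 a2
  have := zp_succ (z0 := z0) t
  refine ⟨a2, a1, ?_, ?_, ?_⟩ <;> omega

variable (H z0)

/-- counter machine: wall at `x`, mirror at `M` -/
def Mach (t : ℕ) (x M : ℤ) (b : ℕ) (Q : ℤ → ℕ) (τ : ℤ) : Prop :=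
  Out H z0 t M ∧ zp z0 t < M ∧ H.q t M ∧ H.r t M = 0 ∧ H.c t M = 2 + b ∧ H.c t x = 1 ∧
    (∀ y, M < y → y < x → H.c t y = 0) ∧
    (∀ y, M < y → y ≤ x → H.q t y ∧ H.r t y = Q (τ + 2 * (x - M) - (y - M))) ∧
    (∀ y, M ≤ y → y < x → H.l t y = Q (τ + (y - M)))

/-- chase phase -/
def Ch (t : ℕ) (x b rp lp : ℤ) (σ : ℕ) : Prop :=
  Out H z0 t b ∧ zp z0 t ≤ b ∧ H.q t b ∧ H.r t b = 0 ∧ H.l t b = 8 ∧
    (zp z0 t = b → H.c t b = 4 ∧ t % 2 = 1) ∧ (zp z0 t ≠ b → H.c t b = 0) ∧ H.c t x = 1 ∧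
    (∀ y, b < y → y < x → H.c t y = 0) ∧
    (∀ y, b < y → y ≤ x → H.q t y ∧ (y = rp → H.r t y = 5) ∧ (y ≠ rp → H.r t y = 0)) ∧
    (∀ y, b < y → y < x → (y = lp → H.l t y = σ) ∧ (y ≠ lp → H.l t y = 0))

variable {H z0}

theorem ord_step {t : ℕ} {x M : ℤ} {b b' g : ℕ} {Q : ℤ → ℕ} {τ : ℤ} (hx : M < x)
    (h : Mach H z0 t x M b Q τ)
    (p1 : ∀ p, τ < p → p < τ + (x - M) → Q p ≤ 4 ∨ Q p = 7)
    (p2 : ∀ p, τ + (x - M) ≤ p → p < τ + 2 * (x - M) → Q p ≤ 4)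
    (hm : relN (2 + b) 0 (Q τ) (2 + b') (Q (τ + 2 * (x - M))) g) (hg : g ≤ 3) :
    Mach H z0 (t+1) x M b' Q (τ+1) := by
  obtain ⟨ho, hz, hq, hr, hc, hw, h1, h2, h3⟩ := h
  have m := H.step t M (2 + b') (Q (τ + 2 * (x - M))) g hq (by
    rw [hc, hr, h3 M le_rfl hx]; simpa using hm)
  obtain ⟨m1, m2, m3⟩ := m
  obtain ⟨m3, m4⟩ := m3 (by omega)
  have hb : ∀ y, M < y → y < x → H.c (t+1) y = 0 ∧ H.l (t+1) (y-1) = H.l t y ∧
      H.r (t+1) (y+1) = H.r t y ∧ H.q (t+1) (y+1) := by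
    intro y a b
    refine blank (h2 y a b.le).1 (h1 y a b) ?_ ?_
    · rw [(h2 y a b.le).2]; exact (p2 _ (by omega) (by omega)).trans (by omega)
    · rw [h3 y a.le b]; have := p1 (τ + (y - M)) (by omega) (by omega); omega
  have w := H.step t x 1 (H.l t x) (H.r t x) (h2 x hx le_rfl).1 (by
    have := p2 (τ + 2 * (x - M) - (x - M)) (by omega) (by omega)
    have := (h2 x hx le_rfl).2
    exact R7 (by omega))
  obtain ⟨a1, a2, -⟩ := out_loc ho (y := M-1) (by omega)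
  rw [sub_add_cancel] at a1 a2
  have zz := zp_succ (z0 := z0) t
  refine ⟨out_step' ho (by omega), by omega, a2, a1, m1, w.1, fun y a b => (hb y a b).1, ?_, ?_⟩
  · intro y a b
    by_cases e : y = M + 1
    · subst e; refine ⟨m4, ?_⟩; rw [m3]; congr 1; omega
    · obtain ⟨-, -, u, v⟩ := hb (y-1) (by omega) (by omega)
      rw [sub_add_cancel] at u v
      refine ⟨v, ?_⟩
      rw [u, (h2 (y-1) (by omega) (by omega)).2]; congr 1; omega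
  · intro y a b
    by_cases e : y = x - 1
    · subst e; rw [w.2.1, (h2 x hx le_rfl).2]; congr 1; omega
    · obtain ⟨-, u, -⟩ := hb (y+1) (by omega) (by omega)
      rw [add_sub_cancel_right] at u
      rw [u, h3 (y+1) (by omega) (by omega)]; congr 1; omega

theorem pick {t : ℕ} {x M : ℤ} {Q : ℤ → ℕ} {τ : ℤ} (hx : M < x)
    (h : Mach H z0 t x M 1 Q τ) (p0 : Q τ = 4)
    (p1 : ∀ p, τ < p → p < τ + 2 * (x - M) → Q p = 0) :
    Ch H z0 (t+1) x (M-1) (M+1) (M-1) 7 := by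
  obtain ⟨ho, hz, hq, hr, hc, hw, h1, h2, h3⟩ := h
  have m := H.step t M 0 5 8 hq (by
    rw [hc, hr, h3 M le_rfl hx]; simp only [sub_self, add_zero, p0]; exact R14 (by omega))
  obtain ⟨m1, m2, m3⟩ := m
  obtain ⟨m3, m4⟩ := m3 (by omega)
  have r0 : ∀ y, M < y → y ≤ x → H.r t y = 0 := fun y a b => by
    rw [(h2 y a b).2]; exact p1 _ (by omega) (by omega)
  have l0 : ∀ y, M < y → y < x → H.l t y = 0 := fun y a b => by
    rw [h3 y a.le b]; exact p1 _ (by omega) (by omega)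
  have hb : ∀ y, M < y → y < x → H.c (t+1) y = 0 ∧ H.l (t+1) (y-1) = H.l t y ∧
      H.r (t+1) (y+1) = H.r t y ∧ H.q (t+1) (y+1) := by
    intro y a b
    have := r0 y a b.le
    have := l0 y a b
    exact blank (h2 y a b.le).1 (h1 y a b) (by omega) (by omega)
  have w := H.step t x 1 (H.l t x) 0 (h2 x hx le_rfl).1 (by
    have := r0 x hx le_rfl
    exact R7 (by omega))
  obtain ⟨a1, a2, a3, a4, -⟩ := out_loc ho (y := M-1) (by omega)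
  obtain ⟨b1, b2, -⟩ := out_loc ho (y := M-1-1) (by omega)
  rw [sub_add_cancel] at a1 a2 b1 b2
  have zz := zp_succ (z0 := z0) t
  refine ⟨out_step ho, by omega, b2, b1, m2, by omega, by omega, w.1, ?_, ?_, ?_⟩
  · intro y a b
    by_cases e : y = M
    · subst e; exact m1
    · exact (hb y (by omega) b).1
  · intro y a b
    by_cases e : y = M
    · subst e; exact ⟨a2, by omega, by omega⟩
    by_cases e' : y = M + 1
    · subst e'; exact ⟨m4, by omega, by omega⟩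
    obtain ⟨-, -, u, v⟩ := hb (y-1) (by omega) (by omega)
    rw [sub_add_cancel] at u v
    have := r0 (y-1) (by omega) (by omega)
    exact ⟨v, by omega, by omega⟩
  · intro y a b
    by_cases e : y = x - 1
    · subst e; exact ⟨by omega, fun _ => w.2.1⟩
    · obtain ⟨-, u, -⟩ := hb (y+1) (by omega) (by omega)
      rw [add_sub_cancel_right] at u
      have := l0 (y+1) (by omega) (by omega)
      exact ⟨by omega, by omega⟩

theorem ch_left {t : ℕ} {b : ℤ} (ho : Out H z0 t b) (hz : zp z0 t < b) (hq : H.q t b)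
    (hr : H.r t b = 0) (hl : H.l t b = 8) (hc : H.c t b = 0) :
    (Out H z0 (t+1) (b-1) ∧ zp z0 (t+1) ≤ b-1 ∧ H.q (t+1) (b-1) ∧ H.r (t+1) (b-1) = 0 ∧
      H.l (t+1) (b-1) = 8 ∧ (zp z0 (t+1) = b-1 → H.c (t+1) (b-1) = 4 ∧ (t+1) % 2 = 1) ∧
      (zp z0 (t+1) ≠ b-1 → H.c (t+1) (b-1) = 0)) ∧
    H.q (t+1) b ∧ H.r (t+1) b = 0 ∧ H.c (t+1) b = 0 ∧ H.q (t+1) (b+1) ∧ H.r (t+1) (b+1) = 0 := by
  have m := H.step t b 0 0 8 hq (R3 (by omega))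
  obtain ⟨m1, m2, m3⟩ := m
  obtain ⟨m3, m4⟩ := m3 (by omega)
  obtain ⟨a1, a2, a3, a4, -⟩ := out_loc ho (y := b-1) (by omega)
  obtain ⟨b1, b2, -⟩ := out_loc ho (y := b-1-1) (by omega)
  rw [sub_add_cancel] at a1 a2 b1 b2
  have zz := zp_succ (z0 := z0) t
  exact ⟨⟨out_step ho, by omega, b2, b1, m2, by omega, by omega⟩, a2, a1, m1, m4, m3⟩

/-- free flight, and the hit on the wall -/
theorem ch_step {t : ℕ} {x b rp lp lp' : ℤ} {σ : ℕ} (hx : b < x) (h : Ch H z0 t x b rp lp 7)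
    (hz : zp z0 t < b) (hrp : b < rp)
    (hh : (rp ≠ x ∧ lp < x ∧ b < lp ∧ lp' = lp - 1 ∧ σ = 7) ∨
      (rp ≠ x ∧ lp ≤ b ∧ lp' < b ∧ σ = 7) ∨ (rp = x ∧ lp ≤ b ∧ lp' = x - 1 ∧ σ = 6)) :
    Ch H z0 (t+1) x (b-1) (rp+1) lp' σ := by
  obtain ⟨ho, -, hq, hr, hl, -, hc, hw, h1, h2, h3⟩ := h
  obtain ⟨⟨k1, k2, k3, k4, k5, k6, k7⟩, a1, a2, a3, a4, a5⟩ :=
    ch_left ho hz hq hr hl (hc (by omega))
  have hb : ∀ y, b < y → y < x → H.c (t+1) y = 0 ∧ H.l (t+1) (y-1) = H.l t y ∧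
      H.r (t+1) (y+1) = H.r t y ∧ H.q (t+1) (y+1) := by
    intro y a b
    have := (h2 y a b.le).2
    have := h3 y a b
    exact blank (h2 y a b.le).1 (h1 y a b) (by omega) (by omega)
  have w := H.step t x 1 (H.l t x) (if rp = x then 6 else 0) (h2 x hx le_rfl).1 (by
    have := (h2 x hx le_rfl).2
    split_ifs
    · exact R8 (by omega)
    · exact R7 (by omega))
  refine ⟨k1, k2, k3, k4, k5, k6, k7, w.1, ?_, ?_, ?_⟩
  · intro y a c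
    by_cases e : y = b
    · subst e; exact a3
    · exact (hb y (by omega) c).1
  · intro y a c
    by_cases e : y = b
    · subst e; exact ⟨a1, by omega, by omega⟩
    by_cases e' : y = b + 1
    · subst e'; exact ⟨a4, by omega, by omega⟩
    obtain ⟨-, -, u, v⟩ := hb (y-1) (by omega) (by omega)
    rw [sub_add_cancel] at u v
    have := (h2 (y-1) (by omega) (by omega)).2
    exact ⟨v, by omega, by omega⟩
  · intro y a c
    by_cases e : y = x - 1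
    · subst e
      have := w.2.1
      split_ifs at this <;> exact ⟨by omega, by omega⟩
    · obtain ⟨-, u, -⟩ := hb (y+1) (by omega) (by omega)
      rw [add_sub_cancel_right] at u
      have := h3 (y+1) (by omega) (by omega)
      exact ⟨by omega, by omega⟩

/-- the new wall -/
theorem ch_dep {t : ℕ} {x b rp : ℤ} (hx : b < x - 1) (h : Ch H z0 t x b rp (x-1) 6)
    (hz : zp z0 t < b) (hrp : x < rp) :
    Ch H z0 (t+1) (x-1) (b-1) rp (x-2) 7 := by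
  obtain ⟨ho, -, hq, hr, hl, -, hc, hw, h1, h2, h3⟩ := h
  obtain ⟨⟨k1, k2, k3, k4, k5, k6, k7⟩, a1, a2, a3, a4, a5⟩ :=
    ch_left ho hz hq hr hl (hc (by omega))
  have hb : ∀ y, b < y → y < x - 1 → H.c (t+1) y = 0 ∧ H.l (t+1) (y-1) = H.l t y ∧
      H.r (t+1) (y+1) = H.r t y ∧ H.q (t+1) (y+1) := by
    intro y a b
    have := (h2 y a (by omega)).2
    have := h3 y a (by omega)
    exact blank (h2 y a (by omega)).1 (h1 y a (by omega)) (by omega) (by omega)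
  have w := H.step t (x-1) 1 0 7 (h2 (x-1) hx (by omega)).1 (by
    have := (h2 (x-1) hx (by omega)).2
    have := h3 (x-1) hx (by omega)
    have := h1 (x-1) hx (by omega)
    exact R2 (by omega))
  refine ⟨k1, k2, k3, k4, k5, k6, k7, w.1, ?_, ?_, ?_⟩
  · intro y a c
    by_cases e : y = b
    · subst e; exact a3
    · exact (hb y (by omega) c).1
  · intro y a c
    by_cases e : y = b
    · subst e; exact ⟨a1, by omega, by omega⟩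
    by_cases e' : y = b + 1
    · subst e'; exact ⟨a4, by omega, by omega⟩
    obtain ⟨-, -, u, v⟩ := hb (y-1) (by omega) (by omega)
    rw [sub_add_cancel] at u v
    have := (h2 (y-1) (by omega) (by omega)).2
    exact ⟨v, by omega, by omega⟩
  · intro y a c
    by_cases e : y = x - 1 - 1
    · subst e
      have := w.2.1
      exact ⟨by omega, by omega⟩
    · obtain ⟨-, u, -⟩ := hb (y+1) (by omega) (by omega)
      rw [add_sub_cancel_right] at u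
      have := h3 (y+1) (by omega) (by omega)
      exact ⟨by omega, by omega⟩

/-- the carrier meets the slow particle and the mirror is rebuilt -/
theorem ch_catch {t : ℕ} {x b rp lp : ℤ} {Q : ℤ → ℕ} (h : Ch H z0 t x b rp lp 7)
    (hz : zp z0 t = b) (hrp : x < rp) (h5 : b < lp) (h6 : lp < x) (q0 : Q 0 = 7)
    (q1 : ∀ p, p ≠ 0 → p < 2 * (x - b) → Q p = 0) :
    Mach H z0 (t+1) x b 0 Q (b + 1 - lp) := by
  obtain ⟨ho, -, hq, hr, hl, hc, -, hw, h1, h2, h3⟩ := h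
  obtain ⟨hc, hp⟩ := hc hz
  have m := H.step t b 2 0 9 hq (R6 (by omega))
  obtain ⟨m1, m2, m3⟩ := m
  obtain ⟨m3, m4⟩ := m3 (by omega)
  have hb : ∀ y, b < y → y < x → H.c (t+1) y = 0 ∧ H.l (t+1) (y-1) = H.l t y ∧
      H.r (t+1) (y+1) = H.r t y ∧ H.q (t+1) (y+1) := by
    intro y a b
    have := (h2 y a b.le).2
    have := h3 y a b
    exact blank (h2 y a b.le).1 (h1 y a b) (by omega) (by omega)
  have w := H.step t x 1 (H.l t x) 0 (h2 x (by omega) le_rfl).1 (by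
    have := (h2 x (by omega) le_rfl).2
    exact R7 (by omega))
  obtain ⟨a1, a2, -⟩ := out_loc ho (y := b-1) (by omega)
  rw [sub_add_cancel] at a1 a2
  have zz := zp_succ (z0 := z0) t
  refine ⟨out_step' ho (by omega), by omega, a2, a1, m1, w.1, fun y a b => (hb y a b).1, ?_, ?_⟩
  · intro y a c
    rw [q1 _ (by omega) (by omega)]
    by_cases e : y = b + 1
    · subst e; exact ⟨m4, m3⟩
    · obtain ⟨-, -, u, v⟩ := hb (y-1) (by omega) (by omega)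
      rw [sub_add_cancel] at u v
      have := (h2 (y-1) (by omega) (by omega)).2
      exact ⟨v, by omega⟩
  · intro y a c
    by_cases e : y = x - 1
    · subst e; rw [w.2.1, q1 _ (by omega) (by omega)]
    · obtain ⟨-, u, -⟩ := hb (y+1) (by omega) (by omega)
      rw [add_sub_cancel_right] at u
      have := h3 (y+1) (by omega) (by omega)
      by_cases e' : y + 1 = lp
      · rw [show b + 1 - lp + (y - b) = 0 by omega, q0]; omega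
      · rw [q1 _ (by omega) (by omega)]; omega

end Pool.Agent.H63.UP
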