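import Pool.Agent.H63.UP1

set_option autoImplicit false

namespace Pool.Agent.H63.UP

def wd (k i : ℕ) : ℕ := if i = 0 then 4 else k / 4 ^ (i - 1) % 4

def Qs (N : ℕ) (p : ℤ) : ℕ :=
  if p < 0 then 0 else if p = 0 then 7 else wd (p.toNat / (2 * N)) (p.toNat % (2 * N))

def bs (N : ℕ) (p : ℤ) : ℕ :=
  if p ≤ 0 then 0 else
    if 4 ^ ((p.toNat - 1) % (2 * N)) ∣ (p.toNat - 1) / (2 * N) + 1 then 1 else 0

theorem wd_le (k i : ℕ) : wd k i ≤ 4 := by unfold wd; split_ifs <;> omega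

theorem Qs_le (N : ℕ) {p : ℤ} (h : p ≠ 0) : Qs N p ≤ 4 := by
  unfold Qs; split_ifs
  · omega
  · exact wd_le _ _

theorem dm {N k i : ℕ} (hi : i < 2 * N) :
    (2 * N * k + i) / (2 * N) = k ∧ (2 * N * k + i) % (2 * N) = i := by
  constructor
  · rw [Nat.mul_add_div (by omega), Nat.div_eq_of_lt hi, add_zero]
  · rw [Nat.mul_add_mod, Nat.mod_eq_of_lt hi]

theorem Qs_eval {N k i : ℕ} {p : ℤ} (hi : i < 2 * N) (hp : p = ((2 * N * k + i : ℕ) : ℤ))
    (h0 : p ≠ 0) : Qs N p = wd k i := by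
  unfold Qs
  rw [if_neg (by omega), if_neg h0, hp, Int.toNat_natCast, (dm hi).1, (dm hi).2]

theorem bs_eval {N k i : ℕ} {p : ℤ} (hi : i < 2 * N) (hp : p = ((2 * N * k + i : ℕ) : ℤ) + 1) :
    bs N p = if 4 ^ i ∣ k + 1 then 1 else 0 := by
  unfold bs
  rw [if_neg (by omega), show p.toNat - 1 = 2 * N * k + i by omega, (dm hi).1, (dm hi).2]

theorem Qs_small {N : ℕ} {p : ℤ} (h0 : p ≠ 0) (h : p < 2 * N) : Qs N p = 0 := by
  by_cases e : p < 0
  · unfold Qs; rw [if_pos e]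
  · rw [Qs_eval (k := 0) (i := p.toNat) (by omega) (by omega) h0]
    unfold wd; rw [if_neg (by omega)]; simp

theorem mirror {N : ℕ} (hN : 0 < N) {p : ℤ} (h1 : -(N : ℤ) < p)
    (h2 : p < ((2 * N * 4 ^ (2 * N - 1) : ℕ) : ℤ)) :
    ∃ g, g ≤ 3 ∧ relN (2 + bs N p) 0 (Qs N p) (2 + bs N (p+1)) (Qs N (p + 2 * N)) g := by
  rcases lt_trichotomy p 0 with e | e | e
  · refine ⟨0, by omega, R9 ?_⟩
    rw [Qs_small (by omega) (by omega), Qs_small (by omega) (by omega)]
    simp [bs, e.le, show p + 1 ≤ 0 by omega]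
  · subst e
    refine ⟨1, by omega, R13 ?_⟩
    rw [Qs_eval (p := 0 + 2 * N) (k := 1) (i := 0) (by omega) (by omega) (by omega),
      bs_eval (p := 0 + 1) (N := N) (k := 0) (i := 0) (by omega) (by omega)]
    simp [bs, Qs, wd]
  · obtain ⟨k, i, hi, hp⟩ : ∃ k i : ℕ, i < 2 * N ∧ p = ((2 * N * k + i : ℕ) : ℤ) + 1 :=
      ⟨(p.toNat - 1) / (2 * N), (p.toNat - 1) % (2 * N), Nat.mod_lt _ (by omega), by
        rw [Nat.div_add_mod]; omega⟩
    rw [bs_eval hi hp]
    have m1 : 2 * N * (k + 1) = 2 * N * k + 2 * N := by ring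
    by_cases e' : i + 1 < 2 * N
    · rw [bs_eval (p := p + 1) (k := k) e' (by omega), Qs_eval (p := p) (k := k) e' (by omega) (by omega),
        Qs_eval (p := p + 2 * N) (k := k + 1) e' (by omega) (by omega)]
      simp only [wd, Nat.add_one_ne_zero, if_false, Nat.add_sub_cancel]
      have s := @Nat.succ_div k (4 ^ i)
      by_cases d : 4 ^ i ∣ k + 1
      · rw [if_pos d] at s ⊢
        have d2 : 4 ^ (i+1) ∣ k + 1 ↔ 4 ∣ (k + 1) / 4 ^ i := by
          rw [Nat.dvd_div_iff_mul_dvd d, pow_succ]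
        by_cases d3 : 4 ∣ (k + 1) / 4 ^ i
        · rw [if_pos (d2.2 d3)]; exact ⟨0, by omega, R11 (by omega)⟩
        · rw [if_neg (mt d2.1 d3)]; exact ⟨1, by omega, R10 (by omega)⟩
      · rw [if_neg d] at s ⊢
        rw [if_neg (fun h => d ((pow_dvd_pow 4 (Nat.le_succ i)).trans h))]
        exact ⟨0, by omega, R9 (by omega)⟩
    · have m2 : 2 * N * (k + 2) = 2 * N * k + 4 * N := by ring
      rw [bs_eval (p := p + 1) (N := N) (k := k + 1) (i := 0) (by omega) (by omega),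
        Qs_eval (p := p) (N := N) (k := k + 1) (i := 0) (by omega) (by omega) (by omega),
        Qs_eval (p := p + 2 * N) (N := N) (k := k + 2) (i := 0) (by omega) (by omega) (by omega)]
      have lt : k + 1 < 4 ^ (2 * N - 1) := by
        apply Nat.lt_of_mul_lt_mul_left (a := 2 * N); omega
      rw [if_neg (by
        rw [show i = 2 * N - 1 by omega]
        exact fun h => absurd (Nat.le_of_dvd (by omega) h) (by omega))]
      exact ⟨0, by omega, R12 (by simp [wd])⟩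

variable {H : Half} {z0 : ℤ}

theorem stage {t N : ℕ} (hN : 0 < N) {x M τ : ℤ} (hx : x - M = N) (hτ : -(N : ℤ) < τ)
    (h : Mach H z0 t x M (bs N τ) (Qs N) τ) (n : ℕ)
    (hn : τ + n ≤ ((2 * N * 4 ^ (2 * N - 1) : ℕ) : ℤ)) :
    Mach H z0 (t + n) x M (bs N (τ + n)) (Qs N) (τ + n) := by
  induction n with
  | zero => simpa using h
  | succ n ih =>
    have ih := ih (by omega)
    obtain ⟨g, hg, hm⟩ := mirror hN (p := τ + n) (by omega) (by omega)
    have := ord_step (b' := bs N (τ + n + 1)) (g := g) (by omega) ih (fun p _ _ => by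
      by_cases e : p = 0
      · subst e; right; simp [Qs]
      · left; exact Qs_le N e) (fun p a _ => Qs_le N (by omega)) (by rw [hx]; exact hm) hg
    rw [← add_assoc]; push_cast; rw [← add_assoc]; exact this

theorem event {t N s : ℕ} (hN : 0 < N) {x M τ : ℤ} {Q : ℤ → ℕ} (hx : x - M = N)
    (h : Mach H z0 t x M 1 Q τ) (p0 : Q τ = 4)
    (p1 : ∀ p, τ < p → p < τ + 2 * (x - M) → Q p = 0)
    (hs : (s : ℤ) = 2 * (M - z0) + t - 1) (hsN : N + 2 ≤ s) :
    Mach H z0 (t + s + 1) (x - 1) (M - s) 0 (Qs (N - 1 + s)) (1 - 2 * N) := by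
  have hz : ∀ n : ℕ, n < s → zp z0 (t + n) < M - n := by
    intro n hn; unfold zp; omega
  have ph1 : ∀ n : ℕ, n + 1 ≤ N → Ch H z0 (t + (n + 1)) x (M - (n + 1 : ℕ)) (M + (n + 1 : ℕ))
      (M - (n + 1 : ℕ)) 7 := by
    intro n
    induction n with
    | zero => intro _; simpa using pick (by omega) h p0 p1
    | succ n ih =>
      intro hn
      have := ch_step (lp' := M - (n + 1 + 1 : ℕ)) (σ := 7) (by omega) (ih (by omega))
        (hz _ (by omega)) (by omega) (by omega)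
      convert this using 1 <;> omega
  have ph2 := ch_step (lp' := x - 1) (σ := 6) (by omega) (ph1 (N - 1) (by omega))
        (hz _ (by omega)) (by omega) (by omega)
  have ph3 := ch_dep (by omega) ph2 (by have := hz (N - 1 + 1 + 1) (by omega); rw [← add_assoc] at this; omega) (by omega)
  have ph4 : ∀ n : ℕ, N + 2 + n ≤ s → Ch H z0 (t + (N + 2 + n)) (x - 1) (M - (N + 2 + n : ℕ))
      (x + 1 + n) (x - 2 - n) 7 := by
    intro n
    induction n with
    | zero => intro _; convert ph3 using 1 <;> omega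
    | succ n ih =>
      intro hn
      have := ch_step (lp' := x - 2 - (n + 1 : ℕ)) (σ := 7) (by omega) (ih (by omega))
        (hz _ (by omega)) (by omega) (by omega)
      convert this using 1 <;> omega
  have := ch_catch (Q := Qs (N - 1 + s)) (ph4 (s - (N + 2)) (by omega)) (by unfold zp; omega)
    (by omega) (by omega) (by omega) (by simp [Qs]) (fun p a b => Qs_small a (by omega))
  convert this using 1 <;> omega

def Init (H : Half) : Prop := Mach H (-2 - 4 ^ 43) 0 (-1) (-1 - 4 ^ 43) 0 (Qs (4 ^ 43)) 0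

theorem stages (a : ℕ) : ∃ (t N : ℕ) (τ : ℤ), 4 ^ (28 * (a + 1) + 14) < N ∧ -(N : ℤ) < τ ∧ τ ≤ 0 ∧
    zp (-2 - 4 ^ 43) t < -(a + 1 : ℕ) - N ∧
    ∀ H, Init H → Mach H (-2 - 4 ^ 43) t (-(a + 1 : ℕ)) (-(a + 1 : ℕ) - N) 0 (Qs N) τ := by
  induction a with
  | zero =>
    refine ⟨0, 4 ^ 43, 0, by norm_num, by norm_num, le_rfl, by norm_num [zp], fun H h => ?_⟩
    simpa [Init] using h
  | succ a ih =>
    obtain ⟨t, N, τ, h1, h2, h3, h4, h5⟩ := ih
    generalize (-2 - 4 ^ 43 : ℤ) = z0 at *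
    have e1 : 28 * (a + 1) + 14 < 4 ^ (28 * (a + 1) + 14) := Nat.lt_pow_self (by norm_num)
    have e2 : 4 ^ (28 * (a + 1 + 1) + 14) ≤ 4 ^ (2 * N - 1) :=
      Nat.pow_le_pow_right (by norm_num) (by omega)
    have e3 : 4 ^ (2 * N - 1) ≤ 2 * N * 4 ^ (2 * N - 1) := Nat.le_mul_of_pos_left _ (by omega)
    have e4 : 2 * N ≤ 2 * N * 4 ^ (2 * N - 1) := Nat.le_mul_of_pos_right _ (by positivity)
    obtain ⟨D, hD⟩ : ∃ D, D = 2 * N * 4 ^ (2 * N - 1) := ⟨_, rfl⟩
    obtain ⟨n, hn⟩ : ∃ n : ℕ, τ + n = D := ⟨(D - τ).toNat, by omega⟩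
    obtain ⟨s, hs⟩ : ∃ s : ℕ, (s : ℤ) = 2 * (-(a + 1 : ℕ) - N - z0) + (t + n : ℕ) - 1 :=
      ⟨(2 * (-(a + 1 : ℕ) - N - z0) + (t + n : ℕ) - 1).toNat, by unfold zp at h4; omega⟩
    have hs2 : D + 1 ≤ s := by unfold zp at h4; omega
    refine ⟨t + n + s + 1, N - 1 + s, 1 - 2 * N, by omega, by omega, by omega,
      by unfold zp; omega, fun H h => ?_⟩
    have b0 : bs N τ = 0 := by simp [bs, h3]
    have k := stage (N := N) (by omega) (by omega) h2 (b0 ▸ h5 H h) n (by omega)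
    have m1 : 2 * N * (4 ^ (2 * N - 1) - 1) + 2 * N = D := by
      rw [hD, ← Nat.mul_succ]; congr 1
      have : 0 < 4 ^ (2 * N - 1) := by positivity
      omega
    rw [hn, bs_eval (N := N) (k := 4 ^ (2 * N - 1) - 1) (i := 2 * N - 1) (by omega) (by omega),
      if_pos (by rw [Nat.sub_add_cancel (Nat.one_le_pow _ _ (by norm_num))])] at k
    have := event (N := N) (s := s) (by omega) (by omega) k
      (by rw [Qs_eval (N := N) (k := 4 ^ (2 * N - 1)) (i := 0) (by omega) (by omega) (by omega)]; rfl)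
      (fun p u v => by
        rw [Qs_eval (N := N) (k := 4 ^ (2 * N - 1)) (i := (p - D).toNat) (by omega) (by omega)
          (by omega)]
        unfold wd
        rw [if_neg (by omega), Nat.pow_div (by omega) (by norm_num)]
        obtain ⟨m, hm⟩ : ∃ m, 2 * N - 1 - ((p - D).toNat - 1) = m + 1 := ⟨_, (Nat.sub_add_cancel (by omega)).symm⟩
        rw [hm, pow_succ]; omega) hs (by omega)
    convert this using 1 <;> omega

theorem digits_ex (L : ℕ) (u : ℕ → ℕ) (hu : ∀ n, u n < 4) :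
    ∃ k, 1 ≤ k ∧ k < 4 ^ (L + 1) ∧ ∀ n, n < L → k / 4 ^ n % 4 = u n := by
  induction L generalizing u with
  | zero => exact ⟨1, le_rfl, by norm_num, fun n h => absurd h (by omega)⟩
  | succ L ih =>
    obtain ⟨k, h1, h2, h3⟩ := ih (fun n => u (n + 1)) (fun n => hu _)
    have := hu 0
    refine ⟨4 * k + u 0, by omega, by rw [pow_succ]; omega, fun n hn => ?_⟩
    rcases n with _ | n
    · simp; omega
    · rw [pow_succ', ← Nat.div_div_eq_div_mul, show (4 * k + u 0) / 4 = k by omega]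
      exact h3 n (by omega)

theorem machine (a : ℕ) (u : ℕ → ℕ) (hu : ∀ n, u n < 4) : ∃ t : ℕ, ∀ H, Init H →
    ∀ n, n < 4 ^ (28 * (a + 1) + 14) → H.c (t + n) (-(a + 1 : ℕ)) = 1 ∧
      H.q (t + n) (-(a + 1 : ℕ)) ∧ H.r (t + n) (-(a + 1 : ℕ)) = u n := by
  obtain ⟨t, N, τ, h1, h2, h3, h4, h5⟩ := stages a
  generalize 4 ^ (28 * (a + 1) + 14) = L at *
  obtain ⟨k, k1, k2, k3⟩ := digits_ex L u hu
  have e2 : 4 ^ (L + 1) ≤ 4 ^ (2 * N - 1) := Nat.pow_le_pow_right (by norm_num) (by omega)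
  have e3 : 2 * N * (k + 1) ≤ 2 * N * 4 ^ (2 * N - 1) := Nat.mul_le_mul_left _ (by omega)
  have e4 : 2 * N ≤ 2 * N * k := Nat.le_mul_of_pos_right _ (by omega)
  have m1 : 2 * N * (k + 1) = 2 * N * k + 2 * N := by ring
  obtain ⟨m, hm⟩ : ∃ m : ℕ, τ + m + N = (2 * N * k : ℕ) + 1 :=
    ⟨((2 * N * k : ℕ) + 1 - N - τ).toNat, by omega⟩
  refine ⟨t + m, fun H h n hn => ?_⟩
  have b0 : bs N τ = 0 := by simp [bs, h3]
  have := stage (N := N) (by omega) (by omega) h2 (b0 ▸ h5 H h) (m + n) (by omega)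
  rw [← add_assoc] at this
  obtain ⟨-, -, -, -, -, w, -, w2, -⟩ := this
  obtain ⟨w2, w3⟩ := w2 _ (by omega) le_rfl
  refine ⟨w, w2, ?_⟩
  rw [w3, Qs_eval (N := N) (k := k) (i := n + 1) (by omega) (by omega) (by omega)]
  simp only [wd, Nat.add_one_ne_zero, if_false, Nat.add_sub_cancel]
  exact k3 n hn

end Pool.Agent.H63.UP
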