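import Mathlib

set_option autoImplicit false

namespace Pool.Agent.H63.UP

variable {X I : Type}

def run (δ : I → X → X) (u : ℕ → I) (x : X) : ℕ → X
  | 0 => x
  | n + 1 => δ (u n) (run δ u x n)

def Rch (δ : I → X → X) : X → X → Prop := Relation.ReflTransGen (fun x z => ∃ i, δ i x = z)

variable {δ : I → X → X}

theorem Rch.one (i : I) (x : X) : Rch δ x (δ i x) := Relation.ReflTransGen.single ⟨i, rfl⟩
theorem Rch.refl (x : X) : Rch δ x x := Relation.ReflTransGen.refl
theorem Rch.trans {x y z : X} (h : Rch δ x y) (h' : Rch δ y z) : Rch δ x z :=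
  Relation.ReflTransGen.trans h h'

theorem run_add (u : ℕ → I) (x : X) (m n : ℕ) :
    run δ u x (m + n) = run δ (fun k => u (m + k)) (run δ u x m) n := by
  induction n with
  | zero => rfl
  | succ n ih => rw [← add_assoc, run, ih]; rfl

theorem run_congr {u v : ℕ → I} (x : X) (n : ℕ) (h : ∀ k, k < n → u k = v k) :
    run δ u x n = run δ v x n := by
  induction n with
  | zero => rfl
  | succ n ih => rw [run, run, ih (fun k hk => h k (by omega)), h n (by omega)]

theorem pre_closed [Finite I] {T A : Set X} (hT : T.Finite) (hA : A ⊆ T) (o : X → I)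
    (hm : ∀ i, ∀ x ∈ A, δ i x ∈ A)
    (inj : ∀ x ∈ T, ∀ x' ∈ T, ∀ i i', δ i x = δ i' x' → o x = o x' → x = x' ∧ i = i')
    {y : X} (hy : y ∈ A) (j : I) : ∃ x ∈ A, ∃ i, δ i x = y ∧ o x = j := by
  have hf : (A ×ˢ (Set.univ : Set I)).Finite := (hT.subset hA).prod Set.finite_univ
  have := (hf.injOn_iff_bijOn_of_mapsTo (f := fun p => (δ p.2 p.1, o p.1))
    (fun p hp => ⟨hm _ _ hp.1, trivial⟩)).1 (fun p hp p' hp' e => by
      obtain ⟨a, b⟩ := inj _ (hA hp.1) _ (hA hp'.1) _ _ (congrArg Prod.fst e) (congrArg Prod.snd e)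
      exact Prod.ext a b)
  obtain ⟨p, hp, e⟩ := this.surjOn (show (y, j) ∈ A ×ˢ Set.univ from ⟨hy, trivial⟩)
  exact ⟨p.1, hp.1, p.2, congrArg Prod.fst e, congrArg Prod.snd e⟩

theorem rch_symm [Finite I] {T : Set X} (hT : T.Finite) (o : X → I)
    (hm : ∀ i x, δ i x ∈ T)
    (inj : ∀ x ∈ T, ∀ x' ∈ T, ∀ i i', δ i x = δ i' x' → o x = o x' → x = x' ∧ i = i')
    {x y : X} (hx : x ∈ T) (h : Rch δ x y) : y ∈ T ∧ Rch δ y x := by
  induction h with
  | refl => exact ⟨hx, Rch.refl _⟩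
  | @tail b c _ h ih =>
    obtain ⟨i, rfl⟩ := h
    refine ⟨hm _ _, Rch.trans ?_ ih.2⟩
    obtain ⟨z, hz, i', e1, e2⟩ := pre_closed (A := {z | z ∈ T ∧ Rch δ (δ i b) z}) hT
      (fun _ h => h.1) o (fun j z hz => ⟨hm _ _, hz.2.trans (Rch.one _ _)⟩) inj
      ⟨hm i b, Rch.refl _⟩ (o b)
    obtain ⟨rfl, -⟩ := inj _ hz.1 _ ih.1 _ _ e1 e2
    exact hz.2

def Gd (δ : I → X → X) (Y : X → Prop) : ℕ → X → Prop
  | 0 => fun _ => False
  | n + 1 => fun x => Y x ∨ ∃ i, Gd δ Y n (δ i x)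

theorem Gd_mono {Y : X → Prop} (n : ℕ) (x : X) (h : Gd δ Y n x) : Gd δ Y (n + 1) x := by
  induction n generalizing x with
  | zero => exact h.elim
  | succ n ih =>
    rcases h with h | ⟨i, h⟩
    · exact Or.inl h
    · exact Or.inr ⟨i, ih _ h⟩

theorem Gd_word [Nonempty I] {Y : X → Prop} (n : ℕ) (x : X) (h : Gd δ Y n x) :
    ∃ u m, m < n ∧ Y (run δ u x m) := by
  induction n generalizing x with
  | zero => exact h.elim
  | succ n ih =>
    rcases h with h | ⟨i, h⟩
    · exact ⟨fun _ => Classical.arbitrary I, 0, by omega, h⟩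
    · obtain ⟨u, m, a, b⟩ := ih _ h
      refine ⟨fun k => if k = 0 then i else u (k - 1), 1 + m, by omega, ?_⟩
      rw [run_add]
      convert b using 1
      exact run_congr _ _ (fun k _ => by simp)

theorem Gd_all {T : Set X} (hT : T.Finite) (hm : ∀ i x, δ i x ∈ T) {Y : X → Prop}
    (h : ∀ x ∈ T, ∃ y, Rch δ x y ∧ Y y) (n : ℕ) :
    (∀ x ∈ T, Gd δ Y n x) ∨ n ≤ {x | x ∈ T ∧ Gd δ Y n x}.ncard := by
  induction n with
  | zero => exact Or.inr (Nat.zero_le _)
  | succ n ih =>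
    rcases ih with ih | ih
    · exact Or.inl fun x hx => Gd_mono _ _ (ih x hx)
    by_cases e : ∀ x ∈ T, Gd δ Y (n + 1) x → Gd δ Y n x
    · left
      intro x hx
      obtain ⟨y, h1, h2⟩ := h x hx
      clear hx
      induction h1 using Relation.ReflTransGen.head_induction_on with
      | refl => exact Or.inl h2
      | head a _ c =>
        obtain ⟨i, rfl⟩ := a
        exact Or.inr ⟨i, e _ (hm _ _) c⟩
    · right
      push Not at e
      obtain ⟨x, a, b, c⟩ := e
      refine Nat.succ_le_of_lt (ih.trans_lt (Set.ncard_lt_ncard ⟨fun z hz => ⟨hz.1, Gd_mono _ _ hz.2⟩,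
        fun s => c (s ⟨a, b⟩).2⟩ (hT.subset fun _ h => h.1)))

theorem universal [Nonempty I] {T : Set X} (hT : T.Finite) (hm : ∀ i x, δ i x ∈ T) {Y : X → Prop}
    (h : ∀ x ∈ T, ∃ y, Rch δ x y ∧ Y y) {K : ℕ} (hK : T.ncard < K) :
    ∃ u, ∀ x ∈ T, ∃ n, n ≤ K * K ∧ Y (run δ u x n) := by
  classical
  have g : ∀ x ∈ T, ∃ u m, m < K ∧ Y (run δ u x m) := fun x hx =>
    Gd_word _ _ ((Gd_all hT hm h K).resolve_right (fun e => absurd
      (e.trans (Set.ncard_le_ncard (fun _ h => h.1) hT)) (by omega)) x hx)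
  have key : ∀ s : Finset X, (∀ x ∈ s, x ∈ T) →
      ∃ u, ∀ x ∈ s, ∃ n, n ≤ s.card * K ∧ Y (run δ u x n) := by
    intro s
    induction s using Finset.induction_on with
    | empty => exact fun _ => ⟨fun _ => Classical.arbitrary I, by simp⟩
    | insert x s hx ih =>
      intro hs
      obtain ⟨u, hu⟩ := ih (fun z hz => hs z (Finset.mem_insert_of_mem hz))
      have hz : run δ u x (s.card * K) ∈ T := by
        rcases s.card * K with _ | m
        · exact hs x (Finset.mem_insert_self _ _)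
        · exact hm _ _
      obtain ⟨v, m, a, b⟩ := g _ hz
      refine ⟨fun k => if k < s.card * K then u k else v (k - s.card * K), fun z hz => ?_⟩
      rw [Finset.card_insert_of_notMem hx, Nat.succ_mul]
      rcases Finset.mem_insert.1 hz with rfl | hz
      · refine ⟨s.card * K + m, by omega, ?_⟩
        rw [run_add, run_congr (v := u) z (s.card * K) (fun k hk => if_pos hk)]
        convert b using 1
        exact run_congr _ _ (fun k _ => by simp)
      · obtain ⟨n, c, d⟩ := hu z hz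
        refine ⟨n, by omega, ?_⟩
        rwa [run_congr (v := u) z n (fun k hk => if_pos (by omega))]
  obtain ⟨u, hu⟩ := key hT.toFinset (by simp)
  refine ⟨u, fun x hx => ?_⟩
  obtain ⟨n, a, b⟩ := hu x (by simpa using hx)
  rw [← Set.ncard_eq_toFinset_card T hT] at a
  exact ⟨n, a.trans (Nat.mul_le_mul_right _ hK.le), b⟩

end Pool.Agent.H63.UP
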