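import Pool.Agent.H63.UP2
import Pool.Agent.H63.UP3

set_option autoImplicit false
open Function

namespace Pool.Agent.H63.UP
noncomputable section

theorem rel_bd {c r l a b d : ℕ} (h : relN c r l a b d) :
    c ≤ 4 ∧ a ≤ 4 ∧ (l < 13 → b < 13) ∧ d < 13 := by
  rcases h with h|h|h|h|h|h|h|h|h|h|h|h|h|h <;> omega

theorem rel_fun {c r l a b d a' b' d' : ℕ} (h : relN c r l a b d) (h' : relN c r l a' b' d') :
    a = a' ∧ b = b' ∧ d = d' := by
  rcases h with h|h|h|h|h|h|h|h|h|h|h|h|h|h <;>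
  rcases h' with h'|h'|h'|h'|h'|h'|h'|h'|h'|h'|h'|h'|h'|h' <;> omega

theorem rel_inj {c r l c' r' l' a b d : ℕ} (h : relN c r l a b d) (h' : relN c' r' l' a b d) :
    c = c' ∧ r = r' ∧ l = l' := by
  rcases h with h|h|h|h|h|h|h|h|h|h|h|h|h|h <;>
  rcases h' with h'|h'|h'|h'|h'|h'|h'|h'|h'|h'|h'|h'|h'|h' <;> omega

theorem rel_fun2 {r l a b d a' b' d' : ℕ} (h : relN 0 r l a b d) (h' : relN 0 l r a' d' b') :
    a = 0 ∧ a' = 0 ∧ b = b' ∧ d = d' := by
  rcases h with h|h|h|h|h|h|h|h|h|h|h|h|h|h <;>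
  rcases h' with h'|h'|h'|h'|h'|h'|h'|h'|h'|h'|h'|h'|h'|h' <;> omega

theorem rel_inj2 {c r l c' r' l' b d : ℕ} (h : relN c r l 0 b d) (h' : relN c' l' r' 0 d b) :
    c = 0 ∧ c' = 0 ∧ r = r' ∧ l = l' := by
  rcases h with h|h|h|h|h|h|h|h|h|h|h|h|h|h <;>
  rcases h' with h'|h'|h'|h'|h'|h'|h'|h'|h'|h'|h'|h'|h'|h' <;> omega

abbrev D := Fin 9 × Fin 13 × Fin 13
abbrev S := D × Bool × Bool

def flN (c : ℕ) : ℕ := if c = 0 then 0 else if c ≤ 4 then c + 4 else c - 4

theorem flN_spec (c : ℕ) : (c = 0 ∧ flN c = 0) ∨ (0 < c ∧ c ≤ 4 ∧ flN c = c + 4) ∨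
    (4 < c ∧ flN c + 4 = c) := by unfold flN; split_ifs <;> omega

def Rel2 (x y : D) : Prop :=
  relN x.1 x.2.1 x.2.2 y.1 y.2.1 y.2.2 ∨ relN (flN x.1) x.2.2 x.2.1 (flN y.1) y.2.2 y.2.1

theorem D_ext {x y : D} (h : x.1.val = y.1 ∧ x.2.1.val = y.2.1 ∧ x.2.2.val = y.2.2) : x = y :=
  Prod.ext (Fin.ext h.1) (Prod.ext (Fin.ext h.2.1) (Fin.ext h.2.2))

theorem ex_pi : ∃ π : Equiv.Perm D, ∀ x y, Rel2 x y → π x = y := by
  obtain ⟨π, h⟩ := Equiv.Perm.exists_extending_pair (α := {p : D × D // Rel2 p.1 p.2})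
    (fun p => p.1.1) (fun p => p.1.2) (by
      rintro ⟨⟨x, y⟩, h⟩ ⟨⟨x', y'⟩, h'⟩ e
      dsimp only at e h h'
      subst e
      refine Subtype.ext (Prod.ext rfl (D_ext ?_))
      dsimp only
      have s1 := flN_spec x.1
      have s2 := flN_spec y.1
      have s3 := flN_spec y'.1
      have := x.1.2; have := y.1.2; have := y'.1.2
      rcases h with h | h <;> rcases h' with h' | h'
      · exact rel_fun h h'
      · have := rel_bd h; have := rel_bd h'
        rw [show x.1.val = 0 by omega] at h h'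
        have := rel_fun2 h h'; omega
      · have := rel_bd h; have := rel_bd h'
        rw [show x.1.val = 0 by omega] at h h'
        have := rel_fun2 h' h; omega
      · have := rel_fun h h'; omega) (by
      rintro ⟨⟨x, y⟩, h⟩ ⟨⟨x', y'⟩, h'⟩ e
      dsimp only at e h h'
      subst e
      refine Subtype.ext (Prod.ext (D_ext ?_) rfl)
      dsimp only
      have s1 := flN_spec x.1
      have s2 := flN_spec y.1
      have s3 := flN_spec x'.1
      have := x.1.2; have := y.1.2; have := x'.1.2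
      rcases h with h | h <;> rcases h' with h' | h'
      · exact rel_inj h h'
      · have := rel_bd h; have := rel_bd h'
        rw [show y.1.val = 0 by omega] at h h'
        have := rel_inj2 h h'; omega
      · have := rel_bd h; have := rel_bd h'
        rw [show y.1.val = 0 by omega] at h h'
        have := rel_inj2 h' h; omega
      · have := rel_inj h h'; omega)
  exact ⟨π, fun x y r => h ⟨(x, y), r⟩⟩

theorem ex_sg : ∃ σ : Equiv.Perm D, ∀ x y, ∃ n, σ^[n] x = y := by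
  have e : D ≃ ZMod 1521 := Fintype.equivOfCardEq (by simp)
  refine ⟨(e.trans (Equiv.addRight 1)).trans e.symm, fun x y => ⟨(e y - e x).val, ?_⟩⟩
  have : ∀ n : ℕ, ((e.trans (Equiv.addRight 1)).trans e.symm)^[n] x = e.symm (e x + n) := by
    intro n
    induction n with
    | zero => simp
    | succ n ih => rw [iterate_succ_apply', ih]; simp [add_assoc]
  rw [this]; simp

def pi : Equiv.Perm D := ex_pi.choose
def sg : Equiv.Perm D := ex_sg.choose

def bh (d : D) : Bool := decide (d.1.val = 1 ∧ d.2.2.val / 2 = 1)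
def bg (d : D) : Bool := decide (d.1.val = 5 ∧ d.2.1.val % 2 = 1)
def p1 (v : S) : D := pi (if v.2.1 = true ∧ v.2.2 = true then sg v.1 else v.1)
def P (v : S) : S := (p1 v, xor v.2.1 (bh (p1 v)), xor v.2.2 (bg (p1 v)))

theorem P_inj : Injective P := by
  rintro ⟨d, h, g⟩ ⟨d', h', g'⟩ e
  simp only [P, Prod.mk.injEq] at e
  obtain ⟨e1, e2, e3⟩ := e
  rw [e1] at e2 e3
  obtain rfl : h = h' := by simpa using e2
  obtain rfl : g = g' := by simpa using e3
  have := pi.injective e1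
  dsimp only at this
  split_ifs at this
  · rw [sg.injective this]
  · rw [this]

theorem P_left {v : S} {a b d : ℕ} (hq : v.2.1 = false) (h : relN v.1.1 v.1.2.1 v.1.2.2 a b d) :
    (P v).1.1 = a ∧ (P v).1.2.1 = b ∧ (P v).1.2.2 = d ∧
      (P v).2.1 = decide (a = 1 ∧ d / 2 = 1) ∧ (P v).2.2 = v.2.2 := by
  have := rel_bd h
  have := v.1.2.2.2
  have e : p1 v = (⟨a, by omega⟩, ⟨b, by omega⟩, ⟨d, by omega⟩) := by
    unfold p1; rw [if_neg (by simp [hq])]
    exact ex_pi.choose_spec _ _ (Or.inl h)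
  simp [P, e, bh, bg, hq, show a ≠ 5 by omega]

theorem P_right {v : S} {a b d : ℕ} (hq : v.2.2 = false)
    (h : relN (flN v.1.1) v.1.2.2 v.1.2.1 a b d) :
    flN (P v).1.1 = a ∧ (P v).1.2.2 = b ∧ (P v).1.2.1 = d ∧
      (P v).2.2 = decide (a = 1 ∧ d % 2 = 1) ∧ (P v).2.1 = v.2.1 := by
  have := rel_bd h
  have := v.1.2.1.2
  have s1 := flN_spec a
  have s2 := flN_spec (flN a)
  have e0 : flN (flN a) = a := by omega
  have e : p1 v = (⟨flN a, by omega⟩, ⟨d, by omega⟩, ⟨b, by omega⟩) := by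
    unfold p1; rw [if_neg (by simp [hq])]
    exact ex_pi.choose_spec _ _ (Or.inr (by simpa [e0] using h))
  simp [P, e, bh, bg, hq, e0, show flN a ≠ 1 by omega, show flN a = 5 ↔ a = 1 by omega]

def Mv (o : ℤ → S) (i : ℤ) : S :=
  (((o i).1.1, (o (i-1)).1.2.1, (o (i+1)).1.2.2), (o (i-1)).2.1, (o (i+1)).2.2)

def F (y : ℤ → S) : ℤ → S := Mv fun i => P (y i)

def z : S := ((0, 0, 0), false, false)

theorem P_z : P z = z := by
  obtain ⟨a, b, c, d, e⟩ := P_left (v := z) (a := 0) (b := 0) (d := 0) rfl (R1 (by simp [z]))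
  exact Prod.ext (D_ext ⟨a, b, c⟩) (Prod.ext (by rw [d]; rfl) e)

theorem Mv_inj : Injective Mv := by
  intro o o' e
  funext i
  have a := congrFun e i
  have b := congrFun e (i+1)
  have c := congrFun e (i-1)
  simp only [Mv, Prod.mk.injEq, add_sub_cancel_right, sub_add_cancel] at a b c
  exact Prod.ext (Prod.ext a.1.1 (Prod.ext b.1.2.1 c.1.2.2)) (Prod.ext b.2.1 c.2.2)

theorem Mv_h (o : ℤ → S) (p : ℤ) (b : Bool) :
    Mv (update o p ((o p).1, b, (o p).2.2)) =
      update (Mv o) (p+1) ((Mv o (p+1)).1, b, (Mv o (p+1)).2.2) := by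
  funext i
  simp only [Mv, update_apply]
  split_ifs <;> first | omega | simp_all

theorem Mv_g (o : ℤ → S) (p : ℤ) (b : Bool) :
    Mv (update o p ((o p).1, (o p).2.1, b)) =
      update (Mv o) (p-1) ((Mv o (p-1)).1, (Mv o (p-1)).2.1, b) := by
  funext i
  simp only [Mv, update_apply]
  split_ifs <;> first | omega | simp_all

def vL (x : ℤ → S) : Half where
  c t y := (F^[t] x y).1.1
  r t y := (F^[t] x y).1.2.1
  l t y := (F^[t] x y).1.2.2
  q t y := (F^[t] x y).2.1 = false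
  step t y c' r' l' hq h := by
    obtain ⟨a, b, c, d, -⟩ := P_left hq h
    simp only [iterate_succ_apply', F, Mv, sub_add_cancel, add_sub_cancel_right]
    exact ⟨a, c, fun e => ⟨b, by rw [d]; simp [e]⟩⟩

def vR (x : ℤ → S) : Half where
  c t y := flN (F^[t] x (-y)).1.1
  r t y := (F^[t] x (-y)).1.2.2
  l t y := (F^[t] x (-y)).1.2.1
  q t y := (F^[t] x (-y)).2.2 = false
  step t y c' r' l' hq h := by
    obtain ⟨a, b, c, d, -⟩ := P_right hq h
    simp only [iterate_succ_apply', F, Mv, show -(y - 1) - 1 = -y by ring,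
      show -(y + 1) + 1 = -y by ring]
    exact ⟨a, c, fun e => ⟨b, by rw [d]; simp [e]⟩⟩

def x0 (N : ℤ) (i : ℤ) : S :=
  if i = -1 then ((1, 0, 0), false, false) else if i = 1 then ((5, 0, 0), false, false) else
  if i = -1 - N then ((2, 0, 7), false, false) else if i = 1 + N then ((6, 7, 0), false, false) else
  if i = -2 - N then ((0, 0, 9), false, false) else if i = 2 + N then ((0, 9, 0), false, false)
  else z

theorem x0_fin (N : ℤ) : {i | x0 N i ≠ z}.Finite := by
  refine (Set.toFinite {-1, 1, -1 - N, 1 + N, -2 - N, 2 + N}).subset fun i hi => ?_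
  by_contra h
  simp only [Set.mem_insert_iff, Set.mem_singleton_iff, not_or] at h
  exact hi (by simp [x0, h])

theorem init_of {H : Half} {N : ℕ} (hN : 0 < N)
    (h : ∀ y, y ≤ -1 → H.q 0 y ∧ H.r 0 y = 0 ∧ H.c 0 y = (x0 N y).1.1 ∧ H.l 0 y = (x0 N y).1.2.2) :
    Mach H (-2 - N) 0 (-1) (-1 - N) 0 (Qs N) 0 := by
  have hz : zp (-2 - N) 0 = -2 - N := by simp [zp]
  refine ⟨fun y hy => ?_, by omega, (h _ (by omega)).1, (h _ (by omega)).2.1, ?_, ?_,
    fun y a b => ?_, fun y a b => ?_, fun y a b => ?_⟩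
  · obtain ⟨a, b, c, d⟩ := h y (by omega)
    rw [hz, c, d]
    refine ⟨a, b, ?_⟩
    unfold x0
    split_ifs <;> first | omega | simp_all [z]
  · rw [(h _ (by omega)).2.2.1]; unfold x0; split_ifs <;> first | omega | simp_all [z]
  · rw [(h _ (by omega)).2.2.1]; simp [x0]
  · rw [(h _ (by omega)).2.2.1]; unfold x0; split_ifs <;> first | omega | simp_all [z]
  · rw [Qs_small (by omega) (by omega)]; exact ⟨(h y b).1, (h y b).2.1⟩
  · rw [(h _ (by omega)).2.2.2]
    by_cases e : y = -1 - N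
    · rw [show 0 + (y - (-1 - N)) = 0 by omega]
      unfold x0; split_ifs <;> first | omega | simp_all [z, Qs]
    · rw [Qs_small (by omega) (by omega)]
      unfold x0; split_ifs <;> first | omega | simp_all [z]

theorem initL : Init (vL (x0 (4 ^ 43 : ℕ))) := by
  have := init_of (H := vL (x0 (4 ^ 43 : ℕ))) (N := 4 ^ 43) (by positivity) (fun y hy => by
    have : (0 : ℤ) < (4 ^ 43 : ℕ) := by positivity
    generalize ((4 ^ 43 : ℕ) : ℤ) = N at *
    simp only [vL, iterate_zero, id]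
    refine ⟨?_, ?_, trivial, trivial⟩ <;> unfold x0 <;> split_ifs <;> first | omega | rfl)
  simpa [Init] using this

theorem initR : Init (vR (x0 (4 ^ 43 : ℕ))) := by
  have := init_of (H := vR (x0 (4 ^ 43 : ℕ))) (N := 4 ^ 43) (by positivity) (fun y hy => by
    have : (0 : ℤ) < (4 ^ 43 : ℕ) := by positivity
    generalize ((4 ^ 43 : ℕ) : ℤ) = N at *
    simp only [vR, iterate_zero, id]
    refine ⟨?_, ?_, ?_, ?_⟩ <;> unfold x0 <;> split_ifs <;> first | omega | rfl)
  simpa [Init] using this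

end
end Pool.Agent.H63.UP
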