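import Pool.Agent.H63.UP4

set_option autoImplicit false
open Function

namespace Pool.Agent.H63.UP
noncomputable section

def Ot (a : ℤ) (j : Bool × Bool) (y : ℤ → S) (i : ℤ) : S :=
  if i = -a then ((0, (y i).1.2.2, 0), j.1, false) else
  if i = a then ((0, 0, (y i).1.2.1), false, j.2) else
  if -a < i ∧ i < a then P (y i) else z

def U (a : ℤ) (j : Bool × Bool) (y : ℤ → S) : ℤ → S := Mv (Ot a j y)

def Cut (a : ℤ) (y : ℤ → S) (i : ℤ) : S :=
  if i = -a then ((0, 0, (y i).1.2.2), false, (y i).2.2) else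
  if i = a then ((0, (y i).1.2.1, 0), (y i).2.1, false) else
  if -a < i ∧ i < a then y i else z

def Nrm (a : ℤ) : Set (ℤ → S) := {y | Cut a y = y}

variable {a : ℤ}

theorem Cut_nrm (y : ℤ → S) : Cut a y ∈ Nrm a := by
  funext i
  simp only [Cut]
  split_ifs <;> rfl

theorem U_nrm (ha : 0 < a) (j : Bool × Bool) (y : ℤ → S) : U a j y ∈ Nrm a := by
  funext i
  simp only [Cut, U, Mv, Ot]
  split_ifs <;> first | omega | rfl

theorem Ot_inj (ha : 0 < a) : ∀ y ∈ Nrm a, ∀ y' ∈ Nrm a, ∀ j j', U a j y = U a j' y' →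
    ((y a).2.1, (y (-a)).2.2) = ((y' a).2.1, (y' (-a)).2.2) → y = y' ∧ j = j' := by
  intro y hy y' hy' j j' e o
  have e := Mv_inj e
  have e1 := congrFun e (-a)
  have e2 := congrFun e a
  simp only [Ot, if_true, if_neg (show ¬ a = -a by omega), Prod.mk.injEq] at e1 e2 o
  refine ⟨?_, Prod.ext e1.2.1 e2.2.2⟩
  rw [← show Cut a y = y from hy, ← show Cut a y' = y' from hy']
  funext i
  have e3 := congrFun e i
  simp only [Ot] at e3
  simp only [Cut]
  split_ifs at e3 ⊢ with h1 h2 h3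
  · subst h1; rw [e1.1.2.1, o.2]
  · subst h2; rw [e2.1.2.2, o.1]
  · exact P_inj e3
  · rfl

theorem Nrm_card (n : ℕ) : (Nrm (n : ℤ)).Finite ∧ (Nrm (n : ℤ)).ncard < 4 ^ (7 * (2 * n + 1)) := by
  have inj : Set.InjOn (fun (y : ℤ → S) (i : Finset.Icc (-(n : ℤ)) n) => y i) (Nrm n) := by
    intro y hy y' hy' e
    funext i
    by_cases h : i ∈ Finset.Icc (-(n : ℤ)) n
    · exact congrFun e ⟨i, h⟩
    · rw [← show Cut n y = y from hy, ← show Cut n y' = y' from hy']
      rw [Finset.mem_Icc] at h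
      simp only [Cut]
      split_ifs <;> first | omega | rfl
  refine ⟨Set.Finite.of_finite_image (Set.toFinite _) inj, ?_⟩
  refine (Set.ncard_le_ncard_of_injOn (t := Set.univ) _ (fun _ _ => trivial) inj).trans_lt ?_
  rw [Set.ncard_univ, Nat.card_eq_fintype_card, Fintype.card_fun, Fintype.card_coe, Int.card_Icc,
    show ((n : ℤ) + 1 - -n).toNat = 2 * n + 1 by omega, pow_mul]
  exact Nat.pow_lt_pow_left (by simp) (by omega)

theorem upd_nrm {y : ℤ → S} (hy : y ∈ Nrm a) {p : ℤ} (h1 : -a < p) (h2 : p < a) (v : S) :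
    update y p v ∈ Nrm a := by
  funext i
  by_cases e : i = p
  · subst e; simp only [Cut]; split_ifs <;> first | omega | rfl
  · have := congrFun (show Cut a y = y from hy) i
    simpa only [Cut, update_of_ne e] using this

theorem Ot_upd (j : Bool × Bool) (y : ℤ → S) {p : ℤ} (h1 : -a < p) (h2 : p < a) (v : S) :
    Ot a j (update y p v) = update (Ot a j y) p (P v) := by
  funext i
  by_cases e : i = p
  · subst e; simp only [Ot, update_self]; split_ifs <;> first | omega | rfl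
  · simp only [Ot, update_of_ne e]

def Fr (a p : ℤ) : Prop := ∀ y ∈ Nrm a, ∀ v, Rch (U a) y (update y p v)
def FH (a p : ℤ) : Prop := ∀ y ∈ Nrm a, ∀ b, Rch (U a) y (update y p ((y p).1, b, (y p).2.2))
def FG (a p : ℤ) : Prop := ∀ y ∈ Nrm a, ∀ b, Rch (U a) y (update y p ((y p).1, (y p).2.1, b))

section
variable (ha : 0 < a) (hf : (Nrm a).Finite)
include ha hf

theorem sym {x y : ℤ → S} (hx : x ∈ Nrm a) (h : Rch (U a) x y) : Rch (U a) y x :=
  (rch_symm hf _ (U_nrm ha) (Ot_inj ha) hx h).2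

theorem pre {y : ℤ → S} (hy : y ∈ Nrm a) : ∃ x ∈ Nrm a, ∃ j, U a j x = y := by
  obtain ⟨x, hx, j, e, -⟩ := pre_closed hf le_rfl _ (fun j x _ => U_nrm ha j x) (Ot_inj ha) hy
    (false, false)
  exact ⟨x, hx, j, e⟩

theorem fr_of {p : ℤ} (h1 : -a < p) (h2 : p < a) (hh : FH a p) (hg : FG a (p - 1)) : Fr a p := by
  intro y hy
  let E : S → S → Prop := fun v w => Rch (U a) (update y p v) (update y p w)
  have Es : ∀ v w, E v w → E w v := fun v w h => sym ha hf (upd_nrm hy h1 h2 v) h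
  have Eh : ∀ d h g b, E (d, h, g) (d, b, g) := fun d h g b => by
    simpa using hh _ (upd_nrm hy h1 h2 (d, h, g)) b
  have Eg : ∀ v w, (P v).1 = (P w).1 → (P v).2.1 = (P w).2.1 → E v w := fun v w e1 e2 => by
    refine (Rch.one (false, false) _).trans ((hg _ (U_nrm ha _ _) (P w).2.2).trans
      (sym ha hf (upd_nrm hy h1 h2 w) ?_))
    unfold U
    rw [← Mv_g, Ot_upd _ _ h1 h2, update_idem, update_self, e1, e2, ← Ot_upd _ _ h1 h2]
    exact Rch.one _ _
  have E0 : ∀ d g, E (d, false, g) (d, false, false) := fun d g =>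
    Eg _ _ (by simp [P, p1]) (by simp [P, p1])
  have E1 : ∀ d, E (d, false, false) (sg d, false, false) := fun d =>
    (Es _ _ (E0 d true)).trans ((Eh d false true true).trans
      ((Eg (d, true, true) (sg d, true, false) (by simp [P, p1]) (by simp [P, p1])).trans
        (Eh _ _ _ _)))
  have E2 : ∀ n d, E (d, false, false) (sg^[n] d, false, false) := fun n d => by
    induction n with
    | zero => exact Rch.refl _
    | succ n ih => rw [iterate_succ_apply']; exact ih.trans (E1 _)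
  have E3 : ∀ v : S, E v (v.1, false, false) := fun v => (Eh _ _ _ _).trans (E0 _ _)
  intro v
  obtain ⟨n, hn⟩ := ex_sg.choose_spec (y p).1 v.1
  have := (E3 (y p)).trans ((E2 n _).trans (Es _ _ (by rw [show sg^[n] (y p).1 = v.1 from hn]; exact E3 v)))
  simpa using this

theorem fh_succ {p : ℤ} (h1 : -a < p) (h2 : p < a) (h : Fr a p) : FH a (p + 1) := by
  intro y hy b
  obtain ⟨x, hx, j, rfl⟩ := pre ha hf hy
  obtain ⟨v, hv⟩ := Finite.surjective_of_injective P_inj ((Ot a j x p).1, b, (Ot a j x p).2.2)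
  refine (sym ha hf hx (Rch.one j x)).trans ((h x hx v).trans ?_)
  unfold U
  rw [← Mv_h, ← hv, ← Ot_upd _ _ h1 h2]
  exact Rch.one _ _

theorem fh_zero : FH a (-a + 1) := by
  intro y hy b
  obtain ⟨x, hx, j, rfl⟩ := pre ha hf hy
  refine (sym ha hf hx (Rch.one j x)).trans ?_
  unfold U
  rw [← Mv_h]
  convert Rch.one (δ := fun j y => Mv (Ot a j y)) (b, j.2) x using 2
  funext i
  by_cases e : i = -a
  · subst e; simp [Ot]
  · simp only [Ot, update_of_ne e, if_neg e]

theorem fg_zero : FG a (-a) := by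
  intro y hy b
  have : update y (-a) ((y (-a)).1, (y (-a)).2.1, b) ∈ Nrm a := by
    funext i
    have := congrFun (show Cut a y = y from hy) i
    by_cases e : i = -a
    · subst e
      simp only [Cut, if_true, update_self] at this ⊢
      rw [← this]
    · simpa only [Cut, update_of_ne e] using this
  refine (Rch.one (false, false) y).trans (sym ha hf this ?_)
  convert Rch.one (δ := U a) (false, false) _ using 1
  unfold U
  congr 1
  funext i
  by_cases e : i = -a
  · subst e; simp [Ot]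
  · simp only [Ot, update_of_ne e]

theorem fr_all (n : ℕ) (h : -a + 1 + n < a) : Fr a (-a + 1 + n) := by
  induction n with
  | zero =>
    refine fr_of ha hf (by omega) h (by simpa using fh_zero ha hf) (by simpa using fg_zero ha hf)
  | succ n ih =>
    have ih := ih (by omega)
    refine fr_of ha hf (by omega) h ?_ ?_
    · convert fh_succ ha hf (by omega) (by omega) ih using 1; omega
    · rw [show -a + 1 + (n + 1 : ℕ) - 1 = -a + 1 + n by omega]
      exact fun y hy b => ih y hy _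

theorem reach (w : ℤ → S) (n : ℕ) : ∀ y ∈ Nrm a, ∃ y' ∈ Nrm a, Rch (U a) y y' ∧
    ∀ i, -a < i → i < a → i < -a + 1 + n → y' i = w i := by
  intro y hy
  induction n with
  | zero => exact ⟨y, hy, Rch.refl _, fun i _ _ _ => by omega⟩
  | succ n ih =>
    obtain ⟨y', h1, h2, h3⟩ := ih
    by_cases e : -a + 1 + n < a
    · refine ⟨_, upd_nrm h1 (by omega) e (w (-a + 1 + n)), h2.trans (fr_all ha hf n e _ h1 _),
        fun i b c d => ?_⟩
      by_cases e' : i = -a + 1 + n
      · subst e'; simp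
      · rw [update_of_ne e']; exact h3 i b c (by omega)
    · exact ⟨y', h1, h2, fun i b c d => h3 i b c (by omega)⟩
end

theorem cut_step (ha : 0 < a) (y : ℤ → S) (v : ℕ) (hv : v < 4) (l1 : (y (-a)).1.1.val = 1)
    (l2 : (y (-a)).2.1 = false) (l3 : (y (-a)).1.2.1.val = v) (r1 : flN (y a).1.1 = 1)
    (r2 : (y a).2.2 = false) (r3 : (y a).1.2.2.val = v) :
    Cut a (F y) = U a (decide (v / 2 = 1), decide (v % 2 = 1)) (Cut a y) := by
  obtain ⟨-, b1, -, b2, -⟩ := P_left (a := 1) (b := (y (-a)).1.2.2) (d := v) l2 (R7 (by omega))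
  obtain ⟨-, c1, -, c2, -⟩ := P_right (a := 1) (b := (y a).1.2.1) (d := v) r2 (R7 (by omega))
  have b1 := Fin.ext b1
  have c1 := Fin.ext c1
  simp only [true_and] at b2 c2
  funext i
  by_cases e1 : i - 1 = -a <;> by_cases e2 : i + 1 = a <;>
  simp only [Cut, U, F, Mv, Ot] <;>
  split_ifs <;> first | omega | rfl | simp only [e1, e2, b1, b2, c1, c2]

theorem dense (w : ℤ → S) (n : ℕ) : ∃ t, ∀ i : ℤ, -(n + 1 : ℕ) < i → i < (n + 1 : ℕ) →
    F^[t] (x0 (4 ^ 43 : ℕ)) i = w i := by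
  obtain ⟨hf, hc⟩ := Nrm_card (n + 1)
  have ha : (0 : ℤ) < (n + 1 : ℕ) := by omega
  obtain ⟨u, hu⟩ := universal (δ := U (n + 1 : ℕ)) hf (U_nrm ha)
    (Y := fun y => ∀ i : ℤ, -(n + 1 : ℕ) < i → i < (n + 1 : ℕ) → y i = w i) (fun y hy => by
      obtain ⟨y', -, h1, h2⟩ := reach ha hf w (2 * (n + 1)) y hy
      exact ⟨y', h1, fun i b c => h2 i b c (by omega)⟩) hc
  obtain ⟨t, ht⟩ := machine n (fun k => 2 * (u k).1.toNat + (u k).2.toNat) (fun k => by
    rcases u k with ⟨_ | _, _ | _⟩ <;> simp)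
  obtain ⟨m, hm, hy⟩ := hu _ (Cut_nrm (F^[t] (x0 (4 ^ 43 : ℕ))))
  rw [← pow_add, show 7 * (2 * (n + 1) + 1) + 7 * (2 * (n + 1) + 1) = 28 * (n + 1) + 14 by ring] at hm
  have key : ∀ k, k ≤ m → Cut (n + 1 : ℕ) (F^[t + k] (x0 (4 ^ 43 : ℕ))) =
      run (U (n + 1 : ℕ)) u (Cut (n + 1 : ℕ) (F^[t] (x0 (4 ^ 43 : ℕ)))) k := by
    intro k
    induction k with
    | zero => exact fun _ => rfl
    | succ k ih =>
      intro hk
      obtain ⟨a1, a2, a3⟩ := ht _ initL k (by omega)
      obtain ⟨b1, b2, b3⟩ := ht _ initR k (by omega)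
      simp only [vL, vR, neg_neg] at a1 a2 a3 b1 b2 b3
      rw [← add_assoc, iterate_succ_apply', cut_step ha _ _ (by
        rcases u k with ⟨_ | _, _ | _⟩ <;> simp) a1 a2 a3 b1 b2 b3, run, ih (by omega)]
      congr 1
      rcases u k with ⟨_ | _, _ | _⟩ <;> simp
  refine ⟨t + m, fun i b c => ?_⟩
  rw [← hy i b c, ← key m le_rfl]
  simp only [Cut]
  split_ifs <;> first | omega | rfl

end
end Pool.Agent.H63.UP
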